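import Pool.Agent.P.MP_2e1554_gt.IsoDefs

open MeasureTheory Set Finset Matrix Filter Topology Pointwise

namespace Pool.Agent.P.MP_2e1554_gt

variable {n : ℕ}

lemma Body.vol_pos {K : Set (Fin n → ℝ)} (hK : Body K) : 0 < volume.real K :=
  ENNReal.toReal_pos (Measure.measure_pos_of_nonempty_interior _ hK.int).ne'
    hK.cpt.measure_lt_top.ne

/-- the affine map `x ↦ T x + c` -/
noncomputable def affMapA (T : Matrix (Fin n) (Fin n) ℝ) (c : Fin n → ℝ) :
    (Fin n → ℝ) →ᵃ[ℝ] (Fin n → ℝ) :=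
  (toLin' T).toAffineMap + AffineMap.const ℝ (Fin n → ℝ) c

lemma affMapA_coe (T : Matrix (Fin n) (Fin n) ℝ) (c : Fin n → ℝ) :
    ⇑(affMapA T c) = fun x => T *ᵥ x + c := by
  ext x i
  simp [affMapA]

lemma continuous_affA (T : Matrix (Fin n) (Fin n) ℝ) (c : Fin n → ℝ) :
    Continuous fun x : Fin n → ℝ => T *ᵥ x + c :=
  (continuous_const.matrix_mulVec continuous_id).add continuous_const

/-- the affine map `x ↦ T x + c` as a homeomorphism -/
noncomputable def affHomA {T : Matrix (Fin n) (Fin n) ℝ} (hT : T.det ≠ 0) (c : Fin n → ℝ) :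
    (Fin n → ℝ) ≃ₜ (Fin n → ℝ) where
  toFun x := T *ᵥ x + c
  invFun y := T⁻¹ *ᵥ y + -(T⁻¹ *ᵥ c)
  left_inv x := by
    simp only [mulVec_add, mulVec_mulVec, nonsing_inv_mul _ (Ne.isUnit hT), one_mulVec]
    abel
  right_inv y := by
    simp only [mulVec_add, mulVec_neg, mulVec_mulVec, mul_nonsing_inv _ (Ne.isUnit hT), one_mulVec]
    abel
  continuous_toFun := continuous_affA T c
  continuous_invFun := continuous_affA _ _

lemma injective_affA {T : Matrix (Fin n) (Fin n) ℝ} (hT : T.det ≠ 0) (c : Fin n → ℝ) :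
    Function.Injective fun x : Fin n → ℝ => T *ᵥ x + c :=
  (affHomA hT c).injective

lemma Body.aff {K : Set (Fin n → ℝ)} (hK : Body K) {T : Matrix (Fin n) (Fin n) ℝ}
    (hT : T.det ≠ 0) (c : Fin n → ℝ) : Body (aff T c K) := by
  refine ⟨?_, hK.cpt.image (continuous_affA T c), ?_⟩
  · have := hK.cvx.affine_image (affMapA T c)
    rwa [affMapA_coe] at this
  · have := (affHomA hT c).image_interior K
    exact (hK.int.image (affHomA hT c)).mono this.subset

lemma integral_aff {K : Set (Fin n → ℝ)} (hK : MeasurableSet K) {T : Matrix (Fin n) (Fin n) ℝ}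
    (hT : T.det ≠ 0) (c : Fin n → ℝ) (f : (Fin n → ℝ) → ℝ) :
    ∫ x in aff T c K, f x = |T.det| * ∫ x in K, f (T *ᵥ x + c) := by
  have hd : ∀ x ∈ K, HasFDerivWithinAt (fun x : Fin n → ℝ => T *ᵥ x + c)
      (LinearMap.toContinuousLinearMap (toLin' T)) K x := fun x _ =>
    ((LinearMap.toContinuousLinearMap (toLin' T)).hasFDerivAt.add_const c).hasFDerivWithinAt
  have := integral_image_eq_integral_abs_det_fderiv_smul volume hK hd
    (injective_affA hT c).injOn f
  rw [aff, this, ← integral_const_mul]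
  simp

lemma vol_aff (K : Set (Fin n → ℝ)) (T : Matrix (Fin n) (Fin n) ℝ) (c : Fin n → ℝ) :
    volume.real (aff T c K) = |T.det| * volume.real K := by
  have e : aff T c K = (fun x => x + c) '' (toLin' T '' K) := by
    rw [aff, image_image]
    simp
  rw [e, Measure.real, Set.image_add_right, measure_preimage_add_right,
    Measure.addHaar_image_linearMap, ENNReal.toReal_mul, ENNReal.toReal_ofReal (abs_nonneg _),
    LinearMap.det_toLin']
  rfl

lemma vol_smul (K : Set (Fin n → ℝ)) {s : ℝ} (hs : 0 ≤ s) :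
    volume.real (s • K) = s ^ n * volume.real K := by
  rw [Measure.real, Measure.addHaar_smul_of_nonneg _ hs, ENNReal.toReal_mul,
    ENNReal.toReal_ofReal (pow_nonneg hs _)]
  simp [Measure.real]

/-- the affine map in homogeneous coordinates -/
def hmatA (T : Matrix (Fin n) (Fin n) ℝ) (c : Fin n → ℝ) :
    Matrix (Fin (n + 1)) (Fin (n + 1)) ℝ :=
  Matrix.of fun i => Fin.cases (ins 0 1 0) (fun k => ins 0 (c k) (T k)) i

lemma ins_succA (s : ℝ) (x : Fin n → ℝ) (i : Fin n) : ins 0 s x (Fin.succ i) = x i :=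
  ins_succAbove 0 s x i

lemma hmatA_mulVec (T : Matrix (Fin n) (Fin n) ℝ) (c x : Fin n → ℝ) :
    hmatA T c *ᵥ ins 0 1 x = ins 0 1 (T *ᵥ x + c) := by
  ext i
  refine Fin.cases ?_ (fun k => ?_) i
  · simp [hmatA, mulVec, dotProduct, Fin.sum_univ_succ, ins_succA]
  · simp [hmatA, mulVec, dotProduct, Fin.sum_univ_succ, ins_succA, add_comm]

lemma det_hmatA (T : Matrix (Fin n) (Fin n) ℝ) (c : Fin n → ℝ) : (hmatA T c).det = T.det := by
  rw [det_succ_row_zero, Fin.sum_univ_succ]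
  have h0 : hmatA T c 0 0 = 1 := by simp [hmatA]
  have h1 : ∀ j : Fin n, hmatA T c 0 (Fin.succ j) = 0 := by
    intro j
    simp [hmatA, ins_succA]
  simp only [h0, h1, mul_zero, zero_mul, Finset.sum_const_zero, add_zero, Fin.val_zero, pow_zero,
    one_mul]
  congr 1

lemma gram_affA {K : Set (Fin n → ℝ)} (hK : MeasurableSet K) {T : Matrix (Fin n) (Fin n) ℝ}
    (hT : T.det ≠ 0) (c : Fin n → ℝ) : gram (aff T c K) 1 = |T.det| • gram K (hmatA T c) := by
  ext i j
  simp only [gram, of_apply, Matrix.smul_apply, smul_eq_mul, one_mulVec, hmatA_mulVec]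
  exact integral_aff hK hT c _

lemma Jv_aff {K : Set (Fin n → ℝ)} (hK : Body K) {T : Matrix (Fin n) (Fin n) ℝ}
    (hT : T.det ≠ 0) (c : Fin n → ℝ) : Jv (aff T c K) = Jv K := by
  have hd : |T.det| ≠ 0 := abs_ne_zero.2 hT
  have hv := hK.vol_pos.ne'
  rw [Jv, Jv, gram_affA hK.cpt.measurableSet hT, gram_eq hK.cpt, det_smul, det_mul, det_mul,
    det_transpose, det_hmatA, vol_aff, Fintype.card_fin]
  have e : T.det * (gram K 1).det * T.det = |T.det| ^ 2 * (gram K 1).det := by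
    rw [sq_abs]; ring
  rw [e]
  field_simp
  ring

lemma Iso.gram_eq {K : Set (Fin n → ℝ)} (hK : Iso K) :
    gram K 1 = volume.real K • (1 : Matrix (Fin (n + 1)) (Fin (n + 1)) ℝ) := by
  ext i j
  simp only [gram, of_apply, one_mulVec, Matrix.smul_apply, smul_eq_mul]
  refine Fin.cases ?_ (fun k => ?_) i <;> refine Fin.cases ?_ (fun l => ?_) j
  · simp
  · simp [ins_succA, hK.m1, (Fin.succ_ne_zero l).symm]
  · simp [ins_succA, hK.m1, Fin.succ_ne_zero k]
  · simp [ins_succA, hK.m2, Matrix.one_apply]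

lemma Iso.Jv_eq {K : Set (Fin n → ℝ)} (hK : Iso K) : Jv K = 1 / volume.real K ^ 2 := by
  have hv := hK.toBody.vol_pos.ne'
  rw [Jv, hK.gram_eq, det_smul, det_one, Fintype.card_fin]
  field_simp
  ring

lemma Jv_norm {K : Set (Fin n → ℝ)} (hv : volume K = 1) (hc : ∀ i, ∫ x in K, x i = 0) :
    Jv K = (Matrix.of fun i j : Fin n => ∫ x in K, x i * x j).det := by
  rw [Jv, det_gram_one hv hc, Measure.real, hv]
  simp

lemma aff_inv (K : Set (Fin n → ℝ)) {T : Matrix (Fin n) (Fin n) ℝ} (hT : T.det ≠ 0)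
    (c : Fin n → ℝ) : aff T⁻¹ (-(T⁻¹ *ᵥ c)) (aff T c K) = K :=
  (affHomA hT c).toEquiv.symm_image_image K

lemma aff_simplex {T : Matrix (Fin n) (Fin n) ℝ} (hT : T.det ≠ 0) (c : Fin n → ℝ)
    {w : Fin (n + 1) → Fin n → ℝ} (hw : AffineIndependent ℝ w) :
    AffineIndependent ℝ (fun i => T *ᵥ w i + c) ∧
      aff T c (convexHull ℝ (Set.range w)) = convexHull ℝ (Set.range fun i => T *ᵥ w i + c) := by
  constructor
  · have := hw.map' (affMapA T c) (by rw [affMapA_coe]; exact injective_affA hT c)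
    rwa [affMapA_coe] at this
  · have := (affMapA T c).image_convexHull (Set.range w)
    rw [affMapA_coe, ← Set.range_comp] at this
    exact this

lemma Near.aff {η : ℝ} {K : Set (Fin n → ℝ)} (h : Near η K) {T : Matrix (Fin n) (Fin n) ℝ}
    (hT : T.det ≠ 0) (c : Fin n → ℝ) : Near η (aff T c K) := by
  obtain ⟨w, hw, hs, hv⟩ := h
  obtain ⟨h1, h2⟩ := aff_simplex hT c hw
  refine ⟨_, h1, ?_, ?_⟩
  · rw [← h2]
    exact image_mono hs
  · rw [← h2, vol_aff, vol_aff, mul_left_comm]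
    exact mul_lt_mul_of_pos_left hv (abs_pos.2 hT)

lemma not_near_zero {K : Set (Fin n → ℝ)} : ¬ Near 0 K := by
  rintro ⟨w, -, hs, hv⟩
  have := measureReal_mono (μ := volume) hs (compact_simplex w).measure_lt_top.ne
  linarith

/-- integrals of affine and quadratic functions over an isotropic body -/
lemma Iso.int_dot {K : Set (Fin n → ℝ)} (hK : Iso K) (a : Fin n → ℝ) :
    ∫ x in K, a ⬝ᵥ x = 0 := by
  simp only [dotProduct]
  rw [integral_finsetSum _ fun i _ => ContinuousOn.integrableOn_compact hK.cpt (by fun_prop)]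
  simp only [integral_const_mul, hK.m1, mul_zero, Finset.sum_const_zero]

lemma Iso.int_dot_mul {K : Set (Fin n → ℝ)} (hK : Iso K) (a b : Fin n → ℝ) :
    ∫ x in K, (a ⬝ᵥ x) * (b ⬝ᵥ x) = volume.real K * (a ⬝ᵥ b) := by
  have e : ∀ (u x : Fin n → ℝ), ins 0 0 u ⬝ᵥ ins 0 1 x = u ⬝ᵥ x := by
    intro u x
    simp [dotProduct, Fin.sum_univ_succ, ins_succA]
  have e' : ins 0 0 a ⬝ᵥ ins 0 0 b = a ⬝ᵥ b := by
    simp [dotProduct, Fin.sum_univ_succ, ins_succA]
  have := gram_quad hK.cpt 1 (ins 0 0 a) (ins 0 0 b)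
  simp only [one_mulVec, e] at this
  rw [← this, hK.gram_eq, smul_mulVec, one_mulVec, dotProduct_smul, e', smul_eq_mul]

end Pool.Agent.P.MP_2e1554_gt
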