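import Pool.Agent.P.MP_2e1554_gt.LocA

open MeasureTheory Set Finset Matrix Filter Topology Pointwise

namespace Pool.Agent.P.MP_2e1554_gt

variable {n : ℕ}

theorem algA_cs (u v : Fin 4 → ℝ) : (u ⬝ᵥ v) ^ 2 ≤ (u ⬝ᵥ u) * (v ⬝ᵥ v) := by
  have h := Finset.sum_mul_sq_le_sq_mul_sq Finset.univ u v
  simpa [dotProduct, sq] using h

theorem algA_nn (u : Fin 4 → ℝ) : 0 ≤ u ⬝ᵥ u :=
  Finset.sum_nonneg fun i _ => mul_self_nonneg (u i)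

theorem algA_low {R : Matrix (Fin 4) (Fin 4) ℝ} {ρ : ℝ}
    (hρ0 : 0 ≤ ρ) (hρ : ρ < 1) (hR : ∀ v, (R *ᵥ v) ⬝ᵥ (R *ᵥ v) ≤ ρ ^ 2 * (v ⬝ᵥ v))
    (v : Fin 4 → ℝ) :
    (1 - ρ) ^ 2 * (v ⬝ᵥ v) ≤ ((1 - R) *ᵥ v) ⬝ᵥ ((1 - R) *ᵥ v) := by
  set w := R *ᵥ v with hw
  set b := (1 - R) *ᵥ v with hb
  have e : b = v - w := by rw [hb, Matrix.sub_mulVec, Matrix.one_mulVec]
  have hv := algA_nn v
  have h1 : (v ⬝ᵥ w) ^ 2 ≤ (ρ * (v ⬝ᵥ v)) ^ 2 := by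
    have := algA_cs v w
    have h2 := mul_le_mul_of_nonneg_left (hR v) hv
    calc _ ≤ _ := this
      _ ≤ _ := h2
      _ = _ := by ring
  have h2 : v ⬝ᵥ w ≤ ρ * (v ⬝ᵥ v) := (abs_le_of_sq_le_sq' h1 (mul_nonneg hρ0 hv)).2
  have h3 : v ⬝ᵥ b = v ⬝ᵥ v - v ⬝ᵥ w := by rw [e, dotProduct_sub]
  have h4 : (1 - ρ) * (v ⬝ᵥ v) ≤ v ⬝ᵥ b := by rw [h3]; linarith
  have h5 : ((1 - ρ) * (v ⬝ᵥ v)) ^ 2 ≤ (v ⬝ᵥ v) * (b ⬝ᵥ b) :=
    (pow_le_pow_left₀ (mul_nonneg (by linarith) hv) h4 2).trans (algA_cs v b)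
  rcases hv.eq_or_lt with h0 | h0
  · rw [← h0, mul_zero]; exact algA_nn b
  · refine le_of_mul_le_mul_left ?_ h0
    calc _ = ((1 - ρ) * (v ⬝ᵥ v)) ^ 2 := by ring
      _ ≤ _ := h5

/-- four dimensional core of the local step -/
theorem alg_core {p q : Fin 4 → Fin 4 → ℝ} {μ : Fin 4 → ℝ} {R : Matrix (Fin 4) (Fin 4) ℝ} {ρ : ℝ}
    (hρ0 : 0 ≤ ρ) (hρ : ρ < 1) (hR : ∀ v, (R *ᵥ v) ⬝ᵥ (R *ᵥ v) ≤ ρ ^ 2 * (v ⬝ᵥ v))
    (hp : ∀ i, p i ⬝ᵥ p i ≤ 10) (hq : ∀ i, q i ⬝ᵥ q i ≤ 4) (hμ : ∀ i, μ i ≠ 0)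
    (hI : ∀ k l, ∑ i, μ i * q i k * p i l = (1 - R) k l) :
    (∀ (x r : Fin 4 → ℝ), (∀ k, ∑ i, μ i * q i k * x i = r k) →
      ∀ i, (1 - ρ) ^ 2 * x i ^ 2 ≤ 10 * (r ⬝ᵥ r)) ∧
    ∀ i j, i ≠ j → (1 - ρ) ^ 2 * (p i ⬝ᵥ q j) ^ 2 ≤ 40 * ρ ^ 2 := by
  have hlow := algA_low hρ0 hρ hR
  set Q : Matrix (Fin 4) (Fin 4) ℝ := Matrix.of fun k i => μ i * q i k with hQ
  set P : Matrix (Fin 4) (Fin 4) ℝ := Matrix.of fun i l => p i l with hP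
  have hQP : Q * P = 1 - R := by
    ext k l
    rw [← hI k l, Matrix.mul_apply]
    rfl
  have hpos : 0 < (1 - ρ) ^ 2 := pow_pos (by linarith) 2
  have hinj : Function.Injective (1 - R).mulVec := by
    intro v w hvw
    have h0 : (1 - R) *ᵥ (v - w) = 0 := by rw [Matrix.mulVec_sub, hvw, sub_self]
    have h1 := hlow (v - w)
    rw [h0, dotProduct_zero] at h1
    have h2 : (v - w) ⬝ᵥ (v - w) = 0 := by
      have := algA_nn (v - w)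
      nlinarith
    exact sub_eq_zero.1 (dotProduct_self_eq_zero.1 h2)
  have hU : IsUnit (1 - R) := Matrix.mulVec_injective_iff_isUnit.1 hinj
  have hsurj : Function.Surjective (1 - R).mulVec := Matrix.mulVec_surjective_iff_isUnit.2 hU
  have hQU : IsUnit Q := by
    rw [Matrix.isUnit_iff_isUnit_det] at hU ⊢
    rw [← hQP, Matrix.det_mul] at hU
    exact isUnit_of_mul_isUnit_left hU
  have hQinj : Function.Injective Q.mulVec := Matrix.mulVec_injective_iff_isUnit.2 hQU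
  have key : ∀ (x r : Fin 4 → ℝ), (∀ k, ∑ i, μ i * q i k * x i = r k) →
      ∃ v, (1 - R) *ᵥ v = r ∧ ∀ i, x i = p i ⬝ᵥ v := by
    intro x r hx
    obtain ⟨v, hv⟩ := hsurj r
    refine ⟨v, hv, fun i => ?_⟩
    have h1 : Q *ᵥ x = r := by
      funext k
      rw [← hx k]
      rfl
    have h2 : Q *ᵥ (P *ᵥ v) = r := by rw [Matrix.mulVec_mulVec, hQP, hv]
    have h3 : x = P *ᵥ v := hQinj (h1.trans h2.symm)
    rw [h3]
    rfl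
  refine ⟨fun x r hx i => ?_, fun i j hij => ?_⟩
  · obtain ⟨v, hv, hxv⟩ := key x r hx
    have h1 := hlow v
    rw [hv] at h1
    have h2 := algA_cs (p i) v
    have h3 := mul_le_mul_of_nonneg_right (hp i) (algA_nn v)
    rw [hxv i]
    have h4 := mul_le_mul_of_nonneg_left (h2.trans h3) hpos.le
    linarith
  · obtain ⟨v, hv, hxv⟩ := key (Pi.single j (μ j)⁻¹) (q j) (by
      intro k
      rw [Finset.sum_eq_single j]
      · have := hμ j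
        simp only [Pi.single_eq_same]
        field_simp
      · intro b _ hb
        simp [hb]
      · simp)
    have h0 : p i ⬝ᵥ v = 0 := by
      rw [← hxv i]
      simp [hij]
    have h1 := hlow v
    rw [hv] at h1
    have h2 : p i ⬝ᵥ q j = -(p i ⬝ᵥ (R *ᵥ v)) := by
      rw [← hv, Matrix.sub_mulVec, Matrix.one_mulVec, dotProduct_sub, h0, zero_sub]
    have h3 := algA_cs (p i) (R *ᵥ v)
    have h4 := mul_le_mul_of_nonneg_right (hp i) (algA_nn (R *ᵥ v))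
    have h5 := hR v
    have h6 : (p i ⬝ᵥ q j) ^ 2 ≤ 10 * (ρ ^ 2 * (v ⬝ᵥ v)) := by
      rw [h2, neg_sq]
      linarith
    have h7 := mul_le_mul_of_nonneg_left h6 hpos.le
    have h8 := mul_le_mul_of_nonneg_left (h1.trans (hq j)) (sq_nonneg ρ)
    nlinarith

end Pool.Agent.P.MP_2e1554_gt
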