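import Mathlib

open MeasureTheory Set Finset Matrix Filter Topology Pointwise

namespace Pool.Agent.P.MP_2e1554_gt

variable {n : ℕ}

/-- weighted Cauchy-Schwarz for vectors -/
theorem algB_wcs {ι : Type*} (B : Finset ι) (μ : ι → ℝ) (y : ι → Fin 4 → ℝ) {M τ : ℝ}
    (hμ : ∀ k ∈ B, 0 ≤ μ k) (hτ : ∑ k ∈ B, μ k = τ)
    (hy : ∀ k ∈ B, μ k ≠ 0 → y k ⬝ᵥ y k ≤ M) (r : Fin 4 → ℝ)
    (hr : ∀ l, r l = ∑ k ∈ B, μ k * y k l) : r ⬝ᵥ r ≤ τ ^ 2 * M := by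
  have h0 : 0 ≤ τ := hτ ▸ Finset.sum_nonneg hμ
  have h1 : ∀ l, r l * r l ≤ τ * ∑ k ∈ B, μ k * (y k l * y k l) := by
    intro l
    have := Finset.sum_sq_le_sum_mul_sum_of_sq_le_mul B (r := fun k => μ k * y k l) (f := μ)
      (g := fun k => μ k * (y k l * y k l)) hμ
      (fun k hk => mul_nonneg (hμ k hk) (mul_self_nonneg _)) (fun k _ => le_of_eq (by ring))
    rw [hr l, ← hτ, ← sq]
    exact this
  have h2 : r ⬝ᵥ r ≤ τ * ∑ k ∈ B, μ k * (y k ⬝ᵥ y k) := by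
    calc r ⬝ᵥ r = ∑ l, r l * r l := rfl
      _ ≤ ∑ l, τ * ∑ k ∈ B, μ k * (y k l * y k l) := Finset.sum_le_sum fun l _ => h1 l
      _ = τ * ∑ k ∈ B, μ k * (y k ⬝ᵥ y k) := by
          rw [← Finset.mul_sum, Finset.sum_comm]
          congr 1
          refine Finset.sum_congr rfl fun k _ => ?_
          rw [← Finset.mul_sum]; rfl
  have h3 : ∑ k ∈ B, μ k * (y k ⬝ᵥ y k) ≤ ∑ k ∈ B, μ k * M := by
    refine Finset.sum_le_sum fun k hk => ?_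
    by_cases h : μ k = 0
    · simp [h]
    · exact mul_le_mul_of_nonneg_left (hy k hk h) (hμ k hk)
  rw [← Finset.sum_mul, hτ] at h3
  calc r ⬝ᵥ r ≤ τ * (τ * M) := h2.trans (mul_le_mul_of_nonneg_left h3 h0)
    _ = τ ^ 2 * M := by ring

theorem algB_symm {S : Matrix (Fin 3) (Fin 3) ℝ} (hS : S.PosSemidef) : S.IsSymm := by
  have := hS.1
  rw [Matrix.IsHermitian, Matrix.conjTranspose_eq_transpose_of_trivial] at this
  exact this

theorem algB_quad {S : Matrix (Fin 3) (Fin 3) ℝ} (hS : S.PosSemidef) (v : Fin 3 → ℝ) :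
    0 ≤ v ⬝ᵥ S *ᵥ v := by
  have := hS.dotProduct_mulVec_nonneg v
  simpa using this

theorem algB_disc {a b c : ℝ} (h : ∀ x y : ℝ, 0 ≤ a * x ^ 2 + 2 * b * x * y + c * y ^ 2) :
    b ^ 2 ≤ a * c := by
  have := discrim_le_zero (a := a) (b := 2 * b) (c := c) (fun x => by
    have := h x 1
    nlinarith)
  unfold discrim at this
  nlinarith

theorem algB_X {S : Matrix (Fin 3) (Fin 3) ℝ} (hS : S.PosSemidef) (ht : S.trace = 5) :
    ∑ i, ∑ j, (3 / 5 * S i j - if i = j then 1 else 0) ^ 2 ≤ 6 := by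
  have hs := algB_symm hS
  have s10 : S 1 0 = S 0 1 := hs.apply 0 1
  have s20 : S 2 0 = S 0 2 := hs.apply 0 2
  have s21 : S 2 1 = S 1 2 := hs.apply 1 2
  have h01 : S 0 1 ^ 2 ≤ S 0 0 * S 1 1 := algB_disc fun x y => by
    have := algB_quad hS ![x, y, 0]
    simp [dotProduct, mulVec, Fin.sum_univ_three, s10] at this
    nlinarith
  have h02 : S 0 2 ^ 2 ≤ S 0 0 * S 2 2 := algB_disc fun x y => by
    have := algB_quad hS ![x, 0, y]
    simp [dotProduct, mulVec, Fin.sum_univ_three, s20] at this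
    nlinarith
  have h12 : S 1 2 ^ 2 ≤ S 1 1 * S 2 2 := algB_disc fun x y => by
    have := algB_quad hS ![0, x, y]
    simp [dotProduct, mulVec, Fin.sum_univ_three, s21] at this
    nlinarith
  rw [Matrix.trace_fin_three] at ht
  simp [Fin.sum_univ_three, s10, s20, s21]
  have h25 : (S 0 0 + S 1 1 + S 2 2) ^ 2 = 25 := by rw [ht]; norm_num
  nlinarith

theorem algB_m {S : Matrix (Fin 3) (Fin 3) ℝ} (hS : S.PosSemidef) (ht : S.trace = 5)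
    {a m : Fin 3 → ℝ} (hm : S *ᵥ a = m) (h1 : a ⬝ᵥ m = 1) : m ⬝ᵥ m ≤ 5 := by
  have hs := algB_symm hS
  have key : ∀ i, m i * m i ≤ S i i := by
    intro i
    have h := algB_quad hS (Pi.single i 1 - m i • a)
    have e1 : S *ᵥ (Pi.single i (1 : ℝ) - m i • a) = S *ᵥ Pi.single i 1 - m i • m := by
      rw [Matrix.mulVec_sub, Matrix.mulVec_smul, hm]
    have e2 : a ⬝ᵥ S *ᵥ Pi.single i (1 : ℝ) = m i := by
      rw [Matrix.dotProduct_mulVec, ← Matrix.mulVec_transpose, hs.eq, hm]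
      simp
    have e3 : Pi.single i (1 : ℝ) ⬝ᵥ S *ᵥ Pi.single i (1 : ℝ) = S i i := by simp
    rw [e1, sub_dotProduct, dotProduct_sub, dotProduct_sub, smul_dotProduct, smul_dotProduct,
      dotProduct_smul, dotProduct_smul, e2, e3, h1] at h
    simp at h
    nlinarith
  rw [Matrix.trace_fin_three] at ht
  have := key 0
  have := key 1
  have := key 2
  simp [dotProduct, Fin.sum_univ_three]
  linarith

/-- Cauchy-Schwarz for the entrywise pairing of two 3 by 3 arrays -/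
theorem algB_pair (X W : Fin 3 → Fin 3 → ℝ) :
    (∑ i, ∑ j, X i j * W i j) ^ 2 ≤ (∑ i, ∑ j, X i j ^ 2) * ∑ i, ∑ j, W i j ^ 2 := by
  have := Finset.sum_mul_sq_le_sq_mul_sq (Finset.univ : Finset (Fin 3 × Fin 3))
    (fun x => X x.1 x.2) (fun x => W x.1 x.2)
  simpa only [Fintype.sum_prod_type] using this

theorem algB_bil (X : Fin 3 → Fin 3 → ℝ) (u v : Fin 3 → ℝ) {τ : ℝ} (h0 : 0 ≤ τ)
    (hX : ∑ i, ∑ j, X i j ^ 2 ≤ (17 * τ) ^ 2) (hu : u ⬝ᵥ u ≤ 3 / 5) (hv : v ⬝ᵥ v ≤ 3 / 5) :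
    |∑ i, ∑ j, X i j * (u i * v j)| ≤ 51 / 5 * τ := by
  have h := algB_pair X fun i j => u i * v j
  have e : ∑ i, ∑ j, (u i * v j) ^ 2 = (u ⬝ᵥ u) * (v ⬝ᵥ v) := by
    simp [dotProduct, Fin.sum_univ_three]; ring
  rw [e] at h
  have hu0 : 0 ≤ u ⬝ᵥ u := Finset.sum_nonneg fun i _ => mul_self_nonneg _
  have hv0 : 0 ≤ v ⬝ᵥ v := Finset.sum_nonneg fun i _ => mul_self_nonneg _
  have h1 : (u ⬝ᵥ u) * (v ⬝ᵥ v) ≤ 3 / 5 * (3 / 5) := mul_le_mul hu hv hv0 (by norm_num)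
  have h2 : (∑ i, ∑ j, X i j ^ 2) * ((u ⬝ᵥ u) * (v ⬝ᵥ v)) ≤ (17 * τ) ^ 2 * (3 / 5 * (3 / 5)) :=
    mul_le_mul hX h1 (mul_nonneg hu0 hv0) (sq_nonneg _)
  refine abs_le_of_sq_le_sq' ?_ (by positivity) |> abs_le.2
  nlinarith

end Pool.Agent.P.MP_2e1554_gt
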