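import Pool.Agent.P.MP_2e1554_gt.IsoAlgB

open MeasureTheory Set Finset Matrix Filter Topology Pointwise

namespace Pool.Agent.P.MP_2e1554_gt

variable {n : ℕ}

/-- bilinear bound for traceless symmetric matrices -/
theorem alg_op {X : Matrix (Fin 3) (Fin 3) ℝ} (hX : X.IsSymm) (ht : X.trace = 0)
    (u v : Fin 3 → ℝ) :
    (u ⬝ᵥ X *ᵥ v) ^ 2 ≤ 2 / 3 * (∑ i, ∑ j, X i j ^ 2) * (u ⬝ᵥ u) * (v ⬝ᵥ v) := by
  have e10 : X 1 0 = X 0 1 := hX.apply 0 1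
  have e20 : X 2 0 = X 0 2 := hX.apply 0 2
  have e21 : X 2 1 = X 1 2 := hX.apply 1 2
  rw [Matrix.trace_fin_three] at ht
  have e22 : X 2 2 = -X 0 0 - X 1 1 := by linarith
  let W : Fin 3 → Fin 3 → ℝ := fun i j =>
    (u i * v j + v i * u j) / 2 - if i = j then (u ⬝ᵥ v) / 3 else 0
  have h1 := algB_pair (fun i j => X i j) W
  have h2 : ∑ i, ∑ j, X i j * W i j = u ⬝ᵥ X *ᵥ v := by
    simp [W, dotProduct, mulVec, Fin.sum_univ_three, e10, e20, e21, e22]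
    ring
  have h3 : ∑ i, ∑ j, W i j ^ 2 ≤ 2 / 3 * ((u ⬝ᵥ u) * (v ⬝ᵥ v)) := by
    simp [W, dotProduct, Fin.sum_univ_three]
    nlinarith [sq_nonneg (u 0 * v 1 - u 1 * v 0), sq_nonneg (u 0 * v 2 - u 2 * v 0),
      sq_nonneg (u 1 * v 2 - u 2 * v 1)]
  have h4 : 0 ≤ ∑ i, ∑ j, X i j ^ 2 := by positivity
  rw [h2] at h1
  refine (h1.trans (mul_le_mul_of_nonneg_left h3 h4)).trans (le_of_eq ?_)
  ring

end Pool.Agent.P.MP_2e1554_gt
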