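import Pool.Agent.P.MP_2e1554_gt.IsoAlgA

open MeasureTheory Set Finset Matrix Filter Topology Pointwise

namespace Pool.Agent.P.MP_2e1554_gt

variable {n : ℕ}

theorem algD_comb {ι : Type*} (B : Finset ι) (μ y t : ι → ℝ) {M : ℝ}
    (hμ : ∀ k ∈ B, 0 ≤ μ k) (ht : ∀ k ∈ B, μ k ≠ 0 → |t k| ≤ M) :
    |∑ k ∈ B, μ k * y k * t k| ≤ M * ∑ k ∈ B, μ k * |y k| := by
  refine (Finset.abs_sum_le_sum_abs _ _).trans ?_
  rw [Finset.mul_sum]
  refine Finset.sum_le_sum fun k hk => ?_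
  by_cases h : μ k = 0
  · simp [h]
  · rw [abs_mul, abs_mul, abs_of_nonneg (hμ k hk), mul_comm M]
    exact mul_le_mul_of_nonneg_left (ht k hk h) (mul_nonneg (hμ k hk) (abs_nonneg _))

theorem algD_surj {R : Matrix (Fin 4) (Fin 4) ℝ} {ρ : ℝ}
    (hρ0 : 0 ≤ ρ) (hρ : ρ < 1) (hR : ∀ v, (R *ᵥ v) ⬝ᵥ (R *ᵥ v) ≤ ρ ^ 2 * (v ⬝ᵥ v)) :
    Function.Surjective (1 - R).mulVec := by
  have hlow := algA_low hρ0 hρ hR
  have hpos : 0 < (1 - ρ) ^ 2 := pow_pos (by linarith) 2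
  have hinj : Function.Injective (1 - R).mulVec := by
    intro v w hvw
    have h0 : (1 - R) *ᵥ (v - w) = 0 := by rw [Matrix.mulVec_sub, hvw, sub_self]
    have h1 := hlow (v - w)
    rw [h0, dotProduct_zero] at h1
    have h2 : (v - w) ⬝ᵥ (v - w) = 0 := by
      have := algA_nn (v - w)
      nlinarith
    exact sub_eq_zero.1 (dotProduct_self_eq_zero.1 h2)
  exact Matrix.mulVec_surjective_iff_isUnit.2 (Matrix.mulVec_injective_iff_isUnit.1 hinj)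

theorem algD_cs3 (u v : Fin 3 → ℝ) : (u ⬝ᵥ v) ^ 2 ≤ (u ⬝ᵥ u) * (v ⬝ᵥ v) := by
  have h := Finset.sum_mul_sq_le_sq_mul_sq Finset.univ u v
  simpa [dotProduct, sq] using h

theorem algD_nn3 (u : Fin 3 → ℝ) : 0 ≤ u ⬝ᵥ u :=
  Finset.sum_nonneg fun i _ => mul_self_nonneg (u i)

end Pool.Agent.P.MP_2e1554_gt
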