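import Pool.Agent.P.MP_2e1554_gt.LocD

open MeasureTheory Set Finset Matrix

namespace Pool.Agent.P.MP_2e1554_gt

variable {n : ℕ}

/-- convex body -/
structure Body (K : Set (Fin n → ℝ)) : Prop where
  cvx : Convex ℝ K
  cpt : IsCompact K
  int : (interior K).Nonempty

/-- isotropic convex body (centroid `0`, covariance the identity, any volume) -/
structure Iso (K : Set (Fin n → ℝ)) : Prop extends Body K where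
  m1 : ∀ i, ∫ x in K, x i = 0
  m2 : ∀ i j, ∫ x in K, x i * x j = if i = j then volume.real K else 0

/-- the affine invariant functional -/
noncomputable def Jv (K : Set (Fin n → ℝ)) : ℝ := (gram K 1).det / volume.real K ^ (n + 3)

/-- affine image -/
def aff (T : Matrix (Fin n) (Fin n) ℝ) (c : Fin n → ℝ) (K : Set (Fin n → ℝ)) :
    Set (Fin n → ℝ) := (fun x => T *ᵥ x + c) '' K

/-- polyhedron given by a finite set of facet vectors -/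
def poly (A : Finset (Fin n → ℝ)) : Set (Fin n → ℝ) := {x | ∀ a ∈ A, a ⬝ᵥ x ≤ 1}

/-- gauge of `poly A` -/
noncomputable def gam (A : Finset (Fin n → ℝ)) (x : Fin n → ℝ) : ℝ :=
  A.fold max 0 (fun a => a ⬝ᵥ x)

/-- cone over the facet of `poly A` with facet vector `a` -/
def cone (A : Finset (Fin n → ℝ)) (a : Fin n → ℝ) : Set (Fin n → ℝ) :=
  {x | 0 < a ⬝ᵥ x ∧ ∀ a' ∈ A, a' ⬝ᵥ x ≤ a ⬝ᵥ x}

/-- weight of a facet (`n!` times the volume of the pyramid over it) -/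
noncomputable def wt (A : Finset (Fin n → ℝ)) (a : Fin n → ℝ) : ℝ :=
  ∫ x in cone A a, Real.exp (-(a ⬝ᵥ x))

/-- volume of the part of the Euclidean unit ball in the cone over a facet -/
noncomputable def sol (A : Finset (Fin n → ℝ)) (a : Fin n → ℝ) : ℝ :=
  volume.real (cone A a ∩ {x | x ⬝ᵥ x ≤ 1})

/-- first order conditions -/
def Crit (A : Finset (Fin n → ℝ)) : Prop :=
  ∀ a ∈ A, ∀ b : Fin n → ℝ, ∫ x in cone A a,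
    (b ⬝ᵥ x) * (x ⬝ᵥ x - ((n : ℝ) + 2) ^ 2 * (n + 1)) * Real.exp (-(a ⬝ᵥ x)) = 0

open Classical in
/-- move one facet vector -/
noncomputable def mv (A : Finset (Fin n → ℝ)) (a b : Fin n → ℝ) (t : ℝ) : Finset (Fin n → ℝ) :=
  insert (a + t • b) (A.erase a)

/-- `K` lies in a simplex of volume `< (1 + η) vol K` -/
def Near (η : ℝ) (K : Set (Fin n → ℝ)) : Prop :=
  ∃ w : Fin (n + 1) → Fin n → ℝ, AffineIndependent ℝ w ∧ K ⊆ convexHull ℝ (Set.range w) ∧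
    volume.real (convexHull ℝ (Set.range w)) < (1 + η) * volume.real K

/-- section orthogonal to the first coordinate -/
def slice (K : Set (Fin (n + 1) → ℝ)) (u : ℝ) : Set (Fin n → ℝ) := {z | ins 0 u z ∈ K}

/-- volume of a section -/
noncomputable def sv (K : Set (Fin (n + 1) → ℝ)) (u : ℝ) : ℝ := volume.real (slice K u)

/-- length of the chord parallel to the first coordinate -/
noncomputable def cl (K : Set (Fin (n + 1) → ℝ)) (z : Fin n → ℝ) : ℝ :=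
  volume.real {t : ℝ | ins 0 t z ∈ K}

/-- cone over a set placed in the hyperplane `x 0 = h` -/
def hcone (h : ℝ) (F : Set (Fin n → ℝ)) : Set (Fin (n + 1) → ℝ) :=
  {x | 0 < x 0 ∧ (h / x 0) • (fun i => x (Fin.succ i)) ∈ F}

/-- one dimensional marginal: `p = q ^ k` with `q` concave, mass `V`, mean `0`, variance `1` -/
structure Marg (k : ℕ) (p : ℝ → ℝ) (α β V : ℝ) : Prop where
  lt : α < β
  pos : 0 < V
  root : ∃ q : ℝ → ℝ, ConcaveOn ℝ (Icc α β) q ∧ (∀ u ∈ Icc α β, 0 ≤ q u) ∧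
    ∀ u ∈ Icc α β, p u = q u ^ k
  int : IntegrableOn p (Icc α β)
  m0 : ∫ u in Icc α β, p u = V
  m1 : ∫ u in Icc α β, u * p u = 0
  m2 : ∫ u in Icc α β, u ^ 2 * p u = V

/-- planar concave density -/
structure Dens (g : (Fin 2 → ℝ) → ℝ) (D : Set (Fin 2 → ℝ)) (F : ℝ) : Prop where
  cvx : Convex ℝ D
  cpt : IsCompact D
  meas : Measurable g
  nonneg : ∀ y, 0 ≤ g y
  le : ∀ y, g y ≤ F
  off : ∀ y, y ∉ D → g y = 0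
  conc : ConcaveOn ℝ D g

/-- ray moments -/
noncomputable def ray (g : (Fin 2 → ℝ) → ℝ) (k : ℕ) (y : Fin 2 → ℝ) : ℝ :=
  ∫ r in Ioi (0 : ℝ), g (r • y) * r ^ (k + 1)

/-- Ball's body -/
def ballB (g : (Fin 2 → ℝ) → ℝ) : Set (Fin 2 → ℝ) := {y | y = 0 ∨ 1 ≤ 12 * ray g 1 y}

/-- unit vector -/
noncomputable def ev (θ : ℝ) : Fin 2 → ℝ := ![Real.cos θ, Real.sin θ]

/-- everything we know about a facet `F` (placed at height `h`, foot point `0`) of a critical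
isotropic polytope of volume `V` in `ℝ³` -/
structure Face (V h : ℝ) (F : Set (Fin 2 → ℝ)) : Prop where
  body : Body F
  hpos : 0 < h
  h2 : 5 / 3 ≤ h ^ 2
  c0 : ∫ z in F, (h ^ 2 + z ⬝ᵥ z - 5) = 0
  c1 : ∀ i, ∫ z in F, (h ^ 2 + z ⬝ᵥ z - 5) * z i = 0
  rad : ∀ z ∈ F, h ^ 2 + z ⬝ᵥ z ≤ 15
  pair : ∀ y ∈ F, ∀ z ∈ F, ∀ (s : ℝ) (θ : Fin 2 → ℝ) (a b : ℝ), a = -(s * h + θ ⬝ᵥ y) →
    b = s * h + θ ⬝ᵥ z → a ≤ 3 * b → b ≤ 3 * a →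
    3 * a ^ 2 - 2 * a * b + 3 * b ^ 2 ≤ 40 * (s ^ 2 + θ ⬝ᵥ θ)
  ch1 : ∀ y ∈ F, ∀ z ∈ F,
    h ^ 2 * ((y - z) ⬝ᵥ (y - z)) + (y 0 * z 1 - y 1 * z 0) ^ 2 ≤ 11 / 4 * ((y - z) ⬝ᵥ (y - z)) →
    (15 - h ^ 2) * ((y - z) ⬝ᵥ (y - z)) - (y 0 * z 1 - y 1 * z 0) ^ 2 ≤ 9 / 20 * V ^ 2
  ch2 : ∀ y ∈ F, ∀ z ∈ F,
    (15 - h ^ 2) * ((y - z) ⬝ᵥ (y - z)) - (y 0 * z 1 - y 1 * z 0) ^ 2 ≤
      2041 / 2000 * (9 / 20) * V ^ 2
  cha : ∀ y ∈ F, ∀ z ∈ F,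
    h ^ 2 * ((y - z) ⬝ᵥ (y - z)) + (y 0 * z 1 - y 1 * z 0) ^ 2 ≤ 3 * ((y - z) ⬝ᵥ (y - z)) →
    (15 - h ^ 2) * ((y - z) ⬝ᵥ (y - z)) - (y 0 * z 1 - y 1 * z 0) ^ 2 ≤
      2011 / 2000 * (9 / 20) * V ^ 2
  chb : ∀ y ∈ F, ∀ z ∈ F,
    h ^ 2 * ((y - z) ⬝ᵥ (y - z)) + (y 0 * z 1 - y 1 * z 0) ^ 2 ≤ 13 / 4 * ((y - z) ⬝ᵥ (y - z)) →
    (15 - h ^ 2) * ((y - z) ⬝ᵥ (y - z)) - (y 0 * z 1 - y 1 * z 0) ^ 2 ≤
      1013 / 1000 * (9 / 20) * V ^ 2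
  dia : ∀ y ∈ F, ∀ z ∈ F, (y - z) ⬝ᵥ (y - z) ≤ 40
  ch3 : ∀ y ∈ F, ∀ z ∈ F,
    (1 + h ^ 2) * ((y - z) ⬝ᵥ (y - z)) + (y 0 * z 1 - y 1 * z 0) ^ 2 ≤ 27 / 100 * V ^ 2
  area : ∀ k : ℝ, 0 ≤ k → k ≤ 1 →
    (1 / 2 - 2 * k / 3 + k ^ 2 / 4) ^ 2 ≤ h ^ 2 * ((1 - k + k ^ 2 / 3) * (1 / 3 - k / 2 + k ^ 2 / 5) -
      (1 / 2 - 2 * k / 3 + k ^ 2 / 4) ^ 2) →
    h * volume.real F * (1 - k + k ^ 2 / 3) ^ 2 ≤ V * (1 / 2 - 2 * k / 3 + k ^ 2 / 4)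
  pyr : ∀ k : ℝ, 0 < k → k ≤ 1 →
    h ^ 2 * ((1 - k + k ^ 2 / 3) * (1 / 3 - k / 2 + k ^ 2 / 5) -
      (1 / 2 - 2 * k / 3 + k ^ 2 / 4) ^ 2) < (1 / 2 - 2 * k / 3 + k ^ 2 / 4) ^ 2 → ∀ θ : Fin 2 → ℝ,
    h * (1 - k + k ^ 2 / 3) * (8 * volume.real F * (∫ z in F, (θ ⬝ᵥ z) ^ 2) -
      3 * (∫ z in F, θ ⬝ᵥ z) ^ 2) ≤
      40 * V * (1 / 2 - 2 * k / 3 + k ^ 2 / 4) * (θ ⬝ᵥ θ) * volume.real F

/-- solid angle integrand -/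
noncomputable def sa (h : ℝ) (F : Set (Fin 2 → ℝ)) : ℝ :=
  ∫ z in F, 1 / Real.sqrt (h ^ 2 + z ⬝ᵥ z) ^ 3

end Pool.Agent.P.MP_2e1554_gt
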