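import Pool.Agent.P.MP_2e1554_gt.LocB

open MeasureTheory Set Finset Matrix Filter Topology Pointwise

namespace Pool.Agent.P.MP_2e1554_gt

/-- squared distance of `3/5 S` to the identity -/
noncomputable def Nm (S : Matrix (Fin 3) (Fin 3) ℝ) : ℝ :=
  ∑ i, ∑ j, (3 / 5 * S i j - if i = j then 1 else 0) ^ 2

/-- second moment matrix of a facet -/
noncomputable def Sm (h : ℝ) (F : Set (Fin 2 → ℝ)) : Matrix (Fin 3) (Fin 3) ℝ :=
  Matrix.of fun i j => (volume.real F)⁻¹ * ∫ z in F, ins 0 h z i * ins 0 h z j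

/-- the same quantity in the covariance frame -/
noncomputable def Nq (g₁ g₂ v₁ v₂ : ℝ) : ℝ :=
  9 / 25 * ((5 - g₁ - g₂) ^ 2 + g₁ ^ 2 + g₂ ^ 2 + 2 * v₁ ^ 2 + 2 * v₂ ^ 2) - 3

end Pool.Agent.P.MP_2e1554_gt
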