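import Pool.Agent.P.MP_2e1554_gt.IsoAlgC
import Pool.Agent.P.MP_2e1554_gt.IsoAlgD
import Pool.Agent.P.MP_2e1554_gt.IsoDefs
import Pool.Agent.P.MP_2e1554_gt.IsoDefs5

open MeasureTheory Set Finset Matrix Filter Topology Pointwise

namespace Pool.Agent.P.MP_2e1554_gt

variable {n : ℕ}

theorem algE_num {N D : ℝ} (h0 : 0 ≤ N) (h1 : N ≤ 9 / 10) (h2 : 54 * D ^ 2 ≤ N ^ 3) :
    (1 - 38 / 100 * N) ^ 2 ≤ 1 - N / 2 + D := by
  have h3 : D ^ 2 ≤ (1292 / 10000 * N) ^ 2 := by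
    have := mul_le_mul_of_nonneg_left h1 (sq_nonneg N)
    nlinarith [sq_nonneg N]
  have h4 : -(1292 / 10000 * N) ≤ D := (abs_le_of_sq_le_sq' h3 (by positivity)).1
  have h5 := mul_le_mul_of_nonneg_left h1 h0
  nlinarith

theorem algE_disc (a b d e f : ℝ) :
    54 * (a * (b * (-a - b) - f * f) + d * (f * e - d * (-a - b)) + e * (d * f - b * e)) ^ 2 ≤
      ((a ^ 2 + d ^ 2 + e ^ 2) + (d ^ 2 + b ^ 2 + f ^ 2) + (e ^ 2 + f ^ 2 + (-a - b) ^ 2)) ^ 3 := by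
  obtain ⟨N, hN⟩ : ∃ N : ℝ, N = (a ^ 2 + d ^ 2 + e ^ 2) + (d ^ 2 + b ^ 2 + f ^ 2) +
      (e ^ 2 + f ^ 2 + (-a - b) ^ 2) := ⟨_, rfl⟩
  have h := algB_pair (fun i j => !![a, d, e; d, b, f; e, f, -a - b] i j)
    (fun i j => !![a * a + d * d + e * e - N / 3, a * d + d * b + e * f, a * e + d * f + e * (-a - b);
      a * d + d * b + e * f, d * d + b * b + f * f - N / 3, d * e + b * f + f * (-a - b);
      a * e + d * f + e * (-a - b), d * e + b * f + f * (-a - b),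
        e * e + f * f + (-a - b) * (-a - b) - N / 3] i j)
  simp only [Fin.sum_univ_three, Matrix.of_apply, Matrix.cons_val', Matrix.cons_val_zero,
    Matrix.cons_val_one, Matrix.cons_val_two, Matrix.cons_val_fin_one, Matrix.head_cons,
    Matrix.tail_cons, Matrix.head_fin_const] at h
  subst hN
  linear_combination 6 * h

/-- determinant near the identity, sharp cubic term -/
theorem alg_det3 {S : Matrix (Fin 3) (Fin 3) ℝ} (hS : S.IsSymm) (ht : S.trace = 5)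
    (h1 : Nm S ≤ 9 / 10) : 125 / 27 * (1 - 38 / 100 * Nm S) ^ 2 ≤ S.det := by
  obtain ⟨N, hN⟩ : ∃ N, N = Nm S := ⟨_, rfl⟩
  rw [← hN] at h1 ⊢
  unfold Nm at hN
  have e10 : S 1 0 = S 0 1 := hS.apply 0 1
  have e20 : S 2 0 = S 0 2 := hS.apply 0 2
  have e21 : S 2 1 = S 1 2 := hS.apply 1 2
  rw [Matrix.trace_fin_three] at ht
  rw [Matrix.det_fin_three, e10, e20, e21]
  simp only [Fin.sum_univ_three, e10, e20, e21] at hN
  norm_num [Fin.ext_iff] at hN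
  obtain ⟨a, ha⟩ : ∃ a, S 0 0 = 5 / 3 * (1 + a) := ⟨3 / 5 * S 0 0 - 1, by ring⟩
  obtain ⟨b, hb⟩ : ∃ b, S 1 1 = 5 / 3 * (1 + b) := ⟨3 / 5 * S 1 1 - 1, by ring⟩
  obtain ⟨d, hd⟩ : ∃ d, S 0 1 = 5 / 3 * d := ⟨3 / 5 * S 0 1, by ring⟩
  obtain ⟨e, he⟩ : ∃ e, S 0 2 = 5 / 3 * e := ⟨3 / 5 * S 0 2, by ring⟩
  obtain ⟨f, hf⟩ : ∃ f, S 1 2 = 5 / 3 * f := ⟨3 / 5 * S 1 2, by ring⟩
  have hc : S 2 2 = 5 / 3 * (1 + (-a - b)) := by linarith
  rw [ha, hb, hc, hd, he, hf] at hN ⊢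
  have hM : N = (a ^ 2 + d ^ 2 + e ^ 2) + (d ^ 2 + b ^ 2 + f ^ 2) +
      (e ^ 2 + f ^ 2 + (-a - b) ^ 2) := by rw [hN]; ring
  have h2 := algE_disc a b d e f
  rw [← hM] at h2
  have h3 := algE_num (by rw [hM]; positivity) h1 h2
  refine (mul_le_mul_of_nonneg_left h3 (by norm_num)).trans (le_of_eq ?_)
  rw [hM]
  ring

theorem Nm_nonneg (S : Matrix (Fin 3) (Fin 3) ℝ) : 0 ≤ Nm S :=
  Finset.sum_nonneg fun _ _ => Finset.sum_nonneg fun _ _ => sq_nonneg _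

/-- the numerical end of the local step -/
theorem alg_end3 {μ N : Fin 4 → ℝ} {τ v : ℝ} (h0 : 0 ≤ τ) (h1 : τ ≤ 88 / 1000) (hv : 0 ≤ v)
    (hτ : τ = 1 - ∑ i, μ i) (hμ : ∀ i, μ i ≤ 1 / 4) (hN0 : ∀ i, 0 ≤ N i)
    (hN1 : ∑ i, μ i * N i ≤ 1457 / 10000) (hN2 : ∑ i, μ i * N i ≤ 69 * τ ^ 2)
    (hN3 : 38 / 100 * ∑ i, μ i * N i ≤ τ * (99 / 100 - 4 * τ)) :
    (∀ i, N i ≤ 9 / 10 ∧ N i ≤ (21 * τ) ^ 2) ∧
      ((∀ i, 1 - 38 / 100 * N i ≤ 4 * μ i * v) →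
        (1 - 2 * τ + 4 * τ ^ 2) + τ / 100 ≤ v * (1 - 2 * τ + 4 * τ ^ 2)) := by
  have hs : ∑ i, (1 / 4 - μ i) = τ := by
    rw [hτ, Finset.sum_sub_distrib]
    norm_num
  have hl : ∀ i, 1 / 4 - μ i ≤ τ := fun i =>
    hs ▸ Finset.single_le_sum (f := fun i => 1 / 4 - μ i) (fun j _ => sub_nonneg.2 (hμ j))
      (Finset.mem_univ i)
  have hp : ∀ i, 0 ≤ μ i := fun i => by linarith [hl i]
  refine ⟨fun i => ?_, fun h => ?_⟩
  · have a1 : μ i * N i ≤ ∑ i, μ i * N i :=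
      Finset.single_le_sum (f := fun i => μ i * N i) (fun j _ => mul_nonneg (hp j) (hN0 j))
        (Finset.mem_univ i)
    have a2 : 162 / 1000 * N i ≤ μ i * N i :=
      mul_le_mul_of_nonneg_right (by linarith [hl i]) (hN0 i)
    constructor <;> nlinarith [sq_nonneg τ]
  · have a1 : ∑ i, μ i * (1 - 38 / 100 * N i) ≤ ∑ i, μ i * (4 * μ i * v) :=
      Finset.sum_le_sum fun i _ => mul_le_mul_of_nonneg_left (h i) (hp i)
    have a2 : ∑ i, (1 / 4 - μ i) * (1 / 4 - μ i) ≤ ∑ i, (1 / 4 - μ i) * τ :=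
      Finset.sum_le_sum fun i _ => mul_le_mul_of_nonneg_left (hl i) (sub_nonneg.2 (hμ i))
    rw [← Finset.sum_mul, hs] at a2
    simp only [Fin.sum_univ_four] at a1 a2 hτ hN3
    have a3 : 4 * (μ 0 * μ 0 + μ 1 * μ 1 + μ 2 * μ 2 + μ 3 * μ 3) ≤ 1 - 2 * τ + 4 * τ ^ 2 := by
      nlinarith
    have a4 := mul_le_mul_of_nonneg_left a3 hv
    nlinarith

theorem algE_amgm {k x e N : ℝ} (hk : 0 < k) (he : e ^ 2 ≤ 6 * k ^ 2 * N) :
    x * e ≤ 5 / 36 * k * x ^ 2 + 54 / 5 * k * N := by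
  refine le_of_mul_le_mul_left ?_ hk
  nlinarith [sq_nonneg (5 / 18 * k * x - e)]

theorem algE_end {k τ W ξ η : ℝ} (h0 : 0 ≤ τ) (h1 : τ ≤ 88 / 1000) (hk0 : 0 < k)
    (hk : k * (1 - 21 / 5 * τ) = 1) (hη0 : 0 ≤ η) (hη1 : η ≤ 6 * τ)
    (hη2 : η ≤ 278 / 1000 - 3 / 2 * τ) (hξ : ξ ≤ η * W)
    (hW : W ≤ 4 * k * τ + 5 / 36 * k * W + 54 / 5 * k * τ * ξ) (hW0 : 0 ≤ W) :
    ξ ≤ 1457 / 10000 ∧ ξ ≤ 69 * τ ^ 2 ∧ 38 / 100 * ξ ≤ τ * (99 / 100 - 4 * τ) := by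
  have a1 : τ * η ≤ 12848 / 1000000 := by
    have := mul_le_mul_of_nonneg_left hη2 h0
    nlinarith
  have a2 : τ * ξ ≤ 12848 / 1000000 * W := by
    have b1 := mul_le_mul_of_nonneg_left hξ h0
    have b2 := mul_le_mul_of_nonneg_right a1 hW0
    nlinarith
  have a3 : W ≤ k * (4 * τ + 27765 / 100000 * W) := by
    have := mul_le_mul_of_nonneg_left a2 hk0.le
    have := mul_nonneg hk0.le hW0
    nlinarith
  have a4 : (72235 / 100000 - 21 / 5 * τ) * W ≤ 4 * τ := by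
    have h4 := mul_le_mul_of_nonneg_left a3 (show (0 : ℝ) ≤ 1 - 21 / 5 * τ by linarith)
    have h5 : (1 - 21 / 5 * τ) * (k * (4 * τ + 27765 / 100000 * W)) =
        4 * τ + 27765 / 100000 * W := by
      linear_combination (4 * τ + 27765 / 100000 * W) * hk
    linarith
  have a5 : 35275 / 100000 * W ≤ 4 * τ := by
    have := mul_le_mul_of_nonneg_right h1 hW0
    linarith
  have a6 : 35275 / 100000 * ξ ≤ 4 * (τ * η) := by
    have := mul_le_mul_of_nonneg_left a5 hη0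
    nlinarith
  refine ⟨by linarith, ?_, ?_⟩
  · have := mul_le_mul_of_nonneg_left hη1 h0
    nlinarith [sq_nonneg τ]
  · have hd : 0 < 72235 / 100000 - 21 / 5 * τ := by linarith
    refine le_of_mul_le_mul_left ?_ hd
    have b1 : (72235 / 100000 - 21 / 5 * τ) * ξ ≤ η * (4 * τ) := by
      have c1 := mul_le_mul_of_nonneg_left hξ hd.le
      have c2 := mul_le_mul_of_nonneg_left a4 hη0
      nlinarith
    have b2 : η * (4 * τ) ≤ (278 / 1000 - 3 / 2 * τ) * (4 * τ) :=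
      mul_le_mul_of_nonneg_right hη2 (by linarith)
    have b3 : 38 / 100 * ((278 / 1000 - 3 / 2 * τ) * 4) ≤
        (72235 / 100000 - 21 / 5 * τ) * (99 / 100 - 4 * τ) := by
      nlinarith [mul_nonneg h0 (sub_nonneg.2 h1), sq_nonneg (τ - 88 / 1000)]
    have b4 := mul_le_mul_of_nonneg_left b3 h0
    nlinarith

/-- the local step, with the second moments of the small facets -/
theorem alg_local3 {ι : Type*} (A : Finset ι) (μ : ι → ℝ) (a m : ι → Fin 3 → ℝ)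
    (S : ι → Matrix (Fin 3) (Fin 3) ℝ) (c : Fin 4 → ι) (hinj : Function.Injective c)
    (hc : ∀ i, c i ∈ A) (hμc : ∀ i, μ (c i) ≠ 0) (hμ : ∀ k ∈ A, 0 ≤ μ k) (h1 : ∑ k ∈ A, μ k = 1)
    {τ : ℝ} (hτ : τ = 1 - ∑ i, μ (c i)) (hτ1 : τ ≤ 88 / 1000)
    (hη : ∑ k ∈ A, μ k * Nm (S k) - ∑ i, μ (c i) * Nm (S (c i)) ≤ 278 / 1000 - 3 / 2 * τ)
    (hf : ∀ k ∈ A, μ k ≠ 0 → a k ⬝ᵥ a k ≤ 3 / 5 ∧ (S k).PosSemidef ∧ (S k).trace = 5 ∧
      S k *ᵥ a k = m k ∧ a k ⬝ᵥ m k = 1)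
    (hm : ∀ k ∈ A, μ k ≠ 0 → ∀ k' ∈ A, a k' ⬝ᵥ m k ≤ 1)
    (sa : ∀ j, ∑ k ∈ A, μ k * a k j = 0) (sm : ∀ i, ∑ k ∈ A, μ k * m k i = 0)
    (sma : ∀ i j, ∑ k ∈ A, μ k * (m k i * a k j) = if i = j then 1 / 3 else 0)
    (sS : ∀ i j, ∑ k ∈ A, μ k * S k i j = if i = j then 5 / 3 else 0)
    (saS : ∀ l i j, ∑ k ∈ A, μ k * (a k l * S k i j) = 0) :
    0 ≤ τ ∧
      (∑ i, μ (c i) * Nm (S (c i)) ≤ 1457 / 10000 ∧ ∑ i, μ (c i) * Nm (S (c i)) ≤ 69 * τ ^ 2 ∧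
        38 / 100 * ∑ i, μ (c i) * Nm (S (c i)) ≤ τ * (99 / 100 - 4 * τ)) ∧
      ∀ i j, i ≠ j → |1 + 3 * (m (c i) ⬝ᵥ a (c j))| ≤ 91 * τ := by
  classical
  obtain ⟨s, hs0, hs⟩ : ∃ s : ℝ, 0 < s ∧ s * s = 5 :=
    ⟨√5, by positivity, Real.mul_self_sqrt (by norm_num)⟩
  obtain ⟨B, hBA, hsplit⟩ : ∃ B : Finset ι, (∀ k ∈ B, k ∈ A) ∧
      ∀ f : ι → ℝ, ∑ k ∈ A, f k = ∑ i, f (c i) + ∑ k ∈ B, f k := by
    refine ⟨A \ Finset.univ.image c, fun k hk => (Finset.mem_sdiff.1 hk).1, fun f => ?_⟩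
    have hsub : Finset.univ.image c ⊆ A := by
      intro k hk
      obtain ⟨i, -, rfl⟩ := Finset.mem_image.1 hk
      exact hc i
    rw [← Finset.sum_sdiff hsub, Finset.sum_image (fun i _ j _ h => hinj h), add_comm]
  have hμB : ∀ k ∈ B, 0 ≤ μ k := fun k hk => hμ k (hBA k hk)
  have hτB : ∑ k ∈ B, μ k = τ := by
    have := hsplit μ
    linarith
  have h0 : 0 ≤ τ := hτB ▸ Finset.sum_nonneg hμB
  obtain ⟨p, hp0, hp1⟩ : ∃ p : ι → Fin 4 → ℝ, (∀ k, p k 0 = 1) ∧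
      ∀ k (l : Fin 3), p k l.succ = 3 * s / 5 * m k l :=
    ⟨fun k => Fin.cons 1 fun l => 3 * s / 5 * m k l, fun k => rfl, fun k l => rfl⟩
  obtain ⟨q, hq0, hq1⟩ : ∃ q : ι → Fin 4 → ℝ, (∀ k, q k 0 = 1) ∧
      ∀ k (l : Fin 3), q k l.succ = s * a k l :=
    ⟨fun k => Fin.cons 1 fun l => s * a k l, fun k => rfl, fun k l => rfl⟩
  have hpp : ∀ k ∈ A, μ k ≠ 0 → p k ⬝ᵥ p k ≤ 10 := by
    intro k hk h
    obtain ⟨-, f2, f3, f4, f5⟩ := hf k hk h
    have hm := algB_m f2 f3 f4 f5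
    have e : p k ⬝ᵥ p k = 1 + 9 / 5 * (m k ⬝ᵥ m k) := by
      simp only [dotProduct]
      rw [Fin.sum_univ_succ, hp0, Finset.mul_sum]
      congr 1
      · ring
      · refine Finset.sum_congr rfl fun l _ => ?_
        rw [hp1]
        linear_combination (9 / 25 * (m k l * m k l)) * hs
    rw [e]; linarith
  have hqq : ∀ k ∈ A, μ k ≠ 0 → q k ⬝ᵥ q k ≤ 4 := by
    intro k hk h
    obtain ⟨f1, -⟩ := hf k hk h
    have e : q k ⬝ᵥ q k = 1 + 5 * (a k ⬝ᵥ a k) := by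
      simp only [dotProduct]
      rw [Fin.sum_univ_succ, hq0, Finset.mul_sum]
      congr 1
      · ring
      · refine Finset.sum_congr rfl fun l _ => ?_
        rw [hq1]
        linear_combination (a k l * a k l) * hs
    rw [e]; linarith
  have hpq : ∀ k k', p k ⬝ᵥ q k' = 1 + 3 * (m k ⬝ᵥ a k') := by
    intro k k'
    simp only [dotProduct]
    rw [Fin.sum_univ_succ, hp0, hq0, Finset.mul_sum]
    congr 1
    · ring
    · refine Finset.sum_congr rfl fun l _ => ?_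
      rw [hp1, hq1]
      linear_combination (3 / 5 * (m k l * a k' l)) * hs
  have hid : ∀ k l : Fin 4, ∑ x ∈ A, μ x * q x k * p x l = (1 : Matrix (Fin 4) (Fin 4) ℝ) k l := by
    intro k l
    refine Fin.cases ?_ (fun k => ?_) k <;> refine Fin.cases ?_ (fun l => ?_) l
    · simp [hp0, hq0, h1]
    · have : ∑ x ∈ A, μ x * q x 0 * p x l.succ = 3 * s / 5 * ∑ x ∈ A, μ x * m x l := by
        rw [Finset.mul_sum]
        exact Finset.sum_congr rfl fun x _ => by rw [hq0, hp1]; ring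
      rw [this, sm, Matrix.one_apply_ne (Fin.succ_ne_zero l).symm, mul_zero]
    · have : ∑ x ∈ A, μ x * q x k.succ * p x 0 = s * ∑ x ∈ A, μ x * a x k := by
        rw [Finset.mul_sum]
        exact Finset.sum_congr rfl fun x _ => by rw [hq1, hp0]; ring
      rw [this, sa, Matrix.one_apply_ne (Fin.succ_ne_zero k), mul_zero]
    · have : ∑ x ∈ A, μ x * q x k.succ * p x l.succ = 3 * ∑ x ∈ A, μ x * (m x l * a x k) := by
        rw [Finset.mul_sum]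
        refine Finset.sum_congr rfl fun x _ => ?_
        rw [hq1, hp1]
        linear_combination (3 / 5 * (μ x * (m x l * a x k))) * hs
      rw [this, sma, Matrix.one_apply]
      by_cases h : l = k
      · subst h; simp
      · rw [if_neg h, if_neg (fun h' => h (Fin.succ_injective _ h').symm), mul_zero]
  set R : Matrix (Fin 4) (Fin 4) ℝ := Matrix.of fun k l => ∑ x ∈ B, μ x * q x k * p x l with hRdef
  have hR : ∀ v, (R *ᵥ v) ⬝ᵥ (R *ᵥ v) ≤ (633 / 100 * τ) ^ 2 * (v ⬝ᵥ v) := by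
    intro v
    have hv0 : 0 ≤ v ⬝ᵥ v := Finset.sum_nonneg fun i _ => mul_self_nonneg _
    have := algB_wcs B μ (fun x l => q x l * (p x ⬝ᵥ v)) (M := 40 * (v ⬝ᵥ v)) hμB hτB
      (fun x hx h => by
        have e : (fun l => q x l * (p x ⬝ᵥ v)) ⬝ᵥ (fun l => q x l * (p x ⬝ᵥ v)) =
            (q x ⬝ᵥ q x) * (p x ⬝ᵥ v) ^ 2 := by
          generalize p x ⬝ᵥ v = t
          simp [dotProduct, Fin.sum_univ_four]; ring
        have cs : (p x ⬝ᵥ v) ^ 2 ≤ (p x ⬝ᵥ p x) * (v ⬝ᵥ v) := by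
          have := Finset.sum_mul_sq_le_sq_mul_sq Finset.univ (p x) v
          simpa only [dotProduct, sq] using this
        have b1 := hpp x (hBA x hx) h
        have b2 := hqq x (hBA x hx) h
        have b3 : (p x ⬝ᵥ v) ^ 2 ≤ 10 * (v ⬝ᵥ v) := cs.trans (mul_le_mul_of_nonneg_right b1 hv0)
        rw [e]
        calc _ ≤ 4 * (10 * (v ⬝ᵥ v)) := mul_le_mul b2 b3 (sq_nonneg _) (by norm_num)
          _ = 40 * (v ⬝ᵥ v) := by ring) (R *ᵥ v) (fun l => by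
        simp only [hRdef, mulVec, dotProduct, Matrix.of_apply, Finset.sum_mul, Finset.mul_sum]
        rw [Finset.sum_comm]
        exact Finset.sum_congr rfl fun x _ => Finset.sum_congr rfl fun j _ => by ring)
    nlinarith [mul_nonneg (sq_nonneg τ) hv0]
  have hI : ∀ k l, ∑ i, μ (c i) * q (c i) k * p (c i) l = (1 - R) k l := fun k l => by
    have := hsplit fun x => μ x * q x k * p x l
    rw [hid] at this
    rw [Matrix.sub_apply, hRdef, Matrix.of_apply]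
    linarith
  have hρ0 : 0 ≤ 633 / 100 * τ := by positivity
  have hρ1 : 633 / 100 * τ < 1 := by linarith
  obtain ⟨core1, core2⟩ := alg_core (p := fun i => p (c i)) (q := fun i => q (c i))
    (μ := fun i => μ (c i)) (R := R) (ρ := 633 / 100 * τ) hρ0 hρ1 hR
    (fun i => hpp _ (hc i) (hμc i)) (fun i => hqq _ (hc i) (hμc i)) hμc hI
  have hρ : 196 / 1000 ≤ (1 - 633 / 100 * τ) ^ 2 := by nlinarith
  obtain ⟨X, hX⟩ : ∃ X : ι → Fin 3 → Fin 3 → ℝ,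
      ∀ k i j, X k i j = 3 / 5 * S k i j - if i = j then 1 else 0 := ⟨_, fun _ _ _ => rfl⟩
  have hX6 : ∀ k ∈ A, μ k ≠ 0 → ∑ i, ∑ j, X k i j ^ 2 ≤ 6 := by
    intro k hk h
    obtain ⟨-, f2, f3, -⟩ := hf k hk h
    simp only [hX]
    exact algB_X f2 f3
  have hqX : ∀ (l : Fin 4) i j, ∑ x ∈ A, μ x * q x l * X x i j = 0 := by
    intro l i j
    refine Fin.cases ?_ (fun l => ?_) l
    · have : ∑ x ∈ A, μ x * q x 0 * X x i j = 3 / 5 * ∑ x ∈ A, μ x * S x i j -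
          (if i = j then 1 else 0) * ∑ x ∈ A, μ x := by
        rw [Finset.mul_sum, Finset.mul_sum, ← Finset.sum_sub_distrib]
        exact Finset.sum_congr rfl fun x _ => by rw [hq0, hX]; ring
      rw [this, sS, h1]
      split_ifs <;> norm_num
    · have : ∑ x ∈ A, μ x * q x l.succ * X x i j = 3 / 5 * s * ∑ x ∈ A, μ x * (a x l * S x i j) -
          s * (if i = j then 1 else 0) * ∑ x ∈ A, μ x * a x l := by
        rw [Finset.mul_sum, Finset.mul_sum, ← Finset.sum_sub_distrib]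
        exact Finset.sum_congr rfl fun x _ => by rw [hq1, hX]; ring
      rw [this, saS, sa]; ring
  have hμc0 : ∀ i, 0 ≤ μ (c i) := fun i => hμ _ (hc i)
  refine ⟨h0, ?_, fun i j hij => ?_⟩
  swap
  · have c2 := core2 i j hij
    have c3 : (p (c i) ⬝ᵥ q (c j)) ^ 2 ≤ (91 * τ) ^ 2 := by
      nlinarith [mul_le_mul_of_nonneg_right hρ (sq_nonneg (p (c i) ⬝ᵥ q (c j))), sq_nonneg τ]
    have c4 := abs_le_of_sq_le_sq' c3 (by positivity)
    rw [hpq] at c4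
    exact abs_le.2 c4
  rw [hsplit fun k => μ k * Nm (S k), add_sub_cancel_left] at hη
  unfold Nm at hη ⊢
  simp only [← hX] at hη ⊢
  choose z hz using fun g => algD_surj hρ0 hρ1 hR (q g)
  obtain ⟨y, hy⟩ : ∃ y : ι → ι → ℝ, ∀ g x, y g x = p x ⬝ᵥ z g := ⟨_, fun _ _ => rfl⟩
  have hzc : ∀ g k, ∑ i, μ (c i) * q (c i) k * y g (c i) = q g k := by
    intro g k
    rw [← hz g]
    simp only [hy, mulVec, dotProduct, ← hI, Finset.sum_mul, Finset.mul_sum]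
    rw [Finset.sum_comm]
    exact Finset.sum_congr rfl fun x _ => Finset.sum_congr rfl fun j _ => by ring
  have hzB : ∀ g k, z g k = q g k + ∑ x ∈ B, μ x * y g x * q x k := by
    intro g k
    have e1 : (R *ᵥ z g) k = ∑ x ∈ B, μ x * y g x * q x k := by
      simp only [hy, hRdef, mulVec, dotProduct, Matrix.of_apply, Finset.sum_mul, Finset.mul_sum]
      rw [Finset.sum_comm]
      exact Finset.sum_congr rfl fun x _ => Finset.sum_congr rfl fun j _ => by ring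
    have e2 := congrFun (hz g) k
    rw [Matrix.sub_mulVec, Matrix.one_mulVec, Pi.sub_apply, e1] at e2
    linarith
  have hzu : ∀ g (u : Fin 4 → ℝ), u ⬝ᵥ z g = u ⬝ᵥ q g + ∑ x ∈ B, μ x * y g x * (u ⬝ᵥ q x) := by
    intro g u
    simp only [dotProduct, Finset.mul_sum]
    rw [Finset.sum_comm, ← Finset.sum_add_distrib]
    refine Finset.sum_congr rfl fun k _ => ?_
    rw [hzB g k, mul_add, Finset.mul_sum]
    congr 1
    exact Finset.sum_congr rfl fun x _ => by ring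
  obtain ⟨Y, hY⟩ : ∃ Y : ι → ℝ, ∀ g, Y g = ∑ x ∈ B, μ x * |y g x| := ⟨_, fun _ => rfl⟩
  have hY0 : ∀ g, 0 ≤ Y g := fun g =>
    hY g ▸ Finset.sum_nonneg fun x hx => mul_nonneg (hμB x hx) (abs_nonneg _)
  have hbd : ∀ g ∈ B, μ g ≠ 0 → ∀ (u : Fin 4 → ℝ) (M : ℝ),
      (∀ x ∈ B, μ x ≠ 0 → |u ⬝ᵥ q x| ≤ M) → |u ⬝ᵥ z g| ≤ M * (1 + Y g) := by
    intro g hg hg0 u M hM
    rw [hzu, mul_add, mul_one, hY]
    exact (abs_add_le _ _).trans (add_le_add (hM g hg hg0) (algD_comb B μ (y g) _ hμB hM))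
  have hpq' : ∀ x ∈ A, μ x ≠ 0 → ∀ x' ∈ A, μ x' ≠ 0 → |p x ⬝ᵥ q x'| ≤ 21 / 5 := by
    intro x hx h x' hx' h'
    obtain ⟨-, f2, f3, f4, f5⟩ := hf x hx h
    obtain ⟨g1, -⟩ := hf x' hx' h'
    have b1 := algB_m f2 f3 f4 f5
    have b2 := hm x hx h x' hx'
    rw [dotProduct_comm] at b2
    have b3 : (m x ⬝ᵥ a x') ^ 2 ≤ (26 / 15) ^ 2 := by
      have := algD_cs3 (m x) (a x')
      have h5 := mul_le_mul b1 g1 (algD_nn3 _) (by norm_num)
      linarith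
    have b4 := (abs_le_of_sq_le_sq' b3 (by norm_num)).1
    rw [hpq]
    exact abs_le.2 ⟨by linarith, by linarith⟩
  have hqq' : ∀ x ∈ A, μ x ≠ 0 → ∀ x' ∈ A, μ x' ≠ 0 → |q x ⬝ᵥ q x'| ≤ 4 := by
    intro x hx h x' hx' h'
    have b1 := algA_cs (q x) (q x')
    have b2 := mul_le_mul (hqq x hx h) (hqq x' hx' h') (algA_nn _) (by norm_num)
    exact abs_le.2 (abs_le_of_sq_le_sq' (by linarith) (by norm_num))
  obtain ⟨k, hk0, hk⟩ : ∃ k : ℝ, 0 < k ∧ k * (1 - 21 / 5 * τ) = 1 :=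
    ⟨(1 - 21 / 5 * τ)⁻¹, inv_pos.2 (by linarith), inv_mul_cancel₀ (by linarith)⟩
  have hYk : ∀ g ∈ B, μ g ≠ 0 → 1 + Y g ≤ k := by
    intro g hg hg0
    have b1 : Y g ≤ ∑ x ∈ B, μ x * (21 / 5 * (1 + Y g)) := by
      conv_lhs => rw [hY]
      refine Finset.sum_le_sum fun x hx => ?_
      by_cases h : μ x = 0
      · simp [h]
      · refine mul_le_mul_of_nonneg_left ?_ (hμB x hx)
        rw [hy]
        exact hbd g hg hg0 _ _ fun x' hx' h' => hpq' x (hBA x hx) h x' (hBA x' hx') h'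
    rw [← Finset.sum_mul, hτB] at b1
    have b2 : (1 + Y g) * (1 - 21 / 5 * τ) ≤ 1 := by linarith
    calc 1 + Y g = k * ((1 + Y g) * (1 - 21 / 5 * τ)) := by
          linear_combination (-(1 + Y g)) * hk
      _ ≤ k * 1 := mul_le_mul_of_nonneg_left b2 hk0.le
      _ = k := mul_one k
  have hqz : ∀ g ∈ B, μ g ≠ 0 → q g ⬝ᵥ z g ≤ 4 * k := by
    intro g hg hg0
    have b1 := hbd g hg hg0 (q g) 4 fun x hx h => hqq' g (hBA g hg) hg0 x (hBA x hx) h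
    have b2 := hYk g hg hg0
    linarith [le_abs_self (q g ⬝ᵥ z g)]
  obtain ⟨t, ht⟩ : ∃ t : ι → Fin 3 → ℝ, ∀ g l, t g l = z g l.succ := ⟨_, fun _ _ => rfl⟩
  have htt : ∀ g ∈ B, μ g ≠ 0 → t g ⬝ᵥ t g ≤ 3 * k ^ 2 := by
    intro g hg hg0
    have n0 := algD_nn3 (t g)
    obtain ⟨M, hM0, hM⟩ : ∃ M : ℝ, 0 ≤ M ∧ M ^ 2 = 3 * (t g ⬝ᵥ t g) :=
      ⟨√(3 * (t g ⬝ᵥ t g)), Real.sqrt_nonneg _, Real.sq_sqrt (by positivity)⟩
    have b1 := hbd g hg hg0 (Fin.cons 0 (t g)) M fun x hx h => by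
      have e : (Fin.cons 0 (t g) : Fin 4 → ℝ) ⬝ᵥ q x = s * (t g ⬝ᵥ a x) := by
        simp only [dotProduct]
        rw [Fin.sum_univ_succ, Finset.mul_sum]
        simp only [Fin.cons_zero, Fin.cons_succ, zero_mul, zero_add]
        exact Finset.sum_congr rfl fun l _ => by rw [hq1]; ring
      obtain ⟨g1, -⟩ := hf x (hBA x hx) h
      have b2 := algD_cs3 (t g) (a x)
      have b3 := mul_le_mul_of_nonneg_left g1 n0
      refine abs_le.2 (abs_le_of_sq_le_sq' ?_ hM0)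
      rw [e, hM, mul_pow, sq s, hs]
      linarith
    have e : (Fin.cons 0 (t g) : Fin 4 → ℝ) ⬝ᵥ z g = t g ⬝ᵥ t g := by
      simp only [dotProduct]
      rw [Fin.sum_univ_succ]
      simp only [Fin.cons_zero, Fin.cons_succ, zero_mul, zero_add, ht]
    rw [e, abs_of_nonneg n0] at b1
    have b2 : t g ⬝ᵥ t g ≤ M * k := b1.trans (mul_le_mul_of_nonneg_left (hYk g hg hg0) hM0)
    nlinarith [sq_nonneg (M - 3 * k)]
  obtain ⟨N, hN⟩ : ∃ N : ι → ℝ, ∀ x, N x = ∑ i, ∑ j, X x i j ^ 2 := ⟨_, fun _ => rfl⟩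
  simp only [← hN] at hη ⊢
  have hN0 : ∀ x, 0 ≤ N x := fun x =>
    hN x ▸ Finset.sum_nonneg fun i _ => Finset.sum_nonneg fun j _ => sq_nonneg _
  have he : ∀ g ∈ B, μ g ≠ 0 → ∀ i, (y g (c i) - q (c i) ⬝ᵥ z g) ^ 2 ≤ 6 * k ^ 2 * N (c i) := by
    intro g hg hg0 i
    obtain ⟨f1, f2, f3, f4, -⟩ := hf _ (hc i) (hμc i)
    have hsy := algB_symm f2
    have b1 := alg_op (X := Matrix.of (X (c i))) (by
      ext j l
      simp only [Matrix.transpose_apply, Matrix.of_apply, hX, hsy.apply j l, eq_comm]) (by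
      rw [Matrix.trace_fin_three] at f3 ⊢
      simp only [Matrix.of_apply, hX, if_true]
      linarith) (t g) (a (c i))
    simp only [Matrix.of_apply, ← hN] at b1
    have e : y g (c i) - q (c i) ⬝ᵥ z g = s * (t g ⬝ᵥ Matrix.of (X (c i)) *ᵥ a (c i)) := by
      rw [hy]
      simp only [dotProduct]
      rw [Fin.sum_univ_succ, Fin.sum_univ_succ (f := fun j => q (c i) j * z g j), hp0, hq0]
      simp only [hp1, hq1, ← ht, ← f4]
      simp [hX, dotProduct, mulVec, Fin.sum_univ_three]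
      ring
    have n0 : 0 ≤ N (c i) :=
      hN (c i) ▸ Finset.sum_nonneg fun i _ => Finset.sum_nonneg fun j _ => sq_nonneg _
    have b2 := mul_le_mul (htt g hg hg0) f1 (algD_nn3 _) (by positivity)
    have b3 := mul_le_mul_of_nonneg_left b2 n0
    rw [e, mul_pow, sq s, hs]
    linarith
  obtain ⟨w, hw⟩ : ∃ w : ι → ℝ, ∀ g, w g = ∑ i, μ (c i) * y g (c i) ^ 2 := ⟨_, fun _ => rfl⟩
  obtain ⟨ξ, hξ⟩ : ∃ ξ : ℝ, ξ = ∑ i, μ (c i) * N (c i) := ⟨_, rfl⟩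
  rw [← hξ]
  have hw0 : ∀ g, 0 ≤ w g := fun g =>
    hw g ▸ Finset.sum_nonneg fun i _ => mul_nonneg (hμc0 i) (sq_nonneg _)
  have hwg : ∀ g ∈ B, μ g ≠ 0 → w g ≤ 4 * k + 5 / 36 * k * w g + 54 / 5 * k * ξ := by
    intro g hg hg0
    have e1 : ∑ i, μ (c i) * y g (c i) * (q (c i) ⬝ᵥ z g) = q g ⬝ᵥ z g := by
      simp only [dotProduct, ← hzc g, Finset.sum_mul, Finset.mul_sum]
      rw [Finset.sum_comm]
      exact Finset.sum_congr rfl fun x _ => Finset.sum_congr rfl fun j _ => by ring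
    have e2 : w g = q g ⬝ᵥ z g +
        ∑ i, μ (c i) * (y g (c i) * (y g (c i) - q (c i) ⬝ᵥ z g)) := by
      rw [← e1, hw, ← Finset.sum_add_distrib]
      exact Finset.sum_congr rfl fun i _ => by ring
    have b1 : ∑ i, μ (c i) * (y g (c i) * (y g (c i) - q (c i) ⬝ᵥ z g)) ≤
        ∑ i, μ (c i) * (5 / 36 * k * y g (c i) ^ 2 + 54 / 5 * k * N (c i)) :=
      Finset.sum_le_sum fun i _ =>
        mul_le_mul_of_nonneg_left (algE_amgm hk0 (he g hg hg0 i)) (hμc0 i)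
    have e3 : ∑ i, μ (c i) * (5 / 36 * k * y g (c i) ^ 2 + 54 / 5 * k * N (c i)) =
        5 / 36 * k * w g + 54 / 5 * k * ξ := by
      rw [hw, hξ, Finset.mul_sum, Finset.mul_sum, ← Finset.sum_add_distrib]
      exact Finset.sum_congr rfl fun i _ => by ring
    have b2 := hqz g hg hg0
    linarith
  have hrep : ∀ i j l, X (c i) j l = -∑ g ∈ B, μ g * (y g (c i) * X g j l) := by
    intro i j l
    have b1 := core1 (fun i => X (c i) j l + ∑ g ∈ B, μ g * (y g (c i) * X g j l)) 0 (fun k' => by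
      have h2 := hsplit fun x => μ x * q x k' * X x j l
      rw [hqX] at h2
      have h3 : ∑ x ∈ B, μ x * q x k' * X x j l =
          ∑ i, μ (c i) * q (c i) k' * ∑ g ∈ B, μ g * (y g (c i) * X g j l) := by
        simp only [Finset.mul_sum]
        rw [Finset.sum_comm]
        refine Finset.sum_congr rfl fun g _ => ?_
        rw [← hzc g k', Finset.mul_sum, Finset.sum_mul]
        exact Finset.sum_congr rfl fun i _ => by ring
      simp only [mul_add, Finset.sum_add_distrib, Pi.zero_apply]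
      linarith) i
    simp only [dotProduct_zero, mul_zero] at b1
    have b2 : (X (c i) j l + ∑ g ∈ B, μ g * (y g (c i) * X g j l)) ^ 2 = 0 := by
      have := mul_le_mul_of_nonneg_right hρ
        (sq_nonneg (X (c i) j l + ∑ g ∈ B, μ g * (y g (c i) * X g j l)))
      have := sq_nonneg (X (c i) j l + ∑ g ∈ B, μ g * (y g (c i) * X g j l))
      linarith
    have := pow_eq_zero_iff (two_ne_zero) |>.1 b2
    linarith
  obtain ⟨η, hηe⟩ : ∃ η : ℝ, η = ∑ g ∈ B, μ g * N g := ⟨_, rfl⟩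
  rw [← hηe] at hη
  have hη0 : 0 ≤ η := hηe ▸ Finset.sum_nonneg fun g hg => mul_nonneg (hμB g hg) (hN0 g)
  have hη6 : η ≤ 6 * τ := by
    rw [hηe, ← hτB, Finset.mul_sum]
    refine Finset.sum_le_sum fun g hg => ?_
    by_cases h : μ g = 0
    · simp [h]
    · rw [mul_comm 6, hN]
      exact mul_le_mul_of_nonneg_left (hX6 g (hBA g hg) h) (hμB g hg)
  have hNi : ∀ i, N (c i) ≤ η * ∑ g ∈ B, μ g * y g (c i) ^ 2 := by
    intro i
    obtain ⟨G, hG⟩ : ∃ G : ι → ℝ, ∀ g, G g = ∑ j, ∑ l, X g j l * X (c i) j l := ⟨_, fun _ => rfl⟩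
    have e1 : N (c i) = -∑ g ∈ B, μ g * (y g (c i) * G g) := by
      have : N (c i) = ∑ j, ∑ l, (-∑ g ∈ B, μ g * (y g (c i) * X g j l)) * X (c i) j l := by
        rw [hN]
        refine Finset.sum_congr rfl fun j _ => Finset.sum_congr rfl fun l _ => ?_
        rw [← hrep i j l, sq]
      rw [this]
      simp only [hG, Fin.sum_univ_three, neg_mul, Finset.sum_mul, ← Finset.sum_neg_distrib,
        ← Finset.sum_add_distrib]
      exact Finset.sum_congr rfl fun g _ => by ring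
    have b1 := Finset.sum_sq_le_sum_mul_sum_of_sq_le_mul B
      (r := fun g => μ g * (y g (c i) * G g)) (f := fun g => μ g * y g (c i) ^ 2)
      (g := fun g => μ g * (N g * N (c i)))
      (fun g hg => mul_nonneg (hμB g hg) (sq_nonneg _))
      (fun g hg => mul_nonneg (hμB g hg) (mul_nonneg (hN0 _) (hN0 _))) (fun g _ => by
        have c1 : G g ^ 2 ≤ N g * N (c i) := by
          rw [hG, hN, hN]
          exact algB_pair _ _
        have c2 := mul_le_mul_of_nonneg_left c1 (sq_nonneg (μ g * y g (c i)))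
        calc _ = (μ g * y g (c i)) ^ 2 * G g ^ 2 := by ring
          _ ≤ _ := c2
          _ = _ := by ring)
    have e2 : ∑ g ∈ B, μ g * (N g * N (c i)) = η * N (c i) := by
      rw [hηe, Finset.sum_mul]
      exact Finset.sum_congr rfl fun g _ => by ring
    rw [← neg_sq, ← e1, e2] at b1
    have hP : 0 ≤ ∑ g ∈ B, μ g * y g (c i) ^ 2 :=
      Finset.sum_nonneg fun g hg => mul_nonneg (hμB g hg) (sq_nonneg _)
    rcases (hN0 (c i)).eq_or_lt with hz0 | hz0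
    · rw [← hz0]
      exact mul_nonneg hη0 hP
    · refine le_of_mul_le_mul_right ?_ hz0
      calc _ = N (c i) ^ 2 := by ring
        _ ≤ _ := b1
        _ = _ := by ring
  obtain ⟨W, hW⟩ : ∃ W : ℝ, W = ∑ g ∈ B, μ g * w g := ⟨_, rfl⟩
  have hW0 : 0 ≤ W := hW ▸ Finset.sum_nonneg fun g hg => mul_nonneg (hμB g hg) (hw0 g)
  have hξW : ξ ≤ η * W := by
    calc ξ ≤ ∑ i, μ (c i) * (η * ∑ g ∈ B, μ g * y g (c i) ^ 2) := by
          rw [hξ]
          exact Finset.sum_le_sum fun i _ => mul_le_mul_of_nonneg_left (hNi i) (hμc0 i)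
      _ = η * W := by
          simp only [hW, hw, Finset.mul_sum]
          rw [Finset.sum_comm]
          exact Finset.sum_congr rfl fun g _ => Finset.sum_congr rfl fun i _ => by ring
  have hV : W ≤ 4 * k * τ + 5 / 36 * k * W + 54 / 5 * k * τ * ξ := by
    have b1 : ∑ g ∈ B, μ g * w g ≤
        ∑ g ∈ B, μ g * (4 * k + 5 / 36 * k * w g + 54 / 5 * k * ξ) := by
      refine Finset.sum_le_sum fun g hg => ?_
      by_cases h : μ g = 0
      · simp [h]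
      · exact mul_le_mul_of_nonneg_left (hwg g hg h) (hμB g hg)
    have e2 : ∑ g ∈ B, μ g * (4 * k + 5 / 36 * k * w g + 54 / 5 * k * ξ) =
        (∑ g ∈ B, μ g) * (4 * k + 54 / 5 * k * ξ) + 5 / 36 * k * W := by
      rw [hW, Finset.mul_sum, Finset.sum_mul, ← Finset.sum_add_distrib]
      exact Finset.sum_congr rfl fun g _ => by ring
    rw [← hW, e2, hτB] at b1
    linarith
  exact algE_end h0 hτ1 hk0 hk hη0 hη6 hη hξW hV hW0

end Pool.Agent.P.MP_2e1554_gt
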