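import Pool.Agent.P.MP_2e1554_gt.IsoDefs4
import Pool.Agent.P.MP_2e1554_gt.IsoDefs5

/-! The face lemma with two branches. -/

open MeasureTheory Set Finset Matrix

namespace Pool.Agent.P.MP_2e1554_gt

/-- weight of a facet in the three-facet inequality -/
noncomputable def Ph (a : Fin 3 → ℝ) (S : Matrix (Fin 3) (Fin 3) ℝ) : ℝ :=
  5 / 2 + 5 / 2 * (a ⬝ᵥ a) + max 0 ((S *ᵥ a) ⬝ᵥ (S *ᵥ a) - 14 / 5)

/-- the same quantity in the covariance frame -/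
noncomputable def Phq (g₁ g₂ v₁ v₂ : ℝ) : ℝ :=
  5 / 2 + 5 / 2 * (g₁ * g₂ / Jq g₁ g₂ v₁ v₂) + max 0 (11 / 5 - g₁ - g₂)

/-- the face lemma in the covariance frame: a small branch and a big branch -/
def FrD (th₀ th thb kap lam s a₁ t₀ : ℝ) : Prop :=
  ∀ (g₁ g₂ v₁ v₂ J : ℝ) (K : Set (Fin 2 → ℝ)),
    Fr g₁ g₂ v₁ v₂ J K → J * volume.real K ≤ t₀ * (10 * Real.sqrt 5) →
      J * ∫ y in K, 1 / Real.sqrt (Rq g₁ g₂ v₁ v₂ y) ^ 3 ≤
        Real.pi * (min (min th₀ (thb - kap * Nq g₁ g₂ v₁ v₂)) (th + lam * (4 - Phq g₁ g₂ v₁ v₂) / 3) *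
          (J * volume.real K / (10 * Real.sqrt 5))) ∨
      J * ∫ y in K, 1 / Real.sqrt (Rq g₁ g₂ v₁ v₂ y) ^ 3 ≤
        Real.pi * (th₀ * (J * volume.real K / (10 * Real.sqrt 5)) +
          s * (J * volume.real K / (10 * Real.sqrt 5) - a₁))

/-- the face lemma with two branches -/
def FaceD (th₀ th thb kap lam s a₁ t₀ : ℝ) : Prop := ∃ ε : ℝ, 0 < ε ∧
  ∀ (V h : ℝ) (F : Set (Fin 2 → ℝ)),
    0 < V → V ^ 2 ≤ 8000 / 9 + ε → Face V h F → h * volume.real F ≤ t₀ * (10 * Real.sqrt 5) →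
      h * sa h F ≤ Real.pi * (min (min th₀ (thb - kap * Nm (Sm h F)))
          (th + lam * (4 - Ph (Pi.single 0 h⁻¹) (Sm h F)) / 3) *
        (h * volume.real F / (10 * Real.sqrt 5))) ∨
      h * sa h F ≤ Real.pi * (th₀ * (h * volume.real F / (10 * Real.sqrt 5)) +
        s * (h * volume.real F / (10 * Real.sqrt 5) - a₁))

end Pool.Agent.P.MP_2e1554_gt
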