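import Pool.Agent.P.MP_2e1554_gt.IsoAlgB
import Pool.Agent.P.MP_2e1554_gt.IsoAlgD
import Pool.Agent.P.MP_2e1554_gt.IsoDefs6

/-! Three facets leave weight at least one to the others. -/

open Finset Matrix

namespace Pool.Agent.P.MP_2e1554_gt

theorem algT_disc {w : ℝ} (hw : 1 ≤ w) :
    (3 / 25 * w ^ 3 + 71 / 50 * w ^ 2 + 61 / 10 * w - 15 / 2) ^ 2 ≤
      4 * (9 / 250 * w ^ 4 + 12 / 25 * w ^ 3) * (w ^ 2 / 10 + 7 / 5 * w + 15 / 2) := by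
  obtain ⟨t, rfl⟩ : ∃ t, w = 1 + t := ⟨w - 1, by ring⟩
  have ht : 0 ≤ t := by linarith
  nlinarith [mul_nonneg ht (sq_nonneg (t - 2)), mul_nonneg ht (sq_nonneg (t ^ 2 - 4)),
    sq_nonneg (t ^ 2 - 2 * t), mul_nonneg ht (sq_nonneg (t ^ 2 - 2 * t)), pow_nonneg ht 3,
    pow_nonneg ht 4, pow_nonneg ht 5, sq_nonneg t]

theorem algT_poly {A w : ℝ} (hA0 : 0 ≤ A) (hA : A ≤ 3 / 5) (hw : 0 ≤ w) :
    (3 / 25 * w ^ 3 + 71 / 50 * w ^ 2 + 61 / 10 * w - 15 / 2) * A ≤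
      (9 / 250 * w ^ 4 + 12 / 25 * w ^ 3) * A ^ 2 + (w ^ 2 / 10 + 7 / 5 * w + 15 / 2) := by
  have h2 : 0 ≤ (9 / 250 * w ^ 4 + 12 / 25 * w ^ 3) * A ^ 2 := by positivity
  have h0 : 0 ≤ w ^ 2 / 10 + 7 / 5 * w + 15 / 2 := by positivity
  rcases le_total w 1 with h | h
  · have a2 : w ^ 2 ≤ 1 := by nlinarith
    have a3 : w ^ 3 ≤ 1 := by nlinarith
    have a4 : (3 / 25 * w ^ 3 + 71 / 50 * w ^ 2 + 61 / 10 * w - 15 / 2) * A ≤ 1 * A :=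
      mul_le_mul_of_nonneg_right (by linarith) hA0
    nlinarith [sq_nonneg w]
  · have hd := algT_disc h
    generalize 3 / 25 * w ^ 3 + 71 / 50 * w ^ 2 + 61 / 10 * w - 15 / 2 = c₁ at *
    generalize 9 / 250 * w ^ 4 + 12 / 25 * w ^ 3 = c₂ at *
    generalize w ^ 2 / 10 + 7 / 5 * w + 15 / 2 = c₀ at *
    refine (abs_le_of_sq_le_sq' ?_ (add_nonneg h2 h0)).2
    nlinarith [mul_le_mul_of_nonneg_right hd (sq_nonneg A), sq_nonneg (c₂ * A ^ 2 - c₀)]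

/-- a facet on the far side -/
theorem algT_neg {A w Y M q u : ℝ} (hA0 : 0 < A) (hA : A ≤ 3 / 5) (hw : 0 ≤ w) (hY0 : 0 ≤ Y)
    (hY : Y + A * w ^ 2 = 15) (hM : 1 ≤ A * M) (hq : A * q ≤ Y * (5 * A - 1))
    (hu : A * u ^ 2 ≤ Y * (A * M - 1)) :
    A * w * (3 / 50 * (q + 2 * (w + 5) * u + (w + 5) ^ 2) - 4) ≤
      3 * (5 / 2 + 5 / 2 * A + max 0 (M - 14 / 5)) := by
  have h1 : 2 * A * u ≤ 3 / 5 * (A * Y) + 5 / 3 * (A * M - 1) := by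
    have p1 := mul_nonneg hA0.le hY0
    refine (abs_le_of_sq_le_sq' ?_ (by linarith)).2
    nlinarith [mul_le_mul_of_nonneg_left hu hA0.le, sq_nonneg (3 / 5 * (A * Y) - 5 / 3 * (A * M - 1))]
  have h2 : A * w ≤ 3 := by
    refine (abs_le_of_sq_le_sq' ?_ (by norm_num)).2
    nlinarith [mul_nonneg hA0.le hY0]
  have h3 : A * w * (w + 5) ≤ 30 := by nlinarith
  have h4 : 0 ≤ A * w * (w + 5) := by positivity
  have h5 : A * w * (w + 5) * (M - 14 / 5) ≤ 30 * max 0 (M - 14 / 5) :=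
    (mul_le_mul_of_nonneg_left (le_max_right _ _) h4).trans
      (mul_le_mul_of_nonneg_right h3 (le_max_left _ _))
  have h6 := mul_le_mul_of_nonneg_left hq hw
  have h7 := mul_le_mul_of_nonneg_left h1 (show 0 ≤ w * (w + 5) by positivity)
  have h8 := algT_poly hA0.le hA hw
  have e : Y = 15 - A * w ^ 2 := by linarith
  subst e
  nlinarith

theorem algT_lag (S : Matrix (Fin 3) (Fin 3) ℝ) (a y : Fin 3 → ℝ) (h : a ⬝ᵥ y = 0) :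
    (a ⬝ᵥ a) * (y ⬝ᵥ y) * S.trace = (y ⬝ᵥ y) * (a ⬝ᵥ S *ᵥ a) + (a ⬝ᵥ a) * (y ⬝ᵥ S *ᵥ y) +
      ![a 1 * y 2 - a 2 * y 1, a 2 * y 0 - a 0 * y 2, a 0 * y 1 - a 1 * y 0] ⬝ᵥ S *ᵥ
        ![a 1 * y 2 - a 2 * y 1, a 2 * y 0 - a 0 * y 2, a 0 * y 1 - a 1 * y 0] := by
  simp only [dotProduct, mulVec, Fin.sum_univ_three, Matrix.trace_fin_three, Matrix.cons_val_zero,
    Matrix.cons_val_one, Matrix.cons_val_two, Matrix.head_cons, Matrix.tail_cons] at h ⊢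
  linear_combination ((a 0 * y 0 + a 1 * y 1 + a 2 * y 2) * (S 0 0 + S 1 1 + S 2 2) -
    (2 * a 0 * y 0 * S 0 0 + 2 * a 1 * y 1 * S 1 1 + 2 * a 2 * y 2 * S 2 2 +
      (a 0 * y 1 + a 1 * y 0) * (S 0 1 + S 1 0) + (a 0 * y 2 + a 2 * y 0) * (S 0 2 + S 2 0) +
      (a 1 * y 2 + a 2 * y 1) * (S 1 2 + S 2 1))) * h

theorem algT_lag2 (m a y : Fin 3 → ℝ) (h : a ⬝ᵥ y = 0) :
    (y ⬝ᵥ y) * (a ⬝ᵥ m) ^ 2 + (a ⬝ᵥ a) * (y ⬝ᵥ m) ^ 2 ≤ (a ⬝ᵥ a) * (y ⬝ᵥ y) * (m ⬝ᵥ m) := by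
  simp only [dotProduct, Fin.sum_univ_three] at h ⊢
  have e : (a 0 * a 0 + a 1 * a 1 + a 2 * a 2) * (y 0 * y 0 + y 1 * y 1 + y 2 * y 2) *
      (m 0 * m 0 + m 1 * m 1 + m 2 * m 2) =
      (y 0 * y 0 + y 1 * y 1 + y 2 * y 2) * (a 0 * m 0 + a 1 * m 1 + a 2 * m 2) ^ 2 +
      (a 0 * a 0 + a 1 * a 1 + a 2 * a 2) * (y 0 * m 0 + y 1 * m 1 + y 2 * m 2) ^ 2 +
      ((a 1 * y 2 - a 2 * y 1) * m 0 + (a 2 * y 0 - a 0 * y 2) * m 1 +
        (a 0 * y 1 - a 1 * y 0) * m 2) ^ 2 := by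
    linear_combination ((a 0 * y 0 + a 1 * y 1 + a 2 * y 2) * (m 0 * m 0 + m 1 * m 1 + m 2 * m 2) -
      2 * (a 0 * m 0 + a 1 * m 1 + a 2 * m 2) * (y 0 * m 0 + y 1 * m 1 + y 2 * m 2)) * h
  rw [e]
  exact le_add_of_nonneg_right (sq_nonneg _)

/-- the bound for one facet -/
theorem algT_face {S : Matrix (Fin 3) (Fin 3) ℝ} {a m x : Fin 3 → ℝ} {ω : ℝ}
    (f1 : a ⬝ᵥ a ≤ 3 / 5) (f2 : S.PosSemidef) (f3 : S.trace = 5) (f4 : S *ᵥ a = m)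
    (f5 : a ⬝ᵥ m = 1) (hx : x ⬝ᵥ x = 15) (h0 : 0 ≤ ω) (h1 : ω ≤ 1) :
    (ω + x ⬝ᵥ a) * (4 - 3 / 50 * (x ⬝ᵥ S *ᵥ x - 10 * (x ⬝ᵥ m) + 25)) ≤ (3 + ω) * Ph a S := by
  have hs := algB_symm f2
  have sym : ∀ u v : Fin 3 → ℝ, u ⬝ᵥ S *ᵥ v = v ⬝ᵥ S *ᵥ u := fun u v => by
    simp only [dotProduct, mulVec, Fin.sum_univ_three, hs.apply 0 1, hs.apply 0 2, hs.apply 1 2]
    ring
  have quad : ∀ (u : Fin 3 → ℝ) (r : ℝ), (u + r • a) ⬝ᵥ S *ᵥ (u + r • a) =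
      u ⬝ᵥ S *ᵥ u + 2 * r * (u ⬝ᵥ m) + r ^ 2 := fun u r => by
    rw [Matrix.mulVec_add, Matrix.mulVec_smul, add_dotProduct, dotProduct_add, dotProduct_add,
      smul_dotProduct, smul_dotProduct, sym a u, f4, dotProduct_smul, dotProduct_smul, f5]
    simp only [smul_eq_mul]
    ring
  have cs := algD_cs3 x a
  have cm := algD_cs3 a m
  rw [hx] at cs
  rw [f5] at cm
  have hA0 : 0 < a ⬝ᵥ a := by
    refine (algD_nn3 a).lt_of_ne fun h => ?_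
    rw [← h] at cm
    linarith
  have hmx : 0 ≤ max 0 (m ⬝ᵥ m - 14 / 5) := le_max_left _ _
  unfold Ph
  rw [f4]
  have hQ : 0 ≤ x ⬝ᵥ S *ᵥ x - 10 * (x ⬝ᵥ m) + 25 := by
    have := algB_quad f2 (x + (-5 : ℝ) • a)
    rw [quad] at this
    linarith
  rcases le_total 0 (ω + x ⬝ᵥ a) with hl | hl
  · have p3 : x ⬝ᵥ a ≤ 3 := (abs_le_of_sq_le_sq' (by linarith) (by norm_num)).2
    have b1 : 4 + 4 * (x ⬝ᵥ a) ≤ 10 + 10 * (a ⬝ᵥ a) := by nlinarith [sq_nonneg (x ⬝ᵥ a - 3)]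
    have b0 : 4 * (x ⬝ᵥ a) ≤ 15 / 2 + 15 / 2 * (a ⬝ᵥ a) := by
      nlinarith [mul_nonneg (sub_nonneg.2 p3) (show 0 ≤ 5 - x ⬝ᵥ a by linarith)]
    nlinarith [mul_nonneg hl hQ, mul_le_mul_of_nonneg_left b1 h0,
      mul_le_mul_of_nonneg_left b0 (sub_nonneg.2 h1), mul_nonneg h0 hmx]
  · obtain ⟨w, hw⟩ : ∃ w : ℝ, x ⬝ᵥ a = -((a ⬝ᵥ a) * w) :=
      ⟨-(x ⬝ᵥ a) / (a ⬝ᵥ a), by field_simp⟩
    have hw0 : 0 ≤ w := by
      by_contra h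
      nlinarith [mul_pos hA0 (neg_pos.2 (not_le.1 h))]
    obtain ⟨y, hy⟩ : ∃ y : Fin 3 → ℝ, x = y + (-w) • a := ⟨x + w • a, by simp⟩
    have ya : a ⬝ᵥ y = 0 := by
      rw [hy, add_dotProduct, smul_dotProduct, smul_eq_mul, dotProduct_comm] at hw
      linarith
    have yy : y ⬝ᵥ y + (a ⬝ᵥ a) * w ^ 2 = 15 := by
      rw [hy, add_dotProduct, dotProduct_add, dotProduct_add, smul_dotProduct, smul_dotProduct,
        dotProduct_smul, dotProduct_smul, dotProduct_comm y a, ya] at hx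
      simp only [smul_eq_mul] at hx
      linarith
    have l1 := algT_lag S a y ya
    have l2 := algT_lag2 m a y ya
    rw [f3, f4, f5] at l1
    rw [f5] at l2
    have l3 := algB_quad f2 ![a 1 * y 2 - a 2 * y 1, a 2 * y 0 - a 0 * y 2, a 0 * y 1 - a 1 * y 0]
    have key := algT_neg (q := y ⬝ᵥ S *ᵥ y) (u := -(y ⬝ᵥ m)) (M := m ⬝ᵥ m) hA0 f1 hw0 (algD_nn3 y) yy
      (by linarith) (by linarith) (by nlinarith)
    have eQ : x ⬝ᵥ S *ᵥ x - 10 * (x ⬝ᵥ m) + 25 =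
        y ⬝ᵥ S *ᵥ y + 2 * (w + 5) * -(y ⬝ᵥ m) + (w + 5) ^ 2 := by
      rw [hy, quad, add_dotProduct, smul_dotProduct, f5, smul_eq_mul]
      ring
    rw [eQ] at hQ ⊢
    rw [hw] at hl ⊢
    generalize y ⬝ᵥ S *ᵥ y + 2 * (w + 5) * -(y ⬝ᵥ m) + (w + 5) ^ 2 = Q at *
    have hP : 0 ≤ 5 / 2 + 5 / 2 * (a ⬝ᵥ a) + max 0 (m ⬝ᵥ m - 14 / 5) := by positivity
    generalize 5 / 2 + 5 / 2 * (a ⬝ᵥ a) + max 0 (m ⬝ᵥ m - 14 / 5) = P at *
    rcases le_total 0 (4 - 3 / 50 * Q) with hq | hq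
    · nlinarith [mul_nonneg (neg_nonneg.2 hl) hq, mul_nonneg h0 hP]
    · nlinarith [mul_nonneg h0 (neg_nonneg.2 hq), mul_nonneg h0 hP]

/-- three facets leave weight at least one to the others -/
theorem alg_three {ι : Type*} (A B : Finset ι) (μ : ι → ℝ) (a m : ι → Fin 3 → ℝ)
    (S : ι → Matrix (Fin 3) (Fin 3) ℝ) (c : Fin 3 → Fin 3 → ℝ) (hB : B ⊆ A)
    (hc : ∀ k ∈ A, k ∉ B → ∃ i, a k = c i) (hμ : ∀ k ∈ A, 0 ≤ μ k) (h1 : ∑ k ∈ A, μ k = 1)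
    (hf : ∀ k ∈ A, μ k ≠ 0 → a k ⬝ᵥ a k ≤ 3 / 5 ∧ (S k).PosSemidef ∧ (S k).trace = 5 ∧
      S k *ᵥ a k = m k ∧ a k ⬝ᵥ m k = 1)
    (sa : ∀ j, ∑ k ∈ A, μ k * a k j = 0) (sm : ∀ i, ∑ k ∈ A, μ k * m k i = 0)
    (sma : ∀ i j, ∑ k ∈ A, μ k * (m k i * a k j) = if i = j then 1 / 3 else 0)
    (sS : ∀ i j, ∑ k ∈ A, μ k * S k i j = if i = j then 5 / 3 else 0)
    (saS : ∀ l i j, ∑ k ∈ A, μ k * (a k l * S k i j) = 0) :
    1 ≤ ∑ k ∈ B, μ k * Ph (a k) (S k) := by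
  classical
  have fin : ∀ (F : ι → ℝ) (d : ℝ), 0 < d → ∑ k ∈ A, μ k * F k = d → (∀ k ∈ A, k ∉ B → F k = 0) →
      (∀ k ∈ A, μ k ≠ 0 → F k ≤ d * Ph (a k) (S k)) → 1 ≤ ∑ k ∈ B, μ k * Ph (a k) (S k) := by
    intro F d hd e0 e1 e2
    rw [← Finset.sum_subset hB fun k hk hk' => by rw [e1 k hk hk', mul_zero]] at e0
    refine le_of_mul_le_mul_left ?_ hd
    rw [mul_one, Finset.mul_sum]
    refine e0.symm.le.trans (Finset.sum_le_sum fun k hk => ?_)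
    by_cases h : μ k = 0
    · simp [h]
    · have := mul_le_mul_of_nonneg_left (e2 k (hB hk) h) (hμ k (hB hk))
      linarith
  have s0 : ∀ x : Fin 3 → ℝ, ∑ k ∈ A, μ k * (x ⬝ᵥ a k) = 0 := fun x => by
    have : ∀ k ∈ A, μ k * (x ⬝ᵥ a k) = ∑ j, x j * (μ k * a k j) := fun k _ => by
      simp only [dotProduct, Fin.sum_univ_three]; ring
    rw [Finset.sum_congr rfl this, Finset.sum_comm]
    simp only [← Finset.mul_sum, sa, mul_zero, Finset.sum_const_zero]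
  obtain ⟨ω, x, hne, hω, hx⟩ : ∃ (ω : ℝ) (x : Fin 3 → ℝ), (ω = 0 → x ≠ 0) ∧ 0 ≤ ω ∧
      ∀ i, ω + x ⬝ᵥ c i = 0 := by
    obtain ⟨v, hv, hM⟩ := (Matrix.exists_mulVec_eq_zero_iff (M := !![0, 0, 0, 0;
      1, c 0 0, c 0 1, c 0 2; 1, c 1 0, c 1 1, c 1 2; 1, c 2 0, c 2 1, c 2 2])).2
      (Matrix.det_eq_zero_of_row_eq_zero 0 fun j => by fin_cases j <;> rfl)
    have r1 := congrFun hM 1
    have r2 := congrFun hM 2
    have r3 := congrFun hM 3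
    simp [mulVec, dotProduct, Fin.sum_univ_four] at r1 r2 r3
    have hz : v 0 = 0 → v 1 = 0 → v 2 = 0 → v 3 = 0 → False := fun a0 a1 a2 a3 =>
      hv (funext fun j => by fin_cases j <;> assumption)
    rcases le_total 0 (v 0) with h | h
    · refine ⟨v 0, ![v 1, v 2, v 3], fun h0 h' => hz h0 (congrFun h' 0) (congrFun h' 1)
        (congrFun h' 2), h, fun i => ?_⟩
      fin_cases i <;> simp [dotProduct, Fin.sum_univ_three] <;> linarith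
    · refine ⟨-v 0, ![-v 1, -v 2, -v 3], fun h0 h' => hz (neg_eq_zero.1 h0)
        (neg_eq_zero.1 (congrFun h' 0)) (neg_eq_zero.1 (congrFun h' 1))
        (neg_eq_zero.1 (congrFun h' 2)), neg_nonneg.2 h, fun i => ?_⟩
      fin_cases i <;> simp [dotProduct, Fin.sum_univ_three] <;> linarith
  have hx' : ∀ k ∈ A, k ∉ B → ω + x ⬝ᵥ a k = 0 := fun k hk hk' => by
    obtain ⟨i, hi⟩ := hc k hk hk'
    rw [hi, hx]
  rcases le_or_gt (x ⬝ᵥ x) (15 * ω ^ 2) with h | h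
  · have hω0 : 0 < ω := by
      refine hω.lt_of_ne fun h0 => hne h0.symm (dotProduct_self_eq_zero.1 ?_)
      rw [← h0] at h
      linarith [algD_nn3 x]
    refine fin (fun k => ω + x ⬝ᵥ a k) ω hω0 ?_ hx' fun k hk h0 => ?_
    · simp only [mul_add, Finset.sum_add_distrib, s0, ← Finset.sum_mul, h1]
      ring
    · have n1 := algD_nn3 (x - (5 * ω) • a k)
      rw [sub_dotProduct, dotProduct_sub, dotProduct_sub, smul_dotProduct, smul_dotProduct,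
        dotProduct_smul, dotProduct_smul, dotProduct_comm (a k) x] at n1
      simp only [smul_eq_mul] at n1
      have n2 : x ⬝ᵥ a k ≤ ω * (3 / 2 + 5 / 2 * (a k ⬝ᵥ a k)) := by
        refine le_of_mul_le_mul_left ?_ hω0
        nlinarith
      have n3 := mul_nonneg hω (le_max_left 0 ((S k *ᵥ a k) ⬝ᵥ (S k *ᵥ a k) - 14 / 5))
      unfold Ph
      nlinarith
  · have hxx : 0 < x ⬝ᵥ x := lt_of_le_of_lt (by positivity) h
    obtain ⟨r, hr0, hr⟩ : ∃ r : ℝ, 0 < r ∧ r ^ 2 * (x ⬝ᵥ x) = 15 :=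
      ⟨√(15 / (x ⬝ᵥ x)), by positivity, by
        rw [Real.sq_sqrt (by positivity)]; field_simp⟩
    have h15 : (r • x) ⬝ᵥ (r • x) = 15 := by
      rw [smul_dotProduct, dotProduct_smul, smul_eq_mul, smul_eq_mul]
      linarith
    have hw1 : r * ω ≤ 1 := by
      refine (abs_le_of_sq_le_sq' ?_ (by norm_num)).2
      nlinarith [mul_le_mul_of_nonneg_left h.le (sq_nonneg r)]
    have hw0 : 0 ≤ r * ω := by positivity
    have hx'' : ∀ k ∈ A, k ∉ B → r * ω + (r • x) ⬝ᵥ a k = 0 := fun k hk hk' => by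
      rw [smul_dotProduct, smul_eq_mul, ← mul_add, hx' k hk hk', mul_zero]
    generalize r • x = z at *
    generalize r * ω = w at *
    refine fin (fun k => (w + z ⬝ᵥ a k) *
      (4 - 3 / 50 * (z ⬝ᵥ S k *ᵥ z - 10 * (z ⬝ᵥ m k) + 25))) (3 + w) (by linarith) ?_
      (fun k hk hk' => by simp only [hx'' k hk hk', zero_mul]) fun k hk h0 => ?_
    · have e : ∀ k ∈ A, μ k * ((w + z ⬝ᵥ a k) *
          (4 - 3 / 50 * (z ⬝ᵥ S k *ᵥ z - 10 * (z ⬝ᵥ m k) + 25))) =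
          5 / 2 * w * μ k + 5 / 2 * (μ k * (z ⬝ᵥ a k)) + 3 / 5 * w * ∑ i, z i * (μ k * m k i) +
            3 / 5 * ∑ i, ∑ j, z i * z j * (μ k * (m k i * a k j)) -
            3 / 50 * w * ∑ i, ∑ j, z i * z j * (μ k * S k i j) -
            3 / 50 * ∑ l, ∑ i, ∑ j, z l * z i * z j * (μ k * (a k l * S k i j)) := fun k _ => by
        simp only [dotProduct, mulVec, Fin.sum_univ_three]
        ring
      have c1 : ∑ k ∈ A, ∑ i, z i * (μ k * m k i) = 0 := by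
        rw [Finset.sum_comm]
        simp only [← Finset.mul_sum, sm, mul_zero, Finset.sum_const_zero]
      have c2 : ∀ (f : ι → Fin 3 → Fin 3 → ℝ) (d : ℝ),
          (∀ i j, ∑ k ∈ A, f k i j = if i = j then d else 0) →
          ∑ k ∈ A, ∑ i, ∑ j, z i * z j * f k i j = d * 15 := fun f d hf => by
        rw [Finset.sum_comm, Finset.sum_congr rfl fun i _ => Finset.sum_comm]
        simp only [← Finset.mul_sum, hf, ← h15, dotProduct, Fin.sum_univ_three]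
        norm_num [Fin.ext_iff]
        ring
      have c3 : ∑ k ∈ A, ∑ l, ∑ i, ∑ j, z l * z i * z j * (μ k * (a k l * S k i j)) = 0 := by
        rw [Finset.sum_comm]
        refine Finset.sum_eq_zero fun l _ => ?_
        rw [Finset.sum_comm]
        refine Finset.sum_eq_zero fun i _ => ?_
        rw [Finset.sum_comm]
        refine Finset.sum_eq_zero fun j _ => ?_
        rw [← Finset.mul_sum, saS, mul_zero]
      rw [Finset.sum_congr rfl e]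
      simp only [Finset.sum_add_distrib, Finset.sum_sub_distrib, ← Finset.mul_sum, h1, s0, c1,
        c2 _ _ sma, c2 _ _ sS, c3]
      ring
    · obtain ⟨f1, f2, f3, f4, f5⟩ := hf k hk h0
      exact algT_face f1 f2 f3 f4 f5 h15 hw0 hw1

end Pool.Agent.P.MP_2e1554_gt
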