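import Pool.Agent.P.MP_2e1554_gt.IsoRad

open MeasureTheory Set Finset Matrix Filter Topology Pointwise

namespace Pool.Agent.P.MP_2e1554_gt

variable {n : ℕ}

lemma approx_zero_int {K : Set (Fin n → ℝ)} (hK : Iso K) : (0 : Fin n → ℝ) ∈ interior K := by
  have ho : IsOpen {y : Fin n → ℝ | (y ⬝ᵥ y) * (n * (n + 2)) < 1} :=
    isOpen_lt (by fun_prop) continuous_const
  have h0 : (0 : Fin n → ℝ) ∈ {y : Fin n → ℝ | (y ⬝ᵥ y) * (n * (n + 2)) < 1} := by simp
  exact interior_maximal (fun y hy => hK.mem_of_small (le_of_lt hy)) ho h0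

lemma approx_sep {K : Set (Fin n → ℝ)} (hK : Iso K) {y : Fin n → ℝ} (hy : y ∉ K) :
    ∃ a : Fin n → ℝ, (∀ x ∈ K, a ⬝ᵥ x ≤ 1) ∧ 1 < a ⬝ᵥ y := by
  obtain ⟨f, u, h1, h2⟩ := geometric_hahn_banach_closed_point hK.cvx hK.cpt.isClosed hy
  have hu : 0 < u := by simpa using h1 0 (interior_subset (approx_zero_int hK))
  have e : ∀ x : Fin n → ℝ, (fun i => f (Pi.single i 1) / u) ⬝ᵥ x = f x / u := fun x => by
    conv_rhs => rw [pi_eq_sum_univ' x, map_sum, Finset.sum_div]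
    refine Finset.sum_congr rfl fun i _ => ?_
    rw [map_smul, smul_eq_mul]; ring
  refine ⟨fun i => f (Pi.single i 1) / u, fun x hx => ?_, ?_⟩
  · rw [e, div_le_one hu]; exact (h1 x hx).le
  · rw [e, one_lt_div hu]; exact h2

theorem exists_outer {K : Set (Fin n → ℝ)} (hK : Iso K) {s : ℝ} (hs : 1 < s) :
    ∃ A : Finset (Fin n → ℝ), K ⊆ poly A ∧ poly A ⊆ s • K := by
  classical
  have hs0 : 0 < s := by linarith
  set O : Set (Fin n → ℝ) := {x | s⁻¹ • x ∈ interior K} with hO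
  have hOo : IsOpen O := isOpen_interior.preimage (continuous_const_smul _)
  have hOs : O ⊆ s • K := fun x hx =>
    (mem_smul_set_iff_inv_smul_mem₀ hs0.ne' _ _).2 (interior_subset hx)
  have hKO : K ⊆ O := fun x hx => by
    have h := hK.cvx.combo_interior_self_mem_interior (approx_zero_int hK) hx
      (a := 1 - s⁻¹) (b := s⁻¹) (sub_pos.2 (inv_lt_one_of_one_lt₀ hs)) (by positivity) (by ring)
    simpa [hO] using h
  obtain ⟨R, hR0, hR⟩ := (hK.cpt.smul s).isBounded.exists_pos_norm_lt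
  have hC : IsCompact (Metric.closedBall (0 : Fin n → ℝ) R \ O) :=
    (isCompact_closedBall _ _).diff hOo
  have hsep : ∀ y : ↥(Metric.closedBall (0 : Fin n → ℝ) R \ O),
      ∃ a : Fin n → ℝ, (∀ x ∈ K, a ⬝ᵥ x ≤ 1) ∧ 1 < a ⬝ᵥ y.1 := fun y =>
    approx_sep hK fun h => y.2.2 (hKO h)
  choose a ha1 ha2 using hsep
  obtain ⟨t, ht⟩ := hC.elim_finite_subcover (fun y => {z | 1 < a y ⬝ᵥ z})
    (fun y => isOpen_lt continuous_const (by fun_prop))
    (fun y hy => Set.mem_iUnion.2 ⟨⟨y, hy⟩, ha2 ⟨y, hy⟩⟩)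
  refine ⟨t.image a, fun x hx b hb => ?_, fun x hx => ?_⟩
  · obtain ⟨y, -, rfl⟩ := Finset.mem_image.1 hb
    exact ha1 y x hx
  · by_contra hxs
    obtain ⟨r, hr0, hr1, hr⟩ : ∃ r : ℝ, 0 ≤ r ∧ r ≤ 1 ∧
        r • x ∈ Metric.closedBall (0 : Fin n → ℝ) R \ O := by
      rcases le_total ‖x‖ R with h | h
      · exact ⟨1, zero_le_one, le_rfl, by simpa using h, fun h' => hxs (hOs (by simpa using h'))⟩
      · have hx0 : 0 < ‖x‖ := hR0.trans_le h
        have hn : ‖(R / ‖x‖) • x‖ = R := by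
          rw [norm_smul, Real.norm_of_nonneg (by positivity), div_mul_cancel₀ _ hx0.ne']
        exact ⟨R / ‖x‖, by positivity, (div_le_one hx0).2 h, by simpa using hn.le,
          fun h' => (hR _ (hOs h')).ne hn⟩
    obtain ⟨y, hy, h⟩ := Set.mem_iUnion₂.1 (ht hr)
    have h1 : a y ⬝ᵥ x ≤ 1 := hx _ (Finset.mem_image_of_mem a hy)
    have h2 : 1 < r * (a y ⬝ᵥ x) := by simpa [dotProduct_smul] using h
    nlinarith

lemma approx_det {m : ℕ} {G : Matrix (Fin m) (Fin m) ℝ} (hG : G.IsHermitian) {V : ℝ} (hV : 0 ≤ V)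
    (h : ∀ a : Fin m → ℝ, V * (a ⬝ᵥ a) ≤ a ⬝ᵥ (G *ᵥ a)) : V ^ m ≤ G.det := by
  rw [hG.det_eq_prod_eigenvalues]
  have : V ^ m = ∏ _i : Fin m, V := by simp
  rw [this]
  refine Finset.prod_le_prod (fun _ _ => hV) fun i _ => ?_
  have h1 := h (hG.eigenvectorBasis i)
  have h2 : (hG.eigenvectorBasis i).ofLp ⬝ᵥ (hG.eigenvectorBasis i).ofLp = 1 := by
    have h3 := hG.eigenvectorBasis.orthonormal.1 i
    have h4 := EuclideanSpace.real_norm_sq_eq (hG.eigenvectorBasis i)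
    rw [h3] at h4
    simp only [dotProduct, ← sq]
    rw [← h4]; norm_num
  rw [hG.mulVec_eigenvectorBasis, dotProduct_smul, h2] at h1
  simpa using h1

theorem Jv_outer {K P : Set (Fin n → ℝ)} (hK : Iso K) (hP : Body P) {s : ℝ} (hs : 1 ≤ s)
    (h1 : K ⊆ P) (h2 : P ⊆ s • K) : Jv K ≤ s ^ (n * (n + 3)) * Jv P := by
  have hV := hK.toBody.vol_pos
  have hW := hP.vol_pos
  have hd : volume.real K ^ (n + 1) ≤ (gram P 1).det := by
    refine approx_det (gram_psd hP.cpt 1).1 hV.le fun a => ?_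
    have e : volume.real K * (a ⬝ᵥ a) = a ⬝ᵥ (gram K 1 *ᵥ a) := by
      rw [hK.gram_eq, smul_mulVec, one_mulVec, dotProduct_smul, smul_eq_mul]
    rw [e, gram_quad hK.cpt, gram_quad hP.cpt]
    have hc : Continuous fun x : Fin n → ℝ => a ⬝ᵥ ((1 : Matrix _ _ ℝ) *ᵥ ins 0 1 x) :=
      continuous_const.dotProduct (continuous_lift 1)
    exact setIntegral_mono_set ((hc.mul hc).continuousOn.integrableOn_compact hP.cpt)
      (ae_of_all _ fun x => mul_self_nonneg _) h1.eventuallyLE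
  have hle : volume.real P ≤ s ^ n * volume.real K := by
    rw [← vol_smul K (by linarith)]
    exact measureReal_mono h2 (hK.cpt.smul s).measure_lt_top.ne
  have hs0 : 0 < s := by linarith
  rw [hK.Jv_eq, Jv, ← mul_div_assoc, div_le_div_iff₀ (by positivity) (by positivity), one_mul]
  calc volume.real P ^ (n + 3) ≤ (s ^ n * volume.real K) ^ (n + 3) := by gcongr
    _ = s ^ (n * (n + 3)) * volume.real K ^ (n + 1) * volume.real K ^ 2 := by
        rw [mul_pow, ← pow_mul]; ring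
    _ ≤ _ := by gcongr

end Pool.Agent.P.MP_2e1554_gt
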