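import Pool.Agent.P.MP_2e1554_gt.IsoOne

open MeasureTheory Set Finset Matrix Filter Topology Pointwise

namespace Pool.Agent.P.MP_2e1554_gt

variable {n : ℕ}

private theorem area_poly (k H S T β : ℝ) (hH : 0 < H) :
    ∫ u in Icc (β - H) β, (1 - k * (β - u) / H) ^ 2 * ((β - u) ^ 2 - S * (β - u) + T) =
      T * H * (1 - k + k ^ 2 / 3) - S * H ^ 2 * (1 / 2 - 2 * k / 3 + k ^ 2 / 4) +
        H ^ 3 * (1 / 3 - k / 2 + k ^ 2 / 5) := by
  rw [integral_Icc_eq_integral_Ioc, ← intervalIntegral.integral_of_le (by linarith)]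
  have h1 := intervalIntegral.integral_comp_sub_left
    (fun y : ℝ => (1 - k * y / H) ^ 2 * (y ^ 2 - S * y + T)) (a := β - H) (b := β) β
  rw [h1, sub_self, sub_sub_cancel]
  have h2 : ∀ y ∈ uIcc (0 : ℝ) H, HasDerivAt (fun y : ℝ => T * y + (-S - 2 * (k / H) * T) * y ^ 2 / 2 +
      (1 + 2 * (k / H) * S + (k / H) ^ 2 * T) * y ^ 3 / 3 +
      (-2 * (k / H) - (k / H) ^ 2 * S) * y ^ 4 / 4 + (k / H) ^ 2 * y ^ 5 / 5)
      ((1 - k * y / H) ^ 2 * (y ^ 2 - S * y + T)) y := by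
    intro y _
    have h3 := ((((((hasDerivAt_id y).const_mul T).add
      (((hasDerivAt_pow 2 y).const_mul (-S - 2 * (k / H) * T)).div_const 2)).add
      (((hasDerivAt_pow 3 y).const_mul (1 + 2 * (k / H) * S + (k / H) ^ 2 * T)).div_const 3)).add
      (((hasDerivAt_pow 4 y).const_mul (-2 * (k / H) - (k / H) ^ 2 * S)).div_const 4)).add
      (((hasDerivAt_pow 5 y).const_mul ((k / H) ^ 2)).div_const 5))
    refine HasDerivAt.congr_deriv (h3.congr_of_eventuallyEq (Eventually.of_forall fun z => ?_)) ?_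
    · simp only [Pi.add_apply, id]
    · push_cast
      ring
  rw [intervalIntegral.integral_eq_sub_of_hasDerivAt h2 (Continuous.intervalIntegrable
    (by fun_prop) _ _)]
  field_simp
  ring

private theorem area_mom {p : ℝ → ℝ} {α β V : ℝ} (h : Marg 2 p α β V) (S T : ℝ) :
    IntegrableOn (fun u => p u * ((β - u) ^ 2 - S * (β - u) + T)) (Icc α β) ∧
    ∫ u in Icc α β, p u * ((β - u) ^ 2 - S * (β - u) + T) = V * (1 + β ^ 2 - S * β + T) := by
  have i1 : IntegrableOn (fun u => u * p u) (Icc α β) :=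
    h.int.continuousOn_mul (by fun_prop) isCompact_Icc
  have i2 : IntegrableOn (fun u => u ^ 2 * p u) (Icc α β) :=
    h.int.continuousOn_mul (by fun_prop) isCompact_Icc
  refine ⟨h.int.mul_continuousOn (by fun_prop) isCompact_Icc, ?_⟩
  have e : (fun u => p u * ((β - u) ^ 2 - S * (β - u) + T)) =
      fun u => (u ^ 2 * p u + (S - 2 * β) * (u * p u)) + (β ^ 2 - S * β + T) * p u := by
    ext u
    ring
  have i3 : IntegrableOn (fun u => u ^ 2 * p u + (S - 2 * β) * (u * p u)) (Icc α β) :=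
    i2.add (i1.const_mul _)
  rw [e, integral_add i3 (h.int.const_mul _),
    integral_add i2 (i1.const_mul _), integral_const_mul, integral_const_mul, h.m0, h.m1, h.m2]
  ring

/-- a concave function that starts above a line crosses it once -/
private theorem area_cross {q : ℝ → ℝ} {α β a A B : ℝ} (hq : ConcaveOn ℝ (Icc α β) q)
    (h1 : α ≤ a) (h2 : a < β) (h3 : A * β + B < q β) :
    ∃ u1, a ≤ u1 ∧ u1 < β ∧ (∀ u, a ≤ u → u < u1 → q u < A * u + B) ∧
      ∀ u, u1 < u → u ≤ β → A * u + B < q u := by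
  set N : Set ℝ := {u | a ≤ u ∧ u ≤ β ∧ A * u + B ≤ q u} with hN
  have hb : BddBelow N := ⟨a, fun u hu => hu.1⟩
  have hβ : β ∈ N := ⟨h2.le, le_rfl, h3.le⟩
  have key : ∀ v t : ℝ, a ≤ v → v ≤ β → 0 ≤ t → t ≤ 1 →
      t * (q v - (A * v + B)) + (1 - t) * (q β - (A * β + B)) ≤
        q (t * v + (1 - t) * β) - (A * (t * v + (1 - t) * β) + B) := by
    intro v t hv hv' t0 t1
    have := hq.2 (x := v) (y := β) ⟨h1.trans hv, hv'⟩ ⟨h1.trans h2.le, le_rfl⟩ t0
      (sub_nonneg.2 t1) (by ring)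
    simp only [smul_eq_mul] at this
    nlinarith
  refine ⟨sInf N, le_csInf ⟨β, hβ⟩ fun u hu => hu.1, ?_, ?_, ?_⟩
  · set d := q β - (A * β + B) with hd
    set e := |q a - (A * a + B)| with he
    have d0 : 0 < d := by linarith
    have e0 : 0 ≤ e := abs_nonneg _
    have t0 : 0 < d / (d + e) := by positivity
    have t1 : d / (d + e) ≤ 1 := (div_le_one (by positivity)).2 (by linarith)
    have h4 := key a (d / (d + e)) le_rfl h2.le t0.le t1
    have h5 : -e ≤ q a - (A * a + B) := neg_abs_le _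
    have h6 : 0 ≤ d / (d + e) * (q a - (A * a + B)) + (1 - d / (d + e)) * d := by
      have : d / (d + e) * -e + (1 - d / (d + e)) * d = 0 := by
        field_simp
        ring
      nlinarith
    have h7 : d / (d + e) * a + (1 - d / (d + e)) * β ∈ N :=
      ⟨by nlinarith, by nlinarith, by linarith⟩
    exact (csInf_le hb h7).trans_lt (by nlinarith)
  · intro u hu hu'
    by_contra h4
    exact absurd (csInf_le hb ⟨hu, hu'.le.trans (csInf_le hb hβ), not_lt.1 h4⟩) (not_le.2 hu')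
  · intro u hu hu'
    obtain ⟨v, hv, hvu⟩ := exists_lt_of_csInf_lt ⟨β, hβ⟩ hu
    have hvβ : 0 < β - v := by linarith
    have t0 : 0 ≤ (β - u) / (β - v) := div_nonneg (by linarith) hvβ.le
    have t1 : (β - u) / (β - v) < 1 := (div_lt_one hvβ).2 (by linarith)
    have h4 := key v _ hv.1 hv.2.1 t0 t1.le
    have h5 : (β - u) / (β - v) * v + (1 - (β - u) / (β - v)) * β = u := by
      field_simp
      ring
    rw [h5] at h4
    have h6 := mul_nonneg t0 (sub_nonneg.2 hv.2.2)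
    have h7 := mul_pos (sub_pos.2 t1) (sub_pos.2 h3)
    linarith

theorem Marg.area {p : ℝ → ℝ} {α β V : ℝ} (h : Marg 2 p α β V) {k : ℝ} (k0 : 0 ≤ k) (k1 : k ≤ 1)
    (hk : (1 / 2 - 2 * k / 3 + k ^ 2 / 4) ^ 2 ≤
      β ^ 2 * ((1 - k + k ^ 2 / 3) * (1 / 3 - k / 2 + k ^ 2 / 5) -
        (1 / 2 - 2 * k / 3 + k ^ 2 / 4) ^ 2)) :
    β * p β * (1 - k + k ^ 2 / 3) ^ 2 ≤ V * (1 / 2 - 2 * k / 3 + k ^ 2 / 4) := by
  have β0 := h.pos_right
  have V0 := h.pos
  obtain ⟨q, hq, q0, hp⟩ := h.root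
  have hM0 : 0 < 1 - k + k ^ 2 / 3 := by nlinarith [sq_nonneg (k - 3 / 2)]
  have hM1 : 0 < 1 / 2 - 2 * k / 3 + k ^ 2 / 4 := by nlinarith [sq_nonneg (k - 4 / 3)]
  have hpoly := fun H S T hH => area_poly k H S T β hH
  generalize 1 - k + k ^ 2 / 3 = M0 at *
  generalize 1 / 2 - 2 * k / 3 + k ^ 2 / 4 = M1 at *
  generalize 1 / 3 - k / 2 + k ^ 2 / 5 = M2 at *
  by_contra hc
  obtain ⟨H, hH⟩ : ∃ H, H = β * M0 / M1 := ⟨_, rfl⟩
  have H0 : 0 < H := by rw [hH]; positivity
  obtain ⟨c, c0, hcc⟩ : ∃ c, 0 ≤ c ∧ c ^ 2 = V * M1 / (β * M0 ^ 2) :=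
    ⟨√(V * M1 / (β * M0 ^ 2)), Real.sqrt_nonneg _, Real.sq_sqrt (by positivity)⟩
  have hβ : β ∈ Icc α β := ⟨h.lt.le, le_rfl⟩
  have hcq : c < q β := by
    refine lt_of_pow_lt_pow_left₀ 2 (q0 β hβ) ?_
    rw [hcc, ← hp β hβ, div_lt_iff₀ (by positivity)]
    linarith [not_le.1 hc]
  have hl : ∀ u, c * k / H * u + (c - c * k / H * β) = c * (1 - k * (β - u) / H) := by
    intro u
    ring
  obtain ⟨u1, h1, h2, h3, h4⟩ := area_cross (a := max α (β - H)) (A := c * k / H)
    (B := c - c * k / H * β) hq (le_max_left _ _) (max_lt h.lt (by linarith)) (by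
      rw [hl]
      simpa using hcq)
  simp only [hl] at h3 h4
  have l0 : ∀ u, β - H ≤ u → 0 ≤ c * (1 - k * (β - u) / H) := by
    intro u hu
    refine mul_nonneg c0 (sub_nonneg.2 ((div_le_one H0).2 ?_))
    nlinarith
  have hαu : α ≤ u1 := (le_max_left _ _).trans h1
  have hHu : β - H ≤ u1 := (le_max_right _ _).trans h1
  obtain ⟨W, hW⟩ : ∃ W : ℝ → ℝ, W = fun u => (β - u) ^ 2 - (β - u1 + H) * (β - u) + (β - u1) * H :=
    ⟨_, rfl⟩
  have hW' : ∀ u, W u = (u - u1) * (u - (β - H)) := by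
    intro u
    rw [hW]
    ring
  obtain ⟨i1, m1⟩ := area_mom h (β - u1 + H) ((β - u1) * H)
  have i2 : IntegrableOn (fun u => (c * (1 - k * (β - u) / H)) ^ 2 * W u) (Icc (β - H) β) := by
    rw [hW]
    exact Continuous.integrableOn_Icc (by fun_prop)
  have m2 : ∫ u in Icc (β - H) β, (c * (1 - k * (β - u) / H)) ^ 2 * W u =
      V * (β ^ 2 * (M0 * M2) / M1 ^ 2 - (β - u1 + H) * β + (β - u1) * H) := by
    have e : (fun u => (c * (1 - k * (β - u) / H)) ^ 2 * W u) = fun u => c ^ 2 *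
        ((1 - k * (β - u) / H) ^ 2 * ((β - u) ^ 2 - (β - u1 + H) * (β - u) + (β - u1) * H)) := by
      ext u
      rw [hW]
      ring
    rw [e, integral_const_mul, hpoly _ _ _ H0, hcc]
    generalize β - u1 + H = S
    generalize (β - u1) * H = T
    rw [hH]
    field_simp
    ring
  have i1' : IntegrableOn (fun u => p u * W u) (Icc α β) := by
    rw [hW]
    exact i1
  have m1' : ∫ u in Icc α β, p u * W u = V * (1 + β ^ 2 - (β - u1 + H) * β + (β - u1) * H) := by
    rw [hW]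
    exact m1
  let G : ℝ → ℝ := fun u => (Icc α β).indicator (fun u => p u * W u) u -
    (Icc (β - H) β).indicator (fun u => (c * (1 - k * (β - u) / H)) ^ 2 * W u) u
  have j1 := (integrable_indicator_iff measurableSet_Icc).2 i1'
  have j2 := (integrable_indicator_iff measurableSet_Icc).2 i2
  have Gpos : ∀ u ∈ Ioc u1 β, 0 < G u := by
    intro u hu
    have a1 : u ∈ Icc α β := ⟨hαu.trans hu.1.le, hu.2⟩
    have a2 : u ∈ Icc (β - H) β := ⟨hHu.trans hu.1.le, hu.2⟩
    simp only [G, indicator_of_mem a1, indicator_of_mem a2, hp u a1, hW', ← sub_mul]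
    exact mul_pos (sub_pos.2 (pow_lt_pow_left₀ (h4 u hu.1 hu.2) (l0 u a2.1) two_ne_zero))
      (mul_pos (sub_pos.2 hu.1) (by linarith [hu.1]))
  have G0 : 0 ≤ G := by
    intro u
    show 0 ≤ G u
    by_cases b1 : β < u
    · simp only [G, indicator_of_notMem (fun a : u ∈ Icc α β => not_le.2 b1 a.2),
        indicator_of_notMem (fun a : u ∈ Icc (β - H) β => not_le.2 b1 a.2), sub_self, le_refl]
    by_cases b2 : u1 < u
    · exact (Gpos u ⟨b2, not_lt.1 b1⟩).le
    have b1 := not_lt.1 b1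
    have b2 := not_lt.1 b2
    by_cases b3 : β - H ≤ u
    · have a2 : u ∈ Icc (β - H) β := ⟨b3, b1⟩
      have w0 : W u ≤ 0 := by
        rw [hW']
        exact mul_nonpos_of_nonpos_of_nonneg (sub_nonpos.2 b2) (sub_nonneg.2 b3)
      by_cases b4 : α ≤ u
      · have a1 : u ∈ Icc α β := ⟨b4, b1⟩
        simp only [G, indicator_of_mem a1, indicator_of_mem a2, hp u a1, ← sub_mul]
        rcases b2.eq_or_lt with b5 | b5
        · rw [hW', b5, sub_self, zero_mul, mul_zero]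
        · exact mul_nonneg_of_nonpos_of_nonpos
            (sub_nonpos.2 (pow_le_pow_left₀ (q0 u a1) (h3 u (max_le b4 b3) b5).le 2)) w0
      · simp only [G, indicator_of_notMem (fun a : u ∈ Icc α β => b4 a.1), indicator_of_mem a2,
          zero_sub, neg_nonneg]
        exact mul_nonpos_of_nonneg_of_nonpos (sq_nonneg _) w0
    · simp only [G, indicator_of_notMem (fun a : u ∈ Icc (β - H) β => b3 a.1), sub_zero]
      by_cases a1 : u ∈ Icc α β
      · rw [indicator_of_mem a1, hp u a1, hW']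
        exact mul_nonneg (sq_nonneg _) (mul_nonneg_of_nonpos_of_nonpos (sub_nonpos.2 b2)
          (sub_nonpos.2 (not_le.1 b3).le))
      · rw [indicator_of_notMem a1]
  have hpos : 0 < ∫ u, G u := by
    rw [integral_pos_iff_support_of_nonneg G0 (j1.sub j2)]
    refine lt_of_lt_of_le ?_ (measure_mono (fun u hu => (Gpos u hu).ne' : Ioc u1 β ⊆ _))
    simpa using h2
  rw [integral_sub j1 j2, integral_indicator measurableSet_Icc,
    integral_indicator measurableSet_Icc, m1', m2] at hpos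
  have h5 : 1 + β ^ 2 ≤ β ^ 2 * (M0 * M2) / M1 ^ 2 := by
    rw [le_div_iff₀ (by positivity)]
    linarith
  nlinarith

end Pool.Agent.P.MP_2e1554_gt
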