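import Pool.Agent.P.MP_2e1554_gt.IsoHcone

open MeasureTheory Set Finset Matrix Filter Topology Pointwise

namespace Pool.Agent.P.MP_2e1554_gt

variable {n : ℕ}

lemma bm_eq_Icc {S : Set ℝ} (hc : Convex ℝ S) (hk : IsCompact S) (hn : S.Nonempty) :
    ∃ p q : ℝ, p ≤ q ∧ S = Set.Icc p q := by
  have h := eq_Icc_of_connected_compact (s := S) ⟨hn, hc.isPreconnected⟩ hk
  refine ⟨sInf S, sSup S, ?_, h⟩
  obtain ⟨x, hx⟩ := hn
  have hx' := hx
  rw [h] at hx'
  exact hx'.1.trans hx'.2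

lemma bm_real_Icc {p q : ℝ} (h : p ≤ q) : volume.real (Set.Icc p q) = q - p := by
  rw [Measure.real, Real.volume_Icc, ENNReal.toReal_ofReal (sub_nonneg.2 h)]

/-- Brunn-Minkowski on the line, for intervals -/
lemma bm_line {A B C : Set ℝ} (cA : Convex ℝ A) (cB : Convex ℝ B) (kA : IsCompact A)
    (kB : IsCompact B) (hC : volume C ≠ ⊤) (nA : A.Nonempty) (nB : B.Nonempty) {a b : ℝ}
    (ha : 0 ≤ a) (hb : 0 ≤ b) (h : ∀ x ∈ A, ∀ y ∈ B, a * x + b * y ∈ C) :
    a * volume.real A + b * volume.real B ≤ volume.real C := by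
  obtain ⟨p, q, hpq, rfl⟩ := bm_eq_Icc cA kA nA
  obtain ⟨r, s, hrs, rfl⟩ := bm_eq_Icc cB kB nB
  have hle : a * p + b * r ≤ a * q + b * s :=
    add_le_add (mul_le_mul_of_nonneg_left hpq ha) (mul_le_mul_of_nonneg_left hrs hb)
  have hsub : Set.Icc (a * p + b * r) (a * q + b * s) ⊆ C := by
    intro z hz
    obtain ⟨l, m, hl, hm, hlm, rfl⟩ := (Convex.mem_Icc hle).1 hz
    have h1 : l * p + m * q ∈ Set.Icc p q := (Convex.mem_Icc hpq).2 ⟨l, m, hl, hm, hlm, rfl⟩
    have h2 : l * r + m * s ∈ Set.Icc r s := (Convex.mem_Icc hrs).2 ⟨l, m, hl, hm, hlm, rfl⟩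
    have := h _ h1 _ h2
    convert this using 1
    ring
  have := measureReal_mono hsub hC
  rw [bm_real_Icc hle] at this
  rw [bm_real_Icc hpq, bm_real_Icc hrs]
  linarith

lemma bm_pre_compact {E : Type*} [NormedAddCommGroup E] {K : Set E} (hK : IsCompact K)
    {f : ℝ → E} (hf : Continuous f) (hb : ∀ t, |t| ≤ ‖f t‖) : IsCompact (f ⁻¹' K) := by
  obtain ⟨R, hR⟩ := hK.isBounded.exists_norm_le
  refine (isCompact_Icc (a := -R) (b := R)).of_isClosed_subset (hK.isClosed.preimage hf) ?_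
  intro t ht
  exact abs_le.1 ((hb t).trans (hR _ ht))

lemma chord_compact {K : Set (Fin (n + 1) → ℝ)} (hK : IsCompact K) (z : Fin n → ℝ) :
    IsCompact {t : ℝ | ins 0 t z ∈ K} := by
  refine bm_pre_compact hK (f := fun t => ins 0 t z)
    ((continuous_ins (0 : Fin (n + 1))).comp (continuous_id.prodMk continuous_const)) fun t => ?_
  have := norm_le_pi_norm (ins 0 t z) 0
  rwa [ins_same, Real.norm_eq_abs] at this

lemma chord_convex {K : Set (Fin (n + 1) → ℝ)} (hc : Convex ℝ K) (z : Fin n → ℝ) :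
    Convex ℝ {t : ℝ | ins 0 t z ∈ K} := by
  intro s hs t ht a b ha hb hab
  have := hc hs ht ha hb hab
  rw [← ins_add_smul, ← add_smul, hab, one_smul] at this
  exact this

/-- the chord length is concave on the projection -/
theorem cl_concave {K : Set (Fin (n + 1) → ℝ)} (hc : Convex ℝ K) (hK : IsCompact K) :
    ConcaveOn ℝ {z | ∃ t, ins 0 t z ∈ K} (cl K) := by
  refine ⟨?_, ?_⟩
  · rintro x ⟨s, hs⟩ y ⟨t, ht⟩ a b ha hb hab
    refine ⟨a * s + b * t, ?_⟩
    rw [ins_add_smul]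
    exact hc hs ht ha hb hab
  · rintro x hx y hy a b ha hb hab
    refine bm_line (chord_convex hc x) (chord_convex hc y) (chord_compact hK x)
      (chord_compact hK y) (chord_compact hK _).measure_lt_top.ne hx hy ha hb ?_
    intro s hs t ht
    show ins 0 (a * s + b * t) (a • x + b • y) ∈ K
    rw [ins_add_smul]
    exact hc hs ht ha hb hab

theorem le_cl {K : Set (Fin (n + 1) → ℝ)} (hc : Convex ℝ K) (hK : IsCompact K) {z : Fin n → ℝ}
    {s t : ℝ} (hs : ins 0 s z ∈ K) (ht : ins 0 t z ∈ K) : t - s ≤ cl K z := by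
  rcases le_total s t with h | h
  · have hsub : Set.Icc s t ⊆ {t : ℝ | ins 0 t z ∈ K} :=
      (chord_convex hc z).ordConnected.out hs ht
    have := measureReal_mono (μ := volume) hsub (chord_compact hK z).measure_lt_top.ne
    rwa [bm_real_Icc h] at this
  · exact (sub_nonpos.2 h).trans measureReal_nonneg

/-- vertical fibre of a planar set -/
def bmFib (K : Set (Fin 2 → ℝ)) (s : ℝ) : Set ℝ := {t | ![s, t] ∈ K}

lemma bmFib_compact {K : Set (Fin 2 → ℝ)} (hK : IsCompact K) (s : ℝ) : IsCompact (bmFib K s) := by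
  refine bm_pre_compact hK (f := fun t => ![s, t]) (by fun_prop) fun t => ?_
  have := norm_le_pi_norm (![s, t] : Fin 2 → ℝ) 1
  simpa using this

lemma bm_vec (a b s s' t t' : ℝ) :
    (![a * s + b * s', a * t + b * t'] : Fin 2 → ℝ) = a • ![s, t] + b • ![s', t'] := by
  ext i
  fin_cases i <;> simp

lemma bmFib_convex {K : Set (Fin 2 → ℝ)} (hc : Convex ℝ K) (s : ℝ) : Convex ℝ (bmFib K s) := by
  intro t ht t' ht' a b ha hb hab
  have := hc ht ht' ha hb hab
  rw [← bm_vec, ← add_mul, hab, one_mul] at this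
  exact this

lemma bm_pre_meas {K : Set (Fin 2 → ℝ)} (hK : IsCompact K) :
    MeasurableSet {p : ℝ × ℝ | ![p.1, p.2] ∈ K} :=
  (hK.isClosed.preimage (f := fun p : ℝ × ℝ => ![p.1, p.2]) (by fun_prop)).measurableSet

lemma bmFib_meas {K : Set (Fin 2 → ℝ)} (hK : IsCompact K) :
    Measurable fun s => volume (bmFib K s) :=
  measurable_measure_prodMk_left (ν := volume) (bm_pre_meas hK)

lemma bm_lint {K : Set (Fin 2 → ℝ)} (hK : IsCompact K) :
    volume K = ∫⁻ s, volume (bmFib K s) := by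
  have h := (volume_preserving_finTwoArrow ℝ).symm.measure_preimage
    hK.isClosed.measurableSet.nullMeasurableSet
  rw [← h]
  have e : (MeasurableEquiv.finTwoArrow (α := ℝ)).symm ⁻¹' K =
      {p : ℝ × ℝ | ![p.1, p.2] ∈ K} := by
    ext p
    simp [MeasurableEquiv.finTwoArrow]
  rw [e, Measure.volume_eq_prod, Measure.prod_apply (bm_pre_meas hK)]
  rfl

lemma bm_integrable {K : Set (Fin 2 → ℝ)} (hK : IsCompact K) :
    Integrable fun s => volume.real (bmFib K s) :=
  integrable_toReal_of_lintegral_ne_top (bmFib_meas hK).aemeasurable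
    (by rw [← bm_lint hK]; exact hK.measure_lt_top.ne)

lemma bm_int {K : Set (Fin 2 → ℝ)} (hK : IsCompact K) :
    volume.real K = ∫ s, volume.real (bmFib K s) := by
  rw [Measure.real, bm_lint hK, ← integral_toReal (bmFib_meas hK).aemeasurable
    (Eventually.of_forall fun s => (bmFib_compact hK s).measure_lt_top)]
  rfl

lemma bm_ii {K : Set (Fin 2 → ℝ)} (hK : IsCompact K) (p w : ℝ) :
    IntervalIntegrable (fun u => volume.real (bmFib K (p + w * u))) volume 0 1 := by
  obtain ⟨R, hR⟩ := hK.isBounded.exists_norm_le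
  have hm : Measurable fun u : ℝ => volume.real (bmFib K (p + w * u)) :=
    ((bmFib_meas hK).comp (by fun_prop : Measurable fun u : ℝ => p + w * u)).ennreal_toReal
  refine (intervalIntegrable_const (c := volume.real (Set.Icc (-R) R))).mono_fun'
    hm.aestronglyMeasurable (Eventually.of_forall fun u => ?_)
  show ‖volume.real (bmFib K (p + w * u))‖ ≤ _
  rw [Real.norm_eq_abs, abs_of_nonneg measureReal_nonneg]
  refine measureReal_mono (fun t ht => ?_) isCompact_Icc.measure_lt_top.ne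
  have h1 := norm_le_pi_norm (![p + w * u, t] : Fin 2 → ℝ) 1
  have h2 := hR _ ht
  refine abs_le.1 (le_trans ?_ h2)
  simpa using h1

lemma bm_le_vol {K : Set (Fin 2 → ℝ)} (hK : IsCompact K) (p : ℝ) {w : ℝ} (hw : 0 ≤ w) :
    w * ∫ u in (0 : ℝ)..1, volume.real (bmFib K (p + w * u)) ≤ volume.real K := by
  have h := intervalIntegral.smul_integral_comp_add_mul (a := 0) (b := 1)
    (fun s => volume.real (bmFib K s)) w p
  rw [smul_eq_mul] at h
  rw [h, intervalIntegral.integral_of_le (by linarith), bm_int hK]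
  exact setIntegral_le_integral (bm_integrable hK) (Eventually.of_forall fun s => measureReal_nonneg)

lemma bm_param {K : Set (Fin 2 → ℝ)} (hc : Convex ℝ K) (hK : IsCompact K) (hn : K.Nonempty) :
    ∃ p w : ℝ, 0 ≤ w ∧ (∀ u ∈ Set.Icc (0 : ℝ) 1, (bmFib K (p + w * u)).Nonempty) ∧
      volume.real K = w * ∫ u in (0 : ℝ)..1, volume.real (bmFib K (p + w * u)) := by
  have hc' : Convex ℝ ((fun x : Fin 2 → ℝ => x 0) '' K) :=
    hc.is_linear_image (LinearMap.proj (R := ℝ) (φ := fun _ : Fin 2 => ℝ) 0).isLinear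
  obtain ⟨p, q, hpq, h⟩ := bm_eq_Icc hc' (hK.image (continuous_apply 0)) (hn.image _)
  have hmem : ∀ s, (bmFib K s).Nonempty ↔ s ∈ Set.Icc p q := by
    intro s
    rw [← h]
    constructor
    · rintro ⟨t, ht⟩
      exact ⟨_, ht, by simp⟩
    · rintro ⟨x, hx, rfl⟩
      refine ⟨x 1, ?_⟩
      show ![x 0, x 1] ∈ K
      convert hx
      ext i
      fin_cases i <;> simp
  refine ⟨p, q - p, sub_nonneg.2 hpq, fun u hu => (hmem _).2 ⟨?_, ?_⟩, ?_⟩
  · nlinarith [hu.1, hu.2]
  · nlinarith [hu.1, hu.2]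
  · have h2 := intervalIntegral.smul_integral_comp_add_mul (a := 0) (b := 1)
      (fun s => volume.real (bmFib K s)) (q - p) p
    rw [smul_eq_mul] at h2
    rw [h2, intervalIntegral.integral_of_le (by linarith), bm_int hK,
      ← integral_Icc_eq_integral_Ioc]
    refine (setIntegral_eq_integral_of_forall_compl_eq_zero fun s hs => ?_).symm
    have : bmFib K s = ∅ := by
      rw [← Set.not_nonempty_iff_eq_empty, hmem]
      simpa using hs
    rw [this]
    simp

/-- Brunn-Minkowski in the plane -/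
theorem bm_plane {K0 K1 L : Set (Fin 2 → ℝ)} (c0 : Convex ℝ K0) (c1 : Convex ℝ K1)
    (k0 : IsCompact K0) (k1 : IsCompact K1) (hL : IsCompact L) (n0 : K0.Nonempty)
    (n1 : K1.Nonempty) {a b : ℝ} (ha : 0 ≤ a) (hb : 0 ≤ b) (hab : a + b = 1)
    (h : ∀ x ∈ K0, ∀ y ∈ K1, a • x + b • y ∈ L) :
    a * Real.sqrt (volume.real K0) + b * Real.sqrt (volume.real K1) ≤
      Real.sqrt (volume.real L) := by
  obtain ⟨p0, w0, hw0, e0, v0⟩ := bm_param c0 k0 n0
  obtain ⟨p1, w1, hw1, e1, v1⟩ := bm_param c1 k1 n1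
  have hw : 0 ≤ a * w0 + b * w1 := by positivity
  have hv := bm_le_vol hL (a * p0 + b * p1) hw
  have hmono : ∫ u in (0 : ℝ)..1, (a * volume.real (bmFib K0 (p0 + w0 * u)) +
        b * volume.real (bmFib K1 (p1 + w1 * u))) ≤
      ∫ u in (0 : ℝ)..1, volume.real (bmFib L (a * p0 + b * p1 + (a * w0 + b * w1) * u)) := by
    refine intervalIntegral.integral_mono_on zero_le_one
      (((bm_ii k0 p0 w0).const_mul a).add ((bm_ii k1 p1 w1).const_mul b)) (bm_ii hL _ _)
      fun u hu => ?_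
    refine bm_line (bmFib_convex c0 _) (bmFib_convex c1 _) (bmFib_compact k0 _)
      (bmFib_compact k1 _) (bmFib_compact hL _).measure_lt_top.ne (e0 u hu) (e1 u hu) ha hb ?_
    intro s hs t ht
    have := h _ hs _ ht
    rw [← bm_vec] at this
    show ![_, _] ∈ L
    convert this using 2
    ring
  rw [intervalIntegral.integral_add ((bm_ii k0 p0 w0).const_mul a) ((bm_ii k1 p1 w1).const_mul b),
    intervalIntegral.integral_const_mul, intervalIntegral.integral_const_mul] at hmono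
  have hA0 : 0 ≤ ∫ u in (0 : ℝ)..1, volume.real (bmFib K0 (p0 + w0 * u)) :=
    intervalIntegral.integral_nonneg zero_le_one fun u _ => measureReal_nonneg
  have hA1 : 0 ≤ ∫ u in (0 : ℝ)..1, volume.real (bmFib K1 (p1 + w1 * u)) :=
    intervalIntegral.integral_nonneg zero_le_one fun u _ => measureReal_nonneg
  rw [v0, v1]
  generalize ∫ u in (0 : ℝ)..1, volume.real (bmFib K0 (p0 + w0 * u)) = A0 at *
  generalize ∫ u in (0 : ℝ)..1, volume.real (bmFib K1 (p1 + w1 * u)) = A1 at *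
  have hv2 : (a * w0 + b * w1) * (a * A0 + b * A1) ≤ volume.real L :=
    (mul_le_mul_of_nonneg_left hmono hw).trans hv
  refine Real.le_sqrt_of_sq_le (le_trans ?_ hv2)
  rw [Real.sqrt_mul hw0, Real.sqrt_mul hw1]
  have q0 := Real.sq_sqrt hw0
  have q1 := Real.sq_sqrt hw1
  have r0 := Real.sq_sqrt hA0
  have r1 := Real.sq_sqrt hA1
  have hpos : 0 ≤ a * b * (√w0 * √A1 - √w1 * √A0) ^ 2 := by positivity
  have e : (a * √w0 ^ 2 + b * √w1 ^ 2) * (a * √A0 ^ 2 + b * √A1 ^ 2) -
      (a * (√w0 * √A0) + b * (√w1 * √A1)) ^ 2 = a * b * (√w0 * √A1 - √w1 * √A0) ^ 2 := by ring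
  rw [q0, q1, r0, r1] at e
  linarith

lemma bm_sv_two (K : Set (Fin 2 → ℝ)) (u : ℝ) :
    sv K u = volume.real {t : ℝ | ins 0 u (fun _ => t) ∈ K} := by
  have h := (volume_preserving_funUnique (Fin 1) ℝ).symm.measure_preimage_equiv (slice K u)
  exact (congrArg ENNReal.toReal h).symm

lemma slice_dom_convex {K : Set (Fin (n + 1) → ℝ)} (hc : Convex ℝ K) :
    Convex ℝ {u | (slice K u).Nonempty} := by
  rintro x ⟨y, hy⟩ x' ⟨y', hy'⟩ a b ha hb hab
  refine ⟨a • y + b • y', ?_⟩
  show ins 0 (a * x + b * x') (a • y + b • y') ∈ K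
  rw [ins_add_smul]
  exact hc hy hy' ha hb hab

theorem sv_concave_two {K : Set (Fin 2 → ℝ)} (hc : Convex ℝ K) (hK : IsCompact K) :
    ConcaveOn ℝ {u | (slice K u).Nonempty} (sv K) := by
  refine ⟨slice_dom_convex hc, ?_⟩
  have key : ∀ (a b u u' t t' : ℝ), ins (0 : Fin 2) (a * u + b * u') (fun _ => a * t + b * t') =
      a • ins 0 u (fun _ => t) + b • ins 0 u' (fun _ => t') := by
    intro a b u u' t t'
    rw [← ins_add_smul]
    rfl
  have hcv : ∀ u, Convex ℝ {t : ℝ | ins 0 u (fun _ => t) ∈ K} := by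
    intro u s hs t ht a b ha hb hab
    have := hc hs ht ha hb hab
    rw [← key, ← add_mul, hab, one_mul] at this
    exact this
  have hcp : ∀ u, IsCompact {t : ℝ | ins 0 u (fun _ => t) ∈ K} := by
    intro u
    refine bm_pre_compact hK (f := fun t => ins 0 u (fun _ => t))
      ((continuous_ins (0 : Fin 2)).comp
        (continuous_const.prodMk (continuous_pi fun _ => continuous_id))) fun t => ?_
    have := norm_le_pi_norm (ins (0 : Fin 2) u (fun _ => t)) ((0 : Fin 2).succAbove 0)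
    rwa [ins_succAbove, Real.norm_eq_abs] at this
  have hne : ∀ u, (slice K u).Nonempty → {t : ℝ | ins 0 u (fun _ => t) ∈ K}.Nonempty := by
    rintro u ⟨z, hz⟩
    refine ⟨z 0, ?_⟩
    have e : (fun _ => z 0) = z := by
      ext i
      rw [Subsingleton.elim i 0]
    show ins 0 u (fun _ => z 0) ∈ K
    rw [e]
    exact hz
  intro x hx y hy a b ha hb hab
  rw [bm_sv_two, bm_sv_two, bm_sv_two]
  refine bm_line (hcv x) (hcv y) (hcp x) (hcp y) (hcp _).measure_lt_top.ne (hne x hx) (hne y hy)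
    ha hb ?_
  intro s hs t ht
  show ins 0 (a * x + b * y) (fun _ => a * s + b * t) ∈ K
  rw [key]
  exact hc hs ht ha hb hab

theorem sv_concave_three {K : Set (Fin 3 → ℝ)} (hc : Convex ℝ K) (hK : IsCompact K) :
    ConcaveOn ℝ {u | (slice K u).Nonempty} (fun u => Real.sqrt (sv K u)) := by
  refine ⟨slice_dom_convex hc, ?_⟩
  intro x hx y hy a b ha hb hab
  refine bm_plane (slice_convex hc x) (slice_convex hc y) (slice_compact hK x)
    (slice_compact hK y) (slice_compact hK _) hx hy ha hb hab ?_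
  intro s hs t ht
  show ins 0 (a * x + b * y) (a • s + b • t) ∈ K
  rw [ins_add_smul]
  exact hc hs ht ha hb hab

end Pool.Agent.P.MP_2e1554_gt
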