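import Pool.Agent.P.MP_2e1554_gt.IsoDefs

open MeasureTheory Set Finset Matrix Filter Topology Pointwise

namespace Pool.Agent.P.MP_2e1554_gt

variable {n : ℕ}

theorem ray_smul (g : (Fin 2 → ℝ) → ℝ) (k : ℕ) (y : Fin 2 → ℝ) {s : ℝ} (hs : 0 < s) :
    ray g k (s • y) * s ^ (k + 2) = ray g k y := by
  have h1 := integral_comp_mul_left_Ioi (fun u : ℝ => g (u • y) * u ^ (k + 1)) 0 hs
  simp only [mul_zero, smul_eq_mul] at h1
  have h2 : ∀ r : ℝ, g ((s * r) • y) * (s * r) ^ (k + 1) =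
      s ^ (k + 1) * (g (r • s • y) * r ^ (k + 1)) := by
    intro r
    rw [smul_smul, mul_comm r s, mul_pow]; ring
  simp only [h2] at h1
  rw [integral_const_mul] at h1
  unfold ray
  have hs' : s ≠ 0 := hs.ne'
  calc (∫ r in Ioi (0 : ℝ), g (r • s • y) * r ^ (k + 1)) * s ^ (k + 2)
      = s * (s ^ (k + 1) * ∫ r in Ioi (0 : ℝ), g (r • s • y) * r ^ (k + 1)) := by ring
    _ = s * (s⁻¹ * ∫ r in Ioi (0 : ℝ), g (r • y) * r ^ (k + 1)) := by rw [h1]
    _ = _ := by field_simp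

theorem ball_bound {g : (Fin 2 → ℝ) → ℝ} {D : Set (Fin 2 → ℝ)} {F : ℝ} (h : Dens g D F)
    {M : ℝ} (hM : D ⊆ Metric.closedBall 0 M) (k : ℕ) {y : Fin 2 → ℝ} (hy : y ≠ 0) {r : ℝ}
    (hr : 0 < r) :
    g (r • y) * r ^ (k + 1) ≤
      (Ioc 0 (M / ‖y‖)).indicator (fun _ => F * (M / ‖y‖) ^ (k + 1)) r := by
  have hn : 0 < ‖y‖ := norm_pos_iff.mpr hy
  by_cases hT : r ≤ M / ‖y‖
  · rw [indicator_of_mem (show r ∈ Ioc 0 (M / ‖y‖) from ⟨hr, hT⟩)]
    have hF : 0 ≤ F := (h.nonneg 0).trans (h.le 0)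
    exact mul_le_mul (h.le _) (pow_le_pow_left₀ hr.le hT _) (by positivity) hF
  · rw [indicator_of_notMem (fun hh => hT hh.2)]
    have : r • y ∉ D := by
      intro hmem
      have h1 := hM hmem
      rw [Metric.mem_closedBall, dist_zero_right, norm_smul, Real.norm_of_nonneg hr.le] at h1
      exact hT ((le_div_iff₀ hn).mpr h1)
    rw [h.off _ this, zero_mul]

theorem ball_ind_int (T c : ℝ) :
    Integrable ((Ioc (0 : ℝ) T).indicator (fun _ => c)) (volume.restrict (Ioi (0 : ℝ))) := by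
  apply Integrable.restrict
  rw [integrable_indicator_iff measurableSet_Ioc]
  exact integrableOn_const (by simp)

theorem ball_int {g : (Fin 2 → ℝ) → ℝ} {D : Set (Fin 2 → ℝ)} {F : ℝ} (h : Dens g D F)
    (k : ℕ) {y : Fin 2 → ℝ} (hy : y ≠ 0) :
    IntegrableOn (fun r : ℝ => g (r • y) * r ^ (k + 1)) (Ioi 0) := by
  obtain ⟨M, hM⟩ := h.cpt.isBounded.subset_closedBall 0
  refine Integrable.mono' (ball_ind_int (M / ‖y‖) (F * (M / ‖y‖) ^ (k + 1))) ?_ ?_
  · apply Measurable.aestronglyMeasurable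
    exact (h.meas.comp (measurable_id.smul_const y)).mul (measurable_id.pow_const _)
  · filter_upwards [ae_restrict_mem measurableSet_Ioi] with r hr
    have hr' : (0 : ℝ) < r := hr
    rw [Real.norm_of_nonneg (mul_nonneg (h.nonneg _) (by positivity))]
    exact ball_bound h hM k hy hr'

theorem ball_extent {g : (Fin 2 → ℝ) → ℝ} {D : Set (Fin 2 → ℝ)} {F : ℝ} (h : Dens g D F)
    (h0 : (0 : Fin 2 → ℝ) ∈ D) {y : Fin 2 → ℝ} (hy : y ≠ 0) (hI : 0 < ray g 1 y) :
    ∃ R : ℝ, 0 < R ∧ (∀ τ : ℝ, 0 ≤ τ → τ ≤ 1 → τ • R • y ∈ D) ∧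
      ∀ τ : ℝ, 1 < τ → τ • R • y ∉ D := by
  obtain ⟨M, hM⟩ := h.cpt.isBounded.subset_closedBall 0
  have hn : 0 < ‖y‖ := norm_pos_iff.mpr hy
  set S : Set ℝ := {r | 0 ≤ r ∧ r • y ∈ D} with hS
  have hcl : IsClosed S := by
    apply IsClosed.inter isClosed_Ici
    exact h.cpt.isClosed.preimage (continuous_id.smul continuous_const)
  have hbd : BddAbove S := by
    refine ⟨M / ‖y‖, fun r hr => ?_⟩
    have h1 := hM hr.2
    rw [Metric.mem_closedBall, dist_zero_right, norm_smul, Real.norm_of_nonneg hr.1] at h1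
    exact (le_div_iff₀ hn).mpr h1
  have hne : S.Nonempty := ⟨0, le_rfl, by simpa using h0⟩
  have hmem : sSup S ∈ S := hcl.csSup_mem hne hbd
  have hpos : 0 < sSup S := by
    by_contra hle
    push Not at hle
    have : ray g 1 y = 0 := by
      unfold ray
      apply setIntegral_eq_zero_of_forall_eq_zero
      intro r hr
      have hr' : (0 : ℝ) < r := hr
      have : r • y ∉ D := fun hm => by
        have := le_csSup hbd (show r ∈ S from ⟨hr'.le, hm⟩)
        linarith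
      rw [h.off _ this, zero_mul]
    linarith
  refine ⟨sSup S, hpos, fun τ h1 h2 => ?_, fun τ h1 hm => ?_⟩
  · exact h.cvx.smul_mem_of_zero_mem h0 hmem.2 ⟨h1, h2⟩
  · rw [smul_smul] at hm
    have := le_csSup hbd (show τ * sSup S ∈ S from ⟨by positivity, hm⟩)
    nlinarith

theorem ball_shrink {g : (Fin 2 → ℝ) → ℝ} {y : Fin 2 → ℝ} (hy : y ∈ ballB g) {b : ℝ}
    (hb : 0 ≤ b) (hb1 : b ≤ 1) : b • y ∈ ballB g := by
  rcases hb.eq_or_lt with rfl | hb
  · left; simp
  rcases hy with rfl | hy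
  · left; simp
  right
  have h1 := ray_smul g 1 y hb
  have h2 : b ^ (1 + 2) ≤ 1 := pow_le_one₀ hb.le hb1
  have h3 : 0 < b ^ (1 + 2) := by positivity
  have h4 : 0 < ray g 1 (b • y) := by
    by_contra hle
    push Not at hle
    nlinarith
  nlinarith

theorem ball_jensen {a b u v : ℝ} (ha : 0 ≤ a) (hb : 0 ≤ b) (hab : a + b = 1) :
    (a * u + b * v) ^ 4 ≤ a * u ^ 4 + b * v ^ 4 := by
  have h1 : (a * u + b * v) ^ 2 ≤ a * u ^ 2 + b * v ^ 2 := by
    have : a * u ^ 2 + b * v ^ 2 - (a * u + b * v) ^ 2 = a * b * (u - v) ^ 2 := by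
      have hb' : b = 1 - a := by linarith
      subst hb'; ring
    nlinarith [mul_nonneg (mul_nonneg ha hb) (sq_nonneg (u - v))]
  have h2 : (a * u ^ 2 + b * v ^ 2) ^ 2 ≤ a * u ^ 4 + b * v ^ 4 := by
    have : a * u ^ 4 + b * v ^ 4 - (a * u ^ 2 + b * v ^ 2) ^ 2 = a * b * (u ^ 2 - v ^ 2) ^ 2 := by
      have hb' : b = 1 - a := by linarith
      subst hb'; ring
    nlinarith [mul_nonneg (mul_nonneg ha hb) (sq_nonneg (u ^ 2 - v ^ 2))]
  calc (a * u + b * v) ^ 4 = ((a * u + b * v) ^ 2) ^ 2 := by ring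
    _ ≤ (a * u ^ 2 + b * v ^ 2) ^ 2 := pow_le_pow_left₀ (sq_nonneg _) h1 2
    _ ≤ _ := h2

theorem ballB_convex {g : (Fin 2 → ℝ) → ℝ} {D : Set (Fin 2 → ℝ)} {F : ℝ} (h : Dens g D F)
    (h0 : (0 : Fin 2 → ℝ) ∈ D) : Convex ℝ (ballB g) := by
  intro y1 hy1 y2 hy2 a b ha hb hab
  by_cases e1 : y1 = 0
  · subst e1
    simpa using ball_shrink hy2 hb (by linarith)
  by_cases e2 : y2 = 0
  · subst e2
    simpa using ball_shrink hy1 ha (by linarith)
  by_cases e : a • y1 + b • y2 = 0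
  · left; exact e
  right
  have i1 : 1 ≤ 12 * ray g 1 y1 := hy1.resolve_left e1
  have i2 : 1 ≤ 12 * ray g 1 y2 := hy2.resolve_left e2
  obtain ⟨R1, p1, in1, out1⟩ := ball_extent h h0 e1 (by linarith)
  obtain ⟨R2, p2, in2, out2⟩ := ball_extent h h0 e2 (by linarith)
  set u := R1⁻¹ with hu
  set v := R2⁻¹ with hv
  have up : 0 < u := inv_pos.mpr p1
  have vp : 0 < v := inv_pos.mpr p2
  have uR : u * R1 = 1 := inv_mul_cancel₀ p1.ne'
  have vR : v * R2 = 1 := inv_mul_cancel₀ p2.ne'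
  set w := a * u + b * v with hw
  have wp : 0 < w := by
    rcases ha.eq_or_lt with rfl | ha'
    · have : b = 1 := by linarith
      rw [hw, this]; simpa using vp
    · have := mul_pos ha' up
      have := mul_nonneg hb vp.le
      linarith
  set R := w⁻¹ with hR
  have Rp : 0 < R := inv_pos.mpr wp
  have wR : w * R = 1 := mul_inv_cancel₀ wp.ne'
  have l1 : 0 ≤ a * u * R := by positivity
  have l2 : 0 ≤ b * v * R := by positivity
  have l12 : a * u * R + b * v * R = 1 := by rw [← wR, hw]; ring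
  have key : ∀ τ : ℝ, 0 < τ →
      a * u * R * g (τ • R1 • y1) + b * v * R * g (τ • R2 • y2) ≤
        g (τ • R • (a • y1 + b • y2)) := by
    intro τ hτ
    by_cases hτ1 : τ ≤ 1
    · have hc := h.conc.2 (in1 τ hτ.le hτ1) (in2 τ hτ.le hτ1) l1 l2 l12
      have : (a * u * R) • τ • R1 • y1 + (b * v * R) • τ • R2 • y2 =
          τ • R • (a • y1 + b • y2) := by
        simp only [smul_add, smul_smul]
        congr 2
        · calc a * u * R * (τ * R1) = a * R * τ * (u * R1) := by ring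
            _ = _ := by rw [uR]; ring
        · calc b * v * R * (τ * R2) = b * R * τ * (v * R2) := by ring
            _ = _ := by rw [vR]; ring
      rw [this] at hc
      simpa using hc
    · push Not at hτ1
      rw [h.off _ (out1 τ hτ1), h.off _ (out2 τ hτ1)]
      simpa using h.nonneg _
  have n1 : R1 • y1 ≠ 0 := smul_ne_zero p1.ne' e1
  have n2 : R2 • y2 ≠ 0 := smul_ne_zero p2.ne' e2
  have n3 : R • (a • y1 + b • y2) ≠ 0 := smul_ne_zero Rp.ne' e
  have hint : a * u * R * ray g 1 (R1 • y1) + b * v * R * ray g 1 (R2 • y2) ≤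
      ray g 1 (R • (a • y1 + b • y2)) := by
    unfold ray
    rw [← integral_const_mul, ← integral_const_mul,
      ← integral_add ((ball_int h 1 n1).const_mul _) ((ball_int h 1 n2).const_mul _)]
    apply setIntegral_mono_on
      (((ball_int h 1 n1).const_mul _).add ((ball_int h 1 n2).const_mul _)) (ball_int h 1 n3)
      measurableSet_Ioi
    intro τ hτ
    have hτ' : (0 : ℝ) < τ := hτ
    have := mul_le_mul_of_nonneg_right (key τ hτ') (show 0 ≤ τ ^ (1 + 1) by positivity)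
    simp only [Pi.add_apply]
    linarith
  have s1 := ray_smul g 1 y1 p1
  have s2 := ray_smul g 1 y2 p2
  have s3 := ray_smul g 1 (a • y1 + b • y2) Rp
  have t1 : u ^ 3 ≤ 12 * ray g 1 (R1 • y1) := by
    have : ray g 1 (R1 • y1) = ray g 1 y1 * u ^ 3 := by
      rw [← s1]
      calc ray g 1 (R1 • y1) = ray g 1 (R1 • y1) * (u * R1) ^ 3 := by rw [uR]; ring
        _ = _ := by ring
    rw [this]
    nlinarith [pow_pos up 3]
  have t2 : v ^ 3 ≤ 12 * ray g 1 (R2 • y2) := by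
    have : ray g 1 (R2 • y2) = ray g 1 y2 * v ^ 3 := by
      rw [← s2]
      calc ray g 1 (R2 • y2) = ray g 1 (R2 • y2) * (v * R2) ^ 3 := by rw [vR]; ring
        _ = _ := by ring
    rw [this]
    nlinarith [pow_pos vp 3]
  have j := ball_jensen (u := u) (v := v) ha hb hab
  rw [← hw] at j
  have t3 : a * u * R * u ^ 3 + b * v * R * v ^ 3 ≤ 12 * ray g 1 (R • (a • y1 + b • y2)) := by
    have q1 := mul_le_mul_of_nonneg_left t1 l1
    have q2 := mul_le_mul_of_nonneg_left t2 l2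
    linarith
  have t4 : R * w ^ 4 ≤ 12 * ray g 1 (R • (a • y1 + b • y2)) := by
    have := mul_le_mul_of_nonneg_left j Rp.le
    linarith
  rw [← s3]
  have R3 : 0 < R ^ (1 + 2) := by positivity
  have := mul_le_mul_of_nonneg_right t4 R3.le
  have e4 : R * w ^ 4 * R ^ (1 + 2) = 1 := by
    calc R * w ^ 4 * R ^ (1 + 2) = (w * R) ^ 4 := by ring
      _ = 1 := by rw [wR]; norm_num
  linarith

theorem ballB_bounded {g : (Fin 2 → ℝ) → ℝ} {D : Set (Fin 2 → ℝ)} {F : ℝ} (h : Dens g D F) :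
    Bornology.IsBounded (ballB g) := by
  obtain ⟨M0, hM0⟩ := h.cpt.isBounded.subset_closedBall 0
  set M := max M0 0 with hMdef
  have hM : D ⊆ Metric.closedBall 0 M :=
    hM0.trans (Metric.closedBall_subset_closedBall (le_max_left _ _))
  have Mp : 0 ≤ M := le_max_right _ _
  have hF : 0 ≤ F := (h.nonneg 0).trans (h.le 0)
  apply (Metric.isBounded_closedBall (x := (0 : Fin 2 → ℝ)) (r := max 1 (12 * F * M ^ 3))).subset
  intro y hy
  rw [Metric.mem_closedBall, dist_zero_right]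
  by_cases e : y = 0
  · subst e; simp
  have i1 : 1 ≤ 12 * ray g 1 y := hy.resolve_left e
  have hn : 0 < ‖y‖ := norm_pos_iff.mpr e
  have Tp : 0 ≤ M / ‖y‖ := by positivity
  have hle : ray g 1 y ≤ F * (M / ‖y‖) ^ 3 := by
    unfold ray
    calc ∫ r in Ioi (0 : ℝ), g (r • y) * r ^ (1 + 1)
        ≤ ∫ r in Ioi (0 : ℝ),
          (Ioc 0 (M / ‖y‖)).indicator (fun _ => F * (M / ‖y‖) ^ (1 + 1)) r := by
          apply setIntegral_mono_on (ball_int h 1 e) (ball_ind_int _ _) measurableSet_Ioi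
          intro r hr
          exact ball_bound h hM 1 e hr
      _ = F * (M / ‖y‖) ^ 3 := by
          rw [setIntegral_indicator measurableSet_Ioc,
            Set.inter_eq_self_of_subset_right Set.Ioc_subset_Ioi_self, setIntegral_const]
          simp only [smul_eq_mul, Real.volume_real_Ioc, sub_zero, max_eq_left Tp]
          ring
  by_cases h1 : ‖y‖ ≤ 1
  · exact h1.trans (le_max_left _ _)
  push Not at h1
  refine le_trans ?_ (le_max_right _ _)
  have h2 : ‖y‖ ^ 3 ≤ 12 * F * M ^ 3 := by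
    have h3 : 1 ≤ 12 * F * M ^ 3 / ‖y‖ ^ 3 := by
      rw [div_pow] at hle
      calc (1 : ℝ) ≤ 12 * ray g 1 y := i1
        _ ≤ 12 * (F * (M ^ 3 / ‖y‖ ^ 3)) := by linarith
        _ = _ := by ring
    rwa [le_div_iff₀ (by positivity), one_mul] at h3
  have h4 : ‖y‖ ≤ ‖y‖ ^ 3 := le_self_pow₀ h1.le (by norm_num)
  linarith

end Pool.Agent.P.MP_2e1554_gt
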