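import Pool.Agent.P.MP_2e1554_gt.IsoC3M

/-! Upper and lower boundary of a planar body. -/

open MeasureTheory Set

namespace Pool.Agent.P.MP_2e1554_gt.Chk

private lemma a_fub {K : Set (Fin 2 → ℝ)} (hK : IsCompact K) {f : (Fin 2 → ℝ) → ℝ}
    (hf : Continuous f) : ∫ x in K, f x = ∫ u : ℝ, ∫ t : ℝ, K.indicator f ![u, t] := by
  have hm := hK.isClosed.measurableSet
  have hi : Integrable (K.indicator f) :=
    (integrable_indicator_iff hm).2 (hf.continuousOn.integrableOn_compact hK)
  have hp := (volume_preserving_finTwoArrow ℝ).symm _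
  have h1 := hp.integrable_comp_of_integrable hi
  rw [← integral_indicator hm, ← hp.integral_comp' (K.indicator f)]
  exact integral_prod _ h1

private lemma a_comb (u v s t a b : ℝ) :
    (![a * u + b * v, a * s + b * t] : Fin 2 → ℝ) = a • ![u, s] + b • ![v, t] := by
  ext i
  fin_cases i <;> simp

private lemma a_cont (u : ℝ) : Continuous fun t : ℝ => (![u, t] : Fin 2 → ℝ) := by
  refine continuous_pi fun i => ?_
  fin_cases i
  · exact continuous_const
  · exact continuous_id

theorem c3_slice {K : Set (Fin 2 → ℝ)} (hK : Iso K) : ∃ (α β : ℝ) (U l : ℝ → ℝ),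
    Shk U l α β (volume.real K) ∧ (∃ y ∈ K, y 0 = α) ∧ ∃ y ∈ K, y 0 = β := by
  obtain ⟨α, β, hM, hmem, ⟨a, ha, ha0⟩, ⟨b, hb, hb0⟩⟩ := marg_two hK
  obtain ⟨C, hC⟩ := hK.cpt.isBounded.exists_norm_le
  let S : ℝ → Set ℝ := fun u => {t | (![u, t] : Fin 2 → ℝ) ∈ K}
  have bd : ∀ u, ∀ t ∈ S u, |t| ≤ C := fun u t ht =>
    (norm_le_pi_norm (![u, t] : Fin 2 → ℝ) 1).trans (hC _ ht)
  have cS : ∀ u, IsCompact (S u) := fun u =>
    (isCompact_Icc (a := -C) (b := C)).of_isClosed_subset (hK.cpt.isClosed.preimage (a_cont u))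
      fun t ht => abs_le.1 (bd u t ht)
  have cb : ∀ {u v s t r r' : ℝ}, s ∈ S u → t ∈ S v → 0 ≤ r → 0 ≤ r' → r + r' = 1 →
      r * s + r' * t ∈ S (r * u + r' * v) := fun {u v s t r r'} h1 h2 h3 h4 h5 => by
    show _ ∈ K
    rw [a_comb]
    exact hK.cvx h1 h2 h3 h4 h5
  have vS : ∀ u, Convex ℝ (S u) := fun u s hs t ht r r' h3 h4 h5 => by
    have := cb hs ht h3 h4 h5
    rwa [← add_mul, h5, one_mul] at this
  have nS : ∀ u ∈ Icc α β, (S u).Nonempty := fun u hu => by
    have hc : ContinuousOn (fun x : Fin 2 → ℝ => x 0) K := (continuous_apply 0).continuousOn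
    obtain ⟨x, hx, hxu⟩ := hK.cvx.isPreconnected.intermediate_value ha hb hc
      (show u ∈ Icc (a 0) (b 0) by rwa [ha0, hb0])
    refine ⟨x 1, ?_⟩
    have e : (![u, x 1] : Fin 2 → ℝ) = x := by
      ext i
      fin_cases i
      · exact hxu.symm
      · rfl
    show _ ∈ K
    rwa [e]
  have mU : ∀ u ∈ Icc α β, sSup (S u) ∈ S u := fun u hu => (cS u).sSup_mem (nS u hu)
  have mL : ∀ u ∈ Icc α β, sInf (S u) ∈ S u := fun u hu => (cS u).sInf_mem (nS u hu)
  have eS : ∀ u ∈ Icc α β, S u = Icc (sInf (S u)) (sSup (S u)) := fun u hu =>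
    eq_Icc_of_connected_compact ⟨nS u hu, (vS u).isPreconnected⟩ (cS u)
  have le : ∀ u ∈ Icc α β, sInf (S u) ≤ sSup (S u) := fun u hu =>
    le_csSup (cS u).bddAbove (mL u hu)
  have cU : ConcaveOn ℝ (Icc α β) fun u => sSup (S u) :=
    ⟨convex_Icc _ _, fun u hu v hv r r' h3 h4 h5 =>
      le_csSup (cS _).bddAbove (cb (mU u hu) (mU v hv) h3 h4 h5)⟩
  have cL : ConcaveOn ℝ (Icc α β) fun u => -sInf (S u) :=
    ⟨convex_Icc _ _, fun u hu v hv r r' h3 h4 h5 => by
      have := csInf_le (cS _).bddBelow (cb (mL u hu) (mL v hv) h3 h4 h5)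
      simp only [smul_eq_mul]
      linarith⟩
  have key : ∀ (f : (Fin 2 → ℝ) → ℝ) (g : ℝ → ℝ), Continuous f →
      (∀ u, ∫ t in sInf (S u)..sSup (S u), f ![u, t] = g u) →
      ∫ u in α..β, g u = ∫ x in K, f x := fun f g hf hg => by
    have e : ∀ u, (fun t : ℝ => K.indicator f ![u, t]) = (S u).indicator fun t => f ![u, t] :=
      fun u => funext fun t => by
        by_cases h : t ∈ S u
        · rw [indicator_of_mem h, indicator_of_mem (show _ ∈ K from h)]
        · rw [indicator_of_notMem h, indicator_of_notMem (show _ ∉ K from h)]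
    rw [a_fub hK.cpt hf, intervalIntegral.integral_of_le hM.lt.le,
      ← integral_Icc_eq_integral_Ioc, ← setIntegral_eq_integral_of_forall_compl_eq_zero
        (s := Icc α β) (f := fun u : ℝ => ∫ t : ℝ, K.indicator f ![u, t])]
    · refine setIntegral_congr_fun measurableSet_Icc fun u hu => ?_
      show g u = ∫ t : ℝ, K.indicator f ![u, t]
      rw [e, integral_indicator (cS u).isClosed.measurableSet, ← hg,
        intervalIntegral.integral_of_le (le u hu), ← integral_Icc_eq_integral_Ioc, ← eS u hu]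
    · intro u hu
      have : S u = ∅ := eq_empty_of_forall_notMem fun t ht => hu (hmem _ ht)
      show ∫ t : ℝ, K.indicator f ![u, t] = 0
      rw [e, this, indicator_empty]
      simp
  refine ⟨α, β, fun u => sSup (S u), fun u => -sInf (S u), ⟨hM.lt, hM.pos, cU, cL,
    BM.of_conc cU fun u hu => bd u _ (mU u hu),
    BM.of_conc (C := C) cL fun u hu => by rw [abs_neg]; exact bd u _ (mL u hu),
    fun u hu => by linarith [le u hu], ?_, ?_, ?_, ?_, ?_, ?_⟩, ⟨a, ha, ha0⟩, b, hb, hb0⟩
  · rw [key (fun _ => 1) _ continuous_const fun u => by simp [sub_eq_add_neg]]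
    simp
  · rw [key (fun x => x 0) _ (continuous_apply 0) fun u => by simp; ring]
    exact hK.m1 0
  · rw [key (fun x => x 0 * x 0) _ (by fun_prop) fun u => by simp; ring]
    simpa using hK.m2 0 0
  · rw [key (fun x => 2 * x 1) _ (by fun_prop) fun u => ?_, integral_const_mul, hK.m1 1, mul_zero]
    show ∫ t in sInf (S u)..sSup (S u), 2 * t = _
    rw [intervalIntegral.integral_const_mul, integral_id]
    ring
  · rw [key (fun x => 2 * (x 0 * x 1)) _ (by fun_prop) fun u => ?_, integral_const_mul, hK.m2 0 1]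
    · simp
    show ∫ t in sInf (S u)..sSup (S u), 2 * (u * t) = _
    rw [intervalIntegral.integral_const_mul, intervalIntegral.integral_const_mul, integral_id]
    ring
  · rw [key (fun x => 3 * (x 1 * x 1)) _ (by fun_prop) fun u => by simp [← sq]; ring,
      integral_const_mul, hK.m2 1 1]
    simp

end Pool.Agent.P.MP_2e1554_gt.Chk
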