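import Pool.Agent.P.MP_2e1554_gt.IsoC3M

/-! Shaking. -/

open MeasureTheory Set

namespace Pool.Agent.P.MP_2e1554_gt.Chk

private theorem b_lin4 {F g1 g2 g3 g4 : ℝ → ℝ} {a b : ℝ} (c1 c2 c3 c4 : ℝ)
    (i1 : IntervalIntegrable g1 volume a b) (i2 : IntervalIntegrable g2 volume a b)
    (i3 : IntervalIntegrable g3 volume a b) (i4 : IntervalIntegrable g4 volume a b)
    (h : ∀ u, F u = c1 * g1 u + c2 * g2 u + c3 * g3 u + c4 * g4 u) :
    ∫ u in a..b, F u = c1 * (∫ u in a..b, g1 u) + c2 * (∫ u in a..b, g2 u) +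
      c3 * (∫ u in a..b, g3 u) + c4 * (∫ u in a..b, g4 u) := by
  simp only [h]
  rw [intervalIntegral.integral_add (((i1.const_mul c1).add (i2.const_mul c2)).add
      (i3.const_mul c3)) (i4.const_mul c4),
    intervalIntegral.integral_add ((i1.const_mul c1).add (i2.const_mul c2)) (i3.const_mul c3),
    intervalIntegral.integral_add (i1.const_mul c1) (i2.const_mul c2)]
  simp only [intervalIntegral.integral_const_mul]

private theorem b_line {X Y : ℝ → ℝ} {a b : ℝ} (cX : ConcaveOn ℝ (Icc a b) X)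
    (cY : ConcaveOn ℝ (Icc a b) Y) (bY : BM a b Y) :
    ∃ s t p : ℝ, ∀ u ∈ Icc a b, u ≠ p → 0 ≤ X u * (Y u - (s + t * u)) := by
  by_cases hS : ∃ u1 u2, (u1 ∈ Icc a b ∧ 0 ≤ X u1) ∧ (u2 ∈ Icc a b ∧ 0 ≤ X u2) ∧ u1 < u2
  · obtain ⟨u1, u2, h1, h2, h12⟩ := hS
    obtain ⟨S, hSd⟩ : ∃ S : Set ℝ, S = {u | u ∈ Icc a b ∧ 0 ≤ X u} := ⟨_, rfl⟩
    have mem : ∀ u, u ∈ S ↔ u ∈ Icc a b ∧ 0 ≤ X u := fun u => by rw [hSd]; rfl
    have hne : S.Nonempty := ⟨u1, (mem _).2 h1⟩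
    have hb : BddBelow S := ⟨a, fun u hu => ((mem u).1 hu).1.1⟩
    have ha : BddAbove S := ⟨b, fun u hu => ((mem u).1 hu).1.2⟩
    have l1 : sInf S ≤ u1 := csInf_le hb ((mem _).2 h1)
    have l2 : u2 ≤ sSup S := le_csSup ha ((mem _).2 h2)
    have l3 : a ≤ sInf S := le_csInf hne fun u hu => ((mem u).1 hu).1.1
    have l4 : sSup S ≤ b := csSup_le hne fun u hu => ((mem u).1 hu).1.2
    have lo : ∀ u ∈ Icc a b, u < sInf S → X u < 0 := fun u hu h => by
      by_contra hc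
      exact absurd (csInf_le hb ((mem u).2 ⟨hu, not_lt.1 hc⟩)) (not_le.2 h)
    have hi : ∀ u ∈ Icc a b, sSup S < u → X u < 0 := fun u hu h => by
      by_contra hc
      exact absurd (le_csSup ha ((mem u).2 ⟨hu, not_lt.1 hc⟩)) (not_le.2 h)
    have mid : ∀ u, sInf S < u → u < sSup S → 0 ≤ X u := fun u h h' => by
      obtain ⟨v, hv, hvu⟩ := exists_lt_of_csInf_lt hne h
      obtain ⟨w, hw, huw⟩ := exists_lt_of_lt_csSup hne h'
      have k := tent_three cX ((mem v).1 hv).1 ((mem w).1 hw).1 hvu.le huw.le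
      have k1 := mul_nonneg (sub_nonneg.2 huw.le) ((mem v).1 hv).2
      have k2 := mul_nonneg (sub_nonneg.2 hvu.le) ((mem w).1 hw).2
      exact nonneg_of_mul_nonneg_right (a := w - v) (by linarith) (by linarith)
    generalize sInf S = x1 at *
    generalize sSup S = x2 at *
    have hx : 0 < x2 - x1 := by linarith
    have m1 : x1 ∈ Icc a b := ⟨l3, by linarith⟩
    have m2 : x2 ∈ Icc a b := ⟨by linarith, l4⟩
    refine ⟨Y x1 - (Y x2 - Y x1) / (x2 - x1) * x1, (Y x2 - Y x1) / (x2 - x1), 0,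
      fun u hu _ => ?_⟩
    have e : Y u - (Y x1 - (Y x2 - Y x1) / (x2 - x1) * x1 + (Y x2 - Y x1) / (x2 - x1) * u) =
        ((x2 - x1) * (Y u - Y x1) - (Y x2 - Y x1) * (u - x1)) / (x2 - x1) := by
      field_simp
      ring
    rw [e, ← mul_div_assoc]
    refine div_nonneg ?_ hx.le
    rcases lt_trichotomy u x1 with h | h | h
    · have k := tent_three cY hu m2 h.le (show x1 ≤ x2 by linarith)
      exact mul_nonneg_of_nonpos_of_nonpos (lo u hu h).le (by linarith)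
    · rw [h]; simp
    · rcases lt_trichotomy u x2 with h' | h' | h'
      · have k := tent_three cY m1 m2 h.le h'.le
        exact mul_nonneg (mid u h h') (by linarith)
      · rw [h']
        exact le_of_eq (by ring)
      · have k := tent_three cY m1 hu (show x1 ≤ x2 by linarith) h'.le
        exact mul_nonneg_of_nonpos_of_nonpos (hi u hu h').le (by linarith)
  · obtain ⟨-, C, hC⟩ := bY
    have hp : ∃ p, ∀ u ∈ Icc a b, u ≠ p → X u < 0 := by
      by_cases h : ∃ p, p ∈ Icc a b ∧ 0 ≤ X p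
      · obtain ⟨p, hp⟩ := h
        refine ⟨p, fun u hu hne => ?_⟩
        by_contra hc
        rcases lt_or_gt_of_ne hne with h1 | h1
        · exact hS ⟨u, p, ⟨hu, not_lt.1 hc⟩, hp, h1⟩
        · exact hS ⟨p, u, hp, ⟨hu, not_lt.1 hc⟩, h1⟩
      · refine ⟨0, fun u hu _ => ?_⟩
        by_contra hc
        exact h ⟨u, hu, not_lt.1 hc⟩
    obtain ⟨p, hp⟩ := hp
    refine ⟨C, 0, p, fun u hu hne => ?_⟩
    have k := (le_abs_self _).trans (hC u hu)
    exact mul_nonneg_of_nonpos_of_nonpos (hp u hu hne).le (by linarith)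

private theorem b_conc {U : ℝ → ℝ} {a b : ℝ} (h : ConcaveOn ℝ (Icc a b) U) (q0 q1 : ℝ) :
    ConcaveOn ℝ (Icc a b) fun u => U u - (q0 + q1 * u) := by
  refine ⟨convex_Icc _ _, fun x hx y hy s t hs ht hst => ?_⟩
  have k := h.2 hx hy hs ht hst
  simp only [smul_eq_mul] at k ⊢
  have e : q0 + q1 * (s * x + t * y) = s * (q0 + q1 * x) + t * (q0 + q1 * y) := by
    have : t = 1 - s := by linarith
    rw [this]; ring
  rw [e]
  linarith

theorem c3_core {X Y f : ℝ → ℝ} {a b : ℝ} (hab : a < b) (cX : ConcaveOn ℝ (Icc a b) X)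
    (cY : ConcaveOn ℝ (Icc a b) Y) (bX : BM a b X) (bY : BM a b Y) (bf : BM a b f)
    (f0 : ∀ u ∈ Icc a b, 0 ≤ f u) (h0 : ∫ u in a..b, X u * f u = 0)
    (h1 : ∫ u in a..b, u * (X u * f u) = 0) : 0 ≤ ∫ u in a..b, X u * Y u * f u := by
  obtain ⟨s, t, p, hp⟩ := b_line cX cY bY
  have ma : a ∈ Icc a b := ⟨le_rfl, hab.le⟩
  have mb : b ∈ Icc a b := ⟨hab.le, le_rfl⟩
  have bu : BM a b fun u => u := BM.of_cont continuous_id
  have bL : BM a b fun u => s + t * u := BM.of_cont (by fun_prop)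
  have i1 := ((bX.mul (bY.sub bL)).mul bf).ii ma mb
  have i2 := (bX.mul bf).ii ma mb
  have i3 := (bu.mul (bX.mul bf)).ii ma mb
  have e := b_lin4 (F := fun u => X u * Y u * f u) 1 s t 0 i1 i2 i3 i3 fun u => by ring
  have k : 0 ≤ ∫ u in a..b, X u * (Y u - (s + t * u)) * f u := by
    refine intervalIntegral.integral_nonneg_of_ae_restrict hab.le ?_
    refine (ae_restrict_iff' measurableSet_Icc).2 ?_
    filter_upwards [Measure.ae_ne volume p] with u hu hm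
    exact mul_nonneg (hp u hm hu) (f0 u hm)
  rw [e, h0, h1]
  linarith

theorem c3_shake {U l : ℝ → ℝ} {α β V : ℝ} (h : Shk U l α β V) (q r : ℝ) :
    3 * V ≤ ∫ u in α..β, ((U u + l u - (q + r * u)) ^ 3 + (q + r * u) ^ 3) := by
  have ma : α ∈ Icc α β := ⟨le_rfl, h.lt.le⟩
  have mb : β ∈ Icc α β := ⟨h.lt.le, le_rfl⟩
  have hV := h.pos
  have bu : BM α β fun u => u := BM.of_cont continuous_id
  have bf : BM α β fun u => U u + l u := h.bU.add h.bl
  have bn : BM α β fun u => U u ^ 2 - l u ^ 2 := (h.bU.pow 2).sub (h.bl.pow 2)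
  have if0 := bf.ii ma mb
  have if1 := (bu.mul bf).ii ma mb
  have if2 := ((bu.pow 2).mul bf).ii ma mb
  have ig0 := (bf.pow 2).ii ma mb
  have ig1 := (bu.mul (bf.pow 2)).ii ma mb
  have in0 := bn.ii ma mb
  have in1 := (bu.mul bn).ii ma mb
  obtain ⟨q0, hq0⟩ : ∃ q0 : ℝ, ∫ u in α..β, (U u + l u) ^ 2 = 2 * q0 * V :=
    ⟨(∫ u in α..β, (U u + l u) ^ 2) / (2 * V), by field_simp⟩
  obtain ⟨q1, hq1⟩ : ∃ q1 : ℝ, ∫ u in α..β, u * (U u + l u) ^ 2 = 2 * q1 * V :=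
    ⟨(∫ u in α..β, u * (U u + l u) ^ 2) / (2 * V), by field_simp⟩
  have bA : BM α β fun u => q0 + q1 * u := BM.of_cont (by fun_prop)
  have bC : BM α β fun u => (q0 - q) + (q1 - r) * u := BM.of_cont (by fun_prop)
  have bX := h.bU.sub bA
  have bY := h.bl.sub bA
  have h0 : ∫ u in α..β, (U u - (q0 + q1 * u)) * (U u + l u) = 0 := by
    rw [b_lin4 (F := fun u => (U u - (q0 + q1 * u)) * (U u + l u)) (1 / 2) (1 / 2) (-q0) (-q1)
      ig0 in0 if0 if1 fun u => by ring, hq0, h.n0, h.m0, h.m1]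
    ring
  have h1 : ∫ u in α..β, u * ((U u - (q0 + q1 * u)) * (U u + l u)) = 0 := by
    rw [b_lin4 (F := fun u => u * ((U u - (q0 + q1 * u)) * (U u + l u))) (1 / 2) (1 / 2) (-q0)
      (-q1) ig1 in1 if1 if2 fun u => by ring, hq1, h.n1, h.m1, h.m2]
    ring
  have core := c3_core h.lt (b_conc h.cU q0 q1) (b_conc h.cl q0 q1) bX bY bf h.nn h0 h1
  have bR : BM α β fun u => (U u + l u) ^ 2 - 2 * (q0 + q1 * u) * (U u + l u) :=
    (bf.pow 2).sub ((BM.of_cont (f := fun u => 2 * (q0 + q1 * u)) (by fun_prop)).mul bf)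
  have r0 : ∫ u in α..β, ((U u + l u) ^ 2 - 2 * (q0 + q1 * u) * (U u + l u)) = 0 := by
    rw [b_lin4 (F := fun u => (U u + l u) ^ 2 - 2 * (q0 + q1 * u) * (U u + l u)) 1 0 (-2 * q0)
      (-2 * q1) ig0 in0 if0 if1 fun u => by ring, hq0, h.n0, h.m0, h.m1]
    ring
  have r1 : ∫ u in α..β, u * ((U u + l u) ^ 2 - 2 * (q0 + q1 * u) * (U u + l u)) = 0 := by
    rw [b_lin4 (F := fun u => u * ((U u + l u) ^ 2 - 2 * (q0 + q1 * u) * (U u + l u))) 1 0
      (-2 * q0) (-2 * q1) ig1 in1 if1 if2 fun u => by ring, hq1, h.n1, h.m1, h.m2]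
    ring
  have bW := bC.mul bR
  have w0 : ∫ u in α..β, ((q0 - q) + (q1 - r) * u) *
      ((U u + l u) ^ 2 - 2 * (q0 + q1 * u) * (U u + l u)) = 0 := by
    rw [b_lin4 (F := fun u => ((q0 - q) + (q1 - r) * u) *
      ((U u + l u) ^ 2 - 2 * (q0 + q1 * u) * (U u + l u))) (q0 - q) (q1 - r) 0 0
      (bR.ii ma mb) ((bu.mul bR).ii ma mb) if0 if0 fun u => by ring, r0, r1]
    ring
  have sq : 0 ≤ ∫ u in α..β, ((q0 - q) + (q1 - r) * u) ^ 2 * (U u + l u) :=
    intervalIntegral.integral_nonneg h.lt.le fun u hu => mul_nonneg (sq_nonneg _) (h.nn u hu)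
  rw [b_lin4 (F := fun u => (U u + l u - (q + r * u)) ^ 3 + (q + r * u) ^ 3) 1 3 3 3
    (((h.bU.pow 3).add (h.bl.pow 3)).ii ma mb) (((bX.mul bY).mul bf).ii ma mb)
    (((bC.pow 2).mul bf).ii ma mb) (bW.ii ma mb) fun u => by ring, h.n2, w0]
  linarith

end Pool.Agent.P.MP_2e1554_gt.Chk
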