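import Pool.Agent.P.MP_2e1554_gt.IsoC3A
import Pool.Agent.P.MP_2e1554_gt.IsoC3B

/-! Reduction to a density on the unit interval. -/

open MeasureTheory Set

namespace Pool.Agent.P.MP_2e1554_gt.Chk

private theorem c_sub (g : ℝ → ℝ) {α β w : ℝ} (hw : w ≠ 0) (e : β = α + w) :
    ∫ x in (0 : ℝ)..1, g (α + w * x) = w⁻¹ * ∫ u in α..β, g u := by
  rw [intervalIntegral.integral_comp_add_mul g hw α, smul_eq_mul, mul_zero, add_zero, mul_one, e]

private theorem c_refl (g : ℝ → ℝ) : ∫ x in (0 : ℝ)..1, g (1 - x) = ∫ x in (0 : ℝ)..1, g x := by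
  rw [intervalIntegral.integral_comp_sub_left g 1, sub_self, sub_zero]

private theorem c_quad {f : ℝ → ℝ} {a b : ℝ} (hab : a ≤ b) (hf : BM a b f) (c0 c1 c2 : ℝ) :
    ∫ u in a..b, (c0 * f u + c1 * (u * f u) + c2 * (u ^ 2 * f u)) =
      c0 * (∫ u in a..b, f u) + c1 * (∫ u in a..b, u * f u) + c2 * ∫ u in a..b, u ^ 2 * f u := by
  have ha : a ∈ Icc a b := left_mem_Icc.2 hab
  have hb : b ∈ Icc a b := right_mem_Icc.2 hab
  have i0 := hf.ii ha hb
  have i1 : IntervalIntegrable (fun u => u * f u) volume a b :=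
    ((BM.of_cont continuous_id).mul hf).ii ha hb
  have i2 : IntervalIntegrable (fun u => u ^ 2 * f u) volume a b :=
    ((BM.of_cont (continuous_pow 2)).mul hf).ii ha hb
  rw [intervalIntegral.integral_add ((i0.const_mul c0).add (i1.const_mul c1)) (i2.const_mul c2),
    intervalIntegral.integral_add (i0.const_mul c0) (i1.const_mul c1),
    intervalIntegral.integral_const_mul, intervalIntegral.integral_const_mul,
    intervalIntegral.integral_const_mul]

private theorem c_cl3 (e0 e1 : ℝ) :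
    ∫ x in (0 : ℝ)..1, (e0 * (1 - x) + e1 * x) ^ 3 = cl3 e0 e1 := by
  have d : ∀ x ∈ uIcc (0 : ℝ) 1, HasDerivAt (fun x : ℝ => e0 ^ 3 * x +
      3 / 2 * e0 ^ 2 * (e1 - e0) * x ^ 2 + e0 * (e1 - e0) ^ 2 * x ^ 3 + (e1 - e0) ^ 3 / 4 * x ^ 4)
      ((e0 * (1 - x) + e1 * x) ^ 3) x := by
    intro x _
    have h := ((((hasDerivAt_id x).const_mul (e0 ^ 3)).add
      ((hasDerivAt_pow 2 x).const_mul (3 / 2 * e0 ^ 2 * (e1 - e0)))).add
      ((hasDerivAt_pow 3 x).const_mul (e0 * (e1 - e0) ^ 2))).add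
      ((hasDerivAt_pow 4 x).const_mul ((e1 - e0) ^ 3 / 4))
    refine h.congr_deriv ?_
    norm_num
    ring
  rw [intervalIntegral.integral_eq_sub_of_hasDerivAt d
    (Continuous.intervalIntegrable (by fun_prop) _ _), cl3]
  ring

private theorem c_core {U l : ℝ → ℝ} {α β V a b : ℝ} (h : Shk U l α β V) (ha : β ≤ a)
    (hb : -b ≤ α) : ∃ (ψ : ℝ → ℝ) (m k : ℝ), Sh ψ m k V a b := by
  obtain ⟨w, hw⟩ : ∃ w, β = α + w := ⟨β - α, by ring⟩
  have hw0 : 0 < w := by linarith [h.lt]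
  have hw1 := hw0.ne'
  have hV0 := h.pos
  have hV1 := hV0.ne'
  have bf : BM α β fun u => U u + l u := h.bU.add h.bl
  have hq := c_quad h.lt.le bf
  simp only [h.m0, h.m1, h.m2] at hq
  have mem : ∀ x ∈ Icc (0 : ℝ) 1, α + w * x ∈ Icc α β := fun x hx =>
    ⟨by nlinarith [hx.1], by nlinarith [hx.2]⟩
  have hc : 0 ≤ w / V := by positivity
  have sk : Sk (fun x => w / V * (U (α + w * x) + l (α + w * x))) (-α / w)
      (-α / w - 1 / 6 - ((-α / w) ^ 2 + 1 / w ^ 2)) := by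
    refine ⟨⟨convex_Icc 0 1, fun x hx y hy s t hs ht hst => ?_⟩,
      fun x hx => mul_nonneg hc (h.nn _ (mem x hx)), ?_, ?_, ?_⟩
    · have h1 := (h.cU.add h.cl).2 (mem x hx) (mem y hy) hs ht hst
      simp only [smul_eq_mul, Pi.add_apply] at h1 ⊢
      have e : α + w * (s * x + t * y) = s * (α + w * x) + t * (α + w * y) := by
        linear_combination (-α) * hst
      rw [e]
      have h2 := mul_le_mul_of_nonneg_left h1 hc
      linarith
    · rw [c_sub (fun u => w / V * (U u + l u)) hw1 hw, intervalIntegral.integral_const_mul, h.m0]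
      field_simp
    · have e : ∀ x : ℝ, x * (w / V * (U (α + w * x) + l (α + w * x))) =
          (fun u => -α / V * (U u + l u) + 1 / V * (u * (U u + l u)) +
            0 * (u ^ 2 * (U u + l u))) (α + w * x) := by
        intro x
        simp only
        field_simp
        ring
      simp only [e]
      rw [c_sub (fun u => -α / V * (U u + l u) + 1 / V * (u * (U u + l u)) +
            0 * (u ^ 2 * (U u + l u))) hw1 hw, hq]
      field_simp
      ring
    · have e : ∀ x : ℝ, x ^ 2 * (w / V * (U (α + w * x) + l (α + w * x))) =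
          (fun u => α ^ 2 / (w * V) * (U u + l u) + -2 * α / (w * V) * (u * (U u + l u)) +
            1 / (w * V) * (u ^ 2 * (U u + l u))) (α + w * x) := by
        intro x
        simp only
        field_simp
        ring
      simp only [e]
      rw [c_sub (fun u => α ^ 2 / (w * V) * (U u + l u) + -2 * α / (w * V) * (u * (U u + l u)) +
            1 / (w * V) * (u ^ 2 * (U u + l u))) hw1 hw, hq]
      field_simp
      ring
  have hsv : sv2 (-α / w) (-α / w - 1 / 6 - ((-α / w) ^ 2 + 1 / w ^ 2)) = 1 / w ^ 2 := by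
    rw [sv2]
    ring
  obtain ⟨m0, m1⟩ := sk.m_mem
  have hα : 0 ≤ -α := by
    have := mul_nonneg m0 hw0.le
    rwa [div_mul_cancel₀ _ hw1] at this
  have hβ : 0 ≤ β := by
    rw [div_le_one hw0] at m1
    linarith
  refine ⟨_, _, _, sk, ?_, ?_, ?_, fun e0 e1 => ?_⟩
  · rw [hsv]
    positivity
  · have e : (1 - -α / w) ^ 2 = β ^ 2 * (1 / w ^ 2) := by
      rw [hw]
      field_simp
      ring
    rw [hsv, e]
    exact mul_le_mul_of_nonneg_right (pow_le_pow_left₀ hβ ha 2) (by positivity)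
  · have e : (-α / w) ^ 2 = (-α) ^ 2 * (1 / w ^ 2) := by
      field_simp
    rw [hsv, e]
    exact mul_le_mul_of_nonneg_right (pow_le_pow_left₀ hα (by linarith) 2) (by positivity)
  · have h1 := c3_shake h (V / w * (e0 - (e1 - e0) * α / w)) (V / w * ((e1 - e0) / w))
    have h2 := c_sub (fun u => (U u + l u - (V / w * (e0 - (e1 - e0) * α / w) +
      V / w * ((e1 - e0) / w) * u)) ^ 3 + (V / w * (e0 - (e1 - e0) * α / w) +
      V / w * ((e1 - e0) / w) * u) ^ 3) hw1 hw
    have e : ∀ x : ℝ, (U (α + w * x) + l (α + w * x) - (V / w * (e0 - (e1 - e0) * α / w) +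
        V / w * ((e1 - e0) / w) * (α + w * x))) ^ 3 + (V / w * (e0 - (e1 - e0) * α / w) +
        V / w * ((e1 - e0) / w) * (α + w * x)) ^ 3 =
        (V / w) ^ 3 * ((w / V * (U (α + w * x) + l (α + w * x)) - (e0 * (1 - x) + e1 * x)) ^ 3 +
          (e0 * (1 - x) + e1 * x) ^ 3) := by
      intro x
      have e1' : V / w * (e0 - (e1 - e0) * α / w) + V / w * ((e1 - e0) / w) * (α + w * x) =
          V / w * (e0 * (1 - x) + e1 * x) := by
        field_simp
        ring
      have e2 : U (α + w * x) + l (α + w * x) =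
          V / w * (w / V * (U (α + w * x) + l (α + w * x))) := by
        field_simp
      rw [e1']
      generalize w / V * (U (α + w * x) + l (α + w * x)) = y at e2 ⊢
      rw [e2]
      ring
    simp only [e] at h2
    have z0 : (0 : ℝ) ∈ Icc (0 : ℝ) 1 := left_mem_Icc.2 zero_le_one
    have z1 : (1 : ℝ) ∈ Icc (0 : ℝ) 1 := right_mem_Icc.2 zero_le_one
    have cc : Continuous fun x : ℝ => e0 * (1 - x) + e1 * x := by fun_prop
    rw [intervalIntegral.integral_const_mul, intervalIntegral.integral_add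
      (((sk.bm.sub (BM.of_cont cc)).pow 3).ii z0 z1)
      (((BM.of_cont cc).pow 3).ii z0 z1), c_cl3] at h2
    rw [hsv]
    generalize (∫ x in (0 : ℝ)..1, (w / V * (U (α + w * x) + l (α + w * x)) -
      (e0 * (1 - x) + e1 * x)) ^ 3) + cl3 e0 e1 = Z at h2 ⊢
    have h3 := mul_le_mul_of_nonneg_left h1 (inv_pos.2 hw0).le
    rw [← h2] at h3
    have h4 := mul_le_mul_of_nonneg_left h3 hc
    have e3 : w / V * (w⁻¹ * (3 * V)) = 3 := by field_simp
    have e4 : w / V * ((V / w) ^ 3 * Z) = V ^ 2 * (1 / w ^ 2) * Z := by field_simp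
    rwa [e3, e4] at h4

theorem c3_red {K : Set (Fin 2 → ℝ)} (hK : Iso K) {a b : ℝ} (h : ∀ y ∈ K, -b ≤ y 0 ∧ y 0 ≤ a) :
    ∃ (ψ : ℝ → ℝ) (m k : ℝ), Sh ψ m k (volume.real K) a b := by
  obtain ⟨α, β, U, l, hs, ⟨y, hy, rfl⟩, z, hz, rfl⟩ := c3_slice hK
  exact c_core hs (h z hz).2 (h y hy).1

theorem Sh.mirror {ψ : ℝ → ℝ} {m k V a b : ℝ} (h : Sh ψ m k V a b) :
    Sh (fun x => ψ (1 - x)) (1 - m) k V b a := by
  have hq := c_quad zero_le_one h.toSk.bm
  simp only [h.m0, h.m1, h.m2] at hq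
  have mem : ∀ x ∈ Icc (0 : ℝ) 1, 1 - x ∈ Icc (0 : ℝ) 1 := fun x hx =>
    ⟨by linarith [hx.2], by linarith [hx.1]⟩
  have hsv : sv2 (1 - m) k = sv2 m k := by
    simp only [sv2]
    ring
  refine ⟨⟨⟨convex_Icc 0 1, fun x hx y hy s t hs ht hst => ?_⟩, fun x hx => h.nn _ (mem x hx),
    ?_, ?_, ?_⟩, ?_, ?_, ?_, fun e0 e1 => ?_⟩
  · have h1 := h.cc.2 (mem x hx) (mem y hy) hs ht hst
    simp only [smul_eq_mul] at h1 ⊢
    have e : 1 - (s * x + t * y) = s * (1 - x) + t * (1 - y) := by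
      linear_combination (-1) * hst
    rwa [e]
  · rw [c_refl, h.m0]
  · have e : ∀ x : ℝ, x * ψ (1 - x) =
        (fun u => 1 * ψ u + -1 * (u * ψ u) + 0 * (u ^ 2 * ψ u)) (1 - x) := by
      intro x
      simp only
      ring
    simp only [e]
    rw [c_refl fun u => 1 * ψ u + -1 * (u * ψ u) + 0 * (u ^ 2 * ψ u), hq]
    ring
  · have e : ∀ x : ℝ, x ^ 2 * ψ (1 - x) =
        (fun u => 1 * ψ u + -2 * (u * ψ u) + 1 * (u ^ 2 * ψ u)) (1 - x) := by
      intro x
      simp only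
      ring
    simp only [e]
    rw [c_refl fun u => 1 * ψ u + -2 * (u * ψ u) + 1 * (u ^ 2 * ψ u), hq]
    ring
  · rw [hsv]
    exact h.sp
  · rw [hsv, sub_sub_cancel]
    exact h.hb
  · rw [hsv]
    exact h.ha
  · have e : ∀ x : ℝ, (ψ (1 - x) - (e0 * (1 - x) + e1 * x)) ^ 3 =
        (fun u => (ψ u - (e1 * (1 - u) + e0 * u)) ^ 3) (1 - x) := by
      intro x
      simp only
      ring
    have e' : cl3 e0 e1 = cl3 e1 e0 := by
      simp only [cl3]
      ring
    simp only [e]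
    rw [c_refl fun u => (ψ u - (e1 * (1 - u) + e0 * u)) ^ 3, hsv, e']
    exact h.hV e1 e0

end Pool.Agent.P.MP_2e1554_gt.Chk
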