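import Pool.Agent.P.MP_2e1554_gt.IsoC3M

/-! A linear functional that is nonnegative on tents. -/

open MeasureTheory Set

namespace Pool.Agent.P.MP_2e1554_gt.Chk

private lemma d_piece {p Φ Φ' Φ'' : ℝ → ℝ} {α β a b s C D : ℝ} (hab : a ≤ b)
    (ma : a ∈ Icc α β) (mb : b ∈ Icc α β) (h3 : BM α β Φ'')
    (h1 : ∫ u in a..b, (p a + s * (u - a)) * Φ'' u =
      (p a + s * (b - a)) * Φ' b - p a * Φ' a - s * (Φ b - Φ a))
    (hi : IntervalIntegrable (fun u => Φ'' u * p u) volume a b) (hs : p b = p a + s * (b - a))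
    (hC : ∀ u ∈ Icc a b, |Φ'' u| ≤ C)
    (hD : ∀ u ∈ Icc a b, 0 ≤ p u - (p a + s * (u - a)) ∧ p u - (p a + s * (u - a)) ≤ D) :
    ∫ u in a..b, Φ'' u * p u ≤ p b * Φ' b - p a * Φ' a - s * (Φ b - Φ a) + C * D * (b - a) := by
  have i1 : IntervalIntegrable (fun u => (p a + s * (u - a)) * Φ'' u) volume a b :=
    ((BM.of_cont (f := fun u => p a + s * (u - a)) (by fun_prop)).mul h3).ii ma mb
  have i2 : IntervalIntegrable (fun _ : ℝ => C * D) volume a b := intervalIntegrable_const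
  refine (intervalIntegral.integral_mono_on hab hi (i1.add i2) fun u hu => ?_).trans (le_of_eq ?_)
  · obtain ⟨d0, d1⟩ := hD u hu
    have k1 := mul_le_mul ((le_abs_self _).trans (hC u hu)) d1 d0 ((abs_nonneg _).trans (hC u hu))
    linarith
  · rw [intervalIntegral.integral_add i1 i2, h1, hs, intervalIntegral.integral_const, smul_eq_mul]
    ring

private lemma d_core {p Φ Φ' Φ'' : ℝ → ℝ} {α β : ℝ} (hαβ : α < β) (hp : ConcaveOn ℝ (Icc α β) p)
    (h0 : ∀ u ∈ Icc α β, 0 ≤ p u) (h3 : BM α β Φ'')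
    (h1 : ∀ a ∈ Icc α β, ∀ b ∈ Icc α β, ∀ c s : ℝ, ∫ u in a..b, (c + s * (u - a)) * Φ'' u =
      (c + s * (b - a)) * Φ' b - c * Φ' a - s * (Φ b - Φ a))
    (hI : ∀ a ∈ Icc α β, ∀ b ∈ Icc α β, IntervalIntegrable (fun u => Φ'' u * p u) volume a b)
    (hΦ : ∀ u ∈ Icc α β, 0 ≤ Φ u)
    (ha : Φ α = 0) (hb : Φ β = 0) : ∫ u in α..β, Φ'' u * p u ≤ p β * Φ' β - p α * Φ' α := by
  obtain ⟨C, hC⟩ := h3.2
  obtain ⟨M, hM⟩ : ∃ M, ∀ u ∈ Icc α β, p u ≤ M := ⟨_, fun u hu => tent_bd hp h0 hu⟩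
  have mα : α ∈ Icc α β := ⟨le_rfl, hαβ.le⟩
  have C0 : 0 ≤ C := (abs_nonneg _).trans (hC α mα)
  have M0 : 0 ≤ M := (h0 α mα).trans (hM α mα)
  refine le_of_forall_pos_le_add fun ε hε => ?_
  obtain ⟨N, hN⟩ := exists_nat_gt (3 * C * M * (β - α) / ε)
  obtain ⟨h, hh⟩ : ∃ h : ℝ, h = (β - α) / (N + 1) := ⟨_, rfl⟩
  have hN0 : (0 : ℝ) < N + 1 := by positivity
  have hp0 : 0 < h := hh ▸ div_pos (sub_pos.2 hαβ) hN0
  have hβ : β = α + (N + 1) * h := by rw [hh]; field_simp; ring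
  have mem : ∀ r : ℝ, 0 ≤ r → r ≤ N + 1 → α + r * h ∈ Icc α β := fun r r0 r1 =>
    ⟨by nlinarith, by rw [hβ]; nlinarith⟩
  obtain ⟨s, hs⟩ : ∃ s : ℕ → ℝ, ∀ n : ℕ, p (α + (n + 1) * h) = p (α + n * h) + s n * h :=
    ⟨fun n => (p (α + (n + 1) * h) - p (α + n * h)) / h, fun n => by field_simp; ring⟩
  have low : ∀ n : ℕ, n ≤ N → ∀ u ∈ Icc (α + n * h) (α + (n + 1) * h),
      0 ≤ p u - (p (α + n * h) + s n * (u - (α + n * h))) := fun n hn u hu => by
    have hn' : (n : ℝ) ≤ N := by exact_mod_cast hn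
    have k := tent_three hp (mem n (by positivity) (by linarith)) (mem (n + 1) (by positivity)
      (by linarith)) hu.1 hu.2
    rw [hs n] at k
    by_contra hc
    nlinarith
  have key : ∀ n : ℕ, n ≤ N → ∫ u in α..(α + (n + 1) * h), Φ'' u * p u ≤
      p (α + (n + 1) * h) * Φ' (α + (n + 1) * h) - p α * Φ' α - s n * Φ (α + (n + 1) * h) +
        C * M * h + C * (h * (s 0 - s n)) * h := by
    intro n
    induction n with
    | zero =>
      intro _
      have m1 := mem 1 zero_le_one (by linarith [(Nat.cast_nonneg N : (0 : ℝ) ≤ N)])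
      have e0 := hs 0
      have l0 := low 0 (Nat.zero_le _)
      simp only [Nat.cast_zero, zero_add, zero_mul, add_zero] at e0 l0 ⊢
      have k := d_piece (s := s 0) (C := C) (D := M) m1.1 mα m1 h3 (h1 _ mα _ m1 _ _) (hI _ mα _ m1)
        (by rw [e0]; ring) (fun u hu => hC u ⟨hu.1, hu.2.trans m1.2⟩) fun u hu =>
          ⟨l0 u hu, by
            have k1 := hM u ⟨hu.1, hu.2.trans m1.2⟩
            have k2 := h0 _ m1
            have k3 := h0 α mα
            rw [e0] at k2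
            have k4 := hu.1
            have k5 := hu.2
            by_contra hc
            rcases le_total 0 (s 0) with h5 | h5 <;> nlinarith⟩
      rw [ha] at k
      linarith
    | succ n ih =>
      intro hn
      have hn' : (n : ℝ) + 1 ≤ N := by exact_mod_cast hn
      have ih := ih (by omega)
      have m0 := mem n (by positivity) (by linarith)
      have m1 := mem (n + 1) (by positivity) (by linarith)
      have m2 := mem (n + 1 + 1) (by positivity) (by linarith)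
      have e0 := hs n
      have e1 := hs (n + 1)
      have l1 := low (n + 1) hn
      push_cast at e1 l1 ⊢
      have up : ∀ u ∈ Icc (α + (n + 1) * h) (α + (n + 1 + 1) * h),
          p u ≤ p (α + (n + 1) * h) + s n * (u - (α + (n + 1) * h)) := fun u hu => by
        have k := tent_three hp m0 ⟨m1.1.trans hu.1, hu.2.trans m2.2⟩
          (y := α + (n + 1) * h) (by linarith) hu.1
        rw [e0] at k ⊢
        by_contra hc
        nlinarith
      have hss : s (n + 1) ≤ s n := by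
        have k := up _ ⟨by linarith, le_rfl⟩
        rw [e1] at k
        by_contra hc
        nlinarith
      have k := d_piece (s := s (n + 1)) (C := C) (D := h * (s n - s (n + 1))) (by linarith)
        m1 m2 h3 (h1 _ m1 _ m2 _ _) (hI _ m1 _ m2) (by rw [e1]; ring)
        (fun u hu => hC u ⟨m1.1.trans hu.1, hu.2.trans m2.2⟩) fun u hu =>
          ⟨l1 u hu, by
            have k1 := up u hu
            have k2 := mul_le_mul_of_nonneg_left (show u - (α + (n + 1) * h) ≤ h by linarith [hu.2])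
              (sub_nonneg.2 hss)
            linarith⟩
      rw [← intervalIntegral.integral_add_adjacent_intervals (hI _ mα _ m1) (hI _ m1 _ m2)]
      have k2 := mul_nonneg (sub_nonneg.2 hss) (hΦ _ m1)
      linarith
  have k := key N le_rfl
  have e0 := hs 0
  have eN := hs N
  simp only [Nat.cast_zero, zero_add, zero_mul, add_zero] at e0
  rw [← hβ] at k eN
  have b1 := hM _ (mem 1 zero_le_one (by linarith [(Nat.cast_nonneg N : (0 : ℝ) ≤ N)]))
  have b2 := hM _ (mem N (by positivity) (by linarith))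
  have b3 := h0 α mα
  have b4 := h0 β ⟨hαβ.le, le_rfl⟩
  have b5 : h * (s 0 - s N) ≤ 2 * M := by linarith
  have b6 := mul_le_mul_of_nonneg_right (mul_le_mul_of_nonneg_left b5 C0) hp0.le
  have b7 : 3 * C * M * h ≤ ε := by
    rw [div_lt_iff₀ hε] at hN
    rw [hh, ← mul_div_assoc, div_le_iff₀ hN0]
    linarith
  rw [hb] at k
  linarith

theorem tent_lin {ψ γ : ℝ → ℝ} {l0 l1 : ℝ} (hψ : ConcaveOn ℝ (Icc 0 1) ψ)
    (h0 : ∀ x ∈ Icc (0 : ℝ) 1, 0 ≤ ψ x) (hγ : BM 0 1 γ) (e0 : ∫ x in (0 : ℝ)..1, γ x = l0 + l1)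
    (e1 : ∫ x in (0 : ℝ)..1, x * γ x = l1)
    (hp : ∀ p ∈ Ioo (0 : ℝ) 1, ∫ x in p..1, (x - p) * γ x ≤ l1 * (1 - p)) :
    l0 * ψ 0 + l1 * ψ 1 ≤ ∫ x in (0 : ℝ)..1, γ x * ψ x := by
  have m0 : (0 : ℝ) ∈ Icc (0 : ℝ) 1 := ⟨le_rfl, zero_le_one⟩
  have m1 : (1 : ℝ) ∈ Icc (0 : ℝ) 1 := ⟨zero_le_one, le_rfl⟩
  have bx : BM 0 1 fun x => x * γ x := (BM.of_cont (f := fun x => x) continuous_id').mul hγ
  have bn : BM 0 1 fun x => -γ x := by
    simpa using (BM.of_cont (a := 0) (b := 1) (f := fun _ => (0 : ℝ)) continuous_const).sub hγ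
  have bψ : BM 0 1 ψ := BM.of_conc (C := 2 * ψ ((0 + 1) / 2)) hψ fun x hx => by
    rw [abs_of_nonneg (h0 x hx)]
    exact tent_bd hψ h0 hx
  obtain ⟨G0, hG0⟩ : ∃ G0 : ℝ → ℝ, ∀ u, G0 u = ∫ x in (0 : ℝ)..u, γ x := ⟨_, fun _ => rfl⟩
  obtain ⟨G1, hG1⟩ : ∃ G1 : ℝ → ℝ, ∀ u, G1 u = ∫ x in (0 : ℝ)..u, x * γ x := ⟨_, fun _ => rfl⟩
  have lin : ∀ a ∈ Icc (0 : ℝ) 1, ∀ b ∈ Icc (0 : ℝ) 1, ∀ c s : ℝ,
      ∫ u in a..b, (c * γ u + s * (u * γ u)) = c * (G0 b - G0 a) + s * (G1 b - G1 a) := by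
    intro a ma b mb c s
    rw [intervalIntegral.integral_add ((hγ.ii ma mb).const_mul c) ((bx.ii ma mb).const_mul s),
      intervalIntegral.integral_const_mul, intervalIntegral.integral_const_mul, hG0, hG0, hG1, hG1,
      intervalIntegral.integral_interval_sub_left (hγ.ii m0 mb) (hγ.ii m0 ma),
      intervalIntegral.integral_interval_sub_left (bx.ii m0 mb) (bx.ii m0 ma)]
  have z0 : G0 0 = 0 := by rw [hG0, intervalIntegral.integral_same]
  have z1 : G1 0 = 0 := by rw [hG1, intervalIntegral.integral_same]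
  have o0 : G0 1 = l0 + l1 := by rw [hG0, e0]
  have o1 : G1 1 = l1 := by rw [hG1, e1]
  have k := d_core (p := ψ) (Φ := fun u => l0 * u - u * G0 u + G1 u) (Φ' := fun u => l0 - G0 u)
    (Φ'' := fun u => -γ u) zero_lt_one hψ h0 bn
    (fun a ma b mb c s => by
      have e := lin a ma b mb (s * a - c) (-s)
      rw [show (fun u => (c + s * (u - a)) * -γ u) = fun u => (s * a - c) * γ u + -s * (u * γ u) by
        funext u; ring, e]
      ring)
    (fun a ma b mb => (bn.mul bψ).ii ma mb)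
    (fun u hu => by
      rcases hu.1.eq_or_lt with h | h
      · rw [← h, z0, z1]; simp
      rcases hu.2.eq_or_lt with h' | h'
      · rw [h', o0, o1]; linarith
      have e := lin u hu 1 m1 (-u) 1
      have q := hp u ⟨h, h'⟩
      rw [show (fun x => (x - u) * γ x) = fun x => -u * γ x + 1 * (x * γ x) by
        funext x; ring, e, o0, o1] at q
      linarith)
    (by rw [z0, z1]; ring) (by rw [o0, o1]; ring)
  simp only [neg_mul, intervalIntegral.integral_neg, z0, o0] at k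
  linarith

end Pool.Agent.P.MP_2e1554_gt.Chk
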