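import Pool.Agent.P.MP_2e1554_gt.IsoC3D

/-! Tents with the same three moments. -/

open MeasureTheory Set

namespace Pool.Agent.P.MP_2e1554_gt.Chk

private lemma e_poly (a b c0 c1 c2 c3 : ℝ) :
    ∫ x in a..b, (c0 + c1 * x + c2 * x ^ 2 + c3 * x ^ 3) =
      c0 * (b - a) + c1 * (b ^ 2 - a ^ 2) / 2 + c2 * (b ^ 3 - a ^ 3) / 3 +
        c3 * (b ^ 4 - a ^ 4) / 4 := by
  rw [intervalIntegral.integral_add, intervalIntegral.integral_add, intervalIntegral.integral_add]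
  · rw [intervalIntegral.integral_const_mul c1 fun x => x]
    simp only [intervalIntegral.integral_const_mul, integral_id, integral_pow,
      intervalIntegral.integral_const, smul_eq_mul]
    push_cast
    ring
  all_goals exact Continuous.intervalIntegrable (by fun_prop) _ _

private lemma e_ii {f u : ℝ → ℝ} (hf : BM 0 1 f) (hu : Continuous u) {x y : ℝ}
    (hx : x ∈ Icc (0 : ℝ) 1) (hy : y ∈ Icc (0 : ℝ) 1) :
    IntervalIntegrable (fun x => u x * f x) volume x y := ((BM.of_cont hu).mul hf).ii hx hy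

private lemma e_lin {f : ℝ → ℝ} (hf : BM 0 1 f) (u v w : ℝ) :
    ∫ x in (0 : ℝ)..1, (u + v * x + w * x ^ 2) * f x = u * (∫ x in (0 : ℝ)..1, f x) +
      v * (∫ x in (0 : ℝ)..1, x * f x) + w * ∫ x in (0 : ℝ)..1, x ^ 2 * f x := by
  have z : (0 : ℝ) ∈ Icc (0 : ℝ) 1 := by simp
  have o : (1 : ℝ) ∈ Icc (0 : ℝ) 1 := by simp
  have h1 : ∀ x, (u + v * x + w * x ^ 2) * f x =
      u * f x + v * (x * f x) + w * (x ^ 2 * f x) := fun x => by ring
  simp only [h1]
  rw [intervalIntegral.integral_add, intervalIntegral.integral_add]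
  · simp only [intervalIntegral.integral_const_mul]
  · exact (hf.ii z o).const_mul u
  · exact (e_ii hf continuous_id z o).const_mul v
  · exact ((hf.ii z o).const_mul u).add ((e_ii hf continuous_id z o).const_mul v)
  · exact (e_ii hf (continuous_pow 2) z o).const_mul w

private lemma e_max {f : ℝ → ℝ} (hf : BM 0 1 f) {p : ℝ} (hp : p ∈ Icc (0 : ℝ) 1) :
    ∫ x in p..1, (x - p) * f x = ∫ x in (0 : ℝ)..1, max (x - p) 0 * f x := by
  have z : (0 : ℝ) ∈ Icc (0 : ℝ) 1 := by simp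
  have o : (1 : ℝ) ∈ Icc (0 : ℝ) 1 := by simp
  have hc : Continuous fun x : ℝ => max (x - p) 0 := by fun_prop
  rw [← intervalIntegral.integral_add_adjacent_intervals (e_ii hf hc z hp) (e_ii hf hc hp o)]
  have h1 : ∫ x in (0 : ℝ)..p, max (x - p) 0 * f x = ∫ x in (0 : ℝ)..p, (0 : ℝ) := by
    refine intervalIntegral.integral_congr fun x hx => ?_
    rw [uIcc_of_le hp.1] at hx
    simp only [max_eq_right (sub_nonpos.2 hx.2), zero_mul]
  rw [h1, intervalIntegral.integral_zero, zero_add]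
  refine intervalIntegral.integral_congr fun x hx => ?_
  rw [uIcc_of_le hp.2] at hx
  simp only [max_eq_left (sub_nonneg.2 hx.1)]

theorem c3_star {ψ g : ℝ → ℝ} {m k l0 l1 c : ℝ} (h : Sk ψ m k) (hg : BM 0 1 g)
    (hc : ∀ p ∈ Ioo (0 : ℝ) 1,
      (∫ x in (0 : ℝ)..1, g x * Rp p x) - 12 * l0 / p - 12 * l1 / (1 - p) ≤ c) :
    (∫ x in (0 : ℝ)..1, g x * (ψ x - Am m x)) + l0 * (ψ 0 - (4 - 6 * m)) +
      l1 * (ψ 1 - (6 * m - 2)) ≤ c * k := by
  have z : (0 : ℝ) ∈ Icc (0 : ℝ) 1 := by simp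
  have o : (1 : ℝ) ∈ Icc (0 : ℝ) 1 := by simp
  obtain ⟨G0, hG0⟩ : ∃ G0, ∫ x in (0 : ℝ)..1, g x = G0 := ⟨_, rfl⟩
  obtain ⟨G1, hG1⟩ : ∃ G1, ∫ x in (0 : ℝ)..1, x * g x = G1 := ⟨_, rfl⟩
  obtain ⟨a0, ha0⟩ : ∃ a0, a0 = 4 * (G0 + l0 + l1) - 6 * (G1 + l1) - c / 6 := ⟨_, rfl⟩
  obtain ⟨a1, ha1⟩ : ∃ a1, a1 = 12 * (G1 + l1) - 6 * (G0 + l0 + l1) + c := ⟨_, rfl⟩
  have hq : Continuous fun x : ℝ => a0 + a1 * x + -c * x ^ 2 := by fun_prop
  have key := tent_lin (γ := fun x => (a0 + a1 * x + -c * x ^ 2) - g x) (l0 := l0) (l1 := l1)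
    h.cc h.nn ((BM.of_cont hq).sub hg) ?_ ?_ ?_
  · have h1 : ∀ x, ((a0 + a1 * x + -c * x ^ 2) - g x) * ψ x =
        (a0 + a1 * x + -c * x ^ 2) * ψ x - g x * ψ x := fun x => by ring
    have h2 : ∀ x, g x * (ψ x - Am m x) =
        g x * ψ x - ((4 - 6 * m) + (12 * m - 6) * x + 0 * x ^ 2) * g x := fun x => by
      unfold Am; ring
    simp only [h1] at key
    simp only [h2]
    rw [intervalIntegral.integral_sub (e_ii h.bm hq z o) ((hg.mul h.bm).ii z o), e_lin h.bm,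
      h.m0, h.m1, h.m2] at key
    rw [intervalIntegral.integral_sub ((hg.mul h.bm).ii z o) (e_ii hg (by fun_prop) z o),
      e_lin hg, hG0, hG1]
    rw [ha0, ha1] at key
    linarith
  · have h1 : ∀ x, (a0 + a1 * x + -c * x ^ 2) - g x =
        (a0 + a1 * x + -c * x ^ 2 + 0 * x ^ 3) - g x := fun x => by ring
    simp only [h1]
    rw [intervalIntegral.integral_sub (Continuous.intervalIntegrable (by fun_prop) _ _)
      (hg.ii z o), e_poly, hG0, ha0, ha1]
    ring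
  · have h1 : ∀ x, x * ((a0 + a1 * x + -c * x ^ 2) - g x) =
        (0 + a0 * x + a1 * x ^ 2 + -c * x ^ 3) - x * g x := fun x => by ring
    simp only [h1]
    rw [intervalIntegral.integral_sub (Continuous.intervalIntegrable (by fun_prop) _ _)
      (e_ii hg continuous_id' z o), e_poly, hG1, ha0, ha1]
    ring
  · intro p hp
    have hp' : p ∈ Icc (0 : ℝ) 1 := Ioo_subset_Icc_self hp
    have h1 : ∀ x, (x - p) * ((a0 + a1 * x + -c * x ^ 2) - g x) =
        (-p * a0 + (a0 - p * a1) * x + (a1 + p * c) * x ^ 2 + -c * x ^ 3) - (x - p) * g x :=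
      fun x => by ring
    have h2 : ∀ x, max (x - p) 0 * g x =
        (((1 - p) ^ 2 / 2 - (1 - p) ^ 2 * (1 + 2 * p) / 2) + (1 - p) ^ 2 * (1 + 2 * p) * x +
          0 * x ^ 2) * g x - (p * (1 - p)) ^ 2 / 12 * (g x * Rp p x) := fun x => by
      linear_combination g x * Rp_eq hp x
    simp only [h1]
    rw [intervalIntegral.integral_sub (Continuous.intervalIntegrable (by fun_prop) _ _)
      (e_ii hg (by fun_prop) hp' o), e_poly, e_max hg hp']
    simp only [h2]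
    rw [intervalIntegral.integral_sub (e_ii hg (by fun_prop) z o)
      (((hg.mul (BM.of_cont (Rp_cont p))).ii z o).const_mul _), e_lin hg,
      intervalIntegral.integral_const_mul, hG0, hG1]
    have p0 := hp.1
    have q0 : 0 < 1 - p := sub_pos.2 hp.2
    have h3 := mul_le_mul_of_nonneg_left (hc p hp) (show 0 ≤ (p * (1 - p)) ^ 2 / 12 by positivity)
    have h4 : (p * (1 - p)) ^ 2 / 12 * (12 * l0 / p) = p * (1 - p) ^ 2 * l0 := by field_simp
    have h5 : (p * (1 - p)) ^ 2 / 12 * (12 * l1 / (1 - p)) = p ^ 2 * (1 - p) * l1 := by field_simp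
    rw [mul_sub, mul_sub, h4, h5] at h3
    rw [ha0, ha1]
    linarith

theorem Sk.k_nonneg {ψ : ℝ → ℝ} {m k : ℝ} (h : Sk ψ m k) : 0 ≤ k := by
  have := c3_star (g := fun _ => 0) (l0 := 0) (l1 := 0) (c := 1) h (BM.of_cont continuous_const)
    (fun p _ => by simp)
  simpa using this

end Pool.Agent.P.MP_2e1554_gt.Chk
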