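import Pool.Agent.P.MP_2e1554_gt.IsoC3E

/-! Jensen's inequality for the mixture of tents. -/

open MeasureTheory Set

namespace Pool.Agent.P.MP_2e1554_gt.Chk

theorem c3_fcore {ψ g : ℝ → ℝ} {m k l0 l1 M : ℝ} (h : Sk ψ m k) (hg : BM 0 1 g)
    (g0 : ∀ x, 0 ≤ g x) (h0 : 0 ≤ l0) (h1 : 0 ≤ l1) {J : ℝ}
    (hM : ∀ p ∈ Ioo (0 : ℝ) 1, J - (∫ x in (0 : ℝ)..1, g x * (ψ x - Am m x)) +
      k * (∫ x in (0 : ℝ)..1, g x * Rp p x) + l0 * (4 - 6 * m - 12 * k / p) +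
      l1 * (6 * m - 2 - 12 * k / (1 - p)) ≤ M) : J ≤ M := by
  have p0 := mul_nonneg h0 (h.nn 0 ⟨le_rfl, zero_le_one⟩)
  have p1 := mul_nonneg h1 (h.nn 1 ⟨zero_le_one, le_rfl⟩)
  have i0 : (0 : ℝ) ∈ Icc (0 : ℝ) 1 := ⟨le_rfl, zero_le_one⟩
  have i1 : (1 : ℝ) ∈ Icc (0 : ℝ) 1 := ⟨zero_le_one, le_rfl⟩
  rcases h.k_nonneg.eq_or_lt with hk | hk
  · have a := hM (1 / 2) ⟨by norm_num, by norm_num⟩
    have b := c3_star (l0 := l0) (l1 := l1) (c := ∫ x in (0 : ℝ)..1, g x * 24) h hg fun p hp => by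
      have b1 : (∫ x in (0 : ℝ)..1, g x * Rp p x) ≤ ∫ x in (0 : ℝ)..1, g x * 24 :=
        intervalIntegral.integral_mono_on zero_le_one
          ((hg.mul (BM.of_cont (Rp_cont p))).ii i0 i1)
          ((hg.mul (BM.of_cont continuous_const)).ii i0 i1)
          fun x hx => mul_le_mul_of_nonneg_left (Rp_le hp x hx) (g0 x)
      have b2 : 0 ≤ 12 * l0 / p := div_nonneg (by linarith) hp.1.le
      have b3 : 0 ≤ 12 * l1 / (1 - p) := div_nonneg (by linarith) (by linarith [hp.2])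
      linarith
    rw [← hk] at a b
    simp only [mul_zero, zero_mul, zero_div, sub_zero, add_zero] at a b
    nlinarith
  · have b := c3_star (l0 := l0) (l1 := l1)
      (c := (M - J + (∫ x in (0 : ℝ)..1, g x * (ψ x - Am m x)) - l0 * (4 - 6 * m) -
        l1 * (6 * m - 2)) / k) h hg fun p hp => by
      rw [le_div_iff₀ hk]
      have a := hM p hp
      have e : ((∫ x in (0 : ℝ)..1, g x * Rp p x) - 12 * l0 / p - 12 * l1 / (1 - p)) * k =
          k * (∫ x in (0 : ℝ)..1, g x * Rp p x) - l0 * (12 * k / p) - l1 * (12 * k / (1 - p)) := by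
        ring
      rw [e]
      nlinarith
    rw [div_mul_cancel₀ _ hk.ne'] at b
    nlinarith

end Pool.Agent.P.MP_2e1554_gt.Chk
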