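import Pool.Agent.P.MP_2e1554_gt.IsoC3M

/-! Convexity of the functional. -/

open MeasureTheory Set

namespace Pool.Agent.P.MP_2e1554_gt.Chk

private theorem g_conv {T z f g : ℝ → ℝ} (hT : Continuous T) (T0 : ∀ x, 0 ≤ T x) {c r : ℝ}
    (hc : 0 ≤ c) (hr : r ∈ Icc (0 : ℝ) 1) (hf : Continuous f) (hg : Continuous g)
    (h : ∀ x, z x = (1 - r) * f x + r * g x) :
    ∫ x in (0 : ℝ)..c, Gc (T x) (z x) ≤
      (1 - r) * (∫ x in (0 : ℝ)..c, Gc (T x) (f x)) + r * ∫ x in (0 : ℝ)..c, Gc (T x) (g x) := by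
  have h1 := ((Gc_cont hT hf).intervalIntegrable (μ := volume) 0 c).const_mul (1 - r)
  have h2 := ((Gc_cont hT hg).intervalIntegrable (μ := volume) 0 c).const_mul r
  rw [← intervalIntegral.integral_const_mul, ← intervalIntegral.integral_const_mul,
    ← intervalIntegral.integral_add h1 h2]
  simp only [h]
  exact intervalIntegral.integral_mono_on hc
    ((Gc_cont hT (by fun_prop)).intervalIntegrable _ _) (h1.add h2)
    fun x _ => Gc_conv (T0 x) hr _ _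

private theorem g_cont (e0 e1 m k p : ℝ) :
    Continuous fun x => Am m x + k * Rp p x - (e0 * (1 - x) + e1 * x) := by
  have := Rp_cont p
  unfold Am
  fun_prop

theorem IG_mono {T : ℝ → ℝ} (hT : Continuous T) (T0 : ∀ x, 0 ≤ T x) {c w0 w1 v0 v1 : ℝ}
    (hc : c ∈ Icc (0 : ℝ) 1) (h0 : w0 ≤ v0) (h1 : w1 ≤ v1) : IG T c w0 w1 ≤ IG T c v0 v1 :=
  intervalIntegral.integral_mono_on hc.1 ((Gc_cont hT (by fun_prop)).intervalIntegrable _ _)
    ((Gc_cont hT (by fun_prop)).intervalIntegrable _ _) fun x hx => Gc_mono (T0 x)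
      (add_le_add (mul_le_mul_of_nonneg_right h0 (sub_nonneg.2 (hx.2.trans hc.2)))
        (mul_le_mul_of_nonneg_right h1 hx.1))

theorem IG_conv {T : ℝ → ℝ} (hT : Continuous T) (T0 : ∀ x, 0 ≤ T x) {c r : ℝ} (hc : 0 ≤ c)
    (hr : r ∈ Icc (0 : ℝ) 1) (w0 w1 v0 v1 : ℝ) :
    IG T c ((1 - r) * w0 + r * v0) ((1 - r) * w1 + r * v1) ≤
      (1 - r) * IG T c w0 w1 + r * IG T c v0 v1 :=
  g_conv hT T0 hc hr (by fun_prop) (by fun_prop) fun x => by ring

theorem HH_conv {T : ℝ → ℝ} (hT : Continuous T) (T0 : ∀ x, 0 ≤ T x) {c r k : ℝ}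
    (hc : c ∈ Icc (0 : ℝ) 1) (hr : r ∈ Icc (0 : ℝ) 1) (hk : 0 ≤ k) (e0 e1 la m u v : ℝ) :
    HH T c e0 e1 la m k ((1 - r) * u + r * v) ≤
      (1 - r) * HH T c e0 e1 la m k u + r * HH T c e0 e1 la m k v := by
  have h1 := IG_conv hT T0 hc.1 hr (4 - 6 * m - e0 - 12 * k * u)
    (6 * m - 2 - e1 + 12 * k * (u ^ 2 + u)) (4 - 6 * m - e0 - 12 * k * v)
    (6 * m - 2 - e1 + 12 * k * (v ^ 2 + v))
  have h2 := mul_nonneg hk (mul_nonneg (mul_nonneg hr.1 (sub_nonneg.2 hr.2)) (sq_nonneg (u - v)))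
  have h3 := (IG_mono hT T0 hc (w0 := 4 - 6 * m - e0 - 12 * k * ((1 - r) * u + r * v))
    (w1 := 6 * m - 2 - e1 + 12 * k * (((1 - r) * u + r * v) ^ 2 + ((1 - r) * u + r * v)))
    (le_of_eq (by ring)) (by linarith)).trans h1
  unfold HH
  linarith

theorem FF_conv {T : ℝ → ℝ} (hT : Continuous T) (T0 : ∀ x, 0 ≤ T x) {r : ℝ}
    (hr : r ∈ Icc (0 : ℝ) 1) (e0 e1 f0 f1 l0 l1 m k m' k' p : ℝ) :
    FF T ((1 - r) * e0 + r * f0) ((1 - r) * e1 + r * f1) l0 l1 ((1 - r) * m + r * m')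
      ((1 - r) * k + r * k') p ≤
      (1 - r) * FF T e0 e1 l0 l1 m k p + r * FF T f0 f1 l0 l1 m' k' p := by
  have h := g_conv hT T0 zero_le_one hr (g_cont e0 e1 m k p) (g_cont f0 f1 m' k' p)
    (z := fun x => Am ((1 - r) * m + r * m') x + ((1 - r) * k + r * k') * Rp p x -
      (((1 - r) * e0 + r * f0) * (1 - x) + ((1 - r) * e1 + r * f1) * x)) fun x => by
    unfold Am
    ring
  unfold FF
  simp only [div_eq_mul_inv]
  linarith

theorem cl3_sub {a b x y : ℝ} (ha : 0 ≤ a) (hb : 0 ≤ b) (hx : 0 ≤ x) (hy : 0 ≤ y) :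
    cl3 a b + (3 * a ^ 2 + 2 * a * b + b ^ 2) / 4 * (x - a) +
      (a ^ 2 + 2 * a * b + 3 * b ^ 2) / 4 * (y - b) ≤ cl3 x y := by
  have h1 := mul_nonneg (show 0 ≤ x + 2 * a by linarith)
    (add_nonneg (mul_nonneg zero_le_two (sq_nonneg (x - a))) (sq_nonneg (x - a + (y - b))))
  have h2 := mul_nonneg (show 0 ≤ y + 2 * b by linarith)
    (add_nonneg (mul_nonneg zero_le_two (sq_nonneg (y - b))) (sq_nonneg (x - a + (y - b))))
  unfold cl3
  nlinarith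

theorem cl3_conv {r e0 e1 f0 f1 : ℝ} (hr : r ∈ Icc (0 : ℝ) 1) (a0 : 0 ≤ e0) (a1 : 0 ≤ e1)
    (b0 : 0 ≤ f0) (b1 : 0 ≤ f1) :
    cl3 ((1 - r) * e0 + r * f0) ((1 - r) * e1 + r * f1) ≤ (1 - r) * cl3 e0 e1 + r * cl3 f0 f1 := by
  have r1 : 0 ≤ 1 - r := sub_nonneg.2 hr.2
  have c0 := add_nonneg (mul_nonneg r1 a0) (mul_nonneg hr.1 b0)
  have c1 := add_nonneg (mul_nonneg r1 a1) (mul_nonneg hr.1 b1)
  have h1 := mul_le_mul_of_nonneg_left (cl3_sub c0 c1 a0 a1) r1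
  have h2 := mul_le_mul_of_nonneg_left (cl3_sub c0 c1 b0 b1) hr.1
  generalize cl3 ((1 - r) * e0 + r * f0) ((1 - r) * e1 + r * f1) = z at h1 h2 ⊢
  linarith

/-- `intervalIntegral.integral_comp_sub_left` -/
theorem FF_mirror (T : ℝ → ℝ) (e0 e1 l0 l1 m k p : ℝ) : FF T e0 e1 l0 l1 m k p =
    FF (fun x => T (1 - x)) e1 e0 l1 l0 (1 - m) k (1 - p) := by
  have h := intervalIntegral.integral_comp_sub_left (a := 0) (b := 1) (fun x => Gc (T x)
    (Am m x + k * Rp p x - (e0 * (1 - x) + e1 * x))) 1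
  rw [sub_self, sub_zero] at h
  have e : ∀ x, Am m (1 - x) + k * Rp p (1 - x) - (e0 * (1 - (1 - x)) + e1 * (1 - x)) =
      Am (1 - m) x + k * Rp (1 - p) x - (e1 * (1 - x) + e0 * x) := fun x => by
    simp only [Am, Rp, sub_sub_cancel, min_comm (Lu (1 / p) (1 - x))]
    ring
  simp only [e] at h
  unfold FF
  rw [h, sub_sub_cancel]
  ring

/-- the left line on `[0, c]`, the right line on `[c, 1]` -/
theorem FF_split {T : ℝ → ℝ} (hT : Continuous T) (T0 : ∀ x, 0 ≤ T x) {c k : ℝ}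
    (hc : c ∈ Icc (0 : ℝ) 1) (hk : 0 ≤ k) (e0 e1 l0 l1 m p : ℝ) :
    FF T e0 e1 l0 l1 m k p ≤ HH T c e0 e1 l0 m k (1 / p) +
      HH (fun x => T (1 - x)) (1 - c) e1 e0 l1 (1 - m) k (1 / (1 - p)) := by
  have hG := Gc_cont hT (g_cont e0 e1 m k p)
  have h1 : ∫ x in (0 : ℝ)..c, Gc (T x) (Am m x + k * Rp p x - (e0 * (1 - x) + e1 * x)) ≤
      IG T c (4 - 6 * m - e0 - 12 * k * (1 / p))
        (6 * m - 2 - e1 + 12 * k * ((1 / p) ^ 2 + 1 / p)) :=
    intervalIntegral.integral_mono_on hc.1 (hG.intervalIntegrable _ _)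
      ((Gc_cont hT (by fun_prop)).intervalIntegrable _ _) fun x _ => Gc_mono (T0 x) (by
        have : k * Rp p x ≤ k * Lu (1 / p) x := mul_le_mul_of_nonneg_left (min_le_left _ _) hk
        unfold Am
        unfold Lu at this
        linarith)
  have h2 : ∫ x in c..1, Gc (T x) (Am m x + k * Rp p x - (e0 * (1 - x) + e1 * x)) ≤
      IG (fun x => T (1 - x)) (1 - c) (4 - 6 * (1 - m) - e1 - 12 * k * (1 / (1 - p)))
        (6 * (1 - m) - 2 - e0 + 12 * k * ((1 / (1 - p)) ^ 2 + 1 / (1 - p))) := by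
    have h := intervalIntegral.integral_comp_sub_left (a := c) (b := 1) (fun x => Gc (T (1 - x))
      ((4 - 6 * (1 - m) - e1 - 12 * k * (1 / (1 - p))) * (1 - x) +
        (6 * (1 - m) - 2 - e0 + 12 * k * ((1 / (1 - p)) ^ 2 + 1 / (1 - p))) * x)) 1
    rw [sub_self] at h
    rw [IG, ← h]
    simp only [sub_sub_cancel]
    exact intervalIntegral.integral_mono_on hc.2 (hG.intervalIntegrable _ _)
      ((Gc_cont hT (by fun_prop)).intervalIntegrable _ _) fun x _ => Gc_mono (T0 x) (by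
        have : k * Rp p x ≤ k * Lu (1 / (1 - p)) (1 - x) :=
          mul_le_mul_of_nonneg_left (min_le_right _ _) hk
        unfold Am
        unfold Lu at this
        linarith)
  unfold FF HH
  rw [← intervalIntegral.integral_add_adjacent_intervals (hG.intervalIntegrable 0 c)
    (hG.intervalIntegrable c 1), div_eq_mul_one_div (12 * k) p,
    div_eq_mul_one_div (12 * k) (1 - p)]
  linarith

end Pool.Agent.P.MP_2e1554_gt.Chk
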