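import Pool.Agent.P.MP_2e1554_gt.IsoC3G

/-! Cells of kinks. -/

open MeasureTheory Set

namespace Pool.Agent.P.MP_2e1554_gt.Chk

private theorem h_max {p : ℝ} (h0 : 0 ≤ p) (h1 : p ≤ 1) :
    ∫ x in (0 : ℝ)..1, max (p - x) 0 = p ^ 2 / 2 := by
  have hc : Continuous fun x : ℝ => max (p - x) 0 := by fun_prop
  rw [← intervalIntegral.integral_add_adjacent_intervals (hc.intervalIntegrable 0 p)
    (hc.intervalIntegrable p 1)]
  have e1 : ∫ x in (0 : ℝ)..p, max (p - x) 0 = ∫ x in (0 : ℝ)..p, (p - x) := by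
    refine intervalIntegral.integral_congr fun x hx => ?_
    rw [uIcc_of_le h0] at hx
    exact max_eq_left (by linarith [hx.2])
  have e2 : ∫ x in p..1, max (p - x) 0 = ∫ x in p..1, (0 : ℝ) := by
    refine intervalIntegral.integral_congr fun x hx => ?_
    rw [uIcc_of_le h1] at hx
    exact max_eq_right (by linarith [hx.1])
  rw [e1, e2, intervalIntegral.integral_sub (continuous_const.intervalIntegrable _ _)
    (continuous_id'.intervalIntegrable _ _)]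
  simp
  ring

private theorem h_right (T : ℝ → ℝ) (e0 e1 m k v : ℝ) :
    ∫ x in (0 : ℝ)..1, Gc (T x) (Am m x + k * Lu v (1 - x) - (e0 * (1 - x) + e1 * x)) =
      IG (fun x => T (1 - x)) 1 (4 - 6 * (1 - m) - e1 - 12 * k * v)
        (6 * (1 - m) - 2 - e0 + 12 * k * (v ^ 2 + v)) := by
  have h := intervalIntegral.integral_comp_sub_left (a := 0) (b := 1)
    (fun x => Gc (T x) (Am m x + k * Lu v (1 - x) - (e0 * (1 - x) + e1 * x))) 1
  rw [sub_self, sub_zero] at h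
  rw [← h, IG]
  refine intervalIntegral.integral_congr fun x _ => ?_
  refine congrArg (Gc (T (1 - x))) ?_
  simp only [Am, Lu]
  ring

theorem FF_cell {T : ℝ → ℝ} (hT : Continuous T) (T0 : ∀ x, 0 ≤ T x) {c k p0 p1 p : ℝ}
    (hc : c ∈ Icc (0 : ℝ) 1) (hk : 0 ≤ k) (h0 : 0 < p0) (h01 : p0 < p1) (h1 : p1 < 1)
    (hp : p ∈ Icc p0 p1) {e0 e1 l0 l1 m L0 L1 R0 R1 Z : ℝ}
    (a0 : HH T c e0 e1 l0 m k (1 / p0) ≤ L0) (a1 : HH T c e0 e1 l0 m k (1 / p1) ≤ L1)
    (b0 : HH (fun x => T (1 - x)) (1 - c) e1 e0 l1 (1 - m) k (1 / (1 - p0)) ≤ R0)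
    (b1 : HH (fun x => T (1 - x)) (1 - c) e1 e0 l1 (1 - m) k (1 / (1 - p1)) ≤ R1)
    (t0 : L0 + R0 ≤ Z) (t1 : L1 + R1 ≤ Z)
    (t2 : p1 * (1 - p0) * (L1 + R0) + p0 * (1 - p1) * (L0 + R1) ≤
      (p1 * (1 - p0) + p0 * (1 - p1)) * Z) : FF T e0 e1 l0 l1 m k p ≤ Z := by
  have hp0 : 0 < p := h0.trans_le hp.1
  have hq : 0 < 1 - p := by linarith [hp.2]
  have hq0 : 0 < 1 - p0 := by linarith
  have hq1 : 0 < 1 - p1 := by linarith
  have hp1 : 0 < p1 := h0.trans h01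
  have hd : 0 < p1 - p0 := by linarith
  obtain ⟨r, r0, r1, er⟩ : ∃ r : ℝ, 0 ≤ r ∧ r ≤ 1 ∧ p = (1 - r) * p0 + r * p1 :=
    ⟨(p - p0) / (p1 - p0), div_nonneg (by linarith [hp.1]) hd.le,
      (div_le_one hd).2 (by linarith [hp.2]), by field_simp; ring⟩
  have r2 : 0 ≤ 1 - r := by linarith
  have ea : 1 - r * p1 / p = (1 - r) * p0 / p := by
    field_simp
    linarith
  have eb : 1 - r * (1 - p1) / (1 - p) = (1 - r) * (1 - p0) / (1 - p) := by
    field_simp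
    linarith
  have a1' : 0 ≤ r * p1 / p := by positivity
  have a2 : 0 ≤ 1 - r * p1 / p := by
    rw [ea]
    positivity
  have b1' : 0 ≤ r * (1 - p1) / (1 - p) := by positivity
  have b2 : 0 ≤ 1 - r * (1 - p1) / (1 - p) := by
    rw [eb]
    positivity
  have eu : 1 / p = (1 - r * p1 / p) * (1 / p0) + r * p1 / p * (1 / p1) := by
    rw [ea]
    field_simp
    ring
  have ev : 1 / (1 - p) = (1 - r * (1 - p1) / (1 - p)) * (1 / (1 - p0)) +
      r * (1 - p1) / (1 - p) * (1 / (1 - p1)) := by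
    rw [eb]
    field_simp
    ring
  have k0 : 0 ≤ r * (1 - r) / (p * (1 - p)) := by positivity
  have k1 : r * p1 / p * (1 - r * (1 - p1) / (1 - p)) =
      r * (1 - r) / (p * (1 - p)) * (p1 * (1 - p0)) := by
    rw [eb]
    field_simp
  have k2 : (1 - r * p1 / p) * (r * (1 - p1) / (1 - p)) =
      r * (1 - r) / (p * (1 - p)) * (p0 * (1 - p1)) := by
    rw [ea]
    field_simp
  have hs := FF_split hT T0 hc hk e0 e1 l0 l1 m p
  have hL := HH_conv hT T0 hc (r := r * p1 / p) ⟨a1', by linarith⟩ hk e0 e1 l0 m (1 / p0) (1 / p1)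
  have hR := HH_conv (T := fun x => T (1 - x)) (c := 1 - c) (by fun_prop) (fun x => T0 _)
    ⟨by linarith [hc.2], by linarith [hc.1]⟩ (r := r * (1 - p1) / (1 - p)) ⟨b1', by linarith⟩ hk
    e1 e0 l1 (1 - m) (1 / (1 - p0)) (1 / (1 - p1))
  rw [← eu] at hL
  rw [← ev] at hR
  generalize r * p1 / p = a at *
  generalize r * (1 - p1) / (1 - p) = b at *
  generalize r * (1 - r) / (p * (1 - p)) = κ at *
  have m1 := mul_le_mul_of_nonneg_left a0 a2
  have m2 := mul_le_mul_of_nonneg_left a1 a1'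
  have m3 := mul_le_mul_of_nonneg_left b0 b2
  have m4 := mul_le_mul_of_nonneg_left b1 b1'
  have n1 := mul_le_mul_of_nonneg_left t0 (mul_nonneg a2 b2)
  have n2 := mul_le_mul_of_nonneg_left t1 (mul_nonneg a1' b1')
  have n3 := mul_le_mul_of_nonneg_left t2 k0
  have n4 : a * (1 - b) * (L1 + R0) + (1 - a) * b * (L0 + R1) ≤
      (a * (1 - b) + (1 - a) * b) * Z := by
    rw [k1, k2]
    linarith
  linarith

theorem FF_end {T : ℝ → ℝ} (hT : Continuous T) (T0 : ∀ x, 0 ≤ T x) {k p1 p τ l0 : ℝ} (hk : 0 ≤ k)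
    (hl : 0 ≤ l0) (h0 : 0 < p) (hp : p ≤ p1) (h1 : p1 < 1) (τ0 : 0 ≤ τ)
    (hτ : ∀ x ∈ Icc (0 : ℝ) p1, τ ≤ T x) {e0 e1 l1 m Z : ℝ}
    (b0 : l0 * (4 - 6 * m - 12 * k / p1) + HH (fun x => T (1 - x)) 1 e1 e0 l1 (1 - m) k 1 ≤
      Z + 18 * k * τ ^ 2)
    (b1 : l0 * (4 - 6 * m - 12 * k / p1) +
      HH (fun x => T (1 - x)) 1 e1 e0 l1 (1 - m) k (1 / (1 - p1)) ≤ Z + 18 * k * τ ^ 2) :
    FF T e0 e1 l0 l1 m k p ≤ Z := by
  have hq : 0 < 1 - p := by linarith
  have hq1 : 0 < 1 - p1 := by linarith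
  have hp1 : 0 < p1 := h0.trans_le hp
  have hz : Continuous fun x =>
      Gc (T x) (Am m x + k * Lu (1 / (1 - p)) (1 - x) - (e0 * (1 - x) + e1 * x)) :=
    Gc_cont hT (by unfold Am Lu; fun_prop)
  have hy : Continuous fun x => Gc (T x) (Am m x + k * Rp p x - (e0 * (1 - x) + e1 * x)) :=
    Gc_cont hT (((by unfold Am; fun_prop : Continuous fun x => Am m x).add
      (continuous_const.mul (Rp_cont p))).sub (by fun_prop))
  have hm : Continuous fun x : ℝ =>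
      3 * τ ^ 2 * (k * (12 / (p * (1 - p)) ^ 2)) * max (p - x) 0 := by fun_prop
  have hc0 : 0 ≤ k * (12 / (p * (1 - p)) ^ 2) := by positivity
  have hI : ∫ x in (0 : ℝ)..1, Gc (T x) (Am m x + k * Rp p x - (e0 * (1 - x) + e1 * x)) ≤
      ∫ x in (0 : ℝ)..1,
        (Gc (T x) (Am m x + k * Lu (1 / (1 - p)) (1 - x) - (e0 * (1 - x) + e1 * x)) -
          3 * τ ^ 2 * (k * (12 / (p * (1 - p)) ^ 2)) * max (p - x) 0) := by
    refine intervalIntegral.integral_mono_on zero_le_one (hy.intervalIntegrable _ _)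
      ((hz.sub hm).intervalIntegrable _ _) fun x hx => ?_
    have hd : 0 ≤ k * (12 / (p * (1 - p)) ^ 2) * max (p - x) 0 :=
      mul_nonneg hc0 (le_max_right _ _)
    have e : Am m x + k * Rp p x - (e0 * (1 - x) + e1 * x) =
        Am m x + k * Lu (1 / (1 - p)) (1 - x) - (e0 * (1 - x) + e1 * x) -
          k * (12 / (p * (1 - p)) ^ 2) * max (p - x) 0 := by
      rw [Rp_right ⟨h0, by linarith⟩]
      ring
    rw [e]
    refine (Gc_slope (T0 x) hd).trans ?_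
    rcases le_total x p with h | h
    · have h2 : τ ^ 2 ≤ T x ^ 2 := pow_le_pow_left₀ τ0 (hτ x ⟨hx.1, h.trans hp⟩) 2
      have h3 := mul_le_mul_of_nonneg_right h2 hd
      linarith
    · rw [max_eq_right (by linarith : p - x ≤ 0)]
      simp
  rw [intervalIntegral.integral_sub (hz.intervalIntegrable _ _) (hm.intervalIntegrable _ _),
    intervalIntegral.integral_const_mul, h_max h0.le (by linarith), h_right] at hI
  have e1' : 3 * τ ^ 2 * (k * (12 / (p * (1 - p)) ^ 2)) * (p ^ 2 / 2) =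
      18 * k * τ ^ 2 / (1 - p) ^ 2 := by
    field_simp
    ring
  have h2 : 18 * k * τ ^ 2 ≤ 18 * k * τ ^ 2 / (1 - p) ^ 2 :=
    le_div_self (by positivity) (by positivity) (by nlinarith)
  have h3 : l0 * (4 - 6 * m - 12 * k / p) ≤ l0 * (4 - 6 * m - 12 * k / p1) := by
    refine mul_le_mul_of_nonneg_left ?_ hl
    have := div_le_div_of_nonneg_left (by positivity : 0 ≤ 12 * k) h0 hp
    linarith
  have s0 : 0 ≤ p * (1 - p1) / ((1 - p) * p1) := by positivity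
  have s1 : p * (1 - p1) / ((1 - p) * p1) ≤ 1 := by
    rw [div_le_one (by positivity)]
    nlinarith
  have ev : 1 / (1 - p) = (1 - p * (1 - p1) / ((1 - p) * p1)) * 1 +
      p * (1 - p1) / ((1 - p) * p1) * (1 / (1 - p1)) := by
    field_simp
    ring
  have hR := HH_conv (T := fun x => T (1 - x)) (c := 1) (by fun_prop) (fun x => T0 _)
    ⟨zero_le_one, le_rfl⟩ ⟨s0, s1⟩ hk e1 e0 l1 (1 - m) 1 (1 / (1 - p1))
  rw [← ev] at hR
  generalize p * (1 - p1) / ((1 - p) * p1) = s at s0 s1 hR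
  have m1 := mul_le_mul_of_nonneg_left b0 (sub_nonneg.2 s1)
  have m2 := mul_le_mul_of_nonneg_left b1 s0
  have e2 : l1 * (6 * m - 2 - 12 * k / (1 - p)) =
      l1 * (4 - 6 * (1 - m) - 12 * k * (1 / (1 - p))) := by ring
  have e3 : HH (fun x => T (1 - x)) 1 e1 e0 l1 (1 - m) k (1 / (1 - p)) =
      IG (fun x => T (1 - x)) 1 (4 - 6 * (1 - m) - e1 - 12 * k * (1 / (1 - p)))
        (6 * (1 - m) - 2 - e0 + 12 * k * ((1 / (1 - p)) ^ 2 + 1 / (1 - p))) +
      l1 * (4 - 6 * (1 - m) - 12 * k * (1 / (1 - p))) := rfl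
  unfold FF
  linarith

end Pool.Agent.P.MP_2e1554_gt.Chk
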