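import Pool.Agent.P.MP_2e1554_gt.IsoFast

/-! A checker for the table of lower bounds for the area. Scales: values `2^20`, positions `2^14`,
values on a line `2^34` with offset `2^47`, integrals `12 * 2^116`, bounds `2^24`. -/

namespace Pool.Agent.P.MP_2e1554_gt.Chk

def avX (w0 w1 X : ℕ) : ℕ :=
    (Nat.add (Nat.mul w0 (Nat.sub (nat_lit 16384) X)) (Nat.mul w1 X))
def tvX (sa xa sb xb X : ℕ) : ℕ :=
    (Nat.add (Nat.mul sa (Nat.sub xa X)) (Nat.mul sb (Nat.sub X xb)))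
def ypX (a t : ℕ) : ℕ :=
    (Nat.sub a (Nat.add (nat_lit 140737488355328) (Nat.mul (nat_lit 2) t)))
def ymX (a t : ℕ) : ℕ :=
    (Nat.sub (Nat.add (nat_lit 140737488355328) (Nat.mul (nat_lit 2) t)) a)
def sg2 (n y0 y1 z0 z1 zs : ℕ) : ℕ :=
    (Nat.mul n (Nat.add (Nat.mul y0 (Nat.add (Nat.mul (nat_lit 2) z0) zs)) (Nat.mul y1 (Nat.add zs
    (Nat.mul (nat_lit 2) z1)))))
noncomputable def sg1 (n a0 a1 t0 t1 : ℕ) : ℕ :=
    (@Bool.rec (fun _ => ℕ) (sg2 n (ypX a0 t0) (ypX a1 t1) (sdF (Nat.add a0 t0) (nat_lit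
    140737488355328)) (sdF (Nat.add a1 t1) (nat_lit 140737488355328)) (sdF (Nat.add (Nat.add a0
    t0) (Nat.add a1 t1)) (nat_lit 281474976710656))) (nat_lit 0) (Nat.beq (Nat.add (ypX a0 t0)
    (ypX a1 t1)) (nat_lit 0)))
noncomputable def sg0 (A T : ℕ → ℕ) (X0 X1 : ℕ) : ℕ :=
    (sg1 (Nat.sub X1 X0) (A X0) (A X1) (T X0) (T X1))
noncomputable def pc3 (A T : ℕ → ℕ) (X0 X1 Z : ℕ) : ℕ :=
    (Nat.add (sg0 A T X0 Z) (sg0 A T Z X1))
noncomputable def pc2 (A T : ℕ → ℕ) (X0 X1 p0 m0 p1 m1 : ℕ) : ℕ :=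
    (@Bool.rec (fun _ => ℕ) (force (Nat.add X0 (mn (Nat.sub X1 X0) (Nat.add (Nat.div (Nat.mul
    (Nat.sub X1 X0) (Nat.add p0 m0)) (Nat.add (Nat.add p0 m0) (Nat.add p1 m1))) (mn p0 (nat_lit
    1))))) (pc3 A T X0 X1)) (sg0 A T X0 X1) (Nat.beq (Nat.add (Nat.mul p0 m1) (Nat.mul m0 p1))
    (nat_lit 0)))
def tq0 (s t : ℕ) : ℕ :=
    (Nat.mul (nat_lit 3) (Nat.add (Nat.mul (nat_lit 2) (Nat.mul s s)) (Nat.mul (Nat.add s t)
    (Nat.add s t))))
def tq3 (s t : ℕ) : ℕ :=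
    (Nat.mul (nat_lit 6) (Nat.mul (Nat.add s t) (Nat.add (Nat.mul s s) (Nat.mul t t))))
/-- positive part of the bound on a piece -/
noncomputable def pcP (A T : ℕ → ℕ) (X0 X1 : ℕ) : ℕ :=
    (@Bool.rec (fun _ => ℕ) (Nat.add (Nat.mul (Nat.sub X1 X0) (Nat.add (Nat.add (Nat.mul (A X0)
    (tq0 (T X0) (T X1))) (Nat.mul (A X1) (tq0 (T X1) (T X0)))) (tq3 (T X0) (T X1)))) (pc2 A T X0
    X1 (ypX (A X0) (T X0)) (ymX (A X0) (T X0)) (ypX (A X1) (T X1)) (ymX (A X1) (T X1)))) (nat_lit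
    0) (Nat.beq X0 X1))
/-- negative part of the bound on a piece -/
def pcN (T : ℕ → ℕ) (X0 X1 : ℕ) : ℕ :=

    (Nat.mul (Nat.sub X1 X0) (Nat.mul (nat_lit 140737488355328) (Nat.add (tq0 (T X0) (T X1)) (tq0
    (T X1) (T X0)))))
noncomputable def hfP (T : ℕ → ℕ) (X1 X2 c e la w0 w1 : ℕ) : ℕ :=
    (Nat.add (Nat.add (Nat.add (pcP (avX w0 w1) T (nat_lit 0) X1) (pcP (avX w0 w1) T X1 X2)) (pcP
    (avX w0 w1) T X2 c)) (Nat.mul (nat_lit 906694364710971881029632) (Nat.mul la (Nat.add w0 e))))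
def hfN (T : ℕ → ℕ) (X1 X2 c la : ℕ) : ℕ :=
    (Nat.add (Nat.add (Nat.add (pcN T (nat_lit 0) X1) (pcN T X1 X2)) (pcN T X2 c)) (Nat.mul
    (nat_lit 7788445287802241442795744493830144) la))
def w0X (m k e p : ℕ) : ℕ :=
    (Nat.sub (nat_lit 8594128896) (Nat.add (Nat.add (Nat.mul (nat_lit 6) m) e) (Nat.div (Nat.mul
    (nat_lit 196608) k) p)))
def w1X (m k e p : ℕ) : ℕ :=
    (Nat.sub (Nat.add (Nat.add (nat_lit 8587837440) (Nat.mul (nat_lit 6) m)) (Nat.add (Nat.div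
    (Nat.mul (Nat.mul (nat_lit 196608) k) (Nat.add (nat_lit 16384) p)) (Nat.mul p p)) (nat_lit
    1))) e)
/-- one side: `e0, e1` are the values of the affine function at the near and the far end -/
noncomputable def sdP (T : ℕ → ℕ) (X1 X2 c e0 e1 la m k p : ℕ) : ℕ :=
  force
    (w0X m k e0 p) fun w0 => force
    (w1X m k e1 p) fun w1 => hfP T X1 X2 c e0 la w0 w1
noncomputable def ce3 (a b Z L0 L1 R0 R1 : ℕ) : Bool :=
    (@Bool.rec (fun _ => Bool) false (Nat.ble (Nat.add (Nat.mul a (Nat.add L1 R0)) (Nat.mul b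
    (Nat.add L0 R1))) (Nat.mul (Nat.add a b) Z)) (@Bool.rec (fun _ => Bool) false (Nat.ble
    (Nat.add L1 R1) Z) (Nat.ble (Nat.add L0 R0) Z)))
def clX (e0 e1 : ℕ) : ℕ :=
    (Nat.mul (nat_lit 216172782113783808) (Nat.mul (Nat.add e0 e1) (Nat.add (Nat.mul e0 e0)
    (Nat.mul e1 e1))))
noncomputable def ce2 (e0 e1 l0 l1 m k M p0 p1 c d X1 X2 Y1 Y2 : ℕ) (T U : ℕ → ℕ) : Bool :=

    (ce3 (Nat.mul p1 (Nat.sub (nat_lit 16384) p0)) (Nat.mul p0 (Nat.sub (nat_lit 16384) p1))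
    (Nat.add (Nat.add (hfN T X1 X2 c l0) (hfN U Y1 Y2 d l1)) (Nat.mul (nat_lit
    178263365657094759585473888256) M)) (Nat.add (sdP T X1 X2 c e0 e1 l0 m k p0) (clX e0 e1))
    (Nat.add (sdP T X1 X2 c e0 e1 l0 m k p1) (clX e0 e1)) (sdP U Y1 Y2 d e1 e0 l1 (Nat.sub
    (nat_lit 1048576) m) k (Nat.sub (nat_lit 16384) p0)) (sdP U Y1 Y2 d e1 e0 l1 (Nat.sub (nat_lit
    1048576) m) k (Nat.sub (nat_lit 16384) p1)))
/-- a cell of kinks; `ya = 2^14 - xb`, `yb = 2^14 - xa` -/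
noncomputable def cel (e0 e1 sa xa sb xb ya yb l0 l1 m k M p0 p1 c : ℕ) : Bool :=
  force
    (Nat.sub (nat_lit 16384) c) fun d => force (mn xa c) fun X1 => force (mn xb c) fun X2 =>
    force (mn ya d) fun Y1 => force (mn yb d) fun Y2 =>

    (@Bool.rec (fun _ => Bool) false (ce2 e0 e1 l0 l1 m k M p0 p1 c d X1 X2 Y1 Y2 (tvX sa xa sb
    xb) (tvX sb ya sa yb)) (@Bool.rec (fun _ => Bool) false (Nat.ble c (nat_lit 16384)) (@Bool.rec
    (fun _ => Bool) false (Nat.ble (Nat.succ p1) (nat_lit 16384)) (Nat.ble (Nat.succ p0) p1))))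
noncomputable def en2 (Z L R0 R1 : ℕ) : Bool :=
    (@Bool.rec (fun _ => Bool) false (Nat.ble (Nat.add L R1) Z) (Nat.ble (Nat.add L R0) Z))
/-- kinks near `0` -/
noncomputable def enX (e0 e1 sa xa sb ya yb l0 l1 m k M p : ℕ) : Bool :=
    (@Bool.rec (fun _ => Bool) false (en2 (Nat.add (Nat.add (Nat.add (hfN (tvX sb ya sa yb) ya yb
    (nat_lit 16384) l1) (Nat.mul (nat_lit 7788445287802241442795744493830144) l0)) (Nat.mul
    (nat_lit 178263365657094759585473888256) M)) (Nat.mul (nat_lit 57982058496) (Nat.mul k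
    (Nat.mul (Nat.mul sa (Nat.sub xa p)) (Nat.mul sa (Nat.sub xa p)))))) (Nat.add (Nat.mul
    (nat_lit 906694364710971881029632) (Nat.mul l0 (Nat.add (w0X m k e0 p) e0))) (clX e0 e1)) (sdP
    (tvX sb ya sa yb) ya yb (nat_lit 16384) e1 e0 l1 (Nat.sub (nat_lit 1048576) m) k (nat_lit
    16384)) (sdP (tvX sb ya sa yb) ya yb (nat_lit 16384) e1 e0 l1 (Nat.sub (nat_lit 1048576) m) k
    (Nat.sub (nat_lit 16384) p))) (@Bool.rec (fun _ => Bool) false (Nat.ble (Nat.succ p) (nat_lit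
    16384)) (Nat.ble (Nat.succ (nat_lit 0)) p)))
noncomputable def cls (sa xa sb xb ya yb l0 l1 m k M n : ℕ) : ℕ → ℕ → Bool :=
  Nat.rec (motive := fun _ => ℕ → ℕ → Bool)
    (fun p d => force
    (Nat.land d (nat_lit 16777215)) fun e0 => force
    (Nat.land (Nat.shiftRight d (nat_lit 24)) (nat_lit 16777215)) fun e1 =>

    (enX e1 e0 sb ya sa xa xb l1 l0 (Nat.sub (nat_lit 1048576) m) k M (Nat.sub (nat_lit 16384) p)))
    (fun _ ih p d => force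
    (Nat.land d (nat_lit 65535)) fun q => force
    (Nat.land (Nat.shiftRight d (nat_lit 16)) (nat_lit 65535)) fun c =>
      force
    (Nat.land (Nat.shiftRight d (nat_lit 32)) (nat_lit 16777215)) fun e0 => force
    (Nat.land (Nat.shiftRight d (nat_lit 56)) (nat_lit 16777215)) fun e1 => force
    (Nat.shiftRight d (nat_lit 80)) fun dd =>

    (@Bool.rec (fun _ => Bool) false (ih q dd) (cel e0 e1 sa xa sb xb ya yb l0 l1 m k M p q c))) n
/-- all kinks for one pair `(m, k)` -/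
noncomputable def corX (sa xa sb xb ya yb l0 l1 n d m k M : ℕ) : Bool :=
  force
    (Nat.land d (nat_lit 65535)) fun p => force
    (Nat.land (Nat.shiftRight d (nat_lit 16)) (nat_lit 16777215)) fun e0 => force
    (Nat.land (Nat.shiftRight d (nat_lit 40)) (nat_lit 16777215)) fun e1 =>
    force
    (Nat.shiftRight d (nat_lit 64)) fun dd =>
    (@Bool.rec (fun _ => Bool) false (cls sa xa sb xb ya yb l0 l1 m k M n p dd) (enX e0 e1 sa xa
    sb ya yb l0 l1 m k M p))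
noncomputable def ix2 (R s g : ℕ) : ℕ :=
    (@Bool.rec (fun _ => ℕ) (@Bool.rec (fun _ => ℕ) (nat_lit 0) g (Nat.ble (Nat.succ (Nat.mul
    (Nat.mul (Nat.sub g (nat_lit 1)) (Nat.sub g (nat_lit 1))) s)) R)) (Nat.add g (nat_lit 1))
    (Nat.ble (Nat.succ (Nat.mul (Nat.mul g g) s)) R))
def ix1 (Q : ℕ) : ℕ :=
    (nw Q (nw Q (nw Q (nw Q (nat_lit 400)))))
/-- a lower bound for the `i` with `R ≤ i² s` -/
noncomputable def ixX (R s : ℕ) : ℕ :=
    (ix2 R s (ix1 (mn (Nat.div R s) (nat_lit 300000))))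
noncomputable def sb3 (i j : ℕ) : ℕ :=
    (mxF (tbF i j) (tbF j i))
noncomputable def sb2 (N a b s : ℕ) : ℕ :=
  force
    (ixX (Nat.mul (nat_lit 442368) (Nat.mul (Nat.sub N b) (Nat.sub N b))) s) fun i => force
    (ixX (Nat.mul (nat_lit 442368) (Nat.mul a a)) s) fun j => sb3 i j
def sgX (N b c : ℕ) : ℕ :=
    (Nat.sub (Nat.mul N N) (Nat.add (Nat.mul (nat_lit 3) (Nat.mul (Nat.sub N (Nat.mul (nat_lit 2)
    b)) (Nat.sub N (Nat.mul (nat_lit 2) b)))) (Nat.mul (nat_lit 12) (Nat.mul c N))))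
noncomputable def sb1 (N a b L W s : ℕ) : Bool :=
    (@Bool.rec (fun _ => Bool) (Nat.beq (sb2 N a b s) (nat_lit 0)) true (@Bool.rec (fun _ => Bool)
    (Nat.ble (Nat.mul (Nat.mul (Nat.mul (Nat.add (nat_lit 103923) (sb2 N a b s)) (Nat.add (nat_lit
    103923) (sb2 N a b s))) s) L) W) true (Nat.beq s (nat_lit 0))))
def blX (n M0 M1 M2 M3 i j : ℕ) : ℕ :=
    (Nat.add (Nat.mul (Nat.sub n i) (Nat.add (Nat.mul (Nat.sub n j) M0) (Nat.mul j M1))) (Nat.mul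
    i (Nat.add (Nat.mul (Nat.sub n j) M2) (Nat.mul j M3))))
noncomputable def sbX (m0 m1 k0 k1 n M0 M1 M2 M3 i i1 j j1 : ℕ) : Bool :=
  force
    (sgX (Nat.mul (nat_lit 1048576) n) (Nat.add (Nat.mul m0 (Nat.sub n i1)) (Nat.mul m1 i1))
    (Nat.add (Nat.mul k0 (Nat.sub n j)) (Nat.mul k1 j))) (
    (sb1 (Nat.mul (nat_lit 1048576) n) (Nat.add (Nat.mul m0 (Nat.sub n i)) (Nat.mul m1 i))
    (Nat.add (Nat.mul m0 (Nat.sub n i1)) (Nat.mul m1 i1)) (mxF (mxF (blX n M0 M1 M2 M3 i j) (blX n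
    M0 M1 M2 M3 i j1)) (mxF (blX n M0 M1 M2 M3 i1 j) (blX n M0 M1 M2 M3 i1 j1))) (Nat.mul (nat_lit
    22136092888451461939200000000) (Nat.mul (Nat.mul n n) (Nat.mul n n)))))
noncomputable def allX (P : ℕ → ℕ → Bool) (n : ℕ) : Bool :=
  Nat.rec true (fun i ih => force i fun i0 => force (Nat.succ i0) fun i1 =>
    (@Bool.rec (fun _ => Bool) false ih (P i0 i1))) n

inductive Tc
  | sm (x : ℕ) (l r : Tc)
  | sk (x : ℕ) (l r : Tc)
  | skip
  | cert (sa xa sb xb l0 l1 n np M0 d0 M1 d1 M2 d2 M3 d3 : ℕ)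

noncomputable def sk1 (a b s : ℕ) : Bool :=
    (@Bool.rec (fun _ => Bool) (Nat.beq (sb2 (nat_lit 1048576) a b s) (nat_lit 0)) true (Nat.beq s
    (nat_lit 0)))
noncomputable def crt (m0 m1 k0 k1 sa xa sb xb l0 l1 n np M0 d0 M1 d1 M2 d2 M3 d3 ya yb : ℕ) :
    Bool :=

    (@Bool.rec (fun _ => Bool) false (corX sa xa sb xb ya yb l0 l1 np d3 m1 k1 M3) (@Bool.rec (fun
    _ => Bool) false (corX sa xa sb xb ya yb l0 l1 np d2 m1 k0 M2) (@Bool.rec (fun _ => Bool)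
    false (corX sa xa sb xb ya yb l0 l1 np d1 m0 k1 M1) (@Bool.rec (fun _ => Bool) false (corX sa
    xa sb xb ya yb l0 l1 np d0 m0 k0 M0) (@Bool.rec (fun _ => Bool) false (Nat.ble (Nat.succ
    (nat_lit 0)) n) (@Bool.rec (fun _ => Bool) false (Nat.ble m1 (nat_lit 1048576)) (@Bool.rec
    (fun _ => Bool) false (Nat.ble xb (nat_lit 16384)) (Nat.ble xa xb)))))))) &&
  allX (fun i i1 => allX (sbX m0 m1 k0 k1 n M0 M1 M2 M3 i i1) n) n
noncomputable def chkC (t : Tc) : ℕ → ℕ → ℕ → ℕ → Bool :=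
  Tc.rec (motive := fun _ => ℕ → ℕ → ℕ → ℕ → Bool)
    (fun x _ _ l r m0 m1 k0 k1 => l m0 x k0 k1 && r x m1 k0 k1)
    (fun x _ _ l r m0 m1 k0 k1 => l m0 m1 k0 x && r m0 m1 x k1)
    (fun m0 m1 k0 _ => force
    (sgX (nat_lit 1048576) m1 k0) (sk1 m0 m1))
    (fun sa xa sb xb l0 l1 n np M0 d0 M1 d1 M2 d2 M3 d3 m0 m1 k0 k1 =>
      force
    (Nat.sub (nat_lit 16384) xb) fun ya => force
    (Nat.sub (nat_lit 16384) xa)
        (crt m0 m1 k0 k1 sa xa sb xb l0 l1 n np M0 d0 M1 d1 M2 d2 M3 d3 ya)) t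
/-- the table is antitone -/
noncomputable def an1 (i i1 j j1 : ℕ) : Bool :=
    (@Bool.rec (fun _ => Bool) false (Nat.ble (tcF i j1) (tcF i j)) (Nat.ble (tcF i1 j) (tcF i
    j)))
noncomputable def antX : Bool := allX (fun i i1 => allX (an1 i i1) (nat_lit 288)) (nat_lit 288)

end Pool.Agent.P.MP_2e1554_gt.Chk
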