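import Pool.Agent.P.MP_2e1554_gt.IsoFastA

/-! The fast operations agree with the operations. -/

namespace Pool.Agent.P.MP_2e1554_gt.Chk

theorem ex_eX (i : ℕ) : ex i = (eX i : ℤ) - 24 := Int.subNatNat_eq_coe
theorem ey_eY (i : ℕ) : ey i = (eY i : ℤ) - 24 := Int.subNatNat_eq_coe
theorem sdF_eq {P M : ℕ} {x : ℤ} (h : x = (P : ℤ) - M) : sdF P M = sq x := by
  have : x.natAbs = P - M + (M - P) := by omega
  rw [sq, this]
  rfl
theorem tn1 {P M : ℕ} {x : ℤ} (h : x = (P : ℤ) - M) : Nat.sub P M = x.toNat := by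
  rw [Nat.sub_eq]; omega
theorem tn2 {P M : ℕ} {x : ℤ} (h : x = (P : ℤ) - M) : Nat.sub M P = (-x).toNat := by
  rw [Nat.sub_eq]; omega
theorem gc2_eq (fl : Bool) (cc gg e : ℕ) : gc2 fl cc gg e =
    (Nat.blt cc (100 * (gg * e)) && (!fl || Nat.ble 292860508914212841455616 (4 * e))) := by
  rw [gc2, brand, bror, brnot, nB]
  simp only [nM]
theorem gc_eq (fl : Bool) (cc X Y U V F1 F2 C0 C1 t p q : ℕ) : gc fl cc X Y U V F1 F2 C0 C1 t p q =
    (Nat.blt cc (100 * ((4 * (p * X + q * Y) - (p * U + q * V)) *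
      (C0 + t * 633318697598976 - (C1 + (p * F1 + q * F2))))) &&
    (!fl || Nat.ble 292860508914212841455616
      (4 * (C0 + t * 633318697598976 - (C1 + (p * F1 + q * F2)))))) := by
  rw [gc, gc2_eq, Nat.mul_comm t]
  simp only [nA, nS, nM]
theorem ge3_eq (fl : Bool) (cc X Y U V F1 F2 C0 C1 : ℕ) (B : Bx) :
    ge3 fl cc X Y U V F1 F2 C0 C1 B.t0 B.t1 (cg1 B.t0 B.f0) (cg2 B.t0 B.f0) (cg1 B.t0 B.f1)
      (cg2 B.t0 B.f1) (cg1 B.t1 B.f0) (cg2 B.t1 B.f0) (cg1 B.t1 B.f1) (cg2 B.t1 B.f1) =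
      all4 B (gc fl cc X Y U V F1 F2 C0 C1) := by
  rw [ge3, brand, brand, brand, all4]
theorem geF_eq (G : Gx) (B : Bx) (fl : Bool) (U V : ℕ) {xP xM yP yM : ℕ} (dx dy : ℤ) {fx fy : ℤ}
    (h1 : fx = (xP : ℤ) - xM) (h2 : fy = (yP : ℤ) - yM) :
    geF (mkC G B) fl (sq dx) (sq dy) U V xP xM yP yM = ge2 G B fl dx dy U V fx fy := by
  rw [geF, mkC]
  dsimp only
  rw [ge3_eq, sdF_eq h1, sdF_eq h2, tn1 h1, tn1 h2, tn2 h1, tn2 h2, brec, ge2]
  refine congrArg (all4 B) (funext fun t => funext fun p => funext fun q => ?_)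
  rw [gc_eq, eLow, Nat.mul_comm (bif fl then 40001 else 40821)]
  simp only [nA, nM]
theorem ch1_eq (G : Gx) (B : Bx) (fl : Bool) (u U V a z j b : ℕ) :
    ch1 (mkC G B) fl u U V (Nat.mul a (eX j)) (Nat.mul a (eY j)) (Nat.mul (nat_lit 24) a) z b =
      fc1 G B fl (Int.ofNat u) U V j (Int.ofNat a) b (Int.ofNat z) := by
  rw [ch1, ch2, fc1, sdF_eq (x := Int.ofNat a * ex j - Int.ofNat z * ex b),
    sdF_eq (x := Int.ofNat a * ey j - Int.ofNat z * ey b)]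
  · apply geF_eq
    all_goals
      simp only [ex_eX, ey_eY, Nat.add_eq, Nat.mul_eq, Int.ofNat_eq_natCast]
      push_cast
      ring
  all_goals
    simp only [ex_eX, ey_eY, Nat.add_eq, Nat.mul_eq, Int.ofNat_eq_natCast]
    push_cast
    ring
theorem sdx (z i k : ℕ) : sdF (Nat.mul z (eX k)) (Nat.mul z (eX i)) = sq (Int.ofNat z * (ex k - ex i)) := by
  apply sdF_eq
  simp only [ex_eX, Nat.mul_eq, Int.ofNat_eq_natCast]
  push_cast
  ring
theorem sdy (z i k : ℕ) : sdF (Nat.mul z (eY k)) (Nat.mul z (eY i)) = sq (Int.ofNat z * (ey k - ey i)) := by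
  apply sdF_eq
  simp only [ey_eY, Nat.mul_eq, Int.ofNat_eq_natCast]
  push_cast
  ring
theorem ge_ge2 (G : Gx) (B : Bx) (fl : Bool) (dx dy δx δy fx fy : ℤ) :
    ge G B fl dx dy δx δy fx fy = ge2 G B fl dx dy (sq δx) (sq δy) fx fy := by
  rw [ge, ge2]
theorem sq0 : sq 0 = 0 := rfl
theorem chord1_eq (G : Gx) (B : Bx) (fl : Bool) (a z u : ℤ) (j b : ℕ) (δx δy : ℤ) :
    chord1 G B fl a z u j b δx δy = fc1 G B fl u (sq δx) (sq δy) j a b z := by
  rw [chord1, fc1, ge_ge2]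
theorem chordF_eq (G : Gx) (B : Bx) (s : St) (fl sec : Bool) (i j u τ : ℕ) :
    chordF (mkC G B) s.qh fl sec i j u τ = chord G B s fl sec i j u τ := by
  rw [chordF, ch4, brec, chord, force_eq, force_eq, ch3, brand, ch1_eq, ch1_eq, ch1_eq, sdx, sdy,
    chord1_eq, chord1_eq, chord1_eq, sq0, nD, nD, laF_eq, nU]
theorem rc_eq (U V F1 F2 C0 C1 t p q : ℕ) : rc U V F1 F2 C0 C1 t p q =
    Nat.blt (4 * (59767450798818947235840 + t * 633318697598976 + C1) + (p * U + q * V))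
      (4 * (C0 + (p * F1 + q * F2))) := by
  rw [rc, nB, Nat.mul_comm t]
  simp only [nA, nM]
theorem rd3_eq (U V F1 F2 C0 C1 : ℕ) (B : Bx) :
    rd3 U V F1 F2 C0 C1 B.t0 B.t1 (cg1 B.t0 B.f0) (cg2 B.t0 B.f0) (cg1 B.t0 B.f1)
      (cg2 B.t0 B.f1) (cg1 B.t1 B.f0) (cg2 B.t1 B.f0) (cg1 B.t1 B.f1) (cg2 B.t1 B.f1) =
      all4 B (rc U V F1 F2 C0 C1) := by
  rw [rd3, brand, brand, brand, all4]
theorem rdF_eq (G : Gx) (B : Bx) (z b : ℕ) (δx δy : ℤ) :
    rdF (mkC G B) (sq δx) (sq δy) (Nat.mul z (eX b)) (Nat.mul z (eY b)) (Nat.mul (nat_lit 24) z) =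
      rd G B (Int.ofNat z * ex b) (Int.ofNat z * ey b) δx δy := by
  have h1 : Int.ofNat z * ex b = (Nat.mul z (eX b) : ℕ) - (Nat.mul (nat_lit 24) z : ℕ) := by
    simp only [ex_eX, Nat.mul_eq, Int.ofNat_eq_natCast]
    push_cast
    ring
  have h2 : Int.ofNat z * ey b = (Nat.mul z (eY b) : ℕ) - (Nat.mul (nat_lit 24) z : ℕ) := by
    simp only [ey_eY, Nat.mul_eq, Int.ofNat_eq_natCast]
    push_cast
    ring
  rw [rdF, mkC]
  dsimp only
  rw [rd3_eq, sdF_eq h1, sdF_eq h2, tn1 h1, tn1 h2, tn2 h1, tn2 h2, rd]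
  refine congrArg (all4 B) (funext fun t => funext fun p => funext fun q => ?_)
  rw [rc_eq]
  simp only [nA, nM]
theorem radF_eq (G : Gx) (B : Bx) (sec : Bool) (i τ : ℕ) :
    radF (mkC G B) sec i τ = rad G B sec i τ := by
  rw [radF, rad, nD, nM]
  generalize 68719476736 / τ * 16 = z
  rw [ra2, brec, force_eq, force_eq, ra3, brand, sdx, sdy, rdF_eq, rdF_eq, ← rdF_eq G B z i 0 0, sq0, nU]
theorem pl1_eq (G : Gx) (B : Bx) (fl sg : Bool) (z t b : ℕ) (δx δy : ℤ) :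
    pl1 (mkC G B) fl sg (sq δx) (sq δy) z t b =
      ge G B fl (Int.ofNat z * ex b) (Int.ofNat z * ey b) δx δy
        ((bif sg then -Int.ofNat t else Int.ofNat t) * ex b)
        ((bif sg then -Int.ofNat t else Int.ofNat t) * ey b) := by
  have h1 : Int.ofNat z * ex b = (Nat.mul z (eX b) : ℕ) - (Nat.mul (nat_lit 24) z : ℕ) := by
    simp only [ex_eX, Nat.mul_eq, Int.ofNat_eq_natCast]
    push_cast
    ring
  have h2 : Int.ofNat z * ey b = (Nat.mul z (eY b) : ℕ) - (Nat.mul (nat_lit 24) z : ℕ) := by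
    simp only [ey_eY, Nat.mul_eq, Int.ofNat_eq_natCast]
    push_cast
    ring
  cases sg
  all_goals
    simp only [pl1, sdF_eq h1, sdF_eq h2, ge_ge2]
    apply geF_eq
  all_goals
    simp only [ex_eX, ey_eY, Nat.mul_eq, Int.ofNat_eq_natCast, cond_true, cond_false]
    push_cast
    ring
theorem pairF_eq (G : Gx) (B : Bx) (fl sg : Bool) (i L u : ℕ) :
    pairF (mkC G B) fl sg i L u = pairL G B fl sg i L u := by
  simp only [pairF, pl3, pl2, force_eq, brand, sdx, sdy, pl1_eq, pairL]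
  simp only [nM, nD, nU, nA]
theorem dP_eq (a b : ℕ) : dP a b = (det a b).toNat := by
  apply tn1
  simp only [det, dA, ex_eX, ey_eY, Nat.add_eq, Nat.mul_eq]
  push_cast
  ring
theorem dM_eq (a b : ℕ) : dP b a = (-det a b).toNat := by
  rw [dP_eq, det, det]; congr 1; ring
theorem hullF_eq (qh l j m : ℕ) : hullF qh l j m = hull qh l j m := by
  rw [hullF, hu2, brand, brand, brand, brec, dM_eq l m, dM_eq j l, dP_eq, dP_eq, dP_eq]
  rfl
theorem mn_eq (a b : ℕ) : mn a b = min a b := by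
  simp only [mn, Nat.sub_eq]; omega
theorem sh1_eq (s : St) (o : Bool) (a j l : ℕ) :
    sh1 (laF s.ql j) (laF s.qh l) o a j l = shad1 s o a j l := by
  cases o
  · rw [sh1, brec, dM_eq a j, dP_eq, dP_eq, dP_eq]
    rfl
  · rw [sh1, brec, dM_eq j a, dP_eq, dP_eq, dP_eq]
    rfl
theorem sh2_eq (s : St) (o sec : Bool) (i j l : ℕ) :
    sh2 (laF s.ql j) (laF s.qh l) o sec i j l = shad s o sec i j l := by
  cases sec
  · exact sh1_eq s o i j l
  · simp only [sh2, force_eq, mn_eq, sh1_eq, shad, cond_true]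
theorem raF_eq (X i τ : ℕ) : raF X i τ = raise X i τ := brec _ _ _
theorem sLo_eq (ql qh sl ll vl vh : ℕ) (sec : Bool) (i τ : ℕ) :
    sLo ql qh sl ll vl vh sec i τ = setLo ⟨ql, qh, sl, ll, vl, vh⟩ sec i τ := by
  cases sec <;> simp only [sLo, raF_eq, setLo, cond_true, cond_false, force_eq, frc_eq]
theorem opF_eq (G : Gx) (B : Bx) (ql qh sl ll vl vh kd i j l u τ : ℕ) (sec fl sg : Bool) :
    opF (mkC G B) ql qh sl ll vl vh kd i j l u τ sec fl sg =
      op G B ⟨ql, qh, sl, ll, vl, vh⟩ kd i j l u τ sec fl sg := by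
  have h1 := chordF_eq G B ⟨ql, qh, sl, ll, vl, vh⟩ fl sec i j u τ
  have h2 := sh2_eq ⟨ql, qh, sl, ll, vl, vh⟩ fl sec i j l
  simp only at h1 h2
  simp only [opF, brand, h1, h2, sLo_eq, radF_eq, pairF_eq, hullF_eq, frc_eq, mxF_eq]
  simp only [brec, op, force_eq]
  rfl
theorem opWF_eq (G : Gx) (B : Bx) (ql qh sl ll vl vh w : ℕ) :
    opWF (mkC G B) ql qh sl ll vl vh w = opW G B ⟨ql, qh, sl, ll, vl, vh⟩ w := by
  simp only [opWF, opW, force_eq, opF_eq, nO, nR]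
theorem opsF_eq (G : Gx) (B : Bx) (n : ℕ) : ∀ d ql qh sl ll vl vh : ℕ,
    opsF (mkC G B) n d ql qh sl ll vl vh = ops G B n d ⟨ql, qh, sl, ll, vl, vh⟩ := by
  induction n with
  | zero => intros; rfl
  | succ n ih =>
    intro d ql qh sl ll vl vh
    have e1 : opsF (mkC G B) (n + 1) d ql qh sl ll vl vh = frc (Nat.shiftRight d (nat_lit 64))
        fun d' => @St.rec (fun _ => St) (opsF (mkC G B) n d')
          (opWF (mkC G B) ql qh sl ll vl vh (Nat.land d (nat_lit 18446744073709551615))) := rfl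
    have e2 : ops G B (n + 1) d ⟨ql, qh, sl, ll, vl, vh⟩ =
        forceS (opW G B ⟨ql, qh, sl, ll, vl, vh⟩ (low 1 d)) fun s' =>
          force (d >>> 64) fun d' => ops G B n d' s' := rfl
    rw [e1, e2, frc_eq, opWF_eq, low1]
    generalize opW G B ⟨ql, qh, sl, ll, vl, vh⟩ (low 1 d) = r
    obtain ⟨a, b, c, e, f, g⟩ := r
    exact (ih _ a b c e f g).trans (force_eq (d >>> 64) fun d' => ops G B n d' ⟨a, b, c, e, f, g⟩).symm

end Pool.Agent.P.MP_2e1554_gt.Chk
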