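import Pool.Agent.P.MP_2e1554_gt.IsoC3M
import Pool.Agent.P.MP_2e1554_gt.IsoC3X
import Pool.Agent.P.MP_2e1554_gt.IsoFastB

/-! The integral over a piece. -/

open MeasureTheory Set

namespace Pool.Agent.P.MP_2e1554_gt.Chk

private theorem i_tri (a b s1 t1 s2 t2 s3 t3 : ℝ) :
    12 * ∫ x in a..b, (s1 + t1 * x) * (s2 + t2 * x) * (s3 + t3 * x) = (b - a) *
      (3 * ((s1 + t1 * a) * (s2 + t2 * a) * (s3 + t3 * a)) +
        3 * ((s1 + t1 * b) * (s2 + t2 * b) * (s3 + t3 * b)) +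
        (s1 + t1 * a) * (s2 + t2 * a) * (s3 + t3 * b) +
        (s1 + t1 * a) * (s2 + t2 * b) * (s3 + t3 * a) +
        (s1 + t1 * b) * (s2 + t2 * a) * (s3 + t3 * a) +
        (s1 + t1 * a) * (s2 + t2 * b) * (s3 + t3 * b) +
        (s1 + t1 * b) * (s2 + t2 * a) * (s3 + t3 * b) +
        (s1 + t1 * b) * (s2 + t2 * b) * (s3 + t3 * a)) := by
  have e : ∀ x : ℝ, (s1 + t1 * x) * (s2 + t2 * x) * (s3 + t3 * x) =
      s1 * s2 * s3 * x ^ 0 + (t1 * s2 * s3 + s1 * t2 * s3 + s1 * s2 * t3) * x ^ 1 +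
        (t1 * t2 * s3 + t1 * s2 * t3 + s1 * t2 * t3) * x ^ 2 + t1 * t2 * t3 * x ^ 3 := by
    intro x
    ring
  simp only [e]
  rw [intervalIntegral.integral_add (Continuous.intervalIntegrable (by fun_prop) _ _)
      (Continuous.intervalIntegrable (by fun_prop) _ _),
    intervalIntegral.integral_add (Continuous.intervalIntegrable (by fun_prop) _ _)
      (Continuous.intervalIntegrable (by fun_prop) _ _),
    intervalIntegral.integral_add (Continuous.intervalIntegrable (by fun_prop) _ _)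
      (Continuous.intervalIntegrable (by fun_prop) _ _)]
  simp only [intervalIntegral.integral_const_mul, integral_pow]
  push_cast
  ring

private theorem i_af {f : ℝ → ℝ} {a b c d : ℝ} (h : Af f a b) (h1 : a ≤ c) (h2 : d ≤ b) :
    Af f c d :=
  h.imp fun _ => Exists.imp fun _ e x hx => e x ⟨h1.trans hx.1, hx.2.trans h2⟩

private theorem i_sub (a b : ℕ) : ((a - b : ℕ) : ℝ) = max ((a : ℝ) - b) 0 := by
  rcases le_total b a with h | h
  · rw [Nat.cast_sub h, max_eq_left (sub_nonneg.2 (by exact_mod_cast h))]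
  · rw [Nat.sub_eq_zero_of_le h, max_eq_right (sub_nonpos.2 (by exact_mod_cast h)), Nat.cast_zero]

private theorem i_sd (a b : ℕ) : (sdF a b : ℝ) = ((a : ℝ) - b) ^ 2 := by
  have e : sdF a b = (a - b + (b - a)) * (a - b + (b - a)) := rfl
  rw [e]
  rcases le_total b a with h | h
  · rw [Nat.sub_eq_zero_of_le h, Nat.add_zero, Nat.cast_mul, Nat.cast_sub h]
    ring
  · rw [Nat.sub_eq_zero_of_le h, Nat.zero_add, Nat.cast_mul, Nat.cast_sub h]
    ring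

private theorem i_yp (a t : ℕ) : (ypX a t : ℝ) = max ((a : ℝ) - (2 ^ 47 + 2 * t)) 0 := by
  have e : ypX a t = a - (140737488355328 + 2 * t) := rfl
  rw [e, i_sub]
  push_cast
  norm_num

private theorem i_sg1 (n a0 a1 t0 t1 : ℕ) : sg1 n a0 a1 t0 t1 =
    n * (ypX a0 t0 * (2 * sdF (a0 + t0) 140737488355328 +
      sdF (a0 + t0 + (a1 + t1)) 281474976710656) +
      ypX a1 t1 * (sdF (a0 + t0 + (a1 + t1)) 281474976710656 +
        2 * sdF (a1 + t1) 140737488355328)) := by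
  unfold sg1
  cases h : Nat.beq (Nat.add (ypX a0 t0) (ypX a1 t1)) (nat_lit 0)
  · rfl
  · have h1 : ypX a0 t0 + ypX a1 t1 = 0 := Nat.eq_of_beq_eq_true h
    rw [show ypX a0 t0 = 0 by omega, show ypX a1 t1 = 0 by omega]
    simp only [Nat.zero_mul, Nat.add_zero, Nat.mul_zero]

private theorem i_pc2 (A T : ℕ → ℕ) {X0 X1 : ℕ} (hX : X0 ≤ X1) (p0 m0 p1 m1 : ℕ) :
    pc2 A T X0 X1 p0 m0 p1 m1 = sg0 A T X0 X1 ∨ ∃ Z, X0 ≤ Z ∧ Z ≤ X1 ∧
      pc2 A T X0 X1 p0 m0 p1 m1 = sg0 A T X0 Z + sg0 A T Z X1 := by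
  unfold pc2
  cases Nat.beq (Nat.add (Nat.mul p0 m1) (Nat.mul m0 p1)) (nat_lit 0)
  · refine Or.inr ⟨_, ?_, ?_, force_eq _ _⟩
    · exact Nat.le_add_right _ _
    · rw [mn_eq]
      exact Nat.add_le_of_le_sub' hX (min_le_left _ _)
  · exact Or.inl rfl

theorem tau_int {T h : ℝ → ℝ} {a b : ℝ} (hab : a ≤ b) (hT : Af T a b) (hh : Af h a b) :
    12 * ∫ x in a..b, (3 * T x ^ 2 * h x + 2 * T x ^ 3) = (b - a) *
      (h a * (3 * (2 * T a ^ 2 + (T a + T b) ^ 2)) + h b * (3 * (2 * T b ^ 2 + (T b + T a) ^ 2)) +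
        6 * ((T a + T b) * (T a ^ 2 + T b ^ 2))) := by
  obtain ⟨s, t, e⟩ := hT
  obtain ⟨s', t', e'⟩ := hh
  rw [intervalIntegral.integral_congr (g := fun x => (s + t * x) * (s + t * x) *
    ((3 * s' + 2 * s) + (3 * t' + 2 * t) * x)) (fun x hx => by
      rw [uIcc_of_le hab] at hx
      simp only [e x hx, e' x hx]
      ring), i_tri, e a (left_mem_Icc.2 hab), e b (right_mem_Icc.2 hab), e' a (left_mem_Icc.2 hab),
    e' b (right_mem_Icc.2 hab)]
  ring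

/-- the positive part of `y` is below its linear interpolation -/
theorem ext_int {z y : ℝ → ℝ} {a b : ℝ} (hab : a ≤ b) (hz : Af z a b) (hy : Af y a b) :
    12 * ∫ x in a..b, z x ^ 2 * max (y x) 0 ≤ (b - a) *
      (max (y a) 0 * (2 * z a ^ 2 + (z a + z b) ^ 2) +
        max (y b) 0 * ((z a + z b) ^ 2 + 2 * z b ^ 2)) := by
  rcases hab.eq_or_lt with rfl | hlt
  · simp
  obtain ⟨s, t, e⟩ := hz
  obtain ⟨s', t', e'⟩ := hy
  have hd : 0 < b - a := sub_pos.2 hlt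
  have y0 := le_max_left (y a) 0
  have y1 := le_max_left (y b) 0
  have y2 := le_max_right (y a) 0
  have y3 := le_max_right (y b) 0
  generalize max (y a) 0 = Y0 at y0 y2 ⊢
  generalize max (y b) 0 = Y1 at y1 y3 ⊢
  rw [e' a (left_mem_Icc.2 hab)] at y0
  rw [e' b (right_mem_Icc.2 hab)] at y1
  have h1 : ∫ x in a..b, z x ^ 2 * max (y x) 0 ≤ ∫ x in a..b, (s + t * x) * (s + t * x) *
      ((b * Y0 - a * Y1) / (b - a) + (Y1 - Y0) / (b - a) * x) := by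
    rw [intervalIntegral.integral_congr (g := fun x => (s + t * x) * (s + t * x) *
      max (s' + t' * x) 0) (fun x hx => by
        rw [uIcc_of_le hab] at hx
        simp only [e x hx, e' x hx]
        ring)]
    refine intervalIntegral.integral_mono_on hab (Continuous.intervalIntegrable (by fun_prop) _ _)
      (Continuous.intervalIntegrable (by fun_prop) _ _) fun x hx =>
        mul_le_mul_of_nonneg_left ?_ (mul_self_nonneg _)
    have e2 : (b * Y0 - a * Y1) / (b - a) + (Y1 - Y0) / (b - a) * x =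
        ((b - x) * Y0 + (x - a) * Y1) / (b - a) := by
      field_simp
      ring
    have x0 := sub_nonneg.2 hx.1
    have x1 := sub_nonneg.2 hx.2
    rw [e2]
    refine max_le ?_ (by positivity)
    rw [le_div_iff₀ hd]
    nlinarith [mul_le_mul_of_nonneg_left y0 x1, mul_le_mul_of_nonneg_left y1 x0]
  have ea : (b * Y0 - a * Y1) / (b - a) + (Y1 - Y0) / (b - a) * a = Y0 := by
    field_simp
    ring
  have eb : (b * Y0 - a * Y1) / (b - a) + (Y1 - Y0) / (b - a) * b = Y1 := by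
    field_simp
    ring
  refine (mul_le_mul_of_nonneg_left h1 (by norm_num)).trans (le_of_eq ?_)
  rw [i_tri, ea, eb, e a (left_mem_Icc.2 hab), e b (right_mem_Icc.2 hab)]
  ring

theorem sg0_le {A T : ℕ → ℕ} {h t : ℝ → ℝ} {X0 X1 : ℕ} (hX : X0 ≤ X1)
    (ht : Af t (X0 / 2 ^ 14) (X1 / 2 ^ 14)) (hh : Af h (X0 / 2 ^ 14) (X1 / 2 ^ 14))
    (eA : ∀ X, X0 ≤ X → X ≤ X1 → (A X : ℝ) = 2 ^ 34 * h (X / 2 ^ 14) + 2 ^ 47)
    (eT : ∀ X, X0 ≤ X → X ≤ X1 → (T X : ℝ) = 2 ^ 34 * t (X / 2 ^ 14)) :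
    12 * 2 ^ 116 * ∫ x in (X0 / 2 ^ 14 : ℝ)..(X1 / 2 ^ 14), (h x + t x) ^ 2 * max (h x - 2 * t x) 0 ≤
      (sg0 A T X0 X1 : ℝ) := by
  have hab : (X0 / 2 ^ 14 : ℝ) ≤ X1 / 2 ^ 14 := by gcongr
  have hz : Af (fun x => h x + t x) (X0 / 2 ^ 14) (X1 / 2 ^ 14) := by
    obtain ⟨s, u, e⟩ := ht
    obtain ⟨s', u', e'⟩ := hh
    exact ⟨s' + s, u' + u, fun x hx => by simp only [e x hx, e' x hx]; ring⟩
  have hy : Af (fun x => h x - 2 * t x) (X0 / 2 ^ 14) (X1 / 2 ^ 14) := by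
    obtain ⟨s, u, e⟩ := ht
    obtain ⟨s', u', e'⟩ := hh
    exact ⟨s' - 2 * s, u' - 2 * u, fun x hx => by simp only [e x hx, e' x hx]; ring⟩
  have h1 := ext_int hab hz hy
  have ey : ∀ X, X0 ≤ X → X ≤ X1 → (ypX (A X) (T X) : ℝ) =
      2 ^ 34 * max (h (X / 2 ^ 14) - 2 * t (X / 2 ^ 14)) 0 := by
    intro X a b
    rw [i_yp, eA X a b, eT X a b, mul_max_of_nonneg _ _ (by positivity), mul_zero]
    congr 1
    ring
  have e : sg0 A T X0 X1 = sg1 (X1 - X0) (A X0) (A X1) (T X0) (T X1) := rfl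
  rw [e, i_sg1]
  simp only [Nat.cast_mul, Nat.cast_add, i_sd, Nat.cast_sub hX, Nat.cast_ofNat,
    ey X0 le_rfl hX, ey X1 hX le_rfl, eA X0 le_rfl hX, eA X1 hX le_rfl, eT X0 le_rfl hX,
    eT X1 hX le_rfl]
  rw [mul_comm (12 : ℝ), mul_assoc]
  refine (mul_le_mul_of_nonneg_left h1 (by positivity)).trans (le_of_eq ?_)
  ring

theorem pcP_le {A T : ℕ → ℕ} {h t : ℝ → ℝ} {X0 X1 : ℕ} (hX : X0 ≤ X1) (ch : Continuous h)
    (ct : Continuous t) (ht : Af t (X0 / 2 ^ 14) (X1 / 2 ^ 14))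
    (hh : Af h (X0 / 2 ^ 14) (X1 / 2 ^ 14))
    (eA : ∀ X, X0 ≤ X → X ≤ X1 → (A X : ℝ) = 2 ^ 34 * h (X / 2 ^ 14) + 2 ^ 47)
    (eT : ∀ X, X0 ≤ X → X ≤ X1 → (T X : ℝ) = 2 ^ 34 * t (X / 2 ^ 14)) :
    12 * 2 ^ 116 * ∫ x in (X0 / 2 ^ 14 : ℝ)..(X1 / 2 ^ 14), Gc (t x) (h x) ≤
      (pcP A T X0 X1 : ℝ) - pcN T X0 X1 := by
  have eN : pcN T X0 X1 =
      (X1 - X0) * (140737488355328 * (tq0 (T X0) (T X1) + tq0 (T X1) (T X0))) := rfl
  rcases hX.eq_or_lt with rfl | hlt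
  · rw [eN, intervalIntegral.integral_same, Nat.sub_self, Nat.zero_mul, mul_zero, Nat.cast_zero,
      sub_zero]
    exact Nat.cast_nonneg _
  have hab : (X0 / 2 ^ 14 : ℝ) ≤ X1 / 2 ^ 14 := by gcongr
  have eP : pcP A T X0 X1 = (X1 - X0) * (A X0 * tq0 (T X0) (T X1) + A X1 * tq0 (T X1) (T X0) +
      tq3 (T X0) (T X1)) + pc2 A T X0 X1 (ypX (A X0) (T X0)) (ymX (A X0) (T X0))
        (ypX (A X1) (T X1)) (ymX (A X1) (T X1)) := by
    unfold pcP
    cases hb : Nat.beq X0 X1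
    · rfl
    · exact absurd (Nat.eq_of_beq_eq_true hb) hlt.ne
  have q0 : ∀ s t : ℕ, (tq0 s t : ℝ) = 3 * (2 * (s * s) + (s + t) * (s + t)) := by
    intro s t
    have e : tq0 s t = 3 * (2 * (s * s) + (s + t) * (s + t)) := rfl
    rw [e]
    push_cast
    rfl
  have q3 : ∀ s t : ℕ, (tq3 s t : ℝ) = 6 * ((s + t) * (s * s + t * t)) := by
    intro s t
    have e : tq3 s t = 6 * ((s + t) * (s * s + t * t)) := rfl
    rw [e]
    push_cast
    rfl
  have c2 : Continuous fun x => (h x + t x) ^ 2 * max (h x - 2 * t x) 0 := by fun_prop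
  have h2 : 12 * 2 ^ 116 * ∫ x in (X0 / 2 ^ 14 : ℝ)..(X1 / 2 ^ 14),
      (h x + t x) ^ 2 * max (h x - 2 * t x) 0 ≤ (pc2 A T X0 X1 (ypX (A X0) (T X0))
        (ymX (A X0) (T X0)) (ypX (A X1) (T X1)) (ymX (A X1) (T X1)) : ℝ) := by
    rcases i_pc2 A T hX (ypX (A X0) (T X0)) (ymX (A X0) (T X0)) (ypX (A X1) (T X1))
      (ymX (A X1) (T X1)) with e | ⟨Z, z0, z1, e⟩
    · rw [e]
      exact sg0_le hX ht hh eA eT
    · have a0 : (X0 / 2 ^ 14 : ℝ) ≤ Z / 2 ^ 14 := by gcongr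
      have a1 : (Z / 2 ^ 14 : ℝ) ≤ X1 / 2 ^ 14 := by gcongr
      rw [e, ← intervalIntegral.integral_add_adjacent_intervals (b := (Z / 2 ^ 14 : ℝ))
        (c2.intervalIntegrable _ _) (c2.intervalIntegrable _ _), mul_add, Nat.cast_add]
      exact add_le_add
        (sg0_le z0 (i_af ht le_rfl a1) (i_af hh le_rfl a1) (fun X a b => eA X a (b.trans z1))
          fun X a b => eT X a (b.trans z1))
        (sg0_le z1 (i_af ht a0 le_rfl) (i_af hh a0 le_rfl) (fun X a b => eA X (z0.trans a) b)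
          fun X a b => eT X (z0.trans a) b)
  have h1 := tau_int hab ht hh
  simp only [Gc_eq]
  rw [intervalIntegral.integral_add (Continuous.intervalIntegrable (by fun_prop) _ _)
    (c2.intervalIntegrable _ _), mul_add, eP, eN]
  simp only [Nat.cast_mul, Nat.cast_add, q0, q3, Nat.cast_sub hX, Nat.cast_ofNat,
    eA X0 le_rfl hX, eA X1 hX le_rfl, eT X0 le_rfl hX, eT X1 hX le_rfl]
  rw [mul_comm (12 : ℝ), mul_assoc, h1]
  rw [mul_comm (12 : ℝ)] at h2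
  rw [add_sub_right_comm]
  refine add_le_add (le_of_eq ?_) h2
  ring

end Pool.Agent.P.MP_2e1554_gt.Chk
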