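import Pool.Agent.P.MP_2e1554_gt.IsoC3N
import Pool.Agent.P.MP_2e1554_gt.IsoC3H

/-! All kinks. -/

open MeasureTheory Set

namespace Pool.Agent.P.MP_2e1554_gt.Chk

private theorem o_cl (e0 e1 : ℕ) :
    (clX e0 e1 : ℝ) = 12 * 2 ^ 116 * cl3 (e0 / 2 ^ 20) (e1 / 2 ^ 20) := by
  have h : clX e0 e1 = 216172782113783808 * ((e0 + e1) * (e0 * e0 + e1 * e1)) := rfl
  rw [h, cl3]
  push_cast
  ring

private theorem o_sub (a b : ℕ) : ((a - b : ℕ) : ℝ) = max ((a : ℝ) - b) 0 := by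
  rcases le_total b a with h | h
  · rw [Nat.cast_sub h, max_eq_left]
    have : (b : ℝ) ≤ a := by exact_mod_cast h
    linarith
  · rw [Nat.sub_eq_zero_of_le h, max_eq_right]
    · simp
    · have : (a : ℝ) ≤ b := by exact_mod_cast h
      linarith

private theorem o_left (sa sb : ℕ) {xa xb c p : ℕ} (hx : xa ≤ xb) (hc : c ≤ 16384) (hp : 0 < p)
    (e0 e1 la m k : ℕ) :
    HH (Tr sa xa sb xb) (c / 2 ^ 14) (e0 / 2 ^ 20) (e1 / 2 ^ 20) (la / 2 ^ 20)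
      (m / 2 ^ 20) (k / 2 ^ 20) (1 / (p / 2 ^ 14)) ≤
    ((sdP (tvX sa xa sb xb) (min xa c) (min xb c) c e0 e1 la m k p : ℝ) -
      hfN (tvX sa xa sb xb) (min xa c) (min xb c) c la) / (12 * 2 ^ 116) := by
  have h := sdP_le sa sb hx hc hp e0 e1 la m k
  rw [one_div_div, le_div_iff₀ (by positivity), mul_comm]
  exact h

private theorem o_right (sa sb : ℕ) {xa xb c p m : ℕ} (hx : xa ≤ xb) (hb : xb ≤ 16384)
    (hc : c ≤ 16384) (hp : p < 16384) (hm : m ≤ 1048576) (e0 e1 la k : ℕ) :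
    HH (fun x => Tr sa xa sb xb (1 - x)) (1 - c / 2 ^ 14) (e1 / 2 ^ 20) (e0 / 2 ^ 20) (la / 2 ^ 20)
      (1 - m / 2 ^ 20) (k / 2 ^ 20) (1 / (1 - p / 2 ^ 14)) ≤
    ((sdP (tvX sb (16384 - xb) sa (16384 - xa)) (min (16384 - xb) (16384 - c))
        (min (16384 - xa) (16384 - c)) (16384 - c) e1 e0 la (1048576 - m) k (16384 - p) : ℝ) -
      hfN (tvX sb (16384 - xb) sa (16384 - xa)) (min (16384 - xb) (16384 - c))
        (min (16384 - xa) (16384 - c)) (16384 - c) la) / (12 * 2 ^ 116) := by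
  have h := o_left sb sa (xa := 16384 - xb) (xb := 16384 - xa) (c := 16384 - c) (p := 16384 - p)
    (by omega) (by omega) (by omega) e1 e0 la (1048576 - m) k
  rw [Tr_mirror sa sb (hx.trans hb) hb] at h
  have h1 : (((16384 - c : ℕ) : ℝ)) / 2 ^ 14 = 1 - c / 2 ^ 14 := by
    rw [Nat.cast_sub hc]; push_cast; ring
  have h2 : (((16384 - p : ℕ) : ℝ)) / 2 ^ 14 = 1 - p / 2 ^ 14 := by
    rw [Nat.cast_sub hp.le]; push_cast; ring
  have h3 : (((1048576 - m : ℕ) : ℝ)) / 2 ^ 20 = 1 - m / 2 ^ 20 := by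
    rw [Nat.cast_sub hm]; push_cast; ring
  rw [h1, h2, h3] at h
  exact h

private theorem o_en2 {Z L R0 R1 : ℕ} (h : en2 Z L R0 R1 = true) : L + R0 ≤ Z ∧ L + R1 ≤ Z := by
  simpa only [en2, brand, nA, Bool.and_eq_true, Nat.ble_eq] using h

private theorem o_ce3 {a b Z L0 L1 R0 R1 : ℕ} (h : ce3 a b Z L0 L1 R0 R1 = true) :
    (L0 + R0 ≤ Z ∧ L1 + R1 ≤ Z) ∧ a * (L1 + R0) + b * (L0 + R1) ≤ (a + b) * Z := by
  simpa only [ce3, brand, nA, nM, Bool.and_eq_true, Nat.ble_eq] using h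

private theorem o_enX (e0 e1 sa xa sb ya yb l0 l1 m k M p : ℕ) :
    enX e0 e1 sa xa sb ya yb l0 l1 m k M p =
      @Bool.rec (fun _ => Bool) false (en2 (hfN (tvX sb ya sa yb) ya yb 16384 l1 +
        7788445287802241442795744493830144 * l0 + 178263365657094759585473888256 * M +
        57982058496 * (k * ((sa * (xa - p)) * (sa * (xa - p)))))
        (906694364710971881029632 * (l0 * (w0X m k e0 p + e0)) + clX e0 e1)
        (sdP (tvX sb ya sa yb) ya yb 16384 e1 e0 l1 (1048576 - m) k 16384)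
        (sdP (tvX sb ya sa yb) ya yb 16384 e1 e0 l1 (1048576 - m) k (16384 - p)))
        (@Bool.rec (fun _ => Bool) false (Nat.ble (p + 1) 16384) (Nat.ble (0 + 1) p)) := rfl

private theorem o_ce2 (e0 e1 l0 l1 m k M p0 p1 c d X1 X2 Y1 Y2 : ℕ) (T U : ℕ → ℕ) :
    ce2 e0 e1 l0 l1 m k M p0 p1 c d X1 X2 Y1 Y2 T U =
      ce3 (p1 * (16384 - p0)) (p0 * (16384 - p1))
        (hfN T X1 X2 c l0 + hfN U Y1 Y2 d l1 + 178263365657094759585473888256 * M)
        (sdP T X1 X2 c e0 e1 l0 m k p0 + clX e0 e1) (sdP T X1 X2 c e0 e1 l0 m k p1 + clX e0 e1)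
        (sdP U Y1 Y2 d e1 e0 l1 (1048576 - m) k (16384 - p0))
        (sdP U Y1 Y2 d e1 e0 l1 (1048576 - m) k (16384 - p1)) := rfl

private theorem o_cel (e0 e1 sa xa sb xb ya yb l0 l1 m k M p0 p1 c : ℕ) :
    cel e0 e1 sa xa sb xb ya yb l0 l1 m k M p0 p1 c =
      force (16384 - c) fun d => force (mn xa c) fun X1 => force (mn xb c) fun X2 =>
      force (mn ya d) fun Y1 => force (mn yb d) fun Y2 =>
      (@Bool.rec (fun _ => Bool) false (ce2 e0 e1 l0 l1 m k M p0 p1 c d X1 X2 Y1 Y2 (tvX sa xa sb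
      xb) (tvX sb ya sa yb)) (@Bool.rec (fun _ => Bool) false (Nat.ble c 16384) (@Bool.rec
      (fun _ => Bool) false (Nat.ble (p1 + 1) 16384) (Nat.ble (p0 + 1) p1)))) := rfl

theorem enX_sound {e0 e1 sa xa sb xb l0 l1 m k M q : ℕ} (hx : xa ≤ xb) (hb : xb ≤ 16384)
    (hm : m ≤ 1048576)
    (h : enX e0 e1 sa xa sb (16384 - xb) (16384 - xa) l0 l1 m k M q = true) {p : ℝ} (h0 : 0 < p)
    (hp : p ≤ q / 2 ^ 14) : 0 < q ∧ FF (Tr sa xa sb xb) (e0 / 2 ^ 20) (e1 / 2 ^ 20) (l0 / 2 ^ 20)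
      (l1 / 2 ^ 20) (m / 2 ^ 20) (k / 2 ^ 20) p + cl3 (e0 / 2 ^ 20) (e1 / 2 ^ 20) ≤ 3 * M / 2 ^ 24 := by
  rw [o_enX, brand, brand, Bool.and_eq_true, Bool.and_eq_true, Nat.ble_eq, Nat.ble_eq] at h
  obtain ⟨⟨hq0, hq1⟩, h⟩ := h
  obtain ⟨g0, g1⟩ := o_en2 h
  have hq0' : 0 < q := by omega
  have hq1' : q < 16384 := by omega
  refine ⟨hq0', ?_⟩
  have r0 := o_right sa sb (c := 0) (p := 0) hx hb (by omega) (by omega) hm e0 e1 l1 k
  have r1 := o_right sa sb (c := 0) (p := q) hx hb (by omega) hq1' hm e0 e1 l1 k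
  have mb : min (16384 - xb) (16384 - 0) = 16384 - xb := by omega
  have ma : min (16384 - xa) (16384 - 0) = 16384 - xa := by omega
  rw [mb, ma, Nat.sub_zero] at r0 r1
  simp only [Nat.cast_zero, zero_div, sub_zero, div_one] at r0 r1
  have w := w0X_ge m k e0 q
  have hqR : (0 : ℝ) < q := by exact_mod_cast hq0'
  have hqR1 : (q : ℝ) < 16384 := by exact_mod_cast hq1'
  have g0' := (Nat.cast_le (α := ℝ)).2 g0
  have g1' := (Nat.cast_le (α := ℝ)).2 g1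
  have hτ : ((xa - q : ℕ) : ℝ) = 2 ^ 14 * max ((xa : ℝ) / 2 ^ 14 - q / 2 ^ 14) 0 := by
    rw [o_sub, mul_max_of_nonneg _ _ (by positivity)]
    congr 1 <;> ring
  simp only [Nat.cast_add, Nat.cast_mul, Nat.cast_ofNat, o_cl, hτ] at g0' g1'
  have e12 : (12 : ℝ) * (k / 2 ^ 20) / (q / 2 ^ 14) = 12 * (k / 2 ^ 20) * (2 ^ 14 / q) := by
    field_simp
  have hl0 : (0 : ℝ) ≤ l0 / 2 ^ 20 := by positivity
  have wl : (l0 : ℝ) / 2 ^ 20 * (4 - 6 * (m / 2 ^ 20) - 12 * (k / 2 ^ 20) / (q / 2 ^ 14)) ≤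
      (l0 : ℝ) / 2 ^ 20 * ((w0X m k e0 q : ℝ) / 2 ^ 20 - 2 ^ 13 + e0 / 2 ^ 20) := by
    refine mul_le_mul_of_nonneg_left ?_ hl0
    rw [e12]; linarith
  rw [← le_sub_iff_add_le]
  refine FF_end (Tr_cont sa xa sb xb) (Tr_nonneg sa xa sb xb) (p1 := q / 2 ^ 14)
    (τ := sa / 2 ^ 20 * max ((xa : ℝ) / 2 ^ 14 - q / 2 ^ 14) 0) (by positivity) hl0 h0 hp
    (by rw [div_lt_one (by positivity)]; linarith) (by positivity) ?_ ?_ ?_
  · intro x hx'
    have a1 : max ((xa : ℝ) / 2 ^ 14 - q / 2 ^ 14) 0 ≤ max ((xa : ℝ) / 2 ^ 14 - x) 0 :=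
      max_le_max (by linarith [hx'.2]) le_rfl
    have a2 : (0 : ℝ) ≤ sb / 2 ^ 20 * max (x - xb / 2 ^ 14) 0 := by positivity
    have a3 := mul_le_mul_of_nonneg_left a1 (show (0 : ℝ) ≤ sa / 2 ^ 20 by positivity)
    rw [Tr]; linarith
  · generalize max ((xa : ℝ) / 2 ^ 14 - q / 2 ^ 14) 0 = t at g0' ⊢
    generalize cl3 ((e0 : ℝ) / 2 ^ 20) (e1 / 2 ^ 20) = C at g0' ⊢
    nlinarith [g0', r0, wl]
  · generalize max ((xa : ℝ) / 2 ^ 14 - q / 2 ^ 14) 0 = t at g1' ⊢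
    generalize cl3 ((e0 : ℝ) / 2 ^ 20) (e1 / 2 ^ 20) = C at g1' ⊢
    nlinarith [g1', r1, wl]

theorem cel_sound {e0 e1 sa xa sb xb l0 l1 m k M p0 p1 c : ℕ} (hx : xa ≤ xb) (hb : xb ≤ 16384)
    (hm : m ≤ 1048576) (h0 : 0 < p0)
    (h : cel e0 e1 sa xa sb xb (16384 - xb) (16384 - xa) l0 l1 m k M p0 p1 c = true) :
    p0 < p1 ∧ p1 < 16384 ∧ ∀ p ∈ Icc (p0 / 2 ^ 14 : ℝ) (p1 / 2 ^ 14),
      FF (Tr sa xa sb xb) (e0 / 2 ^ 20) (e1 / 2 ^ 20) (l0 / 2 ^ 20) (l1 / 2 ^ 20) (m / 2 ^ 20)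
        (k / 2 ^ 20) p + cl3 (e0 / 2 ^ 20) (e1 / 2 ^ 20) ≤ 3 * M / 2 ^ 24 := by
  rw [o_cel] at h
  simp only [force_eq, mn_eq, brand, Bool.and_eq_true, Nat.ble_eq, o_ce2] at h
  obtain ⟨⟨⟨h01, h1⟩, hc⟩, h⟩ := h
  obtain ⟨⟨g0, g1⟩, g2⟩ := o_ce3 h
  have h01' : p0 < p1 := by omega
  have h1' : p1 < 16384 := by omega
  refine ⟨h01', h1', fun p hp => ?_⟩
  have a0 := o_left sa sb hx hc h0 e0 e1 l0 m k
  have a1 := o_left sa sb (p := p1) hx hc (by omega) e0 e1 l0 m k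
  have b0 := o_right sa sb (p := p0) hx hb hc (by omega) hm e0 e1 l1 k
  have b1 := o_right sa sb (p := p1) hx hb hc h1' hm e0 e1 l1 k
  have g0' := (Nat.cast_le (α := ℝ)).2 g0
  have g1' := (Nat.cast_le (α := ℝ)).2 g1
  have g2' := (Nat.cast_le (α := ℝ)).2 g2
  have c0 : ((16384 - p0 : ℕ) : ℝ) = 16384 - p0 := by rw [Nat.cast_sub (by omega)]; norm_num
  have c1 : ((16384 - p1 : ℕ) : ℝ) = 16384 - p1 := by rw [Nat.cast_sub (by omega)]; norm_num
  simp only [Nat.cast_add, Nat.cast_mul, Nat.cast_ofNat, o_cl, c0, c1] at g0' g1' g2'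
  have hcR : (c : ℝ) ≤ 16384 := by exact_mod_cast hc
  have h0R : (0 : ℝ) < p0 := by exact_mod_cast h0
  have h01R : (p0 : ℝ) < p1 := by exact_mod_cast h01'
  have h1R : (p1 : ℝ) < 16384 := by exact_mod_cast h1'
  rw [← le_sub_iff_add_le]
  refine FF_cell (Tr_cont sa xa sb xb) (Tr_nonneg sa xa sb xb) (c := c / 2 ^ 14)
    ⟨by positivity, by rw [div_le_one (by positivity)]; linarith⟩ (by positivity) (by positivity)
    (by linarith) (by rw [div_lt_one (by positivity)]; linarith) hp a0 a1 b0 b1 ?_ ?_ ?_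
  · linarith
  · linarith
  · generalize cl3 ((e0 : ℝ) / 2 ^ 20) (e1 / 2 ^ 20) = C at g2' ⊢
    generalize (sdP (tvX sa xa sb xb) (min xa c) (min xb c) c e0 e1 l0 m k p0 : ℝ) = S0 at g2' ⊢
    generalize (sdP (tvX sa xa sb xb) (min xa c) (min xb c) c e0 e1 l0 m k p1 : ℝ) = S1 at g2' ⊢
    generalize (hfN (tvX sa xa sb xb) (min xa c) (min xb c) c l0 : ℝ) = N0 at g2' ⊢
    generalize (sdP (tvX sb (16384 - xb) sa (16384 - xa)) (min (16384 - xb) (16384 - c))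
        (min (16384 - xa) (16384 - c)) (16384 - c) e1 e0 l1 (1048576 - m) k (16384 - p0) : ℝ) = U0
        at g2' ⊢
    generalize (sdP (tvX sb (16384 - xb) sa (16384 - xa)) (min (16384 - xb) (16384 - c))
        (min (16384 - xa) (16384 - c)) (16384 - c) e1 e0 l1 (1048576 - m) k (16384 - p1) : ℝ) = U1
        at g2' ⊢
    generalize (hfN (tvX sb (16384 - xb) sa (16384 - xa)) (min (16384 - xb) (16384 - c))
        (min (16384 - xa) (16384 - c)) (16384 - c) l1 : ℝ) = N1 at g2' ⊢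
    nlinarith [g2']

private theorem o_cls0 (sa xa sb xb ya yb l0 l1 m k M p d : ℕ) :
    cls sa xa sb xb ya yb l0 l1 m k M 0 p d = force (Nat.land d 16777215) fun e0 =>
      force (Nat.land (Nat.shiftRight d 24) 16777215) fun e1 =>
      enX e1 e0 sb ya sa xa xb l1 l0 (1048576 - m) k M (16384 - p) := rfl

private theorem o_clsS (sa xa sb xb ya yb l0 l1 m k M n p d : ℕ) :
    cls sa xa sb xb ya yb l0 l1 m k M (n + 1) p d =
      force (Nat.land d 65535) fun q => force (Nat.land (Nat.shiftRight d 16) 65535) fun c =>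
      force (Nat.land (Nat.shiftRight d 32) 16777215) fun e0 =>
      force (Nat.land (Nat.shiftRight d 56) 16777215) fun e1 => force (Nat.shiftRight d 80) fun dd =>
      (@Bool.rec (fun _ => Bool) false (cls sa xa sb xb ya yb l0 l1 m k M n q dd)
        (cel e0 e1 sa xa sb xb ya yb l0 l1 m k M p q c)) := rfl

private theorem o_corX (sa xa sb xb ya yb l0 l1 n d m k M : ℕ) :
    corX sa xa sb xb ya yb l0 l1 n d m k M =
      force (Nat.land d 65535) fun p => force (Nat.land (Nat.shiftRight d 16) 16777215) fun e0 =>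
      force (Nat.land (Nat.shiftRight d 40) 16777215) fun e1 => force (Nat.shiftRight d 64) fun dd =>
      (@Bool.rec (fun _ => Bool) false (cls sa xa sb xb ya yb l0 l1 m k M n p dd) (enX e0 e1
      sa xa sb ya yb l0 l1 m k M p)) := rfl

private theorem o_mem (d : ℕ) : ((Nat.land d 16777215 : ℕ) : ℝ) / 2 ^ 20 ∈ Icc (0 : ℝ) 16 := by
  have h : ((Nat.land d 16777215 : ℕ) : ℝ) ≤ 16777215 := by
    exact_mod_cast (Nat.and_le_right : d &&& 16777215 ≤ 16777215)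
  refine ⟨by positivity, ?_⟩
  rw [div_le_iff₀ (by positivity)]
  linarith

private theorem o_cl3 (a b : ℝ) : cl3 a b = cl3 b a := by
  rw [cl3, cl3]; ring

private theorem o_cls {sa xa sb xb l0 l1 m k M : ℕ} (hx : xa ≤ xb) (hb : xb ≤ 16384)
    (hm : m ≤ 1048576) (n : ℕ) : ∀ p d : ℕ, 0 < p →
    cls sa xa sb xb (16384 - xb) (16384 - xa) l0 l1 m k M n p d = true →
    ∀ x : ℝ, (p : ℝ) / 2 ^ 14 ≤ x → x < 1 → ∃ e0 ∈ Icc (0 : ℝ) 16, ∃ e1 ∈ Icc (0 : ℝ) 16,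
      FF (Tr sa xa sb xb) e0 e1 (l0 / 2 ^ 20) (l1 / 2 ^ 20)
      (m / 2 ^ 20) (k / 2 ^ 20) x + cl3 e0 e1 ≤ 3 * M / 2 ^ 24 := by
  induction n with
  | zero =>
    intro p d hp h x hx0 hx1
    rw [o_cls0, force_eq, force_eq] at h
    refine ⟨_, o_mem d, _, o_mem (Nat.shiftRight d 24), ?_⟩
    generalize Nat.land d 16777215 = e0 at h ⊢
    generalize Nat.land (Nat.shiftRight d 24) 16777215 = e1 at h ⊢
    have ea : xa = 16384 - (16384 - xa) := by omega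
    have eb : xb = 16384 - (16384 - xb) := by omega
    have h' : enX e1 e0 sb (16384 - xb) sa (16384 - (16384 - xa)) (16384 - (16384 - xb)) l1 l0
        (1048576 - m) k M (16384 - p) = true := by
      rw [← ea, ← eb]; exact h
    have hp1 : p ≤ 16384 := by
      have : (p : ℝ) < 16384 := by
        have := hx0.trans_lt hx1
        rw [div_lt_one (by positivity)] at this
        linarith
      exact_mod_cast this.le
    have h2 : (((16384 - p : ℕ) : ℝ)) / 2 ^ 14 = 1 - p / 2 ^ 14 := by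
      rw [Nat.cast_sub hp1]; push_cast; ring
    have h3 : (((1048576 - m : ℕ) : ℝ)) / 2 ^ 20 = 1 - m / 2 ^ 20 := by
      rw [Nat.cast_sub hm]; push_cast; ring
    have r := (enX_sound (xa := 16384 - xb) (xb := 16384 - xa) (by omega) (by omega) (by omega) h'
      (p := 1 - x) (by linarith) (by rw [h2]; linarith)).2
    rw [Tr_mirror sa sb (hx.trans hb) hb, h3, ← FF_mirror, o_cl3] at r
    exact r
  | succ n ih =>
    intro p d hp h x hx0 hx1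
    rw [o_clsS] at h
    simp only [force_eq, brand, Bool.and_eq_true] at h
    obtain ⟨h1, h2⟩ := h
    obtain ⟨c0, _, c2⟩ := cel_sound hx hb hm hp h1
    rcases le_total x (((Nat.land d 65535 : ℕ) : ℝ) / 2 ^ 14) with hh | hh
    · exact ⟨_, o_mem _, _, o_mem _, c2 x ⟨hx0, hh⟩⟩
    · exact ih _ _ (hp.trans c0) h2 x hh hx1

theorem corX_sound {sa xa sb xb l0 l1 n d m k M : ℕ} (hx : xa ≤ xb) (hb : xb ≤ 16384)
    (hm : m ≤ 1048576)
    (h : corX sa xa sb xb (16384 - xb) (16384 - xa) l0 l1 n d m k M = true) :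
    ∀ p ∈ Ioo (0 : ℝ) 1, ∃ e0 ∈ Icc (0 : ℝ) 16, ∃ e1 ∈ Icc (0 : ℝ) 16, FF (Tr sa xa sb xb) e0 e1
      (l0 / 2 ^ 20) (l1 / 2 ^ 20) (m / 2 ^ 20) (k / 2 ^ 20) p + cl3 e0 e1 ≤ 3 * M / 2 ^ 24 := by
  rw [o_corX] at h
  simp only [force_eq, brand, Bool.and_eq_true] at h
  obtain ⟨h1, h2⟩ := h
  intro p hp
  rcases le_total p (((Nat.land d 65535 : ℕ) : ℝ) / 2 ^ 14) with hh | hh
  · exact ⟨_, o_mem _, _, o_mem _, (enX_sound hx hb hm h1 hp.1 hh).2⟩
  · have h0 : 0 < Nat.land d 65535 := by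
      rw [o_enX, brand, brand, Bool.and_eq_true, Bool.and_eq_true, Nat.ble_eq, Nat.ble_eq] at h1
      omega
    exact o_cls hx hb hm n _ _ h0 h2 p hh hp.2

end Pool.Agent.P.MP_2e1554_gt.Chk
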