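import Pool.Agent.P.MP_2e1554_gt.IsoC3Q
import Pool.Agent.P.MP_2e1554_gt.IsoC3F
import Pool.Agent.P.MP_2e1554_gt.IsoC3G

/-! Jensen's inequality with an affine function that depends on the tent. -/

open MeasureTheory Set

namespace Pool.Agent.P.MP_2e1554_gt.Chk

private theorem r1_c1 {T : ℝ → ℝ} {η : ℝ} (hT : Continuous T) (hη : 0 < η) :
    Continuous fun q : (ℝ × ℝ) × ℝ × ℝ =>
      Ge η (T q.2.1) (q.2.2 - (q.1.1 * (1 - q.2.1) + q.1.2 * q.2.1)) :=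
  (Ge_cont hη).comp (f := fun q : (ℝ × ℝ) × ℝ × ℝ =>
    (T q.2.1, q.2.2 - (q.1.1 * (1 - q.2.1) + q.1.2 * q.2.1))) (by fun_prop)

private theorem r1_c2 {T : ℝ → ℝ} {η : ℝ} (hT : Continuous T) (hη : 0 < η) (d0 d1 : ℝ) :
    Continuous fun q : (ℝ × ℝ) × ℝ × ℝ =>
      gE η (T q.2.1) (q.2.2 - (q.1.1 * (1 - q.2.1) + q.1.2 * q.2.1)) *
        (d0 * (1 - q.2.1) + d1 * q.2.1) :=
  ((gE_cont hη).comp (f := fun q : (ℝ × ℝ) × ℝ × ℝ =>
    (T q.2.1, q.2.2 - (q.1.1 * (1 - q.2.1) + q.1.2 * q.2.1))) (by fun_prop)).mul (by fun_prop)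

private theorem r1_i1 {ψ T : ℝ → ℝ} {η : ℝ} (hψ : BM 0 1 ψ) (hT : Continuous T) (hη : 0 < η)
    (a b : ℝ) :
    IntervalIntegrable (fun x => Ge η (T x) (ψ x - (a * (1 - x) + b * x))) volume 0 1 :=
  (hψ.comp (F := fun x y => Ge η (T x) (y - (a * (1 - x) + b * x)))
    ((r1_c1 hT hη).comp (f := fun q : ℝ × ℝ => ((a, b), q)) (by fun_prop))).ii
    (left_mem_Icc.2 zero_le_one) (right_mem_Icc.2 zero_le_one)

private theorem r1_i2 {ψ T : ℝ → ℝ} {η : ℝ} (hψ : BM 0 1 ψ) (hT : Continuous T) (hη : 0 < η)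
    (a b d0 d1 : ℝ) :
    IntervalIntegrable (fun x => gE η (T x) (ψ x - (a * (1 - x) + b * x)) *
      (d0 * (1 - x) + d1 * x)) volume 0 1 :=
  (hψ.comp (F := fun x y => gE η (T x) (y - (a * (1 - x) + b * x)) * (d0 * (1 - x) + d1 * x))
    ((r1_c2 hT hη d0 d1).comp (f := fun q : ℝ × ℝ => ((a, b), q)) (by fun_prop))).ii
    (left_mem_Icc.2 zero_le_one) (right_mem_Icc.2 zero_le_one)

private theorem r1_tan {ψ T : ℝ → ℝ} {η : ℝ} (hψ : BM 0 1 ψ) (hT : Continuous T)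
    (T0 : ∀ x, 0 ≤ T x) (hη : 0 < η) (e0 e1 d0 d1 s : ℝ) :
    (∫ x in (0 : ℝ)..1, Ge η (T x) (ψ x - ((e0 + s * d0) * (1 - x) + (e1 + s * d1) * x))) +
      s * ∫ x in (0 : ℝ)..1, gE η (T x) (ψ x - ((e0 + s * d0) * (1 - x) + (e1 + s * d1) * x)) *
        (d0 * (1 - x) + d1 * x) ≤
      ∫ x in (0 : ℝ)..1, Ge η (T x) (ψ x - (e0 * (1 - x) + e1 * x)) := by
  rw [← intervalIntegral.integral_const_mul,
    ← intervalIntegral.integral_add (r1_i1 hψ hT hη _ _) ((r1_i2 hψ hT hη _ _ _ _).const_mul s)]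
  refine intervalIntegral.integral_mono_on zero_le_one
    ((r1_i1 hψ hT hη _ _).add ((r1_i2 hψ hT hη _ _ _ _).const_mul s)) (r1_i1 hψ hT hη _ _)
    fun x _ => ?_
  have h := Ge_tan hη (T0 x) (ψ x - ((e0 + s * d0) * (1 - x) + (e1 + s * d1) * x))
    (ψ x - (e0 * (1 - x) + e1 * x))
  refine le_trans (le_of_eq ?_) h
  ring

private theorem r1_mem {R e f s : ℝ} (he : e ∈ Icc 0 R) (hf : f ∈ Icc 0 R) (s0 : 0 ≤ s)
    (s1 : s ≤ 1) : e + s * (f - e) ∈ Icc 0 R := by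
  obtain ⟨h1, h2⟩ := he
  obtain ⟨h3, h4⟩ := hf
  constructor <;> nlinarith [mul_nonneg s0 h3, mul_nonneg (sub_nonneg.2 s1) h1,
    mul_nonneg s0 (sub_nonneg.2 h4), mul_nonneg (sub_nonneg.2 s1) (sub_nonneg.2 h2)]

/-- first order condition at a minimum `e` of
`φ e = ∫ Ge η (T x) (ψ x - ℓ_e x) + cl3 e.1 e.2` on `Q = Icc 0 R ×ˢ Icc 0 R`
(`IsCompact.exists_isMinOn`, `par_cont`). For `f ∈ Q`, `d = f - e`, `e_s = e + s d`, `0 < s ≤ 1`: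
`Ge_tan` at `ψ - ℓ_{e_s}` evaluated at `ψ - ℓ_e` and `cl3_sub` give
`φ e_s - s D s ≤ φ e ≤ φ e_s`, hence `0 ≤ D s`, where
`D s = -∫ gE η (T x) (ψ x - ℓ_{e_s} x) ℓ_d x + ∇cl3 (e_s) · d` is continuous in `s` (`par_cont`);
let `s → 0` (`ge_of_tendsto` along `𝓝[>] 0`, or `IsClosed.closure_subset`). -/
theorem c3_min {ψ T : ℝ → ℝ} {η R : ℝ} (hψ : BM 0 1 ψ) (hT : Continuous T) (T0 : ∀ x, 0 ≤ T x)
    (hη : 0 < η) (hR : 0 ≤ R) : ∃ e0 ∈ Icc 0 R, ∃ e1 ∈ Icc 0 R, ∀ f0 ∈ Icc 0 R, ∀ f1 ∈ Icc 0 R,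
      ∫ x in (0 : ℝ)..1, gE η (T x) (ψ x - (e0 * (1 - x) + e1 * x)) *
          ((f0 - e0) * (1 - x) + (f1 - e1) * x) ≤
        (3 * e0 ^ 2 + 2 * e0 * e1 + e1 ^ 2) / 4 * (f0 - e0) +
          (e0 ^ 2 + 2 * e0 * e1 + 3 * e1 ^ 2) / 4 * (f1 - e1) := by
  have hc : Continuous fun e : ℝ × ℝ =>
      (∫ x in (0 : ℝ)..1, Ge η (T x) (ψ x - (e.1 * (1 - x) + e.2 * x))) + cl3 e.1 e.2 :=
    (par_cont hψ (F := fun e x y => Ge η (T x) (y - (e.1 * (1 - x) + e.2 * x)))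
      (r1_c1 hT hη)).add (by unfold cl3; fun_prop)
  obtain ⟨⟨e0, e1⟩, ⟨he0, he1⟩, hmin⟩ :=
    ((isCompact_Icc (a := (0 : ℝ)) (b := R)).prod (isCompact_Icc (a := (0 : ℝ)) (b := R))).exists_isMinOn
      ⟨(0, 0), left_mem_Icc.2 hR, left_mem_Icc.2 hR⟩ hc.continuousOn
  refine ⟨e0, he0, e1, he1, fun f0 hf0 f1 hf1 => ?_⟩
  let D : ℝ × ℝ → ℝ := fun e =>
    (3 * e.1 ^ 2 + 2 * e.1 * e.2 + e.2 ^ 2) / 4 * (f0 - e0) +
      (e.1 ^ 2 + 2 * e.1 * e.2 + 3 * e.2 ^ 2) / 4 * (f1 - e1) -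
      ∫ x in (0 : ℝ)..1, gE η (T x) (ψ x - (e.1 * (1 - x) + e.2 * x)) *
        ((f0 - e0) * (1 - x) + (f1 - e1) * x)
  have hD : Continuous D :=
    Continuous.sub (by fun_prop) (par_cont hψ (F := fun e x y =>
      gE η (T x) (y - (e.1 * (1 - x) + e.2 * x)) * ((f0 - e0) * (1 - x) + (f1 - e1) * x))
      (r1_c2 hT hη _ _))
  have hs : ∀ s ∈ Ioo (0 : ℝ) 1, 0 ≤ D (e0 + s * (f0 - e0), e1 + s * (f1 - e1)) := by
    intro s hs
    have m0 := r1_mem he0 hf0 hs.1.le hs.2.le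
    have m1 := r1_mem he1 hf1 hs.1.le hs.2.le
    have h1 := hmin (show (e0 + s * (f0 - e0), e1 + s * (f1 - e1)) ∈ Icc 0 R ×ˢ Icc 0 R from
      ⟨m0, m1⟩)
    have h2 := r1_tan hψ hT T0 hη e0 e1 (f0 - e0) (f1 - e1) s
    have h3 := cl3_sub m0.1 m1.1 he0.1 he1.1
    simp only [mem_ofPred_eq] at h1
    refine (mul_nonneg_iff_of_pos_left hs.1).1 ?_
    simp only [D]
    nlinarith [h1, h2, h3]
  have hlim : Filter.Tendsto (fun s : ℝ => D (e0 + s * (f0 - e0), e1 + s * (f1 - e1)))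
      (nhdsWithin 0 (Ioi 0)) (nhds (D (e0, e1))) := by
    have h : Continuous fun s : ℝ => D (e0 + s * (f0 - e0), e1 + s * (f1 - e1)) :=
      hD.comp (by fun_prop)
    have := (h.tendsto 0).mono_left (nhdsWithin_le_nhds (s := Ioi 0))
    simpa using this
  have h0 : 0 ≤ D (e0, e1) :=
    ge_of_tendsto hlim (Filter.mem_of_superset (Ioo_mem_nhdsGT zero_lt_one) hs)
  simp only [D] at h0
  linarith

/-- for `0 < η` take `e` from `c3_min` (`0 ≤ R` from `hM (1/2)`), `y = ψ - ℓ_e`, `g = gE η T y`,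
`J = ∫ Ge η T y + cl3 e`. `c3_fcore` gives `J ≤ Z`: for the `f` of `hM p`,
`Gc T (z_p - ℓ_f) ≥ Ge η T (z_p - ℓ_f) ≥ Ge η T y + g (z_p - ψ) - g (ℓ_f - ℓ_e)` (`Ge_le`, `Ge_tan`),
`cl3_sub`, `c3_min`. And `W ≤ ∫ y³ + cl3 e ≤ J + η ∫ 9 T²` (`le_max_left`, `le_Ge`);
`le_of_forall_pos_le_add`. -/
theorem c3_jensen2 {ψ T : ℝ → ℝ} {m k l0 l1 Z R W : ℝ} (h : Sk ψ m k) (hT : Continuous T)
    (T0 : ∀ x, 0 ≤ T x) (h0 : 0 ≤ l0) (h1 : 0 ≤ l1)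
    (hW : ∀ e0 e1 : ℝ, W ≤ (∫ x in (0 : ℝ)..1, (ψ x - (e0 * (1 - x) + e1 * x)) ^ 3) + cl3 e0 e1)
    (hM : ∀ p ∈ Ioo (0 : ℝ) 1, ∃ e0 ∈ Icc 0 R, ∃ e1 ∈ Icc 0 R,
      FF T e0 e1 l0 l1 m k p + cl3 e0 e1 ≤ Z) : W ≤ Z := by
  have i0 : (0 : ℝ) ∈ Icc (0 : ℝ) 1 := ⟨le_rfl, zero_le_one⟩
  have i1 : (1 : ℝ) ∈ Icc (0 : ℝ) 1 := ⟨zero_le_one, le_rfl⟩
  have hR : 0 ≤ R := by
    obtain ⟨a, ha, -⟩ := hM (1 / 2) ⟨by norm_num, by norm_num⟩
    exact ha.1.trans ha.2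
  refine le_of_forall_pos_le_add fun ε hε => ?_
  obtain ⟨C, hC⟩ : ∃ C : ℝ, C = ∫ x in (0 : ℝ)..1, 9 * T x ^ 2 := ⟨_, rfl⟩
  have C0 : 0 ≤ C := hC ▸ intervalIntegral.integral_nonneg zero_le_one fun x _ => by positivity
  obtain ⟨η, hη', hη⟩ : ∃ η : ℝ, C * η ≤ ε ∧ 0 < η := by
    refine ⟨ε / (C + 1), ?_, by positivity⟩
    rw [← mul_div_assoc, div_le_iff₀ (by positivity)]
    nlinarith
  obtain ⟨e0, he0, e1, he1, hmin⟩ := c3_min h.bm hT T0 hη hR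
  have cq : Continuous fun q : ℝ × ℝ => (T q.1, q.2 - (e0 * (1 - q.1) + e1 * q.1)) := by fun_prop
  have hy : BM 0 1 fun x => ψ x - (e0 * (1 - x) + e1 * x) := h.bm.sub (BM.of_cont (by fun_prop))
  have hg : BM 0 1 fun x => gE η (T x) (ψ x - (e0 * (1 - x) + e1 * x)) :=
    h.bm.comp (F := fun x z => gE η (T x) (z - (e0 * (1 - x) + e1 * x))) ((gE_cont hη).comp cq)
  have hG : BM 0 1 fun x => Ge η (T x) (ψ x - (e0 * (1 - x) + e1 * x)) :=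
    h.bm.comp (F := fun x z => Ge η (T x) (z - (e0 * (1 - x) + e1 * x))) ((Ge_cont hη).comp cq)
  have hA : BM 0 1 fun x => ψ x - Am m x := h.bm.sub (BM.of_cont (by unfold Am; fun_prop))
  have a1 := hG.ii i0 i1
  have hJ : (∫ x in (0 : ℝ)..1, Ge η (T x) (ψ x - (e0 * (1 - x) + e1 * x))) + cl3 e0 e1 ≤ Z := by
    refine c3_fcore h hg (fun x => gE_nonneg hη (T0 x) _) h0 h1 fun p hp => ?_
    obtain ⟨f0, hf0, f1, hf1, hf⟩ := hM p hp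
    have b1 := hmin f0 hf0 f1 hf1
    have b2 := cl3_sub he0.1 he1.1 hf0.1 hf1.1
    have a2 := (hg.mul hA).ii i0 i1
    have a3 := (hg.mul (BM.of_cont (Rp_cont p))).ii i0 i1
    have a4 := (hg.mul (BM.of_cont (f := fun x => (f0 - e0) * (1 - x) + (f1 - e1) * x)
      (by fun_prop))).ii i0 i1
    have key : (∫ x in (0 : ℝ)..1, Ge η (T x) (ψ x - (e0 * (1 - x) + e1 * x))) -
        (∫ x in (0 : ℝ)..1, gE η (T x) (ψ x - (e0 * (1 - x) + e1 * x)) * (ψ x - Am m x)) +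
        k * (∫ x in (0 : ℝ)..1, gE η (T x) (ψ x - (e0 * (1 - x) + e1 * x)) * Rp p x) -
        (∫ x in (0 : ℝ)..1, gE η (T x) (ψ x - (e0 * (1 - x) + e1 * x)) *
          ((f0 - e0) * (1 - x) + (f1 - e1) * x)) ≤
        ∫ x in (0 : ℝ)..1, Gc (T x) (Am m x + k * Rp p x - (f0 * (1 - x) + f1 * x)) := by
      rw [← intervalIntegral.integral_sub a1 a2, ← intervalIntegral.integral_const_mul,
        ← intervalIntegral.integral_add (a1.sub a2) (a3.const_mul k),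
        ← intervalIntegral.integral_sub ((a1.sub a2).add (a3.const_mul k)) a4]
      refine intervalIntegral.integral_mono_on zero_le_one
        (((a1.sub a2).add (a3.const_mul k)).sub a4)
        ((Gc_cont hT ?_).intervalIntegrable _ _) fun x _ => ?_
      · have := Rp_cont p
        unfold Am
        fun_prop
      · refine le_trans (le_of_eq ?_) ((Ge_tan hη (T0 x) (ψ x - (e0 * (1 - x) + e1 * x)) _).trans
          (Ge_le hη _))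
        ring
    unfold FF at hf
    linarith
  have t2 : IntervalIntegrable (fun x => 9 * T x ^ 2) volume (0 : ℝ) 1 :=
    (show Continuous fun x => 9 * T x ^ 2 by fun_prop).intervalIntegrable _ _
  have hc : (∫ x in (0 : ℝ)..1, (ψ x - (e0 * (1 - x) + e1 * x)) ^ 3) ≤
      (∫ x in (0 : ℝ)..1, Ge η (T x) (ψ x - (e0 * (1 - x) + e1 * x))) + C * η := by
    rw [hC, ← intervalIntegral.integral_mul_const,
      ← intervalIntegral.integral_add a1 (t2.mul_const η)]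
    exact intervalIntegral.integral_mono_on zero_le_one ((hy.pow 3).ii i0 i1)
      (a1.add (t2.mul_const η)) fun x _ => (le_max_left _ _).trans (le_Ge hη _)
  have := hW e0 e1
  linarith

end Pool.Agent.P.MP_2e1554_gt.Chk
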