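import Pool.Agent.P.MP_2e1554_gt.IsoChk

/-! Additional polynomial inequalities in a leaf. A row has 23 lanes: positive coefficients of
eleven monomials, negative coefficients, and the bound. -/

namespace Pool.Agent.P.MP_2e1554_gt.Chk

/-- `(p y₀ ± q y₁)⁴ ≤ 12/5 (p² + q²)²` -/
def row4 (p q : ℕ) (sg : Bool) : ℕ :=
  (4 * (p * p * p * p)) <<< 256 + (24 * (p * p * q * q)) <<< 384 + (4 * (q * q * q * q)) <<< 512 +
    ((16 * (p * p * p * q)) <<< 320 + (16 * (p * q * q * q)) <<< 448) <<< (bif sg then 704 else 0) +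
    (12 * ((p * p + q * q) * (p * p + q * q)) / 5 + 1) <<< 1408

/-! ### bounds for the support function in the directions of the nodes, scale `4096` -/

structure Wt where (wl wh : ℕ)

def WL0 : ℕ := 0x223480000000000022fc500000000000243fc0000000000025f280000000000024e0d000000000002438b0000000000024000000000000002438b0000000000024e0d0000000000025f2800000000000243fc0000000000022fc500000000000223480000000000021f0e00000000000223480000000000022fc500000000000243fc0000000000025f280000000000024e0d000000000002438b0000000000024000000000000002438b0000000000024e0d0000000000025f2800000000000243fc0000000000022fc500000000000223480000000000021f0e00000000000223480000000000022fc500000000000243fc0000000000025f280000000000024e0d000000000002438b0000000000024000000000000002438b0000000000024e0d0000000000025f2800000000000243fc0000000000022fc500000000000223480000000000021f0e00000000000223480000000000022fc500000000000243fc0000000000025f280000000000024e0d000000000002438b0000000000024000000000000002438b0000000000024e0d0000000000025f2800000000000243fc0000000000022fc500000000000223480000000000021f0e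
def WH0 : ℕ := 0x446920000000000045f8b00000000000487f9000000000004be510000000000049c1b0000000000048717000000000004800100000000000487170000000000049c1b000000000004be5100000000000487f90000000000045f8b00000000000446920000000000043e1e00000000000446920000000000045f8b00000000000487f9000000000004be510000000000049c1b0000000000048717000000000004800100000000000487170000000000049c1b000000000004be5100000000000487f90000000000045f8b00000000000446920000000000043e1e00000000000446920000000000045f8b00000000000487f9000000000004be510000000000049c1b0000000000048717000000000004800100000000000487170000000000049c1b000000000004be5100000000000487f90000000000045f8b00000000000446920000000000043e1e00000000000446920000000000045f8b00000000000487f9000000000004be510000000000049c1b0000000000048717000000000004800100000000000487170000000000049c1b000000000004be5100000000000487f90000000000045f8b00000000000446920000000000043e1e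
def w0 : Wt := ⟨WL0, WH0⟩
def dt2 (z i : ℕ) : ℕ := (ex z * ex i + ey z * ey i).toNat
def r2 (z : ℕ) : ℕ := sq (ex z) + sq (ey z)
def lower (X i τ : ℕ) : ℕ := bif Nat.blt τ (lane X i) then upd X i τ else X
noncomputable def strip (w : Wt) (sec : Bool) (z i : ℕ) : ℕ :=
  (bif sec then force (i + 1) fun i1 => min (dt2 z i) (dt2 z i1) else dt2 z i) * 4294967296 /
    (24 * lane w.wh z) - 1
def supp (s : St) (z i : ℕ) : ℕ := dt2 z i * 4294967296 / (24 * lane s.qh i)
def dots (z : ℕ) : ℕ :=
  lsub H56 ((ex z).toNat * EXP + (-ex z).toNat * (48 * O56 - EXP) + (ey z).toNat * EYP +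
    (-ey z).toNat * (48 * O56 - EYP)) (24 * ((ex z).natAbs + (ey z).natAbs) * O56)
def cover (s : St) (z τ : ℕ) : Bool :=
  Nat.beq (lsub H56 (536870912 * lmax H56 (dots z) (rotR 56 (dots z))) (3 * τ * s.sl)) 0
def lensL (w : Wt) (z y τ : ℕ) : Bool :=
  Nat.ble (lane w.wh z) (2 * lane w.wl y) && Nat.ble τ (2 * lane w.wh z) &&
    Nat.blt (4 * lane w.wh z * τ) (lane w.wh z * lane w.wh z + τ * τ + 100663296 * r2 z)
def lensH (w : Wt) (z y τ : ℕ) : Bool :=
  Nat.ble (lane w.wh y) (2 * lane w.wl z) && Nat.ble (lane w.wl z) (2 * τ) &&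
    Nat.blt (100663296 * r2 z + lane w.wl z * τ) (lane w.wl z * lane w.wl z + τ * τ)
/-- `t / 256` bounds the parameter of the point where the chord meets the ray `p` -/
def cross (s : St) (a b r p t : ℕ) : Bool :=
  Nat.ble 268435456 (t * lane s.ql p) || Nat.ble (77309411328 * r) (256 * (t * t * r * r) + 576 * (a * b))
def wid1 (G : Gx) (B : Bx) (fl : Bool) (m p t : ℕ) : Bool :=
  all4 B fun tr g1 g2 =>
    Nat.blt ((bif fl then 40001 else 40821) * 946296102467972335299682956000362496)
      (100 * (m * eLow G B (Int.ofNat (t * 4096) * ex p) (Int.ofNat (t * 4096) * ey p) tr g1 g2)) &&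
    (!fl || Nat.ble 292860508914212841455616
      (4 * eLow G B (Int.ofNat (t * 4096) * ex p) (Int.ofNat (t * 4096) * ey p) tr g1 g2))
/-- the quadratic form is at least `l / SG` times the square of the linear form `z` -/
def psd (B : Bx) (z l : ℕ) : Bool :=
  all4 B fun _ g1 g2 => Nat.ble (l * sq (ex z)) g1 && Nat.ble (l * sq (ey z)) g2 &&
    Nat.ble (l * sq (ex z) * (l * sq (ey z))) ((g1 - l * sq (ex z)) * (g2 - l * sq (ey z)))
noncomputable def width (G : Gx) (B : Bx) (s : St) (w : Wt) (fl : Bool) (z τ l t1 t2 : ℕ) : Bool :=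
  force ((z + 14) % 56) fun p => force ((z + 42) % 56) fun q =>
    psd B z l && (Nat.blt 6333186975989760 (l * ((lane w.wl z + τ) * (lane w.wl z + τ))) ||
      cross s (lane w.wl z) τ (r2 z) p t1 && cross s (lane w.wl z) τ (r2 z) q t2 &&
      wid1 G B fl (l * ((lane w.wl z + τ) * (lane w.wl z + τ))) p t1 &&
      wid1 G B fl (l * ((lane w.wl z + τ) * (lane w.wl z + τ))) q t2)
noncomputable def setWl (s : St) (w : Wt) (z τ : ℕ) : St × Wt :=
  force (raise w.wl z τ) fun x => (s, ⟨x, w.wh⟩)
noncomputable def setWh (s : St) (w : Wt) (z τ : ℕ) : St × Wt :=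
  force (lower w.wh z τ) fun x => (s, ⟨w.wl, x⟩)
noncomputable def op2 (G : Gx) (B : Bx) (s : St) (w : Wt) (kd z y i τ l t1 t2 : ℕ) (fl : Bool) :
    St × Wt :=
  bif Nat.beq kd 0 then forceS (setLo s fl i (strip w fl z i)) fun s' => (s', w) else
  bif Nat.beq kd 1 then setWl s w z (supp s z i) else
  bif Nat.beq kd 2 then bif cover s z τ then setWh s w z τ else (s, w) else
  bif Nat.beq kd 3 then bif lensL w z y τ then setWl s w y τ else (s, w) else
  bif Nat.beq kd 4 then bif lensH w z y τ then setWh s w y τ else (s, w) else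
  bif width G B s w fl z τ l t1 t2 then setWh s w y τ else (s, w)
noncomputable def op2W (G : Gx) (B : Bx) (s : St) (w : Wt) (x : ℕ) : St × Wt :=
  force (x >>> 3 % 64 % 56) fun z => force ((z + 28) % 56) fun y => force (x >>> 10 % 64 % 56) fun i =>
    op2 G B s w (x % 8) z y i (x >>> 16 % 524288) (x >>> 40 % 65536) (x >>> 64 % 4096)
      (x >>> 80 % 4096) (Nat.beq (x >>> 9 % 2) 1)
noncomputable def forceP {α : Type} (p : St × Wt) (k : St → Wt → α) : α :=
  Prod.rec (fun s w => St.rec (fun a b c d e f => Wt.rec (fun u v => k ⟨a, b, c, d, e, f⟩ ⟨u, v⟩) w) s) p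
noncomputable def ops2 (G : Gx) (B : Bx) (n : ℕ) : ℕ → St → Wt → St × Wt :=
  Nat.rec (motive := fun _ => ℕ → St → Wt → St × Wt) (fun _ s w => (s, w))
    (fun _ ih d s w => forceP (op2W G B s w (low 2 d)) fun s' w' =>
      force (d >>> 128) fun d' => ih d' s' w') n

/-! ### rows that depend on the supports -/

def fW (E a b : ℤ) : ℤ := a * a - a * b + b * b - (a - b) * E
def fC (r E a b : ℤ) : ℤ :=
  12 * fW E a b * r - 6 * E * E * r - fW E a b * fW E a b + 2 * E * a * b * (E - a + b)
def fA (r E a b : ℤ) : ℤ := 2 * (2 * a - b - E) * (2 * a - b - E) + 4 * fW E a b - 24 * r + 4 * E * b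
def fB (r E a b : ℤ) : ℤ := 2 * (2 * b - a + E) * (2 * b - a + E) + 4 * fW E a b - 24 * r - 4 * E * a
def mx4 (f : ℤ → ℤ → ℤ) (a0 a1 b0 b1 : ℤ) : ℤ :=
  max (max (f a0 b0) (f a0 b1)) (max (f a1 b0) (f a1 b1))
def kapZ (r E a0 a1 b0 b1 : ℤ) : ℤ :=
  8 * mx4 (fC r E) a0 a1 b0 b1 + (a1 - a0) * (a1 - a0) * max 0 (mx4 (fA r E) a0 a1 b0 b1) +
    (b1 - b0) * (b1 - b0) * max 0 (mx4 (fB r E) a0 a1 b0 b1)
def sd (a b : ℕ) : ℕ := adf a b * adf a b
def cN (r E a b : ℕ) : ℕ := 12 * (a * a + b * b + b * E) * r + 2 * E * a * b * (E + b) -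
  (12 * (a * b + a * E) * r + 6 * E * E * r + sd (a * a + b * b + b * E) (a * b + a * E) +
    2 * E * a * b * a)
def aN (r E a b : ℕ) : ℕ :=
  2 * sd (2 * a) (b + E) + 4 * (a * a + b * b + b * E) + 4 * E * b - (4 * (a * b + a * E) + 24 * r)
def bN (r E a b : ℕ) : ℕ :=
  2 * sd (2 * b + E) a + 4 * (a * a + b * b + b * E) - (4 * (a * b + a * E) + 24 * r + 4 * E * a)
def mxN (f : ℕ → ℕ → ℕ) (a0 a1 b0 b1 : ℕ) : ℕ :=
  max (max (f a0 b0) (f a0 b1)) (max (f a1 b0) (f a1 b1))
def kapN (r E a0 a1 b0 b1 : ℕ) : ℕ :=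
  8 * mxN (cN r E) a0 a1 b0 b1 + sd a1 a0 * mxN (aN r E) a0 a1 b0 b1 +
    sd b1 b0 * mxN (bN r E) a0 a1 b0 b1
def kap (w : Wt) (z y e : ℕ) : ℕ :=
  kapN (r2 z * 16777216) (e * 4096) (lane w.wl z) (lane w.wh z) (lane w.wl y) (lane w.wh y) /
    11258999068426240 + 1
def put (j : ℕ) (c : ℤ) : ℕ := c.toNat <<< (64 * j) + (-c).toNat <<< (64 * (11 + j))
/-- `3 T⁴ - 4 e T³ ≤ k`, `T = p y₀ + q y₁` -/
def rowT (p q e : ℤ) (k : ℕ) : ℕ :=
  put 0 (-4 * e * (p * p * p)) + put 1 (-12 * e * (p * p * q)) + put 2 (-12 * e * (p * q * q)) +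
    put 3 (-4 * e * (q * q * q)) + put 4 (12 * (p * p * p * p)) + put 5 (48 * (p * p * p * q)) +
    put 6 (72 * (p * p * q * q)) + put 7 (48 * (p * q * q * q)) + put 8 (12 * (q * q * q * q)) +
    k <<< 1408
noncomputable def rowC (w : Wt) (z e : ℕ) : ℕ :=
  force ((z + 28) % 56) fun y => force (kap w z y e) fun k =>
    bif Nat.ble k 33554432 then rowT (ex z) (ey z) (Int.ofNat e) k else 0
def SPK : ℕ := 4620
def kS (z : ℕ) : ℕ := lane WH0 z * SPK / 65536 + 1
/-- `T |y|² ≤ k`, not available if `θ = 4` -/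
def rowS (th z : ℕ) : ℕ := bif Nat.beq th 4 then 0 else
  put 0 (4096 * ex z) + put 1 (4096 * ey z) + put 2 (4096 * ex z) + put 3 (4096 * ey z) + kS z <<< 1408
noncomputable def rowOf (w : Wt) (th x : ℕ) : ℕ :=
  bif Nat.beq (x % 2) 0 then row4 (x >>> 1 % 16) (x >>> 7 % 16) (Nat.beq (x >>> 13 % 2) 1)
  else force (x >>> 1 % 64 % 56) fun z =>
    bif Nat.beq (x >>> 13 % 2) 1 then rowS th z else rowC w z (x >>> 7 % 64)
noncomputable def rows (w : Wt) (th n : ℕ) : ℕ → ℕ :=
  Nat.rec (motive := fun _ => ℕ → ℕ) (fun _ => 0)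
    (fun _ ih d => force (d >>> 64) ih + d % 4294967296 * rowOf w th (low 1 d >>> 32)) n

/-! ### trees -/

def eqW (w v : Wt) : Bool := Nat.beq w.wl v.wl && Nat.beq w.wh v.wh
def setX (c : Cm) (A : ℕ) : Cm := ⟨c.om, c.b1p, c.b1q, c.b2p, c.b2q, c.ka, c.ya, c.yb, A, c.mu⟩

end Pool.Agent.P.MP_2e1554_gt.Chk
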