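import Pool.Agent.P.MP_2e1554_gt.IsoSem
import Pool.Agent.P.MP_2e1554_gt.IsoChkX

/-! Meaning of the bounds for the support function. -/

open MeasureTheory Set Finset

namespace Pool.Agent.P.MP_2e1554_gt.Chk

/-- the linear form of node `z`, scale `4096` -/
noncomputable def lin (z : ℕ) (y : Fin 2 → ℝ) : ℝ := 4096 * ((ex z : ℝ) * y 0 + (ey z : ℝ) * y 1)

structure WOK (w : Wt) (K : Set (Fin 2 → ℝ)) : Prop where
  bl : Bd w.wl 56 (2 ^ 19)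
  bh : Bd w.wh 56 (2 ^ 19)
  lo : ∀ z < 56, ∃ y ∈ K, (dg w.wl z : ℝ) ≤ lin z y
  hi : ∀ z < 56, ∀ y ∈ K, lin z y ≤ (dg w.wh z : ℝ)

/-- bound for the vector `∫ y |y|²` -/
def Spin (K : Set (Fin 2 → ℝ)) : Prop := ∀ z < 56,
  4096 * ((ex z : ℝ) * (mo K 3 0 + mo K 1 2) + (ey z : ℝ) * (mo K 2 1 + mo K 0 3)) ≤ kS z * volume.real K
def SpinB : Prop := ∀ (g₁ g₂ v₁ v₂ J : ℝ) (K : Set (Fin 2 → ℝ)), Fx g₁ g₂ v₁ v₂ J K → Spin K

/-- real version of `fC` -/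
def fCr (r E a b : ℝ) : ℝ :=
  12 * (a * a - a * b + b * b - (a - b) * E) * r - 6 * E * E * r -
    (a * a - a * b + b * b - (a - b) * E) ^ 2 + 2 * E * a * b * (E - a + b)

theorem forceP_eq {α : Type} (p : St × Wt) (k : St → Wt → α) : forceP p k = k p.1 p.2 := rfl

end Pool.Agent.P.MP_2e1554_gt.Chk
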