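import Pool.Agent.P.MP_2e1554_gt.IsoC3P
import Pool.Agent.P.MP_2e1554_gt.IsoC3O
import Pool.Agent.P.MP_2e1554_gt.IsoC3R
import Pool.Agent.P.MP_2e1554_gt.IsoC3C
import Pool.Agent.P.MP_2e1554_gt.IsoSemW

/-! Boxes of parameters. -/

open MeasureTheory Set

namespace Pool.Agent.P.MP_2e1554_gt.Chk

def BoxOK (m0 m1 k0 k1 : ℕ) : Prop := TcAnti → ∀ (ψ : ℝ → ℝ) (m k V : ℝ) (i j : ℕ),
  Sh ψ m k V (i / 192) (j / 192) → 103923 ≤ 10 ^ 4 * V → (m0 : ℝ) ≤ 2 ^ 20 * m → 2 ^ 20 * m ≤ (m1 : ℝ) →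
    (k0 : ℝ) ≤ 2 ^ 20 * k → 2 ^ 20 * k ≤ (k1 : ℝ) →
      103923 + (tb i j : ℝ) ≤ 10 ^ 4 * V ∧ 103923 + (tb j i : ℝ) ≤ 10 ^ 4 * V

theorem box_m {m0 x m1 k0 k1 : ℕ} (l : BoxOK m0 x k0 k1) (r : BoxOK x m1 k0 k1) :
    BoxOK m0 m1 k0 k1 := by
  intro hA ψ m k V i j hS hV a b c d
  rcases le_total (2 ^ 20 * m) (x : ℝ) with h | h
  · exact l hA ψ m k V i j hS hV a h c d
  · exact r hA ψ m k V i j hS hV h b c d

theorem box_k {m0 m1 k0 x k1 : ℕ} (l : BoxOK m0 m1 k0 x) (r : BoxOK m0 m1 x k1) :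
    BoxOK m0 m1 k0 k1 := by
  intro hA ψ m k V i j hS hV a b c d
  rcases le_total (2 ^ 20 * k) (x : ℝ) with h | h
  · exact l hA ψ m k V i j hS hV a b c h
  · exact r hA ψ m k V i j hS hV a b h d

/-- a number in `[0, 1]` lies in one of `n` equal parts -/
theorem grid_c3 {x : ℝ} (hx : x ∈ Icc (0 : ℝ) 1) {n : ℕ} (hn : 0 < n) :
    ∃ i < n, (i : ℝ) ≤ n * x ∧ n * x ≤ i + 1 := by
  have n0 : (0 : ℝ) < n := by exact_mod_cast hn
  have h0 : 0 ≤ (n : ℝ) * x := mul_nonneg n0.le hx.1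
  rcases hx.2.eq_or_lt with rfl | h1
  · obtain ⟨q, rfl⟩ := Nat.exists_eq_add_one_of_ne_zero hn.ne'
    refine ⟨q, Nat.lt_succ_self q, ?_, ?_⟩ <;> push_cast <;> linarith
  · refine ⟨⌊(n : ℝ) * x⌋₊, (Nat.floor_lt h0).2 (mul_lt_of_lt_one_right n0 h1), Nat.floor_le h0,
      (Nat.lt_floor_add_one _).le⟩

private theorem j_mix {a b x : ℝ} (h0 : a ≤ x) (h1 : x ≤ b) :
    ∃ r ∈ Icc (0 : ℝ) 1, x = (1 - r) * a + r * b := by
  rcases (h0.trans h1).eq_or_lt with rfl | h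
  · exact ⟨0, ⟨le_rfl, zero_le_one⟩, by linarith⟩
  · have p : 0 < b - a := sub_pos.2 h
    refine ⟨(x - a) / (b - a), ⟨div_nonneg (by linarith) p.le, (div_le_one p).2 (by linarith)⟩, ?_⟩
    field_simp
    ring

private theorem j_pos {r a b : ℝ} (hr : r ∈ Icc (0 : ℝ) 1) (ha : a ∈ Icc (0 : ℝ) 16)
    (hb : b ∈ Icc (0 : ℝ) 16) : (1 - r) * a + r * b ∈ Icc (0 : ℝ) 16 := by
  have h1 := mul_le_mul_of_nonneg_left ha.2 (sub_nonneg.2 hr.2)
  have h2 := mul_le_mul_of_nonneg_left hb.2 hr.1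
  exact ⟨add_nonneg (mul_nonneg (sub_nonneg.2 hr.2) ha.1) (mul_nonneg hr.1 hb.1), by linarith⟩

private theorem j_two {T : ℝ → ℝ} (hT : Continuous T) (T0 : ∀ x, 0 ≤ T x) {r : ℝ}
    (hr : r ∈ Icc (0 : ℝ) 1) {l0 l1 m k m' k' p A B : ℝ}
    (hA : ∃ e0 ∈ Icc (0 : ℝ) 16, ∃ e1 ∈ Icc (0 : ℝ) 16, FF T e0 e1 l0 l1 m k p + cl3 e0 e1 ≤ A)
    (hB : ∃ e0 ∈ Icc (0 : ℝ) 16, ∃ e1 ∈ Icc (0 : ℝ) 16, FF T e0 e1 l0 l1 m' k' p + cl3 e0 e1 ≤ B) :
    ∃ e0 ∈ Icc (0 : ℝ) 16, ∃ e1 ∈ Icc (0 : ℝ) 16, FF T e0 e1 l0 l1 ((1 - r) * m + r * m')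
      ((1 - r) * k + r * k') p + cl3 e0 e1 ≤ (1 - r) * A + r * B := by
  obtain ⟨e0, a0, e1, a1, hA⟩ := hA
  obtain ⟨f0, b0, f1, b1, hB⟩ := hB
  refine ⟨_, j_pos hr a0 b0, _, j_pos hr a1 b1, ?_⟩
  have h1 := FF_conv hT T0 hr e0 e1 f0 f1 l0 l1 m k m' k' p
  have h2 := cl3_conv hr a0.1 a1.1 b0.1 b1.1
  have h3 := mul_le_mul_of_nonneg_left hA (sub_nonneg.2 hr.2)
  have h4 := mul_le_mul_of_nonneg_left hB hr.1
  linarith

private theorem j_blX (M0 M1 M2 M3 : ℕ) {n i j : ℕ} (hi : i ≤ n) (hj : j ≤ n) :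
    (blX n M0 M1 M2 M3 i j : ℝ) =
      (n - i) * ((n - j) * M0 + j * M1) + i * ((n - j) * M2 + j * M3) := by
  simp only [blX, nA, nS, nM]
  push_cast [Nat.cast_sub hi, Nat.cast_sub hj]
  ring

private theorem j_corner {n M0 M1 M2 M3 i j x y L : ℝ} (x0 : i ≤ x) (x1 : x ≤ i + 1) (y0 : j ≤ y)
    (y1 : y ≤ j + 1) (a : (n - i) * ((n - j) * M0 + j * M1) + i * ((n - j) * M2 + j * M3) ≤ L)
    (b : (n - i) * ((n - (j + 1)) * M0 + (j + 1) * M1) +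
      i * ((n - (j + 1)) * M2 + (j + 1) * M3) ≤ L)
    (c : (n - (i + 1)) * ((n - j) * M0 + j * M1) + (i + 1) * ((n - j) * M2 + j * M3) ≤ L)
    (d : (n - (i + 1)) * ((n - (j + 1)) * M0 + (j + 1) * M1) +
      (i + 1) * ((n - (j + 1)) * M2 + (j + 1) * M3) ≤ L) :
    (n - x) * ((n - y) * M0 + y * M1) + x * ((n - y) * M2 + y * M3) ≤ L := by
  have u0 := sub_nonneg.2 x0
  have u1 := sub_nonneg.2 x1
  have v0 := sub_nonneg.2 y0
  have v1 := sub_nonneg.2 y1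
  have a' := mul_le_mul_of_nonneg_left a (mul_nonneg u1 v1)
  have b' := mul_le_mul_of_nonneg_left b (mul_nonneg u1 v0)
  have c' := mul_le_mul_of_nonneg_left c (mul_nonneg u0 v1)
  have d' := mul_le_mul_of_nonneg_left d (mul_nonneg u0 v0)
  linarith

private theorem j_sbX (m0 m1 k0 k1 n M0 M1 M2 M3 i i1 j j1 : ℕ) :
    sbX m0 m1 k0 k1 n M0 M1 M2 M3 i i1 j j1 =
      sb1 (1048576 * n) (m0 * (n - i) + m1 * i) (m0 * (n - i1) + m1 * i1)
        (max (max (blX n M0 M1 M2 M3 i j) (blX n M0 M1 M2 M3 i j1))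
          (max (blX n M0 M1 M2 M3 i1 j) (blX n M0 M1 M2 M3 i1 j1)))
        (22136092888451461939200000000 * (n * n * (n * n)))
        (sgX (1048576 * n) (m0 * (n - i1) + m1 * i1) (k0 * (n - j) + k1 * j)) := by
  rw [sbX, force_eq, mxF_eq, mxF_eq, mxF_eq]
  rfl

theorem crt_sound {m0 m1 k0 k1 sa xa sb xb l0 l1 n np M0 d0 M1 d1 M2 d2 M3 d3 : ℕ}
    (h : crt m0 m1 k0 k1 sa xa sb xb l0 l1 n np M0 d0 M1 d1 M2 d2 M3 d3 (16384 - xb)
      (16384 - xa) = true) :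
    BoxOK m0 m1 k0 k1 := by
  simp only [crt, brand, Bool.and_eq_true, Nat.ble_eq] at h
  obtain ⟨⟨⟨⟨⟨⟨⟨⟨hx, hb⟩, hm⟩, hn⟩, c0⟩, c1⟩, c2⟩, c3⟩, hall⟩ := h
  have hb : xb ≤ 16384 := hb
  have hm : m1 ≤ 1048576 := hm
  have hn : 0 < n := hn
  intro hA ψ m k V i j hS hV a b c d
  have hm0 : m0 ≤ 1048576 := le_trans (by exact_mod_cast a.trans b) hm
  obtain ⟨r, hr, er⟩ := j_mix a b
  obtain ⟨t, ht, et⟩ := j_mix c d
  have em : m = (1 - r) * (m0 / 2 ^ 20) + r * (m1 / 2 ^ 20) := by linarith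
  have ek : k = (1 - t) * (k0 / 2 ^ 20) + t * (k1 / 2 ^ 20) := by linarith
  have nn : ∀ x : ℕ, (0 : ℝ) ≤ x / 2 ^ 20 := fun x => by positivity
  have id1 : ∀ y : ℝ, (1 - r) * y + r * y = y := fun y => by ring
  have id2 : ∀ y : ℝ, (1 - t) * y + t * y = y := fun y => by ring
  have hp : 0 < V ^ 2 * sv2 m k := mul_pos (pow_pos (by linarith) 2) hS.sp
  have hJ := c3_jensen2 hS.toSk (Tr_cont sa xa sb xb) (Tr_nonneg sa xa sb xb) (nn l0) (nn l1)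
    (W := 3 / (V ^ 2 * sv2 m k)) (fun e0 e1 => (div_le_iff₀' hp).2 (hS.hV e0 e1)) fun p hp => by
      have h := j_two (Tr_cont sa xa sb xb) (Tr_nonneg sa xa sb xb) hr
        (j_two (Tr_cont sa xa sb xb) (Tr_nonneg sa xa sb xb) ht
          (corX_sound hx hb hm0 c0 p hp) (corX_sound hx hb hm0 c1 p hp))
        (j_two (Tr_cont sa xa sb xb) (Tr_nonneg sa xa sb xb) ht
          (corX_sound hx hb hm c2 p hp) (corX_sound hx hb hm c3 p hp))
      rwa [id2, id2, id1, ← em, ← ek] at h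
  have hB : 1 ≤ V ^ 2 * sv2 m k *
      (((1 - r) * ((1 - t) * M0 + t * M1) + r * ((1 - t) * M2 + t * M3)) / 2 ^ 24) := by
    have h2 := (div_le_iff₀' hp).1 hJ
    linarith
  obtain ⟨i', hi, i0, i1⟩ := grid_c3 hr hn
  obtain ⟨j', hj, j0, j1⟩ := grid_c3 ht hn
  have e := allX_spec (allX_spec hall i' hi) j' hj
  rw [j_sbX] at e
  have n0 : (0 : ℝ) < n := by exact_mod_cast hn
  have hi1 : i' + 1 ≤ n := hi
  have hj1 : j' + 1 ≤ n := hj
  have dm : (0 : ℝ) ≤ m1 - m0 := by linarith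
  have dk : (0 : ℝ) ≤ k1 - k0 := by linarith
  have eN : ((1048576 * n : ℕ) : ℝ) * m = n * m0 + n * r * (m1 - m0) := by
    push_cast
    linear_combination (n : ℝ) * er
  have eK : ((1048576 * n : ℕ) : ℝ) * k = n * k0 + n * t * (k1 - k0) := by
    push_cast
    linear_combination (n : ℝ) * et
  have hb' : ((1048576 * n : ℕ) : ℝ) * m ≤ (m0 * (n - (i' + 1)) + m1 * (i' + 1) : ℕ) := by
    rw [eN]
    push_cast [Nat.cast_sub hi1]
    have := mul_le_mul_of_nonneg_right i1 dm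
    linarith
  refine sb1_sound hA hS hV (by positivity) ?_ hb' (sgX_ge hb' ?_) hB (D := 2 ^ 24 * n ^ 2)
    (by positivity) ?_ ?_ e
  · rw [eN]
    push_cast [Nat.cast_sub hi.le]
    have := mul_le_mul_of_nonneg_right i0 dm
    linarith
  · rw [eK]
    push_cast [Nat.cast_sub hj.le]
    have := mul_le_mul_of_nonneg_right j0 dk
    linarith
  · rw [Nat.cast_max, Nat.cast_max, Nat.cast_max, j_blX _ _ _ _ hi.le hj.le,
      j_blX _ _ _ _ hi.le hj1, j_blX _ _ _ _ hi1 hj.le, j_blX _ _ _ _ hi1 hj1, Nat.cast_add_one,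
      Nat.cast_add_one]
    refine le_trans (le_of_eq ?_) (j_corner i0 i1 j0 j1
      ((le_max_left _ _).trans (le_max_left _ _)) ((le_max_right _ _).trans (le_max_left _ _))
      ((le_max_left _ _).trans (le_max_right _ _)) ((le_max_right _ _).trans (le_max_right _ _)))
    ring
  · push_cast
    ring

theorem box_chk {t : Tc} {m0 m1 k0 k1 : ℕ} (h : chkC t m0 m1 k0 k1 = true) : BoxOK m0 m1 k0 k1 := by
  induction t generalizing m0 m1 k0 k1 with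
  | sm x l r ihl ihr =>
    have h' : (chkC l m0 x k0 k1 && chkC r x m1 k0 k1) = true := h
    rw [Bool.and_eq_true] at h'
    exact box_m (ihl h'.1) (ihr h'.2)
  | sk x l r ihl ihr =>
    have h' : (chkC l m0 m1 k0 x && chkC r m0 m1 x k1) = true := h
    rw [Bool.and_eq_true] at h'
    exact box_k (ihl h'.1) (ihr h'.2)
  | skip =>
    have h' : force (sgX 1048576 m1 k0) (sk1 m0 m1) = true := h
    rw [force_eq, sk1, bror, Bool.or_eq_true, Nat.beq_eq, Nat.beq_eq] at h'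
    intro hA ψ m k V i j hS hV a b c d
    have eN : ((1048576 : ℕ) : ℝ) = 2 ^ 20 := by norm_num
    have hs := sgX_ge (N := 1048576) (b := m1) (c := k0) (m := m) (k := k) (eN ▸ b) (eN ▸ c)
    rcases h' with h' | h'
    · have h2 : sgX 1048576 m1 k0 = 0 := h'
      rw [h2, eN, Nat.cast_zero] at hs
      have := hS.sp
      exact absurd hs (not_le.2 (by positivity))
    · have h2 : sb2 1048576 m0 m1 (sgX 1048576 m1 k0) = 0 := h'
      obtain ⟨t1, t2⟩ := sb2_ge hA hS (N := 1048576) (a := m0) (b := m1) (eN ▸ a) (eN ▸ b) hs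
      rw [h2, Nat.le_zero] at t1 t2
      rw [t1, t2, Nat.cast_zero, add_zero]
      exact ⟨hV, hV⟩
  | cert sa xa sb xb l0 l1 n np M0 d0 M1 d1 M2 d2 M3 d3 =>
    have h' : (force (16384 - xb) fun ya => force (16384 - xa)
      (crt m0 m1 k0 k1 sa xa sb xb l0 l1 n np M0 d0 M1 d1 M2 d2 M3 d3 ya)) = true := h
    rw [force_eq, force_eq] at h'
    exact crt_sound h'

private theorem j_up (x : ℕ) : (x : ℝ) ≤ (512 : ℝ) * (((x + 511) >>> 9 : ℕ) : ℝ) := by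
  rw [Nat.shiftRight_eq_div_pow]
  exact_mod_cast (by omega : x ≤ 512 * ((x + 511) / 2 ^ 9))

theorem c3_vol (hB : BoxOK 0 524288 0 87382) (hA : TcAnti) {K : Set (Fin 2 → ℝ)} (hK : Iso K)
    (har : 108 ≤ volume.real K ^ 2) {w : Wt} (hw : WOK w K) : (volC w : ℝ) ≤ 10 ^ 4 * volume.real K := by
  have x0 : ex 0 = 24 := by decide
  have y0 : ey 0 = 0 := by decide
  have x1 : ex 28 = -24 := by decide
  have y1 : ey 28 = 0 := by decide
  obtain ⟨ψ, m, k, hS⟩ := c3_red hK (a := ((lane w.wh 0 + 511) >>> 9 : ℕ) / 192)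
    (b := ((lane w.wh 28 + 511) >>> 9 : ℕ) / 192) fun y hy => by
      have h0 := hw.hi 0 (by norm_num) y hy
      have h1 := hw.hi 28 (by norm_num) y hy
      rw [lin, x0, y0, ← lane_eq] at h0
      rw [lin, x1, y1, ← lane_eq] at h1
      have u0 := j_up (lane w.wh 0)
      have u1 := j_up (lane w.wh 28)
      push_cast at h0 h1
      constructor <;> linarith
  have V0 : 0 ≤ volume.real K := measureReal_nonneg
  have hV : 103923 ≤ 10 ^ 4 * volume.real K :=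
    le_of_sq_le_sq (by linarith : (103923 : ℝ) ^ 2 ≤ (10 ^ 4 * volume.real K) ^ 2) (by positivity)
  have k0 := hS.toSk.k_nonneg
  obtain ⟨m0, m1⟩ := hS.toSk.m_mem
  have k1 : k ≤ 1 / 12 := by
    have := hS.sp
    rw [sv2] at this
    linarith [sq_nonneg (m - 1 / 2)]
  rw [volC, Nat.cast_add, Nat.cast_ofNat]
  rcases le_total m (1 / 2) with h | h
  · exact (hB hA ψ m k _ _ _ hS hV (by push_cast; linarith) (by push_cast; linarith)
      (by push_cast; linarith) (by push_cast; linarith)).1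
  · exact (hB hA _ (1 - m) k _ _ _ hS.mirror hV (by push_cast; linarith) (by push_cast; linarith)
      (by push_cast; linarith) (by push_cast; linarith)).2

end Pool.Agent.P.MP_2e1554_gt.Chk
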