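import Pool.Agent.P.MP_2e1554_gt.IsoC3J
import Pool.Agent.P.MP_2e1554_gt.IsoC3K0
import Pool.Agent.P.MP_2e1554_gt.IsoC3K1
import Pool.Agent.P.MP_2e1554_gt.IsoC3K2
import Pool.Agent.P.MP_2e1554_gt.IsoC3K3
import Pool.Agent.P.MP_2e1554_gt.IsoC3K4
import Pool.Agent.P.MP_2e1554_gt.IsoC3K5
import Pool.Agent.P.MP_2e1554_gt.IsoC3K6

set_option maxRecDepth 1000000
set_option linter.all false

namespace Pool.Agent.P.MP_2e1554_gt.Chk

theorem box_all : BoxOK 0 524288 0 87382 :=
(box_m
(box_chk ec0.down)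
(box_k
(box_k
(box_m
(box_k
(box_m
(box_k
(box_m
(box_k
(box_k
(box_chk ec1.down)
(box_chk ec2.down))
(box_chk ec3.down))
(box_k
(box_k
(box_m
(box_chk ec4.down)
(box_chk ec5.down))
(box_chk ec6.down))
(box_m
(box_chk ec7.down)
(box_chk ec8.down))))
(box_m
(box_chk ec9.down)
(box_k
(box_chk ec10.down)
(box_chk ec11.down))))
(box_k
(box_m
(box_k
(box_k
(box_chk ec12.down)
(box_chk ec13.down))
(box_chk ec14.down))
(box_k
(box_k
(box_chk ec15.down)
(box_chk ec16.down))
(box_chk ec17.down)))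
(box_m
(box_k
(box_chk ec18.down)
(box_chk ec19.down))
(box_k
(box_chk ec20.down)
(box_chk ec21.down)))))
(box_m
(box_chk ec22.down)
(box_k
(box_m
(box_k
(box_chk ec23.down)
(box_chk ec24.down))
(box_k
(box_chk ec25.down)
(box_chk ec26.down)))
(box_m
(box_chk ec27.down)
(box_k
(box_chk ec28.down)
(box_chk ec29.down))))))
(box_k
(box_m
(box_k
(box_m
(box_k
(box_chk ec30.down)
(box_chk ec31.down))
(box_chk ec32.down))
(box_m
(box_k
(box_chk ec33.down)
(box_chk ec34.down))
(box_chk ec35.down)))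
(box_m
(box_k
(box_chk ec36.down)
(box_chk ec37.down))
(box_k
(box_chk ec38.down)
(box_m
(box_chk ec39.down)
(box_m
(box_chk ec40.down)
(box_chk ec41.down))))))
(box_m
(box_k
(box_m
(box_k
(box_chk ec42.down)
(box_chk ec43.down))
(box_chk ec44.down))
(box_m
(box_k
(box_chk ec45.down)
(box_chk ec46.down))
(box_k
(box_chk ec47.down)
(box_chk ec48.down))))
(box_m
(box_k
(box_chk ec49.down)
(box_m
(box_chk ec50.down)
(box_chk ec51.down)))
(box_m
(box_k
(box_m
(box_chk ec52.down)
(box_chk ec53.down))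
(box_m
(box_chk ec54.down)
(box_k
(box_chk ec55.down)
(box_chk ec56.down))))
(box_k
(box_m
(box_k
(box_chk ec57.down)
(box_chk ec58.down))
(box_m
(box_chk ec59.down)
(box_chk ec60.down)))
(box_m
(box_k
(box_chk ec61.down)
(box_chk ec62.down))
(box_m
(box_chk ec63.down)
(box_k
(box_chk ec64.down)
(box_m
(box_chk ec65.down)
(box_chk ec66.down)))))))))))
(box_m
(box_k
(box_m
(box_chk ec67.down)
(box_k
(box_m
(box_chk ec68.down)
(box_k
(box_chk ec69.down)
(box_chk ec70.down)))
(box_chk ec71.down)))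
(box_chk ec72.down))
(box_k
(box_m
(box_m
(box_k
(box_k
(box_chk ec73.down)
(box_chk ec74.down))
(box_k
(box_chk ec75.down)
(box_chk ec76.down)))
(box_k
(box_k
(box_chk ec77.down)
(box_chk ec78.down))
(box_m
(box_chk ec79.down)
(box_chk ec80.down))))
(box_m
(box_k
(box_m
(box_chk ec81.down)
(box_chk ec82.down))
(box_m
(box_k
(box_chk ec83.down)
(box_chk ec84.down))
(box_k
(box_chk ec85.down)
(box_chk ec86.down))))
(box_m
(box_k
(box_m
(box_chk ec87.down)
(box_k
(box_chk ec88.down)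
(box_chk ec89.down)))
(box_k
(box_chk ec90.down)
(box_chk ec91.down)))
(box_k
(box_m
(box_k
(box_chk ec92.down)
(box_m
(box_chk ec93.down)
(box_chk ec94.down)))
(box_m
(box_k
(box_chk ec95.down)
(box_m
(box_chk ec96.down)
(box_chk ec97.down)))
(box_k
(box_m
(box_chk ec98.down)
(box_chk ec99.down))
(box_m
(box_chk ec100.down)
(box_chk ec101.down)))))
(box_m
(box_k
(box_chk ec102.down)
(box_chk ec103.down))
(box_k
(box_m
(box_chk ec104.down)
(box_m
(box_chk ec105.down)
(box_chk ec106.down)))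
(box_chk ec107.down)))))))
(box_m
(box_m
(box_chk ec108.down)
(box_k
(box_m
(box_chk ec109.down)
(box_chk ec110.down))
(box_chk ec111.down)))
(box_m
(box_k
(box_m
(box_chk ec112.down)
(box_chk ec113.down))
(box_chk ec114.down))
(box_k
(box_m
(box_k
(box_chk ec115.down)
(box_chk ec116.down))
(box_k
(box_chk ec117.down)
(box_chk ec118.down)))
(box_chk ec119.down)))))))
(box_chk ec120.down)))
theorem tc_anti : TcAnti := anti_chk ecA.down ecB.down

end Pool.Agent.P.MP_2e1554_gt.Chk
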