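import Pool.Agent.P.MP_2e1554_gt.IsoDefs

open MeasureTheory Set Finset Matrix Filter Topology Pointwise

namespace Pool.Agent.P.MP_2e1554_gt

variable {n : ℕ}

theorem Marg.one_nonneg {k : ℕ} {p : ℝ → ℝ} {α β V : ℝ} (h : Marg k p α β V) :
    ∀ u ∈ Set.Icc α β, 0 ≤ p u := by
  obtain ⟨q, -, hq, hp⟩ := h.root
  intro u hu
  rw [hp u hu]
  exact pow_nonneg (hq u hu) k

theorem Marg.one_int {k : ℕ} {p : ℝ → ℝ} {α β V : ℝ} (h : Marg k p α β V) {f : ℝ → ℝ}
    (hf : Continuous f) : IntegrableOn (fun u => f u * p u) (Set.Icc α β) :=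
  h.int.continuousOn_mul hf.continuousOn isCompact_Icc

/-- integral of `p` against a monic quadratic -/
theorem Marg.one_quad {k : ℕ} {p : ℝ → ℝ} {α β V : ℝ} (h : Marg k p α β V) (y z : ℝ) :
    ∫ u in Set.Icc α β, p u * ((u - y) * (u - z)) = V + y * z * V := by
  have h1 : IntegrableOn (fun u => u * p u) (Set.Icc α β) := h.one_int continuous_id
  have h2 : IntegrableOn (fun u => u ^ 2 * p u) (Set.Icc α β) := h.one_int (continuous_pow 2)
  have e : (fun u => p u * ((u - y) * (u - z))) =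
      fun u => (u ^ 2 * p u - (y + z) * (u * p u)) + y * z * p u := by
    funext u; ring
  have h3 : IntegrableOn (fun u => u ^ 2 * p u - (y + z) * (u * p u)) (Set.Icc α β) :=
    h2.sub (h1.const_mul _)
  rw [e, integral_add h3 (h.int.const_mul _),
    integral_sub h2 (h1.const_mul _), integral_const_mul, integral_const_mul, h.m0, h.m1, h.m2]
  ring

theorem Marg.pos_right {k : ℕ} {p : ℝ → ℝ} {α β V : ℝ} (h : Marg k p α β V) : 0 < β := by
  have h1 := h.one_quad α β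
  have h2 : ∫ u in Set.Icc α β, p u * ((u - α) * (u - β)) ≤ 0 := by
    refine setIntegral_nonpos measurableSet_Icc fun u hu => ?_
    exact mul_nonpos_of_nonneg_of_nonpos (h.one_nonneg u hu)
      (mul_nonpos_of_nonneg_of_nonpos (by linarith [hu.1]) (by linarith [hu.2]))
  have hV := h.pos
  have hlt := h.lt
  by_contra hb
  push Not at hb
  have : 0 ≤ α * β := mul_nonneg_of_nonpos_of_nonpos (by linarith) hb
  nlinarith [mul_nonneg this hV.le]

/-- two crossing points of `p` with a truncated cone -/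
theorem Marg.one_cross {k : ℕ} {p : ℝ → ℝ} {α β V : ℝ} (h : Marg k p α β V) (c u0 : ℝ) :
    ∃ y ∈ Set.Icc α β, ∃ z ∈ Set.Icc α β, ∀ u ∈ Set.Icc α β,
      p u * ((u - y) * (u - z)) ≤ (max (c * (u - u0)) 0) ^ k * ((u - y) * (u - z)) := by
  obtain ⟨q, hc, hq, hp⟩ := h.root
  set S : Set ℝ := {u | u ∈ Set.Icc α β ∧ c * (u - u0) ≤ q u} with hS
  have hoff : ∀ u ∈ Set.Icc α β, u ∉ S → p u ≤ (max (c * (u - u0)) 0) ^ k := by
    intro u hu hn
    have : q u < c * (u - u0) := by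
      by_contra hh
      exact hn ⟨hu, not_lt.mp hh⟩
    rw [hp u hu]
    exact pow_le_pow_left₀ (hq u hu) (le_trans this.le (le_max_left _ _)) k
  have hon : ∀ u ∈ S, (max (c * (u - u0)) 0) ^ k ≤ p u := by
    intro u hu
    rw [hp u hu.1]
    exact pow_le_pow_left₀ (le_max_right _ _) (max_le hu.2 (hq u hu.1)) k
  rcases S.eq_empty_or_nonempty with he | hne
  · refine ⟨α, ⟨le_rfl, h.lt.le⟩, α, ⟨le_rfl, h.lt.le⟩, fun u hu => ?_⟩
    exact mul_le_mul_of_nonneg_right (hoff u hu (by rw [he]; exact Set.notMem_empty u))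
      (mul_self_nonneg _)
  · have hbb : BddBelow S := ⟨α, fun u hu => hu.1.1⟩
    have hba : BddAbove S := ⟨β, fun u hu => hu.1.2⟩
    obtain ⟨s, hs⟩ := id hne
    have hconv : Convex ℝ S := by
      intro a ha b hb l m hl hm hlm
      refine ⟨convex_Icc α β ha.1 hb.1 hl hm hlm, ?_⟩
      have h1 := hc.2 ha.1 hb.1 hl hm hlm
      simp only [smul_eq_mul] at h1 ⊢
      have h2 := mul_le_mul_of_nonneg_left ha.2 hl
      have h3 := mul_le_mul_of_nonneg_left hb.2 hm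
      have h4 : c * (l * a + m * b - u0) = l * (c * (a - u0)) + m * (c * (b - u0)) := by
        have : u0 = (l + m) * u0 := by rw [hlm, one_mul]
        conv_lhs => rw [this]
        ring
      linarith
    refine ⟨sInf S, ⟨le_csInf hne fun u hu => hu.1.1, (csInf_le hbb hs).trans hs.1.2⟩,
      sSup S, ⟨hs.1.1.trans (le_csSup hba hs), csSup_le hne fun u hu => hu.1.2⟩, fun u hu => ?_⟩
    by_cases hu' : u ∈ S
    · exact mul_le_mul_of_nonpos_right (hon u hu')
        (mul_nonpos_of_nonneg_of_nonpos (sub_nonneg.mpr (csInf_le hbb hu'))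
          (sub_nonpos.mpr (le_csSup hba hu')))
    · refine mul_le_mul_of_nonneg_right (hoff u hu hu') ?_
      have hle : sInf S ≤ sSup S := (csInf_le hbb hs).trans (le_csSup hba hs)
      by_cases h1 : u ≤ sInf S
      · exact mul_nonneg_of_nonpos_of_nonpos (by linarith) (by linarith)
      by_cases h2 : sSup S ≤ u
      · exact mul_nonneg (by linarith) (by linarith)
      exfalso
      push Not at h1 h2
      obtain ⟨a, ha, hau⟩ := exists_lt_of_csInf_lt hne h1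
      obtain ⟨b, hb, hub⟩ := exists_lt_of_lt_csSup hne h2
      exact hu' (hconv.ordConnected.out ha hb ⟨hau.le, hub.le⟩)

theorem one_poly (a b c0 c1 c2 c3 c4 : ℝ) :
    ∫ u in a..b, (c0 + c1 * u + c2 * u ^ 2 + c3 * u ^ 3 + c4 * u ^ 4) =
      c0 * (b - a) + c1 * (b ^ 2 - a ^ 2) / 2 + c2 * (b ^ 3 - a ^ 3) / 3 +
        c3 * (b ^ 4 - a ^ 4) / 4 + c4 * (b ^ 5 - a ^ 5) / 5 := by
  have hd : ∀ u ∈ Set.uIcc a b, HasDerivAt
      (fun u : ℝ => c0 * u + c1 / 2 * u ^ 2 + c2 / 3 * u ^ 3 + c3 / 4 * u ^ 4 + c4 / 5 * u ^ 5)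
      (c0 + c1 * u + c2 * u ^ 2 + c3 * u ^ 3 + c4 * u ^ 4) u := by
    intro u _
    have := (((((hasDerivAt_id u).const_mul c0).add ((hasDerivAt_pow 2 u).const_mul (c1 / 2))).add
      ((hasDerivAt_pow 3 u).const_mul (c2 / 3))).add ((hasDerivAt_pow 4 u).const_mul (c3 / 4))).add
      ((hasDerivAt_pow 5 u).const_mul (c4 / 5))
    refine HasDerivAt.congr_deriv this ?_
    push_cast
    ring
  rw [intervalIntegral.integral_eq_sub_of_hasDerivAt hd
    (Continuous.intervalIntegrable (by fun_prop) _ _)]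
  ring

/-- the comparison with a cone with apex `u0 ≤ β` -/
theorem Marg.one_cmp {k : ℕ} {p : ℝ → ℝ} {α β V : ℝ} (h : Marg (k + 1) p α β V) {c u0 : ℝ}
    (hc : 0 ≤ c) (hu : u0 ≤ β) :
    ∃ y z : ℝ, ∃ E : ℝ, 0 ≤ E ∧
      (u0 ≤ α → ∫ u in u0..α, (c * (u - u0)) ^ (k + 1) * (α - u) ^ 2 ≤ E) ∧
      V + y * z * V + E ≤ ∫ u in u0..β, (c * (u - u0)) ^ (k + 1) * ((u - y) * (u - z)) := by
  obtain ⟨y, hy, z, hz, hcr⟩ := h.one_cross c u0
  set g : ℝ → ℝ := fun u => (max (c * (u - u0)) 0) ^ (k + 1) * ((u - y) * (u - z)) with hg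
  have hgc : Continuous g := by rw [hg]; fun_prop
  have h1 : V + y * z * V ≤ ∫ u in α..β, g u := by
    rw [← h.one_quad y z, intervalIntegral.integral_of_le h.lt.le, ← integral_Icc_eq_integral_Ioc]
    refine setIntegral_mono_on ?_ (hgc.continuousOn.integrableOn_compact isCompact_Icc)
      measurableSet_Icc hcr
    have := h.one_int (f := fun u => (u - y) * (u - z)) (by fun_prop)
    simpa only [mul_comm] using this
  have h2 : (∫ u in u0..α, g u) + ∫ u in α..β, g u = ∫ u in u0..β, g u :=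
    intervalIntegral.integral_add_adjacent_intervals (hgc.intervalIntegrable _ _)
      (hgc.intervalIntegrable _ _)
  have h3 : ∫ u in u0..β, g u = ∫ u in u0..β, (c * (u - u0)) ^ (k + 1) * ((u - y) * (u - z)) := by
    refine intervalIntegral.integral_congr fun u hu' => ?_
    rw [Set.uIcc_of_le hu] at hu'
    simp only [hg]
    rw [max_eq_left (mul_nonneg hc (sub_nonneg.mpr hu'.1))]
  have h4 : u0 ≤ α → ∫ u in u0..α, (c * (u - u0)) ^ (k + 1) * (α - u) ^ 2 ≤ ∫ u in u0..α, g u := by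
    intro hle
    refine intervalIntegral.integral_mono_on hle (Continuous.intervalIntegrable (by fun_prop) _ _)
      (hgc.intervalIntegrable _ _) fun u hu' => ?_
    simp only [hg]
    have h0 := mul_nonneg hc (sub_nonneg.mpr hu'.1)
    rw [max_eq_left h0]
    refine mul_le_mul_of_nonneg_left ?_ (pow_nonneg h0 _)
    have a1 : 0 ≤ α - u := sub_nonneg.mpr hu'.2
    have a2 : α - u ≤ y - u := by linarith [hy.1]
    have a3 : α - u ≤ z - u := by linarith [hz.1]
    have := mul_le_mul a2 a3 a1 (a1.trans a2)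
    nlinarith
  refine ⟨y, z, ∫ u in u0..α, g u, ?_, h4, by linarith⟩
  rcases le_total u0 α with hle | hle
  · refine le_trans ?_ (h4 hle)
    refine intervalIntegral.integral_nonneg hle fun u hu' => ?_
    exact mul_nonneg (pow_nonneg (mul_nonneg hc (sub_nonneg.mpr hu'.1)) _) (sq_nonneg _)
  · have : ∫ u in u0..α, g u = ∫ _ in u0..α, (0 : ℝ) := by
      refine intervalIntegral.integral_congr fun u hu' => ?_
      rw [Set.uIcc_of_ge hle] at hu'
      simp only [hg]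
      rw [max_eq_right (mul_nonpos_of_nonneg_of_nonpos hc (sub_nonpos.mpr hu'.2))]
      simp
    rw [this]
    simp

theorem Marg.one {p : ℝ → ℝ} {α β V : ℝ} (h : Marg 1 p α β V) : 2 ≤ β ^ 2 := by
  have hβ := h.pos_right
  have hV := h.pos
  obtain ⟨c, hc0, hc⟩ : ∃ c : ℝ, 0 ≤ c ∧ c * (9 * β ^ 2) = 2 * V :=
    ⟨2 * V / (9 * β ^ 2), by positivity, by field_simp⟩
  obtain ⟨y, z, E, hE, -, h1⟩ := Marg.one_cmp (k := 0) h (u0 := -2 * β) hc0 (by linarith)
  have e : (fun u : ℝ => (c * (u - -2 * β)) ^ (0 + 1) * ((u - y) * (u - z))) = fun u =>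
      c * (2 * β * y * z) + c * (y * z - 2 * β * (y + z)) * u + c * (2 * β - (y + z)) * u ^ 2 +
        c * u ^ 3 + 0 * u ^ 4 := by
    funext u; ring
  rw [e, one_poly] at h1
  have h2 : V + y * z * V + E ≤ (c * (9 * β ^ 2)) / 2 * (y * z + β ^ 2 / 2) := by
    refine h1.trans (le_of_eq ?_)
    ring
  rw [hc] at h2
  have h3 : V * 2 ≤ V * β ^ 2 := by nlinarith
  exact le_of_mul_le_mul_left h3 hV

theorem Marg.one_two {p : ℝ → ℝ} {α β V : ℝ} (h : Marg 2 p α β V) :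
    ∃ E : ℝ, 0 ≤ E ∧ (-3 * β ≤ α → (3 * β + α) ^ 5 ≤ 640 * β ^ 3 * E) ∧
      1 + E ≤ 3 / 5 * β ^ 2 := by
  have hβ := h.pos_right
  have hV := h.pos
  obtain ⟨c, hc0, hc⟩ : ∃ c : ℝ, 0 ≤ c ∧ c ^ 2 * (64 * β ^ 3) = 3 * V :=
    ⟨Real.sqrt (3 * V / (64 * β ^ 3)), Real.sqrt_nonneg _, by
      rw [Real.sq_sqrt (by positivity)]; field_simp⟩
  obtain ⟨y, z, E, hE, h0, h1⟩ := Marg.one_cmp (k := 1) h (u0 := -3 * β) hc0 (by linarith)
  have e : (fun u : ℝ => (c * (u - -3 * β)) ^ (1 + 1) * ((u - y) * (u - z))) = fun u =>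
      c ^ 2 * (9 * β ^ 2 * (y * z)) + c ^ 2 * (6 * β * (y * z) - 9 * β ^ 2 * (y + z)) * u +
        c ^ 2 * (y * z - 6 * β * (y + z) + 9 * β ^ 2) * u ^ 2 +
        c ^ 2 * (6 * β - (y + z)) * u ^ 3 + c ^ 2 * u ^ 4 := by
    funext u; ring
  rw [e, one_poly] at h1
  have h2 : V + y * z * V + E ≤ (c ^ 2 * (64 * β ^ 3)) / 3 * (y * z + 3 / 5 * β ^ 2) := by
    refine h1.trans (le_of_eq ?_)
    ring
  rw [hc] at h2
  refine ⟨E / V, div_nonneg hE hV.le, fun hle => ?_, ?_⟩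
  · have h3 := h0 hle
    have e' : (fun u : ℝ => (c * (u - -3 * β)) ^ (1 + 1) * (α - u) ^ 2) = fun u =>
        c ^ 2 * (9 * β ^ 2 * α ^ 2) + c ^ 2 * (6 * β * α ^ 2 - 18 * β ^ 2 * α) * u +
          c ^ 2 * (α ^ 2 - 12 * β * α + 9 * β ^ 2) * u ^ 2 +
          c ^ 2 * (6 * β - 2 * α) * u ^ 3 + c ^ 2 * u ^ 4 := by
      funext u; ring
    rw [e', one_poly] at h3
    have h4 : c ^ 2 * (3 * β + α) ^ 5 / 30 ≤ E := by
      refine le_trans (le_of_eq ?_) h3
      ring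
    have h5 : 640 * β ^ 3 * (c ^ 2 * (3 * β + α) ^ 5 / 30) ≤ 640 * β ^ 3 * E :=
      mul_le_mul_of_nonneg_left h4 (by positivity)
    have h6 : 640 * β ^ 3 * (c ^ 2 * (3 * β + α) ^ 5 / 30) = (3 * β + α) ^ 5 * V := by
      have : V = c ^ 2 * (64 * β ^ 3) / 3 := by linarith
      rw [this]; ring
    rw [← mul_div_assoc, le_div_iff₀ hV]
    linarith
  · have : E / V ≤ 3 / 5 * β ^ 2 - 1 := by
      rw [div_le_iff₀ hV]
      nlinarith
    linarith

theorem Marg.two {p : ℝ → ℝ} {α β V : ℝ} (h : Marg 2 p α β V) : 5 / 3 ≤ β ^ 2 := by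
  obtain ⟨E, h0, -, h1⟩ := h.one_two
  linarith

end Pool.Agent.P.MP_2e1554_gt
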