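import Pool.Agent.P.MP_2e1554_gt.IsoAff

open MeasureTheory Set Finset Matrix Filter Topology Pointwise

namespace Pool.Agent.P.MP_2e1554_gt

variable {n : ℕ}

lemma rot_house {m : ℕ} (v u : Fin m → ℝ) (h : u ⬝ᵥ u = v ⬝ᵥ v) :
    ∃ O : Matrix (Fin m) (Fin m) ℝ, Oᵀ * O = 1 ∧ O *ᵥ v = u := by
  by_cases hw : v - u = 0
  · exact ⟨1, by simp, by rw [one_mulVec, sub_eq_zero.mp hw]⟩
  set w := v - u with hwdef
  have hs : w ⬝ᵥ w ≠ 0 := fun h0 => hw (dotProduct_self_eq_zero.mp h0)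
  have h2 : w ⬝ᵥ w = 2 * (w ⬝ᵥ v) := by
    simp only [hwdef, sub_dotProduct, dotProduct_sub, h, dotProduct_comm v u]
    ring
  have hWW : vecMulVec w w * vecMulVec w w = (w ⬝ᵥ w) • vecMulVec w w := by
    ext i j
    simp only [Matrix.mul_apply, vecMulVec_apply, Matrix.smul_apply, smul_eq_mul, dotProduct,
      Finset.sum_mul]
    exact Finset.sum_congr rfl fun k _ => by ring
  have hWv : vecMulVec w w *ᵥ v = (w ⬝ᵥ v) • w := by
    ext i
    simp only [mulVec, vecMulVec_apply, dotProduct, Pi.smul_apply, smul_eq_mul, Finset.sum_mul]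
    exact Finset.sum_congr rfl fun k _ => by ring
  refine ⟨1 - (2 / (w ⬝ᵥ w)) • vecMulVec w w, ?_, ?_⟩
  · rw [transpose_sub, transpose_one, transpose_smul, transpose_vecMulVec, sub_mul, mul_sub,
      mul_sub, Matrix.one_mul, Matrix.one_mul, Matrix.mul_one, Matrix.smul_mul, Matrix.mul_smul,
      hWW, smul_smul, smul_smul]
    have : 2 / (w ⬝ᵥ w) * (2 / (w ⬝ᵥ w)) * (w ⬝ᵥ w) = 2 / (w ⬝ᵥ w) + 2 / (w ⬝ᵥ w) := by
      field_simp; ring
    rw [this, add_smul]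
    abel
  · rw [sub_mulVec, one_mulVec, smul_mulVec, hWv, smul_smul]
    have : 2 / (w ⬝ᵥ w) * (w ⬝ᵥ v) = 1 := by
      rw [div_mul_eq_mul_div, ← h2, div_self hs]
    rw [this, one_smul, hwdef]
    abel

lemma rot_self_nonneg {m : ℕ} (v : Fin m → ℝ) : 0 ≤ v ⬝ᵥ v :=
  Finset.sum_nonneg fun i _ => mul_self_nonneg (v i)

lemma exists_rot (v : Fin (n + 1) → ℝ) : ∃ O : Matrix (Fin (n + 1)) (Fin (n + 1)) ℝ,
    Oᵀ * O = 1 ∧ O *ᵥ v = Pi.single 0 (Real.sqrt (v ⬝ᵥ v)) := by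
  apply rot_house
  rw [single_dotProduct, Pi.single_eq_same, Real.mul_self_sqrt (rot_self_nonneg v)]

lemma rot_dot {O : Matrix (Fin n) (Fin n) ℝ} (hO : Oᵀ * O = 1) (x y : Fin n → ℝ) :
    (O *ᵥ x) ⬝ᵥ (O *ᵥ y) = x ⬝ᵥ y := by
  rw [dotProduct_mulVec, ← mulVec_transpose, mulVec_mulVec, hO, one_mulVec]

lemma rot_det {O : Matrix (Fin n) (Fin n) ℝ} (hO : Oᵀ * O = 1) : |O.det| = 1 := by
  have h := congrArg Matrix.det hO
  rw [det_mul, det_transpose, det_one] at h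
  rcases mul_self_eq_one_iff.mp h with h | h <;> simp [h]

lemma rot_det_ne {O : Matrix (Fin n) (Fin n) ℝ} (hO : Oᵀ * O = 1) : O.det ≠ 0 := fun h => by
  simpa [h] using rot_det hO

lemma rot_right {O : Matrix (Fin n) (Fin n) ℝ} (hO : Oᵀ * O = 1) : O * Oᵀ = 1 :=
  mul_eq_one_comm.mp hO

lemma rot_back {O : Matrix (Fin n) (Fin n) ℝ} (hO : Oᵀ * O = 1) (x : Fin n → ℝ) :
    O *ᵥ (Oᵀ *ᵥ x) = x := by
  rw [mulVec_mulVec, rot_right hO, one_mulVec]

lemma rot_mem_aff {O : Matrix (Fin n) (Fin n) ℝ} (hO : Oᵀ * O = 1) (K : Set (Fin n → ℝ))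
    (x : Fin n → ℝ) : O *ᵥ x ∈ aff O 0 K ↔ x ∈ K := by
  constructor
  · rintro ⟨y, hy, e⟩
    have e' : O *ᵥ y = O *ᵥ x := by simpa using e
    have := congrArg (fun z => Oᵀ *ᵥ z) e'
    simp only [mulVec_mulVec, hO, one_mulVec] at this
    exact this ▸ hy
  · exact fun hx => ⟨x, hx, by simp⟩

lemma rot_set_ext {O : Matrix (Fin n) (Fin n) ℝ} (hO : Oᵀ * O = 1) {K L : Set (Fin n → ℝ)}
    (h : ∀ x, O *ᵥ x ∈ L ↔ x ∈ K) : L = aff O 0 K := by
  ext y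
  rw [← rot_back hO y, rot_mem_aff hO, h]

lemma rot_integral {K : Set (Fin n → ℝ)} (hK : MeasurableSet K) {O : Matrix (Fin n) (Fin n) ℝ}
    (hO : Oᵀ * O = 1) (f : (Fin n → ℝ) → ℝ) :
    ∫ x in aff O 0 K, f x = ∫ x in K, f (O *ᵥ x) := by
  rw [integral_aff hK (rot_det_ne hO), rot_det hO, one_mul]
  simp only [add_zero]

lemma rot_vol (K : Set (Fin n → ℝ)) {O : Matrix (Fin n) (Fin n) ℝ} (hO : Oᵀ * O = 1) :
    volume.real (aff O 0 K) = volume.real K := by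
  rw [vol_aff, rot_det hO, one_mul]

lemma Iso.rot {K : Set (Fin n → ℝ)} (hK : Iso K) {O : Matrix (Fin n) (Fin n) ℝ}
    (hO : Oᵀ * O = 1) : Iso (aff O 0 K) where
  toBody := hK.toBody.aff (rot_det_ne hO) 0
  m1 i := by
    rw [rot_integral hK.cpt.measurableSet hO]
    exact hK.int_dot (O i)
  m2 i j := by
    rw [rot_integral hK.cpt.measurableSet hO, rot_vol K hO]
    have h1 : ∫ x in K, (O *ᵥ x) i * (O *ᵥ x) j = volume.real K * (O i ⬝ᵥ O j) :=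
      hK.int_dot_mul (O i) (O j)
    have h2 : O i ⬝ᵥ O j = (O * Oᵀ) i j := rfl
    rw [h1, h2, rot_right hO, Matrix.one_apply]
    split_ifs <;> simp

open Classical in
lemma poly_rot (A : Finset (Fin n → ℝ)) {O : Matrix (Fin n) (Fin n) ℝ} (hO : Oᵀ * O = 1) :
    poly (A.image fun a => O *ᵥ a) = aff O 0 (poly A) := by
  refine rot_set_ext hO fun x => ?_
  simp only [poly, Set.mem_ofPred_eq, Finset.forall_mem_image, rot_dot hO]

open Classical in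
lemma cone_rot (A : Finset (Fin n → ℝ)) (a : Fin n → ℝ) {O : Matrix (Fin n) (Fin n) ℝ}
    (hO : Oᵀ * O = 1) : cone (A.image fun a => O *ᵥ a) (O *ᵥ a) = aff O 0 (cone A a) := by
  refine rot_set_ext hO fun x => ?_
  simp only [cone, Set.mem_ofPred_eq, Finset.forall_mem_image, rot_dot hO]

lemma rot_cont_dot (a : Fin n → ℝ) : Continuous fun x : Fin n → ℝ => a ⬝ᵥ x := by
  unfold dotProduct
  fun_prop

lemma measurableSet_cone (A : Finset (Fin n → ℝ)) (a : Fin n → ℝ) : MeasurableSet (cone A a) := by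
  have : cone A a = {x | 0 < a ⬝ᵥ x} ∩ ⋂ a' ∈ A, {x | a' ⬝ᵥ x ≤ a ⬝ᵥ x} := by
    ext x
    simp [cone]
  rw [this]
  exact (isOpen_lt continuous_const (rot_cont_dot a)).measurableSet.inter
    (isClosed_biInter fun a' _ => isClosed_le (rot_cont_dot a') (rot_cont_dot a)).measurableSet

open Classical in
lemma wt_rot (A : Finset (Fin n → ℝ)) (a : Fin n → ℝ) {O : Matrix (Fin n) (Fin n) ℝ}
    (hO : Oᵀ * O = 1) : wt (A.image fun a => O *ᵥ a) (O *ᵥ a) = wt A a := by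
  unfold wt
  rw [cone_rot A a hO, rot_integral (measurableSet_cone A a) hO]
  simp only [rot_dot hO]

open Classical in
lemma sol_rot (A : Finset (Fin n → ℝ)) (a : Fin n → ℝ) {O : Matrix (Fin n) (Fin n) ℝ}
    (hO : Oᵀ * O = 1) : sol (A.image fun a => O *ᵥ a) (O *ᵥ a) = sol A a := by
  unfold sol
  rw [← rot_vol (cone A a ∩ {x | x ⬝ᵥ x ≤ 1}) hO]
  congr 1
  refine rot_set_ext hO fun x => ?_
  rw [cone_rot A a hO, Set.mem_inter_iff, Set.mem_inter_iff, rot_mem_aff hO]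
  simp only [Set.mem_ofPred_eq, rot_dot hO]

open Classical in
lemma Crit.rot {A : Finset (Fin n → ℝ)} (hA : Crit A) {O : Matrix (Fin n) (Fin n) ℝ}
    (hO : Oᵀ * O = 1) : Crit (A.image fun a => O *ᵥ a) := by
  intro a' ha' b
  obtain ⟨a, ha, rfl⟩ := Finset.mem_image.mp ha'
  rw [cone_rot A a hO, rot_integral (measurableSet_cone A a) hO, ← rot_back hO b]
  simp only [rot_dot hO]
  exact hA a ha _

/-- reduction of a facetwise inequality to facets orthogonal to the first coordinate -/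
theorem facet_wlog {P : ℝ → ℝ → ℝ → ℝ → Prop}
    (H : ∀ (A : Finset (Fin (n + 1) → ℝ)) (h : ℝ), Iso (poly A) → Crit A → 0 < h →
      Pi.single 0 h⁻¹ ∈ A → P (volume.real (poly A)) (h⁻¹ ^ 2) (wt A (Pi.single 0 h⁻¹))
        (sol A (Pi.single 0 h⁻¹)))
    {A : Finset (Fin (n + 1) → ℝ)} (hA : Iso (poly A)) (hc : Crit A) {a : Fin (n + 1) → ℝ}
    (ha : a ∈ A) (h0 : a ≠ 0) : P (volume.real (poly A)) (a ⬝ᵥ a) (wt A a) (sol A a) := by
  classical
  obtain ⟨O, hO, hOa⟩ := exists_rot a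
  have hpos : 0 < a ⬝ᵥ a :=
    lt_of_le_of_ne (rot_self_nonneg a) fun h => h0 (dotProduct_self_eq_zero.mp h.symm)
  have key := H (A.image fun a => O *ᵥ a) (Real.sqrt (a ⬝ᵥ a))⁻¹
    (by rw [poly_rot A hO]; exact hA.rot hO) (hc.rot hO)
    (inv_pos.mpr (Real.sqrt_pos.mpr hpos))
    (by rw [inv_inv, ← hOa]; exact Finset.mem_image_of_mem _ ha)
  rw [inv_inv, ← hOa, wt_rot A a hO, sol_rot A a hO, poly_rot A hO, rot_vol _ hO,
    Real.sq_sqrt hpos.le] at key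
  exact key

end Pool.Agent.P.MP_2e1554_gt
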