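import Pool.Agent.P.MP_2e1554_gt.IsoMarg
import Pool.Agent.P.MP_2e1554_gt.IsoOne
import Pool.Agent.P.MP_2e1554_gt.IsoRot

/-! A concave density is a mixture of tents. -/

open MeasureTheory Set Finset Matrix

namespace Pool.Agent.P.MP_2e1554_gt

lemma tent_piece {p Φ Φ' Φ'' : ℝ → ℝ} {a b s C D : ℝ} (hab : a ≤ b)
    (h1 : ∀ u, HasDerivAt Φ (Φ' u) u) (h2 : ∀ u, HasDerivAt Φ' (Φ'' u) u) (h3 : Continuous Φ'')
    (hi : IntervalIntegrable (fun u => Φ'' u * p u) volume a b) (hs : p b = p a + s * (b - a))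
    (hC : ∀ u ∈ Icc a b, |Φ'' u| ≤ C)
    (hD : ∀ u ∈ Icc a b, 0 ≤ p u - (p a + s * (u - a)) ∧ p u - (p a + s * (u - a)) ≤ D) :
    ∫ u in a..b, Φ'' u * p u ≤ p b * Φ' b - p a * Φ' a - s * (Φ b - Φ a) + C * D * (b - a) := by
  have hc : Continuous fun u => (p a + s * (u - a)) * Φ'' u + C * D := by fun_prop
  have e : ∫ u in a..b, ((p a + s * (u - a)) * Φ'' u + C * D) =
      ((p a + s * (b - a)) * Φ' b - s * Φ b + C * D * b) -
        ((p a + s * (a - a)) * Φ' a - s * Φ a + C * D * a) := by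
    refine intervalIntegral.integral_eq_sub_of_hasDerivAt
      (f := fun u => (p a + s * (u - a)) * Φ' u - s * Φ u + C * D * u) (fun u _ => ?_)
      (hc.intervalIntegrable _ _)
    refine HasDerivAt.congr_deriv (((((((hasDerivAt_id' u).sub_const a).const_mul s).const_add
      (p a)).fun_mul (h2 u)).fun_sub ((h1 u).const_mul s)).fun_add
      ((hasDerivAt_id' u).const_mul (C * D))) ?_
    ring
  refine (intervalIntegral.integral_mono_on hab hi (hc.intervalIntegrable _ _) fun u hu => ?_).trans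
    (le_of_eq ?_)
  · obtain ⟨d0, d1⟩ := hD u hu
    have k1 := mul_le_mul ((le_abs_self _).trans (hC u hu)) d1 d0 ((abs_nonneg _).trans (hC u hu))
    linarith
  · rw [e, hs]
    ring

lemma tent_bd {p : ℝ → ℝ} {α β : ℝ} (hp : ConcaveOn ℝ (Icc α β) p) (h0 : ∀ u ∈ Icc α β, 0 ≤ p u)
    {u : ℝ} (hu : u ∈ Icc α β) : p u ≤ 2 * p ((α + β) / 2) := by
  have hv : α + β - u ∈ Icc α β := ⟨by linarith [hu.2], by linarith [hu.1]⟩
  have := hp.2 hu hv (show (0 : ℝ) ≤ 1 / 2 by norm_num) (show (0 : ℝ) ≤ 1 / 2 by norm_num)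
    (by norm_num)
  simp only [smul_eq_mul] at this
  rw [show 1 / 2 * u + 1 / 2 * (α + β - u) = (α + β) / 2 by ring] at this
  linarith [h0 _ hv]

lemma tent_three {p : ℝ → ℝ} {α β : ℝ} (hp : ConcaveOn ℝ (Icc α β) p) {x y z : ℝ}
    (hx : x ∈ Icc α β) (hz : z ∈ Icc α β) (h1 : x ≤ y) (h2 : y ≤ z) :
    (z - y) * p x + (y - x) * p z ≤ (z - x) * p y := by
  rcases (h1.trans h2).eq_or_lt with h | h
  · have : y = x := le_antisymm (h ▸ h2) h1
    subst h
    simp [this]
  have hd : 0 < z - x := sub_pos.2 h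
  have := hp.2 hx hz
    (div_nonneg (sub_nonneg.2 h2) hd.le) (div_nonneg (sub_nonneg.2 h1) hd.le) (by field_simp; ring)
  simp only [smul_eq_mul] at this
  rw [show (z - y) / (z - x) * x + (y - x) / (z - x) * z = y by field_simp; ring] at this
  have k := mul_le_mul_of_nonneg_left this hd.le
  rw [show (z - x) * ((z - y) / (z - x) * p x + (y - x) / (z - x) * p z) =
    (z - y) * p x + (y - x) * p z by field_simp] at k
  exact k

lemma tent_core {p Φ Φ' Φ'' : ℝ → ℝ} {α β : ℝ} (hαβ : α < β) (hp : ConcaveOn ℝ (Icc α β) p)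
    (h0 : ∀ u ∈ Icc α β, 0 ≤ p u) (h1 : ∀ u, HasDerivAt Φ (Φ' u) u)
    (h2 : ∀ u, HasDerivAt Φ' (Φ'' u) u) (h3 : Continuous Φ'')
    (hi : IntegrableOn (fun u => Φ'' u * p u) (Icc α β)) (hΦ : ∀ u ∈ Icc α β, 0 ≤ Φ u)
    (ha : Φ α = 0) (hb : Φ β = 0) : ∫ u in α..β, Φ'' u * p u ≤ p β * Φ' β - p α * Φ' α := by
  obtain ⟨C, hC⟩ := isCompact_Icc.exists_bound_of_continuousOn (s := Icc α β) h3.continuousOn
  obtain ⟨M, hM⟩ : ∃ M, ∀ u ∈ Icc α β, p u ≤ M := ⟨_, fun u hu => tent_bd hp h0 hu⟩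
  have mα : α ∈ Icc α β := ⟨le_rfl, hαβ.le⟩
  have C0 : 0 ≤ C := (norm_nonneg _).trans (hC α mα)
  have M0 : 0 ≤ M := (h0 α mα).trans (hM α mα)
  have hI : ∀ a ∈ Icc α β, ∀ b ∈ Icc α β, IntervalIntegrable (fun u => Φ'' u * p u) volume a b :=
    fun a ha b hb => (hi.mono_set (uIcc_subset_Icc ha hb)).intervalIntegrable
  refine le_of_forall_pos_le_add fun ε hε => ?_
  obtain ⟨N, hN⟩ := exists_nat_gt (3 * C * M * (β - α) / ε)
  obtain ⟨h, hh⟩ : ∃ h : ℝ, h = (β - α) / (N + 1) := ⟨_, rfl⟩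
  have hN0 : (0 : ℝ) < N + 1 := by positivity
  have hp0 : 0 < h := hh ▸ div_pos (sub_pos.2 hαβ) hN0
  have hβ : β = α + (N + 1) * h := by rw [hh]; field_simp; ring
  have mem : ∀ r : ℝ, 0 ≤ r → r ≤ N + 1 → α + r * h ∈ Icc α β := fun r r0 r1 =>
    ⟨by nlinarith, by rw [hβ]; nlinarith⟩
  obtain ⟨s, hs⟩ : ∃ s : ℕ → ℝ, ∀ n : ℕ, p (α + (n + 1) * h) = p (α + n * h) + s n * h :=
    ⟨fun n => (p (α + (n + 1) * h) - p (α + n * h)) / h, fun n => by field_simp; ring⟩
  have low : ∀ n : ℕ, n ≤ N → ∀ u ∈ Icc (α + n * h) (α + (n + 1) * h),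
      0 ≤ p u - (p (α + n * h) + s n * (u - (α + n * h))) := fun n hn u hu => by
    have hn' : (n : ℝ) ≤ N := by exact_mod_cast hn
    have k := tent_three hp (mem n (by positivity) (by linarith)) (mem (n + 1) (by positivity)
      (by linarith)) hu.1 hu.2
    rw [hs n] at k
    by_contra hc
    nlinarith
  have key : ∀ n : ℕ, n ≤ N → ∫ u in α..(α + (n + 1) * h), Φ'' u * p u ≤
      p (α + (n + 1) * h) * Φ' (α + (n + 1) * h) - p α * Φ' α - s n * Φ (α + (n + 1) * h) +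
        C * M * h + C * (h * (s 0 - s n)) * h := by
    intro n
    induction n with
    | zero =>
      intro _
      have m1 := mem 1 zero_le_one (by linarith [(Nat.cast_nonneg N : (0 : ℝ) ≤ N)])
      have e0 := hs 0
      have l0 := low 0 (Nat.zero_le _)
      simp only [Nat.cast_zero, zero_add, zero_mul, add_zero] at e0 l0 ⊢
      have k := tent_piece (s := s 0) (C := C) (D := M) m1.1 h1 h2 h3 (hI _ mα _ m1)
        (by rw [e0]; ring) (fun u hu => hC u ⟨hu.1, hu.2.trans m1.2⟩) fun u hu =>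
          ⟨l0 u hu, by
            have k1 := hM u ⟨hu.1, hu.2.trans m1.2⟩
            have k2 := h0 _ m1
            have k3 := h0 α mα
            rw [e0] at k2
            have k4 := hu.1
            have k5 := hu.2
            by_contra hc
            rcases le_total 0 (s 0) with h5 | h5 <;> nlinarith⟩
      rw [ha] at k
      linarith
    | succ n ih =>
      intro hn
      have hn' : (n : ℝ) + 1 ≤ N := by exact_mod_cast hn
      have ih := ih (by omega)
      have m0 := mem n (by positivity) (by linarith)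
      have m1 := mem (n + 1) (by positivity) (by linarith)
      have m2 := mem (n + 1 + 1) (by positivity) (by linarith)
      have e0 := hs n
      have e1 := hs (n + 1)
      have l1 := low (n + 1) hn
      push_cast at e1 l1 ⊢
      have up : ∀ u ∈ Icc (α + (n + 1) * h) (α + (n + 1 + 1) * h),
          p u ≤ p (α + (n + 1) * h) + s n * (u - (α + (n + 1) * h)) := fun u hu => by
        have k := tent_three hp m0 ⟨m1.1.trans hu.1, hu.2.trans m2.2⟩
          (y := α + (n + 1) * h) (by linarith) hu.1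
        rw [e0] at k ⊢
        by_contra hc
        nlinarith
      have hss : s (n + 1) ≤ s n := by
        have k := up _ ⟨by linarith, le_rfl⟩
        rw [e1] at k
        by_contra hc
        nlinarith
      have k := tent_piece (s := s (n + 1)) (C := C) (D := h * (s n - s (n + 1))) (by linarith)
        h1 h2 h3 (hI _ m1 _ m2) (by rw [e1]; ring)
        (fun u hu => hC u ⟨m1.1.trans hu.1, hu.2.trans m2.2⟩) fun u hu =>
          ⟨l1 u hu, by
            have k1 := up u hu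
            have k2 := mul_le_mul_of_nonneg_left (show u - (α + (n + 1) * h) ≤ h by linarith [hu.2])
              (sub_nonneg.2 hss)
            linarith⟩
      rw [← intervalIntegral.integral_add_adjacent_intervals (hI _ mα _ m1) (hI _ m1 _ m2)]
      have k2 := mul_nonneg (sub_nonneg.2 hss) (hΦ _ m1)
      linarith
  have k := key N le_rfl
  have e0 := hs 0
  have eN := hs N
  simp only [Nat.cast_zero, zero_add, zero_mul, add_zero] at e0
  rw [← hβ] at k eN
  have b1 := hM _ (mem 1 zero_le_one (by linarith [(Nat.cast_nonneg N : (0 : ℝ) ≤ N)]))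
  have b2 := hM _ (mem N (by positivity) (by linarith))
  have b3 := h0 α mα
  have b4 := h0 β ⟨hαβ.le, le_rfl⟩
  have b5 : h * (s 0 - s N) ≤ 2 * M := by linarith
  have b6 := mul_le_mul_of_nonneg_right (mul_le_mul_of_nonneg_left b5 C0) hp0.le
  have b7 : 3 * C * M * h ≤ ε := by
    rw [div_lt_iff₀ hε] at hN
    rw [hh, ← mul_div_assoc, div_le_iff₀ hN0]
    linarith
  rw [hb] at k
  linarith

theorem Marg.tent {p : ℝ → ℝ} {α β V : ℝ} (h : Marg 1 p α β V) {Ψ Ψ' Ψ'' : ℝ → ℝ}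
    (h1 : ∀ u, HasDerivAt Ψ (Ψ' u) u) (h2 : ∀ u, HasDerivAt Ψ' (Ψ'' u) u) (h3 : Continuous Ψ'')
    (hc : ∀ τ ∈ Icc α β, (β - τ) * Ψ α + (τ - α) * Ψ β ≤ (β - α) * Ψ τ) :
    ∫ u in Icc α β, Ψ'' u * p u ≤ 0 := by
  have hd : 0 < β - α := sub_pos.2 h.lt
  obtain ⟨q, hq, -, e⟩ := h.root
  have hp : ConcaveOn ℝ (Icc α β) p := hq.congr fun u hu => by rw [e u hu, pow_one]
  obtain ⟨m, hm⟩ : ∃ m, Ψ β = Ψ α + m * (β - α) := ⟨(Ψ β - Ψ α) / (β - α), by field_simp; ring⟩
  have d1 : ∀ u, HasDerivAt (fun u => Ψ u - (Ψ α + m * (u - α))) (Ψ' u - m) u := fun u =>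
    HasDerivAt.congr_deriv ((h1 u).fun_sub
      ((((hasDerivAt_id' u).sub_const α).const_mul m).const_add (Ψ α))) (by ring)
  have hΦ : ∀ u ∈ Icc α β, 0 ≤ Ψ u - (Ψ α + m * (u - α)) := fun u hu => by
    have k := hc u hu
    rw [hm] at k
    by_contra hn
    nlinarith
  have k := tent_core h.lt hp h.one_nonneg d1 (fun u => (h2 u).sub_const m) h3 (h.one_int h3) hΦ
    (by ring) (by rw [hm]; ring)
  have mα : α ∈ Icc α β := ⟨le_rfl, h.lt.le⟩
  have mβ : β ∈ Icc α β := ⟨h.lt.le, le_rfl⟩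
  have a1 : 0 ≤ Ψ' α - m := by
    have hmin : IsMinOn (fun u => Ψ u - (Ψ α + m * (u - α))) (Icc α β) α := fun u hu => by
      simpa using hΦ u hu
    have := hmin.localize.hasFDerivWithinAt_nonneg (d1 α).hasFDerivAt.hasFDerivWithinAt
      (sub_mem_posTangentConeAt_of_segment_subset (x := α) (y := β)
        ((convex_Icc α β).segment_subset mα mβ))
    simp only [ContinuousLinearMap.toSpanSingleton_apply, smul_eq_mul] at this
    exact nonneg_of_mul_nonneg_right this hd |> fun h => by nlinarith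
  have a2 : Ψ' β - m ≤ 0 := by
    have hmin : IsMinOn (fun u => Ψ u - (Ψ α + m * (u - α))) (Icc α β) β := fun u hu => by
      have := hΦ u hu
      simp only [mem_ofPred_eq]
      linarith
    have := hmin.localize.hasFDerivWithinAt_nonneg (d1 β).hasFDerivAt.hasFDerivWithinAt
      (sub_mem_posTangentConeAt_of_segment_subset (x := β) (y := α)
        ((convex_Icc α β).segment_subset mβ mα))
    simp only [ContinuousLinearMap.toSpanSingleton_apply, smul_eq_mul] at this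
    by_contra hn
    nlinarith
  rw [integral_Icc_eq_integral_Ioc, ← intervalIntegral.integral_of_le h.lt.le]
  have b1 := mul_nonneg (h.one_nonneg α mα) a1
  have b2 := mul_nonneg (h.one_nonneg β mβ) (neg_nonneg.2 a2)
  linarith

/-- marginal in the direction of a unit vector -/
theorem Iso.marg_dir {K : Set (Fin 2 → ℝ)} (hK : Iso K) {u : Fin 2 → ℝ} (hu : u ⬝ᵥ u = 1) :
    ∃ (p : ℝ → ℝ) (α β : ℝ), Marg 1 p α β (volume.real K) ∧ (∀ y ∈ K, u ⬝ᵥ y ∈ Icc α β) ∧
      (∃ y ∈ K, u ⬝ᵥ y = α) ∧ (∃ y ∈ K, u ⬝ᵥ y = β) ∧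
        ∀ φ : ℝ → ℝ, Continuous φ → ∫ y in K, φ (u ⬝ᵥ y) = ∫ t in Icc α β, φ t * p t := by
  obtain ⟨O, hO, e⟩ := exists_rot u
  have e0 : ∀ y, (O *ᵥ y) 0 = u ⬝ᵥ y := fun y => by
    rw [← rot_dot hO, e, hu, Real.sqrt_one, single_dotProduct, one_mul]
  have hK' := hK.rot hO
  obtain ⟨α, β, hM, hin, ⟨a, ha, ea⟩, b, hb, eb⟩ := marg_two hK'
  rw [rot_vol K hO] at hM
  refine ⟨_, α, β, hM, fun y hy => e0 y ▸ hin _ ((rot_mem_aff hO K y).2 hy), ?_, ?_, fun φ hφ => ?_⟩
  · refine ⟨Oᵀ *ᵥ a, (rot_mem_aff hO K _).1 (by rwa [rot_back hO]), ?_⟩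
    rw [← e0, rot_back hO, ea]
  · refine ⟨Oᵀ *ᵥ b, (rot_mem_aff hO K _).1 (by rwa [rot_back hO]), ?_⟩
    rw [← e0, rot_back hO, eb]
  · have k := rot_integral hK.cpt.measurableSet hO fun x => φ (x 0)
    simp only [e0] at k
    rw [← k, (integral_sv hK'.cpt hφ).2]
    refine (setIntegral_eq_integral_of_forall_compl_eq_zero fun t ht => ?_).symm
    have : slice (aff O 0 K) t = ∅ := Set.eq_empty_of_forall_notMem fun z hz =>
      ht (by simpa using hin _ hz)
    simp [sv, this]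

end Pool.Agent.P.MP_2e1554_gt
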