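import Pool.Agent.P.MP_2e1554_gt.IsoC3S
import Pool.Agent.P.MP_2e1554_gt.IsoTent

/-! Bounded measurable functions; elementary facts on the majorant. -/

open MeasureTheory Set

namespace Pool.Agent.P.MP_2e1554_gt.Chk

theorem BM.of_cont {a b : ℝ} {f : ℝ → ℝ} (h : Continuous f) : BM a b f := by
  obtain ⟨C, hC⟩ := (isCompact_Icc (a := a) (b := b)).exists_bound_of_continuousOn h.continuousOn
  exact ⟨h.aestronglyMeasurable, C, fun x hx => by simpa [Real.norm_eq_abs] using hC x hx⟩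
/-- `ConcaveOn.continuousOn_interior`, `restrict_Ioo_eq_restrict_Icc` -/
theorem BM.of_conc {a b C : ℝ} {f : ℝ → ℝ} (h : ConcaveOn ℝ (Icc a b) f)
    (hC : ∀ x ∈ Icc a b, |f x| ≤ C) : BM a b f := by
  refine ⟨?_, C, hC⟩
  have h1 := h.continuousOn_interior
  rw [interior_Icc] at h1
  rw [← restrict_Ioo_eq_restrict_Icc]
  exact h1.aestronglyMeasurable measurableSet_Ioo
theorem BM.add {a b : ℝ} {f g : ℝ → ℝ} (hf : BM a b f) (hg : BM a b g) :
    BM a b fun x => f x + g x := by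
  obtain ⟨m1, C, hC⟩ := hf
  obtain ⟨m2, D, hD⟩ := hg
  exact ⟨m1.add m2, C + D, fun x hx => (abs_add_le _ _).trans (add_le_add (hC x hx) (hD x hx))⟩
theorem BM.sub {a b : ℝ} {f g : ℝ → ℝ} (hf : BM a b f) (hg : BM a b g) :
    BM a b fun x => f x - g x := by
  obtain ⟨m1, C, hC⟩ := hf
  obtain ⟨m2, D, hD⟩ := hg
  exact ⟨m1.sub m2, C + D, fun x hx => (abs_sub _ _).trans (add_le_add (hC x hx) (hD x hx))⟩
theorem BM.mul {a b : ℝ} {f g : ℝ → ℝ} (hf : BM a b f) (hg : BM a b g) :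
    BM a b fun x => f x * g x := by
  obtain ⟨m1, C, hC⟩ := hf
  obtain ⟨m2, D, hD⟩ := hg
  refine ⟨m1.mul m2, C * D, fun x hx => ?_⟩
  rw [abs_mul]
  exact mul_le_mul (hC x hx) (hD x hx) (abs_nonneg _) ((abs_nonneg _).trans (hC x hx))
theorem BM.pow {a b : ℝ} {f : ℝ → ℝ} (hf : BM a b f) (n : ℕ) : BM a b fun x => f x ^ n := by
  induction n with
  | zero => simpa using BM.of_cont (a := a) (b := b) (f := fun _ => (1 : ℝ)) continuous_const
  | succ n ih => simpa [pow_succ] using ih.mul hf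
/-- `g + indicator S (f - g)`, `nullMeasurableSet_le`, `AEStronglyMeasurable.indicator₀` -/
theorem BM.ite {a b : ℝ} {u v f g : ℝ → ℝ} (hu : BM a b u) (hv : BM a b v) (hf : BM a b f)
    (hg : BM a b g) : BM a b fun x => if u x ≤ v x then f x else g x := by
  obtain ⟨m1, C, hC⟩ := hf
  obtain ⟨m2, D, hD⟩ := hg
  have hS : NullMeasurableSet {x | u x ≤ v x} (volume.restrict (Icc a b)) :=
    nullMeasurableSet_le hu.1.aemeasurable hv.1.aemeasurable
  refine ⟨?_, max C D, fun x hx => ?_⟩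
  · have e : (fun x => if u x ≤ v x then f x else g x) =
        g + indicator {x | u x ≤ v x} (f - g) := by
      funext x
      by_cases h : u x ≤ v x <;> simp [h, indicator]
    rw [e]
    exact m2.add ((m1.sub m2).indicator₀ hS)
  · by_cases h : u x ≤ v x
    · simp only [h, if_true]; exact (hC x hx).trans (le_max_left _ _)
    · simp only [h, if_false]; exact (hD x hx).trans (le_max_right _ _)
theorem BM.ii {a b x y : ℝ} {f : ℝ → ℝ} (hf : BM a b f) (hx : x ∈ Icc a b) (hy : y ∈ Icc a b) :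
    IntervalIntegrable f volume x y := by
  obtain ⟨m1, C, hC⟩ := hf
  have hi : IntegrableOn f (Icc a b) volume :=
    ⟨m1, HasFiniteIntegral.of_bounded (C := C) (ae_restrict_of_forall_mem measurableSet_Icc
      fun z hz => by simpa [Real.norm_eq_abs] using hC z hz)⟩
  exact (hi.mono_set (uIcc_subset_Icc hx hy)).intervalIntegrable
/-- `tent_bd` -/
theorem Sk.bm {ψ : ℝ → ℝ} {m k : ℝ} (h : Sk ψ m k) : BM 0 1 ψ :=
  BM.of_conc (C := 2 * ψ ((0 + 1) / 2)) h.cc fun x hx => by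
    rw [abs_of_nonneg (h.nn x hx)]
    exact tent_bd h.cc h.nn hx
theorem Sk.m_mem {ψ : ℝ → ℝ} {m k : ℝ} (h : Sk ψ m k) : 0 ≤ m ∧ m ≤ 1 := by
  have z0 : (0 : ℝ) ∈ Icc (0 : ℝ) 1 := ⟨le_rfl, zero_le_one⟩
  have z1 : (1 : ℝ) ∈ Icc (0 : ℝ) 1 := ⟨zero_le_one, le_rfl⟩
  constructor
  · rw [← h.m1]
    exact intervalIntegral.integral_nonneg zero_le_one fun x hx => mul_nonneg hx.1 (h.nn x hx)
  · rw [← h.m1]
    calc ∫ x in (0 : ℝ)..1, x * ψ x ≤ ∫ x in (0 : ℝ)..1, ψ x :=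
          intervalIntegral.integral_mono_on zero_le_one
            (((BM.of_cont continuous_id).mul h.bm).ii z0 z1) (h.bm.ii z0 z1) fun x hx => by
              have := mul_le_mul_of_nonneg_right hx.2 (h.nn x hx)
              simpa using this
      _ = 1 := h.m0

/-- `z³ - (3 T² z + 2 T³) = (z + T)² (z - 2 T)` -/
theorem Gc_eq (T z : ℝ) : Gc T z = 3 * T ^ 2 * z + 2 * T ^ 3 + (z + T) ^ 2 * max (z - 2 * T) 0 := by
  unfold Gc
  rcases le_total (z - 2 * T) 0 with h | h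
  · rw [max_eq_right h, max_eq_right]
    · ring
    · nlinarith [mul_nonneg (sq_nonneg (z + T)) (neg_nonneg.2 h)]
  · rw [max_eq_left h, max_eq_left]
    · ring
    · nlinarith [mul_nonneg (sq_nonneg (z + T)) h]
theorem Gc_cont {T h : ℝ → ℝ} (hT : Continuous T) (hh : Continuous h) :
    Continuous fun x => Gc (T x) (h x) := by
  unfold Gc
  fun_prop
theorem Gc_slope {T z d : ℝ} (hT : 0 ≤ T) (hd : 0 ≤ d) : Gc T (z - d) ≤ Gc T z - 3 * T ^ 2 * d := by
  rw [Gc_eq, Gc_eq]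
  have key : (z - d + T) ^ 2 * max (z - d - 2 * T) 0 ≤ (z + T) ^ 2 * max (z - 2 * T) 0 := by
    rcases le_total (z - d - 2 * T) 0 with h | h
    · rw [max_eq_right h, mul_zero]
      exact mul_nonneg (sq_nonneg _) (le_max_right _ _)
    · rw [max_eq_left h, max_eq_left (by linarith)]
      exact mul_le_mul (pow_le_pow_left₀ (by linarith) (by linarith) 2) (by linarith) h
        (sq_nonneg _)
  linarith
theorem Gc_mono {T z w : ℝ} (hT : 0 ≤ T) (h : z ≤ w) : Gc T z ≤ Gc T w := by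
  have h1 := Gc_slope (z := w) hT (sub_nonneg.2 h)
  rw [sub_sub_cancel] at h1
  have h2 : 0 ≤ 3 * T ^ 2 * (w - z) := mul_nonneg (by positivity) (sub_nonneg.2 h)
  linarith
/-- a subgradient; for `2 T ≤ y` use `z³` if `-2 y ≤ z`, the tangent otherwise -/
theorem Gc_sub {T : ℝ} (hT : 0 ≤ T) (y z : ℝ) :
    Gc T y + (if 2 * T ≤ y then 3 * y ^ 2 else 3 * T ^ 2) * (z - y) ≤ Gc T z := by
  by_cases h : 2 * T ≤ y
  · rw [if_pos h, Gc_eq T y, max_eq_left (by linarith)]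
    have hy : 0 ≤ y := by linarith
    rcases le_total (-2 * y) z with h2 | h2
    · refine le_trans ?_ (le_max_left _ _)
      nlinarith [mul_nonneg (sq_nonneg (z - y)) (show 0 ≤ z + 2 * y by linarith)]
    · refine le_trans ?_ (le_max_right _ _)
      have h3 : T ^ 2 ≤ y ^ 2 := pow_le_pow_left₀ hT (by linarith) 2
      nlinarith [mul_nonneg (sub_nonneg.2 h3) (show 0 ≤ -z by linarith), pow_nonneg hy 3,
        pow_nonneg hT 3]
  · rw [if_neg h, Gc_eq T y, max_eq_right (by linarith)]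
    refine le_trans (le_of_eq ?_) (le_max_right _ _)
    ring
/-- from `Gc_sub` at the point `(1 - r) a + r b` -/
theorem Gc_conv {T r : ℝ} (hT : 0 ≤ T) (hr : r ∈ Icc (0 : ℝ) 1) (a b : ℝ) :
    Gc T ((1 - r) * a + r * b) ≤ (1 - r) * Gc T a + r * Gc T b := by
  have h1 := Gc_sub hT ((1 - r) * a + r * b) a
  have h2 := Gc_sub hT ((1 - r) * a + r * b) b
  generalize (if 2 * T ≤ (1 - r) * a + r * b then 3 * ((1 - r) * a + r * b) ^ 2 else 3 * T ^ 2) = s
    at h1 h2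
  have h3 := mul_le_mul_of_nonneg_left h1 (sub_nonneg.2 hr.2)
  have h4 := mul_le_mul_of_nonneg_left h2 hr.1
  nlinarith
theorem Rp_cont (p : ℝ) : Continuous (Rp p) := by
  unfold Rp Lu
  fun_prop

private theorem m_diff {p : ℝ} (hp : p ∈ Ioo (0 : ℝ) 1) (x : ℝ) :
    Lu (1 / p) x - Lu (1 / (1 - p)) (1 - x) = 12 / (p * (1 - p)) ^ 2 * (x - p) := by
  have h0 : p ≠ 0 := hp.1.ne'
  have h1 : 1 - p ≠ 0 := (sub_pos.2 hp.2).ne'
  unfold Lu
  field_simp
  ring

private theorem m_pos {p : ℝ} (hp : p ∈ Ioo (0 : ℝ) 1) : 0 < 12 / (p * (1 - p)) ^ 2 :=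
  div_pos (by norm_num) (pow_pos (mul_pos hp.1 (sub_pos.2 hp.2)) 2)

private theorem m_left {p : ℝ} (hp : p ∈ Ioo (0 : ℝ) 1) (x : ℝ) :
    Rp p x = Lu (1 / p) x - 12 / (p * (1 - p)) ^ 2 * max (x - p) 0 := by
  have h1 := m_diff hp x
  have h2 := m_pos hp
  unfold Rp
  rcases le_total (x - p) 0 with h | h
  · rw [max_eq_right h, min_eq_left]
    · ring
    · nlinarith [mul_nonneg h2.le (neg_nonneg.2 h)]
  · rw [max_eq_left h, min_eq_right]
    · linarith
    · nlinarith [mul_nonneg h2.le h]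

/-- the two lines differ by `12 (x - p) / (p q)²` -/
theorem Rp_eq {p : ℝ} (hp : p ∈ Ioo (0 : ℝ) 1) (x : ℝ) : (p * (1 - p)) ^ 2 / 12 * Rp p x =
    -max (x - p) 0 + (1 - p) ^ 2 / 2 + (1 - p) ^ 2 * (1 + 2 * p) * (x - 1 / 2) := by
  have h0 : p ≠ 0 := hp.1.ne'
  have h1 : 1 - p ≠ 0 := (sub_pos.2 hp.2).ne'
  rw [m_left hp]
  generalize max (x - p) 0 = t
  unfold Lu
  field_simp
  ring
theorem Rp_right {p : ℝ} (hp : p ∈ Ioo (0 : ℝ) 1) (x : ℝ) :
    Rp p x = Lu (1 / (1 - p)) (1 - x) - 12 / (p * (1 - p)) ^ 2 * max (p - x) 0 := by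
  have h1 := m_diff hp x
  rw [m_left hp]
  rcases le_total (x - p) 0 with h | h
  · rw [max_eq_right h, max_eq_left (by linarith)]
    linarith
  · rw [max_eq_left h, max_eq_right (by linarith)]
    linarith
/-- the value at the kink is `24` -/
theorem Rp_le {p : ℝ} (hp : p ∈ Ioo (0 : ℝ) 1) (x : ℝ) (hx : x ∈ Icc (0 : ℝ) 1) : Rp p x ≤ 24 := by
  have h0 : 0 < p := hp.1
  have h1 : 0 < 1 - p := sub_pos.2 hp.2
  rcases le_total x p with h | h
  · refine (min_le_left _ _).trans ?_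
    have e : Lu (1 / p) x = 24 - 12 * ((1 / p) ^ 2 + 2 * (1 / p)) * (p - x) := by
      unfold Lu
      field_simp
      ring
    rw [e]
    have : 0 ≤ 12 * ((1 / p) ^ 2 + 2 * (1 / p)) * (p - x) :=
      mul_nonneg (by positivity) (sub_nonneg.2 h)
    linarith
  · refine (min_le_right _ _).trans ?_
    have e : Lu (1 / (1 - p)) (1 - x) =
        24 - 12 * ((1 / (1 - p)) ^ 2 + 2 * (1 / (1 - p))) * (x - p) := by
      unfold Lu
      field_simp
      ring
    rw [e]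
    have : 0 ≤ 12 * ((1 / (1 - p)) ^ 2 + 2 * (1 / (1 - p))) * (x - p) :=
      mul_nonneg (by positivity) (sub_nonneg.2 h)
    linarith
theorem Tr_cont (sa xa sb xb : ℕ) : Continuous (Tr sa xa sb xb) := by
  unfold Tr
  fun_prop
theorem Tr_nonneg (sa xa sb xb : ℕ) (x : ℝ) : 0 ≤ Tr sa xa sb xb x := by
  unfold Tr
  exact add_nonneg (mul_nonneg (by positivity) (le_max_right _ _))
    (mul_nonneg (by positivity) (le_max_right _ _))
theorem Tr_mirror (sa sb : ℕ) {xa xb : ℕ} (ha : xa ≤ 16384) (hb : xb ≤ 16384) :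
    Tr sb (16384 - xb) sa (16384 - xa) = fun x => Tr sa xa sb xb (1 - x) := by
  funext x
  unfold Tr
  rw [Nat.cast_sub ha, Nat.cast_sub hb, add_comm]
  have e1 : x - ((16384 : ℕ) - (xa : ℝ)) / 2 ^ 14 = xa / 2 ^ 14 - (1 - x) := by
    push_cast; ring
  have e2 : ((16384 : ℕ) - (xb : ℝ)) / 2 ^ 14 - x = 1 - x - xb / 2 ^ 14 := by
    push_cast; ring
  rw [e1, e2]

end Pool.Agent.P.MP_2e1554_gt.Chk
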