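import Pool.Agent.P.MP_2e1554_gt.IsoC3I
import Pool.Agent.P.MP_2e1554_gt.IsoC3G

/-! The bound for one side. -/

open MeasureTheory Set

namespace Pool.Agent.P.MP_2e1554_gt.Chk

private theorem n_sub (a b : ℕ) : ((a - b : ℕ) : ℝ) = max ((a : ℝ) - b) 0 := by
  rcases le_total a b with h | h
  · rw [Nat.sub_eq_zero_of_le h, max_eq_right (sub_nonpos.2 (Nat.cast_le.2 h)), Nat.cast_zero]
  · rw [Nat.cast_sub h, max_eq_left (sub_nonneg.2 (Nat.cast_le.2 h))]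

private theorem n_max (a b : ℝ) : max (a / 2 ^ 14 - b / 2 ^ 14) 0 = max (a - b) 0 / 2 ^ 14 := by
  rw [← sub_div, ← max_div_div_right (by positivity), zero_div]

private theorem n_tv (sa xa sb xb X : ℕ) :
    tvX sa xa sb xb X = sa * (xa - X) + sb * (X - xb) := rfl
private theorem n_av (w0 w1 X : ℕ) : avX w0 w1 X = w0 * (16384 - X) + w1 * X := rfl
private theorem n_w0 (m k e p : ℕ) :
    w0X m k e p = 8594128896 - (6 * m + e + 196608 * k / p) := rfl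
private theorem n_w1 (m k e p : ℕ) :
    w1X m k e p = 8587837440 + 6 * m + (196608 * k * (16384 + p) / (p * p) + 1) - e := rfl
private theorem n_hfP (T : ℕ → ℕ) (X1 X2 c e la w0 w1 : ℕ) : hfP T X1 X2 c e la w0 w1 =
    pcP (avX w0 w1) T 0 X1 + pcP (avX w0 w1) T X1 X2 + pcP (avX w0 w1) T X2 c +
      906694364710971881029632 * (la * (w0 + e)) := rfl
private theorem n_hfN (T : ℕ → ℕ) (X1 X2 c la : ℕ) : hfN T X1 X2 c la =
    pcN T 0 X1 + pcN T X1 X2 + pcN T X2 c + 7788445287802241442795744493830144 * la := rfl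
private theorem n_sdP (T : ℕ → ℕ) (X1 X2 c e0 e1 la m k p : ℕ) : sdP T X1 X2 c e0 e1 la m k p =
    hfP T X1 X2 c e0 la (w0X m k e0 p) (w1X m k e1 p) := by
  rw [sdP, force_eq, force_eq]

private theorem n_deg (f : ℝ → ℝ) (a : ℝ) : Af f a a :=
  ⟨f a, 0, fun x hx => by rw [le_antisymm hx.2 hx.1, zero_mul, add_zero]⟩

private theorem n_div {a b : ℕ} (h : a ≤ b) : (a / 2 ^ 14 : ℝ) ≤ b / 2 ^ 14 :=
  div_le_div_of_nonneg_right (Nat.cast_le.2 h) (by positivity)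

private theorem n_af1 (sa sb : ℕ) {xa xb : ℕ} (hx : xa ≤ xb) (c : ℕ) :
    Af (Tr sa xa sb xb) (((0 : ℕ) : ℝ) / 2 ^ 14) (((min xa c : ℕ) : ℝ) / 2 ^ 14) := by
  refine ⟨sa / 2 ^ 20 * (xa / 2 ^ 14), -(sa / 2 ^ 20), fun x h => ?_⟩
  have h1 := h.2.trans (n_div (min_le_left xa c))
  have h2 := h1.trans (n_div hx)
  rw [Tr, max_eq_left (sub_nonneg.2 h1), max_eq_right (sub_nonpos.2 h2)]
  ring

private theorem n_af2 (sa sb : ℕ) {xa xb : ℕ} (hx : xa ≤ xb) (c : ℕ) :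
    Af (Tr sa xa sb xb) (((min xa c : ℕ) : ℝ) / 2 ^ 14) (((min xb c : ℕ) : ℝ) / 2 ^ 14) := by
  rcases le_total xa c with h | h
  · rw [min_eq_left h]
    refine ⟨0, 0, fun x h => ?_⟩
    have h2 := h.2.trans (n_div (min_le_left xb c))
    rw [Tr, max_eq_right (sub_nonpos.2 h.1), max_eq_right (sub_nonpos.2 h2)]
    ring
  · rw [min_eq_right h, min_eq_right (h.trans hx)]
    exact n_deg _ _

private theorem n_af3 (sa sb : ℕ) {xa xb : ℕ} (hx : xa ≤ xb) (c : ℕ) :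
    Af (Tr sa xa sb xb) (((min xb c : ℕ) : ℝ) / 2 ^ 14) ((c : ℝ) / 2 ^ 14) := by
  rcases le_total xb c with h | h
  · rw [min_eq_left h]
    refine ⟨-(sb / 2 ^ 20 * (xb / 2 ^ 14)), sb / 2 ^ 20, fun x h => ?_⟩
    have h2 := (n_div hx).trans h.1
    rw [Tr, max_eq_right (sub_nonpos.2 h2), max_eq_left (sub_nonneg.2 h.1)]
    ring
  · rw [min_eq_right h]
    exact n_deg _ _

theorem tvX_cast (sa xa sb xb X : ℕ) :
    (tvX sa xa sb xb X : ℝ) = 2 ^ 34 * Tr sa xa sb xb (X / 2 ^ 14) := by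
  rw [n_tv, Tr, n_max, n_max, Nat.cast_add, Nat.cast_mul, Nat.cast_mul, n_sub, n_sub]
  ring

theorem w0X_ge (m k e p : ℕ) : 4 - 6 * (m / 2 ^ 20 : ℝ) - e / 2 ^ 20 - 12 * (k / 2 ^ 20) * (2 ^ 14 / p) ≤
    (w0X m k e p : ℝ) / 2 ^ 20 - 2 ^ 13 := by
  have h1 : ((196608 * k / p : ℕ) : ℝ) ≤ ((196608 * k : ℕ) : ℝ) / p := Nat.cast_div_le
  have h2 := le_max_left (((8594128896 : ℕ) : ℝ) - ((6 * m + e + 196608 * k / p : ℕ) : ℝ)) 0
  rw [← n_sub, ← n_w0, Nat.cast_add, Nat.cast_add, Nat.cast_mul] at h2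
  rw [Nat.cast_mul] at h1
  have h3 : 12 * (k / 2 ^ 20 : ℝ) * (2 ^ 14 / p) = 196608 * k / p / 2 ^ 20 := by ring
  rw [h3]
  simp only [Nat.cast_ofNat] at h1 h2
  generalize (196608 * k : ℝ) / p = q at h1 ⊢
  linarith

theorem w1X_ge (m k e : ℕ) {p : ℕ} (hp : 0 < p) : 6 * (m / 2 ^ 20 : ℝ) - 2 - e / 2 ^ 20 +
    12 * (k / 2 ^ 20) * ((2 ^ 14 / p) ^ 2 + 2 ^ 14 / p) ≤ (w1X m k e p : ℝ) / 2 ^ 20 - 2 ^ 13 := by
  have hp' : (0 : ℝ) < p := Nat.cast_pos.2 hp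
  have h1 : ((196608 * k * (16384 + p) : ℕ) : ℝ) / ((p * p : ℕ) : ℝ) ≤
      ((196608 * k * (16384 + p) / (p * p) : ℕ) : ℝ) + 1 := by
    rw [div_le_iff₀ (Nat.cast_pos.2 (Nat.mul_pos hp hp))]
    have h := (Nat.lt_div_mul_add (a := 196608 * k * (16384 + p)) (Nat.mul_pos hp hp)).le
    rw [← add_one_mul] at h
    exact_mod_cast h
  have h2 := le_max_left
    (((8587837440 + 6 * m + (196608 * k * (16384 + p) / (p * p) + 1) : ℕ) : ℝ) - (e : ℝ)) 0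
  rw [← n_sub, ← n_w1, Nat.cast_add, Nat.cast_add, Nat.cast_add, Nat.cast_mul] at h2
  have h3 : 12 * (k / 2 ^ 20 : ℝ) * ((2 ^ 14 / p) ^ 2 + 2 ^ 14 / p) =
      ((196608 * k * (16384 + p) : ℕ) : ℝ) / ((p * p : ℕ) : ℝ) / 2 ^ 20 := by
    push_cast
    field_simp
    ring
  rw [h3]
  simp only [Nat.cast_ofNat, Nat.cast_one] at h2
  generalize ((196608 * k * (16384 + p) : ℕ) : ℝ) / ((p * p : ℕ) : ℝ) = q at h1 ⊢
  linarith

theorem sdP_le (sa sb : ℕ) {xa xb c p : ℕ} (hx : xa ≤ xb) (hc : c ≤ 16384) (hp : 0 < p)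
    (e0 e1 la m k : ℕ) :
    12 * 2 ^ 116 * HH (Tr sa xa sb xb) (c / 2 ^ 14) (e0 / 2 ^ 20) (e1 / 2 ^ 20) (la / 2 ^ 20)
      (m / 2 ^ 20) (k / 2 ^ 20) (2 ^ 14 / p) ≤
    (sdP (tvX sa xa sb xb) (min xa c) (min xb c) c e0 e1 la m k p : ℝ) -
      hfN (tvX sa xa sb xb) (min xa c) (min xb c) c la := by
  have a0 := w0X_ge m k e0 p
  have a1 := w1X_ge m k e1 hp
  rw [n_sdP, n_hfP, n_hfN, HH]
  generalize w0X m k e0 p = w0 at a0 ⊢
  generalize w1X m k e1 p = w1 at a1 ⊢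
  have hc1 : (c / 2 ^ 14 : ℝ) ∈ Icc (0 : ℝ) 1 := by
    refine ⟨by positivity, ?_⟩
    rw [div_le_one (by positivity)]
    exact_mod_cast hc
  have b1 := IG_mono (Tr_cont sa xa sb xb) (Tr_nonneg sa xa sb xb) hc1 a0 a1
  set h : ℝ → ℝ := fun x => (w0 / 2 ^ 20 - 2 ^ 13) * (1 - x) + (w1 / 2 ^ 20 - 2 ^ 13) * x with hh
  have ch : Continuous h := by fun_prop
  have af : ∀ a b, Af h a b := fun a b =>
    ⟨w0 / 2 ^ 20 - 2 ^ 13, w1 / 2 ^ 20 - w0 / 2 ^ 20, fun x _ => by rw [hh]; ring⟩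
  have eA : ∀ X, X ≤ c → (avX w0 w1 X : ℝ) = 2 ^ 34 * h (X / 2 ^ 14) + 2 ^ 47 := by
    intro X hX
    rw [n_av, Nat.cast_add, Nat.cast_mul, Nat.cast_mul, Nat.cast_sub (hX.trans hc), hh]
    push_cast
    ring
  have p1 := pcP_le (A := avX w0 w1) (T := tvX sa xa sb xb) (Nat.zero_le (min xa c)) ch
    (Tr_cont sa xa sb xb) (n_af1 sa sb hx c) (af _ _)
    (fun X _ hX => eA X (hX.trans (min_le_right _ _))) (fun X _ _ => tvX_cast _ _ _ _ _)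
  have p2 := pcP_le (A := avX w0 w1) (T := tvX sa xa sb xb) (min_le_min_right c hx) ch
    (Tr_cont sa xa sb xb) (n_af2 sa sb hx c) (af _ _)
    (fun X _ hX => eA X (hX.trans (min_le_right _ _))) (fun X _ _ => tvX_cast _ _ _ _ _)
  have p3 := pcP_le (A := avX w0 w1) (T := tvX sa xa sb xb) (min_le_right xb c) ch
    (Tr_cont sa xa sb xb) (n_af3 sa sb hx c) (af _ _)
    (fun X _ hX => eA X hX) (fun X _ _ => tvX_cast _ _ _ _ _)
  have cg := Gc_cont (Tr_cont sa xa sb xb) ch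
  have s1 := intervalIntegral.integral_add_adjacent_intervals
    (cg.intervalIntegrable (μ := volume) (((0 : ℕ) : ℝ) / 2 ^ 14) (((min xa c : ℕ) : ℝ) / 2 ^ 14))
    (cg.intervalIntegrable _ (((min xb c : ℕ) : ℝ) / 2 ^ 14))
  have s2 := intervalIntegral.integral_add_adjacent_intervals
    (cg.intervalIntegrable (μ := volume) (((0 : ℕ) : ℝ) / 2 ^ 14) (((min xb c : ℕ) : ℝ) / 2 ^ 14))
    (cg.intervalIntegrable _ ((c : ℝ) / 2 ^ 14))
  have e2 : IG (Tr sa xa sb xb) (c / 2 ^ 14) (w0 / 2 ^ 20 - 2 ^ 13) (w1 / 2 ^ 20 - 2 ^ 13) =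
      ∫ x in (((0 : ℕ) : ℝ) / 2 ^ 14)..((c : ℝ) / 2 ^ 14), Gc (Tr sa xa sb xb x) (h x) := by
    rw [Nat.cast_zero, zero_div]
    rfl
  have b2 : (la / 2 ^ 20 : ℝ) * (4 - 6 * (m / 2 ^ 20) - 12 * (k / 2 ^ 20) * (2 ^ 14 / p)) ≤
      la / 2 ^ 20 * (w0 / 2 ^ 20 - 2 ^ 13 + e0 / 2 ^ 20) :=
    mul_le_mul_of_nonneg_left (by linarith) (by positivity)
  have e3 : 12 * 2 ^ 116 * ((la / 2 ^ 20 : ℝ) * (w0 / 2 ^ 20 - 2 ^ 13 + e0 / 2 ^ 20)) =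
      906694364710971881029632 * (la * (w0 + e0)) - 7788445287802241442795744493830144 * la := by
    ring
  rw [e2, ← s2, ← s1] at b1
  simp only [Nat.cast_add, Nat.cast_mul, Nat.cast_ofNat]
  linarith

end Pool.Agent.P.MP_2e1554_gt.Chk
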