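import Pool.Agent.P.MP_2e1554_gt.IsoFastB

/-! The fast operations on located points and the fast rows. -/

namespace Pool.Agent.P.MP_2e1554_gt.Chk

theorem loF_eq (X i τ : ℕ) : loF X i τ = lower X i τ := brec _ _ _
theorem hlF_eq (l j a m b : ℕ) : hlF l j a m b = hl1 l j a m b := by
  rw [hlF, brand, brand, brec, nB, hl1, dM_eq j l, dM_eq l m, dP_eq, dP_eq, dP_eq]
  simp only [nA, nM, nD, nn]
theorem fhF_eq (l : ℕ) (A Z : Sg) : fhF l A Z = fhull l A Z := by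
  cases A; cases Z
  simp only [fhF, mxF_eq, hlF_eq, fhull]
theorem dtF_eq (z i : ℕ) : dtF z i = dt2 z i := by
  apply tn1
  simp only [ex_eX, ey_eY, Nat.add_eq, Nat.mul_eq]
  push_cast
  ring
theorem miF_eq (s : St) (w : Wt) (z i : ℕ) : miF s.sl (laF w.wl z) z i = miss s w z i := by
  rw [miF, miss, force_eq, force_eq, mxF_eq, dtF_eq, dtF_eq]
  rfl
theorem tlF_eq (s : St) (w : Wt) (z n : ℕ) : ∀ i, tlF s.sl (laF w.wl z) z n i = trimL s w z n i := by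
  induction n with
  | zero => intro; rfl
  | succ n ih =>
    intro i
    have e1 : tlF s.sl (laF w.wl z) z (n + 1) i = @Bool.rec (fun _ => ℕ) i
      (force ((i + 1) % 56) (tlF s.sl (laF w.wl z) z n)) (miF s.sl (laF w.wl z) z i) := rfl
    have e2 : trimL s w z (n + 1) i =
      bif miss s w z i then force ((i + 1) % 56) (trimL s w z n) else i := rfl
    rw [e1, e2, brec, miF_eq, force_eq, force_eq, ih]
theorem thF_eq (s : St) (w : Wt) (z n : ℕ) : ∀ i, thF s.sl (laF w.wl z) z n i = trimH s w z n i := by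
  induction n with
  | zero => intro; rfl
  | succ n ih =>
    intro i
    have e1 : thF s.sl (laF w.wl z) z (n + 1) i = force ((i + 55) % 56) fun j => @Bool.rec (fun _ => ℕ) i
      (thF s.sl (laF w.wl z) z n j) (miF s.sl (laF w.wl z) z j) := rfl
    have e2 : trimH s w z (n + 1) i = force ((i + 55) % 56) fun j =>
      bif miss s w z j then trimH s w z n j else i := rfl
    rw [e1, e2, force_eq, force_eq, brec, miF_eq, ih]
theorem fzF_eq (rl rh z τ : ℕ) : fzF rl rh z τ = fz ⟨rl, rh⟩ z τ := by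
  rw [fzF, fz, force_eq, force_eq, force_eq, force_eq, force_eq, force_eq, brand, brand, brec, dP_eq,
    dtF_eq, dtF_eq]
  rfl
theorem srF_eq (s : St) (w : Wt) (rl rh n : ℕ) : srF s.qh w.wl rl rh n = src s w ⟨rl, rh⟩ n := by
  rw [srF, src, brec, force_eq, force_eq, force_eq, fzF_eq]
  rfl
theorem tgF_eq (rl rh k i τ : ℕ) : tgF rl rh k i τ = tgt ⟨rl, rh⟩ k i τ := by
  rw [tgF, tgt, brec, brec, fzF_eq, seF, force_eq, force_eq, force_eq, force_eq]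
  rcases k with _ | _ | k <;> rfl
theorem sel8 {α : Type} (k : ℕ) (A0 A1 A2 A3 A5 A6 A7 A4 : α) (h : k < 8) :
    (bif Nat.beq k 0 then A0 else bif Nat.beq k 1 then A1 else bif Nat.beq k 2 then A2 else
      bif Nat.beq k 3 then A3 else bif Nat.beq k 5 then A5 else bif Nat.beq k 6 then A6 else
      bif Nat.beq k 7 then A7 else A4) = bif Nat.beq k 4 then A4 else bif Nat.beq k 3 then A3 else
      bif Nat.beq k 0 then A0 else bif Nat.beq k 1 then A1 else bif Nat.beq k 2 then A2 else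
      bif Nat.beq k 5 then A5 else bif Nat.beq k 6 then A6 else A7 := by
  interval_cases k <;> rfl
theorem stF_eq (ql qh sl ll vl vh wl wh rl rh z : ℕ) : stF ql qh sl ll vl vh wl wh rl rh z =
    forceS (stripAll ⟨ql, qh, sl, ll, vl, vh⟩ ⟨wl, wh⟩ z) fun s' => ⟨s', ⟨wl, wh⟩, ⟨rl, rh⟩⟩ := by
  rw [stF, stripAll, force_eq, force_eq, frc_eq, force_eq, frc_eq, force_eq, forceS_eq, lmF_eq, lmF_eq,
    laF_eq, nD, nM]
  rfl
theorem lift_eq (ql qh sl ll vl vh wl wh rl rh : ℕ) :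
    (frc (lmF H56 ql (lmF H56 sl (rL56 sl))) fun x => (⟨⟨x, qh, sl, ll, vl, vh⟩, ⟨wl, wh⟩, ⟨rl, rh⟩⟩ : Xs)) =
    forceS (liftAll ⟨ql, qh, sl, ll, vl, vh⟩) fun s' => ⟨s', ⟨wl, wh⟩, ⟨rl, rh⟩⟩ := by
  rw [liftAll, force_eq, frc_eq, forceS_eq, lmF_eq, lmF_eq, rL56_eq]
theorem frc_force {α : Type} (n : ℕ) (k : ℕ → α) : frc n k = force n k := by rw [frc_eq, force_eq]
theorem tcF_eq (i j : ℕ) : tcF i j = tcb i j := by
  rw [tcF, trB, tcb, nL, nL, nR, nR, nM, nM, F72, Nat.and_two_pow_sub_one_eq_mod]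
  exact Nat.and_two_pow_sub_one_eq_mod _ 16
theorem tbF_eq (i j : ℕ) : tbF i j = tb i j := by rw [tbF, force_eq, tcF_eq, nS, nS, tb]
theorem spP_eq (ll i a b : ℕ) : spP ll i a b = setP ll i a b := by
  rw [spP, loF_eq, loF_eq, loF_eq, mxF_eq]
  rfl
theorem opP_eq (C : Cy) (ql qh sl ll vl vh wl wh rl rh z n m u τ fl : ℕ) :
    opP C ql qh sl ll vl vh wl wh rl rh z n m u τ fl =
      force (τ % 32768) fun a => force (τ >>> 15 + 64 * n + 8192 * (m >>> 2)) fun b =>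
        bif prS C fl (m >>> 1 % 2) u z a b then force (setP ll z a b) fun x =>
          (⟨⟨ql, qh, sl, x, vl, vh⟩, ⟨wl, wh⟩, ⟨rl, rh⟩⟩ : Xs)
        else ⟨⟨ql, qh, sl, ll, vl, vh⟩, ⟨wl, wh⟩, ⟨rl, rh⟩⟩ := by
  rw [opP, force_eq, force_eq, force_eq, force_eq, brec, frc_force, spP_eq]
  rfl
theorem op3F_eq (G : Gx) (B : Bx) (ql qh sl ll vl vh wl wh rl rh z n m u τ fl : ℕ) {kd : ℕ}
    (h : kd < 8) : op3F G B (mkY G B) ql qh sl ll vl vh wl wh rl rh kd z n m u τ fl =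
      op3 G B ⟨ql, qh, sl, ll, vl, vh⟩ ⟨wl, wh⟩ ⟨rl, rh⟩ kd z n m u τ fl := by
  have h1 := srF_eq ⟨ql, qh, sl, ll, vl, vh⟩ ⟨wl, wh⟩ rl rh
  have h2 := tlF_eq ⟨ql, qh, sl, ll, vl, vh⟩ ⟨wl, wh⟩ z u
  have h3 := thF_eq ⟨ql, qh, sl, ll, vl, vh⟩ ⟨wl, wh⟩ z u
  dsimp only at h1 h2 h3
  rw [op3, sel8 _ _ _ _ _ _ _ _ _ h, op3F, brec, brec, brec, brec, h1, h1, tgF_eq, fhF_eq, sLo_eq, op3R, h2, h3,
    stF_eq, opP_eq,
    lift_eq, frc_force, frc_force, frc_force, frc_force, frc_force, loF_eq, loF_eq, upF_eq, upF_eq, laF_eq, laF_eq, mxF_eq,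
    tbF_eq, volC, laF_eq, laF_eq, nA, nA, nA, nR, nR, nO]
theorem ops3F_eq (G : Gx) (B : Bx) (n : ℕ) : ∀ d ql qh sl ll vl vh wl wh rl rh : ℕ,
    ops3F G B (mkY G B) n d ql qh sl ll vl vh wl wh rl rh =
      ops3 G B n d ⟨ql, qh, sl, ll, vl, vh⟩ ⟨wl, wh⟩ ⟨rl, rh⟩ := by
  induction n with
  | zero => intros; rfl
  | succ n ih =>
    intro d ql qh sl ll vl vh wl wh rl rh
    have e1 : ops3F G B (mkY G B) (n + 1) d ql qh sl ll vl vh wl wh rl rh = frc (d >>> 64) fun d' =>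
        unX (ops3F G B (mkY G B) n d')
          (op3WF G B (mkY G B) ql qh sl ll vl vh wl wh rl rh (low 1 d)) := rfl
    have e2 : ops3 G B (n + 1) d ⟨ql, qh, sl, ll, vl, vh⟩ ⟨wl, wh⟩ ⟨rl, rh⟩ =
        forceX (op3W G B ⟨ql, qh, sl, ll, vl, vh⟩ ⟨wl, wh⟩ ⟨rl, rh⟩ (low 1 d)) fun s' w' r' =>
          force (d >>> 64) fun d' => ops3 G B n d' s' w' r' := rfl
    have e3 : op3WF G B (mkY G B) ql qh sl ll vl vh wl wh rl rh (low 1 d) =
        op3W G B ⟨ql, qh, sl, ll, vl, vh⟩ ⟨wl, wh⟩ ⟨rl, rh⟩ (low 1 d) := by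
      simp only [op3WF, op3W, force_eq]
      exact op3F_eq G B _ _ _ _ _ _ _ _ _ _ _ _ _ _ _ _ (Nat.mod_lt _ (by norm_num))
    rw [e1, e2, frc_eq, e3]
    generalize op3W G B ⟨ql, qh, sl, ll, vl, vh⟩ ⟨wl, wh⟩ ⟨rl, rh⟩ (low 1 d) = r
    obtain ⟨⟨a, b, c, e, f, g⟩, ⟨u, v⟩, ⟨x, y⟩⟩ := r
    exact (ih _ a b c e f g u v x y).trans
      (force_eq (d >>> 64) fun d' => ops3 G B n d' ⟨a, b, c, e, f, g⟩ ⟨u, v⟩ ⟨x, y⟩).symm
theorem op2F_eq (G : Gx) (B : Bx) (ql qh sl ll vl vh wl wh kd z y i τ l t1 t2 : ℕ) (fl : Bool) :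
    op2F G B ql qh sl ll vl vh wl wh kd z y i τ l t1 t2 fl =
      op2 G B ⟨ql, qh, sl, ll, vl, vh⟩ ⟨wl, wh⟩ kd z y i τ l t1 t2 fl := by
  simp only [op2F, op2, sWl, sWh, setWl, setWh, frc_eq, force_eq, sLo_eq, raF_eq, loF_eq]
theorem ops2F_eq (G : Gx) (B : Bx) (n : ℕ) : ∀ d ql qh sl ll vl vh wl wh : ℕ,
    ops2F G B n d ql qh sl ll vl vh wl wh = ops2 G B n d ⟨ql, qh, sl, ll, vl, vh⟩ ⟨wl, wh⟩ := by
  induction n with
  | zero => intros; rfl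
  | succ n ih =>
    intro d ql qh sl ll vl vh wl wh
    have e1 : ops2F G B (n + 1) d ql qh sl ll vl vh wl wh = frc (d >>> 128) fun d' =>
        unP (ops2F G B n d') (op2WF G B ql qh sl ll vl vh wl wh (low 2 d)) := rfl
    have e2 : ops2 G B (n + 1) d ⟨ql, qh, sl, ll, vl, vh⟩ ⟨wl, wh⟩ =
        forceP (op2W G B ⟨ql, qh, sl, ll, vl, vh⟩ ⟨wl, wh⟩ (low 2 d)) fun s' w' =>
          force (d >>> 128) fun d' => ops2 G B n d' s' w' := rfl
    have e3 : op2WF G B ql qh sl ll vl vh wl wh (low 2 d) =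
        op2W G B ⟨ql, qh, sl, ll, vl, vh⟩ ⟨wl, wh⟩ (low 2 d) := by
      simp only [op2WF, op2W, force_eq, op2F_eq, nO, nR, nA]
    rw [e1, e2, frc_eq, e3]
    generalize op2W G B ⟨ql, qh, sl, ll, vl, vh⟩ ⟨wl, wh⟩ (low 2 d) = r
    obtain ⟨⟨a, b, c, e, f, g⟩, ⟨u, v⟩⟩ := r
    exact (ih _ a b c e f g u v).trans
      (force_eq (d >>> 128) fun d' => ops2 G B n d' ⟨a, b, c, e, f, g⟩ ⟨u, v⟩).symm
theorem kaF_eq (r E a0 a1 b0 b1 : ℕ) :
    kaF r E a0 a1 b0 b1 = kapN r E a0 a1 b0 b1 / 11258999068426240 + 1 := by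
  simp only [kaF, m4F, mxF_eq]
  rfl
theorem rowT_add (p q e : ℤ) (k : ℕ) : rowT p q e k = rowT p q e 0 + k <<< 1408 := by
  have h : ∀ a n : ℕ, a + k <<< n = a + 0 <<< n + k <<< n := fun a n => by
    rw [Nat.zero_shiftLeft, Nat.add_zero]
  exact h _ 1408
theorem rcF_eq (w : Wt) (z e : ℕ) : rcF w.wl w.wh z e = rowC w z e := by
  rw [rcF, rowC, force_eq, force_eq, force_eq, rc2, brec, kaF_eq, rowB, kap, nA, nA, nT, ← rowT_add,
    nM, nM, nO, laF_eq, laF_eq, laF_eq, laF_eq]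
theorem roF_eq (w : Wt) (th x : ℕ) : roF w.wl w.wh th x = rowOf w th x := by
  simp only [roF, rowOf, force_eq, rcF_eq, brec]
  rfl
theorem rowsF_eq (w : Wt) (th n : ℕ) : ∀ d, rowsF w.wl w.wh th n d = rows w th n d := by
  induction n with
  | zero => intros; rfl
  | succ n ih =>
    intro d
    have e1 : rowsF w.wl w.wh th (n + 1) d = force (low 1 d >>> 32) fun x =>
        frc (d >>> 64) (rowsF w.wl w.wh th n) + d % 4294967296 * roF w.wl w.wh th x := rfl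
    have e2 : rows w th (n + 1) d =
        force (d >>> 64) (rows w th n) + d % 4294967296 * rowOf w th (low 1 d >>> 32) := rfl
    rw [e1, e2, force_eq, frc_eq, force_eq, ih, roF_eq]

theorem chkF_eq (G : Gx) (H : List (Bx × Xs)) (t : Tx) : ∀ (B : Bx) (ql qh sl ll vl vh wl wh rl rh : ℕ),
    chkF G H t B ql qh sl ll vl vh wl wh rl rh =
      chkX G H t B ⟨ql, qh, sl, ll, vl, vh⟩ ⟨wl, wh⟩ ⟨rl, rh⟩ := by
  induction t with
  | split ax x l r hl hr =>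
    intro B ql qh sl ll vl vh wl wh rl rh
    change (force x fun x' => forceB (setHi B ax x') (fun C => chkF G H l C ql qh sl ll vl vh wl wh rl rh) &&
      forceB (setLw B ax x') (fun C => chkF G H r C ql qh sl ll vl vh wl wh rl rh)) =
      (force x fun x' => forceB (setHi B ax x') (fun C => chkX G H l C ⟨ql, qh, sl, ll, vl, vh⟩ ⟨wl, wh⟩ ⟨rl, rh⟩) &&
      forceB (setLw B ax x') (fun C => chkX G H r C ⟨ql, qh, sl, ll, vl, vh⟩ ⟨wl, wh⟩ ⟨rl, rh⟩))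
    simp only [hl, hr]
  | br i τ l r hl hr =>
    intro B ql qh sl ll vl vh wl wh rl rh
    change (Nat.blt i 56 && Nat.ble τ 1048576 &&
      frc (upF qh i τ) (fun x => chkF G H l B ql x sl ll vl vh wl wh rl rh) &&
      frc (upF ql i τ) (fun x => chkF G H r B x qh sl ll vl vh wl wh rl rh)) =
      (Nat.blt i 56 && Nat.ble τ 1048576 &&
      force (upd qh i τ) (fun x => chkX G H l B ⟨ql, x, sl, ll, vl, vh⟩ ⟨wl, wh⟩ ⟨rl, rh⟩) &&
      force (upd ql i τ) (fun x => chkX G H r B ⟨x, qh, sl, ll, vl, vh⟩ ⟨wl, wh⟩ ⟨rl, rh⟩))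
    simp only [hl, hr, upF_eq, frc_eq, force_eq]
  | bv x l r hl hr =>
    intro B ql qh sl ll vl vh wl wh rl rh
    change (force x fun y => chkF G H l B ql qh sl ll vl y wl wh rl rh &&
      chkF G H r B ql qh sl ll y vh wl wh rl rh) =
      (chkX G H l B ⟨ql, qh, sl, ll, vl, x⟩ ⟨wl, wh⟩ ⟨rl, rh⟩ &&
      chkX G H r B ⟨ql, qh, sl, ll, x, vh⟩ ⟨wl, wh⟩ ⟨rl, rh⟩)
    rw [force_eq, hl, hr]
  | bw i τ l r hl hr =>
    intro B ql qh sl ll vl vh wl wh rl rh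
    change (Nat.blt i 56 && Nat.ble τ 524288 &&
      frc (upF wh i τ) (fun x => chkF G H l B ql qh sl ll vl vh wl x rl rh) &&
      frc (upF wl i τ) (fun x => chkF G H r B ql qh sl ll vl vh x wh rl rh)) =
      (Nat.blt i 56 && Nat.ble τ 524288 &&
      force (upd wh i τ) (fun x => chkX G H l B ⟨ql, qh, sl, ll, vl, vh⟩ ⟨wl, x⟩ ⟨rl, rh⟩) &&
      force (upd wl i τ) (fun x => chkX G H r B ⟨ql, qh, sl, ll, vl, vh⟩ ⟨x, wh⟩ ⟨rl, rh⟩))
    simp only [hl, hr, upF_eq, frc_eq, force_eq]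
  | bp i τ l r hl hr =>
    intro B ql qh sl ll vl vh wl wh rl rh
    change (Nat.blt i 56 && Nat.blt τ 56 &&
      frc (upF rh i τ) (fun x => chkF G H l B ql qh sl ll vl vh wl wh rl x) &&
      frc (upF rl i τ) (fun x => chkF G H r B ql qh sl ll vl vh wl wh x rh)) =
      (Nat.blt i 56 && Nat.blt τ 56 &&
      force (upd rh i τ) (fun x => chkX G H l B ⟨ql, qh, sl, ll, vl, vh⟩ ⟨wl, wh⟩ ⟨rl, x⟩) &&
      force (upd rl i τ) (fun x => chkX G H r B ⟨ql, qh, sl, ll, vl, vh⟩ ⟨wl, wh⟩ ⟨x, rh⟩))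
    simp only [hl, hr, upF_eq, frc_eq, force_eq]
  | ops n d t h =>
    intro B ql qh sl ll vl vh wl wh rl rh
    change (okB B && @St.rec (fun _ => Bool) (fun a b c d e f => chkF G H t B a b c d e f wl wh rl rh)
      (opsF (mkC G B) n d ql qh sl ll vl vh)) =
      (okB B && forceS (ops G B n d ⟨ql, qh, sl, ll, vl, vh⟩) (fun s => chkX G H t B s ⟨wl, wh⟩ ⟨rl, rh⟩))
    simp only [h, opsF_eq, forceS]
  | opw n d t h =>
    intro B ql qh sl ll vl vh wl wh rl rh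
    change (okB B && unP (fun a b c d e f u v => chkF G H t B a b c d e f u v rl rh)
      (ops2F G B n d ql qh sl ll vl vh wl wh)) =
      (okB B && forceP (ops2 G B n d ⟨ql, qh, sl, ll, vl, vh⟩ ⟨wl, wh⟩) (fun s w => chkX G H t B s w ⟨rl, rh⟩))
    simp only [h, forceP, unP, ops2F_eq]
  | opr n d t h =>
    intro B ql qh sl ll vl vh wl wh rl rh
    change (okB B && unX (chkF G H t B) (ops3F G B (mkY G B) n d ql qh sl ll vl vh wl wh rl rh)) =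
      (okB B && forceX (ops3 G B n d ⟨ql, qh, sl, ll, vl, vh⟩ ⟨wl, wh⟩ ⟨rl, rh⟩) (chkX G H t B))
    rw [ops3F_eq]
    generalize ops3 G B n d ⟨ql, qh, sl, ll, vl, vh⟩ ⟨wl, wh⟩ ⟨rl, rh⟩ = r
    obtain ⟨⟨a, b, c, e, f, g⟩, ⟨u, v⟩, ⟨x, y⟩⟩ := r
    exact congrArg (okB B && ·) (h B a b c e f g u v x y)
  | emp i => intros; rfl
  | emw i => intros; rfl
  | out a b => intros; rfl
  | neg => intros; rfl
  | leaf c n d d0 d1 d2 d3 =>
    intro B ql qh sl ll vl vh wl wh rl rh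
    change (Nat.ble n 63 && frc (rowsF (Wt.mk wl wh).wl (Wt.mk wl wh).wh G.th n d) fun A =>
      leafF G B ⟨ql, qh, sl, ll, vl, vh⟩ c A d0 d1 d2 d3) =
      (Nat.ble n 63 && force (rows ⟨wl, wh⟩ G.th n d) fun A => leaf G B ⟨ql, qh, sl, ll, vl, vh⟩ (setX c A) d0 d1 d2 d3)
    rw [rowsF_eq, frc_eq, force_eq, leafF_eq]
  | hole n => intros; rfl

end Pool.Agent.P.MP_2e1554_gt.Chk
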