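import Pool.Agent.P.MP_2e1554_gt.IsoC3S
import Pool.Agent.P.MP_2e1554_gt.IsoC3X
import Pool.Agent.P.MP_2e1554_gt.IsoFastC

/-! The table and small boxes. -/

open MeasureTheory Set

namespace Pool.Agent.P.MP_2e1554_gt.Chk

def TcAnti : Prop := ∀ i i' j j' : ℕ, i ≤ i' → j ≤ j' → tcb i' j' ≤ tcb i j

theorem allX_spec {P : ℕ → ℕ → Bool} {n : ℕ} (h : allX P n = true) : ∀ i < n, P i (i + 1) = true := by
  induction n with
  | zero => intro i hi; omega
  | succ n ih =>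
    have e : allX P (n + 1) = force n fun i0 => force (Nat.succ i0) fun i1 =>
      (@Bool.rec (fun _ => Bool) false (allX P n) (P i0 i1)) := rfl
    rw [e, force_eq, force_eq, brand, Bool.and_eq_true] at h
    intro i hi
    rcases Nat.lt_succ_iff_lt_or_eq.1 hi with hi | rfl
    · exact ih h.2 i hi
    · exact h.1

private theorem p_z1 {T a b : ℕ} (h : T >>> a = 0) (hab : a ≤ b) : T >>> b = 0 := by
  obtain ⟨c, rfl⟩ := Nat.exists_eq_add_of_le hab
  rw [Nat.shiftRight_add, h, Nat.zero_shiftRight]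

private theorem p_z2 (x : ℕ) {n k : ℕ} (h : n ≤ k) : (x % 2 ^ n) >>> k = 0 := by
  rw [Nat.shiftRight_eq_div_pow]
  exact Nat.div_eq_of_lt ((Nat.mod_lt _ (Nat.two_pow_pos n)).trans_le
    (Nat.pow_le_pow_right (by norm_num) h))

private theorem p_zi (h' : TB >>> 1327104 = 0) {i : ℕ} (hi : 288 ≤ i) (j : ℕ) : tcb i j = 0 := by
  rw [tcb, p_z1 h' (by omega : 1327104 ≤ 4608 * i), Nat.zero_mod, Nat.zero_shiftRight,
    Nat.zero_mod]

private theorem p_zj (i : ℕ) {j : ℕ} (hj : 288 ≤ j) : tcb i j = 0 := by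
  rw [tcb, p_z2 _ (by omega : 4608 ≤ 16 * j), Nat.zero_mod]

theorem anti_chk (h : antX = true) (h' : Nat.beq (Nat.shiftRight TB 1327104) 0 = true) : TcAnti := by
  have h0 : TB >>> 1327104 = 0 := by
    rw [← nR]
    exact Nat.eq_of_beq_eq_true h'
  have h1 : ∀ i < 288, ∀ j < 288, tcb (i + 1) j ≤ tcb i j ∧ tcb i (j + 1) ≤ tcb i j := by
    intro i hi j hj
    rw [antX] at h
    have h2 := allX_spec (allX_spec h i hi) j hj
    rw [an1, brand, Bool.and_eq_true, Nat.ble_eq, Nat.ble_eq, tcF_eq, tcF_eq, tcF_eq] at h2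
    exact h2
  have s1 : ∀ i j, tcb (i + 1) j ≤ tcb i j := by
    intro i j
    rcases lt_or_ge i 288 with hi | hi
    · rcases lt_or_ge j 288 with hj | hj
      · exact (h1 i hi j hj).1
      · rw [p_zj _ hj]; exact Nat.zero_le _
    · rw [p_zi h0 (by omega : 288 ≤ i + 1)]; exact Nat.zero_le _
  have s2 : ∀ i j, tcb i (j + 1) ≤ tcb i j := by
    intro i j
    rcases lt_or_ge i 288 with hi | hi
    · rcases lt_or_ge j 288 with hj | hj
      · exact (h1 i hi j hj).2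
      · rw [p_zj _ (by omega : 288 ≤ j + 1)]; exact Nat.zero_le _
    · rw [p_zi h0 hi]; exact Nat.zero_le _
  intro i i' j j' hi hj
  have a1 : Antitone fun i => tcb i j' := antitone_nat_of_succ_le fun n => s1 n j'
  have a2 : Antitone fun j => tcb i j := antitone_nat_of_succ_le fun n => s2 i n
  exact (a1 hi).trans (a2 hj)

private theorem p_lt {g i s R : ℕ} (h1 : g * g * s < R) (h : R ≤ i * i * s) : g < i := by
  by_contra hc
  have hc : i ≤ g := not_lt.1 hc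
  have : i * i * s ≤ g * g * s := Nat.mul_le_mul_right _ (Nat.mul_le_mul hc hc)
  omega

private theorem p_ix {R s i : ℕ} (h : R ≤ i * i * s) (g : ℕ) : ix2 R s g ≤ i := by
  have e : ix2 R s g = bif Nat.blt (g * g * s) R then g + 1 else
      bif Nat.blt ((g - 1) * (g - 1) * s) R then g else 0 := by
    rw [ix2, brec, brec, nB, nB, nM, nM, nM, nM, nS, nA]
  rw [e]
  cases h1 : Nat.blt (g * g * s) R
  · cases h2 : Nat.blt ((g - 1) * (g - 1) * s) R
    · exact Nat.zero_le _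
    · have := p_lt (Nat.blt_eq.mp h2) h
      show g ≤ i
      omega
  · exact p_lt (Nat.blt_eq.mp h1) h

theorem ixX_le {R s i : ℕ} (h : R ≤ i * i * s) : ixX R s ≤ i := by
  unfold ixX
  exact p_ix h _

private theorem p_sq {a b : ℕ} {x : ℝ} (h : (a : ℝ) - b ≤ x) :
    ((a - b : ℕ) : ℝ) * ((a - b : ℕ) : ℝ) ≤ x ^ 2 := by
  rcases le_total a b with hab | hab
  · rw [Nat.sub_eq_zero_of_le hab]
    simpa using sq_nonneg x
  · rw [Nat.cast_sub hab]
    have : (0 : ℝ) ≤ (a : ℝ) - b := sub_nonneg.2 (by exact_mod_cast hab)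
    nlinarith

private theorem p_sub (a b : ℕ) : (a : ℝ) - b ≤ ((a - b : ℕ) : ℝ) := by
  rcases le_total a b with hab | hab
  · rw [Nat.sub_eq_zero_of_le hab]
    have : (a : ℝ) ≤ b := by exact_mod_cast hab
    simpa using this
  · rw [Nat.cast_sub hab]

theorem sgX_ge {N b c : ℕ} {m k : ℝ} (hb : N * m ≤ b) (hc : (c : ℝ) ≤ N * k) :
    12 * sv2 m k * N ^ 2 ≤ (sgX N b c : ℝ) := by
  have e : sgX N b c = N * N - (3 * ((N - 2 * b) * (N - 2 * b)) + 12 * (c * N)) := rfl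
  rw [e]
  refine le_trans ?_ (p_sub _ _)
  have h1 := p_sq (a := N) (b := 2 * b) (x := N - 2 * (N * m)) (by push_cast; linarith)
  have h2 : (c : ℝ) * N ≤ N * k * N := mul_le_mul_of_nonneg_right hc (Nat.cast_nonneg _)
  simp only [Nat.cast_add, Nat.cast_mul, Nat.cast_ofNat]
  unfold sv2
  nlinarith

private theorem p_r {u x y N i v s : ℝ} (k1 : u ≤ (N * x) ^ 2) (k2 : x ^ 2 ≤ y ^ 2 * v)
    (hy : y = i / 192) (hs : 12 * v * N ^ 2 ≤ s) : 442368 * u ≤ i * i * s := by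
  have k3 := mul_le_mul_of_nonneg_left k2 (sq_nonneg N)
  have k4 := mul_le_mul_of_nonneg_left hs (sq_nonneg i)
  rw [hy] at k3
  nlinarith

private theorem p_r2 {x W N D V v B y : ℝ} (e2 : x * x * y ≤ W) (hW : W = 12 * 10 ^ 8 * N ^ 2 * D)
    (k2 : 12 * N ^ 2 * D * 1 ≤ 12 * N ^ 2 * D * (V ^ 2 * v * B))
    (k3 : V ^ 2 * (12 * v * N ^ 2 * (B * D)) ≤ V ^ 2 * y) : x ^ 2 * y ≤ (10 ^ 4 * V) ^ 2 * y := by
  nlinarith

theorem sb2_ge (hA : TcAnti) {ψ : ℝ → ℝ} {m k V : ℝ} {i j : ℕ} (h : Sh ψ m k V (i / 192) (j / 192))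
    {N a b s : ℕ} (ha : (a : ℝ) ≤ N * m) (hb : N * m ≤ b) (hs : 12 * sv2 m k * N ^ 2 ≤ (s : ℝ)) :
    tb i j ≤ sb2 N a b s ∧ tb j i ≤ sb2 N a b s := by
  have e : sb2 N a b s = max (tb (ixX (442368 * ((N - b) * (N - b))) s) (ixX (442368 * (a * a)) s))
      (tb (ixX (442368 * (a * a)) s) (ixX (442368 * ((N - b) * (N - b))) s)) := by
    rw [sb2, force_eq, force_eq, sb3, mxF_eq, tbF_eq, tbF_eq]; rfl
  have h1 : 442368 * ((N - b) * (N - b)) ≤ i * i * s := by
    have k1 := p_sq (a := N) (b := b) (x := N * (1 - m)) (by rw [mul_sub, mul_one]; gcongr)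
    exact_mod_cast p_r k1 h.ha rfl hs
  have h2 : 442368 * (a * a) ≤ j * j * s := by
    have k1 : (a : ℝ) * a ≤ (N * m) ^ 2 := by
      rw [pow_two]
      exact mul_self_le_mul_self (Nat.cast_nonneg _) ha
    exact_mod_cast p_r k1 h.hb rfl hs
  have i1 := ixX_le h1
  have j1 := ixX_le h2
  rw [e]
  generalize ixX (442368 * ((N - b) * (N - b))) s = i' at i1 ⊢
  generalize ixX (442368 * (a * a)) s = j' at j1 ⊢
  constructor
  · refine le_trans ?_ (le_max_left _ _)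
    rw [tb, tb]
    exact hA _ _ _ _ (by omega) (by omega)
  · refine le_trans ?_ (le_max_right _ _)
    rw [tb, tb]
    exact hA _ _ _ _ (by omega) (by omega)

theorem sb1_sound (hA : TcAnti) {ψ : ℝ → ℝ} {m k V B D : ℝ} {i j : ℕ}
    (h : Sh ψ m k V (i / 192) (j / 192)) (hV : 103923 ≤ 10 ^ 4 * V) {N a b L W s : ℕ} (hN : 0 < N)
    (ha : (a : ℝ) ≤ N * m) (hb : N * m ≤ b) (hs : 12 * sv2 m k * N ^ 2 ≤ (s : ℝ))
    (hB : 1 ≤ V ^ 2 * sv2 m k * B) (hD : 0 < D) (hL : B * D ≤ L)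
    (hW : (W : ℝ) = 12 * 10 ^ 8 * N ^ 2 * D) (e : sb1 N a b L W s = true) :
    103923 + (tb i j : ℝ) ≤ 10 ^ 4 * V ∧ 103923 + (tb j i : ℝ) ≤ 10 ^ 4 * V := by
  obtain ⟨t1, t2⟩ := sb2_ge hA h ha hb hs
  rw [sb1, bror, bror] at e
  generalize sb2 N a b s = t at t1 t2 e
  have hN' : (0 : ℝ) < N := by exact_mod_cast hN
  have sp := h.sp
  have hs0 : (0 : ℝ) < 12 * sv2 m k * N ^ 2 := by positivity
  have key : 103923 + (t : ℝ) ≤ 10 ^ 4 * V := by
    simp only [Bool.or_eq_true, Nat.ble_eq, Nat.beq_eq] at e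
    rcases e with (e | e) | e
    · have e' : s = 0 := e
      rw [e'] at hs
      simp only [Nat.cast_zero] at hs
      linarith
    · have e' : (103923 + t) * (103923 + t) * s * L ≤ W := e
      have e2 : ((103923 : ℝ) + t) * (103923 + t) * s * L ≤ W := by exact_mod_cast e'
      have hB0 : 0 < B := by
        by_contra hc
        have : V ^ 2 * sv2 m k * B ≤ 0 :=
          mul_nonpos_of_nonneg_of_nonpos (by positivity) (not_lt.1 hc)
        linarith
      have hBD : 0 < B * D := mul_pos hB0 hD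
      have k1 : 12 * sv2 m k * N ^ 2 * (B * D) ≤ s * L :=
        mul_le_mul hs hL hBD.le (Nat.cast_nonneg _)
      have k0 : (0 : ℝ) < s * L := lt_of_lt_of_le (mul_pos hs0 hBD) k1
      have k2 : 12 * (N : ℝ) ^ 2 * D * 1 ≤ 12 * N ^ 2 * D * (V ^ 2 * sv2 m k * B) :=
        mul_le_mul_of_nonneg_left hB (by positivity)
      have k3 := mul_le_mul_of_nonneg_left k1 (sq_nonneg V)
      rw [mul_assoc] at e2
      have k4 := p_r2 e2 hW k2 k3
      exact le_of_sq_le_sq (le_of_mul_le_mul_right k4 k0) (by linarith)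
    · have e' : t = 0 := e
      rw [e']
      simpa using hV
  have c1 : (tb i j : ℝ) ≤ t := by exact_mod_cast t1
  have c2 : (tb j i : ℝ) ≤ t := by exact_mod_cast t2
  constructor <;> linarith

end Pool.Agent.P.MP_2e1554_gt.Chk
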