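import Pool.Agent.P.MP_2e1554_gt.IsoC3M

/-! A smooth version of the majorant. -/

open MeasureTheory Set

namespace Pool.Agent.P.MP_2e1554_gt.Chk

noncomputable def Ge (η T z : ℝ) : ℝ := 3 * T ^ 2 * z + 2 * T ^ 3 + max (z - 2 * T) 0 ^ 3 +
  6 * T * max (z - 2 * T) 0 ^ 2 + 9 * T ^ 2 * (max (z - 2 * T) 0 ^ 2 / (max (z - 2 * T) 0 + η))
/-- the derivative of `Ge` in `z` -/
noncomputable def gE (η T z : ℝ) : ℝ := 3 * T ^ 2 + 3 * max (z - 2 * T) 0 ^ 2 +
  12 * T * max (z - 2 * T) 0 + 9 * T ^ 2 * (1 - η ^ 2 / (max (z - 2 * T) 0 + η) ^ 2)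

private theorem q1_cube (T z : ℝ) : (z + T) ^ 2 * max (z - 2 * T) 0 = max (z - 2 * T) 0 ^ 3 +
    6 * T * max (z - 2 * T) 0 ^ 2 + 9 * T ^ 2 * max (z - 2 * T) 0 := by
  rcases le_total (z - 2 * T) 0 with h | h
  · rw [max_eq_right h]
    ring
  · rw [max_eq_left h]
    ring

private theorem q1_tan {η a b : ℝ} (hη : 0 < η) (ha : 0 ≤ a) (hb : 0 ≤ b) :
    a ^ 2 / (a + η) + (1 - η ^ 2 / (a + η) ^ 2) * (b - a) ≤ b ^ 2 / (b + η) := by
  have h1 : 0 < a + η := by linarith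
  have h2 : 0 < b + η := by linarith
  have e : b ^ 2 / (b + η) - (a ^ 2 / (a + η) + (1 - η ^ 2 / (a + η) ^ 2) * (b - a)) =
      η ^ 2 * (b - a) ^ 2 / ((a + η) ^ 2 * (b + η)) := by
    field_simp
    ring
  have h3 : 0 ≤ η ^ 2 * (b - a) ^ 2 / ((a + η) ^ 2 * (b + η)) := by positivity
  linarith

private theorem q1_slope {η a : ℝ} (hη : 0 < η) (ha : 0 ≤ a) : 0 ≤ 1 - η ^ 2 / (a + η) ^ 2 :=
  sub_nonneg.2 (div_le_one_of_le₀ (pow_le_pow_left₀ hη.le (by linarith) 2) (sq_nonneg _))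

/-- `Gc_eq`; with `u = max (z - 2 T) 0`: `(z + T)² u = u³ + 6 T u² + 9 T² u`, `u² / (u + η) ≤ u` -/
theorem Ge_le {η T : ℝ} (hη : 0 < η) (z : ℝ) : Ge η T z ≤ Gc T z := by
  have hu := le_max_right (z - 2 * T) 0
  have h1 : max (z - 2 * T) 0 ^ 2 / (max (z - 2 * T) 0 + η) ≤ max (z - 2 * T) 0 := by
    rw [div_le_iff₀ (by linarith)]
    nlinarith [mul_nonneg hu hη.le]
  have h2 := mul_le_mul_of_nonneg_left h1 (by positivity : 0 ≤ 9 * T ^ 2)
  rw [Gc_eq, q1_cube, Ge]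
  linarith
/-- `u - η ≤ u² / (u + η)` -/
theorem le_Ge {η T : ℝ} (hη : 0 < η) (z : ℝ) : Gc T z ≤ Ge η T z + 9 * T ^ 2 * η := by
  have hu := le_max_right (z - 2 * T) 0
  have h1 : max (z - 2 * T) 0 - η ≤ max (z - 2 * T) 0 ^ 2 / (max (z - 2 * T) 0 + η) := by
    rw [le_div_iff₀ (by linarith)]
    nlinarith [sq_nonneg η]
  have h2 := mul_le_mul_of_nonneg_left h1 (by positivity : 0 ≤ 9 * T ^ 2)
  rw [Gc_eq, q1_cube, Ge]
  linarith
theorem gE_nonneg {η T : ℝ} (hη : 0 < η) (hT : 0 ≤ T) (z : ℝ) : 0 ≤ gE η T z := by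
  have hu := le_max_right (z - 2 * T) 0
  have h1 := q1_slope hη hu
  rw [gE]
  positivity
/-- with `a = max (y - 2T) 0`, `b = max (z - 2T) 0`: each of `u³, u², f u = u² / (u + η)` lies above
its tangent at `a` (`f b - f a - f' a (b - a) = η² (b - a)² / ((a + η)² (b + η))`), the slopes are
nonnegative and vanish for `a = 0`, and `z - y ≤ b - a` if `0 < a` -/
theorem Ge_tan {η T : ℝ} (hη : 0 < η) (hT : 0 ≤ T) (y z : ℝ) :
    Ge η T y + gE η T y * (z - y) ≤ Ge η T z := by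
  have ha := le_max_right (y - 2 * T) 0
  have hb := le_max_right (z - 2 * T) 0
  have hb' := le_max_left (z - 2 * T) 0
  have h1 := mul_le_mul_of_nonneg_left (q1_tan hη ha hb) (by positivity : 0 ≤ 9 * T ^ 2)
  have h2 := q1_slope hη ha
  have h3 : (3 * max (y - 2 * T) 0 ^ 2 + 12 * T * max (y - 2 * T) 0 +
      9 * T ^ 2 * (1 - η ^ 2 / (max (y - 2 * T) 0 + η) ^ 2)) * (z - y) ≤
      (3 * max (y - 2 * T) 0 ^ 2 + 12 * T * max (y - 2 * T) 0 +
      9 * T ^ 2 * (1 - η ^ 2 / (max (y - 2 * T) 0 + η) ^ 2)) *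
        (max (z - 2 * T) 0 - max (y - 2 * T) 0) := by
    rcases le_total (y - 2 * T) 0 with h | h
    · rw [max_eq_right h, zero_add η, div_self (pow_ne_zero 2 hη.ne')]
      simp
    · refine mul_le_mul_of_nonneg_left ?_ (by positivity)
      rw [max_eq_left h]
      linarith
  rw [Ge, Ge, gE]
  generalize max (y - 2 * T) 0 = a at *
  generalize max (z - 2 * T) 0 = b at *
  have h4 : 0 ≤ (b - a) ^ 2 * (b + 2 * a) := by positivity
  have h5 : 0 ≤ T * (b - a) ^ 2 := by positivity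
  nlinarith
theorem Ge_cont {η : ℝ} (hη : 0 < η) : Continuous fun p : ℝ × ℝ => Ge η p.1 p.2 := by
  have h : ∀ p : ℝ × ℝ, max (p.2 - 2 * p.1) 0 + η ≠ 0 := fun p =>
    (add_pos_of_nonneg_of_pos (le_max_right _ _) hη).ne'
  unfold Ge
  fun_prop (disch := exact h _)
theorem gE_cont {η : ℝ} (hη : 0 < η) : Continuous fun p : ℝ × ℝ => gE η p.1 p.2 := by
  have h : ∀ p : ℝ × ℝ, (max (p.2 - 2 * p.1) 0 + η) ^ 2 ≠ 0 := fun p =>
    pow_ne_zero 2 (add_pos_of_nonneg_of_pos (le_max_right _ _) hη).ne'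
  unfold gE
  fun_prop (disch := exact h)

/-- `Continuous.comp_aestronglyMeasurable` for `x ↦ (x, ψ x)`; a bound on `Icc 0 1 ×ˢ Icc (-C) C` -/
theorem BM.comp {ψ : ℝ → ℝ} (hψ : BM 0 1 ψ) {F : ℝ → ℝ → ℝ}
    (hF : Continuous fun q : ℝ × ℝ => F q.1 q.2) : BM 0 1 fun x => F x (ψ x) := by
  obtain ⟨hm, C, hC⟩ := hψ
  refine ⟨hF.comp_aestronglyMeasurable (aestronglyMeasurable_id.prodMk hm), ?_⟩
  obtain ⟨D, hD⟩ := ((isCompact_Icc (a := (0 : ℝ)) (b := 1)).prod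
    (isCompact_Icc (a := -C) (b := C))).exists_bound_of_continuousOn hF.continuousOn
  exact ⟨D, fun x hx => hD (x, ψ x) ⟨hx, abs_le.1 (hC x hx)⟩⟩
/-- `intervalIntegral.continuousAt_of_dominated_interval` with a constant bound on the compact set
`closedBall e 1 ×ˢ Icc 0 1 ×ˢ Icc (-C) C` -/
theorem par_cont {ψ : ℝ → ℝ} (hψ : BM 0 1 ψ) {F : ℝ × ℝ → ℝ → ℝ → ℝ}
    (hF : Continuous fun q : (ℝ × ℝ) × ℝ × ℝ => F q.1 q.2.1 q.2.2) :
    Continuous fun e => ∫ x in (0 : ℝ)..1, F e x (ψ x) := by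
  have hsub : uIoc (0 : ℝ) 1 ⊆ Icc 0 1 := by
    rw [uIoc_of_le zero_le_one]
    exact Ioc_subset_Icc_self
  refine continuous_iff_continuousAt.2 fun e => ?_
  obtain ⟨C, hC⟩ := hψ.2
  obtain ⟨D, hD⟩ := ((isCompact_closedBall e 1).prod ((isCompact_Icc (a := (0 : ℝ)) (b := 1)).prod
    (isCompact_Icc (a := -C) (b := C)))).exists_bound_of_continuousOn hF.continuousOn
  refine intervalIntegral.continuousAt_of_dominated_interval (bound := fun _ => D)
    (Filter.Eventually.of_forall fun e' => ?_) ?_ intervalIntegrable_const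
    (Filter.Eventually.of_forall fun t _ => ?_)
  · have h1 : Continuous fun q : ℝ × ℝ => F e' q.1 q.2 :=
      hF.comp (continuous_const.prodMk continuous_id)
    exact (hψ.comp h1).1.mono_measure (Measure.restrict_mono hsub le_rfl)
  · filter_upwards [Metric.closedBall_mem_nhds e one_pos] with e' he'
    exact Filter.Eventually.of_forall fun t ht =>
      hD (e', t, ψ t) ⟨he', hsub ht, abs_le.1 (hC t (hsub ht))⟩
  · have h1 : Continuous fun e' : ℝ × ℝ => F e' t (ψ t) :=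
      hF.comp (continuous_id.prodMk (continuous_const (y := (t, ψ t))))
    exact h1.continuousAt

end Pool.Agent.P.MP_2e1554_gt.Chk
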