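import Pool.Agent.P.MP_2e1554_gt.IsoDefs

/-! A lower bound for the area from two opposite supports: definitions. -/

open MeasureTheory Set

namespace Pool.Agent.P.MP_2e1554_gt.Chk

/-- bounded and measurable on `[a, b]` -/
def BM (a b : ℝ) (f : ℝ → ℝ) : Prop :=
  AEStronglyMeasurable f (volume.restrict (Icc a b)) ∧ ∃ C, ∀ x ∈ Icc a b, |f x| ≤ C

/-- an isotropic body `{(u, y) : α ≤ u ≤ β, -l u ≤ y ≤ U u}` of area `V` -/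
structure Shk (U l : ℝ → ℝ) (α β V : ℝ) : Prop where
  lt : α < β
  pos : 0 < V
  cU : ConcaveOn ℝ (Icc α β) U
  cl : ConcaveOn ℝ (Icc α β) l
  bU : BM α β U
  bl : BM α β l
  nn : ∀ u ∈ Icc α β, 0 ≤ U u + l u
  m0 : ∫ u in α..β, (U u + l u) = V
  m1 : ∫ u in α..β, u * (U u + l u) = 0
  m2 : ∫ u in α..β, u ^ 2 * (U u + l u) = V
  n0 : ∫ u in α..β, (U u ^ 2 - l u ^ 2) = 0
  n1 : ∫ u in α..β, u * (U u ^ 2 - l u ^ 2) = 0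
  n2 : ∫ u in α..β, (U u ^ 3 + l u ^ 3) = 3 * V

/-- a concave density on `[0, 1]` -/
structure Sk (ψ : ℝ → ℝ) (m k : ℝ) : Prop where
  cc : ConcaveOn ℝ (Icc 0 1) ψ
  nn : ∀ x ∈ Icc (0 : ℝ) 1, 0 ≤ ψ x
  m0 : ∫ x in (0 : ℝ)..1, ψ x = 1
  m1 : ∫ x in (0 : ℝ)..1, x * ψ x = m
  m2 : ∫ x in (0 : ℝ)..1, x ^ 2 * ψ x = m - 1 / 6 - k

/-- the variance -/
noncomputable def sv2 (m k : ℝ) : ℝ := 1 / 12 - (m - 1 / 2) ^ 2 - k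
/-- the integral of the cube of an affine function -/
noncomputable def cl3 (e0 e1 : ℝ) : ℝ := (e0 + e1) * (e0 ^ 2 + e1 ^ 2) / 4

structure Sh (ψ : ℝ → ℝ) (m k V a b : ℝ) : Prop extends Sk ψ m k where
  sp : 0 < sv2 m k
  ha : (1 - m) ^ 2 ≤ a ^ 2 * sv2 m k
  hb : m ^ 2 ≤ b ^ 2 * sv2 m k
  hV : ∀ e0 e1 : ℝ, 3 ≤ V ^ 2 * sv2 m k *
    ((∫ x in (0 : ℝ)..1, (ψ x - (e0 * (1 - x) + e1 * x)) ^ 3) + cl3 e0 e1)

/-- a convex majorant of the cube -/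
noncomputable def Gc (T z : ℝ) : ℝ := max (z ^ 3) (3 * T ^ 2 * z + 2 * T ^ 3)
def Am (m x : ℝ) : ℝ := 4 - 6 * m + (12 * m - 6) * x
def Lu (u x : ℝ) : ℝ := 12 * (x * u ^ 2 + (2 * x - 1) * u)
/-- a tent with moments `0, 0, -1` -/
noncomputable def Rp (p x : ℝ) : ℝ := min (Lu (1 / p) x) (Lu (1 / (1 - p)) (1 - x))
noncomputable def FF (T : ℝ → ℝ) (e0 e1 l0 l1 m k p : ℝ) : ℝ :=
  (∫ x in (0 : ℝ)..1, Gc (T x) (Am m x + k * Rp p x - (e0 * (1 - x) + e1 * x))) +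
    l0 * (4 - 6 * m - 12 * k / p) + l1 * (6 * m - 2 - 12 * k / (1 - p))
noncomputable def IG (T : ℝ → ℝ) (c w0 w1 : ℝ) : ℝ :=
  ∫ x in (0 : ℝ)..c, Gc (T x) (w0 * (1 - x) + w1 * x)
noncomputable def HH (T : ℝ → ℝ) (c e0 e1 la m k u : ℝ) : ℝ :=
  IG T c (4 - 6 * m - e0 - 12 * k * u) (6 * m - 2 - e1 + 12 * k * (u ^ 2 + u)) +
    la * (4 - 6 * m - 12 * k * u)
/-- the point of contact -/
noncomputable def Tr (sa xa sb xb : ℕ) (x : ℝ) : ℝ :=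
  sa / 2 ^ 20 * max (xa / 2 ^ 14 - x) 0 + sb / 2 ^ 20 * max (x - xb / 2 ^ 14) 0
/-- affine on an interval -/
def Af (f : ℝ → ℝ) (a b : ℝ) : Prop := ∃ s t : ℝ, ∀ x ∈ Icc a b, f x = s + t * x

end Pool.Agent.P.MP_2e1554_gt.Chk
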