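import Pool.Agent.P.MP_2e1554_gt.IsoPk

open Finset

namespace Pool.Agent.P.MP_2e1554_gt

private theorem add_lanes {X Y N : ℕ} (hX : X < 2 ^ (64 * N)) (hY : Y < 2 ^ (64 * N))
    (h : ∀ i, dg X i + dg Y i < 2 ^ 64) :
    X + Y < 2 ^ (64 * N) ∧ ∀ i, dg (X + Y) i = dg X i + dg Y i := by
  have e : X + Y = pk (fun i => dg X i + dg Y i) N := by
    conv_lhs => rw [← pk_dg hX, ← pk_dg hY]
    unfold pk
    rw [← Finset.sum_add_distrib]
    exact Finset.sum_congr rfl fun i _ => by ring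
  refine ⟨e ▸ pk_lt fun i _ => h i, fun i => ?_⟩
  rw [e, dg_pk fun i _ => h i]
  split_ifs with hi
  · rfl
  · rw [dg_of_ge hX (not_lt.mp hi), dg_of_ge hY (not_lt.mp hi)]

theorem Bd.add {X Y N a b : ℕ} (hX : Bd X N a) (hY : Bd Y N b) (h : a + b < 2 ^ 64) :
    Bd (X + Y) N (a + b) ∧ ∀ i, dg (X + Y) i = dg X i + dg Y i := by
  obtain ⟨h1, h2⟩ := add_lanes hX.1 hY.1
    (fun i => lt_of_le_of_lt (Nat.add_le_add (hX.2 i) (hY.2 i)) h)
  exact ⟨⟨h1, fun i => (h2 i).trans_le (Nat.add_le_add (hX.2 i) (hY.2 i))⟩, h2⟩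

theorem Bd.smul {X N a c : ℕ} (hX : Bd X N a) (h : c * a < 2 ^ 64) :
    Bd (c * X) N (c * a) ∧ ∀ i, dg (c * X) i = c * dg X i := by
  have hl : ∀ i, c * dg X i ≤ c * a := fun i => Nat.mul_le_mul_left c (hX.2 i)
  have e : c * X = Pool.Agent.P.MP_2e1554_gt.pk (fun i => c * dg X i) N := by
    conv_lhs => rw [← pk_dg hX.1]
    unfold Pool.Agent.P.MP_2e1554_gt.pk
    rw [Finset.mul_sum]
    exact Finset.sum_congr rfl fun i _ => by ring
  refine ⟨e ▸ Bd.pk h fun i _ => hl i, fun i => ?_⟩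
  rw [e, dg_pk fun i _ => lt_of_le_of_lt (hl i) h]
  split_ifs with hi
  · rfl
  · rw [dg_of_ge hX.1 (not_lt.mp hi), mul_zero]

theorem Bd.sub {X Y N a b : ℕ} (hX : Bd X N a) (hY : Bd Y N b) (h : ∀ i, dg Y i ≤ dg X i) :
    Bd (X - Y) N a ∧ ∀ i, dg (X - Y) i = dg X i - dg Y i := by
  have hl : ∀ i, dg X i - dg Y i < 2 ^ 64 := fun i => lt_of_le_of_lt (Nat.sub_le _ _) (dg_lt X i)
  have e : X - Y = Pool.Agent.P.MP_2e1554_gt.pk (fun i => dg X i - dg Y i) N := by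
    apply Nat.sub_eq_of_eq_add
    conv_lhs => rw [← pk_dg hX.1]
    conv_rhs => rw [← pk_dg hY.1]
    conv_rhs => enter [1]; rw [pk_dg hY.1]
    unfold Pool.Agent.P.MP_2e1554_gt.pk
    rw [← Finset.sum_add_distrib]
    refine Finset.sum_congr rfl fun i _ => ?_
    rw [← mul_add, Nat.sub_add_cancel (h i)]
  have h2 : ∀ i, dg (X - Y) i = dg X i - dg Y i := by
    intro i
    rw [e, dg_pk fun i _ => hl i]
    split_ifs with hi
    · rfl
    · rw [dg_of_ge hX.1 (not_lt.mp hi), Nat.zero_sub]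
  exact ⟨⟨lt_of_le_of_lt (Nat.sub_le _ _) hX.1,
    fun i => (h2 i).trans_le ((Nat.sub_le _ _).trans (hX.2 i))⟩, h2⟩

private theorem pk_mul_kron {c d : ℕ → ℕ} {n : ℕ} (hn : 0 < n)
    (h0 : ∀ l, l % n ≠ 0 → d l = 0) (K : ℕ) :
    pk c n * pk d (n * K) = pk (fun l => c (l % n) * d (n * (l / n))) (n * K) := by
  induction K with
  | zero => simp [pk]
  | succ K ih =>
    have e1 : pk d (n * (K + 1)) = pk d (n * K) + 2 ^ (64 * (n * K)) * d (n * K) := by
      unfold pk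
      rw [mul_add_one, Finset.sum_range_add]
      congr 1
      rw [Finset.sum_eq_single_of_mem 0 (Finset.mem_range.mpr hn)]
      · rw [add_zero]
      · intro i hi hi0
        have hi' := Finset.mem_range.mp hi
        rw [h0 (n * K + i) (by rw [Nat.mul_add_mod, Nat.mod_eq_of_lt hi']; exact hi0), mul_zero]
    rw [e1, mul_add, ih]
    unfold pk
    rw [mul_add_one, Finset.sum_range_add, Finset.sum_mul]
    congr 1
    refine Finset.sum_congr rfl fun i hi => ?_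
    have hi' := Finset.mem_range.mp hi
    beta_reduce
    rw [Nat.mul_add_mod, Nat.mod_eq_of_lt hi', Nat.mul_add_div hn, Nat.div_eq_of_lt hi', add_zero,
      mul_add, pow_add]
    ring

/-- Kronecker product of a row with a column pattern -/
theorem Bd.kron {W P n K a b : ℕ} (hW : Bd W n a) (hP : Bd P (n * K) b)
    (h0 : ∀ l, l % n ≠ 0 → dg P l = 0) (h : a * b < 2 ^ 64) :
    Bd (W * P) (n * K) (a * b) ∧
      ∀ k i, i < n → dg (W * P) (n * k + i) = dg W i * dg P (n * k) := by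
  rcases Nat.eq_zero_or_pos n with rfl | hn
  · have hW0 : W = 0 := by simpa using hW.1
    subst hW0
    refine ⟨⟨by simp, fun i => by simp [dg]⟩, fun k i hi => absurd hi (Nat.not_lt_zero i)⟩
  have hl : ∀ l, dg W (l % n) * dg P (n * (l / n)) ≤ a * b :=
    fun l => Nat.mul_le_mul (hW.2 _) (hP.2 _)
  have e : W * P = Pool.Agent.P.MP_2e1554_gt.pk
      (fun l => dg W (l % n) * dg P (n * (l / n))) (n * K) := by
    rw [← pk_mul_kron hn h0 K, pk_dg hW.1, pk_dg hP.1]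
  refine ⟨e ▸ Bd.pk h fun l _ => hl l, fun k i hi => ?_⟩
  rw [e, dg_pk fun l _ => lt_of_le_of_lt (hl l) h]
  split_ifs with hk
  · rw [Nat.mul_add_mod, Nat.mod_eq_of_lt hi, Nat.mul_add_div hn, Nat.div_eq_of_lt hi, add_zero]
  · have hKk : K ≤ k := by
      by_contra hc
      have h1 : n * (k + 1) ≤ n * K := Nat.mul_le_mul_left n (not_le.mp hc)
      rw [mul_add_one] at h1
      omega
    rw [dg_of_ge hP.1 (Nat.mul_le_mul_left n hKk), mul_zero]

/-- lanewise comparison -/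
theorem Bd.cmp {X Y H N a b : ℕ} (hX : Bd X N a) (hY : Bd Y N b) (ha : a < 2 ^ 63)
    (hb : b < 2 ^ 63) (hH : H = Pool.Agent.P.MP_2e1554_gt.pk (fun _ => 2 ^ 63) N) {i : ℕ}
    (hi : i < N) : dg ((Y + H - X) &&& H) i = if dg X i ≤ dg Y i then 2 ^ 63 else 0 := by
  have hHb : Bd H N (2 ^ 63) := hH ▸ Bd.pk (by norm_num) fun _ _ => le_rfl
  have hHd : ∀ l, dg H l = if l < N then 2 ^ 63 else 0 := fun l => by
    rw [hH, dg_pk fun _ _ => by norm_num]
  obtain ⟨h1, h2⟩ := hY.add hHb (by omega)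
  obtain ⟨_, h4⟩ := h1.sub hX (fun l => by
    rw [h2, hHd]
    split_ifs with hl
    · have := hX.2 l
      omega
    · rw [dg_of_ge hX.1 (not_lt.mp hl)]
      exact Nat.zero_le _)
  rw [dg_land, h4, h2, hHd, if_pos hi, Nat.and_two_pow, Nat.testBit_eq_decide_div_mod_eq]
  have hx := hX.2 i
  have hy := hY.2 i
  split_ifs with hc
  · have : (dg Y i + 2 ^ 63 - dg X i) / 2 ^ 63 % 2 = 1 := by omega
    rw [decide_eq_true this, Bool.toNat_true, one_mul]
  · have : ¬ (dg Y i + 2 ^ 63 - dg X i) / 2 ^ 63 % 2 = 1 := by omega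
    rw [decide_eq_false this, Bool.toNat_false, zero_mul]

theorem Bd.of_land {X M N b : ℕ} (hb : b ≤ 64)
    (hM : M = Pool.Agent.P.MP_2e1554_gt.pk (fun _ => 2 ^ b - 1) N) :
    Bd (X &&& M) N (2 ^ b - 1) := by
  have h1 : 2 ^ b - 1 < 2 ^ 64 := by
    have h2 : 2 ^ b ≤ 2 ^ 64 := Nat.pow_le_pow_right (by norm_num) hb
    have h3 : 0 < 2 ^ b := Nat.two_pow_pos b
    omega
  have hMb : Bd M N (2 ^ b - 1) := hM ▸ Bd.pk h1 fun _ _ => le_rfl
  refine ⟨lt_of_le_of_lt Nat.and_le_right hMb.1, fun i => ?_⟩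
  rw [dg_land]
  exact Nat.and_le_right.trans (hMb.2 i)

theorem Bd.sum {X N a : ℕ} (hX : Bd X N a) (h : N * a < 2 ^ 64 - 1) :
    X % (2 ^ 64 - 1) = ∑ i ∈ range N, dg X i := by
  have h1 : ∑ i ∈ range N, dg X i ≤ N * a := by
    have := Finset.sum_le_card_nsmul (range N) (dg X) a fun i _ => hX.2 i
    rwa [Finset.card_range, smul_eq_mul] at this
  have h2 : (2 : ℕ) ^ 64 ≡ 1 [MOD 2 ^ 64 - 1] := by
    unfold Nat.ModEq
    norm_num
  have h3 : ∀ M, Pool.Agent.P.MP_2e1554_gt.pk (dg X) M ≡ ∑ i ∈ range M, dg X i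
      [MOD 2 ^ 64 - 1] := by
    intro M
    unfold Pool.Agent.P.MP_2e1554_gt.pk
    induction M with
    | zero => simp only [Finset.range_zero, Finset.sum_empty]; rfl
    | succ M ih =>
      rw [Finset.sum_range_succ, Finset.sum_range_succ]
      refine ih.add ?_
      have h4 := (h2.pow M).mul_right (dg X M)
      rwa [one_pow, one_mul, ← pow_mul] at h4
  have h5 := h3 N
  rw [pk_dg hX.1] at h5
  rw [h5, Nat.mod_eq_of_lt (lt_of_le_of_lt h1 h)]

private theorem bd_sum {Z : ℕ → ℕ} {N e : ℕ} (M : ℕ) (hZ : ∀ i < M, Bd (Z i) N e)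
    (h : M * e < 2 ^ 64) :
    Bd (∑ i ∈ range M, Z i) N (M * e) ∧
      ∀ l, dg (∑ i ∈ range M, Z i) l = ∑ i ∈ range M, dg (Z i) l := by
  induction M with
  | zero => exact ⟨⟨by simp, fun i => by simp [dg]⟩, fun l => by simp [dg]⟩
  | succ M ih =>
    rw [add_one_mul] at h ⊢
    obtain ⟨h1, h2⟩ := ih (fun i hi => hZ i (by omega)) (by omega)
    obtain ⟨h3, h4⟩ := h1.add (hZ M (by omega)) h
    rw [Finset.sum_range_succ]
    exact ⟨h3, fun l => by rw [h4, h2, Finset.sum_range_succ]⟩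

theorem Bd.dot {X Y N a b : ℕ} (hX : Bd X (N + 1) a) (hY : Bd Y (N + 1) b)
    (h : (N + 1) * (a * b) < 2 ^ 64) :
    dg (X * Y) N = ∑ i ∈ range (N + 1), dg X i * dg Y (N - i) := by
  have hab : a * b < 2 ^ 64 := lt_of_le_of_lt (Nat.le_mul_of_pos_left _ (Nat.succ_pos N)) h
  have hs : ∀ i < N + 1, Bd (dg X i * Y <<< (64 * i)) (N + 1 + (N + 1)) (a * b) ∧
      ∀ l, dg (dg X i * Y <<< (64 * i)) l = dg X i * dg (Y <<< (64 * i)) l := by
    intro i hi
    have h1 : dg X i * b ≤ a * b := Nat.mul_le_mul_right b (hX.2 i)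
    obtain ⟨h2, h3⟩ := (hY.shiftLeft i).smul (c := dg X i) (lt_of_le_of_lt h1 hab)
    exact ⟨h2.mono (by omega) h1, h3⟩
  have e : X * Y = ∑ i ∈ range (N + 1), dg X i * Y <<< (64 * i) := by
    conv_lhs => rw [← pk_dg hX.1]
    unfold Pool.Agent.P.MP_2e1554_gt.pk
    rw [Finset.sum_mul]
    refine Finset.sum_congr rfl fun i _ => ?_
    rw [Nat.shiftLeft_eq]
    ring
  rw [e, (bd_sum (N + 1) (fun i hi => (hs i hi).1) h).2]
  refine Finset.sum_congr rfl fun i hi => ?_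
  have hi' := Finset.mem_range.mp hi
  rw [(hs i hi').2, dg_shiftLeft, if_pos (by omega)]

private theorem one_lane {u i N : ℕ} (hu : u < 2 ^ 64) (hi : i < N) :
    Bd (u <<< (64 * i)) N u ∧ ∀ l, dg (u <<< (64 * i)) l = if l = i then u else 0 := by
  have h0 : dg u 0 = u := by
    unfold dg
    rw [mul_zero, pow_zero, Nat.div_one, Nat.mod_eq_of_lt hu]
  have h1 : u < 2 ^ (64 * 1) := by rwa [mul_one]
  have hb : Bd u 1 u := by
    refine ⟨h1, fun l => ?_⟩
    rcases Nat.eq_zero_or_pos l with rfl | hl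
    · exact h0.le
    · rw [dg_of_ge h1 hl]
      exact Nat.zero_le _
  refine ⟨(hb.shiftLeft i).mono (by omega) le_rfl, fun l => ?_⟩
  rw [dg_shiftLeft]
  by_cases hl : l = i
  · subst hl
    rw [if_pos le_rfl, if_pos rfl, Nat.sub_self, h0]
  · rw [if_neg hl]
    split_ifs with h2
    · exact dg_of_ge h1 (by omega)
    · rfl

/-- overwrite one lane -/
theorem Bd.upd {X N a i v : ℕ} (hX : Bd X N a) (hi : i < N) (hv : v ≤ a) (ha : a < 2 ^ 64) :
    Bd (X - dg X i <<< (64 * i) + v <<< (64 * i)) N a ∧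
      ∀ l, dg (X - dg X i <<< (64 * i) + v <<< (64 * i)) l = if l = i then v else dg X l := by
  obtain ⟨h1, h2⟩ := one_lane (dg_lt X i) hi
  obtain ⟨h3, h4⟩ := one_lane (lt_of_le_of_lt hv ha) hi
  obtain ⟨h5, h6⟩ := hX.sub h1 (fun l => by
    rw [h2]
    split_ifs with hl
    · rw [hl]
    · exact Nat.zero_le _)
  have h7 : ∀ l, dg (X - dg X i <<< (64 * i)) l + dg (v <<< (64 * i)) l =
      if l = i then v else dg X l := by
    intro l
    rw [h6, h2, h4]
    split_ifs with hl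
    · rw [hl, Nat.sub_self, zero_add]
    · rw [Nat.sub_zero, add_zero]
  have h8 : ∀ l, (if l = i then v else dg X l) ≤ a := by
    intro l
    split_ifs
    · exact hv
    · exact hX.2 l
  obtain ⟨h9, h10⟩ := add_lanes h5.1 h3.1 (fun l => by
    rw [h7]
    exact lt_of_le_of_lt (h8 l) ha)
  exact ⟨⟨h9, fun l => by rw [h10, h7]; exact h8 l⟩, fun l => by rw [h10, h7]⟩

end Pool.Agent.P.MP_2e1554_gt
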