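import Pool.Agent.P.MP_2e1554_gt.LocA

open MeasureTheory Set Finset

namespace Pool.Agent.P.MP_2e1554_gt

/-- product exponential weight on the orthant -/
noncomputable def wn {n : ℕ} (x : Fin n → ℝ) : ℝ := ∏ i, w (x i)

lemma wn_nonneg {n : ℕ} (x : Fin n → ℝ) : 0 ≤ wn x := Finset.prod_nonneg fun _ _ => w_nonneg _

lemma measurable_wn {n : ℕ} : Measurable (wn : (Fin n → ℝ) → ℝ) :=
  Finset.measurable_prod _ fun i _ => measurable_w.comp (measurable_pi_apply i)

lemma wn_of_nonneg {n : ℕ} {x : Fin n → ℝ} (h : 0 ≤ x) : wn x = Real.exp (-∑ i, x i) := by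
  unfold wn
  rw [← Finset.sum_neg_distrib, Real.exp_sum]
  exact Finset.prod_congr rfl fun i _ => w_of_nonneg (h i)

lemma wn_of_not {n : ℕ} {x : Fin n → ℝ} (h : ¬ 0 ≤ x) : wn x = 0 := by
  rw [Pi.le_def] at h
  push Not at h
  obtain ⟨i, hi⟩ := h
  exact Finset.prod_eq_zero (Finset.mem_univ i) (w_of_neg hi)

lemma integrable_wn {n : ℕ} : Integrable (wn : (Fin n → ℝ) → ℝ) :=
  Integrable.fintype_prod (f := fun _ : Fin n => w) (fun _ => integrable_w)

lemma integral_wn {n : ℕ} : ∫ x : Fin n → ℝ, wn x = 1 := by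
  unfold wn
  rw [integral_fintype_prod_volume_eq_pow (ι := Fin n) w, integral_w, one_pow]

/-- polynomial growth on the orthant -/
def Poly {n : ℕ} (F : (Fin n → ℝ) → ℝ) : Prop :=
  Measurable F ∧ ∃ C : ℝ, ∃ k : ℕ, ∀ x, 0 ≤ x → |F x| ≤ C * (1 + ∑ i, x i) ^ k

lemma sum_nonneg_of {n : ℕ} {x : Fin n → ℝ} (h : 0 ≤ x) : 0 ≤ ∑ i, x i :=
  Finset.sum_nonneg fun i _ => h i

lemma pow_le_exp_half (k : ℕ) {s : ℝ} (hs : 0 ≤ s) :
    s ^ k ≤ 2 ^ k * k.factorial * Real.exp (s / 2) := by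
  have h := Real.pow_div_factorial_le_exp (s / 2) (by positivity) k
  rw [div_le_iff₀ (by positivity), div_pow, div_le_iff₀ (by positivity)] at h
  linarith

lemma Poly.integrable {n : ℕ} {F : (Fin n → ℝ) → ℝ} (hF : Poly F) :
    Integrable (fun x => wn x * F x) := by
  obtain ⟨hm, C, k, hC⟩ := hF
  have h0 : 0 ≤ C := by
    have := (abs_nonneg _).trans (hC 0 le_rfl)
    simpa using this
  have hi : Integrable (fun x : Fin n → ℝ => wn ((1 / 2 : ℝ) • x)) :=
    integrable_wn.comp_smul (by norm_num)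
  refine (hi.const_mul (C * (2 ^ k * k.factorial * Real.exp (1 / 2)))).mono'
    (measurable_wn.mul hm).aestronglyMeasurable (ae_of_all _ fun x => ?_)
  by_cases h : 0 ≤ x
  · have h' : (0 : Fin n → ℝ) ≤ (1 / 2 : ℝ) • x := smul_nonneg (by norm_num) h
    rw [Real.norm_eq_abs, abs_mul, abs_of_nonneg (wn_nonneg x), wn_of_nonneg h, wn_of_nonneg h']
    have hs := sum_nonneg_of h
    have e : ∑ i, ((1 / 2 : ℝ) • x) i = (∑ i, x i) / 2 := by
      simp only [Pi.smul_apply, smul_eq_mul, ← Finset.mul_sum]; ring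
    rw [e]
    set s := ∑ i, x i
    have h1 := (hC x h).trans (mul_le_mul_of_nonneg_left
      (pow_le_exp_half k (s := 1 + s) (by linarith)) h0)
    have h2 : Real.exp (-s) * Real.exp ((1 + s) / 2) = Real.exp (1 / 2) * Real.exp (-(s / 2)) := by
      rw [← Real.exp_add, ← Real.exp_add]; congr 1; ring
    calc Real.exp (-s) * |F x|
        ≤ Real.exp (-s) * (C * (2 ^ k * k.factorial * Real.exp ((1 + s) / 2))) := by gcongr
      _ = C * (2 ^ k * k.factorial) * (Real.exp (-s) * Real.exp ((1 + s) / 2)) := by ring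
      _ = _ := by rw [h2]; ring
  · rw [wn_of_not h]
    simp only [zero_mul, norm_zero]
    exact mul_nonneg (by positivity) (wn_nonneg _)

lemma Poly.mul {n : ℕ} {F G : (Fin n → ℝ) → ℝ} (hf : Poly F) (hg : Poly G) :
    Poly (fun x => F x * G x) := by
  obtain ⟨hm, C, k, hC⟩ := hf
  obtain ⟨hm', C', k', hC'⟩ := hg
  refine ⟨hm.mul hm', C * C', k + k', fun t ht => ?_⟩
  rw [abs_mul, pow_add]
  have := mul_le_mul (hC t ht) (hC' t ht) (abs_nonneg _) ((abs_nonneg _).trans (hC t ht))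
  linarith

lemma Poly.add {n : ℕ} {F G : (Fin n → ℝ) → ℝ} (hf : Poly F) (hg : Poly G) :
    Poly (fun x => F x + G x) := by
  obtain ⟨hm, C, k, hC⟩ := hf
  obtain ⟨hm', C', k', hC'⟩ := hg
  have h0 : 0 ≤ C := by
    have := (abs_nonneg _).trans (hC 0 le_rfl)
    simpa using this
  have h0' : 0 ≤ C' := by
    have := (abs_nonneg _).trans (hC' 0 le_rfl)
    simpa using this
  refine ⟨hm.add hm', C + C', k + k', fun x hx => ?_⟩
  have hs : 1 ≤ 1 + ∑ i, x i := by linarith [sum_nonneg_of hx]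
  have e1 : (1 + ∑ i, x i) ^ k ≤ (1 + ∑ i, x i) ^ (k + k') := pow_le_pow_right₀ hs (by omega)
  have e2 : (1 + ∑ i, x i) ^ k' ≤ (1 + ∑ i, x i) ^ (k + k') := pow_le_pow_right₀ hs (by omega)
  have := abs_add_le (F x) (G x)
  nlinarith [hC x hx, hC' x hx, mul_le_mul_of_nonneg_left e1 h0, mul_le_mul_of_nonneg_left e2 h0']

lemma Poly.const {n : ℕ} (c : ℝ) : Poly (fun _ : Fin n → ℝ => c) :=
  ⟨measurable_const, |c|, 0, fun _ _ => by simp⟩

lemma Poly.sum {n : ℕ} {ι : Type*} (s : Finset ι) {F : ι → (Fin n → ℝ) → ℝ}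
    (h : ∀ i ∈ s, Poly (F i)) : Poly (fun x => ∑ i ∈ s, F i x) := by
  classical
  induction s using Finset.induction_on with
  | empty => simpa using Poly.const 0
  | insert a s ha ih =>
    simp only [Finset.sum_insert ha]
    exact (h a (by simp)).add (ih fun i hi => h i (by simp [hi]))

lemma P1.coord {n : ℕ} {f : ℝ → ℝ} (hf : P1 f) (i : Fin n) : Poly (fun x : Fin n → ℝ => f (x i)) := by
  obtain ⟨hm, C, k, hC⟩ := hf
  have h0 : 0 ≤ C := by
    have := (abs_nonneg _).trans (hC 0 le_rfl)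
    simpa using this
  refine ⟨hm.comp (measurable_pi_apply i), C, k, fun x hx => (hC _ (hx i)).trans ?_⟩
  have h1 : x i ≤ ∑ j, x j := Finset.single_le_sum (fun j _ => hx j) (Finset.mem_univ i)
  have h2 : 0 ≤ x i := hx i
  gcongr

lemma Poly.coord {n : ℕ} (i : Fin n) : Poly (fun x : Fin n → ℝ => x i) := by
  have := (P1_quad 0 1 0).coord i
  simpa using this

lemma Poly.comp {n m : ℕ} {F : (Fin n → ℝ) → ℝ} (hF : Poly F) {φ : (Fin m → ℝ) → Fin n → ℝ}
    (hφ : Measurable φ) (D : ℝ)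
    (h : ∀ x, 0 ≤ x → 0 ≤ φ x ∧ 1 + ∑ i, φ x i ≤ D * (1 + ∑ i, x i)) :
    Poly (fun x => F (φ x)) := by
  obtain ⟨hm, C, k, hC⟩ := hF
  have h0 : 0 ≤ C := by
    have := (abs_nonneg _).trans (hC 0 le_rfl)
    simpa using this
  refine ⟨hm.comp hφ, C * D ^ k, k, fun x hx => (hC _ (h x hx).1).trans ?_⟩
  rw [mul_assoc, ← mul_pow]
  have := sum_nonneg_of (h x hx).1
  gcongr
  exact (h x hx).2

lemma Poly.comp1 {n : ℕ} {F : (Fin n → ℝ) → ℝ} (hF : Poly F) {φ : ℝ → Fin n → ℝ}
    (hφ : Measurable φ) (D : ℝ)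
    (h : ∀ x, 0 ≤ x → 0 ≤ φ x ∧ 1 + ∑ i, φ x i ≤ D * (1 + x)) :
    P1 (fun x => F (φ x)) := by
  obtain ⟨hm, C, k, hC⟩ := hF
  have h0 : 0 ≤ C := by
    have := (abs_nonneg _).trans (hC 0 le_rfl)
    simpa using this
  refine ⟨hm.comp hφ, C * D ^ k, k, fun x hx => (hC _ (h x hx).1).trans ?_⟩
  rw [mul_assoc, ← mul_pow]
  have := sum_nonneg_of (h x hx).1
  gcongr
  exact (h x hx).2

/-- insertion of a coordinate -/
def ins {n : ℕ} (k : Fin (n + 1)) (t : ℝ) (z : Fin n → ℝ) : Fin (n + 1) → ℝ :=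
  Fin.insertNth (α := fun _ => ℝ) k t z

@[simp] lemma ins_same {n : ℕ} (k : Fin (n + 1)) (t : ℝ) (z : Fin n → ℝ) : ins k t z k = t := by
  simp [ins]

@[simp] lemma ins_succAbove {n : ℕ} (k : Fin (n + 1)) (t : ℝ) (z : Fin n → ℝ) (i : Fin n) :
    ins k t z (k.succAbove i) = z i := by
  simp [ins]

lemma ins_mp {n : ℕ} (k : Fin (n + 1)) :
    MeasurePreserving (fun p : ℝ × (Fin n → ℝ) => ins k p.1 p.2) (volume.prod volume) volume :=
  (volume_preserving_piFinSuccAbove (fun _ : Fin (n + 1) => ℝ) k).symm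

lemma wn_ins {n : ℕ} (k : Fin (n + 1)) (t : ℝ) (z : Fin n → ℝ) :
    wn (ins k t z) = w t * wn z := by
  unfold wn
  rw [Fin.prod_univ_succAbove _ k]
  simp

lemma sum_ins {n : ℕ} (k : Fin (n + 1)) (t : ℝ) (z : Fin n → ℝ) :
    ∑ i, ins k t z i = t + ∑ i, z i := by
  rw [Fin.sum_univ_succAbove _ k]
  simp

lemma ins_nonneg {n : ℕ} (k : Fin (n + 1)) {t : ℝ} {z : Fin n → ℝ} (ht : 0 ≤ t) (hz : 0 ≤ z) :
    0 ≤ ins k t z := by
  intro i
  refine Fin.succAboveCases k ?_ (fun j => ?_) i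
  · simpa using ht
  · simpa using hz j

lemma ins_add_smul {n : ℕ} (k : Fin (n + 1)) (a b t t' : ℝ) (z z' : Fin n → ℝ) :
    ins k (a * t + b * t') (a • z + b • z') = a • ins k t z + b • ins k t' z' := by
  ext i
  refine Fin.succAboveCases k ?_ (fun j => ?_) i
  · simp
  · simp

lemma continuous_ins {n : ℕ} (k : Fin (n + 1)) :
    Continuous (fun p : ℝ × (Fin n → ℝ) => ins k p.1 p.2) := by
  refine continuous_pi fun i => ?_
  refine Fin.succAboveCases k ?_ (fun j => ?_) i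
  · simpa using continuous_fst
  · simp only [ins_succAbove]; fun_prop

lemma integral_of_mp {α β : Type*} [MeasurableSpace α] [MeasurableSpace β] {μ : Measure α}
    {ν : Measure β} {f : α → β} (hf : MeasurePreserving f μ ν) {G : β → ℝ} (hG : Integrable G ν) :
    ∫ x, G x ∂ν = ∫ p, G (f p) ∂μ := by
  rw [← hf.map_eq] at hG ⊢
  exact integral_map hf.measurable.aemeasurable hG.aestronglyMeasurable

lemma fub1 {n : ℕ} (k : Fin (n + 1)) {F : (Fin (n + 1) → ℝ) → ℝ} (hF : Poly F) :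
    Integrable (fun t => w t * ∫ z, wn z * F (ins k t z)) ∧
    ∫ x, wn x * F x = ∫ t, w t * ∫ z, wn z * F (ins k t z) := by
  have hi : Integrable (fun p : ℝ × (Fin n → ℝ) => wn (ins k p.1 p.2) * F (ins k p.1 p.2))
      (volume.prod volume) := (ins_mp k).integrable_comp_of_integrable hF.integrable
  have e : ∀ t, (∫ z, wn (ins k t z) * F (ins k t z)) = w t * ∫ z, wn z * F (ins k t z) := by
    intro t
    rw [← integral_const_mul]
    congr 1; ext z; rw [wn_ins]; ring
  constructor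
  · have := hi.integral_prod_left
    simpa only [Function.comp, e] using this
  · rw [integral_of_mp (ins_mp k) hF.integrable, integral_prod _ hi]
    simp only [e]

lemma fub2 {n : ℕ} (k : Fin (n + 1)) {F : (Fin (n + 1) → ℝ) → ℝ} (hF : Poly F) :
    Integrable (fun z => wn z * ∫ t, w t * F (ins k t z)) ∧
    ∫ x, wn x * F x = ∫ z, wn z * ∫ t, w t * F (ins k t z) := by
  have hi : Integrable (fun p : ℝ × (Fin n → ℝ) => wn (ins k p.1 p.2) * F (ins k p.1 p.2))
      (volume.prod volume) := (ins_mp k).integrable_comp_of_integrable hF.integrable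
  have e : ∀ z, (∫ t, wn (ins k t z) * F (ins k t z)) = wn z * ∫ t, w t * F (ins k t z) := by
    intro t
    rw [← integral_const_mul]
    congr 1; ext z; rw [wn_ins]; ring
  constructor
  · have := hi.integral_prod_right
    simpa only [Function.comp, e] using this
  · rw [integral_of_mp (ins_mp k) hF.integrable, integral_prod_symm _ hi]
    simp only [e]

/-- contraction towards the point one -/
noncomputable def T {n : ℕ} (z : Fin n → ℝ) : Fin n → ℝ := fun i => (1 + z i) / 2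

lemma T_nonneg {n : ℕ} {z : Fin n → ℝ} (hz : 0 ≤ z) : 0 ≤ T z := fun i => by
  have := hz i
  simp only [Pi.zero_apply] at this
  simp only [T, Pi.zero_apply]; positivity

lemma sum_T {n : ℕ} (z : Fin n → ℝ) : ∑ i, T z i = (n + ∑ i, z i) / 2 := by
  simp [T, ← Finset.sum_div, Finset.sum_add_distrib]

lemma continuous_T {n : ℕ} : Continuous (T : (Fin n → ℝ) → Fin n → ℝ) := by
  unfold T; fun_prop

lemma w_dbl (u : ℝ) : w (2 * u - 1) ≤ 2 * w u := by
  by_cases h : 0 ≤ 2 * u - 1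
  · rw [w_of_nonneg h, w_of_nonneg (by linarith)]
    have h1 : Real.exp (-(2 * u - 1)) = Real.exp (1 - u) * Real.exp (-u) := by
      rw [← Real.exp_add]; congr 1; ring
    have h2 : Real.exp (1 - u) ≤ 2 := by
      have h3 : Real.exp (1 - u) ≤ Real.exp (1 / 2) := Real.exp_le_exp.2 (by linarith)
      have h4 : Real.exp (1 / 2) * Real.exp (1 / 2) = Real.exp 1 := by
        rw [← Real.exp_add]; norm_num
      have h5 := Real.exp_one_lt_d9
      have h6 := Real.exp_pos (1 / 2)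
      nlinarith
    rw [h1]
    exact mul_le_mul_of_nonneg_right h2 (Real.exp_pos _).le
  · rw [w_of_neg (not_le.1 h)]
    have := w_nonneg u
    linarith

lemma dominate {n : ℕ} {f : (Fin n → ℝ) → ℝ} (h0 : ∀ z, 0 ≤ z → 0 ≤ f z)
    (hi : Integrable (fun z => wn z * f z)) :
    ∫ z, wn z * f (T z) ≤ 4 ^ n * ∫ z, wn z * f z := by
  set g : (Fin n → ℝ) → ℝ := fun u => wn (fun i => 2 * u i - 1) * f u with hg
  have e1 : ∀ z, wn z * f (T z) = g ((1 / 2 : ℝ) • (z + 1)) := by
    intro z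
    have a1 : (1 / 2 : ℝ) • (z + 1) = T z := by
      ext i; simp [T]; ring
    have a2 : (fun i => 2 * T z i - 1) = z := by
      ext i; simp [T]; ring
    rw [a1, hg]; simp only [a2]
  simp only [e1]
  rw [integral_add_right_eq_self (fun z => g ((1 / 2 : ℝ) • z)) 1, Measure.integral_comp_smul]
  have e2 : |((1 / 2 : ℝ) ^ Module.finrank ℝ (Fin n → ℝ))⁻¹| = 2 ^ n := by
    simp
  rw [e2, smul_eq_mul, show (4 : ℝ) ^ n = 2 ^ n * 2 ^ n by rw [← mul_pow]; norm_num, mul_assoc]
  apply mul_le_mul_of_nonneg_left _ (by positivity)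
  rw [← integral_const_mul]
  have hle : ∀ u : Fin n → ℝ, wn (fun i => 2 * u i - 1) ≤ 2 ^ n * wn u := by
    intro u
    unfold wn
    have : (2 : ℝ) ^ n * ∏ i, w (u i) = ∏ i : Fin n, (2 * w (u i)) := by
      rw [Finset.prod_mul_distrib]; simp
    rw [this]
    exact Finset.prod_le_prod (fun i _ => w_nonneg _) fun i _ => w_dbl _
  have hz : ∀ u : Fin n → ℝ, ¬ 0 ≤ u → wn (fun i => 2 * u i - 1) = 0 := by
    intro u hu
    have := hle u
    rw [wn_of_not hu, mul_zero] at this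
    exact le_antisymm this (wn_nonneg _)
  refine integral_mono_of_nonneg (ae_of_all _ fun u => ?_) (hi.const_mul _)
    (ae_of_all _ fun u => ?_)
  · by_cases hu : 0 ≤ u
    · exact mul_nonneg (wn_nonneg _) (h0 u hu)
    · simp [hg, hz u hu]
  · by_cases hu : 0 ≤ u
    · have := mul_le_mul_of_nonneg_right (hle u) (h0 u hu)
      simp only [hg]; linarith
    · simp [hg, hz u hu, wn_of_not hu]

lemma convex_ins_right {n : ℕ} (k : Fin (n + 1)) {a : (Fin (n + 1) → ℝ) → ℝ}
    (ha : ConvexOn ℝ univ a) (t : ℝ) : ConvexOn ℝ univ (fun z => a (ins k t z)) := by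
  refine ⟨convex_univ, fun x _ y _ p q hp hq hpq => ?_⟩
  have := ha.2 (Set.mem_univ (ins k t x)) (Set.mem_univ (ins k t y)) hp hq hpq
  rw [← ins_add_smul, ← add_mul, hpq, one_mul] at this
  exact this

lemma convex_ins_left {n : ℕ} (k : Fin (n + 1)) {a : (Fin (n + 1) → ℝ) → ℝ}
    (ha : ConvexOn ℝ univ a) (z : Fin n → ℝ) : ConvexOn ℝ univ (fun t => a (ins k t z)) := by
  refine ⟨convex_univ, fun x _ y _ p q hp hq hpq => ?_⟩
  have := ha.2 (Set.mem_univ (ins k x z)) (Set.mem_univ (ins k y z)) hp hq hpq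
  rw [← ins_add_smul, ← add_smul, hpq, one_smul] at this
  exact this

lemma Poly.ins_right {n : ℕ} (k : Fin (n + 1)) {a : (Fin (n + 1) → ℝ) → ℝ} (ha : Poly a)
    {t : ℝ} (ht : 0 ≤ t) : Poly (fun z => a (ins k t z)) := by
  refine ha.comp ((continuous_ins k).measurable.comp (measurable_const.prodMk measurable_id))
    (1 + t) fun z hz => ⟨ins_nonneg k ht hz, ?_⟩
  rw [sum_ins]
  nlinarith [sum_nonneg_of hz]

lemma Poly.ins_left {n : ℕ} (k : Fin (n + 1)) {a : (Fin (n + 1) → ℝ) → ℝ} (ha : Poly a)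
    {z : Fin n → ℝ} (hz : 0 ≤ z) : P1 (fun t => a (ins k t z)) := by
  refine ha.comp1 ((continuous_ins k).measurable.comp (measurable_id.prodMk measurable_const))
    (1 + ∑ i, z i) fun t ht => ⟨ins_nonneg k ht hz, ?_⟩
  rw [sum_ins]
  nlinarith [sum_nonneg_of hz]

lemma Poly.compT {n : ℕ} {a : (Fin n → ℝ) → ℝ} (ha : Poly a) : Poly (fun z => a (T z)) := by
  refine ha.comp continuous_T.measurable (1 + n) fun z hz => ⟨T_nonneg hz, ?_⟩
  rw [sum_T]
  have : (0 : ℝ) ≤ n := by positivity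
  nlinarith [sum_nonneg_of hz]

lemma hyb (ρ : ℝ) : ∀ (n : ℕ) (a : (Fin n → ℝ) → ℝ), ConvexOn ℝ univ a → Poly a → 4 ^ n ≤ ρ →
    (∫ x, wn x * a x) - ∫ x, wn x * a (T x) ≤ ρ * ∑ i, ∫ x, wn x * (Lg (x i) * a x) := by
  intro n
  induction n with
  | zero =>
    intro a _ _ _
    have : ∀ x : Fin 0 → ℝ, T x = x := fun x => Subsingleton.elim _ _
    simp [this]
  | succ n ih =>
    intro a ha hp hρ
    have hρ' : (4 : ℝ) ^ n ≤ ρ := le_trans (pow_le_pow_right₀ (by norm_num) (by omega)) hρ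
    set a2 : (Fin (n + 1) → ℝ) → ℝ := fun x => a (ins 0 (x 0) (T fun i => x (Fin.succ i)))
      with ha2
    have hp2 : Poly a2 := by
      refine hp.comp (φ := fun x => ins 0 (x 0) (T fun i => x (Fin.succ i)))
        ((continuous_ins 0).comp (f := fun x : Fin (n + 1) → ℝ =>
          (x 0, T fun i => x (Fin.succ i))) ((continuous_apply 0).prodMk
            (continuous_T.comp (by fun_prop)))).measurable (1 + n) fun x hx => ⟨?_, ?_⟩
      · exact ins_nonneg 0 (hx 0) (T_nonneg fun i => hx _)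
      · rw [sum_ins, sum_T, Fin.sum_univ_succ]
        have h1 : (0 : ℝ) ≤ n := by positivity
        have h2 : 0 ≤ x 0 := hx 0
        have h3 : 0 ≤ ∑ i : Fin n, x (Fin.succ i) := Finset.sum_nonneg fun i _ => hx _
        nlinarith
    have e2 : ∀ t z, a2 (ins 0 t z) = a (ins 0 t (T z)) := by
      intro t z
      simp only [ha2, ins_same]
      congr 3
    have e3 : ∀ t (z : Fin n → ℝ), T (ins 0 t z) = ins 0 ((1 + t) / 2) (T z) := by
      intro t z
      ext i
      refine Fin.succAboveCases 0 ?_ (fun j => ?_) i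
      · simp [T]
      · simp only [T, ins_succAbove]
    have es : ∀ t (z : Fin n → ℝ) i, ins 0 t z (Fin.succ i) = z i := by
      intro t z i
      exact ins_succAbove 0 t z i
    -- first half
    have h1 : (∫ x, wn x * a x) - ∫ x, wn x * a2 x ≤
        ρ * ∑ i : Fin n, ∫ x, wn x * (Lg (x (Fin.succ i)) * a x) := by
      have f1 := fub1 0 hp
      have f2 := fub1 0 hp2
      have f3 := fun i : Fin n => fub1 0 ((P1_Lg.coord (Fin.succ i)).mul hp)
      rw [f1.2, f2.2, ← integral_sub f1.1 f2.1, Finset.sum_congr rfl fun i _ => (f3 i).2,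
        ← integral_finsetSum _ fun i _ => (f3 i).1, ← integral_const_mul]
      refine integral_mono (f1.1.sub f2.1)
        ((integrable_finsetSum _ fun i _ => (f3 i).1).const_mul _) fun t => ?_
      by_cases ht : 0 ≤ t
      · have := ih _ (convex_ins_right 0 ha t) (hp.ins_right 0 ht) hρ'
        simp only [e2, es, ← Finset.mul_sum]
        have := mul_le_mul_of_nonneg_left this (w_nonneg t)
        linarith
      · simp [w_of_neg (not_le.1 ht)]
    have h2 : (∫ x, wn x * a2 x) - ∫ x, wn x * a (T x) ≤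
        ρ * ∫ x, wn x * (Lg (x 0) * a x) := by
      have f1 := fub2 0 hp2
      have f2 := fub2 0 hp.compT
      have f3 := fub2 0 ((P1_Lg.coord 0).mul hp2)
      have f4 := fub2 0 ((P1_Lg.coord 0).mul hp)
      simp only [ins_same, e2, e3] at f1 f2 f3 f4
      have hD : ∀ z : Fin n → ℝ, 0 ≤ z → 0 ≤ ∫ t, w t * (Lg t * a (ins 0 t z)) :=
        fun z hz => lg_nonneg (convex_ins_left 0 ha z) (hp.ins_left 0 hz)
      have hd := dominate hD f4.1
      have hpos : 0 ≤ ∫ z, wn z * ∫ t, w t * (Lg t * a (ins 0 t z)) := by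
        refine integral_nonneg fun z => ?_
        by_cases hz : 0 ≤ z
        · exact mul_nonneg (wn_nonneg _) (hD z hz)
        · simp [wn_of_not hz]
      rw [f1.2, f2.2, f4.2, ← integral_sub f1.1 f2.1]
      refine le_trans ?_ (hd.trans (mul_le_mul_of_nonneg_right hρ' hpos))
      refine integral_mono (f1.1.sub f2.1) f3.1 fun z => ?_
      by_cases hz : 0 ≤ z
      · have := step_one (convex_ins_left 0 ha (T z)) (hp.ins_left 0 (T_nonneg hz))
        have := mul_le_mul_of_nonneg_left this (wn_nonneg z)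
        simp only
        linarith
      · simp [wn_of_not hz]
    rw [Fin.sum_univ_succ]
    linarith

/-- quantitative convex order inequality on the orthant -/
lemma lower_lg {n : ℕ} {a : (Fin n → ℝ) → ℝ} (ha : ConvexOn ℝ univ a) (hp : Poly a)
    (h1 : a 1 ≤ 0) :
    (∫ x, wn x * a x) ≤ 2 * 4 ^ n * ∫ x, wn x * ((∑ i, Lg (x i)) * a x) := by
  have h := hyb (4 ^ n) n a ha hp le_rfl
  have e : (∫ x, wn x * ((∑ i, Lg (x i)) * a x)) = ∑ i, ∫ x, wn x * (Lg (x i) * a x) := by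
    rw [← integral_finsetSum _ fun i _ => ((P1_Lg.coord i).mul hp).integrable]
    congr 1; ext x
    rw [Finset.sum_mul, Finset.mul_sum]
  have h2 : (∫ x, wn x * a (T x)) ≤ (1 / 2) * ∫ x, wn x * a x := by
    rw [← integral_const_mul]
    refine integral_mono hp.compT.integrable (hp.integrable.const_mul _) fun x => ?_
    have := ha.2 (Set.mem_univ 1) (Set.mem_univ x) (show (0 : ℝ) ≤ 1 / 2 by norm_num)
      (show (0 : ℝ) ≤ 1 / 2 by norm_num) (by norm_num)
    have e : (1 / 2 : ℝ) • (1 : Fin n → ℝ) + (1 / 2 : ℝ) • x = T x := by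
      ext i; simp [T]; ring
    rw [e] at this
    simp only [smul_eq_mul] at this
    have h3 : a (T x) ≤ 1 / 2 * a x := by linarith
    have := mul_le_mul_of_nonneg_left h3 (wn_nonneg x)
    simp only
    linarith
  rw [e]
  linarith

end Pool.Agent.P.MP_2e1554_gt
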