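import Pool.Agent.P.MP_2e1554_gt.IsoChk
import Pool.Agent.P.MP_2e1554_gt.IsoPk2
import Pool.Agent.P.MP_2e1554_gt.LocB

/-! Lane-wise operations (use IsoPk, IsoPk2: dg_land, Bd.add/smul/sub/kron/cmp/upd). -/

open MeasureTheory Set Finset

namespace Pool.Agent.P.MP_2e1554_gt.Chk

theorem lane_eq (X i : ℕ) : lane X i = dg X i := by
  show (X >>> (64 * i)) &&& (2 ^ 64 - 1) = X / 2 ^ (64 * i) % 2 ^ 64
  rw [Nat.and_two_pow_sub_one_eq_mod, Nat.shiftRight_eq_div_pow]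

theorem low_eq (n X : ℕ) : low n X = X % 2 ^ (64 * n) := by
  unfold low
  rw [Nat.and_two_pow_sub_one_eq_mod]

theorem dg_xor (X Y i : ℕ) : dg (X ^^^ Y) i = dg X i ^^^ dg Y i := by
  apply Nat.eq_of_testBit_eq
  intro j
  by_cases hj : j < 64
  · rw [Nat.testBit_xor, ← testBit_dg _ _ hj, ← testBit_dg _ _ hj, ← testBit_dg _ _ hj,
      Nat.testBit_xor]
  · have h : ∀ Z, (dg Z i).testBit j = false := fun Z =>
      Nat.testBit_lt_two_pow
        (lt_of_lt_of_le (dg_lt Z i) (Nat.pow_le_pow_right (by norm_num) (by omega)))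
    rw [Nat.testBit_xor, h, h, h]
    rfl

theorem upd_spec {X N a i v : ℕ} (hX : Bd X N a) (hi : i < N) (hv : v ≤ a) (ha : a < 2 ^ 64) :
    Bd (upd X i v) N a ∧ ∀ l, dg (upd X i v) l = if l = i then v else dg X l := by
  unfold upd
  rw [lane_eq]
  exact hX.upd hi hv ha

private theorem cmp_eq {X Y H N a b : ℕ} (hX : Bd X N a) (hY : Bd Y N b) (ha : a < 2 ^ 63)
    (hb : b < 2 ^ 63) (hH : H = pk (fun _ => 2 ^ 63) N) :
    ((X + H - Y) &&& H) >>> 63 = pk (fun i => if dg Y i ≤ dg X i then 1 else 0) N := by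
  have hc : ∀ i < N, (if dg Y i ≤ dg X i then 1 else 0 : ℕ) ≤ 1 := fun i _ => by
    split_ifs <;> omega
  have hP : Bd (pk (fun i => if dg Y i ≤ dg X i then 1 else 0) N) N 1 :=
    Bd.pk (by norm_num) hc
  have hHb : Bd H N (2 ^ 63) := hH ▸ Bd.pk (by norm_num) fun _ _ => le_rfl
  obtain ⟨_, h2⟩ := hP.smul (c := 2 ^ 63) (by norm_num)
  have e : (X + H - Y) &&& H = 2 ^ 63 * pk (fun i => if dg Y i ≤ dg X i then 1 else 0) N := by
    apply eq_of_dg
    intro i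
    rw [h2, dg_pk fun i hi => lt_of_le_of_lt (hc i hi) (by norm_num)]
    by_cases hi : i < N
    · rw [hY.cmp hX hb ha hH hi, if_pos hi]
      split_ifs
      · rw [mul_one]
      · rw [mul_zero]
    · rw [if_neg hi, mul_zero]
      exact dg_of_ge (lt_of_le_of_lt Nat.and_le_right hHb.1) (not_lt.mp hi)
  rw [e, Nat.shiftRight_eq_div_pow, Nat.mul_div_cancel_left _ (Nat.two_pow_pos 63)]

/-- the top bits moved down: `((X + H - Y) &&& H) >>> 63` has lanes `0/1` -/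
theorem cmp_spec {X Y H N a b : ℕ} (hX : Bd X N a) (hY : Bd Y N b) (ha : a < 2 ^ 63)
    (hb : b < 2 ^ 63) (hH : H = pk (fun _ => 2 ^ 63) N) :
    Bd (((X + H - Y) &&& H) >>> 63) N 1 ∧
      ∀ i < N, dg (((X + H - Y) &&& H) >>> 63) i = if dg Y i ≤ dg X i then 1 else 0 := by
  have hc : ∀ i < N, (if dg Y i ≤ dg X i then 1 else 0 : ℕ) ≤ 1 := fun i _ => by
    split_ifs <;> omega
  rw [cmp_eq hX hY ha hb hH]
  refine ⟨Bd.pk (by norm_num) hc, fun i hi => ?_⟩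
  rw [dg_pk fun i hi => lt_of_le_of_lt (hc i hi) (by norm_num), if_pos hi]

theorem lsub_spec {X Y H N a b : ℕ} (hX : Bd X N a) (hY : Bd Y N b) (ha : a < 2 ^ 63)
    (hb : b < 2 ^ 63) (hH : H = pk (fun _ => 2 ^ 63) N) :
    Bd (lsub H X Y) N a ∧ ∀ i, dg (lsub H X Y) i = dg X i - dg Y i := by
  obtain ⟨c1, c2⟩ := cmp_spec hX hY ha hb hH
  have hHb : Bd H N (2 ^ 63) := hH ▸ Bd.pk (by norm_num) fun _ _ => le_rfl
  have hHd : ∀ l, dg H l = if l < N then 2 ^ 63 else 0 := fun l => by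
    rw [hH, dg_pk fun _ _ => by norm_num]
  obtain ⟨h1, h2⟩ := hX.add hHb (by omega)
  obtain ⟨h3, h4⟩ := h1.sub hY (fun l => by
    rw [h2, hHd]
    split_ifs with hl
    · have := hY.2 l
      omega
    · rw [dg_of_ge hY.1 (not_lt.mp hl)]
      exact Nat.zero_le _)
  obtain ⟨_, h6⟩ := c1.smul (c := 2 ^ 63 - 1) (by norm_num)
  have e : lsub H X Y = (X + H - Y) &&& ((2 ^ 63 - 1) * (((X + H - Y) &&& H) >>> 63)) := by
    rw [mul_comm]
    rfl
  have key : ∀ i, dg (lsub H X Y) i = dg X i - dg Y i := by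
    intro i
    rw [e, dg_land, h6, h4, h2, hHd]
    by_cases hi : i < N
    · rw [c2 i hi, if_pos hi]
      have hx := hX.2 i
      have hy := hY.2 i
      split_ifs with hc
      · rw [mul_one, Nat.and_two_pow_sub_one_eq_mod]
        omega
      · rw [mul_zero, Nat.and_zero]
        omega
    · rw [if_neg hi, dg_of_ge hX.1 (not_lt.mp hi), add_zero, Nat.zero_sub, Nat.zero_and]
  refine ⟨⟨?_, fun i => ?_⟩, key⟩
  · rw [e]
    exact lt_of_le_of_lt Nat.and_le_left h3.1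
  · rw [key]
    exact (Nat.sub_le _ _).trans (hX.2 i)

theorem lmax_spec {X Y H N a b : ℕ} (hX : Bd X N a) (hY : Bd Y N b) (ha : a < 2 ^ 63)
    (hb : b < 2 ^ 63) (hH : H = pk (fun _ => 2 ^ 63) N) :
    Bd (lmax H X Y) N (max a b) ∧ ∀ i, dg (lmax H X Y) i = max (dg X i) (dg Y i) := by
  obtain ⟨s1, s2⟩ := lsub_spec hX hY ha hb hH
  obtain ⟨h1, h2⟩ := hY.add s1 (by omega)
  have key : ∀ i, dg (lmax H X Y) i = max (dg X i) (dg Y i) := by
    intro i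
    unfold lmax
    rw [h2, s2]
    omega
  refine ⟨⟨h1.1, fun i => ?_⟩, key⟩
  rw [key]
  exact max_le_max (hX.2 i) (hY.2 i)

theorem lge_spec {X Y H N a b : ℕ} (hX : Bd X N a) (hY : Bd Y N b) (ha : a < 2 ^ 63)
    (hb : b < 2 ^ 63) (hH : H = pk (fun _ => 2 ^ 63) N) :
    Bd (lge H X Y) N (2 ^ 64 - 1) ∧
      ∀ i < N, dg (lge H X Y) i = if dg Y i ≤ dg X i then 2 ^ 64 - 1 else 0 := by
  obtain ⟨c1, c2⟩ := cmp_spec hX hY ha hb hH
  obtain ⟨h5, h6⟩ := c1.smul (c := 2 ^ 64 - 1) (by norm_num)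
  have e : lge H X Y = (2 ^ 64 - 1) * (((X + H - Y) &&& H) >>> 63) := by
    rw [mul_comm]
    rfl
  rw [e]
  refine ⟨h5.mono le_rfl (by rw [mul_one]), fun i hi => ?_⟩
  rw [h6, c2 i hi]
  split_ifs
  · rw [mul_one]
  · rw [mul_zero]

theorem fma_spec {A T N a t c : ℕ} (hA : Bd A N a) (hT : Bd T N t) (h : a + c * t < 2 ^ 64) :
    Bd (fma A c T) N (a + c * t) ∧ ∀ i, dg (fma A c T) i = dg A i + c * dg T i := by
  have e : fma A c T = A + c * T := by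
    unfold fma
    rcases c with _ | c
    · show A = A + 0 * T
      rw [zero_mul, add_zero]
    · rfl
  obtain ⟨h1, h2⟩ := hT.smul (c := c) (by omega)
  obtain ⟨h3, h4⟩ := hA.add h1 h
  rw [e]
  exact ⟨h3, fun i => by rw [h4, h2]⟩

/-- a lane-wise mask -/
theorem mask_spec {X M N a : ℕ} (hX : Bd X N a) :
    Bd (X &&& M) N a ∧ ∀ i, dg M i = 2 ^ 64 - 1 → dg (X &&& M) i = dg X i := by
  refine ⟨⟨lt_of_le_of_lt Nat.and_le_left hX.1, fun i => ?_⟩, fun i hi => ?_⟩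
  · rw [dg_land]
    exact Nat.and_le_left.trans (hX.2 i)
  · rw [dg_land, hi, Nat.and_two_pow_sub_one_eq_mod, Nat.mod_eq_of_lt (dg_lt X i)]

end Pool.Agent.P.MP_2e1554_gt.Chk
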