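import Mathlib

open Finset

namespace Pool.Agent.P.MP_2e1554_gt

/-- lane `i` (64 bits) of a natural number -/
def dg (X i : ℕ) : ℕ := X / 2 ^ (64 * i) % 2 ^ 64

/-- pack `N` lanes -/
def pk (c : ℕ → ℕ) (N : ℕ) : ℕ := ∑ i ∈ range N, 2 ^ (64 * i) * c i

/-- `X` has at most `N` lanes, each at most `b` -/
def Bd (X N b : ℕ) : Prop := X < 2 ^ (64 * N) ∧ ∀ i, dg X i ≤ b

theorem dg_lt (X i : ℕ) : dg X i < 2 ^ 64 := Nat.mod_lt _ (Nat.two_pow_pos 64)

theorem dg_of_ge {X N : ℕ} (h : X < 2 ^ (64 * N)) {i : ℕ} (hi : N ≤ i) : dg X i = 0 := by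
  have h1 : X < 2 ^ (64 * i) :=
    lt_of_lt_of_le h (Nat.pow_le_pow_right (by norm_num) (by omega))
  unfold dg
  rw [Nat.div_eq_of_lt h1, Nat.zero_mod]

private theorem tb_dg (X i j : ℕ) :
    (dg X i).testBit j = (decide (j < 64) && X.testBit (j + 64 * i)) := by
  unfold dg
  rw [Nat.testBit_mod_two_pow, Nat.testBit_div_two_pow]

private theorem pk_dg_mod (X N : ℕ) : pk (dg X) N = X % 2 ^ (64 * N) := by
  induction N with
  | zero => simp [pk, Nat.mod_one]
  | succ N ih =>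
    unfold pk at ih ⊢
    rw [Finset.sum_range_succ, ih, show 64 * (N + 1) = 64 * N + 64 by ring, pow_add,
      Nat.mod_mul]
    rfl

theorem pk_dg {X N : ℕ} (h : X < 2 ^ (64 * N)) : pk (dg X) N = X := by
  rw [pk_dg_mod, Nat.mod_eq_of_lt h]

theorem pk_lt {c : ℕ → ℕ} {N : ℕ} (h : ∀ i < N, c i < 2 ^ 64) : pk c N < 2 ^ (64 * N) := by
  induction N with
  | zero => simp [pk]
  | succ N ih =>
    have h1 := ih (fun i hi => h i (by omega))
    have h2 := h N (by omega)
    unfold pk at h1 ⊢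
    rw [Finset.sum_range_succ, show 64 * (N + 1) = 64 * N + 64 by ring, pow_add]
    have h3 : 2 ^ (64 * N) * (c N + 1) ≤ 2 ^ (64 * N) * 2 ^ 64 := Nat.mul_le_mul_left _ h2
    rw [mul_add, mul_one] at h3
    omega

private theorem tb_pk {c : ℕ → ℕ} {N : ℕ} (hc : ∀ i < N, c i < 2 ^ 64) (j : ℕ) :
    (pk c N).testBit j = (decide (j / 64 < N) && (c (j / 64)).testBit (j % 64)) := by
  induction N with
  | zero => simp [pk]
  | succ N ih =>
    have hc' : ∀ i < N, c i < 2 ^ 64 := fun i hi => hc i (by omega)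
    have h1 := pk_lt hc'
    have e : pk c (N + 1) = 2 ^ (64 * N) * c N + pk c N := by
      unfold pk
      rw [Finset.sum_range_succ, add_comm]
    rw [e, Nat.testBit_two_pow_mul_add _ h1]
    split_ifs with h
    · rw [ih hc']
      have a1 : j / 64 < N := by omega
      have a2 : j / 64 < N + 1 := by omega
      simp [a1, a2]
    · by_cases h2 : j / 64 = N
      · have a2 : j / 64 < N + 1 := by omega
        have a3 : j - 64 * N = j % 64 := by omega
        simp [a3, h2]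
      · have a2 : ¬ j / 64 < N + 1 := by omega
        have a3 : (c N).testBit (j - 64 * N) = false := by
          apply Nat.testBit_lt_two_pow
          exact lt_of_lt_of_le (hc N (by omega)) (Nat.pow_le_pow_right (by norm_num) (by omega))
        simp [a2, a3]

theorem dg_pk {c : ℕ → ℕ} {N : ℕ} (h : ∀ i < N, c i < 2 ^ 64) (i : ℕ) :
    dg (pk c N) i = if i < N then c i else 0 := by
  split_ifs with hi
  · apply Nat.eq_of_testBit_eq
    intro j
    rw [tb_dg, tb_pk h]
    by_cases hj : j < 64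
    · have a1 : (j + 64 * i) / 64 = i := by omega
      have a2 : (j + 64 * i) % 64 = j := by omega
      rw [a1, a2]
      simp [hj, hi]
    · have a3 : (c i).testBit j = false := by
        apply Nat.testBit_lt_two_pow
        exact lt_of_lt_of_le (h i hi) (Nat.pow_le_pow_right (by norm_num) (by omega))
      rw [a3]
      simp [hj]
  · exact dg_of_ge (pk_lt h) (by omega)

theorem Bd.pk {c : ℕ → ℕ} {N b : ℕ} (hb : b < 2 ^ 64) (h : ∀ i < N, c i ≤ b) :
    Bd (pk c N) N b := by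
  have h' : ∀ i < N, c i < 2 ^ 64 := fun i hi => lt_of_le_of_lt (h i hi) hb
  refine ⟨pk_lt h', fun i => ?_⟩
  rw [dg_pk h']
  split_ifs with hi
  · exact h i hi
  · exact Nat.zero_le _

theorem Bd.mono {X N b N' b' : ℕ} (h : Bd X N b) (hN : N ≤ N') (hb : b ≤ b') : Bd X N' b' :=
  ⟨lt_of_lt_of_le h.1 (Nat.pow_le_pow_right (by norm_num) (by omega)),
    fun i => (h.2 i).trans hb⟩

private theorem testBit_dg' (X i : ℕ) {j : ℕ} (hj : j < 64) :
    X.testBit (64 * i + j) = (dg X i).testBit j := by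
  rw [tb_dg, add_comm j]
  simp [hj]

theorem eq_of_dg {X Y : ℕ} (h : ∀ i, dg X i = dg Y i) : X = Y := by
  apply Nat.eq_of_testBit_eq
  intro j
  have hj : j % 64 < 64 := Nat.mod_lt _ (by norm_num)
  have e : j = 64 * (j / 64) + j % 64 := (Nat.div_add_mod j 64).symm
  rw [e, testBit_dg' X _ hj, testBit_dg' Y _ hj, h]

theorem testBit_dg (X i : ℕ) {j : ℕ} (hj : j < 64) :
    X.testBit (64 * i + j) = (dg X i).testBit j := testBit_dg' X i hj

theorem dg_land (X Y i : ℕ) : dg (X &&& Y) i = dg X i &&& dg Y i := by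
  apply Nat.eq_of_testBit_eq
  intro j
  rw [Nat.testBit_and, tb_dg, tb_dg, tb_dg, Nat.testBit_and]
  by_cases hj : j < 64 <;> simp [hj]

theorem dg_lor (X Y i : ℕ) : dg (X ||| Y) i = dg X i ||| dg Y i := by
  apply Nat.eq_of_testBit_eq
  intro j
  rw [Nat.testBit_or, tb_dg, tb_dg, tb_dg, Nat.testBit_or]
  by_cases hj : j < 64 <;> simp [hj]

theorem dg_shiftRight (X k i : ℕ) : dg (X >>> (64 * k)) i = dg X (i + k) := by
  apply Nat.eq_of_testBit_eq
  intro j
  rw [tb_dg, tb_dg, Nat.testBit_shiftRight, show 64 * k + (j + 64 * i) = j + 64 * (i + k) by ring]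

theorem dg_shiftLeft (X k i : ℕ) :
    dg (X <<< (64 * k)) i = if k ≤ i then dg X (i - k) else 0 := by
  apply Nat.eq_of_testBit_eq
  intro j
  rw [tb_dg, Nat.testBit_shiftLeft]
  split_ifs with hk
  · rw [tb_dg]
    have a1 : j + 64 * i ≥ 64 * k := by omega
    have a2 : j + 64 * i - 64 * k = j + 64 * (i - k) := by omega
    rw [a2]
    simp [a1]
  · by_cases hj : j < 64
    · have a1 : ¬ j + 64 * i ≥ 64 * k := by omega
      simp [a1]
    · simp [hj]

theorem dg_mod (X k i : ℕ) : dg (X % 2 ^ (64 * k)) i = if i < k then dg X i else 0 := by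
  split_ifs with hk
  · apply Nat.eq_of_testBit_eq
    intro j
    rw [tb_dg, tb_dg, Nat.testBit_mod_two_pow]
    by_cases hj : j < 64
    · have a1 : j + 64 * i < 64 * k := by omega
      simp [a1]
    · simp [hj]
  · exact dg_of_ge (Nat.mod_lt _ (Nat.two_pow_pos _)) (by omega)

theorem Bd.shiftRight {X N b : ℕ} (h : Bd X N b) (k : ℕ) : Bd (X >>> (64 * k)) N b := by
  refine ⟨lt_of_le_of_lt (Nat.shiftRight_le _ _) h.1, fun i => ?_⟩
  rw [dg_shiftRight]
  exact h.2 _

theorem Bd.shiftLeft {X N b : ℕ} (h : Bd X N b) (k : ℕ) : Bd (X <<< (64 * k)) (N + k) b := by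
  refine ⟨?_, fun i => ?_⟩
  · rw [Nat.shiftLeft_eq, mul_add, pow_add]
    exact Nat.mul_lt_mul_of_pos_right h.1 (Nat.two_pow_pos _)
  · rw [dg_shiftLeft]
    split_ifs
    · exact h.2 _
    · exact Nat.zero_le _

theorem Bd.mod {X N b : ℕ} (h : Bd X N b) (k : ℕ) : Bd (X % 2 ^ (64 * k)) k b := by
  refine ⟨Nat.mod_lt _ (Nat.two_pow_pos _), fun i => ?_⟩
  rw [dg_mod]
  split_ifs
  · exact h.2 _
  · exact Nat.zero_le _

end Pool.Agent.P.MP_2e1554_gt
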