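import Pool.Agent.P.MP_2e1554_gt.IsoRayF

open MeasureTheory Set Finset Matrix Filter Topology Pointwise

namespace Pool.Agent.P.MP_2e1554_gt

/-- normalised solid angle integral along a ray -/
noncomputable def Psi (a B C : ℝ) : ℝ :=
  ∫ u in (0 : ℝ)..1, 1 / Real.sqrt (a + 2 * B * u + C * u ^ 2) ^ 3 * u

/-- the quadratic is positive on `[0,1]` -/
def PsiOK (a B C : ℝ) : Prop := ∀ u ∈ Icc (0 : ℝ) 1, 0 < a + 2 * B * u + C * u ^ 2

/-- numerical upper bound -/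
theorem psi_le {a B C p r : ℝ} (hp : 0 < p) (hr : 0 < r) (hpa : p ^ 2 ≤ a)
    (hrQ : r ^ 2 ≤ a + 2 * B + C) (hd : 0 < p * r + a + B) :
    PsiOK a B C ∧ Psi a B C ≤ 1 / (r * (p * r + a + B)) := by
  have hok : PsiOK a B C := by
    rintro u ⟨h0, h1⟩
    have e : a + 2 * B * u + C * u ^ 2 = (1 - u) ^ 2 * (a - p ^ 2) +
        u ^ 2 * (a + 2 * B + C - r ^ 2) + (((1 - u) * p - u * r) ^ 2 +
          2 * (u * (1 - u)) * (p * r + a + B)) := by ring
    have t1 : 0 ≤ (1 - u) ^ 2 * (a - p ^ 2) := mul_nonneg (sq_nonneg _) (by linarith)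
    have t2 : 0 ≤ u ^ 2 * (a + 2 * B + C - r ^ 2) := mul_nonneg (sq_nonneg _) (by linarith)
    have t3 : 0 < ((1 - u) * p - u * r) ^ 2 + 2 * (u * (1 - u)) * (p * r + a + B) := by
      rcases h0.eq_or_lt with h | h
      · subst h
        simpa using pow_pos hp 2
      rcases h1.eq_or_lt with h' | h'
      · subst h'
        simpa using pow_pos hr 2
      have t4 : 0 < 2 * (u * (1 - u)) * (p * r + a + B) :=
        mul_pos (mul_pos two_pos (mul_pos h (by linarith))) hd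
      linarith [sq_nonneg ((1 - u) * p - u * r)]
    linarith
  refine ⟨hok, ?_⟩
  unfold Psi
  rw [rayF_int zero_le_one hok]
  simp only [one_pow, mul_one]
  have q1 : r ≤ Real.sqrt (a + 2 * B + C) := Real.le_sqrt_of_sq_le hrQ
  have q2 : p * r ≤ Real.sqrt (a * (a + 2 * B + C)) := by
    refine Real.le_sqrt_of_sq_le ?_
    rw [mul_pow]
    exact mul_le_mul hpa hrQ (sq_nonneg _) ((sq_nonneg _).trans hpa)
  refine one_div_le_one_div_of_le (mul_pos hr hd) ?_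
  exact mul_le_mul q1 (by linarith) hd.le (Real.sqrt_nonneg _)

theorem psi_cont {a B C : ℝ} (h : PsiOK a B C) : IntervalIntegrable
    (fun u : ℝ => 1 / Real.sqrt (a + 2 * B * u + C * u ^ 2) ^ 3 * u) volume 0 1 := by
  refine ContinuousOn.intervalIntegrable ?_
  rw [Set.uIcc_of_le zero_le_one]
  refine ContinuousOn.mul (ContinuousOn.div continuousOn_const (by fun_prop) fun r hr => ?_)
    continuousOn_id
  exact pow_ne_zero 3 (Real.sqrt_pos.2 (h r hr)).ne'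

theorem psi_jensen {ι : Type*} (I : Finset ι) (w a B C : ι → ℝ) (hw : ∀ j ∈ I, 0 ≤ w j)
    (h1 : ∑ j ∈ I, w j = 1) (hok : ∀ j ∈ I, PsiOK (a j) (B j) (C j)) {C₀ : ℝ}
    (hC : ∑ j ∈ I, w j * C j ≤ C₀) :
    Psi (∑ j ∈ I, w j * a j) (∑ j ∈ I, w j * B j) C₀ ≤ ∑ j ∈ I, w j * Psi (a j) (B j) (C j) := by
  have hle : ∀ u : ℝ, ∑ j ∈ I, w j * (a j + 2 * B j * u + C j * u ^ 2) ≤
      ∑ j ∈ I, w j * a j + 2 * (∑ j ∈ I, w j * B j) * u + C₀ * u ^ 2 := by
    intro u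
    have e : ∑ j ∈ I, w j * (a j + 2 * B j * u + C j * u ^ 2) = ∑ j ∈ I, w j * a j +
        2 * (∑ j ∈ I, w j * B j) * u + (∑ j ∈ I, w j * C j) * u ^ 2 := by
      rw [Finset.mul_sum, Finset.sum_mul, Finset.sum_mul, ← Finset.sum_add_distrib,
        ← Finset.sum_add_distrib]
      exact Finset.sum_congr rfl fun j _ => by ring
    rw [e]
    linarith [mul_le_mul_of_nonneg_right hC (sq_nonneg u)]
  have hpos : ∀ u ∈ Icc (0 : ℝ) 1, 0 < ∑ j ∈ I, w j * (a j + 2 * B j * u + C j * u ^ 2) :=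
    fun u hu => rayF_pos I w _ hw h1 fun j hj => hok j hj u hu
  have hok0 : PsiOK (∑ j ∈ I, w j * a j) (∑ j ∈ I, w j * B j) C₀ :=
    fun u hu => (hpos u hu).trans_le (hle u)
  have hint : ∀ j ∈ I, IntervalIntegrable
      (fun u : ℝ => w j * (1 / Real.sqrt (a j + 2 * B j * u + C j * u ^ 2) ^ 3 * u)) volume 0 1 :=
    fun j hj => (psi_cont (hok j hj)).const_mul _
  have e : ∑ j ∈ I, w j * Psi (a j) (B j) (C j) = ∫ u in (0 : ℝ)..1,
      ∑ j ∈ I, w j * (1 / Real.sqrt (a j + 2 * B j * u + C j * u ^ 2) ^ 3 * u) := by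
    rw [intervalIntegral.integral_finsetSum hint]
    refine Finset.sum_congr rfl fun j _ => ?_
    rw [intervalIntegral.integral_const_mul]
    rfl
  rw [e]
  unfold Psi
  refine intervalIntegral.integral_mono_on zero_le_one (psi_cont hok0) ?_ fun u hu => ?_
  · have := IntervalIntegrable.sum I hint
    rwa [Finset.sum_fn] at this
  have j1 := phi_convex.map_sum_le (t := I) (w := w)
    (p := fun j => a j + 2 * B j * u + C j * u ^ 2) hw h1 fun j hj => hok j hj u hu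
  simp only [smul_eq_mul] at j1
  have j2 : 1 / Real.sqrt (∑ j ∈ I, w j * a j + 2 * (∑ j ∈ I, w j * B j) * u + C₀ * u ^ 2) ^ 3 ≤
      1 / Real.sqrt (∑ j ∈ I, w j * (a j + 2 * B j * u + C j * u ^ 2)) ^ 3 :=
    one_div_le_one_div_of_le (pow_pos (Real.sqrt_pos.2 (hpos u hu)) 3)
      (pow_le_pow_left₀ (Real.sqrt_nonneg _) (Real.sqrt_le_sqrt (hle u)) 3)
  have j3 := mul_le_mul_of_nonneg_right (j2.trans j1) hu.1
  refine j3.trans_eq ?_
  rw [Finset.sum_mul]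
  exact Finset.sum_congr rfl fun j _ => by ring

theorem int_scale (f : ℝ → ℝ) (s : ℝ) :
    ∫ r in (0 : ℝ)..s, f r * r = s ^ 2 * ∫ u in (0 : ℝ)..1, f (s * u) * u := by
  have h := intervalIntegral.smul_integral_comp_mul_left (a := 0) (b := 1)
    (fun r : ℝ => f r * r) s
  simp only [mul_zero, mul_one, smul_eq_mul] at h
  rw [← h, pow_two, mul_assoc, ← intervalIntegral.integral_const_mul s fun u => f (s * u) * u]
  congr 2
  funext u
  ring

theorem rayI_phi {K : Set (Fin 2 → ℝ)} (g₁ g₂ v₁ v₂ : ℝ) (e : Fin 2 → ℝ) {s : ℝ}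
    (hs : s = (gauge K e)⁻¹) :
    rayI K (fun y => 1 / Real.sqrt (Rq g₁ g₂ v₁ v₂ y) ^ 3) e =
      s ^ 2 * Psi (5 - g₁ - g₂) (v₁ * (s * e 0) + v₂ * (s * e 1))
        (g₁ * (s * e 0) ^ 2 + g₂ * (s * e 1) ^ 2) := by
  unfold rayI Psi
  rw [← hs, int_scale (fun r => 1 / Real.sqrt (Rq g₁ g₂ v₁ v₂ (r • e)) ^ 3) s]
  congr 2
  funext u
  congr 4
  simp only [Rq, Pi.smul_apply, smul_eq_mul]
  ring

theorem sqrt_newton {g Q : ℕ} : ((2 * g * Q / (g * g + Q) : ℕ) : ℝ) ^ 2 ≤ Q := by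
  have h1 : ((2 * g * Q / (g * g + Q) : ℕ) : ℝ) ≤ ((2 * g * Q : ℕ) : ℝ) / ((g * g + Q : ℕ) : ℝ) :=
    Nat.cast_div_le
  refine (pow_le_pow_left₀ (Nat.cast_nonneg _) h1 2).trans ?_
  push_cast
  have hQ : (0 : ℝ) ≤ Q := Nat.cast_nonneg _
  rw [div_pow]
  refine div_le_of_le_mul₀ (sq_nonneg _) hQ ?_
  nlinarith [mul_nonneg hQ (sq_nonneg ((g : ℝ) * g - Q))]

end Pool.Agent.P.MP_2e1554_gt
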