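import Pool.Agent.P.MP_2e1554_gt.IsoChk
import Pool.Agent.P.MP_2e1554_gt.IsoDefs5
import Pool.Agent.P.MP_2e1554_gt.IsoPk
import Pool.Agent.P.MP_2e1554_gt.IsoPsi

/-! Meaning of the data of the checker. -/

open MeasureTheory Set Finset

namespace Pool.Agent.P.MP_2e1554_gt.Chk

/-- constants of the face lemma -/
noncomputable def cU : ℝ := 98600 / 100000
noncomputable def cL : ℝ := 8026 / 100000
noncomputable def cT : ℝ := 97478 / 100000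
noncomputable def cB : ℝ := 103660 / 100000
noncomputable def cK : ℝ := 3030 / 100000
noncomputable def cS : ℝ := 9580 / 100000
noncomputable def cA : ℝ := 76618 / 100000
noncomputable def cZ : ℝ := 10005 / 10000
/-- the slope -/
noncomputable def thQ (th la : Bool) (g₁ g₂ v₁ v₂ : ℝ) : ℝ :=
  if th then cU else min (min cU (cB - cK * Nq g₁ g₂ v₁ v₂))
    (cT + (if la then cL / 2 - 5 * cL / 6 * (g₁ * g₂ / Jq g₁ g₂ v₁ v₂) else 0) -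
      cL / 3 * max 0 (11 / 5 - g₁ - g₂))

/-- the nodes (vertices of a polygon with 56 edges on an octagon) -/
noncomputable def en (i : ℕ) : Fin 2 → ℝ := ![(ex i : ℝ) / 24, (ey i : ℝ) / 24]
/-- point between consecutive nodes -/
noncomputable def ep (i : ℕ) (x : ℝ) : Fin 2 → ℝ := (1 - x) • en i + x • en (i + 1)
/-- radial function -/
noncomputable def sp (K : Set (Fin 2 → ℝ)) (i : ℕ) (x : ℝ) : ℝ := (gauge K (ep i x))⁻¹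

structure StBd (s : St) : Prop where
  bql : Bd s.ql 56 (2 ^ 20)
  bqh : Bd s.qh 56 (2 ^ 20)
  bsl : Bd s.sl 56 (2 ^ 20)
  bll : Bd s.ll 168 (2 ^ 19) ∧ ∀ i < 28, dg s.ll i ≤ 38

/-- weighted means of the radial function on a sector -/
noncomputable def hA (K : Set (Fin 2 → ℝ)) (i : ℕ) : ℝ := ∫ x in (0 : ℝ)..1, (1 - x) * sp K i x
noncomputable def hB (K : Set (Fin 2 → ℝ)) (i : ℕ) : ℝ := ∫ x in (0 : ℝ)..1, x * sp K i x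
def lv (A B : ℕ → ℝ) (l : ℕ) : ℝ :=
  if l < 56 then A (l - 28) + A l else B (l - 56) + B (l - 28)
/-- bounds for the sum of two radii -/
def LOK (K : Set (Fin 2 → ℝ)) (l v : ℕ) : Prop :=
  if l < 28 then ∀ x ∈ Icc (0 : ℝ) 1, sp K l x + sp K (l + 28) x ≤ (30 + (v : ℝ)) / 12
  else 65536 * lv (hA K) (hB K) l ≤ (v : ℝ)
/-- the same for a sector and its mirror image -/
def MOK (K : Set (Fin 2 → ℝ)) (n ml mr kk : ℕ) : Prop := ∃ a b : ℝ,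
  (∀ x ∈ Icc (0 : ℝ) 1, sp K ((42 + n) % 56) x + sp K (41 - n) (1 - x) ≤ (1 - x) * a + x * b) ∧
    65536 * ((2 * a + b) / 6) ≤ ml ∧ 65536 * ((a + 2 * b) / 6) ≤ mr ∧ 93 ≤ 12 * a + kk ∧ 93 ≤ 12 * b + kk

structure StOK (s : St) (K : Set (Fin 2 → ℝ)) : Prop extends StBd s where
  ql : ∀ i < 56, (dg s.ql i : ℝ) < 2 ^ 20 * gauge K (en i)
  qh : ∀ i < 56, 2 ^ 20 * gauge K (en i) ≤ (dg s.qh i : ℝ)
  sl : ∀ i < 56, ∀ x ∈ Icc (0 : ℝ) 1, (dg s.sl i : ℝ) < 2 ^ 20 * gauge K (ep i x)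
  ll : (∀ l < 84, LOK K l (dg s.ll l)) ∧
    ∀ n < 28, MOK K n (dg s.ll (84 + n)) (dg s.ll (112 + n)) (dg s.ll (140 + n))
  vl : (s.vl : ℝ) ≤ 10 ^ 4 * volume.real K
  vh : s.vh ≠ 0 → 10 ^ 4 * volume.real K ≤ (s.vh : ℝ)

/-- a lower bound at a node or on a sector -/
def Tgt (K : Set (Fin 2 → ℝ)) (sec : Bool) (i τ : ℕ) : Prop :=
  if sec then ∀ x ∈ Icc (0 : ℝ) 1, (τ : ℝ) < 2 ^ 20 * gauge K (ep i x)
  else (τ : ℝ) < 2 ^ 20 * gauge K (en i)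

def InStar (B : Bx) (g₁ g₂ : ℝ) : Prop :=
  (B.t0 : ℝ) ≤ SG * (g₁ + g₂) ∧ SG * (g₁ + g₂) ≤ (B.t1 : ℝ) ∧
    (B.f0 : ℝ) * (g₁ + g₂) ≤ 65536 * g₂ ∧ 65536 * g₂ ≤ (B.f1 : ℝ) * (g₁ + g₂)

def InU (B : Bx) (u₁ u₂ : ℝ) : Prop :=
  (B.a0 : ℝ) ≤ SG * (u₁ + 2) ∧ SG * (u₁ + 2) ≤ (B.a1 : ℝ) ∧
    (B.b0 : ℝ) ≤ SG * (u₂ + 2) ∧ SG * (u₂ + 2) ≤ (B.b1 : ℝ)

/-- range of the true parameters -/
def Rng (G : Gx) (B : Bx) (g₁ g₂ v₁ v₂ : ℝ) : Prop :=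
  InStar B g₁ g₂ ∧ (vlo G B.a0 : ℝ) ≤ SG * v₁ ∧ SG * v₁ ≤ (vhi G B.a1 : ℝ) ∧
    (vlo G B.b0 : ℝ) ≤ SG * v₂ ∧ SG * v₂ ≤ (vhi G B.b1 : ℝ)

/-- a facet that is not too large -/
structure Fx (g₁ g₂ v₁ v₂ J : ℝ) (K : Set (Fin 2 → ℝ)) : Prop extends Fr g₁ g₂ v₁ v₂ J K where
  cut : J * volume.real K ≤ cZ * (10 * Real.sqrt 5)

/-- the true parameters are near -/
def Tru (G : Gx) (B : Bx) (K : Set (Fin 2 → ℝ)) (u₁ u₂ : ℝ) : Prop :=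
  ∃ g₁ g₂ v₁ v₂ J : ℝ, Fx g₁ g₂ v₁ v₂ J K ∧ InStar B g₁ g₂ ∧
    SG * |v₁ - u₁| ≤ (G.dl : ℝ) ∧ SG * |v₂ - u₂| ≤ (G.dl : ℝ)

/-- moments -/
noncomputable def mo (K : Set (Fin 2 → ℝ)) (a b : ℕ) : ℝ := ∫ y in K, y 0 ^ a * y 1 ^ b
noncomputable def rw₁ (K : Set (Fin 2 → ℝ)) (g₁ g₂ u₁ : ℝ) : ℝ :=
  2 * u₁ * volume.real K + g₁ * mo K 3 0 + g₂ * mo K 1 2
noncomputable def rw₂ (K : Set (Fin 2 → ℝ)) (g₁ g₂ u₂ : ℝ) : ℝ :=
  2 * u₂ * volume.real K + g₁ * mo K 2 1 + g₂ * mo K 0 3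

/-- the potential along the ray through `ep i x` -/
noncomputable def pray (K : Set (Fin 2 → ℝ)) (g₁ g₂ v₁ v₂ : ℝ) (i : ℕ) (x : ℝ) : ℝ :=
  sp K i x ^ 2 * Psi (5 - g₁ - g₂) (v₁ * (sp K i x * ep i x 0) + v₂ * (sp K i x * ep i x 1))
    (g₁ * (sp K i x * ep i x 0) ^ 2 + g₂ * (sp K i x * ep i x 1) ^ 2)
noncomputable def IP (K : Set (Fin 2 → ℝ)) (g₁ g₂ v₁ v₂ : ℝ) : ℝ :=
  ∑ i ∈ range 56, 1 / 8 * ∫ x in (0 : ℝ)..1, pray K g₁ g₂ v₁ v₂ i x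
def POK (K : Set (Fin 2 → ℝ)) (g₁ g₂ v₁ v₂ : ℝ) : Prop :=
  ∀ i < 56, ∀ x ∈ Icc (0 : ℝ) 1,
    PsiOK (5 - g₁ - g₂) (v₁ * (sp K i x * ep i x 0) + v₂ * (sp K i x * ep i x 1))
      (g₁ * (sp K i x * ep i x 0) ^ 2 + g₂ * (sp K i x * ep i x 1) ^ 2)

/-- the inequality at a parameter, with an extra term `l` -/
def VQ (K : Set (Fin 2 → ℝ)) (om th la : Bool) (g₁ g₂ v₁ v₂ l : ℝ) : Prop :=
  (om = true → POK K g₁ g₂ v₁ v₂) ∧ (th = true ∨ la = true → 0 < g₁ ∧ 0 < g₂ ∧ 0 < Jq g₁ g₂ v₁ v₂) ∧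
    (if om then IP K g₁ g₂ v₁ v₂ else 0) +
        (if th then Real.pi * cS * cA / Real.sqrt (Jq g₁ g₂ v₁ v₂) else 0) + l <
      ((if om then Real.pi * thQ th la g₁ g₂ v₁ v₂ / (10 * Real.sqrt 5) else 0) +
        (if th then Real.pi * cS / (10 * Real.sqrt 5) else 0)) * volume.real K

/-- the row of the cell, with its multiplier -/
noncomputable def lC (th : ℕ) (g₁ g₂ u₁ u₂ : ℝ) : ℝ :=
  kK th / 128 * (Rq g₁ g₂ u₁ u₂ ![-(kY1 th : ℝ) / 64, -(kY2 th : ℝ) / 64] - 5 / 3 + kGB th / (4096 * SG))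
noncomputable def lG (b : Bool) (th : ℕ) (K : Set (Fin 2 → ℝ)) (g₁ g₂ u₁ u₂ : ℝ) : ℝ :=
  lC th g₁ g₂ u₁ u₂ - (if b then pK th / 16 * (pGA th * g₁ / 2 ^ 22) else 0) * volume.real K

theorem lG_aff (b : Bool) (th : ℕ) (K : Set (Fin 2 → ℝ)) : ∃ a p q r s : ℝ, ∀ g₁ g₂ u₁ u₂ : ℝ,
    lG b th K g₁ g₂ u₁ u₂ = a + p * g₁ + q * g₂ + r * u₁ + s * u₂ := by
  refine ⟨kK th / 128 * (10 / 3 + kGB th / (4096 * SG)), kK th / 128 * ((kY1 th / 64) ^ 2 - 1) -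
    (if b then pK th / 16 * (pGA th / 2 ^ 22) else 0 : ℝ) * volume.real K,
    kK th / 128 * ((kY2 th / 64) ^ 2 - 1), -(kK th / 128 * (kY1 th / 32)),
    -(kK th / 128 * (kY2 th / 32)), fun _ _ _ _ => ?_⟩
  cases b
  · simp only [lG, lC, Rq, Bool.false_eq_true, if_false, Matrix.cons_val_zero, Matrix.cons_val_one]
    ring
  · simp only [lG, lC, Rq, if_true, Matrix.cons_val_zero, Matrix.cons_val_one]
    ring

def Good (G : Gx) (B : Bx) (s : St) : Prop :=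
  ∀ (K : Set (Fin 2 → ℝ)) (u₁ u₂ : ℝ), rw₁ K (G.g1 / SG) (G.g2 / SG) u₁ = 0 →
    rw₂ K (G.g1 / SG) (G.g2 / SG) u₂ = 0 → InU B u₁ u₂ → Tru G B K u₁ u₂ → StOK s K →
      G.th % 8 ≤ 2 ∧ VQ K true (Nat.beq (G.th % 8) 1) (Nat.beq (G.th % 8) 2) (G.g1 / SG) (G.g2 / SG) u₁ u₂
        (lG (Nat.beq (G.th % 8) 1) G.th K (G.g1 / SG) (G.g2 / SG) u₁ u₂)

/-- bound for the third moments -/
def MomB (an : ℕ) : Prop := ∀ (g₁ g₂ v₁ v₂ J : ℝ) (K : Set (Fin 2 → ℝ)), Fx g₁ g₂ v₁ v₂ J K →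
  |mo K 3 0| ≤ an / 512 * volume.real K ∧ |mo K 2 1| ≤ an / 512 * volume.real K ∧
    |mo K 1 2| ≤ an / 512 * volume.real K ∧ |mo K 0 3| ≤ an / 512 * volume.real K

/-! ### tables -/

/-- lane of grid value `k` on ray `i` -/
def lay (k i : ℕ) : ℕ := if i % 56 < 28 then 28 * k + i % 56 else 28 * (39 - k) + (i % 56 - 28)
/-- bilinear interpolation -/
def bil (F : ℕ → ℕ → ℝ) (k i : ℕ) (x l : ℝ) : ℝ :=
  (1 - x) * ((1 - l) * F k i + l * F (k + 1) i) + x * ((1 - l) * F k (i + 1) + l * F (k + 1) (i + 1))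
def TU (j : ℕ) : ℕ :=
  [TU0, TU1, TU2, TU3, TU4, TU5, TU6, TU7, TU8, TU9, TU10, TU11, TU12, TU13, TU14, TU15, TU16].getD j 0
def TL (j : ℕ) : ℕ :=
  [TL0, TL1, TL2, TL3, TL4, TL5, TL6, TL7, TL8, TL9, TL10, TL11, TL12, TL13, TL14, TL15, TL16].getD j 0
def YU (j : ℕ) : ℕ :=
  [0, 0, 0, YU3, YU4, YU5, YU6, YU7, YU8, YU9, YU10, YU11, YU12, YU13, YU14, YU15, YU16].getD j 0
def YL (j : ℕ) : ℕ :=
  [0, 0, 0, YL3, YL4, YL5, YL6, YL7, YL8, YL9, YL10, YL11, YL12, YL13, YL14, YL15, YL16].getD j 0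
def pa (j : ℕ) : ℕ := [0, 1, 0, 2, 0, 1, 3, 2, 1, 0, 4, 3, 2, 1, 0, 5, 6].getD j 0
def pb (j : ℕ) : ℕ := [0, 0, 1, 0, 2, 1, 0, 1, 2, 3, 0, 1, 2, 3, 4, 0, 0].getD j 0
def ps (j : ℕ) : ℕ := [1, 1, 1, 1, 1, 1, 1, 1, 1, 1, 4, 4, 4, 4, 4, 8, 16].getD j 1
def tp (j : ℕ) : ℕ := pa j + pb j + 2
/-- the monomial along a ray -/
noncomputable def mray (j : ℕ) (e : Fin 2 → ℝ) (s : ℝ) : ℝ :=
  s ^ 2 * ((s * e 0) ^ pa j * (s * e 1) ^ pb j / ((pa j : ℝ) + pb j + 2)) / ps j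
def sU (p k : ℕ) : ℤ := 8 * (15 + k : ℤ) ^ p
def sL (p k : ℕ) : ℤ := 8 * (15 + k : ℤ) ^ p - p * (p - 1) * (16 + k : ℤ) ^ (p - 2)
def u1 (k : ℕ) : ℕ := dg PUA (28 * k)
def l1 (k : ℕ) : ℕ := dg PLA (28 * k)
def cl (k : ℕ) : ℕ := max 1 (min k 18)
/-- second difference at the nearest interior grid value -/
def dd {R : Type} [Ring R] (F : ℕ → R) (k : ℕ) : R := F (cl k - 1) - 2 * F (cl k) + F (cl k + 1)
/-- Everett's interpolation -/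
noncomputable def Ev (F : ℕ → ℝ) (k : ℕ) (l : ℝ) : ℝ :=
  (1 - l) * F k + l * F (k + 1) - l * (1 - l) / 6 * ((2 - l) * dd F k + (1 + l) * dd F (k + 1))
/-- the table `u` dominates `2^24 c m^p / den` at `m = 15 + k` -/
def TabOK (u : ℕ → ℤ) (c den : ℤ) (p k : ℕ) : Prop :=
  16 * max 0 (dd u k * den -
      c * ((14 + k : ℤ) ^ p - 2 * (15 + k : ℤ) ^ p + (16 + k : ℤ) ^ p) * 2 ^ 24) +
    54 * max 0 c * (p.choose 4 : ℕ) * (17 + k : ℤ) ^ (p - 4) * 2 ^ 24 ≤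
      96 * (u k * den - c * (15 + k : ℤ) ^ p * 2 ^ 24)
instance (u : ℕ → ℤ) (c den : ℤ) (p k : ℕ) : Decidable (TabOK u c den p k) := by
  unfold TabOK; infer_instance
def tc (j i : ℕ) : ℤ := ex i ^ pa j * ey i ^ pb j
def tden (j : ℕ) : ℤ := 24 ^ (pa j + pb j) * 12 ^ tp j * tp j * ps j
/-- coefficient of `x^k` in the monomial on sector `i` -/
def cf (j i k : ℕ) : ℤ := ∑ r ∈ range (k + 1),
  (pa j).choose r * ex i ^ (pa j - r) * (ex (i + 1) - ex i) ^ r *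
    ((pb j).choose (k - r) * ey i ^ (pb j - (k - r)) * (ey (i + 1) - ey i) ^ (k - r))
def gj (j i r : ℕ) : ℤ := ∑ k ∈ range (5 - r), cf j i (r + 2 + k)
def gs (j i : ℕ) : ℤ := gj j i 0 + gj j i 1 + gj j i 2 + gj j i 3 + gj j i 4
def gr (j i : ℕ) : ℤ := |gj j i 2| + 2 * |gj j i 3| + 3 * |gj j i 4|
def yU (j i : ℕ) : ℤ :=
  max (-4 * gj j i 0 + gr j i) (-4 * gs j ((i + 55) % 56) + gr j ((i + 55) % 56))
def yL (j i : ℕ) : ℤ :=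
  min (-4 * gj j i 0 - gr j i) (-4 * gs j ((i + 55) % 56) - gr j ((i + 55) % 56))
def yden (j : ℕ) : ℤ := 128 * tden j
/-- signed values of the tables of the error between two rays -/
def zU (j k i : ℕ) : ℤ := if j < 3 then 0 else (dg (YU j) (lay k i) : ℤ) - 2 ^ 30
def zL (j k i : ℕ) : ℤ := if j < 3 then 0 else (dg (YL j) (lay k i) : ℤ) - 2 ^ 30

/-- a valid row -/
def RowOK (K : Set (Fin 2 → ℝ)) (A b : ℕ) : Prop := Bd A 23 b ∧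
  ∑ j ∈ range 11, ((dg A j : ℝ) - dg A (11 + j)) * (mo K (pa (6 + j)) (pb (6 + j)) / ps (6 + j)) ≤
    dg A 22 * volume.real K

/-! ### a vertex of a leaf, lane by lane -/

/-- integer coefficients -/
def cI (G : Gx) (b1 b2 : ℕ) (x : ℕ → ℕ) (e0 e1 e2 e3 e4 e5 j : ℕ) : ℕ :=
  [e0, e1, e2, e3, e4, e5, cdn b1 G.g1, cdn b2 G.g1, cdn b1 G.g2, cdn b2 G.g2].getD j 0 +
    if j < 6 then 0 else x (j - 6) / 4096
/-- real coefficients -/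
noncomputable def cR (G : Gx) (b1 b2 : ℕ) (x : ℕ → ℕ) (e0 e1 e2 e3 e4 e5 j : ℕ) : ℝ :=
  [(e0 : ℝ), e1, e2, e3, e4, e5, b1 * (G.g1 / SG), b2 * (G.g1 / SG), b1 * (G.g2 / SG),
    b2 * (G.g2 / SG)].getD j 0 + if j < 6 then 0 else (x (j - 6) : ℝ) / 4096
def xp (c : Cm) (j : ℕ) : ℕ := dg c.xa j - dg c.xa (11 + j)
def xq (c : Cm) (j : ℕ) : ℕ := dg c.xa (11 + j) - dg c.xa j
def xk (c : Cm) : ℕ := (dg c.xa 22 + 4095) / 4096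
def cP (G : Gx) (c : Cm) (d : Vd) (j : ℕ) : ℕ :=
  cI G c.b1p c.b2p (xp c) d.p0 d.p1 d.p2 d.p3 d.p4 d.p5 j
def cQ (G : Gx) (c : Cm) (d : Vd) (j : ℕ) : ℕ :=
  cI G c.b1q c.b2q (xq c) d.q0 d.q1 d.q2 d.q3 d.q4 d.q5 j
noncomputable def rP (G : Gx) (c : Cm) (d : Vd) (j : ℕ) : ℝ :=
  cR G c.b1p c.b2p (xp c) d.p0 d.p1 d.p2 d.p3 d.p4 d.p5 j
noncomputable def rQ (G : Gx) (c : Cm) (d : Vd) (j : ℕ) : ℝ :=
  cR G c.b1q c.b2q (xq c) d.q0 d.q1 d.q2 d.q3 d.q4 d.q5 j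
def kP (G : Gx) (c : Cm) (d : Vd) : ℕ := ∑ j ∈ range 17, cP G c d j
def kN (G : Gx) (c : Cm) (d : Vd) : ℕ := ∑ j ∈ range 17, cQ G c d j
def alf (d : Vd) (i : ℕ) : ℕ := dg (d.al &&& M31) (i % 56)
def bet (d : Vd) (i : ℕ) : ℕ := dg (d.be &&& M31) (i % 56)
def gam (d : Vd) (i : ℕ) : ℕ := 12 * (alf d (i + 55) + alf d (i + 1)) + 48 * alf d i
def gbm (d : Vd) (i : ℕ) : ℕ := 72 * bet d i - if i % 14 = 4 ∨ i % 14 = 10 then bet d i else 0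
def sumP (s : St) (d : Vd) : ℕ := ∑ i ∈ range 56, (gam d i - gbm d i) * dg s.qh i
def sumN (s : St) (d : Vd) : ℕ := ∑ i ∈ range 56, (gbm d i - gam d i) * dg s.ql i
def nuI (j : ℕ) : ℕ := if 42 ≤ j then j - 14 else if j < 14 then j + 42 else 70 - j
def muv (c : Cm) (i : ℕ) : ℕ := dg (c.mu &&& N31) (i % 28) + dg (c.mu &&& N31) (nuI (i % 56))
def hiv (s : St) (i : ℕ) : ℕ := ∑ k ∈ range 20,
  if min (dg s.sl i) (dg s.sl ((i + 55) % 56)) ≤ 12 * 2 ^ 20 / (14 + k) then 1 else 0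
def kqv (s : St) (i : ℕ) : ℕ :=
  min (64 - max (dg s.ll (112 + nuI i)) (dg s.ll (111 + nuI i)) - hiv s ((84 - i) % 56)) (hiv s i - 1)
def nuv (c : Cm) (i : ℕ) : ℕ := dg (c.mu &&& N31) (nuI (i % 56))
def kv (s : St) (c : Cm) (k i : ℕ) : ℕ := nuv c i * (kqv s (i % 56) - k) * 2 ^ 20
noncomputable def psi (s : St) (i : ℕ) (r : ℝ) : ℝ := max r ((15 + (kqv s (i % 56) : ℝ)) / 12)
noncomputable def kA (s : St) (K : Set (Fin 2 → ℝ)) (i : ℕ) : ℝ :=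
  ∫ x in (0 : ℝ)..1, (1 - x) * psi s i (sp K i x)
noncomputable def kB (s : St) (K : Set (Fin 2 → ℝ)) (i : ℕ) : ℝ :=
  ∫ x in (0 : ℝ)..1, x * psi s (i + 1) (sp K i x)
/-- the rows in the radial function on the ray through `ep i x` -/
noncomputable def wv (s : St) (c : Cm) (i : ℕ) (x r : ℝ) : ℝ :=
  ((1 - x) * dg (c.mu &&& N31) (i % 28) + x * dg (c.mu &&& N31) ((i + 1) % 28)) * r +
    ((1 - x) * (nuv c i * psi s i r) + x * (nuv c (i + 1) * psi s (i + 1) r))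
def ia (l : ℕ) : ℕ := if l < 28 then 28 + l else 56 + l
def ib (l : ℕ) : ℕ := if l < 28 then 56 + (l + 27) % 28 else 83 + l
def sumM (s : St) (c : Cm) : ℕ :=
  ∑ l ∈ range 56, dg (c.mu &&& N31) l * (dg s.ll (ia l) + dg s.ll (ib l))
def omB (c : Cm) : Bool := !Nat.beq c.om 0
def thB (G : Gx) (c : Cm) : Bool := omB c && Nat.beq (G.th % 8) 1
def laB (G : Gx) (c : Cm) : Bool := omB c && Nat.beq (G.th % 8) 2
def etP (c : Cm) (v1 v2 : ℕ) (d : Vd) : ℕ :=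
  SG * (d.p0 + d.p3 + d.p4 + xk c) + 2 * (c.b1q * v1 + c.b2q * v2 + OO * (c.b1p + c.b2p))
def etM (G : Gx) (c : Cm) (v1 v2 : ℕ) (d : Vd) : ℕ :=
  SG * (d.q0 + d.q3 + d.q4) + 2 * (c.b1p * v1 + c.b2p * v2 + OO * (c.b1q + c.b2q)) +
    (bif omB c then beM (G.th % 8) G.g1 G.g2 v1 v2 else 0) + (bif thB G c then slpT G.th G.g1 else 0)
def rpB (G : Gx) (B : Bx) (c : Cm) : ℕ :=
  max (max (rq c B.t0 B.f0) (rq c B.t0 B.f1)) (max (rq c B.t1 B.f0) (rq c B.t1 B.f1)) +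
    32 * ((OO + G.dl) * (c.ya + c.yb))
/-- grid value `k` is active on ray `i < 56` -/
def Act (s : St) (k i : ℕ) : Prop :=
  12 * 2 ^ 20 < max (max (dg s.qh ((i + 55) % 56)) (dg s.qh ((i + 1) % 56))) (dg s.qh i) * (16 + k) ∧
    min (dg s.sl i) (dg s.sl ((i + 55) % 56)) * (14 + k) < 12 * 2 ^ 20
/-- the polynomial and the rows at a grid point -/
def pv (G : Gx) (c : Cm) (d : Vd) (k i : ℕ) : ℤ :=
  2 ^ 60 + ∑ j ∈ range 17, (cQ G c d j : ℤ) * dg (TU j) (lay k i) + ((bet d i - alf d i : ℕ) : ℤ) * u1 k -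
    ∑ j ∈ range 17, (cP G c d j : ℤ) * dg (TL j) (lay k i) - ((alf d i - bet d i : ℕ) : ℤ) * l1 k -
    (muv c i : ℤ) * ((15 + k) * 2 ^ 20)
/-- error along a ray -/
def ev (G : Gx) (c : Cm) (d : Vd) (k i : ℕ) : ℤ :=
  (max 0 (-dd (fun k => pv G c d k i) k) / 256 + 1) * 43
/-- error between two rays -/
def yv (G : Gx) (c : Cm) (d : Vd) (k i : ℕ) : ℤ :=
  max 0 (∑ j ∈ range 17, ((cQ G c d j : ℤ) * zU j k i - (cP G c d j : ℤ) * zL j k i))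
/-- value of an active lane -/
noncomputable def zval (G : Gx) (c : Cm) (v1 v2 : ℕ) (d : Vd) (k i : ℕ) : ℤ :=
  pv G c d k i + ev G c d k i + yv G c d k i +
    (if omB c then (dg (mkT G.g1 G.g2 v1 v2) (lay k i) : ℤ) else 0)
noncomputable def zk (G : Gx) (s : St) (c : Cm) (v1 v2 : ℕ) (d : Vd) (k i : ℕ) : ℤ :=
  zval G c v1 v2 d k i - kv s c k i

/-- what a successful test at a vertex says, lane by lane -/
structure Lanes (G : Gx) (B : Bx) (s : St) (c : Cm) (v1 v2 : ℕ) (d : Vd) (C : ℕ → ℕ) : Prop where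
  bg : G.g1 + G.g2 ≤ 31457280
  b1 : v1 ≤ 37748736
  b2 : v2 ≤ 37748736
  hth : omB c = true → G.th % 8 ≤ 2
  hj : thB G c = true → 0 < jR G.g1 G.g2 v1 v2
  hl : laB G c = true → SG * (G.g1 * G.g2) < 4 * jI G.g1 G.g2 v1 v2
  he : etP c v1 v2 d ≤ etM G c v1 v2 d ∨ s.vh ≠ 0
  hT : omB c = true → ∀ k < 20, ∀ i < 56, Act s k i → dg (mkT G.g1 G.g2 v1 v2) (lay k i) < 2 ^ 56
  hC : ∀ i < 28, ∀ k < 20, ∀ k' < 20, Act s k i → Act s k' (i + 28) →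
    k + k' ≤ max (dg s.ll i) (dg s.ll ((i + 27) % 28)) →
      zk G s c v1 v2 d k i + zk G s c v1 v2 d k' (i + 28) ≤ 2 ^ 61 - 2 ^ 58 + C i
  fin : 2560000 * (648 * (56493153725735501824 + ∑ i ∈ range 28, C i + 60129542144 * (kP G c d + 30)) +
        144 * (sumP s d + 864 * sumM s c)) +
      9216 * (10000 * (256 * ((bif thB G c then CKAP / jR G.g1 G.g2 v1 v2 + 1 else 0) +
          (bif omB c then cA1 G.th G.g1 G.g2 else 0)) +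
        c.ka * rpB G B c) + 256 * ((etP c v1 v2 d - etM G c v1 v2 d) * s.vh)) <
    2560000 * (648 * (64563604257983430656 + 60129542144 * kN G c d) + 144 * sumN s d) +
      9216 * (10000 * (c.ka * (32 * (v1 * c.ya + v2 * c.yb) + 4026531840) +
          256 * (bif omB c then cB1 G.th v1 v2 else 0)) +
        256 * ((etM G c v1 v2 d - etP c v1 v2 d) * s.vl))

/-- the integrand on the ray through `ep i x`, scale `2^50` -/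
noncomputable def gray (K : Set (Fin 2 → ℝ)) (G : Gx) (c : Cm) (v1 v2 : ℕ) (d : Vd) (i : ℕ) (x : ℝ) : ℝ :=
  2 ^ 50 * (if omB c then pray K (G.g1 / SG) (G.g2 / SG) (v1 / SG - 2) (v2 / SG - 2) i x else 0) -
    2 ^ 24 * ∑ j ∈ range 17, (rP G c d j - rQ G c d j) * mray j (ep i x) (sp K i x) +
    2 ^ 24 * (((1 - x) * ((bet d i : ℝ) - alf d i) + x * ((bet d (i + 1) : ℝ) - alf d (i + 1))) *
      gauge K (ep i x))

/-- the affine term of a leaf -/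
noncomputable def ell (K : Set (Fin 2 → ℝ)) (G : Gx) (B : Bx) (c : Cm) (u₁ u₂ : ℝ) : ℝ :=
  c.ka / 2 ^ 26 * ((rpB G B c : ℝ) / (256 * SG) - ((u₁ + 2) * c.ya + (u₂ + 2) * c.yb) / 8 - 5 / 3) -
    ((c.b1p : ℝ) - c.b1q) / 2 ^ 26 * rw₁ K (G.g1 / SG) (G.g2 / SG) u₁ -
    ((c.b2p : ℝ) - c.b2q) / 2 ^ 26 * rw₂ K (G.g1 / SG) (G.g2 / SG) u₂

/-- values used by the table of the potential: `B` and a lower envelope of `C` at a grid point -/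
noncomputable def tB (v1 v2 k i : ℕ) : ℝ :=
  (15 + k : ℝ) / 12 * (((v1 : ℝ) / SG - 2) * en (i % 56) 0 + ((v2 : ℝ) / SG - 2) * en (i % 56) 1)
noncomputable def tC (g1 g2 k i : ℕ) : ℝ :=
  (((g1 : ℝ) * dg XP (i % 56) + g2 * dg YP (i % 56)) * (4 * (15 + k : ℝ) ^ 2 - 1) -
    ((g1 : ℝ) * dg XM (i % 56) + g2 * dg YM (i % 56)) * (4 * (15 + k : ℝ) ^ 2)) / (SG * 1327104)
/-- the rows of `U` of a vertex -/
noncomputable def uT (g1 g2 v1 v2 : ℕ) : ℕ → ℕ :=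
  urow (utab (newt ((5 * SG - g1 - g2) * 1327104) (nw ((5 * SG - g1 - g2) * 1327104)
    (nw ((5 * SG - g1 - g2) * 1327104) (nw ((5 * SG - g1 - g2) * 1327104) 6000000))) - 1 + 1)
    (cat (xrow ((5 * SG - g1 - g2) * 1327104) (96 * SG + 24 * (v1 + v2)) (g1 * XP + g2 * YP)
      (g1 * XM + g2 * YM) (v1 * EXP + v2 * EYP + OE)) 20)
    (cat (yrow ((5 * SG - g1 - g2) * 20736) (96 * SG + 24 * (v1 + v2)) (v1 * EXP + v2 * EYP + OE)) 20))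

theorem mkT_eq (g1 g2 v1 v2 : ℕ) : mkT g1 g2 v1 v2 = tabl (uT g1 g2 v1 v2) 20 := rfl

theorem force_eq {α : Type} (n : ℕ) (k : ℕ → α) : force n k = k n := by cases n <;> rfl
theorem forceS_eq {α : Type} (s : St) (k : St → α) : forceS s k = k s := rfl
theorem forceB_eq {α : Type} (B : Bx) (k : Bx → α) : forceB B k = k B := rfl
theorem SG_eq : (SG : ℝ) = 9437184 := by simp [SG]
theorem OO_eq : (OO : ℝ) = 18874368 := by simp [OO]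

end Pool.Agent.P.MP_2e1554_gt.Chk
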