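import Pool.Agent.P.MP_2e1554_gt.IsoFast
import Pool.Agent.P.MP_2e1554_gt.IsoLane
import Pool.Agent.P.MP_2e1554_gt.IsoSem

/-! The fast leaf test agrees with the leaf test. -/

namespace Pool.Agent.P.MP_2e1554_gt.Chk

theorem nA (a b : ℕ) : Nat.add a b = a + b := (rfl)
theorem nS (a b : ℕ) : Nat.sub a b = a - b := (rfl)
theorem nM (a b : ℕ) : Nat.mul a b = a * b := (rfl)
theorem nD (a b : ℕ) : Nat.div a b = a / b := (rfl)
theorem nO (a b : ℕ) : Nat.mod a b = a % b := (rfl)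
theorem nL (a b : ℕ) : Nat.land a b = a &&& b := (rfl)
theorem nR (a b : ℕ) : Nat.shiftRight a b = a >>> b := (rfl)
theorem nT (a b : ℕ) : Nat.shiftLeft a b = a <<< b := (rfl)
theorem nB (a b : ℕ) : Nat.ble (Nat.succ a) b = Nat.blt a b := (rfl)
theorem nU (a : ℕ) : Nat.succ a = a + 1 := (rfl)
theorem low1 (d : ℕ) : Nat.land d (nat_lit 18446744073709551615) = low 1 d := by
  rw [low, nL]
theorem frc_eq {α : Type} (n : ℕ) (k : ℕ → α) : frc n k = k n := by cases n <;> rfl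
theorem lsF_eq (H X Y : ℕ) : lsF H X Y = lsub H X Y := rfl
theorem lmF_eq (H X Y : ℕ) : lmF H X Y = lmax H X Y := rfl
theorem lgF_eq (H X Y : ℕ) : lgF H X Y = lge H X Y := rfl
theorem laF_eq (X i : ℕ) : laF X i = lane X i := rfl
theorem upF_eq (X i v : ℕ) : upF X i v = upd X i v := rfl
theorem rL56_eq (X : ℕ) : rL56 X = rotL 56 X := rfl
theorem rR56_eq (X : ℕ) : rR56 X = rotR 56 X := rfl
theorem krF_eq (W A B : ℕ) : krF W A B = kron W A B := rfl
theorem brec {α : Type} (a b : α) (c : Bool) : @Bool.rec (fun _ => α) a b c = bif c then b else a := by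
  cases c <;> rfl
theorem brand (a b : Bool) : @Bool.rec (fun _ => Bool) false a b = (b && a) := by cases b <;> rfl
theorem bror (a b : Bool) : @Bool.rec (fun _ => Bool) a true b = (b || a) := by cases b <;> rfl
theorem brnot (b : Bool) : @Bool.rec (fun _ => Bool) true false b = !b := by cases b <;> rfl
theorem mxF_eq (a b : ℕ) : mxF a b = max a b := by
  simp only [mxF, Nat.sub_eq, Nat.add_eq]; omega
theorem bmF_eq (D b : ℕ) : bmF D b = bitM D b := by simp only [bmF, bitM, nM, nL, nR]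
theorem dLF_eq (l : ℕ) : dLF l = D38 - lmax H28 (low 28 l) (rotL 28 (low 28 l)) := rfl
theorem sdF_adf (a b : ℕ) : sdF a b = adf a b * adf a b := rfl
theorem l2F_eq (J : ℕ) : l2F J = Nat.log2 J := by
  rw [l2F, brec]
  cases h : Nat.ble (nat_lit 4611686018427387904) J
  · rfl
  · have h1 : 2 ^ 62 ≤ J := Nat.le_of_ble_eq_true h
    have h2 : 62 ≤ Nat.log 2 J := Nat.le_log_of_pow_le (by norm_num) h1
    rw [cond_true, nA, nR, Nat.shiftRight_eq_div_pow, Nat.log2_eq_log_two, Nat.log2_eq_log_two,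
      Nat.log_div_base_pow]
    exact Nat.sub_add_cancel h2
theorem jIF_eq (g1 g2 v1 v2 : ℕ) : jIF g1 g2 v1 v2 = jI g1 g2 v1 v2 := by
  simp only [jIF, jI, sdF_adf, nA, nS, nM]
theorem jRF_eq (g1 g2 v1 v2 : ℕ) : jRF g1 g2 v1 v2 = jR g1 g2 v1 v2 := by
  simp only [jRF, j2F, jR, jIF_eq, l2F_eq, nA, nS, nM, nD, nT, Nat.one_shiftLeft]
theorem beF_eq (g1 g2 v1 v2 : ℕ) : beF g1 g2 v1 v2 = be0 g1 g2 v1 v2 := by
  simp only [beF, be0, nI, sdF_adf, nA, nS, nM, nD]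
theorem bMF_eq (th g1 g2 v1 v2 : ℕ) : bMF th g1 g2 v1 v2 = beM th g1 g2 v1 v2 := by
  simp only [bMF, beM, b2F, be2, mnS, beF_eq, jIF_eq, brec, nA, nS, nM, nD]
private def sgm (k i : ℕ) : ℕ := if i / k % 2 = 0 then i + k else i - k
private theorem sw_spec {M k : ℕ}
    (hM : M = pk (fun i => if i / k % 2 = 0 then 18446744073709551615 else 0) 64)
    (hk : ∀ i, (i < 64 ∧ i / k % 2 = 0 → ¬(k ≤ i ∧ (i - k) / k % 2 = 0)) ∧
      (i < 64 ∧ ¬i / k % 2 = 0 → k ≤ i ∧ (i - k) / k % 2 = 0) ∧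
      (¬i < 64 → k ≤ i ∧ ¬(i - k < 64 ∧ (i - k) / k % 2 = 0))) (X i : ℕ) :
    dg (swF M (64 * k) X) i = if i < 64 then dg X (sgm k i) else 0 := by
  have h1 : ∀ i, dg M i = if i < 64 ∧ i / k % 2 = 0 then 2 ^ 64 - 1 else 0 := by
    intro i
    rw [hM, dg_pk (by intro i _; split_ifs <;> norm_num)]
    by_cases a : i < 64 <;> by_cases b : i / k % 2 = 0 <;> simp [a, b]
  have h2 : ∀ j, dg X j &&& (2 ^ 64 - 1) = dg X j := fun j => by
    rw [Nat.and_two_pow_sub_one_eq_mod, Nat.mod_eq_of_lt (dg_lt X j)]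
  have e : swF M (64 * k) X = (X &&& M) <<< (64 * k) ||| (X >>> (64 * k) &&& M) := rfl
  rw [e, dg_lor, dg_shiftLeft, dg_land, dg_land, dg_shiftRight, h1, h1, sgm]
  obtain ⟨k1, k2, k3⟩ := hk i
  by_cases a : i < 64
  · by_cases b : i / k % 2 = 0
    · rw [if_pos a, if_pos b, if_pos (And.intro a b), h2]
      by_cases c : k ≤ i
      · rw [if_pos c, if_neg fun h => k1 ⟨a, b⟩ ⟨c, h.2⟩, Nat.and_zero, Nat.zero_or]
      · rw [if_neg c, Nat.zero_or]
    · obtain ⟨c, d⟩ := k2 ⟨a, b⟩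
      rw [if_pos a, if_neg b, if_pos c, if_pos (And.intro (by omega) d), h2,
        if_neg fun h => b h.2, Nat.and_zero, Nat.or_zero]
  · obtain ⟨c, d⟩ := k3 a
    rw [if_neg a, if_pos c, if_neg d, if_neg fun h => a h.1, Nat.and_zero, Nat.and_zero, Nat.or_zero]
private theorem sw0 (X i : ℕ) : dg (swF RM0 (nat_lit 64) X) i =
    if i < 64 then dg X (sgm 1 i) else 0 :=
  sw_spec (k := 1) (by decide +kernel) (by intro i; omega) X i
private theorem sw1 (X i : ℕ) : dg (swF RM1 (nat_lit 128) X) i =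
    if i < 64 then dg X (sgm 2 i) else 0 :=
  sw_spec (k := 2) (by decide +kernel) (by intro i; omega) X i
private theorem sw2 (X i : ℕ) : dg (swF RM2 (nat_lit 256) X) i =
    if i < 64 then dg X (sgm 4 i) else 0 :=
  sw_spec (k := 4) (by decide +kernel) (by intro i; omega) X i
private theorem sw3 (X i : ℕ) : dg (swF RM3 (nat_lit 512) X) i =
    if i < 64 then dg X (sgm 8 i) else 0 :=
  sw_spec (k := 8) (by decide +kernel) (by intro i; omega) X i
private theorem sw4 (X i : ℕ) : dg (swF RM4 (nat_lit 1024) X) i =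
    if i < 64 then dg X (sgm 16 i) else 0 :=
  sw_spec (k := 16) (by decide +kernel) (by intro i; omega) X i
private theorem sw5 (X i : ℕ) : dg (swF RM5 (nat_lit 2048) X) i =
    if i < 64 then dg X (sgm 32 i) else 0 :=
  sw_spec (k := 32) (by decide +kernel) (by intro i; omega) X i
private theorem sgm_lt : ∀ i < 64, sgm 1 i < 64 ∧ sgm 2 (sgm 1 i) < 64 ∧ sgm 4 (sgm 2 (sgm 1 i)) < 64 ∧
    sgm 8 (sgm 4 (sgm 2 (sgm 1 i))) < 64 ∧ sgm 16 (sgm 8 (sgm 4 (sgm 2 (sgm 1 i)))) < 64 ∧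
    sgm 32 (sgm 16 (sgm 8 (sgm 4 (sgm 2 (sgm 1 i))))) = 63 - i := by decide +kernel
theorem revF_eq (X : ℕ) : revF X = rev X 56 := by
  have r1 : ∀ n, rev X n = ∑ i ∈ Finset.range n, 2 ^ (64 * (55 - i)) * dg X i := by
    intro n
    induction n with
    | zero => rfl
    | succ n ih =>
      rw [Finset.sum_range_succ, ← ih, Nat.mul_comm (2 ^ _), ← Nat.shiftLeft_eq, ← lane_eq]
      rfl
  have r2 : rev X 56 = pk (fun l => dg X (55 - l)) 56 := by
    rw [r1, pk, ← Finset.sum_range_reflect]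
    refine Finset.sum_congr rfl fun i hi => ?_
    rw [Finset.mem_range] at hi
    rw [show 55 - (56 - 1 - i) = i by omega, show 56 - 1 - i = 55 - i by omega]
  have e : revF X = swF RM0 (nat_lit 64) (swF RM1 (nat_lit 128) (swF RM2 (nat_lit 256)
    (swF RM3 (nat_lit 512) (swF RM4 (nat_lit 1024) (swF RM5 (nat_lit 2048) (low 56 X)))))) >>>
      (64 * 8) := rfl
  refine eq_of_dg fun i => ?_
  rw [r2, dg_pk fun i _ => dg_lt _ _, e, dg_shiftRight, sw0]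
  by_cases a : i < 56
  · obtain ⟨s1, s2, s3, s4, s5, s6⟩ := sgm_lt (i + 8) (by omega)
    rw [if_pos (by omega), sw1, if_pos s1, sw2, if_pos s2, sw3, if_pos s3, sw4, if_pos s4, sw5,
      if_pos s5, s6, if_pos a, low_eq, dg_mod, if_pos (by omega), show 63 - (i + 8) = 55 - i by omega]
  · rw [if_neg (by omega), if_neg a]
theorem nWF_eq (m : ℕ) : nWF m = nuW m := by
  rw [nWF, nW2, revF_eq]
  rfl
theorem mTF_eq (m : ℕ) : mTF m (nuW m) = muT m := rfl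
theorem kxF_eq (l S m : ℕ) : kxF l (lge H1120 PBq (kron S C20 C20)) (nuW m) = kinkX l S m := by
  rw [kxF, kqF, kq2, nWF_eq, revF_eq]
  rfl
theorem mSF_eq (m l : ℕ) : mSF m l = muS m l := by
  rw [mSF, mS2, revF_eq]
  rfl
theorem fmF_eq (a c T : ℕ) : fmF a c T = fma a c T := by
  cases c with
  | zero => show a + 0 * T = a; simp
  | succ c => rfl
theorem baF_eq (H M n : ℕ) : baF H M n = bar H M n := brec _ _ _
theorem sfF_eq (S n : ℕ) : sfF S n = sfx S n := rfl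
theorem fo28 (Y : ℕ) : foF H28 F28 (nat_lit 1792) Y = fold H28 28 Y := rfl
theorem fo56 (Y : ℕ) : foF H56 F56 (nat_lit 3584) Y = fold H56 56 Y := rfl
theorem fo84 (Y : ℕ) : foF H84 F84 (nat_lit 5376) Y = fold H84 84 Y := rfl
theorem fo140 (Y : ℕ) : foF H140 F140 (nat_lit 8960) Y = fold H140 140 Y := rfl
theorem fo280 (Y : ℕ) : foF H280 F280 (nat_lit 17920) Y = fold H280 280 Y := rfl
theorem paF_eq (L : Lf) (Z : ℕ) : paF L.M0 L.M1 L.M2 L.M3 L.M4 L.M5 Z = pairs L Z := by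
  simp only [paF, pa2, lsF_eq, fo28, fo56, fo84, fo140, fo280, baF_eq, sfF_eq]
  rfl
theorem wPF_eq (a b : ℕ) : wPF a b = wP a b := rfl
theorem wNF_eq (a b : ℕ) : wNF a b = wN a b := rfl
theorem nPF_eq (a b q : ℕ) : nPF a b q = nP a b q := rfl
theorem nNF_eq (a b q : ℕ) : nNF a b q = nN a b q := rfl
theorem eSF_eq (P : ℕ) : eSF P = errS P := rfl
theorem eXF_eq (A B a b p3 q3 p4 q4 p5 q5 : ℕ) :
    eXF A B a b p3 q3 p4 q4 p5 q5 = errX A B a b p3 q3 p4 q4 p5 q5 := by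
  simp only [eXF, fmF_eq, lsF_eq]
  rfl
theorem caF_eq (f : ℕ → ℕ) (n : ℕ) : caF f n = cat f n := rfl
theorem sqF_eq (p Q Y n : ℕ) : sqF p Q Y n = sqL p Q Y n := rfl
theorem dvF_eq (F E n : ℕ) : dvF F E n = dvL F E n := rfl
theorem utF_eq (p X Y : ℕ) : utF p X Y = utab p X Y := by
  simp only [utF, u1F, u2F, u3F, utab, ut1, ut2, ut3, sqF_eq, dvF_eq, lsF_eq, lmF_eq, nA, nS, nM, nL, nR,
    nT]
theorem erF_eq (U : ℕ) : erF U = erow (urow U) := rfl
theorem trF_eq (U k : ℕ) : trF U k = trow (urow U) k := by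
  rw [trF, brec, brec, erF_eq]
  rfl
theorem taF_eq (U n : ℕ) : taF U n = tabl (urow U) n := by
  simp only [taF, tabl, trF_eq]
  rfl
theorem xrF_eq (a b c d e : ℕ) : xrF a b c d e = xrow a b c d e := by
  funext k
  simp only [xrF, xrow, nA, nS, nM]
theorem yrF_eq (a b c : ℕ) : yrF a b c = yrow a b c := by
  funext k
  simp only [yrF, yrow, nA, nS, nM]
theorem mkTF_eq (g1 g2 v1 v2 : ℕ) : mkTF g1 g2 v1 v2 = mkT g1 g2 v1 v2 := by
  simp only [mkTF, m2F, mkT, taF_eq, utF_eq, caF_eq, xrF_eq, yrF_eq, nA, nS, nM]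
private theorem pK0 {th : ℕ} (h : Nat.ble th (nat_lit 7) = true) : pK th = 0 := by
  have : th ≤ 7 := Nat.le_of_ble_eq_true h
  unfold pK
  omega
private theorem kK0 {th : ℕ} (h : Nat.ble th (nat_lit 7) = true) : kK th = 0 := by
  rw [kK, pK0 h]
  cases Nat.beq (th % 8) 1 <;> rfl
theorem caG_eq (th g1 g2 : ℕ) (om : Bool) : caG th g1 g2 om = bif om then cA1 th g1 g2 else 0 := by
  rw [caG, brec, brec]
  cases h : Nat.ble th (nat_lit 7)
  · rw [cond_false]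
  · rw [cond_true, cA1, kK0 h, Nat.mul_zero, Nat.zero_mul]
theorem cbG_eq (th v1 v2 : ℕ) (om : Bool) : cbG th v1 v2 om = bif om then cB1 th v1 v2 else 0 := by
  rw [cbG, brec, brec]
  cases h : Nat.ble th (nat_lit 7)
  · rw [cond_false]
  · rw [cond_true, cB1, kK0 h, Nat.mul_zero, Nat.zero_mul]
theorem slF_eq (th g1 : ℕ) : slF th g1 = slpT th g1 := by
  rw [slF, brec]
  cases h : Nat.ble th (nat_lit 7)
  · rw [cond_false]
  · rw [cond_true, slpT, pK0 h, Nat.zero_mul, Nat.zero_mul, Nat.add_zero]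
theorem vtS_eq (F : ℕ → Bool → Bool) (X : ℕ) (om : Bool) :
    vtS F X om = F (bif om then X else 0) om := by cases om <;> rfl
theorem vt2_eq (G : Gx) (c : Cm) (L : Lf) (v1 v2 : ℕ) (d : Vd) :
    vt2 G.g1 G.g2 G.th c.b1p c.b1q c.b2p c.b2q c.ka c.ya c.yb L.FM L.M0 L.M1 L.M2 L.M3 L.M4 L.M5
      L.qhr L.qlr L.vl L.vh L.PC L.NC L.EP L.EN L.KP L.KN L.RP L.XK L.MS L.KX (!Nat.beq c.om 0)
      (!Nat.beq c.om 0 && Nat.beq (G.th % 8) 1) v1 v2 d.p0 d.q0 d.p1 d.q1 d.p2 d.q2 d.p3 d.q3 d.p4 d.q4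
      d.p5 d.q5 d.al d.be = vtx G c L v1 v2 d := by
  simp only [vt2, vtS_eq, vtx, force_eq, frc_eq, vt3, vt4, vt5, zF, lsF_eq, paF_eq, fmF_eq, wPF_eq, wNF_eq, eXF_eq, eSF_eq,
    nPF_eq, nNF_eq, mkTF_eq, jRF_eq, jIF_eq, bMF_eq, caG_eq, cbG_eq, slF_eq, brand, bror, brnot]
  simp only [brec]
  rfl
theorem cvF_eq (b1 b2 g1 g2 X : ℕ) : cvF b1 b2 g1 g2 X = cv b1 b2 g1 g2 X := rfl
theorem spread_eq (X : ℕ) : spread X = kron X C20 C20 := rfl
theorem leafF_eq (G : Gx) (B : Bx) (s : St) (c : Cm) (A : ℕ) (d0 d1 d2 d3 : Vd) :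
    leafF G B s c A d0 d1 d2 d3 = leaf G B s (setX c A) d0 d1 d2 d3 := by
  obtain ⟨g1, g2, dl, gth⟩ := G
  obtain ⟨t0, t1, f0, f1, a0, a1, b0, b1⟩ := B
  obtain ⟨ql, qh, sl, ll, vl, vh⟩ := s
  obtain ⟨om, b1p, b1q, b2p, b2q, ka, ya, yb, xa, mu⟩ := c
  simp only [leaf, ← vt2_eq, leafF, frc_eq, le2, le3, cvF_eq, fmF_eq, laF_eq,
    brand, brnot, mkL, setX, elv, six, spread_eq, lgF_eq, lmF_eq, lsF_eq, rL56_eq, rR56_eq, krF_eq, dLF_eq,
    bmF_eq, revF_eq, mxF_eq, nWF_eq, mTF_eq, mSF_eq, nS, kxF_eq]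
  rfl

end Pool.Agent.P.MP_2e1554_gt.Chk
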