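import Pool.Agent.P.MP_2e1554_gt.IsoQ
import Pool.Agent.P.MP_2e1554_gt.IsoFastA

set_option maxRecDepth 100000
set_option linter.unusedVariables false

namespace Pool.Agent.P.MP_2e1554_gt.Chk

theorem blt56 (i : ℕ) : Nat.blt i 56 = Nat.ble i 55 := rfl
theorem unX_br {α : Type} (k : ℕ → ℕ → ℕ → ℕ → ℕ → ℕ → ℕ → ℕ → ℕ → ℕ → α) (a b : Xs) (c : Bool) :
    unX k (@Bool.rec (fun _ => Xs) a b c) = @Bool.rec (fun _ => α) (unX k a) (unX k b) c := by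
  cases c <;> rfl
noncomputable def row4N (p q : ℕ) (sg : Bool) : ℕ :=
  (Nat.add (Nat.add (Nat.add (Nat.add (Nat.shiftLeft (Nat.mul (nat_lit 4) (Nat.mul (Nat.mul
    (Nat.mul p p) p) p)) (nat_lit 256)) (Nat.shiftLeft (Nat.mul (nat_lit 24) (Nat.mul (Nat.mul
    (Nat.mul p p) q) q)) (nat_lit 384))) (Nat.shiftLeft (Nat.mul (nat_lit 4) (Nat.mul (Nat.mul
    (Nat.mul q q) q) q)) (nat_lit 512))) (Nat.shiftLeft (Nat.add (Nat.shiftLeft (Nat.mul (nat_lit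
    16) (Nat.mul (Nat.mul (Nat.mul p p) p) q)) (nat_lit 320)) (Nat.shiftLeft (Nat.mul (nat_lit 16)
    (Nat.mul (Nat.mul (Nat.mul p q) q) q)) (nat_lit 448))) (@Bool.rec (fun _ => ℕ) (nat_lit 0)
    (nat_lit 704) sg))) (Nat.shiftLeft (Nat.add (Nat.div (Nat.mul (nat_lit 12) (Nat.mul (Nat.add
    (Nat.mul p p) (Nat.mul q q)) (Nat.add (Nat.mul p p) (Nat.mul q q)))) (nat_lit 5)) (nat_lit 1))
    (nat_lit 1408)))
theorem row4N_eq : @row4 = @row4N := by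
  funext p q sg
  cases sg <;> rfl
noncomputable def le3N (V : ℕ → ℕ → ℕ → ℕ → ℕ → ℕ → ℕ → ℕ → ℕ → ℕ → ℕ → ℕ → ℕ → ℕ → ℕ → ℕ → Bool) (ok : Bool) (a0 a1 b0 b1 : ℕ) (d0 d1 d2 d3 : Vd) : Bool :=
  (@Bool.rec (fun _ => Bool) false (@Bool.rec (fun _ => Bool) false (@Bool.rec (fun _ => Bool) false (@Bool.rec (fun _ => Bool) false (@Vd.rec (fun _ => Bool) (V a1 b1) d3) (@Vd.rec (fun _ => Bool) (V a1 b0) d2)) (@Vd.rec (fun _ => Bool) (V a0 b1) d1)) (@Vd.rec (fun _ => Bool) (V a0 b0) d0)) ok)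
theorem le3N_eq : @le3 = @le3N := by
  funext V ok a0 a1 b0 b1 d0 d1 d2 d3
  simp only [le3, le3N, brand, Bool.and_assoc]
noncomputable def opKN (k : ℕ → ℕ → ℕ → ℕ → ℕ → ℕ → St) (C : Cx) (ql qh sl ll vl vh w i j l : ℕ) : St :=
  (@Bool.rec (fun _ => St) (@Bool.rec (fun _ => St) (@St.rec (fun _ => St) k (opWF C ql qh sl ll vl vh w))
    (@Bool.rec (fun _ => St) (frc (raF ql i 
    (sh2 (laF ql j) (laF qh l) (Nat.beq (Nat.mod (Nat.shiftRight w (nat_lit 22)) (nat_lit 2))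
    (nat_lit 1)) (Nat.beq (Nat.mod (Nat.shiftRight w (nat_lit 9)) (nat_lit 2)) (nat_lit 1)) i j l)) fun x => (k x qh sl ll vl vh))
    (frc (raF sl i 
    (sh2 (laF ql j) (laF qh l) (Nat.beq (Nat.mod (Nat.shiftRight w (nat_lit 22)) (nat_lit 2))
    (nat_lit 1)) (Nat.beq (Nat.mod (Nat.shiftRight w (nat_lit 9)) (nat_lit 2)) (nat_lit 1)) i j l)) fun x => (k ql qh x ll vl vh))
    
    (Nat.beq (Nat.mod (Nat.shiftRight w (nat_lit 9)) (nat_lit 2)) (nat_lit 1)))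
    
    (Nat.beq (Nat.mod w (nat_lit 8)) (nat_lit 1)))
    (frc (hullF qh i j l) fun x => (k ql x sl ll vl vh))
    
    (Nat.beq (Nat.mod w (nat_lit 8)) (nat_lit 0)))
noncomputable def dec1N (w : ℕ) : Sg :=
  force 
    (Nat.mod (Nat.mod (Nat.shiftRight w (nat_lit 3)) (nat_lit 64)) (nat_lit 56)) fun i => force 
    (Nat.mod (Nat.mod (Nat.shiftRight w (nat_lit 10)) (nat_lit 64)) (nat_lit 56)) fun j => force 
    (Nat.mod (Nat.mod (Nat.shiftRight w (nat_lit 16)) (nat_lit 64)) (nat_lit 56)) fun l => Sg.mk i j l l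
noncomputable def opYN (k : ℕ → ℕ → ℕ → ℕ → ℕ → ℕ → St) (C : Cx) (ql qh sl ll vl vh w : ℕ) : St :=
  @Sg.rec (fun _ => St) (fun i j l _ => opKN k C ql qh sl ll vl vh w i j l) (dec1N w)
noncomputable def opsFN (C : Cx) (n : ℕ) : ℕ → ℕ → ℕ → ℕ → ℕ → ℕ → ℕ → St :=
  Nat.rec (motive := fun _ => ℕ → ℕ → ℕ → ℕ → ℕ → ℕ → ℕ → St)
    (fun _ ql qh sl ll vl vh => ⟨ql, qh, sl, ll, vl, vh⟩)
    (fun _ ih d ql qh sl ll vl vh => frc
    (Nat.shiftRight d (nat_lit 64)) fun d' => opYN (ih d') C ql qh sl ll vl vh 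
    (Nat.land d (nat_lit 18446744073709551615))) n
theorem opsFN_eq : @opsF = @opsFN := by
  have h : ∀ (k : ℕ → ℕ → ℕ → ℕ → ℕ → ℕ → St) C ql qh sl ll vl vh w,
      @St.rec (fun _ => St) k (opWF C ql qh sl ll vl vh w) = opYN k C ql qh sl ll vl vh w := by
    intro k C ql qh sl ll vl vh w
    rw [opYN, dec1N]
    simp only [force_eq]
    rw [opKN]
    by_cases h0 : Nat.mod w (nat_lit 8) = 0
    · rw [opWF]; simp only [force_eq]; rw [opF, h0]; simp only [frc_eq]; rfl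
    by_cases h1 : Nat.mod w (nat_lit 8) = 1
    · rw [opWF]; simp only [force_eq]; rw [opF, h1]; simp only [sLo, frc_eq]
      cases Nat.beq (Nat.mod (Nat.shiftRight w 9) 2) 1 <;> rfl
    have e0 : Nat.beq (Nat.mod w (nat_lit 8)) (nat_lit 0) = false := by
      rw [← Bool.not_eq_true, Nat.beq_eq]; exact h0
    have e1 : Nat.beq (Nat.mod w (nat_lit 8)) (nat_lit 1) = false := by
      rw [← Bool.not_eq_true, Nat.beq_eq]; exact h1
    rw [e0, e1]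
  funext C n
  delta opsF opsFN
  simp only [h]
noncomputable def op3XN (k : ℕ → ℕ → ℕ → ℕ → ℕ → ℕ → ℕ → ℕ → ℕ → ℕ → Xs) (G : Gx) (B : Bx) (C : Cy) (ql qh sl ll vl vh wl wh rl rh kd z n m u τ fl : ℕ) : Xs :=
  (@Bool.rec (fun _ => Xs) (@Bool.rec (fun _ => Xs) (@Bool.rec (fun _ => Xs) (unX k (op3R G B C ql qh sl ll vl vh wl wh rl rh kd z n m u τ fl))
    (frc 
    (upF rl z (tlF sl (laF wl z) z u (laF rl z))) fun x => (k ql qh sl ll vl vh wl wh x rh))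
    
    (Nat.beq kd (nat_lit 0)))
    (frc 
    (upF rh z (thF sl (laF wl z) z u (laF rh z))) fun x => (k ql qh sl ll vl vh wl wh rl x))
    
    (Nat.beq kd (nat_lit 1)))
    (frc (loF qh z (fhF z (srF qh wl rl rh n) (srF qh wl rl rh m))) fun x => (k ql x sl ll vl vh wl wh rl rh))
    
    (Nat.beq kd (nat_lit 3)))
noncomputable def op3KN (k : ℕ → ℕ → ℕ → ℕ → ℕ → ℕ → ℕ → ℕ → ℕ → ℕ → Xs) (G : Gx) (B : Bx) (C : Cy) (ql qh sl ll vl vh wl wh rl rh kd z n m u τ fl : ℕ) : Xs :=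
  (@Bool.rec (fun _ => Xs) (op3XN k G B C ql qh sl ll vl vh wl wh rl rh kd z n m u τ fl)
    (@Bool.rec (fun _ => Xs) (k ql qh sl ll vl vh wl wh rl rh)
    (@Bool.rec (fun _ => Xs) (@Bool.rec (fun _ => Xs) (frc (raF ql z τ) fun x => (k x qh sl ll vl vh wl wh rl rh))
    (frc (raF sl z τ) fun x => (k ql qh x ll vl vh wl wh rl rh))
    
    (Nat.beq m (nat_lit 1)))
    (frc (loF wh z τ) fun x => (k ql qh sl ll vl vh wl x rl rh))
    
    (Nat.ble (nat_lit 2) m))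
    (fcS B C fl u (srF qh wl rl rh n) (tgF rl rh m z τ)))
    
    (Nat.beq kd (nat_lit 4)))
noncomputable def dec3N (x : ℕ) : Sg :=
  force 
    (Nat.mod (Nat.mod (Nat.shiftRight x (nat_lit 3)) (nat_lit 64)) (nat_lit 56)) fun z => force 
    (Nat.mod (Nat.shiftRight x (nat_lit 10)) (nat_lit 128)) fun n => force 
    (Nat.mod (Nat.shiftRight x (nat_lit 17)) (nat_lit 128)) fun m =>
    force 
    (Nat.add (Nat.mod (Nat.shiftRight x (nat_lit 9)) (nat_lit 2)) (Nat.land (Nat.shiftRight x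
    (nat_lit 52)) (nat_lit 2))) (Sg.mk z n m)
noncomputable def op3YN (k : ℕ → ℕ → ℕ → ℕ → ℕ → ℕ → ℕ → ℕ → ℕ → ℕ → Xs) (G : Gx) (B : Bx) (C : Cy) (ql qh sl ll vl vh wl wh rl rh x : ℕ) : Xs :=
  @Sg.rec (fun _ => Xs) (fun z n m fl => op3KN k G B C ql qh sl ll vl vh wl wh rl rh 
    (Nat.mod x (nat_lit 8)) z n m 
    (Nat.mod (Nat.shiftRight x (nat_lit 24)) (nat_lit 256)) 
    (Nat.mod (Nat.shiftRight x (nat_lit 32)) (nat_lit 2097152)) fl) (dec3N x)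
noncomputable def ops3FN (G : Gx) (B : Bx) (C : Cy) (n : ℕ) : ℕ → ℕ → ℕ → ℕ → ℕ → ℕ → ℕ → ℕ → ℕ → ℕ → ℕ → Xs :=
  Nat.rec (motive := fun _ => ℕ → ℕ → ℕ → ℕ → ℕ → ℕ → ℕ → ℕ → ℕ → ℕ → ℕ → Xs)
    (fun _ ql qh sl ll vl vh wl wh rl rh => ⟨⟨ql, qh, sl, ll, vl, vh⟩, ⟨wl, wh⟩, ⟨rl, rh⟩⟩)
    (fun _ ih d ql qh sl ll vl vh wl wh rl rh => frc
    (Nat.shiftRight d (nat_lit 64)) fun d' => op3YN (ih d') G B C ql qh sl ll vl vh wl wh rl rh 
    (Nat.land d (nat_lit 18446744073709551615))) n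
theorem ops3FN_eq : @ops3F = @ops3FN := by
  have h : ∀ k G B C ql qh sl ll vl vh wl wh rl rh x,
      unX k (op3WF G B C ql qh sl ll vl vh wl wh rl rh x) = op3YN k G B C ql qh sl ll vl vh wl wh rl rh x := by
    intro k G B C ql qh sl ll vl vh wl wh rl rh x
    rw [op3WF, op3YN, dec3N]
    simp only [force_eq]
    generalize Nat.mod x (nat_lit 8) = kd
    generalize Nat.mod (Nat.mod (Nat.shiftRight x (nat_lit 3)) (nat_lit 64)) (nat_lit 56) = z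
    generalize Nat.mod (Nat.shiftRight x (nat_lit 10)) (nat_lit 128) = n
    generalize Nat.mod (Nat.shiftRight x (nat_lit 17)) (nat_lit 128) = m
    generalize Nat.mod (Nat.shiftRight x (nat_lit 24)) (nat_lit 256) = u
    generalize Nat.mod (Nat.shiftRight x (nat_lit 32)) (nat_lit 2097152) = τ
    generalize Nat.add (Nat.mod (Nat.shiftRight x (nat_lit 9)) (nat_lit 2))
      (Nat.land (Nat.shiftRight x (nat_lit 52)) (nat_lit 2)) = fl
    rw [op3F, op3KN, op3XN, sLo]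
    simp only [frc_eq]
    generalize fcS B C fl u _ _ = b
    rcases kd with _ | _ | _ | _ | _ | kd
    · rw [op3R, frc_eq]; rfl
    · rw [op3R]; simp only [frc_eq]; rfl
    · rfl
    · rfl
    · cases b
      · rfl
      · cases Nat.ble 2 m
        · cases Nat.beq m 1 <;> rfl
        · rfl
    · rfl
  funext G B C n
  simp only [ops3F, ops3FN, h]
noncomputable def rb3N (e a b c d P Q N M : ℕ) : ℕ :=
  (Nat.add (Nat.add (Nat.mul e (Nat.add (Nat.add (Nat.add (Nat.add (Nat.mul (Nat.mul (nat_lit 4)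
    a) P) (Nat.shiftLeft (Nat.mul (Nat.mul (nat_lit 12) c) P) (nat_lit 64))) (Nat.shiftLeft
    (Nat.mul (Nat.mul (nat_lit 12) a) Q) (nat_lit 128))) (Nat.shiftLeft (Nat.mul (Nat.mul (nat_lit
    4) c) Q) (nat_lit 192))) (Nat.shiftLeft (Nat.add (Nat.add (Nat.add (Nat.mul (Nat.mul (nat_lit
    4) b) P) (Nat.shiftLeft (Nat.mul (Nat.mul (nat_lit 12) d) P) (nat_lit 64))) (Nat.shiftLeft
    (Nat.mul (Nat.mul (nat_lit 12) b) Q) (nat_lit 128))) (Nat.shiftLeft (Nat.mul (Nat.mul (nat_lit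
    4) d) Q) (nat_lit 192))) (nat_lit 704)))) (Nat.shiftLeft (Nat.add (Nat.add (Nat.add (Nat.add
    (Nat.mul (Nat.mul (nat_lit 12) P) P) (Nat.shiftLeft (Nat.mul (Nat.mul (nat_lit 48) N) P)
    (nat_lit 64))) (Nat.shiftLeft (Nat.mul (Nat.mul (nat_lit 72) P) Q) (nat_lit 128)))
    (Nat.shiftLeft (Nat.mul (Nat.mul (nat_lit 48) N) Q) (nat_lit 192))) (Nat.shiftLeft (Nat.mul
    (Nat.mul (nat_lit 12) Q) Q) (nat_lit 256))) (nat_lit 256))) (Nat.shiftLeft (Nat.add (Nat.mul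
    (Nat.mul (nat_lit 48) M) P) (Nat.shiftLeft (Nat.mul (Nat.mul (nat_lit 48) M) Q) (nat_lit
    128))) (nat_lit 1024)))
noncomputable def rb2N (e a b c d : ℕ) : ℕ :=
  (rb3N e a b c d (Nat.mul (Nat.add a b) (Nat.add a b)) (Nat.mul (Nat.add c d) (Nat.add c d))
    (Nat.add (Nat.mul a c) (Nat.mul b d)) (Nat.add (Nat.mul a d) (Nat.mul b c)))
noncomputable def rowBN (z e : ℕ) : ℕ :=
  @Bool.rec (fun _ => ℕ) (rowT (ex z) (ey z) (Int.ofNat e) 0) 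
    (rb2N e (Nat.sub (nat_lit 24) (eX z)) (Nat.sub (eX z) (nat_lit 24)) (Nat.sub (nat_lit 24) (eY
    z)) (Nat.sub (eY z) (nat_lit 24))) 
    (@Bool.rec (fun _ => Bool) false (Nat.ble e (nat_lit 63)) (Nat.ble z (nat_lit 55)))
theorem rowBN_eq : @rowB = @rowBN := by
  have h : ∀ z < 56, ∀ e < 64, rowB z e = rowBN z e := by decide +kernel
  funext z e
  by_cases hz : z < 56
  · by_cases he : e < 64
    · exact h z hz e he
    · have : Nat.ble e (nat_lit 63) = false := by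
        rw [← Bool.not_eq_true, Nat.ble_eq]; show ¬ e ≤ 63; omega
      unfold rowBN; rw [this]; cases Nat.ble z (nat_lit 55) <;> rfl
  · have : Nat.ble z (nat_lit 55) = false := by
      rw [← Bool.not_eq_true, Nat.ble_eq]; show ¬ z ≤ 55; omega
    unfold rowBN; rw [this]; rfl
noncomputable def chkFN (G : Gx) (H : List (Bx × Xs)) (t : Tx) : Bx → ℕ → ℕ → ℕ → ℕ → ℕ → ℕ → ℕ → ℕ → ℕ → ℕ → Bool :=
  Tx.rec (motive := fun _ => Bx → ℕ → ℕ → ℕ → ℕ → ℕ → ℕ → ℕ → ℕ → ℕ → ℕ → Bool)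
    (fun ax x _ _ l r B ql qh sl ll vl vh wl wh rl rh => force x fun x' =>
      forceB (setHi B ax x') (fun B' => l B' ql qh sl ll vl vh wl wh rl rh) &&
        forceB (setLw B ax x') (fun B' => r B' ql qh sl ll vl vh wl wh rl rh))
    (fun i τ _ _ l r B ql qh sl ll vl vh wl wh rl rh => (@Bool.rec (fun _ => Bool) false (@Bool.rec (fun _ => Bool) false (@Bool.rec (fun _ => Bool) false 
      (frc (upF ql i τ) (fun x => r B x qh sl ll vl vh wl wh rl rh)) 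
      (frc (upF qh i τ) (fun x => l B ql x sl ll vl vh wl wh rl rh))) (Nat.ble τ (nat_lit 1048576))) (Nat.ble i (nat_lit 55))))
    (fun x _ _ l r B ql qh sl ll vl vh wl wh rl rh => force x fun x' =>
      l B ql qh sl ll vl x' wl wh rl rh && r B ql qh sl ll x' vh wl wh rl rh)
    (fun z τ _ _ l r B ql qh sl ll vl vh wl wh rl rh => (@Bool.rec (fun _ => Bool) false (@Bool.rec (fun _ => Bool) false (@Bool.rec (fun _ => Bool) false 
      (frc (upF wl z τ) (fun x => r B ql qh sl ll vl vh x wh rl rh)) 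
      (frc (upF wh z τ) (fun x => l B ql qh sl ll vl vh wl x rl rh))) (Nat.ble τ (nat_lit 524288))) (Nat.ble z (nat_lit 55))))
    (fun z m _ _ l r B ql qh sl ll vl vh wl wh rl rh => (@Bool.rec (fun _ => Bool) false (@Bool.rec (fun _ => Bool) false (@Bool.rec (fun _ => Bool) false 
      (frc (upF rl z m) (fun x => r B ql qh sl ll vl vh wl wh x rh)) 
      (frc (upF rh z m) (fun x => l B ql qh sl ll vl vh wl wh rl x))) (Nat.ble m (nat_lit 55))) (Nat.ble z (nat_lit 55))))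
    (fun n d _ t B ql qh sl ll vl vh wl wh rl rh => @Bool.rec (fun _ => Bool) false (
      @St.rec (fun _ => Bool) (fun a b c d e f => t B a b c d e f wl wh rl rh)
        (opsF (mkC G B) n d ql qh sl ll vl vh)) (okB B))
    (fun n d _ t B ql qh sl ll vl vh wl wh rl rh => @Bool.rec (fun _ => Bool) false (
      unP (fun a b c d e f u v => t B a b c d e f u v rl rh) (ops2F G B n d ql qh sl ll vl vh wl wh)) (okB B))
    (fun n d _ t B ql qh sl ll vl vh wl wh rl rh => @Bool.rec (fun _ => Bool) false (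
      unX (t B) (ops3F G B (mkY G B) n d ql qh sl ll vl vh wl wh rl rh)) (okB B))
    (fun i _ ql qh _ _ vl vh _ _ _ _ => Nat.blt i 56 && Nat.ble (lane qh i) (lane ql i) ||
      Nat.blt 0 vh && Nat.blt vh vl)
    (fun z _ _ _ _ _ _ _ wl wh _ _ => Nat.blt z 56 && Nat.blt (lane wh z) (lane wl z))
    (fun a b B _ _ _ _ _ _ _ _ _ _ => outB G B a b)
    (fun B _ _ _ _ _ _ _ _ _ _ => Nat.blt (B.a1 + G.dl) OO || Nat.blt (B.b1 + G.dl) OO)
    (fun c n d d0 d1 d2 d3 B ql qh sl ll vl vh wl wh _ _ => @Bool.rec (fun _ => Bool) false (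
      frc (rowsF wl wh G.th n d) fun A => leafF G B ⟨ql, qh, sl, ll, vl, vh⟩ c A d0 d1 d2 d3) (Nat.ble n (nat_lit 63)))
    (fun n B ql qh sl ll vl vh wl wh rl rh => match H[n]? with
      | some h => eqB B h.1 && eqS ⟨ql, qh, sl, ll, vl, vh⟩ h.2.s && eqW ⟨wl, wh⟩ h.2.w && eqR ⟨rl, rh⟩ h.2.r
      | none => false) t
theorem chkFN_eq : @chkF = @chkFN := by
  funext G H t
  simp only [chkF, chkFN, brand, Bool.and_assoc, blt56]
  rfl
theorem row4Q_eq : @row4Q = @row4 := by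
  delta row4Q
  rw [row4N_eq]
  delta row4N
  rfl
theorem sm1Q_eq : @sm1Q = @sm1 := by
  delta sm1Q
  delta sm1 sm2 sm3 sdF
  rfl
theorem smbQ_eq : @smbQ = @smb := by
  delta smbQ
  rw [sm1Q_eq]
  delta smb sma sm0 sdF
  rfl
theorem fcNQ_eq : @fcNQ = @fcN := by
  delta fcNQ
  rw [smbQ_eq]
  delta fcN cY cX
  rfl
theorem pr1Q_eq : @pr1Q = @pr1 := by
  delta pr1Q
  rw [sm1Q_eq]
  delta pr1 sdF
  rfl
theorem prNQ_eq : @prNQ = @prN := by
  delta prNQ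
  rw [pr1Q_eq]
  delta prN fO cY cX
  rfl
theorem fcSQ_eq : @fcSQ = @fcS := by
  delta fcSQ
  rw [fcNQ_eq]
  delta fcS
  rfl
theorem prSQ_eq : @prSQ = @prS := by
  delta prSQ
  rw [prNQ_eq]
  delta prS
  rfl
theorem wPFQ_eq : @wPFQ = @wPF := by
  delta wPFQ
  delta wPF krF lsF ls2
  rfl
theorem wNFQ_eq : @wNFQ = @wNF := by
  delta wNFQ
  delta wNF krF lsF ls2
  rfl
theorem nPFQ_eq : @nPFQ = @nPF := by
  delta nPFQ
  delta nPF gBF gAF rR56 rL56 lsF ls2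
  rfl
theorem nNFQ_eq : @nNFQ = @nNF := by
  delta nNFQ
  delta nNF gBF gAF rR56 rL56 lsF ls2
  rfl
theorem revFQ_eq : @revFQ = @revF := by
  delta revFQ
  delta revF swF
  rfl
theorem bmFQ_eq : @bmFQ = @bmF := by
  delta bmFQ
  delta bmF
  rfl
theorem dLFQ_eq : @dLFQ = @dLF := by
  delta dLFQ
  delta dLF dL2 lmF ls2
  rfl
theorem nWFQ_eq : @nWFQ = @nWF := by
  delta nWFQ
  rw [revFQ_eq]
  delta nWF nW2
  rfl
theorem mTFQ_eq : @mTFQ = @mTF := by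
  delta mTFQ
  delta mTF mW2 krF
  rfl
theorem hiFQ_eq : @hiFQ = @hiF := by
  delta hiFQ
  delta hiF hi2
  rfl
theorem kqFQ_eq : @kqFQ = @kqF := by
  delta kqFQ
  rw [revFQ_eq, nWFQ_eq]
  delta kqF kq2 kq3 lm2 lmF lsF ls2
  rfl
theorem kxFQ_eq : @kxFQ = @kxF := by
  delta kxFQ
  rw [hiFQ_eq, kqFQ_eq]
  delta kxF kx3 bmuF krF lsF ls2
  rfl
theorem mSFQ_eq : @mSFQ = @mSF := by
  delta mSFQ
  rw [revFQ_eq]
  delta mSF mS2
  rfl
noncomputable def vt3P (wPFQ : ∀ (al be : ℕ), ℕ) (wNFQ : ∀ (al be : ℕ), ℕ) (nPFQ : ∀ (al be qhr : ℕ), ℕ) (nNFQ : ∀ (al be qlr : ℕ), ℕ)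
    (g1 g2 gth b1p b1q b2p b2q ka ya yb FM M0 M1 M2 M3 M4 M5 qhr qlr vl vh PC NC EP EN KP KN
    RP XK MS KX v1 v2 p0 q0 p1 q1 p2 q2 p3 q3 p4 q4 p5 q5 al be T : ℕ) (om th : Bool) : Bool := zeta% (
  let ls2 (H Z : ℕ) : ℕ :=
    (Nat.land Z (Nat.mul (Nat.shiftRight (Nat.land Z H) (nat_lit 63)) (nat_lit
        9223372036854775807)))
  let lsF (H X Y : ℕ) : ℕ :=
    ls2 H
        (Nat.sub (Nat.add X H) Y)
  let lmF (H X Y : ℕ) : ℕ :=
    (Nat.add Y (ls2 H (Nat.sub (Nat.add X H) Y)))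
  let fmF (acc c T : ℕ) : ℕ :=
    (Nat.add acc (Nat.mul c T))
  let baF (H M n : ℕ) : ℕ :=
    (@Bool.rec (fun _ => ℕ) (Nat.xor H (Nat.land (Nat.xor H (Nat.shiftRight H n)) M)) H (Nat.beq M
        (nat_lit 0)))
  let sfF (S n : ℕ) : ℕ :=
    lmF H560 S (Nat.shiftRight S n)
  let foF (H F n Y : ℕ) : ℕ :=
    lmF H (Nat.land Y F) (Nat.shiftRight Y n)
  let pa2 (M0 M1 M2 M3 M4 M5 Z S : ℕ) : ℕ :=
    (lsF H28 (foF H28 F28 (nat_lit 1792) (foF H56 F56 (nat_lit 3584) (foF H84 F84 (nat_lit 5376)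
        (foF H140 F140 (nat_lit 8960) (foF H280 F280 (nat_lit 17920) (Nat.add (Nat.land Z F560)
        (Nat.land (baF (baF (baF (baF (baF (baF (Nat.add (Nat.shiftLeft S (nat_lit 34048)) (Nat.mul
        (Nat.land S F28) C19)) M5 (nat_lit 57344)) M4 (nat_lit 28672)) M3 (nat_lit 14336)) M2 (nat_lit
        7168)) M1 (nat_lit 3584)) M0 (nat_lit 1792)) F560))))))) BAS)
  let paF (M0 M1 M2 M3 M4 M5 Z : ℕ) : ℕ :=
    (pa2 M0 M1 M2 M3 M4 M5 Z (sfF (sfF (sfF (sfF (sfF (Nat.shiftRight Z (nat_lit 35840)) (nat_lit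
        1792)) (nat_lit 3584)) (nat_lit 7168)) (nat_lit 14336)) (nat_lit 28672)))
  let eS2 (N : ℕ) : ℕ :=
    (Nat.mul (Nat.add (Nat.add (Nat.add N (Nat.shiftLeft (Nat.land N MA) (nat_lit 1792)))
        (Nat.shiftRight (Nat.land N MB) (nat_lit 1792))) O1120) (nat_lit 43))
  let eSF (P : ℕ) : ℕ :=
    (eS2 (Nat.land (Nat.shiftRight (lsF H1120 (Nat.mul (nat_lit 2) P) (Nat.add (Nat.shiftRight P
        (nat_lit 1792)) (Nat.land (Nat.shiftLeft P (nat_lit 1792)) F1120))) (nat_lit 8)) MD))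
  let eXF (A B a b p3 q3 p4 q4 p5 q5 : ℕ) : ℕ :=
    (lsF H1120 (fmF (fmF (fmF (fmF A (Nat.mul (Nat.sub a b) (nat_lit 1073741824)) O1120) q3 YU3)
        q4 YU4) q5 YU5) (fmF (fmF (fmF (fmF B (Nat.mul (Nat.sub b a) (nat_lit 1073741824)) O1120) p3
        YL3) p4 YL4) p5 YL5))
  let vt5 (g1 g2 gth ka ya yb vl vh RP v1 v2 KP KN T Z C eP eM nP nN : ℕ) (om th : Bool) : Bool :=
    (@Bool.rec (fun _ => Bool) false (Nat.ble (Nat.succ (Nat.add (Nat.mul (nat_lit 2560000)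
        (Nat.add (Nat.mul (nat_lit 648) (Nat.add (Nat.add (nat_lit 56493153725735501824) (Nat.mod C
        (nat_lit 18446744073709551615))) (Nat.mul (nat_lit 60129542144) (Nat.add KP (nat_lit 30)))))
        (Nat.mul (nat_lit 144) nP))) (Nat.mul (nat_lit 9216) (Nat.add (Nat.mul (nat_lit 10000)
        (Nat.add (Nat.mul (nat_lit 256) (Nat.add (@Bool.rec (fun _ => ℕ) (nat_lit 0) (Nat.add (Nat.div
        CKAP (jRF g1 g2 v1 v2)) (nat_lit 1)) th) (caG gth g1 g2 om))) (Nat.mul ka RP))) (Nat.mul (nat_lit 256) (Nat.mul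
        (Nat.sub eP eM) vh)))))) (Nat.add (Nat.mul (nat_lit 2560000) (Nat.add (Nat.mul (nat_lit 648)
        (Nat.add (nat_lit 64563604257983430656) (Nat.mul (nat_lit 60129542144) KN))) (Nat.mul (nat_lit
        144) nN))) (Nat.mul (nat_lit 9216) (Nat.add (Nat.mul (nat_lit 10000) (Nat.add (Nat.mul ka (Nat.add
        (Nat.mul (nat_lit 32) (Nat.add (Nat.mul v1 ya) (Nat.mul v2 yb))) (nat_lit 4026531840)))
        (Nat.mul (nat_lit 256) (cbG gth v1 v2 om))))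
        (Nat.mul (nat_lit 256) (Nat.mul (Nat.sub eM eP) vl)))))) (@Bool.rec (fun _ => Bool) false
        (Nat.beq (Nat.land C HI59) (nat_lit 0)) (@Bool.rec (fun _ => Bool) false (Nat.beq (Nat.land Z
        HI61) (nat_lit 0)) (@Bool.rec (fun _ => Bool) false (Nat.beq (Nat.land T HI56) (nat_lit 0))
        (@Bool.rec (fun _ => Bool) false (@Bool.rec (fun _ => Bool) (Nat.ble (Nat.succ (nat_lit 0))
        vh) true (Nat.ble eP eM)) (@Bool.rec (fun _ => Bool) false (@Bool.rec (fun _ => Bool) (Nat.ble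
        (Nat.succ (Nat.mul SG (Nat.mul g1 g2))) (Nat.mul (nat_lit 4) (jIF g1 g2 v1 v2))) true
        (@Bool.rec (fun _ => Bool) true false (@Bool.rec (fun _ => Bool) false (Nat.beq (Nat.mod gth
        (nat_lit 8)) (nat_lit 2)) om))) (@Bool.rec (fun _ => Bool) false (@Bool.rec (fun _ => Bool) (Nat.ble (Nat.succ
        (nat_lit 0)) (jRF g1 g2 v1 v2)) true (@Bool.rec (fun _ => Bool) true false th)) (@Bool.rec
        (fun _ => Bool) false (@Bool.rec (fun _ => Bool) (Nat.ble (Nat.mod gth (nat_lit 8)) (nat_lit 2)) true (@Bool.rec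
        (fun _ => Bool) true false om)) (@Bool.rec (fun _ => Bool) false (Nat.ble v2 (nat_lit
        37748736)) (@Bool.rec (fun _ => Bool) false (Nat.ble v1 (nat_lit 37748736)) (@Bool.rec (fun _
        => Bool) false (Nat.ble (Nat.add g1 g2) (nat_lit 31457280)) (Nat.ble (Nat.add KP KN) (nat_lit
        268435456)))))))))))))
  let vt4 (g1 g2 gth ka ya yb vl vh RP v1 v2 KP KN T M0 M1 M2 M3 M4 M5 Z eP eM nP nN : ℕ) (om th : Bool) : Bool :=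
    (vt5 g1 g2 gth ka ya yb vl vh RP v1 v2 KP KN T Z (paF M0 M1 M2 M3 M4 M5 Z) eP eM nP nN om th)
  let zF (P Y T FM KX : ℕ) : ℕ :=
    (Nat.land (lsF H1120 (Nat.add (Nat.add (Nat.add P (eSF P)) Y) T) KX) FM)
  (vt4 g1 g2 gth ka ya yb vl vh RP v1 v2 (Nat.add KP (Nat.add (Nat.add (Nat.add (Nat.add
        (Nat.add p0 p1) p2) p3) p4) p5)) (Nat.add KN (Nat.add (Nat.add (Nat.add (Nat.add (Nat.add q0
        q1) q2) q3) q4) q5)) T M0 M1 M2 M3 M4 M5 (zF (Nat.sub (fmF (fmF (fmF (fmF (fmF (fmF (Nat.add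
        PC (wPFQ al be)) q0 TU0) q1 TU1) q2 TU2) q3 TU3) q4 TU4) q5 TU5) (fmF (fmF (fmF (fmF (fmF (fmF
        (Nat.add NC (wNFQ al be)) p0 TL0) p1 TL1) p2 TL2) p3 TL3) p4 TL4) p5 TL5)) (eXF EP EN (Nat.add
        KP (Nat.add (Nat.add p3 p4) p5)) (Nat.add KN (Nat.add (Nat.add q3 q4) q5)) p3 q3 p4 q4 p5 q5)
        T FM KX) (Nat.add (Nat.mul SG (Nat.add (Nat.add (Nat.add p0 p3) p4) XK)) (Nat.mul (nat_lit 2)
        (Nat.add (Nat.add (Nat.mul b1q v1) (Nat.mul b2q v2)) (Nat.mul OO (Nat.add b1p b2p)))))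
        (Nat.add (Nat.add (Nat.add (Nat.mul SG (Nat.add (Nat.add q0 q3) q4)) (Nat.mul (nat_lit 2)
        (Nat.add (Nat.add (Nat.mul b1p v1) (Nat.mul b2p v2)) (Nat.mul OO (Nat.add b1q b2q)))))
        (@Bool.rec (fun _ => ℕ) (nat_lit 0) (bMF (Nat.mod gth (nat_lit 8)) g1 g2 v1 v2) om)) (@Bool.rec (fun _ => ℕ)
        (nat_lit 0) (slF gth g1) th)) (Nat.add (nPFQ al be qhr) MS) (nNFQ al be qlr) om th))
theorem vt3Q_eq : @vt3Q = @vt3 := by
  have h : @vt3Q = vt3P wPFQ wNFQ nPFQ nNFQ := rfl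
  rw [h, wPFQ_eq, wNFQ_eq, nPFQ_eq, nNFQ_eq]
  delta vt3P
  delta vt3 zF vt4 vt5 eXF eSF eS2 paF pa2 foF sfF baF fmF lmF lsF ls2
  rfl
theorem vt2Q_eq : @vt2Q = @vt2 := by
  delta vt2Q
  rw [vt3Q_eq]
  delta vt2
  rfl
theorem cvFQ_eq : @cvFQ = @cvF := by
  delta cvFQ
  delta cvF cdF
  rfl
theorem le2Q_eq : @le2Q = @le2 := by
  delta le2Q
  rw [revFQ_eq, bmFQ_eq, vt2Q_eq]
  delta le2
  rw [le3N_eq]
  delta le3N mxF fmF krF rR56 rL56 laF lgF lmF ls2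
  rfl
theorem leafFQ_eq : @leafFQ = @leafF := by
  delta leafFQ
  rw [dLFQ_eq, nWFQ_eq, mTFQ_eq, kxFQ_eq, mSFQ_eq, cvFQ_eq, le2Q_eq]
  delta leafF krF rL56 lgF lsF ls2
  rfl
theorem dPQ_eq : @dPQ = @dP := by
  delta dPQ
  delta dP dA
  rfl
theorem hullFQ_eq : @hullFQ = @hullF := by
  delta hullFQ
  rw [dPQ_eq]
  delta hullF hu2 upF laF
  rfl
theorem sh1Q_eq : @sh1Q = @sh1 := by
  delta sh1Q
  rw [dPQ_eq]
  delta sh1
  rfl
theorem sh2Q_eq : @sh2Q = @sh2 := by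
  delta sh2Q
  rw [sh1Q_eq]
  delta sh2 mn
  rfl
theorem raFQ_eq : @raFQ = @raF := by
  delta raFQ
  delta raF upF laF
  rfl
theorem sLoQ_eq : @sLoQ = @sLo := by
  delta sLoQ
  rw [raFQ_eq]
  delta sLo
  rfl
theorem opFQ_eq : @opFQ = @opF := by
  delta opFQ
  rw [hullFQ_eq, sh2Q_eq, sLoQ_eq]
  delta opF mxF upF laF
  rfl
theorem opWFQ_eq : @opWFQ = @opWF := by
  delta opWFQ
  rw [opFQ_eq]
  delta opWF
  rfl
theorem opKQ_eq : @opKQ = @opKN := by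
  delta opKQ
  rw [hullFQ_eq, sh2Q_eq, raFQ_eq, opWFQ_eq]
  delta opKN laF
  rfl
theorem dec1Q_eq : @dec1Q = @dec1N := by
  delta dec1Q
  delta dec1N
  rfl
theorem opYQ_eq : @opYQ = @opYN := by
  delta opYQ
  rw [opKQ_eq, dec1Q_eq]
  delta opYN
  rfl
theorem opsFQ_eq : @opsFQ = @opsF := by
  delta opsFQ
  rw [opYQ_eq]
  rw [opsFN_eq]
  delta opsFN
  rfl
theorem loFQ_eq : @loFQ = @loF := by
  delta loFQ
  delta loF upF laF
  rfl
theorem fhFQ_eq : @fhFQ = @fhF := by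
  delta fhFQ
  rw [dPQ_eq]
  delta fhF hlF mxF
  rfl
theorem dtFQ_eq : @dtFQ = @dtF := by
  delta dtFQ
  delta dtF
  rfl
theorem miFQ_eq : @miFQ = @miF := by
  delta miFQ
  rw [dtFQ_eq]
  delta miF mxF laF
  rfl
theorem tlFQ_eq : @tlFQ = @tlF := by
  delta tlFQ
  rw [miFQ_eq]
  delta tlF
  rfl
theorem thFQ_eq : @thFQ = @thF := by
  delta thFQ
  rw [miFQ_eq]
  delta thF
  rfl
theorem fzFQ_eq : @fzFQ = @fzF := by
  delta fzFQ
  rw [dPQ_eq, dtFQ_eq]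
  delta fzF laF
  rfl
theorem srFQ_eq : @srFQ = @srF := by
  delta srFQ
  rw [fzFQ_eq]
  delta srF ptF laF
  rfl
theorem seFQ_eq : @seFQ = @seF := by
  delta seFQ
  delta seF
  rfl
theorem tgFQ_eq : @tgFQ = @tgF := by
  delta tgFQ
  rw [fzFQ_eq, seFQ_eq]
  delta tgF ptF
  rfl
theorem stFQ_eq : @stFQ = @stF := by
  delta stFQ
  delta stF spF laF lmF lsF ls2
  rfl
theorem spPQ_eq : @spPQ = @spP := by
  delta spPQ
  rw [loFQ_eq]
  delta spP mxF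
  rfl
theorem opPQ_eq : @opPQ = @opP := by
  delta opPQ
  rw [prSQ_eq, spPQ_eq]
  delta opP
  rfl
theorem op3RQ_eq : @op3RQ = @op3R := by
  delta op3RQ
  rw [loFQ_eq, tlFQ_eq, thFQ_eq, stFQ_eq, opPQ_eq]
  delta op3R mxF rL56 upF laF lmF ls2
  rfl
theorem op3XQ_eq : @op3XQ = @op3XN := by
  delta op3XQ
  rw [loFQ_eq, fhFQ_eq, tlFQ_eq, thFQ_eq, srFQ_eq, op3RQ_eq]
  delta op3XN upF laF
  rfl
theorem op3KQ_eq : @op3KQ = @op3KN := by
  delta op3KQ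
  rw [fcSQ_eq, raFQ_eq, loFQ_eq, srFQ_eq, tgFQ_eq, op3XQ_eq]
  delta op3KN
  rfl
theorem dec3Q_eq : @dec3Q = @dec3N := by
  delta dec3Q
  delta dec3N
  rfl
theorem op3YQ_eq : @op3YQ = @op3YN := by
  delta op3YQ
  rw [op3KQ_eq, dec3Q_eq]
  delta op3YN
  rfl
theorem ops3FQ_eq : @ops3FQ = @ops3F := by
  delta ops3FQ
  rw [op3YQ_eq]
  rw [ops3FN_eq]
  delta ops3FN
  rfl
theorem kaFQ_eq : @kaFQ = @kaF := by
  delta kaFQ
  delta kaF m4F bF aF cF cF2 mxF sdF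
  rfl
theorem rowBQ_eq : @rowBQ = @rowB := by
  delta rowBQ
  rw [rowBN_eq]
  delta rowBN rb2N rb3N
  rfl
theorem rc2Q_eq : @rc2Q = @rc2 := by
  delta rc2Q
  rw [rowBQ_eq]
  delta rc2
  rfl
theorem rcFQ_eq : @rcFQ = @rcF := by
  delta rcFQ
  rw [kaFQ_eq, rc2Q_eq]
  delta rcF laF
  rfl
theorem roFQ_eq : @roFQ = @roF := by
  delta roFQ
  rw [row4Q_eq, rcFQ_eq]
  delta roF
  rfl
theorem rowsFQ_eq : @rowsFQ = @rowsF := by
  delta rowsFQ
  rw [roFQ_eq]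
  delta rowsF
  rfl
theorem chkFQ_eq : @chkFQ = @chkF := by
  delta chkFQ
  rw [leafFQ_eq, opsFQ_eq, ops3FQ_eq, rowsFQ_eq]
  rw [chkFN_eq]
  delta chkFN upF laF
  rfl

end Pool.Agent.P.MP_2e1554_gt.Chk
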