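import Pool.Agent.P.MP_2e1554_gt.IsoKurt
import Pool.Agent.P.MP_2e1554_gt.IsoPk2
import Pool.Agent.P.MP_2e1554_gt.IsoSem

/-! The third moments of an isotropic planar convex body. -/

open MeasureTheory Set Finset Matrix

namespace Pool.Agent.P.MP_2e1554_gt

private lemma skew_R {x y : ℝ} (hy : 1 ≤ y) (hx : x ≤ 2 * y) :
    0 ≤ 3 * (y - 1) * x ^ 2 - 2 * (y ^ 2 - y + 1) * x + (y ^ 3 - y ^ 2 - 5 * y + 9) := by
  rcases le_total y (9 / 8) with h | h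
  · have h1 : 0 ≤ (2 * y - x) * (2 * (y ^ 2 - y + 1) - 3 * (y - 1) * (x + 2 * y)) := by
      refine mul_nonneg (by linarith) ?_
      have := mul_le_mul_of_nonneg_left (show x + 2 * y ≤ 4 * y by linarith) (sub_nonneg.2 hy)
      nlinarith
    have h2 : 0 ≤ 9 * (y - 1) ^ 2 * (y + 1) := by positivity
    linarith
  · have h1 : 0 ≤ (y - 2) ^ 2 * (2 * y ^ 2 + 4 * y - 7) := mul_nonneg (sq_nonneg _) (by nlinarith)
    have h2 := sq_nonneg (3 * (y - 1) * x - (y ^ 2 - y + 1))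
    refine nonneg_of_mul_nonneg_right (a := 3 * (y - 1)) ?_ (by linarith)
    linarith

private lemma skew_tau {α β : ℝ} (hβ : 0 < β) (h2 : 2 ≤ β ^ 2) : ∃ τ : ℝ,
    (α * β ^ 2 + 2 * τ * (2 * α * β + β ^ 2) + τ ^ 2 * (α + 2 * β)) / 10 +
      3 / 5 * (α + 2 * β + 2 * τ) ≤ 290 / 512 := by
  rcases le_or_gt (α + 2 * β) 0 with h | h
  · refine ⟨0, ?_⟩
    have := mul_nonneg (show 0 ≤ -α by linarith) (sq_nonneg β)
    linarith
  obtain ⟨s, s0, s2⟩ : ∃ s : ℝ, 0 < s ∧ s ^ 2 = 2 :=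
    ⟨_, Real.sqrt_pos.2 two_pos, Real.sq_sqrt zero_le_two⟩
  obtain ⟨x, rfl⟩ : ∃ x, α = -(s * x) := ⟨-α / s, by field_simp⟩
  obtain ⟨y, rfl⟩ : ∃ y, β = s * y := ⟨β / s, by field_simp⟩
  have y0 : 0 < y := pos_of_mul_pos_right hβ s0.le
  have y1 : 1 ≤ y := by
    rw [mul_pow, s2] at h2
    nlinarith
  have hd : 0 < 2 * y - x := by
    by_contra hc
    nlinarith
  have hR := mul_nonneg (show 0 ≤ y + 1 by linarith) (skew_R y1 (x := x) (by linarith))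
  have s1 : s ≤ 725 / 512 := by nlinarith
  obtain ⟨t, ht⟩ : ∃ t, t * (2 * y - x) = -(3 - 2 * x * y + y ^ 2) :=
    ⟨-(3 - 2 * x * y + y ^ 2) / (2 * y - x), by field_simp⟩
  refine ⟨s * t, ?_⟩
  have e : (-(s * x) * (s * y) ^ 2 + 2 * (s * t) * (2 * -(s * x) * (s * y) + (s * y) ^ 2) +
      (s * t) ^ 2 * (-(s * x) + 2 * (s * y))) / 10 + 3 / 5 * (-(s * x) + 2 * (s * y) + 2 * (s * t)) =
      s * ((-x * y ^ 2 + 2 * t * (y ^ 2 - 2 * x * y) + t ^ 2 * (2 * y - x)) * s ^ 2 / 10 +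
        3 / 5 * (2 * y - x + 2 * t)) := by ring
  have k : (-x * y ^ 2 + 2 * t * (y ^ 2 - 2 * x * y) + t ^ 2 * (2 * y - x)) * 2 / 10 +
      3 / 5 * (2 * y - x + 2 * t) ≤ 2 / 5 := by
    refine le_of_mul_le_mul_right ?_ hd
    have e1 : ((-x * y ^ 2 + 2 * t * (y ^ 2 - 2 * x * y) + t ^ 2 * (2 * y - x)) * 2 / 10 +
        3 / 5 * (2 * y - x + 2 * t)) * (2 * y - x) = (-x * y ^ 2 * (2 * y - x) + 3 * (2 * y - x) ^ 2 +
          2 * (t * (2 * y - x)) * (3 - 2 * x * y + y ^ 2) + (t * (2 * y - x)) ^ 2) / 5 := by ring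
    rw [e1, ht]
    linarith
  rw [e, s2]
  have := mul_le_mul_of_nonneg_left k s0.le
  linarith

theorem Marg.skew {p : ℝ → ℝ} {α β V : ℝ} (h : Marg 1 p α β V) :
    ∫ t in Icc α β, t ^ 3 * p t ≤ 290 / 512 * V := by
  obtain ⟨w, hw⟩ := skew_tau (α := α) h.pos_right h.one
  have key := h.cut ((α * β ^ 2 + 2 * w * (2 * α * β + β ^ 2) + w ^ 2 * (α + 2 * β)) / 10)
    (-3 / 10 * (2 * α * β + β ^ 2 + 2 * w * (α + 2 * β) + w ^ 2)) (3 / 5 * (α + 2 * β + 2 * w))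
    1 0 0 0 fun τ hτ Ψ e => by
      have h1 := sub_nonneg.2 hτ.1
      have h3 := sub_nonneg.2 h.lt.le
      have h4 : 0 ≤ (β - α) * (τ - α) * ((τ - β) * (τ - w)) ^ 2 / 20 := by positivity
      subst e
      linarith
  simp only [zero_mul, one_mul, add_zero] at key
  exact key.trans (mul_le_mul_of_nonneg_right hw h.pos.le)

theorem Iso.skew {K : Set (Fin 2 → ℝ)} (hK : Iso K) {a b : ℝ} (h : a ^ 2 + b ^ 2 = 1) :
    ∫ y in K, (a * y 0 + b * y 1) ^ 3 ≤ 290 / 512 * volume.real K := by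
  obtain ⟨p, α, β, hM, -, -, -, hI⟩ := hK.marg_dir (u := ![a, b]) (by
    simp only [dotProduct, Fin.sum_univ_two, Matrix.cons_val_zero, Matrix.cons_val_one]
    linarith)
  have h1 := hI (fun t => t ^ 3) (by fun_prop)
  simp only [dotProduct, Fin.sum_univ_two, Matrix.cons_val_zero, Matrix.cons_val_one] at h1
  rw [h1]
  exact hM.skew

namespace Chk

private lemma skew_mo {K : Set (Fin 2 → ℝ)} (hK : Iso K) {a b : ℝ} (h : a ^ 2 + b ^ 2 = 1) :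
    a ^ 3 * mo K 3 0 + 3 * a ^ 2 * b * mo K 2 1 + 3 * a * b ^ 2 * mo K 1 2 + b ^ 3 * mo K 0 3 ≤
      290 / 512 * volume.real K := by
  have i : ∀ (c : ℝ) (m n : ℕ), Integrable (fun y : Fin 2 → ℝ => c * (y 0 ^ m * y 1 ^ n))
      (volume.restrict K) := fun c m n =>
    ContinuousOn.integrableOn_compact hK.cpt (Continuous.continuousOn (by fun_prop))
  have e : (fun y : Fin 2 → ℝ => (a * y 0 + b * y 1) ^ 3) = fun y =>
      a ^ 3 * (y 0 ^ 3 * y 1 ^ 0) + 3 * a ^ 2 * b * (y 0 ^ 2 * y 1 ^ 1) +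
        3 * a * b ^ 2 * (y 0 ^ 1 * y 1 ^ 2) + b ^ 3 * (y 0 ^ 0 * y 1 ^ 3) := by
    funext y
    ring
  have k := hK.skew h
  have j1 : Integrable (fun y : Fin 2 → ℝ => a ^ 3 * (y 0 ^ 3 * y 1 ^ 0) +
      3 * a ^ 2 * b * (y 0 ^ 2 * y 1 ^ 1)) (volume.restrict K) := (i _ _ _).add (i _ _ _)
  have j2 : Integrable (fun y : Fin 2 → ℝ => a ^ 3 * (y 0 ^ 3 * y 1 ^ 0) +
      3 * a ^ 2 * b * (y 0 ^ 2 * y 1 ^ 1) + 3 * a * b ^ 2 * (y 0 ^ 1 * y 1 ^ 2))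
      (volume.restrict K) := j1.add (i _ _ _)
  rw [e, integral_add j2 (i _ _ _), integral_add j1 (i _ _ _), integral_add (i _ _ _) (i _ _ _),
    integral_const_mul, integral_const_mul, integral_const_mul, integral_const_mul] at k
  exact k

theorem momB290 : MomB 290 := by
  intro g₁ g₂ v₁ v₂ J K hF
  have hK := hF.iso
  obtain ⟨s, s2⟩ : ∃ s : ℝ, s ^ 2 = 3 / 4 := ⟨_, Real.sq_sqrt (by norm_num)⟩
  have a1 := skew_mo hK (a := 1) (b := 0) (by norm_num)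
  have a2 := skew_mo hK (a := -1) (b := 0) (by norm_num)
  have a3 := skew_mo hK (a := 0) (b := 1) (by norm_num)
  have a4 := skew_mo hK (a := 0) (b := -1) (by norm_num)
  have b1 := skew_mo hK (a := s) (b := 1 / 2) (by linarith)
  have b2 := skew_mo hK (a := -s) (b := 1 / 2) (by linarith)
  have b3 := skew_mo hK (a := s) (b := -1 / 2) (by linarith)
  have b4 := skew_mo hK (a := -s) (b := -1 / 2) (by linarith)
  have c1 := skew_mo hK (a := 1 / 2) (b := s) (by linarith)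
  have c2 := skew_mo hK (a := 1 / 2) (b := -s) (by linarith)
  have c3 := skew_mo hK (a := -1 / 2) (b := s) (by linarith)
  have c4 := skew_mo hK (a := -1 / 2) (b := -s) (by linarith)
  have e1 : s ^ 2 * mo K 2 1 = 3 / 4 * mo K 2 1 := by rw [s2]
  have e2 : s ^ 2 * mo K 1 2 = 3 / 4 * mo K 1 2 := by rw [s2]
  push_cast
  refine ⟨abs_le.2 ⟨?_, ?_⟩, abs_le.2 ⟨?_, ?_⟩, abs_le.2 ⟨?_, ?_⟩, abs_le.2 ⟨?_, ?_⟩⟩ <;> linarith

end Chk

end Pool.Agent.P.MP_2e1554_gt
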