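import Pool.Agent.P.MP_2e1554_gt.IsoChkY

/-! The top level: cells in `(tr, fr, v₁, v₂)`, `α = an / 1024`. -/

namespace Pool.Agent.P.MP_2e1554_gt.Chk

inductive Tg
  | spl (ax x : ℕ) (l r : Tg)
  | cell (th n0 n1 n2 n3 : ℕ)
  | dead (n : ℕ)
  | kout (a b : ℕ)
  | kvol (z n j τ : ℕ)

def near (an : ℕ) (G : Gx) (B C : Bx) : Bool :=
  Nat.ble B.t0 C.t0 && Nat.ble C.t1 B.t1 && Nat.ble B.f0 C.f0 && Nat.ble C.f1 B.f1 &&
    Nat.ble (B.a0 + G.dl) C.a0 && Nat.ble (B.b0 + G.dl) C.b0 &&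
    (Nat.ble (1024 * OO + an * (G.g1 + G.g2)) (1024 * B.a1) || Nat.ble (C.a1 + G.dl) B.a1) &&
    (Nat.ble (1024 * OO + an * (G.g1 + G.g2)) (1024 * B.b1) || Nat.ble (C.b1 + G.dl) B.b1) &&
    ((all4 C fun _ g1 g2 => Nat.ble (an * (adf g1 G.g1 + adf g2 G.g2)) (1024 * G.dl)) ||
      all4 C fun t g1 g2 => Nat.ble (1024 * (adf (G.g1 + G.g2) t * (max C.a1 C.b1 - OO)) +
        2 * (an * adf (g1 * G.g2) (g2 * G.g1))) (1024 * (G.dl * t)))

def fld (Z j : ℕ) : ℕ := Nat.land (Nat.shiftRight Z j) (nat_lit 4294967295)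
/-- twelve numbers of 32 bits -/
def hd (Z : ℕ) : Gx × Bx := (⟨fld Z 0, fld Z 32, fld Z 64, fld Z 96⟩,
  ⟨fld Z 128, fld Z 160, fld Z 192, fld Z 224, fld Z 256, fld Z 288, fld Z 320, fld Z 352⟩)
noncomputable def unH (Z : ℕ) (k : Gx → Bx → Bool) : Bool :=
  force (fld Z 0) fun g1 => force (fld Z 32) fun g2 => force (fld Z 64) fun dl =>
  force (fld Z 96) fun th => force (fld Z 128) fun t0 => force (fld Z 160) fun t1 =>
  force (fld Z 192) fun f0 => force (fld Z 224) fun f1 => force (fld Z 256) fun a0 =>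
  force (fld Z 288) fun a1 => force (fld Z 320) fun b0 => force (fld Z 352) fun b1 =>
    k ⟨g1, g2, dl, th⟩ ⟨t0, t1, f0, f1, a0, a1, b0, b1⟩
noncomputable def getH (H : List (ℕ × ℕ)) (n : ℕ) (k : Gx → Bx → Bool) : Bool :=
  match H[n / 1024]? with
  | some (Z, m) => Nat.blt (n % 1024) m && unH (Z >>> (384 * (n % 1024))) k
  | none => false

noncomputable def corner (an : ℕ) (H : List (ℕ × ℕ)) (C : Bx) (th n t f : ℕ) : Bool :=
  getH H n fun G B =>
    Nat.beq G.g1 (cg1 t f) && Nat.beq G.g2 (cg2 t f) && Nat.beq G.th th && near an G B C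

noncomputable def dead (an : ℕ) (H : List (ℕ × ℕ)) (C : Bx) (n : ℕ) : Bool :=
  getH H n fun G B => Nat.ble 3 (G.th % 8) && near an G B C

def plC (m gm vl a1 b1 g1 g2 : ℕ) : Bool := Nat.ble g1 gm && Nat.blt 0 (jI g1 g2 a1 b1) &&
  Nat.ble (m * m * 64 * (gm * gm * (gm * gm)) * (SG * SG * SG))
    (1048576 * jI g1 g2 a1 b1 * ((8 * (gm * gm) + 5 * (vl * vl)) * (8 * (gm * gm) + 5 * (vl * vl))))
/-- the row of the multiplier is valid on the cell -/
def plOK (th : ℕ) (C : Bx) : Bool := Nat.blt th 131072 || (Nat.ble (cg1 C.t1 C.f0) (3 * SG) &&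
  all4 C fun _ g1 g2 => plC (1536 + pN th) (cg1 C.t1 C.f0) (C.a0 - OO) C.a1 C.b1 g1 g2)

def G00 : Gx := ⟨0, 0, 0, 3⟩

noncomputable def chkT (an : ℕ) (H : List (ℕ × ℕ)) (t : Tg) : Bx → Bool :=
  Tg.rec (motive := fun _ => Bx → Bool)
    (fun ax x _ _ l r C => forceB (setHi C ax x) l && forceB (setLw C ax x) r)
    (fun th n0 n1 n2 n3 C => okB C && (!Nat.beq (th % 8) 1 || plOK th C) &&
      corner an H C th n0 C.t0 C.f0 && corner an H C th n1 C.t0 C.f1 &&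
      corner an H C th n2 C.t1 C.f0 && corner an H C th n3 C.t1 C.f1)
    (fun n C => okB C && dead an H C n)
    (fun a b C => outB G00 C a b)
    (fun z n j τ C => okB C && Nat.blt τ 103923 &&
      volP G00 C (Int.negOfNat (z * 786432)) (Int.negOfNat (n * 786432)) j τ) t

/-- the whole range -/
def bx0 : Bx := ⟨0, 31457280, 0, 32768, 18874368, 37748736, 18874368, 37748736⟩

end Pool.Agent.P.MP_2e1554_gt.Chk
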