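import Pool.Agent.P.MP_2e1554_gt.IsoRF
import Pool.Agent.P.MP_2e1554_gt.IsoChkT

/-! The row of the cell multiplier. -/

open MeasureTheory Set Finset

namespace Pool.Agent.P.MP_2e1554_gt.Chk


private theorem tan_poly {w m : ℝ} (hw : 0 ≤ w) (hm : 0 ≤ m) :
    m ^ 2 * (3 + 12 * m + 22 * m ^ 2 + 20 * m ^ 3 + 3 * m ^ 4) * (1 + m + m ^ 2) *
        ((w + 2 * w ^ 2) * (1 + m + m ^ 2) - (m + 2 * m ^ 2) * (1 + w + w ^ 2)) *
        (1 + 4 * w + 10 * w ^ 2 + 4 * w ^ 3 + w ^ 4) ≤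
      (w ^ 3 * (1 + w) * (1 + 4 * m + 10 * m ^ 2 + 4 * m ^ 3 + m ^ 4) -
          m ^ 3 * (1 + m) * (1 + 4 * w + 10 * w ^ 2 + 4 * w ^ 3 + w ^ 4)) *
        (1 + 4 * m + 10 * m ^ 2 + 4 * m ^ 3 + m ^ 4) * (1 + w + w ^ 2) * (1 + 4 * m + m ^ 2) := by
  have h : 0 ≤ (w - m) ^ 2 *
      ((2 * m + 12 * m ^ 2 + 32 * m ^ 3 + 53 * m ^ 4 + 78 * m ^ 5 + 78 * m ^ 6 + 40 * m ^ 7 + 5 * m ^ 8) +
      (1 + 16 * m + 69 * m ^ 2 + 160 * m ^ 3 + 285 * m ^ 4 + 424 * m ^ 5 + 399 * m ^ 6 + 184 * m ^ 7 +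
        22 * m ^ 8) * w +
      (2 + 28 * m + 117 * m ^ 2 + 336 * m ^ 3 + 749 * m ^ 4 + 1196 * m ^ 5 + 1107 * m ^ 6 + 488 * m ^ 7 +
        57 * m ^ 8) * w ^ 2 +
      (2 + 26 * m + 135 * m ^ 2 + 454 * m ^ 3 + 1021 * m ^ 4 + 1478 * m ^ 5 + 1149 * m ^ 6 + 378 * m ^ 7 +
        37 * m ^ 8) * w ^ 3 +
      (1 + 12 * m + 63 * m ^ 2 + 206 * m ^ 3 + 424 * m ^ 4 + 532 * m ^ 5 + 303 * m ^ 6 + 74 * m ^ 7 +
        5 * m ^ 8) * w ^ 4) := mul_nonneg (sq_nonneg _) (by positivity)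
  rw [← sub_nonneg]
  refine h.trans_eq ?_
  ring

/-- the tangent of the pyramid curve -/
theorem tan_real {V R c a b m : ℝ}
    (hp : ∀ w : ℝ, 0 ≤ w → w < 1 →
      R * (1 + 4 * w + 10 * w ^ 2 + 4 * w ^ 3 + w ^ 4) < 5 / 3 * (1 + 2 * w + 3 * w ^ 2) ^ 2 →
      V * (1 + w + w ^ 2) ≤ c * (1 + 2 * w + 3 * w ^ 2))
    (hR : 5 / 3 ≤ R) (ha : 0 ≤ a) (hm : 0 ≤ m) (hV : V ≤ 2 * c)
    (h1 : 3 * (a * c) * ((1 + 4 * m + 10 * m ^ 2 + 4 * m ^ 3 + m ^ 4) ^ 2 * (1 + 4 * m + m ^ 2)) ≤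
      40 * (m ^ 2 * (3 + 12 * m + 22 * m ^ 2 + 20 * m ^ 3 + 3 * m ^ 4) * (1 + m + m ^ 2) ^ 2))
    (h2 : 40 * (m ^ 2 * (3 + 12 * m + 22 * m ^ 2 + 20 * m ^ 3 + 3 * m ^ 4) * (1 + m + m ^ 2) *
        (m + 2 * m ^ 2)) +
      3 * (a * c) * ((1 + 4 * m + 10 * m ^ 2 + 4 * m ^ 3 + m ^ 4) ^ 2 * (1 + 4 * m + m ^ 2)) ≤
      40 * (m ^ 3 * (1 + m) * (1 + 4 * m + 10 * m ^ 2 + 4 * m ^ 3 + m ^ 4) * (1 + 4 * m + m ^ 2)) +
      3 * b * ((1 + 4 * m + 10 * m ^ 2 + 4 * m ^ 3 + m ^ 4) ^ 2 * (1 + 4 * m + m ^ 2))) :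
    a * V - b ≤ R - 5 / 3 := by
  have h3 : a * V ≤ b + 4 / 3 := by
    have k0 := tan_poly zero_le_one hm
    have k1 := mul_le_mul_of_nonneg_left hV ha
    have k2 : 0 < (1 + 4 * m + 10 * m ^ 2 + 4 * m ^ 3 + m ^ 4) ^ 2 * (1 + 4 * m + m ^ 2) := by positivity
    have k3 := mul_le_mul_of_nonneg_right k1 k2.le
    refine le_of_mul_le_mul_right ?_ k2
    linarith
  rcases le_or_gt 3 R with h | h
  · linarith
  refine le_of_forall_gt_imp_ge_of_dense fun r hr => ?_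
  rcases le_or_gt (4 / 3) r with h4 | h4
  · linarith
  have hc : ContinuousOn (fun w : ℝ => 40 / 3 * (w ^ 3 * (1 + w)) -
      r * (1 + 4 * w + 10 * w ^ 2 + 4 * w ^ 3 + w ^ 4)) (Set.Icc 0 1) := by fun_prop
  obtain ⟨w, ⟨w0, w1⟩, hw⟩ := intermediate_value_Icc zero_le_one hc
    (show (0 : ℝ) ∈ Set.Icc _ _ by constructor <;> norm_num <;> linarith)
  have hw' : 40 / 3 * (w ^ 3 * (1 + w)) = r * (1 + 4 * w + 10 * w ^ 2 + 4 * w ^ 3 + w ^ 4) := by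
    linarith
  have w2 : w < 1 := by
    refine lt_of_le_of_ne w1 fun e => ?_
    rw [e] at hw'
    norm_num at hw'
    linarith
  have hA : 0 < 1 + 4 * w + 10 * w ^ 2 + 4 * w ^ 3 + w ^ 4 := by positivity
  have hC : 0 < 1 + w + w ^ 2 := by positivity
  have h5 := hp w w0 w2 (by
    have := mul_lt_mul_of_pos_right (show R < r + 5 / 3 by linarith) hA
    nlinarith)
  have h6 := tan_poly w0 hm
  have hX : 0 ≤ w + 2 * w ^ 2 := by positivity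
  have hAm : 0 < 1 + 4 * m + 10 * m ^ 2 + 4 * m ^ 3 + m ^ 4 := by positivity
  have hCm : 0 < 1 + m + m ^ 2 := by positivity
  have hP : 0 < 1 + 4 * m + m ^ 2 := by positivity
  have h7 : V * (1 + w + w ^ 2) ≤ c * (1 + w + w ^ 2) + c * (w + 2 * w ^ 2) := by linarith
  generalize 1 + 4 * w + 10 * w ^ 2 + 4 * w ^ 3 + w ^ 4 = A at *
  generalize 1 + w + w ^ 2 = C at *
  generalize w + 2 * w ^ 2 = X at *
  generalize w ^ 3 * (1 + w) = N at *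
  generalize 1 + 4 * m + 10 * m ^ 2 + 4 * m ^ 3 + m ^ 4 = A' at *
  generalize 1 + m + m ^ 2 = C' at *
  generalize 1 + 4 * m + m ^ 2 = P at *
  generalize m + 2 * m ^ 2 = X' at *
  generalize m ^ 3 * (1 + m) = N' at *
  generalize m ^ 2 * (3 + 12 * m + 22 * m ^ 2 + 20 * m ^ 3 + 3 * m ^ 4) = Q at *
  have hD : 0 < A' ^ 2 * P := by positivity
  have k1 := mul_le_mul_of_nonneg_left h7 ha
  have k2 := mul_le_mul_of_nonneg_right h1 hX
  have k3 := mul_le_mul_of_nonneg_right h2 hC.le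
  have k4 : 40 * (Q * C' * (X * C' - X' * C)) ≤ (3 * r * A' - 40 * N') * A' * C * P := by
    refine le_of_mul_le_mul_right ?_ hA
    have e : (3 * r * A' - 40 * N') * A' * C * P * A = 40 * ((N * A' - N' * A) * A' * C * P) := by
      have : N = 3 / 40 * (r * A) := by linarith
      rw [this]
      ring
    rw [e]
    linarith
  have k5 := mul_le_mul_of_nonneg_right k1 hD.le
  refine le_of_mul_le_mul_right ?_ (mul_pos hC hD)
  nlinarith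

theorem plC_ok {C : Bx} (hC : okB C = true) {g₁ g₂ v₁ v₂ J : ℝ} {K : Set (Fin 2 → ℝ)}
    (hF : Fx g₁ g₂ v₁ v₂ J K) (hS : InStar C g₁ g₂) (hU : InU C v₁ v₂) {M gm : ℕ} (hM : 0 < M)
    (h : (all4 C fun _ g1 g2 => plC M gm (C.a0 - OO) C.a1 C.b1 g1 g2) = true) :
    SG * g₁ ≤ gm ∧ M * (8 * g₁ ^ 2) ≤ 1024 * J * (8 * g₁ ^ 2 + 5 * v₁ ^ 2) := by
  have hg : 0 < g₁ + g₂ := by linarith [hF.g12, hF.g2pos]
  obtain ⟨vl, hvl⟩ : ∃ n, n = C.a0 - OO := ⟨_, rfl⟩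
  rw [← hvl] at h
  obtain ⟨a, ha⟩ : ∃ a : ℝ, a = (C.a1 : ℝ) / SG - 2 := ⟨_, rfl⟩
  obtain ⟨b, hb⟩ : ∃ b : ℝ, b = (C.b1 : ℝ) / SG - 2 := ⟨_, rfl⟩
  obtain ⟨z, hz⟩ : ∃ z : ℝ, z = 1024 * (8 * (gm * gm) + 5 * (vl * vl)) / (M * (8 * (gm * gm))) :=
    ⟨_, rfl⟩
  have M0 : (0 : ℝ) < M := Nat.cast_pos.2 hM
  have hP := star_ind hC hg hS (fun x y => 0 < x / SG ∧ 0 < y / SG ∧ 0 < Jq (x / SG) (y / SG) a b ∧
      1 / Real.sqrt (Jq (x / SG) (y / SG) a b) ≤ z ∧ x ≤ gm)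
    (by
      rintro x y x' y' t ht ⟨p1, p2, p3, p4, p5⟩ ⟨q1, q2, q3, q4, q5⟩
      have e1 : ((1 - t) * x + t * x') / SG = (1 - t) * (x / SG) + t * (x' / SG) := by ring
      have e2 : ((1 - t) * y + t * y') / SG = (1 - t) * (y / SG) + t * (y' / SG) := by ring
      have k1 := Jq_pos_conv ht p1 p2 q1 q2 p3 q3
      have k2 := Jq_two ht p1 p2 q1 q2 p3 q3
      rw [show (1 - t) * a + t * a = a by ring, show (1 - t) * b + t * b = b by ring] at k1 k2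
      rw [e1, e2]
      exact ⟨pos_conv ht p1 q1, pos_conv ht p2 q2, k1, k2.trans (opb_le ht p4 q4),
        opb_le ht p5 q5⟩) (by
      intro t f ht hf _
      have q := all4_iff h ht hf
      simp only [plC, Bool.and_eq_true, Nat.ble_eq, Nat.blt_eq] at q
      obtain ⟨⟨q1, q0⟩, q⟩ := q
      obtain ⟨m1, m2, e0⟩ := jI_cast q0
      have hW := (Nat.cast_pos (α := ℝ)).2 q0
      have q' := (Nat.cast_le (α := ℝ)).2 q
      have g0 : (0 : ℝ) < gm := Nat.cast_pos.2 (by omega)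
      push_cast at q'
      rw [e0, ← ha, ← hb] at q' hW
      generalize Jq (cg1 t f / SG) (cg2 t f / SG) a b = W at q' hW ⊢
      have hW' : 0 < W := (mul_pos_iff_of_pos_right (by norm_num)).1 hW
      have gg := mul_pos M0 (mul_pos (by norm_num : (0 : ℝ) < 8) (mul_pos g0 g0))
      have z0 : 0 ≤ z := by
        rw [hz]
        refine div_nonneg ?_ gg.le
        linarith [mul_self_nonneg (gm : ℝ), mul_self_nonneg (vl : ℝ)]
      have q3 : 1 ≤ z ^ 2 * W := by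
        rw [hz, div_pow, div_mul_eq_mul_div, one_le_div (pow_pos gg 2)]
        rw [SG_eq] at q'
        linarith
      rw [SG_eq]
      refine ⟨div_pos (Nat.cast_pos.2 (Nat.pos_of_ne_zero m1)) (by norm_num),
        div_pos (Nat.cast_pos.2 (Nat.pos_of_ne_zero m2)) (by norm_num), hW', ?_, Nat.cast_le.2 q1⟩
      rw [div_le_iff₀ (Real.sqrt_pos.2 hW')]
      refine abs_le_of_sq_le_sq' ?_ (mul_nonneg z0 (Real.sqrt_nonneg _)) |>.2
      rw [mul_pow, Real.sq_sqrt hW'.le]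
      linarith)
  simp only [opb_div] at hP
  obtain ⟨p1, p2, p3, p4, p5⟩ := hP
  obtain ⟨r0, r1, -, r2⟩ := hU
  have v1 := hF.v1nn
  have a0 : (vl : ℝ) ≤ 9437184 * v₁ := by
    rcases le_total C.a0 OO with c | c
    · rw [hvl, Nat.sub_eq_zero_of_le c, Nat.cast_zero]
      linarith
    · rw [hvl, Nat.cast_sub c, OO_eq]
      rw [SG_eq] at r0
      linarith
  have a1 : v₁ ≤ a := by
    rw [ha, le_sub_iff_add_le, le_div_iff₀ (by rw [SG_eq]; norm_num)]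
    linarith
  have a2 : v₂ ≤ b := by
    rw [hb, le_sub_iff_add_le, le_div_iff₀ (by rw [SG_eq]; norm_num)]
    linarith
  have a3 := mul_le_mul_of_nonneg_right (pow_le_pow_left₀ hF.v1nn a1 2) p2.le
  have a4 := mul_le_mul_of_nonneg_right (pow_le_pow_left₀ hF.v2nn a2 2) p1.le
  have a5 : Real.sqrt (Jq g₁ g₂ a b) ≤ J := by
    refine Real.sqrt_le_iff.2 ⟨hF.Jpos.le, ?_⟩
    rw [hF.Jsq]
    unfold Jq
    linarith
  have a6 := (one_div_le_one_div_of_le (Real.sqrt_pos.2 p3) a5).trans p4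
  refine ⟨p5, ?_⟩
  have hJ := hF.Jpos
  rw [SG_eq] at p5
  have g0 : (0 : ℝ) < gm := by linarith
  rw [hz, div_le_div_iff₀ hJ (mul_pos M0 (mul_pos (by norm_num) (mul_pos g0 g0)))] at a6
  have e2 := mul_self_le_mul_self (by linarith) p5
  have e3 := mul_self_le_mul_self (Nat.cast_nonneg _) a0
  have e5 := mul_le_mul_of_nonneg_left e3 (sq_nonneg g₁)
  have e6 := mul_le_mul_of_nonneg_left e2 (sq_nonneg v₁)
  have e7 : (vl : ℝ) * vl * g₁ ^ 2 ≤ v₁ ^ 2 * (gm * gm) := by linarith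
  have e8 := mul_le_mul_of_nonneg_left e7 hJ.le
  have e9 := mul_le_mul_of_nonneg_right a6 (sq_nonneg g₁)
  refine le_of_mul_le_mul_right ?_ (mul_pos g0 g0)
  linarith

theorem plOK_ok {C : Bx} (hC : okB C = true) {g₁ g₂ v₁ v₂ J : ℝ} {K : Set (Fin 2 → ℝ)}
    (hF : Fx g₁ g₂ v₁ v₂ J K) (hS : InStar C g₁ g₂) (hU : InU C v₁ v₂) {th : ℕ}
    (h : plOK th C = true) (y : Fin 2 → ℝ) :
    (pGA th : ℝ) * g₁ / 2 ^ 22 * volume.real K - pGB th / (4096 * SG) ≤ Rq g₁ g₂ v₁ v₂ y - 5 / 3 := by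
  have hl := hF.low y
  rw [plOK, Bool.or_eq_true, Bool.and_eq_true, Nat.blt_eq, Nat.ble_eq] at h
  rcases h with h | ⟨h3, h⟩
  · have e : pGA th = 0 := by
      have : pJ th = 0 := by
        unfold pJ
        omega
      simp [pGA, this, zqs]
    have : (0 : ℝ) ≤ pGB th / (4096 * SG) := by positivity
    rw [e, Nat.cast_zero]
    linarith
  obtain ⟨M, hM⟩ : ∃ n, n = 1536 + pN th := ⟨_, rfl⟩
  rw [← hM] at h
  have M0 : 0 < M := by omega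
  obtain ⟨g3, hJ⟩ := plC_ok hC hF hS hU M0 h
  have M1 : (0 : ℝ) < M := Nat.cast_pos.2 M0
  have g0 : 0 < g₁ := hF.g2pos.trans_le hF.g12
  have g4 : g₁ ≤ 3 := by
    have := (Nat.cast_le (α := ℝ)).2 h3
    rw [Nat.cast_mul, SG_eq] at this
    rw [SG_eq] at g3
    push_cast at this
    linarith
  have hV := hF.iso.toBody.vol_pos
  obtain ⟨c, hc⟩ : ∃ c : ℝ, c * M = 29815 / 800 * 1024 := ⟨29815 / 800 * 1024 / M, by field_simp⟩
  obtain ⟨j, hj⟩ : ∃ n, n = pJ th := ⟨_, rfl⟩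
  have d0 : 0 < zqd j * zqd j * zqe j := by
    unfold zqd zqe
    positivity
  have t1 : pGA th * (89445 * (zqd j * zqd j * zqe j)) ≤ 131072000 * M * zqs j * (zq0 j * zq0 j) := by
    rw [pGA, ← hM, ← hj]
    exact Nat.div_mul_le_self _ _
  have t2 : 515396075520 * (zqs j * zq0 j * zq1 j) ≤
      515396075520 * (zqr j * zqd j * zqe j) + pGB th * (zqd j * zqd j * zqe j) := by
    rw [pGB, ← hj]
    have := Nat.lt_div_mul_add (a := 515396075520 * (zqs j * zq0 j * zq1 j - zqr j * zqd j * zqe j)) d0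
    rw [Nat.add_mul]
    omega
  have t1' := (Nat.cast_le (α := ℝ)).2 t1
  have t2' := (Nat.cast_le (α := ℝ)).2 t2
  obtain ⟨m, hm⟩ : ∃ m : ℝ, (j : ℝ) = 128 * m := ⟨j / 128, by ring⟩
  have m0 : 0 ≤ m := by
    have : (0 : ℝ) ≤ j := Nat.cast_nonneg j
    linarith
  simp only [zqd, zqe, zqs, zq0, zq1, zqr] at t1' t2'
  push_cast at t1' t2'
  rw [hm] at t1' t2'
  have ga0 : (0 : ℝ) ≤ pGA th := Nat.cast_nonneg _
  generalize (pGA th : ℝ) = ga at *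
  rw [SG_eq]
  generalize (pGB th : ℝ) = gb at *
  have k0 := mul_le_mul_of_nonneg_left hJ hV.le
  have k1 : 3 * (ga / 2 ^ 22 * c) * ((1 + 4 * m + 10 * m ^ 2 + 4 * m ^ 3 + m ^ 4) ^ 2 * (1 + 4 * m + m ^ 2)) ≤
      40 * (m ^ 2 * (3 + 12 * m + 22 * m ^ 2 + 20 * m ^ 3 + 3 * m ^ 4) * (1 + m + m ^ 2) ^ 2) := by
    refine le_of_mul_le_mul_left ?_ (show (0 : ℝ) < 3276800 * 128 ^ 10 * M by positivity)
    refine (le_of_eq ?_).trans (t1'.trans (le_of_eq (by ring)))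
    rw [show c = 29815 / 800 * 1024 / M by rw [← hc]; field_simp]
    field_simp
    ring
  have := tan_real (V := g₁ * volume.real K) (c := c) (a := ga / 2 ^ 22) (b := gb / (4096 * 9437184))
    (R := Rq g₁ g₂ v₁ v₂ y) (m := m) (by
      intro w w0 w1 hw
      have a7 := hF.pyr (1 - w) y (by linarith) (by linarith) (by
        rw [show 20 - 40 * (1 - w) + 28 * (1 - w) ^ 2 - 8 * (1 - w) ^ 3 + (1 - w) ^ 4 =
          1 + 4 * w + 10 * w ^ 2 + 4 * w ^ 3 + w ^ 4 by ring,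
          show 6 - 8 * (1 - w) + 3 * (1 - w) ^ 2 = 1 + 2 * w + 3 * w ^ 2 by ring]
        exact hw) 1 0
      rw [show 6 - 8 * (1 - w) + 3 * (1 - w) ^ 2 = 1 + 2 * w + 3 * w ^ 2 by ring,
        show 3 - 3 * (1 - w) + (1 - w) ^ 2 = 1 + w + w ^ 2 by ring] at a7
      have hC : 0 ≤ 1 + w + w ^ 2 := by positivity
      generalize 1 + w + w ^ 2 = C at *
      generalize 1 + 2 * w + 3 * w ^ 2 = D at *
      have e5 := mul_le_mul_of_nonneg_right k0 hC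
      have e6 : c * D * (M * g₁) = 29815 / 800 * 1024 * (D * g₁) := by rw [← hc]; ring
      refine le_of_mul_le_mul_right ?_ (mul_pos M1 g0)
      linarith) hl (by positivity) m0 (by
      have s5 : Real.sqrt 5 ≤ 22361 / 10000 := Real.sqrt_le_iff.2 ⟨by norm_num, by norm_num⟩
      have c1 : J * volume.real K ≤ 223722 / 10000 := by
        have := hF.cut
        unfold cZ at this
        linarith
      have c2 := hF.low ![-(v₁ / g₁), 0]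
      have c3 : Rq g₁ g₂ v₁ v₂ ![-(v₁ / g₁), 0] * g₁ = (5 - g₁ - g₂) * g₁ - v₁ ^ 2 := by
        simp only [Rq, Matrix.cons_val_zero, Matrix.cons_val_one]
        field_simp
        ring
      have c4 := mul_le_mul_of_nonneg_right c2 g0.le
      have c5 := mul_pos hF.g2pos g0
      have c6 := mul_le_mul_of_nonneg_right g4 g0.le
      have c7 : 8 * g₁ ^ 2 + 5 * v₁ ^ 2 ≤ 77 / 3 * g₁ := by linarith
      have c8 := mul_le_mul c1 c7 (by positivity) (by norm_num)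
      have e6 : 2 * c * (M * g₁) = 2 * (29815 / 800 * 1024) * g₁ := by rw [← hc]; ring
      refine le_of_mul_le_mul_right ?_ (mul_pos M1 g0)
      linarith) k1 (by
      have k2 : 40 * (m ^ 2 * (3 + 12 * m + 22 * m ^ 2 + 20 * m ^ 3 + 3 * m ^ 4) * (1 + m + m ^ 2) *
          (1 + 2 * m + 3 * m ^ 2)) ≤
          40 * (m ^ 3 * (1 + m) * (1 + 4 * m + 10 * m ^ 2 + 4 * m ^ 3 + m ^ 4) * (1 + 4 * m + m ^ 2)) +
          3 * (gb / (4096 * 9437184)) *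
            ((1 + 4 * m + 10 * m ^ 2 + 4 * m ^ 3 + m ^ 4) ^ 2 * (1 + 4 * m + m ^ 2)) := by
        refine le_of_mul_le_mul_left ?_ (show (0 : ℝ) < 12884901888 * 128 ^ 10 by positivity)
        refine (le_of_eq ?_).trans (t2'.trans (le_of_eq ?_)) <;> ring
      linarith)
  linarith

end Pool.Agent.P.MP_2e1554_gt.Chk
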