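import Pool.Agent.P.MP_2e1554_gt.IsoGeo
import Pool.Agent.P.MP_2e1554_gt.IsoPk2

/-! Integration over the sectors; the initial state. -/

open MeasureTheory Set Finset

namespace Pool.Agent.P.MP_2e1554_gt.Chk

theorem fan56 {K : Set (Fin 2 → ℝ)} (hK : Iso K) {f : (Fin 2 → ℝ) → ℝ} (hf : Continuous f) :
    ∫ y in K, f y = ∑ i ∈ range 56, 1 / 8 * ∫ x in (0 : ℝ)..1, rayI K f (ep i x) := by
  have h := fan_poly hK hf (e := en) (m := 28) (by norm_num) (by simp [en, ex_zero.2])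
    (by simp [en, ex_zero.1])
    (fun i hi => by
      have h := ex_anti i (by omega)
      funext k
      fin_cases k <;> simp [en, h.1, h.2, neg_div])
    (fun i hi => by rw [dt_en, det_succ i (by omega)]; norm_num)
    (fun i hi => by
      have h : (0 : ℝ) ≤ (ey i : ℝ) := by exact_mod_cast ey_nn i (by omega)
      show (0 : ℝ) ≤ (ey i : ℝ) / 24
      positivity)
  rw [h]
  refine Finset.sum_congr rfl fun i hi => ?_
  rw [dt_en, det_succ i (by have := Finset.mem_range.1 hi; omega)]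
  have e : ((72 : ℤ) : ℝ) / 576 = 1 / 8 := by norm_num
  rw [e]
  rfl

theorem sp_cont {K : Set (Fin 2 → ℝ)} (hK : Iso K) {i : ℕ} (hi : i < 56) :
    Continuous (fun x => gauge K (ep i x)) ∧ Continuous (sp K i) := by
  have h1 : Continuous (ep i) := by
    unfold ep
    fun_prop
  have h2 : Continuous (fun x => gauge K (ep i x)) := hK.gauge_cont.comp h1
  exact ⟨h2, h2.inv₀ fun x => (hK.gauge_pos (ep_ne hi x)).ne'⟩

theorem mo_fan {K : Set (Fin 2 → ℝ)} (hK : Iso K) (j : ℕ) : mo K (pa j) (pb j) / ps j =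
    ∑ i ∈ range 56, 1 / 8 * ∫ x in (0 : ℝ)..1, mray j (ep i x) (sp K i x) := by
  rw [mo, fan56 hK (f := fun y => y 0 ^ pa j * y 1 ^ pb j) (by fun_prop), Finset.sum_div]
  refine Finset.sum_congr rfl fun i _ => ?_
  rw [mul_div_assoc, ← intervalIntegral.integral_div]
  congr 2
  funext x
  have e : ∀ r : ℝ, (r • ep i x) 0 ^ pa j * (r • ep i x) 1 ^ pb j * r =
      ep i x 0 ^ pa j * ep i x 1 ^ pb j * r ^ (pa j + pb j + 1) := fun r => by
    simp only [Pi.smul_apply, smul_eq_mul, mul_pow]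
    ring
  simp only [rayI, e]
  rw [intervalIntegral.integral_const_mul, integral_pow, mray, sp]
  simp only [mul_pow]
  rw [zero_pow (by omega), sub_zero]
  push_cast
  have e2 : ((pa j : ℝ) + pb j + 1 + 1) = (pa j : ℝ) + pb j + 2 := by ring
  rw [e2]
  ring

theorem mo_iso {K : Set (Fin 2 → ℝ)} (hK : Iso K) : mo K 0 0 = volume.real K ∧ mo K 1 0 = 0 ∧
    mo K 0 1 = 0 ∧ mo K 2 0 = volume.real K ∧ mo K 0 2 = volume.real K ∧ mo K 1 1 = 0 := by
  have h00 := hK.m2 0 0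
  have h11 := hK.m2 1 1
  have h01 := hK.m2 0 1
  rw [if_pos rfl] at h00 h11
  rw [if_neg (by decide)] at h01
  refine ⟨?_, ?_, ?_, ?_, ?_, ?_⟩
  · simp [mo]
  · simpa [mo] using hK.m1 0
  · simpa [mo] using hK.m1 1
  · simpa only [mo, pow_two, pow_zero, mul_one] using h00
  · simpa only [mo, pow_two, pow_zero, one_mul] using h11
  · simpa [mo] using h01

theorem soft_int {f g : ℝ → ℝ} (hf : Continuous f) (hg : Continuous g) {a b : ℝ}
    (h : ∀ x ∈ Icc (0 : ℝ) 1, f x + g x ≤ (1 - x) * a + x * b) :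
    (∫ x in (0 : ℝ)..1, (1 - x) * f x) + (∫ x in (0 : ℝ)..1, (1 - x) * g x) ≤ (2 * a + b) / 6 ∧
      (∫ x in (0 : ℝ)..1, x * f x) + (∫ x in (0 : ℝ)..1, x * g x) ≤ (a + 2 * b) / 6 := by
  have q : ∀ a b c : ℝ, ∫ x in (0 : ℝ)..1, (a + b * x + c * x ^ 2) = a + b / 2 + c / 3 := fun a b c => by
    have h1 : Continuous fun x : ℝ => b * x := by fun_prop
    have h2 : Continuous fun x : ℝ => c * x ^ 2 := by fun_prop
    rw [intervalIntegral.integral_add (intervalIntegrable_const.add (h1.intervalIntegrable 0 1))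
      (h2.intervalIntegrable 0 1), intervalIntegral.integral_add intervalIntegrable_const
      (h1.intervalIntegrable 0 1), intervalIntegral.integral_const_mul,
      intervalIntegral.integral_const_mul, integral_id, integral_pow, intervalIntegral.integral_const]
    simp only [smul_eq_mul]
    ring
  have key : ∀ (w : ℝ → ℝ) (p r t : ℝ), Continuous w → (∀ x ∈ Icc (0 : ℝ) 1, 0 ≤ w x) →
      (∀ x, w x * ((1 - x) * a + x * b) = p + r * x + t * x ^ 2) →
      (∫ x in (0 : ℝ)..1, w x * f x) + (∫ x in (0 : ℝ)..1, w x * g x) ≤ p + r / 2 + t / 3 := by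
    intro w p r t hw h0 e
    have i1 : IntervalIntegrable (fun x => w x * f x) volume 0 1 := (hw.mul hf).intervalIntegrable 0 1
    have i2 : IntervalIntegrable (fun x => w x * g x) volume 0 1 := (hw.mul hg).intervalIntegrable 0 1
    have hc : Continuous fun x : ℝ => p + r * x + t * x ^ 2 := by fun_prop
    rw [← intervalIntegral.integral_add i1 i2, ← q]
    refine intervalIntegral.integral_mono_on zero_le_one (i1.add i2) (hc.intervalIntegrable 0 1)
      fun x hx => ?_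
    rw [← e, ← mul_add]
    exact mul_le_mul_of_nonneg_left (h x hx) (h0 x hx)
  exact ⟨(key (fun x => 1 - x) a (b - 2 * a) (a - b) (by fun_prop) (fun x hx => sub_nonneg.2 hx.2)
      fun x => by ring).trans_eq (by ring),
    (key (fun x => x) 0 a (b - a) (by fun_prop) (fun x hx => hx.1) fun x => by ring).trans_eq (by ring)⟩

theorem soft_anti {K : Set (Fin 2 → ℝ)} (hK : Iso K) {i j : ℕ} (hi : i < 56) (hj : j < 56) {a b : ℝ}
    (h : ∀ x ∈ Icc (0 : ℝ) 1, sp K i x + sp K j x ≤ (1 - x) * a + x * b) :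
    hA K i + hA K j ≤ (2 * a + b) / 6 ∧ hB K i + hB K j ≤ (a + 2 * b) / 6 :=
  soft_int (sp_cont hK hi).2 (sp_cont hK hj).2 h

theorem soft_mir {f g : ℝ → ℝ} (hf : Continuous f) (hg : Continuous g) {a b : ℝ}
    (h : ∀ x ∈ Icc (0 : ℝ) 1, f x + g (1 - x) ≤ (1 - x) * a + x * b) :
    (∫ x in (0 : ℝ)..1, (1 - x) * f x) + (∫ x in (0 : ℝ)..1, x * g x) ≤ (2 * a + b) / 6 ∧
      (∫ x in (0 : ℝ)..1, x * f x) + (∫ x in (0 : ℝ)..1, (1 - x) * g x) ≤ (a + 2 * b) / 6 := by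
  have h1 := soft_int (g := fun x => g (1 - x)) hf (hg.comp (by fun_prop)) h
  have e1 := intervalIntegral.integral_comp_sub_left (a := 0) (b := 1) (fun x => x * g x) 1
  have e2 := intervalIntegral.integral_comp_sub_left (a := 0) (b := 1) (fun x => (1 - x) * g x) 1
  simp only [sub_sub_cancel, sub_self, sub_zero] at e1 e2
  rw [e1, e2] at h1
  exact h1

theorem sp_rng {K : Set (Fin 2 → ℝ)} (hK : Iso K) {i : ℕ} (hi : i < 56) {x : ℝ}
    (hx : x ∈ Icc (0 : ℝ) 1) : 15 / 12 ≤ sp K i x ∧ sp K i x ≤ 17 / 6 := by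
  obtain ⟨h1, h2⟩ := gauge_rng hK hi hx
  rw [sp]
  exact ⟨le_inv_of_le_inv₀ (by linarith) (by linarith), inv_le_of_inv_le₀ (by norm_num) (by linarith)⟩

private theorem hi_aux {q : ℕ} {r : ℝ} (h0 : 0 ≤ r) (h1 : r ≤ 17 / 6) (h2 : q * r ≤ 2 ^ 20) :
    r ≤ (14 + ((∑ k ∈ range 20, if q ≤ 12 * 2 ^ 20 / (14 + k) then 1 else 0 : ℕ) : ℝ)) / 12 := by
  obtain ⟨H, hH⟩ : ∃ H, H = ∑ k ∈ range 20, if q ≤ 12 * 2 ^ 20 / (14 + k) then 1 else 0 := ⟨_, rfl⟩
  rw [← hH]
  rcases le_or_gt 20 H with h | h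
  · have : (20 : ℝ) ≤ H := by exact_mod_cast h
    linarith
  have h3 : 12 * 2 ^ 20 / (14 + H) < q := by
    by_contra hn
    have h4 := Finset.sum_le_sum_of_subset (f := fun k => if q ≤ 12 * 2 ^ 20 / (14 + k) then 1 else 0)
      (Finset.range_mono (show H + 1 ≤ 20 from h))
    rw [← hH, Finset.sum_congr rfl (g := fun _ => 1) fun k hk => if_pos ((not_lt.1 hn).trans
      (Nat.div_le_div_left (by have := Finset.mem_range.1 hk; omega) (by omega))), Finset.sum_const,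
      Finset.card_range, smul_eq_mul] at h4
    omega
  have h4 : (12 * 2 ^ 20 : ℝ) < q * (14 + H) := by
    exact_mod_cast (Nat.div_lt_iff_lt_mul (by omega)).1 h3
  by_contra hn
  have := mul_le_mul_of_nonneg_left (not_le.1 hn).le (Nat.cast_nonneg (α := ℝ) q)
  linarith

theorem hiv_spec {s : St} {K : Set (Fin 2 → ℝ)} (hK : Iso K) (hs : StOK s K) {i : ℕ} (hi : i < 56) {x : ℝ}
    (hx : x ∈ Icc (0 : ℝ) 1) :
    sp K i x ≤ (14 + (hiv s i : ℝ)) / 12 ∧ sp K i x ≤ (14 + (hiv s ((i + 1) % 56) : ℝ)) / 12 := by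
  obtain ⟨h1, h2⟩ := sp_rng hK hi hx
  have h0 : 0 ≤ sp K i x := by linarith
  have h3 : ∀ q ≤ dg s.sl i, (q : ℝ) * sp K i x ≤ 2 ^ 20 := fun q hq => by
    rw [sp, mul_inv_le_iff₀ (hK.gauge_pos (ep_ne hi x))]
    exact (Nat.cast_le.2 hq).trans (hs.sl i hi x hx).le
  refine ⟨hi_aux h0 h2 (h3 _ (min_le_left _ _)), hi_aux h0 h2 (h3 _ ?_)⟩
  rw [show ((i + 1) % 56 + 55) % 56 = i by omega]
  exact min_le_right _ _

private theorem psi_pt {r r' σ : ℝ} {H H' M : ℕ} (h1 : 15 / 12 ≤ r) (h2 : r ≤ (14 + (H : ℝ)) / 12)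
    (h3 : 15 / 12 ≤ r') (h4 : r' ≤ (14 + (H' : ℝ)) / 12) (h5 : r + r' ≤ σ) (h6 : 93 ≤ 12 * σ + M) :
    max r ((15 + ((min (64 - M - H') (H - 1) : ℕ) : ℝ)) / 12) +
      max r' ((15 + ((min (64 - M - H) (H' - 1) : ℕ) : ℝ)) / 12) ≤ σ := by
  have a : min (64 - M - H') (H - 1) = 0 ∨
      min (64 - M - H') (H - 1) + M + H' ≤ 64 ∧ min (64 - M - H') (H - 1) + 1 ≤ H := by omega
  have b : min (64 - M - H) (H' - 1) = 0 ∨ min (64 - M - H) (H' - 1) + M + H ≤ 64 := by omega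
  generalize min (64 - M - H') (H - 1) = k at a
  generalize min (64 - M - H) (H' - 1) = k' at b
  have a' : (k : ℝ) = 0 ∨ (k : ℝ) + M + H' ≤ 64 ∧ (k : ℝ) + 1 ≤ H := by exact_mod_cast a
  have b' : (k' : ℝ) = 0 ∨ (k' : ℝ) + M + H ≤ 64 := by exact_mod_cast b
  rcases le_total r ((15 + (k : ℝ)) / 12) with c | c <;> rcases le_total r' ((15 + (k' : ℝ)) / 12) with d | d <;>
    simp only [max_eq_left, max_eq_right, c, d] <;> rcases a' with a' | ⟨a', a''⟩ <;>
    rcases b' with b' | b' <;> linarith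

theorem psi_cont {s : St} {K : Set (Fin 2 → ℝ)} (hK : Iso K) {i : ℕ} (hi : i < 56) (j : ℕ) :
    Continuous fun x => psi s j (sp K i x) := (sp_cont hK hi).2.max continuous_const

theorem kink_int {s : St} {K : Set (Fin 2 → ℝ)} (hK : Iso K) (hs : StOK s K) {n : ℕ} (hn : n < 27) :
    65536 * (kA s K ((43 + n) % 56) + kB s K (40 - n)) ≤ dg s.ll (85 + n) ∧
      65536 * (kB s K ((42 + n) % 56) + kA s K (41 - n)) ≤ dg s.ll (112 + n) := by
  have e1 : nuI ((43 + n) % 56) = 29 + n := by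
    unfold nuI
    split_ifs <;> omega
  have e2 : nuI (41 - n) = 29 + n := by
    unfold nuI
    split_ifs <;> omega
  have key : ∀ r r' σ : ℝ, 15 / 12 ≤ r → r ≤ (14 + (hiv s ((43 + n) % 56) : ℝ)) / 12 → 15 / 12 ≤ r' →
      r' ≤ (14 + (hiv s (41 - n) : ℝ)) / 12 → r + r' ≤ σ → ∀ m, m = 141 + n ∨ m = 140 + n →
      93 ≤ 12 * σ + dg s.ll m → psi s (43 + n) r + psi s (41 - n) r' ≤ σ := by
    intro r r' σ h1 h2 h3 h4 h5 m hm h6
    rw [psi, psi, Nat.mod_eq_of_lt (show 41 - n < 56 by omega), kqv, kqv, e1, e2,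
      show (84 - (43 + n) % 56) % 56 = 41 - n by omega, show (84 - (41 - n)) % 56 = (43 + n) % 56 by omega,
      show 112 + (29 + n) = 141 + n by omega, show 111 + (29 + n) = 140 + n by omega]
    refine psi_pt h1 h2 h3 h4 h5 (h6.trans (add_le_add_right (Nat.cast_le.2 ?_) _))
    rcases hm with rfl | rfl
    exacts [le_max_left _ _, le_max_right _ _]
  have hx' : ∀ x ∈ Icc (0 : ℝ) 1, 1 - x ∈ Icc (0 : ℝ) 1 := fun x hx =>
    ⟨sub_nonneg.2 hx.2, by linarith [hx.1]⟩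
  have pm : ∀ i r, psi s (i % 56) r = psi s i r := fun i r => by rw [psi, psi, Nat.mod_mod]
  have cv : ∀ a b c x : ℝ, x ∈ Icc (0 : ℝ) 1 → 93 ≤ 12 * a + c → 93 ≤ 12 * b + c →
      93 ≤ 12 * ((1 - x) * a + x * b) + c := fun a b c x hx ha hb => by
    have h1 := mul_le_mul_of_nonneg_left ha (sub_nonneg.2 hx.2)
    have h2 := mul_le_mul_of_nonneg_left hb hx.1
    linarith
  constructor
  · obtain ⟨a, b, h1, h2, -, h4, h5⟩ := hs.ll.2 (n + 1) (by omega)
    rw [show 42 + (n + 1) = 43 + n by omega, show 41 - (n + 1) = 40 - n by omega] at h1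
    rw [show 84 + (n + 1) = 85 + n by omega] at h2
    have i1 : (43 + n) % 56 < 56 := Nat.mod_lt _ (by norm_num)
    have i2 : 40 - n < 56 := by omega
    have := (soft_mir (psi_cont (s := s) hK i1 ((43 + n) % 56)) (psi_cont (s := s) hK i2 (40 - n + 1))
      (a := a) (b := b) fun x hx => by
        have h6 := (hiv_spec hK hs i2 (hx' x hx)).2
        rw [show (40 - n + 1) % 56 = 41 - n by omega] at h6
        rw [pm, show 40 - n + 1 = 41 - n by omega]
        exact key _ _ _ (sp_rng hK i1 hx).1 (hiv_spec hK hs i1 hx).1 (sp_rng hK i2 (hx' x hx)).1 h6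
          (h1 x hx) (140 + (n + 1)) (by omega) (cv _ _ _ _ hx h4 h5)).1
    rw [kA, kB]
    linarith
  · obtain ⟨a, b, h1, -, h3, h4, h5⟩ := hs.ll.2 n (by omega)
    have i1 : (42 + n) % 56 < 56 := Nat.mod_lt _ (by norm_num)
    have i2 : 41 - n < 56 := by omega
    have := (soft_mir (psi_cont (s := s) hK i1 ((42 + n) % 56 + 1)) (psi_cont (s := s) hK i2 (41 - n))
      (a := a) (b := b) fun x hx => by
        have h6 := (hiv_spec hK hs i1 hx).2
        have e : ((42 + n) % 56 + 1) % 56 = (43 + n) % 56 := by omega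
        rw [e] at h6
        rw [← pm ((42 + n) % 56 + 1), e, pm]
        exact key _ _ _ (sp_rng hK i1 hx).1 h6 (sp_rng hK i2 (hx' x hx)).1 (hiv_spec hK hs i2 (hx' x hx)).1
          (h1 x hx) (140 + n) (by omega) (cv _ _ _ _ hx h4 h5)).2
    rw [kA, kB]
    linarith

theorem st0_ok {K : Set (Fin 2 → ℝ)} (hK : Iso K) (hV : 108 ≤ volume.real K ^ 2) : StOK st0 K := by
  have hen : ∀ i, en i ⬝ᵥ en i = ((ex i : ℝ) ^ 2 + (ey i : ℝ) ^ 2) / 576 := fun i => by
    simp only [en, dotProduct, Fin.sum_univ_two, Matrix.cons_val_zero, Matrix.cons_val_one]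
    ring
  refine ⟨st0_bd, fun i hi => ?_, fun i hi => ?_, fun i hi x hx => ?_,
    ⟨fun i hi => ?_, fun n hn => ?_⟩, ?_, fun h => absurd rfl h⟩
  · show (dg QL0 i : ℝ) < _
    have h1 : 576 * 8 * (dg QL0 i : ℝ) ^ 2 < ((ex i : ℝ) ^ 2 + (ey i : ℝ) ^ 2) * 2 ^ 40 := by
      exact_mod_cast (st0_spec i hi).1
    have h2 := (hK.gauge_sq (en i)).1
    rw [hen] at h2
    have h3 := gauge_nonneg (s := K) (en i)
    generalize (dg QL0 i : ℝ) = q at h1
    refine lt_of_pow_lt_pow_left₀ 2 (by positivity) ?_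
    nlinarith
  · show _ ≤ (dg QH0 i : ℝ)
    have h1 : ((ex i : ℝ) ^ 2 + (ey i : ℝ) ^ 2) * 2 ^ 40 ≤ 576 * 2 * (dg QH0 i : ℝ) ^ 2 := by
      exact_mod_cast (st0_spec i hi).2.1
    have h2 := (hK.gauge_sq (en i)).2
    rw [hen] at h2
    have h3 : (0 : ℝ) ≤ (dg QH0 i : ℝ) := Nat.cast_nonneg _
    generalize (dg QH0 i : ℝ) = q at h1 h3
    refine le_of_pow_le_pow_left₀ (n := 2) (by norm_num) h3 ?_
    nlinarith
  · show (dg SL0 i : ℝ) < _
    have h1 : 4 * 576 * 8 * (dg SL0 i : ℝ) ^ 2 < (4 * ((ex i : ℝ) ^ 2 + (ey i : ℝ) ^ 2) -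
        (((ex (i + 1) : ℝ) - ex i) ^ 2 + ((ey (i + 1) : ℝ) - ey i) ^ 2)) * 2 ^ 40 := by
      exact_mod_cast (st0_spec i hi).2.2.1
    have h1' : 4 * 576 * 8 * (dg SL0 i : ℝ) ^ 2 <
        (4 * ((ex (i + 1) : ℝ) ^ 2 + (ey (i + 1) : ℝ) ^ 2) -
        (((ex (i + 1) : ℝ) - ex i) ^ 2 + ((ey (i + 1) : ℝ) - ey i) ^ 2)) * 2 ^ 40 := by
      exact_mod_cast (st0_spec i hi).2.2.2
    have h2 := (hK.gauge_sq (ep i x)).1
    have h4 : ep i x ⬝ᵥ ep i x = ((1 - x) * ((ex i : ℝ) ^ 2 + (ey i : ℝ) ^ 2) +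
        x * ((ex (i + 1) : ℝ) ^ 2 + (ey (i + 1) : ℝ) ^ 2) - x * (1 - x) *
          (((ex (i + 1) : ℝ) - ex i) ^ 2 + ((ey (i + 1) : ℝ) - ey i) ^ 2)) / 576 := by
      simp only [ep, en, dotProduct, Fin.sum_univ_two, Pi.add_apply, Pi.smul_apply, smul_eq_mul,
        Matrix.cons_val_zero, Matrix.cons_val_one]
      ring
    rw [h4] at h2
    have h3 := gauge_nonneg (s := K) (ep i x)
    have h5 : (0 : ℝ) ≤ ((ex (i + 1) : ℝ) - ex i) ^ 2 + ((ey (i + 1) : ℝ) - ey i) ^ 2 := by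
      positivity
    generalize ((ex (i + 1) : ℝ) - ex i) ^ 2 + ((ey (i + 1) : ℝ) - ey i) ^ 2 = d at h1 h1' h2 h5
    generalize (ex (i + 1) : ℝ) ^ 2 + (ey (i + 1) : ℝ) ^ 2 = b at h1' h2
    generalize (ex i : ℝ) ^ 2 + (ey i : ℝ) ^ 2 = a at h1 h2
    generalize (dg SL0 i : ℝ) = q at h1 h1'
    generalize gauge K (ep i x) = g at h2 h3
    refine lt_of_pow_lt_pow_left₀ 2 (by positivity) ?_
    have h6 : x * (1 - x) * d ≤ 1 / 4 * d :=
      mul_le_mul_of_nonneg_right (by nlinarith [sq_nonneg (x - 1 / 2)]) h5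
    have h7 : 4 * 576 * 8 * q ^ 2 < ((1 - x) * (4 * a - d) + x * (4 * b - d)) * 2 ^ 40 := by
      rcases le_total a b with h | h
      · nlinarith [mul_nonneg hx.1 (sub_nonneg.2 h)]
      · nlinarith [mul_nonneg (sub_nonneg.2 hx.2) (sub_nonneg.2 h)]
    nlinarith
  · have k2 : ∀ k < 56, hA K k ≤ 17 / 12 ∧ hB K k ≤ 17 / 12 := fun k hk => by
      have := soft_anti hK hk hk (a := 17 / 3) (b := 17 / 3) fun x hx => by linarith [(sp_rng hK hk hx).2]
      constructor <;> linarith [this.1, this.2]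
    show LOK K i (dg LL0 i)
    rw [LL0_eq i (by omega), LOK]
    by_cases h : i < 28
    · rw [if_pos h, if_pos h]
      intro x hx
      have h1 := (sp_rng hK (i := i) (by omega) hx).2
      have h2 := (sp_rng hK (i := i + 28) (by omega) hx).2
      push_cast
      linarith
    · rw [if_neg h, if_neg h, if_pos (by omega), lv]
      push_cast
      split_ifs
      · linarith [(k2 (i - 28) (by omega)).1, (k2 i (by omega)).1]
      · linarith [(k2 (i - 56) (by omega)).2, (k2 (i - 28) (by omega)).2]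
  · show MOK K n (dg LL0 _) (dg LL0 _) (dg LL0 _)
    rw [LL0_eq _ (by omega), LL0_eq _ (by omega), LL0_eq _ (by omega), if_neg (by omega),
      if_pos (by omega), if_neg (by omega), if_pos (by omega), if_neg (by omega), if_neg (by omega)]
    refine ⟨17 / 3, 17 / 3, fun x hx => ?_, by norm_num, by norm_num, by norm_num, by norm_num⟩
    have h1 := (sp_rng hK (i := (42 + n) % 56) (by omega) hx).2
    have h2 := (sp_rng hK (i := 41 - n) (x := 1 - x) (by omega) ⟨sub_nonneg.2 hx.2, by linarith [hx.1]⟩).2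
    linarith
  · show ((103923 : ℕ) : ℝ) ≤ _
    have h : (0 : ℝ) ≤ volume.real K := measureReal_nonneg
    push_cast
    nlinarith

end Pool.Agent.P.MP_2e1554_gt.Chk
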