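import Pool.Agent.P.MP_2e1554_gt.IsoDefs6
import Pool.Agent.P.MP_2e1554_gt.IsoGeo2

/-! Convexity in the parameters. -/

open MeasureTheory Set Finset

namespace Pool.Agent.P.MP_2e1554_gt.Chk

/-- closed form from `rayF_int` (with `s = 1`), hence continuity -/
theorem psi_eq {a B C : ℝ} (h : PsiOK a B C) : Psi a B C =
    1 / (Real.sqrt (a + 2 * B + C) * (Real.sqrt (a * (a + 2 * B + C)) + a + B)) := by
  unfold Psi
  rw [rayF_int zero_le_one h]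
  simp only [one_pow, mul_one]

private theorem psi_den {a B C : ℝ} (h : PsiOK a B C) :
    0 < Real.sqrt (a + 2 * B + C) * (Real.sqrt (a * (a + 2 * B + C)) + a + B) := by
  have h1 := h 1 ⟨zero_le_one, le_rfl⟩
  have h2 := rayF_den zero_le_one h
  simp only [one_pow, mul_one] at h1 h2
  exact mul_pos (Real.sqrt_pos.2 h1) h2

private theorem ep_cont (i : ℕ) (j : Fin 2) : Continuous fun x : ℝ => ep i x j := by
  simp only [ep, Pi.add_apply, Pi.smul_apply, smul_eq_mul]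
  fun_prop

private theorem psi_contOn {a : ℝ} {B C : ℝ → ℝ} (hB : Continuous B) (hC : Continuous C)
    (h : ∀ x ∈ Icc (0 : ℝ) 1, PsiOK a (B x) (C x)) :
    ContinuousOn (fun x => Psi a (B x) (C x)) (Icc 0 1) := by
  refine ContinuousOn.congr (f := fun x => 1 / (Real.sqrt (a + 2 * B x + C x) *
    (Real.sqrt (a * (a + 2 * B x + C x)) + a + B x))) ?_ fun x hx => psi_eq (h x hx)
  exact ContinuousOn.div continuousOn_const (by fun_prop) fun x hx => (psi_den (h x hx)).ne'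

theorem pray_int {K : Set (Fin 2 → ℝ)} (hK : Iso K) {g₁ g₂ v₁ v₂ : ℝ} (h : POK K g₁ g₂ v₁ v₂) {i : ℕ}
    (hi : i < 56) : IntervalIntegrable (pray K g₁ g₂ v₁ v₂ i) volume 0 1 := by
  refine ContinuousOn.intervalIntegrable ?_
  rw [Set.uIcc_of_le zero_le_one]
  have hs := (sp_cont hK hi).2
  have h0 := ep_cont i 0
  have h1 := ep_cont i 1
  unfold pray
  refine ContinuousOn.mul (hs.pow 2).continuousOn (psi_contOn ?_ ?_ (h i hi))
  · exact (continuous_const.mul (hs.mul h0)).add (continuous_const.mul (hs.mul h1))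
  · exact (continuous_const.mul ((hs.mul h0).pow 2)).add (continuous_const.mul ((hs.mul h1).pow 2))

theorem pos_conv {A B x : ℝ} (hx : x ∈ Icc (0 : ℝ) 1) (hA : 0 < A) (hB : 0 < B) :
    0 < (1 - x) * A + x * B := by
  rcases hx.1.eq_or_lt with h | h
  · rw [← h]
    simpa using hA
  · have := mul_pos h hB
    have := mul_nonneg (sub_nonneg.2 hx.2) hA.le
    linarith

private theorem titu_two {g g' v v' x : ℝ} (hx : x ∈ Icc (0 : ℝ) 1) (h : 0 < g) (h' : 0 < g') :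
    ((1 - x) * v + x * v') ^ 2 / ((1 - x) * g + x * g') ≤
      (1 - x) * (v ^ 2 / g) + x * (v' ^ 2 / g') := by
  have := rayF_titu (Finset.univ : Finset (Fin 2)) ![1 - x, x] ![g, g'] ![v, v']
    (by simpa [Fin.forall_fin_two] using ⟨hx.2, hx.1⟩) (by simp)
    (by simpa [Fin.forall_fin_two] using ⟨h, h'⟩)
  simpa using this

theorem Jq_pos_conv {g₁ g₂ v₁ v₂ g₁' g₂' v₁' v₂' x : ℝ} (hx : x ∈ Icc (0 : ℝ) 1) (h1 : 0 < g₁)
    (h2 : 0 < g₂) (h1' : 0 < g₁') (h2' : 0 < g₂') (hJ : 0 < Jq g₁ g₂ v₁ v₂)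
    (hJ' : 0 < Jq g₁' g₂' v₁' v₂') : 0 < Jq ((1 - x) * g₁ + x * g₁') ((1 - x) * g₂ + x * g₂')
      ((1 - x) * v₁ + x * v₁') ((1 - x) * v₂ + x * v₂') := by
  have p1 := pos_conv hx h1 h1'
  have p2 := pos_conv hx h2 h2'
  rw [rayF_Jq h1 h2, mul_assoc, mul_pos_iff_of_pos_right (mul_pos h1 h2)] at hJ
  rw [rayF_Jq h1' h2', mul_assoc, mul_pos_iff_of_pos_right (mul_pos h1' h2')] at hJ'
  rw [rayF_Jq p1 p2]
  refine mul_pos (mul_pos ?_ p1) p2
  have t1 := titu_two (v := v₁) (v' := v₁') hx h1 h1'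
  have t2 := titu_two (v := v₂) (v' := v₂') hx h2 h2'
  have t3 := pos_conv hx hJ hJ'
  linarith

private theorem psi_two {a B C a' B' C' x : ℝ} (hx : x ∈ Icc (0 : ℝ) 1) (h : PsiOK a B C)
    (h' : PsiOK a' B' C') : Psi ((1 - x) * a + x * a') ((1 - x) * B + x * B') ((1 - x) * C + x * C') ≤
      (1 - x) * Psi a B C + x * Psi a' B' C' := by
  have := psi_jensen (Finset.univ : Finset (Fin 2)) ![1 - x, x] ![a, a'] ![B, B'] ![C, C']
    (by simpa [Fin.forall_fin_two] using ⟨hx.2, hx.1⟩) (by simp)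
    (by simpa [Fin.forall_fin_two] using ⟨h, h'⟩) (C₀ := (1 - x) * C + x * C') (by simp)
  simpa using this

theorem Jq_two {g₁ g₂ v₁ v₂ g₁' g₂' v₁' v₂' x : ℝ} (hx : x ∈ Icc (0 : ℝ) 1) (h1 : 0 < g₁)
    (h2 : 0 < g₂) (h1' : 0 < g₁') (h2' : 0 < g₂') (hJ : 0 < Jq g₁ g₂ v₁ v₂)
    (hJ' : 0 < Jq g₁' g₂' v₁' v₂') :
    1 / Real.sqrt (Jq ((1 - x) * g₁ + x * g₁') ((1 - x) * g₂ + x * g₂')
      ((1 - x) * v₁ + x * v₁') ((1 - x) * v₂ + x * v₂')) ≤
      (1 - x) * (1 / Real.sqrt (Jq g₁ g₂ v₁ v₂)) + x * (1 / Real.sqrt (Jq g₁' g₂' v₁' v₂')) := by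
  have := Jq_convex (Finset.univ : Finset (Fin 2)) ![1 - x, x] ![g₁, g₁'] ![g₂, g₂'] ![v₁, v₁']
    ![v₂, v₂'] (by simpa [Fin.forall_fin_two] using ⟨hx.2, hx.1⟩) (by simp)
    (by simpa [Fin.forall_fin_two] using ⟨h1, h1'⟩) (by simpa [Fin.forall_fin_two] using ⟨h2, h2'⟩)
    (by simpa [Fin.forall_fin_two] using ⟨hJ, hJ'⟩)
  simpa only [Fin.sum_univ_two, Matrix.cons_val_zero, Matrix.cons_val_one] using this

private theorem POK_conv {K : Set (Fin 2 → ℝ)} {g₁ g₂ v₁ v₂ g₁' g₂' v₁' v₂' x : ℝ}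
    (hx : x ∈ Icc (0 : ℝ) 1) (h : POK K g₁ g₂ v₁ v₂) (h' : POK K g₁' g₂' v₁' v₂') :
    POK K ((1 - x) * g₁ + x * g₁') ((1 - x) * g₂ + x * g₂') ((1 - x) * v₁ + x * v₁')
      ((1 - x) * v₂ + x * v₂') := by
  intro i hi y hy u hu
  refine (pos_conv hx (h i hi y hy u hu) (h' i hi y hy u hu)).trans_eq ?_
  ring

private theorem IP_conv {K : Set (Fin 2 → ℝ)} (hK : Iso K) {g₁ g₂ v₁ v₂ g₁' g₂' v₁' v₂' x : ℝ}
    (hx : x ∈ Icc (0 : ℝ) 1) (h : POK K g₁ g₂ v₁ v₂) (h' : POK K g₁' g₂' v₁' v₂') :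
    IP K ((1 - x) * g₁ + x * g₁') ((1 - x) * g₂ + x * g₂') ((1 - x) * v₁ + x * v₁')
      ((1 - x) * v₂ + x * v₂') ≤ (1 - x) * IP K g₁ g₂ v₁ v₂ + x * IP K g₁' g₂' v₁' v₂' := by
  unfold IP
  rw [Finset.mul_sum, Finset.mul_sum, ← Finset.sum_add_distrib]
  refine Finset.sum_le_sum fun i hi => ?_
  have hi := Finset.mem_range.1 hi
  have i1 := pray_int hK h hi
  have i2 := pray_int hK h' hi
  have i3 := pray_int hK (POK_conv hx h h') hi
  have key := intervalIntegral.integral_mono_on zero_le_one i3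
    ((i1.const_mul (1 - x)).add (i2.const_mul x)) fun y hy => by
      have t := mul_le_mul_of_nonneg_left (psi_two hx (h i hi y hy) (h' i hi y hy))
        (sq_nonneg (sp K i y))
      unfold pray
      refine le_trans (le_of_eq ?_) (t.trans_eq (by ring))
      congr 2 <;> ring
  rw [intervalIntegral.integral_add (i1.const_mul (1 - x)) (i2.const_mul x),
    intervalIntegral.integral_const_mul, intervalIntegral.integral_const_mul] at key
  linarith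

private theorem slp_conv (g₁ g₂ v₁ v₂ g₁' g₂' v₁' v₂' : ℝ) {x : ℝ} (hx : x ∈ Icc (0 : ℝ) 1) :
    (1 - x) * min cU (cB - cK * Nq g₁ g₂ v₁ v₂) + x * min cU (cB - cK * Nq g₁' g₂' v₁' v₂') ≤
      min cU (cB - cK * Nq ((1 - x) * g₁ + x * g₁') ((1 - x) * g₂ + x * g₂') ((1 - x) * v₁ + x * v₁')
        ((1 - x) * v₂ + x * v₂')) := by
  have h0 := hx.1
  have h1 := sub_nonneg.2 hx.2
  have a1 := mul_le_mul_of_nonneg_left (min_le_left cU (cB - cK * Nq g₁ g₂ v₁ v₂)) h1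
  have a2 := mul_le_mul_of_nonneg_left (min_le_left cU (cB - cK * Nq g₁' g₂' v₁' v₂')) h0
  have a3 := mul_le_mul_of_nonneg_left (min_le_right cU (cB - cK * Nq g₁ g₂ v₁ v₂)) h1
  have a4 := mul_le_mul_of_nonneg_left (min_le_right cU (cB - cK * Nq g₁' g₂' v₁' v₂')) h0
  have e : (1 - x) * Nq g₁ g₂ v₁ v₂ + x * Nq g₁' g₂' v₁' v₂' -
      Nq ((1 - x) * g₁ + x * g₁') ((1 - x) * g₂ + x * g₂') ((1 - x) * v₁ + x * v₁')
        ((1 - x) * v₂ + x * v₂') = (1 - x) * x * (9 / 25 * ((g₁ + g₂ - g₁' - g₂') ^ 2 +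
          (g₁ - g₁') ^ 2 + (g₂ - g₂') ^ 2 + 2 * (v₁ - v₁') ^ 2 + 2 * (v₂ - v₂') ^ 2)) := by
    unfold Nq
    ring
  have p : 0 ≤ (1 - x) * x * (9 / 25 * ((g₁ + g₂ - g₁' - g₂') ^ 2 +
      (g₁ - g₁') ^ 2 + (g₂ - g₂') ^ 2 + 2 * (v₁ - v₁') ^ 2 + 2 * (v₂ - v₂') ^ 2)) := by positivity
  refine le_min (by linarith) ?_
  unfold cK at *
  linarith

private theorem hq_conv {g₁ g₂ v₁ v₂ g₁' g₂' v₁' v₂' x : ℝ} (hx : x ∈ Icc (0 : ℝ) 1)
    (h : 0 < g₁ ∧ 0 < g₂ ∧ 0 < Jq g₁ g₂ v₁ v₂) (h' : 0 < g₁' ∧ 0 < g₂' ∧ 0 < Jq g₁' g₂' v₁' v₂') :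
    ((1 - x) * g₁ + x * g₁') * ((1 - x) * g₂ + x * g₂') / Jq ((1 - x) * g₁ + x * g₁')
      ((1 - x) * g₂ + x * g₂') ((1 - x) * v₁ + x * v₁') ((1 - x) * v₂ + x * v₂') ≤
      (1 - x) * (g₁ * g₂ / Jq g₁ g₂ v₁ v₂) + x * (g₁' * g₂' / Jq g₁' g₂' v₁' v₂') := by
  obtain ⟨h1, h2, hJ⟩ := h
  obtain ⟨h1', h2', hJ'⟩ := h'
  have p1 := pos_conv hx h1 h1'
  have p2 := pos_conv hx h2 h2'
  have e : ∀ {a b A : ℝ}, 0 < a → 0 < b → a * b / (A * a * b) = 1 ^ 2 / A := fun ha hb => by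
    rw [mul_assoc, div_mul_cancel_right₀ (mul_pos ha hb).ne', one_pow, one_div]
  rw [rayF_Jq h1 h2, mul_assoc, mul_pos_iff_of_pos_right (mul_pos h1 h2)] at hJ
  rw [rayF_Jq h1' h2', mul_assoc, mul_pos_iff_of_pos_right (mul_pos h1' h2')] at hJ'
  rw [rayF_Jq p1 p2, rayF_Jq h1 h2, rayF_Jq h1' h2', e p1 p2, e h1 h2, e h1' h2']
  have t1 := titu_two (v := v₁) (v' := v₁') hx h1 h1'
  have t2 := titu_two (v := v₂) (v' := v₂') hx h2 h2'
  refine le_trans ?_ (titu_two (v := 1) (v' := 1) hx hJ hJ')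
  rw [show (1 - x) * 1 + x * 1 = 1 by ring]
  exact div_le_div_of_nonneg_left (by norm_num) (pos_conv hx hJ hJ') (by linarith)

theorem thQ_conv {th la : Bool} {g₁ g₂ v₁ v₂ g₁' g₂' v₁' v₂' x : ℝ} (hx : x ∈ Icc (0 : ℝ) 1)
    (h : la = true → 0 < g₁ ∧ 0 < g₂ ∧ 0 < Jq g₁ g₂ v₁ v₂)
    (h' : la = true → 0 < g₁' ∧ 0 < g₂' ∧ 0 < Jq g₁' g₂' v₁' v₂') :
    (1 - x) * thQ th la g₁ g₂ v₁ v₂ + x * thQ th la g₁' g₂' v₁' v₂' ≤
      thQ th la ((1 - x) * g₁ + x * g₁') ((1 - x) * g₂ + x * g₂') ((1 - x) * v₁ + x * v₁')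
        ((1 - x) * v₂ + x * v₂') := by
  have h0 := hx.1
  have h1 := sub_nonneg.2 hx.2
  unfold thQ
  cases th
  swap
  · simp only [if_true]
    linarith
  simp only [Bool.false_eq_true, if_false]
  refine le_min (le_trans ?_ (slp_conv g₁ g₂ v₁ v₂ g₁' g₂' v₁' v₂' hx)) ?_
  · exact add_le_add (mul_le_mul_of_nonneg_left (min_le_left _ _) h1)
      (mul_le_mul_of_nonneg_left (min_le_left _ _) h0)
  refine (add_le_add (mul_le_mul_of_nonneg_left (min_le_right _ _) h1)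
    (mul_le_mul_of_nonneg_left (min_le_right _ _) h0)).trans ?_
  have k : 0 ≤ cL := by norm_num [cL]
  have m : max 0 (11 / 5 - ((1 - x) * g₁ + x * g₁') - ((1 - x) * g₂ + x * g₂')) ≤
      (1 - x) * max 0 (11 / 5 - g₁ - g₂) + x * max 0 (11 / 5 - g₁' - g₂') := by
    refine max_le (by positivity) ?_
    have a1 := mul_le_mul_of_nonneg_left (le_max_right 0 (11 / 5 - g₁ - g₂)) h1
    have a2 := mul_le_mul_of_nonneg_left (le_max_right 0 (11 / 5 - g₁' - g₂')) h0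
    linarith
  have m' := mul_le_mul_of_nonneg_left m k
  cases la
  · simp only [Bool.false_eq_true, if_false]
    linarith
  · have q := mul_le_mul_of_nonneg_left (hq_conv hx (h rfl) (h' rfl)) k
    simp only [if_true]
    linarith

/-- `psi_jensen`, `Jq_convex` on two points -/
theorem VQ_conv {K : Set (Fin 2 → ℝ)} (hK : Iso K) {om th la : Bool}
    {g₁ g₂ v₁ v₂ l g₁' g₂' v₁' v₂' l' x : ℝ} (hx : x ∈ Icc (0 : ℝ) 1)
    (h : VQ K om th la g₁ g₂ v₁ v₂ l) (h' : VQ K om th la g₁' g₂' v₁' v₂' l') :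
    VQ K om th la ((1 - x) * g₁ + x * g₁') ((1 - x) * g₂ + x * g₂') ((1 - x) * v₁ + x * v₁')
      ((1 - x) * v₂ + x * v₂') ((1 - x) * l + x * l') := by
  obtain ⟨a1, a2, a3⟩ := h
  obtain ⟨b1, b2, b3⟩ := h'
  refine ⟨fun ho => POK_conv hx (a1 ho) (b1 ho), fun ht => ⟨pos_conv hx (a2 ht).1 (b2 ht).1,
    pos_conv hx (a2 ht).2.1 (b2 ht).2.1, Jq_pos_conv hx (a2 ht).1 (a2 ht).2.1 (b2 ht).1
      (b2 ht).2.1 (a2 ht).2.2 (b2 ht).2.2⟩, ?_⟩
  have e1 : (if om then IP K ((1 - x) * g₁ + x * g₁') ((1 - x) * g₂ + x * g₂')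
      ((1 - x) * v₁ + x * v₁') ((1 - x) * v₂ + x * v₂') else 0) ≤
      (1 - x) * (if om then IP K g₁ g₂ v₁ v₂ else 0) +
        x * (if om then IP K g₁' g₂' v₁' v₂' else 0) := by
    cases om
    · simp
    · simpa using IP_conv hK hx (a1 rfl) (b1 rfl)
  have e2 : (if th then Real.pi * cS * cA / Real.sqrt (Jq ((1 - x) * g₁ + x * g₁')
      ((1 - x) * g₂ + x * g₂') ((1 - x) * v₁ + x * v₁') ((1 - x) * v₂ + x * v₂')) else 0) ≤
      (1 - x) * (if th then Real.pi * cS * cA / Real.sqrt (Jq g₁ g₂ v₁ v₂) else 0) +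
        x * (if th then Real.pi * cS * cA / Real.sqrt (Jq g₁' g₂' v₁' v₂') else 0) := by
    cases th
    · simp
    · have t := Jq_two hx (a2 (.inl rfl)).1 (a2 (.inl rfl)).2.1 (b2 (.inl rfl)).1 (b2 (.inl rfl)).2.1
        (a2 (.inl rfl)).2.2 (b2 (.inl rfl)).2.2
      have hp : 0 ≤ Real.pi * cS * cA := by
        unfold cS cA
        positivity
      have t2 := mul_le_mul_of_nonneg_left t hp
      simp only [if_true]
      refine le_trans (le_of_eq ?_) (t2.trans_eq ?_) <;> ring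
  have e3 : (1 - x) * (if om then Real.pi * thQ th la g₁ g₂ v₁ v₂ / (10 * Real.sqrt 5) else 0) +
      x * (if om then Real.pi * thQ th la g₁' g₂' v₁' v₂' / (10 * Real.sqrt 5) else 0) ≤
      (if om then Real.pi * thQ th la ((1 - x) * g₁ + x * g₁') ((1 - x) * g₂ + x * g₂')
        ((1 - x) * v₁ + x * v₁') ((1 - x) * v₂ + x * v₂') / (10 * Real.sqrt 5) else 0) := by
    cases om
    · simp
    · have t := mul_le_mul_of_nonneg_left (thQ_conv (th := th) hx (fun e => a2 (.inr e))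
        fun e => b2 (.inr e))
        (by positivity : 0 ≤ Real.pi / (10 * Real.sqrt 5))
      simp only [if_true]
      refine le_trans (le_of_eq ?_) (t.trans_eq ?_) <;> ring
  have e4 := mul_le_mul_of_nonneg_right e3 (measureReal_nonneg : 0 ≤ volume.real K)
  have t := pos_conv hx (sub_pos.2 a3) (sub_pos.2 b3)
  linarith

theorem IP_eq {g₁ g₂ v₁ v₂ J : ℝ} {K : Set (Fin 2 → ℝ)} (hF : Fr g₁ g₂ v₁ v₂ J K) :
    IP K g₁ g₂ v₁ v₂ = ∫ y in K, 1 / Real.sqrt (Rq g₁ g₂ v₁ v₂ y) ^ 3 := by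
  have hc : Continuous fun y : Fin 2 → ℝ => 1 / Real.sqrt (Rq g₁ g₂ v₁ v₂ y) ^ 3 := by
    refine Continuous.div continuous_const (by unfold Rq; fun_prop) fun y => ?_
    exact pow_ne_zero 3 (Real.sqrt_pos.2 (lt_of_lt_of_le (by norm_num) (hF.low y))).ne'
  rw [fan56 hF.iso hc]
  unfold IP
  refine Finset.sum_congr rfl fun i _ => ?_
  congr 2
  funext x
  exact (rayI_phi g₁ g₂ v₁ v₂ (ep i x) rfl).symm

private theorem c1_split {K : Set (Fin 2 → ℝ)} (hK : Iso K) (g₁ g₂ v₁ v₂ : ℝ) (i : Fin 2) :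
    ∫ y in K, y i * Rq g₁ g₂ v₁ v₂ y = (5 - g₁ - g₂) * (∫ y in K, y i) +
      2 * v₁ * (∫ y in K, y i * y 0) + 2 * v₂ * (∫ y in K, y i * y 1) +
      g₁ * (∫ y in K, y i * y 0 ^ 2) + g₂ * (∫ y in K, y i * y 1 ^ 2) := by
  have hI : ∀ f : (Fin 2 → ℝ) → ℝ, Continuous f → Integrable f (volume.restrict K) :=
    fun f hf => hf.continuousOn.integrableOn_compact hK.cpt
  simp only [← integral_const_mul]
  rw [← integral_add (hI _ (by fun_prop)) (hI _ (by fun_prop)),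
    ← integral_add (hI _ (by fun_prop)) (hI _ (by fun_prop)),
    ← integral_add (hI _ (by fun_prop)) (hI _ (by fun_prop)),
    ← integral_add (hI _ (by fun_prop)) (hI _ (by fun_prop))]
  congr 1
  funext y
  unfold Rq
  ring

theorem rw_zero {g₁ g₂ v₁ v₂ J : ℝ} {K : Set (Fin 2 → ℝ)} (hF : Fr g₁ g₂ v₁ v₂ J K) :
    rw₁ K g₁ g₂ v₁ = 0 ∧ rw₂ K g₁ g₂ v₂ = 0 := by
  have h0 := hF.c1 0
  have h1 := hF.c1 1
  rw [c1_split hF.iso, hF.iso.m1, hF.iso.m2, hF.iso.m2] at h0 h1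
  simp only [if_true, Fin.zero_ne_one, Fin.zero_ne_one.symm, if_false, mul_zero, add_zero,
    zero_add] at h0 h1
  have e1 : mo K 3 0 = ∫ y in K, y 0 * y 0 ^ 2 := by
    unfold mo
    congr 1
    funext y
    ring
  have e2 : mo K 1 2 = ∫ y in K, y 0 * y 1 ^ 2 := by
    unfold mo
    congr 1
    funext y
    ring
  have e3 : mo K 2 1 = ∫ y in K, y 1 * y 0 ^ 2 := by
    unfold mo
    congr 1
    funext y
    ring
  have e4 : mo K 0 3 = ∫ y in K, y 1 * y 1 ^ 2 := by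
    unfold mo
    congr 1
    funext y
    ring
  unfold rw₁ rw₂
  rw [e1, e2, e3, e4]
  exact ⟨h0, h1⟩

theorem goal_of_VQ {g₁ g₂ v₁ v₂ J : ℝ} {K : Set (Fin 2 → ℝ)} (hF : Fr g₁ g₂ v₁ v₂ J K) {th la : Bool}
    (h : VQ K true th la g₁ g₂ v₁ v₂ 0) :
    J * ∫ y in K, 1 / Real.sqrt (Rq g₁ g₂ v₁ v₂ y) ^ 3 ≤
        Real.pi * (min (min cU (cB - cK * Nq g₁ g₂ v₁ v₂)) (cT + cL * (4 - Phq g₁ g₂ v₁ v₂) / 3) *
          (J * volume.real K / (10 * Real.sqrt 5))) ∨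
      J * ∫ y in K, 1 / Real.sqrt (Rq g₁ g₂ v₁ v₂ y) ^ 3 ≤
        Real.pi * (cU * (J * volume.real K / (10 * Real.sqrt 5)) +
          cS * (J * volume.real K / (10 * Real.sqrt 5) - cA)) := by
  have h3 := h.2.2
  have hJ := hF.Jpos
  rw [← IP_eq hF]
  have hs : Real.sqrt (Jq g₁ g₂ v₁ v₂) = J := by rw [← hF.Jsq, Real.sqrt_sq hJ.le]
  cases th
  · simp only [if_true, Bool.false_eq_true, if_false, add_zero] at h3
    have t := mul_le_mul_of_nonneg_left h3.le hJ.le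
    have h2 := hF.g2pos
    have h1 := h2.trans_le hF.g12
    have k : 0 ≤ cL := by norm_num [cL]
    have q : thQ false la g₁ g₂ v₁ v₂ ≤
        min (min cU (cB - cK * Nq g₁ g₂ v₁ v₂)) (cT + cL * (4 - Phq g₁ g₂ v₁ v₂) / 3) := by
      simp only [thQ, Bool.false_eq_true, if_false, Phq]
      refine min_le_min_left _ ?_
      cases la
      · have a := hF.low ![-v₁ / g₁, -v₂ / g₂]
        have b : Rq g₁ g₂ v₁ v₂ ![-v₁ / g₁, -v₂ / g₂] * (g₁ * g₂) = Jq g₁ g₂ v₁ v₂ := by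
          simp only [Rq, Jq, Matrix.cons_val_zero, Matrix.cons_val_one]
          field_simp
          ring
        have c : g₁ * g₂ / Jq g₁ g₂ v₁ v₂ ≤ 3 / 5 := by
          rw [div_le_iff₀ (hF.Jsq ▸ pow_pos hJ 2), ← b]
          linarith [mul_le_mul_of_nonneg_right a (mul_pos h1 h2).le]
        have d := mul_le_mul_of_nonneg_left c k
        simp only [Bool.false_eq_true, if_false]
        linarith
      · simp only [if_true]
        linarith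
    refine .inl (t.trans (le_trans (le_of_eq ?_) (mul_le_mul_of_nonneg_left
      (mul_le_mul_of_nonneg_right q (by positivity)) Real.pi_pos.le)))
    ring
  · simp only [if_true, add_zero, hs, thQ] at h3
    have t := mul_le_mul_of_nonneg_left h3.le hJ.le
    have e : J * (Real.pi * cS * cA / J) = Real.pi * cS * cA := by field_simp
    rw [mul_add, e] at t
    refine .inr ((le_sub_iff_add_le.2 t).trans_eq ?_)
    ring

end Pool.Agent.P.MP_2e1554_gt.Chk
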