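import Pool.Agent.P.MP_2e1554_gt.IsoStar

/-! Tests on a box of parameters. -/

open MeasureTheory Set Finset

namespace Pool.Agent.P.MP_2e1554_gt.Chk

theorem sq_eq (x : ℤ) : (sq x : ℝ) = (x : ℝ) ^ 2 := by
  unfold sq
  rw [Nat.cast_mul, Nat.cast_natAbs, Int.cast_abs, abs_mul_abs_self, pow_two]

theorem Gq_seg {g₁ g₂ : ℝ} (h1 : 0 ≤ g₁) (h2 : 0 ≤ g₂) (a b δ : Fin 2 → ℝ)
    (hδ : δ = b - a ∨ δ = a - b) {x : ℝ} (hx : x ∈ Icc (0 : ℝ) 1) :
    (1 - x) * (Gq g₁ g₂ a - Gq g₁ g₂ δ / 4) + x * (Gq g₁ g₂ b - Gq g₁ g₂ δ / 4) ≤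
      Gq g₁ g₂ ((1 - x) • a + x • b) := by
  have e1 := mul_nonneg (mul_nonneg h1 (sq_nonneg (b 0 - a 0))) (sq_nonneg (x - 1 / 2))
  have e2 := mul_nonneg (mul_nonneg h2 (sq_nonneg (b 1 - a 1))) (sq_nonneg (x - 1 / 2))
  rcases hδ with rfl | rfl <;>
    simp only [Gq, Pi.add_apply, Pi.sub_apply, Pi.smul_apply, smul_eq_mul] <;> linarith

theorem Rq_seg {g₁ g₂ : ℝ} (h1 : 0 ≤ g₁) (h2 : 0 ≤ g₂) (v₁ v₂ : ℝ) (a b : Fin 2 → ℝ) {x : ℝ}
    (hx : x ∈ Icc (0 : ℝ) 1) :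
    Rq g₁ g₂ v₁ v₂ ((1 - x) • a + x • b) ≤ (1 - x) * Rq g₁ g₂ v₁ v₂ a + x * Rq g₁ g₂ v₁ v₂ b ∧
      (1 - x) * Rq g₁ g₂ v₁ v₂ a + x * Rq g₁ g₂ v₁ v₂ b - Gq g₁ g₂ (b - a) / 4 ≤
        Rq g₁ g₂ v₁ v₂ ((1 - x) • a + x • b) := by
  have e1 := mul_nonneg (mul_nonneg h1 (sq_nonneg (b 0 - a 0))) (sq_nonneg (x - 1 / 2))
  have e2 := mul_nonneg (mul_nonneg h2 (sq_nonneg (b 1 - a 1))) (sq_nonneg (x - 1 / 2))
  have e0 := mul_nonneg hx.1 (sub_nonneg.2 hx.2)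
  have e3 := mul_nonneg (mul_nonneg h1 (sq_nonneg (b 0 - a 0))) e0
  have e4 := mul_nonneg (mul_nonneg h2 (sq_nonneg (b 1 - a 1))) e0
  simp only [Rq, Gq, Pi.add_apply, Pi.sub_apply, Pi.smul_apply, smul_eq_mul]
  constructor <;> linarith

theorem opb_sign {lo hi w : ℝ} (h1 : lo ≤ w) (h2 : w ≤ hi) (x : ℤ) :
    lo * (x.toNat : ℝ) - hi * ((-x).toNat : ℝ) ≤ w * x ∧
      w * x ≤ hi * (x.toNat : ℝ) - lo * ((-x).toNat : ℝ) := by
  have h : (x : ℝ) = (x.toNat : ℝ) - ((-x).toNat : ℝ) := by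
    exact_mod_cast (Int.toNat_sub_toNat_neg x).symm
  have a1 : (0 : ℝ) ≤ (x.toNat : ℝ) := Nat.cast_nonneg _
  have a2 : (0 : ℝ) ≤ ((-x).toNat : ℝ) := Nat.cast_nonneg _
  have b1 := mul_le_mul_of_nonneg_right h1 a1
  have b2 := mul_le_mul_of_nonneg_right h1 a2
  have b3 := mul_le_mul_of_nonneg_right h2 a1
  have b4 := mul_le_mul_of_nonneg_right h2 a2
  rw [h]
  constructor <;> linarith

theorem opb_R (c1 c2 v₁ v₂ x y : ℝ) :
    SG * 25165824 ^ 2 * (15 - Rq (c1 / SG) (c2 / SG) v₁ v₂ ![x / 25165824, y / 25165824]) =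
      59767450798818947235840 + (c1 + c2) * 633318697598976 -
        50331648 * (SG * v₁ * x + SG * v₂ * y) - (c1 * x ^ 2 + c2 * y ^ 2) := by
  simp only [Rq, SG_eq, Matrix.cons_val_zero, Matrix.cons_val_one]
  ring

theorem opb_G (c1 c2 x y T : ℝ) (hT : T ≠ 0) :
    SG * T ^ 2 * Gq (c1 / SG) (c2 / SG) ![x / T, y / T] = c1 * x ^ 2 + c2 * y ^ 2 := by
  simp only [Gq, SG_eq, Matrix.cons_val_zero, Matrix.cons_val_one]
  field_simp

theorem opb_Rc (a b a' b' x v₁ v₂ : ℝ) (f : Fin 2 → ℝ) :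
    Rq (((1 - x) * a + x * a') / SG) (((1 - x) * b + x * b') / SG) v₁ v₂ f =
      (1 - x) * Rq (a / SG) (b / SG) v₁ v₂ f + x * Rq (a' / SG) (b' / SG) v₁ v₂ f := by
  simp only [Rq]
  ring

theorem opb_Gc (a b a' b' x : ℝ) (f : Fin 2 → ℝ) :
    Gq (((1 - x) * a + x * a') / SG) (((1 - x) * b + x * b') / SG) f =
      (1 - x) * Gq (a / SG) (b / SG) f + x * Gq (a' / SG) (b' / SG) f := by
  simp only [Gq]
  ring

theorem opb_lt {c a a' x : ℝ} (hx : x ∈ Icc (0 : ℝ) 1) (h : c < a) (h' : c < a') :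
    c < (1 - x) * a + x * a' := by
  rcases le_total a a' with h1 | h1
  · have := mul_nonneg hx.1 (sub_nonneg.2 h1)
    linarith
  · have := mul_nonneg (sub_nonneg.2 hx.2) (sub_nonneg.2 h1)
    linarith

theorem opb_le {c a a' x : ℝ} (hx : x ∈ Icc (0 : ℝ) 1) (h : a ≤ c) (h' : a' ≤ c) :
    (1 - x) * a + x * a' ≤ c := by
  have h1 := mul_nonneg hx.1 (sub_nonneg.2 h')
  have h2 := mul_nonneg (sub_nonneg.2 hx.2) (sub_nonneg.2 h)
  linarith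

theorem opb_div (g : ℝ) : SG * g / SG = g := by
  rw [SG_eq]
  ring

/-- at a corner `(c1, c2)` of the star, with the true `v` -/
theorem eLow_le {G : Gx} {B : Bx} {g₁ g₂ v₁ v₂ : ℝ} (hR : Rng G B g₁ g₂ v₁ v₂) (fx fy : ℤ)
    {t c1 c2 : ℕ} (ht : (c1 : ℝ) + c2 = t) (h : 0 < eLow G B fx fy t c1 c2) :
    (eLow G B fx fy t c1 c2 : ℝ) ≤ SG * 25165824 ^ 2 *
      (15 - Rq (c1 / SG) (c2 / SG) v₁ v₂ ![fx / 25165824, fy / 25165824]) := by
  obtain ⟨-, a1, a2, a3, a4⟩ := hR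
  have b1 := (opb_sign a1 a2 fx).2
  have b2 := (opb_sign a3 a4 fy).2
  rw [opb_R, ht]
  unfold eLow at h ⊢
  rw [Nat.cast_sub (Nat.sub_pos_iff_lt.1 h).le]
  simp only [Nat.cast_add, Nat.cast_mul, Nat.cast_ofNat, sq_eq]
  linarith

/-- `star_ind` with `prod_conv` -/
theorem ge_spec {G : Gx} {B : Bx} (hB : okB B = true) {g₁ g₂ v₁ v₂ : ℝ} (hg : 0 < g₁ + g₂)
    (hR : Rng G B g₁ g₂ v₁ v₂) {fl : Bool} {dx dy δx δy fx fy : ℤ}
    (h : ge G B fl dx dy δx δy fx fy = true) :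
    0 < Gq g₁ g₂ ![dx / 1572864, dy / 1572864] - Gq g₁ g₂ ![δx / 1572864, δy / 1572864] / 4 ∧
    (if fl then 40001 / 100 else 40821 / 100 : ℝ) <
      (Gq g₁ g₂ ![dx / 1572864, dy / 1572864] - Gq g₁ g₂ ![δx / 1572864, δy / 1572864] / 4) *
        (15 - Rq g₁ g₂ v₁ v₂ ![fx / 25165824, fy / 25165824]) ∧
    (fl = true → Rq g₁ g₂ v₁ v₂ ![fx / 25165824, fy / 25165824] ≤ 11 / 4) := by
  have hc : (0 : ℝ) ≤ (if fl then 40001 / 100 else 40821 / 100 : ℝ) := by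
    split_ifs <;> norm_num
  have key := star_ind hB hg hR.1 (fun a b =>
    0 < Gq (a / SG) (b / SG) ![dx / 1572864, dy / 1572864] -
      Gq (a / SG) (b / SG) ![δx / 1572864, δy / 1572864] / 4 ∧
    (if fl then 40001 / 100 else 40821 / 100 : ℝ) <
      (Gq (a / SG) (b / SG) ![dx / 1572864, dy / 1572864] -
        Gq (a / SG) (b / SG) ![δx / 1572864, δy / 1572864] / 4) *
        (15 - Rq (a / SG) (b / SG) v₁ v₂ ![fx / 25165824, fy / 25165824]) ∧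
    (fl = true → Rq (a / SG) (b / SG) v₁ v₂ ![fx / 25165824, fy / 25165824] ≤ 11 / 4))
    (fun a b a' b' x hx h1 h2 => ?_) fun t f ht hf hcg => ?_
  · simpa only [opb_div] using key
  · rw [opb_Rc, opb_Gc, opb_Gc]
    refine ⟨?_, ?_, fun hfl => opb_le hx (h1.2.2 hfl) (h2.2.2 hfl)⟩
    · have := opb_lt hx h1.1 h2.1
      linarith
    · refine (prod_conv hx hc h1.1 h2.1 h1.2.1 h2.2.1).trans_eq ?_
      ring
  · have h1 := all4_iff h ht hf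
    simp only [Bool.and_eq_true, Nat.blt_eq, Bool.or_eq_true, Bool.not_eq_true', Nat.ble_eq] at h1
    obtain ⟨h1, h2⟩ := h1
    have h3 := Nat.pos_of_mul_pos_left (Nat.zero_lt_of_lt h1)
    have h4 := Nat.pos_of_mul_pos_left h3
    have h5 := Nat.pos_of_mul_pos_right h3
    have h6 := eLow_le hR fx fy hcg h4
    have h7 : ((4 * (cg1 t f * sq dx + cg2 t f * sq dy) - (cg1 t f * sq δx + cg2 t f * sq δy) : ℕ) : ℝ) =
        4 * SG * 1572864 ^ 2 * (Gq (cg1 t f / SG) (cg2 t f / SG) ![dx / 1572864, dy / 1572864] -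
          Gq (cg1 t f / SG) (cg2 t f / SG) ![δx / 1572864, δy / 1572864] / 4) := by
      have e1 := opb_G (cg1 t f) (cg2 t f) dx dy 1572864 (by norm_num)
      have e2 := opb_G (cg1 t f) (cg2 t f) δx δy 1572864 (by norm_num)
      rw [Nat.cast_sub (Nat.sub_pos_iff_lt.1 h5).le]
      simp only [Nat.cast_add, Nat.cast_mul, Nat.cast_ofNat, sq_eq]
      linarith
    have h8 : (((bif fl then 40001 else 40821 : ℕ) : ℝ)) =
        100 * (if fl then 40001 / 100 else 40821 / 100 : ℝ) := by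
      cases fl <;> norm_num
    have h9 := (Nat.cast_lt (α := ℝ)).2 h1
    have h10 := (Nat.cast_pos (α := ℝ)).2 h5
    rw [Nat.cast_mul, Nat.cast_mul, Nat.cast_mul, h7, h8, Nat.cast_ofNat, Nat.cast_ofNat] at h9
    rw [h7] at h10
    generalize Gq (cg1 t f / SG) (cg2 t f / SG) ![dx / 1572864, dy / 1572864] -
      Gq (cg1 t f / SG) (cg2 t f / SG) ![δx / 1572864, δy / 1572864] / 4 = A at *
    generalize Rq (cg1 t f / SG) (cg2 t f / SG) v₁ v₂ ![fx / 25165824, fy / 25165824] = R at *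
    rw [SG_eq] at h6 h9 h10
    have hA : 0 < A := by linarith
    have h11 := mul_le_mul_of_nonneg_left h6 hA.le
    refine ⟨hA, by linarith, fun hfl => ?_⟩
    have h12 := (Nat.cast_le (α := ℝ)).2 (h2.resolve_left (by simp [hfl]))
    rw [Nat.cast_mul, Nat.cast_ofNat, Nat.cast_ofNat] at h12
    linarith

theorem rd_spec {G : Gx} {B : Bx} (hB : okB B = true) {g₁ g₂ v₁ v₂ : ℝ} (hg : 0 < g₁ + g₂)
    (hR : Rng G B g₁ g₂ v₁ v₂) {fx fy δx δy : ℤ} (h : rd G B fx fy δx δy = true) :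
    15 < Rq g₁ g₂ v₁ v₂ ![fx / 25165824, fy / 25165824] -
      Gq g₁ g₂ ![δx / 25165824, δy / 25165824] / 4 := by
  have key := star_ind hB hg hR.1 (fun a b =>
    15 < Rq (a / SG) (b / SG) v₁ v₂ ![fx / 25165824, fy / 25165824] -
      Gq (a / SG) (b / SG) ![δx / 25165824, δy / 25165824] / 4)
    (fun a b a' b' x hx h1 h2 => ?_) fun t f ht hf hcg => ?_
  · simpa only [opb_div] using key
  · rw [opb_Rc, opb_Gc]
    have := opb_lt hx h1 h2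
    linarith
  · obtain ⟨-, a1, a2, a3, a4⟩ := hR
    have b1 := (opb_sign a1 a2 fx).1
    have b2 := (opb_sign a3 a4 fy).1
    have h1 := all4_iff h ht hf
    rw [Nat.blt_eq] at h1
    have h2 := (Nat.cast_lt (α := ℝ)).2 h1
    simp only [Nat.cast_add, Nat.cast_mul, Nat.cast_ofNat, sq_eq] at h2
    have e1 := opb_R (cg1 t f) (cg2 t f) v₁ v₂ fx fy
    have e2 := opb_G (cg1 t f) (cg2 t f) δx δy 25165824 (by norm_num)
    rw [hcg] at e1
    generalize Gq (cg1 t f / SG) (cg2 t f / SG) ![δx / 25165824, δy / 25165824] = A at *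
    generalize Rq (cg1 t f / SG) (cg2 t f / SG) v₁ v₂ ![fx / 25165824, fy / 25165824] = R at *
    rw [SG_eq] at e1 e2 b1 b2
    linarith

theorem opb_out {G : Gx} {B : Bx} {g₁ g₂ v₁ v₂ J : ℝ} {K : Set (Fin 2 → ℝ)}
    (hF : Fr g₁ g₂ v₁ v₂ J K) (hR : Rng G B g₁ g₂ v₁ v₂) (fx fy : ℤ) (hB : okB B = true)
    (h : all4 B (fun t g1 g2 => Nat.blt 239069803195275788943360 (3 * eLow G B fx fy t g1 g2)) =
      true) : False := by
  have hg : 0 < g₁ + g₂ := by linarith [hF.g12, hF.g2pos]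
  have key := star_ind hB hg hR.1 (fun a b =>
    40 / 3 < 15 - Rq (a / SG) (b / SG) v₁ v₂ ![fx / 25165824, fy / 25165824])
    (fun a b a' b' x hx h1 h2 => ?_) fun t f ht hf hcg => ?_
  · simp only [opb_div] at key
    linarith [hF.low ![fx / 25165824, fy / 25165824]]
  · rw [opb_Rc]
    have := opb_lt hx h1 h2
    linarith
  · have h1 := all4_iff h ht hf
    rw [Nat.blt_eq] at h1
    have h6 := eLow_le hR fx fy hcg (Nat.pos_of_mul_pos_left (Nat.zero_lt_of_lt h1))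
    have h2 := (Nat.cast_lt (α := ℝ)).2 h1
    rw [Nat.cast_mul, Nat.cast_ofNat, Nat.cast_ofNat] at h2
    generalize Rq (cg1 t f / SG) (cg2 t f / SG) v₁ v₂ ![fx / 25165824, fy / 25165824] = R at *
    rw [SG_eq] at h6
    linarith

theorem out_spec {G : Gx} {B : Bx} {g₁ g₂ v₁ v₂ J : ℝ} {K : Set (Fin 2 → ℝ)}
    (hF : Fr g₁ g₂ v₁ v₂ J K) (hR : Rng G B g₁ g₂ v₁ v₂) {a b : ℕ} (h : outB G B a b = true) :
    False := by
  rw [outB, Bool.and_eq_true] at h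
  exact opb_out hF hR _ _ h.1 h.2

/-- the chord inequality in the form used by both chord operations -/
theorem ch_le {g₁ g₂ v₁ v₂ J : ℝ} {K : Set (Fin 2 → ℝ)} (hF : Fr g₁ g₂ v₁ v₂ J K) {y z f : Fin 2 → ℝ}
    (hy : y ∈ K) (hz : z ∈ K) {t : ℝ} (hf : f = y + t • (z - y)) {fl : Bool}
    (h : fl = true → Rq g₁ g₂ v₁ v₂ f ≤ 11 / 4) :
    Gq g₁ g₂ (y - z) * (15 - Rq g₁ g₂ v₁ v₂ f) ≤ (if fl then 40001 / 100 else 40821 / 100 : ℝ) := by
  subst hf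
  cases fl
  · exact hF.ch2 y hy z hz t
  · exact hF.ch1 y hy z hz t (h rfl)

end Pool.Agent.P.MP_2e1554_gt.Chk
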