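import Pool.Agent.P.MP_2e1554_gt.IsoSqB

/-! The rows of the table of the potential. -/

open MeasureTheory Set Finset

namespace Pool.Agent.P.MP_2e1554_gt.Chk

private theorem newt_sq (Q g : ℕ) : ((newt Q g : ℕ) : ℝ) ^ 2 ≤ Q := sqrt_newton

/-- `psi_le` with `p/√Z`, `64 r/√Z`, `Z = 3538944² = SG·1327104` -/
theorem uval_psi {p y r u : ℕ} {a B C : ℝ} (hp : 0 < p) (hpa : (p : ℝ) ^ 2 ≤ a * 3538944 ^ 2)
    (hr : (64 * r : ℝ) ^ 2 ≤ max 0 ((a + 2 * B + C) * 3538944 ^ 2))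
    (hab : 64 * (y : ℝ) = 2 ^ 49 + (a + B) * 3538944 ^ 2)
    (h : 2 ^ 95 * 2187 ≤ u * (4096 * (r * y + p * (r * r) - r * 2 ^ 43))) :
    PsiOK a B C ∧ 2 ^ 50 / 576 * Psi a B C ≤ u := by
  obtain ⟨D, hD⟩ : ∃ D, D = r * y + p * (r * r) - r * 2 ^ 43 := ⟨_, rfl⟩
  rw [← hD] at h
  have h1 : D ≠ 0 := by
    rintro rfl
    norm_num at h
  have hr0 : r ≠ 0 := by
    rintro rfl
    simp at hD
    exact h1 hD
  have h3 : D + r * 2 ^ 43 = r * y + p * (r * r) := by omega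
  have h4 : (D : ℝ) + r * 2 ^ 43 = r * y + p * (r * r) := by exact_mod_cast h3
  have hp' : (0 : ℝ) < p := by exact_mod_cast hp
  have hr' : (0 : ℝ) < r := by exact_mod_cast Nat.pos_of_ne_zero hr0
  have hD' : (0 : ℝ) < D := by exact_mod_cast Nat.pos_of_ne_zero h1
  have hr1 : (64 * r : ℝ) ^ 2 ≤ (a + 2 * B + C) * 3538944 ^ 2 :=
    (le_max_iff.1 hr).resolve_left (not_le.2 (by positivity))
  have e : (p : ℝ) / 3538944 * (64 * r / 3538944) + a + B = 64 * D / r / 3538944 ^ 2 := by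
    rw [eq_div_iff (by positivity), eq_div_iff hr'.ne']
    linear_combination (-64) * h4 - r * hab
  obtain ⟨h5, h6⟩ := psi_le (a := a) (B := B) (C := C) (p := p / 3538944) (r := 64 * r / 3538944)
    (by positivity) (by positivity) (by rw [div_pow, div_le_iff₀ (by positivity)]; exact hpa)
    (by rw [div_pow, div_le_iff₀ (by positivity)]; exact hr1) (by rw [e]; positivity)
  refine ⟨h5, ?_⟩
  rw [e] at h6
  have h7 : (2 : ℝ) ^ 95 * 2187 ≤ u * (4096 * D) := by exact_mod_cast h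
  have h9 : (2 : ℝ) ^ 50 / 576 * (1 / (64 * r / 3538944 * (64 * D / r / 3538944 ^ 2))) =
      2 ^ 95 * 2187 / (4096 * D) := by
    field_simp
    norm_num
  refine (mul_le_mul_of_nonneg_left h6 (by positivity)).trans ?_
  rw [h9, div_le_iff₀ (by positivity)]
  exact h7

private theorem O56_spec : Bd O56 56 1 ∧ ∀ i < 56, dg O56 i = 1 := by
  rw [O56_eq]
  exact ⟨Bd.pk (by norm_num) fun _ _ => le_rfl, fun i hi => by
    rw [dg_pk fun _ _ => by norm_num, if_pos hi]⟩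

private theorem lin2 {P Q N a b g1 g2 : ℕ} (hP : Bd P N a) (hQ : Bd Q N b)
    (h : g1 * a + g2 * b < 2 ^ 64) : Bd (g1 * P + g2 * Q) N (g1 * a + g2 * b) ∧
      ∀ i, dg (g1 * P + g2 * Q) i = g1 * dg P i + g2 * dg Q i := by
  obtain ⟨h1, h2⟩ := hP.smul (c := g1) (by omega)
  obtain ⟨h3, h4⟩ := hQ.smul (c := g2) (by omega)
  obtain ⟨h5, h6⟩ := h1.add h3 h
  exact ⟨h5, fun i => by rw [h6, h2, h4]⟩

private theorem lanesY {BV O d c2 c3 : ℕ} (hBV : Bd BV 56 d) (hO : Bd O 56 1)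
    (h : c2 * d + c3 < 2 ^ 64) :
    BV * c2 + c3 * O < 2 ^ (64 * 56) ∧ ∀ i, dg (BV * c2 + c3 * O) i = c2 * dg BV i + c3 * dg O i := by
  rw [mul_comm BV]
  exact ⟨(lin2 hBV hO (by omega)).1.1, (lin2 hBV hO (by omega)).2⟩

private theorem lanesX {GP GM BV O a b d c1 c2 c3 c4 : ℕ} (hGP : Bd GP 56 a) (hGM : Bd GM 56 b)
    (hBV : Bd BV 56 d) (hO : Bd O 56 1) (hO1 : ∀ i < 56, dg O i = 1)
    (h : c1 * a + c2 * d + c3 < 2 ^ 64) (h' : c4 * b ≤ c3) :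
    Bd (GP * c1 + BV * c2 + c3 * O - GM * c4) 56 (c1 * a + c2 * d + c3) ∧
    ∀ i < 56, dg (GP * c1 + BV * c2 + c3 * O - GM * c4) i + c4 * dg GM i =
      c1 * dg GP i + c2 * dg BV i + c3 := by
  rw [mul_comm GP, mul_comm BV, mul_comm GM]
  obtain ⟨h1, h2⟩ := lin2 (g1 := c1) (g2 := c2) hGP hBV (by omega)
  obtain ⟨h3, h4⟩ := hO.smul (c := c3) (by omega)
  obtain ⟨h5, h6⟩ := h1.add h3 (by omega)
  obtain ⟨h7, h8⟩ := hGM.smul (c := c4) (by omega)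
  have h9 : ∀ i, dg (c4 * GM) i ≤ dg (c1 * GP + c2 * BV + c3 * O) i := fun i => by
    rcases lt_or_ge i 56 with hi | hi
    · have := h7.2 i
      rw [h6, h4, hO1 i hi]
      omega
    · rw [dg_of_ge h7.1 hi]
      exact Nat.zero_le _
  refine ⟨(h5.sub h7 h9).1.mono le_rfl (by omega), fun i hi => ?_⟩
  rw [(h5.sub h7 h9).2, ← h8, Nat.sub_add_cancel (h9 i), h6, h2, h4, hO1 i hi, mul_one]

private theorem pred_succ_sq {Q q : ℕ} (hQ : 1 ≤ Q) (h : (q : ℝ) ^ 2 ≤ Q) :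
    ((q - 1 + 1 : ℕ) : ℝ) ^ 2 ≤ Q := by
  rcases Nat.eq_zero_or_pos q with rfl | hq
  · simpa using hQ
  · rwa [Nat.sub_add_cancel hq]

/-- lanes of `X` and `Y` in `urow` by `Bd.add`, `Bd.smul`, `Bd.sub` and `EXP_spec`:
lane of `X` = OFF + (a + 2 tB + tC) Z, lane of `Y` = OFF + (a + tB) Z -/
theorem uT_spec {g1 g2 v1 v2 : ℕ} (hg : g1 + g2 ≤ 31457280) (h1 : v1 ≤ 37748736)
    (h2 : v2 ≤ 37748736) {k : ℕ} (hk : k < 20) : Bd (uT g1 g2 v1 v2 k) 56 (2 ^ 50 + 1) ∧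
      ∀ i < 56, dg (uT g1 g2 v1 v2 k) i < 2 ^ 50 →
        PsiOK (5 - g1 / SG - g2 / SG) (tB v1 v2 k i) (tC g1 g2 k i) ∧
          2 ^ 50 / 576 * Psi (5 - g1 / SG - g2 / SG) (tB v1 v2 k i) (tC g1 g2 k i) ≤
            dg (uT g1 g2 v1 v2 k) i := by
  have hSG : SG = 9437184 := rfl
  have hOO : OO = 18874368 := rfl
  have hOFF : OFF = 4503599627370496 := rfl
  unfold uT
  obtain ⟨aZ, haZ⟩ : ∃ aZ, aZ = (5 * SG - g1 - g2) * 1327104 := ⟨_, rfl⟩
  rw [← haZ]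
  have hp := pred_succ_sq (Q := aZ) (by omega) (newt_sq aZ (nw aZ (nw aZ (nw aZ 6000000))))
  have hp0 : 0 < newt aZ (nw aZ (nw aZ (nw aZ 6000000))) - 1 + 1 := Nat.succ_pos _
  have hp1 : newt aZ (nw aZ (nw aZ (nw aZ 6000000))) - 1 + 1 ≤ 2 ^ 23 := by
    have t1 : (aZ : ℝ) ≤ ((2 ^ 23 : ℕ) : ℝ) ^ 2 := by
      have : aZ ≤ (2 ^ 23) ^ 2 := by omega
      exact_mod_cast this
    exact Nat.cast_le.1 (abs_le_of_sq_le_sq' (hp.trans t1) (Nat.cast_nonneg _)).2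
  generalize newt aZ (nw aZ (nw aZ (nw aZ 6000000))) - 1 + 1 = p at hp hp0 hp1 ⊢
  obtain ⟨aY, haY⟩ : ∃ aY, aY = (5 * SG - g1 - g2) * 20736 := ⟨_, rfl⟩
  rw [← haY]
  obtain ⟨cB, hcB⟩ : ∃ cB, cB = 96 * SG + 24 * (v1 + v2) := ⟨_, rfl⟩
  rw [← hcB]
  obtain ⟨a1, a2⟩ := lin2 (g1 := g1) (g2 := g2) XP_bd YP_bd (by omega)
  obtain ⟨b1, b2⟩ := lin2 (g1 := g1) (g2 := g2) XM_bd YM_bd (by omega)
  obtain ⟨d1, d2⟩ := lin2 (g1 := v1) (g2 := v2) EXP_bd EYP_bd (by omega)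
  obtain ⟨d3, d4⟩ := d1.add OE_bd (by omega)
  have a3 := a1.mono (b' := 72477573120) le_rfl (by omega)
  have b3 := b1.mono (b' := 283115520) le_rfl (by omega)
  have d5 := d3.mono (b' := 5435817984) le_rfl (by omega)
  clear a1 b1 d1 d3
  generalize g1 * XP + g2 * YP = GP at a2 a3 ⊢
  generalize g1 * XM + g2 * YM = GM at b2 b3 ⊢
  generalize v1 * EXP + v2 * EYP + OE = BV at d4 d5 ⊢
  have m1 : ∀ k < 20, 4 * (15 + k) * (15 + k) ≤ 4 * 34 * 34 := fun k hk =>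
    Nat.mul_le_mul (by omega) (by omega)
  have m2 : ∀ k, 4 * 1 * 1 ≤ 4 * (15 + k) * (15 + k) := fun k => Nat.mul_le_mul (by omega) (by omega)
  have m3 : ∀ k < 20, cB * (9216 * (15 + k)) ≤ 2717908992 * (9216 * 34) := fun k hk =>
    Nat.mul_le_mul (by omega) (by omega)
  have m4 : ∀ k < 20, cB * (72 * (15 + k)) ≤ 2717908992 * (72 * 34) := fun k hk =>
    Nat.mul_le_mul (by omega) (by omega)
  have hX := fun k (hk : k < 20) => lanesX (c1 := 4 * (15 + k) * (15 + k) - 1) (c2 := 9216 * (15 + k))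
    (c3 := OFF + aZ - cB * (9216 * (15 + k))) (c4 := 4 * (15 + k) * (15 + k)) a3 b3 d5 O56_spec.1
    O56_spec.2 (by have := m1 k hk; omega) (by have := m1 k hk; have := m3 k hk; omega)
  have hY := fun k (hk : k < 20) => lanesY (c2 := 72 * (15 + k))
    (c3 := 8796093022208 + aY - cB * (72 * (15 + k))) d5 O56_spec.1 (by omega)
  have hBV : ∀ i < 56, dg BV i ≤ cB + 905969664 := fun i hi => by
    obtain ⟨e1, e2, e3⟩ := EXP_spec i hi
    have t1 := EXP_bd.2 i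
    have t2 := EYP_bd.2 i
    have t3 : ∀ v a : ℕ, v ≤ 37748736 → a ≤ 48 → v * a ≤ 24 * v + 18874368 * a := fun v a hv ha => by
      rcases le_total a 24 with c | c
      · have := Nat.mul_le_mul_left v c
        omega
      · obtain ⟨e, rfl⟩ := Nat.exists_eq_add_of_le c
        have := Nat.mul_le_mul_right e hv
        rw [Nat.mul_add]
        omega
    have t4 := t3 v1 _ h1 t1
    have t5 := t3 v2 _ h2 t2
    rw [hOO] at e3
    rw [d4, d2]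
    omega
  obtain ⟨x1, x2⟩ := cat_spec (f := xrow aZ cB GP GM BV) (b := 2 ^ 63 - 1) (n := 20) (by norm_num)
    fun k hk => (hX k hk).1.mono le_rfl (by have := m1 k hk; omega)
  obtain ⟨y1, y2⟩ := cat_spec (f := yrow aY cB BV) (b := 2 ^ 44) (n := 20) (by norm_num)
    fun k hk => bd_of (hY k hk).1 fun i hi => by
      have t1 := Nat.mul_le_mul_left (72 * (15 + k)) (hBV i hi)
      have t2 := m4 k hk
      rw [Nat.mul_add _ cB, mul_comm _ cB] at t1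
      rw [yrow, (hY k hk).2, O56_spec.2 i hi]
      omega
  obtain ⟨s1, s2⟩ := utab_spec hp1 x1 y1
  generalize utab p (cat (xrow aZ cB GP GM BV) 20) (cat (yrow aY cB BV) 20) = U at s1 s2 ⊢
  obtain ⟨u1, u2⟩ := urow_spec s1 k
  refine ⟨u1.mono le_rfl (Nat.le_succ _), fun i hi hlt => ?_⟩
  rw [u2 i hi] at hlt ⊢
  obtain ⟨r, s3, s4⟩ := s2 _ (by omega) hlt
  rw [x2 k hk i hi, xrow] at s3
  rw [y2 k hk i hi, yrow] at s4
  have hX1 := (hX k hk).2 i hi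
  have hY1 := (hY k hk).2 i
  replace m2 := m2 k
  replace m3 := m3 k hk
  replace m4 := m4 k hk
  obtain ⟨m, hm⟩ : ∃ m, m = 15 + k := ⟨_, rfl⟩
  rw [← hm] at s3 s4 hX1 hY1 m2 m3 m4
  generalize GP * (4 * m * m - 1) + BV * (9216 * m) + (OFF + aZ - cB * (9216 * m)) * O56 -
    GM * (4 * m * m) = X at hX1 s3
  generalize BV * (72 * m) + (8796093022208 + aY - cB * (72 * m)) * O56 = Y at hY1 s4
  rw [a2, b2, d4, d2] at hX1
  rw [d4, d2, O56_spec.2 i hi, mul_one] at hY1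
  have haY' : (aY : ℝ) = (5 * SG - g1 - g2) * 20736 := by
    rw [haY, Nat.cast_mul, Nat.cast_sub (by omega), Nat.cast_sub (by omega)]
    push_cast
    rfl
  have s5 : (64 * r : ℝ) ^ 2 ≤ ((dg X i - OFF : ℕ) : ℝ) := by
    have : ((4096 * (r * r) : ℕ) : ℝ) ≤ ((dg X i - OFF : ℕ) : ℝ) := Nat.cast_le.2 s3
    push_cast at this
    linarith
  obtain ⟨e1, e2, e3⟩ := EXP_spec i hi
  have f1 : (dg EXP i : ℝ) = ex i + 24 := by exact_mod_cast e1
  have f2 : (dg EYP i : ℝ) = ey i + 24 := by exact_mod_cast e2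
  have f3 : (dg OE i : ℝ) = OO * (48 - ex i - ey i) := by exact_mod_cast e3
  have haZ' : (aZ : ℝ) = (5 * SG - g1 - g2) * 1327104 := by
    rw [haZ, Nat.cast_mul, Nat.cast_sub (by omega), Nat.cast_sub (by omega)]
    push_cast
    rfl
  have hcB' : (cB : ℝ) = 96 * SG + 24 * (v1 + v2) := by exact_mod_cast hcB
  have hm' : (m : ℝ) = 15 + k := by exact_mod_cast hm
  have hX2 := congrArg (Nat.cast : ℕ → ℝ) hX1
  have hY2 := congrArg (Nat.cast : ℕ → ℝ) hY1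
  simp only [Nat.cast_add, Nat.cast_mul, Nat.cast_ofNat,
    Nat.cast_sub (show cB * (9216 * m) ≤ OFF + aZ by omega),
    Nat.cast_sub (show cB * (72 * m) ≤ 8796093022208 + aY by omega),
    Nat.cast_sub (show 1 ≤ 4 * m * m by omega), Nat.cast_one, f1, f2, f3, haZ', haY', hcB', hm', SG_eq,
    OO_eq] at hX2 hY2
  have hB : tB v1 v2 k i * 3538944 ^ 2 =
      4608 * (15 + k) * ((v1 - 18874368) * ex i + (v2 - 18874368) * ey i) := by
    simp only [tB, en, Nat.mod_eq_of_lt hi, SG_eq, Matrix.cons_val_zero, Matrix.cons_val_one]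
    ring
  have hC : tC g1 g2 k i * 3538944 ^ 2 =
      ((g1 : ℝ) * dg XP i + g2 * dg YP i) * (4 * (15 + k : ℝ) ^ 2 - 1) -
        ((g1 : ℝ) * dg XM i + g2 * dg YM i) * (4 * (15 + k : ℝ) ^ 2) := by
    simp only [tC, Nat.mod_eq_of_lt hi, SG_eq]
    ring
  have hA : (5 - (g1 : ℝ) / SG - g2 / SG) * 3538944 ^ 2 = (5 * 9437184 - g1 - g2) * 1327104 := by
    rw [SG_eq]
    ring
  refine uval_psi hp0 ?_ (s5.trans ?_) ?_ s4
  · rw [hA]
    rw [haZ', SG_eq] at hp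
    exact hp
  · rcases le_total (dg X i) OFF with h | h
    · rw [Nat.sub_eq_zero_of_le h, Nat.cast_zero]
      exact le_max_left _ _
    · rw [Nat.cast_sub h]
      refine le_max_of_le_right (le_of_eq ?_)
      linear_combination hX2 - hA - 2 * hB - hC
  · linear_combination 64 * hY2 - hA - hB

private theorem adf_sq (a b : ℕ) : ((adf a b * adf a b : ℕ) : ℝ) = ((a : ℝ) - b) ^ 2 := by
  unfold adf
  rcases le_total a b with h | h
  · rw [Nat.sub_eq_zero_of_le h, zero_add, Nat.cast_mul, Nat.cast_sub h]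
    ring
  · rw [Nat.sub_eq_zero_of_le h, add_zero, Nat.cast_mul, Nat.cast_sub h]
    ring

private theorem jR_eq (g1 g2 v1 v2 : ℕ) : ∃ g, jR g1 g2 v1 v2 = newt (jI g1 g2 v1 v2) g := ⟨_, rfl⟩

theorem jI_cast {g1 g2 v1 v2 : ℕ} (h2 : 0 < jI g1 g2 v1 v2) : g1 ≠ 0 ∧ g2 ≠ 0 ∧ (jI g1 g2 v1 v2 : ℝ) =
    Jq (g1 / SG) (g2 / SG) (v1 / SG - 2) (v2 / SG - 2) * 9437184 ^ 3 := by
  have h3 : adf v1 OO * adf v1 OO * g2 + adf v2 OO * adf v2 OO * g1 <
      (5 * SG - g1 - g2) * g1 * g2 := Nat.sub_pos_iff_lt.1 h2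
  have h4 : (5 * SG - g1 - g2) * g1 * g2 ≠ 0 := by omega
  have h5 : g2 ≠ 0 := right_ne_zero_of_mul h4
  have h6 : g1 ≠ 0 := right_ne_zero_of_mul (left_ne_zero_of_mul h4)
  have h7 : 5 * SG - g1 - g2 ≠ 0 := left_ne_zero_of_mul (left_ne_zero_of_mul h4)
  refine ⟨h6, h5, ?_⟩
  rw [jI, Nat.cast_sub h3.le, Nat.cast_add, Nat.cast_mul _ g2, Nat.cast_mul _ g2,
    Nat.cast_mul _ g1, Nat.cast_mul _ g1, adf_sq, adf_sq, Nat.cast_sub (by omega),
    Nat.cast_sub (by omega), Nat.cast_mul, SG_eq, OO_eq, Jq]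
  push_cast
  ring

theorem jR_spec {g1 g2 v1 v2 : ℕ} (h : 0 < jR g1 g2 v1 v2) :
    (0 : ℝ) < g1 / SG ∧ (0 : ℝ) < g2 / SG ∧ 0 < Jq (g1 / SG) (g2 / SG) (v1 / SG - 2) (v2 / SG - 2) ∧
      Real.pi * cS * cA / Real.sqrt (Jq (g1 / SG) (g2 / SG) (v1 / SG - 2) (v2 / SG - 2)) ≤
        ((CKAP / jR g1 g2 v1 v2 + 1 : ℕ) : ℝ) / (SG * 2 ^ 26) := by
  obtain ⟨g, e⟩ := jR_eq g1 g2 v1 v2
  have h1 := newt_sq (jI g1 g2 v1 v2) g
  rw [← e] at h1
  generalize jR g1 g2 v1 v2 = R at h h1 ⊢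
  have hR : (0 : ℝ) < R := by exact_mod_cast h
  have h2 : 0 < jI g1 g2 v1 v2 := by
    have : (0 : ℝ) < jI g1 g2 v1 v2 := lt_of_lt_of_le (by positivity) h1
    exact_mod_cast this
  obtain ⟨h6, h5, h8⟩ := jI_cast h2
  rw [h8] at h1
  generalize Jq (g1 / SG) (g2 / SG) (v1 / SG - 2) (v2 / SG - 2) = J at h1 ⊢
  have h9 : (R : ℝ) / (9437184 * 3072) ≤ Real.sqrt J := by
    refine Real.le_sqrt_of_sq_le ?_
    rw [div_pow, div_le_iff₀ (by positivity)]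
    exact h1.trans_eq (by norm_num)
  have h10 : (CKAP : ℝ) < ((CKAP / R + 1 : ℕ) : ℝ) * R := by
    have h8 := Nat.lt_div_mul_add (a := CKAP) h
    rw [← add_one_mul] at h8
    exact_mod_cast h8
  have h11 : 3.141593 * (cS * cA) * (9437184 * 3072) * (9437184 * 2 ^ 26) ≤ (CKAP : ℝ) := by
    norm_num [CKAP, cS, cA]
  have h12 : 0 < cS * cA := by norm_num [cS, cA]
  rw [SG_eq]
  refine ⟨by positivity, by positivity, ?_, ?_⟩
  · exact (mul_pos_iff_of_pos_right (by norm_num)).1 ((pow_pos hR 2).trans_le h1)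
  · have hpi := Real.pi_lt_d6
    have hp0 := Real.pi_pos
    generalize ((CKAP / R + 1 : ℕ) : ℝ) = w at h10 ⊢
    rw [mul_assoc Real.pi]
    generalize cS * cA = κ at h11 h12 ⊢
    refine (div_le_div_of_nonneg_left (by positivity) (by positivity) h9).trans ?_
    rw [div_div_eq_mul_div, div_le_div_iff₀ hR (by positivity)]
    have := mul_le_mul_of_nonneg_right hpi.le h12.le
    linarith

private theorem be_key {b m : ℝ} (hb : 0 ≤ b) (h : b ≤ 88978910919854 * m) :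
    b ≤ SG * 2 ^ 26 * (Real.pi * m / (10 * Real.sqrt 5)) := by
  have hpi := Real.pi_gt_d6
  have h5 : Real.sqrt 5 ≤ 2.236068 := Real.sqrt_le_iff.2 ⟨by norm_num, by norm_num⟩
  have h6 : 0 < Real.sqrt 5 := by positivity
  have m0 : 0 ≤ m := by linarith
  rw [SG_eq, ← mul_div_assoc, le_div_iff₀ (by positivity)]
  have t1 := mul_le_mul_of_nonneg_left h5 hb
  have t2 := mul_le_mul_of_nonneg_right hpi.le m0
  linarith

theorem BE_spec : (BE1 : ℝ) ≤ SG * 2 ^ 26 * (Real.pi * cS / (10 * Real.sqrt 5)) :=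
  be_key (Nat.cast_nonneg _) (by norm_num [BE1, cS])

private theorem be0_le {g1 g2 v1 v2 : ℕ} (hg : g1 + g2 ≤ 31457280) (h1 : v1 ≤ 37748736)
    (h2 : v2 ≤ 37748736) : (be0 g1 g2 v1 v2 : ℝ) ≤ 88978910919854 *
      min cU (cB - cK * Nq (g1 / SG) (g2 / SG) (v1 / SG - 2) (v2 / SG - 2)) := by
  have hSG : SG = 9437184 := rfl
  have hN : (nI g1 g2 v1 v2 : ℝ) =
      (Nq (g1 / SG) (g2 / SG) (v1 / SG - 2) (v2 / SG - 2) + 3) * (25 / 9 * 9437184 ^ 2) := by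
    rw [nI, Nat.cast_add, Nat.cast_add, Nat.cast_add, Nat.cast_mul 2, Nat.cast_add, adf_sq, adf_sq,
      Nat.cast_mul, Nat.cast_sub (by omega), Nat.cast_sub (by omega), Nat.cast_mul, SG_eq, OO_eq, Nq]
    push_cast
    ring
  have hb : nI g1 g2 v1 v2 ≤ 41 * (9437184 * 9437184) := by
    have a1 : adf v1 OO ≤ 18874368 := by unfold adf OO; omega
    have a2 : adf v2 OO ≤ 18874368 := by unfold adf OO; omega
    have a3 := Nat.mul_le_mul a1 a1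
    have a4 := Nat.mul_le_mul a2 a2
    obtain ⟨r, hr⟩ : ∃ r, 5 * SG - g1 - g2 = r := ⟨_, rfl⟩
    have a5 : r + g1 + g2 = 47185920 := by omega
    have a6 : r * r + g1 * g1 + g2 * g2 ≤ (r + g1 + g2) * (r + g1 + g2) := by nlinarith
    rw [a5] at a6
    rw [nI, hr]
    omega
  have hd := Nat.lt_div_mul_add (a := BEK * nI g1 g2 v1 v2) (b := 1099511627776) (by norm_num)
  have h3 : BEK * nI g1 g2 v1 v2 / 1099511627776 + 1 ≤ BEB :=
    (Nat.succ_le_succ (Nat.div_le_div_right (Nat.mul_le_mul_left BEK hb))).trans (by decide)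
  have b0 : be0 g1 g2 v1 v2 = BE0 - (BE0 - (BEB - (BEK * nI g1 g2 v1 v2 / 1099511627776 + 1))) := rfl
  generalize BEK * nI g1 g2 v1 v2 / 1099511627776 = q at hd h3 b0
  have b1 : be0 g1 g2 v1 v2 ≤ BE0 := by omega
  have b4 : be0 g1 g2 v1 v2 + q + 1 ≤ BEB := by omega
  have c1 : (be0 g1 g2 v1 v2 : ℝ) ≤ BE0 := by exact_mod_cast b1
  have c2 : (be0 g1 g2 v1 v2 : ℝ) + q + 1 ≤ BEB := by exact_mod_cast b4
  have c3 : (BEK : ℝ) * nI g1 g2 v1 v2 < q * 1099511627776 + 1099511627776 := by exact_mod_cast hd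
  have n0 : (0 : ℝ) ≤ nI g1 g2 v1 v2 := Nat.cast_nonneg _
  rw [hN] at c3 n0
  have k0 : (BE0 : ℝ) ≤ 88978910919854 * cU := by norm_num [BE0, cU]
  have k1 : (BEB : ℝ) ≤ 88978910919854 * (cB + 3 * cK) := by norm_num [BEB, cB, cK]
  have k2 : 88978910919854 * cK * 1099511627776 ≤ BEK * (25 / 9 * 9437184 ^ 2) := by
    norm_num [BEK, cK]
  generalize Nq (g1 / SG) (g2 / SG) (v1 / SG - 2) (v2 / SG - 2) = N at c3 n0 ⊢
  have k3 := mul_le_mul_of_nonneg_right k2 (by linarith : 0 ≤ N + 3)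
  rw [mul_min_of_nonneg _ _ (by norm_num)]
  exact le_min (c1.trans k0) (by linarith)

private theorem be2_le {th g1 g2 v1 v2 : ℕ}
    (h : Nat.beq th 2 = true → SG * (g1 * g2) < 4 * jI g1 g2 v1 v2) :
    (be2 th g1 g2 v1 v2 : ℝ) ≤ 88978910919854 * (cT + (if Nat.beq th 2 then cL / 2 - 5 * cL / 6 *
      (g1 / SG * (g2 / SG) / Jq (g1 / SG) (g2 / SG) (v1 / SG - 2) (v2 / SG - 2)) else 0) -
        cL / 3 * max 0 (11 / 5 - (g1 : ℝ) / SG - g2 / SG)) := by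
  obtain ⟨M, hM⟩ : ∃ M, M = 11 * SG - 5 * (g1 + g2) := ⟨_, rfl⟩
  have m1 : BLM * M ≤ BLM * (11 * SG) := Nat.mul_le_mul_left _ (by omega)
  have m2 : max 0 (11 / 5 - (g1 : ℝ) / SG - g2 / SG) ≤ M / (5 * 9437184) := by
    refine max_le (by positivity) ?_
    have : 11 * SG ≤ M + 5 * (g1 + g2) := by omega
    have : 11 * (SG : ℝ) ≤ M + 5 * (g1 + g2) := by exact_mod_cast this
    rw [SG_eq] at this ⊢
    linarith
  have k0 : (BET : ℝ) ≤ 88978910919854 * cT := by norm_num [BET, cT]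
  have k1 : (BLH : ℝ) ≤ 88978910919854 * (cL / 2) := by norm_num [BLH, cL]
  have k2 : 88978910919854 * (cL / 3) / (5 * 9437184) ≤ BLM := by norm_num [BLM, cL]
  have k3 : 88978910919854 * (5 * cL / 6) * 9437184 ≤ BLJ := by norm_num [BLJ, cL]
  have k4 : 0 ≤ cL := by norm_num [cL]
  have m3 := mul_le_mul_of_nonneg_left m2 (by positivity : 0 ≤ 88978910919854 * (cL / 3))
  have m4 := mul_le_mul_of_nonneg_right k2 (Nat.cast_nonneg (α := ℝ) M)
  rw [be2, ← hM]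
  cases e : Nat.beq th 2
  · have : BLM * (11 * SG) ≤ BET := by decide
    rw [cond_false, Nat.cast_sub (m1.trans this), if_neg Bool.false_ne_true, Nat.cast_mul]
    linarith
  · have h1 := h e
    have h2 : 0 < jI g1 g2 v1 v2 := by omega
    obtain ⟨-, -, h3⟩ := jI_cast h2
    have h4 := Nat.lt_div_mul_add (a := BLJ * (g1 * g2)) h2
    have h5 : BLJ * (g1 * g2) / jI g1 g2 v1 v2 ≤ 4 * BLJ / SG + 1 := by
      refine Nat.div_le_of_le_mul ?_
      have h6 : 4 * BLJ ≤ SG * (4 * BLJ / SG + 1) := by decide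
      refine Nat.le_of_mul_le_mul_left ?_ (show 0 < SG by decide)
      calc SG * (BLJ * (g1 * g2)) = BLJ * (SG * (g1 * g2)) := by ring
        _ ≤ BLJ * (4 * jI g1 g2 v1 v2) := Nat.mul_le_mul_left _ h1.le
        _ = 4 * BLJ * jI g1 g2 v1 v2 := by ring
        _ ≤ SG * (4 * BLJ / SG + 1) * jI g1 g2 v1 v2 := Nat.mul_le_mul_right _ h6
        _ = _ := by ring
    have h7 : 4 * BLJ / SG + 2 + BLM * (11 * SG) ≤ BET := by decide
    generalize BLJ * (g1 * g2) / jI g1 g2 v1 v2 = q at h4 h5 ⊢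
    rw [cond_true, Nat.cast_sub (by omega), Nat.cast_sub (by omega), if_pos rfl]
    have h8 : (BLJ : ℝ) * (g1 * g2) < (q + 1) * jI g1 g2 v1 v2 := by
      rw [← add_one_mul] at h4
      exact_mod_cast h4
    have h9 : (0 : ℝ) < jI g1 g2 v1 v2 := by exact_mod_cast h2
    have h10 : (g1 : ℝ) / SG * (g2 / SG) / Jq (g1 / SG) (g2 / SG) (v1 / SG - 2) (v2 / SG - 2) =
        9437184 * (g1 * g2 / jI g1 g2 v1 v2) := by
      rw [h3] at h9 ⊢
      have := ((mul_pos_iff_of_pos_right (by norm_num)).1 h9).ne'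
      rw [SG_eq] at this ⊢
      field_simp
    rw [h10]
    have h11 : (BLJ : ℝ) * (g1 * g2 / jI g1 g2 v1 v2) ≤ q + 1 := by
      rw [← mul_div_assoc, div_le_iff₀ h9]
      exact h8.le
    have h12 := mul_le_mul_of_nonneg_right k3 (by positivity : (0 : ℝ) ≤ g1 * g2 / jI g1 g2 v1 v2)
    push_cast
    linarith

theorem beM_spec {th g1 g2 v1 v2 : ℕ} (hg : g1 + g2 ≤ 31457280) (h1 : v1 ≤ 37748736)
    (h2 : v2 ≤ 37748736) (h : Nat.beq th 2 = true → SG * (g1 * g2) < 4 * jI g1 g2 v1 v2) :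
    (beM th g1 g2 v1 v2 : ℝ) ≤ SG * 2 ^ 26 * (Real.pi * thQ (Nat.beq th 1) (Nat.beq th 2) (g1 / SG)
      (g2 / SG) (v1 / SG - 2) (v2 / SG - 2) / (10 * Real.sqrt 5)) := by
  refine be_key (Nat.cast_nonneg _) ?_
  unfold beM thQ
  cases Nat.beq th 1
  · rw [cond_false, if_neg Bool.false_ne_true, mul_min_of_nonneg _ _ (by norm_num)]
    refine le_min (le_trans ?_ (be0_le hg h1 h2)) (le_trans ?_ (be2_le h)) <;>
      exact Nat.cast_le.2 (by omega)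
  · rw [cond_true, if_pos rfl]
    norm_num [BE0, cU]

theorem jI_spec {g1 g2 v1 v2 : ℕ} (h : SG * (g1 * g2) < 4 * jI g1 g2 v1 v2) :
    (0 : ℝ) < g1 / SG ∧ (0 : ℝ) < g2 / SG ∧ 0 < Jq (g1 / SG) (g2 / SG) (v1 / SG - 2) (v2 / SG - 2) := by
  have h2 : 0 < jI g1 g2 v1 v2 := by omega
  obtain ⟨h6, h5, h8⟩ := jI_cast h2
  have h9 : (0 : ℝ) < jI g1 g2 v1 v2 := by exact_mod_cast h2
  rw [h8] at h9
  rw [SG_eq] at h9 ⊢
  exact ⟨by positivity, by positivity, (mul_pos_iff_of_pos_right (by norm_num)).1 h9⟩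

end Pool.Agent.P.MP_2e1554_gt.Chk
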