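import Pool.Agent.P.MP_2e1554_gt.IsoChkY
import Pool.Agent.P.MP_2e1554_gt.IsoConv
import Pool.Agent.P.MP_2e1554_gt.IsoOpB
import Pool.Agent.P.MP_2e1554_gt.IsoRow

/-! The upper bound for the area from the pyramid over the facet. -/

open MeasureTheory Set Finset

namespace Pool.Agent.P.MP_2e1554_gt.Chk

theorem volP_ok {G : Gx} {B : Bx} (hB : okB B = true) {g₁ g₂ v₁ v₂ J : ℝ} {K : Set (Fin 2 → ℝ)}
    (hF : Fr g₁ g₂ v₁ v₂ J K) (hR : Rng G B g₁ g₂ v₁ v₂) {fx fy : ℤ} {j τ : ℕ}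
    (h : volP G B fx fy j τ = true) : 10 ^ 4 * volume.real K ≤ (τ : ℝ) := by
  unfold volP at h
  simp only [force_eq] at h
  obtain ⟨n0, hn0⟩ : ∃ n, n = 16384 + 128 * j + j * j := ⟨_, rfl⟩
  obtain ⟨n1, hn1⟩ : ∃ n, n = 16384 + 256 * j + 3 * (j * j) := ⟨_, rfl⟩
  obtain ⟨d, hd⟩ : ∃ n, n = 268435456 + 8388608 * j + 163840 * (j * j) + 512 * (j * j * j) +
    j * j * (j * j) := ⟨_, rfl⟩
  obtain ⟨gm, hgm⟩ : ∃ n, n = cg1 B.t1 B.f0 := ⟨_, rfl⟩
  rw [← hn0, ← hn1, ← hd, ← hgm] at h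
  obtain ⟨e, he⟩ : ∃ n, n = 5 * (vlo G B.a0 * vlo G B.a0) / (8 * gm) := ⟨_, rfl⟩
  rw [← he, Bool.and_eq_true, Nat.blt_eq] at h
  obtain ⟨hj, h⟩ := h
  have hg : 0 < g₁ + g₂ := by linarith [hF.g12, hF.g2pos]
  obtain ⟨a, ha⟩ : ∃ a : ℝ, a = (vhi G B.a1 : ℝ) / SG := ⟨_, rfl⟩
  obtain ⟨b, hb⟩ : ∃ b : ℝ, b = (vhi G B.b1 : ℝ) / SG := ⟨_, rfl⟩
  have n1p : (0 : ℝ) < n1 := Nat.cast_pos.2 (by omega)
  have n0p : (0 : ℝ) < n0 := Nat.cast_pos.2 (by omega)
  have dp : (0 : ℝ) < d := Nat.cast_pos.2 (by omega)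
  obtain ⟨ρ, hρ⟩ : ∃ ρ : ℝ, ρ = 2 * τ * n0 / (745375 * n1) := ⟨_, rfl⟩
  have hP := star_ind hB hg hR.1 (fun x y => 0 < x / SG ∧ 0 < y / SG ∧ 0 < Jq (x / SG) (y / SG) a b ∧
      1 / Real.sqrt (Jq (x / SG) (y / SG) a b) ≤ ρ * ((x + e) / SG) ∧ x ≤ gm ∧
      15 - 5 / 3 * (n1 * n1) / d < 15 - Rq (x / SG) (y / SG) v₁ v₂ ![fx / 25165824, fy / 25165824])
    (by
      rintro x y x' y' t ht ⟨p1, p2, p3, p4, p5, p6⟩ ⟨q1, q2, q3, q4, q5, q6⟩
      have e1 : ((1 - t) * x + t * x') / SG = (1 - t) * (x / SG) + t * (x' / SG) := by ring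
      have e2 : ((1 - t) * y + t * y') / SG = (1 - t) * (y / SG) + t * (y' / SG) := by ring
      have e3 : ρ * (((1 - t) * x + t * x' + e) / SG) =
        (1 - t) * (ρ * ((x + e) / SG)) + t * (ρ * ((x' + e) / SG)) := by ring
      have k1 := Jq_pos_conv ht p1 p2 q1 q2 p3 q3
      have k2 := Jq_two ht p1 p2 q1 q2 p3 q3
      rw [show (1 - t) * a + t * a = a by ring, show (1 - t) * b + t * b = b by ring] at k1 k2
      have k5 := opb_lt ht p6 q6
      rw [opb_Rc, e3, e1, e2]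
      have k3 := mul_le_mul_of_nonneg_left p4 (sub_nonneg.2 ht.2)
      have k4 := mul_le_mul_of_nonneg_left q4 ht.1
      exact ⟨pos_conv ht p1 q1, pos_conv ht p2 q2, k1, by linarith, opb_le ht p5 q5, by linarith⟩) (by
      intro t f ht hf hcg
      have q := all4_iff h ht hf
      simp only [Bool.and_eq_true, Nat.ble_eq, Nat.blt_eq] at q
      obtain ⟨⟨q1, q2⟩, q⟩ := q
      have q0 : 4 * (τ * n0 * (cg1 t f + e)) * (τ * n0 * (cg1 t f + e)) *
          jI (cg1 t f) (cg2 t f) (OO + vhi G B.a1) (OO + vhi G B.b1) ≠ 0 := by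
        have : 0 < n1 * n1 := Nat.mul_pos (by omega) (by omega)
        omega
      obtain ⟨m1, m2, e0⟩ := jI_cast (Nat.pos_of_ne_zero (right_ne_zero_of_mul q0))
      have ea : ((OO + vhi G B.a1 : ℕ) : ℝ) / SG - 2 = a := by
        rw [ha, Nat.cast_add, OO_eq, SG_eq]
        ring
      have eb : ((OO + vhi G B.b1 : ℕ) : ℝ) / SG - 2 = b := by
        rw [hb, Nat.cast_add, OO_eq, SG_eq]
        ring
      have q' : (41587398919616023920462749456951414882304000000 : ℝ) * (n1 * n1) ≤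
          4 * (τ * n0 * (cg1 t f + e)) * (τ * n0 * (cg1 t f + e)) *
            (Jq (cg1 t f / SG) (cg2 t f / SG) a b * 9437184 ^ 3) := by
        rw [← ea, ← eb, ← e0]
        exact_mod_cast q
      have h6 := eLow_le hR fx fy hcg (Nat.pos_of_mul_pos_left (Nat.zero_lt_of_lt q2))
      have h7 := (Nat.cast_lt (α := ℝ)).2 q2
      have h8 : (45 * d - 5 * (n1 * n1) : ℝ) ≤ ((45 * d - 5 * (n1 * n1) : ℕ) : ℝ) := by
        rw [sub_le_iff_le_add]
        exact_mod_cast (by omega : 45 * d ≤ 45 * d - 5 * (n1 * n1) + 5 * (n1 * n1))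
      rw [Nat.cast_mul, Nat.cast_mul, Nat.cast_mul] at h7
      generalize Jq (cg1 t f / SG) (cg2 t f / SG) a b = W at q' ⊢
      generalize Rq (cg1 t f / SG) (cg2 t f / SG) v₁ v₂ ![fx / 25165824, fy / 25165824] = R at h6 ⊢
      obtain ⟨z, hz⟩ : ∃ z : ℝ, z = ρ * ((cg1 t f + e) / SG) := ⟨_, rfl⟩
      have z0 : 0 ≤ z := by
        rw [hz, hρ, SG_eq]
        exact mul_nonneg (div_nonneg (mul_nonneg (mul_nonneg zero_le_two (Nat.cast_nonneg _)) n0p.le)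
          (mul_pos (by norm_num) n1p).le)
          (div_nonneg (add_nonneg (Nat.cast_nonneg _) (Nat.cast_nonneg _)) (by norm_num))
      have q3 : 1 ≤ z * z * W := by
        have : z * z * W = 4 * (τ * n0 * (cg1 t f + e)) * (τ * n0 * (cg1 t f + e)) *
            (W * 9437184 ^ 3) / (41587398919616023920462749456951414882304000000 * (n1 * n1)) := by
          rw [hz, hρ, SG_eq]
          field_simp
          ring
        rw [this]
        exact (one_le_div (mul_pos (by norm_num) (mul_pos n1p n1p))).2 q'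
      have hW : 0 < W := by
        by_contra hc
        have := mul_nonpos_of_nonneg_of_nonpos (mul_self_nonneg z) (not_lt.1 hc)
        linarith
      rw [← hz]
      rw [SG_eq] at h6 ⊢
      refine ⟨div_pos (Nat.cast_pos.2 (Nat.pos_of_ne_zero m1)) (by norm_num),
        div_pos (Nat.cast_pos.2 (Nat.pos_of_ne_zero m2)) (by norm_num), hW, ?_, Nat.cast_le.2 q1, ?_⟩
      · rw [div_le_iff₀ (Real.sqrt_pos.2 hW)]
        refine abs_le_of_sq_le_sq' ?_ (mul_nonneg z0 (Real.sqrt_nonneg _)) |>.2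
        rw [mul_pow, Real.sq_sqrt hW.le]
        linarith
      · have h9 := mul_le_mul_of_nonneg_left h6 dp.le
        rw [sub_lt_sub_iff_left, lt_div_iff₀ dp]
        simp only [Nat.cast_ofNat] at h7
        linarith)
  simp only [opb_div] at hP
  obtain ⟨p1, p2, p3, p4, p5, p6⟩ := hP
  obtain ⟨-, r0, r1, -, r2⟩ := hR
  have a1 : v₁ ≤ a := by
    rw [ha, le_div_iff₀ (by rw [SG_eq]; norm_num)]
    linarith
  have a2 : v₂ ≤ b := by
    rw [hb, le_div_iff₀ (by rw [SG_eq]; norm_num)]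
    linarith
  have a3 := mul_le_mul_of_nonneg_right (pow_le_pow_left₀ hF.v1nn a1 2) p2.le
  have a4 := mul_le_mul_of_nonneg_right (pow_le_pow_left₀ hF.v2nn a2 2) p1.le
  have a5 : Real.sqrt (Jq g₁ g₂ a b) ≤ J := by
    refine Real.sqrt_le_iff.2 ⟨hF.Jpos.le, ?_⟩
    rw [hF.Jsq]
    unfold Jq
    linarith
  have a6 := (one_div_le_one_div_of_le (Real.sqrt_pos.2 p3) a5).trans p4
  have jr : (j : ℝ) < 128 := by exact_mod_cast hj
  have j0 : (0 : ℝ) ≤ j := Nat.cast_nonneg j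
  have c0 : 3 - 3 * (1 - (j : ℝ) / 128) + (1 - (j : ℝ) / 128) ^ 2 = n0 / 16384 := by
    rw [hn0]
    push_cast
    ring
  have c1 : 6 - 8 * (1 - (j : ℝ) / 128) + 3 * (1 - (j : ℝ) / 128) ^ 2 = n1 / 16384 := by
    rw [hn1]
    push_cast
    ring
  have c2 : 20 - 40 * (1 - (j : ℝ) / 128) + 28 * (1 - (j : ℝ) / 128) ^ 2 -
      8 * (1 - (j : ℝ) / 128) ^ 3 + (1 - (j : ℝ) / 128) ^ 4 = d / 268435456 := by
    rw [hd]
    push_cast
    ring
  rw [sub_lt_sub_iff_left, lt_div_iff₀ dp] at p6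
  have a7 := hF.pyr (1 - (j : ℝ) / 128) ![fx / 25165824, fy / 25165824] (by linarith) (by linarith)
    (by rw [c1, c2]; linarith) 1 0
  rw [c0, c1] at a7
  have e1 : (e : ℝ) * (8 * gm) ≤ 5 * (vlo G B.a0 * vlo G B.a0) := by
    rw [he]
    exact_mod_cast Nat.div_mul_le_self _ _
  have e0 : (0 : ℝ) ≤ e := Nat.cast_nonneg e
  have e2 := mul_le_mul_of_nonneg_left p5 e0
  have e3 := mul_self_le_mul_self (Nat.cast_nonneg _) r0
  rw [SG_eq] at e2 e3 a6
  obtain ⟨x, hx⟩ : ∃ x : ℝ, x = (9437184 * g₁ + e) / 9437184 := ⟨_, rfl⟩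
  rw [← hx] at a6
  have e4 : 8 * (g₁ * x) ≤ 8 * (g₁ ^ 2 * 1 ^ 2 + g₂ ^ 2 * 0 ^ 2) + 5 * (v₁ * 1 + v₂ * 0) ^ 2 := by
    rw [hx]
    linarith
  have hV := hF.iso.toBody.vol_pos
  have e5 := mul_le_mul_of_nonneg_left e4
    (by have := hF.Jpos; positivity : 0 ≤ J * volume.real K * (n0 / 16384))
  have e6 : J * volume.real K * n0 * x * 8 ≤ 29815 / 100 * n1 :=
    le_of_mul_le_mul_right (by linarith) p1
  rw [div_le_iff₀ hF.Jpos] at a6
  have e7 := mul_le_mul_of_nonneg_left a6 hV.le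
  have e8 : volume.real K * (ρ * x * J) = J * volume.real K * n0 * x * 8 * τ / (2981500 * n1) := by
    rw [hρ]
    field_simp
    ring
  have e9 := mul_le_mul_of_nonneg_right e6 (Nat.cast_nonneg (α := ℝ) τ)
  rw [e8, le_div_iff₀ (by positivity)] at e7
  refine le_of_mul_le_mul_right ?_ n1p
  linarith

end Pool.Agent.P.MP_2e1554_gt.Chk
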