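import Pool.Agent.P.MP_2e1554_gt.IsoChkT
import Pool.Agent.P.MP_2e1554_gt.IsoPl
import Pool.Agent.P.MP_2e1554_gt.IsoRF

/-! The top level. -/

open MeasureTheory Set Finset

namespace Pool.Agent.P.MP_2e1554_gt.Chk

/-- `g₁ + g₂ ≤ 10/3` (`low` at `0`), `v ≤ 2` (`low` at `y = -(1, 0)` and `-(0, 1)`) -/
theorem fr_rng {g₁ g₂ v₁ v₂ J : ℝ} {K : Set (Fin 2 → ℝ)} (hF : Fr g₁ g₂ v₁ v₂ J K) :
    InStar bx0 g₁ g₂ ∧ InU bx0 v₁ v₂ := by
  have h0 := hF.low ![0, 0]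
  have h1 := hF.low ![-1, 0]
  have h2 := hF.low ![0, -1]
  have h3 := hF.g12
  have h4 := hF.g2pos
  have h5 := hF.v1nn
  have h6 := hF.v2nn
  simp only [Rq, Matrix.cons_val_zero, Matrix.cons_val_one] at h0 h1 h2
  refine ⟨⟨?_, ?_, ?_, ?_⟩, ?_, ?_, ?_, ?_⟩ <;> simp only [bx0, SG_eq] <;> push_cast <;> linarith

def AllN (Z m : ℕ) : Prop := ∀ i < m, Good (hd (Z >>> (384 * i))).1 (hd (Z >>> (384 * i))).2 st0

def AllV : List (ℕ × ℕ) → Prop
  | [] => True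
  | h :: t => AllN h.1 h.2 ∧ AllV t

theorem unH_eq (Z : ℕ) (k : Gx → Bx → Bool) : unH Z k = k (hd Z).1 (hd Z).2 := by
  simp only [unH, force_eq, hd]

private lemma top_mem {H : List (ℕ × ℕ)} (hH : AllV H) {n : ℕ} {a : ℕ × ℕ} (h : H[n]? = some a) :
    AllN a.1 a.2 := by
  induction H generalizing n with
  | nil => simp at h
  | cons b H ih =>
    cases n with
    | zero =>
      rw [List.getElem?_cons_zero, Option.some.injEq] at h
      exact h ▸ hH.1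
    | succ n => exact ih hH.2 (by rwa [List.getElem?_cons_succ] at h)

private lemma top_get {H : List (ℕ × ℕ)} (hH : AllV H) {n : ℕ} {k : Gx → Bx → Bool}
    (h : getH H n k = true) : ∃ G B, Good G B st0 ∧ k G B = true := by
  unfold getH at h
  split at h
  swap
  · exact absurd h Bool.false_ne_true
  rename_i Z m hn
  rw [Bool.and_eq_true, Nat.blt_eq, unH_eq] at h
  exact ⟨_, _, top_mem hH hn _ h.1, h.2⟩

private lemma top_adf (a b : ℕ) : (adf a b : ℝ) = |(a : ℝ) - b| := by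
  unfold adf
  rcases le_total a b with h | h
  · rw [Nat.sub_eq_zero_of_le h, zero_add, Nat.cast_sub h, abs_sub_comm,
      abs_of_nonneg (sub_nonneg.2 (Nat.cast_le.2 h))]
  · rw [Nat.sub_eq_zero_of_le h, add_zero, Nat.cast_sub h,
      abs_of_nonneg (sub_nonneg.2 (Nat.cast_le.2 h))]

private lemma top_lin {V α a b m m' : ℝ} (hV : 0 < V) (h : |m| ≤ α / 512 * V)
    (h' : |m'| ≤ α / 512 * V) : 1024 * |-(a * m + b * m') / (2 * V)| ≤ α * (|a| + |b|) := by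
  have h1 := abs_add_le (a * m) (b * m')
  rw [abs_mul, abs_mul] at h1
  have h2 := mul_le_mul_of_nonneg_left h (abs_nonneg a)
  have h3 := mul_le_mul_of_nonneg_left h' (abs_nonneg b)
  rw [abs_div, abs_neg, abs_of_pos (by positivity : 0 < 2 * V), ← mul_div_assoc,
    div_le_iff₀ (by positivity)]
  linarith

private lemma top_v {g₁ g₂ v₁ v₂ J : ℝ} {K : Set (Fin 2 → ℝ)} (hF : Fr g₁ g₂ v₁ v₂ J K) :
    v₁ = -(g₁ * mo K 3 0 + g₂ * mo K 1 2) / (2 * volume.real K) ∧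
      v₂ = -(g₁ * mo K 2 1 + g₂ * mo K 0 3) / (2 * volume.real K) := by
  have hV := hF.iso.toBody.vol_pos
  obtain ⟨r1, r2⟩ := rw_zero hF
  rw [rw₁] at r1
  rw [rw₂] at r2
  rw [eq_div_iff (by positivity), eq_div_iff (by positivity)]
  constructor <;> linarith

private lemma top_cv {x : ℝ} (hx : x ∈ Icc (0 : ℝ) 1) (a a' : ℝ) {c : ℝ} (e : c = (1 - x) * a + x * a') :
    |c| ≤ (1 - x) * |a| + x * |a'| := by
  have := abs_add_le ((1 - x) * a) (x * a')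
  rwa [abs_mul, abs_mul, abs_of_nonneg hx.1, abs_of_nonneg (sub_nonneg.2 hx.2), ← e] at this

private lemma top_d1 {V α a b g₁ g₂ m m' d : ℝ} (hV : 0 < V) (h : |m| ≤ α / 512 * V)
    (h' : |m'| ≤ α / 512 * V) (hd : α * (|9437184 * g₁ - a| + |9437184 * g₂ - b|) ≤ 1024 * d) :
    9437184 * |-(g₁ * m + g₂ * m') / (2 * V) - -(a / 9437184 * m + b / 9437184 * m') / (2 * V)| ≤ d := by
  have q2 := top_lin (a := 9437184 * g₁ - a) (b := 9437184 * g₂ - b) hV h h'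
  rw [show -((9437184 * g₁ - a) * m + (9437184 * g₂ - b) * m') / (2 * V) = 9437184 *
    (-(g₁ * m + g₂ * m') / (2 * V) - -(a / 9437184 * m + b / 9437184 * m') / (2 * V)) by ring,
    abs_mul, abs_of_pos (by norm_num : (0 : ℝ) < 9437184)] at q2
  linarith

private lemma top_d2 {V α a b g₁ g₂ m m' d W : ℝ} (hV : 0 < V) (h : |m| ≤ α / 512 * V)
    (h' : |m'| ≤ α / 512 * V) (hg : 0 < g₁ + g₂) (hv : 0 ≤ -(g₁ * m + g₂ * m') / (2 * V))
    (hW : 9437184 * (-(g₁ * m + g₂ * m') / (2 * V)) ≤ W)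
    (hd : 1024 * (|a + b - (9437184 * g₁ + 9437184 * g₂)| * W) +
      2 * (α * |9437184 * g₁ * b - 9437184 * g₂ * a|) ≤ 1024 * (d * (9437184 * g₁ + 9437184 * g₂))) :
    9437184 * |-(g₁ * m + g₂ * m') / (2 * V) - -(a / 9437184 * m + b / 9437184 * m') / (2 * V)| ≤ d := by
  have q2 := top_lin (a := 9437184 * g₁ * b - 9437184 * g₂ * a)
    (b := -(9437184 * g₁ * b - 9437184 * g₂ * a)) hV h h'
  rw [abs_neg] at q2
  have e : (9437184 * g₁ + 9437184 * g₂) * (9437184 *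
      (-(g₁ * m + g₂ * m') / (2 * V) - -(a / 9437184 * m + b / 9437184 * m') / (2 * V))) =
      -((9437184 * g₁ * b - 9437184 * g₂ * a) * m + -(9437184 * g₁ * b - 9437184 * g₂ * a) * m') /
        (2 * V) + -(a + b - (9437184 * g₁ + 9437184 * g₂)) *
          (9437184 * (-(g₁ * m + g₂ * m') / (2 * V))) := by ring
  have ht : 0 < 9437184 * g₁ + 9437184 * g₂ := by linarith
  have q3 := (congrArg abs e).trans_le (abs_add_le _ _)
  rw [abs_mul, abs_mul, abs_mul (-_), abs_neg, abs_of_pos ht,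
    abs_of_pos (by norm_num : (0 : ℝ) < 9437184), abs_of_nonneg (mul_nonneg (by norm_num) hv)] at q3
  have q4 := mul_le_mul_of_nonneg_left hW (abs_nonneg (a + b - (9437184 * g₁ + 9437184 * g₂)))
  refine le_of_mul_le_mul_left ?_ ht
  linarith

private lemma top_u {V α a b m m' v d lo hi c0 c1 : ℝ} (hV : 0 < V) (h : |m| ≤ α / 512 * V)
    (h' : |m'| ≤ α / 512 * V) (ha : 0 ≤ a) (hb : 0 ≤ b) (v0 : c0 ≤ 9437184 * (v + 2))
    (v1 : 9437184 * (v + 2) ≤ c1) (h1 : lo + d ≤ c0)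
    (h2 : 1024 * 18874368 + α * (a + b) ≤ 1024 * hi ∨ c1 + d ≤ hi) {u : ℝ}
    (hu : u = -(a / 9437184 * m + b / 9437184 * m') / (2 * V)) (hd : 9437184 * |v - u| ≤ d) :
    lo ≤ 9437184 * (u + 2) ∧ 9437184 * (u + 2) ≤ hi := by
  have q1 := top_lin (a := a) (b := b) hV h h'
  have e1 : -(a * m + b * m') / (2 * V) = 9437184 * u := by
    rw [hu]
    ring
  rw [e1, abs_of_nonneg ha, abs_of_nonneg hb] at q1
  have q3 := le_abs_self (9437184 * u)
  have q4 := le_abs_self (v - u)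
  have q5 := neg_abs_le (v - u)
  refine ⟨by linarith, ?_⟩
  rcases h2 with h2 | h2 <;> linarith

/-- put `u = -(G₁ mo 3 0 + G₂ mo 1 2, G₁ mo 2 1 + G₂ mo 0 3)/(2 vol)` -/
theorem near_sound {an : ℕ} (hM : MomB an) {G : Gx} {B C : Bx} (hG : Good G B st0)
    (hC : okB C = true) (h : near an G B C = true) {g₁ g₂ v₁ v₂ J : ℝ}
    {K : Set (Fin 2 → ℝ)} (hF : Fx g₁ g₂ v₁ v₂ J K) (hS : InStar C g₁ g₂) (hU : InU C v₁ v₂) :
    G.th % 8 ≤ 2 ∧ VQ K true (Nat.beq (G.th % 8) 1) (Nat.beq (G.th % 8) 2) (G.g1 / SG) (G.g2 / SG)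
      (-(G.g1 / SG * mo K 3 0 + G.g2 / SG * mo K 1 2) / (2 * volume.real K))
      (-(G.g1 / SG * mo K 2 1 + G.g2 / SG * mo K 0 3) / (2 * volume.real K))
      (lG (Nat.beq (G.th % 8) 1) G.th K (G.g1 / SG) (G.g2 / SG)
      (-(G.g1 / SG * mo K 3 0 + G.g2 / SG * mo K 1 2) / (2 * volume.real K))
      (-(G.g1 / SG * mo K 2 1 + G.g2 / SG * mo K 0 3) / (2 * volume.real K))) := by
  simp only [near, Bool.and_eq_true, Bool.or_eq_true, Nat.ble_eq] at h
  obtain ⟨⟨⟨⟨⟨⟨⟨⟨c1, c2⟩, c3⟩, c4⟩, c5⟩, c6⟩, c7⟩, c8⟩, c9⟩ := h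
  have hV := hF.iso.toBody.vol_pos
  have hg : 0 < g₁ + g₂ := by linarith [hF.g12, hF.g2pos]
  obtain ⟨m1, m2, m3, m4⟩ := hM _ _ _ _ _ _ hF
  obtain ⟨w1, w2⟩ := top_v hF.toFr
  obtain ⟨u1, u2, u3, u4⟩ := hU
  have hd : SG * |v₁ - -(G.g1 / SG * mo K 3 0 + G.g2 / SG * mo K 1 2) / (2 * volume.real K)| ≤ G.dl ∧
      SG * |v₂ - -(G.g1 / SG * mo K 2 1 + G.g2 / SG * mo K 0 3) / (2 * volume.real K)| ≤ G.dl := by
    rcases c9 with c9 | c9
    · have hd := star_ind hC hg hS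
        (fun a b => (an : ℝ) * (|a - G.g1| + |b - G.g2|) ≤ 1024 * G.dl) (by
          intro a b a' b' x hx p p'
          have q := mul_le_mul_of_nonneg_left (add_le_add
            (top_cv hx (a - G.g1) (a' - G.g1) (c := (1 - x) * a + x * a' - G.g1) (by ring))
            (top_cv hx (b - G.g2) (b' - G.g2) (c := (1 - x) * b + x * b' - G.g2) (by ring)))
            (Nat.cast_nonneg (α := ℝ) an)
          have q1 := mul_le_mul_of_nonneg_left p (sub_nonneg.2 hx.2)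
          have q2 := mul_le_mul_of_nonneg_left p' hx.1
          linarith) (by
          intro t' f' ht' hf' _
          have q := all4_iff c9 ht' hf'
          rw [Nat.ble_eq] at q
          rw [← top_adf, ← top_adf]
          exact_mod_cast q)
      rw [SG_eq] at hd ⊢
      exact ⟨w1 ▸ top_d1 hV m1 m3 hd, w2 ▸ top_d1 hV m2 m4 hd⟩
    · obtain ⟨W, hW⟩ : ∃ W : ℕ, W = max C.a1 C.b1 - OO := ⟨_, rfl⟩
      rw [← hW] at c9
      have hd := star_ind hC hg hS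
        (fun a b => 1024 * (|(G.g1 : ℝ) + G.g2 - (a + b)| * W) +
          2 * (an * |a * G.g2 - b * G.g1|) ≤ 1024 * (G.dl * (a + b))) (by
          intro a b a' b' x hx p p'
          have q := mul_le_mul_of_nonneg_right (top_cv hx (G.g1 + G.g2 - (a + b))
            (G.g1 + G.g2 - (a' + b')) (c := G.g1 + G.g2 - ((1 - x) * a + x * a' + ((1 - x) * b + x * b')))
            (by ring)) (Nat.cast_nonneg (α := ℝ) W)
          have q' := mul_le_mul_of_nonneg_left (top_cv hx (a * G.g2 - b * G.g1) (a' * G.g2 - b' * G.g1)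
            (c := ((1 - x) * a + x * a') * G.g2 - ((1 - x) * b + x * b') * G.g1) (by ring))
            (Nat.cast_nonneg (α := ℝ) an)
          have q1 := mul_le_mul_of_nonneg_left p (sub_nonneg.2 hx.2)
          have q2 := mul_le_mul_of_nonneg_left p' hx.1
          linarith) (by
          intro t' f' ht' hf' e
          have q := all4_iff c9 ht' hf'
          rw [Nat.ble_eq] at q
          rw [e, ← Nat.cast_add, ← Nat.cast_mul, ← Nat.cast_mul, ← top_adf, ← top_adf]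
          exact_mod_cast q)
      have k : C.a1 ≤ W + 18874368 ∧ C.b1 ≤ W + 18874368 := by
        unfold OO at hW
        omega
      have k1 : (C.a1 : ℝ) ≤ W + 18874368 := by exact_mod_cast k.1
      have k2 : (C.b1 : ℝ) ≤ W + 18874368 := by exact_mod_cast k.2
      rw [SG_eq] at hd u2 u4 ⊢
      exact ⟨w1 ▸ top_d2 hV m1 m3 hg (w1 ▸ hF.v1nn) (by rw [← w1]; linarith) hd,
        w2 ▸ top_d2 hV m2 m4 hg (w2 ▸ hF.v2nn) (by rw [← w2]; linarith) hd⟩
  have c5' : (B.a0 : ℝ) + G.dl ≤ C.a0 := by exact_mod_cast c5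
  have c6' : (B.b0 : ℝ) + G.dl ≤ C.b0 := by exact_mod_cast c6
  have c7' : 1024 * 18874368 + (an : ℝ) * (G.g1 + G.g2) ≤ 1024 * B.a1 ∨ (C.a1 : ℝ) + G.dl ≤ B.a1 :=
    c7.imp (fun c => by exact_mod_cast c) fun c => by exact_mod_cast c
  have c8' : 1024 * 18874368 + (an : ℝ) * (G.g1 + G.g2) ≤ 1024 * B.b1 ∨ (C.b1 : ℝ) + G.dl ≤ B.b1 :=
    c8.imp (fun c => by exact_mod_cast c) fun c => by exact_mod_cast c
  obtain ⟨x3, y3⟩ := hd
  rw [SG_eq] at x3 y3 u1 u2 u3 u4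
  obtain ⟨x1, x2⟩ := top_u hV m1 m3 (Nat.cast_nonneg G.g1) (Nat.cast_nonneg G.g2) u1 u2 c5' c7' rfl x3
  obtain ⟨y1, y2⟩ := top_u hV m2 m4 (Nat.cast_nonneg G.g1) (Nat.cast_nonneg G.g2) u3 u4 c6' c8' rfl y3
  rw [← SG_eq] at x1 x2 x3 y1 y2 y3
  obtain ⟨s1, s2, s3, s4⟩ := hS
  refine hG K _ _ ?_ ?_ ⟨x1, x2, y1, y2⟩ ⟨g₁, g₂, v₁, v₂, J, hF,
    ⟨(Nat.cast_le.2 c1).trans s1, s2.trans (Nat.cast_le.2 c2),
      (mul_le_mul_of_nonneg_right (Nat.cast_le.2 c3) hg.le).trans s3,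
      s4.trans (mul_le_mul_of_nonneg_right (Nat.cast_le.2 c4) hg.le)⟩, x3, y3⟩
    (st0_ok hF.iso hF.area)
  · rw [rw₁]
    field_simp
    ring
  · rw [rw₂]
    field_simp
    ring

theorem corner_sound {an : ℕ} (hM : MomB an) {H : List (ℕ × ℕ)} (hH : AllV H) {C : Bx}
    (hC : okB C = true) {th n t f : ℕ} (h : corner an H C th n t f = true) {g₁ g₂ v₁ v₂ J : ℝ}
    {K : Set (Fin 2 → ℝ)} (hF : Fx g₁ g₂ v₁ v₂ J K) (hS : InStar C g₁ g₂) (hU : InU C v₁ v₂) :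
    VQ K true (Nat.beq (th % 8) 1) (Nat.beq (th % 8) 2) (cg1 t f / SG) (cg2 t f / SG)
      (-(cg1 t f / SG * mo K 3 0 + cg2 t f / SG * mo K 1 2) / (2 * volume.real K))
      (-(cg1 t f / SG * mo K 2 1 + cg2 t f / SG * mo K 0 3) / (2 * volume.real K))
      (lG (Nat.beq (th % 8) 1) th K (cg1 t f / SG) (cg2 t f / SG)
      (-(cg1 t f / SG * mo K 3 0 + cg2 t f / SG * mo K 1 2) / (2 * volume.real K))
      (-(cg1 t f / SG * mo K 2 1 + cg2 t f / SG * mo K 0 3) / (2 * volume.real K))) := by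
  obtain ⟨G, B, hG, h⟩ := top_get hH h
  simp only [Bool.and_eq_true, Nat.beq_eq] at h
  obtain ⟨⟨⟨e1, e2⟩, e3⟩, c⟩ := h
  rw [← e1, ← e2, ← e3]
  exact (near_sound hM hG hC c hF hS hU).2

theorem dead_sound {an : ℕ} (hM : MomB an) {H : List (ℕ × ℕ)} (hH : AllV H) {C : Bx}
    (hC : okB C = true) {n : ℕ} (h : dead an H C n = true) {g₁ g₂ v₁ v₂ J : ℝ}
    {K : Set (Fin 2 → ℝ)} (hF : Fx g₁ g₂ v₁ v₂ J K) (hS : InStar C g₁ g₂) (hU : InU C v₁ v₂) :
    False := by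
  obtain ⟨G, B, hG, h⟩ := top_get hH h
  simp only [Bool.and_eq_true, Nat.ble_eq] at h
  exact absurd (h.1.trans (near_sound hM hG hC h.2 hF hS hU).1) (by norm_num)

/-- the inequality holds for all parameters in a cell -/
def TopOK (C : Bx) : Prop := ∀ (g₁ g₂ v₁ v₂ J : ℝ) (K : Set (Fin 2 → ℝ)),
  Fx g₁ g₂ v₁ v₂ J K → InStar C g₁ g₂ → InU C v₁ v₂ → ∃ th la, VQ K true th la g₁ g₂ v₁ v₂ 0

theorem top_split {C : Bx} (ax x : ℕ) (l : TopOK (setHi C ax x)) (r : TopOK (setLw C ax x)) :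
    TopOK C := by
  obtain ⟨t0, t1, f0, f1, a0, a1, b0, b1⟩ := C
  intro g₁ g₂ v₁ v₂ J K hF ⟨q1, q2, q3, q4⟩ ⟨p1, p2, p3, p4⟩
  rcases ax with _ | _ | _ | ax
  · rcases le_total (SG * (v₁ + 2)) (x : ℝ) with c | c
    · exact l _ _ _ _ _ _ hF ⟨q1, q2, q3, q4⟩ ⟨p1, c, p3, p4⟩
    · exact r _ _ _ _ _ _ hF ⟨q1, q2, q3, q4⟩ ⟨c, p2, p3, p4⟩
  · rcases le_total (SG * (v₂ + 2)) (x : ℝ) with c | c
    · exact l _ _ _ _ _ _ hF ⟨q1, q2, q3, q4⟩ ⟨p1, p2, p3, c⟩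
    · exact r _ _ _ _ _ _ hF ⟨q1, q2, q3, q4⟩ ⟨p1, p2, c, p4⟩
  · rcases le_total (SG * (g₁ + g₂)) (x : ℝ) with c | c
    · exact l _ _ _ _ _ _ hF ⟨q1, c, q3, q4⟩ ⟨p1, p2, p3, p4⟩
    · exact r _ _ _ _ _ _ hF ⟨c, q2, q3, q4⟩ ⟨p1, p2, p3, p4⟩
  · rcases le_total (65536 * g₂) ((x : ℝ) * (g₁ + g₂)) with c | c
    · exact l _ _ _ _ _ _ hF ⟨q1, q2, q3, c⟩ ⟨p1, p2, p3, p4⟩
    · exact r _ _ _ _ _ _ hF ⟨q1, q2, c, q4⟩ ⟨p1, p2, p3, p4⟩

theorem chkT_sound {an : ℕ} (hM : MomB an) {H : List (ℕ × ℕ)} (hH : AllV H) (t : Tg) {C : Bx}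
    (h : chkT an H t C = true) : TopOK C := by
  have hz : ∀ v : ℝ, SG * |v - v| ≤ (G00.dl : ℝ) := fun v => by
    rw [sub_self, abs_zero, mul_zero]
    exact Nat.cast_nonneg _
  induction t generalizing C with
  | spl ax x l r ihl ihr =>
    have h' : (chkT an H l (setHi C ax x) && chkT an H r (setLw C ax x)) = true := h
    rw [Bool.and_eq_true] at h'
    exact top_split ax x (ihl h'.1) (ihr h'.2)
  | cell th n0 n1 n2 n3 =>
    have h' : (okB C && (!Nat.beq (th % 8) 1 || plOK th C) &&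
      corner an H C th n0 C.t0 C.f0 && corner an H C th n1 C.t0 C.f1 &&
      corner an H C th n2 C.t1 C.f0 && corner an H C th n3 C.t1 C.f1) = true := h
    simp only [Bool.and_eq_true] at h'
    obtain ⟨⟨⟨⟨⟨hC, hp⟩, a0⟩, a1⟩, a2⟩, a3⟩ := h'
    intro g₁ g₂ v₁ v₂ J K hF hS hU
    have hg : 0 < g₁ + g₂ := by linarith [hF.g12, hF.g2pos]
    have hS0 : (SG : ℝ) ≠ 0 := by
      rw [SG_eq]
      norm_num
    have q := star_ind hC hg hS (fun a b => VQ K true (Nat.beq (th % 8) 1) (Nat.beq (th % 8) 2) (a / SG) (b / SG)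
      (-(a / SG * mo K 3 0 + b / SG * mo K 1 2) / (2 * volume.real K))
      (-(a / SG * mo K 2 1 + b / SG * mo K 0 3) / (2 * volume.real K))
      (lG (Nat.beq (th % 8) 1) th K (a / SG) (b / SG)
      (-(a / SG * mo K 3 0 + b / SG * mo K 1 2) / (2 * volume.real K))
      (-(a / SG * mo K 2 1 + b / SG * mo K 0 3) / (2 * volume.real K)))) (by
        intro a b a' b' x hx p p'
        convert VQ_conv hF.iso hx p p' using 1
        iterate 4 ring
        obtain ⟨a, p, q, r, s, e⟩ := lG_aff (Nat.beq (th % 8) 1) th K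
        simp only [e]
        ring) (by
        rintro t f (rfl | rfl) (rfl | rfl) _
        · exact corner_sound hM hH hC a0 hF hS hU
        · exact corner_sound hM hH hC a1 hF hS hU
        · exact corner_sound hM hH hC a2 hF hS hU
        · exact corner_sound hM hH hC a3 hF hS hU)
    obtain ⟨w1, w2⟩ := top_v hF.toFr
    rw [mul_div_cancel_left₀ _ hS0, mul_div_cancel_left₀ _ hS0, ← w1, ← w2] at q
    have l0 : 0 ≤ lG (Nat.beq (th % 8) 1) th K g₁ g₂ v₁ v₂ := by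
      unfold lG lC
      cases hb : Nat.beq (th % 8) 1
      · have k := hF.low ![-(kY1 th : ℝ) / 64, -(kY2 th : ℝ) / 64]
        rw [if_neg Bool.false_ne_true, zero_mul, sub_zero]
        exact mul_nonneg (by positivity) (add_nonneg (sub_nonneg.2 k) (by positivity))
      · rw [hb] at hp
        have k := mul_le_mul_of_nonneg_left (plOK_ok hC hF hS hU hp
          ![-(kY1 th : ℝ) / 64, -(kY2 th : ℝ) / 64]) (by positivity : (0 : ℝ) ≤ pK th / 16)
        have k1 : (kK th : ℝ) = 8 * pK th := by rw [kK, hb, cond_true, Nat.cast_mul, Nat.cast_ofNat]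
        have k2 : kGB th = pGB th := by rw [kGB, hb, cond_true]
        rw [if_pos rfl, k1, k2]
        linarith
    exact ⟨_, _, q.1, q.2.1, lt_of_le_of_lt (by linarith) q.2.2⟩
  | dead n =>
    have h' : (okB C && dead an H C n) = true := h
    rw [Bool.and_eq_true] at h'
    intro g₁ g₂ v₁ v₂ J K hF hS hU
    exact (dead_sound hM hH h'.1 h'.2 hF hS hU).elim
  | kout a b =>
    have h' : outB G00 C a b = true := h
    intro g₁ g₂ v₁ v₂ J K hF hS hU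
    exact (out_spec hF.toFr (rng_of hU hS hF.v1nn hF.v2nn (hz _) (hz _)) h').elim
  | kvol z n j τ =>
    have h' : (okB C && Nat.blt τ 103923 &&
      volP G00 C (Int.negOfNat (z * 786432)) (Int.negOfNat (n * 786432)) j τ) = true := h
    rw [Bool.and_eq_true, Bool.and_eq_true, Nat.blt_eq] at h'
    intro g₁ g₂ v₁ v₂ J K hF hS hU
    have a := volP_ok h'.1.1 hF.toFr (rng_of hU hS hF.v1nn hF.v2nn (hz _) (hz _)) h'.2
    have b : ((103923 : ℕ) : ℝ) ≤ _ := (st0_ok hF.iso hF.area).vl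
    have c : (τ : ℝ) < (103923 : ℕ) := Nat.cast_lt.2 h'.1.2
    exact absurd (c.trans_le (b.trans a)) (lt_irrefl _)

theorem frD_of_top (h : TopOK bx0) : FrD cU cT cB cK cL cS cA cZ := by
  intro g₁ g₂ v₁ v₂ J K hF hc
  obtain ⟨_, _, q⟩ := h _ _ _ _ _ _ ⟨hF, hc⟩ (fr_rng hF).1 (fr_rng hF).2
  exact goal_of_VQ hF q

end Pool.Agent.P.MP_2e1554_gt.Chk
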