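import Pool.Agent.P.MP_2e1554_gt.IsoGeo
import Pool.Agent.P.MP_2e1554_gt.IsoLane

/-! Operations that use only convexity. -/

open MeasureTheory Set Finset

namespace Pool.Agent.P.MP_2e1554_gt.Chk

theorem tgt_le {K : Set (Fin 2 → ℝ)} (hK : Iso K) {sec : Bool} {i τ : ℕ} (hi : i < 56)
    (h : Tgt K sec i τ) : τ ≤ 2 ^ 20 := by
  have h1 := (gauge_rng hK hi (x := 0) ⟨le_rfl, zero_le_one⟩).2
  have h2 : (τ : ℝ) < 2 ^ 20 * gauge K (ep i 0) := by
    cases sec
    · rw [ep_zero]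
      simpa [Tgt] using h
    · exact (show ∀ x ∈ Icc (0 : ℝ) 1, (τ : ℝ) < 2 ^ 20 * gauge K (ep i x) by
        simpa [Tgt] using h) 0 ⟨le_rfl, zero_le_one⟩
  have h3 : (τ : ℝ) ≤ ((2 ^ 20 : ℕ) : ℝ) := by
    push_cast
    linarith
  exact_mod_cast h3

private theorem opa_node {K : Set (Fin 2 → ℝ)} {i τ : ℕ} :
    Tgt K false i τ ↔ (τ : ℝ) < 2 ^ 20 * gauge K (en i) := Iff.rfl

private theorem opa_sec {K : Set (Fin 2 → ℝ)} {i τ : ℕ} :
    Tgt K true i τ ↔ ∀ x ∈ Icc (0 : ℝ) 1, (τ : ℝ) < 2 ^ 20 * gauge K (ep i x) := Iff.rfl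

theorem tgt_zero {K : Set (Fin 2 → ℝ)} (hK : Iso K) (sec : Bool) {i : ℕ} (hi : i < 56) :
    Tgt K sec i 0 := by
  cases sec
  · refine opa_node.2 ?_
    have h1 := (gauge_rng hK hi (x := 0) ⟨le_rfl, zero_le_one⟩).1
    rw [ep_zero] at h1
    push_cast
    linarith
  · refine opa_sec.2 fun x hx => ?_
    have h1 := (gauge_rng hK hi hx).1
    push_cast
    linarith

private theorem opa_raise {X i τ : ℕ} (hX : Bd X 56 (2 ^ 20)) (hi : i < 56) (hτ : τ ≤ 2 ^ 20) :
    Bd (raise X i τ) 56 (2 ^ 20) ∧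
      ∀ l, dg X l = dg (raise X i τ) l ∨ (l = i ∧ τ = dg (raise X i τ) l) := by
  unfold raise
  cases Nat.blt (lane X i) τ
  · exact ⟨hX, fun l => Or.inl rfl⟩
  · obtain ⟨h1, h2⟩ := upd_spec hX hi hτ (by norm_num)
    refine ⟨h1, fun l => ?_⟩
    have h3 := h2 l
    by_cases hl : l = i
    · rw [if_pos hl] at h3
      exact Or.inr ⟨hl, h3.symm⟩
    · rw [if_neg hl] at h3
      exact Or.inl h3.symm

theorem setLo_ok {s : St} {K : Set (Fin 2 → ℝ)} (hK : Iso K) (hs : StOK s K) {sec : Bool} {i τ : ℕ}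
    (hi : i < 56) (h : Tgt K sec i τ) : StOK (setLo s sec i τ) K := by
  have hτ := tgt_le hK hi h
  cases sec
  · have e : setLo s false i τ = ⟨raise s.ql i τ, s.qh, s.sl, s.ll, s.vl, s.vh⟩ := by
      rw [setLo, cond_false, force_eq]
    rw [e]
    obtain ⟨h1, h2⟩ := opa_raise hs.bql hi hτ
    refine ⟨⟨h1, hs.bqh, hs.bsl, hs.bll⟩, fun l hl => ?_, hs.qh, hs.sl, hs.ll, hs.vl, hs.vh⟩
    rcases h2 l with h3 | ⟨h3, h4⟩
    · exact h3 ▸ hs.ql l hl
    · subst h3
      exact h4 ▸ opa_node.1 h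
  · have e : setLo s true i τ = ⟨s.ql, s.qh, raise s.sl i τ, s.ll, s.vl, s.vh⟩ := by
      rw [setLo, cond_true, force_eq]
    rw [e]
    obtain ⟨h1, h2⟩ := opa_raise hs.bsl hi hτ
    refine ⟨⟨hs.bql, hs.bqh, h1, hs.bll⟩, hs.ql, hs.qh, fun l hl => ?_, hs.ll, hs.vl, hs.vh⟩
    rcases h2 l with h3 | ⟨h3, h4⟩
    · exact h3 ▸ hs.sl l hl
    · subst h3
      exact h4 ▸ opa_sec.1 h

theorem setQh_ok {s : St} {K : Set (Fin 2 → ℝ)} (hs : StOK s K) {i τ : ℕ} (hi : i < 56)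
    (hτ : τ ≤ 2 ^ 20) (h : 2 ^ 20 * gauge K (en i) ≤ (τ : ℝ)) :
    StOK ⟨s.ql, upd s.qh i τ, s.sl, s.ll, s.vl, s.vh⟩ K := by
  obtain ⟨h1, h2⟩ := upd_spec hs.bqh hi hτ (by norm_num)
  refine ⟨⟨hs.bql, h1, hs.bsl, hs.bll⟩, hs.ql, fun l hl => ?_, hs.sl, hs.ll, hs.vl, hs.vh⟩
  show _ ≤ ((dg (upd s.qh i τ) l : ℕ) : ℝ)
  rw [h2 l]
  split_ifs with h3
  · exact h3 ▸ h
  · exact hs.qh l hl

theorem setQl_ok {s : St} {K : Set (Fin 2 → ℝ)} (hs : StOK s K) {i τ : ℕ} (hi : i < 56)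
    (hτ : τ ≤ 2 ^ 20) (h : (τ : ℝ) < 2 ^ 20 * gauge K (en i)) :
    StOK ⟨upd s.ql i τ, s.qh, s.sl, s.ll, s.vl, s.vh⟩ K := by
  obtain ⟨h1, h2⟩ := upd_spec hs.bql hi hτ (by norm_num)
  refine ⟨⟨h1, hs.bqh, hs.bsl, hs.bll⟩, fun l hl => ?_, hs.qh, hs.sl, hs.ll, hs.vl, hs.vh⟩
  show ((dg (upd s.ql i τ) l : ℕ) : ℝ) < _
  rw [h2 l]
  split_ifs with h3
  · exact h3 ▸ h
  · exact hs.ql l hl

theorem setL_ok {s : St} {K : Set (Fin 2 → ℝ)} (hs : StOK s K) {i L : ℕ} (hi : i < 84)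
    (hL : L ≤ dg s.ll i) (h : LOK K i L) : StOK ⟨s.ql, s.qh, s.sl, upd s.ll i L, s.vl, s.vh⟩ K := by
  obtain ⟨h1, h2⟩ := upd_spec (i := i) hs.bll.1 (by omega) (hL.trans (hs.bll.1.2 i)) (by norm_num)
  refine ⟨⟨hs.bql, hs.bqh, hs.bsl, h1, fun l hl => ?_⟩, hs.ql, hs.qh, hs.sl,
    ⟨fun l hl => ?_, fun n hn => ?_⟩, hs.vl, hs.vh⟩
  · show dg (upd s.ll i L) l ≤ 38
    rw [h2 l]
    split_ifs with h3
    · exact hL.trans (h3 ▸ hs.bll.2 l hl)
    · exact hs.bll.2 l hl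
  · show LOK K l (dg (upd s.ll i L) l)
    rw [h2 l]
    split_ifs with h3
    · exact h3 ▸ h
    · exact hs.ll.1 l hl
  · show MOK K n (dg (upd s.ll i L) _) (dg (upd s.ll i L) _) (dg (upd s.ll i L) _)
    rw [h2, h2, h2, if_neg (by omega), if_neg (by omega), if_neg (by omega)]
    exact hs.ll.2 n hn

/-- `dt a b • c = dt c b • a + dt a c • b` and `Iso.gauge_comb` -/
theorem gauge_dt {K : Set (Fin 2 → ℝ)} (hK : Iso K) (a b c : Fin 2 → ℝ) {σ : ℝ}
    (h0 : 0 ≤ σ * dt a b) (h1 : 0 ≤ σ * dt c b) (h2 : 0 ≤ σ * dt a c) :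
    σ * dt a b * gauge K c ≤ σ * dt c b * gauge K a + σ * dt a c * gauge K b := by
  have e : (σ * dt a b) • c = (σ * dt c b) • a + (σ * dt a c) • b := by
    ext t
    fin_cases t <;> simp [dt] <;> ring
  have h := hK.gauge_comb a b h1 h2
  rwa [← e, gauge_smul_of_nonneg h0, smul_eq_mul] at h

private theorem opa_nn {x : ℤ} (h : nn x = true) : 0 ≤ x := by
  have h1 : (-x).toNat = 0 := Nat.eq_of_beq_eq_true h
  omega

private theorem opa_toNat {x : ℤ} (h : 0 ≤ x) : ((x.toNat : ℕ) : ℝ) = (x : ℝ) := by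
  have h1 : ((x.toNat : ℕ) : ℤ) = x := Int.toNat_of_nonneg h
  exact_mod_cast congrArg (fun z : ℤ => (z : ℝ)) h1

theorem hull_ok {s : St} {K : Set (Fin 2 → ℝ)} (hK : Iso K) (hs : StOK s K) {l j m : ℕ} (hl : l < 56)
    (hj : j < 56) (hm : m < 56) : StOK ⟨s.ql, hull s.qh l j m, s.sl, s.ll, s.vl, s.vh⟩ K := by
  unfold hull
  simp only [lane_eq]
  generalize hn : ((det l m).toNat * dg s.qh j + (det j l).toNat * dg s.qh m) / (det j m).toNat + 1 = n
  cases hc : (Nat.blt 0 (det j m).toNat && nn (det l m) && nn (det j l) && Nat.blt n (dg s.qh l))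
  · exact hs
  · simp only [Bool.and_eq_true, Nat.blt_eq] at hc
    obtain ⟨⟨⟨c1, c2⟩, c3⟩, c4⟩ := hc
    have d2 := opa_nn c2
    have d3 := opa_nn c3
    have d1 : 0 ≤ det j m := by omega
    refine setQh_ok hs hl (c4.le.trans (hs.bqh.2 l)) ?_
    have h1 : (det l m).toNat * dg s.qh j + (det j l).toNat * dg s.qh m < (det j m).toNat * n := by
      rw [← hn]
      exact Nat.lt_mul_div_succ _ c1
    have h2 : (((det l m).toNat : ℝ)) * dg s.qh j + ((det j l).toNat : ℝ) * dg s.qh m <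
        ((det j m).toNat : ℝ) * n := by exact_mod_cast h1
    have h3 : (0 : ℝ) < ((det j m).toNat : ℝ) := by exact_mod_cast c1
    rw [opa_toNat d1] at h2 h3
    rw [opa_toNat d2, opa_toNat d3] at h2
    have e2 : (0 : ℝ) ≤ (det l m : ℝ) := by exact_mod_cast d2
    have e3 : (0 : ℝ) ≤ (det j l : ℝ) := by exact_mod_cast d3
    have h4 := gauge_dt hK (en j) (en m) (en l) (σ := 576) (by rw [dt_en]; linarith)
      (by rw [dt_en]; linarith) (by rw [dt_en]; linarith)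
    rw [dt_en, dt_en, dt_en] at h4
    have h5 := mul_le_mul_of_nonneg_left (hs.qh j hj) e2
    have h6 := mul_le_mul_of_nonneg_left (hs.qh m hm) e3
    refine le_of_mul_le_mul_left ?_ h3
    nlinarith

private theorem opa_odet (o : Bool) (a b : ℕ) :
    (if o = true then (-576 : ℝ) else 576) * dt (en a) (en b) = (odet o a b : ℝ) := by
  cases o
  · rw [if_neg (by simp), dt_en]
    show _ = ((det a b : ℤ) : ℝ)
    ring
  · rw [if_pos rfl, dt_en]
    show _ = ((det b a : ℤ) : ℝ)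
    simp only [det]
    push_cast
    ring

private theorem opa_shad1 {s : St} {o : Bool} {a j l τ : ℕ} (h0 : 0 < τ) (h : τ ≤ shad1 s o a j l) :
    0 < (if o = true then (-576 : ℝ) else 576) * dt (en a) (en l) ∧
    0 ≤ (if o = true then (-576 : ℝ) else 576) * dt (en a) (en j) ∧
    0 < (if o = true then (-576 : ℝ) else 576) * dt (en j) (en l) ∧
    τ * ((if o = true then (-576 : ℝ) else 576) * dt (en j) (en l)) ≤
      (if o = true then (-576 : ℝ) else 576) * dt (en a) (en l) * dg s.ql j -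
        (if o = true then (-576 : ℝ) else 576) * dt (en a) (en j) * dg s.qh l := by
  rw [opa_odet, opa_odet, opa_odet]
  unfold shad1 at h
  rw [lane_eq, lane_eq] at h
  generalize odet o a l = A at h ⊢
  generalize odet o a j = B at h ⊢
  generalize odet o j l = D at h ⊢
  generalize dg s.ql j = p at h ⊢
  generalize dg s.qh l = q at h ⊢
  cases hc : nn B
  · rw [hc] at h
    exact absurd h (by simp only [cond_false]; omega)
  · rw [hc] at h
    simp only [cond_true] at h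
    have hB := opa_nn hc
    have hD : 0 < D.toNat := by
      rcases Nat.eq_zero_or_pos D.toNat with h1 | h1
      · rw [h1, Nat.div_zero] at h
        omega
      · exact h1
    have h1 : τ * D.toNat ≤ A.toNat * p - B.toNat * q := (Nat.le_div_iff_mul_le hD).1 h
    have h2 : 0 < τ * D.toNat := Nat.mul_pos h0 hD
    have h3 : τ * D.toNat + B.toNat * q ≤ A.toNat * p := by omega
    have hA : 0 < A.toNat := by
      rcases Nat.eq_zero_or_pos A.toNat with h4 | h4
      · rw [h4, zero_mul] at h3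
        omega
      · exact h4
    have h4 : (τ : ℝ) * D.toNat + B.toNat * q ≤ A.toNat * p := by exact_mod_cast h3
    have hA' : 0 < A := by omega
    have hD' : 0 < D := by omega
    rw [opa_toNat hA'.le, opa_toNat hB, opa_toNat hD'.le] at h4
    refine ⟨by exact_mod_cast hA', by exact_mod_cast hB, by exact_mod_cast hD', by linarith⟩

private theorem opa_key {s : St} {K : Set (Fin 2 → ℝ)} (hK : Iso K) (hs : StOK s K) {j l : ℕ}
    (hj : j < 56) (hl : l < 56) {σ τ : ℝ} {p : Fin 2 → ℝ} (h1 : 0 < σ * dt p (en l))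
    (h2 : 0 ≤ σ * dt p (en j)) (h3 : 0 < σ * dt (en j) (en l))
    (h4 : τ * (σ * dt (en j) (en l)) ≤
      σ * dt p (en l) * dg s.ql j - σ * dt p (en j) * dg s.qh l) : τ < 2 ^ 20 * gauge K p := by
  have h5 := gauge_dt hK p (en l) (en j) h1.le h3.le h2
  have h6 := mul_lt_mul_of_pos_left (hs.ql j hj) h1
  have h7 := mul_le_mul_of_nonneg_left (hs.qh l hl) h2
  refine lt_of_mul_lt_mul_left ?_ h3.le
  nlinarith

/-- if the value is positive, all determinants have the right sign at both ends of the sector,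
and they are linear in the point -/
theorem shad_ok {s : St} {K : Set (Fin 2 → ℝ)} (hK : Iso K) (hs : StOK s K) (o sec : Bool) {i j l : ℕ}
    (hi : i < 56) (hj : j < 56) (hl : l < 56) : Tgt K sec i (shad s o sec i j l) := by
  cases sec
  · have e : shad s o false i j l = shad1 s o i j l := rfl
    rw [e]
    rcases Nat.eq_zero_or_pos (shad1 s o i j l) with h | h
    · rw [h]
      exact tgt_zero hK false hi
    · obtain ⟨h1, h2, h3, h4⟩ := opa_shad1 h le_rfl
      exact opa_node.2 (opa_key hK hs hj hl h1 h2 h3 h4)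
  · have e : shad s o true i j l = min (shad1 s o i j l) (shad1 s o (i + 1) j l) := by
      rw [shad, cond_true, force_eq]
    rw [e]
    rcases Nat.eq_zero_or_pos (min (shad1 s o i j l) (shad1 s o (i + 1) j l)) with h | h
    · rw [h]
      exact tgt_zero hK true hi
    · obtain ⟨h1, h2, h3, h4⟩ := opa_shad1 h (min_le_left _ _)
      obtain ⟨k1, k2, -, k4⟩ := opa_shad1 h (min_le_right _ _)
      generalize min (shad1 s o i j l) (shad1 s o (i + 1) j l) = τ at h4 k4 ⊢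
      generalize (if o = true then (-576 : ℝ) else 576) = σ at h1 h2 h3 h4 k1 k2 k4
      refine opa_sec.2 fun x hx => ?_
      have hx0 := hx.1
      have hx1 : 0 ≤ 1 - x := sub_nonneg.2 hx.2
      have hd : ∀ b : Fin 2 → ℝ, σ * dt (ep i x) b =
          (1 - x) * (σ * dt (en i) b) + x * (σ * dt (en (i + 1)) b) := by
        intro b
        simp only [dt, ep, Pi.add_apply, Pi.smul_apply, smul_eq_mul]
        ring
      refine opa_key hK hs hj hl (σ := σ) ?_ ?_ h3 ?_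
      · rw [hd]
        rcases eq_or_lt_of_le hx0 with h0 | h0
        · rw [← h0]
          linarith
        · exact add_pos_of_nonneg_of_pos (mul_nonneg hx1 h1.le) (mul_pos h0 k1)
      · rw [hd]
        exact add_nonneg (mul_nonneg hx1 h2) (mul_nonneg hx0 k2)
      · rw [hd, hd]
        have m1 := mul_le_mul_of_nonneg_left h4 hx1
        have m2 := mul_le_mul_of_nonneg_left k4 hx0
        linarith

theorem lift_ok {s : St} {K : Set (Fin 2 → ℝ)} (hs : StOK s K) {i : ℕ} (hi : i < 56) :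
    Tgt K false i (max (lane s.sl i) (lane s.sl ((i + 55) % 56))) := by
  refine opa_node.2 ?_
  rw [lane_eq, lane_eq]
  have h1 := hs.sl i hi 0 ⟨le_rfl, zero_le_one⟩
  have h2 := hs.sl ((i + 55) % 56) (Nat.mod_lt _ (by norm_num)) 1 ⟨zero_le_one, le_rfl⟩
  rw [ep_zero] at h1
  have e : en ((i + 55) % 56 + 1) = en i := by
    obtain ⟨-, -, h3, h4⟩ := ex_row i hi
    rw [en, en, h3, h4]
  rw [ep_one, e] at h2
  rw [Nat.cast_max]
  exact max_lt h1 h2

end Pool.Agent.P.MP_2e1554_gt.Chk
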