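import Pool.Agent.P.MP_2e1554_gt.IsoLane2
import Pool.Agent.P.MP_2e1554_gt.IsoOpA
import Pool.Agent.P.MP_2e1554_gt.IsoOpB
import Pool.Agent.P.MP_2e1554_gt.IsoSemW

/-! Operations between the supports and the gauge. -/

open MeasureTheory Set Finset

namespace Pool.Agent.P.MP_2e1554_gt.Chk

private theorem wa_anti : ∀ z < 56, ex ((z + 28) % 56) = -ex z ∧ ey ((z + 28) % 56) = -ey z := by
  decide +kernel

private theorem wa_r2 : ∀ z < 56, 576 ≤ r2 z ∧ r2 z ≤ 720 := by decide +kernel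

private theorem wa_w0 : ∀ z < 56, dg WL0 z ^ 2 ≤ 2 * r2 z * 2 ^ 24 ∧
    8 * r2 z * 2 ^ 24 ≤ dg WH0 z ^ 2 := by decide +kernel

private theorem wa_dots : ∀ z < 56, dots z < 2 ^ (64 * 56) ∧
    ∀ i < 56, dg (dots z) i ≤ 2304 ∧ dg (dots z) i = dt2 z i := by decide +kernel

private theorem wa_smul (z : ℕ) (t : ℝ) (y : Fin 2 → ℝ) : lin z (t • y) = t * lin z y := by
  simp only [lin, Pi.smul_apply, smul_eq_mul]
  ring

private theorem wa_ep (z i : ℕ) (x : ℝ) :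
    lin z (ep i x) = (1 - x) * lin z (en i) + x * lin z (en (i + 1)) := by
  simp only [lin, ep, Pi.add_apply, Pi.smul_apply, smul_eq_mul]
  ring

private theorem wa_en (z i : ℕ) :
    lin z (en i) = 4096 * ((ex z * ex i + ey z * ey i : ℤ) : ℝ) / 24 := by
  show 4096 * ((ex z : ℝ) * ((ex i : ℝ) / 24) + (ey z : ℝ) * ((ey i : ℝ) / 24)) = _
  push_cast
  ring

private theorem wa_en_le (z i : ℕ) : lin z (en i) ≤ 4096 * (dt2 z i : ℝ) / 24 := by
  have h : ((ex z * ex i + ey z * ey i : ℤ) : ℝ) ≤ (dt2 z i : ℝ) := by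
    have h1 : ex z * ex i + ey z * ey i ≤ (dt2 z i : ℤ) := Int.self_le_toNat _
    exact_mod_cast h1
  rw [wa_en]
  linarith

private theorem wa_en_eq {z i : ℕ} (h : 0 < dt2 z i) : lin z (en i) = 4096 * (dt2 z i : ℝ) / 24 := by
  have h1 : (dt2 z i : ℤ) = ex z * ex i + ey z * ey i := by
    unfold dt2 at h ⊢
    omega
  rw [wa_en, ← h1]
  push_cast
  rfl

theorem lin_anti {z : ℕ} (hz : z < 56) (y : Fin 2 → ℝ) : lin ((z + 28) % 56) y = -lin z y := by
  obtain ⟨h1, h2⟩ := wa_anti z hz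
  rw [lin, lin, h1, h2]
  push_cast
  ring

theorem r2_eq (z : ℕ) : (r2 z : ℝ) = (ex z : ℝ) ^ 2 + (ey z : ℝ) ^ 2 := by
  rw [r2, Nat.cast_add, sq_eq, sq_eq]

theorem r2_rng {z : ℕ} (hz : z < 56) : 576 ≤ r2 z ∧ r2 z ≤ 720 := by
  exact wa_r2 z hz

/-- `Fr.inn` at `y = wl / (4096 r2) • (ex, ey)`, `Fr.out` with Cauchy-Schwarz; by `decide +kernel`:
`dg WL0 z ^ 2 ≤ 2 * r2 z * 2^24`, `8 * r2 z * 2^24 ≤ dg WH0 z ^ 2` -/
theorem w0_ok {g₁ g₂ v₁ v₂ J : ℝ} {K : Set (Fin 2 → ℝ)} (hF : Fr g₁ g₂ v₁ v₂ J K) : WOK w0 K := by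
  refine ⟨bd_of (by decide +kernel) (by decide +kernel), bd_of (by decide +kernel) (by decide +kernel),
    fun z hz => ?_, fun z hz y hy => ?_⟩
  · have h1 : ((dg WL0 z : ℕ) : ℝ) ^ 2 ≤ 2 * (r2 z : ℝ) * 2 ^ 24 := by exact_mod_cast (wa_w0 z hz).1
    have h2 : (0 : ℝ) < r2 z := by
      have := (wa_r2 z hz).1
      exact_mod_cast (show 0 < r2 z by omega)
    have h3 := r2_eq z
    show ∃ y ∈ K, ((dg WL0 z : ℕ) : ℝ) ≤ lin z y
    generalize ((dg WL0 z : ℕ) : ℝ) = a at h1 ⊢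
    generalize (r2 z : ℝ) = r at h1 h2 h3
    refine ⟨(a / (4096 * r)) • ![(ex z : ℝ), (ey z : ℝ)], hF.inn _ ?_, le_of_eq ?_⟩
    · have e : ((a / (4096 * r)) • ![(ex z : ℝ), (ey z : ℝ)]) ⬝ᵥ
          ((a / (4096 * r)) • ![(ex z : ℝ), (ey z : ℝ)]) = (a / (4096 * r)) ^ 2 * r := by
        simp only [dotProduct, Fin.sum_univ_two, Pi.smul_apply, smul_eq_mul, Matrix.cons_val_zero,
          Matrix.cons_val_one, Matrix.cons_val_fin_one]
        linear_combination (-(a / (4096 * r)) ^ 2) * h3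
      have e2 : (a / (4096 * r)) ^ 2 * r = a ^ 2 / (r * 2 ^ 24) := by
        field_simp
        norm_num
      rw [e, e2, div_le_iff₀ (by positivity)]
      linarith
    · rw [wa_smul]
      have e : lin z ![(ex z : ℝ), (ey z : ℝ)] = 4096 * r := by
        show 4096 * ((ex z : ℝ) * (ex z : ℝ) + (ey z : ℝ) * (ey z : ℝ)) = _
        rw [h3]
        ring
      rw [e, div_mul_cancel₀ _ (by positivity)]
  · have h1 : 8 * (r2 z : ℝ) * 2 ^ 24 ≤ ((dg WH0 z : ℕ) : ℝ) ^ 2 := by exact_mod_cast (wa_w0 z hz).2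
    have h2 := hF.out y hy
    simp only [dotProduct, Fin.sum_univ_two] at h2
    rw [r2_eq] at h1
    show lin z y ≤ ((dg WH0 z : ℕ) : ℝ)
    refine (abs_le_of_sq_le_sq' (le_trans ?_ h1) (Nat.cast_nonneg _)).2
    rw [lin]
    generalize (ex z : ℝ) = p
    generalize (ey z : ℝ) = q
    have h3 := mul_le_mul_of_nonneg_left h2 (show 0 ≤ p ^ 2 + q ^ 2 by positivity)
    nlinarith [sq_nonneg (p * y 1 - q * y 0)]

theorem updWl_ok {w : Wt} {K : Set (Fin 2 → ℝ)} (hw : WOK w K) {z τ : ℕ} (hz : z < 56)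
    (h : ∃ y ∈ K, (τ : ℝ) ≤ lin z y) : WOK ⟨upd w.wl z τ, w.wh⟩ K := by
  have hτ : τ ≤ 2 ^ 19 := by
    obtain ⟨y, hy, h1⟩ := h
    have h2 : (τ : ℝ) ≤ (dg w.wh z : ℝ) := h1.trans (hw.hi z hz y hy)
    exact (Nat.cast_le.1 h2).trans (hw.bh.2 z)
  obtain ⟨h1, h2⟩ := upd_spec hw.bl hz hτ (by norm_num)
  refine ⟨h1, hw.bh, fun l hl => ?_, hw.hi⟩
  show ∃ y ∈ K, ((dg (upd w.wl z τ) l : ℕ) : ℝ) ≤ _
  rw [h2 l]
  split_ifs with h3
  · exact h3 ▸ h
  · exact hw.lo l hl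

theorem updWh_ok {w : Wt} {K : Set (Fin 2 → ℝ)} (hw : WOK w K) {z τ : ℕ} (hz : z < 56)
    (hτ : τ ≤ 2 ^ 19) (h : ∀ y ∈ K, lin z y ≤ (τ : ℝ)) : WOK ⟨w.wl, upd w.wh z τ⟩ K := by
  obtain ⟨h1, h2⟩ := upd_spec hw.bh hz hτ (by norm_num)
  refine ⟨hw.bl, h1, hw.lo, fun l hl => ?_⟩
  show ∀ y ∈ K, _ ≤ ((dg (upd w.wh z τ) l : ℕ) : ℝ)
  rw [h2 l]
  split_ifs with h3
  · exact h3 ▸ h
  · exact hw.hi l hl

theorem setWl_ok {s : St} {w : Wt} {K : Set (Fin 2 → ℝ)} (hw : WOK w K) {z τ : ℕ} (hz : z < 56)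
    (h : ∃ y ∈ K, (τ : ℝ) ≤ lin z y) : (setWl s w z τ).1 = s ∧ WOK (setWl s w z τ).2 K := by
  rw [setWl, force_eq]
  refine ⟨rfl, ?_⟩
  show WOK ⟨raise w.wl z τ, w.wh⟩ K
  unfold raise
  cases Nat.blt (lane w.wl z) τ
  · exact hw
  · exact updWl_ok hw hz h

theorem setWh_ok {s : St} {w : Wt} {K : Set (Fin 2 → ℝ)} (hw : WOK w K) {z τ : ℕ} (hz : z < 56)
    (h : ∀ y ∈ K, lin z y ≤ (τ : ℝ)) : (setWh s w z τ).1 = s ∧ WOK (setWh s w z τ).2 K := by
  rw [setWh, force_eq]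
  refine ⟨rfl, ?_⟩
  show WOK ⟨w.wl, lower w.wh z τ⟩ K
  unfold lower
  cases hb : Nat.blt τ (lane w.wh z)
  · exact hw
  · have h1 : τ < dg w.wh z := by
      rw [← lane_eq]
      exact Nat.blt_eq ▸ hb
    exact updWh_ok hw hz (h1.le.trans (hw.bh.2 z)) h

private theorem wa_strip {w : Wt} {K : Set (Fin 2 → ℝ)} (hK : Iso K) (hw : WOK w K) {z D : ℕ}
    (hz : z < 56) {e : Fin 2 → ℝ} (he : e ≠ 0) (h0 : 0 < D * 4294967296 / (24 * dg w.wh z))
    (h : 4096 * (D : ℝ) / 24 ≤ lin z e) :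
    ((D * 4294967296 / (24 * dg w.wh z) - 1 : ℕ) : ℝ) < 2 ^ 20 * gauge K e := by
  have hg := hK.gauge_pos he
  have h1 := hw.hi z hz ((gauge K e)⁻¹ • e)
    ((hK.gauge_mem (by positivity)).2 (inv_mul_cancel₀ hg.ne').le)
  rw [wa_smul, inv_mul_le_iff₀ hg] at h1
  have hW : 0 < dg w.wh z := by
    rcases Nat.eq_zero_or_pos (dg w.wh z) with h2 | h2
    · rw [h2, mul_zero, Nat.div_zero] at h0
      exact absurd h0 (lt_irrefl 0)
    · exact h2
  have hW' : (0 : ℝ) < dg w.wh z := by exact_mod_cast hW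
  have h2 : ((D * 4294967296 / (24 * dg w.wh z) : ℕ) : ℝ) * (24 * dg w.wh z) ≤ D * 4294967296 := by
    exact_mod_cast Nat.div_mul_le_self (D * 4294967296) (24 * dg w.wh z)
  rw [Nat.cast_sub h0]
  generalize ((D * 4294967296 / (24 * dg w.wh z) : ℕ) : ℝ) = q at h2 ⊢
  have h3 : q * (24 * dg w.wh z) ≤ 2 ^ 20 * gauge K e * (24 * dg w.wh z) := by linarith
  have h4 := le_of_mul_le_mul_right h3 (by positivity)
  push_cast
  linarith

/-- the point `ep i x / gauge` lies in `K` (`Iso.gauge_mem`); `tgt_zero` if the quotient is zero -/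
theorem strip_ok {w : Wt} {K : Set (Fin 2 → ℝ)} (hK : Iso K) (hw : WOK w K) (sec : Bool) {z i : ℕ}
    (hz : z < 56) (hi : i < 56) : Tgt K sec i (strip w sec z i) := by
  cases sec
  · have e : strip w false z i = dt2 z i * 4294967296 / (24 * dg w.wh z) - 1 := by
      rw [strip, cond_false, lane_eq]
    rw [e]
    rcases Nat.eq_zero_or_pos (dt2 z i * 4294967296 / (24 * dg w.wh z)) with h0 | h0
    · rw [h0]
      exact tgt_zero hK false hi
    · have hD : 0 < dt2 z i := by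
        rcases Nat.eq_zero_or_pos (dt2 z i) with h | h
        · rw [h, zero_mul, Nat.zero_div] at h0
          exact absurd h0 (lt_irrefl 0)
        · exact h
      have hne : en i ≠ 0 := ep_zero i ▸ ep_ne hi 0
      exact wa_strip hK hw hz hne h0 (wa_en_eq hD).ge
  · have e : strip w true z i =
        min (dt2 z i) (dt2 z (i + 1)) * 4294967296 / (24 * dg w.wh z) - 1 := by
      rw [strip, cond_true, lane_eq, force_eq]
    rw [e]
    rcases Nat.eq_zero_or_pos (min (dt2 z i) (dt2 z (i + 1)) * 4294967296 / (24 * dg w.wh z))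
      with h0 | h0
    · rw [h0]
      exact tgt_zero hK true hi
    · have hD : 0 < min (dt2 z i) (dt2 z (i + 1)) := by
        rcases Nat.eq_zero_or_pos (min (dt2 z i) (dt2 z (i + 1))) with h | h
        · rw [h, zero_mul, Nat.zero_div] at h0
          exact absurd h0 (lt_irrefl 0)
        · exact h
      intro x hx
      refine wa_strip hK hw hz (ep_ne hi x) h0 ?_
      have h1 : ((min (dt2 z i) (dt2 z (i + 1)) : ℕ) : ℝ) ≤ dt2 z i := by
        exact_mod_cast min_le_left _ _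
      have h2 : ((min (dt2 z i) (dt2 z (i + 1)) : ℕ) : ℝ) ≤ dt2 z (i + 1) := by
        exact_mod_cast min_le_right _ _
      rw [wa_ep, wa_en_eq (hD.trans_le (min_le_left _ _)), wa_en_eq (hD.trans_le (min_le_right _ _))]
      have h3 := mul_le_mul_of_nonneg_left h1 (sub_nonneg.2 hx.2)
      have h4 := mul_le_mul_of_nonneg_left h2 hx.1
      linarith

/-- the point `2^20 / qh • en i` lies in `K`; `0 ∈ K` -/
theorem supp_ok {s : St} {K : Set (Fin 2 → ℝ)} (hK : Iso K) (hs : StOK s K) (z : ℕ) {i : ℕ}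
    (hi : i < 56) : ∃ y ∈ K, (supp s z i : ℝ) ≤ lin z y := by
  rw [supp, lane_eq]
  rcases Nat.eq_zero_or_pos (dt2 z i * 4294967296 / (24 * dg s.qh i)) with h0 | h0
  · refine ⟨0, mem_of_mem_nhds hK.nhds_two, ?_⟩
    rw [h0]
    simp [lin]
  · have hD : 0 < dt2 z i := by
      rcases Nat.eq_zero_or_pos (dt2 z i) with h | h
      · rw [h, zero_mul, Nat.zero_div] at h0
        exact absurd h0 (lt_irrefl 0)
      · exact h
    have hQ : 0 < dg s.qh i := by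
      rcases Nat.eq_zero_or_pos (dg s.qh i) with h | h
      · rw [h, mul_zero, Nat.div_zero] at h0
        exact absurd h0 (lt_irrefl 0)
      · exact h
    have hQ' : (0 : ℝ) < dg s.qh i := by exact_mod_cast hQ
    refine ⟨(2 ^ 20 / (dg s.qh i : ℝ)) • en i, (hK.gauge_mem (by positivity)).2 ?_, ?_⟩
    · rw [div_mul_eq_mul_div, div_le_one hQ']
      exact hs.qh i hi
    · rw [wa_smul, wa_en_eq hD]
      refine Nat.cast_div_le.trans (le_of_eq ?_)
      push_cast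
      field_simp
      norm_num

private theorem wa_upper (y : Fin 2 → ℝ) (h : 0 ≤ y 1) :
    ∃ i < 28, ∃ x ∈ Icc (0 : ℝ) 1, ∃ t : ℝ, 0 ≤ t ∧ y = t • ep i x := by
  have e0 : dt (en 0) y = y 1 := by simp [dt, en, ex_zero.1, ex_zero.2]
  have e1 : dt (en 28) y = -y 1 := by
    have h1 := ex_anti 0 (by norm_num)
    rw [zero_add] at h1
    simp [dt, en, h1.1, h1.2, ex_zero.1, ex_zero.2]
  have key : ∃ i < 28, 0 ≤ dt (en i) y ∧ dt (en (i + 1)) y ≤ 0 := by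
    by_contra hn
    have h1 : ∀ i < 28, 0 ≤ dt (en i) y → 0 < dt (en (i + 1)) y := fun i hi h0 =>
      lt_of_not_ge fun h2 => hn ⟨i, hi, h0, h2⟩
    have h2 : ∀ i < 28, 0 ≤ dt (en i) y := by
      intro i
      induction i with
      | zero => exact fun _ => e0 ▸ h
      | succ i ih => exact fun hi => (h1 i (by omega) (ih (by omega))).le
    have h3 := h1 27 (by norm_num) (h2 27 (by norm_num))
    rw [show 27 + 1 = 28 from rfl, e1] at h3
    linarith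
  obtain ⟨i, hi, h1, h2⟩ := key
  have hd : dt (en i) (en (i + 1)) = 1 / 8 := by
    rw [dt_en, det_succ i (by omega)]
    norm_num
  have e : y = (-8 * dt (en (i + 1)) y) • en i + (8 * dt (en i) y) • en (i + 1) := by
    generalize en i = a at hd
    generalize en (i + 1) = b at hd
    unfold dt at hd ⊢
    funext k
    fin_cases k
    · show y 0 = -8 * (b 0 * y 1 - b 1 * y 0) * a 0 + 8 * (a 0 * y 1 - a 1 * y 0) * b 0
      linear_combination (-8 * y 0) * hd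
    · show y 1 = -8 * (b 0 * y 1 - b 1 * y 0) * a 1 + 8 * (a 0 * y 1 - a 1 * y 0) * b 1
      linear_combination (-8 * y 1) * hd
  have ha : 0 ≤ -8 * dt (en (i + 1)) y := by linarith
  have hb : 0 ≤ 8 * dt (en i) y := by linarith
  generalize -8 * dt (en (i + 1)) y = a at e ha
  generalize 8 * dt (en i) y = b at e hb
  rcases (add_nonneg ha hb).eq_or_lt with h0 | h0
  · obtain rfl : a = 0 := by linarith
    obtain rfl : b = 0 := by linarith
    exact ⟨i, hi, 0, ⟨le_rfl, zero_le_one⟩, 0, le_rfl, by rw [e]; simp⟩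
  · refine ⟨i, hi, b / (a + b), ⟨by positivity, (div_le_one h0).2 (by linarith)⟩, a + b, h0.le, ?_⟩
    have e2 : (a + b) * (1 - b / (a + b)) = a := by
      field_simp
      ring
    rw [ep, smul_add, smul_smul, smul_smul, e2, mul_div_cancel₀ _ h0.ne']
    exact e

/-- the sectors cover the plane: for `y 1 ≥ 0`, `y ≠ 0` take the last `i ≤ 28` with
`0 ≤ dt (en i) y` (or compare `sector_int`, `fan_poly` in IsoPoly); `ep_anti` for `y 1 < 0` -/
theorem sector_ex (y : Fin 2 → ℝ) : ∃ i < 56, ∃ x ∈ Icc (0 : ℝ) 1, ∃ t : ℝ, 0 ≤ t ∧ y = t • ep i x := by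
  rcases le_total 0 (y 1) with h | h
  · obtain ⟨i, hi, x, hx, t, ht, e⟩ := wa_upper y h
    exact ⟨i, by omega, x, hx, t, ht, e⟩
  · obtain ⟨i, hi, x, hx, t, ht, e⟩ := wa_upper (-y) (by simpa using h)
    refine ⟨i + 28, by omega, x, hx, t, ht, ?_⟩
    rw [ep_anti hi, smul_neg, ← e, neg_neg]

theorem dots_spec {z : ℕ} (hz : z < 56) : Bd (dots z) 56 2304 ∧ ∀ i < 56, dg (dots z) i = dt2 z i := by
  obtain ⟨h1, h2⟩ := wa_dots z hz
  exact ⟨bd_of h1 fun i hi => (h2 i hi).1, fun i hi => (h2 i hi).2⟩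

theorem cover_ok {s : St} {K : Set (Fin 2 → ℝ)} (hK : Iso K) (hs : StOK s K) {z τ : ℕ} (hz : z < 56)
    (hτ : τ ≤ 2 ^ 19) (h : cover s z τ = true) : ∀ y ∈ K, lin z y ≤ (τ : ℝ) := by
  intro y hy
  obtain ⟨i, hi, x, hx, t, ht, rfl⟩ := sector_ex y
  obtain ⟨d1, d2⟩ := dots_spec hz
  obtain ⟨r1, r2⟩ := rotR_spec (by norm_num) d1 (by norm_num)
  obtain ⟨m1, m2⟩ := lmax_spec d1 r1 (by norm_num) (by norm_num) H56_eq
  obtain ⟨a1, a2⟩ := m1.smul (c := 536870912) (by norm_num)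
  obtain ⟨b1, b2⟩ := hs.bsl.smul (c := 3 * τ) (by omega)
  obtain ⟨-, c2⟩ := lsub_spec a1 b1 (by norm_num) (by omega) H56_eq
  have h0 := c2 i
  rw [Nat.eq_of_beq_eq_true h, a2, b2, m2, r2 i hi, d2 i hi, d2 _ (Nat.mod_lt _ (by norm_num))] at h0
  have e1 : dt2 z ((i + 1) % 56) = dt2 z (i + 1) := by
    rcases Nat.lt_or_ge (i + 1) 56 with h1 | h1
    · rw [Nat.mod_eq_of_lt h1]
    · obtain rfl : i = 55 := by omega
      show dt2 z 0 = dt2 z 56
      rw [dt2, dt2, ex_per.1, ex_per.2.1]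
  have h1 : 536870912 * max (dt2 z i) (dt2 z (i + 1)) ≤ 3 * τ * dg s.sl i := by
    rw [e1, show dg 0 i = 0 by simp [dg]] at h0
    exact Nat.sub_eq_zero_iff_le.1 h0.symm
  have h2 : (536870912 : ℝ) * (max (dt2 z i) (dt2 z (i + 1)) : ℕ) ≤ 3 * τ * dg s.sl i := by
    exact_mod_cast h1
  have h3 : (dt2 z i : ℝ) ≤ (max (dt2 z i) (dt2 z (i + 1)) : ℕ) := by exact_mod_cast le_max_left _ _
  have h4 : (dt2 z (i + 1) : ℝ) ≤ (max (dt2 z i) (dt2 z (i + 1)) : ℕ) := by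
    exact_mod_cast le_max_right _ _
  have h5 := (hK.gauge_mem ht).1 hy
  have h6 := mul_le_mul_of_nonneg_left (hs.sl i hi x hx).le (Nat.cast_nonneg (α := ℝ) τ)
  have h7 : lin z (ep i x) ≤ τ * gauge K (ep i x) := by
    have h8 := mul_le_mul_of_nonneg_left ((wa_en_le z i).trans
      (show _ ≤ 4096 * ((max (dt2 z i) (dt2 z (i + 1)) : ℕ) : ℝ) / 24 by linarith)) (sub_nonneg.2 hx.2)
    have h9 := mul_le_mul_of_nonneg_left ((wa_en_le z (i + 1)).trans
      (show _ ≤ 4096 * ((max (dt2 z i) (dt2 z (i + 1)) : ℕ) : ℝ) / 24 by linarith)) hx.1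
    rw [wa_ep]
    linarith
  rw [wa_smul]
  have h8 := mul_le_mul_of_nonneg_left h7 ht
  have h9 := mul_le_mul_of_nonneg_left h5 (Nat.cast_nonneg (α := ℝ) τ)
  linarith

end Pool.Agent.P.MP_2e1554_gt.Chk
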