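import Pool.Agent.P.MP_2e1554_gt.IsoSemR
import Pool.Agent.P.MP_2e1554_gt.IsoWA

/-! Location of the extreme points. -/

open MeasureTheory Set Finset

namespace Pool.Agent.P.MP_2e1554_gt.Chk

private theorem ra_r0 : ∀ z < 56, ex (dg RL0 z) = ey z ∧ ey (dg RL0 z) = -ex z ∧
    ex (dg RH0 z) = -ey z ∧ ey (dg RH0 z) = ex z := by decide +kernel

private theorem ra_anti (a b : Fin 2 → ℝ) : dt a b = -dt b a := by
  simp only [dt]
  ring

private theorem ra_succ {i : ℕ} (hi : i < 56) : en ((i + 1) % 56) = en (i + 1) := by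
  rcases Nat.lt_or_ge (i + 1) 56 with h | h
  · rw [Nat.mod_eq_of_lt h]
  · obtain rfl : i = 55 := by omega
    exact en_56.1.symm

private theorem ra_en_le (z i : ℕ) : lin z (en i) ≤ 4096 * (dt2 z i : ℝ) / 24 := by
  have h : ((ex z * ex i + ey z * ey i : ℤ) : ℝ) ≤ (dt2 z i : ℝ) := by
    have h1 : ex z * ex i + ey z * ey i ≤ (dt2 z i : ℤ) := Int.self_le_toNat _
    exact_mod_cast h1
  show 4096 * ((ex z : ℝ) * ((ex i : ℝ) / 24) + (ey z : ℝ) * ((ey i : ℝ) / 24)) ≤ _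
  push_cast at h
  linarith

private theorem ra_lin (z i : ℕ) {x t : ℝ} (hx : x ∈ Icc (0 : ℝ) 1) (ht : 0 ≤ t) :
    24 * lin z (t • ep i x) ≤ t * (4096 * ((max (dt2 z i) (dt2 z (i + 1)) : ℕ) : ℝ)) := by
  have h3 : (dt2 z i : ℝ) ≤ (max (dt2 z i) (dt2 z (i + 1)) : ℕ) := by exact_mod_cast le_max_left _ _
  have h4 : (dt2 z (i + 1) : ℝ) ≤ (max (dt2 z i) (dt2 z (i + 1)) : ℕ) := by
    exact_mod_cast le_max_right _ _
  generalize ((max (dt2 z i) (dt2 z (i + 1)) : ℕ) : ℝ) = M at h3 h4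
  have h8 := mul_le_mul_of_nonneg_left ((ra_en_le z i).trans
    (show _ ≤ 4096 * M / 24 by linarith)) (sub_nonneg.2 hx.2)
  have h9 := mul_le_mul_of_nonneg_left ((ra_en_le z (i + 1)).trans
    (show _ ≤ 4096 * M / 24 by linarith)) hx.1
  have e : 24 * lin z (t • ep i x) =
      t * (24 * ((1 - x) * lin z (en i) + x * lin z (en (i + 1)))) := by
    simp only [lin, ep, Pi.add_apply, Pi.smul_apply, smul_eq_mul]
    ring
  rw [e]
  exact mul_le_mul_of_nonneg_left (by linarith) ht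

private theorem ra_step {φ : ℕ → ℝ} (h0 : 0 ≤ φ 0) {d : ℕ} (h1 : φ (d + 1) ≤ 0) :
    ∃ k < d + 1, 0 ≤ φ k ∧ φ (k + 1) ≤ 0 := by
  induction d with
  | zero => exact ⟨0, Nat.one_pos, h0, h1⟩
  | succ d ih =>
    rcases le_total (φ (d + 1)) 0 with h | h
    · obtain ⟨k, hk, h2⟩ := ih h
      exact ⟨k, by omega, h2⟩
    · exact ⟨d + 1, by omega, h, h1⟩

/-- a maximiser exists by compactness, its value is at least `lin z 0 = 0`; by `decide`:
`en ((z+42)%56)` and `en ((z+14)%56)` are `∓` the rotation of `en z` by a right angle -/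
theorem r0_ok {K : Set (Fin 2 → ℝ)} (hK : Iso K) : ROK r0 K := by
  have h0 : (0 : Fin 2 → ℝ) ∈ K := mem_of_mem_nhds hK.nhds_two
  refine ⟨bd_of (by decide +kernel) (by decide +kernel),
    bd_of (by decide +kernel) (by decide +kernel), fun z hz => ?_⟩
  obtain ⟨y, hy, hm⟩ := hK.cpt.exists_isMaxOn ⟨0, h0⟩ (f := lin z)
    (Continuous.continuousOn (by unfold lin; fun_prop))
  obtain ⟨e1, e2, e3, e4⟩ := ra_r0 z hz
  have h1 : lin z 0 ≤ lin z y := hm h0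
  simp only [lin, Pi.zero_apply, mul_zero, add_zero] at h1
  refine ⟨y, ⟨hy, fun y' hy' => hm hy'⟩, ?_, ?_⟩
  · show 0 ≤ (ex (dg RL0 z) : ℝ) / 24 * y 1 - (ey (dg RL0 z) : ℝ) / 24 * y 0
    rw [e1, e2]
    push_cast
    linarith
  · show 0 ≤ y 0 * ((ey (dg RH0 z) : ℝ) / 24) - y 1 * ((ex (dg RH0 z) : ℝ) / 24)
    rw [e3, e4]
    push_cast
    linarith

/-- `y = α en i + β en (i+1)` with `α = 8 dt y (en (i+1))`, `β = 8 dt (en i) y` (`det_succ`) -/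
theorem sec_of_dt {i : ℕ} (hi : i < 56) {y : Fin 2 → ℝ} (h0 : 0 ≤ dt (en i) y)
    (h1 : 0 ≤ dt y (en (i + 1))) : ∃ x ∈ Icc (0 : ℝ) 1, ∃ t : ℝ, 0 ≤ t ∧ y = t • ep i x := by
  have hd : dt (en i) (en (i + 1)) = 1 / 8 := by
    rw [dt_en, det_succ i (by omega)]
    norm_num
  have e : y = (8 * dt y (en (i + 1))) • en i + (8 * dt (en i) y) • en (i + 1) := by
    generalize en i = a at hd
    generalize en (i + 1) = b at hd
    funext k
    simp only [dt, Pi.add_apply, Pi.smul_apply, smul_eq_mul] at hd ⊢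
    fin_cases k
    · show y 0 = 8 * (y 0 * b 1 - y 1 * b 0) * a 0 + 8 * (a 0 * y 1 - a 1 * y 0) * b 0
      linear_combination (-8 * y 0) * hd
    · show y 1 = 8 * (y 0 * b 1 - y 1 * b 0) * a 1 + 8 * (a 0 * y 1 - a 1 * y 0) * b 1
      linear_combination (-8 * y 1) * hd
  have ha : 0 ≤ 8 * dt y (en (i + 1)) := by linarith
  have hb : 0 ≤ 8 * dt (en i) y := by linarith
  generalize 8 * dt y (en (i + 1)) = α at e ha
  generalize 8 * dt (en i) y = β at e hb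
  rcases (add_nonneg ha hb).eq_or_lt with h | h
  · refine ⟨0, ⟨le_rfl, zero_le_one⟩, 0, le_rfl, ?_⟩
    rw [e, show α = 0 by linarith, show β = 0 by linarith, zero_smul, zero_smul, zero_smul, add_zero]
  · refine ⟨β / (α + β), ⟨div_nonneg hb h.le, (div_le_one h).2 (by linarith)⟩, α + β, h.le, ?_⟩
    rw [e, ep, smul_add, smul_smul, smul_smul, mul_div_cancel₀ _ h.ne', mul_sub, mul_one,
      mul_div_cancel₀ _ h.ne', add_sub_cancel_right]

/-- on sector `i`: `t * sl i ≤ 2^20` -/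
theorem sec_lin {s : St} {K : Set (Fin 2 → ℝ)} (hK : Iso K) (hs : StOK s K) (z : ℕ) {i : ℕ}
    (hi : i < 56) {y : Fin 2 → ℝ} (hy : y ∈ K) (h0 : 0 ≤ dt (en i) y) (h1 : 0 ≤ dt y (en (i + 1))) :
    24 * (dg s.sl i : ℝ) * lin z y ≤ 2 ^ 32 * ((max (dt2 z i) (dt2 z (i + 1)) : ℕ) : ℝ) := by
  obtain ⟨x, hx, t, ht, rfl⟩ := sec_of_dt hi h0 h1
  have h2 := mul_le_mul_of_nonneg_left (ra_lin z i hx ht) (Nat.cast_nonneg (α := ℝ) (dg s.sl i))
  have h3 := (hK.gauge_mem ht).1 hy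
  have h4 := mul_le_mul_of_nonneg_left (hs.sl i hi x hx).le ht
  have h5 := mul_le_mul_of_nonneg_right (show t * (dg s.sl i : ℝ) ≤ 2 ^ 20 by linarith)
    (Nat.cast_nonneg (α := ℝ) (max (dt2 z i) (dt2 z (i + 1))))
  linarith

theorem miss_spec {s : St} {w : Wt} {K : Set (Fin 2 → ℝ)} (hK : Iso K) (hs : StOK s K) (hw : WOK w K)
    {z i : ℕ} (hz : z < 56) (hi : i < 56) (h : miss s w z i = true) {y : Fin 2 → ℝ} (hy : Ext K z y)
    (h0 : 0 ≤ dt (en i) y) (h1 : 0 ≤ dt y (en (i + 1))) : False := by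
  rw [miss, force_eq, Nat.blt_eq, lane_eq, lane_eq] at h
  have h2 : (4294967296 : ℝ) * ((max (dt2 z i) (dt2 z (i + 1)) : ℕ) : ℝ) <
      24 * (dg s.sl i : ℝ) * (dg w.wl z : ℝ) := by exact_mod_cast h
  obtain ⟨y', hy', h3⟩ := hw.lo z hz
  have h4 := mul_le_mul_of_nonneg_left (h3.trans (hy.2 y' hy'))
    (show (0 : ℝ) ≤ 24 * (dg s.sl i : ℝ) by positivity)
  have h5 := sec_lin hK hs z hi hy.1 h0 h1
  linarith

theorem trimL_spec {s : St} {w : Wt} {K : Set (Fin 2 → ℝ)} (hK : Iso K) (hs : StOK s K) (hw : WOK w K)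
    {z : ℕ} (hz : z < 56) {y : Fin 2 → ℝ} (hy : Ext K z y) (n : ℕ) {i : ℕ} (hi : i < 56)
    (h : 0 ≤ dt (en i) y) : trimL s w z n i < 56 ∧ 0 ≤ dt (en (trimL s w z n i)) y := by
  induction n generalizing i with
  | zero => exact ⟨hi, h⟩
  | succ n ih =>
    have e : trimL s w z (n + 1) i =
      bif miss s w z i then force ((i + 1) % 56) (trimL s w z n) else i := rfl
    rw [e, force_eq]
    cases hm : miss s w z i
    · exact ⟨hi, h⟩
    · refine ih (Nat.mod_lt _ (by norm_num)) (le_of_not_ge fun h2 => ?_)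
      rw [ra_succ hi, ra_anti] at h2
      exact miss_spec hK hs hw hz hi hm hy h (neg_nonpos.1 h2)

theorem trimH_spec {s : St} {w : Wt} {K : Set (Fin 2 → ℝ)} (hK : Iso K) (hs : StOK s K) (hw : WOK w K)
    {z : ℕ} (hz : z < 56) {y : Fin 2 → ℝ} (hy : Ext K z y) (n : ℕ) {i : ℕ} (hi : i < 56)
    (h : 0 ≤ dt y (en i)) : trimH s w z n i < 56 ∧ 0 ≤ dt y (en (trimH s w z n i)) := by
  induction n generalizing i with
  | zero => exact ⟨hi, h⟩
  | succ n ih =>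
    have e : trimH s w z (n + 1) i = force ((i + 55) % 56) fun j =>
      bif miss s w z j then trimH s w z n j else i := rfl
    rw [e, force_eq]
    have hj : (i + 55) % 56 < 56 := Nat.mod_lt _ (by norm_num)
    cases hm : miss s w z ((i + 55) % 56)
    · exact ⟨hi, h⟩
    · refine ih hj (le_of_not_ge fun h2 => ?_)
      rw [ra_anti] at h2
      refine miss_spec hK hs hw hz hj hm hy (neg_nonpos.1 h2) ?_
      rwa [← ra_succ hj, show ((i + 55) % 56 + 1) % 56 = i by omega]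

theorem updRl_ok {r : Rt} {K : Set (Fin 2 → ℝ)} (hr : ROK r K) {z m : ℕ} (hz : z < 56) (hm : m < 56)
    (h : ∃ y, Ext K z y ∧ 0 ≤ dt (en m) y ∧ 0 ≤ dt y (en (dg r.rh z))) :
    ROK ⟨upd r.rl z m, r.rh⟩ K := by
  obtain ⟨u1, u2⟩ := upd_spec (v := m) hr.bl hz (by omega) (by norm_num)
  refine ⟨u1, hr.bh, fun l hl => ?_⟩
  show ∃ y, Ext K l y ∧ 0 ≤ dt (en (dg (upd r.rl z m) l)) y ∧ 0 ≤ dt y (en (dg r.rh l))
  rw [u2]
  split_ifs with e
  · rw [e]; exact h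
  · exact hr.pt l hl

theorem updRh_ok {r : Rt} {K : Set (Fin 2 → ℝ)} (hr : ROK r K) {z m : ℕ} (hz : z < 56) (hm : m < 56)
    (h : ∃ y, Ext K z y ∧ 0 ≤ dt (en (dg r.rl z)) y ∧ 0 ≤ dt y (en m)) :
    ROK ⟨r.rl, upd r.rh z m⟩ K := by
  obtain ⟨u1, u2⟩ := upd_spec (v := m) hr.bh hz (by omega) (by norm_num)
  refine ⟨hr.bl, u1, fun l hl => ?_⟩
  show ∃ y, Ext K l y ∧ 0 ≤ dt (en (dg r.rl l)) y ∧ 0 ≤ dt y (en (dg (upd r.rh z m) l))
  rw [u2]
  split_ifs with e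
  · rw [e]; exact h
  · exact hr.pt l hl

theorem bp_ok {r : Rt} {K : Set (Fin 2 → ℝ)} (hr : ROK r K) {z m : ℕ} (hz : z < 56) (hm : m < 56) :
    ROK ⟨r.rl, upd r.rh z m⟩ K ∨ ROK ⟨upd r.rl z m, r.rh⟩ K := by
  obtain ⟨y, hy, h1, h2⟩ := hr.pt z hz
  rcases le_total 0 (dt y (en m)) with h | h
  · exact Or.inl (updRh_ok hr hz hm ⟨y, hy, h1, h⟩)
  · exact Or.inr (updRl_ok hr hz hm ⟨y, hy, by rw [ra_anti]; exact neg_nonneg.2 h, h2⟩)

/-- lane `l < 112` of `X + X <<< 3584` is lane `l % 56` of `X`; `φ k = dt (en ((rl + k) % 56)) y` has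
`0 ≤ φ 0`, `φ d ≤ 0`, so `0 ≤ φ k`, `φ (k+1) ≤ 0` for some `k < d`; `sec_lin` (compare `cover_ok`;
if `sl i = 0` the lane forces `dt2 = 0` and `y` is in the sector) -/
theorem coverR_ok {s : St} {r : Rt} {K : Set (Fin 2 → ℝ)} (hK : Iso K) (hs : StOK s K) (hr : ROK r K)
    {z τ : ℕ} (hz : z < 56) (hτ : τ ≤ 2 ^ 19) (h : coverR s r z τ = true) :
    ∀ y ∈ K, lin z y ≤ (τ : ℝ) := by
  obtain ⟨y, hy, p1, p2⟩ := hr.pt z hz
  refine fun y' hy' => (hy.2 y' hy').trans ?_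
  obtain ⟨d1, d2⟩ := dots_spec hz
  obtain ⟨r1, r2⟩ := rotR_spec (by norm_num) d1 (by norm_num)
  obtain ⟨m1, m2⟩ := lmax_spec d1 r1 (by norm_num) (by norm_num) H56_eq
  obtain ⟨a1, a2⟩ := m1.smul (c := 536870912) (by norm_num)
  obtain ⟨b1, b2⟩ := hs.bsl.smul (c := 3 * τ) (by omega)
  obtain ⟨c1, c2⟩ := lsub_spec a1 b1 (by norm_num) (by omega) H56_eq
  simp only [coverR, Bool.and_eq_true, Nat.blt_eq, Nat.beq_eq, lane_eq] at h
  obtain ⟨h1, h2⟩ := h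
  generalize lsub H56 _ _ = X at c1 c2 h2
  have l1 := hr.bl.2 z
  have l2 := hr.bh.2 z
  generalize dg r.rl z = j at p1 h1 h2 l1
  generalize dg r.rh z = m at p2 h1 h2 l2
  obtain ⟨d, hd⟩ : ∃ d, (m + 56 - j) % 56 = d + 1 := ⟨_, (Nat.succ_pred_eq_of_pos h1).symm⟩
  obtain ⟨k, hk, k1, k2⟩ := ra_step (φ := fun k => dt (en ((j + k) % 56)) y) (d := d)
    (by rwa [add_zero, Nat.mod_eq_of_lt (by omega)])
    (by rw [show (j + (d + 1)) % 56 = m by omega, ra_anti]; exact neg_nonpos.2 p2)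
  obtain ⟨i, hi⟩ : ∃ i, i = (j + k) % 56 := ⟨_, rfl⟩
  have hi' : i < 56 := by omega
  rw [← hi] at k1
  rw [show (j + (k + 1)) % 56 = (i + 1) % 56 by omega, ra_succ hi', ra_anti, neg_nonpos] at k2
  have s1 := (Bd.add (c1.mono (N' := 56 + 56) (by norm_num) le_rfl) (c1.shiftLeft 56)
    (by norm_num)).2 (k + j)
  have s2 := dg_mod ((X + X <<< (64 * 56)) >>> (64 * j)) (d + 1) k
  rw [hd, low_eq] at h2
  have z0 : ∀ l, dg 0 l = 0 := fun l => by simp [dg]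
  rw [show (X + X <<< (64 * 56)) >>> (64 * j) % 2 ^ (64 * (d + 1)) = 0 from h2, z0, if_pos hk,
    dg_shiftRight, s1, dg_shiftLeft] at s2
  have h0 : dg X i = 0 := by
    split_ifs at s2 with e
    · rw [show i = k + j - 56 by omega]; omega
    · rw [show i = k + j by omega]; omega
  have e1 : dt2 z ((i + 1) % 56) = dt2 z (i + 1) := by
    rcases Nat.lt_or_ge (i + 1) 56 with h1 | h1
    · rw [Nat.mod_eq_of_lt h1]
    · obtain rfl : i = 55 := by omega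
      show dt2 z 0 = dt2 z 56
      rw [dt2, dt2, ex_per.1, ex_per.2.1]
  rw [c2, a2, b2, m2, r2 i hi', d2 i hi', d2 _ (Nat.mod_lt _ (by norm_num)), e1,
    Nat.sub_eq_zero_iff_le] at h0
  have h3 : (536870912 : ℝ) * (max (dt2 z i) (dt2 z (i + 1)) : ℕ) ≤ 3 * τ * dg s.sl i := by
    exact_mod_cast h0
  rcases (Nat.cast_nonneg (α := ℝ) (dg s.sl i)).eq_or_lt with h4 | h4
  · obtain ⟨x, hx, t, ht, rfl⟩ := sec_of_dt hi' k1 k2
    have h5 := ra_lin z i hx ht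
    rw [← h4, mul_zero] at h3
    have h6 := mul_le_mul_of_nonneg_left h3 ht
    have h7 := Nat.cast_nonneg (α := ℝ) τ
    linarith
  · have h5 := sec_lin hK hs z hi' hy.1 k1 k2
    exact le_of_mul_le_mul_left (a := 24 * (dg s.sl i : ℝ)) (by linarith) (by linarith)

end Pool.Agent.P.MP_2e1554_gt.Chk
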