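import Pool.Agent.P.MP_2e1554_gt.IsoFan

open MeasureTheory Set Finset Matrix Filter Topology Pointwise

namespace Pool.Agent.P.MP_2e1554_gt

/-- planar determinant -/
def dt (a b : Fin 2 → ℝ) : ℝ := a 0 * b 1 - a 1 * b 0

lemma poly_cone : hcone 1 {z : Fin 1 → ℝ | z 0 ∈ Set.Ioo (0 : ℝ) 1} =
    {y : Fin 2 → ℝ | 0 < y 1 ∧ 0 < y 0 - y 1} := by
  ext y
  simp only [hcone, Set.mem_ofPred_eq, Pi.smul_apply, smul_eq_mul, Set.mem_Ioo, Fin.succ_zero_eq_one]
  constructor
  · rintro ⟨h0, h1, h2⟩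
    rw [one_div_mul_eq_div, lt_div_iff₀ h0] at h1
    rw [one_div_mul_eq_div, div_lt_iff₀ h0] at h2
    constructor <;> linarith
  · rintro ⟨h1, h2⟩
    have h0 : 0 < y 0 := by linarith
    rw [one_div_mul_eq_div, lt_div_iff₀ h0, div_lt_iff₀ h0]
    exact ⟨h0, by linarith, by linarith⟩

lemma poly_zero {Φ : (Fin 2 → ℝ) → ℝ} (hΦ : Integrable Φ) :
    ∫ y in {y : Fin 2 → ℝ | 0 < y 1 ∧ 0 < y 0 - y 1}, Φ y =
      ∫ x in (0 : ℝ)..1, ∫ r in Set.Ioi (0 : ℝ), r * Φ (r • ![1, x]) := by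
  have hm : MeasurableSet {z : Fin 1 → ℝ | z 0 ∈ Set.Ioo (0 : ℝ) 1} :=
    measurable_pi_apply 0 measurableSet_Ioo
  rw [← poly_cone, integral_hcone one_pos hm hΦ.integrableOn,
    intervalIntegral.integral_of_le (by norm_num), integral_Ioc_eq_integral_Ioo,
    ← (volume_preserving_funUnique (Fin 1) ℝ).setIntegral_preimage_emb
      (MeasurableEquiv.funUnique (Fin 1) ℝ).measurableEmbedding]
  refine setIntegral_congr_fun hm fun z _ => ?_
  have e : ins 0 1 z = ![1, z 0] := by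
    funext i
    fin_cases i <;> rfl
  simp only [e, one_mul, pow_one]
  rfl

lemma dt_meas (a b : Fin 2 → ℝ) : MeasurableSet {y : Fin 2 → ℝ | 0 < dt a y ∧ 0 < dt y b} :=
  fan_meas (a := fun y => dt a y) (b := fun y => dt y b) (by unfold dt; fun_prop)
    (by unfold dt; fun_prop)

lemma poly_sector {Φ : (Fin 2 → ℝ) → ℝ} (hΦ : Integrable Φ) {a b : Fin 2 → ℝ} (h : 0 < dt a b) :
    ∫ y in {y | 0 < dt a y ∧ 0 < dt y b}, Φ y =
      dt a b * ∫ x in (0 : ℝ)..1, ∫ r in Set.Ioi (0 : ℝ), r * Φ (r • ((1 - x) • a + x • b)) := by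
  set T : Matrix (Fin 2) (Fin 2) ℝ := !![a 0, b 0 - a 0; a 1, b 1 - a 1] with hT
  have hdet : T.det = dt a b := by
    rw [hT, det_fin_two_of, dt]
    ring
  have hne : T.det ≠ 0 := hdet ▸ h.ne'
  have hTv : ∀ z : Fin 2 → ℝ, T *ᵥ z = (z 0 - z 1) • a + z 1 • b := fun z => by
    funext i
    fin_cases i <;> simp [hT, mulVec, dotProduct, Fin.sum_univ_two] <;> ring
  have hi : Integrable fun y => Φ (T *ᵥ y) := by
    have h1 : Integrable Φ (Measure.map (toLin' T) volume) := by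
      rw [Real.map_matrix_volume_pi_eq_smul_volume_pi hne]
      exact hΦ.smul_measure ENNReal.ofReal_ne_top
    exact h1.comp_measurable (toLin' T).continuous_of_finiteDimensional.measurable
  have d1 : ∀ z : Fin 2 → ℝ, dt a (T *ᵥ z) = z 1 * dt a b := fun z => by
    simp only [hTv, dt, Pi.add_apply, Pi.smul_apply, smul_eq_mul]
    ring
  have d2 : ∀ z : Fin 2 → ℝ, dt (T *ᵥ z) b = (z 0 - z 1) * dt a b := fun z => by
    simp only [hTv, dt, Pi.add_apply, Pi.smul_apply, smul_eq_mul]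
    ring
  have e : {y | 0 < dt a y ∧ 0 < dt y b} =
      aff T 0 {y : Fin 2 → ℝ | 0 < y 1 ∧ 0 < y 0 - y 1} := by
    ext y
    constructor
    · rintro ⟨h1, h2⟩
      have h3 : T *ᵥ (T⁻¹ *ᵥ y) = y := by
        rw [mulVec_mulVec, mul_nonsing_inv _ (isUnit_iff_ne_zero.2 hne), one_mulVec]
      rw [← h3, d1] at h1
      rw [← h3, d2] at h2
      exact ⟨T⁻¹ *ᵥ y, ⟨(mul_pos_iff_of_pos_right h).1 h1, (mul_pos_iff_of_pos_right h).1 h2⟩,
        by simp only [h3, add_zero]⟩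
    · rintro ⟨z, ⟨h1, h2⟩, rfl⟩
      simp only [add_zero, Set.mem_ofPred_eq, d1, d2]
      exact ⟨mul_pos h1 h, mul_pos h2 h⟩
  rw [e, integral_aff (fan_meas (a := fun y => y 1) (b := fun y => y 0 - y 1)
    (by fun_prop) (by fun_prop)) hne, hdet, abs_of_pos h]
  simp only [add_zero]
  rw [poly_zero hi]
  simp only [mulVec_smul, hTv ![1, _], cons_val_zero, cons_val_one]

lemma poly_ne {a b : Fin 2 → ℝ} (h : 0 < dt a b) (x : ℝ) : (1 - x) • a + x • b ≠ 0 := by
  intro h0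
  have h1 : (1 - x) * a 0 + x * b 0 = 0 := congrFun h0 0
  have h2 : (1 - x) * a 1 + x * b 1 = 0 := congrFun h0 1
  have h3 : dt a b = 0 := by
    unfold dt
    linear_combination (b 1 - a 1) * h1 - (b 0 - a 0) * h2
  exact h.ne' h3

theorem sector_int {K : Set (Fin 2 → ℝ)} (hK : Iso K) {f : (Fin 2 → ℝ) → ℝ} (hf : Continuous f)
    {a b : Fin 2 → ℝ} (h : 0 < dt a b) :
    ∫ y in K ∩ {y | 0 < dt a y ∧ 0 < dt y b}, f y =
      dt a b * ∫ x in (0 : ℝ)..1, rayI K f ((1 - x) • a + x • b) := by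
  have hm := hK.cpt.measurableSet
  have hΦ : Integrable (K.indicator f) :=
    (integrable_indicator_iff hm).2 (hf.continuousOn.integrableOn_compact hK.cpt)
  rw [Set.inter_comm, ← setIntegral_indicator hm, poly_sector hΦ h]
  simp only [fan_ray hK f (poly_ne h _)]

lemma dt_null {a b : Fin 2 → ℝ} (h : 0 < dt a b) : ∀ᵐ y : Fin 2 → ℝ, dt a y ≠ 0 := by
  have h1 := Measure.addHaar_submodule (volume : Measure (Fin 2 → ℝ))
    (LinearMap.ker (a 0 • (LinearMap.proj 1 : (Fin 2 → ℝ) →ₗ[ℝ] ℝ) - a 1 • LinearMap.proj 0)) (by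
      intro h2
      have : b ∈ LinearMap.ker
          (a 0 • (LinearMap.proj 1 : (Fin 2 → ℝ) →ₗ[ℝ] ℝ) - a 1 • LinearMap.proj 0) :=
        h2 ▸ Submodule.mem_top
      exact h.ne' (by simpa [dt] using this))
  rw [ae_iff]
  refine measure_mono_null (fun y hy => ?_) h1
  simpa [dt] using hy

lemma half_step {Φ : (Fin 2 → ℝ) → ℝ} (hΦ : Integrable Φ) {s : ℝ} (hs : s ≠ 0) {a b : Fin 2 → ℝ}
    (h : 0 < dt a b) (ha : 0 ≤ s * a 1) (hb : 0 ≤ s * b 1) :
    ∫ y in {y : Fin 2 → ℝ | 0 < s * y 1 ∧ 0 < dt y b}, Φ y =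
      (∫ y in {y : Fin 2 → ℝ | 0 < s * y 1 ∧ 0 < dt y a}, Φ y) +
        ∫ y in {y | 0 < dt a y ∧ 0 < dt y b}, Φ y := by
  rw [← setIntegral_union _ (dt_meas a b) hΦ.integrableOn hΦ.integrableOn]
  · refine setIntegral_congr_set ?_
    filter_upwards [dt_null h] with y hy
    have id1 : s * a 1 * dt y b - s * b 1 * dt y a = s * y 1 * dt a b := by
      unfold dt
      ring
    have id2 : dt a y = -dt y a := by
      unfold dt
      ring
    refine propext ⟨?_, ?_⟩
    · rintro ⟨h1, h2⟩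
      rcases hy.lt_or_gt with h3 | h3
      · exact Or.inl ⟨h1, by linarith⟩
      · exact Or.inr ⟨h3, h2⟩
    · rintro (⟨h1, h2⟩ | ⟨h1, h2⟩)
      · refine ⟨h1, ?_⟩
        have h3 := mul_pos h1 h
        have h4 := mul_nonneg hb h2.le
        by_contra h5
        have h6 := mul_nonneg ha (neg_nonneg.2 (not_lt.1 h5))
        linarith
      · refine ⟨?_, h2⟩
        have h3 : 0 < -dt y a := id2 ▸ h1
        have h4 := mul_nonneg ha h2.le
        have h5 := mul_nonneg hb h3.le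
        have h6 : 0 < s * y 1 * dt a b := by
          rcases ha.lt_or_eq with h7 | h7
          · have := mul_pos h7 h2
            linarith
          · rcases hb.lt_or_eq with h8 | h8
            · have := mul_pos h8 h3
              linarith
            · have h9 : a 1 = 0 := (mul_eq_zero.1 h7.symm).resolve_left hs
              have h10 : b 1 = 0 := (mul_eq_zero.1 h8.symm).resolve_left hs
              simp [dt, h9, h10] at h
        exact (mul_pos_iff_of_pos_right h).1 h6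
  · rw [Set.disjoint_left]
    rintro y ⟨-, h1⟩ ⟨h2, -⟩
    unfold dt at h1 h2
    linarith

lemma half_sum {Φ : (Fin 2 → ℝ) → ℝ} (hΦ : Integrable Φ) {s : ℝ} {e : ℕ → Fin 2 → ℝ} {m : ℕ}
    (h0 : e 0 1 = 0) (h1 : 0 < s * e 0 0) (hs : e m = -e 0)
    (hd : ∀ i < m, 0 < dt (e i) (e (i + 1))) (hu : ∀ i ≤ m, 0 ≤ s * e i 1) :
    ∫ y in {y : Fin 2 → ℝ | 0 < s * y 1}, Φ y =
      ∑ i ∈ Finset.range m, ∫ y in {y | 0 < dt (e i) y ∧ 0 < dt y (e (i + 1))}, Φ y := by
  have s0 : s ≠ 0 := by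
    rintro rfl
    simp at h1
  have key : ∀ k ≤ m, ∫ y in {y : Fin 2 → ℝ | 0 < s * y 1 ∧ 0 < dt y (e k)}, Φ y =
      ∑ i ∈ Finset.range k, ∫ y in {y | 0 < dt (e i) y ∧ 0 < dt y (e (i + 1))}, Φ y := by
    intro k
    induction k with
    | zero =>
      intro _
      have e0 : {y : Fin 2 → ℝ | 0 < s * y 1 ∧ 0 < dt y (e 0)} = ∅ := by
        refine Set.eq_empty_of_forall_notMem ?_
        rintro y ⟨h2, h3⟩
        simp only [dt, h0] at h3
        nlinarith [mul_pos h2 h1, mul_pos (mul_self_pos.2 s0) h3]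
      simp [e0]
    | succ k ih =>
      intro hk
      rw [Finset.sum_range_succ, ← ih (by omega),
        half_step hΦ s0 (hd k (by omega)) (hu k (by omega)) (hu _ hk)]
  rw [← key m le_rfl]
  congr 2
  ext y
  refine ⟨fun h2 => ⟨h2, ?_⟩, fun h2 => h2.1⟩
  have h3 : 0 < s * y 1 := h2
  simp only [hs, dt, Pi.neg_apply, h0]
  have h4 : 0 < s * s * (y 1 * e 0 0) := by nlinarith [mul_pos h3 h1]
  have h5 := (mul_pos_iff_of_pos_left (mul_self_pos.2 s0)).1 h4
  linarith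

/-- fan integration along a centrally symmetric polygon -/
theorem fan_poly {K : Set (Fin 2 → ℝ)} (hK : Iso K) {f : (Fin 2 → ℝ) → ℝ} (hf : Continuous f)
    {e : ℕ → Fin 2 → ℝ} {m : ℕ} (hm : 0 < m) (h0 : e 0 1 = 0) (h1 : 0 < e 0 0)
    (hs : ∀ i ≤ m, e (i + m) = -e i) (hd : ∀ i < m, 0 < dt (e i) (e (i + 1)))
    (hu : ∀ i ≤ m, 0 ≤ e i 1) :
    ∫ y in K, f y = ∑ i ∈ Finset.range (2 * m), dt (e i) (e (i + 1)) *
      ∫ x in (0 : ℝ)..1, rayI K f ((1 - x) • e i + x • e (i + 1)) := by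
  have hK' := hK.cpt.measurableSet
  have hΦ : Integrable (K.indicator f) :=
    (integrable_indicator_iff hK').2 (hf.continuousOn.integrableOn_compact hK.cpt)
  have hs' : ∀ i ≤ m, e (m + i) = -e i := fun i hi => by rw [add_comm, hs i hi]
  have hd' : ∀ i < m, 0 < dt (e (m + i)) (e (m + (i + 1))) := fun i hi => by
    have := hd i hi
    rw [hs' i hi.le, hs' _ hi]
    simpa [dt] using this
  have a1 := half_sum hΦ (s := 1) h0 (by simpa using h1) (by simpa using hs 0 hm.le) hd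
    (by simpa using hu)
  have a2 := half_sum hΦ (s := -1) (e := fun i => e (m + i)) (m := m)
    (by simp only [hs' 0 hm.le, Pi.neg_apply, h0, neg_zero])
    (by simpa only [hs' 0 hm.le, Pi.neg_apply, neg_mul_neg, one_mul] using h1)
    (by simpa only [add_zero] using hs' m le_rfl) hd'
    (fun i hi => by simpa only [hs' i hi, Pi.neg_apply, neg_mul_neg, one_mul] using hu i hi)
  have sec : ∀ {a b : Fin 2 → ℝ}, 0 < dt a b →
      dt a b * ∫ x in (0 : ℝ)..1, rayI K f ((1 - x) • a + x • b) =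
        ∫ y in {y | 0 < dt a y ∧ 0 < dt y b}, K.indicator f y := fun h => by
    rw [← sector_int hK hf h, setIntegral_indicator hK', Set.inter_comm]
  have hp : ∀ s : ℝ, MeasurableSet {y : Fin 2 → ℝ | 0 < s * y 1} := fun s =>
    (isOpen_lt continuous_const (by fun_prop)).measurableSet
  rw [two_mul, Finset.sum_range_add,
    Finset.sum_congr rfl fun i hi => sec (hd i (Finset.mem_range.1 hi)),
    Finset.sum_congr rfl fun i hi => sec (a := e (m + i)) (b := e (m + i + 1))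
      (hd' i (Finset.mem_range.1 hi)), ← a1]
  refine Eq.trans ?_ (congrArg _ a2)
  rw [← setIntegral_union _ (hp _) hΦ.integrableOn hΦ.integrableOn, ← integral_indicator hK']
  · rw [← setIntegral_univ]
    refine setIntegral_congr_set ?_
    filter_upwards [dt_null (hd 0 hm)] with y hy
    have h2 : y 1 ≠ 0 := by
      intro h3
      simp [dt, h0, h3] at hy
    refine propext ⟨fun _ => ?_, fun _ => trivial⟩
    rcases h2.lt_or_gt with h3 | h3
    · exact Or.inr (show 0 < -1 * y 1 by linarith)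
    · exact Or.inl (show 0 < 1 * y 1 by linarith)
  · rw [Set.disjoint_left]
    intro y h2 h3
    have h4 : 0 < 1 * y 1 := h2
    have h5 : 0 < -1 * y 1 := h3
    linarith

end Pool.Agent.P.MP_2e1554_gt
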