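import Pool.Agent.P.MP_2e1554_gt.IsoChkY
import Pool.Agent.P.MP_2e1554_gt.IsoPoly
import Pool.Agent.P.MP_2e1554_gt.IsoSemW

/-! Meaning of the located extreme points. -/

open MeasureTheory Set Finset

namespace Pool.Agent.P.MP_2e1554_gt.Chk

/-- `y` is an extreme point of `K` in direction `z` -/
def Ext (K : Set (Fin 2 → ℝ)) (z : ℕ) (y : Fin 2 → ℝ) : Prop := y ∈ K ∧ ∀ y' ∈ K, lin z y' ≤ lin z y

structure ROK (r : Rt) (K : Set (Fin 2 → ℝ)) : Prop where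
  bl : Bd r.rl 56 55
  bh : Bd r.rh 56 55
  pt : ∀ z < 56, ∃ y, Ext K z y ∧ 0 ≤ dt (en (dg r.rl z)) y ∧ 0 ≤ dt y (en (dg r.rh z))

/-- a point of a segment -/
noncomputable def sgp (A : Sg) (x : ℝ) : Fin 2 → ℝ :=
  (1 - x) • (((A.a0 : ℝ) / 65536) • en A.j0) + x • (((A.a1 : ℝ) / 65536) • en A.j1)
def SgOK (A : Sg) (K : Set (Fin 2 → ℝ)) : Prop := ∃ x ∈ Icc (0 : ℝ) 1, sgp A x ∈ K

def GoodX (G : Gx) (B : Bx) (s : St) (w : Wt) (r : Rt) : Prop :=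
  ∀ (K : Set (Fin 2 → ℝ)) (u₁ u₂ : ℝ), rw₁ K (G.g1 / SG) (G.g2 / SG) u₁ = 0 →
    rw₂ K (G.g1 / SG) (G.g2 / SG) u₂ = 0 → InU B u₁ u₂ → Tru G B K u₁ u₂ → StOK s K → WOK w K →
      ROK r K → G.th % 8 ≤ 2 ∧ VQ K true (Nat.beq (G.th % 8) 1) (Nat.beq (G.th % 8) 2) (G.g1 / SG) (G.g2 / SG) u₁ u₂
        (lG (Nat.beq (G.th % 8) 1) G.th K (G.g1 / SG) (G.g2 / SG) u₁ u₂)

theorem forceX_eq {α : Type} (p : Xs) (k : St → Wt → Rt → α) : forceX p k = k p.s p.w p.r := rfl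

end Pool.Agent.P.MP_2e1554_gt.Chk
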