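import Pool.Agent.P.MP_2e1554_gt.IsoOpC
import Pool.Agent.P.MP_2e1554_gt.IsoSemR

/-! Segments that meet the body. -/

open MeasureTheory Set Finset

namespace Pool.Agent.P.MP_2e1554_gt.Chk

private theorem rb_zero {K : Set (Fin 2 → ℝ)} (hK : Iso K) : (0 : Fin 2 → ℝ) ∈ K :=
  mem_of_mem_nhds hK.nhds_two

private theorem rb_nn {x : ℤ} (h : nn x = true) : 0 ≤ x := by
  have h1 : (-x).toNat = 0 := Nat.eq_of_beq_eq_true h
  omega

private theorem rb_toNat {x : ℤ} (h : 0 ≤ x) : ((x.toNat : ℕ) : ℝ) = (x : ℝ) := by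
  have h1 : ((x.toNat : ℕ) : ℤ) = x := Int.toNat_of_nonneg h
  exact_mod_cast congrArg (fun z : ℤ => (z : ℝ)) h1

private theorem rb_seg {K : Set (Fin 2 → ℝ)} (hK : Iso K) {y A0 A1 : Fin 2 → ℝ} (hy : y ∈ K) {p q : ℝ}
    (hp : 0 ≤ p) (hq : 0 ≤ q) (h1 : 1 ≤ p + q) (e : y = p • A0 + q • A1) :
    ∃ x ∈ Icc (0 : ℝ) 1, (1 - x) • A0 + x • A1 ∈ K := by
  have hs : 0 < p + q := by linarith
  refine ⟨q / (p + q), ⟨by positivity, by rw [div_le_one hs]; linarith⟩, ?_⟩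
  have h2 := hK.cvx.smul_mem_of_zero_mem (rb_zero hK) hy (t := 1 / (p + q))
    ⟨by positivity, by rw [div_le_one hs]; linarith⟩
  have e2 : (1 - q / (p + q)) • A0 + (q / (p + q)) • A1 = (1 / (p + q)) • y := by
    have e3 : 1 - q / (p + q) = 1 / (p + q) * p := by
      field_simp
      ring
    have e4 : q / (p + q) = 1 / (p + q) * q := by ring
    rw [e, smul_add, smul_smul, smul_smul, e3, ← e4]
  rwa [e2]

private theorem rb_lin (z j : ℕ) (h : 0 < dt2 z j) (τ : ℕ) :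
    lin z ((((τ * 384 / dt2 z j : ℕ) : ℝ) / 65536) • en j) ≤ (τ : ℝ) := by
  have h1 : ((τ * 384 / dt2 z j : ℕ) : ℝ) * (dt2 z j : ℝ) ≤ τ * 384 := by
    exact_mod_cast Nat.div_mul_le_self (τ * 384) (dt2 z j)
  have h2 : 0 ≤ ex z * ex j + ey z * ey j := by
    unfold dt2 at h
    omega
  have h3 : (dt2 z j : ℝ) = (ex z : ℝ) * ex j + (ey z : ℝ) * ey j := by
    rw [dt2, rb_toNat h2]
    push_cast
    ring
  rw [h3] at h1
  generalize ((τ * 384 / dt2 z j : ℕ) : ℝ) = a at h1 ⊢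
  simp only [lin, en, Pi.smul_apply, smul_eq_mul, Matrix.cons_val_zero, Matrix.cons_val_one,
    Matrix.cons_val_fin_one]
  linarith

private theorem rb_add (z : ℕ) (p q : ℝ) (A B : Fin 2 → ℝ) :
    lin z (p • A + q • B) = p * lin z A + q * lin z B := by
  simp only [lin, Pi.add_apply, Pi.smul_apply, smul_eq_mul]
  ring

private theorem rb_dec (a b y : Fin 2 → ℝ) (h : dt a b ≠ 0) :
    y = (dt y b / dt a b) • a + (dt a y / dt a b) • b := by
  ext t
  fin_cases t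
  · show y 0 = dt y b / dt a b * a 0 + dt a y / dt a b * b 0
    field_simp
    simp only [dt]
    ring
  · show y 1 = dt y b / dt a b * a 1 + dt a y / dt a b * b 1
    field_simp
    simp only [dt]
    ring

/-- `y = α en j + β en m` with `α, β ≥ 0`; if `a0 = 0` or `a1 = 0` an end of the segment is `0 ∈ K`;
else `y = p A0 + q A1`, `lin z A0, lin z A1 ≤ τ ≤ lin z y` give `1 ≤ p + q`, and `y / (p + q) ∈ K` -/
theorem fz_ok {r : Rt} {K : Set (Fin 2 → ℝ)} (hK : Iso K) (hr : ROK r K) {z τ : ℕ} (hz : z < 56)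
    (h : ∃ y ∈ K, (τ : ℝ) ≤ lin z y) : SgOK (fz r z τ) K := by
  obtain ⟨y', hy', hτ⟩ := h
  obtain ⟨y, ⟨hy, hmax⟩, h0, h1⟩ := hr.pt z hz
  have hy2 : (τ : ℝ) ≤ lin z y := hτ.trans (hmax y' hy')
  unfold fz
  simp only [force_eq, lane_eq]
  generalize dg r.rl z = j at h0 ⊢
  generalize dg r.rh z = m at h1 ⊢
  cases hc : (Nat.blt 0 (det j m).toNat && Nat.blt 0 (dt2 z j) && Nat.blt 0 (dt2 z m))
  · refine ⟨0, ⟨le_rfl, zero_le_one⟩, ?_⟩
    simpa [sgp] using rb_zero hK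
  · simp only [Bool.and_eq_true, Nat.blt_eq] at hc
    obtain ⟨⟨c1, c2⟩, c3⟩ := hc
    have l0 := rb_lin z j c2 τ
    have l1 := rb_lin z m c3 τ
    have hτ0 : τ = 0 → τ * 384 / dt2 z j = 0 := fun e => by rw [e]; simp
    show ∃ x ∈ Icc (0 : ℝ) 1, (1 - x) • ((((τ * 384 / dt2 z j : ℕ) : ℝ) / 65536) • en j) +
      x • ((((τ * 384 / dt2 z m : ℕ) : ℝ) / 65536) • en m) ∈ K
    generalize τ * 384 / dt2 z j = a at l0 hτ0 ⊢
    generalize τ * 384 / dt2 z m = b at l1 ⊢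
    rcases Nat.eq_zero_or_pos a with ha | ha
    · refine ⟨0, ⟨le_rfl, zero_le_one⟩, ?_⟩
      simpa [ha] using rb_zero hK
    rcases Nat.eq_zero_or_pos b with hb | hb
    · refine ⟨1, ⟨zero_le_one, le_rfl⟩, ?_⟩
      simpa [hb] using rb_zero hK
    have ha' : (0 : ℝ) < a := by exact_mod_cast ha
    have hb' : (0 : ℝ) < b := by exact_mod_cast hb
    have hτ1 : (0 : ℝ) < τ := by
      have : 0 < τ := Nat.pos_of_ne_zero fun e => ha.ne' (hτ0 e)
      exact_mod_cast this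
    have hD : 0 < dt (en j) (en m) := by
      have d1 : 0 < det j m := by omega
      have d2 : (0 : ℝ) < (det j m : ℝ) := by exact_mod_cast d1
      rw [dt_en]
      positivity
    have hα : 0 ≤ dt y (en m) / dt (en j) (en m) := div_nonneg h1 hD.le
    have hβ : 0 ≤ dt (en j) y / dt (en j) (en m) := div_nonneg h0 hD.le
    have e := rb_dec (en j) (en m) y hD.ne'
    generalize dt y (en m) / dt (en j) (en m) = α at hα e
    generalize dt (en j) y / dt (en j) (en m) = β at hβ e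
    have e' : y = (α * 65536 / a) • (((a : ℝ) / 65536) • en j) +
        (β * 65536 / b) • (((b : ℝ) / 65536) • en m) := by
      have e1 : α * 65536 / a * ((a : ℝ) / 65536) = α := by field_simp
      have e2 : β * 65536 / b * ((b : ℝ) / 65536) = β := by field_simp
      rw [smul_smul, smul_smul, e1, e2]
      exact e
    have hp : 0 ≤ α * 65536 / a := by positivity
    have hq : 0 ≤ β * 65536 / b := by positivity
    refine rb_seg hK hy hp hq ?_ e'
    have h5 := rb_add z (α * 65536 / a) (β * 65536 / b) (((a : ℝ) / 65536) • en j)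
      (((b : ℝ) / 65536) • en m)
    rw [← e'] at h5
    have h6 := mul_le_mul_of_nonneg_left l0 hp
    have h7 := mul_le_mul_of_nonneg_left l1 hq
    refine le_of_mul_le_mul_right ?_ hτ1
    linarith

/-- `pt_mem`, `fz_ok` -/
theorem src_ok {s : St} {w : Wt} {r : Rt} {K : Set (Fin 2 → ℝ)} (hK : Iso K) (hs : StOK s K)
    (hw : WOK w K) (hr : ROK r K) (n : ℕ) : SgOK (src s w r n) K := by
  unfold src
  cases hc : Nat.blt n 56
  · rw [cond_false, force_eq, lane_eq]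
    have hz : (n - 56) % 56 < 56 := Nat.mod_lt _ (by norm_num)
    exact fz_ok hK hr hz (hw.lo _ hz)
  · rw [cond_true, force_eq, lane_eq]
    refine ⟨0, ⟨le_rfl, zero_le_one⟩, ?_⟩
    have h := pt_mem hK (hs.qh n (Nat.blt_eq ▸ hc))
    simpa [sgp] using h

/-- if the target segment does not meet `K`, the conclusion holds (`pt_mem`, `fz_ok`) -/
theorem tgt_ok {r : Rt} {K : Set (Fin 2 → ℝ)} (hK : Iso K) (hr : ROK r K) {m z τ : ℕ} (hz : z < 56)
    (h : ¬SgOK (tgt r m z τ) K) :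
    (2 ≤ m → ∀ y ∈ K, lin z y ≤ (τ : ℝ)) ∧ (m < 2 → Tgt K (Nat.beq m 1) z τ) := by
  refine ⟨fun hm y hy => ?_, fun hm => ?_⟩
  · by_contra hlt
    refine h ?_
    obtain ⟨k, rfl⟩ : ∃ k, m = k + 2 := ⟨m - 2, by omega⟩
    have e0 : Nat.beq (k + 2) 0 = false := rfl
    have e1 : Nat.beq (k + 2) 1 = false := rfl
    rw [tgt, e0, e1, cond_false, cond_false]
    exact fz_ok hK hr hz ⟨y, hy, (not_le.1 hlt).le⟩
  · obtain rfl | rfl : m = 0 ∨ m = 1 := by omega
    · show (τ : ℝ) < 2 ^ 20 * gauge K (en z)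
      by_contra hlt
      refine h ?_
      have e : tgt r 0 z τ = ⟨z, 68719476736 / τ, z, 68719476736 / τ⟩ := by
        have e0 : Nat.beq 0 0 = true := rfl
        rw [tgt, e0, cond_true, force_eq]
      rw [e]
      refine ⟨0, ⟨le_rfl, zero_le_one⟩, ?_⟩
      simpa [sgp] using pt_mem hK (not_lt.1 hlt)
    · show ∀ x ∈ Icc (0 : ℝ) 1, (τ : ℝ) < 2 ^ 20 * gauge K (ep z x)
      intro x hx
      by_contra hlt
      refine h ?_
      have e : tgt r 1 z τ = ⟨z, 68719476736 / τ, z + 1, 68719476736 / τ⟩ := by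
        have e0 : Nat.beq 1 0 = false := rfl
        have e1 : Nat.beq 1 1 = true := rfl
        rw [tgt, e0, e1, cond_false, cond_true, force_eq, force_eq]
      rw [e]
      refine ⟨x, hx, ?_⟩
      have h2 := pt_mem hK (not_lt.1 hlt)
      rw [ep, smul_add, smul_comm, smul_comm _ x] at h2
      exact h2

private def Cn (c P Q : Fin 2 → ℝ) (N : ℝ) : Prop :=
  0 < dt P Q ∧ 0 ≤ dt P c ∧ 0 ≤ dt c Q ∧ 2 ^ 20 * (dt c Q + dt P c) ≤ N * dt P Q

private theorem rb_cl {c P P' Q : Fin 2 → ℝ} {N x : ℝ} (hx : x ∈ Icc (0 : ℝ) 1) (h : Cn c P Q N)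
    (h' : Cn c P' Q N) : Cn c ((1 - x) • P + x • P') Q N := by
  have e (R : Fin 2 → ℝ) : dt ((1 - x) • P + x • P') R = (1 - x) * dt P R + x * dt P' R := by
    simp only [dt, Pi.add_apply, Pi.smul_apply, smul_eq_mul]
    ring
  obtain ⟨a1, a2, a3, a4⟩ := h
  obtain ⟨b1, b2, -, b4⟩ := h'
  have x0 := hx.1
  have x1 := sub_nonneg.2 hx.2
  refine ⟨?_, ?_, a3, ?_⟩
  · rw [e]
    exact opb_lt hx a1 b1
  · rw [e]
    exact add_nonneg (mul_nonneg x1 a2) (mul_nonneg x0 b2)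
  · rw [e, e]
    have h1 := mul_le_mul_of_nonneg_left a4 x1
    have h2 := mul_le_mul_of_nonneg_left b4 x0
    linarith

private theorem rb_cr {c P Q Q' : Fin 2 → ℝ} {N x : ℝ} (hx : x ∈ Icc (0 : ℝ) 1) (h : Cn c P Q N)
    (h' : Cn c P Q' N) : Cn c P ((1 - x) • Q + x • Q') N := by
  have e (R : Fin 2 → ℝ) : dt R ((1 - x) • Q + x • Q') = (1 - x) * dt R Q + x * dt R Q' := by
    simp only [dt, Pi.add_apply, Pi.smul_apply, smul_eq_mul]
    ring
  obtain ⟨a1, a2, a3, a4⟩ := h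
  obtain ⟨b1, -, b3, b4⟩ := h'
  have x0 := hx.1
  have x1 := sub_nonneg.2 hx.2
  refine ⟨?_, a2, ?_, ?_⟩
  · rw [e]
    exact opb_lt hx a1 b1
  · rw [e]
    exact add_nonneg (mul_nonneg x1 a3) (mul_nonneg x0 b3)
  · rw [e, e]
    have h1 := mul_le_mul_of_nonneg_left a4 x1
    have h2 := mul_le_mul_of_nonneg_left b4 x0
    linarith

private theorem rb_dts (s t : ℝ) (P Q : Fin 2 → ℝ) : dt (s • P) (t • Q) = s * t * dt P Q := by
  simp only [dt, Pi.smul_apply, smul_eq_mul]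
  ring

private theorem rb_corner {l j a m b N : ℕ} (hN : N < 2 ^ 20) (h : hl1 l j a m b ≤ N) :
    Cn (en l) (((a : ℝ) / 65536) • en j) (((b : ℝ) / 65536) • en m) N := by
  unfold hl1 at h
  cases hc : (Nat.blt 0 ((det j m).toNat * a * b) && nn (det j l) && nn (det l m))
  · rw [hc, cond_false] at h
    omega
  · rw [hc, cond_true] at h
    simp only [Bool.and_eq_true, Nat.blt_eq] at hc
    obtain ⟨⟨c1, c2⟩, c3⟩ := hc
    have d2 := rb_nn c2
    have d3 := rb_nn c3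
    have c0 : 0 < a * b * (det j m).toNat := by
      rwa [mul_comm, ← mul_assoc]
    have d1 : 0 ≤ det j m := by
      have : 0 < (det j m).toNat := Nat.pos_of_mul_pos_left c0
      omega
    have h1 : 68719476736 * (b * (det l m).toNat + a * (det j l).toNat) ≤
        a * b * (det j m).toNat * N :=
      (Nat.lt_mul_div_succ _ c0).le.trans (Nat.mul_le_mul_left _ h)
    have h2 : (68719476736 : ℝ) * (b * ((det l m).toNat : ℝ) + a * ((det j l).toNat : ℝ)) ≤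
        a * b * ((det j m).toNat : ℝ) * N := by exact_mod_cast h1
    have h3 : (0 : ℝ) < a * b * ((det j m).toNat : ℝ) := by exact_mod_cast c0
    rw [rb_toNat d1] at h2 h3
    rw [rb_toNat d2, rb_toNat d3] at h2
    have e2 : (0 : ℝ) ≤ (det j l : ℝ) := by exact_mod_cast d2
    have e3 : (0 : ℝ) ≤ (det l m : ℝ) := by exact_mod_cast d3
    have f1 := rb_dts ((a : ℝ) / 65536) ((b : ℝ) / 65536) (en j) (en m)
    have f2 := rb_dts ((a : ℝ) / 65536) 1 (en j) (en l)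
    have f3 := rb_dts 1 ((b : ℝ) / 65536) (en l) (en m)
    rw [one_smul] at f2 f3
    rw [dt_en] at f1 f2 f3
    refine ⟨?_, ?_, ?_, ?_⟩
    · rw [f1]
      linarith
    · rw [f2]
      positivity
    · rw [f3]
      positivity
    · rw [f1, f2, f3]
      linarith

/-- for `P = sgp A x`, `Q = sgp Z x'` in `K`: `0 < dt P Q`, `0 ≤ dt P (en l)`, `0 ≤ dt (en l) Q` and
`2^20 (dt (en l) Q + dt P (en l)) ≤ N dt P Q` hold at the four corners and are bilinear; `gauge_dt` -/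
theorem fhull_ok {K : Set (Fin 2 → ℝ)} (hK : Iso K) {A Z : Sg} (hA : SgOK A K) (hZ : SgOK Z K) (l : ℕ)
    (h : fhull l A Z < 2 ^ 20) : 2 ^ 20 * gauge K (en l) ≤ (fhull l A Z : ℝ) := by
  obtain ⟨j0, a0, j1, a1⟩ := A
  obtain ⟨m0, b0, m1, b1⟩ := Z
  obtain ⟨x, hx, hP⟩ := hA
  obtain ⟨x', hx', hQ⟩ := hZ
  have e : fhull l ⟨j0, a0, j1, a1⟩ ⟨m0, b0, m1, b1⟩ =
      max (max (hl1 l j0 a0 m0 b0) (hl1 l j0 a0 m1 b1))
        (max (hl1 l j1 a1 m0 b0) (hl1 l j1 a1 m1 b1)) := rfl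
  generalize fhull l ⟨j0, a0, j1, a1⟩ ⟨m0, b0, m1, b1⟩ = N at h e ⊢
  have k00 := rb_corner h (show hl1 l j0 a0 m0 b0 ≤ N by omega)
  have k01 := rb_corner h (show hl1 l j0 a0 m1 b1 ≤ N by omega)
  have k10 := rb_corner h (show hl1 l j1 a1 m0 b0 ≤ N by omega)
  have k11 := rb_corner h (show hl1 l j1 a1 m1 b1 ≤ N by omega)
  have k : Cn (en l) (sgp ⟨j0, a0, j1, a1⟩ x) (sgp ⟨m0, b0, m1, b1⟩ x') N :=
    rb_cl hx (rb_cr hx' k00 k01) (rb_cr hx' k10 k11)
  generalize sgp ⟨j0, a0, j1, a1⟩ x = P at hP k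
  generalize sgp ⟨m0, b0, m1, b1⟩ x' = Q at hQ k
  obtain ⟨k1, k2, k3, k4⟩ := k
  have g := gauge_dt hK P Q (en l) (σ := 1) (by linarith) (by linarith) (by linarith)
  have g1 := mul_le_mul_of_nonneg_left (gauge_le_one_of_mem hP) k3
  have g2 := mul_le_mul_of_nonneg_left (gauge_le_one_of_mem hQ) k2
  refine le_of_mul_le_mul_right ?_ k1
  linarith

end Pool.Agent.P.MP_2e1554_gt.Chk
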