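import Pool.Agent.P.MP_2e1554_gt.IsoSem

/-! Facts on the constant tables, by evaluation. -/

open MeasureTheory Set Finset

namespace Pool.Agent.P.MP_2e1554_gt.Chk

theorem bd_of {X N b : ℕ} (h : X < 2 ^ (64 * N)) (h2 : ∀ i < N, dg X i ≤ b) : Bd X N b :=
  ⟨h, fun i => by
    rcases lt_or_ge i N with hi | hi
    · exact h2 i hi
    · rw [dg_of_ge h hi]; exact Nat.zero_le _⟩

theorem eq_pk {X N : ℕ} {c : ℕ → ℕ} (h : X < 2 ^ (64 * N)) (h2 : ∀ i < N, dg X i = c i) :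
    X = pk c N := by
  rw [← pk_dg h]
  exact Finset.sum_congr rfl fun i hi => by rw [h2 i (Finset.mem_range.1 hi)]

theorem H28_eq : H28 = pk (fun _ => 2 ^ 63) 28 := eq_pk (by decide +kernel) (by decide +kernel)
theorem H56_eq : H56 = pk (fun _ => 2 ^ 63) 56 := eq_pk (by decide +kernel) (by decide +kernel)
theorem H84_eq : H84 = pk (fun _ => 2 ^ 63) 84 := eq_pk (by decide +kernel) (by decide +kernel)
theorem H140_eq : H140 = pk (fun _ => 2 ^ 63) 140 := eq_pk (by decide +kernel) (by decide +kernel)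
theorem H280_eq : H280 = pk (fun _ => 2 ^ 63) 280 := eq_pk (by decide +kernel) (by decide +kernel)
theorem H560_eq : H560 = pk (fun _ => 2 ^ 63) 560 := eq_pk (by decide +kernel) (by decide +kernel)
theorem H1120_eq : H1120 = pk (fun _ => 2 ^ 63) 1120 := eq_pk (by decide +kernel) (by decide +kernel)
theorem O28_eq : O28 = pk (fun _ => 1) 28 := eq_pk (by decide +kernel) (by decide +kernel)
theorem O56_eq : O56 = pk (fun _ => 1) 56 := eq_pk (by decide +kernel) (by decide +kernel)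
theorem OFV_eq : OFV = pk (fun _ => 2 ^ 60) 1120 := eq_pk (by decide +kernel) (by decide +kernel)
theorem HI56_eq : HI56 = pk (fun _ => 2 ^ 64 - 2 ^ 56) 1120 :=
  eq_pk (by decide +kernel) (by decide +kernel)
theorem HI59_eq : HI59 = pk (fun _ => 2 ^ 64 - 2 ^ 59) 28 :=
  eq_pk (by decide +kernel) (by decide +kernel)
theorem M31_eq : M31 = pk (fun _ => 2 ^ 31 - 1) 56 := eq_pk (by decide +kernel) (by decide +kernel)
theorem BAS_eq : BAS = pk (fun _ => 2 ^ 61 - 2 ^ 58) 28 :=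
  eq_pk (by decide +kernel) (by decide +kernel)
theorem D38_eq : D38 = pk (fun _ => 38) 28 := eq_pk (by decide +kernel) (by decide +kernel)
theorem N31_bd : Bd N31 56 (2 ^ 31 - 1) ∧ dg N31 28 = 0 :=
  ⟨bd_of (by decide +kernel) (by decide +kernel), by decide +kernel⟩
theorem MUA_eq : MUA = pk (fun l => if l % 28 = 0 then (15 + l / 28) * 2 ^ 20 else 0) (28 * 20) :=
  eq_pk (by decide +kernel) (by decide +kernel)
theorem MUB_eq :
    MUB = pk (fun l => if l % 28 = 0 then (15 + (19 - l / 28)) * 2 ^ 20 else 0) (28 * 20) :=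
  eq_pk (by decide +kernel) (by decide +kernel)
theorem LL0_eq : ∀ l < 168, dg LL0 l = if l < 28 then 38 else if l < 140 then 185686 else 25 := by
  decide +kernel
theorem KKA_eq : KKA = pk (fun l => if l % 28 = 0 then (l / 28) * 2 ^ 20 else 0) (28 * 20) :=
  eq_pk (by decide +kernel) (by decide +kernel)
theorem KKB_eq : KKB = pk (fun l => if l % 28 = 0 then (19 - l / 28) * 2 ^ 20 else 0) (28 * 20) :=
  eq_pk (by decide +kernel) (by decide +kernel)
theorem CM_eq : CM = pk (fun i => if i % 14 = 4 ∨ i % 14 = 10 then 2 ^ 64 - 1 else 0) 56 :=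
  eq_pk (by decide +kernel) (by decide +kernel)
theorem C19_eq : C19 = pk (fun l => if l % 28 = 0 then 1 else 0) (28 * 19) :=
  eq_pk (by decide +kernel) (by decide +kernel)
theorem C20_eq : C20 = pk (fun l => if l % 28 = 0 then 1 else 0) (28 * 20) :=
  eq_pk (by decide +kernel) (by decide +kernel)
theorem C39_eq : C39 = pk (fun l => if l % 28 = 0 then 1 else 0) (28 * 39) :=
  eq_pk (by decide +kernel) (by decide +kernel)
theorem PUA_eq : PUA = pk (fun l => if l % 28 = 0 then u1 (l / 28) else 0) (28 * 20) :=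
  eq_pk (by decide +kernel) (by decide +kernel)
theorem PUB_eq : PUB = pk (fun l => if l % 28 = 0 then u1 (19 - l / 28) else 0) (28 * 20) :=
  eq_pk (by decide +kernel) (by decide +kernel)
theorem PLA_eq : PLA = pk (fun l => if l % 28 = 0 then l1 (l / 28) else 0) (28 * 20) :=
  eq_pk (by decide +kernel) (by decide +kernel)
theorem PLB_eq : PLB = pk (fun l => if l % 28 = 0 then l1 (19 - l / 28) else 0) (28 * 20) :=
  eq_pk (by decide +kernel) (by decide +kernel)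
theorem u1_le : ∀ k < 20, u1 k ≤ 2 ^ 24 ∧ l1 k ≤ 2 ^ 24 := by decide +kernel
theorem u1_spec : ∀ k < 20, 16 * max 0 (dd (fun k => (u1 k : ℤ)) k *
      ((14 + k : ℤ) * (15 + k) * (16 + k)) - 24 * 2 ^ 24) * (13 + k : ℤ) ^ 5 +
    648 * 2 ^ 24 * ((14 + k : ℤ) * (15 + k) * (16 + k)) ≤
      96 * ((u1 k : ℤ) * (15 + k) - 12 * 2 ^ 24) * ((14 + k : ℤ) * (16 + k) * (13 + k : ℤ) ^ 5) := by
  decide +kernel
theorem l1_spec : ∀ k < 20, max 0 (24 * 2 ^ 24 - dd (fun k => (l1 k : ℤ)) k *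
      ((14 + k : ℤ) * (15 + k) * (16 + k))) ≤
      6 * (12 * 2 ^ 24 - (l1 k : ℤ) * (15 + k)) * ((14 + k : ℤ) * (16 + k)) := by
  decide +kernel
theorem H11_eq : H11 = pk (fun _ => 2 ^ 63) 11 := eq_pk (by decide +kernel) (by decide +kernel)
theorem O1120_eq : O1120 = pk (fun _ => 1) 1120 := eq_pk (by decide +kernel) (by decide +kernel)
theorem HI61_eq : HI61 = pk (fun _ => 2 ^ 64 - 2 ^ 61) 1120 :=
  eq_pk (by decide +kernel) (by decide +kernel)
theorem M52_eq : M52 = pk (fun _ => 2 ^ 52 - 1) 11 := eq_pk (by decide +kernel) (by decide +kernel)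
theorem MD_eq : MD = pk (fun l => if l / 28 % 20 = 0 ∨ l / 28 % 20 = 19 then 0 else 2 ^ 56 - 1) 1120 :=
  eq_pk (by decide +kernel) (by decide +kernel)
theorem MA_eq : MA = pk (fun l => if l / 28 % 20 = 18 then 2 ^ 64 - 1 else 0) 1120 :=
  eq_pk (by decide +kernel) (by decide +kernel)
theorem MB_eq : MB = pk (fun l => if l / 28 % 20 = 1 then 2 ^ 64 - 1 else 0) 1120 :=
  eq_pk (by decide +kernel) (by decide +kernel)
theorem PAq_bd : Bd PAq 1120 (2 ^ 20) := bd_of (by decide +kernel) (by decide +kernel)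
theorem PBq_bd : Bd PBq 1120 (2 ^ 20) := bd_of (by decide +kernel) (by decide +kernel)
theorem PAq_spec : ∀ k < 20, ∀ i < 56, dg PAq (lay k i) = 12 * 2 ^ 20 / (16 + k) + 1 := by
  decide +kernel
theorem PBq_spec : ∀ k < 20, ∀ i < 56, dg PBq (lay k i) = 12 * 2 ^ 20 / (14 + k) := by decide +kernel
theorem EXP_bd : Bd EXP 56 48 := bd_of (by decide +kernel) (by decide +kernel)
theorem EYP_bd : Bd EYP 56 48 := bd_of (by decide +kernel) (by decide +kernel)
theorem OE_bd : Bd OE 56 (96 * OO) := bd_of (by decide +kernel) (by decide +kernel)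
theorem XP_bd : Bd XP 56 2304 := bd_of (by decide +kernel) (by decide +kernel)
theorem YP_bd : Bd YP 56 2304 := bd_of (by decide +kernel) (by decide +kernel)
theorem XM_bd : Bd XM 56 9 := bd_of (by decide +kernel) (by decide +kernel)
theorem YM_bd : Bd YM 56 9 := bd_of (by decide +kernel) (by decide +kernel)
theorem EXP_spec : ∀ i < 56, (dg EXP i : ℤ) = ex i + 24 ∧ (dg EYP i : ℤ) = ey i + 24 ∧
    (dg OE i : ℤ) = OO * (48 - ex i - ey i) := by decide +kernel
theorem XP_spec : ∀ i < 56,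
    (dg XP i : ℤ) - dg XM i ≤ 4 * ex i ^ 2 - (ex (i + 1) - ex i) ^ 2 ∧
    (dg XP ((i + 1) % 56) : ℤ) - dg XM ((i + 1) % 56) ≤ 4 * ex (i + 1) ^ 2 - (ex (i + 1) - ex i) ^ 2 ∧
    (dg YP i : ℤ) - dg YM i ≤ 4 * ey i ^ 2 - (ey (i + 1) - ey i) ^ 2 ∧
    (dg YP ((i + 1) % 56) : ℤ) - dg YM ((i + 1) % 56) ≤ 4 * ey (i + 1) ^ 2 - (ey (i + 1) - ey i) ^ 2 := by
  decide +kernel
theorem ex_per : ex 56 = ex 0 ∧ ey 56 = ey 0 ∧ ex 57 = ex 1 ∧ ey 57 = ey 1 := by decide +kernel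
theorem ex_anti : ∀ i < 30, ex (i + 28) = -ex i ∧ ey (i + 28) = -ey i := by decide +kernel
theorem det_succ : ∀ i < 57, det i (i + 1) = 72 := by decide +kernel
theorem ex_zero : ex 0 = 24 ∧ ey 0 = 0 := by decide +kernel
theorem ey_nn : ∀ i < 29, 0 ≤ ey i := by decide +kernel
theorem ex_row : ∀ i < 56,
    12 * (ex ((i + 55) % 56) + ex (i + 1)) = (24 - if i % 14 = 4 ∨ i % 14 = 10 then 1 else 0) * ex i ∧
    12 * (ey ((i + 55) % 56) + ey (i + 1)) = (24 - if i % 14 = 4 ∨ i % 14 = 10 then 1 else 0) * ey i ∧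
    ex ((i + 55) % 56 + 1) = ex i ∧ ey ((i + 55) % 56 + 1) = ey i := by decide +kernel
/-- every sector lies on a line at distance at least one, and all nodes have norm at most √720/24 -/
theorem ex_norm : ∀ i < 57, ex i ^ 2 + ey i ^ 2 ≤ 720 := by decide +kernel
theorem ex_line : ∀ i < 56, (ex i = 24 ∧ ex (i + 1) = 24) ∨ (ex i = -24 ∧ ex (i + 1) = -24) ∨
    (ey i = 24 ∧ ey (i + 1) = 24) ∨ (ey i = -24 ∧ ey (i + 1) = -24) ∨
    (ex i + ey i = 36 ∧ ex (i + 1) + ey (i + 1) = 36) ∨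
    (ex i + ey i = -36 ∧ ex (i + 1) + ey (i + 1) = -36) ∨
    (ex i - ey i = 36 ∧ ex (i + 1) - ey (i + 1) = 36) ∨
    (ex i - ey i = -36 ∧ ex (i + 1) - ey (i + 1) = -36) := by decide +kernel
theorem st0_bd : StBd st0 :=
  ⟨bd_of (by decide +kernel) (by decide +kernel), bd_of (by decide +kernel) (by decide +kernel),
    bd_of (by decide +kernel) (by decide +kernel), bd_of (by decide +kernel) (by decide +kernel),
    by decide +kernel⟩
theorem st0_spec : ∀ i < 56, 576 * 8 * (dg QL0 i : ℤ) ^ 2 < (ex i ^ 2 + ey i ^ 2) * 2 ^ 40 ∧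
    (ex i ^ 2 + ey i ^ 2) * 2 ^ 40 ≤ 576 * 2 * (dg QH0 i : ℤ) ^ 2 ∧
    4 * 576 * 8 * (dg SL0 i : ℤ) ^ 2 < (4 * (ex i ^ 2 + ey i ^ 2) -
      ((ex (i + 1) - ex i) ^ 2 + (ey (i + 1) - ey i) ^ 2)) * 2 ^ 40 ∧
    4 * 576 * 8 * (dg SL0 i : ℤ) ^ 2 < (4 * (ex (i + 1) ^ 2 + ey (i + 1) ^ 2) -
      ((ex (i + 1) - ex i) ^ 2 + (ey (i + 1) - ey i) ^ 2)) * 2 ^ 40 := by decide +kernel

end Pool.Agent.P.MP_2e1554_gt.Chk
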