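import Pool.Agent.P.MP_2e1554_gt.IsoLane
import Pool.Agent.P.MP_2e1554_gt.IsoTab

/-! Rotations, reversal, Kronecker products. -/

open MeasureTheory Set Finset

namespace Pool.Agent.P.MP_2e1554_gt.Chk

theorem rotL_spec {X n a : ℕ} (hn : 0 < n) (hX : Bd X n a) (ha : a < 2 ^ 63) :
    Bd (rotL n X) n a ∧ ∀ i < n, dg (rotL n X) i = dg X ((i + (n - 1)) % n) := by
  have h1 : Bd (low n (X <<< 64)) n a := by
    rw [low_eq]; exact (hX.shiftLeft 1).mod n
  have h2 : Bd (X >>> (64 * (n - 1))) n a := hX.shiftRight _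
  obtain ⟨b, e⟩ := h1.add h2 (by omega)
  have key : ∀ i < n, dg (rotL n X) i = dg X ((i + (n - 1)) % n) := by
    intro i hi
    rw [rotL, e, low_eq, dg_mod, if_pos hi, show X <<< 64 = X <<< (64 * 1) from rfl, dg_shiftLeft,
      dg_shiftRight]
    rcases Nat.eq_zero_or_pos i with rfl | h0
    · rw [if_neg (by omega), zero_add, Nat.mod_eq_of_lt (by omega)]
    · rw [if_pos (by omega), dg_of_ge hX.1 (show n ≤ i + (n - 1) by omega), add_zero,
        show i + (n - 1) = i - 1 + n by omega, Nat.add_mod_right, Nat.mod_eq_of_lt (by omega)]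
  exact ⟨bd_of b.1 fun i hi => (key i hi).trans_le (hX.2 _), key⟩

theorem rotR_spec {X n a : ℕ} (hn : 0 < n) (hX : Bd X n a) (ha : a < 2 ^ 63) :
    Bd (rotR n X) n a ∧ ∀ i < n, dg (rotR n X) i = dg X ((i + 1) % n) := by
  have h1 : Bd (X >>> 64) n a := hX.shiftRight 1
  have h2 : Bd (low 1 X <<< (64 * (n - 1))) n a := by
    rw [low_eq]
    exact ((hX.mod 1).shiftLeft (n - 1)).mono (by omega) le_rfl
  obtain ⟨b, e⟩ := h1.add h2 (by omega)
  have key : ∀ i < n, dg (rotR n X) i = dg X ((i + 1) % n) := by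
    intro i hi
    rw [rotR, e, low_eq, show X >>> 64 = X >>> (64 * 1) from rfl, dg_shiftLeft, dg_shiftRight, dg_mod]
    by_cases h0 : i + 1 < n
    · rw [if_neg (by omega), add_zero, Nat.mod_eq_of_lt h0]
    · rw [if_pos (by omega), if_pos (by omega), dg_of_ge hX.1 (show n ≤ i + 1 by omega), zero_add,
        show i + 1 = n by omega, Nat.mod_self, show i - (n - 1) = 0 by omega]
  exact ⟨bd_of b.1 fun i hi => (key i hi).trans_le (hX.2 _), key⟩

theorem rev_spec {X a : ℕ} (hX : Bd X 56 a) (ha : a < 2 ^ 63) :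
    Bd (rev X 56) 56 a ∧ ∀ i < 56, dg (rev X 56) i = dg X (55 - i) := by
  have key : ∀ n ≤ 56, Bd (rev X n) 56 a ∧
      ∀ i < 56, dg (rev X n) i = if 55 - i < n then dg X (55 - i) else 0 := by
    intro n
    induction n with
    | zero =>
      intro _
      have e : rev X 0 = 0 := rfl
      rw [e]
      exact ⟨⟨Nat.two_pow_pos _, fun i => by simp [dg]⟩, fun i _ => by simp [dg]⟩
    | succ n ih =>
      intro hn
      obtain ⟨b1, e1⟩ := ih (by omega)
      have e : rev X (n + 1) = rev X n + dg X n <<< (64 * (55 - n)) := by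
        rw [← lane_eq]; rfl
      have d0 : dg (dg X n) 0 = dg X n := by
        have := dg_lt X n
        generalize dg X n = u at this ⊢
        simp only [dg, mul_zero, pow_zero, Nat.div_one]
        exact Nat.mod_eq_of_lt this
      have b0 : Bd (dg X n) 1 a := bd_of (dg_lt X n) fun i hi => by
        obtain rfl : i = 0 := by omega
        rw [d0]; exact hX.2 n
      have b2 : Bd (dg X n <<< (64 * (55 - n))) 56 a := (b0.shiftLeft _).mono (by omega) le_rfl
      obtain ⟨b, e2⟩ := b1.add b2 (by omega)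
      have k2 : ∀ i < 56, dg (rev X (n + 1)) i = if 55 - i < n + 1 then dg X (55 - i) else 0 := by
        intro i hi
        rw [e, e2, e1 i hi, dg_shiftLeft]
        rcases lt_trichotomy (55 - i) n with h | h | h
        · rw [if_pos h, if_pos (by omega), if_pos (by omega),
            dg_of_ge b0.1 (show 1 ≤ i - (55 - n) by omega), add_zero]
        · rw [if_neg (by omega), if_pos (by omega), if_pos (by omega), zero_add,
            show i - (55 - n) = 0 by omega, d0, h]
        · rw [if_neg (by omega), if_neg (by omega), if_neg (by omega)]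
      refine ⟨bd_of (e ▸ b.1) fun i hi => ?_, k2⟩
      rw [k2 i hi]
      split_ifs
      · exact hX.2 _
      · exact Nat.zero_le _
  obtain ⟨b, e⟩ := key 56 le_rfl
  exact ⟨b, fun i hi => by rw [e i hi, if_pos (by omega)]⟩

/-- a test of the high bits -/
theorem high_spec {X M N b : ℕ} (hb : b ≤ 64) (hM : M = pk (fun _ => 2 ^ 64 - 2 ^ b) N)
    (h : X &&& M = 0) : ∀ i < N, dg X i < 2 ^ b := by
  intro i hi
  have h2 : 0 < 2 ^ b := Nat.two_pow_pos b
  have h1 : dg X i &&& (2 ^ 64 - 2 ^ b) = 0 := by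
    have := dg_land X M i
    rw [h, hM, dg_pk (fun _ _ => Nat.sub_lt (Nat.two_pow_pos 64) h2), if_pos hi] at this
    rw [← this]
    simp [dg]
  have h3 := dg_lt X i
  generalize dg X i = u at h1 h3
  refine Nat.lt_pow_two_of_testBit u fun j hj => ?_
  by_cases h4 : j < 64
  · have e : 2 ^ 64 - 2 ^ b = (2 ^ (64 - b) - 1) <<< b := by
      rw [Nat.shiftLeft_eq, Nat.sub_mul, one_mul, ← pow_add, Nat.sub_add_cancel hb]
    have := congrArg (fun z => z.testBit j) h1
    simp only [Nat.testBit_and, Nat.zero_testBit] at this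
    rw [e, Nat.testBit_shiftLeft, Nat.testBit_two_pow_sub_one] at this
    simpa [hj, show j - b < 64 - b by omega] using this
  · exact Nat.testBit_lt_two_pow (h3.trans_le (Nat.pow_le_pow_right (by norm_num) (by omega)))

theorem lay_lt {k : ℕ} (hk : k < 20) (i : ℕ) : lay k i < 1120 := by
  unfold lay
  split_ifs <;> omega

/-- Kronecker product in the layout `lay` -/
theorem kron_spec {W A B a b : ℕ} {f : ℕ → ℕ} (hW : Bd W 56 a) (hf : ∀ k < 20, f k ≤ b)
    (hA : A = pk (fun l => if l % 28 = 0 then f (l / 28) else 0) (28 * 20))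
    (hB : B = pk (fun l => if l % 28 = 0 then f (19 - l / 28) else 0) (28 * 20))
    (h : a * b < 2 ^ 63) (hb : b < 2 ^ 64) :
    Bd (kron W A B) 1120 (a * b) ∧ ∀ k < 20, ∀ i < 56, dg (kron W A B) (lay k i) = dg W i * f k := by
  have fa : ∀ l < 28 * 20, (if l % 28 = 0 then f (l / 28) else 0) ≤ b := fun l hl => by
    split_ifs
    · exact hf _ (by omega)
    · exact Nat.zero_le _
  have fb : ∀ l < 28 * 20, (if l % 28 = 0 then f (19 - l / 28) else 0) ≤ b := fun l hl => by
    split_ifs
    · exact hf _ (by omega)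
    · exact Nat.zero_le _
  have bA : Bd A (28 * 20) b := hA ▸ Bd.pk hb fa
  have bB : Bd B (28 * 20) b := hB ▸ Bd.pk hb fb
  have dA : ∀ l, dg A l = if l < 28 * 20 then (if l % 28 = 0 then f (l / 28) else 0) else 0 :=
    fun l => by rw [hA, dg_pk fun i hi => (fa i hi).trans_lt hb]
  have dB : ∀ l, dg B l = if l < 28 * 20 then (if l % 28 = 0 then f (19 - l / 28) else 0) else 0 :=
    fun l => by rw [hB, dg_pk fun i hi => (fb i hi).trans_lt hb]
  clear hA hB fa fb
  have w1 : Bd (low 28 W) 28 a := by rw [low_eq]; exact hW.mod 28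
  have w2 : Bd (W >>> (64 * 28)) 28 a := by
    refine ⟨?_, fun i => by rw [dg_shiftRight]; exact hW.2 _⟩
    rw [Nat.shiftRight_eq_div_pow, Nat.div_lt_iff_lt_mul (Nat.two_pow_pos _), ← pow_add]
    exact hW.1
  obtain ⟨k1, e1⟩ := w1.kron bA (fun l hl => by rw [dA, if_neg hl, ite_self]) (by omega)
  obtain ⟨k2, e2⟩ := w2.kron bB (fun l hl => by rw [dB, if_neg hl, ite_self]) (by omega)
  have e : kron W A B = low 28 W * A + (W >>> (64 * 28) * B) <<< (64 * 560) := rfl
  obtain ⟨k3, e3⟩ := (k1.mono (show 28 * 20 ≤ 1120 by omega) le_rfl).add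
    ((k2.shiftLeft 560).mono (show 28 * 20 + 560 ≤ 1120 by omega) le_rfl) (by omega)
  rw [e]
  refine ⟨bd_of k3.1 fun i hi => ?_, fun k hk i hi => ?_⟩
  · rw [e3, dg_shiftLeft]
    split_ifs with h1
    · rw [dg_of_ge k1.1 (show 28 * 20 ≤ i by omega), zero_add]; exact k2.2 _
    · rw [add_zero]; exact k1.2 _
  · rw [e3, dg_shiftLeft, lay, Nat.mod_eq_of_lt hi]
    by_cases h1 : i < 28
    · rw [if_pos h1, if_neg (by omega), add_zero, e1 k i h1, low_eq, dg_mod, if_pos h1, dA,
        if_pos (by omega), if_pos (by omega), show 28 * k / 28 = k by omega]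
    · rw [if_neg h1, if_pos (by omega), dg_of_ge k1.1 (by omega), zero_add,
        show 28 * (39 - k) + (i - 28) - 560 = 28 * (19 - k) + (i - 28) by omega,
        e2 _ _ (by omega), dg_shiftRight, dB, if_pos (by omega), if_pos (by omega),
        show i - 28 + 28 = i by omega, show 19 - 28 * (19 - k) / 28 = k by omega]

end Pool.Agent.P.MP_2e1554_gt.Chk
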