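import Pool.Agent.P.MP_2e1554_gt.IsoEnv
import Pool.Agent.P.MP_2e1554_gt.IsoLane2

/-! Lanes of the error terms and of the coefficients. -/

open MeasureTheory Set Finset

namespace Pool.Agent.P.MP_2e1554_gt.Chk

theorem isoerr_shift {X M l s t : ℕ} (h : s + t = 64) (hM : dg M l = 2 ^ t - 1) :
    dg (X >>> s &&& M) l = dg X l / 2 ^ s := by
  rw [dg_land, hM]
  apply Nat.eq_of_testBit_eq
  intro j
  rw [Nat.testBit_and, Nat.testBit_two_pow_sub_one, Nat.testBit_div_two_pow]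
  by_cases hj : j < t
  · rw [← testBit_dg _ _ (show j < 64 by omega), ← testBit_dg _ _ (show j + s < 64 by omega),
      Nat.testBit_shiftRight, show s + (64 * l + j) = 64 * l + (j + s) by ring, decide_eq_true hj,
      Bool.and_true]
  · rw [decide_eq_false hj, Bool.and_false]
    exact (Nat.testBit_lt_two_pow
      ((dg_lt X l).trans_le (Nat.pow_le_pow_right (by norm_num) (by omega)))).symm

theorem isoerr_zero {X M l : ℕ} (hM : dg M l = 0) : dg (X &&& M) l = 0 := by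
  rw [dg_land, hM, Nat.and_zero]

theorem isoerr_trunc {X N N' b : ℕ} (hX : Bd X N' b) (h : ∀ l, N ≤ l → dg X l = 0) : Bd X N b := by
  have e : X % 2 ^ (64 * N) = X := eq_of_dg fun l => by
    rw [dg_mod]
    split_ifs with hl
    · rfl
    · exact (h l (not_lt.1 hl)).symm
  exact e ▸ hX.mod N

theorem isoerr_bd0 (N : ℕ) : Bd 0 N 0 := ⟨Nat.two_pow_pos _, fun i => by simp [dg]⟩

theorem isoerr_dg0 (l : ℕ) : dg 0 l = 0 := by simp [dg]

/-- lanes of a shift by eight bits under a mask of 56 bits -/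
theorem shift8_spec {X M N a : ℕ} (hX : Bd X N a) {q : ℕ → Prop} [DecidablePred q]
    (hM : M = pk (fun l => if q l then 0 else 2 ^ 56 - 1) N) :
    Bd (X >>> 8 &&& M) N (a / 256) ∧ ∀ l < N, dg (X >>> 8 &&& M) l = if q l then 0 else dg X l / 256 := by
  have hc : ∀ l < N, (if q l then 0 else 2 ^ 56 - 1 : ℕ) < 2 ^ 64 := fun l _ => by
    split_ifs <;> norm_num
  have key : ∀ l < N, dg (X >>> 8 &&& M) l = if q l then 0 else dg X l / 256 := by
    intro l hl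
    have e : dg M l = if q l then 0 else 2 ^ 56 - 1 := by rw [hM, dg_pk hc, if_pos hl]
    split_ifs with hq
    · rw [if_pos hq] at e
      exact isoerr_zero e
    · rw [if_neg hq] at e
      exact isoerr_shift (s := 8) (t := 56) rfl e
  refine ⟨bd_of (lt_of_le_of_lt Nat.and_le_right (hM ▸ pk_lt hc)) fun l hl => ?_, key⟩
  rw [key l hl]
  split_ifs
  · exact Nat.zero_le _
  · exact Nat.div_le_div_right (hX.2 l)

theorem isoerr_mask {X M N a : ℕ} (hX : Bd X N a) {q : ℕ → Prop} [DecidablePred q]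
    (hM : M = pk (fun l => if q l then 2 ^ 64 - 1 else 0) N) :
    Bd (X &&& M) N a ∧ ∀ l, dg (X &&& M) l = if q l then dg X l else 0 := by
  have hc : ∀ l < N, (if q l then 2 ^ 64 - 1 else 0 : ℕ) < 2 ^ 64 := fun l _ => by
    split_ifs <;> norm_num
  obtain ⟨b, e⟩ := mask_spec (M := M) hX
  refine ⟨b, fun l => ?_⟩
  by_cases hl : l < N
  · have e' : dg M l = if q l then 2 ^ 64 - 1 else 0 := by rw [hM, dg_pk hc, if_pos hl]
    split_ifs with hq
    · rw [if_pos hq] at e'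
      exact e l e'
    · rw [if_neg hq] at e'
      exact isoerr_zero e'
  · rw [dg_of_ge b.1 (not_lt.1 hl), dg_of_ge hX.1 (not_lt.1 hl), ite_self]

theorem isoerr_N {P : ℕ} (hP : Bd P 1120 (2 ^ 61)) :
    Bd (lsub H1120 (2 * P) (P >>> 1792 + low 1120 (P <<< 1792)) >>> 8 &&& MD) 1120 (2 ^ 54) ∧
    ∀ l < 1120, dg (lsub H1120 (2 * P) (P >>> 1792 + low 1120 (P <<< 1792)) >>> 8 &&& MD) l =
      if l / 28 % 20 = 0 ∨ l / 28 % 20 = 19 then 0 else
        (2 * dg P l - (dg P (l + 28) + dg P (l - 28))) / 256 := by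
  obtain ⟨a1, a2⟩ := hP.smul (c := 2) (by norm_num)
  have b1 : Bd (P >>> (64 * 28)) 1120 (2 ^ 61) := hP.shiftRight 28
  have b2 : Bd (low 1120 (P <<< (64 * 28))) 1120 (2 ^ 61) := by
    rw [low_eq]
    exact (hP.shiftLeft 28).mod 1120
  obtain ⟨c1, c2⟩ := b1.add b2 (by norm_num)
  obtain ⟨d1, d2⟩ := lsub_spec a1 c1 (by norm_num) (by norm_num) H1120_eq
  obtain ⟨e1, e2⟩ := shift8_spec d1 MD_eq
  refine ⟨e1.mono le_rfl (by norm_num), fun l hl => ?_⟩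
  refine (e2 l hl).trans ?_
  split_ifs with hq
  · rfl
  · rw [d2, a2, c2, dg_shiftRight, low_eq, dg_mod, if_pos hl, dg_shiftLeft, if_pos (by omega)]

theorem isoerr_E {N : ℕ} (hN : Bd N 1120 (2 ^ 54)) :
    Bd ((N + (N &&& MA) <<< 1792 + (N &&& MB) >>> 1792 + O1120) * 43) 1120 (2 ^ 62) ∧
    ∀ l < 1120, dg ((N + (N &&& MA) <<< 1792 + (N &&& MB) >>> 1792 + O1120) * 43) l =
      (dg N l + (if 28 ≤ l ∧ (l - 28) / 28 % 20 = 18 then dg N (l - 28) else 0) +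
        (if (l + 28) / 28 % 20 = 1 then dg N (l + 28) else 0) + 1) * 43 := by
  obtain ⟨a1, a2⟩ := isoerr_mask hN MA_eq
  obtain ⟨b1, b2⟩ := isoerr_mask hN MB_eq
  have a3 : ∀ l, dg ((N &&& MA) <<< (64 * 28)) l =
      if 28 ≤ l ∧ (l - 28) / 28 % 20 = 18 then dg N (l - 28) else 0 := by
    intro l
    rw [dg_shiftLeft, a2]
    by_cases h1 : 28 ≤ l <;> by_cases h2 : (l - 28) / 28 % 20 = 18 <;> simp [h1, h2]
  have a4 : Bd ((N &&& MA) <<< (64 * 28)) 1120 (2 ^ 54) :=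
    isoerr_trunc (a1.shiftLeft 28) fun l hl => by
      rw [a3]
      split_ifs with h
      · exact dg_of_ge hN.1 (by omega)
      · rfl
  have o1 : Bd O1120 1120 1 := O1120_eq ▸ Bd.pk (by norm_num) fun _ _ => le_rfl
  have o2 : ∀ l < 1120, dg O1120 l = 1 := fun l hl => by
    rw [O1120_eq, dg_pk fun _ _ => by norm_num, if_pos hl]
  obtain ⟨c1, c2⟩ := hN.add a4 (by norm_num)
  obtain ⟨d1, d2⟩ := c1.add (b1.shiftRight 28) (by norm_num)
  obtain ⟨e1, e2⟩ := d1.add o1 (by norm_num)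
  obtain ⟨f1, f2⟩ := e1.smul (c := 43) (by norm_num)
  rw [mul_comm _ 43]
  refine ⟨f1.mono le_rfl (by norm_num), fun l hl => ?_⟩
  refine (f2 l).trans ?_
  rw [e2, d2, c2, a3, dg_shiftRight, b2, o2 l hl, mul_comm]

theorem isoerr_cast (a b c : ℕ) : (((2 * b - (a + c)) / 256 : ℕ) : ℤ) =
    max 0 (-((a : ℤ) - 2 * b + c)) / 256 := by omega

/-- `1792 = 64 * 28` is one row; `lay k i` lies in row `k` or `39 - k`; `MD_eq`, `MA_eq`, `MB_eq` -/
theorem errS_spec {P : ℕ} (hP : Bd P 1120 (2 ^ 61)) : Bd (errS P) 1120 (2 ^ 62) ∧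
    ∀ k < 20, ∀ i < 56, (dg (errS P) (lay k i) : ℤ) =
      (max 0 (-dd (fun k => (dg P (lay k i) : ℤ)) k) / 256 + 1) * 43 := by
  obtain ⟨n1, n2⟩ := isoerr_N hP
  obtain ⟨e1, e2⟩ := isoerr_E n1
  refine ⟨e1, fun k hk i hi => ?_⟩
  have e3 := e2 _ (lay_lt hk i)
  unfold errS
  generalize lsub H1120 (2 * P) (P >>> 1792 + low 1120 (P <<< 1792)) >>> 8 &&& MD = N at *
  have hc : 1 ≤ cl k ∧ cl k ≤ 18 := by unfold cl; omega
  have k1 : (dg N (lay (cl k) i) : ℤ) = max 0 (-dd (fun k => (dg P (lay k i) : ℤ)) k) / 256 := by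
    rw [n2 _ (lay_lt (by omega) i)]
    unfold dd
    generalize cl k = m at hc ⊢
    by_cases h : i < 28
    · have l0 : ∀ m, lay m i = 28 * m + i := fun m => by
        unfold lay
        rw [Nat.mod_eq_of_lt hi, if_pos h]
      simp only [l0]
      rw [if_neg (by omega), show 28 * m + i + 28 = 28 * (m + 1) + i by ring,
        show 28 * m + i - 28 = 28 * (m - 1) + i by omega, add_comm (dg P _) (dg P _), isoerr_cast]
    · have l0 : ∀ m, lay m i = 28 * (39 - m) + (i - 28) := fun m => by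
        unfold lay
        rw [Nat.mod_eq_of_lt hi, if_neg h]
      simp only [l0]
      rw [if_neg (by omega),
        show 28 * (39 - m) + (i - 28) + 28 = 28 * (39 - (m - 1)) + (i - 28) by omega,
        show 28 * (39 - m) + (i - 28) - 28 = 28 * (39 - (m + 1)) + (i - 28) by omega, isoerr_cast]
  have z : ∀ l < 1120, l / 28 % 20 = 0 ∨ l / 28 % 20 = 19 → dg N l = 0 := fun l hl h => by
    rw [n2 l hl, if_pos h]
  have k2 : dg N (lay k i) + (if 28 ≤ lay k i ∧ (lay k i - 28) / 28 % 20 = 18 then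
      dg N (lay k i - 28) else 0) + (if (lay k i + 28) / 28 % 20 = 1 then dg N (lay k i + 28) else 0) =
      dg N (lay (cl k) i) := by
    have hl := lay_lt hk i
    have l0 : ∀ m, lay m i = if i < 28 then 28 * m + i else 28 * (39 - m) + (i - 28) := fun m => by
      unfold lay
      rw [Nat.mod_eq_of_lt hi]
    have l1 := l0 k
    have l2 := l0 (cl k)
    have hk' : (k = 0 ∧ cl k = 1) ∨ (k = 19 ∧ cl k = 18) ∨ (1 ≤ k ∧ k ≤ 18 ∧ cl k = k) := by
      unfold cl; omega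
    generalize lay k i = l at *
    generalize lay (cl k) i = l' at *
    generalize cl k = m at *
    have cases : (l / 28 % 20 = 0 ∧ l' = l + 28) ∨ (l / 28 % 20 = 19 ∧ l' = l - 28) ∨
        (l / 28 % 20 ≠ 0 ∧ l / 28 % 20 ≠ 19 ∧ l' = l) := by
      split_ifs at l1 l2 <;> omega
    rcases cases with ⟨h1, h2⟩ | ⟨h1, h2⟩ | ⟨h1, h2, h3⟩
    · rw [z l hl (Or.inl h1), if_neg (by omega), if_pos (by omega), h2, zero_add, zero_add]
    · rw [z l hl (Or.inr h1), if_pos (by omega), if_neg (by omega), h2, zero_add, add_zero]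
    · rw [if_neg (by omega), if_neg (by omega), h3, add_zero, add_zero]
  rw [k2] at e3
  rw [← k1]
  show ((dg ((N + (N &&& MA) <<< 1792 + (N &&& MB) >>> 1792 + O1120) * 43) (lay k i) : ℕ) : ℤ) = _
  rw [e3]
  push_cast
  rfl

theorem xP_spec {c : Cm} {b : ℕ} (hx : Bd c.xa 23 b) (hb : b < 2 ^ 63) :
    Bd (xP c.xa) 11 b ∧ Bd (xQ c.xa) 11 b ∧
      ∀ j < 11, dg (xP c.xa) j = xp c j ∧ dg (xQ c.xa) j = xq c j := by
  have a1 : Bd (low 11 c.xa) 11 b := by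
    rw [low_eq]
    exact hx.mod 11
  have a2 : Bd (low 11 (c.xa >>> (64 * 11))) 11 b := by
    rw [low_eq]
    exact (hx.shiftRight 11).mod 11
  obtain ⟨p1, p2⟩ := lsub_spec a1 a2 hb hb H11_eq
  obtain ⟨q1, q2⟩ := lsub_spec a2 a1 hb hb H11_eq
  refine ⟨p1, q1, fun j hj => ?_⟩
  have e1 : dg (low 11 c.xa) j = dg c.xa j := by rw [low_eq, dg_mod, if_pos hj]
  have e2 : dg (low 11 (c.xa >>> (64 * 11))) j = dg c.xa (11 + j) := by
    rw [low_eq, dg_mod, if_pos hj, dg_shiftRight, add_comm]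
  exact ⟨(p2 j).trans (by rw [e1, e2]; rfl), (q2 j).trans (by rw [e1, e2]; rfl)⟩

theorem isoerr_cdn {b g : ℕ} (hb : b ≤ 268435456) (hg : g ≤ 31457280) : cdn b g < 1073741824 := by
  unfold cdn SG
  rw [Nat.div_lt_iff_lt_mul (by norm_num)]
  exact (Nat.mul_le_mul hb hg).trans_lt (by norm_num)

theorem isoerr_four (u0 u1 u2 u3 : ℕ) : u0 + u1 <<< 64 + u2 <<< 128 + u3 <<< 192 =
    pk (fun l => [u0, u1, u2, u3].getD l 0) 4 := by
  unfold pk
  rw [sum_range_succ, sum_range_succ, sum_range_succ, sum_range_one, Nat.shiftLeft_eq,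
    Nat.shiftLeft_eq, Nat.shiftLeft_eq, mul_comm u1, mul_comm u2, mul_comm u3, mul_zero, pow_zero,
    one_mul]
  rfl

/-- `cdn b g < 2^30` -/
theorem cv_spec {G : Gx} {b1 b2 X b : ℕ} {x : ℕ → ℕ} (hX : Bd X 11 b) (hb : b < 2 ^ 63)
    (hx : ∀ j < 11, dg X j = x j) (h1 : b1 + b2 ≤ 268435456) (hg : G.g1 + G.g2 ≤ 31457280)
    (e0 e1 e2 e3 e4 e5 : ℕ) : Bd (cv b1 b2 G.g1 G.g2 X) 11 (2 ^ 52) ∧
      ∀ j < 11, dg (cv b1 b2 G.g1 G.g2 X) j = cI G b1 b2 x e0 e1 e2 e3 e4 e5 (6 + j) := by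
  have u0 := isoerr_cdn (b := b1) (g := G.g1) (by omega) (by omega)
  have u1 := isoerr_cdn (b := b2) (g := G.g1) (by omega) (by omega)
  have u2 := isoerr_cdn (b := b1) (g := G.g2) (by omega) (by omega)
  have u3 := isoerr_cdn (b := b2) (g := G.g2) (by omega) (by omega)
  have hc : ∀ l < 4, [cdn b1 G.g1, cdn b2 G.g1, cdn b1 G.g2, cdn b2 G.g2].getD l 0 ≤ 2 ^ 30 := by
    intro l hl
    interval_cases l
    · exact u0.le
    · exact u1.le
    · exact u2.le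
    · exact u3.le
  have m1 : ∀ l < 11, (2 ^ 52 - 1 : ℕ) < 2 ^ 64 := fun _ _ => by norm_num
  have a2 : ∀ l < 11, dg (X >>> 12 &&& M52) l = dg X l / 2 ^ 12 := fun l hl =>
    isoerr_shift (t := 52) rfl (by rw [M52_eq, dg_pk m1, if_pos hl])
  have a1 : Bd (X >>> 12 &&& M52) 11 (2 ^ 51) :=
    bd_of (lt_of_le_of_lt Nat.and_le_right (M52_eq ▸ pk_lt m1)) fun l hl => by
      rw [a2 l hl]
      have := hX.2 l
      omega
  have y1 : Bd (pk (fun l => [cdn b1 G.g1, cdn b2 G.g1, cdn b1 G.g2, cdn b2 G.g2].getD l 0) 4) 11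
      (2 ^ 30) := (Bd.pk (by norm_num) hc).mono (by norm_num) le_rfl
  obtain ⟨c1, c2⟩ := a1.add y1 (by norm_num)
  unfold cv
  rw [Nat.mod_eq_of_lt u0, Nat.mod_eq_of_lt u1, Nat.mod_eq_of_lt u2, Nat.mod_eq_of_lt u3,
    isoerr_four]
  refine ⟨c1.mono le_rfl (by norm_num), fun j hj => ?_⟩
  rw [c2, a2 j hj, dg_pk fun l hl => (hc l hl).trans_lt (by norm_num), hx j hj]
  unfold cI
  rw [if_neg (show ¬ 6 + j < 6 by omega), Nat.add_sub_cancel_left, add_comm, add_comm 6 j]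
  refine congrArg₂ _ ?_ rfl
  show _ = [cdn b1 G.g1, cdn b2 G.g1, cdn b1 G.g2, cdn b2 G.g2].getD j 0
  split_ifs with h4
  · rfl
  · exact (List.getD_eq_default _ _ (not_lt.1 h4)).symm

theorem isoerr_fma (A c T : ℕ) : fma A c T = A + c * T := by
  unfold fma
  rcases c with _ | c
  · show A = A + 0 * T
    rw [zero_mul, add_zero]
  · rfl

theorem isoerr_sum {A N a t : ℕ} {c T : ℕ → ℕ} (hA : Bd A N a) (n : ℕ)
    (hT : ∀ j < n, Bd (T j) N t) (h : a + (∑ j ∈ range n, c j) * t < 2 ^ 64) :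
    Bd (A + ∑ j ∈ range n, c j * T j) N (a + (∑ j ∈ range n, c j) * t) ∧
      ∀ l, dg (A + ∑ j ∈ range n, c j * T j) l = dg A l + ∑ j ∈ range n, c j * dg (T j) l := by
  induction n with
  | zero => simpa using hA
  | succ n ih =>
    rw [sum_range_succ, add_mul, ← add_assoc] at h
    obtain ⟨a1, a2⟩ := ih (fun j hj => hT j (by omega)) (by omega)
    obtain ⟨b1, b2⟩ := fma_spec a1 (hT n (by omega)) h
    rw [isoerr_fma] at b1 b2
    rw [sum_range_succ, sum_range_succ, add_mul, ← add_assoc, ← add_assoc]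
    exact ⟨b1, fun l => by rw [b2, a2, sum_range_succ, add_assoc]⟩

theorem elv_spec {A X N a t : ℕ} {T : ℕ → ℕ} (hA : Bd A N a) (hT : ∀ j < 17, Bd (T j) N t)
    (h : a + (∑ j ∈ range 11, dg X j) * t < 2 ^ 64) :
    Bd (elv A X (T 6) (T 7) (T 8) (T 9) (T 10) (T 11) (T 12) (T 13) (T 14) (T 15) (T 16)) N
        (a + (∑ j ∈ range 11, dg X j) * t) ∧
      ∀ l, dg (elv A X (T 6) (T 7) (T 8) (T 9) (T 10) (T 11) (T 12) (T 13) (T 14) (T 15) (T 16)) l =
        dg A l + ∑ j ∈ range 11, dg X j * dg (T (6 + j)) l := by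
  have e : elv A X (T 6) (T 7) (T 8) (T 9) (T 10) (T 11) (T 12) (T 13) (T 14) (T 15) (T 16) =
      A + ∑ j ∈ range 11, dg X j * T (6 + j) := by
    unfold elv six
    simp only [isoerr_fma, lane_eq, sum_range_succ, sum_range_zero, Nat.reduceAdd, add_assoc,
      zero_add]
  rw [e]
  exact isoerr_sum (T := fun j => T (6 + j)) hA 11 (fun j hj => hT _ (by omega)) h

theorem mu_bd (c : Cm) : Bd (c.mu &&& N31) 56 (2 ^ 31 - 1) ∧ dg (c.mu &&& N31) 28 = 0 :=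
  ⟨⟨lt_of_le_of_lt Nat.and_le_right N31_bd.1.1, fun l => by
    rw [dg_land]
    exact Nat.and_le_right.trans (N31_bd.1.2 l)⟩, isoerr_zero N31_bd.2⟩

theorem muW_spec {m : ℕ} (h0 : Bd m 56 (2 ^ 31 - 1)) (h1 : dg m 28 = 0) :
    Bd (muW m) 56 (2 ^ 32) ∧ ∀ j < 56, dg (muW m) j = dg m (j % 28) + dg m (nuI j) := by
  have hz : ∀ l, 56 ≤ l → dg m l = 0 := fun l hl => dg_of_ge h0.1 hl
  have e : muW m = m % 2 ^ (64 * 28) + (m % 2 ^ (64 * 28)) <<< (64 * 28) +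
      ((m >>> (64 * 28)) <<< (64 * 42) % 2 ^ (64 * 56) + m >>> (64 * 42) +
        rev (m >>> (64 * 28)) 56 >>> (64 * 13)) := by
    rw [muW, nuW, low_eq, low_eq]
  obtain ⟨r1, r2⟩ := rev_spec (h0.shiftRight 28) (by norm_num)
  obtain ⟨a1, a2⟩ := ((h0.mod 28).mono (show 28 ≤ 56 by norm_num) le_rfl).add
    ((h0.mod 28).shiftLeft 28) (by norm_num)
  obtain ⟨b1, b2⟩ := (((h0.shiftRight 28).shiftLeft 42).mod 56).add (h0.shiftRight 42) (by norm_num)
  obtain ⟨c1, c2⟩ := b1.add (r1.shiftRight 13) (by norm_num)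
  obtain ⟨d1, d2⟩ := a1.add c1 (by norm_num)
  rw [← e] at d1 d2
  have key : ∀ j < 56, dg (muW m) j = dg m (j % 28) + dg m (nuI j) := fun j hj => by
    have r3 : dg (rev (m >>> (64 * 28)) 56) (j + 13) = if j < 43 then dg m (70 - j) else 0 := by
      split_ifs with h
      · rw [r2 _ (by omega), dg_shiftRight, show 55 - (j + 13) + 28 = 70 - j by omega]
      · exact dg_of_ge r1.1 (by omega)
    rw [d2, a2, c2, b2, dg_shiftRight, dg_shiftRight, r3, dg_mod, dg_shiftLeft, dg_mod, dg_mod,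
      dg_shiftLeft, dg_shiftRight, if_pos hj, nuI]
    have e1 : (if j < 28 then dg m j else 0) +
        (if 28 ≤ j then (if j - 28 < 28 then dg m (j - 28) else 0) else 0) = dg m (j % 28) := by
      by_cases h : j < 28
      · rw [if_pos h, if_neg (by omega), add_zero, Nat.mod_eq_of_lt h]
      · rw [if_neg h, if_pos (by omega), if_pos (by omega), zero_add, show j % 28 = j - 28 by omega]
    rw [e1]
    refine congrArg _ ?_
    by_cases h2 : 42 ≤ j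
    · rw [if_pos h2, if_pos h2, hz (j + 42) (by omega), add_zero, show j - 42 + 28 = j - 14 by omega]
      split_ifs
      · rw [show 70 - j = 28 by omega, h1, add_zero]
      · rw [add_zero]
    · rw [if_neg h2, if_neg h2, zero_add, if_pos (by omega)]
      split_ifs
      · rw [hz (70 - j) (by omega), add_zero]
      · rw [hz (j + 42) (by omega), zero_add]
  refine ⟨bd_of d1.1 fun j hj => ?_, key⟩
  have t1 := h0.2 (j % 28)
  have t2 := h0.2 (nuI j)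
  rw [key j hj]
  omega

theorem muT_spec (c : Cm) : Bd (muT (c.mu &&& N31)) 1120 (2 ^ 58) ∧
    ∀ k < 20, ∀ i < 56, dg (muT (c.mu &&& N31)) (lay k i) = muv c i * ((15 + k) * 2 ^ 20) := by
  obtain ⟨a1, a2⟩ := muW_spec (mu_bd c).1 (mu_bd c).2
  obtain ⟨b1, b2⟩ := kron_spec (f := fun k => (15 + k) * 2 ^ 20) (b := 34 * 2 ^ 20) a1
    (fun k hk => Nat.mul_le_mul_right _ (by omega)) MUA_eq MUB_eq (by norm_num) (by norm_num)
  exact ⟨b1.mono le_rfl (by norm_num), fun k hk i hi =>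
    (b2 k hk i hi).trans (by rw [a2 i hi, muv, Nat.mod_eq_of_lt hi])⟩

/-- what `mkL` computes -/
theorem mkL_spec (G : Gx) (B : Bx) (s : St) {c : Cm} (d : Vd) {b : ℕ} (hx : Bd c.xa 23 b)
    (hb : b < 2 ^ 63) (hc : c.b1p + c.b1q + c.b2p + c.b2q ≤ 268435456)
    (hg : G.g1 + G.g2 ≤ 31457280) :
    (mkL G B s c).KP = ∑ j ∈ range 11, cP G c d (6 + j) ∧
    (mkL G B s c).KN = ∑ j ∈ range 11, cQ G c d (6 + j) ∧ (mkL G B s c).XK = xk c ∧
    ((mkL G B s c).KP + (mkL G B s c).KN ≤ 268435456 →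
      Bd (mkL G B s c).PC 1120 (2 ^ 60 + (mkL G B s c).KN * 2 ^ 31) ∧
      Bd (mkL G B s c).NC 1120 (2 ^ 58 + (mkL G B s c).KP * 2 ^ 31) ∧
      Bd (mkL G B s c).EP 1120 ((mkL G B s c).KN * 2 ^ 31) ∧
      Bd (mkL G B s c).EN 1120 ((mkL G B s c).KP * 2 ^ 31) ∧ ∀ l < 1120,
        dg (mkL G B s c).PC l = 2 ^ 60 + ∑ j ∈ range 11, cQ G c d (6 + j) * dg (TU (6 + j)) l ∧
        dg (mkL G B s c).NC l = dg (muT (c.mu &&& N31)) l +
          ∑ j ∈ range 11, cP G c d (6 + j) * dg (TL (6 + j)) l ∧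
        dg (mkL G B s c).EP l = ∑ j ∈ range 11, cQ G c d (6 + j) * dg (YU (6 + j)) l ∧
        dg (mkL G B s c).EN l = ∑ j ∈ range 11, cP G c d (6 + j) * dg (YL (6 + j)) l) := by
  obtain ⟨x1, x2, x3⟩ := xP_spec hx hb
  obtain ⟨p1, p2⟩ := cv_spec (G := G) (b1 := c.b1p) (b2 := c.b2p) x1 hb (fun j hj => (x3 j hj).1)
    (by omega) hg d.p0 d.p1 d.p2 d.p3 d.p4 d.p5
  obtain ⟨q1, q2⟩ := cv_spec (G := G) (b1 := c.b1q) (b2 := c.b2q) x2 hb (fun j hj => (x3 j hj).2)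
    (by omega) hg d.q0 d.q1 d.q2 d.q3 d.q4 d.q5
  have kP : (mkL G B s c).KP = ∑ j ∈ range 11, dg (cv c.b1p c.b2p G.g1 G.g2 (xP c.xa)) j :=
    p1.sum (by norm_num)
  have kN : (mkL G B s c).KN = ∑ j ∈ range 11, dg (cv c.b1q c.b2q G.g1 G.g2 (xQ c.xa)) j :=
    q1.sum (by norm_num)
  have ePC : (mkL G B s c).PC = elv OFV (cv c.b1q c.b2q G.g1 G.g2 (xQ c.xa)) (TU 6) (TU 7) (TU 8)
      (TU 9) (TU 10) (TU 11) (TU 12) (TU 13) (TU 14) (TU 15) (TU 16) := rfl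
  have eNC : (mkL G B s c).NC = elv (muT (c.mu &&& N31)) (cv c.b1p c.b2p G.g1 G.g2 (xP c.xa)) (TL 6)
      (TL 7) (TL 8) (TL 9) (TL 10) (TL 11) (TL 12) (TL 13) (TL 14) (TL 15) (TL 16) := rfl
  have eEP : (mkL G B s c).EP = elv 0 (cv c.b1q c.b2q G.g1 G.g2 (xQ c.xa)) (YU 6) (YU 7) (YU 8)
      (YU 9) (YU 10) (YU 11) (YU 12) (YU 13) (YU 14) (YU 15) (YU 16) := rfl
  have eEN : (mkL G B s c).EN = elv 0 (cv c.b1p c.b2p G.g1 G.g2 (xP c.xa)) (YL 6) (YL 7) (YL 8)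
      (YL 9) (YL 10) (YL 11) (YL 12) (YL 13) (YL 14) (YL 15) (YL 16) := rfl
  have eXK : (mkL G B s c).XK = (lane c.xa 22 + 4095) >>> 12 := rfl
  have sP : ∀ f : ℕ → ℕ, ∑ j ∈ range 11, dg (cv c.b1p c.b2p G.g1 G.g2 (xP c.xa)) j * f j =
      ∑ j ∈ range 11, cP G c d (6 + j) * f j := fun f =>
    sum_congr rfl fun j hj => by rw [p2 j (mem_range.1 hj)]; rfl
  have sQ : ∀ f : ℕ → ℕ, ∑ j ∈ range 11, dg (cv c.b1q c.b2q G.g1 G.g2 (xQ c.xa)) j * f j =
      ∑ j ∈ range 11, cQ G c d (6 + j) * f j := fun f =>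
    sum_congr rfl fun j hj => by rw [q2 j (mem_range.1 hj)]; rfl
  refine ⟨kP.trans (sum_congr rfl fun j hj => p2 j (mem_range.1 hj)),
    kN.trans (sum_congr rfl fun j hj => q2 j (mem_range.1 hj)), ?_, ?_⟩
  · rw [eXK, lane_eq, Nat.shiftRight_eq_div_pow]
    rfl
  · rw [ePC, eNC, eEP, eEN, kP, kN]
    generalize cv c.b1p c.b2p G.g1 G.g2 (xP c.xa) = CP at *
    generalize cv c.b1q c.b2q G.g1 G.g2 (xQ c.xa) = CQ at *
    intro hK
    have o1 : Bd OFV 1120 (2 ^ 60) := OFV_eq ▸ Bd.pk (by norm_num) fun _ _ => le_rfl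
    have o2 : ∀ l < 1120, dg OFV l = 2 ^ 60 := fun l hl => by
      rw [OFV_eq, dg_pk fun _ _ => by norm_num, if_pos hl]
    obtain ⟨a1, a2⟩ := elv_spec (X := CQ) o1 (fun j hj => (TU_bd hj).1) (by omega)
    obtain ⟨b1, b2⟩ := elv_spec (X := CP) (muT_spec c).1 (fun j hj => (TU_bd hj).2.1) (by omega)
    obtain ⟨c1, c2⟩ := elv_spec (X := CQ) (isoerr_bd0 1120) (fun j hj => (TU_bd hj).2.2.1)
      (by omega)
    obtain ⟨d1, d2⟩ := elv_spec (X := CP) (isoerr_bd0 1120) (fun j hj => (TU_bd hj).2.2.2)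
      (by omega)
    rw [zero_add] at c1 d1
    refine ⟨a1, b1, c1, d1, fun l hl => ⟨?_, ?_, ?_, ?_⟩⟩
    · rw [a2, o2 l hl, sQ]
    · rw [b2, sP]
    · rw [c2, isoerr_dg0, zero_add, sQ]
    · rw [d2, isoerr_dg0, zero_add, sP]

end Pool.Agent.P.MP_2e1554_gt.Chk
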