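import Pool.Agent.P.MP_2e1554_gt.IsoChkY
import Pool.Agent.P.MP_2e1554_gt.IsoErr
import Pool.Agent.P.MP_2e1554_gt.IsoWA

/-! Operations on all lanes at once. -/

open MeasureTheory Set Finset

namespace Pool.Agent.P.MP_2e1554_gt.Chk

theorem M48_eq : M48 = pk (fun _ => 2 ^ 48 - 1) 56 := eq_pk (by decide +kernel) (by decide +kernel)

theorem Tgt.mono {K : Set (Fin 2 → ℝ)} {sec : Bool} {i τ σ : ℕ} (h : Tgt K sec i τ) (hσ : σ ≤ τ) :
    Tgt K sec i σ := by
  have h1 : (σ : ℝ) ≤ τ := by exact_mod_cast hσ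
  cases sec
  · exact lt_of_le_of_lt h1 h
  · exact fun x hx => lt_of_le_of_lt h1 (h x hx)

theorem raiseQ_ok {s : St} {K : Set (Fin 2 → ℝ)} (hK : Iso K) (hs : StOK s K) {X a : ℕ} (hX : Bd X 56 a)
    (ha : a < 2 ^ 63) (h : ∀ i < 56, Tgt K false i (dg X i)) :
    StOK ⟨lmax H56 s.ql X, s.qh, s.sl, s.ll, s.vl, s.vh⟩ K := by
  have m := lmax_spec hs.bql hX (by norm_num) ha H56_eq
  refine ⟨⟨bd_of m.1.1 fun i hi => ?_, hs.bqh, hs.bsl, hs.bll⟩, fun i hi => ?_, hs.qh, hs.sl, hs.ll,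
    hs.vl, hs.vh⟩
  · rw [m.2]
    exact max_le (hs.bql.2 i) (tgt_le hK hi (h i hi))
  · show ((dg (lmax H56 s.ql X) i : ℕ) : ℝ) < _
    rw [m.2, Nat.cast_max]
    exact max_lt (hs.ql i hi) (h i hi)

theorem raiseS_ok {s : St} {K : Set (Fin 2 → ℝ)} (hK : Iso K) (hs : StOK s K) {X a : ℕ} (hX : Bd X 56 a)
    (ha : a < 2 ^ 63) (h : ∀ i < 56, Tgt K true i (dg X i)) :
    StOK ⟨s.ql, s.qh, lmax H56 s.sl X, s.ll, s.vl, s.vh⟩ K := by
  have m := lmax_spec hs.bsl hX (by norm_num) ha H56_eq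
  refine ⟨⟨hs.bql, hs.bqh, bd_of m.1.1 fun i hi => ?_, hs.bll⟩, hs.ql, hs.qh, fun i hi x hx => ?_,
    hs.ll, hs.vl, hs.vh⟩
  · rw [m.2]
    exact max_le (hs.bsl.2 i) (tgt_le hK hi (h i hi))
  · show ((dg (lmax H56 s.sl X) i : ℕ) : ℝ) < _
    rw [m.2, Nat.cast_max]
    exact max_lt (hs.sl i hi x hx) (h i hi x hx)

theorem strp_spec {X W : ℕ} (hX : Bd X 56 2304) :
    Bd (strp (281474976710656 / W) X) 56 (2 ^ 48 - 1) ∧
      ∀ i < 56, dg (strp (281474976710656 / W) X) i ≤ dg X i * 4294967296 / W - 1 := by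
  have hc : 281474976710656 / W ≤ 281474976710656 := Nat.div_le_self _ _
  have h1 := Bd.smul (c := 281474976710656 / W) hX
    (lt_of_le_of_lt (Nat.mul_le_mul_right _ hc) (by norm_num))
  have h2 : Bd ((281474976710656 / W * X) >>> 16 &&& M48) 56 (2 ^ 48 - 1) :=
    Bd.of_land (by norm_num) M48_eq
  have h3 : Bd O56 56 1 := by
    rw [O56_eq]; exact Bd.pk (by norm_num) fun _ _ => le_rfl
  have h4 := lsub_spec h2 h3 (by norm_num) (by norm_num) H56_eq
  refine ⟨h4.1, fun i hi => ?_⟩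
  have e1 : dg M48 i = 2 ^ 48 - 1 := by rw [M48_eq, dg_pk (fun _ _ => by norm_num), if_pos hi]
  have e2 : dg O56 i = 1 := by rw [O56_eq, dg_pk (fun _ _ => by norm_num), if_pos hi]
  unfold strp
  rw [h4.2, e2, isoerr_shift (s := 16) (t := 48) rfl e1, h1.2]
  refine Nat.sub_le_sub_right ?_ 1
  rcases Nat.eq_zero_or_pos W with h0 | h0
  · simp [h0]
  · rw [Nat.le_div_iff_mul_le h0]
    have k1 := Nat.div_mul_le_self 281474976710656 W
    have k2 := Nat.div_mul_le_self (281474976710656 / W * dg X i) (2 ^ 16)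
    generalize 281474976710656 / W * dg X i / 2 ^ 16 = q at k2 ⊢
    generalize 281474976710656 / W = c at k1 k2
    have k3 := Nat.mul_le_mul_right W k2
    have k4 := Nat.mul_le_mul_right (dg X i) k1
    nlinarith

theorem stripAll_ok {s : St} {w : Wt} {K : Set (Fin 2 → ℝ)} (hK : Iso K) (hs : StOK s K) (hw : WOK w K)
    {z : ℕ} (hz : z < 56) : StOK (stripAll s w z) K := by
  obtain ⟨d1, d2⟩ := dots_spec hz
  have r := rotR_spec (by norm_num) d1 (by norm_num)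
  have l := lsub_spec d1 r.1 (by norm_num) (by norm_num) H56_eq
  have m := Bd.sub d1 l.1 fun i => by rw [l.2]; exact Nat.sub_le _ _
  have s1 := strp_spec (W := 24 * lane w.wh z) d1
  have s2 := strp_spec (W := 24 * lane w.wh z) m.1
  unfold stripAll
  rw [force_eq, force_eq, force_eq]
  have k := raiseQ_ok hK hs s1.1 (by norm_num) fun i hi => (strip_ok hK hw false hz hi).mono (by
    refine (s1.2 i hi).trans (le_of_eq ?_)
    rw [d2 i hi]
    rfl)
  refine raiseS_ok hK k s2.1 (by norm_num) fun i hi => (strip_ok hK hw true hz hi).mono ?_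
  refine (s2.2 i hi).trans (le_of_eq ?_)
  have e : dt2 z ((i + 1) % 56) = dt2 z (i + 1) := by
    rcases Nat.lt_or_ge (i + 1) 56 with h | h
    · rw [Nat.mod_eq_of_lt h]
    · have : i = 55 := by omega
      subst this
      unfold dt2
      rw [show 55 + 1 = 56 from rfl, ex_per.1, ex_per.2.1]
  rw [m.2, l.2, r.2 i hi, d2 i hi, d2 _ (Nat.mod_lt _ (by norm_num)), e, strip, cond_true, force_eq,
    show dt2 z i - (dt2 z i - dt2 z (i + 1)) = min (dt2 z i) (dt2 z (i + 1)) by omega]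

theorem liftAll_ok {s : St} {K : Set (Fin 2 → ℝ)} (hK : Iso K) (hs : StOK s K) : StOK (liftAll s) K := by
  have r := rotL_spec (by norm_num) hs.bsl (by norm_num)
  have m := lmax_spec hs.bsl r.1 (by norm_num) (by norm_num) H56_eq
  unfold liftAll
  rw [force_eq]
  refine raiseQ_ok hK hs m.1 (by norm_num) fun i hi => ?_
  have := lift_ok hs hi
  rwa [lane_eq, lane_eq, ← r.2 i hi, ← m.2] at this

end Pool.Agent.P.MP_2e1554_gt.Chk
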