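import Pool.Agent.P.MP_2e1554_gt.IsoSem

/-! Boxes of parameters. -/

open MeasureTheory Set Finset

namespace Pool.Agent.P.MP_2e1554_gt.Chk

theorem seg_ex {a b x : ℝ} (h1 : a ≤ x) (h2 : x ≤ b) :
    ∃ t ∈ Icc (0 : ℝ) 1, x = (1 - t) * a + t * b := by
  rcases eq_or_lt_of_le (h1.trans h2) with h | h
  · refine ⟨0, ⟨le_rfl, zero_le_one⟩, ?_⟩
    linarith
  · have h3 : 0 < b - a := sub_pos.2 h
    refine ⟨(x - a) / (b - a), ⟨div_nonneg (by linarith) h3.le, ?_⟩, ?_⟩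
    · rw [div_le_one h3]
      linarith
    · field_simp
      ring

theorem cg_spec {t f : ℕ} (h : t * f % 65536 = 0) (hf : f ≤ 65536) :
    (cg2 t f : ℝ) = t * f / 65536 ∧ (cg1 t f : ℝ) + cg2 t f = t := by
  have h1 : cg2 t f * 65536 = t * f := Nat.div_mul_cancel (Nat.dvd_of_mod_eq_zero h)
  have h2 : cg2 t f ≤ t := by
    have h3 : t * f ≤ t * 65536 := Nat.mul_le_mul_left t hf
    omega
  refine ⟨?_, ?_⟩
  · rw [eq_div_iff (by norm_num)]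
    exact_mod_cast h1
  · have h4 : cg1 t f + cg2 t f = t := Nat.sub_add_cancel h2
    exact_mod_cast h4

/-- a point of a star is a bilinear combination of the four corners -/
theorem star_ind {B : Bx} (hB : okB B = true) {g₁ g₂ : ℝ} (hg : 0 < g₁ + g₂) (hS : InStar B g₁ g₂)
    (P : ℝ → ℝ → Prop) (hc : ∀ a b a' b' x : ℝ, x ∈ Icc (0 : ℝ) 1 → P a b → P a' b' →
      P ((1 - x) * a + x * a') ((1 - x) * b + x * b'))
    (h : ∀ t f : ℕ, (t = B.t0 ∨ t = B.t1) → (f = B.f0 ∨ f = B.f1) →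
      (cg1 t f : ℝ) + cg2 t f = t → P (cg1 t f) (cg2 t f)) : P (SG * g₁) (SG * g₂) := by
  unfold okB at hB
  simp only [Bool.and_eq_true, Nat.beq_eq, Nat.ble_eq] at hB
  obtain ⟨⟨⟨⟨⟨e00, e01⟩, e10⟩, e11⟩, l0⟩, l1⟩ := hB
  obtain ⟨s1, s2, s3, s4⟩ := hS
  obtain ⟨x, hx, ex⟩ := seg_ex s1 s2
  obtain ⟨y, hy, ey⟩ := seg_ex (a := B.f0) (b := B.f1) (x := 65536 * g₂ / (g₁ + g₂))
    (by rw [le_div_iff₀ hg]; exact s3) (by rw [div_le_iff₀ hg]; exact s4)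
  obtain ⟨a00, b00⟩ := cg_spec e00 l0
  obtain ⟨a01, b01⟩ := cg_spec e01 l1
  obtain ⟨a10, b10⟩ := cg_spec e10 l0
  obtain ⟨a11, b11⟩ := cg_spec e11 l1
  have p0 := hc _ _ _ _ y hy (h _ _ (Or.inl rfl) (Or.inl rfl) b00)
    (h _ _ (Or.inl rfl) (Or.inr rfl) b01)
  have p1 := hc _ _ _ _ y hy (h _ _ (Or.inr rfl) (Or.inl rfl) b10)
    (h _ _ (Or.inr rfl) (Or.inr rfl) b11)
  have p := hc _ _ _ _ x hx p0 p1
  have ey' : 65536 * g₂ = ((1 - y) * B.f0 + y * B.f1) * (g₁ + g₂) := by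
    rw [← ey]
    field_simp
  have q2 : (1 - x) * ((1 - y) * (cg2 B.t0 B.f0 : ℝ) + y * cg2 B.t0 B.f1) +
      x * ((1 - y) * (cg2 B.t1 B.f0 : ℝ) + y * cg2 B.t1 B.f1) = SG * g₂ := by
    rw [a00, a01, a10, a11]
    linear_combination (-(((1 - y) * B.f0 + y * B.f1) / 65536 : ℝ)) * ex - (SG / 65536 : ℝ) * ey'
  have q1 : (1 - x) * ((1 - y) * (cg1 B.t0 B.f0 : ℝ) + y * cg1 B.t0 B.f1) +
      x * ((1 - y) * (cg1 B.t1 B.f0 : ℝ) + y * cg1 B.t1 B.f1) = SG * g₁ := by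
    linear_combination (1 - x) * (1 - y) * b00 + (1 - x) * y * b01 + x * (1 - y) * b10 +
      x * y * b11 - q2 - ex
  rw [q1, q2] at p
  exact p

theorem all4_iff {B : Bx} {P : ℕ → ℕ → ℕ → Bool} (h : all4 B P = true) {t f : ℕ}
    (ht : t = B.t0 ∨ t = B.t1) (hf : f = B.f0 ∨ f = B.f1) : P t (cg1 t f) (cg2 t f) = true := by
  unfold all4 at h
  simp only [Bool.and_eq_true] at h
  obtain ⟨⟨⟨h1, h2⟩, h3⟩, h4⟩ := h
  rcases ht with rfl | rfl <;> rcases hf with rfl | rfl <;> assumption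

theorem prod_conv {c a b a' b' x : ℝ} (hx : x ∈ Icc (0 : ℝ) 1) (hc : 0 ≤ c) (ha : 0 < a) (ha' : 0 < a')
    (h : c < a * b) (h' : c < a' * b') : c < ((1 - x) * a + x * a') * ((1 - x) * b + x * b') := by
  have hb : 0 < b := (mul_pos_iff_of_pos_left ha).1 (hc.trans_lt h)
  have hb' : 0 < b' := (mul_pos_iff_of_pos_left ha').1 (hc.trans_lt h')
  have h1 : c * c ≤ a * b * (a' * b') := mul_le_mul h.le h'.le hc (hc.trans h.le)
  have h2 : 2 * c ≤ a * b' + a' * b := by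
    refine (pow_le_pow_iff_left₀ (by positivity) (by positivity) two_ne_zero).1 ?_
    nlinarith [sq_nonneg (a * b' - a' * b)]
  obtain ⟨x0, x1⟩ := hx
  have h3 : 0 ≤ x * (1 - x) * (a * b' + a' * b - 2 * c) :=
    mul_nonneg (mul_nonneg x0 (by linarith)) (by linarith)
  have h4 : 0 < (1 - x) ^ 2 * (a * b - c) + x ^ 2 * (a' * b' - c) := by
    rcases eq_or_lt_of_le x0 with h5 | h5
    · rw [← h5]
      linarith
    · have h6 : 0 < x ^ 2 * (a' * b' - c) := mul_pos (by positivity) (by linarith)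
      have h7 : 0 ≤ (1 - x) ^ 2 * (a * b - c) := mul_nonneg (by positivity) (by linarith)
      linarith
  nlinarith

private theorem star_lo {dl a : ℕ} {u v : ℝ} (h : (a : ℝ) ≤ SG * (u + 2)) (hv : 0 ≤ v)
    (d : SG * |v - u| ≤ (dl : ℝ)) : ((a - (OO + dl) : ℕ) : ℝ) ≤ SG * v := by
  have hS := SG_eq
  have hO := OO_eq
  rcases le_total a (OO + dl) with h1 | h1
  · rw [Nat.sub_eq_zero_of_le h1, hS]
    push_cast
    positivity
  · rw [Nat.cast_sub h1, Nat.cast_add, hO]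
    rw [hS] at h d ⊢
    have := neg_abs_le (v - u)
    linarith

private theorem star_hi {dl a : ℕ} {u v : ℝ} (h : SG * (u + 2) ≤ (a : ℝ))
    (d : SG * |v - u| ≤ (dl : ℝ)) : SG * v ≤ ((a + dl - OO : ℕ) : ℝ) := by
  have hS := SG_eq
  have hO := OO_eq
  have h1 : a + dl ≤ (a + dl - OO) + OO := le_tsub_add
  have h2 : (a : ℝ) + dl ≤ ((a + dl - OO : ℕ) : ℝ) + OO := by exact_mod_cast h1
  rw [hS] at h d ⊢
  rw [hO] at h2
  have := le_abs_self (v - u)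
  linarith

theorem rng_of {G : Gx} {B : Bx} {u₁ u₂ g₁ g₂ v₁ v₂ : ℝ} (hU : InU B u₁ u₂) (hS : InStar B g₁ g₂)
    (h1 : 0 ≤ v₁) (h2 : 0 ≤ v₂) (d1 : SG * |v₁ - u₁| ≤ (G.dl : ℝ)) (d2 : SG * |v₂ - u₂| ≤ (G.dl : ℝ)) :
    Rng G B g₁ g₂ v₁ v₂ :=
  ⟨hS, star_lo hU.1 h1 d1, star_hi hU.2.1 d1, star_lo hU.2.2.1 h2 d2, star_hi hU.2.2.2 d2⟩

end Pool.Agent.P.MP_2e1554_gt.Chk
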