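import Pool.Agent.P.MP_2e1554_gt.IsoChkY
import Pool.Agent.P.MP_2e1554_gt.IsoConv
import Pool.Agent.P.MP_2e1554_gt.IsoRow
import Pool.Agent.P.MP_2e1554_gt.IsoStar

/-! Upper bounds for the area. -/

open MeasureTheory Set Finset

namespace Pool.Agent.P.MP_2e1554_gt.Chk

theorem volJ_ok {G : Gx} {B : Bx} (hB : okB B = true) {g₁ g₂ v₁ v₂ J : ℝ} {K : Set (Fin 2 → ℝ)}
    (hF : Fx g₁ g₂ v₁ v₂ J K) (hR : Rng G B g₁ g₂ v₁ v₂) {τ : ℕ} (h : volJ G B τ = true) :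
    10 ^ 4 * volume.real K ≤ (τ : ℝ) := by
  obtain ⟨hS, -, r1, -, r2⟩ := hR
  have hg : 0 < g₁ + g₂ := by linarith [hF.g12, hF.g2pos]
  have h5 : 0 < Real.sqrt 5 := by positivity
  obtain ⟨a, ha⟩ : ∃ a : ℝ, a = (vhi G B.a1 : ℝ) / SG := ⟨_, rfl⟩
  obtain ⟨b, hb⟩ : ∃ b : ℝ, b = (vhi G B.b1 : ℝ) / SG := ⟨_, rfl⟩
  have hP := star_ind hB hg hS (fun x y => 0 < x / SG ∧ 0 < y / SG ∧ 0 < Jq (x / SG) (y / SG) a b ∧
      1 / Real.sqrt (Jq (x / SG) (y / SG) a b) ≤ τ / (100050 * Real.sqrt 5)) (by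
      rintro x y x' y' t ht ⟨p1, p2, p3, p4⟩ ⟨q1, q2, q3, q4⟩
      have e1 : ((1 - t) * x + t * x') / SG = (1 - t) * (x / SG) + t * (x' / SG) := by ring
      have e2 : ((1 - t) * y + t * y') / SG = (1 - t) * (y / SG) + t * (y' / SG) := by ring
      have k1 := Jq_pos_conv ht p1 p2 q1 q2 p3 q3
      have k2 := Jq_two ht p1 p2 q1 q2 p3 q3
      rw [show (1 - t) * a + t * a = a by ring, show (1 - t) * b + t * b = b by ring] at k1 k2
      rw [e1, e2]
      have k3 := mul_le_mul_of_nonneg_left p4 (sub_nonneg.2 ht.2)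
      have k4 := mul_le_mul_of_nonneg_left q4 ht.1
      exact ⟨pos_conv ht p1 q1, pos_conv ht p2 q2, k1, by linarith⟩) (by
      intro t f ht hf _
      have q := all4_iff h ht hf
      rw [Nat.ble_eq] at q
      have q0 : τ * τ * jI (cg1 t f) (cg2 t f) (OO + vhi G B.a1) (OO + vhi G B.b1) ≠ 0 := by omega
      obtain ⟨n1, n2, e⟩ := jI_cast (Nat.pos_of_ne_zero (right_ne_zero_of_mul q0))
      have t0 : (0 : ℝ) < τ := by
        have := Nat.pos_of_ne_zero (left_ne_zero_of_mul (left_ne_zero_of_mul q0))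
        exact_mod_cast this
      have ea : ((OO + vhi G B.a1 : ℕ) : ℝ) / SG - 2 = a := by
        rw [ha, Nat.cast_add, OO_eq, SG_eq]
        ring
      have eb : ((OO + vhi G B.b1 : ℕ) : ℝ) / SG - 2 = b := by
        rw [hb, Nat.cast_add, OO_eq, SG_eq]
        ring
      have q' := (Nat.cast_le (α := ℝ)).2 q
      rw [Nat.cast_mul, Nat.cast_mul, e, ea, eb] at q'
      generalize Jq (cg1 t f / SG) (cg2 t f / SG) a b = W at q' ⊢
      have q1 : 50050012500 ≤ (τ : ℝ) * τ * W := by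
        push_cast at q'
        linarith
      have hW : 0 < W := by
        by_contra hc
        have := mul_nonpos_of_nonneg_of_nonpos (mul_self_nonneg (τ : ℝ)) (not_lt.1 hc)
        linarith
      rw [SG_eq]
      refine ⟨div_pos (Nat.cast_pos.2 (Nat.pos_of_ne_zero n1)) (by norm_num),
        div_pos (Nat.cast_pos.2 (Nat.pos_of_ne_zero n2)) (by norm_num), hW, ?_⟩
      rw [div_le_div_iff₀ (Real.sqrt_pos.2 hW) (mul_pos (by norm_num) h5), one_mul]
      refine abs_le_of_sq_le_sq' ?_ (mul_nonneg t0.le (Real.sqrt_nonneg _)) |>.2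
      rw [mul_pow, mul_pow, Real.sq_sqrt (by norm_num), Real.sq_sqrt hW.le]
      linarith)
  have hS0 : (SG : ℝ) ≠ 0 := by
    rw [SG_eq]
    norm_num
  rw [mul_div_cancel_left₀ _ hS0, mul_div_cancel_left₀ _ hS0] at hP
  obtain ⟨p1, p2, p3, p4⟩ := hP
  have a1 : v₁ ≤ a := by
    rw [ha, le_div_iff₀ (by rw [SG_eq]; norm_num)]
    linarith
  have a2 : v₂ ≤ b := by
    rw [hb, le_div_iff₀ (by rw [SG_eq]; norm_num)]
    linarith
  have a3 := mul_le_mul_of_nonneg_right (pow_le_pow_left₀ hF.v1nn a1 2) p2.le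
  have a4 := mul_le_mul_of_nonneg_right (pow_le_pow_left₀ hF.v2nn a2 2) p1.le
  have a5 : Real.sqrt (Jq g₁ g₂ a b) ≤ J := by
    refine Real.sqrt_le_iff.2 ⟨hF.Jpos.le, ?_⟩
    rw [hF.Jsq]
    unfold Jq
    linarith
  have a6 := (one_div_le_one_div_of_le (Real.sqrt_pos.2 p3) a5).trans p4
  rw [div_le_div_iff₀ hF.Jpos (mul_pos (by norm_num) h5)] at a6
  have a7 := hF.cut
  unfold cZ at a7
  refine le_of_mul_le_mul_right ?_ hF.Jpos
  linarith

end Pool.Agent.P.MP_2e1554_gt.Chk
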