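import Pool.Agent.P.MP_2e1554_gt.IsoFastB

/-! The packed chord test implies the chord test. -/

namespace Pool.Agent.P.MP_2e1554_gt.Chk

private theorem s1_p (k : ℕ) : (2 : ℕ) ^ (256 * k) = (2 ^ 256) ^ k := pow_mul 2 256 k
theorem pk4_eq (a b c d : ℕ) : pk4 a b c d = a + 2 ^ 256 * (b + 2 ^ 512 * (c + 2 ^ 256 * d)) := by
  have e : pk4 a b c d = a + b <<< 256 + c <<< (256 * 3) + d <<< (256 * 4) := rfl
  have e2 : (2 : ℕ) ^ 512 = (2 ^ 256) ^ 2 := s1_p 2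
  rw [e, Nat.shiftLeft_eq, Nat.shiftLeft_eq, Nat.shiftLeft_eq, s1_p, s1_p, e2]
  generalize (2 : ℕ) ^ 256 = B
  ring
theorem pk4_add (a b c d a' b' c' d' : ℕ) :
    pk4 a b c d + pk4 a' b' c' d' = pk4 (a + a') (b + b') (c + c') (d + d') := by
  rw [pk4_eq, pk4_eq, pk4_eq]
  generalize (2 : ℕ) ^ 256 = B
  generalize (2 : ℕ) ^ 512 = C
  ring
theorem pk4_mul (a b c d x : ℕ) : pk4 a b c d * x = pk4 (a * x) (b * x) (c * x) (d * x) := by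
  rw [pk4_eq, pk4_eq]
  generalize (2 : ℕ) ^ 256 = B
  generalize (2 : ℕ) ^ 512 = C
  ring
theorem pk4_sub {a b c d a' b' c' d' : ℕ} (ha : a' ≤ a) (hb : b' ≤ b) (hc : c' ≤ c) (hd : d' ≤ d) :
    pk4 a b c d - pk4 a' b' c' d' = pk4 (a - a') (b - b') (c - c') (d - d') := by
  have e := pk4_add (a - a') (b - b') (c - c') (d - d') a' b' c' d'
  rw [Nat.sub_add_cancel ha, Nat.sub_add_cancel hb, Nat.sub_add_cancel hc, Nat.sub_add_cancel hd] at e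
  rw [← e, Nat.add_sub_cancel]

private theorem s1_lo {a n j : ℕ} (r : ℕ) (ha : a < 2 ^ n) (hj : j < n) :
    (a + 2 ^ n * r).testBit j = a.testBit j := by
  rw [Nat.add_comm, Nat.testBit_two_pow_mul_add r ha, if_pos hj]
private theorem s1_hi {a n : ℕ} (r j : ℕ) (ha : a < 2 ^ n) :
    (a + 2 ^ n * r).testBit (n + j) = r.testBit j := by
  rw [Nat.add_comm a, Nat.testBit_two_pow_mul_add r ha, if_neg (by omega), Nat.add_sub_cancel_left]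
private theorem s1_bits {a b c : ℕ} (d : ℕ) {j : ℕ} (ha : a < 2 ^ 256) (hb : b < 2 ^ 256)
    (hc : c < 2 ^ 256) (hj : j < 256) :
    (pk4 a b c d).testBit j = a.testBit j ∧ (pk4 a b c d).testBit (256 + j) = b.testBit j ∧
    (pk4 a b c d).testBit (256 + (512 + j)) = c.testBit j ∧
    (pk4 a b c d).testBit (256 + (512 + (256 + j))) = d.testBit j := by
  have hb' : b < 2 ^ 512 := lt_of_lt_of_le hb (Nat.pow_le_pow_right (by omega) (by omega))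
  rw [pk4_eq]
  refine ⟨s1_lo _ ha hj, ?_, ?_, ?_⟩
  · rw [s1_hi _ _ ha, s1_lo _ hb' (by omega)]
  · rw [s1_hi _ _ ha, s1_hi _ _ hb', s1_lo _ hc hj]
  · rw [s1_hi _ _ ha, s1_hi _ _ hb', s1_hi _ _ hc]
private theorem s1_and {X H : ℕ} (h : X &&& H = H) {i : ℕ} (hi : H.testBit i = true) :
    X.testBit i = true := by
  have e := congrArg (fun z => Nat.testBit z i) h
  simp only [Nat.testBit_and, hi, Bool.and_true] at e
  exact e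
private theorem s1_and2 {X Y i : ℕ} (h : (X &&& Y).testBit i = true) :
    X.testBit i = true ∧ Y.testBit i = true := by
  rw [Nat.testBit_and, Bool.and_eq_true] at h
  exact h
private theorem s1_O4 (x : ℕ) : x * O4 = pk4 x x x x := by
  have e : O4 = pk4 1 1 1 1 := rfl
  rw [Nat.mul_comm, e, pk4_mul, Nat.one_mul]
private theorem s1_H4 : H4 = pk4 (2 ^ 120) (2 ^ 120) (2 ^ 120) (2 ^ 120) := by
  have e : H4 = 2 ^ 120 * O4 := by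
    rw [H4, nM]
    exact congrArg (fun z => z * O4) (by norm_num)
  rw [e, s1_O4]
private theorem s1_OD :
    OD = 1 + (2 ^ 256) ^ 2 + (2 ^ 256) ^ 6 + (2 ^ 256) ^ 8 := by
  have e : OD = 1 + 1 <<< (256 * 2) + 1 <<< (256 * 6) + 1 <<< (256 * 8) := rfl
  rw [e, Nat.one_shiftLeft, Nat.one_shiftLeft, Nat.one_shiftLeft, s1_p, s1_p, s1_p]
private theorem s1_HD : HD = 2 ^ 255 * OD := by
  have e : HD = OD <<< 255 := rfl
  rw [e, Nat.shiftLeft_eq, Nat.mul_comm]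
private theorem s1_prod (a0 a1 a2 a3 b0 b1 b2 b3 m : ℕ) :
    pk4 a0 a1 a2 a3 * pk4 b0 b1 b2 b3 + m * OD =
      (a0 * b0 + m) + 2 ^ 256 * ((a0 * b1 + a1 * b0) + 2 ^ 256 * ((a1 * b1 + m) + 2 ^ 256 *
      ((a0 * b2 + a2 * b0) + 2 ^ 256 * ((a0 * b3 + a3 * b0 + a1 * b2 + a2 * b1) + 2 ^ 256 *
      ((a1 * b3 + a3 * b1) + 2 ^ 256 * ((a2 * b2 + m) + 2 ^ 256 * ((a2 * b3 + a3 * b2) + 2 ^ 256 *
      (a3 * b3 + m)))))))) := by
  have e2 : (2 : ℕ) ^ 512 = (2 ^ 256) ^ 2 := s1_p 2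
  rw [pk4_eq, pk4_eq, s1_OD, e2]
  generalize (2 : ℕ) ^ 256 = B
  ring
private theorem s1_nine {l0 l1 l2 l3 l4 l5 l6 l7 : ℕ} (l8 : ℕ) (h0 : l0 < 2 ^ 256) (h1 : l1 < 2 ^ 256)
    (h2 : l2 < 2 ^ 256) (h3 : l3 < 2 ^ 256) (h4 : l4 < 2 ^ 256) (h5 : l5 < 2 ^ 256)
    (h6 : l6 < 2 ^ 256) (h7 : l7 < 2 ^ 256) {X : ℕ}
    (hX : X = l0 + 2 ^ 256 * (l1 + 2 ^ 256 * (l2 + 2 ^ 256 * (l3 + 2 ^ 256 * (l4 + 2 ^ 256 *
      (l5 + 2 ^ 256 * (l6 + 2 ^ 256 * (l7 + 2 ^ 256 * l8)))))))) :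
    X.testBit 255 = l0.testBit 255 ∧ X.testBit (256 + (256 + 255)) = l2.testBit 255 ∧
    X.testBit (256 + (256 + (256 + (256 + (256 + (256 + 255)))))) = l6.testBit 255 ∧
    X.testBit (256 + (256 + (256 + (256 + (256 + (256 + (256 + (256 + 255)))))))) =
      l8.testBit 255 := by
  rw [hX]
  refine ⟨s1_lo _ h0 (by omega), ?_, ?_, ?_⟩
  · rw [s1_hi _ _ h0, s1_hi _ _ h1, s1_lo _ h2 (by omega)]
  · rw [s1_hi _ _ h0, s1_hi _ _ h1, s1_hi _ _ h2, s1_hi _ _ h3, s1_hi _ _ h4, s1_hi _ _ h5,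
      s1_lo _ h6 (by omega)]
  · rw [s1_hi _ _ h0, s1_hi _ _ h1, s1_hi _ _ h2, s1_hi _ _ h3, s1_hi _ _ h4, s1_hi _ _ h5,
      s1_hi _ _ h6, s1_hi _ _ h7]
private theorem s1_mul {a b : ℕ} (ha : a < 2 ^ 120) (hb : b < 2 ^ 120) : a * b < 2 ^ 240 := by
  have e : (2 : ℕ) ^ 240 = 2 ^ 120 * 2 ^ 120 := by rw [← pow_add]
  rw [e]
  exact Nat.mul_lt_mul'' ha hb
private theorem s1_test {a0 a1 a2 a3 b0 b1 b2 b3 c : ℕ} (ha0 : a0 < 2 ^ 120) (ha1 : a1 < 2 ^ 120)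
    (ha2 : a2 < 2 ^ 120) (ha3 : a3 < 2 ^ 120) (hb0 : b0 < 2 ^ 120) (hb1 : b1 < 2 ^ 120)
    (hb2 : b2 < 2 ^ 120) (hb3 : b3 < 2 ^ 120) (hc : c < 2 ^ 200)
    (h : (pk4 a0 a1 a2 a3 * pk4 b0 b1 b2 b3 + (HD - (c + 1) * OD)) &&& HD = HD) :
    c < a0 * b0 ∧ c < a1 * b1 ∧ c < a2 * b2 ∧ c < a3 * b3 := by
  have e1 : HD - (c + 1) * OD = (2 ^ 255 - (c + 1)) * OD := by rw [s1_HD, Nat.sub_mul]
  have e2 : HD = pk4 0 0 0 0 * pk4 0 0 0 0 + 2 ^ 255 * OD := by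
    rw [pk4_mul, pk4_eq (0 * _), s1_HD]
    simp only [Nat.zero_mul, Nat.mul_zero, Nat.add_zero, Nat.zero_add]
  have t : (2 : ℕ) ^ 255 < 2 ^ 256 := Nat.pow_lt_pow_right (by omega) (by omega)
  have z : (0 : ℕ) < 2 ^ 256 := Nat.two_pow_pos 256
  have hH := s1_nine (X := HD) (l0 := 2 ^ 255) (l1 := 0) (l2 := 2 ^ 255) (l3 := 0) (l4 := 0) (l5 := 0)
    (l6 := 2 ^ 255) (l7 := 0) (2 ^ 255) t z t z z z t z (by
      rw [e2, s1_prod]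
      simp only [Nat.zero_mul, Nat.add_zero, Nat.zero_add])
  rw [Nat.testBit_two_pow_self] at hH
  rw [e1] at h
  have p00 := s1_mul ha0 hb0
  have p01 := s1_mul ha0 hb1
  have p02 := s1_mul ha0 hb2
  have p03 := s1_mul ha0 hb3
  have p10 := s1_mul ha1 hb0
  have p11 := s1_mul ha1 hb1
  have p12 := s1_mul ha1 hb2
  have p13 := s1_mul ha1 hb3
  have p20 := s1_mul ha2 hb0
  have p21 := s1_mul ha2 hb1
  have p22 := s1_mul ha2 hb2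
  have p23 := s1_mul ha2 hb3
  have p30 := s1_mul ha3 hb0
  have p31 := s1_mul ha3 hb1
  have p32 := s1_mul ha3 hb2
  have hX := s1_nine (a3 * b3 + (2 ^ 255 - (c + 1))) (by omega) (by omega) (by omega) (by omega)
    (by omega) (by omega) (by omega) (by omega) (s1_prod a0 a1 a2 a3 b0 b1 b2 b3 (2 ^ 255 - (c + 1)))
  have q0 := Nat.ge_two_pow_of_testBit (hX.1 ▸ s1_and h hH.1)
  have q1 := Nat.ge_two_pow_of_testBit (hX.2.1 ▸ s1_and h hH.2.1)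
  have q2 := Nat.ge_two_pow_of_testBit (hX.2.2.1 ▸ s1_and h hH.2.2.1)
  have q3 := Nat.ge_two_pow_of_testBit (hX.2.2.2 ▸ s1_and h hH.2.2.2)
  omega

/-- `X &&& Y &&& H4 = H4` gives the bits `120, 376, 888, 1144` of `X` and of `Y` (`Nat.testBit_and`,
`H4.testBit _ = true` by `decide +kernel`); `Nat.testBit_two_pow_mul_add`, `Nat.ge_two_pow_of_testBit`.
The product `pk4 g * pk4 e + HD - (c + 1) * OD` has nine lanes of `256` bits; the lanes `0, 2, 6, 8` are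
`g_i e_i + 2^255 - (c + 1)`, the others are sums of at most four products, all `< 2^256`; bit `255`. -/
theorem sm3_spec {g0 g1 g2 g3 e0 e1 e2 e3 φ c : ℕ} (hg : g0 < 2 ^ 121 ∧ g1 < 2 ^ 121 ∧ g2 < 2 ^ 121 ∧
    g3 < 2 ^ 121) (he : e0 < 2 ^ 121 ∧ e1 < 2 ^ 121 ∧ e2 < 2 ^ 121 ∧ e3 < 2 ^ 121)
    (hφ : φ ≤ e0 ∧ φ ≤ e1 ∧ φ ≤ e2 ∧ φ ≤ e3) (hc : c < 2 ^ 200)
    (h : sm3 (φ * O4) (HD - (c + 1) * OD) (pk4 g0 g1 g2 g3) (pk4 e0 e1 e2 e3) = true) :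
    (c < (g0 - 2 ^ 120) * (e0 - 2 ^ 120) ∧ 2 ^ 120 + φ ≤ e0) ∧
    (c < (g1 - 2 ^ 120) * (e1 - 2 ^ 120) ∧ 2 ^ 120 + φ ≤ e1) ∧
    (c < (g2 - 2 ^ 120) * (e2 - 2 ^ 120) ∧ 2 ^ 120 + φ ≤ e2) ∧
    (c < (g3 - 2 ^ 120) * (e3 - 2 ^ 120) ∧ 2 ^ 120 + φ ≤ e3) := by
  obtain ⟨hg0, hg1, hg2, hg3⟩ := hg
  obtain ⟨he0, he1, he2, he3⟩ := he
  obtain ⟨hp0, hp1, hp2, hp3⟩ := hφ
  rw [sm3, brand, Bool.and_eq_true] at h
  have h1 := Nat.eq_of_beq_eq_true h.1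
  have h2 := Nat.eq_of_beq_eq_true h.2
  rw [nL, nL, nS, s1_O4, pk4_sub hp0 hp1 hp2 hp3] at h1
  rw [nL, nA, nM, nS, nS] at h2
  have t : (2 : ℕ) ^ 120 < 2 ^ 256 := Nat.pow_lt_pow_right (by omega) (by omega)
  have hH := s1_bits (j := 120) (2 ^ 120) t t t (by omega)
  rw [← s1_H4, Nat.testBit_two_pow_self] at hH
  have hG := s1_bits (a := g0) (b := g1) (c := g2) (j := 120) g3 (by omega) (by omega) (by omega)
    (by omega)
  have hE := s1_bits (a := e0 - φ) (b := e1 - φ) (c := e2 - φ) (j := 120) (e3 - φ) (by omega)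
    (by omega) (by omega) (by omega)
  have b0 := s1_and2 (s1_and h1 hH.1)
  have b1 := s1_and2 (s1_and h1 hH.2.1)
  have b2 := s1_and2 (s1_and h1 hH.2.2.1)
  have b3 := s1_and2 (s1_and h1 hH.2.2.2)
  rw [hG.1, hE.1] at b0
  rw [hG.2.1, hE.2.1] at b1
  rw [hG.2.2.1, hE.2.2.1] at b2
  rw [hG.2.2.2, hE.2.2.2] at b3
  have u0 := Nat.ge_two_pow_of_testBit b0.1
  have u1 := Nat.ge_two_pow_of_testBit b1.1
  have u2 := Nat.ge_two_pow_of_testBit b2.1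
  have u3 := Nat.ge_two_pow_of_testBit b3.1
  have v0 := Nat.ge_two_pow_of_testBit b0.2
  have v1 := Nat.ge_two_pow_of_testBit b1.2
  have v2 := Nat.ge_two_pow_of_testBit b2.2
  have v3 := Nat.ge_two_pow_of_testBit b3.2
  have w0 : 2 ^ 120 + φ ≤ e0 := by omega
  have w1 : 2 ^ 120 + φ ≤ e1 := by omega
  have w2 : 2 ^ 120 + φ ≤ e2 := by omega
  have w3 : 2 ^ 120 + φ ≤ e3 := by omega
  rw [s1_H4, pk4_sub u0 u1 u2 u3, pk4_sub (a := e0) (b := e1) (c := e2) (d := e3) (by omega)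
    (by omega) (by omega) (by omega)] at h2
  obtain ⟨r0, r1, r2, r3⟩ := s1_test (by omega) (by omega) (by omega) (by omega) (by omega)
    (by omega) (by omega) (by omega) hc h2
  exact ⟨⟨r0, w0⟩, ⟨r1, w1⟩, ⟨r2, w2⟩, ⟨r3, w3⟩⟩

private theorem s2_lit (c : ℕ) : c * O4 = pk4 c c c c := by
  rw [Nat.mul_comm, show O4 = pk4 1 1 1 1 from rfl, pk4_mul, Nat.one_mul]

private theorem s2_H4 : H4 = pk4 (2 ^ 120) (2 ^ 120) (2 ^ 120) (2 ^ 120) := by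
  rw [← s2_lit]
  have h : (2 : ℕ) ^ 120 = 1329227995784915872903807060280344576 := by norm_num
  rw [h]
  rfl

private theorem s2_mul {a b A B : ℕ} (ha : a ≤ A) (hb : b ≤ B) : a * b ≤ A * B := Nat.mul_le_mul ha hb

/-- the lane of the first argument -/
private def s2_g (X Y U V p q : ℕ) : ℕ := p * 4 * X + q * 4 * Y + (2 ^ 120 - (p * U + q * V))

private theorem s2_g_spec {X Y U V p q : ℕ} (hX : X ≤ 2 ^ 60) (hY : Y ≤ 2 ^ 60) (hU : U < 2 ^ 62)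
    (hV : V < 2 ^ 62) (hp : p ≤ 2 ^ 30) (hq : q ≤ 2 ^ 30) :
    p * U + q * V ≤ 2 ^ 120 ∧ s2_g X Y U V p q < 2 ^ 121 ∧
      s2_g X Y U V p q - 2 ^ 120 = 4 * (p * X + q * Y) - (p * U + q * V) := by
  have a1 := s2_mul hp hX
  have a2 := s2_mul hq hY
  have a3 := s2_mul hp hU.le
  have a4 := s2_mul hq hV.le
  have b1 : p * 4 * X = 4 * (p * X) := by ring
  have b2 : q * 4 * Y = 4 * (q * Y) := by ring
  rw [s2_g, b1, b2]
  generalize p * X = a at *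
  generalize q * Y = b at *
  generalize p * U = c at *
  generalize q * V = d at *
  norm_num at a1 a2 a3 a4 ⊢
  omega

private theorem s2_G {X Y U V p0 p1 p2 p3 q0 q1 q2 q3 : ℕ} (h0 : p0 * U + q0 * V ≤ 2 ^ 120)
    (h1 : p1 * U + q1 * V ≤ 2 ^ 120) (h2 : p2 * U + q2 * V ≤ 2 ^ 120)
    (h3 : p3 * U + q3 * V ≤ 2 ^ 120) :
    4 * pk4 p0 p1 p2 p3 * X + 4 * pk4 q0 q1 q2 q3 * Y +
      (H4 - (pk4 p0 p1 p2 p3 * U + pk4 q0 q1 q2 q3 * V)) =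
    pk4 (s2_g X Y U V p0 q0) (s2_g X Y U V p1 q1) (s2_g X Y U V p2 q2) (s2_g X Y U V p3 q3) := by
  rw [Nat.mul_comm 4, Nat.mul_comm 4, s2_H4]
  simp only [pk4_mul, pk4_add]
  rw [pk4_sub h0 h1 h2 h3, pk4_add]
  rfl

/-- the lane of the second argument -/
private def s2_e (S F1 F2 t p q : ℕ) : ℕ :=
  1329229263435575868584007375930785792 + t * 633318697598976 - (S + p * F1 + q * F2)

private theorem s2_E {S F1 F2 t0 t1 p0 p1 p2 p3 q0 q1 q2 q3 : ℕ}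
    (h0 : S + p0 * F1 + q0 * F2 ≤ 2 ^ 120) (h1 : S + p1 * F1 + q1 * F2 ≤ 2 ^ 120)
    (h2 : S + p2 * F1 + q2 * F2 ≤ 2 ^ 120) (h3 : S + p3 * F1 + q3 * F2 ≤ 2 ^ 120) :
    TE0 + 633318697598976 * pk4 t0 t0 t1 t1 -
      (S * O4 + pk4 p0 p1 p2 p3 * F1 + pk4 q0 q1 q2 q3 * F2) =
    pk4 (s2_e S F1 F2 t0 p0 q0) (s2_e S F1 F2 t0 p1 q1) (s2_e S F1 F2 t1 p2 q2)
      (s2_e S F1 F2 t1 p3 q3) := by
  have hT : TE0 = 1329229263435575868584007375930785792 * O4 := rfl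
  have h : (2 : ℕ) ^ 120 = 1329227995784915872903807060280344576 := by norm_num
  rw [h] at h0 h1 h2 h3
  rw [hT, Nat.mul_comm 633318697598976, s2_lit, s2_lit]
  simp only [pk4_mul, pk4_add]
  rw [pk4_sub (by omega) (by omega) (by omega) (by omega)]
  rfl

private theorem s2_e_spec {l1 l2 h1 h2 xp xm yp ym t p q φ : ℕ} (hl1 : l1 ≤ 2 ^ 30)
    (hl2 : l2 ≤ 2 ^ 30) (hh1 : h1 ≤ 2 ^ 30) (hh2 : h2 ≤ 2 ^ 30) (hx : xp + xm ≤ 2 ^ 35)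
    (hy : yp + ym ≤ 2 ^ 35) (ht : t ≤ 2 ^ 30) (hp : p ≤ 2 ^ 30) (hq : q ≤ 2 ^ 30)
    (hφ : φ ≤ 2 ^ 100) {S : ℕ}
    (hS : S = 50331648 * h1 * xp + 50331648 * h2 * yp + 1267650600228229401496703205376 -
      (50331648 * l1 * xm + 50331648 * l2 * ym)) :
    S + p * ((xp + xm) * (xp + xm)) + q * ((yp + ym) * (yp + ym)) ≤ 2 ^ 120 ∧
      s2_e S ((xp + xm) * (xp + xm)) ((yp + ym) * (yp + ym)) t p q < 2 ^ 121 ∧
      φ ≤ s2_e S ((xp + xm) * (xp + xm)) ((yp + ym) * (yp + ym)) t p q ∧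
      s2_e S ((xp + xm) * (xp + xm)) ((yp + ym) * (yp + ym)) t p q - 2 ^ 120 =
        (59767450798818947235840 + 50331648 * (l1 * xm + l2 * ym) + t * 633318697598976) -
          (50331648 * (h1 * xp + h2 * yp) +
            (p * ((xp + xm) * (xp + xm)) + q * ((yp + ym) * (yp + ym)))) := by
  have a1 := s2_mul hl1 (show xm ≤ 2 ^ 35 by omega)
  have a2 := s2_mul hl2 (show ym ≤ 2 ^ 35 by omega)
  have a3 := s2_mul hh1 (show xp ≤ 2 ^ 35 by omega)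
  have a4 := s2_mul hh2 (show yp ≤ 2 ^ 35 by omega)
  have a5 := s2_mul hp (s2_mul hx hx)
  have a6 := s2_mul hq (s2_mul hy hy)
  rw [Nat.mul_assoc, Nat.mul_assoc, Nat.mul_assoc, Nat.mul_assoc] at hS
  rw [s2_e]
  generalize l1 * xm = a at *
  generalize l2 * ym = b at *
  generalize h1 * xp = c at *
  generalize h2 * yp = d at *
  generalize p * ((xp + xm) * (xp + xm)) = e at *
  generalize q * ((yp + ym) * (yp + ym)) = f at *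
  norm_num at a1 a2 a3 a4 a5 a6 ht hφ ⊢
  omega

private theorem s2_sq {f : ℕ} {g : ℤ} (e : g = (f : ℤ) - (1073741824 : ℕ)) :
    f - 1073741824 = g.toNat ∧ 1073741824 - f = (-g).toNat ∧
      (g.toNat + (-g).toNat) * (g.toNat + (-g).toNat) = sq g := by
  refine ⟨by omega, by omega, ?_⟩
  have : g.natAbs = g.toNat + (-g).toNat := by omega
  rw [sq, this]

private theorem s2_sqle {a b : ℕ} {d : ℤ} (ha : a < 2 ^ 30) (hb : b < 2 ^ 30)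
    (e : d = (a : ℤ) - b) : sq d ≤ 2 ^ 60 := by
  have h : d.natAbs ≤ 2 ^ 30 := by omega
  exact (s2_mul h h).trans (by norm_num)

private theorem s2_chE (k : ℕ) : chE k ≤ 2 ^ 100 := by
  rw [chE]
  cases Nat.beq k 0 <;> cases Nat.beq k 1 <;> cases Nat.beq k 2 <;> simp only [cond] <;> norm_num

private theorem s2_chC (k : ℕ) :
    chC k * 558148152342069314695800199839957808840704 / 100 < 2 ^ 200 := by
  rw [chC]
  cases Nat.beq k 0 <;> cases Nat.beq k 1 <;> cases Nat.beq k 2 <;> simp only [cond] <;> norm_num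

private theorem s2_cg {t f : ℕ} (ht : t ≤ 2 ^ 30) (hf : f ≤ 65536) :
    cg1 t f ≤ 2 ^ 30 ∧ cg2 t f ≤ 2 ^ 30 := by
  refine ⟨(Nat.sub_le _ _).trans ht, ?_⟩
  rw [cg2]
  exact (Nat.div_le_of_le_mul (by rw [Nat.mul_comm 65536]; exact s2_mul le_rfl hf)).trans ht

/-- one pair of end points. All `cg1, cg2, t, vlo, vhi ≤ 2^30`. Write both arguments of `sm3` as `pk4`
(`pk4_add`, `pk4_mul`, `pk4_sub`), apply `sm3_spec`; the lane of the first one is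
`4 p X + 4 q Y + (2^120 - (p U + q V))`, the lane of the second one minus `2^120` is at most `eLow`
(`sdF_eq`, `tn1`, `tn2`; `(f - c) + (c - f)` squared is `sq`). -/
theorem sm1_spec {G : Gx} {B : Bx} (hB : okB B = true) (hY : (mkY G B).ok = true)
    {k U V px py qx qy fx fy : ℕ} {dx dy gx gy : ℤ} (hU : U < 2 ^ 62) (hV : V < 2 ^ 62)
    (h1 : px < 2 ^ 30) (h2 : py < 2 ^ 30) (h3 : qx < 2 ^ 30) (h4 : qy < 2 ^ 30) (h5 : fx < 2 ^ 35)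
    (h6 : fy < 2 ^ 35) (e1 : dx = (px : ℤ) - qx) (e2 : dy = (py : ℤ) - qy)
    (e3 : gx = (fx : ℤ) - (1073741824 : ℕ)) (e4 : gy = (fy : ℤ) - (1073741824 : ℕ))
    (h : sm1 (mkY G B).P (mkY G B).Q (mkY G B).P4 (mkY G B).Q4 (mkY G B).TE (mkY G B).l1 (mkY G B).l2
      (mkY G B).h1 (mkY G B).h2 (FOk k) (HCk k) (H4 - ((mkY G B).P * U + (mkY G B).Q * V))
      px py qx qy fx fy = true) : gt2 G B k dx dy U V gx gy = true := by
  have hok : B.t0 + B.t1 + (B.f0 + B.f1) + (B.a0 + B.a1) + (B.b0 + B.b1) + G.dl ≤ 1073741824 :=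
    Nat.le_of_ble_eq_true hY
  have hf : B.f0 ≤ 65536 ∧ B.f1 ≤ 65536 := by
    simp only [okB, Bool.and_eq_true, Nat.ble_eq] at hB
    exact ⟨hB.1.2, hB.2⟩
  have ht0 : B.t0 ≤ 2 ^ 30 := by omega
  have ht1 : B.t1 ≤ 2 ^ 30 := by omega
  have hl1 : vlo G B.a0 ≤ 2 ^ 30 := by rw [vlo]; omega
  have hl2 : vlo G B.b0 ≤ 2 ^ 30 := by rw [vlo]; omega
  have hh1 : vhi G B.a1 ≤ 2 ^ 30 := by rw [vhi]; omega
  have hh2 : vhi G B.b1 ≤ 2 ^ 30 := by rw [vhi]; omega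
  obtain ⟨p0, q0⟩ := s2_cg ht0 hf.1
  obtain ⟨p1, q1⟩ := s2_cg ht0 hf.2
  obtain ⟨p2, q2⟩ := s2_cg ht1 hf.1
  obtain ⟨p3, q3⟩ := s2_cg ht1 hf.2
  obtain ⟨x1, x2, x3⟩ := s2_sq e3
  obtain ⟨y1, y2, y3⟩ := s2_sq e4
  have hX := s2_sqle h1 h3 e1
  have hZ := s2_sqle h2 h4 e2
  have hx : gx.toNat + (-gx).toNat ≤ 2 ^ 35 := by omega
  have hy : gy.toNat + (-gy).toNat ≤ 2 ^ 35 := by omega
  have G0 := s2_g_spec hX hZ hU hV p0 q0
  have G1 := s2_g_spec hX hZ hU hV p1 q1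
  have G2 := s2_g_spec hX hZ hU hV p2 q2
  have G3 := s2_g_spec hX hZ hU hV p3 q3
  have E0 := s2_e_spec hl1 hl2 hh1 hh2 hx hy ht0 p0 q0 (s2_chE k) rfl
  have E1 := s2_e_spec hl1 hl2 hh1 hh2 hx hy ht0 p1 q1 (s2_chE k) rfl
  have E2 := s2_e_spec hl1 hl2 hh1 hh2 hx hy ht1 p2 q2 (s2_chE k) rfl
  have E3 := s2_e_spec hl1 hl2 hh1 hh2 hx hy ht1 p3 q3 (s2_chE k) rfl
  have hG := s2_G (X := sq dx) (Y := sq dy) G0.1 G1.1 G2.1 G3.1
  have hE := s2_E (t0 := B.t0) (t1 := B.t1) E0.1 E1.1 E2.1 E3.1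
  have hF : FOk k = chE k * O4 := rfl
  have hC : HCk k =
      HD - (chC k * 558148152342069314695800199839957808840704 / 100 + 1) * OD := rfl
  rw [sm1, sm2, sdF_eq e1, sdF_eq e2, hF, hC] at h
  simp only [nA, nS, nM, mkY, mkZ] at h
  rw [x1, x2, y1, y2, hG, hE] at h
  have R := sm3_spec ⟨G0.2.1, G1.2.1, G2.2.1, G3.2.1⟩ ⟨E0.2.1, E1.2.1, E2.2.1, E3.2.1⟩
    ⟨E0.2.2.1, E1.2.2.1, E2.2.2.1, E3.2.2.1⟩ (s2_chC k) h
  rw [G0.2.2, G1.2.2, G2.2.2, G3.2.2] at R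
  obtain ⟨⟨r0, s0⟩, ⟨r1, s1⟩, ⟨r2, s2⟩, ⟨r3, s3⟩⟩ := R
  replace s0 := Nat.le_sub_of_add_le' s0
  replace s1 := Nat.le_sub_of_add_le' s1
  replace s2 := Nat.le_sub_of_add_le' s2
  replace s3 := Nat.le_sub_of_add_le' s3
  rw [E0.2.2.2, x3, y3] at r0 s0
  rw [E1.2.2.2, x3, y3] at r1 s1
  rw [E2.2.2.2, x3, y3] at r2 s2
  rw [E3.2.2.2, x3, y3] at r3 s3
  simp only [gt2, all4, eLow, Bool.and_eq_true, Nat.blt_eq, Nat.ble_eq]
  exact ⟨⟨⟨⟨r0, s0⟩, r1, s1⟩, r2, s2⟩, r3, s3⟩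

private theorem s3_cX (j : ℕ) {a : ℕ} (ha : a ≤ 2097152) :
    cX j a < 2 ^ 30 ∧ (cX j a : ℤ) = Int.ofNat a * ex j + 67108864 := by
  have h : eX j < 256 := Nat.mod_lt _ (by norm_num)
  have h1 : a * eX j ≤ 2097152 * 256 := Nat.mul_le_mul ha h.le
  have e : cX j a = a * eX j + (67108864 - 24 * a) := rfl
  refine ⟨by omega, ?_⟩
  rw [e, ex_eX, Nat.cast_add, Nat.cast_sub (by omega), Int.ofNat_eq_natCast]
  push_cast
  ring

private theorem s3_cY (j : ℕ) {a : ℕ} (ha : a ≤ 2097152) :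
    cY j a < 2 ^ 30 ∧ (cY j a : ℤ) = Int.ofNat a * ey j + 67108864 := by
  have h : eY j < 256 := Nat.mod_lt _ (by norm_num)
  have h1 : a * eY j ≤ 2097152 * 256 := Nat.mul_le_mul ha h.le
  have e : cY j a = a * eY j + (67108864 - 24 * a) := rfl
  refine ⟨by omega, ?_⟩
  rw [e, ey_eY, Nat.cast_add, Nat.cast_sub (by omega), Int.ofNat_eq_natCast]
  push_cast
  ring

private theorem s3_sd {P M : ℕ} (hP : P < 2 ^ 30) (hM : M < 2 ^ 30) : sdF P M ≤ 2 ^ 60 := by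
  have h : P - M + (M - P) ≤ 2 ^ 30 := by omega
  exact (Nat.mul_le_mul h h).trans_eq (by norm_num)

private theorem s3_lt {u p q : ℕ} (hu : u ≤ 16) (hp : p < 2 ^ 30) (hq : q < 2 ^ 30) :
    (16 - u) * p + u * q < 2 ^ 35 := by
  have h1 : (16 - u) * p ≤ 16 * p := Nat.mul_le_mul_right _ (by omega)
  have h2 : u * q ≤ 16 * q := Nat.mul_le_mul_right _ hu
  omega

private theorem s3_one {G : Gx} {B : Bx} (hB : okB B = true) (hY : (mkY G B).ok = true)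
    {k u U V j a m b : ℕ} (hU : U < 2 ^ 62) (hV : V < 2 ^ 62) (hu : u ≤ 16) (ha : a ≤ 2097152)
    (hb : b ≤ 2097152)
    (h : sm1 (mkY G B).P (mkY G B).Q (mkY G B).P4 (mkY G B).Q4 (mkY G B).TE (mkY G B).l1 (mkY G B).l2
      (mkY G B).h1 (mkY G B).h2 (FOk k) (HCk k) (H4 - ((mkY G B).P * U + (mkY G B).Q * V))
      (cX j a) (cY j a) (cX m b) (cY m b) ((16 - u) * cX j a + u * cX m b)
      ((16 - u) * cY j a + u * cY m b) = true) :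
    ft1 G B k (Int.ofNat u) U V j (Int.ofNat a) m (Int.ofNat b) = true := by
  obtain ⟨x1, x2⟩ := s3_cX j ha
  obtain ⟨y1, y2⟩ := s3_cY j ha
  obtain ⟨x3, x4⟩ := s3_cX m hb
  obtain ⟨y3, y4⟩ := s3_cY m hb
  rw [ft1]
  refine sm1_spec hB hY hU hV x1 y1 x3 y3 (s3_lt hu x1 x3) (s3_lt hu y1 y3) ?_ ?_ ?_ ?_ h
  · rw [x2, x4]; ring
  · rw [y2, y4]; ring
  · rw [Nat.cast_add, Nat.cast_mul, Nat.cast_mul, Nat.cast_sub hu, x2, x4, Int.ofNat_eq_natCast u]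
    push_cast
    ring
  · rw [Nat.cast_add, Nat.cast_mul, Nat.cast_mul, Nat.cast_sub hu, y2, y4, Int.ofNat_eq_natCast u]
    push_cast
    ring

/-- `cX j a = a * ex j + 2^26 < 2^30` for `a ≤ 2^21` (`ex_eX`, `eX j < 256`); four times `sm1_spec` -/
theorem fcN_spec {G : Gx} {B : Bx} (hB : okB B = true) {k u j0 a0 j1 a1 m0 b0 m1 b1 : ℕ}
    (h : fcN (mkY G B) k u j0 a0 j1 a1 m0 b0 m1 b1 = true) :
    fchord G B k u ⟨j0, a0, j1, a1⟩ ⟨m0, b0, m1, b1⟩ = true := by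
  have e : ∀ C : Cy, fcN C k u j0 a0 j1 a1 m0 b0 m1 b1 =
      (C.ok && Nat.ble (a0 + a1 + (b0 + b1)) 2097152 && Nat.ble u 16 &&
        smb C.P C.Q C.P4 C.Q4 C.TE C.l1 C.l2 C.h1 C.h2 (FOk k) (HCk k) u (16 - u) (cX j0 a0) (cY j0 a0)
          (cX j1 a1) (cY j1 a1) (cX m0 b0) (cY m0 b0) (cX m1 b1) (cY m1 b1)) := by
    rintro ⟨ok, P, Q, P4, Q4, TE, l1, l2, h1, h2⟩
    rw [← brand, ← brand, ← brand]
    rfl
  rw [e, Bool.and_eq_true, Bool.and_eq_true, Bool.and_eq_true] at h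
  obtain ⟨⟨⟨hY, ha⟩, hu⟩, h⟩ := h
  have ha := Nat.le_of_ble_eq_true ha
  have hu := Nat.le_of_ble_eq_true hu
  have ha0 : a0 ≤ 2097152 := by omega
  have ha1 : a1 ≤ 2097152 := by omega
  have hb0 : b0 ≤ 2097152 := by omega
  have hb1 : b1 ≤ 2097152 := by omega
  rw [smb, sma, brand, sm0, sm0, brand, brand, Bool.and_eq_true, Bool.and_eq_true,
    Bool.and_eq_true] at h
  obtain ⟨⟨h1, h2⟩, h3, h4⟩ := h
  have hU : sdF (cX j1 a1) (cX j0 a0) + sdF (cX m1 b1) (cX m0 b0) < 2 ^ 62 := by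
    have t1 := s3_sd (s3_cX j1 ha1).1 (s3_cX j0 ha0).1
    have t2 := s3_sd (s3_cX m1 hb1).1 (s3_cX m0 hb0).1
    omega
  have hV : sdF (cY j1 a1) (cY j0 a0) + sdF (cY m1 b1) (cY m0 b0) < 2 ^ 62 := by
    have t1 := s3_sd (s3_cY j1 ha1).1 (s3_cY j0 ha0).1
    have t2 := s3_sd (s3_cY m1 hb1).1 (s3_cY m0 hb0).1
    omega
  have g1 := s3_one hB hY hU hV hu ha0 hb0 h1
  have g2 := s3_one hB hY hU hV hu ha0 hb1 h2
  have g3 := s3_one hB hY hU hV hu ha1 hb0 h3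
  have g4 := s3_one hB hY hU hV hu ha1 hb1 h4
  have e1 : sdF (cX j1 a1) (cX j0 a0) = sq (Int.ofNat a1 * ex j1 - Int.ofNat a0 * ex j0) :=
    sdF_eq (by rw [(s3_cX j1 ha1).2, (s3_cX j0 ha0).2]; ring)
  have e2 : sdF (cX m1 b1) (cX m0 b0) = sq (Int.ofNat b1 * ex m1 - Int.ofNat b0 * ex m0) :=
    sdF_eq (by rw [(s3_cX m1 hb1).2, (s3_cX m0 hb0).2]; ring)
  have e3 : sdF (cY j1 a1) (cY j0 a0) = sq (Int.ofNat a1 * ey j1 - Int.ofNat a0 * ey j0) :=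
    sdF_eq (by rw [(s3_cY j1 ha1).2, (s3_cY j0 ha0).2]; ring)
  have e4 : sdF (cY m1 b1) (cY m0 b0) = sq (Int.ofNat b1 * ey m1 - Int.ofNat b0 * ey m0) :=
    sdF_eq (by rw [(s3_cY m1 hb1).2, (s3_cY m0 hb0).2]; ring)
  rw [e1, e2, e3, e4] at g1 g2 g3 g4
  rw [fchord]
  dsimp only
  rw [force_eq, force_eq, g1, g2, g3, g4]
  rfl

private theorem s4_fO {e c : ℕ} (he : e < 256) (hc : c ≤ 33554432) :
    fO e c < 2 ^ 35 ∧ (c : ℤ) * ((e : ℤ) - 24) = (fO e c : ℤ) - (1073741824 : ℕ) := by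
  have h1 : c * e ≤ 33554432 * 256 := Nat.mul_le_mul hc he.le
  have e1 : fO e c = c * e + (1073741824 - 24 * c) := rfl
  refine ⟨by omega, ?_⟩
  rw [e1, Nat.cast_add, Nat.cast_sub (by omega)]
  push_cast
  ring

private theorem s4_one {G : Gx} {B : Bx} (hB : okB B = true) (hY : (mkY G B).ok = true)
    {k U V i j a c : ℕ} (hU : U < 2 ^ 62) (hV : V < 2 ^ 62) (ha : a ≤ 2097152) (hc : c ≤ 33554432)
    (h : sm1 (mkY G B).P (mkY G B).Q (mkY G B).P4 (mkY G B).Q4 (mkY G B).TE (mkY G B).l1 (mkY G B).l2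
      (mkY G B).h1 (mkY G B).h2 (FOk k) (HCk k) (H4 - ((mkY G B).P * U + (mkY G B).Q * V))
      (cX i a) (cY i a) 67108864 67108864 (fO (eX j) c) (fO (eY j) c) = true) :
    gt2 G B k (a * ex i) (a * ey i) U V (c * ex j) (c * ey j) = true := by
  obtain ⟨x1, x2⟩ := s3_cX i ha
  obtain ⟨y1, y2⟩ := s3_cY i ha
  obtain ⟨x3, x4⟩ := s4_fO (e := eX j) (Nat.mod_lt _ (by norm_num)) hc
  obtain ⟨y3, y4⟩ := s4_fO (e := eY j) (Nat.mod_lt _ (by norm_num)) hc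
  refine sm1_spec hB hY hU hV x1 y1 (by norm_num) (by norm_num) x3 y3 ?_ ?_ ?_ ?_ h
  · rw [x2, Int.ofNat_eq_natCast]
    push_cast
    ring
  · rw [y2, Int.ofNat_eq_natCast]
    push_cast
    ring
  · rw [ex_eX, x4]
  · rw [ey_eY, y4]

theorem prN_spec {G : Gx} {B : Bx} (hB : okB B = true) {k i i1 j j1 a b c d : ℕ}
    (h : prN (mkY G B) k i i1 j j1 a b c d = true) : ∃ U V : ℕ,
      U = sq ((16 * a : ℕ) * ex i - (16 * b : ℕ) * ex i1) ∧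
      V = sq ((16 * a : ℕ) * ey i - (16 * b : ℕ) * ey i1) ∧
      gt2 G B k ((16 * a : ℕ) * ex i) ((16 * a : ℕ) * ey i) U V (c * ex j) (c * ey j) = true ∧
      gt2 G B k ((16 * b : ℕ) * ex i1) ((16 * b : ℕ) * ey i1) U V (d * ex j1) (d * ey j1) = true := by
  have e : ∀ C : Cy, prN C k i i1 j j1 a b c d =
      (C.ok && Nat.ble (a + b) 131072 && Nat.ble (c + d) 33554432 &&
        pr1 C.P C.Q C.P4 C.Q4 C.TE C.l1 C.l2 C.h1 C.h2 (FOk k) (HCk k) 67108864 (cX i (16 * a))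
          (cY i (16 * a))
          (cX i1 (16 * b)) (cY i1 (16 * b)) (fO (eX j) c) (fO (eY j) c)
          (fO (eX j1) d) (fO (eY j1) d)) := by
    rintro ⟨ok, P, Q, P4, Q4, TE, l1, l2, h1, h2⟩
    rw [← brand, ← brand, ← brand]
    rfl
  rw [e, Bool.and_eq_true, Bool.and_eq_true, Bool.and_eq_true] at h
  obtain ⟨⟨⟨hY, ha⟩, hu⟩, h⟩ := h
  have ha := Nat.le_of_ble_eq_true ha
  have hu := Nat.le_of_ble_eq_true hu
  have ha0 : 16 * a ≤ 2097152 := by omega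
  have hb0 : 16 * b ≤ 2097152 := by omega
  have ha1 : c ≤ 33554432 := by omega
  have hb1 : d ≤ 33554432 := by omega
  rw [pr1, brand, Bool.and_eq_true] at h
  have t1 := s3_sd (s3_cX i ha0).1 (s3_cX i1 hb0).1
  have t2 := s3_sd (s3_cY i ha0).1 (s3_cY i1 hb0).1
  refine ⟨_, _, sdF_eq ?_, sdF_eq ?_, s4_one hB hY (by omega) (by omega) ha0 ha1 h.1,
    s4_one hB hY (by omega) (by omega) hb0 hb1 h.2⟩
  · rw [(s3_cX i ha0).2, (s3_cX i1 hb0).2, Int.ofNat_eq_natCast, Int.ofNat_eq_natCast]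
    ring
  · rw [(s3_cY i ha0).2, (s3_cY i1 hb0).2, Int.ofNat_eq_natCast, Int.ofNat_eq_natCast]
    ring

end Pool.Agent.P.MP_2e1554_gt.Chk
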