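import Pool.Agent.P.MP_2e1554_gt.IsoArea
import Pool.Agent.P.MP_2e1554_gt.IsoC3L
import Pool.Agent.P.MP_2e1554_gt.IsoRA
import Pool.Agent.P.MP_2e1554_gt.IsoRB
import Pool.Agent.P.MP_2e1554_gt.IsoRD
import Pool.Agent.P.MP_2e1554_gt.IsoRE
import Pool.Agent.P.MP_2e1554_gt.IsoRF
import Pool.Agent.P.MP_2e1554_gt.IsoSimd

/-! Chords between segments, all operations. -/

open MeasureTheory Set Finset

namespace Pool.Agent.P.MP_2e1554_gt.Chk

/-- the property proved at a chord -/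
def rcP (k : ℕ) (A R : ℝ) : Prop :=
  0 < A ∧ (chC k : ℝ) / 100 < A * (15 - R) ∧ (chE k : ℝ) / 5976745079881894723584 ≤ 15 - R

theorem rc_mix {k : ℕ} {A A' R R' A₀ R₀ x : ℝ} (hx : x ∈ Icc (0 : ℝ) 1) (h : rcP k A R)
    (h' : rcP k A' R') (h1 : (1 - x) * A + x * A' ≤ A₀) (hR : R₀ ≤ (1 - x) * R + x * R') :
    rcP k A₀ R₀ := by
  have hc : (0 : ℝ) ≤ (chC k : ℝ) / 100 := by positivity
  obtain ⟨a1, a2, a3⟩ := h
  obtain ⟨b1, b2, b3⟩ := h'
  have hp := prod_conv hx hc a1 b1 a2 b2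
  have hA := opb_lt hx a1 b1
  have h2 : (1 - x) * (15 - R) + x * (15 - R') ≤ 15 - R₀ := by linarith
  have h3 := mul_le_mul_of_nonneg_left a3 (sub_nonneg.2 hx.2)
  have h4 := mul_le_mul_of_nonneg_left b3 hx.1
  exact ⟨hA.trans_le h1, hp.trans_le (mul_le_mul h1 h2
    ((mul_pos_iff_of_pos_left hA).1 (hc.trans_lt hp)).le (hA.le.trans h1)), by linarith⟩

theorem rc_gg {p q sx sy : ℕ} {dx dy : ℤ} (h : 0 < 4 * (p * sq dx + q * sq dy) - (p * sx + q * sy)) :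
    ((4 * (p * sq dx + q * sq dy) - (p * sx + q * sy) : ℕ) : ℝ) =
      4 * SG * 1572864 ^ 2 * (Gq (p / SG) (q / SG) ![dx / 1572864, dy / 1572864] -
        (p / SG * sx + q / SG * sy) / (4 * 1572864 ^ 2)) := by
  have e1 := opb_G p q dx dy 1572864 (by norm_num)
  have e2 : (SG : ℝ) * 1572864 ^ 2 * (4 * ((p / SG * sx + q / SG * sy) /
      (4 * 1572864 ^ 2))) = p * sx + q * sy := by
    rw [SG_eq]
    ring
  rw [Nat.cast_sub (Nat.sub_pos_iff_lt.1 h).le]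
  simp only [Nat.cast_add, Nat.cast_mul, Nat.cast_ofNat, sq_eq]
  linarith

/-- as `ge_spec` -/
theorem gt2_spec {G : Gx} {B : Bx} (hB : okB B = true) {g₁ g₂ v₁ v₂ : ℝ} (hg : 0 < g₁ + g₂)
    (hR : Rng G B g₁ g₂ v₁ v₂) {k : ℕ} {dx dy fx fy : ℤ} {sx sy : ℕ}
    (h : gt2 G B k dx dy sx sy fx fy = true) :
    rcP k (Gq g₁ g₂ ![dx / 1572864, dy / 1572864] - (g₁ * sx + g₂ * sy) / (4 * 1572864 ^ 2))
      (Rq g₁ g₂ v₁ v₂ ![fx / 25165824, fy / 25165824]) := by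
  have key := star_ind hB hg hR.1 (fun a b =>
    rcP k (Gq (a / SG) (b / SG) ![dx / 1572864, dy / 1572864] -
      (a / SG * sx + b / SG * sy) / (4 * 1572864 ^ 2))
      (Rq (a / SG) (b / SG) v₁ v₂ ![fx / 25165824, fy / 25165824]))
    (fun a b a' b' x hx h1 h2 => rc_mix hx h1 h2 ?_ (opb_Rc _ _ _ _ _ _ _ _).le)
    fun t f ht hf hcg => ?_
  · simpa only [opb_div] using key
  · rw [opb_Gc]
    apply le_of_eq
    ring
  · have h1 := all4_iff h ht hf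
    simp only [Bool.and_eq_true, Nat.blt_eq, Nat.ble_eq] at h1
    obtain ⟨h1, h2⟩ := h1
    have h4 := Nat.pos_of_mul_pos_left (Nat.zero_lt_of_lt h1)
    have h5 := Nat.pos_of_mul_pos_right (Nat.zero_lt_of_lt h1)
    have h6 := eLow_le hR fx fy hcg h4
    have h7 := rc_gg h5
    have h9 := (Nat.cast_lt (α := ℝ)).2 ((Nat.div_lt_iff_lt_mul (by norm_num)).1 h1)
    have h10 := (Nat.cast_pos (α := ℝ)).2 h5
    have h12 := (Nat.cast_le (α := ℝ)).2 h2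
    rw [Nat.cast_mul, Nat.cast_mul, Nat.cast_mul, h7, Nat.cast_ofNat, Nat.cast_ofNat] at h9
    rw [h7] at h10
    generalize Gq (cg1 t f / SG) (cg2 t f / SG) ![dx / 1572864, dy / 1572864] -
      ((cg1 t f : ℝ) / SG * sx + cg2 t f / SG * sy) / (4 * 1572864 ^ 2) = A at *
    generalize Rq (cg1 t f / SG) (cg2 t f / SG) v₁ v₂ ![fx / 25165824, fy / 25165824] = R at *
    rw [SG_eq] at h6 h9 h10
    have hA : 0 < A := by linarith
    have h11 := mul_le_mul_of_nonneg_left h6 hA.le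
    exact ⟨hA, by linarith, by linarith⟩

theorem rc_seg {g₁ g₂ : ℝ} (g1 : 0 ≤ g₁) (g2 : 0 ≤ g₂) (v₁ v₂ : ℝ) {fl : ℕ} {S x : ℝ}
    {D D' F F' δ D₀ F₀ : Fin 2 → ℝ} (hδ : δ = D' - D ∨ δ = D - D') (hx : x ∈ Icc (0 : ℝ) 1)
    (h : rcP fl (Gq g₁ g₂ D - (S + Gq g₁ g₂ δ / 4)) (Rq g₁ g₂ v₁ v₂ F))
    (h' : rcP fl (Gq g₁ g₂ D' - (S + Gq g₁ g₂ δ / 4)) (Rq g₁ g₂ v₁ v₂ F'))
    (eD : D₀ = (1 - x) • D + x • D') (eF : F₀ = (1 - x) • F + x • F') :
    rcP fl (Gq g₁ g₂ D₀ - S) (Rq g₁ g₂ v₁ v₂ F₀) := by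
  have hG := Gq_seg g1 g2 D D' δ hδ hx
  have hR := (Rq_seg g1 g2 v₁ v₂ F F' hx).1
  rw [← eD] at hG
  rw [← eF] at hR
  exact rc_mix hx h h' (by linarith) hR

theorem ch_tier {g₁ g₂ v₁ v₂ J : ℝ} {K : Set (Fin 2 → ℝ)} (hF : Fr g₁ g₂ v₁ v₂ J K)
    {y z : Fin 2 → ℝ} (hy : y ∈ K) (hz : z ∈ K) (t : ℝ) (k : ℕ) :
    ¬rcP k (Gq g₁ g₂ (y - z)) (Rq g₁ g₂ v₁ v₂ (y + t • (z - y))) := by
  rintro ⟨-, h1, h2⟩
  rcases k with _ | _ | _ | k
  · have e : chC 0 = 40821 := rfl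
    rw [e] at h1
    exact absurd (hF.ch2 y hy z hz t) (not_le.2 (by exact_mod_cast h1))
  · have e : chC (0 + 1) = 40001 := rfl
    have e' : chE (0 + 1) = 73215127228553210363904 := rfl
    rw [e] at h1
    rw [e'] at h2
    push_cast at h1 h2
    exact absurd (hF.ch1 y hy z hz t (by linarith)) (not_le.2 h1)
  · have e : chC (0 + 1 + 1) = 40221 := rfl
    have e' : chE (0 + 1 + 1) = 71720940958582736683008 := rfl
    rw [e] at h1
    rw [e'] at h2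
    push_cast at h1 h2
    exact absurd (hF.cha y hy z hz t (by linarith)) (not_le.2 h1)
  · have e : chC (k + 1 + 1 + 1) = 40521 := rfl
    have e' : chE (k + 1 + 1 + 1) = 70226754688612263002112 := rfl
    rw [e] at h1
    rw [e'] at h2
    push_cast at h1 h2
    exact absurd (hF.chb y hy z hz t (by linarith)) (not_le.2 h1)

/-- the end of a segment -/
noncomputable def rcE (j a : ℕ) : Fin 2 → ℝ := ((a : ℝ) / 65536) • en j

theorem rc_fc1 {G : Gx} {B : Bx} (hB : okB B = true) {g₁ g₂ v₁ v₂ : ℝ} (hg : 0 < g₁ + g₂)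
    (hR : Rng G B g₁ g₂ v₁ v₂) {fl u sx sy j a m b : ℕ} {S : ℝ}
    (hS : (g₁ * sx + g₂ * sy) / (4 * 1572864 ^ 2) = S)
    (h : ft1 G B fl (Int.ofNat u) sx sy j (Int.ofNat a) m (Int.ofNat b) = true) :
    rcP fl (Gq g₁ g₂ (rcE j a - rcE m b) - S)
      (Rq g₁ g₂ v₁ v₂ (rcE j a + ((u : ℝ) / 16) • (rcE m b - rcE j a))) := by
  have h1 := gt2_spec hB hg hR h
  have e1 : ![((Int.ofNat a * ex j - Int.ofNat b * ex m : ℤ) : ℝ) / 1572864,
      ((Int.ofNat a * ey j - Int.ofNat b * ey m : ℤ) : ℝ) / 1572864] = rcE j a - rcE m b := by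
    funext k
    fin_cases k <;> simp [rcE, en] <;> ring
  have e2 : ![(((16 - Int.ofNat u) * (Int.ofNat a * ex j) + Int.ofNat u * (Int.ofNat b * ex m) : ℤ) :
      ℝ) / 25165824, (((16 - Int.ofNat u) * (Int.ofNat a * ey j) +
        Int.ofNat u * (Int.ofNat b * ey m) : ℤ) : ℝ) / 25165824] =
      rcE j a + ((u : ℝ) / 16) • (rcE m b - rcE j a) := by
    funext k
    fin_cases k <;> simp [rcE, en] <;> ring
  rw [e1, e2, hS] at h1
  exact h1

theorem rc_S (g₁ g₂ : ℝ) (j0 a0 j1 a1 m0 b0 m1 b1 : ℕ) :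
    (g₁ * ((sq (Int.ofNat a1 * ex j1 - Int.ofNat a0 * ex j0) +
      sq (Int.ofNat b1 * ex m1 - Int.ofNat b0 * ex m0) : ℕ) : ℝ) +
      g₂ * ((sq (Int.ofNat a1 * ey j1 - Int.ofNat a0 * ey j0) +
      sq (Int.ofNat b1 * ey m1 - Int.ofNat b0 * ey m0) : ℕ) : ℝ)) / (4 * 1572864 ^ 2) =
      (0 + Gq g₁ g₂ (rcE j1 a1 - rcE j0 a0) / 4) + Gq g₁ g₂ (rcE m1 b1 - rcE m0 b0) / 4 := by
  rw [Nat.cast_add, Nat.cast_add, sq_eq, sq_eq, sq_eq, sq_eq]
  simp [Gq, rcE, en]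
  ring

/-- `D = P - Q`, `F = P + (u/16)(Q - P)` are bilinear in the two parameters;
`G D = ∑ w G D_pe - x(1-x) G(dA) - x'(1-x') G(dZ)`, `R` is convex (`Rq_seg`), `prod_conv`, `ch_le`
(compare `opC_seg`, `opC_chord`) -/
theorem fchord_ok {G : Gx} {B : Bx} (hB : okB B = true) {g₁ g₂ v₁ v₂ J : ℝ} {K : Set (Fin 2 → ℝ)}
    (hF : Fr g₁ g₂ v₁ v₂ J K) (hR : Rng G B g₁ g₂ v₁ v₂) {fl u : ℕ} {A Z : Sg}
    (hA : SgOK A K) (hZ : SgOK Z K) (h : fchord G B fl u A Z = true) : False := by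
  obtain ⟨j0, a0, j1, a1⟩ := A
  obtain ⟨m0, b0, m1, b1⟩ := Z
  obtain ⟨x, hx, hP⟩ := hA
  obtain ⟨y, hy, hQ⟩ := hZ
  change (1 - x) • rcE j0 a0 + x • rcE j1 a1 ∈ K at hP
  change (1 - y) • rcE m0 b0 + y • rcE m1 b1 ∈ K at hQ
  have g2 := hF.g2pos
  have g1 : 0 < g₁ := g2.trans_le hF.g12
  unfold fchord at h
  dsimp only at h
  rw [force_eq, force_eq, Bool.and_eq_true, Bool.and_eq_true, Bool.and_eq_true] at h
  have hS := rc_S g₁ g₂ j0 a0 j1 a1 m0 b0 m1 b1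
  have c00 := rc_fc1 hB (add_pos g1 g2) hR hS h.1.1.1
  have c01 := rc_fc1 hB (add_pos g1 g2) hR hS h.1.1.2
  have c10 := rc_fc1 hB (add_pos g1 g2) hR hS h.1.2
  have c11 := rc_fc1 hB (add_pos g1 g2) hR hS h.2
  generalize rcE j0 a0 = P0 at *
  generalize rcE j1 a1 = P1 at *
  generalize rcE m0 b0 = Q0 at *
  generalize rcE m1 b1 = Q1 at *
  have c0 := rc_seg g1.le g2.le v₁ v₂ (Or.inr (by abel)) hy c00 c01
    (D₀ := P0 - ((1 - y) • Q0 + y • Q1))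
    (F₀ := P0 + ((u : ℝ) / 16) • (((1 - y) • Q0 + y • Q1) - P0)) (by module) (by module)
  have c1 := rc_seg g1.le g2.le v₁ v₂ (Or.inr (by abel)) hy c10 c11
    (D₀ := P1 - ((1 - y) • Q0 + y • Q1))
    (F₀ := P1 + ((u : ℝ) / 16) • (((1 - y) • Q0 + y • Q1) - P1)) (by module) (by module)
  generalize (1 - y) • Q0 + y • Q1 = Q at *
  have c := rc_seg g1.le g2.le v₁ v₂ (Or.inl (by abel)) hx c0 c1
    (D₀ := ((1 - x) • P0 + x • P1) - Q)
    (F₀ := ((1 - x) • P0 + x • P1) + ((u : ℝ) / 16) • (Q - ((1 - x) • P0 + x • P1)))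
    (by module) (by module)
  rw [sub_zero] at c
  exact ch_tier hF hP hQ _ _ c

theorem gd_spec {B : Bx} (hB : okB B = true) {g₁ g₂ : ℝ} (hg : 0 < g₁ + g₂) (hS : InStar B g₁ g₂)
    {sx sy j a m b : ℕ} {S : ℝ} (eS : (g₁ * sx + g₂ * sy) / (4 * 1572864 ^ 2) = S)
    (h : gd B sx sy j (Int.ofNat a) m (Int.ofNat b) = true) :
    40 < Gq g₁ g₂ (rcE j a - rcE m b) - S := by
  have e1 : ![((Int.ofNat a * ex j - Int.ofNat b * ex m : ℤ) : ℝ) / 1572864,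
      ((Int.ofNat a * ey j - Int.ofNat b * ey m : ℤ) : ℝ) / 1572864] = rcE j a - rcE m b := by
    funext k
    fin_cases k <;> simp [rcE, en] <;> ring
  rw [← e1, ← eS]
  unfold gd at h
  generalize Int.ofNat a * ex j - Int.ofNat b * ex m = dx at h ⊢
  generalize Int.ofNat a * ey j - Int.ofNat b * ey m = dy at h ⊢
  have key := star_ind hB hg hS (fun a b => 40 < Gq (a / SG) (b / SG) ![dx / 1572864, dy / 1572864] -
      (a / SG * sx + b / SG * sy) / (4 * 1572864 ^ 2))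
    (fun a b a' b' x hx h1 h2 => (opb_lt hx h1 h2).trans_eq ?_) fun t f ht hf _ => ?_
  · simpa only [opb_div] using key
  · rw [opb_Gc]
    ring
  · have h1 := all4_iff h ht hf
    rw [Nat.blt_eq] at h1
    have h9 := (Nat.cast_lt (α := ℝ)).2 h1
    rw [rc_gg (Nat.zero_lt_of_lt h1), Nat.cast_ofNat] at h9
    generalize Gq (cg1 t f / SG) (cg2 t f / SG) ![dx / 1572864, dy / 1572864] -
      ((cg1 t f : ℝ) / SG * sx + cg2 t f / SG * sy) / (4 * 1572864 ^ 2) = A at *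
    rw [SG_eq] at h9
    linarith

theorem fdia_ok {B : Bx} (hB : okB B = true) {g₁ g₂ v₁ v₂ J : ℝ} {K : Set (Fin 2 → ℝ)}
    (hF : Fr g₁ g₂ v₁ v₂ J K) (hR : InStar B g₁ g₂) {A Z : Sg}
    (hA : SgOK A K) (hZ : SgOK Z K) (h : fdia B A Z = true) : False := by
  obtain ⟨j0, a0, j1, a1⟩ := A
  obtain ⟨m0, b0, m1, b1⟩ := Z
  obtain ⟨x, hx, hP⟩ := hA
  obtain ⟨y, hy, hQ⟩ := hZ
  change (1 - x) • rcE j0 a0 + x • rcE j1 a1 ∈ K at hP
  change (1 - y) • rcE m0 b0 + y • rcE m1 b1 ∈ K at hQ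
  have g2 := hF.g2pos
  have g1 : 0 < g₁ := g2.trans_le hF.g12
  unfold fdia at h
  dsimp only at h
  rw [force_eq, force_eq, Bool.and_eq_true, Bool.and_eq_true, Bool.and_eq_true] at h
  have hS := rc_S g₁ g₂ j0 a0 j1 a1 m0 b0 m1 b1
  have c00 := gd_spec hB (add_pos g1 g2) hR hS h.1.1.1
  have c01 := gd_spec hB (add_pos g1 g2) hR hS h.1.1.2
  have c10 := gd_spec hB (add_pos g1 g2) hR hS h.1.2
  have c11 := gd_spec hB (add_pos g1 g2) hR hS h.2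
  have hd := hF.dia _ hP _ hQ
  generalize rcE j0 a0 = P0 at *
  generalize rcE j1 a1 = P1 at *
  generalize rcE m0 b0 = Q0 at *
  generalize rcE m1 b1 = Q1 at *
  have s0 := Gq_seg g1.le g2.le (P0 - Q0) (P0 - Q1) (Q1 - Q0) (Or.inr (by abel)) hy
  have s1 := Gq_seg g1.le g2.le (P1 - Q0) (P1 - Q1) (Q1 - Q0) (Or.inr (by abel)) hy
  have s2 := Gq_seg g1.le g2.le ((1 - y) • (P0 - Q0) + y • (P0 - Q1))
    ((1 - y) • (P1 - Q0) + y • (P1 - Q1)) (P1 - P0) (Or.inl (by module)) hx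
  rw [show (1 - x) • ((1 - y) • (P0 - Q0) + y • (P0 - Q1)) + x • ((1 - y) • (P1 - Q0) + y • (P1 - Q1)) =
    (1 - x) • P0 + x • P1 - ((1 - y) • Q0 + y • Q1) by module] at s2
  have t0 := opb_lt hy c00 c01
  have t1 := opb_lt hy c10 c11
  have t2 := opb_lt (c := 40) hx (a := Gq g₁ g₂ ((1 - y) • (P0 - Q0) + y • (P0 - Q1)) -
    Gq g₁ g₂ (P1 - P0) / 4) (a' := Gq g₁ g₂ ((1 - y) • (P1 - Q0) + y • (P1 - Q1)) -
    Gq g₁ g₂ (P1 - P0) / 4) (by linarith) (by linarith)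
  linarith

theorem fcS_ok {G : Gx} {B : Bx} (hB : okB B = true) {g₁ g₂ v₁ v₂ J : ℝ} {K : Set (Fin 2 → ℝ)}
    (hF : Fr g₁ g₂ v₁ v₂ J K) (hR : Rng G B g₁ g₂ v₁ v₂) {fl u : ℕ} {A Z : Sg}
    (hA : SgOK A K) (hZ : SgOK Z K) (h : fcS B (mkY G B) fl u A Z = true) : False := by
  rw [fcS, brec] at h
  cases e : Nat.beq u (nat_lit 255)
  · rw [e, cond_false] at h
    cases A
    cases Z
    exact fchord_ok hB hF hR hA hZ (fcN_spec hB h)
  · rw [e, cond_true] at h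
    exact fdia_ok hB hF hR.1 hA hZ h

/-- the point of the segment from `a e_i` to `b e_(i+1)` on the ray through `ep i x` has the harmonic mean
as its radius -/
theorem prS_ok {G : Gx} {B : Bx} (hB : okB B = true) {g₁ g₂ v₁ v₂ J : ℝ} {K : Set (Fin 2 → ℝ)}
    (hF : Fr g₁ g₂ v₁ v₂ J K) (hR : Rng G B g₁ g₂ v₁ v₂) {k sg u i a b : ℕ} (hs : sg < 2)
    (h : prS (mkY G B) k sg u i a b = true) : i < 28 ∧ ∀ x ∈ Icc (0 : ℝ) 1,
      sp K i x + sp K (i + 28) x ≤ (1 - x) * ((a : ℝ) / 4096) + x * ((b : ℝ) / 4096) := by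
  rw [prS, force_eq, force_eq, force_eq, Bool.and_eq_true, Bool.and_eq_true, Nat.blt_eq,
    Nat.blt_eq] at h
  obtain ⟨⟨hi, hab⟩, h⟩ := h
  refine ⟨hi, fun x hx => ?_⟩
  obtain ⟨U, V, eU, eV, h1, h2⟩ := prN_spec hB h
  have g2 := hF.g2pos
  have g1 : 0 < g₁ := g2.trans_le hF.g12
  have c1 := gt2_spec hB (add_pos g1 g2) hR h1
  have c2 := gt2_spec hB (add_pos g1 g2) hR h2
  obtain ⟨t, t1, t2, t3, t4⟩ : ∃ t : ℝ, (u : ℝ) * ex (i + 28 * sg) = 256 * t * ex i ∧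
      (u : ℝ) * ey (i + 28 * sg) = 256 * t * ey i ∧
      (u : ℝ) * ex (i + 28 * sg + 1) = 256 * t * ex (i + 1) ∧
      (u : ℝ) * ey (i + 28 * sg + 1) = 256 * t * ey (i + 1) := by
    interval_cases sg
    · refine ⟨u / 256, ?_, ?_, ?_, ?_⟩ <;> simp only [Nat.mul_zero, Nat.add_zero] <;> ring
    · refine ⟨-(u / 256), ?_, ?_, ?_, ?_⟩
      · rw [Nat.mul_one, (ex_anti i (by omega)).1]; push_cast; ring
      · rw [Nat.mul_one, (ex_anti i (by omega)).2]; push_cast; ring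
      · rw [Nat.mul_one, Nat.add_right_comm, (ex_anti (i + 1) (by omega)).1]; push_cast; ring
      · rw [Nat.mul_one, Nat.add_right_comm, (ex_anti (i + 1) (by omega)).2]; push_cast; ring
  have eD : ∀ c j : ℕ, ![(((16 * c : ℕ) * ex j : ℤ) : ℝ) / 1572864,
      (((16 * c : ℕ) * ey j : ℤ) : ℝ) / 1572864] = ((c : ℝ) / 4096) • en j := fun c j => by
    funext l
    fin_cases l <;> simp [en] <;> ring
  have eF : ∀ c j j' : ℕ, (u : ℝ) * ex j' = 256 * t * ex j → (u : ℝ) * ey j' = 256 * t * ey j →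
      ![(((u * c : ℕ) * ex j' : ℤ) : ℝ) / 25165824, (((u * c : ℕ) * ey j' : ℤ) : ℝ) / 25165824] =
        t • ((c : ℝ) / 4096) • en j := fun c j j' r1 r2 => by
    funext l
    fin_cases l
    · simp [en]
      linear_combination (c : ℝ) / 25165824 * r1
    · simp [en]
      linear_combination (c : ℝ) / 25165824 * r2
  have eS : (g₁ * U + g₂ * V) / (4 * 1572864 ^ 2) =
      0 + Gq g₁ g₂ (((a : ℝ) / 4096) • en i - ((b : ℝ) / 4096) • en (i + 1)) / 4 := by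
    rw [eU, eV, sq_eq, sq_eq]
    simp [Gq, en]
    ring
  rw [eD, eF _ _ _ t1 t2, eS] at c1
  rw [eD, eF _ _ _ t3 t4, eS] at c2
  have a0 : (0 : ℝ) < (a : ℝ) / 4096 := by
    have : (0 : ℝ) < a := Nat.cast_pos.2 (Nat.pos_of_mul_pos_right hab)
    positivity
  have b0 : (0 : ℝ) < (b : ℝ) / 4096 := by
    have : (0 : ℝ) < b := Nat.cast_pos.2 (Nat.pos_of_mul_pos_left hab)
    positivity
  generalize (a : ℝ) / 4096 = α at c1 c2 a0 ⊢
  generalize (b : ℝ) / 4096 = β at c1 c2 b0 ⊢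
  have x0 := hx.1
  have x1 := sub_nonneg.2 hx.2
  have n0 : 0 < (1 - x) * β + x * α := opb_lt hx b0 a0
  have hy : x * α / ((1 - x) * β + x * α) ∈ Icc (0 : ℝ) 1 :=
    ⟨by positivity, (div_le_one n0).2 (by have := mul_nonneg x1 b0.le; linarith)⟩
  have eP : (α * β / ((1 - x) * β + x * α)) • ep i x = (1 - x * α / ((1 - x) * β + x * α)) • α • en i +
      (x * α / ((1 - x) * β + x * α)) • β • en (i + 1) := by
    funext l
    simp only [ep, Pi.add_apply, Pi.smul_apply, smul_eq_mul]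
    obtain ⟨n, en'⟩ : ∃ n, n = (1 - x) * β + x * α := ⟨_, rfl⟩
    rw [← en'] at n0 ⊢
    field_simp
    rw [en']
    ring
  have c := rc_seg g1.le g2.le v₁ v₂ (Or.inr rfl) hy c1 c2 eP
    (F₀ := t • (α * β / ((1 - x) * β + x * α)) • ep i x) (by rw [eP]; module)
  have r0 : 0 < α * β / ((1 - x) * β + x * α) := by positivity
  have r1 : α * β / ((1 - x) * β + x * α) ≤ (1 - x) * α + x * β := by
    rw [div_le_iff₀ n0]
    have := mul_nonneg (mul_nonneg x0 x1) (sq_nonneg (α - β))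
    linarith
  generalize α * β / ((1 - x) * β + x * α) = ρ at c r0 r1
  by_contra hn
  have hn := r1.trans (not_le.1 hn).le
  have p1 := hF.iso.gauge_pos (ep_ne (i := i) (by omega) x)
  have p2 := hF.iso.gauge_pos (ep_ne (i := i + 28) (by omega) x)
  have s1 : 0 < sp K i x := inv_pos.2 p1
  have s2 : 0 < sp K (i + 28) x := inv_pos.2 p2
  have m1 : sp K i x • ep i x ∈ K :=
    (hF.iso.gauge_mem s1.le).2 (inv_mul_cancel₀ p1.ne').le
  have m2 : sp K (i + 28) x • ep (i + 28) x ∈ K :=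
    (hF.iso.gauge_mem s2.le).2 (inv_mul_cancel₀ p2.ne').le
  rw [ep_anti hi] at m2
  generalize sp K i x = r at hn s1 m1
  generalize sp K (i + 28) x = r' at hn s2 m2
  generalize ep i x = e at c m1 m2
  have hr : r + r' ≠ 0 := (add_pos s1 s2).ne'
  refine ch_tier hF m1 m2 ((r - t * ρ) / (r + r')) k
    (rc_mix (x := 0) ⟨le_rfl, zero_le_one⟩ c c ?_ (le_of_eq ?_))
  · have e1 : Gq g₁ g₂ (ρ • e) = ρ ^ 2 * (g₁ * e 0 ^ 2 + g₂ * e 1 ^ 2) := by
      simp only [Gq, Pi.smul_apply, smul_eq_mul]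
      ring
    have e2 : Gq g₁ g₂ (r • e - r' • -e) = (r + r') ^ 2 * (g₁ * e 0 ^ 2 + g₂ * e 1 ^ 2) := by
      simp only [Gq, Pi.smul_apply, Pi.sub_apply, Pi.neg_apply, smul_eq_mul]
      ring
    have := mul_le_mul_of_nonneg_right (pow_le_pow_left₀ r0.le hn 2)
      (show 0 ≤ g₁ * e 0 ^ 2 + g₂ * e 1 ^ 2 by positivity)
    rw [e1, e2]
    linarith
  · rw [show r • e + ((r - t * ρ) / (r + r')) • (r' • -e - r • e) = t • ρ • e by
      funext l
      simp only [Pi.add_apply, Pi.smul_apply, Pi.sub_apply, Pi.neg_apply, smul_eq_mul]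
      field_simp
      ring]
    ring

theorem lowL_ok {s : St} {K : Set (Fin 2 → ℝ)} (hs : StOK s K) {i L : ℕ} (hi : i < 84) (h : LOK K i L) :
    StOK ⟨s.ql, s.qh, s.sl, lower s.ll i L, s.vl, s.vh⟩ K := by
  unfold lower
  cases h1 : Nat.blt L (lane s.ll i)
  · exact hs
  · rw [Nat.blt_eq, lane_eq] at h1
    exact setL_ok hs hi h1.le h

theorem rc_lv {a b : ℕ} {u v : ℝ}
    (h : u ≤ (2 * ((a : ℝ) / 4096) + (b : ℝ) / 4096) / 6 ∧ v ≤ ((a : ℝ) / 4096 + 2 * ((b : ℝ) / 4096)) / 6) :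
    65536 * u ≤ (((16 * (2 * a + b) + 5) / 6 : ℕ) : ℝ) ∧ 65536 * v ≤ (((16 * (a + 2 * b) + 5) / 6 : ℕ) : ℝ) := by
  have h1 : 16 * (2 * a + b) ≤ 6 * ((16 * (2 * a + b) + 5) / 6) := by omega
  have h2 : 16 * (a + 2 * b) ≤ 6 * ((16 * (a + 2 * b) + 5) / 6) := by omega
  generalize (16 * (2 * a + b) + 5) / 6 = L at h1
  generalize (16 * (a + 2 * b) + 5) / 6 = M at h2
  have h3 : 16 * (2 * (a : ℝ) + b) ≤ 6 * L := by exact_mod_cast h1
  have h4 : 16 * ((a : ℝ) + 2 * b) ≤ 6 * M := by exact_mod_cast h2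
  constructor <;> linarith [h.1, h.2]

theorem setP_ok {s : St} {K : Set (Fin 2 → ℝ)} (hK : Iso K) (hs : StOK s K) {i a b : ℕ} (hi : i < 28)
    (h : ∀ x ∈ Icc (0 : ℝ) 1,
      sp K i x + sp K (i + 28) x ≤ (1 - x) * ((a : ℝ) / 4096) + x * ((b : ℝ) / 4096)) :
    StOK ⟨s.ql, s.qh, s.sl, setP s.ll i a b, s.vl, s.vh⟩ K := by
  have h0 := rc_lv (soft_anti hK (by omega) (by omega) h)
  refine lowL_ok (lowL_ok (lowL_ok hs (i := i) (by omega) ?_) (i := 28 + i) (by omega) ?_)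
    (i := 56 + i) (by omega) ?_
  · rw [LOK, if_pos hi]
    intro x hx
    have h1 : 3 * a ≤ 1024 * (30 + ((3 * max a b + 1023) / 1024 - 30)) := by omega
    have h2 : 3 * b ≤ 1024 * (30 + ((3 * max a b + 1023) / 1024 - 30)) := by omega
    generalize (3 * max a b + 1023) / 1024 - 30 = L at h1 h2
    have h3 : 3 * (a : ℝ) ≤ 1024 * (30 + L) := by exact_mod_cast h1
    have h4 : 3 * (b : ℝ) ≤ 1024 * (30 + L) := by exact_mod_cast h2
    exact (h x hx).trans (opb_le hx (by linarith) (by linarith))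
  · rw [LOK, if_neg (by omega), lv, if_pos (by omega), show 28 + i - 28 = i by omega, Nat.add_comm 28 i]
    exact h0.1
  · rw [LOK, if_neg (by omega), lv, if_neg (by omega), show 56 + i - 56 = i by omega,
      show 56 + i - 28 = i + 28 by omega]
    exact h0.2

def mI (n : ℕ) : ℕ := (42 + n) % 56
def mJ (n : ℕ) : ℕ := bif Nat.blt n 14 then 42 else 14
theorem mir_tab : ∀ n < 28, ex (mI n) = (eX (mI n) - 24 : ℕ) ∧ ex (mI n + 1) = (eX (mI n + 1) - 24 : ℕ) ∧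
    24 * ey (mI n) = adf (eY (mI n)) 24 * ey (mJ n) ∧
      24 * ey (mI n + 1) = adf (eY (mI n + 1)) 24 * ey (mJ n) ∧ ex (mJ n) = 0 := by decide +kernel
theorem mir_tb2 : ∀ n < 28, ex (41 - n + 1) = -ex (mI n) ∧ ey (41 - n + 1) = ey (mI n) ∧
    ex (41 - n) = -ex (mI n + 1) ∧ ey (41 - n) = ey (mI n + 1) := by decide +kernel

/-- a chord between two mirror rays, shrunk to the width `δ`, meets the vertical axis at the height
`2 a b η / (δ ξ)` -/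
theorem mir_core {g₁ g₂ v₁ v₂ J : ℝ} {K : Set (Fin 2 → ℝ)} (hF : Fr g₁ g₂ v₁ v₂ J K) {k : ℕ}
    {ξ η σ δ ω E c d r r' : ℝ} (hξ : 0 < ξ) (hη : 0 ≤ η) (hδ : 0 < δ) (hr : 0 < r) (hr' : 0 < r')
    (m1 : r * gauge K ![ξ, η * σ] ≤ 1) (m2 : r' * gauge K ![-ξ, η * σ] ≤ 1)
    (w1 : r * ξ ≤ ω) (w2 : r' * ξ ≤ ω) (hE : E ≤ max 0 (ω * (δ - ω))) (hc : c * δ * ξ ≤ 2 * E * η)
    (hd : δ * η ≤ 2 * d * ξ)
    (c1 : rcP k (g₁ * δ ^ 2) (Rq g₁ g₂ v₁ v₂ ![0, c * σ]))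
    (c2 : rcP k (g₁ * δ ^ 2) (Rq g₁ g₂ v₁ v₂ ![0, d * σ])) : ξ * (r + r') ≤ δ := by
  by_contra hn
  have hn := (not_le.1 hn).le
  have g2 := hF.g2pos
  have g1 : 0 < g₁ := g2.trans_le hF.g12
  have hs := add_pos hr hr'
  obtain ⟨l, hl, l0, l1⟩ : ∃ l : ℝ, l * (ξ * (r + r')) = δ ∧ 0 < l ∧ l ≤ 1 :=
    ⟨δ / (ξ * (r + r')), by field_simp, by positivity, (div_le_one (by positivity)).2 hn⟩
  have q1 : l * r ≤ r := mul_le_of_le_one_left hr.le l1
  have q2 : l * r' ≤ r' := mul_le_of_le_one_left hr'.le l1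
  have p1 : (l * r) • ![ξ, η * σ] ∈ K := (hF.iso.gauge_mem (by positivity)).2
    ((mul_le_mul_of_nonneg_right q1 (gauge_nonneg _)).trans m1)
  have p2 : (l * r') • ![-ξ, η * σ] ∈ K := (hF.iso.gauge_mem (by positivity)).2
    ((mul_le_mul_of_nonneg_right q2 (gauge_nonneg _)).trans m2)
  have a0 : 0 < l * r := by positivity
  have b0 : 0 < l * r' := by positivity
  have a1 := (mul_le_mul_of_nonneg_right q1 hξ.le).trans w1
  have b1 := (mul_le_mul_of_nonneg_right q2 hξ.le).trans w2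
  have e0 : (l * r + l * r') * ξ = δ := by linarith
  generalize l * r = a at *
  generalize l * r' = b at *
  have hab := add_pos a0 b0
  have k1 : E ≤ a * ξ * (b * ξ) := hE.trans (max_le (by positivity) (by
    have := mul_nonneg (sub_nonneg.2 a1) (sub_nonneg.2 b1)
    rw [← e0]
    linarith))
  have k2 : c ≤ 2 * a * b * η / (a + b) := by
    rw [le_div_iff₀ hab]
    have h1 := mul_le_mul_of_nonneg_right k1 hη
    rw [← e0] at hc
    refine le_of_mul_le_mul_right (a := ξ * ξ) ?_ (by positivity)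
    linarith
  have k3 : 2 * a * b * η / (a + b) ≤ d := by
    rw [div_le_iff₀ hab]
    rw [← e0] at hd
    have h1 : (a + b) * η ≤ 2 * d := le_of_mul_le_mul_right (a := ξ) (by linarith) hξ
    have h2 := mul_le_mul_of_nonneg_right h1 hab.le
    have h3 := mul_nonneg hη (sq_nonneg (a - b))
    linarith
  obtain ⟨p, x, p0, x0, px, e⟩ := (Convex.mem_Icc (k2.trans k3)).1 ⟨k2, k3⟩
  have hx : x ∈ Icc (0 : ℝ) 1 := ⟨x0, by linarith⟩
  refine ch_tier hF p1 p2 (a / (a + b)) k (rc_mix hx c1 c2 ?_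
    ((le_of_eq ?_).trans (Rq_seg g1.le g2.le v₁ v₂ _ _ hx).1))
  · have e1 : Gq g₁ g₂ (a • ![ξ, η * σ] - b • ![-ξ, η * σ]) =
        g₁ * ((a + b) * ξ) ^ 2 + g₂ * ((a - b) * (η * σ)) ^ 2 := by
      simp [Gq]
      ring
    have : 0 ≤ g₂ * ((a - b) * (η * σ)) ^ 2 := by positivity
    rw [e1, e0]
    linarith
  · congr 1
    funext l
    fin_cases l
    · simp
      field_simp
      ring
    · have e2 : (1 - x) * c + x * d = 2 * a * b * η / (a + b) := by rw [← e, ← px]; ring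
      have e3 : a * (η * σ) + a / (a + b) * (b * (η * σ) - a * (η * σ)) = 2 * a * b * η / (a + b) * σ := by
        field_simp
        ring
      simp
      rw [e3, ← e2]
      ring

theorem mir_hm {X Y a b D x r : ℝ} (hx : x ∈ Icc (0 : ℝ) 1) (hX : 0 < X) (hY : 0 < Y) (hD : 0 ≤ D)
    (ha : D ≤ a * X) (hb : D ≤ b * Y) (h : ((1 - x) * X + x * Y) * r ≤ D) : r ≤ (1 - x) * a + x * b := by
  have x0 := hx.1
  have x1 := sub_nonneg.2 hx.2
  have h1 : 2 * D ≤ a * Y + b * X := by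
    refine le_of_mul_le_mul_right (a := X * Y) ?_ (by positivity)
    have h2 := mul_le_mul_of_nonneg_right ha (sq_nonneg Y)
    have h3 := mul_le_mul_of_nonneg_right hb (sq_nonneg X)
    have h4 := mul_nonneg hD (sq_nonneg (X - Y))
    linarith
  refine le_of_mul_le_mul_left (h.trans ?_) (opb_lt hx hX hY)
  have h2 := mul_le_mul_of_nonneg_left ha (mul_nonneg x1 x1)
  have h3 := mul_le_mul_of_nonneg_left hb (mul_nonneg x0 x0)
  have h4 := mul_le_mul_of_nonneg_left h1 (mul_nonneg x0 x1)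
  linarith

theorem rc_dv {a b : ℕ} (hb : 0 < b) : (a : ℝ) ≤ ((a / b + 1 : ℕ) : ℝ) * b ∧ ((a / b : ℕ) : ℝ) * b ≤ a :=
  ⟨by exact_mod_cast ((Nat.lt_mul_div_succ a hb).trans_eq (Nat.mul_comm _ _)).le, by exact_mod_cast Nat.div_mul_le_self a b⟩

theorem prM_ok {G : Gx} {B : Bx} (hB : okB B = true) {g₁ g₂ v₁ v₂ J : ℝ} {K : Set (Fin 2 → ℝ)}
    (hF : Fr g₁ g₂ v₁ v₂ J K) (hR : Rng G B g₁ g₂ v₁ v₂) {s : St} (hs : StOK s K) {k n D : ℕ}
    (h : prM (mkY G B) s.sl k n D = true) : n < 28 ∧ ∀ x ∈ Icc (0 : ℝ) 1,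
      sp K ((42 + n) % 56) x + sp K (41 - n) (1 - x) ≤
        (1 - x) * (((24 * D / (eX ((42 + n) % 56) - 24) + 1 : ℕ) : ℝ) / 4096) +
          x * (((24 * D / (eX ((42 + n) % 56 + 1) - 24) + 1 : ℕ) : ℝ) / 4096) := by
  rw [prM, force_eq, force_eq, force_eq, force_eq, force_eq, force_eq, force_eq, Bool.and_eq_true,
    Nat.blt_eq, pm2, force_eq, Bool.and_eq_true, Nat.blt_eq, pm3, force_eq, force_eq, lane_eq,
    lane_eq] at h
  obtain ⟨hn, h0, h⟩ := h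
  refine ⟨hn, fun x hx => ?_⟩
  have hi : (42 + n) % 56 < 56 := Nat.mod_lt _ (by norm_num)
  obtain ⟨t1, t2, t3, t4, t5⟩ := mir_tab n hn
  obtain ⟨t6, t7, t8, t9⟩ := mir_tb2 n hn
  unfold mI mJ at *
  have s1 := hs.sl _ hi x hx
  have s2 := hs.sl (41 - n) (by omega) (1 - x) ⟨sub_nonneg.2 hx.2, by linarith [hx.1]⟩
  have p1 := hF.iso.gauge_pos (ep_ne hi x)
  have p2 := hF.iso.gauge_pos (ep_ne (i := 41 - n) (by omega) (1 - x))
  unfold sp
  generalize (42 + n) % 56 = i at *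
  generalize (bif Nat.blt n 14 then 42 else 14) = j at *
  generalize eX i - 24 = X0 at *
  generalize eX (i + 1) - 24 = X1 at *
  generalize adf (eY i) 24 = Y0 at *
  generalize adf (eY (i + 1)) 24 = Y1 at *
  have hq : 0 < min (dg s.sl i) (dg s.sl (41 - n)) := Nat.pos_of_mul_pos_left h0
  have hD : 0 < D := Nat.pos_of_mul_pos_left (Nat.pos_of_mul_pos_right h0)
  have hX := Nat.pos_of_mul_pos_right (Nat.pos_of_mul_pos_right h0)
  have hX0 := Nat.pos_of_mul_pos_right hX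
  have hX1 := Nat.pos_of_mul_pos_left hX
  have q1 : ((min (dg s.sl i) (dg s.sl (41 - n)) : ℕ) : ℝ) ≤ dg s.sl i := Nat.cast_le.2 (min_le_left _ _)
  have q2 : ((min (dg s.sl i) (dg s.sl (41 - n)) : ℕ) : ℝ) ≤ dg s.sl (41 - n) :=
    Nat.cast_le.2 (min_le_right _ _)
  generalize min (dg s.sl i) (dg s.sl (41 - n)) = q at *
  have w0 := (rc_dv (a := max X0 X1 * 536870912) (b := 3 * q) (by omega)).1
  generalize max X0 X1 * 536870912 / (3 * q) + 1 = w at *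
  have hE : ((512 * w * (D - w) : ℕ) : ℝ) / 8589934592 ≤ max 0 ((w : ℝ) / 4096 * (D / 4096 - w / 4096)) := by
    rcases le_total D w with h1 | h1
    · rw [Nat.sub_eq_zero_of_le h1]
      simp
    · refine le_max_of_le_right (le_of_eq ?_)
      rw [Nat.cast_mul, Nat.cast_mul, Nat.cast_sub h1]
      push_cast
      ring
  generalize 512 * w * (D - w) = e at *
  have c0 := (rc_dv (a := e * Y0) (Nat.mul_pos hD hX0)).2
  have c1 := (rc_dv (a := e * Y1) (Nat.mul_pos hD hX1)).2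
  have c2 : ((min (e * Y0 / (D * X0)) (e * Y1 / (D * X1)) : ℕ) : ℝ) ≤ (e * Y0 / (D * X0) : ℕ) :=
    Nat.cast_le.2 (min_le_left _ _)
  have c3 : ((min (e * Y0 / (D * X0)) (e * Y1 / (D * X1)) : ℕ) : ℝ) ≤ (e * Y1 / (D * X1) : ℕ) :=
    Nat.cast_le.2 (min_le_right _ _)
  have d0 := (rc_dv (a := 128 * D * Y0) hX0).1
  have d1 := (rc_dv (a := 128 * D * Y1) hX1).1
  have d2 : ((128 * D * Y0 / X0 + 1 : ℕ) : ℝ) ≤ (max (128 * D * Y0 / X0) (128 * D * Y1 / X1) + 1 : ℕ) :=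
    Nat.cast_le.2 (Nat.succ_le_succ (le_max_left _ _))
  have d3 : ((128 * D * Y1 / X1 + 1 : ℕ) : ℝ) ≤ (max (128 * D * Y0 / X0) (128 * D * Y1 / X1) + 1 : ℕ) :=
    Nat.cast_le.2 (Nat.succ_le_succ (le_max_right _ _))
  have a0 := (rc_dv (a := 24 * D) hX0).1
  have a1 := (rc_dv (a := 24 * D) hX1).1
  generalize min (e * Y0 / (D * X0)) (e * Y1 / (D * X1)) = c at *
  generalize max (128 * D * Y0 / X0) (128 * D * Y1 / X1) + 1 = d at *
  generalize ((e * Y0 / (D * X0) : ℕ) : ℝ) = c' at *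
  generalize ((e * Y1 / (D * X1) : ℕ) : ℝ) = c'' at *
  generalize ((128 * D * Y0 / X0 + 1 : ℕ) : ℝ) = d' at *
  generalize ((128 * D * Y1 / X1 + 1 : ℕ) : ℝ) = d'' at *
  generalize ((24 * D / X0 + 1 : ℕ) : ℝ) = a at *
  generalize ((24 * D / X1 + 1 : ℕ) : ℝ) = b at *
  obtain ⟨U, V, eU, eV, h1, h2⟩ := prN_spec hB h
  have g2 := hF.g2pos
  have g1 : 0 < g₁ := g2.trans_le hF.g12
  have k1 := gt2_spec hB (add_pos g1 g2) hR h1
  have k2 := gt2_spec hB (add_pos g1 g2) hR h2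
  have eD : Gq g₁ g₂ ![(((16 * D : ℕ) * ex 0 : ℤ) : ℝ) / 1572864, (((16 * D : ℕ) * ey 0 : ℤ) : ℝ) / 1572864] -
      (g₁ * U + g₂ * V) / (4 * 1572864 ^ 2) = g₁ * ((D : ℝ) / 4096) ^ 2 := by
    rw [eU, eV, sq_eq, sq_eq, ex_zero.1, ex_zero.2]
    simp only [Gq, Matrix.cons_val_zero, Matrix.cons_val_one]
    push_cast
    ring
  have eF : ∀ c : ℕ, ![((c * ex j : ℤ) : ℝ) / 25165824, ((c * ey j : ℤ) : ℝ) / 25165824] =
      ![0, (c : ℝ) / 1048576 * ((ey j : ℝ) / 24)] := fun c => by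
    funext l
    fin_cases l
    · simp [t5]
    · simp
      ring
  rw [eD, eF] at k1 k2
  have r3 : 24 * (ey i : ℝ) = Y0 * ey j := by exact_mod_cast t3
  have r4 : 24 * (ey (i + 1) : ℝ) = Y1 * ey j := by exact_mod_cast t4
  have e1 : ep i x = ![((1 - x) * X0 + x * X1) / 24, ((1 - x) * Y0 + x * Y1) / 24 * ((ey j : ℝ) / 24)] := by
    funext l
    fin_cases l
    · simp [ep, en, t1, t2]
      ring
    · simp [ep, en]
      linear_combination (1 - x) / 576 * r3 + x / 576 * r4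
  have e2 : ep (41 - n) (1 - x) =
      ![-(((1 - x) * X0 + x * X1) / 24), ((1 - x) * Y0 + x * Y1) / 24 * ((ey j : ℝ) / 24)] := by
    funext l
    fin_cases l
    · simp [ep, en, t1, t2, t6, t8]
      ring
    · simp [ep, en, t7, t9]
      linear_combination (1 - x) / 576 * r3 + x / 576 * r4
  rw [e1] at s1 p1 ⊢
  rw [e2] at s2 p2 ⊢
  have x0 := hx.1
  have x1 := sub_nonneg.2 hx.2
  have X0p : (0 : ℝ) < X0 := Nat.cast_pos.2 hX0
  have X1p : (0 : ℝ) < X1 := Nat.cast_pos.2 hX1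
  have Dp : (0 : ℝ) < D := Nat.cast_pos.2 hD
  have qp : (0 : ℝ) < q := Nat.cast_pos.2 hq
  have hξ := opb_lt hx X0p X1p
  have hw : ∀ γ : ℝ, 0 < γ → (q : ℝ) < 2 ^ 20 * γ → γ⁻¹ * (((1 - x) * X0 + x * X1) / 24) ≤ (w : ℝ) / 4096 := by
    intro γ γ0 γ1
    have u1 : (1 - x) * (X0 : ℝ) + x * X1 ≤ (max X0 X1 : ℕ) :=
      opb_le hx (Nat.cast_le.2 (le_max_left _ _)) (Nat.cast_le.2 (le_max_right _ _))
    rw [inv_mul_le_iff₀ γ0]
    have u2 := mul_le_mul_of_nonneg_left γ1.le (Nat.cast_nonneg (α := ℝ) w)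
    push_cast at w0 u1
    linarith
  have key := mir_core hF (k := k) (δ := (D : ℝ) / 4096) (ω := (w : ℝ) / 4096) (by positivity) (by positivity)
    (by positivity) (inv_pos.2 p1) (inv_pos.2 p2) (inv_mul_cancel₀ p1.ne').le (inv_mul_cancel₀ p2.ne').le
    (hw _ p1 (q1.trans_lt s1)) (hw _ p2 (q2.trans_lt s2)) hE ?_ ?_ k1 k2
  · refine mir_hm hx X0p X1p (D := 24 * D / 4096) (by positivity) ?_ ?_ (by linarith)
    · push_cast at a0
      linarith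
    · push_cast at a1
      linarith
  · push_cast at c0 c1
    have u1 := (mul_le_mul_of_nonneg_right c2 (mul_pos Dp X0p).le).trans c0
    have u2 := (mul_le_mul_of_nonneg_right c3 (mul_pos Dp X1p).le).trans c1
    have u3 := mul_le_mul_of_nonneg_left u1 x1
    have u4 := mul_le_mul_of_nonneg_left u2 x0
    linarith
  · push_cast at d0 d1
    have u1 := d0.trans (mul_le_mul_of_nonneg_right d2 X0p.le)
    have u2 := d1.trans (mul_le_mul_of_nonneg_right d3 X1p.le)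
    have u3 := mul_le_mul_of_nonneg_left u1 x1
    have u4 := mul_le_mul_of_nonneg_left u2 x0
    linarith

theorem setM_ok {s : St} {K : Set (Fin 2 → ℝ)} (hs : StOK s K) {n D : ℕ} (hn : n < 28)
    (h : ∀ x ∈ Icc (0 : ℝ) 1, sp K ((42 + n) % 56) x + sp K (41 - n) (1 - x) ≤
        (1 - x) * (((24 * D / (eX ((42 + n) % 56) - 24) + 1 : ℕ) : ℝ) / 4096) +
          x * (((24 * D / (eX ((42 + n) % 56 + 1) - 24) + 1 : ℕ) : ℝ) / 4096)) :
    StOK ⟨s.ql, s.qh, s.sl, setM s.ll n D, s.vl, s.vh⟩ K := by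
  rw [setM, force_eq, force_eq, sm5]
  generalize 24 * D / (eX ((42 + n) % 56) - 24) + 1 = a at h ⊢
  generalize 24 * D / (eX ((42 + n) % 56 + 1) - 24) + 1 = b at h ⊢
  cases e : Nat.ble (a + b) 65536
  · exact hs
  have e := Nat.le_of_ble_eq_true e
  rw [cond_true, force_eq, force_eq]
  obtain ⟨a1, a2⟩ := upd_spec (i := 84 + n) (v := (16 * (2 * a + b) + 5) / 6) hs.bll.1 (by omega)
    (by omega) (by norm_num)
  obtain ⟨b1, b2⟩ := upd_spec (i := 112 + n) (v := (16 * (a + 2 * b) + 5) / 6) a1 (by omega)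
    (by omega) (by norm_num)
  obtain ⟨c1, c2⟩ := upd_spec (i := 140 + n) (v := 93 - 3 * min a b / 1024) b1 (by omega)
    (by omega) (by norm_num)
  generalize upd (upd (upd s.ll _ _) _ _) _ _ = X at c1 c2 ⊢
  simp only [a2, b2] at c2
  have c3 : ∀ l, l ≠ 140 + n → l ≠ 112 + n → l ≠ 84 + n → dg X l = dg s.ll l := fun l h1 h2 h3 => by
    rw [c2, if_neg h1, if_neg h2, if_neg h3]
  refine ⟨⟨hs.bql, hs.bqh, hs.bsl, c1, fun l hl => ?_⟩, hs.ql, hs.qh, hs.sl,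
    ⟨fun l hl => ?_, fun m hm => ?_⟩, hs.vl, hs.vh⟩
  · show dg X l ≤ 38
    rw [c3 l (by omega) (by omega) (by omega)]
    exact hs.bll.2 l hl
  · show LOK K l (dg X l)
    rw [c3 l (by omega) (by omega) (by omega)]
    exact hs.ll.1 l hl
  · show MOK K m (dg X _) (dg X _) (dg X _)
    by_cases hmn : m = n
    · subst hmn
      have h0 := rc_lv (a := a) (b := b) ⟨le_rfl, le_rfl⟩
      have h1 : 93 * 1024 ≤ 3 * a + 1024 * (93 - 3 * min a b / 1024) ∧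
          93 * 1024 ≤ 3 * b + 1024 * (93 - 3 * min a b / 1024) := by omega
      rw [c2, c2, c2, if_neg (by omega), if_neg (by omega), if_pos rfl, if_neg (by omega), if_pos rfl,
        if_pos rfl]
      generalize 93 - 3 * min a b / 1024 = q at h1
      have h2 : (93 * 1024 : ℝ) ≤ 3 * a + 1024 * q ∧ (93 * 1024 : ℝ) ≤ 3 * b + 1024 * q := by
        exact_mod_cast h1
      exact ⟨_, _, h, h0.1, h0.2, by linarith [h2.1], by linarith [h2.2]⟩
    · rw [c3 _ (by omega) (by omega) (by omega), c3 _ (by omega) (by omega) (by omega),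
        c3 _ (by omega) (by omega) (by omega)]
      exact hs.ll.2 m hm

theorem rc_wh {w : Wt} {K : Set (Fin 2 → ℝ)} (hw : WOK w K) {z τ : ℕ} (hz : z < 56)
    (h : ∀ y ∈ K, lin z y ≤ (τ : ℝ)) : WOK ⟨w.wl, lower w.wh z τ⟩ K := by
  have h1 := (setWh_ok (s := ⟨0, 0, 0, 0, 0, 0⟩) hw hz h).2
  unfold setWh at h1
  rw [force_eq] at h1
  exact h1

theorem rc_qh {s : St} {K : Set (Fin 2 → ℝ)} (hs : StOK s K) {z τ : ℕ} (hz : z < 56)
    (h : τ < 2 ^ 20 → 2 ^ 20 * gauge K (en z) ≤ (τ : ℝ)) :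
    StOK ⟨s.ql, lower s.qh z τ, s.sl, s.ll, s.vl, s.vh⟩ K := by
  unfold lower
  cases h1 : Nat.blt τ (lane s.qh z)
  · exact hs
  · rw [Nat.blt_eq, lane_eq] at h1
    have h2 := h1.trans_le (hs.bqh.2 z)
    exact setQh_ok hs hz h2.le (h h2)

theorem op3_ok {G : Gx} {B : Bx} (hB : okB B = true) {g₁ g₂ v₁ v₂ J : ℝ} {K : Set (Fin 2 → ℝ)}
    (hF : Fx g₁ g₂ v₁ v₂ J K) (hR : Rng G B g₁ g₂ v₁ v₂) {s : St} (hs : StOK s K) {w : Wt}
    (hw : WOK w K) {r : Rt} (hr : ROK r K) (kd : ℕ) {z : ℕ} (hz : z < 56) (n m u τ fl : ℕ) :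
    StOK (op3 G B s w r kd z n m u τ fl).s K ∧ WOK (op3 G B s w r kd z n m u τ fl).w K ∧
      ROK (op3 G B s w r kd z n m u τ fl).r K := by
  have hK := hF.iso
  unfold op3
  cases Nat.beq kd 0
  swap
  · rw [cond_true, force_eq, lane_eq]
    obtain ⟨y, h1, h2, h3⟩ := hr.pt z hz
    obtain ⟨h4, h5⟩ := trimL_spec hK hs hw hz h1 u (Nat.lt_succ_of_le (hr.bl.2 z)) h2
    exact ⟨hs, hw, updRl_ok hr hz h4 ⟨y, h1, h5, h3⟩⟩
  rw [cond_false]
  cases Nat.beq kd 1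
  swap
  · rw [cond_true, force_eq, lane_eq]
    obtain ⟨y, h1, h2, h3⟩ := hr.pt z hz
    obtain ⟨h4, h5⟩ := trimH_spec hK hs hw hz h1 u (Nat.lt_succ_of_le (hr.bh.2 z)) h3
    exact ⟨hs, hw, updRh_ok hr hz h4 ⟨y, h1, h2, h5⟩⟩
  rw [cond_false]
  cases Nat.beq kd 2
  swap
  · rw [cond_true]
    cases h : (Nat.ble τ 524288 && coverR s r z τ)
    · exact ⟨hs, hw, hr⟩
    · rw [Bool.and_eq_true, Nat.ble_eq] at h
      rw [cond_true, force_eq]
      exact ⟨hs, rc_wh hw hz (coverR_ok hK hs hr hz h.1 h.2), hr⟩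
  rw [cond_false]
  cases Nat.beq kd 3
  swap
  · rw [cond_true, force_eq]
    exact ⟨rc_qh hs hz (fhull_ok hK (src_ok hK hs hw hr n) (src_ok hK hs hw hr m) z), hw, hr⟩
  rw [cond_false]
  cases Nat.beq kd 5
  swap
  · rw [cond_true]
    cases Nat.beq (m % 2) 0
    swap
    · rw [cond_true, forceS_eq]
      exact ⟨stripAll_ok hK hs hw hz, hw, hr⟩
    rw [cond_false]
    cases h : prM (mkY G B) s.sl fl z τ
    · exact ⟨hs, hw, hr⟩
    · obtain ⟨h1, h2⟩ := prM_ok hB hF.toFr hR hs h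
      rw [cond_true, force_eq]
      exact ⟨setM_ok hs h1 h2, hw, hr⟩
  rw [cond_false]
  cases Nat.beq kd 6
  swap
  · rw [cond_true]
    cases Nat.beq (m % 2) 0
    swap
    · rw [cond_true, forceS_eq]
      exact ⟨liftAll_ok hK hs, hw, hr⟩
    rw [cond_false, force_eq, force_eq]
    cases h : prS (mkY G B) fl (m >>> 1 % 2) u z (τ % 32768) (τ >>> 15 + 64 * n + 8192 * (m >>> 2))
    · exact ⟨hs, hw, hr⟩
    · obtain ⟨h1, h2⟩ := prS_ok hB hF.toFr hR (Nat.mod_lt _ (by norm_num)) h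
      rw [cond_true, force_eq]
      exact ⟨setP_ok hK hs h1 h2, hw, hr⟩
  rw [cond_false]
  cases Nat.beq kd 7
  swap
  · rw [cond_true]
    cases Nat.beq m 1
    swap
    · rw [cond_true, force_eq]
      refine ⟨⟨⟨hs.bql, hs.bqh, hs.bsl, hs.bll⟩, hs.ql, hs.qh, hs.sl, hs.ll, ?_, hs.vh⟩, hw, hr⟩
      show ((max s.vl (volC w) : ℕ) : ℝ) ≤ _
      rw [Nat.cast_max]
      exact max_le hs.vl (c3_vol box_all tc_anti hK hF.area hw)
    rw [cond_false]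
    cases h : volU G B z n m u τ
    · exact ⟨hs, hw, hr⟩
    · refine ⟨⟨⟨hs.bql, hs.bqh, hs.bsl, hs.bll⟩, hs.ql, hs.qh, hs.sl, hs.ll, hs.vl,
        fun _ => ?_⟩, hw, hr⟩
      unfold volU at h
      cases e : Nat.beq m 2
      · rw [e, cond_false] at h
        exact volJ_ok hB hF hR h
      · rw [e, cond_true] at h
        exact volP_ok hB hF.toFr hR h
  rw [cond_false]
  cases h : fcS B (mkY G B) fl u (src s w r n) (tgt r m z τ)
  · exact ⟨hs, hw, hr⟩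
  have h1 := tgt_ok hK hr hz fun hZ => fcS_ok hB hF.toFr hR (src_ok hK hs hw hr n) hZ h
  rw [cond_true]
  cases h2 : Nat.ble 2 m
  · rw [cond_false, forceS_eq]
    refine ⟨setLo_ok hK hs hz (h1.2 (not_le.1 fun h3 => ?_)), hw, hr⟩
    rw [Nat.ble_eq_true_of_le h3] at h2
    exact Bool.noConfusion h2
  · rw [cond_true, force_eq]
    exact ⟨hs, rc_wh hw hz (h1.1 (Nat.le_of_ble_eq_true h2)), hr⟩

/-- as `ops_ok` -/
theorem ops3_ok {G : Gx} {B : Bx} (hB : okB B = true) {g₁ g₂ v₁ v₂ J : ℝ} {K : Set (Fin 2 → ℝ)}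
    (hF : Fx g₁ g₂ v₁ v₂ J K) (hR : Rng G B g₁ g₂ v₁ v₂) (n d : ℕ) {s : St} (hs : StOK s K) {w : Wt}
    (hw : WOK w K) {r : Rt} (hr : ROK r K) : StOK (ops3 G B n d s w r).s K ∧
      WOK (ops3 G B n d s w r).w K ∧ ROK (ops3 G B n d s w r).r K := by
  induction n generalizing d s w r with
  | zero => exact ⟨hs, hw, hr⟩
  | succ n ih =>
    have e : ops3 G B (n + 1) d s w r = forceX (op3W G B s w r (low 1 d)) fun s' w' r' =>
      force (d >>> 64) fun d' => ops3 G B n d' s' w' r' := rfl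
    rw [e, forceX_eq, force_eq]
    have h : StOK (op3W G B s w r (low 1 d)).s K ∧ WOK (op3W G B s w r (low 1 d)).w K ∧
        ROK (op3W G B s w r (low 1 d)).r K := by
      unfold op3W
      rw [force_eq, force_eq, force_eq, force_eq]
      exact op3_ok hB hF hR hs hw hr _ (Nat.mod_lt _ (by norm_num)) _ _ _ _ _
    exact ih _ h.1 h.2.1 h.2.2

end Pool.Agent.P.MP_2e1554_gt.Chk
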