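import Pool.Agent.P.MP_2e1554_gt.IsoTent

/-! The fourth moment of a concave density. -/

open MeasureTheory Set Finset Matrix

namespace Pool.Agent.P.MP_2e1554_gt

theorem Marg.cut {p : ℝ → ℝ} {α β V : ℝ} (h : Marg 1 p α β V) (c0 c1 c2 c3 c4 c5 c6 : ℝ)
    (hc : ∀ τ ∈ Icc α β, ∀ Ψ : ℝ → ℝ, (Ψ = fun t => c6 * t ^ 8 / 56 + c5 * t ^ 7 / 42 + c4 * t ^ 6 / 30 +
      c3 * t ^ 5 / 20 - c2 * t ^ 4 / 12 - c1 * t ^ 3 / 6 - c0 * t ^ 2 / 2) →
      (β - τ) * Ψ α + (τ - α) * Ψ β ≤ (β - α) * Ψ τ) :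
    ∫ t in Icc α β, (c3 * t ^ 3 + c4 * t ^ 4 + c5 * t ^ 5 + c6 * t ^ 6) * p t ≤ (c0 + c2) * V := by
  have key := h.tent
    (Ψ := fun t => c6 * t ^ 8 / 56 + c5 * t ^ 7 / 42 + c4 * t ^ 6 / 30 +
      c3 * t ^ 5 / 20 - c2 * t ^ 4 / 12 - c1 * t ^ 3 / 6 - c0 * t ^ 2 / 2)
    (Ψ' := fun t => c6 * t ^ 7 / 7 + c5 * t ^ 6 / 6 + c4 * t ^ 5 / 5 +
      c3 * t ^ 4 / 4 - c2 * t ^ 3 / 3 - c1 * t ^ 2 / 2 - c0 * t)
    (Ψ'' := fun t => c6 * t ^ 6 + c5 * t ^ 5 + c4 * t ^ 4 + c3 * t ^ 3 - c2 * t ^ 2 - c1 * t - c0)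
    (fun u => by
      have P := fun n : ℕ => hasDerivAt_pow n u
      refine HasDerivAt.congr_deriv (((((((((P 8).const_mul c6).div_const 56).fun_add (((P 7).const_mul c5).div_const 42)).fun_add
        (((P 6).const_mul c4).div_const 30)).fun_add (((P 5).const_mul c3).div_const 20)).fun_sub
        (((P 4).const_mul c2).div_const 12)).fun_sub (((P 3).const_mul c1).div_const 6)).fun_sub
        (((P 2).const_mul c0).div_const 2)) ?_
      push_cast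
      ring)
    (fun u => by
      have P := fun n : ℕ => hasDerivAt_pow n u
      refine HasDerivAt.congr_deriv (((((((((P 7).const_mul c6).div_const 7).fun_add (((P 6).const_mul c5).div_const 6)).fun_add
        (((P 5).const_mul c4).div_const 5)).fun_add (((P 4).const_mul c3).div_const 4)).fun_sub
        (((P 3).const_mul c2).div_const 3)).fun_sub (((P 2).const_mul c1).div_const 2)).fun_sub
        ((hasDerivAt_id' u).const_mul c0)) ?_
      push_cast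
      ring)
    (by fun_prop) fun τ hτ => hc τ hτ _ rfl
  have i1 := h.one_int (f := fun t => c3 * t ^ 3 + c4 * t ^ 4 + c5 * t ^ 5 + c6 * t ^ 6) (by fun_prop)
  have i2 := (h.one_int (f := fun t => t ^ 2) (by fun_prop)).const_mul c2
  have i3 := (h.one_int (f := fun t => t) (by fun_prop)).const_mul c1
  have i4 := h.int.const_mul c0
  have e : (fun t => (c6 * t ^ 6 + c5 * t ^ 5 + c4 * t ^ 4 + c3 * t ^ 3 - c2 * t ^ 2 - c1 * t - c0) * p t) =
      fun t => (c3 * t ^ 3 + c4 * t ^ 4 + c5 * t ^ 5 + c6 * t ^ 6) * p t - c2 * (t ^ 2 * p t) -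
        c1 * (t * p t) - c0 * p t := by
    funext t
    ring
  have j1 : Integrable (fun t => (c3 * t ^ 3 + c4 * t ^ 4 + c5 * t ^ 5 + c6 * t ^ 6) * p t -
      c2 * (t ^ 2 * p t)) (volume.restrict (Icc α β)) := i1.sub i2
  have j2 : Integrable (fun t => (c3 * t ^ 3 + c4 * t ^ 4 + c5 * t ^ 5 + c6 * t ^ 6) * p t -
      c2 * (t ^ 2 * p t) - c1 * (t * p t)) (volume.restrict (Icc α β)) := j1.sub i3
  rw [e, integral_sub j2 i4, integral_sub j1 i3, integral_sub i1 i2,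
    integral_const_mul, integral_const_mul, integral_const_mul, h.m0, h.m1, h.m2] at key
  linarith

theorem Marg.kurt {p : ℝ → ℝ} {α β V : ℝ} (h : Marg 1 p α β V) :
    ∫ t in Icc α β, t ^ 4 * p t ≤ 12 / 5 * V := by
  have key := h.cut (-(α ^ 2 + α * β + β ^ 2) ^ 2 / 15) (-2 / 5 * ((α + β) * (α * β)))
    (4 / 5 * (α ^ 2 + α * β + β ^ 2)) 0 1 0 0 fun τ hτ Ψ e => by
      have h1 := sub_nonneg.2 hτ.1
      have h2 := sub_nonneg.2 hτ.2
      have h3 := sub_nonneg.2 h.lt.le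
      have h4 : 0 ≤ (β - α) * ((τ - α) * (β - τ) * (τ + α + β)) ^ 2 / 30 := by positivity
      subst e
      linarith
  have h5 := mul_nonneg (sq_nonneg (α ^ 2 + α * β + β ^ 2 - 6)) h.pos.le
  simp only [zero_mul, one_mul, zero_add, add_zero] at key
  linarith

theorem Iso.kurt {K : Set (Fin 2 → ℝ)} (hK : Iso K) (a b : ℝ) :
    ∫ y in K, (a * y 0 + b * y 1) ^ 4 ≤ 12 / 5 * (a ^ 2 + b ^ 2) ^ 2 * volume.real K := by
  rcases eq_or_lt_of_le (show 0 ≤ a ^ 2 + b ^ 2 by positivity) with h0 | h0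
  · have ha : a = 0 := by nlinarith [sq_nonneg a, sq_nonneg b]
    have hb : b = 0 := by nlinarith [sq_nonneg a, sq_nonneg b]
    simp [ha, hb]
  obtain ⟨r, hr, hr2⟩ : ∃ r : ℝ, 0 < r ∧ r ^ 2 = a ^ 2 + b ^ 2 :=
    ⟨_, Real.sqrt_pos.2 h0, Real.sq_sqrt h0.le⟩
  obtain ⟨p, α, β, hM, -, -, -, hI⟩ := hK.marg_dir (u := ![a / r, b / r]) (by
    simp only [dotProduct, Fin.sum_univ_two, Matrix.cons_val_zero, Matrix.cons_val_one]
    field_simp
    linarith)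
  have h1 := hI (fun t => t ^ 4) (by fun_prop)
  have e : (fun y : Fin 2 → ℝ => (a * y 0 + b * y 1) ^ 4) =
      fun y => r ^ 4 * (![a / r, b / r] ⬝ᵥ y) ^ 4 := by
    funext y
    simp only [dotProduct, Fin.sum_univ_two, Matrix.cons_val_zero, Matrix.cons_val_one]
    field_simp
  rw [e, integral_const_mul, h1, ← hr2]
  have := mul_le_mul_of_nonneg_left hM.kurt (show 0 ≤ r ^ 4 by positivity)
  linarith

end Pool.Agent.P.MP_2e1554_gt
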