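import Pool.Agent.P.MP_2e1554_gt.IsoChkX
import Pool.Agent.P.MP_2e1554_gt.IsoKurt
import Pool.Agent.P.MP_2e1554_gt.IsoLane
import Pool.Agent.P.MP_2e1554_gt.IsoTab

/-! Valid rows give a valid additional function. -/

open MeasureTheory Set Finset

namespace Pool.Agent.P.MP_2e1554_gt.Chk

theorem cut_dg_zero (i : ℕ) : dg 0 i = 0 := by simp [dg]

theorem cut_bd_zero (N : ℕ) : Bd 0 N 0 := ⟨Nat.two_pow_pos _, fun i => (cut_dg_zero i).le⟩

theorem RowOK.zero (K : Set (Fin 2 → ℝ)) : RowOK K 0 0 := by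
  refine ⟨cut_bd_zero 23, ?_⟩
  simp [cut_dg_zero]

theorem RowOK.fma {K : Set (Fin 2 → ℝ)} {A R a r μ : ℕ} (hA : RowOK K A a) (hR : RowOK K R r)
    (h : a + μ * r < 2 ^ 64) : RowOK K (A + μ * R) (a + μ * r) := by
  obtain ⟨h1, h2⟩ := hR.1.smul (c := μ) (by omega)
  obtain ⟨h3, h4⟩ := hA.1.add h1 h
  refine ⟨h3, ?_⟩
  have e : ∑ j ∈ range 11, ((dg (A + μ * R) j : ℝ) - dg (A + μ * R) (11 + j)) *
      (mo K (pa (6 + j)) (pb (6 + j)) / ps (6 + j)) =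
      ∑ j ∈ range 11, ((dg A j : ℝ) - dg A (11 + j)) * (mo K (pa (6 + j)) (pb (6 + j)) / ps (6 + j)) +
      μ * ∑ j ∈ range 11, ((dg R j : ℝ) - dg R (11 + j)) * (mo K (pa (6 + j)) (pb (6 + j)) / ps (6 + j)) := by
    rw [Finset.mul_sum, ← Finset.sum_add_distrib]
    refine Finset.sum_congr rfl fun j _ => ?_
    rw [h4, h4, h2, h2]
    push_cast
    ring
  rw [e, h4, h2]
  have := mul_le_mul_of_nonneg_left hR.2 (Nat.cast_nonneg (α := ℝ) μ)
  have := hA.2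
  push_cast
  linarith

/-- the lanes of `row4` -/
def cut_l4 (p q : ℕ) (sg : Bool) (i : ℕ) : ℕ :=
  (bif sg then
    [0, 0, 0, 0, 4 * (p * p * p * p), 0, 24 * (p * p * q * q), 0, 4 * (q * q * q * q), 0, 0,
      0, 0, 0, 0, 0, 16 * (p * p * p * q), 0, 16 * (p * q * q * q), 0, 0, 0,
      12 * ((p * p + q * q) * (p * p + q * q)) / 5 + 1]
  else
    [0, 0, 0, 0, 4 * (p * p * p * p), 16 * (p * p * p * q), 24 * (p * p * q * q),
      16 * (p * q * q * q), 4 * (q * q * q * q), 0, 0,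
      0, 0, 0, 0, 0, 0, 0, 0, 0, 0, 0,
      12 * ((p * p + q * q) * (p * p + q * q)) / 5 + 1]).getD i 0

theorem cut_l4_spec : ∀ p < 16, ∀ q < 16, ∀ sg : Bool, row4 p q sg < 2 ^ (64 * 23) ∧
    ∀ i < 23, lane (row4 p q sg) i = cut_l4 p q sg i ∧ cut_l4 p q sg i ≤ 2 ^ 24 := by
  decide +kernel

theorem cut_four {K : Set (Fin 2 → ℝ)} (hK : Iso K) (a b : ℝ) :
    a ^ 4 * mo K 4 0 + 4 * a ^ 3 * b * mo K 3 1 + 6 * a ^ 2 * b ^ 2 * mo K 2 2 +
      4 * a * b ^ 3 * mo K 1 3 + b ^ 4 * mo K 0 4 ≤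
      12 / 5 * (a ^ 2 + b ^ 2) ^ 2 * volume.real K := by
  have hI : ∀ (c : ℝ) (m n : ℕ), IntegrableOn (fun y : Fin 2 → ℝ => c * (y 0 ^ m * y 1 ^ n)) K :=
    fun c m n => ContinuousOn.integrableOn_compact hK.cpt (Continuous.continuousOn (by fun_prop))
  have h := hK.kurt a b
  have e : (fun y : Fin 2 → ℝ => (a * y 0 + b * y 1) ^ 4) = fun y =>
      a ^ 4 * (y 0 ^ 4 * y 1 ^ 0) + 4 * a ^ 3 * b * (y 0 ^ 3 * y 1 ^ 1) +
        6 * a ^ 2 * b ^ 2 * (y 0 ^ 2 * y 1 ^ 2) + 4 * a * b ^ 3 * (y 0 ^ 1 * y 1 ^ 3) +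
        b ^ 4 * (y 0 ^ 0 * y 1 ^ 4) := by
    funext y
    ring
  have i2 := (hI (a ^ 4) 4 0).add (hI (4 * a ^ 3 * b) 3 1)
  have i3 := i2.add (hI (6 * a ^ 2 * b ^ 2) 2 2)
  have i4 := i3.add (hI (4 * a * b ^ 3) 1 3)
  have s5 := integral_add i4 (hI (b ^ 4) 0 4)
  have s4 := integral_add i3 (hI (4 * a * b ^ 3) 1 3)
  have s3 := integral_add i2 (hI (6 * a ^ 2 * b ^ 2) 2 2)
  have s2 := integral_add (hI (a ^ 4) 4 0) (hI (4 * a ^ 3 * b) 3 1)
  simp only [Pi.add_apply] at s5 s4 s3 s2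
  rw [e, s5, s4, s3, s2] at h
  simp only [integral_const_mul] at h
  exact h

/-- `Iso.kurt` with `a = p`, `b = ±q`; lanes of `row4` by `eq_pk`-style rewriting:
shifts 256, 320, 384, 448, 512 are lanes 4..8, 704 is 11 lanes, 1408 is lane 22 -/
theorem row4_ok {K : Set (Fin 2 → ℝ)} (hK : Iso K) {p q : ℕ} (hp : p ≤ 15) (hq : q ≤ 15) (sg : Bool) :
    RowOK K (row4 p q sg) (2 ^ 24) := by
  obtain ⟨h1, h2⟩ := cut_l4_spec p (by omega) q (by omega) sg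
  have h3 : ∀ i < 23, dg (row4 p q sg) i = cut_l4 p q sg i := fun i hi => by
    rw [← lane_eq]; exact (h2 i hi).1
  refine ⟨bd_of h1 fun i hi => by rw [h3 i hi]; exact (h2 i hi).2, ?_⟩
  have e : ∑ j ∈ range 11, ((dg (row4 p q sg) j : ℝ) - dg (row4 p q sg) (11 + j)) *
      (mo K (pa (6 + j)) (pb (6 + j)) / ps (6 + j)) =
      ∑ j ∈ range 11, ((cut_l4 p q sg j : ℝ) - cut_l4 p q sg (11 + j)) *
      (mo K (pa (6 + j)) (pb (6 + j)) / ps (6 + j)) := by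
    refine Finset.sum_congr rfl fun j hj => ?_
    have := Finset.mem_range.1 hj
    rw [h3 j (by omega), h3 (11 + j) (by omega)]
  rw [e, h3 22 (by norm_num)]
  clear e h1 h2 h3
  have hV : (0 : ℝ) ≤ volume.real K := measureReal_nonneg
  have hb : (12 / 5 : ℝ) * ((p : ℝ) ^ 2 + (q : ℝ) ^ 2) ^ 2 ≤
      ((12 * ((p * p + q * q) * (p * p + q * q)) / 5 + 1 : ℕ) : ℝ) := by
    have h0 : 12 * ((p * p + q * q) * (p * p + q * q)) ≤
        5 * (12 * ((p * p + q * q) * (p * p + q * q)) / 5 + 1) := by omega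
    generalize 12 * ((p * p + q * q) * (p * p + q * q)) / 5 + 1 = t at h0 ⊢
    have h0' : (12 : ℝ) * (((p : ℝ) * p + q * q) * ((p : ℝ) * p + q * q)) ≤ 5 * t := by
      exact_mod_cast h0
    linarith
  have hb' := mul_le_mul_of_nonneg_right hb hV
  cases sg
  · have h := cut_four hK p q
    have e22 : cut_l4 p q false 22 = 12 * ((p * p + q * q) * (p * p + q * q)) / 5 + 1 := rfl
    rw [e22]
    generalize ((12 * ((p * p + q * q) * (p * p + q * q)) / 5 + 1 : ℕ) : ℝ) = t at hb' ⊢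
    simp only [Finset.sum_range_succ, Finset.sum_range_zero, cut_l4, pa, pb, ps, cond_false,
      Nat.reduceAdd, List.getD_cons_zero, List.getD_cons_succ]
    push_cast
    linarith
  · have h := cut_four hK p (-q)
    have e22 : cut_l4 p q true 22 = 12 * ((p * p + q * q) * (p * p + q * q)) / 5 + 1 := rfl
    rw [e22]
    generalize ((12 * ((p * p + q * q) * (p * p + q * q)) / 5 + 1 : ℕ) : ℝ) = t at hb' ⊢
    simp only [Finset.sum_range_succ, Finset.sum_range_zero, cut_l4, pa, pb, ps, cond_true,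
      Nat.reduceAdd, List.getD_cons_zero, List.getD_cons_succ]
    push_cast
    linarith

end Pool.Agent.P.MP_2e1554_gt.Chk
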