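import Pool.Agent.P.MP_2e1554_gt.IsoWB
import Pool.Agent.P.MP_2e1554_gt.IsoCut

/-! Rows that depend on the supports. -/

open MeasureTheory Set Finset

namespace Pool.Agent.P.MP_2e1554_gt.Chk

theorem wc_chord {f f0 f1 D m x0 x1 x M : ℝ} (h0 : x0 ≤ x) (h1 : x ≤ x1) (hM : 0 ≤ M)
    (hD : -(2 * D) ≤ M) (m0 : f0 ≤ m) (m1 : f1 ≤ m) (hx : x = x0 → f = f0)
    (e : (x1 - x0) * f = (x1 - x) * f0 + (x - x0) * f1 - (x1 - x0) * ((x - x0) * (x1 - x)) * D) :
    f ≤ m + M * (x1 - x0) ^ 2 / 8 := by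
  rcases eq_or_lt_of_le (h0.trans h1) with h | h
  · have : x = x0 := le_antisymm (h ▸ h1) h0
    have h2 : 0 ≤ M * (x1 - x0) ^ 2 / 8 := by positivity
    rw [hx this]
    linarith
  · have a0 : 0 ≤ x - x0 := sub_nonneg.2 h0
    have a1 : 0 ≤ x1 - x := sub_nonneg.2 h1
    have a2 : 0 < x1 - x0 := sub_pos.2 h
    have b0 := mul_le_mul_of_nonneg_left m0 a1
    have b1 := mul_le_mul_of_nonneg_left m1 a0
    have b2 : (x - x0) * (x1 - x) ≤ (x1 - x0) ^ 2 / 4 := by nlinarith [sq_nonneg (x1 + x0 - 2 * x)]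
    have b3 : (x - x0) * (x1 - x) * (-D) ≤ (x - x0) * (x1 - x) * (M / 2) :=
      mul_le_mul_of_nonneg_left (by linarith) (mul_nonneg a0 a1)
    have b4 : (x - x0) * (x1 - x) * (M / 2) ≤ (x1 - x0) ^ 2 / 4 * (M / 2) :=
      mul_le_mul_of_nonneg_right b2 (by linarith)
    have b5 := mul_le_mul_of_nonneg_left (b3.trans b4) a2.le
    refine le_of_mul_le_mul_left ?_ a2
    rw [e]
    linarith

/-- `f + M x²/2` is convex on the interval -/
theorem quart_le (c0 c1 c2 c3 c4 : ℝ) {x0 x1 x M : ℝ} (h0 : x0 ≤ x) (h1 : x ≤ x1) (hM : 0 ≤ M)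
    (h : ∀ t ∈ Icc x0 x1, -(2 * c2 + 6 * c3 * t + 12 * c4 * t ^ 2) ≤ M) :
    c0 + c1 * x + c2 * x ^ 2 + c3 * x ^ 3 + c4 * x ^ 4 ≤
      max (c0 + c1 * x0 + c2 * x0 ^ 2 + c3 * x0 ^ 3 + c4 * x0 ^ 4)
        (c0 + c1 * x1 + c2 * x1 ^ 2 + c3 * x1 ^ 3 + c4 * x1 ^ 4) + M * (x1 - x0) ^ 2 / 8 := by
  have k1 := h ((x0 + x) / 2) ⟨by linarith, by linarith⟩
  have k2 := h ((x + x1) / 2) ⟨by linarith, by linarith⟩
  have k3 := h ((x0 + x1) / 2) ⟨by linarith, by linarith⟩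
  refine wc_chord (D := c2 + c3 * (x0 + x + x1) +
    c4 * (x0 ^ 2 + x ^ 2 + x1 ^ 2 + x0 * x + x * x1 + x0 * x1)) h0 h1 hM (by linarith)
    (le_max_left _ _) (le_max_right _ _) (fun e => by rw [e]) (by ring)

theorem wc_quad (c0 c1 c2 : ℝ) (hc : 0 ≤ c2) {x0 x1 x : ℝ} (h0 : x0 ≤ x) (h1 : x ≤ x1) :
    c0 + c1 * x + c2 * x ^ 2 ≤ max (c0 + c1 * x0 + c2 * x0 ^ 2) (c0 + c1 * x1 + c2 * x1 ^ 2) := by
  have := quart_le c0 c1 c2 0 0 h0 h1 le_rfl fun t _ => by linarith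
  simpa using this

theorem wc_corner {F : ℝ → ℝ → ℝ} {a0 a1 b0 b1 a b α β : ℝ}
    (h1 : F a b ≤ max (F a0 b) (F a1 b) + α) (h2 : F a0 b ≤ max (F a0 b0) (F a0 b1) + β)
    (h3 : F a1 b ≤ max (F a1 b0) (F a1 b1) + β) :
    F a b ≤ max (max (F a0 b0) (F a0 b1)) (max (F a1 b0) (F a1 b1)) + α + β := by
  have k1 := le_max_left (max (F a0 b0) (F a0 b1)) (max (F a1 b0) (F a1 b1))
  have k2 := le_max_right (max (F a0 b0) (F a0 b1)) (max (F a1 b0) (F a1 b1))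
  have k3 : max (F a0 b) (F a1 b) ≤
      max (max (F a0 b0) (F a0 b1)) (max (F a1 b0) (F a1 b1)) + β :=
    max_le (by linarith) (by linarith)
  linarith

/-- real version of `fA` -/
def fAr (r E a b : ℝ) : ℝ :=
  2 * (2 * a - b - E) ^ 2 + 4 * (a * a - a * b + b * b - (a - b) * E) - 24 * r + 4 * E * b

/-- real version of `fB` -/
def fBr (r E a b : ℝ) : ℝ :=
  2 * (2 * b - a + E) ^ 2 + 4 * (a * a - a * b + b * b - (a - b) * E) - 24 * r - 4 * E * a

theorem wc_fA (r E : ℝ) {a0 a1 b0 b1 a b : ℝ} (ha0 : a0 ≤ a) (ha1 : a ≤ a1) (hb0 : b0 ≤ b)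
    (hb1 : b ≤ b1) : fAr r E a b ≤
      max (max (fAr r E a0 b0) (fAr r E a0 b1)) (max (fAr r E a1 b0) (fAr r E a1 b1)) := by
  have e1 : ∀ t, fAr r E t b = (2 * (b + E) ^ 2 + 4 * (b * (b + E)) - 24 * r + 4 * E * b) +
      (-12 * (b + E)) * t + 12 * t ^ 2 := fun t => by unfold fAr; ring
  have e2 : ∀ s t, fAr r E s t = (2 * (2 * s - E) ^ 2 + 4 * (s * (s - E)) - 24 * r) +
      (-4 * (2 * s - E) - 4 * (s - E) + 4 * E) * t + 6 * t ^ 2 := fun s t => by unfold fAr; ring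
  have h2 : ∀ s, fAr r E s b ≤ max (fAr r E s b0) (fAr r E s b1) + 0 := fun s => by
    rw [e2 s b, e2 s b0, e2 s b1, add_zero]
    exact wc_quad _ _ _ (by norm_num) hb0 hb1
  have h1 : fAr r E a b ≤ max (fAr r E a0 b) (fAr r E a1 b) + 0 := by
    rw [e1 a, e1 a0, e1 a1, add_zero]
    exact wc_quad _ _ _ (by norm_num) ha0 ha1
  simpa using wc_corner (F := fAr r E) h1 (h2 a0) (h2 a1)

theorem wc_fB (r E : ℝ) {a0 a1 b0 b1 a b : ℝ} (ha0 : a0 ≤ a) (ha1 : a ≤ a1) (hb0 : b0 ≤ b)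
    (hb1 : b ≤ b1) : fBr r E a b ≤
      max (max (fBr r E a0 b0) (fBr r E a0 b1)) (max (fBr r E a1 b0) (fBr r E a1 b1)) := by
  have e1 : ∀ t, fBr r E t b = (2 * (2 * b + E) ^ 2 + 4 * (b * (b + E)) - 24 * r) +
      (-4 * (2 * b + E) - 4 * (b + E) - 4 * E) * t + 6 * t ^ 2 := fun t => by unfold fBr; ring
  have e2 : ∀ s t, fBr r E s t = (2 * (s - E) ^ 2 + 4 * (s * (s - E)) - 24 * r - 4 * E * s) +
      (-12 * (s - E)) * t + 12 * t ^ 2 := fun s t => by unfold fBr; ring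
  have h2 : ∀ s, fBr r E s b ≤ max (fBr r E s b0) (fBr r E s b1) + 0 := fun s => by
    rw [e2 s b, e2 s b0, e2 s b1, add_zero]
    exact wc_quad _ _ _ (by norm_num) hb0 hb1
  have h1 : fBr r E a b ≤ max (fBr r E a0 b) (fBr r E a1 b) + 0 := by
    rw [e1 a, e1 a0, e1 a1, add_zero]
    exact wc_quad _ _ _ (by norm_num) ha0 ha1
  simpa using wc_corner (F := fBr r E) h1 (h2 a0) (h2 a1)

theorem wc_fC (r E : ℝ) {a0 a1 b0 b1 a b MA MB : ℝ} (ha0 : a0 ≤ a) (ha1 : a ≤ a1) (hb0 : b0 ≤ b)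
    (hb1 : b ≤ b1) (hA0 : 0 ≤ MA) (hB0 : 0 ≤ MB) (hA : ∀ t ∈ Icc a0 a1, fAr r E t b ≤ MA)
    (hB : ∀ s ∈ Icc a0 a1, ∀ t ∈ Icc b0 b1, fBr r E s t ≤ MB) : fCr r E a b ≤
      max (max (fCr r E a0 b0) (fCr r E a0 b1)) (max (fCr r E a1 b0) (fCr r E a1 b1)) +
        MA * (a1 - a0) ^ 2 / 8 + MB * (b1 - b0) ^ 2 / 8 := by
  have e1 : ∀ t, fCr r E t b = (12 * r * (b * (b + E)) - 6 * E * E * r - (b * (b + E)) ^ 2) +
      (-12 * r * (b + E) + 2 * (b + E) * (b * (b + E)) + 2 * E * b * (b + E)) * t +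
      (12 * r - (b + E) ^ 2 - 2 * (b * (b + E)) - 2 * E * b) * t ^ 2 + (2 * (b + E)) * t ^ 3 +
      (-1) * t ^ 4 := fun t => by unfold fCr; ring
  have e2 : ∀ s t, fCr r E s t = (12 * r * (s * (s - E)) - 6 * E * E * r - (s * (s - E)) ^ 2) +
      (-12 * r * (s - E) + 2 * (s - E) * (s * (s - E)) - 2 * E * s * (s - E)) * t +
      (12 * r - (s - E) ^ 2 - 2 * (s * (s - E)) + 2 * E * s) * t ^ 2 + (2 * (s - E)) * t ^ 3 +
      (-1) * t ^ 4 := fun s t => by unfold fCr; ring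
  have h2 : ∀ s ∈ Icc a0 a1, fCr r E s b ≤ max (fCr r E s b0) (fCr r E s b1) +
      MB * (b1 - b0) ^ 2 / 8 := fun s hs => by
    rw [e2 s b, e2 s b0, e2 s b1]
    refine quart_le _ _ _ _ _ hb0 hb1 hB0 fun t ht => le_of_eq_of_le ?_ (hB s hs t ht)
    unfold fBr; ring
  have h1 : fCr r E a b ≤ max (fCr r E a0 b) (fCr r E a1 b) + MA * (a1 - a0) ^ 2 / 8 := by
    rw [e1 a, e1 a0, e1 a1]
    refine quart_le _ _ _ _ _ ha0 ha1 hA0 fun t ht => le_of_eq_of_le ?_ (hA t ht)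
    unfold fAr; ring
  exact wc_corner (F := fCr r E) h1 (h2 a0 ⟨le_rfl, ha0.trans ha1⟩) (h2 a1 ⟨ha0.trans ha1, le_rfl⟩)

theorem wc_castA (r E a b : ℤ) : ((fA r E a b : ℤ) : ℝ) = fAr r E a b := by
  unfold fA fW fAr; push_cast; ring

theorem wc_castB (r E a b : ℤ) : ((fB r E a b : ℤ) : ℝ) = fBr r E a b := by
  unfold fB fW fBr; push_cast; ring

theorem wc_castC (r E a b : ℤ) : ((fC r E a b : ℤ) : ℝ) = fCr r E a b := by
  unfold fC fW fCr; push_cast; ring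

/-- `fA`, `fB` are minus the second derivatives of `fC` in `a`, `b`; they are convex quadratics in
each variable, so at most their maximum at the four corners; `quart_le` in `a`, then in `b` -/
theorem kap_le (r E : ℤ) {a0 a1 b0 b1 : ℤ} {a b : ℝ} (ha0 : (a0 : ℝ) ≤ a) (ha1 : a ≤ a1)
    (hb0 : (b0 : ℝ) ≤ b) (hb1 : b ≤ b1) : 8 * fCr r E a b ≤ (kapZ r E a0 a1 b0 b1 : ℝ) := by
  have h := wc_fC (r : ℝ) (E : ℝ) ha0 ha1 hb0 hb1 (le_max_left 0 _) (le_max_left 0 _)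
    (fun t ht => (wc_fA r E ht.1 ht.2 hb0 hb1).trans (le_max_right 0 _))
    (fun s hs t ht => (wc_fB r E hs.1 hs.2 ht.1 ht.2).trans (le_max_right 0 _))
  unfold kapZ mx4
  push_cast
  simp only [wc_castA, wc_castB, wc_castC]
  linarith

/-- lanes of a row with nine signed coefficients -/
def wc_l (c : ℕ → ℤ) (k i : ℕ) : ℕ :=
  if i < 9 then (c i).toNat else if i < 11 then 0 else if i < 20 then (-c (i - 11)).toNat else
    if i < 22 then 0 else k

theorem wc_pk0 (P : ℕ → ℕ) (c : ℕ → ℤ) (k : ℕ) :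
    ((c 0).toNat * P 0 + (-c 0).toNat * P (11 + 0)) +
      ((c 1).toNat * P 1 + (-c 1).toNat * P (11 + 1)) +
      ((c 2).toNat * P 2 + (-c 2).toNat * P (11 + 2)) +
      ((c 3).toNat * P 3 + (-c 3).toNat * P (11 + 3)) +
      ((c 4).toNat * P 4 + (-c 4).toNat * P (11 + 4)) +
      ((c 5).toNat * P 5 + (-c 5).toNat * P (11 + 5)) +
      ((c 6).toNat * P 6 + (-c 6).toNat * P (11 + 6)) +
      ((c 7).toNat * P 7 + (-c 7).toNat * P (11 + 7)) +
      ((c 8).toNat * P 8 + (-c 8).toNat * P (11 + 8)) + k * P 22 = ∑ i ∈ range 23, P i * wc_l c k i := by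
  simp only [Finset.sum_range_succ, Finset.sum_range_zero, wc_l,
    Nat.reduceLT, Nat.reduceAdd, Nat.reduceSub, if_true, if_false]
  ring

theorem wc_put (j : ℕ) (c : ℤ) :
    put j c = c.toNat * 2 ^ (64 * j) + (-c).toNat * 2 ^ (64 * (11 + j)) := by
  rw [put, Nat.shiftLeft_eq, Nat.shiftLeft_eq]

theorem wc_pk (c : ℕ → ℤ) (k : ℕ) :
    put 0 (c 0) + put 1 (c 1) + put 2 (c 2) + put 3 (c 3) + put 4 (c 4) + put 5 (c 5) +
      put 6 (c 6) + put 7 (c 7) + put 8 (c 8) + k <<< (64 * 22) = pk (wc_l c k) 23 := by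
  rw [wc_put, wc_put, wc_put, wc_put, wc_put, wc_put, wc_put, wc_put, wc_put, Nat.shiftLeft_eq]
  exact wc_pk0 (fun i => 2 ^ (64 * i)) c k

theorem wc_mom {K : Set (Fin 2 → ℝ)} (hK : Iso K) (a b : ℝ) (n : ℕ) :
    ∫ y in K, (a * y 0 + b * y 1) ^ n =
      ∑ m ∈ range (n + 1), a ^ m * b ^ (n - m) * (n.choose m : ℝ) * mo K m (n - m) := by
  have e : (fun y : Fin 2 → ℝ => (a * y 0 + b * y 1) ^ n) = fun y => ∑ m ∈ range (n + 1),
      a ^ m * b ^ (n - m) * (n.choose m : ℝ) * (y 0 ^ m * y 1 ^ (n - m)) := by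
    funext y
    rw [add_pow]
    exact Finset.sum_congr rfl fun m _ => by ring
  rw [e, integral_finsetSum _ fun m _ =>
    ContinuousOn.integrableOn_compact hK.cpt (Continuous.continuousOn (by fun_prop))]
  exact Finset.sum_congr rfl fun m _ => integral_const_mul _ _

theorem wc_int {K : Set (Fin 2 → ℝ)} (hK : Iso K) (a b e : ℝ) :
    ∫ y in K, (3 * (a * y 0 + b * y 1) ^ 4 - 4 * e * (a * y 0 + b * y 1) ^ 3) =
      3 * (a ^ 4 * mo K 4 0 + 4 * a ^ 3 * b * mo K 3 1 + 6 * a ^ 2 * b ^ 2 * mo K 2 2 +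
        4 * a * b ^ 3 * mo K 1 3 + b ^ 4 * mo K 0 4) -
      4 * e * (a ^ 3 * mo K 3 0 + 3 * a ^ 2 * b * mo K 2 1 + 3 * a * b ^ 2 * mo K 1 2 +
        b ^ 3 * mo K 0 3) := by
  have hI : ∀ (c : ℝ) (n : ℕ), IntegrableOn (fun y : Fin 2 → ℝ => c * (a * y 0 + b * y 1) ^ n) K :=
    fun c n => ContinuousOn.integrableOn_compact hK.cpt (Continuous.continuousOn (by fun_prop))
  rw [integral_sub (hI 3 4) (hI (4 * e) 3), integral_const_mul, integral_const_mul, wc_mom hK,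
    wc_mom hK]
  simp only [Finset.sum_range_succ, Finset.sum_range_zero, Nat.reduceSub, Nat.choose]
  push_cast
  ring

theorem wc_abs {x y z u : ℤ} {A B C D : ℤ} (hx : |x| ≤ A) (hy : |y| ≤ B) (hz : |z| ≤ C)
    (hu : |u| ≤ D) : |x * y * z * u| ≤ A * B * C * D := by
  have a := abs_nonneg x
  have b := abs_nonneg y
  have c := abs_nonneg z
  have d := abs_nonneg u
  have a' := a.trans hx
  have b' := b.trans hy
  have c' := c.trans hz
  rw [abs_mul, abs_mul, abs_mul]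
  gcongr

/-- the coefficients of `rowT` -/
def wc_c (p q e : ℤ) (j : ℕ) : ℤ :=
  [-4 * e * (p * p * p), -12 * e * (p * p * q), -12 * e * (p * q * q), -4 * e * (q * q * q),
    12 * (p * p * p * p), 48 * (p * p * p * q), 72 * (p * p * q * q), 48 * (p * q * q * q),
    12 * (q * q * q * q)].getD j 0

theorem wc_c_le {p q e : ℤ} (hp : |p| ≤ 24) (hq : |q| ≤ 24) (he : |e| ≤ 63) {j : ℕ} (hj : j < 9) :
    |wc_c p q e j| ≤ 2 ^ 25 := by
  have a0 := abs_le.1 (wc_abs he hp hp hp)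
  have a1 := abs_le.1 (wc_abs he hp hp hq)
  have a2 := abs_le.1 (wc_abs he hp hq hq)
  have a3 := abs_le.1 (wc_abs he hq hq hq)
  have a4 := abs_le.1 (wc_abs hp hp hp hp)
  have a5 := abs_le.1 (wc_abs hp hp hp hq)
  have a6 := abs_le.1 (wc_abs hp hp hq hq)
  have a7 := abs_le.1 (wc_abs hp hq hq hq)
  have a8 := abs_le.1 (wc_abs hq hq hq hq)
  interval_cases j <;>
    simp only [wc_c, List.getD_cons_zero, List.getD_cons_succ] <;>
    refine abs_le.2 ⟨?_, ?_⟩ <;> linarith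

theorem wc_net (c : ℤ) : ((c.toNat : ℕ) : ℝ) - (((-c).toNat : ℕ) : ℝ) = (c : ℝ) := by
  have h := Int.toNat_sub_toNat_neg c
  exact_mod_cast congrArg (fun x : ℤ => (x : ℝ)) h

theorem rowG_ok {K : Set (Fin 2 → ℝ)} {c : ℕ → ℤ} {k : ℕ} (hc : ∀ j < 9, |c j| ≤ 2 ^ 25)
    (hk : k ≤ 2 ^ 25) (h : ∑ j ∈ range 9, (c j : ℝ) * (mo K (pa (6 + j)) (pb (6 + j)) / ps (6 + j)) ≤
      k * volume.real K) : RowOK K (pk (wc_l c k) 23) (2 ^ 25) := by
  have hb : ∀ i < 23, wc_l c k i ≤ 2 ^ 25 := fun i _ => by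
    unfold wc_l
    split_ifs with h1 h2 h3 h4
    · have := abs_le.1 (hc _ h1)
      omega
    · omega
    · have := abs_le.1 (hc (i - 11) (by omega))
      omega
    · omega
    · exact hk
  have h3 : ∀ i < 23, dg (pk (wc_l c k) 23) i = wc_l c k i := fun i hi => by
    rw [dg_pk fun j hj => lt_of_le_of_lt (hb j hj) (by norm_num), if_pos hi]
  refine ⟨Bd.pk (by norm_num) hb, ?_⟩
  have e22 : wc_l c k 22 = k := rfl
  rw [h3 22 (by norm_num), e22, Finset.sum_range_succ, Finset.sum_range_succ, h3 9 (by norm_num),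
    h3 10 (by norm_num), h3 (11 + 9) (by norm_num), h3 (11 + 10) (by norm_num),
    show wc_l c k 9 = 0 from rfl, show wc_l c k 10 = 0 from rfl, show wc_l c k (11 + 9) = 0 from rfl,
    show wc_l c k (11 + 10) = 0 from rfl, sub_self, zero_mul, zero_mul, add_zero, add_zero]
  refine le_trans (le_of_eq (Finset.sum_congr rfl fun j hj => ?_)) h
  have h9 := Finset.mem_range.1 hj
  rw [h3 j (by omega), h3 (11 + j) (by omega)]
  refine congrArg (· * (mo K (pa (6 + j)) (pb (6 + j)) / ps (6 + j))) ?_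
  unfold wc_l
  rw [if_pos h9, if_neg (by omega), if_neg (by omega), if_pos (by omega),
    Nat.add_sub_cancel_left, wc_net]

/-- lanes of `rowT`; every lane is at most `2^25` -/
theorem rowT_ok {K : Set (Fin 2 → ℝ)} (hK : Iso K) {p q e : ℤ} {k : ℕ} (hp : |p| ≤ 24) (hq : |q| ≤ 24)
    (he : |e| ≤ 63) (hk : k ≤ 2 ^ 25)
    (h : ∫ y in K, (3 * ((p : ℝ) * y 0 + (q : ℝ) * y 1) ^ 4 -
      4 * e * ((p : ℝ) * y 0 + (q : ℝ) * y 1) ^ 3) ≤ k * volume.real K) :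
    RowOK K (rowT p q e k) (2 ^ 25) := by
  have e1 : rowT p q e k = pk (wc_l (wc_c p q e) k) 23 := wc_pk (wc_c p q e) k
  rw [e1]
  refine rowG_ok (fun j hj => wc_c_le hp hq he hj) hk ?_
  rw [wc_int hK] at h
  simp only [Finset.sum_range_succ, Finset.sum_range_zero, wc_c, pa, pb, ps, Nat.reduceAdd,
    List.getD_cons_zero, List.getD_cons_succ, List.getD_nil]
  push_cast
  linarith

theorem wc_ex : ∀ z < 56, |ex z| ≤ 24 ∧ |ey z| ≤ 24 := by
  decide +kernel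

theorem wc_mono {K : Set (Fin 2 → ℝ)} {A a b : ℕ} (h : RowOK K A a) (hb : a ≤ b) : RowOK K A b :=
  ⟨h.1.mono le_rfl hb, h.2⟩

theorem sd_cast (a b : ℕ) : (sd a b : ℤ) = ((a : ℤ) - b) * ((a : ℤ) - b) := by
  unfold sd adf
  rcases le_total a b with h | h
  · rw [Nat.sub_eq_zero_of_le h, zero_add, Nat.cast_mul, Nat.cast_sub h]
    ring
  · rw [Nat.sub_eq_zero_of_le h, add_zero, Nat.cast_mul, Nat.cast_sub h]

theorem wc_sub {x : ℤ} {p m : ℕ} (h : x = p - m) : x ≤ ((p - m : ℕ) : ℤ) := by omega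

theorem kapZ_le (r E a0 a1 b0 b1 : ℕ) : kapZ r E a0 a1 b0 b1 ≤ kapN r E a0 a1 b0 b1 := by
  have hc : ∀ a b : ℕ, fC r E a b ≤ cN r E a b := fun a b => wc_sub (by
    simp only [fC, fW]; push_cast; rw [sd_cast]; push_cast; ring)
  have ha : ∀ a b : ℕ, fA r E a b ≤ aN r E a b := fun a b => wc_sub (by
    simp only [fA, fW]; push_cast; rw [sd_cast]; push_cast; ring)
  have hb : ∀ a b : ℕ, fB r E a b ≤ bN r E a b := fun a b => wc_sub (by
    simp only [fB, fW]; push_cast; rw [sd_cast]; push_cast; ring)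
  have hm : ∀ (f : ℤ → ℤ → ℤ) (g : ℕ → ℕ → ℕ), (∀ a b : ℕ, f a b ≤ g a b) →
      mx4 f a0 a1 b0 b1 ≤ mxN g a0 a1 b0 b1 := fun f g h => by
    unfold mx4 mxN
    push_cast
    exact max_le_max (max_le_max (h _ _) (h _ _)) (max_le_max (h _ _) (h _ _))
  unfold kapZ kapN
  rw [Nat.cast_add, Nat.cast_add, Nat.cast_mul, Nat.cast_mul, Nat.cast_mul, sd_cast, sd_cast]
  have k1 := hm _ _ hc
  have k2 := mul_le_mul_of_nonneg_left (max_le (Int.natCast_nonneg _) (hm _ _ ha))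
    (mul_self_nonneg ((a1 : ℤ) - a0))
  have k3 := mul_le_mul_of_nonneg_left (max_le (Int.natCast_nonneg _) (hm _ _ hb))
    (mul_self_nonneg ((b1 : ℤ) - b0))
  push_cast
  linarith

theorem rowC_ok {w : Wt} {K : Set (Fin 2 → ℝ)} (hK : Iso K) (hw : WOK w K) {z e : ℕ} (hz : z < 56)
    (he : e < 64) : RowOK K (rowC w z e) (2 ^ 25) := by
  unfold rowC
  rw [force_eq, force_eq]
  cases hb : Nat.ble (kap w z ((z + 28) % 56) e) 33554432
  · exact wc_mono (RowOK.zero K) (Nat.zero_le _)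
  · rw [cond_true]
    have hk : kap w z ((z + 28) % 56) e ≤ 2 ^ 25 := Nat.le_of_ble_eq_true hb
    have he' : |Int.ofNat e| ≤ 63 := by
      rw [Int.ofNat_eq_natCast, abs_le]; omega
    refine rowT_ok hK (wc_ex z hz).1 (wc_ex z hz).2 he' hk ?_
    obtain ⟨a, b, h1, h2, h3, -, -, h4⟩ := sup_ex hK hz
    obtain ⟨c1, c2, c3, c4⟩ := sup_cell hw hz h1 h2 h3
    have h5 := kap_le (Int.ofNat (r2 z * 16777216)) (Int.ofNat (e * 4096))
      (a0 := Int.ofNat (lane w.wl z)) (a1 := Int.ofNat (lane w.wh z))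
      (b0 := Int.ofNat (lane w.wl ((z + 28) % 56))) (b1 := Int.ofNat (lane w.wh ((z + 28) % 56)))
      (a := a) (b := b) (by rw [lane_eq]; exact_mod_cast c1) (by rw [lane_eq]; exact_mod_cast c2)
      (by rw [lane_eq]; exact_mod_cast c3) (by rw [lane_eq]; exact_mod_cast c4)
    have h7 : ((kapZ (Int.ofNat (r2 z * 16777216)) (Int.ofNat (e * 4096)) (Int.ofNat (lane w.wl z))
        (Int.ofNat (lane w.wh z)) (Int.ofNat (lane w.wl ((z + 28) % 56)))
        (Int.ofNat (lane w.wh ((z + 28) % 56))) : ℤ) : ℝ) ≤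
        11258999068426240 * ((kap w z ((z + 28) % 56) e : ℕ) : ℝ) := by
      have k1 := kapZ_le (r2 z * 16777216) (e * 4096) (lane w.wl z) (lane w.wh z)
        (lane w.wl ((z + 28) % 56)) (lane w.wh ((z + 28) % 56))
      have k2 : kapN (r2 z * 16777216) (e * 4096) (lane w.wl z) (lane w.wh z)
          (lane w.wl ((z + 28) % 56)) (lane w.wh ((z + 28) % 56)) ≤
          11258999068426240 * kap w z ((z + 28) % 56) e := by
        unfold kap
        omega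
      have k3 := k1.trans (Int.ofNat_le.2 k2)
      exact_mod_cast k3
    have h6 := h5.trans h7
    have e1 : ((Int.ofNat (r2 z * 16777216) : ℤ) : ℝ) = r2 z * 2 ^ 24 := by
      rw [Int.ofNat_eq_natCast]; push_cast; norm_num
    have e2 : ((Int.ofNat (e * 4096) : ℤ) : ℝ) = ((Int.ofNat e : ℤ) : ℝ) * 4096 := by
      rw [Int.ofNat_eq_natCast, Int.ofNat_eq_natCast]; push_cast; ring
    rw [e1, e2] at h6
    refine (h4 _).trans (mul_le_mul_of_nonneg_right ?_ measureReal_nonneg)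
    rw [div_le_iff₀ (by norm_num)]
    linarith

theorem rowS_ok {K : Set (Fin 2 → ℝ)} {th z : ℕ} (hS : th = 4 ∨ Spin K) (hz : z < 56) :
    RowOK K (rowS th z) (2 ^ 25) := by
  unfold rowS
  cases e : Nat.beq th 4
  swap
  · rw [cond_true]
    exact wc_mono (RowOK.zero K) (Nat.zero_le _)
  have h := hS.resolve_left (Nat.ne_of_beq_eq_false e) z hz
  have hk : kS z ≤ 2 ^ 25 := (by decide +kernel : ∀ z < 56, kS z ≤ 33554432) z hz
  generalize kS z = k at h hk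
  have e1 : put 0 (4096 * ex z) + put 1 (4096 * ey z) + put 2 (4096 * ex z) + put 3 (4096 * ey z) +
      put 4 0 + put 5 0 + put 6 0 + put 7 0 + put 8 0 + k <<< 1408 =
      pk (wc_l (fun j => [4096 * ex z, 4096 * ey z, 4096 * ex z, 4096 * ey z].getD j 0) k) 23 :=
    wc_pk (fun j => [4096 * ex z, 4096 * ey z, 4096 * ex z, 4096 * ey z].getD j 0) k
  have e0 : ∀ j, put j 0 = 0 := fun j => by
    rw [wc_put, neg_zero, Int.toNat_zero, zero_mul, zero_mul, add_zero]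
  rw [e0, e0, e0, e0, e0, add_zero, add_zero, add_zero, add_zero, add_zero] at e1
  rw [cond_false, e1]
  have a1 := abs_le.1 (wc_ex z hz).1
  have a2 := abs_le.1 (wc_ex z hz).2
  refine rowG_ok (fun j hj => ?_) hk ?_
  · interval_cases j <;> simp only [List.getD_cons_zero, List.getD_cons_succ, List.getD_nil] <;>
      refine abs_le.2 ⟨?_, ?_⟩ <;> linarith
  · simp only [Finset.sum_range_succ, Finset.sum_range_zero, pa, pb, ps, Nat.reduceAdd,
      List.getD_cons_zero, List.getD_cons_succ, List.getD_nil]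
    push_cast
    linarith

theorem wc_rowOf {w : Wt} {K : Set (Fin 2 → ℝ)} (hK : Iso K) (hw : WOK w K) {th : ℕ}
    (hS : th = 4 ∨ Spin K) (x : ℕ) : RowOK K (rowOf w th x) (2 ^ 25) := by
  unfold rowOf
  cases Nat.beq (x % 2) 0
  · rw [cond_false, force_eq]
    cases Nat.beq (x >>> 13 % 2) 1
    · rw [cond_false]
      exact rowC_ok hK hw (Nat.mod_lt _ (by norm_num)) (Nat.mod_lt _ (by norm_num))
    · rw [cond_true]
      exact rowS_ok hS (Nat.mod_lt _ (by norm_num))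
  · rw [cond_true]
    exact wc_mono (row4_ok hK (by omega) (by omega) _) (by norm_num)

theorem rows_ok {w : Wt} {K : Set (Fin 2 → ℝ)} (hK : Iso K) (hw : WOK w K) {th : ℕ}
    (hS : th = 4 ∨ Spin K) {n : ℕ} (hn : n ≤ 63) (d : ℕ) : RowOK K (rows w th n d) (n * 2 ^ 57) := by
  induction n generalizing d with
  | zero => exact wc_mono (RowOK.zero K) (Nat.zero_le _)
  | succ n ih =>
    have e : rows w th (n + 1) d = force (d >>> 64) (rows w th n) +
        d % 4294967296 * rowOf w th (low 1 d >>> 32) := rfl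
    rw [e, force_eq]
    have hμ : d % 4294967296 < 4294967296 := Nat.mod_lt _ (by norm_num)
    exact wc_mono ((ih (by omega) _).fma (wc_rowOf hK hw hS _) (by omega)) (by omega)

end Pool.Agent.P.MP_2e1554_gt.Chk
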