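import Pool.Agent.P.MP_2e1554_gt.IsoWB

/-! The width cut and all operations on the supports. -/

open MeasureTheory Set Finset

namespace Pool.Agent.P.MP_2e1554_gt.Chk

theorem wd_psd {A B c x y : ℝ} (hA : 0 ≤ A) (hB : 0 ≤ B) (h : c ^ 2 ≤ A * B) :
    2 * c * x * y ≤ A * x ^ 2 + B * y ^ 2 := by
  refine (abs_le_of_sq_le_sq' ?_ (by positivity)).2
  have h1 := mul_le_mul_of_nonneg_right h (sq_nonneg (x * y))
  nlinarith [sq_nonneg (A * x ^ 2 - B * y ^ 2)]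

theorem wd_rot : ∀ z < 56, ex ((z + 14) % 56) = -ey z ∧ ey ((z + 14) % 56) = ex z ∧
    ex ((z + 42) % 56) = ey z ∧ ey ((z + 42) % 56) = -ex z := by decide +kernel

/-- `star_ind`: the set of `(g1, g2)` with `G ≥ l (form)²` for a fixed vector `d` is convex -/
theorem psd_spec {B : Bx} (hB : okB B = true) {g₁ g₂ : ℝ} (hg : 0 < g₁ + g₂) (hS : InStar B g₁ g₂)
    {z l : ℕ} (h : psd B z l = true) (d : Fin 2 → ℝ) :
    (l : ℝ) * ((ex z : ℝ) * d 0 + (ey z : ℝ) * d 1) ^ 2 ≤ SG * Gq g₁ g₂ d := by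
  have key := star_ind hB hg hS (fun a b =>
    (l : ℝ) * ((ex z : ℝ) * d 0 + (ey z : ℝ) * d 1) ^ 2 ≤ a * d 0 ^ 2 + b * d 1 ^ 2)
    (fun a b a' b' x hx h1 h2 => ?_) fun t f ht hf _ => ?_
  · rw [Gq]
    linarith
  · have e1 := mul_le_mul_of_nonneg_left h1 (sub_nonneg.2 hx.2)
    have e2 := mul_le_mul_of_nonneg_left h2 hx.1
    linarith
  · have h1 := all4_iff h ht hf
    simp only [Bool.and_eq_true, Nat.ble_eq] at h1
    obtain ⟨⟨h1, h2⟩, h3⟩ := h1
    have h4 := (Nat.cast_le (α := ℝ)).2 h3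
    have h5 := (Nat.cast_le (α := ℝ)).2 h1
    have h6 := (Nat.cast_le (α := ℝ)).2 h2
    rw [Nat.cast_mul, Nat.cast_mul _ (_ - _), Nat.cast_sub h1, Nat.cast_sub h2] at h4
    simp only [Nat.cast_mul, sq_eq] at h4 h5 h6
    have h7 := wd_psd (c := l * ex z * ey z) (x := d 0) (y := d 1) (sub_nonneg.2 h5)
      (sub_nonneg.2 h6) (by linarith)
    linarith

/-- as `ge_spec` -/
theorem wid1_spec {G : Gx} {B : Bx} (hB : okB B = true) {g₁ g₂ v₁ v₂ : ℝ} (hg : 0 < g₁ + g₂)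
    (hR : Rng G B g₁ g₂ v₁ v₂) {fl : Bool} {m p t : ℕ} (h : wid1 G B fl m p t = true) :
    (if fl then 40001 / 100 else 40821 / 100 : ℝ) <
      m / (SG * 2 ^ 24) * (15 - Rq g₁ g₂ v₁ v₂ (((t : ℝ) / 256) • en p)) ∧
    (fl = true → Rq g₁ g₂ v₁ v₂ (((t : ℝ) / 256) • en p) ≤ 11 / 4) := by
  have ef : ((t : ℝ) / 256) • en p = ![((Int.ofNat (t * 4096) * ex p : ℤ) : ℝ) / 25165824,
      ((Int.ofNat (t * 4096) * ey p : ℤ) : ℝ) / 25165824] := by
    funext k
    fin_cases k <;> simp [en] <;> ring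
  rw [ef]
  unfold wid1 at h
  generalize Int.ofNat (t * 4096) * ex p = fx at h ⊢
  generalize Int.ofNat (t * 4096) * ey p = fy at h ⊢
  have key := star_ind hB hg hR.1 (fun a b =>
    (if fl then 40001 / 100 else 40821 / 100 : ℝ) < m / (SG * 2 ^ 24) *
        (15 - Rq (a / SG) (b / SG) v₁ v₂ ![fx / 25165824, fy / 25165824]) ∧
    (fl = true → Rq (a / SG) (b / SG) v₁ v₂ ![fx / 25165824, fy / 25165824] ≤ 11 / 4))
    (fun a b a' b' x hx h1 h2 => ?_) fun t f ht hf hcg => ?_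
  · simpa only [opb_div] using key
  · rw [opb_Rc]
    refine ⟨(opb_lt hx h1.1 h2.1).trans_eq (by ring), fun hfl => opb_le hx (h1.2 hfl) (h2.2 hfl)⟩
  · have h1 := all4_iff h ht hf
    simp only [Bool.and_eq_true, Nat.blt_eq, Bool.or_eq_true, Bool.not_eq_true', Nat.ble_eq] at h1
    obtain ⟨h1, h2⟩ := h1
    have h3 := Nat.pos_of_mul_pos_left (Nat.zero_lt_of_lt h1)
    have h4 := Nat.pos_of_mul_pos_left h3
    have h6 := eLow_le hR fx fy hcg h4
    have h8 : (((bif fl then 40001 else 40821 : ℕ) : ℝ)) =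
        100 * (if fl then 40001 / 100 else 40821 / 100 : ℝ) := by
      cases fl <;> norm_num
    have h9 := (Nat.cast_lt (α := ℝ)).2 h1
    rw [Nat.cast_mul, Nat.cast_mul, Nat.cast_mul, h8, Nat.cast_ofNat, Nat.cast_ofNat] at h9
    generalize Rq (cg1 t f / SG) (cg2 t f / SG) v₁ v₂ ![fx / 25165824, fy / 25165824] = R at *
    rw [SG_eq] at h6 ⊢
    have h11 := mul_le_mul_of_nonneg_left h6 (Nat.cast_nonneg (α := ℝ) m)
    refine ⟨by linarith, fun hfl => ?_⟩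
    have h12 := (Nat.cast_le (α := ℝ)).2 (h2.resolve_left (by simp [hfl]))
    rw [Nat.cast_mul, Nat.cast_ofNat, Nat.cast_ofNat] at h12
    linarith

/-- the point `c = τ • en p` of the chord from `y` to `y'`, where `a ≤ lin z y`, `b ≤ -lin z y'`,
`lin z c = 0`: either `τ ≤ 1 / gauge (en p)`, or `|c|² ≤ 8 - a b / (2^24 r2)` (`Fr.out` at both ends,
`|y - y'|² r2 2^24 ≥ (lin z y - lin z y')²`), `|en p|² = r2 / 576` -/
theorem cross_spec {g₁ g₂ v₁ v₂ J : ℝ} {K : Set (Fin 2 → ℝ)} (hF : Fr g₁ g₂ v₁ v₂ J K) {s : St}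
    (hs : StOK s K) {z p a b t : ℕ} (hz : z < 56) (hp : p < 56) (hr : r2 p = r2 z)
    (h : cross s a b (r2 z) p t = true) {y y' : Fin 2 → ℝ} (hy : y ∈ K) (hy' : y' ∈ K)
    (ha : (a : ℝ) ≤ lin z y) (hb : (b : ℝ) ≤ -lin z y') {σ τ : ℝ} (hσ : σ ∈ Icc (0 : ℝ) 1)
    (hτ : 0 ≤ τ) (e : y + σ • (y' - y) = τ • en p) (e0 : lin z (τ • en p) = 0) : τ ≤ t / 256 := by
  have hK := hF.iso
  unfold cross at h
  simp only [Bool.or_eq_true, Nat.ble_eq, lane_eq] at h
  have t0 : (0 : ℝ) ≤ t := Nat.cast_nonneg t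
  rcases h with h | h
  · have hc : τ • en p ∈ K := e ▸ hK.cvx.add_smul_sub_mem hy hy' hσ
    have h1 := (hK.gauge_mem hτ).1 hc
    have h2 := hs.ql p hp
    have h3 : (268435456 : ℝ) ≤ t * dg s.ql p := by exact_mod_cast h
    have h4 : (0 : ℝ) ≤ dg s.ql p := Nat.cast_nonneg _
    have h5 := mul_le_mul_of_nonneg_left h2.le t0
    have h6 : 0 < gauge K (en p) := by linarith
    refine le_of_mul_le_mul_right ?_ h6
    linarith
  · have h1 : (77309411328 : ℝ) * r2 z ≤ 256 * (t * t * r2 z * r2 z) + 576 * (a * b) := by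
      exact_mod_cast h
    have h2 : (576 : ℝ) ≤ r2 z := by exact_mod_cast (r2_rng hz).1
    have h3 := r2_eq z
    have h4 := r2_eq p
    rw [hr] at h4
    have o1 := hF.out y hy
    have o2 := hF.out y' hy'
    have e1 := congrFun e 0
    have e2 := congrFun e 1
    rw [← e] at e0
    simp only [dotProduct, Fin.sum_univ_two] at o1 o2
    simp only [lin, en, Pi.add_apply, Pi.smul_apply, Pi.sub_apply, smul_eq_mul,
      Matrix.cons_val_zero, Matrix.cons_val_one] at e0 e1 e2 ha hb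
    have a0 : (0 : ℝ) ≤ a := Nat.cast_nonneg a
    have b0 : (0 : ℝ) ≤ b := Nat.cast_nonneg b
    have hab := mul_le_mul ha hb b0 (a0.trans ha)
    generalize (r2 z : ℝ) = r at *
    generalize (ex z : ℝ) = c at *
    generalize (ey z : ℝ) = d at *
    generalize (ex p : ℝ) = c' at *
    generalize (ey p : ℝ) = d' at *
    generalize y 0 = y0 at *
    generalize y 1 = y1 at *
    generalize y' 0 = u0 at *
    generalize y' 1 = u1 at *
    have s0 := hσ.1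
    have s1 := sub_nonneg.2 hσ.2
    have k1 : c * y0 + d * y1 = σ * (c * (y0 - u0) + d * (y1 - u1)) := by linarith
    have k2 : -(c * u0 + d * u1) = (1 - σ) * (c * (y0 - u0) + d * (y1 - u1)) := by linarith
    have k3 : (c * (y0 - u0) + d * (y1 - u1)) ^ 2 ≤ r * ((y0 - u0) ^ 2 + (y1 - u1) ^ 2) := by
      rw [h3]
      nlinarith [sq_nonneg (c * (y1 - u1) - d * (y0 - u0))]
    have k4 := mul_le_mul_of_nonneg_left k3 (mul_nonneg s0 s1)
    have k5 : 4096 * (c * y0 + d * y1) * -(4096 * (c * u0 + d * u1)) =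
        16777216 * (σ * (1 - σ) * (c * (y0 - u0) + d * (y1 - u1)) ^ 2) := by
      rw [show -(4096 * (c * u0 + d * u1)) = 4096 * -(c * u0 + d * u1) by ring, k2]
      nth_rewrite 1 [k1]
      ring
    have k6 : τ ^ 2 * r = 576 * ((y0 + σ * (u0 - y0)) ^ 2 + (y1 + σ * (u1 - y1)) ^ 2) := by
      rw [e1, e2, h4]
      ring
    have k7 := mul_le_mul_of_nonneg_left o1 s1
    have k8 := mul_le_mul_of_nonneg_left o2 s0
    have k9 : τ ^ 2 * r ≤ 576 * (8 - σ * (1 - σ) * ((y0 - u0) ^ 2 + (y1 - u1) ^ 2)) := by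
      rw [k6]
      linarith
    have r0 : 0 < r := by linarith
    have k10 := mul_le_mul_of_nonneg_right k9 r0.le
    have k11 : τ ^ 2 * r ^ 2 ≤ ((t : ℝ) / 256) ^ 2 * r ^ 2 := by linarith
    exact (abs_le_of_sq_le_sq' (le_of_mul_le_mul_right k11 (by positivity)) (by positivity)).2

/-- if `lin z y' < -τ` for some `y' ∈ K`, the chord from a point `y` with `wl ≤ lin z y` meets the line
`lin z = 0` in a point between `t1/256 • en p` and `t2/256 • en q` (`en q = -en p`, `en p ⟂ en z`;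
`decide`: `ex ((z+14)%56) = -ey z`, `ey ((z+14)%56) = ex z`); `Rq_seg`, `ch_le` -/
theorem width_ok {G : Gx} {B : Bx} (hB : okB B = true) {g₁ g₂ v₁ v₂ J : ℝ} {K : Set (Fin 2 → ℝ)}
    (hF : Fr g₁ g₂ v₁ v₂ J K) (hR : Rng G B g₁ g₂ v₁ v₂) {s : St} (hs : StOK s K) {w : Wt}
    (hw : WOK w K) {fl : Bool} {z τ l t1 t2 : ℕ} (hz : z < 56)
    (h : width G B s w fl z τ l t1 t2 = true) : ∀ y ∈ K, lin ((z + 28) % 56) y ≤ (τ : ℝ) := by
  intro y' hy'
  by_contra hn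
  rw [lin_anti hz] at hn
  have hn := not_le.1 hn
  unfold width at h
  rw [force_eq, force_eq, lane_eq] at h
  simp only [Bool.and_eq_true, Bool.or_eq_true, Nat.blt_eq] at h
  obtain ⟨c1, h⟩ := h
  obtain ⟨y, hy, hl⟩ := hw.lo z hz
  obtain ⟨q1, q2, q3, q4⟩ := wd_rot z hz
  have hp : (z + 14) % 56 < 56 := Nat.mod_lt _ (by norm_num)
  have hq : (z + 42) % 56 < 56 := Nat.mod_lt _ (by norm_num)
  generalize (z + 14) % 56 = p at *
  generalize (z + 42) % 56 = q at *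
  generalize dg w.wl z = a at *
  have g2 := hF.g2pos
  have g1 : 0 < g₁ := g2.trans_le hF.g12
  have hg := add_pos g1 g2
  have a0 : (0 : ℝ) ≤ a := Nat.cast_nonneg a
  have t0 : (0 : ℝ) ≤ τ := Nat.cast_nonneg τ
  have hps := psd_spec hB hg hR.1 c1 (y - y')
  have hm : ((l * ((a + τ) * (a + τ)) : ℕ) : ℝ) / (SG * 2 ^ 24) ≤ Gq g₁ g₂ (y - y') := by
    rw [div_le_iff₀ (by rw [SG_eq]; norm_num)]
    have m1 : ((a : ℝ) + τ) ^ 2 ≤ (lin z y - lin z y') ^ 2 :=
      pow_le_pow_left₀ (by positivity) (by linarith) 2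
    have m2 := mul_le_mul_of_nonneg_left m1 (Nat.cast_nonneg (α := ℝ) l)
    simp only [lin, Pi.sub_apply] at m2 hps
    push_cast
    linarith
  rcases h with h | ⟨⟨⟨c2, c3⟩, c4⟩, c5⟩
  · have h1 := hm.trans (hF.dia y hy y' hy')
    have h2 := (Nat.cast_lt (α := ℝ)).2 h
    rw [div_le_iff₀ (by rw [SG_eq]; norm_num), SG_eq] at h1
    rw [Nat.cast_ofNat] at h2
    linarith
  have hD : 0 < lin z y - lin z y' := by linarith
  have hσ : lin z y / (lin z y - lin z y') ∈ Icc (0 : ℝ) 1 :=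
    ⟨div_nonneg (a0.trans hl) hD.le, (div_le_one hD).2 (by linarith)⟩
  have hσ' : lin z y / (lin z y - lin z y') * (lin z y - lin z y') = lin z y :=
    div_mul_cancel₀ _ hD.ne'
  generalize lin z y / (lin z y - lin z y') = σ at hσ hσ'
  have hc0 : lin z (y + σ • (y' - y)) = 0 := by
    simp only [lin, Pi.add_apply, Pi.smul_apply, Pi.sub_apply, smul_eq_mul] at hσ' ⊢
    linarith
  have hr : (576 : ℝ) ≤ (ex z : ℝ) ^ 2 + (ey z : ℝ) ^ 2 := by
    rw [← r2_eq]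
    exact_mod_cast (r2_rng hz).1
  have eq : en q = -en p := by
    funext k
    fin_cases k <;> simp [en, q1, q2, q3, q4, neg_div]
  obtain ⟨κ, hκ⟩ : ∃ κ : ℝ, y + σ • (y' - y) = κ • en p := by
    generalize y + σ • (y' - y) = c at hc0
    refine ⟨24 * (ex z * c 1 - ey z * c 0) / ((ex z : ℝ) ^ 2 + (ey z : ℝ) ^ 2), ?_⟩
    have h0 : (ex z : ℝ) ^ 2 + (ey z : ℝ) ^ 2 ≠ 0 := by linarith
    rw [lin] at hc0
    funext k
    fin_cases k
    · simp only [en, q1, q2, Fin.zero_eta, Pi.smul_apply, smul_eq_mul, Matrix.cons_val_zero,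
        Int.cast_neg]
      field_simp
      linear_combination (ex z / 4096 : ℝ) * hc0
    · simp only [en, q1, q2, Fin.mk_one, Pi.smul_apply, smul_eq_mul, Matrix.cons_val_zero,
        Matrix.cons_val_one]
      field_simp
      linear_combination (ey z / 4096 : ℝ) * hc0
  have rp : r2 p = r2 z := by simp [r2, sq, q1, q2, add_comm]
  have rq : r2 q = r2 z := by simp [r2, sq, q3, q4, add_comm]
  have k1 : κ ≤ t1 / 256 := by
    rcases le_total 0 κ with h | h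
    · exact cross_spec hF hs hz hp rp c2 hy hy' hl hn.le hσ h hκ (hκ ▸ hc0)
    · exact h.trans (by positivity)
  have k2 : -κ ≤ t2 / 256 := by
    rcases le_total 0 (-κ) with h | h
    · have hκ' : y + σ • (y' - y) = (-κ) • en q := by rw [hκ, eq, smul_neg, neg_smul, neg_neg]
      exact cross_spec hF hs hz hq rq c3 hy hy' hl hn.le hσ h hκ' (hκ' ▸ hc0)
    · exact h.trans (by positivity)
  obtain ⟨x, hx, ex'⟩ := seg_ex (show -((t2 : ℝ) / 256) ≤ κ by linarith) k1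
  have hc : y + σ • (y' - y) =
      (1 - x) • (((t2 : ℝ) / 256) • en q) + x • (((t1 : ℝ) / 256) • en p) := by
    rw [hκ, eq, ex']
    module
  obtain ⟨w1, w2⟩ := wid1_spec hB hg hR c4
  obtain ⟨w3, w4⟩ := wid1_spec hB hg hR c5
  have hseg := (Rq_seg g1.le g2.le v₁ v₂ (((t2 : ℝ) / 256) • en q) (((t1 : ℝ) / 256) • en p) hx).1
  rw [← hc] at hseg
  have hch := ch_le hF hy hy' rfl (t := σ) (fl := fl) fun hf =>
    hseg.trans (opb_le hx (w4 hf) (w2 hf))
  have hrad := hF.rad _ (hF.iso.cvx.add_smul_sub_mem hy hy' hσ)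
  have hlt := opb_lt hx w3 w1
  have hm0 : (0 : ℝ) ≤ ((l * ((a + τ) * (a + τ)) : ℕ) : ℝ) / (SG * 2 ^ 24) := by positivity
  generalize ((l * ((a + τ) * (a + τ)) : ℕ) : ℝ) / (SG * 2 ^ 24) = M at *
  have f1 := mul_le_mul_of_nonneg_right hm (sub_nonneg.2 hrad)
  have f2 := mul_le_mul_of_nonneg_left hseg hm0
  linarith

theorem op2_ok {G : Gx} {B : Bx} (hB : okB B = true) {g₁ g₂ v₁ v₂ J : ℝ} {K : Set (Fin 2 → ℝ)}
    (hF : Fr g₁ g₂ v₁ v₂ J K) (hR : Rng G B g₁ g₂ v₁ v₂) {s : St} (hs : StOK s K) {w : Wt}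
    (hw : WOK w K) (kd : ℕ) {z i τ : ℕ} (hz : z < 56) (hi : i < 56) (hτ : τ ≤ 2 ^ 19) (l t1 t2 : ℕ)
    (fl : Bool) : StOK (op2 G B s w kd z ((z + 28) % 56) i τ l t1 t2 fl).1 K ∧
      WOK (op2 G B s w kd z ((z + 28) % 56) i τ l t1 t2 fl).2 K := by
  have hK := hF.iso
  have hy : (z + 28) % 56 < 56 := Nat.mod_lt _ (by norm_num)
  have wl : ∀ {z τ : ℕ}, z < 56 → (∃ y ∈ K, (τ : ℝ) ≤ lin z y) →
      StOK (setWl s w z τ).1 K ∧ WOK (setWl s w z τ).2 K := fun hz h => by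
    obtain ⟨h1, h2⟩ := setWl_ok (s := s) hw hz h
    exact ⟨h1.symm ▸ hs, h2⟩
  have wh : ∀ {z τ : ℕ}, z < 56 → (∀ y ∈ K, lin z y ≤ (τ : ℝ)) →
      StOK (setWh s w z τ).1 K ∧ WOK (setWh s w z τ).2 K := fun hz h => by
    obtain ⟨h1, h2⟩ := setWh_ok (s := s) hw hz h
    exact ⟨h1.symm ▸ hs, h2⟩
  unfold op2
  cases Nat.beq kd 0
  swap
  · rw [cond_true, forceS_eq]
    exact ⟨setLo_ok hK hs hi (strip_ok hK hw fl hz hi), hw⟩
  rw [cond_false]
  cases Nat.beq kd 1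
  swap
  · rw [cond_true]
    exact wl hz (supp_ok hK hs z hi)
  rw [cond_false]
  cases Nat.beq kd 2
  swap
  · rw [cond_true]
    cases h : cover s z τ
    · exact ⟨hs, hw⟩
    · exact wh hz (cover_ok hK hs hz hτ h)
  rw [cond_false]
  cases Nat.beq kd 3
  swap
  · rw [cond_true]
    cases h : lensL w z ((z + 28) % 56) τ
    · exact ⟨hs, hw⟩
    · exact wl hy (lensL_ok hK hw hz h)
  rw [cond_false]
  cases Nat.beq kd 4
  swap
  · rw [cond_true]
    cases h : lensH w z ((z + 28) % 56) τ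
    · exact ⟨hs, hw⟩
    · exact wh hy (lensH_ok hK hw hz h)
  rw [cond_false]
  cases h : width G B s w fl z τ l t1 t2
  · exact ⟨hs, hw⟩
  · exact wh hy (width_ok hB hF hR hs hw hz h)

/-- as `ops_ok` -/
theorem ops2_ok {G : Gx} {B : Bx} (hB : okB B = true) {g₁ g₂ v₁ v₂ J : ℝ} {K : Set (Fin 2 → ℝ)}
    (hF : Fr g₁ g₂ v₁ v₂ J K) (hR : Rng G B g₁ g₂ v₁ v₂) (n d : ℕ) {s : St} (hs : StOK s K) {w : Wt}
    (hw : WOK w K) : StOK (ops2 G B n d s w).1 K ∧ WOK (ops2 G B n d s w).2 K := by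
  induction n generalizing d s w with
  | zero => exact ⟨hs, hw⟩
  | succ n ih =>
    have e : ops2 G B (n + 1) d s w = forceP (op2W G B s w (low 2 d)) fun s' w' =>
      force (d >>> 128) fun d' => ops2 G B n d' s' w' := rfl
    rw [e, forceP_eq, force_eq]
    have h : StOK (op2W G B s w (low 2 d)).1 K ∧ WOK (op2W G B s w (low 2 d)).2 K := by
      unfold op2W
      rw [force_eq, force_eq, force_eq]
      exact op2_ok hB hF hR hs hw _ (Nat.mod_lt _ (by norm_num)) (Nat.mod_lt _ (by norm_num))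
        (Nat.mod_lt _ (by norm_num)).le _ _ _ _
    exact ih _ h.1 h.2

end Pool.Agent.P.MP_2e1554_gt.Chk
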