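import Pool.Agent.P.MP_2e1554_gt.IsoSum
import Pool.Agent.P.MP_2e1554_gt.IsoWC
import Pool.Agent.P.MP_2e1554_gt.IsoWD
import Pool.Agent.P.MP_2e1554_gt.IsoRC

/-! Soundness of the checker. -/

open MeasureTheory Set Finset

namespace Pool.Agent.P.MP_2e1554_gt.Chk

def AllG (G : Gx) : List (Bx × Xs) → Prop
  | [] => True
  | h :: t => GoodX G h.1 h.2.s h.2.w h.2.r ∧ AllG G t

private theorem allG_get {G : Gx} : ∀ {H : List (Bx × Xs)}, AllG G H →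
    ∀ {n : ℕ} {h : Bx × Xs}, H[n]? = some h → GoodX G h.1 h.2.s h.2.w h.2.r
  | [], _, n, h, e => by simp at e
  | a :: t, hH, 0, h, e => by
    have : a = h := by simpa using e
    exact this ▸ hH.1
  | a :: t, hH, n + 1, h, e => allG_get hH.2 (n := n) (by simpa using e)

private theorem eqB_eq {B C : Bx} (h : eqB B C = true) : B = C := by
  cases B; cases C
  simp only [eqB, Bool.and_eq_true, Nat.beq_eq] at h
  obtain ⟨⟨⟨⟨⟨⟨⟨h1, h2⟩, h3⟩, h4⟩, h5⟩, h6⟩, h7⟩, h8⟩ := h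
  subst h1 h2 h3 h4 h5 h6 h7 h8
  rfl

private theorem eqS_eq {s r : St} (h : eqS s r = true) : s = r := by
  cases s; cases r
  simp only [eqS, Bool.and_eq_true, Nat.beq_eq] at h
  obtain ⟨⟨⟨⟨⟨h1, h2⟩, h3⟩, h4⟩, h5⟩, h6⟩ := h
  subst h1 h2 h3 h4 h5 h6
  rfl

private theorem eqW_eq {s r : Wt} (h : eqW s r = true) : s = r := by
  cases s; cases r
  simp only [eqW, Bool.and_eq_true, Nat.beq_eq] at h
  obtain ⟨h1, h2⟩ := h
  subst h1 h2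
  rfl

private theorem eqR_eq {s r : Rt} (h : eqR s r = true) : s = r := by
  cases s; cases r
  simp only [eqR, Bool.and_eq_true, Nat.beq_eq] at h
  obtain ⟨h1, h2⟩ := h
  subst h1 h2
  rfl

private theorem neg_abs {a dl : ℕ} {u v : ℝ} (h : a + dl < OO) (hu : SG * (u + 2) ≤ (a : ℝ))
    (hv : 0 ≤ v) (hd : SG * |v - u| ≤ (dl : ℝ)) : False := by
  have h1 : (a : ℝ) + dl < OO := by exact_mod_cast h
  rw [OO_eq] at h1
  rw [SG_eq] at hu hd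
  linarith [le_abs_self (v - u)]

theorem good_split {G : Gx} {B : Bx} {s : St} {w : Wt} {p : Rt} (ax x : ℕ)
    (h1 : GoodX G (setHi B ax x) s w p) (h2 : GoodX G (setLw B ax x) s w p) : GoodX G B s w p := by
  obtain ⟨t0, t1, f0, f1, a0, a1, b0, b1⟩ := B
  intro K u₁ u₂ r1 r2 hU hT hs
  obtain ⟨p1, p2, p3, p4⟩ := hU
  obtain ⟨g₁, g₂, v₁, v₂, J, hF, ⟨q1, q2, q3, q4⟩, d1, d2⟩ := hT
  rcases ax with _ | _ | _ | ax
  · rcases le_total (SG * (u₁ + 2)) (x : ℝ) with c | c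
    · exact h1 K u₁ u₂ r1 r2 ⟨p1, c, p3, p4⟩ ⟨g₁, g₂, v₁, v₂, J, hF, ⟨q1, q2, q3, q4⟩, d1, d2⟩ hs
    · exact h2 K u₁ u₂ r1 r2 ⟨c, p2, p3, p4⟩ ⟨g₁, g₂, v₁, v₂, J, hF, ⟨q1, q2, q3, q4⟩, d1, d2⟩ hs
  · rcases le_total (SG * (u₂ + 2)) (x : ℝ) with c | c
    · exact h1 K u₁ u₂ r1 r2 ⟨p1, p2, p3, c⟩ ⟨g₁, g₂, v₁, v₂, J, hF, ⟨q1, q2, q3, q4⟩, d1, d2⟩ hs
    · exact h2 K u₁ u₂ r1 r2 ⟨p1, p2, c, p4⟩ ⟨g₁, g₂, v₁, v₂, J, hF, ⟨q1, q2, q3, q4⟩, d1, d2⟩ hs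
  · rcases le_total (SG * (g₁ + g₂)) (x : ℝ) with c | c
    · exact h1 K u₁ u₂ r1 r2 ⟨p1, p2, p3, p4⟩ ⟨g₁, g₂, v₁, v₂, J, hF, ⟨q1, c, q3, q4⟩, d1, d2⟩ hs
    · exact h2 K u₁ u₂ r1 r2 ⟨p1, p2, p3, p4⟩ ⟨g₁, g₂, v₁, v₂, J, hF, ⟨c, q2, q3, q4⟩, d1, d2⟩ hs
  · rcases le_total (65536 * g₂) ((x : ℝ) * (g₁ + g₂)) with c | c
    · exact h1 K u₁ u₂ r1 r2 ⟨p1, p2, p3, p4⟩ ⟨g₁, g₂, v₁, v₂, J, hF, ⟨q1, q2, q3, c⟩, d1, d2⟩ hs
    · exact h2 K u₁ u₂ r1 r2 ⟨p1, p2, p3, p4⟩ ⟨g₁, g₂, v₁, v₂, J, hF, ⟨q1, q2, c, q4⟩, d1, d2⟩ hs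

theorem good_of_goodX {G : Gx} {B : Bx} {s : St} (h : GoodX G B s w0 r0) : Good G B s := by
  intro K u₁ u₂ r1 r2 hU hT hs
  obtain ⟨g₁, g₂, v₁, v₂, J, hF, hS⟩ := hT
  exact h K u₁ u₂ r1 r2 hU ⟨g₁, g₂, v₁, v₂, J, hF, hS⟩ hs (w0_ok hF.toFr) (r0_ok hF.iso)

theorem chk_sound {G : Gx} (hS : G.th = 4 ∨ SpinB) {H : List (Bx × Xs)} (hH : AllG G H) (t : Tx)
    {B : Bx} {s : St}
    {w : Wt} {p : Rt} (h : chkX G H t B s w p = true) : GoodX G B s w p := by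
  induction t generalizing B s w p with
  | split ax x l r ihl ihr =>
    have h' : (force x fun x' => forceB (setHi B ax x') (fun B' => chkX G H l B' s w p) &&
        forceB (setLw B ax x') (fun B' => chkX G H r B' s w p)) = true := h
    rw [force_eq, forceB_eq, forceB_eq, Bool.and_eq_true] at h'
    exact good_split ax x (ihl h'.1) (ihr h'.2)
  | br i τ l r ihl ihr =>
    have h' : (Nat.blt i 56 && Nat.ble τ 1048576 &&
        force (upd s.qh i τ) (fun x => chkX G H l B ⟨s.ql, x, s.sl, s.ll, s.vl, s.vh⟩ w p) &&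
        force (upd s.ql i τ) (fun x => chkX G H r B ⟨x, s.qh, s.sl, s.ll, s.vl, s.vh⟩ w p)) = true := h
    rw [force_eq, force_eq, Bool.and_eq_true, Bool.and_eq_true, Bool.and_eq_true, Nat.blt_eq,
      Nat.ble_eq] at h'
    obtain ⟨⟨⟨hi, hτ⟩, hl⟩, hr⟩ := h'
    intro K u₁ u₂ r1 r2 hU hT hs hw hp
    rcases le_or_gt (2 ^ 20 * gauge K (en i)) (τ : ℝ) with c | c
    · exact ihl hl K u₁ u₂ r1 r2 hU hT (setQh_ok hs hi hτ c) hw hp
    · exact ihr hr K u₁ u₂ r1 r2 hU hT (setQl_ok hs hi hτ c) hw hp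
  | bv x l r ihl ihr =>
    have h' : (chkX G H l B ⟨s.ql, s.qh, s.sl, s.ll, s.vl, x⟩ w p &&
        chkX G H r B ⟨s.ql, s.qh, s.sl, s.ll, x, s.vh⟩ w p) = true := h
    rw [Bool.and_eq_true] at h'
    intro K u₁ u₂ r1 r2 hU hT hs hw hp
    rcases le_total (10 ^ 4 * volume.real K) (x : ℝ) with c | c
    · exact ihl h'.1 K u₁ u₂ r1 r2 hU hT
        ⟨⟨hs.bql, hs.bqh, hs.bsl, hs.bll⟩, hs.ql, hs.qh, hs.sl, hs.ll, hs.vl, fun _ => c⟩ hw hp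
    · exact ihr h'.2 K u₁ u₂ r1 r2 hU hT
        ⟨⟨hs.bql, hs.bqh, hs.bsl, hs.bll⟩, hs.ql, hs.qh, hs.sl, hs.ll, c, hs.vh⟩ hw hp
  | bw z τ l r ihl ihr =>
    have h' : (Nat.blt z 56 && Nat.ble τ 524288 &&
        force (upd w.wh z τ) (fun x => chkX G H l B s ⟨w.wl, x⟩ p) &&
        force (upd w.wl z τ) (fun x => chkX G H r B s ⟨x, w.wh⟩ p)) = true := h
    rw [force_eq, force_eq, Bool.and_eq_true, Bool.and_eq_true, Bool.and_eq_true, Nat.blt_eq,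
      Nat.ble_eq] at h'
    obtain ⟨⟨⟨hz, hτ⟩, hl⟩, hr⟩ := h'
    intro K u₁ u₂ r1 r2 hU hT hs hw hp
    by_cases c : ∀ y ∈ K, lin z y ≤ (τ : ℝ)
    · exact ihl hl K u₁ u₂ r1 r2 hU hT hs (updWh_ok hw hz hτ c) hp
    · push Not at c
      obtain ⟨y, hy, c⟩ := c
      exact ihr hr K u₁ u₂ r1 r2 hU hT hs (updWl_ok hw hz ⟨y, hy, c.le⟩) hp
  | bp z m l r ihl ihr =>
    have h' : (Nat.blt z 56 && Nat.blt m 56 &&
        force (upd p.rh z m) (fun x => chkX G H l B s w ⟨p.rl, x⟩) &&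
        force (upd p.rl z m) (fun x => chkX G H r B s w ⟨x, p.rh⟩)) = true := h
    rw [force_eq, force_eq, Bool.and_eq_true, Bool.and_eq_true, Bool.and_eq_true, Nat.blt_eq,
      Nat.blt_eq] at h'
    obtain ⟨⟨⟨hz, hm⟩, hl⟩, hr⟩ := h'
    intro K u₁ u₂ r1 r2 hU hT hs hw hp
    rcases bp_ok hp hz hm with c | c
    · exact ihl hl K u₁ u₂ r1 r2 hU hT hs hw c
    · exact ihr hr K u₁ u₂ r1 r2 hU hT hs hw c
  | ops n d t ih =>
    have h' : (okB B && forceS (ops G B n d s) (fun s' => chkX G H t B s' w p)) = true := h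
    rw [forceS_eq, Bool.and_eq_true] at h'
    intro K u₁ u₂ r1 r2 hU hT hs hw hp
    obtain ⟨g₁, g₂, v₁, v₂, J, hF, hS, d1, d2⟩ := hT
    exact ih h'.2 K u₁ u₂ r1 r2 hU ⟨g₁, g₂, v₁, v₂, J, hF, hS, d1, d2⟩
      (ops_ok h'.1 hF.toFr (rng_of hU hS hF.v1nn hF.v2nn d1 d2) n d hs) hw hp
  | opw n d t ih =>
    have h' : (okB B && forceP (ops2 G B n d s w) (fun s' w' => chkX G H t B s' w' p)) = true := h
    rw [forceP_eq, Bool.and_eq_true] at h'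
    intro K u₁ u₂ r1 r2 hU hT hs hw hp
    obtain ⟨g₁, g₂, v₁, v₂, J, hF, hS, d1, d2⟩ := hT
    have k := ops2_ok h'.1 hF.toFr (rng_of hU hS hF.v1nn hF.v2nn d1 d2) n d hs hw
    exact ih h'.2 K u₁ u₂ r1 r2 hU ⟨g₁, g₂, v₁, v₂, J, hF, hS, d1, d2⟩ k.1 k.2 hp
  | opr n d t ih =>
    have h' : (okB B && forceX (ops3 G B n d s w p) (chkX G H t B)) = true := h
    rw [forceX_eq, Bool.and_eq_true] at h'
    intro K u₁ u₂ r1 r2 hU hT hs hw hp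
    obtain ⟨g₁, g₂, v₁, v₂, J, hF, hS, d1, d2⟩ := hT
    have k := ops3_ok h'.1 hF (rng_of hU hS hF.v1nn hF.v2nn d1 d2) n d hs hw hp
    exact ih h'.2 K u₁ u₂ r1 r2 hU ⟨g₁, g₂, v₁, v₂, J, hF, hS, d1, d2⟩ k.1 k.2.1 k.2.2
  | emp i =>
    have h' : (Nat.blt i 56 && Nat.ble (lane s.qh i) (lane s.ql i) ||
      Nat.blt 0 s.vh && Nat.blt s.vh s.vl) = true := h
    rw [Bool.or_eq_true, Bool.and_eq_true, Bool.and_eq_true, Nat.blt_eq, Nat.ble_eq, lane_eq, lane_eq,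
      Nat.blt_eq, Nat.blt_eq] at h'
    intro K u₁ u₂ _ _ _ _ hs _ _
    rcases h' with h' | h'
    · have h1 : (dg s.qh i : ℝ) ≤ dg s.ql i := by exact_mod_cast h'.2
      exact absurd ((hs.ql i h'.1).trans_le ((hs.qh i h'.1).trans h1)) (lt_irrefl _)
    · have h1 : (s.vh : ℝ) < s.vl := by exact_mod_cast h'.2
      exact absurd (h1.trans_le (hs.vl.trans (hs.vh h'.1.ne'))) (lt_irrefl _)
  | emw z =>
    have h' : (Nat.blt z 56 && Nat.blt (lane w.wh z) (lane w.wl z)) = true := h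
    rw [Bool.and_eq_true, Nat.blt_eq, Nat.blt_eq, lane_eq, lane_eq] at h'
    intro K u₁ u₂ _ _ _ _ _ hw _
    have h1 : (dg w.wh z : ℝ) < dg w.wl z := by exact_mod_cast h'.2
    obtain ⟨y, hy, c⟩ := hw.lo z h'.1
    exact absurd (h1.trans_le (c.trans (hw.hi z h'.1 y hy))) (lt_irrefl _)
  | out a b =>
    have h' : outB G B a b = true := h
    intro K u₁ u₂ _ _ hU hT _ _ _
    obtain ⟨g₁, g₂, v₁, v₂, J, hF, hS, d1, d2⟩ := hT
    exact (out_spec hF.toFr (rng_of hU hS hF.v1nn hF.v2nn d1 d2) h').elim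
  | neg =>
    have h' : (Nat.blt (B.a1 + G.dl) OO || Nat.blt (B.b1 + G.dl) OO) = true := h
    rw [Bool.or_eq_true, Nat.blt_eq, Nat.blt_eq] at h'
    intro K u₁ u₂ _ _ hU hT _ _ _
    obtain ⟨g₁, g₂, v₁, v₂, J, hF, hS, d1, d2⟩ := hT
    rcases h' with c | c
    · exact (neg_abs c hU.2.1 hF.v1nn d1).elim
    · exact (neg_abs c hU.2.2.2 hF.v2nn d2).elim
  | leaf c n d d0 d1 d2 d3 =>
    have h' : (Nat.ble n 63 &&
        force (rows w G.th n d) fun A => leaf G B s (setX c A) d0 d1 d2 d3) = true := h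
    rw [force_eq, Bool.and_eq_true, Nat.ble_eq] at h'
    intro K u₁ u₂ r1 r2 hU hT hs hw hp
    have hK : Iso K ∧ (G.th = 4 ∨ Spin K) := by
      obtain ⟨g₁, g₂, v₁, v₂, J, hF, -⟩ := hT
      exact ⟨hF.iso, hS.imp_right fun h => h _ _ _ _ _ _ hF⟩
    have hn := h'.1
    exact leaf_sound h'.2 r1 r2 hU hT hs (c := setX c (rows w G.th n d))
      (rows_ok hK.1 hw hK.2 hn d) (by omega)
  | hole n =>
    have h' : (match H[n]? with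
      | some h => eqB B h.1 && eqS s h.2.s && eqW w h.2.w && eqR p h.2.r
      | none => false) = true := h
    rcases e : H[n]? with _ | q
    · rw [e] at h'
      exact absurd h' (by simp)
    · rw [e] at h'
      have h2 : (eqB B q.1 && eqS s q.2.s && eqW w q.2.w && eqR p q.2.r) = true := h'
      rw [Bool.and_eq_true, Bool.and_eq_true, Bool.and_eq_true] at h2
      rw [eqB_eq h2.1.1.1, eqS_eq h2.1.1.2, eqW_eq h2.1.2, eqR_eq h2.2]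
      exact allG_get hH e

end Pool.Agent.P.MP_2e1554_gt.Chk
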