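import Pool.Agent.P.MP_2e1554_gt.IsoDec
import Pool.Agent.P.MP_2e1554_gt.IsoQE
import Pool.Agent.P.MP_2e1554_gt.IsoSkew
import Pool.Agent.P.MP_2e1554_gt.IsoTop
import Pool.Agent.P.MP_2e1554_gt.IsoTree

/-! How the pieces of a certificate are put together. -/

open MeasureTheory Set Finset

namespace Pool.Agent.P.MP_2e1554_gt.Chk

def GZ (G : Gx) (h : Bx × ℕ) : Prop := GoodX G h.1 (xs h.2).s (xs h.2).w (xs h.2).r

def AllZ (G : Gx) : List (Bx × ℕ) → Prop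
  | [] => True
  | h :: t => GZ G h ∧ AllZ G t

theorem allG_hs {G : Gx} : ∀ {H : List (Bx × ℕ)}, AllZ G H → AllG G (hs H)
  | [], _ => trivial
  | _ :: _, h => ⟨h.1, allG_hs h.2⟩

theorem cz {G : Gx} (hS : G.th = 4 ∨ SpinB) {H : List (Bx × ℕ)} (hH : AllZ G H) {t : Tx} {h : Bx × ℕ}
    (e : chkZ G H t h = true) : GZ G h := by
  rw [chkZ, chkFQ_eq] at e
  unfold GZ
  generalize xs h.2 = p at e ⊢
  obtain ⟨⟨a, b, c, d, f, g⟩, ⟨u, v⟩, ⟨x, y⟩⟩ := p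
  exact chk_sound hS (allG_hs hH) t ((chkF_eq G (hs H) t h.1 a b c d f g u v x y).symm.trans e)

theorem c0 {G : Gx} (hS : G.th = 4 ∨ SpinB) {H : List (Bx × ℕ)} (hH : AllZ G H) {t : Tx} {B : Bx}
    (e : chk0 G H t B = true) : Good G B st0 := by
  rw [chk0, chkFQ_eq] at e
  exact good_of_goodX (chk_sound hS (allG_hs hH) t
    ((chkF_eq G (hs H) t B QL0 QH0 SL0 LL0 103923 0 WL0 WH0 RL0 RH0).symm.trans e))

def GY (Z : ℕ) (h : Bx × ℕ) : Prop := GZ (hd Z).1 h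
def AllY (Z : ℕ) (H : List (Bx × ℕ)) : Prop := AllZ (hd Z).1 H

theorem y0 {Z : ℕ} : AllY Z [] := trivial
theorem y1 {Z : ℕ} {h : Bx × ℕ} {t : List (Bx × ℕ)} (a : GY Z h) (b : AllY Z t) : AllY Z (h :: t) :=
  ⟨a, b⟩
theorem v0 : AllV [] := trivial
theorem v1 {Z m : ℕ} {t : List (ℕ × ℕ)} (a : AllN Z m) (b : AllV t) : AllV ((Z, m) :: t) := ⟨a, b⟩

theorem cP' (hS : SpinB) {Z : ℕ} {H : List (Bx × ℕ)} {t : Tx} {h : Bx × ℕ}
    (e : PLift (chkP Z H t h = true)) (hH : AllY Z H) : GY Z h := by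
  have h1 := e.down
  rw [chkP, unH_eq] at h1
  exact cz (.inr hS) hH h1

theorem cR' (hS : SpinB) {Z : ℕ} {H : List (Bx × ℕ)} {t : Tx} (e : PLift (chkR Z H t = true))
    (hH : AllY Z H) : AllN Z 1 := by
  intro i hi
  obtain rfl : i = 0 := by omega
  have h1 := e.down
  rw [chkR, unH_eq] at h1
  rw [Nat.mul_zero, Nat.shiftRight_zero]
  exact c0 (.inr hS) hH h1

theorem cL' (hS : SpinB) {L : List Tx} {Z m : ℕ} (e : PLift (chkL L Z m = true)) : AllN Z m := by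
  replace e := e.down
  induction L generalizing Z m with
  | nil =>
    have : Nat.beq m 0 = true := e
    intro i hi
    rw [Nat.beq_eq] at this
    omega
  | cons t L ih =>
    have h : (chkR Z [] t && frc (Z >>> 384) fun Y => force (m - 1) (chkL L Y)) = true := e
    rw [Bool.and_eq_true, frc_eq, force_eq] at h
    intro i hi
    cases i with
    | zero => exact cR' hS ⟨h.1⟩ y0 0 one_pos
    | succ i =>
      have := ih h.2 i (by omega)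
      rwa [← Nat.shiftRight_add, show 384 + 384 * i = 384 * (i + 1) by ring] at this

theorem cT' {H : List (ℕ × ℕ)} {t : Tg} {C : Bx} (e : PLift (chkT 290 H t C = true)) (hH : AllV H) :
    TopOK C := chkT_sound momB290 hH t e.down

theorem sA {t0 t1 f0 f1 a0 x a1 b0 b1 : ℕ} (l : TopOK ⟨t0, t1, f0, f1, a0, x, b0, b1⟩)
    (r : TopOK ⟨t0, t1, f0, f1, x, a1, b0, b1⟩) : TopOK ⟨t0, t1, f0, f1, a0, a1, b0, b1⟩ :=
  top_split 0 x l r
theorem sB {t0 t1 f0 f1 a0 a1 b0 x b1 : ℕ} (l : TopOK ⟨t0, t1, f0, f1, a0, a1, b0, x⟩)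
    (r : TopOK ⟨t0, t1, f0, f1, a0, a1, x, b1⟩) : TopOK ⟨t0, t1, f0, f1, a0, a1, b0, b1⟩ :=
  top_split 1 x l r
theorem sT {t0 x t1 f0 f1 a0 a1 b0 b1 : ℕ} (l : TopOK ⟨t0, x, f0, f1, a0, a1, b0, b1⟩)
    (r : TopOK ⟨x, t1, f0, f1, a0, a1, b0, b1⟩) : TopOK ⟨t0, t1, f0, f1, a0, a1, b0, b1⟩ :=
  top_split 2 x l r
theorem sF {t0 t1 f0 x f1 a0 a1 b0 b1 : ℕ} (l : TopOK ⟨t0, t1, f0, x, a0, a1, b0, b1⟩)
    (r : TopOK ⟨t0, t1, x, f1, a0, a1, b0, b1⟩) : TopOK ⟨t0, t1, f0, f1, a0, a1, b0, b1⟩ :=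
  top_split 3 x l r

end Pool.Agent.P.MP_2e1554_gt.Chk
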