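import Pool.Agent.P.MP_2e1554_gt.IsoCst
import Pool.Agent.P.MP_2e1554_gt.IsoCst2
import Pool.Agent.P.MP_2e1554_gt.IsoCst3
import Pool.Agent.P.MP_2e1554_gt.IsoCst4
import Pool.Agent.P.MP_2e1554_gt.IsoCst6

/-! The executable checker (evaluated by the kernel). -/

namespace Pool.Agent.P.MP_2e1554_gt.Chk

/-- evaluate `n` before calling `k` -/
noncomputable def force {α : Type} (n : ℕ) (k : ℕ → α) : α :=
  Nat.rec (k Nat.zero) (fun m _ => k (Nat.succ m)) n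

def SG : ℕ := 9437184
def OO : ℕ := 18874368
def OFF : ℕ := 4503599627370496
def BE0 : ℕ := 87733206166976
def BE1 : ℕ := 8524179666122
def BEB : ℕ := 100323722062135
def BEK : ℕ := 11982493338
def BET : ℕ := 86734862786455
def BLH : ℕ := 3570723695213
def BLM : ℕ := 50449
def BLJ : ℕ := 56162627541486655557
def CKAP : ℕ := 4233817999219019081727688

/-! ### lanes -/

def lane (X i : ℕ) : ℕ := Nat.land (Nat.shiftRight X (Nat.mul 64 i)) 18446744073709551615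
def low (n X : ℕ) : ℕ := X &&& (2 ^ (64 * n) - 1)
def upd (X i v : ℕ) : ℕ := X - lane X i <<< (64 * i) + v <<< (64 * i)
def lsub (H X Y : ℕ) : ℕ :=
  let Z := X + H - Y
  Z &&& ((Z &&& H) >>> 63 * 9223372036854775807)
def lmax (H X Y : ℕ) : ℕ := Y + lsub H X Y
def lge (H X Y : ℕ) : ℕ := ((X + H - Y) &&& H) >>> 63 * 18446744073709551615
def rotL (n X : ℕ) : ℕ := low n (X <<< 64) + X >>> (64 * (n - 1))
def rotR (n X : ℕ) : ℕ := X >>> 64 + low 1 X <<< (64 * (n - 1))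
noncomputable def rev (X n : ℕ) : ℕ :=
  Nat.rec 0 (fun i ih => Nat.add ih (Nat.shiftLeft (lane X i) (Nat.mul 64 (Nat.sub 55 i)))) n
def spread (X : ℕ) : ℕ := low 28 X * C20 + (X >>> 1792 * C20) <<< 35840
def kron (W A B : ℕ) : ℕ := low 28 W * A + (W >>> 1792 * B) <<< 35840
def fma (acc c T : ℕ) : ℕ := bif Nat.beq c 0 then acc else acc + c * T

/-! ### the table of the potential at a vertex -/

def nw (Q g : ℕ) : ℕ := Nat.shiftRight (Nat.add g (Nat.div Q g)) 1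
def newt (Q g : ℕ) : ℕ := Nat.div (Nat.mul (Nat.mul 2 g) Q) (Nat.add (Nat.mul g g) Q)
def xrow (aZ cB GP GM BV k : ℕ) : ℕ :=
  GP * (4 * (15 + k) * (15 + k) - 1) + BV * (9216 * (15 + k)) +
    (OFF + aZ - cB * (9216 * (15 + k))) * O56 - GM * (4 * (15 + k) * (15 + k))
def yrow (aY cB BV k : ℕ) : ℕ :=
  BV * (72 * (15 + k)) + (8796093022208 + aY - cB * (72 * (15 + k))) * O56
noncomputable def cat (f : ℕ → ℕ) (n : ℕ) : ℕ := Nat.rec 0 (fun k ih => ih + f k <<< (3584 * k)) n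
def K22 : ℕ := 4194303 * O1120
def K37 : ℕ := 137438953471 * O1120
def K39 : ℕ := 549755813887 * O1120
def KOF : ℕ := 4503599627370496 * O1120
def KN1 : ℕ := 1146617856 * O1120 + H1120
def KN2 : ℕ := 1146617857 * O1120
def KN3 : ℕ := 4809263859892224 * O1120
def sq3 (ih : ℕ → ℕ → ℕ → ℕ) (j Y W R A t M k : ℕ) : ℕ :=
  ih (W - (t &&& k)) (R + M >>> (63 - j)) (A + (Y <<< j &&& k))
def sq2 (ih : ℕ → ℕ → ℕ → ℕ) (j Y W R A t M : ℕ) : ℕ := sq3 ih j Y W R A t M (M - M >>> 63)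
def sq1 (ih : ℕ → ℕ → ℕ → ℕ) (j Y W R A t : ℕ) : ℕ := sq2 ih j Y W R A t ((W - t) &&& H1120)
/-- square roots `r` bit by bit in all lanes; the result is `r y + p r² - 2^43 r` -/
noncomputable def sqL (p Q Y n : ℕ) : ℕ → ℕ → ℕ → ℕ :=
  Nat.rec (motive := fun _ => ℕ → ℕ → ℕ → ℕ) (fun W R A => lsub H1120 (A + p * (Q - W)) (R <<< 43))
    (fun j ih W R A => sq1 ih j Y W R A (R <<< (j + 1) + O1120 <<< (2 * j))) n
def dv2 (E S M : ℕ) : ℕ := S - (E &&& (M - M >>> 63))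
def dv1 (F E S : ℕ) : ℕ := dv2 E S ((S + F) &&& H1120)
/-- division bit by bit in all lanes -/
noncomputable def dvL (F E n : ℕ) : ℕ := Nat.rec KN3 (fun _ ih => dv1 F E (ih <<< 1)) n
noncomputable def ut3 (D E : ℕ) : ℕ := ((dvL (H1120 - E) (E - O1120) 21 &&& K22) + O1120) <<< 19 +
  ((KN1 - D) &&& H1120) >>> 63 * 1124800395214848
noncomputable def ut2 (D : ℕ) : ℕ := ut3 D (lmax H1120 D KN2 <<< 22)
noncomputable def ut1 (p Q Y : ℕ) : ℕ := ut2 (sqL p Q Y 19 Q 0 0 >>> 24 &&& K39)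
noncomputable def utab (p X Y : ℕ) : ℕ := ut1 p ((lsub H1120 X KOF >>> 12 &&& K37) + H1120) Y
def urow (U k : ℕ) : ℕ := low 56 (U >>> (3584 * k))
noncomputable def erow (U : ℕ → ℕ) (k : ℕ) : ℕ :=
  force (k + 1) fun k1 => lsub H56 (lsub H56 (U k) (U k1) * (31 + 2 * k)) (U k1)
noncomputable def trow (U : ℕ → ℕ) (k : ℕ) : ℕ :=
  4 * (15 + k) * (15 + k) * U k + lmax H56 (bif Nat.beq k 0 then 0 else force (k - 1) (erow U))
    (bif Nat.beq k 19 then 0 else erow U k)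
noncomputable def tabl (U : ℕ → ℕ) (n : ℕ) : ℕ :=
  Nat.rec 0 (fun k ih => force k fun k' =>
    ih + low 28 (trow U k') <<< (1792 * k') + (trow U k' >>> 1792) <<< (1792 * (39 - k'))) n
noncomputable def mkT (g1 g2 v1 v2 : ℕ) : ℕ :=
  let aZ := (5 * SG - g1 - g2) * 1327104
  let p := newt aZ (nw aZ (nw aZ (nw aZ 6000000))) - 1 + 1
  let cB := 96 * SG + 24 * (v1 + v2)
  let BV := v1 * EXP + v2 * EYP + OE
  tabl (urow (utab p (cat (xrow aZ cB (g1 * XP + g2 * YP) (g1 * XM + g2 * YM) BV) 20)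
    (cat (yrow ((5 * SG - g1 - g2) * 20736) cB BV) 20))) 20
def adf (a b : ℕ) : ℕ := a - b + (b - a)
def jI (g1 g2 v1 v2 : ℕ) : ℕ :=
  (5 * SG - g1 - g2) * g1 * g2 - (adf v1 OO * adf v1 OO * g2 + adf v2 OO * adf v2 OO * g1)
def jR (g1 g2 v1 v2 : ℕ) : ℕ :=
  let J := jI g1 g2 v1 v2
  newt J (nw J (nw J (nw J (nw J (nw J (2 ^ (Nat.log2 J / 2 + 1)))))))

def nI (g1 g2 v1 v2 : ℕ) : ℕ := (5 * SG - g1 - g2) * (5 * SG - g1 - g2) + g1 * g1 + g2 * g2 +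
  2 * (adf v1 OO * adf v1 OO + adf v2 OO * adf v2 OO)
def be0 (g1 g2 v1 v2 : ℕ) : ℕ := BE0 - (BE0 - (BEB - (BEK * nI g1 g2 v1 v2 / 1099511627776 + 1)))
def be2 (th g1 g2 v1 v2 : ℕ) : ℕ :=
  (bif Nat.beq th 2 then BET + BLH - (BLJ * (g1 * g2) / jI g1 g2 v1 v2 + 1) else BET) -
    BLM * (11 * SG - 5 * (g1 + g2))
/-! the multiplier of a cell is packed in `th` -/
def pK (th : ℕ) : ℕ := th / 8 % 16
def pY1 (th : ℕ) : ℕ := th / 128 % 32
def pY2 (th : ℕ) : ℕ := th / 4096 % 32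
def pJ (th : ℕ) : ℕ := th / 131072 % 32
def pN (th : ℕ) : ℕ := th / 4194304
def zq0 (a : ℕ) : ℕ := 16384 + 128 * a + a * a
def zq1 (a : ℕ) : ℕ := 16384 + 256 * a + 3 * (a * a)
def zqd (a : ℕ) : ℕ := 268435456 + 8388608 * a + 163840 * (a * a) + 512 * (a * a * a) + a * a * (a * a)
def zqe (a : ℕ) : ℕ := 16384 + 512 * a + a * a
def zqs (a : ℕ) : ℕ :=
  a * a * (805306368 + 25165824 * a + 360448 * (a * a) + 2560 * (a * a * a) + 3 * (a * a * (a * a)))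
def zqr (a : ℕ) : ℕ := a * a * a * (128 + a)
def pGA (th : ℕ) : ℕ := 131072000 * (1536 + pN th) * zqs (pJ th) * (zq0 (pJ th) * zq0 (pJ th)) /
  (89445 * (zqd (pJ th) * zqd (pJ th) * zqe (pJ th)))
def pGB (th : ℕ) : ℕ := 515396075520 *
  (zqs (pJ th) * zq0 (pJ th) * zq1 (pJ th) - zqr (pJ th) * zqd (pJ th) * zqe (pJ th)) /
    (zqd (pJ th) * zqd (pJ th) * zqe (pJ th)) + 1
def kK (th : ℕ) : ℕ := bif Nat.beq (th % 8) 1 then 8 * pK th else pK th
def kY1 (th : ℕ) : ℕ := bif Nat.beq (th % 8) 1 then pY1 th else th / 128 % 256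
def kY2 (th : ℕ) : ℕ := bif Nat.beq (th % 8) 1 then pY2 th else th / 32768
def kGB (th : ℕ) : ℕ := bif Nat.beq (th % 8) 1 then pGB th else 0
/-- the two sides of the constant of the row at a vertex -/
def cA1 (th g1 g2 : ℕ) : ℕ := 128 * kK th * (4096 * (5 * SG - g1 - g2) + g1 * (kY1 th * kY1 th) +
  g2 * (kY2 th * kY2 th) + 128 * OO * (kY1 th + kY2 th) + kGB th)
def cB1 (th v1 v2 : ℕ) : ℕ := 128 * kK th * (128 * (v1 * kY1 th + v2 * kY2 th) + 64424509440)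
def slpT (th g1 : ℕ) : ℕ := BE1 + pK th * pGA th * g1
/-- the slope at a vertex -/
def beM (th g1 g2 v1 v2 : ℕ) : ℕ :=
  bif Nat.beq th 1 then BE0 else be0 g1 g2 v1 v2 - (be0 g1 g2 v1 v2 - be2 th g1 g2 v1 v2)

/-! ### data -/

/-- vertex, `δ`, and `θ` (`θ ≥ 3`: the case is impossible) -/
structure Gx where (g1 g2 dl th : ℕ)
/-- star rectangle and cell of `u` -/
structure Bx where (t0 t1 f0 f1 a0 a1 b0 b1 : ℕ)
structure St where (ql qh sl ll vl vh : ℕ)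
structure Cm where (om b1p b1q b2p b2q ka ya yb xa mu : ℕ)
structure Vd where (p0 q0 p1 q1 p2 q2 p3 q3 p4 q4 p5 q5 al be : ℕ)
structure Lf where (FM M0 M1 M2 M3 M4 M5 qhr qlr vl vh PC NC EP EN KP KN RP XK MS KX : ℕ)

def okB (B : Bx) : Bool :=
  Nat.beq (B.t0 * B.f0 % 65536) 0 && Nat.beq (B.t0 * B.f1 % 65536) 0 &&
    Nat.beq (B.t1 * B.f0 % 65536) 0 && Nat.beq (B.t1 * B.f1 % 65536) 0 &&
      Nat.ble B.f0 65536 && Nat.ble B.f1 65536
def cg2 (t f : ℕ) : ℕ := t * f / 65536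
def cg1 (t f : ℕ) : ℕ := t - cg2 t f
def all4 (B : Bx) (P : ℕ → ℕ → ℕ → Bool) : Bool :=
  P B.t0 (cg1 B.t0 B.f0) (cg2 B.t0 B.f0) && P B.t0 (cg1 B.t0 B.f1) (cg2 B.t0 B.f1) &&
    P B.t1 (cg1 B.t1 B.f0) (cg2 B.t1 B.f0) && P B.t1 (cg1 B.t1 B.f1) (cg2 B.t1 B.f1)
def vlo (G : Gx) (a : ℕ) : ℕ := a - (OO + G.dl)
def vhi (G : Gx) (a : ℕ) : ℕ := a + G.dl - OO

/-! ### the test at a vertex of a leaf -/

def bar (H M n : ℕ) : ℕ := bif Nat.beq M 0 then H else H ^^^ ((H ^^^ H >>> n) &&& M)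
def sfx (S n : ℕ) : ℕ := lmax H560 S (S >>> n)
def fold (H n Y : ℕ) : ℕ := lmax H (low n Y) (Y >>> (64 * n))
def pairs (L : Lf) (Z : ℕ) : ℕ :=
  let S := sfx (sfx (sfx (sfx (sfx (Z >>> 35840) 1792) 3584) 7168) 14336) 28672
  let H := bar (bar (bar (bar (bar (bar (S <<< 34048 + low 28 S * C19) L.M5 57344) L.M4 28672)
    L.M3 14336) L.M2 7168) L.M1 3584) L.M0 1792
  lsub H28 (fold H28 28 (fold H56 56 (fold H84 84 (fold H140 140 (fold H280 280
    (low 560 Z + low 560 H)))))) BAS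
def wP (al be : ℕ) : ℕ := kron (lsub H56 be al) PUA PUB
def wN (al be : ℕ) : ℕ := kron (lsub H56 al be) PLA PLB
def gA (al : ℕ) : ℕ := 12 * (rotL 56 al + rotR 56 al) + 48 * al
def gB (be : ℕ) : ℕ := 72 * be - (be &&& CM)
def nP (al be qhr : ℕ) : ℕ := lane (lsub H56 (gA al) (gB be) * qhr) 55
def nN (al be qlr : ℕ) : ℕ := lane (lsub H56 (gB be) (gA al) * qlr) 55
def six (acc c0 c1 c2 c3 c4 c5 T0 T1 T2 T3 T4 T5 : ℕ) : ℕ :=
  fma (fma (fma (fma (fma (fma acc c0 T0) c1 T1) c2 T2) c3 T3) c4 T4) c5 T5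
def errS (P : ℕ) : ℕ :=
  let N := lsub H1120 (2 * P) (P >>> 1792 + low 1120 (P <<< 1792)) >>> 8 &&& MD
  (N + (N &&& MA) <<< 1792 + (N &&& MB) >>> 1792 + O1120) * 43
def errX (A B a b p3 q3 p4 q4 p5 q5 : ℕ) : ℕ :=
  lsub H1120 (fma (fma (fma (fma A ((a - b) * 1073741824) O1120) q3 YU3) q4 YU4) q5 YU5)
    (fma (fma (fma (fma B ((b - a) * 1073741824) O1120) p3 YL3) p4 YL4) p5 YL5)
noncomputable def vtx (G : Gx) (c : Cm) (L : Lf) (v1 v2 : ℕ) (d : Vd) : Bool :=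
  force (d.al &&& M31) fun al => force (d.be &&& M31) fun be =>
  let KP := L.KP + (d.p0 + d.p1 + d.p2 + d.p3 + d.p4 + d.p5)
  let KN := L.KN + (d.q0 + d.q1 + d.q2 + d.q3 + d.q4 + d.q5)
  let om := !Nat.beq c.om 0
  let th := om && Nat.beq (G.th % 8) 1
  let T := bif om then mkT G.g1 G.g2 v1 v2 &&& L.FM else 0
  let P := six (L.PC + wP al be) d.q0 d.q1 d.q2 d.q3 d.q4 d.q5 TU0 TU1 TU2 TU3 TU4 TU5 -
    six (L.NC + wN al be) d.p0 d.p1 d.p2 d.p3 d.p4 d.p5 TL0 TL1 TL2 TL3 TL4 TL5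
  let Z := lsub H1120 (P + errS P + errX L.EP L.EN (L.KP + (d.p3 + d.p4 + d.p5))
    (L.KN + (d.q3 + d.q4 + d.q5)) d.p3 d.q3 d.p4 d.q4 d.p5 d.q5 + T) L.KX &&& L.FM
  let C := pairs L Z
  let eP := SG * (d.p0 + d.p3 + d.p4 + L.XK) + 2 * (c.b1q * v1 + c.b2q * v2 + OO * (c.b1p + c.b2p))
  let eM := SG * (d.q0 + d.q3 + d.q4) + 2 * (c.b1p * v1 + c.b2p * v2 + OO * (c.b1q + c.b2q)) +
    (bif om then beM (G.th % 8) G.g1 G.g2 v1 v2 else 0) + (bif th then slpT G.th G.g1 else 0)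
  Nat.ble (KP + KN) 268435456 && Nat.ble (G.g1 + G.g2) 31457280 && Nat.ble v1 37748736 &&
    Nat.ble v2 37748736 && (!om || Nat.ble (G.th % 8) 2) && (!th || Nat.blt 0 (jR G.g1 G.g2 v1 v2)) &&
    (!(om && Nat.beq (G.th % 8) 2) || Nat.blt (SG * (G.g1 * G.g2)) (4 * jI G.g1 G.g2 v1 v2)) &&
    (Nat.ble eP eM || Nat.blt 0 L.vh) && Nat.beq (T &&& HI56) 0 && Nat.beq (Z &&& HI61) 0 &&
    Nat.beq (C &&& HI59) 0 &&
    Nat.blt
      (2560000 * (648 * (56493153725735501824 + C % 18446744073709551615 + 60129542144 * (KP + 30)) +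
          144 * (nP al be L.qhr + L.MS)) +
        9216 * (10000 * (256 * ((bif th then CKAP / jR G.g1 G.g2 v1 v2 + 1 else 0) +
          (bif om then cA1 G.th G.g1 G.g2 else 0)) + c.ka * L.RP) +
          256 * ((eP - eM) * L.vh)))
      (2560000 * (648 * (64563604257983430656 + 60129542144 * KN) + 144 * nN al be L.qlr) +
        9216 * (10000 * (c.ka * (32 * (v1 * c.ya + v2 * c.yb) + 4026531840) +
          256 * (bif om then cB1 G.th v1 v2 else 0)) +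
          256 * ((eM - eP) * L.vl)))
def bitM (D b : ℕ) : ℕ := (D >>> b &&& O28) * 18446744073709551615 * C39
def cdn (b g : ℕ) : ℕ := b * g / SG
def rq (c : Cm) (t f : ℕ) : ℕ :=
  (5 * SG - t) * 256 + cg1 t f * (c.ya * c.ya) + cg2 t f * (c.yb * c.yb)
/-- net positive and negative parts of a row -/
def xP (A : ℕ) : ℕ := lsub H11 (low 11 A) (low 11 (A >>> 704))
def xQ (A : ℕ) : ℕ := lsub H11 (low 11 (A >>> 704)) (low 11 A)
/-- integer coefficients of the eleven monomials of degree at least three, in lanes -/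
def cv (b1 b2 g1 g2 X : ℕ) : ℕ :=
  (X >>> 12 &&& M52) + (cdn b1 g1 % 1073741824 + (cdn b2 g1 % 1073741824) <<< 64 +
    (cdn b1 g2 % 1073741824) <<< 128 + (cdn b2 g2 % 1073741824) <<< 192)
def elv (acc X T0 T1 T2 T3 T4 T5 T6 T7 T8 T9 T10 : ℕ) : ℕ :=
  fma (fma (fma (fma (fma (six acc (lane X 0) (lane X 1) (lane X 2) (lane X 3) (lane X 4) (lane X 5)
    T0 T1 T2 T3 T4 T5) (lane X 6) T6) (lane X 7) T7) (lane X 8) T8) (lane X 9) T9) (lane X 10) T10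
noncomputable def nuW (m : ℕ) : ℕ :=
  low 56 (m >>> 1792 <<< 2688) + m >>> 2688 + rev (m >>> 1792) 56 >>> 832
noncomputable def muW (m : ℕ) : ℕ := low 28 m + low 28 m <<< 1792 + nuW m
def hiW (SM : ℕ) : ℕ :=
  let P := (lge H1120 PBq (spread SM) &&& O1120) * C20
  low 28 (P >>> 34048) + low 28 (P >>> 69888) <<< 1792
def lmW (ll : ℕ) : ℕ :=
  let K := low 28 (ll >>> 8960)
  lsub H28 (64 * O28) (lmax H28 K (low 28 (K <<< 64))) >>> 64 <<< 1856
noncomputable def kqW (ll HI : ℕ) : ℕ :=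
  let R := rev HI 56
  let A := lsub H56 (nuW (lmW ll)) (low 56 (R <<< 1856) + R >>> 1728)
  A - lsub H56 A (lsub H56 HI O56)
def bmul (N Q b : ℕ) : ℕ := (N &&& (Q >>> b &&& O56) * 18446744073709551615) <<< b
def kx2 (N Q : ℕ) : ℕ := lsub H1120
  (spread ((bmul N Q 0 + bmul N Q 1 + bmul N Q 2 + bmul N Q 3 + bmul N Q 4) <<< 20)) (kron N KKA KKB)
noncomputable def kinkX (ll SM m : ℕ) : ℕ := kx2 (nuW m) (kqW ll (hiW SM))
def muQ (ll : ℕ) : ℕ := low 28 (ll >>> 1792) + rotL 28 (low 28 (ll >>> 3584)) +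
  (low 28 (ll >>> 5376) + low 28 (ll >>> 7104)) <<< 1792
noncomputable def muT (m : ℕ) : ℕ := kron (muW m) MUA MUB
noncomputable def muS (m ll : ℕ) : ℕ := 864 * lane (m * rev (muQ ll) 56) 55
noncomputable def mkL (G : Gx) (B : Bx) (s : St) (c : Cm) : Lf :=
  let QM := lmax H56 (lmax H56 (rotL 56 s.qh) (rotR 56 s.qh)) s.qh
  let SM := s.sl - lsub H56 s.sl (rotL 56 s.sl)
  let D := D38 - lmax H28 (low 28 s.ll) (rotL 28 (low 28 s.ll))
  let CP := cv c.b1p c.b2p G.g1 G.g2 (xP c.xa)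
  let CQ := cv c.b1q c.b2q G.g1 G.g2 (xQ c.xa)
  { FM := lge H1120 (spread QM) PAq &&& lge H1120 PBq (spread SM)
    M0 := bitM D 0, M1 := bitM D 1, M2 := bitM D 2, M3 := bitM D 3, M4 := bitM D 4, M5 := bitM D 5
    qhr := rev s.qh 56, qlr := rev s.ql 56, vl := s.vl, vh := s.vh
    PC := elv OFV CQ TU6 TU7 TU8 TU9 TU10 TU11 TU12 TU13 TU14 TU15 TU16
    NC := elv (muT (c.mu &&& N31)) CP TL6 TL7 TL8 TL9 TL10 TL11 TL12 TL13 TL14 TL15 TL16
    EP := elv 0 CQ YU6 YU7 YU8 YU9 YU10 YU11 YU12 YU13 YU14 YU15 YU16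
    EN := elv 0 CP YL6 YL7 YL8 YL9 YL10 YL11 YL12 YL13 YL14 YL15 YL16
    KP := CP % 18446744073709551615
    KN := CQ % 18446744073709551615
    RP := max (max (rq c B.t0 B.f0) (rq c B.t0 B.f1)) (max (rq c B.t1 B.f0) (rq c B.t1 B.f1)) +
      32 * ((OO + G.dl) * (c.ya + c.yb))
    XK := (lane c.xa 22 + 4095) >>> 12
    MS := muS (c.mu &&& N31) s.ll
    KX := kinkX s.ll SM (c.mu &&& N31) }
noncomputable def leaf (G : Gx) (B : Bx) (s : St) (c : Cm) (d0 d1 d2 d3 : Vd) : Bool :=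
  let L := mkL G B s c
  okB B && Nat.ble (c.b1p + c.b1q + c.b2p + c.b2q) 268435456 && vtx G c L B.a0 B.b0 d0 &&
    vtx G c L B.a0 B.b1 d1 && vtx G c L B.a1 B.b0 d2 && vtx G c L B.a1 B.b1 d3

/-! ### operations on the state -/

def ex (i : ℕ) : ℤ := Int.subNatNat (EXL >>> (8 * i) % 256) 24
def ey (i : ℕ) : ℤ := Int.subNatNat (EYL >>> (8 * i) % 256) 24
def det (i j : ℕ) : ℤ := ex i * ey j - ey i * ex j
def nn (x : ℤ) : Bool := Nat.beq (-x).toNat 0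
def sq (x : ℤ) : ℕ := x.natAbs * x.natAbs
def hull (qh l j m : ℕ) : ℕ :=
  let n := ((det l m).toNat * lane qh j + (det j l).toNat * lane qh m) / (det j m).toNat + 1
  bif Nat.blt 0 (det j m).toNat && nn (det l m) && nn (det j l) && Nat.blt n (lane qh l) then
    upd qh l n else qh
def odet (o : Bool) (a b : ℕ) : ℤ := bif o then det b a else det a b
def shad1 (s : St) (o : Bool) (a j l : ℕ) : ℕ :=
  bif nn (odet o a j) then
    ((odet o a l).toNat * lane s.ql j - (odet o a j).toNat * lane s.qh l) / (odet o j l).toNat else 0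
noncomputable def shad (s : St) (o sec : Bool) (i j l : ℕ) : ℕ :=
  bif sec then force (i + 1) fun i1 => min (shad1 s o i j l) (shad1 s o i1 j l) else shad1 s o i j l
/-- lower bound for `15 - R` at the point `(fx,fy)/S`, `S = 24·2^20`, scale `SG·S²` -/
def eLow (G : Gx) (B : Bx) (fx fy : ℤ) (t g1 g2 : ℕ) : ℕ :=
  (59767450798818947235840 + 50331648 * (vlo G B.a0 * (-fx).toNat + vlo G B.b0 * (-fy).toNat) +
    t * 633318697598976) -
  (50331648 * (vhi G B.a1 * fx.toNat + vhi G B.b1 * fy.toNat) + (g1 * sq fx + g2 * sq fy))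
/-- `(G(d) - G(δ)/4)(15 - R(f))` exceeds the chord constant; `d, δ` at scale `24·2^16` -/
def ge (G : Gx) (B : Bx) (fl : Bool) (dx dy δx δy fx fy : ℤ) : Bool :=
  all4 B fun t g1 g2 =>
    Nat.blt ((bif fl then 40001 else 40821) * 558148152342069314695800199839957808840704)
      (100 * ((4 * (g1 * sq dx + g2 * sq dy) - (g1 * sq δx + g2 * sq δy)) * eLow G B fx fy t g1 g2)) &&
    (!fl || Nat.ble 292860508914212841455616 (4 * eLow G B fx fy t g1 g2))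
/-- `15 < R(f) - G(δ)/4`; `f, δ` at scale `S` -/
def rd (G : Gx) (B : Bx) (fx fy δx δy : ℤ) : Bool :=
  all4 B fun t g1 g2 =>
    Nat.blt (4 * (59767450798818947235840 + t * 633318697598976 +
        50331648 * (vhi G B.a1 * (-fx).toNat + vhi G B.b1 * (-fy).toNat)) + (g1 * sq δx + g2 * sq δy))
      (4 * (50331648 * (vlo G B.a0 * fx.toNat + vlo G B.b0 * fy.toNat) + (g1 * sq fx + g2 * sq fy)))
def chord1 (G : Gx) (B : Bx) (fl : Bool) (a z u : ℤ) (j b : ℕ) (δx δy : ℤ) : Bool :=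
  ge G B fl (a * ex j - z * ex b) (a * ey j - z * ey b) δx δy
    ((16 - u) * (a * ex j) + u * (z * ex b)) ((16 - u) * (a * ey j) + u * (z * ey b))
noncomputable def chord (G : Gx) (B : Bx) (s : St) (fl sec : Bool) (i j u τ : ℕ) : Bool :=
  let a : ℤ := Int.ofNat (68719476736 / lane s.qh j)
  let z : ℤ := Int.ofNat (68719476736 / τ)
  bif sec then force (i + 1) fun i1 =>
    chord1 G B fl a z (Int.ofNat u) j i (z * (ex i1 - ex i)) (z * (ey i1 - ey i)) &&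
      chord1 G B fl a z (Int.ofNat u) j i1 (z * (ex i1 - ex i)) (z * (ey i1 - ey i))
  else chord1 G B fl a z (Int.ofNat u) j i 0 0
noncomputable def rad (G : Gx) (B : Bx) (sec : Bool) (i τ : ℕ) : Bool :=
  let z : ℤ := Int.ofNat (68719476736 / τ * 16)
  bif sec then force (i + 1) fun i1 =>
    rd G B (z * ex i) (z * ey i) (z * (ex i1 - ex i)) (z * (ey i1 - ey i)) &&
      rd G B (z * ex i1) (z * ey i1) (z * (ex i1 - ex i)) (z * (ey i1 - ey i))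
  else rd G B (z * ex i) (z * ey i) 0 0
noncomputable def pairL (G : Gx) (B : Bx) (fl sg : Bool) (i L u : ℕ) : Bool :=
  let z : ℤ := Int.ofNat ((30 + L) * 65536 / 12)
  let t : ℤ := bif sg then -Int.ofNat (u * 16384) else Int.ofNat (u * 16384)
  force (i + 1) fun i1 =>
    ge G B fl (z * ex i) (z * ey i) (z * (ex i1 - ex i)) (z * (ey i1 - ey i)) (t * ex i) (t * ey i) &&
      ge G B fl (z * ex i1) (z * ey i1) (z * (ex i1 - ex i)) (z * (ey i1 - ey i)) (t * ex i1) (t * ey i1)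
def raise (X i τ : ℕ) : ℕ := bif Nat.blt (lane X i) τ then upd X i τ else X
noncomputable def setLo (s : St) (sec : Bool) (i τ : ℕ) : St :=
  bif sec then force (raise s.sl i τ) fun x => ⟨s.ql, s.qh, x, s.ll, s.vl, s.vh⟩
  else force (raise s.ql i τ) fun x => ⟨x, s.qh, s.sl, s.ll, s.vl, s.vh⟩
noncomputable def op (G : Gx) (B : Bx) (s : St) (kd i j l u τ : ℕ) (sec fl sg : Bool) : St :=
  bif Nat.beq kd 0 then force (hull s.qh i j l) fun x => ⟨s.ql, x, s.sl, s.ll, s.vl, s.vh⟩ else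
  bif Nat.beq kd 1 then setLo s sec i (shad s fl sec i j l) else
  bif Nat.beq kd 2 then bif chord G B s fl sec i j u τ then setLo s sec i τ else s else
  bif Nat.beq kd 3 then bif rad G B sec i τ then setLo s sec i τ else s else
  bif Nat.beq kd 4 then setLo s false i (max (lane s.sl i) (lane s.sl ((i + 55) % 56))) else
  bif Nat.blt i 28 && Nat.blt l (lane s.ll i) && pairL G B fl sg i l u then
    force (upd s.ll i l) fun x => ⟨s.ql, s.qh, s.sl, x, s.vl, s.vh⟩ else s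
noncomputable def opW (G : Gx) (B : Bx) (s : St) (w : ℕ) : St :=
  force (w >>> 3 % 64 % 56) fun i => force (w >>> 10 % 64 % 56) fun j =>
    force (w >>> 16 % 64 % 56) fun l =>
      op G B s (w % 8) i j l (w >>> 24 % 256) (w >>> 32 % 2097152) (Nat.beq (w >>> 9 % 2) 1)
        (Nat.beq (w >>> 22 % 2) 1) (Nat.beq (w >>> 23 % 2) 1)
noncomputable def forceS {α : Type} (s : St) (k : St → α) : α :=
  St.rec (fun a b c d e f => k ⟨a, b, c, d, e, f⟩) s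
noncomputable def ops (G : Gx) (B : Bx) (n : ℕ) : ℕ → St → St :=
  Nat.rec (motive := fun _ => ℕ → St → St) (fun _ s => s)
    (fun _ ih d s => forceS (opW G B s (low 1 d)) fun s' => force (d >>> 64) fun d' => ih d' s') n

/-! ### trees -/

def outB (G : Gx) (B : Bx) (a b : ℕ) : Bool :=
  okB B && all4 B fun t g1 g2 => Nat.blt 239069803195275788943360
    (3 * eLow G B (-Int.ofNat (a * 1572864)) (-Int.ofNat (b * 1572864)) t g1 g2)
noncomputable def setHi (B : Bx) (ax x : ℕ) : Bx :=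
  Bx.rec (fun t0 t1 f0 f1 a0 a1 b0 b1 =>
    bif Nat.beq ax 0 then ⟨t0, t1, f0, f1, a0, x, b0, b1⟩ else
    bif Nat.beq ax 1 then ⟨t0, t1, f0, f1, a0, a1, b0, x⟩ else
    bif Nat.beq ax 2 then ⟨t0, x, f0, f1, a0, a1, b0, b1⟩ else ⟨t0, t1, f0, x, a0, a1, b0, b1⟩) B
noncomputable def setLw (B : Bx) (ax x : ℕ) : Bx :=
  Bx.rec (fun t0 t1 f0 f1 a0 a1 b0 b1 =>
    bif Nat.beq ax 0 then ⟨t0, t1, f0, f1, x, a1, b0, b1⟩ else
    bif Nat.beq ax 1 then ⟨t0, t1, f0, f1, a0, a1, x, b1⟩ else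
    bif Nat.beq ax 2 then ⟨x, t1, f0, f1, a0, a1, b0, b1⟩ else ⟨t0, t1, x, f1, a0, a1, b0, b1⟩) B
noncomputable def forceB {α : Type} (B : Bx) (k : Bx → α) : α :=
  Bx.rec (fun t0 t1 f0 f1 a0 a1 b0 b1 => k ⟨t0, t1, f0, f1, a0, a1, b0, b1⟩) B
def eqB (B C : Bx) : Bool :=
  Nat.beq B.t0 C.t0 && Nat.beq B.t1 C.t1 && Nat.beq B.f0 C.f0 && Nat.beq B.f1 C.f1 &&
    Nat.beq B.a0 C.a0 && Nat.beq B.a1 C.a1 && Nat.beq B.b0 C.b0 && Nat.beq B.b1 C.b1
def eqS (s r : St) : Bool :=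
  Nat.beq s.ql r.ql && Nat.beq s.qh r.qh && Nat.beq s.sl r.sl && Nat.beq s.ll r.ll &&
    Nat.beq s.vl r.vl && Nat.beq s.vh r.vh

/-- the initial state -/
def st0 : St := ⟨QL0, QH0, SL0, LL0, 103923, 0⟩

end Pool.Agent.P.MP_2e1554_gt.Chk
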