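import Pool.Agent.P.MP_2e1554_gt.IsoChkX

/-! The chord test at the four corners of a box at once; lanes of `256` bits at the places `0, 1, 3, 4`. -/

namespace Pool.Agent.P.MP_2e1554_gt.Chk

def sdF (P M : ℕ) : ℕ :=
    (Nat.mul (Nat.add (Nat.sub P M) (Nat.sub M P)) (Nat.add (Nat.sub P M) (Nat.sub M P)))
def eX (i : ℕ) : ℕ :=
    (Nat.mod (Nat.shiftRight EXL (Nat.mul (nat_lit 8) i)) (nat_lit 256))
def eY (i : ℕ) : ℕ :=
    (Nat.mod (Nat.shiftRight EYL (Nat.mul (nat_lit 8) i)) (nat_lit 256))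
def pk4 (a b c d : ℕ) : ℕ :=
    (Nat.add (Nat.add (Nat.add a (Nat.shiftLeft b (nat_lit 256))) (Nat.shiftLeft c (nat_lit 768)))
    (Nat.shiftLeft d (nat_lit 1024)))
def O4 : ℕ := pk4 1 1 1 1
def H4 : ℕ :=
    (Nat.mul (nat_lit 1329227995784915872903807060280344576) O4)
def OD : ℕ :=
    (Nat.add (Nat.add (Nat.add (nat_lit 1) (Nat.shiftLeft (nat_lit 1) (nat_lit 512)))
    (Nat.shiftLeft (nat_lit 1) (nat_lit 1536))) (Nat.shiftLeft (nat_lit 1) (nat_lit 2048)))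
def HD : ℕ :=
    (Nat.shiftLeft OD (nat_lit 255))
/-- four versions of the chord inequality -/
def chC (k : ℕ) : ℕ := bif Nat.beq k 0 then 40821 else bif Nat.beq k 1 then 40001 else
  bif Nat.beq k 2 then 40221 else 40521
def chE (k : ℕ) : ℕ := bif Nat.beq k 0 then 0 else bif Nat.beq k 1 then 73215127228553210363904 else
  bif Nat.beq k 2 then 71720940958582736683008 else 70226754688612263002112
def HCk (k : ℕ) : ℕ :=
    (Nat.sub HD (Nat.mul (Nat.add (Nat.div (Nat.mul (chC k) (nat_lit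
    558148152342069314695800199839957808840704)) (nat_lit 100)) (nat_lit 1)) OD))
def FOk (k : ℕ) : ℕ :=
    (Nat.mul (chE k) O4)
def TE0 : ℕ :=
    (Nat.mul (nat_lit 1329229263435575868584007375930785792) O4)
structure Cy where
  ok : Bool
  (P Q P4 Q4 TE l1 l2 h1 h2 : ℕ)
def mkZ (P Q T l1 l2 h1 h2 : ℕ) (ok : Bool) : Cy := ⟨ok, P, Q,
    (Nat.mul (nat_lit 4) P),
    (Nat.mul (nat_lit 4) Q),
    (Nat.add TE0 (Nat.mul (nat_lit 633318697598976) T)),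

    (Nat.mul (nat_lit 50331648) l1),
    (Nat.mul (nat_lit 50331648) l2),
    (Nat.mul (nat_lit 50331648) h1),
    (Nat.mul (nat_lit 50331648) h2)⟩
def mkY (G : Gx) (B : Bx) : Cy :=
  mkZ (pk4 (cg1 B.t0 B.f0) (cg1 B.t0 B.f1) (cg1 B.t1 B.f0) (cg1 B.t1 B.f1))
    (pk4 (cg2 B.t0 B.f0) (cg2 B.t0 B.f1) (cg2 B.t1 B.f0) (cg2 B.t1 B.f1)) (pk4 B.t0 B.t0 B.t1 B.t1)
    (vlo G B.a0) (vlo G B.b0) (vhi G B.a1) (vhi G B.b1)
    (Nat.ble (B.t0 + B.t1 + (B.f0 + B.f1) + (B.a0 + B.a1) + (B.b0 + B.b1) + G.dl) 1073741824)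
noncomputable def sm3 (FF HC G1 E1 : ℕ) : Bool :=
    (@Bool.rec (fun _ => Bool) false (Nat.beq (Nat.land (Nat.add (Nat.mul (Nat.sub G1 H4) (Nat.sub
    E1 H4)) HC) HD) HD) (Nat.beq (Nat.land (Nat.land G1 (Nat.sub E1 FF)) H4) H4))
noncomputable def sm2 (P Q TE l1 l2 h1 h2 FF HC G1 xp xm yp ym : ℕ) : Bool :=
    (sm3 FF HC G1 (Nat.sub TE (Nat.add (Nat.add (Nat.mul (Nat.sub (Nat.add (Nat.add (Nat.mul h1
    xp) (Nat.mul h2 yp)) (nat_lit 1267650600228229401496703205376)) (Nat.add (Nat.mul l1 xm)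
    (Nat.mul l2 ym))) O4) (Nat.mul P (Nat.mul (Nat.add xp xm) (Nat.add xp xm)))) (Nat.mul Q
    (Nat.mul (Nat.add yp ym) (Nat.add yp ym))))))
noncomputable def sm1 (P Q P4 Q4 TE l1 l2 h1 h2 FF HC HM px py qx qy fx fy : ℕ) : Bool :=
    (sm2 P Q TE l1 l2 h1 h2 FF HC (Nat.add (Nat.add (Nat.mul P4 (sdF px qx)) (Nat.mul Q4 (sdF py
    qy))) HM) (Nat.sub fx (nat_lit 1073741824)) (Nat.sub (nat_lit 1073741824) fx) (Nat.sub fy
    (nat_lit 1073741824)) (Nat.sub (nat_lit 1073741824) fy))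
noncomputable def sm0 (P Q P4 Q4 TE l1 l2 h1 h2 FF HC HM px py ux uy qx0 qy0 vx0 vy0 qx1 qy1 vx1 vy1 : ℕ) :
    Bool :=

    (@Bool.rec (fun _ => Bool) false (sm1 P Q P4 Q4 TE l1 l2 h1 h2 FF HC HM px py qx1 qy1 (Nat.add
    ux vx1) (Nat.add uy vy1)) (sm1 P Q P4 Q4 TE l1 l2 h1 h2 FF HC HM px py qx0 qy0 (Nat.add ux
    vx0) (Nat.add uy vy0)))
noncomputable def sma (P Q P4 Q4 TE l1 l2 h1 h2 FF HC HM w px0 py0 px1 py1 qx0 qy0 vx0 vy0 qx1 qy1 vx1 vy1 : ℕ) :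
    Bool :=

    (@Bool.rec (fun _ => Bool) false (sm0 P Q P4 Q4 TE l1 l2 h1 h2 FF HC HM px1 py1 (Nat.mul w
    px1) (Nat.mul w py1) qx0 qy0 vx0 vy0 qx1 qy1 vx1 vy1) (sm0 P Q P4 Q4 TE l1 l2 h1 h2 FF HC HM
    px0 py0 (Nat.mul w px0) (Nat.mul w py0) qx0 qy0 vx0 vy0 qx1 qy1 vx1 vy1))
def cX (j a : ℕ) : ℕ :=
    (Nat.add (Nat.mul a (eX j)) (Nat.sub (nat_lit 67108864) (Nat.mul (nat_lit 24) a)))
def cY (j a : ℕ) : ℕ :=
    (Nat.add (Nat.mul a (eY j)) (Nat.sub (nat_lit 67108864) (Nat.mul (nat_lit 24) a)))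
noncomputable def smb (P Q P4 Q4 TE l1 l2 h1 h2 FF HC u w px0 py0 px1 py1 qx0 qy0 qx1 qy1 : ℕ) :
    Bool :=

    (sma P Q P4 Q4 TE l1 l2 h1 h2 FF HC (Nat.sub H4 (Nat.add (Nat.mul P (Nat.add (sdF px1 px0)
    (sdF qx1 qx0))) (Nat.mul Q (Nat.add (sdF py1 py0) (sdF qy1 qy0))))) w px0 py0 px1 py1 qx0 qy0
    (Nat.mul u qx0) (Nat.mul u qy0) qx1 qy1 (Nat.mul u qx1) (Nat.mul u qy1))
noncomputable def fcN (C : Cy) (k u j0 a0 j1 a1 m0 b0 m1 b1 : ℕ) : Bool :=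
  @Cy.rec (fun _ => Bool) (fun ok P Q P4 Q4 TE l1 l2 h1 h2 =>

    (@Bool.rec (fun _ => Bool) false (smb P Q P4 Q4 TE l1 l2 h1 h2 (FOk k) (HCk k) u (Nat.sub
    (nat_lit 16) u) (cX j0 a0) (cY j0 a0) (cX j1 a1) (cY j1 a1) (cX m0 b0) (cY m0 b0) (cX m1 b1)
    (cY m1 b1)) (@Bool.rec (fun _ => Bool) false (Nat.ble u (nat_lit 16)) (@Bool.rec (fun _ =>
    Bool) false (Nat.ble (Nat.add (Nat.add a0 a1) (Nat.add b0 b1)) (nat_lit 2097152)) ok)))) C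
def fO (e c : ℕ) : ℕ :=
    (Nat.add (Nat.mul c e) (Nat.sub (nat_lit 1073741824) (Nat.mul (nat_lit 24) c)))
noncomputable def pr1 (P Q P4 Q4 TE l1 l2 h1 h2 FF HC o px py qx qy fx fy gx gy : ℕ) : Bool :=

    (@Bool.rec (fun _ => Bool) false (sm1 P Q P4 Q4 TE l1 l2 h1 h2 FF HC (Nat.sub H4 (Nat.add
    (Nat.mul P (sdF px qx)) (Nat.mul Q (sdF py qy)))) qx qy o o gx gy) (sm1 P Q P4 Q4 TE l1 l2 h1
    h2 FF HC (Nat.sub H4 (Nat.add (Nat.mul P (sdF px qx)) (Nat.mul Q (sdF py qy)))) px py o o fx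
    fy))
/-- chords through the origin -/
noncomputable def prN (C : Cy) (k i i1 j j1 a b c d : ℕ) : Bool :=
  @Cy.rec (fun _ => Bool) (fun ok P Q P4 Q4 TE l1 l2 h1 h2 =>

    (@Bool.rec (fun _ => Bool) false (pr1 P Q P4 Q4 TE l1 l2 h1 h2 (FOk k) (HCk k) (nat_lit
    67108864) (cX i (Nat.mul (nat_lit 16) a)) (cY i (Nat.mul (nat_lit 16) a)) (cX i1 (Nat.mul
    (nat_lit 16) b)) (cY i1 (Nat.mul (nat_lit 16) b)) (fO (eX j) c) (fO (eY j) c) (fO (eX j1) d)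
    (fO (eY j1) d)) (@Bool.rec (fun _ => Bool) false (Nat.ble (Nat.add c d) (nat_lit 33554432))
    (@Bool.rec (fun _ => Bool) false (Nat.ble (Nat.add a b) (nat_lit 131072)) ok)))) C

end Pool.Agent.P.MP_2e1554_gt.Chk
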