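import Pool.Agent.P.MP_2e1554_gt.IsoChkS
import Pool.Agent.P.MP_2e1554_gt.IsoCst5

/-! Located extreme points. -/

namespace Pool.Agent.P.MP_2e1554_gt.Chk

/-- the extreme point in direction `z` lies between the rays `rl z` and `rh z` -/
structure Rt where (rl rh : ℕ)
/-- a segment that meets the body, from `a0 • en j0` to `a1 • en j1`, scale `2^16` -/
structure Sg where (j0 a0 j1 a1 : ℕ)
structure Xs where
  s : St
  w : Wt
  r : Rt

def RL0 : ℕ := 0x29000000000000002800000000000000270000000000000026000000000000002500000000000000240000000000000023000000000000002200000000000000210000000000000020000000000000001f000000000000001e000000000000001d000000000000001c000000000000001b000000000000001a0000000000000019000000000000001800000000000000170000000000000016000000000000001500000000000000140000000000000013000000000000001200000000000000110000000000000010000000000000000f000000000000000e000000000000000d000000000000000c000000000000000b000000000000000a000000000000000900000000000000080000000000000007000000000000000600000000000000050000000000000004000000000000000300000000000000020000000000000001000000000000000000000000000000370000000000000036000000000000003500000000000000340000000000000033000000000000003200000000000000310000000000000030000000000000002f000000000000002e000000000000002d000000000000002c000000000000002b000000000000002a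
def RH0 : ℕ := 0xd000000000000000c000000000000000b000000000000000a000000000000000900000000000000080000000000000007000000000000000600000000000000050000000000000004000000000000000300000000000000020000000000000001000000000000000000000000000000370000000000000036000000000000003500000000000000340000000000000033000000000000003200000000000000310000000000000030000000000000002f000000000000002e000000000000002d000000000000002c000000000000002b000000000000002a0000000000000029000000000000002800000000000000270000000000000026000000000000002500000000000000240000000000000023000000000000002200000000000000210000000000000020000000000000001f000000000000001e000000000000001d000000000000001c000000000000001b000000000000001a0000000000000019000000000000001800000000000000170000000000000016000000000000001500000000000000140000000000000013000000000000001200000000000000110000000000000010000000000000000f000000000000000e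
def r0 : Rt := ⟨RL0, RH0⟩
/-- the extreme point in direction `z` is not in sector `i` -/
noncomputable def miss (s : St) (w : Wt) (z i : ℕ) : Bool :=
  force (i + 1) fun i1 =>
    Nat.blt (4294967296 * max (dt2 z i) (dt2 z i1)) (24 * lane s.sl i * lane w.wl z)
noncomputable def trimL (s : St) (w : Wt) (z n : ℕ) : ℕ → ℕ :=
  Nat.rec (motive := fun _ => ℕ → ℕ) (fun i => i)
    (fun _ ih i => bif miss s w z i then force ((i + 1) % 56) ih else i) n
noncomputable def trimH (s : St) (w : Wt) (z n : ℕ) : ℕ → ℕ :=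
  Nat.rec (motive := fun _ => ℕ → ℕ) (fun i => i)
    (fun _ ih i => force ((i + 55) % 56) fun j => bif miss s w z j then ih j else i) n
def coverR (s : St) (r : Rt) (z τ : ℕ) : Bool :=
  let X := lsub H56 (536870912 * lmax H56 (dots z) (rotR 56 (dots z))) (3 * τ * s.sl)
  let d := (lane r.rh z + 56 - lane r.rl z) % 56
  Nat.blt 0 d && Nat.beq (low d ((X + X <<< 3584) >>> (64 * lane r.rl z))) 0
noncomputable def fz (r : Rt) (z τ : ℕ) : Sg :=
  force (lane r.rl z) fun j => force (lane r.rh z) fun m =>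
    bif Nat.blt 0 (det j m).toNat && Nat.blt 0 (dt2 z j) && Nat.blt 0 (dt2 z m) then
      force (τ * 384 / dt2 z j) fun a => force (τ * 384 / dt2 z m) fun b => ⟨j, a, m, b⟩
    else ⟨0, 0, 0, 0⟩
noncomputable def src (s : St) (w : Wt) (r : Rt) (n : ℕ) : Sg :=
  bif Nat.blt n 56 then force (68719476736 / lane s.qh n) fun a => ⟨n, a, n, a⟩
  else force ((n - 56) % 56) fun z => fz r z (lane w.wl z)
noncomputable def tgt (r : Rt) (kind i τ : ℕ) : Sg :=
  bif Nat.beq kind 0 then force (68719476736 / τ) fun a => ⟨i, a, i, a⟩ else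
  bif Nat.beq kind 1 then force (68719476736 / τ) fun a => force (i + 1) fun i1 => ⟨i, a, i1, a⟩
  else fz r i τ
/-- the bound for the gauge at node `l` from two points, `2^20` if they do not enclose it -/
def hl1 (l j a m b : ℕ) : ℕ :=
  bif Nat.blt 0 ((det j m).toNat * a * b) && nn (det j l) && nn (det l m) then
    68719476736 * (b * (det l m).toNat + a * (det j l).toNat) / (a * b * (det j m).toNat) + 1
  else 1048576
noncomputable def fhull (l : ℕ) (A Z : Sg) : ℕ :=
  Sg.rec (fun j0 a0 j1 a1 => Sg.rec (fun m0 b0 m1 b1 =>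
    max (max (hl1 l j0 a0 m0 b0) (hl1 l j0 a0 m1 b1)) (max (hl1 l j1 a1 m0 b0) (hl1 l j1 a1 m1 b1))) Z) A
def ge2 (G : Gx) (B : Bx) (fl : Bool) (dx dy : ℤ) (sx sy : ℕ) (fx fy : ℤ) : Bool :=
  all4 B fun t g1 g2 =>
    Nat.blt ((bif fl then 40001 else 40821) * 558148152342069314695800199839957808840704)
      (100 * ((4 * (g1 * sq dx + g2 * sq dy) - (g1 * sx + g2 * sy)) * eLow G B fx fy t g1 g2)) &&
    (!fl || Nat.ble 292860508914212841455616 (4 * eLow G B fx fy t g1 g2))
def fc1 (G : Gx) (B : Bx) (fl : Bool) (u : ℤ) (sx sy j : ℕ) (a : ℤ) (m : ℕ) (b : ℤ) : Bool :=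
  ge2 G B fl (a * ex j - b * ex m) (a * ey j - b * ey m) sx sy
    ((16 - u) * (a * ex j) + u * (b * ex m)) ((16 - u) * (a * ey j) + u * (b * ey m))
def gt2 (G : Gx) (B : Bx) (k : ℕ) (dx dy : ℤ) (sx sy : ℕ) (fx fy : ℤ) : Bool :=
  all4 B fun t g1 g2 =>
    Nat.blt (chC k * 558148152342069314695800199839957808840704 / 100)
      ((4 * (g1 * sq dx + g2 * sq dy) - (g1 * sx + g2 * sy)) * eLow G B fx fy t g1 g2) &&
    Nat.ble (chE k) (eLow G B fx fy t g1 g2)
def ft1 (G : Gx) (B : Bx) (k : ℕ) (u : ℤ) (sx sy j : ℕ) (a : ℤ) (m : ℕ) (b : ℤ) : Bool :=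
  gt2 G B k (a * ex j - b * ex m) (a * ey j - b * ey m) sx sy
    ((16 - u) * (a * ex j) + u * (b * ex m)) ((16 - u) * (a * ey j) + u * (b * ey m))
noncomputable def fchord (G : Gx) (B : Bx) (fl u : ℕ) (A Z : Sg) : Bool :=
  Sg.rec (fun j0 a0 j1 a1 => Sg.rec (fun m0 b0 m1 b1 =>
    force (sq (Int.ofNat a1 * ex j1 - Int.ofNat a0 * ex j0) +
      sq (Int.ofNat b1 * ex m1 - Int.ofNat b0 * ex m0)) fun sx =>
    force (sq (Int.ofNat a1 * ey j1 - Int.ofNat a0 * ey j0) +
      sq (Int.ofNat b1 * ey m1 - Int.ofNat b0 * ey m0)) fun sy =>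
    ft1 G B fl (Int.ofNat u) sx sy j0 (Int.ofNat a0) m0 (Int.ofNat b0) &&
      ft1 G B fl (Int.ofNat u) sx sy j0 (Int.ofNat a0) m1 (Int.ofNat b1) &&
      ft1 G B fl (Int.ofNat u) sx sy j1 (Int.ofNat a1) m0 (Int.ofNat b0) &&
      ft1 G B fl (Int.ofNat u) sx sy j1 (Int.ofNat a1) m1 (Int.ofNat b1)) Z) A
/-- the chord is longer than the diameter -/
def gd (B : Bx) (sx sy j : ℕ) (a : ℤ) (m : ℕ) (b : ℤ) : Bool :=
  all4 B fun _ g1 g2 => Nat.blt 3735465674926184202240
    (4 * (g1 * sq (a * ex j - b * ex m) + g2 * sq (a * ey j - b * ey m)) - (g1 * sx + g2 * sy))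
noncomputable def fdia (B : Bx) (A Z : Sg) : Bool :=
  Sg.rec (fun j0 a0 j1 a1 => Sg.rec (fun m0 b0 m1 b1 =>
    force (sq (Int.ofNat a1 * ex j1 - Int.ofNat a0 * ex j0) +
      sq (Int.ofNat b1 * ex m1 - Int.ofNat b0 * ex m0)) fun sx =>
    force (sq (Int.ofNat a1 * ey j1 - Int.ofNat a0 * ey j0) +
      sq (Int.ofNat b1 * ey m1 - Int.ofNat b0 * ey m0)) fun sy =>
    gd B sx sy j0 (Int.ofNat a0) m0 (Int.ofNat b0) && gd B sx sy j0 (Int.ofNat a0) m1 (Int.ofNat b1) &&
      gd B sx sy j1 (Int.ofNat a1) m0 (Int.ofNat b0) &&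
      gd B sx sy j1 (Int.ofNat a1) m1 (Int.ofNat b1)) Z) A
noncomputable def fcS (B : Bx) (C : Cy) (fl u : ℕ) (A Z : Sg) : Bool :=
  @Bool.rec (fun _ => Bool) (@Sg.rec (fun _ => Bool) (fun j0 a0 j1 a1 =>
    @Sg.rec (fun _ => Bool) (fcN C fl u j0 a0 j1 a1) Z) A) (fdia B A Z) (Nat.beq u (nat_lit 255))
noncomputable def prS (C : Cy) (k sg u i a b : ℕ) : Bool :=
  Nat.blt i 28 && Nat.blt 0 (a * b) && force (i + 1) fun i1 => force (i + 28 * sg) fun j =>
    force (j + 1) fun j1 => prN C k i i1 j j1 a b (u * a) (u * b)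
def setP (ll i a b : ℕ) : ℕ :=
  lower (lower (lower ll i ((3 * max a b + 1023) / 1024 - 30)) (28 + i) ((16 * (2 * a + b) + 5) / 6))
    (56 + i) ((16 * (a + 2 * b) + 5) / 6)
/-- horizontal chords between a sector and its mirror image -/
noncomputable def pm3 (C : Cy) (k j D X0 X1 Y0 Y1 e : ℕ) : Bool :=
  force (min (e * Y0 / (D * X0)) (e * Y1 / (D * X1))) fun c =>
    force (max (128 * D * Y0 / X0) (128 * D * Y1 / X1) + 1) fun d => prN C k 0 0 j j D D c d
noncomputable def pm2 (C : Cy) (k j D X0 X1 Y0 Y1 q : ℕ) : Bool :=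
  Nat.blt 0 (X0 * X1 * D * q) && force (max X0 X1 * 536870912 / (3 * q) + 1) fun w =>
    pm3 C k j D X0 X1 Y0 Y1 (512 * w * (D - w))
noncomputable def prM (C : Cy) (sl k n D : ℕ) : Bool :=
  Nat.blt n 28 && force ((42 + n) % 56) fun i => force (i + 1) fun i1 =>
    force (eX i - 24) fun X0 => force (eX i1 - 24) fun X1 => force (adf (eY i) 24) fun Y0 =>
      force (adf (eY i1) 24) fun Y1 => force (min (lane sl i) (lane sl (41 - n))) fun q =>
        pm2 C k (bif Nat.blt n 14 then 42 else 14) D X0 X1 Y0 Y1 q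
noncomputable def sm5 (ll n a b : ℕ) : ℕ := bif Nat.ble (a + b) 65536 then
  force (upd ll (84 + n) ((16 * (2 * a + b) + 5) / 6)) fun x =>
    force (upd x (112 + n) ((16 * (a + 2 * b) + 5) / 6)) fun y => upd y (140 + n) (93 - 3 * min a b / 1024)
  else ll
noncomputable def setM (ll n D : ℕ) : ℕ :=
  force (24 * D / (eX ((42 + n) % 56) - 24) + 1) fun a =>
    force (24 * D / (eX ((42 + n) % 56 + 1) - 24) + 1) (sm5 ll n a)
def M48 : ℕ := O56 * 281474976710655
def strp (c X : ℕ) : ℕ := lsub H56 ((c * X) >>> 16 &&& M48) O56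
/-- all strips for the direction `z` -/
noncomputable def stripAll (s : St) (w : Wt) (z : ℕ) : St :=
  force (281474976710656 / (24 * lane w.wh z)) fun c => force (lmax H56 s.ql (strp c (dots z))) fun x =>
    force (lmax H56 s.sl (strp c (dots z - lsub H56 (dots z) (rotR 56 (dots z))))) fun y =>
      ⟨x, s.qh, y, s.ll, s.vl, s.vh⟩
noncomputable def liftAll (s : St) : St :=
  force (lmax H56 s.ql (lmax H56 s.sl (rotL 56 s.sl))) fun x => ⟨x, s.qh, s.sl, s.ll, s.vl, s.vh⟩
/-- `τ / 10^4` bounds the area -/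
def volJ (G : Gx) (B : Bx) (τ : ℕ) : Bool :=
  all4 B fun _ g1 g2 => Nat.ble 42066023337759702577368268800000
    (τ * τ * jI g1 g2 (OO + vhi G B.a1) (OO + vhi G B.b1))
/-- `τ / 10^4` bounds the area; test point `(fx,fy)/(24·2^20)`, `k = 1 - j/128` -/
noncomputable def volP (G : Gx) (B : Bx) (fx fy : ℤ) (j τ : ℕ) : Bool :=
  force (16384 + 128 * j + j * j) fun n0 => force (16384 + 256 * j + 3 * (j * j)) fun n1 =>
  force (268435456 + 8388608 * j + 163840 * (j * j) + 512 * (j * j * j) + j * j * (j * j)) fun d =>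
  force (cg1 B.t1 B.f0) fun gm => force (5 * (vlo G B.a0 * vlo G B.a0) / (8 * gm)) fun e =>
  Nat.blt j 128 && all4 B fun t g1 g2 => Nat.ble g1 gm &&
    Nat.blt (5976745079881894723584 * (45 * d - 5 * (n1 * n1)))
      (3 * d * eLow G B fx fy t g1 g2) &&
    Nat.ble (41587398919616023920462749456951414882304000000 * (n1 * n1))
      (4 * (τ * n0 * (g1 + e)) * (τ * n0 * (g1 + e)) * jI g1 g2 (OO + vhi G B.a1) (OO + vhi G B.b1))
noncomputable def volU (G : Gx) (B : Bx) (z n m u τ : ℕ) : Bool :=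
  bif Nat.beq m 2 then volP G B (Int.negOfNat (z * 786432)) (Int.negOfNat (n * 786432)) u τ
  else volJ G B τ
/-- a table of lower bounds for the area -/
def tcb (i j : ℕ) : ℕ := ((TB >>> (4608 * i)) % 2 ^ 4608) >>> (16 * j) % 65536
def tb (i j : ℕ) : ℕ := tcb (i - 256) (j - 256)
def volC (w : Wt) : ℕ := 103923 + tb ((lane w.wh 0 + 511) >>> 9) ((lane w.wh 28 + 511) >>> 9)
noncomputable def op3 (G : Gx) (B : Bx) (s : St) (w : Wt) (r : Rt) (kd z n m u τ fl : ℕ) : Xs :=
  bif Nat.beq kd 0 then force (upd r.rl z (trimL s w z u (lane r.rl z))) fun x => ⟨s, w, ⟨x, r.rh⟩⟩ else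
  bif Nat.beq kd 1 then force (upd r.rh z (trimH s w z u (lane r.rh z))) fun x => ⟨s, w, ⟨r.rl, x⟩⟩ else
  bif Nat.beq kd 2 then
    bif Nat.ble τ 524288 && coverR s r z τ then
      force (lower w.wh z τ) fun x => ⟨s, ⟨w.wl, x⟩, r⟩ else ⟨s, w, r⟩ else
  bif Nat.beq kd 3 then force (lower s.qh z (fhull z (src s w r n) (src s w r m))) fun x =>
    ⟨⟨s.ql, x, s.sl, s.ll, s.vl, s.vh⟩, w, r⟩ else
  bif Nat.beq kd 5 then
    bif Nat.beq (m % 2) 0 then forceS (stripAll s w z) fun s' => ⟨s', w, r⟩ else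
    bif prM (mkY G B) s.sl fl z τ then
      force (setM s.ll z τ) fun x => ⟨⟨s.ql, s.qh, s.sl, x, s.vl, s.vh⟩, w, r⟩ else ⟨s, w, r⟩ else
  bif Nat.beq kd 6 then
    bif Nat.beq (m % 2) 0 then forceS (liftAll s) fun s' => ⟨s', w, r⟩ else
    force (τ % 32768) fun a => force (τ >>> 15 + 64 * n + 8192 * (m >>> 2)) fun b =>
      bif prS (mkY G B) fl (m >>> 1 % 2) u z a b then
        force (setP s.ll z a b) fun x => ⟨⟨s.ql, s.qh, s.sl, x, s.vl, s.vh⟩, w, r⟩ else ⟨s, w, r⟩ else
  bif Nat.beq kd 7 then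
    bif Nat.beq m 1 then force (max s.vl (volC w)) fun x => ⟨⟨s.ql, s.qh, s.sl, s.ll, x, s.vh⟩, w, r⟩ else
    bif volU G B z n m u τ then ⟨⟨s.ql, s.qh, s.sl, s.ll, s.vl, τ⟩, w, r⟩ else ⟨s, w, r⟩ else
  bif fcS B (mkY G B) fl u (src s w r n) (tgt r m z τ) then
    bif Nat.ble 2 m then force (lower w.wh z τ) fun x => ⟨s, ⟨w.wl, x⟩, r⟩
    else forceS (setLo s (Nat.beq m 1) z τ) fun s' => ⟨s', w, r⟩
  else ⟨s, w, r⟩
noncomputable def op3W (G : Gx) (B : Bx) (s : St) (w : Wt) (r : Rt) (x : ℕ) : Xs :=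
  force (x >>> 3 % 64 % 56) fun z => force (x >>> 10 % 128) fun n => force (x >>> 17 % 128) fun m =>
    force (x >>> 9 % 2 + (x >>> 52 &&& 2)) fun k =>
    op3 G B s w r (x % 8) z n m (x >>> 24 % 256) (x >>> 32 % 2097152) k
noncomputable def forceX {α : Type} (p : Xs) (k : St → Wt → Rt → α) : α :=
  Xs.rec (fun s w r => St.rec (fun a b c d e f => Wt.rec (fun u v => Rt.rec (fun x y =>
    k ⟨a, b, c, d, e, f⟩ ⟨u, v⟩ ⟨x, y⟩) r) w) s) p
noncomputable def ops3 (G : Gx) (B : Bx) (n : ℕ) : ℕ → St → Wt → Rt → Xs :=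
  Nat.rec (motive := fun _ => ℕ → St → Wt → Rt → Xs) (fun _ s w r => ⟨s, w, r⟩)
    (fun _ ih d s w r => forceX (op3W G B s w r (low 1 d)) fun s' w' r' =>
      force (d >>> 64) fun d' => ih d' s' w' r') n

/-! ### trees -/

def eqR (w v : Rt) : Bool := Nat.beq w.rl v.rl && Nat.beq w.rh v.rh

inductive Tx
  | split (ax x : ℕ) (l r : Tx)
  | br (i τ : ℕ) (l r : Tx)
  | bv (x : ℕ) (l r : Tx)
  | bw (z τ : ℕ) (l r : Tx)
  | bp (z m : ℕ) (l r : Tx)
  | ops (n d : ℕ) (t : Tx)
  | opw (n d : ℕ) (t : Tx)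
  | opr (n d : ℕ) (t : Tx)
  | emp (i : ℕ)
  | emw (z : ℕ)
  | out (a b : ℕ)
  | neg
  | leaf (c : Cm) (n d : ℕ) (d0 d1 d2 d3 : Vd)
  | hole (n : ℕ)

noncomputable def chkX (G : Gx) (H : List (Bx × Xs)) (t : Tx) : Bx → St → Wt → Rt → Bool :=
  Tx.rec (motive := fun _ => Bx → St → Wt → Rt → Bool)
    (fun ax x _ _ l r B s w p => force x fun x' =>
      forceB (setHi B ax x') (fun B' => l B' s w p) && forceB (setLw B ax x') (fun B' => r B' s w p))
    (fun i τ _ _ l r B s w p => Nat.blt i 56 && Nat.ble τ 1048576 &&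
      force (upd s.qh i τ) (fun x => l B ⟨s.ql, x, s.sl, s.ll, s.vl, s.vh⟩ w p) &&
      force (upd s.ql i τ) (fun x => r B ⟨x, s.qh, s.sl, s.ll, s.vl, s.vh⟩ w p))
    (fun x _ _ l r B s w p => l B ⟨s.ql, s.qh, s.sl, s.ll, s.vl, x⟩ w p &&
      r B ⟨s.ql, s.qh, s.sl, s.ll, x, s.vh⟩ w p)
    (fun z τ _ _ l r B s w p => Nat.blt z 56 && Nat.ble τ 524288 &&
      force (upd w.wh z τ) (fun x => l B s ⟨w.wl, x⟩ p) &&
      force (upd w.wl z τ) (fun x => r B s ⟨x, w.wh⟩ p))
    (fun z m _ _ l r B s w p => Nat.blt z 56 && Nat.blt m 56 &&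
      force (upd p.rh z m) (fun x => l B s w ⟨p.rl, x⟩) &&
      force (upd p.rl z m) (fun x => r B s w ⟨x, p.rh⟩))
    (fun n d _ t B s w p => okB B && forceS (ops G B n d s) (fun s' => t B s' w p))
    (fun n d _ t B s w p => okB B && forceP (ops2 G B n d s w) (fun s' w' => t B s' w' p))
    (fun n d _ t B s w p => okB B && forceX (ops3 G B n d s w p) (t B))
    (fun i _ s _ _ => Nat.blt i 56 && Nat.ble (lane s.qh i) (lane s.ql i) ||
      Nat.blt 0 s.vh && Nat.blt s.vh s.vl)
    (fun z _ _ w _ => Nat.blt z 56 && Nat.blt (lane w.wh z) (lane w.wl z))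
    (fun a b B _ _ _ => outB G B a b)
    (fun B _ _ _ => Nat.blt (B.a1 + G.dl) OO || Nat.blt (B.b1 + G.dl) OO)
    (fun c n d d0 d1 d2 d3 B s w _ => Nat.ble n 63 &&
      force (rows w G.th n d) fun A => leaf G B s (setX c A) d0 d1 d2 d3)
    (fun n B s w p => match H[n]? with
      | some h => eqB B h.1 && eqS s h.2.s && eqW w h.2.w && eqR p h.2.r
      | none => false) t

end Pool.Agent.P.MP_2e1554_gt.Chk
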