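import Mathlib

open MeasureTheory Set Finset Matrix Filter Topology Pointwise

namespace Pool.Agent.P.MP_2e1554_gt

variable {n : ℕ}

/-- divide the final inequality by `1 + e` -/
theorem real_div {e X C : ℝ} (he : 0 ≤ e) (h : X * (1 + e) ≤ C * (1 + e) ^ 5) :
    X ≤ C * (1 + e) ^ 4 := by
  have h1 : (0 : ℝ) < 1 + e := by linarith
  have h2 : C * (1 + e) ^ 5 = (C * (1 + e) ^ 4) * (1 + e) := by ring
  rw [h2] at h
  exact le_of_mul_le_mul_right h h1

theorem real_pow5 {e : ℝ} (he : 0 ≤ e) :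
    1 + 5 * e + 10 * e ^ 2 + 10 * e ^ 3 ≤ (1 + e) ^ 5 := by
  have h4 : 0 ≤ e ^ 4 := by positivity
  have h5 : 0 ≤ e ^ 5 := by positivity
  nlinarith

/-- elimination of `Y` -/
theorem real_elim {e q Y X c k : ℝ} (he : 0 ≤ e) (q0 : 0 < q)
    (h2 : q * X * (1 + e) ≤ Y * (1 + e) - q ^ 2)
    (h4 : Y ≤ q * (1 + q) - c * (q ^ 2 * e - k * (q * (8 - q)))) :
    X * (1 + e) ≤ 1 + e + q * e - c * (1 + e) * (q * e - k * (8 - q)) := by
  have h1 : (0 : ℝ) ≤ 1 + e := by linarith
  have h5 := mul_le_mul_of_nonneg_right h4 h1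
  have h6 : q * (X * (1 + e)) ≤
      q * (1 + e + q * e - c * (1 + e) * (q * e - k * (8 - q))) := by nlinarith
  exact le_of_mul_le_mul_left h6 q0

/-- a function which is affine in `q` and nonnegative at both ends -/
theorem real_lin {A B q a b : ℝ} (ha : a ≤ q) (hb : q ≤ b) (h1 : 0 ≤ A + B * a)
    (h2 : 0 ≤ A + B * b) : 0 ≤ A + B * q := by
  rcases le_total 0 B with h | h
  · nlinarith [mul_le_mul_of_nonneg_left ha h]
  · nlinarith [mul_le_mul_of_nonpos_left hb h]

/-- lower bound for `e` -/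
theorem real_low {e q Y a e1 : ℝ} (he : 0 ≤ e) (ha : 0 < a) (hq : a ≤ q)
    (h3 : q ^ 2 ≤ 176 / 225 * (1 + e) * Y) (h4 : Y ≤ q * (1 + q))
    (h : 176 / 225 * (1 + e1) * (1 + a) ≤ a) (he1 : 0 ≤ e1) : e1 ≤ e := by
  by_contra hc
  push Not at hc
  have q0 : 0 < q := by linarith
  have h1 : (0 : ℝ) ≤ 176 / 225 * (1 + e) := by positivity
  have h5 := mul_le_mul_of_nonneg_left h4 h1
  have h6 : q * q ≤ q * (176 / 225 * (1 + e) * (1 + q)) := by nlinarith
  have h7 : q ≤ 176 / 225 * (1 + e) * (1 + q) := le_of_mul_le_mul_left h6 q0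
  have h8 : 176 / 225 * (1 + e) * (1 + q) < 176 / 225 * (1 + e1) * (1 + q) := by
    have : (0 : ℝ) < 1 + q := by linarith
    nlinarith
  have h9 : 176 / 225 * (1 + e1) ≤ 1 := by
    by_contra h10
    push Not at h10
    nlinarith
  nlinarith [mul_le_mul_of_nonneg_right h9 (sub_nonneg.2 hq)]

theorem real_rough {e q X : ℝ} (he : 0 ≤ e) (q0 : 0 ≤ q) (q8 : q ≤ 8)
    (h1 : X * (1 + e) ≤ 1 + e + q * e) : X ≤ 119 / 100 * (1 + e) ^ 4 := by
  apply real_div he
  have h5 := real_pow5 he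
  have h6 := mul_le_mul_of_nonneg_right q8 he
  nlinarith [mul_nonneg he (sq_nonneg (e - 1 / 9)), sq_nonneg (e - 1 / 9)]

theorem real_exact {e q Y X : ℝ} (he : 0 ≤ e) (q0 : 0 ≤ q) (q8 : q ≤ 8)
    (h1 : X * (1 + e) ≤ 1 + e + q * e) (h2 : q * X * (1 + e) ≤ Y * (1 + e) - q ^ 2)
    (h3 : q ^ 2 ≤ 176 / 225 * (1 + e) * Y)
    (h4 : ∀ τ : ℝ, 0 ≤ τ → τ < 9 / 4 → Y ≤ q * (1 + q) - τ / (2 * (13 / 10)) *
      (q ^ 2 * e - (13 / 10 - 1) * (q * (8 - q)) / (9 - 4 * τ))) : X ≤ (1 + e) ^ 4 := by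
  have h5 := real_pow5 he
  have e2 : 0 ≤ e ^ 2 := by positivity
  have e3 : 0 ≤ e ^ 3 := by positivity
  have hY : Y ≤ q * (1 + q) := by
    have := h4 0 le_rfl (by norm_num)
    simpa using this
  have key : X * (1 + e) ≤ 1 * (1 + e) ^ 5 := by
    rcases le_total q (22 / 5) with hA | hA
    · have hq : q ≤ 4 + 10 * e := by
        by_contra hc
        push Not at hc
        have q1 : 0 < q := by linarith
        have h1' : (0 : ℝ) ≤ 176 / 225 * (1 + e) := by positivity
        have h5' := mul_le_mul_of_nonneg_left hY h1'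
        have h6 : q * q ≤ q * (176 / 225 * (1 + e) * (1 + q)) := by nlinarith
        have h7 : q ≤ 176 / 225 * (1 + e) * (1 + q) := le_of_mul_le_mul_left h6 q1
        have h8 : e ≤ 1 / 25 := by linarith
        have h9 : (0 : ℝ) ≤ 1 - 176 / 225 * (1 + e) := by linarith
        have h10 := mul_le_mul_of_nonneg_right hc.le h9
        nlinarith [mul_le_mul_of_nonneg_left h8 he]
      nlinarith [mul_le_mul_of_nonneg_right hq he]
    · have q1 : 0 < q := by linarith
      rcases le_total q (23 / 5) with hB | hB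
      · have he1 : (41 / 1000 : ℝ) ≤ e :=
          real_low he (by norm_num) hA h3 hY (by norm_num) (by norm_num)
        have h6 : Y ≤ q * (1 + q) - 5 / 26 * (q ^ 2 * e - 3 / 70 * (q * (8 - q))) := by
          have := h4 (1 / 2) (by norm_num) (by norm_num)
          linarith
        have h7 := real_elim he q1 h2 h6
        have h8 : 0 ≤ (4 * e + 10 * e ^ 2 - 5 / 26 * (1 + e) * (3 / 70 * 8)) +
            (5 / 26 * (1 + e) * (e + 3 / 70) - e) * q :=
          real_lin hA hB (by nlinarith [mul_nonneg he (sub_nonneg.2 he1)])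
            (by nlinarith [mul_nonneg he (sub_nonneg.2 he1)])
        nlinarith
      · rcases le_total q 5 with hC | hC
        · have he1 : (1 / 20 : ℝ) ≤ e :=
            real_low he (by norm_num) hB h3 hY (by norm_num) (by norm_num)
          have h6 : Y ≤ q * (1 + q) - 15 / 52 * (q ^ 2 * e - 1 / 20 * (q * (8 - q))) := by
            have := h4 (3 / 4) (by norm_num) (by norm_num)
            linarith
          have h7 := real_elim he q1 h2 h6
          have h8 : 0 ≤ (4 * e + 10 * e ^ 2 - 15 / 52 * (1 + e) * (1 / 20 * 8)) +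
              (15 / 52 * (1 + e) * (e + 1 / 20) - e) * q :=
            real_lin hB hC (by nlinarith [mul_nonneg he (sub_nonneg.2 he1)])
              (by nlinarith [mul_nonneg he (sub_nonneg.2 he1)])
          nlinarith
        · have he1 : (13 / 200 : ℝ) ≤ e :=
            real_low he (by norm_num) hC h3 hY (by norm_num) (by norm_num)
          have h6 : Y ≤ q * (1 + q) - 25 / 52 * (q ^ 2 * e - 3 / 40 * (q * (8 - q))) := by
            have := h4 (5 / 4) (by norm_num) (by norm_num)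
            linarith
          have h7 := real_elim he q1 h2 h6
          have h8 : 0 ≤ (4 * e + 10 * e ^ 2 - 25 / 52 * (1 + e) * (3 / 40 * 8)) +
              (25 / 52 * (1 + e) * (e + 3 / 40) - e) * q :=
            real_lin hC q8 (by nlinarith [mul_nonneg he (sub_nonneg.2 he1)])
              (by nlinarith [mul_nonneg he (sub_nonneg.2 he1)])
          nlinarith
  have := real_div he key
  linarith

theorem real_103 {e q Y X : ℝ} (he : 0 ≤ e) (q0 : 0 ≤ q) (q8 : q ≤ 8)
    (h1 : X * (1 + e) ≤ 1 + e + q * e) (h2 : q * X * (1 + e) ≤ Y * (1 + e) - q ^ 2)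
    (h4 : ∀ τ : ℝ, 0 ≤ τ → τ < 9 / 4 → Y ≤ q * (1 + q) - τ / (2 * (63 / 50)) *
      (q ^ 2 * e - (63 / 50 - 1) * (q * (8 - q)) / (9 - 4 * τ))) :
    X ≤ 103 / 100 * (1 + e) ^ 4 := by
  have h5 := real_pow5 he
  have e2 : 0 ≤ e ^ 2 := by positivity
  have e3 : 0 ≤ e ^ 3 := by positivity
  apply real_div he
  rcases le_total q 5 with hA | hA
  · nlinarith [mul_le_mul_of_nonneg_right hA he, sq_nonneg (e - 1 / 25)]
  · have q1 : 0 < q := by linarith
    rcases le_total q 6 with hB | hB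
    · have h6 : Y ≤ q * (1 + q) - 25 / 126 * (q ^ 2 * e - 13 / 350 * (q * (8 - q))) := by
        have := h4 (1 / 2) (by norm_num) (by norm_num)
        linarith
      have h7 := real_elim he q1 h2 h6
      have h8 : 0 ≤ (3 / 100 + 83 / 20 * e + 103 / 10 * e ^ 2 -
          25 / 126 * (1 + e) * (13 / 350 * 8)) +
          (25 / 126 * (1 + e) * (e + 13 / 350) - e) * q :=
        real_lin hA hB (by nlinarith) (by nlinarith [sq_nonneg (e - 3 / 100)])
      nlinarith
    · rcases le_total q 7 with hC | hC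
      · have h6 : Y ≤ q * (1 + q) - 25 / 84 * (q ^ 2 * e - 13 / 300 * (q * (8 - q))) := by
          have := h4 (3 / 4) (by norm_num) (by norm_num)
          linarith
        have h7 := real_elim he q1 h2 h6
        have h8 : 0 ≤ (3 / 100 + 83 / 20 * e + 103 / 10 * e ^ 2 -
            25 / 84 * (1 + e) * (13 / 300 * 8)) +
            (25 / 84 * (1 + e) * (e + 13 / 300) - e) * q :=
          real_lin hB hC (by nlinarith [sq_nonneg (e - 1 / 250)])
            (by nlinarith [sq_nonneg (e - 3 / 100)])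
        nlinarith
      · have h6 : Y ≤ q * (1 + q) - 25 / 63 * (q ^ 2 * e - 13 / 250 * (q * (8 - q))) := by
          have := h4 1 (by norm_num) (by norm_num)
          linarith
        have h7 := real_elim he q1 h2 h6
        have h8 : 0 ≤ (3 / 100 + 83 / 20 * e + 103 / 10 * e ^ 2 -
            25 / 63 * (1 + e) * (13 / 250 * 8)) +
            (25 / 63 * (1 + e) * (e + 13 / 250) - e) * q :=
          real_lin hC q8 (by nlinarith [sq_nonneg (e - 1 / 250)])
            (by nlinarith [sq_nonneg (e - 1 / 40)])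
        nlinarith

theorem real_fin {e X c : ℝ} (he : 0 ≤ e) (hc : 0 ≤ c)
    (h : X * (1 + e) ≤ c * (1 + 5 * e + 10 * e ^ 2 + 10 * e ^ 3)) : X ≤ c * (1 + e) ^ 4 :=
  real_div he (h.trans (mul_le_mul_of_nonneg_left (real_pow5 he) hc))

theorem real_cub {e : ℝ} {P : Prop} (he : 0 ≤ e) (a : ℝ)
    (h : 0 ≤ (e - a) ^ 2 → 0 ≤ e * (e - a) ^ 2 → P) : P :=
  h (sq_nonneg _) (mul_nonneg he (sq_nonneg _))

theorem real_tau {e q Y s c k : ℝ} (h4 : ∀ τ : ℝ, 0 ≤ τ → τ < 9 / 4 →
      Y ≤ q * (1 + q) - τ / (2 * s) * (q ^ 2 * e - (s - 1) * (q * (8 - q)) / (9 - 4 * τ))) (τ : ℝ)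
    (h : 0 ≤ τ ∧ τ < 9 / 4 ∧ c = τ / (2 * s) ∧ k = (s - 1) / (9 - 4 * τ)) :
    Y ≤ q * (1 + q) - c * (q ^ 2 * e - k * (q * (8 - q))) := by
  obtain ⟨h0, h1, rfl, rfl⟩ := h
  rw [div_mul_eq_mul_div (s - 1)]
  exact h4 τ h0 h1

/-- one interval of `q`, with a multiplier `l` for the third inequality -/
theorem real_piece {e q Y X a0 C a b : ℝ} (c k l : ℝ) (he : 0 ≤ e)
    (h2 : q * X * (1 + e) ≤ Y * (1 + e) - q ^ 2) (h3 : q ^ 2 ≤ a0 * (1 + e) * Y)
    (h0 : 0 ≤ a0) (hl : 0 ≤ l) (h4 : Y ≤ q * (1 + q) - c * (q ^ 2 * e - k * (q * (8 - q))))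
    (ha0 : 0 < a) (ha : a ≤ q) (hb : q ≤ b)
    (hA : (1 + l * a0) * (1 + e) * (1 + a - c * (a * e - k * (8 - a))) - (1 + l) * a ≤ C)
    (hB : (1 + l * a0) * (1 + e) * (1 + b - c * (b * e - k * (8 - b))) - (1 + l) * b ≤ C) :
    X * (1 + e) ≤ C := by
  have q0 : 0 < q := ha0.trans_le ha
  have h7 := real_elim he q0 h2 h4
  have h8 : q ≤ a0 * (1 + e) * (1 + q - c * (q * e - k * (8 - q))) := by
    have h1 : (0 : ℝ) ≤ a0 * (1 + e) := by positivity
    have h5 := mul_le_mul_of_nonneg_left h4 h1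
    refine le_of_mul_le_mul_left ?_ q0
    linarith
  have h9 := mul_le_mul_of_nonneg_left h8 hl
  have h10 : 0 ≤ (C - (1 + l * a0) * (1 + e) * (1 + c * k * 8)) +
      ((1 + l) - (1 + l * a0) * (1 + e) * (1 - c * (e + k))) * q :=
    real_lin ha hb (by linarith) (by linarith)
  linarith

theorem real_a {e q Y X : ℝ} (he : 0 ≤ e) (q8 : q ≤ 8)
    (h1 : X * (1 + e) ≤ 1 + e + q * e) (h2 : q * X * (1 + e) ≤ Y * (1 + e) - q ^ 2)
    (h3 : q ^ 2 ≤ 4 / 5 * (1 + e) * Y)
    (h4 : ∀ τ : ℝ, 0 ≤ τ → τ < 9 / 4 → Y ≤ q * (1 + q) - τ / (2 * (247 / 200)) *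
      (q ^ 2 * e - (247 / 200 - 1) * (q * (8 - q)) / (9 - 4 * τ))) :
    X ≤ 2011 / 2000 * (1 + e) ^ 4 := by
  refine real_fin he (by norm_num) ?_
  rcases le_total q (9 / 2) with g0 | g0
  · linarith [mul_le_mul_of_nonneg_right g0 he, sq_nonneg (e - 57 / 2500),
      mul_nonneg he (sq_nonneg (e - 57 / 2500))]
  rcases le_total q (91 / 20) with g1 | g1
  · exact real_piece (20 / 247) (47 / 1640) (9 / 100) he h2 h3 (by norm_num) (by norm_num)
      (real_tau h4 (1 / 5) (by norm_num)) (by norm_num) g0 g1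
      (real_cub he (23 / 1000) fun h h' => by linarith)
      (real_cub he (31 / 1250) fun h h' => by linarith)
  rcases le_total q (99 / 20) with g2 | g2
  · exact real_piece (30 / 247) (47 / 1560) (7 / 50) he h2 h3 (by norm_num) (by norm_num)
      (real_tau h4 (3 / 10) (by norm_num)) (by norm_num) g1 g2
      (real_cub he (247 / 10000) fun h h' => by linarith)
      (real_cub he (103 / 2500) fun h h' => by linarith)
  · exact real_piece (75 / 247) (47 / 1200) (2 / 5) he h2 h3 (by norm_num) (by norm_num)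
      (real_tau h4 (3 / 4) (by norm_num)) (by norm_num) g2 q8
      (real_cub he (1 / 25) fun h h' => by linarith)
      (real_cub he (13 / 100) fun h h' => by linarith)

theorem real_b {e q Y X : ℝ} (he : 0 ≤ e) (q8 : q ≤ 8)
    (h1 : X * (1 + e) ≤ 1 + e + q * e) (h2 : q * X * (1 + e) ≤ Y * (1 + e) - q ^ 2)
    (h3 : q ^ 2 ≤ 208 / 255 * (1 + e) * Y)
    (h4 : ∀ τ : ℝ, 0 ≤ τ → τ < 9 / 4 → Y ≤ q * (1 + q) - τ / (2 * (123 / 100)) *
      (q ^ 2 * e - (123 / 100 - 1) * (q * (8 - q)) / (9 - 4 * τ))) :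
    X ≤ 1013 / 1000 * (1 + e) ^ 4 := by
  refine real_fin he (by norm_num) ?_
  rcases le_total q (19 / 4) with g0 | g0
  · linarith [mul_le_mul_of_nonneg_right g0 he, sq_nonneg (e - 17 / 500),
      mul_nonneg he (sq_nonneg (e - 17 / 500))]
  rcases le_total q 5 with g1 | g1
  · exact real_piece (35 / 246) (23 / 760) (3 / 50) he h2 h3 (by norm_num) (by norm_num)
      (real_tau h4 (7 / 20) (by norm_num)) (by norm_num) g0 g1
      (real_cub he (13 / 1000) fun h h' => by linarith)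
      (real_cub he (9 / 400) fun h h' => by linarith)
  rcases le_total q (109 / 20) with g2 | g2
  · exact real_piece (15 / 82) (23 / 720) (11 / 100) he h2 h3 (by norm_num) (by norm_num)
      (real_tau h4 (9 / 20) (by norm_num)) (by norm_num) g1 g2
      (real_cub he (109 / 5000) fun h h' => by linarith)
      (real_cub he (19 / 500) fun h h' => by linarith)
  · exact real_piece (50 / 123) (23 / 500) (2 / 5) he h2 h3 (by norm_num) (by norm_num)
      (real_tau h4 1 (by norm_num)) (by norm_num) g2 q8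
      (real_cub he (3 / 100) fun h h' => by linarith)
      (real_cub he (1 / 10) fun h h' => by linarith)

theorem real_c {e q Y X : ℝ} (he : 0 ≤ e) (q8 : q ≤ 8)
    (h1 : X * (1 + e) ≤ 1 + e + q * e) (h2 : q * X * (1 + e) ≤ Y * (1 + e) - q ^ 2)
    (h3 : q ^ 2 ≤ 592 / 705 * (1 + e) * Y)
    (h4 : ∀ τ : ℝ, 0 ≤ τ → τ < 9 / 4 → Y ≤ q * (1 + q) - τ / (2 * (1223 / 1000)) *
      (q ^ 2 * e - (1223 / 1000 - 1) * (q * (8 - q)) / (9 - 4 * τ))) :
    X ≤ 2041 / 2000 * (1 + e) ^ 4 := by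
  refine real_fin he (by norm_num) ?_
  rcases le_total q 5 with g0 | g0
  · linarith [mul_le_mul_of_nonneg_right g0 he, sq_nonneg (e - 21 / 500),
      mul_nonneg he (sq_nonneg (e - 21 / 500))]
  rcases le_total q (29 / 5) with g1 | g1
  · exact real_piece (250 / 1223) (223 / 7000) 0 he h2 h3 (by norm_num) (by norm_num)
      (real_tau h4 (1 / 2) (by norm_num)) (by norm_num) g0 g1
      (by linarith [sq_nonneg e, mul_nonneg he (sq_nonneg e)])
      (real_cub he (9 / 400) fun h h' => by linarith)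
  rcases le_total q (69 / 10) with g2 | g2
  · exact real_piece (350 / 1223) (223 / 6200) (9 / 100) he h2 h3 (by norm_num) (by norm_num)
      (real_tau h4 (7 / 10) (by norm_num)) (by norm_num) g1 g2
      (real_cub he (37 / 2000) fun h h' => by linarith)
      (real_cub he (123 / 2500) fun h h' => by linarith)
  · exact real_piece (500 / 1223) (223 / 5000) (1 / 5) he h2 h3 (by norm_num) (by norm_num)
      (real_tau h4 1 (by norm_num)) (by norm_num) g2 q8
      (real_cub he (1 / 25) fun h h' => by linarith)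
      (real_cub he (3 / 50) fun h h' => by linarith)

theorem real_d {e q Y X : ℝ} (he : 0 ≤ e) (q8 : q ≤ 8)
    (h1 : X * (1 + e) ≤ 1 + e + q * e) (h2 : q * X * (1 + e) ≤ Y * (1 + e) - q ^ 2)
    (h3 : q ^ 2 ≤ 1 * (1 + e) * Y)
    (h4 : ∀ τ : ℝ, 0 ≤ τ → τ < 9 / 4 → Y ≤ q * (1 + q) - τ / (2 * (243 / 200)) *
      (q ^ 2 * e - (243 / 200 - 1) * (q * (8 - q)) / (9 - 4 * τ))) :
    X ≤ 2041 / 2000 * (1 + e) ^ 4 := by
  refine real_fin he (by norm_num) ?_
  rcases le_total q 5 with g0 | g0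
  · linarith [mul_le_mul_of_nonneg_right g0 he, sq_nonneg (e - 21 / 500),
      mul_nonneg he (sq_nonneg (e - 21 / 500))]
  rcases le_total q (117 / 20) with g1 | g1
  · exact real_piece (50 / 243) (43 / 1400) 0 he h2 h3 (by norm_num) (by norm_num)
      (real_tau h4 (1 / 2) (by norm_num)) (by norm_num) g0 g1
      (by linarith [sq_nonneg e, mul_nonneg he (sq_nonneg e)])
      (real_cub he (3 / 125) fun h h' => by linarith)
  rcases le_total q (123 / 20) with g2 | g2
  · exact real_piece (65 / 243) (43 / 1280) 0 he h2 h3 (by norm_num) (by norm_num)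
      (real_tau h4 (13 / 20) (by norm_num)) (by norm_num) g1 g2
      (real_cub he (9 / 1000) fun h h' => by linarith)
      (real_cub he (7 / 400) fun h h' => by linarith)
  rcases le_total q (127 / 20) with g3 | g3
  · exact real_piece (70 / 243) (43 / 1240) 0 he h2 h3 (by norm_num) (by norm_num)
      (real_tau h4 (7 / 10) (by norm_num)) (by norm_num) g2 g3
      (real_cub he (1 / 80) fun h h' => by linarith)
      (real_cub he (89 / 5000) fun h h' => by linarith)
  rcases le_total q (67 / 10) with g4 | g4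
  · exact real_piece (25 / 81) (43 / 1200) 0 he h2 h3 (by norm_num) (by norm_num)
      (real_tau h4 (3 / 4) (by norm_num)) (by norm_num) g3 g4
      (real_cub he (13 / 1000) fun h h' => by linarith)
      (real_cub he (27 / 1250) fun h h' => by linarith)
  · exact real_piece (10 / 27) (43 / 1080) 0 he h2 h3 (by norm_num) (by norm_num)
      (real_tau h4 (9 / 10) (by norm_num)) (by norm_num) g4 q8
      (real_cub he (1 / 100) fun h h' => by linarith)
      (real_cub he (7 / 200) fun h h' => by linarith)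

end Pool.Agent.P.MP_2e1554_gt
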