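import Pool.Agent.P.MP_2e1554_gt.IsoCore
import Pool.Agent.P.MP_2e1554_gt.IsoReal

open MeasureTheory Set Finset Matrix Filter Topology Pointwise

namespace Pool.Agent.P.MP_2e1554_gt

variable {n : ℕ}

lemma chord_dens {K : Set (Fin 3 → ℝ)} (hK : Body K) (z : Fin 2 → ℝ) {L F : ℝ} (hL : 0 < L)
    (hF : ∀ y, cl K y ≤ F * L) :
    Dens (fun y => L⁻¹ * cl K (z + y)) ((fun y => z + y) ⁻¹' {w | ∃ t, ins 0 t w ∈ K}) F := by
  have h := dens_cl hK hF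
  have hi : 0 ≤ L⁻¹ := inv_nonneg.2 hL.le
  refine ⟨h.cvx.translate_preimage_right z, (Homeomorph.addLeft z).isCompact_preimage.2 h.cpt,
    (h.meas.comp (measurable_const_add z)).const_mul _, fun y => mul_nonneg hi (h.nonneg _),
    fun y => ?_, fun y hy => by rw [h.off _ hy, mul_zero], (h.conc.translate_right z).smul hi⟩
  rw [inv_mul_le_iff₀ hL, mul_comm]
  exact hF _

lemma chord_int {K : Set (Fin 3 → ℝ)} (hK : IsCompact K) (z : Fin 2 → ℝ) (L : ℝ)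
    {φ : (Fin 2 → ℝ) → ℝ} (hφ : Continuous φ) :
    ∫ y, φ y * (L⁻¹ * cl K (z + y)) = L⁻¹ * ∫ x in K, φ ((fun i => x (Fin.succ i)) - z) := by
  have hc : Continuous fun w : Fin 2 → ℝ => φ (w - z) :=
    hφ.comp (continuous_id.sub continuous_const)
  rw [(integral_cl hK hc).2, ← integral_add_left_eq_self (fun w => φ (w - z) * cl K w) z,
    ← integral_const_mul]
  refine integral_congr_ae (Eventually.of_forall fun y => ?_)
  simp only [add_sub_cancel_left]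
  ring

lemma chord_m1 {K : Set (Fin 3 → ℝ)} (hK : Iso K) (i : Fin 3) (a : ℝ) :
    ∫ x in K, (x i - a) = -(a * volume.real K) := by
  have h1 : IntegrableOn (fun x : Fin 3 → ℝ => x i) K :=
    (continuous_apply i).continuousOn.integrableOn_compact hK.cpt
  have h2 : IntegrableOn (fun _ : Fin 3 → ℝ => a) K :=
    continuous_const.continuousOn.integrableOn_compact hK.cpt
  rw [integral_sub h1 h2, hK.m1, setIntegral_const, smul_eq_mul]
  ring

lemma chord_m2 {K : Set (Fin 3 → ℝ)} (hK : Iso K) (i j : Fin 3) (a b : ℝ) :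
    ∫ x in K, (x i - a) * (x j - b) =
      (if i = j then volume.real K else 0) + a * b * volume.real K := by
  have h1 : IntegrableOn (fun x : Fin 3 → ℝ => x i * x j) K :=
    ((continuous_apply i).mul (continuous_apply j)).continuousOn.integrableOn_compact hK.cpt
  have h2 : IntegrableOn (fun x : Fin 3 → ℝ => b * x i) K :=
    (continuous_const.mul (continuous_apply i)).continuousOn.integrableOn_compact hK.cpt
  have h3 : IntegrableOn (fun x : Fin 3 → ℝ => a * (x j - b)) K :=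
    (continuous_const.mul ((continuous_apply j).sub
      continuous_const)).continuousOn.integrableOn_compact hK.cpt
  have e : ∀ x : Fin 3 → ℝ, (x i - a) * (x j - b) = x i * x j - b * x i - a * (x j - b) :=
    fun x => by ring
  have h4 : IntegrableOn (fun x : Fin 3 → ℝ => x i * x j - b * x i) K := h1.sub h2
  simp only [e]
  rw [integral_sub h4 h3, integral_sub h1 h2, integral_const_mul, integral_const_mul,
    hK.m1, hK.m2, chord_m1 hK]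
  ring

lemma chord_dot (t : ℝ) (z : Fin 2 → ℝ) (s : ℝ) (w : Fin 2 → ℝ) :
    ins 0 t z ⬝ᵥ ins 0 s w = t * s + z ⬝ᵥ w := by
  simp only [dotProduct]
  rw [Fin.sum_univ_succAbove _ 0]
  simp only [ins_same, ins_succAbove]

lemma chord_mem {K : Set (Fin 3 → ℝ)} {z : Fin 2 → ℝ} (h : 0 < cl K z) : ∃ t, ins 0 t z ∈ K := by
  by_contra h'
  have : {t : ℝ | ins 0 t z ∈ K} = ∅ := Set.eq_empty_of_forall_notMem fun t ht => h' ⟨t, ht⟩
  rw [cl, this] at h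
  simp at h

lemma chord_rad {K : Set (Fin 3 → ℝ)} (hK : Iso K) {z : Fin 2 → ℝ} {t : ℝ}
    (h : ins 0 t z ∈ K) : z ⬝ᵥ z ≤ 15 := by
  have h1 := hK.rad h
  rw [chord_dot] at h1
  push_cast at h1
  nlinarith [mul_self_nonneg t]

lemma chord_alg1 {V L D : ℝ} (hL : 0 < L) (hV : 0 < V)
    (h : 25 * (L⁻¹ * V) ^ 2 * (1 + D) ≤ (3 * (L⁻¹ * V)) ^ 4 / 12) :
    L ^ 2 * (1 + D) ≤ 27 / 100 * V ^ 2 := by
  obtain ⟨r, hr⟩ : ∃ r, r = L⁻¹ * V := ⟨_, rfl⟩
  have hr0 : 0 < r := by rw [hr]; positivity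
  have hV' : V = r * L := by rw [hr]; field_simp
  rw [← hr] at h
  have h2 : 1 + D ≤ 27 / 100 * r ^ 2 := by
    have : r ^ 2 * (1 + D) ≤ r ^ 2 * (27 / 100 * r ^ 2) := by nlinarith
    exact le_of_mul_le_mul_left this (by positivity)
  rw [hV']
  nlinarith [mul_le_mul_of_nonneg_left h2 (sq_nonneg L)]

lemma chord_alg2 {V L D E X : ℝ} (hL : 0 < L) (hV : 0 < V)
    (h : 108 * ((L⁻¹ * V) ^ 2 * (25 - 5 / 3 * D)) * E = X * (3 * (L⁻¹ * V)) ^ 4) :
    L ^ 2 * (15 - D) * E = 9 / 20 * V ^ 2 * X := by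
  obtain ⟨r, hr⟩ : ∃ r, r = L⁻¹ * V := ⟨_, rfl⟩
  have hr0 : 0 < r := by rw [hr]; positivity
  have hV' : V = r * L := by rw [hr]; field_simp
  rw [← hr] at h
  have h2 : (15 - D) * E = 9 / 20 * r ^ 2 * X := by
    have : r ^ 2 * ((15 - D) * E) = r ^ 2 * (9 / 20 * r ^ 2 * X) := by linear_combination h / 180
    exact mul_left_cancel₀ (by positivity) this
  rw [hV']
  linear_combination L ^ 2 * h2

lemma chord_alg3 {r a0 z0 z1 u0 u1 : ℝ} (ha1 : a0 ≤ 1)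
    (ha : 16 * (z0 * z0 + z1 * z1) ≤ 15 * a0 * (1 + (z0 * z0 + z1 * z1))) :
    (4 * (-(z0 * r)) * u0 + 4 * (-(z1 * r)) * u1) ^ 2 ≤
      a0 * (3 * r) * (5 * (r + z0 * z0 * r) * u0 ^ 2 + 2 * (5 * (z0 * z1 * r)) * u0 * u1 +
        5 * (r + z1 * z1 * r) * u1 ^ 2) := by
  have h1 : (z0 * u0 + z1 * u1) ^ 2 ≤ (z0 * z0 + z1 * z1) * (u0 ^ 2 + u1 ^ 2) := by
    nlinarith [sq_nonneg (z0 * u1 - z1 * u0)]
  have h2 : (16 - 15 * a0) * (z0 * u0 + z1 * u1) ^ 2 ≤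
      (16 - 15 * a0) * ((z0 * z0 + z1 * z1) * (u0 ^ 2 + u1 ^ 2)) :=
    mul_le_mul_of_nonneg_left h1 (by linarith)
  have h3 : (16 - 15 * a0) * (z0 * z0 + z1 * z1) * (u0 ^ 2 + u1 ^ 2) ≤
      15 * a0 * (u0 ^ 2 + u1 ^ 2) :=
    mul_le_mul_of_nonneg_right (by linarith) (by positivity)
  have h4 : 16 * (z0 * u0 + z1 * u1) ^ 2 ≤
      15 * a0 * (u0 ^ 2 + u1 ^ 2 + (z0 * u0 + z1 * u1) ^ 2) := by linarith
  have h5 := mul_le_mul_of_nonneg_left h4 (sq_nonneg r)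
  linarith

/-- the data of the core lemma for the chord function -/
lemma chord_data {K : Set (Fin 3 → ℝ)} (hK : Iso K) (z : Fin 2 → ℝ) (hL : 0 < cl K z) {F s a0 : ℝ}
    (hF : ∀ y, cl K y ≤ F * cl K z) (hs : 1 ≤ s) (hFs : 27 * F ≤ 16 * s ^ 3) (ha1 : a0 ≤ 1)
    (ha : 16 * (z ⬝ᵥ z) ≤ 15 * a0 * (1 + z ⬝ᵥ z)) :
    cl K z ^ 2 * (1 + z ⬝ᵥ z) ≤ 27 / 100 * volume.real K ^ 2 ∧
    ∃ e q Y X : ℝ, 0 ≤ e ∧ 0 ≤ q ∧ q ≤ 8 ∧
      cl K z ^ 2 * (15 - z ⬝ᵥ z) * (1 + e) ^ 4 = 9 / 20 * volume.real K ^ 2 * X ∧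
      X * (1 + e) ≤ 1 + e + q * e ∧
      q * X * (1 + e) ≤ Y * (1 + e) - q ^ 2 ∧ q ^ 2 ≤ a0 * (1 + e) * Y ∧
      ∀ τ : ℝ, 0 ≤ τ → τ < 9 / 4 →
        Y ≤ q * (1 + q) - τ / (2 * s) * (q ^ 2 * e - (s - 1) * (q * (8 - q)) / (9 - 4 * τ)) := by
  have hV : 0 < volume.real K := hK.toBody.vol_pos
  have hD := chord_dens hK.toBody z hL hF
  obtain ⟨L, hLe⟩ : ∃ L, L = cl K z := ⟨_, rfl⟩
  obtain ⟨V, hVe⟩ : ∃ V, V = volume.real K := ⟨_, rfl⟩
  have hz : z ⬝ᵥ z = z 0 * z 0 + z 1 * z 1 := by simp [dotProduct, Fin.sum_univ_two]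
  have h0 : (0 : Fin 2 → ℝ) ∈ (fun y => z + y) ⁻¹' {w | ∃ t, ins 0 t w ∈ K} := by
    simpa using chord_mem hL
  have g0 : (fun y => (cl K z)⁻¹ * cl K (z + y)) 0 = 1 := by
    simp only [add_zero]; exact inv_mul_cancel₀ hL.ne'
  rw [← hLe] at hD hL g0 ⊢
  rw [← hVe] at hV ⊢
  have i0 : ∫ y, L⁻¹ * cl K (z + y) = L⁻¹ * V := by
    have := chord_int hK.cpt z L (φ := fun _ => 1) continuous_const
    simpa [hVe] using this
  have i1 : ∀ i : Fin 2, ∫ y, y i * (L⁻¹ * cl K (z + y)) = -(z i * (L⁻¹ * V)) := by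
    intro i
    rw [chord_int hK.cpt z L (φ := fun y => y i) (continuous_apply i)]
    simp only [Pi.sub_apply]
    rw [chord_m1 hK, ← hVe]
    ring
  have i2 : ∀ i j : Fin 2, ∫ y, y i * y j * (L⁻¹ * cl K (z + y)) =
      (if i = j then L⁻¹ * V else 0) + z i * z j * (L⁻¹ * V) := by
    intro i j
    rw [chord_int hK.cpt z L (φ := fun y => y i * y j)
      ((continuous_apply i).mul (continuous_apply j))]
    simp only [Pi.sub_apply]
    rw [chord_m2 hK, ← hVe]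
    by_cases hij : i = j
    · simp only [hij, if_true]; ring
    · have : ¬ i.succ = j.succ := fun h => hij (Fin.succ_injective _ h)
      simp only [hij, this, if_false]; ring
  have hr : 0 < L⁻¹ * V := by positivity
  obtain ⟨c1, e, q, Y, X, c2, c3, c4, c5, c6⟩ := core_data hD h0 g0 hs hFs
    (ν := 3 * (L⁻¹ * V)) (m0 := 4 * (-(z 0 * (L⁻¹ * V)))) (m1 := 4 * (-(z 1 * (L⁻¹ * V))))
    (Q00 := 5 * (L⁻¹ * V + z 0 * z 0 * (L⁻¹ * V))) (Q01 := 5 * (z 0 * z 1 * (L⁻¹ * V)))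
    (Q11 := 5 * (L⁻¹ * V + z 1 * z 1 * (L⁻¹ * V)))
    (Δ := (L⁻¹ * V) ^ 2 * (25 - 5 / 3 * (z ⬝ᵥ z))) (by rw [i0]) (by positivity) (by rw [i1])
    (by rw [i1]) (by rw [i2]; simp) (by rw [i2]; simp) (by rw [i2]; simp)
    (by
      rw [hz]
      generalize L⁻¹ * V = r at hr
      field_simp
      ring) ha1 (fun u0 u1 => chord_alg3 ha1 (hz ▸ ha))
  refine ⟨chord_alg1 hL hV ?_, e, q, Y, X, c2, c3, c4, chord_alg2 hL hV c5, c6⟩
  rw [hz]
  linarith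

lemma chord_fin {A E X c V : ℝ} (hE : 0 < E) (h : A * E = 9 / 20 * V ^ 2 * X) (hX : X ≤ c * E) :
    A ≤ c * (9 / 20) * V ^ 2 := by
  have h1 := mul_le_mul_of_nonneg_left hX (by positivity : 0 ≤ 9 / 20 * V ^ 2)
  have : A * E ≤ c * (9 / 20) * V ^ 2 * E := by linarith
  exact le_of_mul_le_mul_right this hE

lemma chord_step1 {K : Set (Fin 3 → ℝ)} (hK : Iso K) (z : Fin 2 → ℝ) :
    cl K z ^ 2 * (1 + z ⬝ᵥ z) ≤ 27 / 100 * volume.real K ^ 2 ∧
    cl K z ^ 2 ≤ 504 / 10000 * volume.real K ^ 2 := by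
  have h0 : 0 ≤ cl K z := measureReal_nonneg
  rcases h0.eq_or_lt with h | hL
  · rw [← h]
    constructor <;> simp only [ne_eq, OfNat.ofNat_ne_zero, not_false_eq_true, zero_pow, zero_mul] <;>
      positivity
  obtain ⟨F0, hF0⟩ := cl_bdd hK.cpt
  obtain ⟨t, ht⟩ := chord_mem hL
  have h15 := chord_rad hK ht
  have hF : 0 ≤ F0 / cl K z := div_nonneg (h0.trans (hF0 z)) h0
  obtain ⟨c1, e, q, Y, X, c2, c3, c4, c5, c6, -⟩ := chord_data hK z hL (F := F0 / cl K z)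
    (s := 1 + F0 / cl K z) (a0 := 1) (fun y => by rw [div_mul_cancel₀ _ hL.ne']; exact hF0 y)
    (by linarith) (by nlinarith [mul_nonneg hF hF, mul_nonneg hF (mul_nonneg hF hF)]) le_rfl
    (by linarith)
  have := chord_fin (by positivity) c5 (real_rough c2 c3 c4 c6)
  exact ⟨c1, by nlinarith [sq_nonneg (volume.real K)]⟩

lemma chord_bound {K : Set (Fin 3 → ℝ)} (hK : Iso K) {L F : ℝ} (hL : 0 ≤ L) (hF : 0 ≤ F)
    (h : 504 / 10000 * volume.real K ^ 2 ≤ F ^ 2 * L ^ 2) (y : Fin 2 → ℝ) : cl K y ≤ F * L := by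
  refine abs_le_of_sq_le_sq' ?_ (mul_nonneg hF hL) |>.2
  rw [mul_pow]
  exact (chord_step1 hK y).2.trans h

/-- the chord lemma for chords parallel to the first coordinate, first pass -/
theorem chord_axis0 {K : Set (Fin 3 → ℝ)} (hK : Iso K) (z : Fin 2 → ℝ) :
    cl K z ^ 2 * (1 + z ⬝ᵥ z) ≤ 27 / 100 * volume.real K ^ 2 ∧
    cl K z ^ 2 * (15 - z ⬝ᵥ z) ≤ 103 / 100 * (9 / 20) * volume.real K ^ 2 ∧
    (z ⬝ᵥ z ≤ 11 / 4 → cl K z ^ 2 * (15 - z ⬝ᵥ z) ≤ 9 / 20 * volume.real K ^ 2) := by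
  have h0 : 0 ≤ cl K z := measureReal_nonneg
  have hz : 0 ≤ z ⬝ᵥ z := Finset.sum_nonneg fun i _ => mul_self_nonneg _
  have hV2 := sq_nonneg (volume.real K)
  have hL2 := sq_nonneg (cl K z)
  rcases h0.eq_or_lt with h | hL
  · rw [← h]
    refine ⟨?_, ?_, fun _ => ?_⟩ <;>
      simp only [ne_eq, OfNat.ofNat_ne_zero, not_false_eq_true, zero_pow, zero_mul] <;> positivity
  obtain ⟨t, ht⟩ := chord_mem hL
  have h15 := chord_rad hK ht
  have h3 : z ⬝ᵥ z ≤ 11 / 4 → cl K z ^ 2 * (15 - z ⬝ᵥ z) ≤ 9 / 20 * volume.real K ^ 2 := by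
    intro hD
    by_contra hc
    rw [not_le] at hc
    have hb := chord_bound hK h0 (F := 13 / 10) (by norm_num) (by nlinarith [mul_nonneg hL2 hz])
    obtain ⟨-, e, q, Y, X, c2, c3, c4, c5, c6, c7, c8, c9⟩ := chord_data hK z hL hb
      (s := 13 / 10) (a0 := 176 / 225) (by norm_num) (by norm_num) (by norm_num) (by linarith)
    have := chord_fin (c := 1) (by positivity) c5
      (by rw [one_mul]; exact real_exact c2 c3 c4 c6 c7 c8 c9)
    linarith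
  refine ⟨(chord_step1 hK z).1, ?_, h3⟩
  rcases le_total (z ⬝ᵥ z) (11 / 4) with hD | hD
  · linarith [h3 hD]
  · by_contra hc
    rw [not_le] at hc
    have hb := chord_bound hK h0 (F := 118 / 100) (by norm_num)
      (by nlinarith [mul_nonneg hL2 (sub_nonneg.2 hD)])
    obtain ⟨-, e, q, Y, X, c2, c3, c4, c5, c6, c7, -, c9⟩ := chord_data hK z hL hb
      (s := 63 / 50) (a0 := 1) (by norm_num) (by norm_num) le_rfl (by linarith)
    have := chord_fin (by positivity) c5 (real_103 c2 c3 c4 c6 c7 c9)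
    linarith

lemma chord_bound2 {K : Set (Fin 3 → ℝ)} (hK : Iso K) {L F : ℝ} (hL : 0 ≤ L) (hF : 0 ≤ F)
    (h : 45844 / 1000000 * volume.real K ^ 2 ≤ F ^ 2 * L ^ 2) (y : Fin 2 → ℝ) :
    cl K y ≤ F * L := by
  refine abs_le_of_sq_le_sq' ?_ (mul_nonneg hF hL) |>.2
  obtain ⟨h1, h2, -⟩ := chord_axis0 hK y
  rw [mul_pow]
  linarith [sq_nonneg (volume.real K)]

/-- the chord lemma for chords parallel to the first coordinate -/
theorem chord_axis {K : Set (Fin 3 → ℝ)} (hK : Iso K) (z : Fin 2 → ℝ) :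
    cl K z ^ 2 * (1 + z ⬝ᵥ z) ≤ 27 / 100 * volume.real K ^ 2 ∧
    cl K z ^ 2 * (15 - z ⬝ᵥ z) ≤ 2041 / 2000 * (9 / 20) * volume.real K ^ 2 ∧
    (z ⬝ᵥ z ≤ 11 / 4 → cl K z ^ 2 * (15 - z ⬝ᵥ z) ≤ 9 / 20 * volume.real K ^ 2) ∧
    (z ⬝ᵥ z ≤ 3 →
      cl K z ^ 2 * (15 - z ⬝ᵥ z) ≤ 2011 / 2000 * (9 / 20) * volume.real K ^ 2) ∧
    (z ⬝ᵥ z ≤ 13 / 4 →
      cl K z ^ 2 * (15 - z ⬝ᵥ z) ≤ 1013 / 1000 * (9 / 20) * volume.real K ^ 2) := by
  have h0 : 0 ≤ cl K z := measureReal_nonneg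
  have hV2 := sq_nonneg (volume.real K)
  have hL2 := sq_nonneg (cl K z)
  obtain ⟨k1, -, k3⟩ := chord_axis0 hK z
  rcases h0.eq_or_lt with h | hL
  · rw [← h]
    refine ⟨?_, ?_, fun _ => ?_, fun _ => ?_, fun _ => ?_⟩ <;>
      simp only [ne_eq, OfNat.ofNat_ne_zero, not_false_eq_true, zero_pow, zero_mul] <;> positivity
  obtain ⟨t, ht⟩ := chord_mem hL
  have h15 := chord_rad hK ht
  have ka : z ⬝ᵥ z ≤ 3 →
      cl K z ^ 2 * (15 - z ⬝ᵥ z) ≤ 2011 / 2000 * (9 / 20) * volume.real K ^ 2 := by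
    intro hD
    rcases le_total (z ⬝ᵥ z) (11 / 4) with hE | hE
    · linarith [k3 hE]
    by_contra hc
    rw [not_le] at hc
    have hb := chord_bound2 hK h0 (F := 279 / 250) (by norm_num)
      (by linarith [mul_nonneg hL2 (sub_nonneg.2 hE)])
    obtain ⟨-, e, q, Y, X, c2, -, c4, c5, c6, c7, c8, c9⟩ := chord_data hK z hL hb
      (s := 247 / 200) (a0 := 4 / 5) (by norm_num) (by norm_num) (by norm_num) (by linarith)
    exact absurd (chord_fin (by positivity) c5 (real_a c2 c4 c6 c7 c8 c9)) hc.not_ge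
  have kb : z ⬝ᵥ z ≤ 13 / 4 →
      cl K z ^ 2 * (15 - z ⬝ᵥ z) ≤ 1013 / 1000 * (9 / 20) * volume.real K ^ 2 := by
    intro hD
    rcases le_total (z ⬝ᵥ z) 3 with hE | hE
    · linarith [ka hE]
    by_contra hc
    rw [not_le] at hc
    have hb := chord_bound2 hK h0 (F := 11 / 10) (by norm_num)
      (by linarith [mul_nonneg hL2 (sub_nonneg.2 hE)])
    obtain ⟨-, e, q, Y, X, c2, -, c4, c5, c6, c7, c8, c9⟩ := chord_data hK z hL hb
      (s := 123 / 100) (a0 := 208 / 255) (by norm_num) (by norm_num) (by norm_num) (by linarith)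
    exact absurd (chord_fin (by positivity) c5 (real_b c2 c4 c6 c7 c8 c9)) hc.not_ge
  refine ⟨k1, ?_, k3, ka, kb⟩
  rcases le_total (z ⬝ᵥ z) (13 / 4) with hE | hE
  · linarith [kb hE]
  by_contra hc
  rw [not_le] at hc
  rcases le_total (z ⬝ᵥ z) (37 / 10) with hD | hD
  · have hb := chord_bound2 hK h0 (F := 271 / 250) (by norm_num)
      (by linarith [mul_nonneg hL2 (sub_nonneg.2 hE)])
    obtain ⟨-, e, q, Y, X, c2, -, c4, c5, c6, c7, c8, c9⟩ := chord_data hK z hL hb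
      (s := 1223 / 1000) (a0 := 592 / 705) (by norm_num) (by norm_num) (by norm_num) (by linarith)
    exact absurd (chord_fin (by positivity) c5 (real_c c2 c4 c6 c7 c8 c9)) hc.not_ge
  · have hb := chord_bound2 hK h0 (F := 2657 / 2500) (by norm_num)
      (by linarith [mul_nonneg hL2 (sub_nonneg.2 hD)])
    obtain ⟨-, e, q, Y, X, c2, -, c4, c5, c6, c7, c8, c9⟩ := chord_data hK z hL hb
      (s := 243 / 200) (a0 := 1) (by norm_num) (by norm_num) le_rfl (by linarith)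
    exact absurd (chord_fin (by positivity) c5 (real_d c2 c4 c6 c7 c8 c9)) hc.not_ge

lemma chord_eta (x : Fin 3 → ℝ) : ins 0 (x 0) (fun i => x (Fin.succ i)) = x := by
  ext i
  refine Fin.succAboveCases 0 ?_ (fun j => ?_) i
  · simp
  · rw [ins_succAbove]; simp

/-- the chord lemma -/
theorem chord {K : Set (Fin 3 → ℝ)} (hK : Iso K) {x y : Fin 3 → ℝ} (hx : x ∈ K) (hy : y ∈ K)
    {L W : ℝ} (eL : L = (x - y) ⬝ᵥ (x - y)) (eW : W = (x ⬝ᵥ x) * (y ⬝ᵥ y) - (x ⬝ᵥ y) ^ 2) :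
    L + W ≤ 27 / 100 * volume.real K ^ 2 ∧
    15 * L - W ≤ 2041 / 2000 * (9 / 20) * volume.real K ^ 2 ∧
    (W ≤ 11 / 4 * L → 15 * L - W ≤ 9 / 20 * volume.real K ^ 2) ∧
    (W ≤ 3 * L → 15 * L - W ≤ 2011 / 2000 * (9 / 20) * volume.real K ^ 2) ∧
    (W ≤ 13 / 4 * L → 15 * L - W ≤ 1013 / 1000 * (9 / 20) * volume.real K ^ 2) := by
  obtain ⟨O, hO, hv⟩ := exists_rot (x - y)
  have hK' := hK.rot hO
  have hvol : volume.real (aff O 0 K) = volume.real K := by rw [vol_aff, rot_det hO, one_mul]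
  have hx' : O *ᵥ x ∈ aff O 0 K := ⟨x, hx, add_zero _⟩
  have hy' : O *ᵥ y ∈ aff O 0 K := ⟨y, hy, add_zero _⟩
  have hL0 : 0 ≤ L := eL ▸ Finset.sum_nonneg fun i _ => mul_self_nonneg _
  rw [mulVec_sub, ← eL] at hv
  rw [← rot_dot hO x x, ← rot_dot hO y y, ← rot_dot hO x y] at eW
  obtain ⟨a, z, ea⟩ : ∃ a z, ins 0 a z = O *ᵥ x := ⟨_, _, chord_eta _⟩
  obtain ⟨b, w, eb⟩ : ∃ b w, ins 0 b w = O *ᵥ y := ⟨_, _, chord_eta _⟩
  rw [← ea] at hx'
  rw [← eb] at hy'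
  rw [← ea, ← eb] at hv eW
  have hab : a - b = Real.sqrt L := by simpa using congrFun hv 0
  have hzw : w = z := by
    ext i
    have := congrFun hv ((0 : Fin 3).succAbove i)
    rw [Pi.sub_apply, ins_succAbove, ins_succAbove,
      Pi.single_eq_of_ne (Fin.succAbove_ne 0 i)] at this
    linarith
  subst hzw
  simp only [chord_dot] at eW
  have hL : (a - b) ^ 2 = L := by rw [hab, Real.sq_sqrt hL0]
  have hW : W = w ⬝ᵥ w * L := by rw [eW, ← hL]; ring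
  have hc := le_cl hK'.cvx hK'.cpt hy' hx'
  have hLc : L ≤ cl (aff O 0 K) w ^ 2 := by
    rw [← hL]
    exact pow_le_pow_left₀ (hab ▸ Real.sqrt_nonneg L) hc 2
  have h15 := chord_rad hK' hx'
  have hz : 0 ≤ w ⬝ᵥ w := Finset.sum_nonneg fun i _ => mul_self_nonneg _
  obtain ⟨c1, c2, c3, c4, c5⟩ := chord_axis hK' w
  rw [hvol] at c1 c2 c3 c4 c5
  have k1 := mul_le_mul_of_nonneg_right hLc (by linarith : 0 ≤ 1 + w ⬝ᵥ w)
  have k2 := mul_le_mul_of_nonneg_right hLc (by linarith : 0 ≤ 15 - w ⬝ᵥ w)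
  have k3 : ∀ D C : ℝ, 0 ≤ C → (w ⬝ᵥ w ≤ D → cl (aff O 0 K) w ^ 2 * (15 - w ⬝ᵥ w) ≤ C) →
      W ≤ D * L → 15 * L - W ≤ C := by
    intro D C hC c h
    rcases hL0.eq_or_lt with h0 | h0
    · rw [hW, ← h0]
      simpa only [mul_zero, sub_zero] using hC
    · have : w ⬝ᵥ w ≤ D := le_of_mul_le_mul_right (by linarith) h0
      linarith [c this]
  exact ⟨by linarith, by linarith, k3 _ _ (by positivity) c3, k3 _ _ (by positivity) c4,
    k3 _ _ (by positivity) c5⟩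

end Pool.Agent.P.MP_2e1554_gt
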