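import Pool.Agent.P.MP_2e1554_gt.IsoGam
import Pool.Agent.P.MP_2e1554_gt.IsoRot

open MeasureTheory Set Finset Matrix Filter Topology Pointwise

namespace Pool.Agent.P.MP_2e1554_gt

variable {n : ℕ}

private lemma cone_hyper_null {v : Fin n → ℝ} (hv : v ≠ 0) :
    ∀ᵐ x : Fin n → ℝ, v ⬝ᵥ x ≠ 0 := by
  let L : (Fin n → ℝ) →ₗ[ℝ] ℝ :=
    { toFun := fun x => v ⬝ᵥ x
      map_add' := fun x y => dotProduct_add v x y
      map_smul' := fun c x => by simp [dotProduct_smul] }
  have hne : LinearMap.ker L ≠ ⊤ := by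
    intro h
    have hm : v ∈ LinearMap.ker L := by rw [h]; trivial
    have : v ⬝ᵥ v = 0 := hm
    exact hv (dotProduct_self_eq_zero.mp this)
  have h0 := Measure.addHaar_submodule (volume : Measure (Fin n → ℝ)) (LinearMap.ker L) hne
  rw [ae_iff]
  refine measure_mono_null ?_ h0
  intro x hx
  simp only [ne_eq, not_not, Set.mem_ofPred_eq] at hx
  exact hx

private lemma cone_ae_ne_zero (hn : 1 ≤ n) : ∀ᵐ x : Fin n → ℝ, x ≠ 0 := by
  have hv : (Pi.single (⟨0, hn⟩ : Fin n) (1 : ℝ) : Fin n → ℝ) ≠ 0 := by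
    intro h
    have := congrFun h ⟨0, hn⟩
    simp at this
  filter_upwards [cone_hyper_null hv] with x hx h
  exact hx (by rw [h, dotProduct_zero])

private lemma cone_ae_sep (A : Finset (Fin n → ℝ)) :
    ∀ᵐ x : Fin n → ℝ, ∀ a ∈ A, ∀ a' ∈ A, a ≠ a' → a ⬝ᵥ x ≠ a' ⬝ᵥ x := by
  rw [Filter.eventually_all_finset]
  intro a _
  rw [Filter.eventually_all_finset]
  intro a' _
  by_cases h : a = a'
  · exact Filter.Eventually.of_forall fun x hx => absurd h hx
  · filter_upwards [cone_hyper_null (sub_ne_zero.mpr h)] with x hx _ hh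
    exact hx (by rw [sub_dotProduct, hh, sub_self])

private lemma cone_exists {A : Finset (Fin n → ℝ)} (hb : Bornology.IsBounded (poly A))
    {x : Fin n → ℝ} (hx : x ≠ 0) : ∃ a ∈ A, x ∈ cone A a := by
  obtain ⟨c, hc, hl⟩ := gam_lower hb
  have hpos : 0 < gam A x := lt_of_lt_of_le (mul_pos hc (norm_pos_iff.mpr hx)) (hl x)
  have hne : A.Nonempty := by
    by_contra h
    rw [Finset.not_nonempty_iff_eq_empty] at h
    have : gam A x ≤ 0 := gam_le.mpr ⟨le_rfl, by simp [h]⟩
    linarith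
  obtain ⟨a, ha, hmax⟩ := A.exists_max_image (fun a => a ⬝ᵥ x) hne
  refine ⟨a, ha, ?_, hmax⟩
  by_contra h
  have h' : a ⬝ᵥ x ≤ 0 := not_lt.mp h
  have : gam A x ≤ 0 := gam_le.mpr ⟨le_rfl, fun a' ha' => (hmax a' ha').trans h'⟩
  linarith

theorem sum_cone (hn : 1 ≤ n) {A : Finset (Fin n → ℝ)} (hb : Bornology.IsBounded (poly A))
    {f : (Fin n → ℝ) → ℝ} (hf : Integrable f) : ∑ a ∈ A, ∫ x in cone A a, f x = ∫ x, f x := by
  have h1 : ∀ a ∈ A, ∫ x in cone A a, f x = ∫ x, (cone A a).indicator f x := fun a _ =>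
    (integral_indicator (measurableSet_cone A a)).symm
  rw [Finset.sum_congr rfl h1, ← integral_finsetSum A
    (fun a _ => hf.indicator (measurableSet_cone A a))]
  refine integral_congr_ae ?_
  filter_upwards [cone_ae_ne_zero hn, cone_ae_sep A] with x hx hsep
  obtain ⟨a, ha, hxa⟩ := cone_exists hb hx
  rw [Finset.sum_eq_single a]
  · exact Set.indicator_of_mem hxa f
  · intro a' ha' hne
    refine Set.indicator_of_notMem ?_ f
    intro hxa'
    exact hsep a' ha' a ha hne (le_antisymm (hxa.2 a' ha') (hxa'.2 a ha))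
  · intro h
    exact absurd ha h

private lemma cone_exp {A : Finset (Fin n → ℝ)} (hb : Bornology.IsBounded (poly A)) :
    Integrable (fun x => Real.exp (-gam A x)) ∧
      ∫ x, Real.exp (-gam A x) = n.factorial * volume.real (poly A) := by
  have h := integral_exp_gam hb (f := fun _ => (1 : ℝ)) continuous_const 0 (by simp)
  simpa using h

private lemma cone_wt_eq {A : Finset (Fin n → ℝ)} {a : Fin n → ℝ} (ha : a ∈ A) :
    wt A a = ∫ x in cone A a, Real.exp (-gam A x) := by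
  unfold wt
  refine setIntegral_congr_fun (measurableSet_cone A a) fun x hx => ?_
  simp only [gam_of_mem_cone ha hx]

theorem sum_wt (hn : 1 ≤ n) {A : Finset (Fin n → ℝ)} (hb : Bornology.IsBounded (poly A)) :
    ∑ a ∈ A, wt A a = n.factorial * volume.real (poly A) := by
  rw [Finset.sum_congr rfl fun a ha => cone_wt_eq ha, sum_cone hn hb (cone_exp hb).1]
  exact (cone_exp hb).2

private lemma cone_ball_closed : IsClosed {x : Fin n → ℝ | x ⬝ᵥ x ≤ 1} :=
  isClosed_le (by fun_prop) continuous_const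

private lemma cone_ball_cpt : IsCompact {x : Fin n → ℝ | x ⬝ᵥ x ≤ 1} := by
  refine (isCompact_closedBall (0 : Fin n → ℝ) 1).of_isClosed_subset cone_ball_closed ?_
  intro x hx
  rw [mem_closedBall_zero_iff, pi_norm_le_iff_of_nonneg zero_le_one]
  intro i
  have h1 : x i * x i ≤ x ⬝ᵥ x :=
    Finset.single_le_sum (f := fun j => x j * x j) (fun j _ => mul_self_nonneg _)
      (Finset.mem_univ i)
  have h2 : x ⬝ᵥ x ≤ 1 := hx
  rw [Real.norm_eq_abs, abs_le]
  constructor <;> nlinarith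

theorem sum_sol (hn : 1 ≤ n) {A : Finset (Fin n → ℝ)} (hb : Bornology.IsBounded (poly A)) :
    ∑ a ∈ A, sol A a = volume.real {x : Fin n → ℝ | x ⬝ᵥ x ≤ 1} := by
  have hm : MeasurableSet {x : Fin n → ℝ | x ⬝ᵥ x ≤ 1} := cone_ball_closed.measurableSet
  have hi : Integrable ({x : Fin n → ℝ | x ⬝ᵥ x ≤ 1}.indicator fun _ => (1 : ℝ)) :=
    (integrable_indicator_iff hm).mpr (integrableOn_const cone_ball_cpt.measure_lt_top.ne)
  have h := sum_cone hn hb hi
  rw [integral_indicator hm] at h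
  simp only [integral_const, smul_eq_mul, mul_one, MeasurableSet.univ, measureReal_restrict_apply,
    Set.univ_inter] at h
  rw [← h]
  refine Finset.sum_congr rfl fun a _ => ?_
  rw [setIntegral_indicator hm]
  simp [sol]

private lemma cone_ball_eq : (volume : Measure (Fin n → ℝ)) {x : Fin n → ℝ | x ⬝ᵥ x ≤ 1} =
    volume (Metric.closedBall (0 : EuclideanSpace ℝ (Fin n)) 1) := by
  rw [← (PiLp.volume_preserving_toLp (Fin n)).measure_preimage
    Metric.isClosed_closedBall.measurableSet.nullMeasurableSet]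
  congr 1
  ext x
  simp only [Set.mem_ofPred_eq, Set.mem_preimage, mem_closedBall_zero_iff, EuclideanSpace.norm_eq,
    Real.sqrt_le_one, Real.norm_eq_abs, abs_mul_abs_self, dotProduct, sq]

theorem vol_ball_two : volume.real {x : Fin 2 → ℝ | x ⬝ᵥ x ≤ 1} = Real.pi := by
  rw [Measure.real, cone_ball_eq, EuclideanSpace.volume_closedBall_fin_two]
  simp [Real.pi_pos.le]

theorem vol_ball_three : volume.real {x : Fin 3 → ℝ | x ⬝ᵥ x ≤ 1} = 4 / 3 * Real.pi := by
  rw [Measure.real, cone_ball_eq, EuclideanSpace.volume_closedBall_fin_three]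
  have : 0 ≤ Real.pi * 4 / 3 := by have := Real.pi_pos; positivity
  simp only [ENNReal.ofReal_one, one_pow, one_mul, ENNReal.toReal_ofReal this]
  ring

theorem wt_nonneg (A : Finset (Fin n → ℝ)) (a : Fin n → ℝ) : 0 ≤ wt A a :=
  integral_nonneg fun _ => (Real.exp_pos _).le

private lemma cone_zero (A : Finset (Fin n → ℝ)) : cone A 0 = ∅ := by
  ext x
  simp [cone]

theorem wt_zero (A : Finset (Fin n → ℝ)) : wt A 0 = 0 := by
  simp [wt, cone_zero]

theorem sol_zero (A : Finset (Fin n → ℝ)) : sol A 0 = 0 := by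
  simp [sol, cone_zero]

private lemma cone_shift (hn : 1 ≤ n) {A : Finset (Fin n → ℝ)}
    (hb : Bornology.IsBounded (poly A)) (w : Fin n → ℝ) :
    ∑ a ∈ A, wt A a ≤ ∑ a ∈ A, wt A a * Real.exp (-(a ⬝ᵥ w)) := by
  have hi := (cone_exp hb).1
  have hi' : Integrable (fun x => Real.exp (-gam A (x + w))) :=
    hi.comp_add_right w
  have h1 : ∫ x, Real.exp (-gam A (x + w)) = ∫ x, Real.exp (-gam A x) :=
    integral_add_right_eq_self (fun x => Real.exp (-gam A x)) w
  rw [sum_wt hn hb, ← (cone_exp hb).2, ← h1, ← sum_cone hn hb hi']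
  refine Finset.sum_le_sum fun a ha => ?_
  rw [cone_wt_eq ha, ← integral_mul_const]
  refine setIntegral_mono_on hi'.integrableOn (hi.mul_const _).integrableOn
    (measurableSet_cone A a) fun x hx => ?_
  rw [← Real.exp_add, gam_of_mem_cone ha hx]
  refine Real.exp_le_exp.mpr ?_
  have := le_gam ha (x + w)
  rw [dotProduct_add] at this
  linarith

/-- Minkowski relation -/
theorem sum_wt_dot (hn : 1 ≤ n) {A : Finset (Fin n → ℝ)} (hb : Bornology.IsBounded (poly A))
    (u : Fin n → ℝ) : ∑ a ∈ A, wt A a * (a ⬝ᵥ u) = 0 := by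
  have hd : HasDerivAt (fun t : ℝ => ∑ a ∈ A, wt A a * Real.exp (-(t * (a ⬝ᵥ u))))
      (∑ a ∈ A, wt A a * (Real.exp (-(0 * (a ⬝ᵥ u))) * (-(1 * (a ⬝ᵥ u))))) 0 := by
    refine HasDerivAt.fun_sum fun a _ => ?_
    exact (((hasDerivAt_id' (0 : ℝ)).mul_const (a ⬝ᵥ u)).neg.exp).const_mul _
  have hmin : IsLocalMin (fun t : ℝ => ∑ a ∈ A, wt A a * Real.exp (-(t * (a ⬝ᵥ u)))) 0 := by
    refine Filter.Eventually.of_forall fun t => ?_
    have h := cone_shift hn hb (t • u)
    simp only [dotProduct_smul, smul_eq_mul] at h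
    simpa using h
  have h0 := hmin.hasDerivAt_eq_zero hd
  simp only [zero_mul, neg_zero, Real.exp_zero, one_mul, mul_neg, Finset.sum_neg_distrib,
    neg_eq_zero] at h0
  exact h0

end Pool.Agent.P.MP_2e1554_gt
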