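import Pool.Agent.P.MP_2e1554_gt.IsoBall

open MeasureTheory Set Finset Matrix Filter Topology Pointwise

namespace Pool.Agent.P.MP_2e1554_gt

variable {n : ℕ}

theorem ev_ne_zero (θ : ℝ) : ev θ ≠ 0 := by
  intro h
  have h0 : Real.cos θ = 0 := by simpa [ev] using congrFun h 0
  have h1 : Real.sin θ = 0 := by simpa [ev] using congrFun h 1
  have := Real.cos_sq_add_sin_sq θ
  rw [h0, h1] at this
  norm_num at this

theorem measurable_ray {g : (Fin 2 → ℝ) → ℝ} (hg : Measurable g) (k : ℕ) :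
    Measurable (ray g k) := by
  have hm : Measurable (fun p : (Fin 2 → ℝ) × ℝ => g (p.2 • p.1) * p.2 ^ (k + 1)) :=
    (hg.comp (measurable_snd.smul measurable_fst)).mul (measurable_snd.pow_const _)
  exact (hm.stronglyMeasurable.integral_prod_right' (ν := volume.restrict (Ioi (0 : ℝ)))).measurable

theorem polar_norm_ev (θ : ℝ) : 1 / 2 ≤ ‖ev θ‖ := by
  have h0 : |Real.cos θ| ≤ ‖ev θ‖ := by simpa [ev] using norm_le_pi_norm (ev θ) 0
  have h1 : |Real.sin θ| ≤ ‖ev θ‖ := by simpa [ev] using norm_le_pi_norm (ev θ) 1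
  have h2 := Real.cos_sq_add_sin_sq θ
  by_contra hc
  push Not at hc
  have a0 : |Real.cos θ| < 1 / 2 := lt_of_le_of_lt h0 hc
  have a1 : |Real.sin θ| < 1 / 2 := lt_of_le_of_lt h1 hc
  rw [abs_lt] at a0 a1
  nlinarith [a0.1, a0.2, a1.1, a1.2]

theorem ray_ev_bdd {g : (Fin 2 → ℝ) → ℝ} {D : Set (Fin 2 → ℝ)} {F : ℝ} (h : Dens g D F) (k : ℕ) :
    ∃ C : ℝ, ∀ θ, |ray g k (ev θ)| ≤ C := by
  obtain ⟨R, hR⟩ := h.cpt.isBounded.exists_norm_le
  have hF : 0 ≤ F := (h.nonneg 0).trans (h.le 0)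
  refine ⟨∫ r in Ioi (0 : ℝ), (Icc (0 : ℝ) (2 * R)).indicator (fun _ => F * (2 * R) ^ (k + 1)) r,
    fun θ => ?_⟩
  rw [← Real.norm_eq_abs]
  refine norm_integral_le_of_norm_le ?_ ?_
  · refine Integrable.integrableOn ?_
    rw [integrable_indicator_iff measurableSet_Icc]
    exact integrableOn_const measure_Icc_lt_top.ne
  · refine (ae_restrict_iff' measurableSet_Ioi).2 (Eventually.of_forall fun r hr => ?_)
    have hr0 : 0 < r := hr
    by_cases hm : r ≤ 2 * R
    · rw [indicator_of_mem (show r ∈ Icc (0 : ℝ) (2 * R) from ⟨hr0.le, hm⟩), Real.norm_eq_abs,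
        abs_of_nonneg (mul_nonneg (h.nonneg _) (by positivity))]
      exact mul_le_mul (h.le _) (pow_le_pow_left₀ hr0.le hm _) (by positivity) hF
    · have hz : g (r • ev θ) = 0 := by
        refine h.off _ fun hD => hm ?_
        have h1 := hR _ hD
        rw [norm_smul, Real.norm_eq_abs, abs_of_pos hr0] at h1
        nlinarith [polar_norm_ev θ]
      rw [hz, zero_mul, norm_zero, indicator_of_notMem fun hc => hm hc.2]

theorem polar_general {Φ : (Fin 2 → ℝ) → ℝ} (hΦ : Integrable Φ) :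
    ∫ y, Φ y = ∫ θ in Ioo (-Real.pi) Real.pi, ∫ r in Ioi (0 : ℝ), r * Φ (r • ev θ) := by
  have hmp := (volume_preserving_finTwoArrow ℝ).symm
  set e : (ℝ × ℝ) ≃ᵐ (Fin 2 → ℝ) := (MeasurableEquiv.finTwoArrow (α := ℝ)).symm with he
  have hev : ∀ p : ℝ × ℝ, e (polarCoord.symm p) = p.1 • ev p.2 := by
    intro p
    funext i
    fin_cases i <;> simp [he, ev, MeasurableEquiv.finTwoArrow, polarCoord_symm_apply]
  have hΨ : Integrable (fun p : ℝ × ℝ => Φ (e p)) :=
    (hmp.integrable_comp_emb e.measurableEmbedding).2 hΦ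
  have hint : IntegrableOn (fun p : ℝ × ℝ => p.1 * Φ (p.1 • ev p.2))
      (Ioi (0 : ℝ) ×ˢ Ioo (-Real.pi) Real.pi) := by
    have h1 := (integrableOn_image_iff_integrableOn_abs_det_fderiv_smul volume
      polarCoord.open_target.measurableSet
      (fun p _ => (hasFDerivAt_polarCoord_symm p).hasFDerivWithinAt) polarCoord.symm.injOn
      (fun p : ℝ × ℝ => Φ (e p))).1 hΨ.integrableOn
    refine (integrableOn_congr_fun (fun p hp => ?_) polarCoord.open_target.measurableSet).1 h1
    simp only [det_fderivPolarCoordSymm, hev, smul_eq_mul]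
    rw [abs_of_pos hp.1]
  rw [← hmp.integral_comp' Φ, ← integral_comp_polarCoord_symm]
  simp only [hev, smul_eq_mul]
  rw [polarCoord_target, Measure.volume_eq_prod, ← Measure.prod_restrict]
  rw [IntegrableOn, Measure.volume_eq_prod, ← Measure.prod_restrict] at hint
  exact integral_prod_symm _ hint

/-- polar coordinates for the density -/
theorem polar_dens {g : (Fin 2 → ℝ) → ℝ} {D : Set (Fin 2 → ℝ)} {F : ℝ} (h : Dens g D F)
    {f : (Fin 2 → ℝ) → ℝ} (hf : Continuous f) (k : ℕ)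
    (hh : ∀ s : ℝ, 0 < s → ∀ x, f (s • x) = s ^ k * f x) :
    ∫ y, f y * g y = ∫ θ in Ioo (-Real.pi) Real.pi, f (ev θ) * ray g k (ev θ) := by
  have hint : Integrable (fun y => f y * g y) := by
    have h1 : IntegrableOn (fun y => f y * g y) D := by
      refine Integrable.mul_bdd (c := F) (hf.continuousOn.integrableOn_compact h.cpt)
        h.meas.aestronglyMeasurable (Eventually.of_forall fun y => ?_)
      rw [Real.norm_eq_abs, abs_of_nonneg (h.nonneg y)]
      exact h.le y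
    refine (integrableOn_iff_integrable_of_support_subset ?_).1 h1
    intro y hy
    by_contra hD
    exact hy (by simp [h.off y hD])
  rw [polar_general hint]
  refine integral_congr_ae (Eventually.of_forall fun θ => ?_)
  simp only [ray]
  rw [← integral_const_mul]
  refine setIntegral_congr_fun measurableSet_Ioi fun r hr => ?_
  rw [hh r hr]
  ring

theorem polar_ray_nonneg {g : (Fin 2 → ℝ) → ℝ} {D : Set (Fin 2 → ℝ)} {F : ℝ} (h : Dens g D F)
    (k : ℕ) (y : Fin 2 → ℝ) : 0 ≤ ray g k y :=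
  setIntegral_nonneg measurableSet_Ioi fun _ hr =>
    mul_nonneg (h.nonneg _) (pow_nonneg (le_of_lt hr) _)

theorem polar_meas_ballB {g : (Fin 2 → ℝ) → ℝ} (hg : Measurable g) : MeasurableSet (ballB g) := by
  have : ballB g = {0} ∪ {y | 1 ≤ 12 * ray g 1 y} := by
    ext y
    simp [ballB]
  rw [this]
  exact (measurableSet_singleton _).union
    (measurableSet_le measurable_const ((measurable_ray hg 1).const_mul _))

theorem polar_mem_ballB {g : (Fin 2 → ℝ) → ℝ} {D : Set (Fin 2 → ℝ)} {F : ℝ} (h : Dens g D F)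
    (θ : ℝ) {r : ℝ} (hr : 0 < r) :
    r • ev θ ∈ ballB g ↔ r ≤ (12 * ray g 1 (ev θ)) ^ (1 / 3 : ℝ) := by
  have hne : r • ev θ ≠ 0 := smul_ne_zero hr.ne' (ev_ne_zero θ)
  have hs : ray g 1 (r • ev θ) * r ^ 3 = ray g 1 (ev θ) := ray_smul g 1 (ev θ) hr
  have hI : 0 ≤ 12 * ray g 1 (ev θ) := mul_nonneg (by norm_num) (polar_ray_nonneg h 1 _)
  have h3 : 0 < r ^ 3 := by positivity
  have hc : ((12 * ray g 1 (ev θ)) ^ (1 / 3 : ℝ)) ^ 3 = 12 * ray g 1 (ev θ) := by
    rw [← Real.rpow_natCast, ← Real.rpow_mul hI]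
    norm_num
  rw [← pow_le_pow_iff_left₀ hr.le (Real.rpow_nonneg hI _) (n := 3) (by norm_num), hc, ← hs]
  simp only [ballB, mem_ofPred_eq, hne, false_or]
  constructor
  · intro h1
    nlinarith
  · intro h1
    by_contra hlt
    push Not at hlt
    nlinarith

/-- polar coordinates for Ball's body -/
theorem polar_ball {g : (Fin 2 → ℝ) → ℝ} {D : Set (Fin 2 → ℝ)} {F : ℝ} (h : Dens g D F)
    {f : (Fin 2 → ℝ) → ℝ} (hf : Continuous f) (k : ℕ)
    (hh : ∀ s : ℝ, 0 < s → ∀ x, f (s • x) = s ^ k * f x) :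
    ∫ y in ballB g, f y = ∫ θ in Ioo (-Real.pi) Real.pi,
      f (ev θ) * (((12 * ray g 1 (ev θ)) ^ (1 / 3 : ℝ)) ^ (k + 2) / (k + 2)) := by
  have hB := polar_meas_ballB h.meas
  have hint : Integrable ((ballB g).indicator f) := by
    rw [integrable_indicator_iff hB]
    exact (hf.continuousOn.integrableOn_compact (ballB_bounded h).isCompact_closure).mono_set
      subset_closure
  rw [← integral_indicator hB, polar_general hint]
  refine integral_congr_ae (Eventually.of_forall fun θ => ?_)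
  have hI : 0 ≤ 12 * ray g 1 (ev θ) := mul_nonneg (by norm_num) (polar_ray_nonneg h 1 _)
  set ρ := (12 * ray g 1 (ev θ)) ^ (1 / 3 : ℝ) with hρ
  have hρ0 : 0 ≤ ρ := Real.rpow_nonneg hI _
  have e1 : ∫ r in Ioi (0 : ℝ), r * (ballB g).indicator f (r • ev θ) =
      ∫ r in Ioi (0 : ℝ), (Iic ρ).indicator (fun r => f (ev θ) * r ^ (k + 1)) r := by
    refine setIntegral_congr_fun measurableSet_Ioi fun r hr => ?_
    have hm := polar_mem_ballB h θ hr
    by_cases hc : r ≤ ρ
    · rw [indicator_of_mem (hm.2 hc), indicator_of_mem (show r ∈ Iic ρ from hc), hh r hr]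
      ring
    · rw [indicator_of_notMem (fun hx => hc (hm.1 hx)),
        indicator_of_notMem (show r ∉ Iic ρ from hc), mul_zero]
  simp only
  rw [e1, setIntegral_indicator measurableSet_Iic, Ioi_inter_Iic,
    ← intervalIntegral.integral_of_le hρ0, intervalIntegral.integral_const_mul, integral_pow]
  push_cast
  rw [zero_pow (by omega)]
  ring

end Pool.Agent.P.MP_2e1554_gt
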