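import Pool.Agent.P.MP_2e1554_gt.IsoDefs

open MeasureTheory Set Finset Matrix Filter Topology Pointwise

namespace Pool.Agent.P.MP_2e1554_gt

variable {n : ℕ}

namespace RayX

theorem three {φ : ℝ → ℝ} {R : ℝ} (hc : ConcaveOn ℝ (Icc 0 R) φ) {x y z : ℝ}
    (hx : x ∈ Icc (0 : ℝ) R) (hz : z ∈ Icc (0 : ℝ) R) (hxy : x ≤ y) (hyz : y ≤ z) :
    (z - y) * φ x + (y - x) * φ z ≤ (z - x) * φ y := by
  rcases eq_or_lt_of_le (hxy.trans hyz) with h | h
  · have h1 : y = x := le_antisymm (h ▸ hyz) hxy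
    subst h1
    rw [← h]; simp
  · have hd : 0 < z - x := sub_pos.2 h
    have key := hc.2 hx hz (div_nonneg (sub_nonneg.2 hyz) hd.le)
      (div_nonneg (sub_nonneg.2 hxy) hd.le) (by field_simp; ring)
    have e1 : ((z - y) / (z - x)) • x + ((y - x) / (z - x)) • z = y := by
      simp only [smul_eq_mul]; field_simp; ring
    rw [e1] at key
    simp only [smul_eq_mul] at key
    have e2 : (z - y) / (z - x) * φ x + (y - x) / (z - x) * φ z =
        ((z - y) * φ x + (y - x) * φ z) / (z - x) := by field_simp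
    rw [e2, div_le_iff₀ hd] at key
    linarith

theorem sign {φ : ℝ → ℝ} {R : ℝ} (hc : ConcaveOn ℝ (Icc 0 R) φ) {a b r : ℝ}
    (ha : a ∈ Icc (0 : ℝ) R) (hb : b ∈ Icc (0 : ℝ) R) (hr : r ∈ Icc (0 : ℝ) R) (hab : a ≤ b) :
    ((b - a) * φ r - ((b - r) * φ a + (r - a) * φ b)) * ((r - a) * (r - b)) ≤ 0 := by
  rcases le_total r a with h1 | h1
  · have := three hc hr hb h1 hab
    exact mul_nonpos_of_nonpos_of_nonneg (by linarith)
      (mul_nonneg_of_nonpos_of_nonpos (by linarith) (by linarith))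
  · rcases le_total r b with h2 | h2
    · have := three hc ha hb h1 h2
      exact mul_nonpos_of_nonneg_of_nonpos (by linarith)
        (mul_nonpos_of_nonneg_of_nonpos (by linarith) (by linarith))
    · have := three hc ha hr hab h2
      exact mul_nonpos_of_nonpos_of_nonneg (by linarith)
        (mul_nonneg (by linarith) (by linarith))

theorem ii {φ : ℝ → ℝ} {F : ℝ} (hm : Measurable φ) (h0 : ∀ r, 0 ≤ φ r) (hF : ∀ r, φ r ≤ F)
    (a b : ℝ) : IntervalIntegrable φ volume a b := by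
  rw [intervalIntegrable_iff]
  refine Measure.integrableOn_of_bounded (M := F) ?_ hm.aestronglyMeasurable ?_
  · simp [uIoc]
  · exact Eventually.of_forall fun r => by rw [Real.norm_eq_abs, abs_of_nonneg (h0 r)]; exact hF r

theorem iik {φ : ℝ → ℝ} {F : ℝ} (hm : Measurable φ) (h0 : ∀ r, 0 ≤ φ r) (hF : ∀ r, φ r ≤ F)
    (k : ℕ) (a b : ℝ) : IntervalIntegrable (fun r => φ r * r ^ k) volume a b :=
  (ii hm h0 hF a b).mul_continuousOn (by fun_prop)

theorem comb {φ : ℝ → ℝ} {F : ℝ} (hm : Measurable φ) (h0 : ∀ r, 0 ≤ φ r) (hF : ∀ r, φ r ≤ F)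
    (a b c1 c2 c3 : ℝ) :
    ∫ r in a..b, φ r * (c1 * r ^ 1 + c2 * r ^ 2 + c3 * r ^ 3) =
      c1 * (∫ r in a..b, φ r * r ^ 1) + c2 * (∫ r in a..b, φ r * r ^ 2) +
        c3 * (∫ r in a..b, φ r * r ^ 3) := by
  have i1 := (iik hm h0 hF 1 a b).const_mul c1
  have i2 := (iik hm h0 hF 2 a b).const_mul c2
  have i3 := (iik hm h0 hF 3 a b).const_mul c3
  rw [← intervalIntegral.integral_const_mul, ← intervalIntegral.integral_const_mul,
    ← intervalIntegral.integral_const_mul, ← intervalIntegral.integral_add i1 i2,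
    ← intervalIntegral.integral_add (i1.add i2) i3]
  congr 1; ext r; ring

theorem poly4 (b c1 c2 c3 c4 : ℝ) :
    ∫ r in (0 : ℝ)..b, (c1 * r ^ 1 + c2 * r ^ 2 + c3 * r ^ 3 + c4 * r ^ 4) =
      c1 * b ^ 2 / 2 + c2 * b ^ 3 / 3 + c3 * b ^ 4 / 4 + c4 * b ^ 5 / 5 := by
  have i : ∀ (c : ℝ) (k : ℕ), IntervalIntegrable (fun r : ℝ => c * r ^ k) volume 0 b :=
    fun c k => (by fun_prop : Continuous fun r : ℝ => c * r ^ k).intervalIntegrable _ _
  rw [intervalIntegral.integral_add (((i c1 1).add (i c2 2)).add (i c3 3)) (i c4 4),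
    intervalIntegral.integral_add ((i c1 1).add (i c2 2)) (i c3 3),
    intervalIntegral.integral_add (i c1 1) (i c2 2)]
  simp only [intervalIntegral.integral_const_mul, integral_pow]
  ring

theorem partA {φ : ℝ → ℝ} {F R : ℝ} (hm : Measurable φ) (h0 : ∀ r, 0 ≤ φ r) (hF : ∀ r, φ r ≤ F)
    (hc : ConcaveOn ℝ (Icc 0 R) φ) (hR : 0 < R) (h1 : φ 0 = 1) :
    R ^ 3 / 3 ≤ 6 * R * (∫ r in (0 : ℝ)..R, φ r * r ^ 1) - 8 * (∫ r in (0 : ℝ)..R, φ r * r ^ 2) := by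
  set p := φ (3 * R / 4) with hp
  have key : ∫ r in (0 : ℝ)..R, ((9 / 2 * R ^ 2) * r ^ 1 + (-6 * R + 6 * R * (p - 1)) * r ^ 2 +
      (-8 * (p - 1)) * r ^ 3 + 0 * r ^ 4) ≤
      ∫ r in (0 : ℝ)..R, φ r * ((9 / 2 * R ^ 2) * r ^ 1 + (-6 * R) * r ^ 2 + 0 * r ^ 3) := by
    refine intervalIntegral.integral_mono_on hR.le
      ((by fun_prop : Continuous _).intervalIntegrable _ _)
      ((ii hm h0 hF _ _).mul_continuousOn (by fun_prop)) fun r hr => ?_
    have := sign hc (a := 0) (b := 3 * R / 4) ⟨le_rfl, hR.le⟩ ⟨by linarith, by linarith⟩ hr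
      (by linarith)
    rw [h1, ← hp] at this
    nlinarith
  rw [poly4, comb hm h0 hF] at key
  have : R * (R ^ 3 / 3) ≤ R * (6 * R * (∫ r in (0 : ℝ)..R, φ r * r ^ 1) -
      8 * (∫ r in (0 : ℝ)..R, φ r * r ^ 2)) := by nlinarith
  exact le_of_mul_le_mul_left this hR

theorem partB {φ : ℝ → ℝ} {F R : ℝ} (hm : Measurable φ) (h0 : ∀ r, 0 ≤ φ r) (hF : ∀ r, φ r ≤ F)
    (hc : ConcaveOn ℝ (Icc 0 R) φ) (hR : 0 < R) :
    3 * R ^ 2 * (∫ r in (0 : ℝ)..R, φ r * r ^ 1) + 10 * (∫ r in (0 : ℝ)..R, φ r * r ^ 3) ≤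
      12 * R * (∫ r in (0 : ℝ)..R, φ r * r ^ 2) := by
  set s := Real.sqrt 6 with hs
  have s2 : s ^ 2 = 6 := Real.sq_sqrt (by norm_num)
  have s0 : 0 < s := Real.sqrt_pos.2 (by norm_num)
  have s3 : s < 3 := by nlinarith
  set a := R * (6 - s) / 10 with ha
  set b := R * (6 + s) / 10 with hb
  have hab : 0 < b - a := by rw [ha, hb]; nlinarith [mul_pos hR s0]
  have ha' : a ∈ Icc (0 : ℝ) R := ⟨by rw [ha]; nlinarith, by rw [ha]; nlinarith⟩
  have hb' : b ∈ Icc (0 : ℝ) R := ⟨by rw [hb]; nlinarith, by rw [hb]; nlinarith⟩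
  have hq : ∀ r, 10 * ((r - a) * (r - b)) = 10 * r ^ 2 - 12 * R * r + 3 * R ^ 2 := by
    intro r
    have : a * b = 3 * R ^ 2 / 10 := by
      rw [ha, hb]
      have : (6 - s) * (6 + s) = 30 := by nlinarith
      calc R * (6 - s) / 10 * (R * (6 + s) / 10) = R ^ 2 * ((6 - s) * (6 + s)) / 100 := by ring
        _ = 3 * R ^ 2 / 10 := by rw [this]; ring
    have h2 : a + b = 6 * R / 5 := by rw [ha, hb]; ring
    calc 10 * ((r - a) * (r - b)) = 10 * r ^ 2 - 10 * (a + b) * r + 10 * (a * b) := by ring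
      _ = _ := by rw [this, h2]; ring
  set u := b * φ a - a * φ b with hu
  set v := φ b - φ a with hv
  have key : ∫ r in (0 : ℝ)..R, φ r * (((b - a) * (3 * R ^ 2)) * r ^ 1 +
      ((b - a) * (-12 * R)) * r ^ 2 + ((b - a) * 10) * r ^ 3) ≤
      ∫ r in (0 : ℝ)..R, ((u * (3 * R ^ 2)) * r ^ 1 + (u * (-12 * R) + v * (3 * R ^ 2)) * r ^ 2 +
        (u * 10 + v * (-12 * R)) * r ^ 3 + (v * 10) * r ^ 4) := by
    refine intervalIntegral.integral_mono_on hR.le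
      ((ii hm h0 hF _ _).mul_continuousOn (by fun_prop))
      ((by fun_prop : Continuous _).intervalIntegrable _ _) fun r hr => ?_
    have h1 := sign hc ha' hb' hr (by linarith)
    have h2 : ((b - a) * φ r - (u + v * r)) * (10 * r ^ 2 - 12 * R * r + 3 * R ^ 2) ≤ 0 := by
      rw [← hq]
      have e : (b - r) * φ a + (r - a) * φ b = u + v * r := by rw [hu, hv]; ring
      rw [e] at h1
      linarith
    have h3 := mul_nonpos_of_nonneg_of_nonpos hr.1 h2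
    nlinarith
  rw [poly4, comb hm h0 hF] at key
  have : (b - a) * (3 * R ^ 2 * (∫ r in (0 : ℝ)..R, φ r * r ^ 1) +
      10 * (∫ r in (0 : ℝ)..R, φ r * r ^ 3)) ≤
      (b - a) * (12 * R * (∫ r in (0 : ℝ)..R, φ r * r ^ 2)) := by nlinarith
  exact le_of_mul_le_mul_left this hab

theorem partC {φ : ℝ → ℝ} {F R T : ℝ} (hm : Measurable φ) (h0 : ∀ r, 0 ≤ φ r)
    (hF : ∀ r, φ r ≤ F) (hR : 0 ≤ R) (hF0 : 0 < F) (hT : 0 ≤ T)
    (e : F * T ^ 2 / 2 = ∫ r in (0 : ℝ)..R, φ r * r ^ 1) :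
    F * T ^ 3 / 3 ≤ ∫ r in (0 : ℝ)..R, φ r * r ^ 2 := by
  have h1 : ∫ r in (0 : ℝ)..R, φ r * r ^ 1 ≤
      ∫ r in (0 : ℝ)..R, (F * r ^ 1 + 0 * r ^ 2 + 0 * r ^ 3 + 0 * r ^ 4) := by
    refine intervalIntegral.integral_mono_on hR (iik hm h0 hF 1 _ _)
      ((by fun_prop : Continuous _).intervalIntegrable _ _) fun r hr => ?_
    nlinarith [mul_le_mul_of_nonneg_right (hF r) hr.1]
  rw [poly4, ← e] at h1
  have hTR : T ≤ R := by
    have : T ^ 2 ≤ R ^ 2 := by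
      have : F * T ^ 2 ≤ F * R ^ 2 := by linarith
      exact le_of_mul_le_mul_left this hF0
    exact (pow_le_pow_iff_left₀ hT hR two_ne_zero).1 this
  have iw : ∀ a b : ℝ, IntervalIntegrable
      (fun r => φ r * ((-T) * r ^ 1 + 1 * r ^ 2 + 0 * r ^ 3)) volume a b :=
    fun a b => (ii hm h0 hF _ _).mul_continuousOn (by fun_prop)
  have h2 : ∫ r in (0 : ℝ)..T, ((-(F * T)) * r ^ 1 + F * r ^ 2 + 0 * r ^ 3 + 0 * r ^ 4) ≤
      ∫ r in (0 : ℝ)..T, φ r * ((-T) * r ^ 1 + 1 * r ^ 2 + 0 * r ^ 3) := by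
    refine intervalIntegral.integral_mono_on hT
      ((by fun_prop : Continuous _).intervalIntegrable _ _) (iw _ _) fun r hr => ?_
    nlinarith [mul_nonneg (sub_nonneg.2 (hF r)) (mul_nonneg hr.1 (sub_nonneg.2 hr.2))]
  have h3 : 0 ≤ ∫ r in T..R, φ r * ((-T) * r ^ 1 + 1 * r ^ 2 + 0 * r ^ 3) := by
    refine intervalIntegral.integral_nonneg hTR fun r hr => ?_
    nlinarith [mul_nonneg (h0 r) (mul_nonneg (hT.trans hr.1) (sub_nonneg.2 hr.1))]
  have h4 := intervalIntegral.integral_add_adjacent_intervals (iw 0 T) (iw T R)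
  rw [comb hm h0 hF 0 R, ← e] at h4
  rw [poly4] at h2
  nlinarith

theorem extent {D : Set (Fin 2 → ℝ)} (hc : Convex ℝ D) (hk : IsCompact D)
    (h0 : (0 : Fin 2 → ℝ) ∈ D) {y : Fin 2 → ℝ} (hy : y ≠ 0) :
    ∃ R : ℝ, 0 ≤ R ∧ (∀ r ∈ Icc (0 : ℝ) R, r • y ∈ D) ∧ ∀ r, R < r → r • y ∉ D := by
  set S : Set ℝ := {r | r • y ∈ D} with hS
  have hcl : IsClosed S := hk.isClosed.preimage (by fun_prop)
  have hne : (0 : ℝ) ∈ S := by simpa [hS] using h0
  obtain ⟨M, hM⟩ := hk.isBounded.exists_norm_le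
  have hy' : 0 < ‖y‖ := norm_pos_iff.2 hy
  have hb : BddAbove S := by
    refine ⟨M / ‖y‖, fun r hr => ?_⟩
    have := hM _ hr
    rw [norm_smul, Real.norm_eq_abs] at this
    rw [le_div_iff₀ hy']
    nlinarith [le_abs_self r]
  have hR : sSup S ∈ S := hcl.csSup_mem ⟨0, hne⟩ hb
  refine ⟨sSup S, le_csSup hb hne, fun r hr => ?_, fun r hr hr' => ?_⟩
  · have hcv : Convex ℝ S := by
      intro a ha b hb s t hs ht hst
      have := hc ha hb hs ht hst
      simpa [hS, add_smul, mul_smul] using this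
    exact hcv.ordConnected.out hne hR hr
  · exact absurd (le_csSup hb hr') (not_le.2 hr)

end RayX

open RayX in
/-- inequalities between the moments along a ray -/
theorem ray_ineq {g : (Fin 2 → ℝ) → ℝ} {D : Set (Fin 2 → ℝ)} {F : ℝ} (h : Dens g D F)
    (h0 : (0 : Fin 2 → ℝ) ∈ D) (g0 : g 0 = 1) {y : Fin 2 → ℝ} (hy : y ≠ 0) {ρ : ℝ} (hρ : 0 ≤ ρ)
    (e : ρ ^ 3 = 12 * ray g 1 y) :
    (∀ k, 0 ≤ ray g k y) ∧ ρ ^ 2 ≤ 6 * ray g 0 y ∧ 20 * ray g 2 y * (6 * ray g 0 y) ≤ ρ ^ 6 ∧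
      16 * (6 * ray g 0 y) ^ 3 ≤ 27 * F * ρ ^ 6 := by
  obtain ⟨R, hR, hin, hout⟩ := extent h.cvx h.cpt h0 hy
  set φ : ℝ → ℝ := fun r => g (r • y) with hφ
  have hm : Measurable φ := h.meas.comp (by fun_prop)
  have p0 : ∀ r, 0 ≤ φ r := fun r => h.nonneg _
  have pF : ∀ r, φ r ≤ F := fun r => h.le _
  have p1 : φ 0 = 1 := by simp [hφ, g0]
  have hF0 : 0 < F := by have := pF 0; rw [p1] at this; linarith
  have hc : ConcaveOn ℝ (Icc 0 R) φ := by
    refine ⟨convex_Icc _ _, fun a ha b hb s t hs ht hst => ?_⟩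
    have := h.conc.2 (hin a ha) (hin b hb) hs ht hst
    simpa [hφ, add_smul, mul_smul] using this
  have hI : ∀ k, ray g k y = ∫ r in (0 : ℝ)..R, φ r * r ^ (k + 1) := by
    intro k
    rw [intervalIntegral.integral_of_le hR, ray]
    refine setIntegral_eq_of_subset_of_forall_sdiff_eq_zero measurableSet_Ioi Ioc_subset_Ioi_self
      fun r hr => ?_
    have : R < r := by
      by_contra hh
      exact hr.2 ⟨hr.1, not_lt.1 hh⟩
    rw [h.off _ (hout r this), zero_mul]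
  have hn : ∀ k, 0 ≤ ray g k y := fun k => by
    rw [hI]
    exact intervalIntegral.integral_nonneg hR fun r hr => mul_nonneg (p0 r) (pow_nonneg hr.1 _)
  have n0 := hn 0
  have n1 := hn 1
  have n2 := hn 2
  have e6 : ρ ^ 6 = 144 * ray g 1 y ^ 2 := by
    calc ρ ^ 6 = (ρ ^ 3) ^ 2 := by ring
      _ = _ := by rw [e]; ring
  have hC : 16 * (6 * ray g 0 y) ^ 3 ≤ 27 * F * ρ ^ 6 := by
    set T := Real.sqrt (2 * ray g 0 y / F) with hT
    have T0 : 0 ≤ T := Real.sqrt_nonneg _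
    have T2 : T ^ 2 = 2 * ray g 0 y / F := Real.sq_sqrt (by positivity)
    have eT : F * T ^ 2 / 2 = ray g 0 y := by rw [T2]; field_simp
    have := partC hm p0 pF hR hF0 T0 (eT.trans (hI 0))
    rw [← hI 1] at this
    have h2 : (F * T ^ 3 / 3) ^ 2 ≤ ray g 1 y ^ 2 :=
      pow_le_pow_left₀ (by positivity) this 2
    rw [e6, ← eT]
    nlinarith [mul_le_mul_of_nonneg_left h2 hF0.le]
  refine ⟨hn, ?_, ?_, hC⟩
  · rcases eq_or_lt_of_le hR with hR0 | hR0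
    · have : ray g 1 y = 0 := by rw [hI, ← hR0]; simp
      rw [this, mul_zero] at e
      have : ρ = 0 := pow_eq_zero_iff (by norm_num) |>.1 e
      rw [this]; linarith
    · have := partA hm p0 pF hc hR0 p1
      rw [← hI 0, ← hI 1] at this
      have h2 : R * ρ ^ 2 ≤ R * (6 * ray g 0 y) := by
        nlinarith [mul_nonneg (sq_nonneg (ρ - R)) (by linarith : 0 ≤ 2 * ρ + R)]
      exact le_of_mul_le_mul_left h2 hR0
  · rcases eq_or_lt_of_le hR with hR0 | hR0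
    · have : ray g 2 y = 0 := by rw [hI, ← hR0]; simp
      rw [this]
      have := pow_nonneg hρ 6
      linarith
    · have := partB hm p0 pF hc hR0
      rw [← hI 0, ← hI 1, ← hI 2] at this
      have h2 : (3 * R ^ 2 * ray g 0 y + 10 * ray g 2 y) ^ 2 ≤ (12 * R * ray g 1 y) ^ 2 :=
        pow_le_pow_left₀ (by positivity) this 2
      have h3 : R ^ 2 * (20 * ray g 2 y * (6 * ray g 0 y)) ≤ R ^ 2 * ρ ^ 6 := by
        rw [e6]
        nlinarith [sq_nonneg (3 * R ^ 2 * ray g 0 y - 10 * ray g 2 y)]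
      exact le_of_mul_le_mul_left h3 (by positivity)

end Pool.Agent.P.MP_2e1554_gt
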