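import Pool.Agent.P.MP_2e1554_gt.IsoPlane
import Pool.Agent.P.MP_2e1554_gt.IsoRay
import Pool.Agent.P.MP_2e1554_gt.IsoPolar

open MeasureTheory Set Finset Matrix Filter Topology Pointwise

namespace Pool.Agent.P.MP_2e1554_gt

variable {n : ℕ}

lemma core_F2 {a b c a' b' c' : ℝ} (hQ : ∀ x y, 0 ≤ a * x ^ 2 + 2 * b * x * y + c * y ^ 2)
    (hQP : ∀ x y, a * x ^ 2 + 2 * b * x * y + c * y ^ 2 ≤
      a' * x ^ 2 + 2 * b' * x * y + c' * y ^ 2) (hd : 0 ≤ a' * c' - b' ^ 2) (x y : ℝ) :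
    (a * c - b ^ 2) * (a' * x ^ 2 + 2 * b' * x * y + c' * y ^ 2) ≤
      (a' * c' - b' ^ 2) * (a * x ^ 2 + 2 * b * x * y + c * y ^ 2) := by
  obtain ⟨p, hp⟩ : ∃ p, p = a' * x ^ 2 + 2 * b' * x * y + c' * y ^ 2 := ⟨_, rfl⟩
  obtain ⟨r, hr⟩ : ∃ r, r = a * x ^ 2 + 2 * b * x * y + c * y ^ 2 := ⟨_, rfl⟩
  have hr0 : 0 ≤ r := hr ▸ hQ x y
  have hp0 : 0 ≤ p := hr0.trans (hr ▸ hp ▸ hQP x y)
  rw [← hp, ← hr]
  rcases hp0.eq_or_lt with h | h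
  · rw [← h, mul_zero]; exact mul_nonneg hd hr0
  · obtain ⟨v0, hv0⟩ : ∃ v, v = -(b' * x + c' * y) := ⟨_, rfl⟩
    obtain ⟨v1, hv1⟩ : ∃ v, v = a' * x + b' * y := ⟨_, rfl⟩
    have h1 := hQP v0 v1
    have h2 : a' * v0 ^ 2 + 2 * b' * v0 * v1 + c' * v1 ^ 2 = (a' * c' - b' ^ 2) * p := by
      rw [hp, hv0, hv1]; ring
    have h3 : r * (a * v0 ^ 2 + 2 * b * v0 * v1 + c * v1 ^ 2) -
        (a * x * v0 + b * (x * v1 + y * v0) + c * y * v1) ^ 2 = (a * c - b ^ 2) * p ^ 2 := by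
      have : p = x * v1 - y * v0 := by rw [hp, hv0, hv1]; ring
      rw [this, hr]; ring
    have h4 := mul_le_mul_of_nonneg_left (h1.trans h2.le) hr0
    refine le_of_mul_le_mul_right ?_ h
    nlinarith [sq_nonneg (a * x * v0 + b * (x * v1 + y * v0) + c * y * v1)]

lemma core_F1 {a b c a' b' c' : ℝ} (hQ : ∀ x y, 0 ≤ a * x ^ 2 + 2 * b * x * y + c * y ^ 2)
    (hQP : ∀ x y, a * x ^ 2 + 2 * b * x * y + c * y ^ 2 ≤
      a' * x ^ 2 + 2 * b' * x * y + c' * y ^ 2) (hd : 0 ≤ a' * c' - b' ^ 2) (ha : 0 < a') :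
    a * c - b ^ 2 ≤ a' * c' - b' ^ 2 := by
  have h1 := core_F2 hQ hQP hd 1 0
  have h2 := hQP 1 0
  simp only [one_pow, mul_one, mul_zero, add_zero, ne_eq, OfNat.ofNat_ne_zero, not_false_eq_true,
    zero_pow] at h1 h2
  refine le_of_mul_le_mul_right (h1.trans ?_) ha
  exact mul_le_mul_of_nonneg_left h2 hd

/-- the algebraic part -/
lemma core_alg {b ν m0 m1 P00 P01 P11 Q00 Q01 Q11 Δ s a0 : ℝ} (hb : 0 < b) (hbν : b ≤ ν)
    (hs : 1 ≤ s) (hS0 : 0 < P00 - m0 * m0 / b)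
    (hS1 : 0 < (P00 - m0 * m0 / b) * (P11 - m1 * m1 / b) - (P01 - m0 * m1 / b) ^ 2)
    (hS2 : (P00 - m0 * m0 / b) * (P11 - m1 * m1 / b) - (P01 - m0 * m1 / b) ^ 2 ≤ b ^ 4 / 108)
    (hQ : ∀ x y, 0 ≤ Q00 * x ^ 2 + 2 * Q01 * x * y + Q11 * y ^ 2)
    (hQP : ∀ x y, Q00 * x ^ 2 + 2 * Q01 * x * y + Q11 * y ^ 2 ≤
      P00 * x ^ 2 + 2 * P01 * x * y + P11 * y ^ 2)
    (hvar : ∀ x y q, 0 ≤ 2 * (P00 * x ^ 2 + 2 * P01 * x * y + P11 * y ^ 2) -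
      9 * q / 2 * (m0 * x + m1 * y) + 9 * q ^ 2 / 4 * b)
    (hmain : ∀ x y q τ, 0 ≤ τ → τ < 9 / 4 →
      2 * s * (Q00 * x ^ 2 + 2 * Q01 * x * y + Q11 * y ^ 2) ≤
        2 * s * (P00 * x ^ 2 + 2 * P01 * x * y + P11 * y ^ 2) - τ * q ^ 2 * (ν - b) +
        (s - 1) * (4 * τ / (9 - 4 * τ)) * (2 * (P00 * x ^ 2 + 2 * P01 * x * y + P11 * y ^ 2) -
          9 * q / 2 * (m0 * x + m1 * y) + 9 * q ^ 2 / 4 * b))
    (eΔ : Δ = (Q00 - m0 * m0 / ν) * (Q11 - m1 * m1 / ν) - (Q01 - m0 * m1 / ν) ^ 2)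
    (ha1 : a0 ≤ 1) (ha : ∀ u0 u1 : ℝ, (m0 * u0 + m1 * u1) ^ 2 ≤
      a0 * ν * (Q00 * u0 ^ 2 + 2 * Q01 * u0 * u1 + Q11 * u1 ^ 2)) :
    Q00 * Q11 - Q01 ^ 2 ≤ ν ^ 4 / 12 ∧ ∃ e q Y X : ℝ, 0 ≤ e ∧ 0 ≤ q ∧ q ≤ 8 ∧
      108 * Δ * (1 + e) ^ 4 = X * ν ^ 4 ∧ X * (1 + e) ≤ 1 + e + q * e ∧
      q * X * (1 + e) ≤ Y * (1 + e) - q ^ 2 ∧ q ^ 2 ≤ a0 * (1 + e) * Y ∧
      ∀ τ : ℝ, 0 ≤ τ → τ < 9 / 4 →
        Y ≤ q * (1 + q) - τ / (2 * s) * (q ^ 2 * e - (s - 1) * (q * (8 - q)) / (9 - 4 * τ)) := by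
  have hν : 0 < ν := hb.trans_le hbν
  obtain ⟨S0, eS0⟩ : ∃ S, S = P00 - m0 * m0 / b := ⟨_, rfl⟩
  obtain ⟨S1, eS1⟩ : ∃ S, S = P01 - m0 * m1 / b := ⟨_, rfl⟩
  obtain ⟨S2, eS2⟩ : ∃ S, S = P11 - m1 * m1 / b := ⟨_, rfl⟩
  rw [← eS0] at hS0
  rw [← eS0, ← eS1, ← eS2] at hS1 hS2
  obtain ⟨d, ed⟩ : ∃ d, d = S0 * S2 - S1 ^ 2 := ⟨_, rfl⟩
  rw [← ed] at hS1 hS2
  obtain ⟨x, ex⟩ : ∃ x, x = (S2 * m0 - S1 * m1) / d := ⟨_, rfl⟩
  obtain ⟨y, ey⟩ : ∃ y, y = (S0 * m1 - S1 * m0) / d := ⟨_, rfl⟩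
  have hm0 : m0 = S0 * x + S1 * y := by
    rw [ex, ey]; field_simp; rw [ed]; ring
  have hm1 : m1 = S1 * x + S2 * y := by
    rw [ex, ey]; field_simp; rw [ed]; ring
  obtain ⟨q, eq⟩ : ∃ q, q = (m0 * x + m1 * y) / b := ⟨_, rfl⟩
  have hq : m0 * x + m1 * y = b * q := by rw [eq]; field_simp
  obtain ⟨e, ee⟩ : ∃ e, e = ν / b - 1 := ⟨_, rfl⟩
  have he : ν = b * (1 + e) := by rw [ee]; field_simp; ring
  have he0 : 0 ≤ e := by rw [ee, sub_nonneg, le_div_iff₀ hb]; linarith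
  have he1 : 0 < 1 + e := by linarith
  obtain ⟨Y, eY⟩ : ∃ Y, Y = (Q00 * x ^ 2 + 2 * Q01 * x * y + Q11 * y ^ 2) / b := ⟨_, rfl⟩
  have hY : Q00 * x ^ 2 + 2 * Q01 * x * y + Q11 * y ^ 2 = b * Y := by rw [eY]; field_simp
  have hSu : S0 * x ^ 2 + 2 * S1 * x * y + S2 * y ^ 2 = b * q := by rw [← hq, hm0, hm1]; ring
  have hadj : S2 * m0 ^ 2 - 2 * S1 * m0 * m1 + S0 * m1 ^ 2 = d * (b * q) := by
    rw [← hSu, ed, hm0, hm1]; ring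
  have hq0 : 0 ≤ q := by
    have h1 : S0 * (b * q) = (S0 * x + S1 * y) ^ 2 + d * y ^ 2 := by rw [← hSu, ed]; ring
    have h2 : 0 ≤ S0 * (b * q) := by rw [h1]; positivity
    exact nonneg_of_mul_nonneg_right (nonneg_of_mul_nonneg_right h2 hS0) hb
  -- rank one perturbations of `S`
  have hdet : ∀ γ : ℝ, (S0 + γ * (m0 * m0)) * (S2 + γ * (m1 * m1)) - (S1 + γ * (m0 * m1)) ^ 2 =
      d * (1 + γ * (b * q)) := fun γ => by
    have : d * (1 + γ * (b * q)) = d + γ * (d * (b * q)) := by ring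
    rw [this, ← hadj, ed]; ring
  have hform : ∀ γ : ℝ, (S0 + γ * (m0 * m0)) * x ^ 2 + 2 * (S1 + γ * (m0 * m1)) * x * y +
      (S2 + γ * (m1 * m1)) * y ^ 2 = b * q * (1 + γ * (b * q)) := fun γ => by
    have : b * q * (1 + γ * (b * q)) = b * q + γ * (b * q) ^ 2 := by ring
    rw [this]
    nth_rewrite 2 [← hq]
    rw [← hSu]; ring
  have eP0 : P00 = S0 + 1 / b * (m0 * m0) := by rw [eS0]; ring
  have eP1 : P01 = S1 + 1 / b * (m0 * m1) := by rw [eS1]; ring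
  have eP2 : P11 = S2 + 1 / b * (m1 * m1) := by rw [eS2]; ring
  have hbq : 1 / b * (b * q) = q := by field_simp
  have hPd : P00 * P11 - P01 ^ 2 = d * (1 + q) := by rw [eP0, eP1, eP2, hdet, hbq]
  have hPu : P00 * x ^ 2 + 2 * P01 * x * y + P11 * y ^ 2 = b * q * (1 + q) := by
    rw [eP0, eP1, eP2, hform, hbq]
  have hv : 2 * (P00 * x ^ 2 + 2 * P01 * x * y + P11 * y ^ 2) -
      9 * q / 2 * (m0 * x + m1 * y) + 9 * q ^ 2 / 4 * b = b * (q * (8 - q)) / 4 := by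
    rw [hPu, hq]; ring
  have hq8 : q ≤ 8 := by
    have h1 := hvar x y q
    rw [hv] at h1
    by_contra h2
    have h3 : q * (8 - q) < 0 := mul_neg_of_pos_of_neg (by linarith) (by linarith)
    have := mul_neg_of_pos_of_neg hb h3
    linarith
  have hP0 : 0 < P00 := by rw [eP0]; have := mul_self_nonneg m0; positivity
  refine ⟨?_, e, q, Y, 108 * Δ / b ^ 4, he0, hq0, hq8, ?_, ?_⟩
  · have h1 := core_F1 hQ hQP (by rw [hPd]; positivity) hP0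
    have h2 : d * (1 + q) ≤ b ^ 4 / 108 * 9 :=
      mul_le_mul hS2 (by linarith) (by linarith) (by positivity)
    have h3 : b ^ 4 ≤ ν ^ 4 := pow_le_pow_left₀ hb.le hbν 4
    linarith
  · rw [he]; field_simp
  -- the forms with `ν`
  obtain ⟨γ, eγ⟩ : ∃ γ, γ = 1 / b - 1 / ν := ⟨_, rfl⟩
  have hγ : γ * (b * q) * (1 + e) = q * e := by rw [eγ, he]; field_simp; ring
  have hγ0 : 0 ≤ γ := by
    rw [eγ, sub_nonneg]; exact one_div_le_one_div_of_le hb hbν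
  have hz : 0 < 1 + γ * (b * q) := by positivity
  have hQ' : ∀ x y, 0 ≤ (Q00 - m0 * m0 / ν) * x ^ 2 + 2 * (Q01 - m0 * m1 / ν) * x * y +
      (Q11 - m1 * m1 / ν) * y ^ 2 := fun x y => by
    have h1 := ha x y
    have h2 := mul_le_mul_of_nonneg_right ha1 (mul_nonneg hν.le (hQ x y))
    have h3 : (Q00 - m0 * m0 / ν) * x ^ 2 + 2 * (Q01 - m0 * m1 / ν) * x * y +
        (Q11 - m1 * m1 / ν) * y ^ 2 = (ν * (Q00 * x ^ 2 + 2 * Q01 * x * y + Q11 * y ^ 2) -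
          (m0 * x + m1 * y) ^ 2) / ν := by field_simp; ring
    rw [h3]
    exact div_nonneg (by linarith) hν.le
  have hQP' : ∀ x y, (Q00 - m0 * m0 / ν) * x ^ 2 + 2 * (Q01 - m0 * m1 / ν) * x * y +
      (Q11 - m1 * m1 / ν) * y ^ 2 ≤ (S0 + γ * (m0 * m0)) * x ^ 2 +
        2 * (S1 + γ * (m0 * m1)) * x * y + (S2 + γ * (m1 * m1)) * y ^ 2 := fun x y => by
    have h1 := hQP x y
    rw [eP0, eP1, eP2] at h1
    rw [eγ]
    have h2 : (S0 + (1 / b - 1 / ν) * (m0 * m0)) * x ^ 2 +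
        2 * (S1 + (1 / b - 1 / ν) * (m0 * m1)) * x * y + (S2 + (1 / b - 1 / ν) * (m1 * m1)) * y ^ 2 -
        ((Q00 - m0 * m0 / ν) * x ^ 2 + 2 * (Q01 - m0 * m1 / ν) * x * y +
          (Q11 - m1 * m1 / ν) * y ^ 2) =
        (S0 + 1 / b * (m0 * m0)) * x ^ 2 + 2 * (S1 + 1 / b * (m0 * m1)) * x * y +
          (S2 + 1 / b * (m1 * m1)) * y ^ 2 - (Q00 * x ^ 2 + 2 * Q01 * x * y + Q11 * y ^ 2) := by ring
    linarith
  have hd' : 0 ≤ (S0 + γ * (m0 * m0)) * (S2 + γ * (m1 * m1)) - (S1 + γ * (m0 * m1)) ^ 2 := by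
    rw [hdet]; positivity
  have hb4 : 0 < b ^ 4 := by positivity
  refine ⟨?_, ?_, ?_, fun τ hτ hτ' => ?_⟩
  · have h1 := core_F1 hQ' hQP' hd' (by have := mul_self_nonneg m0; positivity)
    rw [hdet, ← eΔ] at h1
    have h2 : Δ ≤ b ^ 4 / 108 * (1 + γ * (b * q)) := h1.trans (mul_le_mul_of_nonneg_right hS2 hz.le)
    have h3 : 108 * Δ / b ^ 4 ≤ 1 + γ * (b * q) := by rw [div_le_iff₀ hb4]; linarith
    have h4 := mul_le_mul_of_nonneg_right h3 he1.le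
    linarith
  · have h1 := core_F2 hQ' hQP' hd' x y
    have h0 := hQ' x y
    have h2 : (Q00 - m0 * m0 / ν) * x ^ 2 + 2 * (Q01 - m0 * m1 / ν) * x * y +
        (Q11 - m1 * m1 / ν) * y ^ 2 = b * (Y - q ^ 2 / (1 + e)) := by
      have : (Q00 - m0 * m0 / ν) * x ^ 2 + 2 * (Q01 - m0 * m1 / ν) * x * y +
        (Q11 - m1 * m1 / ν) * y ^ 2 = (Q00 * x ^ 2 + 2 * Q01 * x * y + Q11 * y ^ 2) -
          (m0 * x + m1 * y) ^ 2 / ν := by ring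
      rw [this, hY, hq, he]; field_simp
    rw [hdet, hform, ← eΔ, h2] at h1
    rw [h2] at h0
    have h3 : Δ * (b * q) ≤ d * (b * (Y - q ^ 2 / (1 + e))) :=
      le_of_mul_le_mul_right (by linarith) hz
    have h4 := h3.trans (mul_le_mul_of_nonneg_right hS2 h0)
    have h5 : Δ * q ≤ b ^ 4 / 108 * (Y - q ^ 2 / (1 + e)) :=
      le_of_mul_le_mul_left (by linarith) hb
    have h6 : q * (108 * Δ / b ^ 4) ≤ Y - q ^ 2 / (1 + e) := by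
      rw [← mul_div_assoc, div_le_iff₀ hb4]; linarith
    have h7 := mul_le_mul_of_nonneg_right h6 he1.le
    have h8 : (Y - q ^ 2 / (1 + e)) * (1 + e) = Y * (1 + e) - q ^ 2 := by field_simp
    linarith
  · have h1 := ha x y
    rw [hq, hY, he] at h1
    refine le_of_mul_le_mul_left (a := b ^ 2) ?_ (by positivity)
    linarith
  · have h1 := hmain x y q τ hτ hτ'
    rw [hv, hPu, hY, he] at h1
    have h9 : 0 < 9 - 4 * τ := by linarith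
    have h2 : b * (2 * s) * (q * (1 + q) - τ / (2 * s) *
        (q ^ 2 * e - (s - 1) * (q * (8 - q)) / (9 - 4 * τ))) =
        2 * s * (b * q * (1 + q)) - τ * q ^ 2 * (b * (1 + e) - b) +
          (s - 1) * (4 * τ / (9 - 4 * τ)) * (b * (q * (8 - q)) / 4) := by
      field_simp; ring
    refine le_of_mul_le_mul_left (a := b * (2 * s)) ?_ (by positivity)
    rw [h2]; linarith

/-- the pointwise inequality -/
lemma core_pt {ρ A W l q τ s : ℝ} (hs : 1 ≤ s) (h1 : ρ ^ 2 ≤ A) (h2 : A ≤ s * ρ ^ 2)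
    (h3 : W * A ≤ ρ ^ 6) (h4 : W ≤ ρ ^ 4) (hτ : 0 ≤ τ) (hτ' : τ < 9 / 4) :
    s * (l ^ 2 * W) ≤ s * (l ^ 2 * ρ ^ 4) - τ * q ^ 2 * (A - ρ ^ 2) +
      (s - 1) * (4 * τ / (9 - 4 * τ)) * (ρ ^ 2 * (ρ * l - 3 * q / 2) ^ 2) := by
  have h9 : 0 < 9 - 4 * τ := by linarith
  obtain ⟨κ, eκ⟩ : ∃ κ, κ = 4 * τ / (9 - 4 * τ) := ⟨_, rfl⟩
  rw [← eκ]
  have hκ : 0 ≤ κ := by rw [eκ]; positivity
  have hκ' : κ * (9 - 4 * τ) = 4 * τ := by rw [eκ]; field_simp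
  have s1 : s * W ≤ s * ρ ^ 4 - ρ ^ 2 * (A - ρ ^ 2) := by
    rcases ((sq_nonneg ρ).trans h1).eq_or_lt with h | h
    · have h5 : ρ ^ 2 = 0 := le_antisymm (h ▸ h1) (sq_nonneg ρ)
      rw [h5, zero_mul, sub_zero]
      exact mul_le_mul_of_nonneg_left h4 (by linarith)
    · refine le_of_mul_le_mul_left ?_ h
      have h5 := mul_le_mul_of_nonneg_left h3 (by linarith : 0 ≤ s)
      have h6 := mul_nonneg (sq_nonneg ρ) (mul_nonneg (sub_nonneg.2 h1) (sub_nonneg.2 h2))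
      nlinarith
  have s2 : τ * q ^ 2 ≤ (ρ * l) ^ 2 + κ * (ρ * l - 3 * q / 2) ^ 2 := by
    have h5 : (1 + κ) * ((ρ * l) ^ 2 + κ * (ρ * l - 3 * q / 2) ^ 2 - τ * q ^ 2) =
        ((1 + κ) * (ρ * l) - 3 * κ * q / 2) ^ 2 + q ^ 2 / 4 * (κ * (9 - 4 * τ) - 4 * τ) := by ring
    rw [hκ', sub_self, mul_zero, add_zero] at h5
    have h6 : 0 ≤ (1 + κ) * ((ρ * l) ^ 2 + κ * (ρ * l - 3 * q / 2) ^ 2 - τ * q ^ 2) := by
      rw [h5]; positivity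
    exact sub_nonneg.1 (nonneg_of_mul_nonneg_right h6 (by linarith))
  have s3 := mul_le_mul_of_nonneg_right s2 (sub_nonneg.2 h1)
  have s4 := mul_le_mul_of_nonneg_left s1 (sq_nonneg l)
  have s5 : κ * (ρ * l - 3 * q / 2) ^ 2 * (A - ρ ^ 2) ≤
      κ * (ρ * l - 3 * q / 2) ^ 2 * ((s - 1) * ρ ^ 2) :=
    mul_le_mul_of_nonneg_left (by linarith) (by positivity)
  nlinarith

lemma core_ray_zero {g : (Fin 2 → ℝ) → ℝ} {D : Set (Fin 2 → ℝ)} {F : ℝ} (h : Dens g D F)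
    {y : Fin 2 → ℝ} (hy : y ≠ 0) (h1 : ray g 1 y = 0) : ray g 2 y = 0 := by
  obtain ⟨R, hR⟩ := h.cpt.isBounded.exists_norm_le
  have hy' : 0 < ‖y‖ := norm_pos_iff.2 hy
  have hm : Measurable fun r : ℝ => g (r • y) * r ^ (1 + 1) :=
    (h.meas.comp (by fun_prop)).mul (by fun_prop)
  have hi : IntegrableOn (fun r : ℝ => g (r • y) * r ^ (1 + 1)) (Ioi 0) := by
    have h2 : Integrable ((Icc (0 : ℝ) (R / ‖y‖)).indicator fun _ => F * (R / ‖y‖) ^ 2) :=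
      (integrable_indicator_iff measurableSet_Icc).2 (continuous_const.integrableOn_Icc)
    refine h2.integrableOn.mono' hm.aestronglyMeasurable ?_
    filter_upwards [ae_restrict_mem measurableSet_Ioi] with r hr
    have hr' : 0 < r := hr
    rw [Real.norm_of_nonneg (mul_nonneg (h.nonneg _) (by positivity))]
    by_cases hrr : r ≤ R / ‖y‖
    · rw [indicator_of_mem (show r ∈ Icc (0 : ℝ) (R / ‖y‖) from ⟨hr'.le, hrr⟩)]
      exact mul_le_mul (h.le _) (pow_le_pow_left₀ hr'.le hrr 2) (by positivity)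
        ((h.nonneg 0).trans (h.le 0))
    · rw [indicator_of_notMem (fun hh => hrr hh.2), h.off, zero_mul]
      intro hD
      have := hR _ hD
      rw [norm_smul, Real.norm_of_nonneg hr'.le] at this
      exact hrr ((le_div_iff₀ hy').2 this)
  have h2 := (setIntegral_eq_zero_iff_of_nonneg_ae
    (Eventually.of_forall fun r => mul_nonneg (h.nonneg _) (sq_nonneg r)) hi).1 h1
  refine integral_eq_zero_of_ae ?_
  filter_upwards [h2] with r hr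
  have hr' : g (r • y) * r ^ (1 + 1) = 0 := hr
  change g (r • y) * r ^ (2 + 1) = 0
  rw [pow_succ, ← mul_assoc, hr', zero_mul]

lemma core_lin {Ω : Type} [MeasurableSpace Ω] {μ : Measure Ω} {f : Fin 10 → Ω → ℝ}
    (hf : ∀ i, Integrable (f i) μ) (c : Fin 10 → ℝ) (h : ∀ ω, 0 ≤ ∑ i, c i * f i ω) :
    0 ≤ ∑ i, c i * ∫ ω, f i ω ∂μ := by
  have : ∑ i, c i * ∫ ω, f i ω ∂μ = ∫ ω, ∑ i, c i * f i ω ∂μ := by
    rw [integral_finsetSum _ fun i _ => (hf i).const_mul _]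
    simp only [integral_const_mul]
  rw [this]
  exact integral_nonneg h

lemma core_int {φ : ℝ → ℝ} (hφ : Measurable φ) {C : ℝ} (hC : ∀ θ, |φ θ| ≤ C) {ψ : ℝ → ℝ}
    (hψ : Continuous ψ) : IntegrableOn (fun θ => ψ θ * φ θ) (Ioo (-Real.pi) Real.pi) :=
  (hψ.integrableOn_Icc.mono_set Ioo_subset_Icc_self).mul_bdd hφ.aestronglyMeasurable
    (Eventually.of_forall hC)

/-- the abstract form: ten integrals over a measure space -/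
lemma core_abs {Ω : Type} [MeasurableSpace Ω] {μ : Measure Ω} {ρ A W x y : Ω → ℝ}
    {b ν m0 m1 P00 P01 P11 Q00 Q01 Q11 : ℝ}
    (i0 : Integrable (fun θ => 1 * (ρ θ ^ 2 / 2)) μ) (i1 : Integrable (fun θ => 1 * (A θ / 2)) μ)
    (i2 : Integrable (fun θ => x θ * (ρ θ ^ 3 / 3)) μ)
    (i3 : Integrable (fun θ => y θ * (ρ θ ^ 3 / 3)) μ)
    (i4 : Integrable (fun θ => x θ * x θ * (ρ θ ^ 4 / 4)) μ)
    (i5 : Integrable (fun θ => x θ * y θ * (ρ θ ^ 4 / 4)) μ)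
    (i6 : Integrable (fun θ => y θ * y θ * (ρ θ ^ 4 / 4)) μ)
    (i7 : Integrable (fun θ => x θ * x θ * (W θ / 4)) μ)
    (i8 : Integrable (fun θ => x θ * y θ * (W θ / 4)) μ)
    (i9 : Integrable (fun θ => y θ * y θ * (W θ / 4)) μ)
    (e0 : b = ∫ θ, 1 * (ρ θ ^ 2 / 2) ∂μ) (e1 : ν = ∫ θ, 1 * (A θ / 2) ∂μ)
    (e2 : m0 = ∫ θ, x θ * (ρ θ ^ 3 / 3) ∂μ) (e3 : m1 = ∫ θ, y θ * (ρ θ ^ 3 / 3) ∂μ)
    (e4 : P00 = ∫ θ, x θ * x θ * (ρ θ ^ 4 / 4) ∂μ) (e5 : P01 = ∫ θ, x θ * y θ * (ρ θ ^ 4 / 4) ∂μ)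
    (e6 : P11 = ∫ θ, y θ * y θ * (ρ θ ^ 4 / 4) ∂μ) (e7 : Q00 = ∫ θ, x θ * x θ * (W θ / 4) ∂μ)
    (e8 : Q01 = ∫ θ, x θ * y θ * (W θ / 4) ∂μ) (e9 : Q11 = ∫ θ, y θ * y θ * (W θ / 4) ∂μ)
    (c0 c1 c2 c3 c4 c5 c6 c7 c8 c9 : ℝ)
    (h : ∀ θ, 0 ≤ c0 * (ρ θ ^ 2 / 2) + c1 * (A θ / 2) + c2 * (x θ * (ρ θ ^ 3 / 3)) +
      c3 * (y θ * (ρ θ ^ 3 / 3)) + c4 * (x θ * x θ * (ρ θ ^ 4 / 4)) +
      c5 * (x θ * y θ * (ρ θ ^ 4 / 4)) + c6 * (y θ * y θ * (ρ θ ^ 4 / 4)) +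
      c7 * (x θ * x θ * (W θ / 4)) + c8 * (x θ * y θ * (W θ / 4)) + c9 * (y θ * y θ * (W θ / 4))) :
    0 ≤ c0 * b + c1 * ν + c2 * m0 + c3 * m1 + c4 * P00 + c5 * P01 + c6 * P11 + c7 * Q00 +
      c8 * Q01 + c9 * Q11 := by
  have := core_lin (μ := μ) (f := ![fun θ => 1 * (ρ θ ^ 2 / 2), fun θ => 1 * (A θ / 2),
    fun θ => x θ * (ρ θ ^ 3 / 3), fun θ => y θ * (ρ θ ^ 3 / 3),
    fun θ => x θ * x θ * (ρ θ ^ 4 / 4), fun θ => x θ * y θ * (ρ θ ^ 4 / 4),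
    fun θ => y θ * y θ * (ρ θ ^ 4 / 4), fun θ => x θ * x θ * (W θ / 4),
    fun θ => x θ * y θ * (W θ / 4), fun θ => y θ * y θ * (W θ / 4)])
    (fun i => by fin_cases i; exacts [i0, i1, i2, i3, i4, i5, i6, i7, i8, i9])
    ![c0, c1, c2, c3, c4, c5, c6, c7, c8, c9] (fun θ => by
      have := h θ
      simp only [Fin.sum_univ_succ, Matrix.cons_val_zero, Matrix.cons_val_succ, Fin.sum_univ_zero]
      linarith)
  simp only [Fin.sum_univ_succ, Matrix.cons_val_zero, Matrix.cons_val_succ,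
    Fin.sum_univ_zero] at this
  rw [e0, e1, e2, e3, e4, e5, e6, e7, e8, e9]
  linarith

/-- the data extracted from Ball's body -/
theorem core_data {g : (Fin 2 → ℝ) → ℝ} {D : Set (Fin 2 → ℝ)} {F : ℝ} (h : Dens g D F)
    (h0 : (0 : Fin 2 → ℝ) ∈ D) (g0 : g 0 = 1) {s : ℝ} (hs : 1 ≤ s) (hF : 27 * F ≤ 16 * s ^ 3)
    {ν m0 m1 Q00 Q01 Q11 Δ : ℝ} (eν : ν = 3 * ∫ y, g y) (hν : 0 < ν)
    (e0 : m0 = 4 * ∫ y, y 0 * g y) (e1 : m1 = 4 * ∫ y, y 1 * g y)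
    (e00 : Q00 = 5 * ∫ y, y 0 * y 0 * g y) (e01 : Q01 = 5 * ∫ y, y 0 * y 1 * g y)
    (e11 : Q11 = 5 * ∫ y, y 1 * y 1 * g y)
    (eΔ : Δ = (Q00 - m0 * m0 / ν) * (Q11 - m1 * m1 / ν) - (Q01 - m0 * m1 / ν) ^ 2)
    {a0 : ℝ} (ha1 : a0 ≤ 1) (ha : ∀ u0 u1 : ℝ, (m0 * u0 + m1 * u1) ^ 2 ≤
      a0 * ν * (Q00 * u0 ^ 2 + 2 * Q01 * u0 * u1 + Q11 * u1 ^ 2)) :
    Q00 * Q11 - Q01 ^ 2 ≤ ν ^ 4 / 12 ∧ ∃ e q Y X : ℝ, 0 ≤ e ∧ 0 ≤ q ∧ q ≤ 8 ∧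
      108 * Δ * (1 + e) ^ 4 = X * ν ^ 4 ∧ X * (1 + e) ≤ 1 + e + q * e ∧
      q * X * (1 + e) ≤ Y * (1 + e) - q ^ 2 ∧ q ^ 2 ≤ a0 * (1 + e) * Y ∧
      ∀ τ : ℝ, 0 ≤ τ → τ < 9 / 4 →
        Y ≤ q * (1 + q) - τ / (2 * s) * (q ^ 2 * e - (s - 1) * (q * (8 - q)) / (9 - 4 * τ)) := by
  obtain ⟨ρ, eρ⟩ : ∃ ρ : ℝ → ℝ, ρ = fun θ => (12 * ray g 1 (ev θ)) ^ (1 / 3 : ℝ) := ⟨_, rfl⟩
  have eρ' : ∀ θ, (12 * ray g 1 (ev θ)) ^ (1 / 3 : ℝ) = ρ θ := fun θ => by rw [eρ]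
  have hI1 : ∀ θ, 0 ≤ 12 * ray g 1 (ev θ) := fun θ => mul_nonneg (by norm_num)
    (setIntegral_nonneg measurableSet_Ioi fun r _ => mul_nonneg (h.nonneg _) (sq_nonneg r))
  have hρ0 : ∀ θ, 0 ≤ ρ θ := fun θ => by rw [← eρ']; exact Real.rpow_nonneg (hI1 θ) _
  have hρ3 : ∀ θ, ρ θ ^ 3 = 12 * ray g 1 (ev θ) := fun θ => by
    rw [← eρ', ← Real.rpow_natCast, ← Real.rpow_mul (hI1 θ)]; norm_num
  have hr := fun θ => ray_ineq h h0 g0 (ev_ne_zero θ) (hρ0 θ) (hρ3 θ)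
  have hA1 : ∀ θ, ρ θ ^ 2 ≤ 6 * ray g 0 (ev θ) := fun θ => (hr θ).2.1
  have hA2 : ∀ θ, 6 * ray g 0 (ev θ) ≤ s * ρ θ ^ 2 := fun θ => by
    have h1 := (hr θ).2.2.2
    have h2 := mul_le_mul_of_nonneg_right hF (pow_nonneg (hρ0 θ) 6)
    refine le_of_pow_le_pow_left₀ (n := 3) (by norm_num)
      (mul_nonneg (by linarith) (sq_nonneg _)) ?_
    linarith
  have hW0 : ∀ θ, 0 ≤ 20 * ray g 2 (ev θ) := fun θ => mul_nonneg (by norm_num) ((hr θ).1 2)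
  have hW1 : ∀ θ, 20 * ray g 2 (ev θ) ≤ ρ θ ^ 4 := fun θ => by
    rcases (hρ0 θ).eq_or_lt with h1 | h1
    · have h2 : ray g 1 (ev θ) = 0 := by
        have := hρ3 θ
        rw [← h1] at this
        linarith
      rw [core_ray_zero h (ev_ne_zero θ) h2, mul_zero]
      exact pow_nonneg (hρ0 θ) 4
    · have h2 := mul_le_mul_of_nonneg_left (hA1 θ) (hW0 θ)
      have h3 := (hr θ).2.2.1
      refine le_of_mul_le_mul_right ?_ (pow_pos h1 2)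
      linarith
  -- integrability
  have hev : Continuous ev := continuous_pi fun i => by
    fin_cases i
    · exact Real.continuous_cos
    · exact Real.continuous_sin
  have hx : Continuous fun θ => ev θ 0 := (continuous_apply 0).comp hev
  have hy : Continuous fun θ => ev θ 1 := (continuous_apply 1).comp hev
  have hmI : ∀ k, Measurable fun θ => ray g k (ev θ) := fun k =>
    (measurable_ray h.meas k).comp hev.measurable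
  have hmρ : Measurable ρ := by rw [eρ]; exact ((hmI 1).const_mul 12).pow_const _
  have iρ : ∀ (k : ℕ) (c : ℝ) {ψ : ℝ → ℝ}, Continuous ψ →
      IntegrableOn (fun θ => ψ θ * (ρ θ ^ k / c)) (Ioo (-Real.pi) Real.pi) := fun k c ψ hψ => by
    obtain ⟨C, hC⟩ := ray_ev_bdd h 1
    refine core_int ((hmρ.pow_const k).div_const c) (C := ((12 * C) ^ (1 / 3 : ℝ)) ^ k / |c|)
      (fun θ => ?_) hψ
    rw [abs_div, abs_of_nonneg (pow_nonneg (hρ0 θ) k)]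
    refine div_le_div_of_nonneg_right (pow_le_pow_left₀ (hρ0 θ) ?_ k) (abs_nonneg c)
    rw [← eρ']
    exact Real.rpow_le_rpow (hI1 θ) (by linarith [le_abs_self (ray g 1 (ev θ)), hC θ])
      (by norm_num)
  have iI : ∀ (k : ℕ) (a c : ℝ) {ψ : ℝ → ℝ}, Continuous ψ →
      IntegrableOn (fun θ => ψ θ * (a * ray g k (ev θ) / c)) (Ioo (-Real.pi) Real.pi) :=
    fun k a c ψ hψ => by
    obtain ⟨C, hC⟩ := ray_ev_bdd h k
    refine core_int (((hmI k).const_mul a).div_const c) (C := |a| * C / |c|) (fun θ => ?_) hψ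
    rw [abs_div, abs_mul]
    exact div_le_div_of_nonneg_right (mul_le_mul_of_nonneg_left (hC θ) (abs_nonneg a))
      (abs_nonneg c)
  -- polar coordinates
  have p1 : ∀ s : ℝ, 0 < s → ∀ x : Fin 2 → ℝ, (fun _ => (1 : ℝ)) (s • x) =
      s ^ 0 * (fun _ => (1 : ℝ)) x := fun s _ x => by simp
  have p2 : ∀ i : Fin 2, ∀ s : ℝ, 0 < s → ∀ x : Fin 2 → ℝ, (fun y : Fin 2 → ℝ => y i) (s • x) =
      s ^ 1 * (fun y : Fin 2 → ℝ => y i) x := fun i s _ x => by simp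
  have p3 : ∀ i j : Fin 2, ∀ s : ℝ, 0 < s → ∀ x : Fin 2 → ℝ,
      (fun y : Fin 2 → ℝ => y i * y j) (s • x) =
      s ^ 2 * (fun y : Fin 2 → ℝ => y i * y j) x := fun i j s _ x => by
    simp only [Pi.smul_apply, smul_eq_mul]; ring
  have b0 : volume.real (ballB g) = ∫ θ in Ioo (-Real.pi) Real.pi, 1 * (ρ θ ^ 2 / 2) := by
    have := polar_ball h continuous_const 0 p1
    simp only [eρ', integral_const, smul_eq_mul, mul_one, measureReal_restrict_apply_univ] at this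
    rw [this]; norm_num
  have b1 : ∀ i, ∫ y in ballB g, y i =
      ∫ θ in Ioo (-Real.pi) Real.pi, ev θ i * (ρ θ ^ 3 / 3) := fun i => by
    have := polar_ball h (continuous_apply i) 1 (p2 i)
    simp only [eρ'] at this
    rw [this]; norm_num
  have b2 : ∀ i j, ∫ y in ballB g, y i * y j =
      ∫ θ in Ioo (-Real.pi) Real.pi, ev θ i * ev θ j * (ρ θ ^ 4 / 4) := fun i j => by
    have := polar_ball h (f := fun y => y i * y j) (by fun_prop) 2 (p3 i j)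
    simp only [eρ'] at this
    rw [this]; norm_num
  have d0 : ν = ∫ θ in Ioo (-Real.pi) Real.pi, 1 * (6 * ray g 0 (ev θ) / 2) := by
    have := polar_dens h continuous_const 0 p1
    simp only [one_mul] at this
    rw [eν, this, ← integral_const_mul]
    congr 1; funext θ; ring
  have d1 : ∀ i, 4 * ∫ y, y i * g y =
      ∫ θ in Ioo (-Real.pi) Real.pi, ev θ i * (ρ θ ^ 3 / 3) := fun i => by
    rw [polar_dens h (continuous_apply i) 1 (p2 i), ← integral_const_mul]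
    congr 1; funext θ; rw [hρ3]; ring
  have d2 : ∀ i j, 5 * ∫ y, y i * y j * g y =
      ∫ θ in Ioo (-Real.pi) Real.pi, ev θ i * ev θ j * (20 * ray g 2 (ev θ) / 4) := fun i j => by
    rw [polar_dens h (f := fun y => y i * y j) (by fun_prop) 2 (p3 i j), ← integral_const_mul]
    congr 1; funext θ; ring
  obtain ⟨b, eb⟩ : ∃ b, b = volume.real (ballB g) := ⟨_, rfl⟩
  obtain ⟨P00, eP0⟩ : ∃ P, P = ∫ y in ballB g, y 0 * y 0 := ⟨_, rfl⟩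
  obtain ⟨P01, eP1⟩ : ∃ P, P = ∫ y in ballB g, y 0 * y 1 := ⟨_, rfl⟩
  obtain ⟨P11, eP2⟩ : ∃ P, P = ∫ y in ballB g, y 1 * y 1 := ⟨_, rfl⟩
  have H := core_abs (μ := volume.restrict (Ioo (-Real.pi) Real.pi)) (ρ := ρ)
    (A := fun θ => 6 * ray g 0 (ev θ)) (W := fun θ => 20 * ray g 2 (ev θ))
    (x := fun θ => ev θ 0) (y := fun θ => ev θ 1)
    (iρ 2 2 continuous_const) (iI 0 6 2 continuous_const) (iρ 3 3 hx) (iρ 3 3 hy)
    (iρ 4 4 (hx.mul hx)) (iρ 4 4 (hx.mul hy)) (iρ 4 4 (hy.mul hy))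
    (iI 2 20 4 (hx.mul hx)) (iI 2 20 4 (hx.mul hy)) (iI 2 20 4 (hy.mul hy))
    (eb.trans b0) d0 (e0.trans (d1 0)) (e1.trans (d1 1)) (eP0.trans (b2 0 0)) (eP1.trans (b2 0 1))
    (eP2.trans (b2 1 1)) (e00.trans (d2 0 0)) (e01.trans (d2 0 1)) (e11.trans (d2 1 1))
  have hbν : b ≤ ν := by
    have := H (-1) 1 0 0 0 0 0 0 0 0 fun θ => by linarith [hA1 θ]
    linarith
  have hb : 0 < b := by
    have h1 := H s (-1) 0 0 0 0 0 0 0 0 fun θ => by linarith [hA2 θ]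
    exact pos_of_mul_pos_left (b := s) (by linarith) (by linarith)
  obtain ⟨hS0, hS1, hS2⟩ := plane_thm (ballB_convex h h0) (ballB_bounded h) (eb ▸ hb) eb
    ((e0.trans (d1 0)).trans (b1 0).symm) ((e1.trans (d1 1)).trans (b1 1).symm) eP0 eP1 eP2
  refine core_alg hb hbν hs hS0 hS1 hS2 (fun x y => ?_) (fun x y => ?_) (fun x y q => ?_)
    (fun x y q τ hτ hτ' => ?_) eΔ ha1 ha
  · have := H 0 0 0 0 0 0 0 (x ^ 2) (2 * x * y) (y ^ 2) fun θ => by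
      have := mul_nonneg (sq_nonneg (x * ev θ 0 + y * ev θ 1)) (hW0 θ)
      linarith
    linarith
  · have := H 0 0 0 0 (x ^ 2) (2 * x * y) (y ^ 2) (-x ^ 2) (-(2 * x * y)) (-y ^ 2) fun θ => by
      have := mul_le_mul_of_nonneg_left (hW1 θ) (sq_nonneg (x * ev θ 0 + y * ev θ 1))
      linarith
    linarith
  · have := H (9 * q ^ 2 / 4) 0 (-(9 * q / 2 * x)) (-(9 * q / 2 * y)) (2 * x ^ 2) (4 * x * y)
      (2 * y ^ 2) 0 0 0 fun θ => by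
      have := mul_nonneg (sq_nonneg (ρ θ))
        (sq_nonneg (ρ θ * (x * ev θ 0 + y * ev θ 1) - 3 * q / 2))
      linarith
    linarith
  · have hp := fun θ => core_pt (l := x * ev θ 0 + y * ev θ 1) (q := q) hs (hA1 θ) (hA2 θ)
      (hr θ).2.2.1 (hW1 θ) hτ hτ'
    obtain ⟨κ, eκ⟩ : ∃ κ, κ = (s - 1) * (4 * τ / (9 - 4 * τ)) := ⟨_, rfl⟩
    rw [← eκ] at hp ⊢
    have := H (τ * q ^ 2 + κ * (9 * q ^ 2 / 4)) (-(τ * q ^ 2)) (-(κ * (9 * q / 2 * x)))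
      (-(κ * (9 * q / 2 * y))) ((2 * s + 2 * κ) * x ^ 2) ((2 * s + 2 * κ) * (2 * x * y))
      ((2 * s + 2 * κ) * y ^ 2) (-(2 * s * x ^ 2)) (-(2 * s * (2 * x * y))) (-(2 * s * y ^ 2))
      fun θ => by
      have := hp θ
      linarith
    linarith

end Pool.Agent.P.MP_2e1554_gt
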