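import Pool.Agent.P.MP_2e1554_gt.IsoDer

open MeasureTheory Set Finset Matrix Filter Topology Pointwise

namespace Pool.Agent.P.MP_2e1554_gt

variable {n : ℕ}

lemma hasDerivAt_det {m : ℕ} {M : ℝ → Matrix (Fin m) (Fin m) ℝ} {B : Matrix (Fin m) (Fin m) ℝ}
    {v : ℝ} (h0 : M 0 = v • (1 : Matrix (Fin m) (Fin m) ℝ))
    (h : ∀ i j, HasDerivAt (fun t => M t i j) (B i j) 0) :
    HasDerivAt (fun t => (M t).det) (v ^ (m - 1) * B.trace) 0 := by
  simp only [Matrix.det_apply']
  refine (HasDerivAt.fun_sum (u := Finset.univ) fun (σ : Equiv.Perm (Fin m)) _ =>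
    (HasDerivAt.fun_finsetProd (u := Finset.univ) fun i _ => h (σ i) i).const_mul
      ((Equiv.Perm.sign σ : ℤ) : ℝ)).congr_deriv ?_
  rw [Finset.sum_eq_single 1, Matrix.trace]
  · simp [h0, Finset.card_erase_of_mem, Finset.mul_sum]
  · intro σ _ hσ
    refine mul_eq_zero_of_right _ (Finset.sum_eq_zero fun i _ => ?_)
    obtain ⟨j, hj, hji⟩ : ∃ j, σ j ≠ j ∧ j ≠ i := by
      by_contra hc
      push Not at hc
      refine hσ (Equiv.ext fun j => ?_)
      by_contra hj
      have h1 := hc j hj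
      have h2 := hc (σ j) fun h => hj (σ.injective h)
      exact hj (h2.trans h1.symm)
    rw [Finset.prod_eq_zero (i := j) (by simp [hji]) (by simp [h0, hj]), zero_smul]
  · simp

theorem crit_of_max (hn : 1 ≤ n) {A : Finset (Fin n → ℝ)} (hA : Iso (poly A))
    (hmax : ∀ a ∈ A, ∀ b, ∀ᶠ t in 𝓝 (0 : ℝ), Jv (poly (mv A a b t)) ≤ Jv (poly A)) : Crit A := by
  intro a ha b
  have es : ∀ (x : Fin n → ℝ) i, ins 0 1 x (Fin.succ i) = x i := fun x i => ins_succAbove 0 1 x i
  let d : Fin (n + 1) → ℕ := fun i => if i = 0 then 0 else 1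
  have hd : ∀ (s : ℝ) (x : Fin n → ℝ) i, ins 0 1 (s • x) i = s ^ d i * ins 0 1 x i := by
    intro s x i
    refine Fin.cases ?_ (fun j => ?_) i
    · simp [d]
    · simp [d, es]
  have hc : ∀ i, Continuous fun x : Fin n → ℝ => ins 0 1 x i := by
    intro i
    refine Fin.cases ?_ (fun j => ?_) i
    · simpa using continuous_const
    · simpa only [es] using continuous_apply j
  have key := fun i j => hasDerivAt_moment hn hA.cpt.isBounded ha b
    (f := fun x => ins 0 1 x i * ins 0 1 x j) ((hc i).mul (hc j)) (d i + d j)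
    (fun s _ x => by simp only [hd]; ring)
  set v := volume.real (poly A) with hv
  have hv0 : 0 < v := hA.toBody.vol_pos
  let M : ℝ → Matrix (Fin (n + 1)) (Fin (n + 1)) ℝ := fun t => gram (poly (mv A a b t)) 1
  let B : Matrix (Fin (n + 1)) (Fin (n + 1)) ℝ := Matrix.of fun i j =>
    -(∫ x in cone A a, (b ⬝ᵥ x) * (ins 0 1 x i * ins 0 1 x j) * Real.exp (-(a ⬝ᵥ x))) /
      (n + (d i + d j)).factorial
  have hM : ∀ i j, HasDerivAt (fun t => M t i j) (B i j) 0 := fun i j => by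
    simpa only [M, B, gram, Matrix.of_apply, one_mulVec] using (key i j).2
  have h0 : M 0 = v • (1 : Matrix (Fin (n + 1)) (Fin (n + 1)) ℝ) := by
    simp only [M, mv_zero ha]
    exact hA.gram_eq
  have hV : ∀ t, volume.real (poly (mv A a b t)) = M t 0 0 := fun t => by simp [M, gram]
  have h00 : M 0 0 0 = v := by simp [h0]
  have h1 := (hasDerivAt_det h0 hM).fun_div ((hM 0 0).fun_pow (n + 3)) (by rw [h00]; positivity)
  have h2 : IsLocalMax (fun t => (M t).det / M t 0 0 ^ (n + 3)) 0 := by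
    filter_upwards [hmax a ha b] with t ht
    rw [← hV, ← hV]
    simpa only [M, mv_zero ha, Jv] using ht
  have h3 := h2.hasDerivAt_eq_zero h1
  rw [h00, h0, div_eq_zero_iff, or_iff_left (by positivity), det_smul, det_one, Matrix.trace,
    Fin.sum_univ_succ] at h3
  simp only [Fintype.card_fin, Matrix.diag_apply, Nat.add_sub_cancel] at h3
  have h4 : ∑ i : Fin n, B i.succ i.succ = (n + 2) * B 0 0 := by
    refine mul_left_cancel₀ (show v ^ (2 * n + 3) ≠ 0 by positivity) ?_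
    rw [show n + 3 - 1 = n + 2 from rfl] at h3
    push_cast at h3
    linear_combination h3
  have i0 := (key 0 0).1
  have i1 := fun i : Fin n => (key i.succ i.succ).1
  simp only [B, Matrix.of_apply, es, ins_same, d, if_true, Fin.succ_ne_zero, if_false, mul_one,
    add_zero] at h4 i0 i1
  rw [← Finset.sum_div, Finset.sum_neg_distrib, ← integral_finsetSum _ fun i _ => i1 i,
    show n + (1 + 1) = n + 1 + 1 from rfl, Nat.factorial_succ, Nat.factorial_succ] at h4
  have h5 : ∀ x : Fin n → ℝ, (b ⬝ᵥ x) * (x ⬝ᵥ x - ((n : ℝ) + 2) ^ 2 * (n + 1)) *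
      Real.exp (-(a ⬝ᵥ x)) = ∑ i, (b ⬝ᵥ x) * (x i * x i) * Real.exp (-(a ⬝ᵥ x)) -
        ((n : ℝ) + 2) ^ 2 * (n + 1) * ((b ⬝ᵥ x) * Real.exp (-(a ⬝ᵥ x))) := fun x => by
    rw [← Finset.sum_mul, ← Finset.mul_sum, show x ⬝ᵥ x = ∑ i, x i * x i from rfl]
    ring
  simp only [h5]
  rw [integral_sub (integrable_finsetSum _ fun i _ => i1 i) (i0.const_mul _), integral_const_mul]
  have : (0 : ℝ) < n.factorial := by positivity
  push_cast at h4
  generalize (∫ x in cone A a, ∑ i, (b ⬝ᵥ x) * (x i * x i) * Real.exp (-(a ⬝ᵥ x))) = I at h4 ⊢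
  field_simp at h4
  linear_combination -h4

end Pool.Agent.P.MP_2e1554_gt
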