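import Pool.Agent.P.MP_2e1554_gt.IsoQ
import Pool.Agent.P.MP_2e1554_gt.IsoChkT

/-! A compact format for the leaves of a certificate. Nothing has to be proved about it. -/

namespace Pool.Agent.P.MP_2e1554_gt.Chk

def rep (k : ℕ) : ℕ := (Nat.div (Nat.sub (Nat.shiftLeft (nat_lit 1) (nat_lit 32768)) (nat_lit 1))
      (Nat.sub (Nat.shiftLeft (nat_lit 1) (Nat.mul (nat_lit 128) k)) (nat_lit 1)))
def msk (w k : ℕ) : ℕ := (Nat.mul (Nat.sub (Nat.shiftLeft (nat_lit 1) (Nat.mul k w)) (nat_lit 1))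
      (rep k))
def shf (w k : ℕ) : ℕ := (Nat.mul k (Nat.sub (nat_lit 64) w))
/-- fields of `w` bits are moved to lanes of `64` bits -/
noncomputable def spr (w X : ℕ) : ℕ := zeta% (
  let sp2 (X Y s : ℕ) : ℕ := (Nat.add Y (Nat.shiftLeft (Nat.xor X Y) s))
  let sp1 (k X : ℕ) : ℕ := (sp2 X (Nat.land X (msk w k)) (shf w k))
  (sp1 (nat_lit 1) (sp1 (nat_lit 2) (sp1 (nat_lit 4) (sp1 (nat_lit 8) (sp1 (nat_lit 16) (sp1
      (nat_lit 32) (sp1 (nat_lit 64) (sp1 (nat_lit 128) (sp1 (nat_lit 256) X))))))))))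
noncomputable def vd2 (Y S a : ℕ) : Vd := zeta% (
  let fp (j : ℕ) : ℕ := (Nat.sub (Nat.land (Nat.shiftRight Y j) (nat_lit 4294967295)) (nat_lit
      2147483648))
  let fq (j : ℕ) : ℕ := (Nat.sub (nat_lit 2147483648) (Nat.land (Nat.shiftRight Y j) (nat_lit
      4294967295)))
  Vd.mk (Nat.sub (Nat.land Y (nat_lit 4294967295)) (nat_lit 2147483648)) (Nat.sub (nat_lit
      2147483648) (Nat.land Y (nat_lit 4294967295))) (fp (nat_lit 32)) (fq (nat_lit 32)) (fp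
      (nat_lit 64)) (fq (nat_lit 64)) (fp (nat_lit 96)) (fq (nat_lit 96))
    (fp (nat_lit 128)) (fq (nat_lit 128)) (Nat.sub (Nat.shiftRight Y (nat_lit 160)) (nat_lit
      2147483648)) (Nat.sub (nat_lit 2147483648) (Nat.shiftRight Y (nat_lit 160)))
    (Nat.shiftLeft (Nat.shiftRight S (Nat.mul (nat_lit 3584) (Nat.land a (nat_lit 7)))) (Nat.land
      (Nat.shiftRight a (nat_lit 3)) (nat_lit 31))) (Nat.shiftLeft (Nat.shiftRight S (Nat.mul
      (nat_lit 3584) (Nat.land (Nat.shiftRight a (nat_lit 8)) (nat_lit 7)))) (Nat.shiftRight a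
      (nat_lit 11))))
noncomputable def vd (X S k : ℕ) : Vd :=
  force (Nat.land (Nat.shiftRight X (Nat.add (nat_lit 64) (Nat.mul (nat_lit 16) k))) (nat_lit
      65535)) (vd2 (Nat.land (Nat.shiftRight X (Nat.add (nat_lit 256) (Nat.mul (nat_lit 192) k)))
      (nat_lit 6277101735386680763835789423207666416102355444464034512895)) S)
noncomputable def lf4 (X h n Y S k0 k1 k2 k3 : ℕ) : Tx := zeta% (
  let fw (j : ℕ) : ℕ := (Nat.land (Nat.shiftRight X j) (nat_lit 4294967295))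
  Tx.leaf ⟨(Nat.land h (nat_lit 1)), (Nat.sub (fw (nat_lit 128)) (nat_lit 2147483648)), (Nat.sub
      (nat_lit 2147483648) (fw (nat_lit 128))), (Nat.sub (fw (nat_lit 160)) (nat_lit 2147483648)),
      (Nat.sub (nat_lit 2147483648) (fw (nat_lit 160))), (fw (nat_lit 192)),
    (Nat.land (Nat.shiftRight X (nat_lit 224)) (nat_lit 65535)), (Nat.land (Nat.shiftRight X
      (nat_lit 240)) (nat_lit 65535)), 0, (Nat.shiftLeft (Nat.shiftRight S (Nat.mul (nat_lit 1792)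
      (Nat.sub (nat_lit 31) (Nat.land (Nat.shiftRight h (nat_lit 24)) (nat_lit 31)))))
      (Nat.shiftRight h (nat_lit 29)))⟩ n
    (Nat.mod Y (Nat.shiftLeft (nat_lit 1) (Nat.mul (nat_lit 64) n))) (vd X S k0) (vd X S k1) (vd X
      S k2) (vd X S k3))
noncomputable def lf5 (X h n Y S : ℕ) : Tx :=
  force (Nat.land (Nat.shiftRight h (nat_lit 16)) (nat_lit 3)) fun k0 => force (Nat.land
      (Nat.shiftRight h (nat_lit 18)) (nat_lit 3)) fun k1 => force (Nat.land (Nat.shiftRight h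
      (nat_lit 20)) (nat_lit 3)) fun k2 =>
    force (Nat.land (Nat.shiftRight h (nat_lit 22)) (nat_lit 3)) (lf4 X h n Y S k0 k1 k2)
noncomputable def lf3 (X h n Y S : ℕ) : Tx :=
  @Bool.rec (fun _ => Tx) (@Bool.rec (fun _ => Tx) (lf5 X h n Y S) (lf4 X h n Y S (nat_lit 0)
      (nat_lit 0) (nat_lit 0) (nat_lit 0)) (Nat.beq (Nat.land h (nat_lit 16711680)) (nat_lit 0)))
    (lf4 X h n Y S (nat_lit 0) (nat_lit 1) (nat_lit 2) (nat_lit 3)) (Nat.beq (Nat.land h (nat_lit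
      16711680)) (nat_lit 14942208))
noncomputable def lf2 (X Y h n w : ℕ) : Tx :=
  frc (spr w (Nat.shiftRight Y (Nat.mul (nat_lit 64) n))) (lf3 X h n Y)
noncomputable def lf1 (Z h o : ℕ) : Tx :=
  force (Nat.land (Nat.shiftRight h (nat_lit 7)) (nat_lit 63)) (lf2 (Nat.mod Z (Nat.shiftLeft
      (nat_lit 1) o)) (Nat.shiftRight Z o) h (Nat.land (Nat.shiftRight h (nat_lit 1)) (nat_lit 63)))
/-- a leaf -/
noncomputable def lf (Z : ℕ) : Tx := lf1 Z (Nat.land Z (nat_lit 17179869183)) (Nat.add (nat_lit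
      256) (Nat.mul (nat_lit 192) (Nat.land (Nat.shiftRight Z (nat_lit 13)) (nat_lit 7))))

def R4 : ℕ := (Nat.add (Nat.add (Nat.add (nat_lit 1) (Nat.shiftLeft (nat_lit 1) (nat_lit 3584)))
      (Nat.shiftLeft (nat_lit 1) (nat_lit 7168))) (Nat.shiftLeft (nat_lit 1) (nat_lit 10752)))
def F1 : ℕ := (Nat.mul (nat_lit 18446744073709551615) R4)
def NF : ℕ := (Nat.sub (Nat.sub (Nat.shiftLeft (nat_lit 1) (nat_lit 14336)) (nat_lit 1)) F1)
def NL : ℕ := (Nat.sub (Nat.sub (Nat.shiftLeft (nat_lit 1) (nat_lit 14336)) (nat_lit 1))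
      (Nat.shiftLeft F1 (nat_lit 3520)))
def CM4 : ℕ := (Nat.mul CM R4)
def O26 : ℕ := (Nat.div (Nat.sub (Nat.shiftLeft (nat_lit 1) (nat_lit 1664)) (nat_lit 1)) (nat_lit
      18446744073709551615))
def sgn (wc : ℕ) : ℕ := (Nat.shiftLeft O26 (Nat.sub wc (nat_lit 1)))
def one (we : ℕ) : ℕ := (Nat.sub (Nat.shiftLeft (nat_lit 1) we) (nat_lit 1))
/-- `m` pairs of a position and a value -/
noncomputable def itm (s a M p m : ℕ) : ℕ → ℕ :=
  Nat.rec (motive := fun _ => ℕ → ℕ) (fun _ => nat_lit 0)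
    (fun _ ih Y => Nat.add (Nat.shiftLeft (Nat.land (Nat.shiftRight Y a) M) (Nat.land Y p)) (ih
      (Nat.shiftRight Y s))) m
noncomputable def ve (P Q al be : ℕ) : Vd := zeta% (
  let l (X j : ℕ) : ℕ := (Nat.land (Nat.shiftRight X j) (nat_lit 4294967295))
  Vd.mk (Nat.land P (nat_lit 4294967295)) (Nat.land Q (nat_lit 4294967295)) (l P (nat_lit 64)) (l Q
      (nat_lit 64)) (l P (nat_lit 128)) (l Q (nat_lit 128)) (l P (nat_lit 192)) (l Q (nat_lit 192))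
    (l P (nat_lit 256)) (l Q (nat_lit 256)) (l P (nat_lit 320)) (l Q (nat_lit 320)) al be)
noncomputable def lg4 (Z h g n m w wc we a1 a2 a3 c1 c2 c3 : ℕ) : Tx := zeta% (
  let sp2 (X Y s : ℕ) : ℕ := (Nat.add Y (Nat.shiftLeft (Nat.xor X Y) s))
  let sp1 (w k X : ℕ) : ℕ := (sp2 X (Nat.land X (msk w k)) (shf w k))
  let sp6 (w X : ℕ) : ℕ := (sp1 w (nat_lit 1) (sp1 w (nat_lit 2) (sp1 w (nat_lit 4) (sp1 w (nat_lit
      8) (sp1 w (nat_lit 16) (sp1 w (nat_lit 32) X))))))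
  let s : ℕ := (Nat.add (nat_lit 9) we)
  let k : ℕ := (Nat.land (Nat.shiftRight h (nat_lit 36)) (nat_lit 31))
  let kc : ℕ := (Nat.land (Nat.shiftRight h (nat_lit 41)) (nat_lit 31))
  let A : ℕ := (itm s (nat_lit 15) (one we) (nat_lit 32704) m (Nat.shiftRight Z (nat_lit 106)))
  let X : ℕ := (Nat.shiftRight Z (Nat.add (nat_lit 112) (Nat.mul m s)))
  let b : ℕ := (Nat.add (nat_lit 8) (Nat.mul (nat_lit 6) (Nat.shiftRight g (nat_lit 6))))
  let c : ℕ := (Nat.mul (Nat.add b (Nat.mul (nat_lit 3) n)) wc)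
  let S2 : ℕ := (sp6 wc (sp1 wc (nat_lit 64) (Nat.mod X (Nat.shiftLeft (nat_lit 1) c))))
  let S : ℕ := (sp6 w (sp1 w (nat_lit 64) (sp1 w (nat_lit 128) (Nat.shiftRight X c))))
  let x : ℕ := (Nat.add (Nat.add (Nat.add (Nat.add (Nat.land (Nat.shiftLeft S (nat_lit 64)) NF)
      (Nat.land (Nat.shiftRight S (nat_lit 3520)) F1)) (Nat.land (Nat.shiftRight S (nat_lit 64))
      NL)) (Nat.shiftLeft (Nat.land S F1) (nat_lit 3520))) (Nat.shiftLeft S (nat_lit 2)))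
  let A1 : ℕ := (Nat.shiftLeft A k)
  let BE : ℕ := (Nat.sub (Nat.add (Nat.shiftRight (Nat.add (Nat.mul x (nat_lit 1431655766))
      (Nat.mul (Nat.land x CM4) (nat_lit 20164166))) (Nat.sub (nat_lit 33) k)) A1) (Nat.shiftRight
      A1 (nat_lit 17920)))
  let AL : ℕ := (Nat.shiftLeft S k)
  let T : ℕ := (Nat.land S2 (sgn wc))
  let P0 : ℕ := (Nat.land S2 (Nat.sub T (Nat.shiftRight T (Nat.sub wc (nat_lit 1)))))
  let P : ℕ := (Nat.shiftLeft P0 kc)
  let Q : ℕ := (Nat.shiftLeft (Nat.xor (Nat.xor S2 T) P0) kc)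
  let R : ℕ := (Nat.shiftRight S2 (Nat.mul (nat_lit 64) b))
  let v (a c : ℕ) : Vd := (ve (Nat.shiftRight P (Nat.add (nat_lit 128) (Nat.mul (nat_lit 384) c)))
      (Nat.shiftRight Q (Nat.add (nat_lit 128) (Nat.mul (nat_lit 384) c))) (Nat.shiftRight AL
      (Nat.mul (nat_lit 3584) a)) (Nat.shiftRight BE (Nat.mul (nat_lit 3584) a)))
  Tx.leaf ⟨(Nat.land h (nat_lit 1)), (Nat.land P (nat_lit 4294967295)), (Nat.land Q (nat_lit
      4294967295)), (Nat.land (Nat.shiftRight P (nat_lit 64)) (nat_lit 4294967295)), (Nat.land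
      (Nat.shiftRight Q (nat_lit 64)) (nat_lit 4294967295)),
    (Nat.land (Nat.shiftRight Z (nat_lit 80)) (nat_lit 16777215)), (Nat.land (Nat.shiftRight Z
      (nat_lit 64)) (nat_lit 255)), (Nat.land (Nat.shiftRight Z (nat_lit 72)) (nat_lit 255)), 0,
      (Nat.shiftLeft (Nat.shiftRight A (nat_lit 14336)) (Nat.land (Nat.shiftRight h (nat_lit 46))
      (nat_lit 31)))⟩ n
    (Nat.add (Nat.add (Nat.shiftLeft R (Nat.shiftRight h (nat_lit 51))) (Nat.shiftLeft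
      (Nat.shiftRight R (Nat.mul (nat_lit 64) n)) (nat_lit 32))) (Nat.shiftLeft (Nat.shiftRight R
      (Nat.mul (nat_lit 128) n)) (Nat.add (nat_lit 32) wc)))
    (v Nat.zero Nat.zero) (v a1 c1) (v a2 c2) (v a3 c3))
noncomputable def lg1 (Z h n m w wc we : ℕ) : Tx := zeta% (
  let sp2 (X Y s : ℕ) : ℕ := (Nat.add Y (Nat.shiftLeft (Nat.xor X Y) s))
  let sp1 (w k X : ℕ) : ℕ := (sp2 X (Nat.land X (msk w k)) (shf w k))
  let sp6 (w X : ℕ) : ℕ := (sp1 w (nat_lit 1) (sp1 w (nat_lit 2) (sp1 w (nat_lit 4) (sp1 w (nat_lit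
      8) (sp1 w (nat_lit 16) (sp1 w (nat_lit 32) X))))))
  let s : ℕ := (Nat.add (nat_lit 8) we)
  let k : ℕ := (Nat.land (Nat.shiftRight h (nat_lit 36)) (nat_lit 31))
  let kc : ℕ := (Nat.land (Nat.shiftRight h (nat_lit 41)) (nat_lit 31))
  let A : ℕ := (itm s (nat_lit 14) (one we) (nat_lit 16320) m (Nat.shiftRight Z (nat_lit 98)))
  let X : ℕ := (Nat.shiftRight Z (Nat.add (nat_lit 104) (Nat.mul m s)))
  let c : ℕ := (Nat.mul (Nat.add (nat_lit 8) (Nat.mul (nat_lit 3) n)) wc)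
  let S2 : ℕ := (sp6 wc (sp1 wc (nat_lit 64) (Nat.mod X (Nat.shiftLeft (nat_lit 1) c))))
  let S : ℕ := (sp6 w (Nat.shiftRight X c))
  let x : ℕ := (Nat.add (Nat.add (Nat.add (Nat.add (Nat.shiftLeft S (nat_lit 64)) (Nat.shiftRight S
      (nat_lit 3520))) (Nat.shiftRight S (nat_lit 64))) (Nat.shiftLeft (Nat.land S (nat_lit
      18446744073709551615)) (nat_lit 3520))) (Nat.shiftLeft S (nat_lit 2)))
  let A1 : ℕ := (Nat.shiftLeft A k)
  let BE : ℕ := (Nat.sub (Nat.add (Nat.shiftRight (Nat.add (Nat.mul x (nat_lit 1431655766))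
      (Nat.mul (Nat.land x CM) (nat_lit 20164166))) (Nat.sub (nat_lit 33) k)) A1) (Nat.shiftRight
      A1 (nat_lit 7168)))
  let T : ℕ := (Nat.land S2 (sgn wc))
  let P0 : ℕ := (Nat.land S2 (Nat.sub T (Nat.shiftRight T (Nat.sub wc (nat_lit 1)))))
  let P : ℕ := (Nat.shiftLeft P0 kc)
  let Q : ℕ := (Nat.shiftLeft (Nat.xor (Nat.xor S2 T) P0) kc)
  let R : ℕ := (Nat.shiftRight S2 (nat_lit 512))
  let d : Vd := (ve (Nat.shiftRight P (nat_lit 128)) (Nat.shiftRight Q (nat_lit 128))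
      (Nat.shiftLeft S k) BE)
  Tx.leaf ⟨(Nat.land h (nat_lit 1)), (Nat.land P (nat_lit 4294967295)), (Nat.land Q (nat_lit
      4294967295)), (Nat.land (Nat.shiftRight P (nat_lit 64)) (nat_lit 4294967295)), (Nat.land
      (Nat.shiftRight Q (nat_lit 64)) (nat_lit 4294967295)),
    (Nat.land (Nat.shiftRight Z (nat_lit 80)) (nat_lit 16777215)), (Nat.land (Nat.shiftRight Z
      (nat_lit 64)) (nat_lit 255)), (Nat.land (Nat.shiftRight Z (nat_lit 72)) (nat_lit 255)), 0,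
      (Nat.shiftLeft (Nat.shiftRight A (nat_lit 3584)) (Nat.land (Nat.shiftRight h (nat_lit 46))
      (nat_lit 31)))⟩ n
    (Nat.add (Nat.add (Nat.shiftLeft R (Nat.shiftRight h (nat_lit 51))) (Nat.shiftLeft
      (Nat.shiftRight R (Nat.mul (nat_lit 64) n)) (nat_lit 32))) (Nat.shiftLeft (Nat.shiftRight R
      (Nat.mul (nat_lit 128) n)) (Nat.add (nat_lit 32) wc))) d d d d)
noncomputable def lg0 (Z h g : ℕ) : Tx :=
  force (Nat.land (Nat.shiftRight h (nat_lit 21)) (nat_lit 31)) fun w => force (Nat.land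
      (Nat.shiftRight h (nat_lit 26)) (nat_lit 31)) fun wc => force (Nat.land (Nat.shiftRight h
      (nat_lit 31)) (nat_lit 31)) fun we =>
    @Bool.rec (fun _ => Tx)
      (force (Nat.land (Nat.shiftRight h (nat_lit 2)) (nat_lit 3)) fun a1 => force (Nat.land
      (Nat.shiftRight h (nat_lit 4)) (nat_lit 3)) fun a2 => force (Nat.land (Nat.shiftRight h
      (nat_lit 6)) (nat_lit 3)) fun a3 =>
        force (Nat.land g (nat_lit 3)) fun c1 => force (Nat.land (Nat.shiftRight g (nat_lit 2))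
      (nat_lit 3)) fun c2 => force (Nat.land (Nat.shiftRight g (nat_lit 4)) (nat_lit 3))
        (lg4 Z h g (Nat.land (Nat.shiftRight h (nat_lit 8)) (nat_lit 63)) (Nat.land (Nat.shiftRight
      h (nat_lit 14)) (nat_lit 127)) w wc we a1 a2 a3 c1 c2))
      (lg1 Z h (Nat.land (Nat.shiftRight h (nat_lit 8)) (nat_lit 63)) (Nat.land (Nat.shiftRight h
      (nat_lit 14)) (nat_lit 127)) w wc we) (Nat.beq (Nat.land h (nat_lit 2)) (nat_lit 0))
/-- a leaf, shorter format -/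
noncomputable def lg (Z : ℕ) : Tx := lg0 Z (Nat.land Z (nat_lit 72057594037927935)) (Nat.land
      (Nat.shiftRight Z (nat_lit 104)) (nat_lit 255))

def R56 : ℕ := 63 * O56
def R28 : ℕ := 63 * O28
/-- a state -/
noncomputable def xs (Z : ℕ) : Xs :=
  frc (spr (nat_lit 24) (Nat.shiftRight Z (nat_lit 64))) fun S =>
    ⟨⟨(Nat.land S F56), (Nat.land (Nat.shiftRight S (nat_lit 3584)) F56), (Nat.land (Nat.shiftRight
      S (nat_lit 7168)) F56), (Nat.add (Nat.land (Nat.shiftRight S (nat_lit 17932)) R28)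
      (Nat.shiftLeft (Nat.shiftRight S (nat_lit 21504)) (nat_lit 1792))), (Nat.land Z
      (nat_lit 16777215)),
      (Nat.land (Nat.shiftRight Z (nat_lit 24)) (nat_lit 16777215))⟩, ⟨(Nat.land (Nat.shiftRight S
      (nat_lit 10752)) F56), (Nat.land (Nat.shiftRight S (nat_lit 14336)) F56)⟩,
      ⟨(Nat.land (Nat.shiftRight S (nat_lit 17920)) R56), (Nat.land (Nat.shiftRight S (nat_lit
      17926)) R56)⟩⟩
noncomputable def hs (H : List (Bx × ℕ)) : List (Bx × Xs) :=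
  List.rec [] (fun h _ ih => (h.1, xs h.2) :: ih) H
noncomputable def chkZ (G : Gx) (H : List (Bx × ℕ)) (t : Tx) (h : Bx × ℕ) : Bool :=
  unX (chkFQ G (hs H) t h.1) (xs h.2)
noncomputable def chk0 (G : Gx) (H : List (Bx × ℕ)) (t : Tx) (B : Bx) : Bool :=
  chkFQ G (hs H) t B QL0 QH0 SL0 LL0 103923 0 WL0 WH0 RL0 RH0
noncomputable def chkP (Z : ℕ) (H : List (Bx × ℕ)) (t : Tx) (h : Bx × ℕ) : Bool :=
  unH Z fun G _ => chkZ G H t h
noncomputable def chkR (Z : ℕ) (H : List (Bx × ℕ)) (t : Tx) : Bool := unH Z fun G B => chk0 G H t B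
noncomputable def chkL (L : List Tx) : ℕ → ℕ → Bool :=
  List.rec (motive := fun _ => ℕ → ℕ → Bool) (fun _ m => Nat.beq m 0)
    (fun t _ ih Z m => chkR Z [] t && frc (Z >>> 384) fun Y => force (m - 1) (ih Y)) L

end Pool.Agent.P.MP_2e1554_gt.Chk
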