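import Pool.Agent.P.MP_2e1554_gt.IsoDefs

open MeasureTheory Set Finset Matrix Filter Topology Pointwise

namespace Pool.Agent.P.MP_2e1554_gt

variable {n : ℕ}

/-- first moments of the cone over a facet -/
noncomputable def cm1 (A : Finset (Fin n → ℝ)) (a : Fin n → ℝ) : Fin n → ℝ :=
  fun i => ∫ x in cone A a, x i * Real.exp (-(a ⬝ᵥ x))

/-- second moments of the cone over a facet -/
noncomputable def cm2 (A : Finset (Fin n → ℝ)) (a : Fin n → ℝ) : Matrix (Fin n) (Fin n) ℝ :=
  Matrix.of fun i j => ∫ x in cone A a, x i * x j * Real.exp (-(a ⬝ᵥ x))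

end Pool.Agent.P.MP_2e1554_gt
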