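import Pool.Agent.P.MP_2e1554_gt.IsoDefs

open MeasureTheory Set Finset Matrix Filter Topology Pointwise

namespace Pool.Agent.P.MP_2e1554_gt

/-- quadratic part of the squared distance to the origin in the covariance frame -/
def Gq (g₁ g₂ : ℝ) (y : Fin 2 → ℝ) : ℝ := g₁ * y 0 ^ 2 + g₂ * y 1 ^ 2

/-- squared distance to the origin in the covariance frame -/
def Rq (g₁ g₂ v₁ v₂ : ℝ) (y : Fin 2 → ℝ) : ℝ :=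
  5 - g₁ - g₂ + 2 * (v₁ * y 0 + v₂ * y 1) + g₁ * y 0 ^ 2 + g₂ * y 1 ^ 2

/-- the scalar product of two points in the covariance frame -/
def Bq (g₁ g₂ v₁ v₂ : ℝ) (y z : Fin 2 → ℝ) : ℝ :=
  5 - g₁ - g₂ + v₁ * (y 0 + z 0) + v₂ * (y 1 + z 1) + g₁ * (y 0 * z 0) + g₂ * (y 1 * z 1)

/-- determinant of the second moment matrix -/
def Jq (g₁ g₂ v₁ v₂ : ℝ) : ℝ := (5 - g₁ - g₂) * g₁ * g₂ - v₁ ^ 2 * g₂ - v₂ ^ 2 * g₁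

/-- a facet in its covariance frame -/
structure Fr (g₁ g₂ v₁ v₂ J : ℝ) (K : Set (Fin 2 → ℝ)) : Prop where
  iso : Iso K
  g12 : g₂ ≤ g₁
  g2pos : 0 < g₂
  v1nn : 0 ≤ v₁
  v2nn : 0 ≤ v₂
  Jpos : 0 < J
  Jsq : J ^ 2 = Jq g₁ g₂ v₁ v₂
  low : ∀ y, 5 / 3 ≤ Rq g₁ g₂ v₁ v₂ y
  rad : ∀ y ∈ K, Rq g₁ g₂ v₁ v₂ y ≤ 15
  c1 : ∀ i, ∫ y in K, y i * Rq g₁ g₂ v₁ v₂ y = 0
  area : 108 ≤ volume.real K ^ 2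
  inn : ∀ y, y ⬝ᵥ y ≤ 2 → y ∈ K
  out : ∀ y ∈ K, y ⬝ᵥ y ≤ 8
  ch1 : ∀ y ∈ K, ∀ z ∈ K, ∀ s : ℝ, Rq g₁ g₂ v₁ v₂ (y + s • (z - y)) ≤ 11 / 4 →
    Gq g₁ g₂ (y - z) * (15 - Rq g₁ g₂ v₁ v₂ (y + s • (z - y))) ≤ 40001 / 100
  ch2 : ∀ y ∈ K, ∀ z ∈ K, ∀ s : ℝ,
    Gq g₁ g₂ (y - z) * (15 - Rq g₁ g₂ v₁ v₂ (y + s • (z - y))) ≤ 40821 / 100
  cha : ∀ y ∈ K, ∀ z ∈ K, ∀ s : ℝ, Rq g₁ g₂ v₁ v₂ (y + s • (z - y)) ≤ 3 →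
    Gq g₁ g₂ (y - z) * (15 - Rq g₁ g₂ v₁ v₂ (y + s • (z - y))) ≤ 40221 / 100
  chb : ∀ y ∈ K, ∀ z ∈ K, ∀ s : ℝ, Rq g₁ g₂ v₁ v₂ (y + s • (z - y)) ≤ 13 / 4 →
    Gq g₁ g₂ (y - z) * (15 - Rq g₁ g₂ v₁ v₂ (y + s • (z - y))) ≤ 40521 / 100
  dia : ∀ y ∈ K, ∀ z ∈ K, Gq g₁ g₂ (y - z) ≤ 40
  pyr : ∀ (k : ℝ) (y : Fin 2 → ℝ), 0 < k → k ≤ 1 →
    Rq g₁ g₂ v₁ v₂ y * (20 - 40 * k + 28 * k ^ 2 - 8 * k ^ 3 + k ^ 4) <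
      5 / 3 * (6 - 8 * k + 3 * k ^ 2) ^ 2 → ∀ a b : ℝ,
    J * volume.real K * (3 - 3 * k + k ^ 2) *
      (8 * (g₁ ^ 2 * a ^ 2 + g₂ ^ 2 * b ^ 2) + 5 * (v₁ * a + v₂ * b) ^ 2) ≤
      29815 / 100 * (6 - 8 * k + 3 * k ^ 2) * (g₁ * a ^ 2 + g₂ * b ^ 2)
  ark : ∀ k : ℝ, 0 ≤ k → k ≤ 1 → 5 / 3 * (6 - 8 * k + 3 * k ^ 2) ^ 2 * (g₁ * g₂) ≤
      J ^ 2 * (20 - 40 * k + 28 * k ^ 2 - 8 * k ^ 3 + k ^ 4) →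
    J * volume.real K * (3 - 3 * k + k ^ 2) ^ 2 ≤ 3 / 4 * (29815 / 1000) * (6 - 8 * k + 3 * k ^ 2)

/-- integral along a ray -/
noncomputable def rayI (K : Set (Fin 2 → ℝ)) (f : (Fin 2 → ℝ) → ℝ) (e : Fin 2 → ℝ) : ℝ :=
  ∫ r in (0 : ℝ)..(gauge K e)⁻¹, f (r • e) * r

end Pool.Agent.P.MP_2e1554_gt
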