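import Pool.Agent.P.MP_2e1554_gt.IsoAff

open MeasureTheory Set Finset Matrix Filter Topology Pointwise

namespace Pool.Agent.P.MP_2e1554_gt

variable {n : ℕ}

lemma sand_cs {d x : Fin n → ℝ} {R δ : ℝ} (hδ : 0 ≤ δ) (hx : x ⬝ᵥ x ≤ R)
    (hd : (d ⬝ᵥ d) * R ≤ δ ^ 2) : |d ⬝ᵥ x| ≤ δ := by
  have h1 : (d ⬝ᵥ x) ^ 2 ≤ (d ⬝ᵥ d) * (x ⬝ᵥ x) := by
    simpa only [dotProduct, sq] using Finset.sum_mul_sq_le_sq_mul_sq Finset.univ d x
  have h2 : 0 ≤ d ⬝ᵥ d := Finset.sum_nonneg fun i _ => mul_self_nonneg _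
  exact abs_le_of_sq_le_sq (h1.trans ((mul_le_mul_of_nonneg_left hx h2).trans hd)) hδ

theorem sandwich {A A' : Finset (Fin n → ℝ)} {R δ : ℝ} (hδ : 0 ≤ δ) (hδ1 : δ < 1)
    (hR : ∀ x ∈ poly A, x ⬝ᵥ x ≤ R)
    (h1 : ∀ a ∈ A, ∃ a' ∈ A', ((a - a') ⬝ᵥ (a - a')) * R ≤ δ ^ 2)
    (h2 : ∀ a' ∈ A', ∃ a ∈ A, ((a - a') ⬝ᵥ (a - a')) * R ≤ δ ^ 2) :
    poly A ⊆ (1 + δ) • poly A' ∧ poly A' ⊆ (1 - δ)⁻¹ • poly A := by
  have hp : 0 < 1 + δ := by linarith
  have hm : 0 < 1 - δ := by linarith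
  constructor
  · intro x hx
    rw [mem_smul_set_iff_inv_smul_mem₀ hp.ne']
    intro a' ha'
    obtain ⟨a, ha, hd⟩ := h2 a' ha'
    have h3 := (abs_le.1 (sand_cs hδ (hR x hx) hd)).1
    rw [sub_dotProduct] at h3
    have h4 := hx a ha
    rw [dotProduct_smul, smul_eq_mul, inv_mul_le_iff₀ hp]
    linarith
  · intro x hx
    rw [mem_smul_set_iff_inv_smul_mem₀ (inv_ne_zero hm.ne'), inv_inv]
    intro a0 ha0
    obtain ⟨a, ha, hmax⟩ := Finset.exists_max_image A (fun a => a ⬝ᵥ x) ⟨a0, ha0⟩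
    have h0 := hmax a0 ha0
    rw [dotProduct_smul, smul_eq_mul]
    by_cases hg : a ⬝ᵥ x ≤ 1
    · nlinarith
    · have hg0 : 0 < a ⬝ᵥ x := by linarith [not_le.1 hg]
      have hy : (a ⬝ᵥ x)⁻¹ • x ∈ poly A := fun c hc => by
        rw [dotProduct_smul, smul_eq_mul, inv_mul_le_iff₀ hg0, mul_one]
        exact hmax c hc
      obtain ⟨a', ha', hd⟩ := h1 a ha
      have h3 := (abs_le.1 (sand_cs hδ (hR _ hy) hd)).2
      rw [dotProduct_smul, smul_eq_mul, inv_mul_le_iff₀ hg0, sub_dotProduct] at h3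
      have h4 := hx a' ha'
      nlinarith

lemma sand_mono {K : Set (Fin n → ℝ)} (hK : Convex ℝ K) (h0 : (0 : Fin n → ℝ) ∈ K) {r s : ℝ}
    (hr : 0 ≤ r) (hs : 0 < s) (hrs : r ≤ s) : r • K ⊆ s • K := by
  rintro _ ⟨x, hx, rfl⟩
  refine ⟨(r / s) • x, hK.smul_mem_of_zero_mem h0 hx ⟨by positivity, (div_le_one hs).2 hrs⟩, ?_⟩
  simp only [smul_smul]
  rw [mul_div_cancel₀ _ hs.ne']

lemma sand_between {K₁ K₂ L : Set (Fin n → ℝ)} (h1 : IsCompact K₁) (h2 : IsCompact K₂)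
    (ha : K₁ ⊆ L) (hb : L ⊆ K₂) {f : (Fin n → ℝ) → ℝ} (hf : Continuous f) {M : ℝ} (hM0 : 0 ≤ M)
    (hM : ∀ x ∈ K₂, ‖f x‖ ≤ M) :
    |(∫ x in L, f x) - ∫ x in K₁, f x| ≤ M * (volume.real K₂ - volume.real K₁) := by
  have hi : IntegrableOn f L := (hf.continuousOn.integrableOn_compact h2).mono_set hb
  have hsub : L \ K₁ ⊆ K₂ \ K₁ := Set.diff_subset_diff_left hb
  have hfin : volume (K₂ \ K₁) < ⊤ := (measure_mono Set.diff_subset).trans_lt h2.measure_lt_top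
  rw [← setIntegral_diff h1.measurableSet hi ha, ← Real.norm_eq_abs]
  refine (norm_setIntegral_le_of_norm_le_const ((measure_mono hsub).trans_lt hfin)
    fun x hx => hM x (hb hx.1)).trans (mul_le_mul_of_nonneg_left ?_ hM0)
  rw [← measureReal_diff (ha.trans hb) h1.measurableSet h2.measure_lt_top.ne]
  exact measureReal_mono hsub hfin.ne

/-- continuity of integrals under two-sided inclusions -/
theorem tendsto_integral_of_sandwich {K : Set (Fin n → ℝ)} (hK : Body K) (h0 : (0 : Fin n → ℝ) ∈ K)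
    {ι : Type*} {l : Filter ι} {L : ι → Set (Fin n → ℝ)} (hL : ∀ i, MeasurableSet (L i))
    (hs : ∀ s : ℝ, 1 < s → ∀ᶠ i in l, K ⊆ s • L i ∧ L i ⊆ s • K)
    {f : (Fin n → ℝ) → ℝ} (hf : Continuous f) :
    Tendsto (fun i => ∫ x in L i, f x) l (𝓝 (∫ x in K, f x)) := by
  obtain ⟨M, hM⟩ := (hK.cpt.smul (2 : ℝ)).exists_bound_of_continuousOn hf.continuousOn
  have hM0 : 0 ≤ M := (norm_nonneg _).trans (hM 0 ⟨0, h0, smul_zero _⟩)
  rw [Metric.tendsto_nhds]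
  intro ε hε
  have hc : ContinuousAt (fun s : ℝ =>
      2 * (M * (s ^ n * volume.real K - s⁻¹ ^ n * volume.real K))) 1 := by
    have : ContinuousAt (fun s : ℝ => s⁻¹) 1 := continuousAt_inv₀ one_ne_zero
    fun_prop
  have he : ∀ᶠ s : ℝ in 𝓝 1,
      2 * (M * (s ^ n * volume.real K - s⁻¹ ^ n * volume.real K)) < ε :=
    hc.eventually_lt continuousAt_const (by simpa using hε)
  have he2 : ∀ᶠ s : ℝ in 𝓝 1, s < 2 := eventually_lt_nhds (by norm_num)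
  obtain ⟨s, ⟨hs1, hs2⟩, hs3⟩ := (((he.and he2).filter_mono nhdsWithin_le_nhds).and
    (self_mem_nhdsWithin (a := (1 : ℝ)) (s := Ioi 1))).exists
  have hs3 : 1 < s := hs3
  have hs0 : 0 < s := by linarith
  have hi0 : 0 ≤ s⁻¹ := by positivity
  have hb : ∀ x ∈ s • K, ‖f x‖ ≤ M := fun x hx =>
    hM x (sand_mono hK.cvx h0 hs0.le (by norm_num) hs2.le hx)
  have hK1 : s⁻¹ • K ⊆ K := by
    simpa using sand_mono hK.cvx h0 hi0 one_pos (inv_le_one_of_one_le₀ hs3.le)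
  have hK2 : K ⊆ s • K := by
    simpa using sand_mono hK.cvx h0 zero_le_one hs0 hs3.le
  have e1 := sand_between (hK.cpt.smul s⁻¹) (hK.cpt.smul s) hK1 hK2 hf hM0 hb
  filter_upwards [hs s hs3] with i hi
  have hL1 : s⁻¹ • K ⊆ L i := by
    have := Set.smul_set_mono (a := s⁻¹) hi.1
    rwa [smul_smul, inv_mul_cancel₀ hs0.ne', one_smul] at this
  have e2 := sand_between (hK.cpt.smul s⁻¹) (hK.cpt.smul s) hL1 hi.2 hf hM0 hb
  rw [vol_smul K hs0.le, vol_smul K hi0] at e1 e2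
  rw [Real.dist_eq, abs_lt]
  obtain ⟨e3, e4⟩ := abs_le.1 e1
  obtain ⟨e5, e6⟩ := abs_le.1 e2
  constructor <;> linarith

lemma sand_aff (s : ℝ) (K : Set (Fin n → ℝ)) :
    aff (s • (1 : Matrix (Fin n) (Fin n) ℝ)) 0 K = s • K := by
  have : (fun x : Fin n → ℝ => (s • (1 : Matrix (Fin n) (Fin n) ℝ)) *ᵥ x + 0) = fun x => s • x := by
    funext x
    rw [add_zero, Matrix.smul_mulVec, Matrix.one_mulVec]
  rw [aff, this]
  rfl

theorem Near.of_sandwich {K L : Set (Fin n → ℝ)} {η η' s : ℝ} (h : Near η K) (hs : 1 ≤ s)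
    (hη : 0 ≤ 1 + η) (hK : Body K) (hL : Body L) (h1 : K ⊆ s • L) (h2 : L ⊆ s • K)
    (hη' : (1 + η) * s ^ (2 * n) ≤ 1 + η') : Near η' L := by
  have hs0 : 0 < s := by linarith
  have hd : (s • (1 : Matrix (Fin n) (Fin n) ℝ)).det ≠ 0 := by
    rw [Matrix.det_smul, Matrix.det_one, mul_one]
    exact pow_ne_zero _ hs0.ne'
  obtain ⟨w, hw, hsub, hvol⟩ := h
  obtain ⟨hw', he⟩ := aff_simplex hd 0 hw
  rw [sand_aff] at he
  refine ⟨_, hw', ?_, ?_⟩
  · rw [← he]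
    exact h2.trans (Set.smul_set_mono hsub)
  · rw [← he, vol_smul _ hs0.le]
    have h3 : volume.real K ≤ s ^ n * volume.real L := by
      rw [← vol_smul L hs0.le]
      exact measureReal_mono h1 (hL.cpt.smul s).measure_lt_top.ne
    have h4 : 0 < s ^ n := pow_pos hs0 n
    calc s ^ n * volume.real (convexHull ℝ (Set.range w))
        < s ^ n * ((1 + η) * volume.real K) := mul_lt_mul_of_pos_left hvol h4
      _ ≤ s ^ n * ((1 + η) * (s ^ n * volume.real L)) :=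
        mul_le_mul_of_nonneg_left (mul_le_mul_of_nonneg_left h3 hη) h4.le
      _ = (1 + η) * s ^ (2 * n) * volume.real L := by ring
      _ ≤ (1 + η') * volume.real L := mul_le_mul_of_nonneg_right hη' hL.vol_pos.le

theorem Near.exists_lt {K : Set (Fin n → ℝ)} {η : ℝ} (h : Near η K) (hK : Body K) :
    ∃ η' < η, 0 ≤ 1 + η' ∧ Near η' K := by
  obtain ⟨w, hw, hsub, hvol⟩ := h
  have hV := hK.vol_pos
  have h1 : volume.real (convexHull ℝ (Set.range w)) / volume.real K < 1 + η :=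
    (div_lt_iff₀ hV).2 hvol
  have h2 : 0 ≤ volume.real (convexHull ℝ (Set.range w)) / volume.real K :=
    div_nonneg measureReal_nonneg hV.le
  refine ⟨(volume.real (convexHull ℝ (Set.range w)) / volume.real K + (1 + η)) / 2 - 1,
    by linarith, by linarith, w, hw, hsub, (div_lt_iff₀ hV).1 (by linarith)⟩

lemma sand_poly_mono (B : Finset (Fin n → ℝ)) {r s : ℝ} (hr : 0 ≤ r) (hs : 0 < s) (hrs : r ≤ s) :
    r • poly B ⊆ s • poly B := by
  rintro _ ⟨x, hx, rfl⟩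
  refine ⟨(r / s) • x, fun c hc => ?_, ?_⟩
  · have h1 := hx c hc
    have h2 : 0 ≤ r / s := by positivity
    have h3 : r / s ≤ 1 := (div_le_one hs).2 hrs
    rw [dotProduct_smul, smul_eq_mul]
    nlinarith
  · simp only [smul_smul]
    rw [mul_div_cancel₀ _ hs.ne']

theorem mv_sandwich {A : Finset (Fin n → ℝ)} (hb : Bornology.IsBounded (poly A))
    {a : Fin n → ℝ} (ha : a ∈ A) (b : Fin n → ℝ) {s : ℝ} (hs : 1 < s) :
    ∀ᶠ t in 𝓝 (0 : ℝ), poly A ⊆ s • poly (mv A a b t) ∧ poly (mv A a b t) ⊆ s • poly A ∧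
      Bornology.IsBounded (poly (mv A a b t)) := by
  classical
  have hs0 : 0 < s := by linarith
  obtain ⟨R, hR⟩ : ∃ R : ℝ, ∀ x ∈ poly A, x ⬝ᵥ x ≤ R := by
    have hc : Continuous fun x : Fin n → ℝ => x ⬝ᵥ x := continuous_id.dotProduct continuous_id
    obtain ⟨R, hR⟩ := hb.isCompact_closure.exists_bound_of_continuousOn hc.continuousOn
    exact ⟨R, fun x hx => (le_abs_self _).trans (hR x (subset_closure hx))⟩
  have hi1 : s⁻¹ < 1 := inv_lt_one_of_one_lt₀ hs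
  have hi0 : 0 < s⁻¹ := by positivity
  have hδ : 0 < 1 - s⁻¹ := by linarith
  have hc : ContinuousAt (fun t : ℝ => t ^ 2 * (b ⬝ᵥ b) * R) 0 := by fun_prop
  have he : ∀ᶠ t : ℝ in 𝓝 0, t ^ 2 * (b ⬝ᵥ b) * R < (1 - s⁻¹) ^ 2 :=
    hc.eventually_lt continuousAt_const (by simpa using pow_pos hδ 2)
  filter_upwards [he] with t ht
  have hmem : ∀ c, c ∈ mv A a b t ↔ c = a + t • b ∨ (c ≠ a ∧ c ∈ A) := fun c => by
    simp [mv]
  have hd : ((a - (a + t • b)) ⬝ᵥ (a - (a + t • b))) * R ≤ (1 - s⁻¹) ^ 2 := by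
    have : a - (a + t • b) = (-t) • b := by
      rw [neg_smul]
      abel
    rw [this, smul_dotProduct, dotProduct_smul, smul_eq_mul, smul_eq_mul]
    nlinarith
  have hz : ∀ c : Fin n → ℝ, ((c - c) ⬝ᵥ (c - c)) * R ≤ (1 - s⁻¹) ^ 2 := fun c => by
    rw [sub_self, zero_dotProduct, zero_mul]
    positivity
  obtain ⟨h1, h2⟩ := sandwich (A := A) (A' := mv A a b t) hδ.le (by linarith) hR
    (fun c hc => by
      by_cases h : c = a
      · exact ⟨a + t • b, (hmem _).2 (Or.inl rfl), h ▸ hd⟩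
      · exact ⟨c, (hmem _).2 (Or.inr ⟨h, hc⟩), hz c⟩)
    (fun c hc => by
      rcases (hmem c).1 hc with h | h
      · exact ⟨a, ha, h ▸ hd⟩
      · exact ⟨c, h.2, hz c⟩)
  rw [sub_sub_cancel, inv_inv] at h2
  refine ⟨h1.trans (sand_poly_mono _ (by linarith) hs0 ?_), h2, (hb.smul₀ s).subset h2⟩
  have h3 : s * s⁻¹ = 1 := mul_inv_cancel₀ hs0.ne'
  nlinarith [sq_nonneg (s - 1)]

theorem mv_card {A : Finset (Fin n → ℝ)} {a : Fin n → ℝ} (ha : a ∈ A) (b : Fin n → ℝ) (t : ℝ) :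
    (mv A a b t).card ≤ A.card := by
  unfold mv
  exact (Finset.card_insert_le _ _).trans (Finset.card_erase_add_one ha).le

theorem mv_zero {A : Finset (Fin n → ℝ)} {a : Fin n → ℝ} (ha : a ∈ A) (b : Fin n → ℝ) :
    mv A a b 0 = A := by
  unfold mv
  rw [zero_smul, add_zero, Finset.insert_erase ha]

end Pool.Agent.P.MP_2e1554_gt
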