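import Pool.Agent.P.MP_2e1554_gt.IsoGam
import Pool.Agent.P.MP_2e1554_gt.IsoSand
import Pool.Agent.P.MP_2e1554_gt.IsoRot

open MeasureTheory Set Finset Matrix Filter Topology Pointwise

namespace Pool.Agent.P.MP_2e1554_gt

variable {n : ℕ}

open Classical in
lemma der_gam_insert (a : Fin n → ℝ) (B : Finset (Fin n → ℝ)) (x : Fin n → ℝ) :
    gam (insert a B) x = max (a ⬝ᵥ x) (gam B x) := by
  refine le_antisymm (gam_le.2 ⟨le_max_of_le_right (gam_nonneg B x), fun a' ha' => ?_⟩)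
    (max_le (le_gam (Finset.mem_insert_self a B) x)
      (gam_le.2 ⟨gam_nonneg _ x, fun a' ha' => le_gam (Finset.mem_insert_of_mem ha') x⟩))
  rcases Finset.mem_insert.1 ha' with rfl | h
  · exact le_max_left _ _
  · exact le_max_of_le_right (le_gam h x)

lemma der_gam_cases (B : Finset (Fin n → ℝ)) (x : Fin n → ℝ) :
    gam B x = 0 ∨ ∃ a ∈ B, gam B x = a ⬝ᵥ x := by
  classical
  induction B using Finset.induction_on with
  | empty => exact Or.inl (le_antisymm (gam_le.2 ⟨le_rfl, by simp⟩) (gam_nonneg _ _))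
  | insert a B _ ih =>
    have e : gam (insert a B) x = max (a ⬝ᵥ x) (gam B x) := by convert der_gam_insert a B x
    rcases max_choice (a ⬝ᵥ x) (gam B x) with h | h
    · exact Or.inr ⟨a, Finset.mem_insert_self a B, e.trans h⟩
    · rcases ih with h' | ⟨a', ha', h'⟩
      · exact Or.inl ((e.trans h).trans h')
      · exact Or.inr ⟨a', Finset.mem_insert_of_mem ha', (e.trans h).trans h'⟩

lemma der_hyper {w : Fin n → ℝ} (hw : w ≠ 0) : ∀ᵐ x : Fin n → ℝ, w ⬝ᵥ x ≠ 0 := by
  let L : (Fin n → ℝ) →ₗ[ℝ] ℝ :=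
    { toFun := fun x => w ⬝ᵥ x
      map_add' := fun x y => dotProduct_add w x y
      map_smul' := fun c x => by simp }
  have h := Measure.addHaar_submodule (volume : Measure (Fin n → ℝ)) (LinearMap.ker L) (by
    intro h
    have : w ∈ LinearMap.ker L := h ▸ Submodule.mem_top
    exact hw (dotProduct_self_eq_zero.1 this))
  rw [ae_iff]
  convert h using 2
  ext x
  simp [L]

lemma der_exp {u v m : ℝ} (hu : m ≤ u) (hv : m ≤ v) :
    |Real.exp (-u) - Real.exp (-v)| ≤ Real.exp (-m) * |u - v| := by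
  wlog h : u ≤ v generalizing u v
  · rw [abs_sub_comm, abs_sub_comm u]
    exact this hv hu (le_of_not_ge h)
  have h1 : Real.exp (-v) = Real.exp (-u) * Real.exp (u - v) := by
    rw [← Real.exp_add]; congr 1; ring
  have h2 := Real.add_one_le_exp (u - v)
  have h3 : Real.exp (-u) ≤ Real.exp (-m) := Real.exp_le_exp.2 (by linarith)
  have h4 := Real.exp_pos (-u)
  rw [abs_of_nonneg (sub_nonneg.2 (Real.exp_le_exp.2 (by linarith))),
    abs_of_nonpos (by linarith), h1]
  nlinarith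

lemma der_dot_le (b x : Fin n → ℝ) : |b ⬝ᵥ x| ≤ (∑ i, |b i|) * ‖x‖ := by
  rw [Finset.sum_mul]
  refine (Finset.abs_sum_le_sum_abs _ _).trans (Finset.sum_le_sum fun i _ => ?_)
  rw [abs_mul]
  exact mul_le_mul_of_nonneg_left (norm_le_pi_norm x i) (abs_nonneg _)

lemma der_hom_le {f : (Fin n → ℝ) → ℝ} (hf : Continuous f) (k : ℕ)
    (hh : ∀ s : ℝ, 0 < s → ∀ x, f (s • x) = s ^ k * f x) :
    ∃ M : ℝ, 0 ≤ M ∧ ∀ x, x ≠ 0 → |f x| ≤ M * ‖x‖ ^ k := by
  obtain ⟨M, hM⟩ := (isCompact_closedBall (0 : Fin n → ℝ) 1).exists_bound_of_continuousOn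
    hf.continuousOn
  refine ⟨M, (norm_nonneg _).trans (hM 0 (by simp)), fun x hx => ?_⟩
  have h0 : 0 < ‖x‖ := norm_pos_iff.2 hx
  have h1 := hh ‖x‖ h0 (‖x‖⁻¹ • x)
  rw [smul_smul, mul_inv_cancel₀ h0.ne', one_smul] at h1
  have h2 := hM (‖x‖⁻¹ • x) (by simp [norm_smul, h0.ne'])
  rw [h1, abs_mul, abs_of_pos (pow_pos h0 k), mul_comm]
  exact mul_le_mul_of_nonneg_right h2 (pow_pos h0 k).le

/-- first variation of the moments -/
theorem hasDerivAt_moment (hn : 1 ≤ n) {A : Finset (Fin n → ℝ)} (hb : Bornology.IsBounded (poly A))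
    {a : Fin n → ℝ} (ha : a ∈ A) (b : Fin n → ℝ) {f : (Fin n → ℝ) → ℝ} (hf : Continuous f) (k : ℕ)
    (hh : ∀ s : ℝ, 0 < s → ∀ x, f (s • x) = s ^ k * f x) :
    IntegrableOn (fun x => (b ⬝ᵥ x) * f x * Real.exp (-(a ⬝ᵥ x))) (cone A a) ∧
      HasDerivAt (fun t => ∫ x in poly (mv A a b t), f x)
        (-(∫ x in cone A a, (b ⬝ᵥ x) * f x * Real.exp (-(a ⬝ᵥ x))) / (n + k).factorial) 0 := by
  classical
  obtain ⟨c, hc, hcl⟩ := gam_lower hb
  obtain ⟨M, hM0, hM⟩ := der_hom_le hf k hh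
  set C : ℝ := ∑ i, |b i| with hC
  have hC0 : 0 ≤ C := Finset.sum_nonneg fun i _ => abs_nonneg _
  obtain ⟨B, hB, hg⟩ : ∃ B : Finset (Fin n → ℝ), (∀ a', a' ∈ B ↔ a' ≠ a ∧ a' ∈ A) ∧
      ∀ t x, gam (mv A a b t) x = max (a ⬝ᵥ x + t * (b ⬝ᵥ x)) (gam B x) := by
    refine ⟨_, fun a' => ?_, fun t x => by
      rw [mv, der_gam_insert, add_dotProduct, smul_dotProduct, smul_eq_mul]⟩
    exact Finset.mem_erase
  have hg0 : ∀ x, gam A x = max (a ⬝ᵥ x) (gam B x) := fun x => by
    simpa [mv_zero ha b] using hg 0 x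
  have hlip : ∀ t u x, |gam (mv A a b t) x - gam (mv A a b u) x| ≤ |b ⬝ᵥ x| * |t - u| := by
    intro t u x
    rw [hg, hg]
    refine (abs_max_sub_max_le_abs _ _ _).trans (le_of_eq ?_)
    rw [← abs_mul]; congr 1; ring
  have hlow : ∀ t ∈ Metric.ball (0 : ℝ) (c / 2 / (C + 1)), ∀ x,
      c / 2 * ‖x‖ ≤ gam (mv A a b t) x := by
    intro t ht x
    have h1 := (abs_le.1 (hlip t 0 x)).1
    rw [mv_zero ha b, sub_zero] at h1
    have h2 : |t| * (C + 1) < c / 2 := by
      rw [← lt_div_iff₀ (by linarith)]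
      simpa using ht
    have h3 := der_dot_le b x
    have h4 := hcl x
    have h5 : |b ⬝ᵥ x| * |t| ≤ C * ‖x‖ * |t| := mul_le_mul_of_nonneg_right h3 (abs_nonneg _)
    nlinarith [abs_nonneg t, norm_nonneg x, mul_nonneg (abs_nonneg t) (norm_nonneg x)]
  have hcont : Continuous fun x : Fin n → ℝ => (b ⬝ᵥ x) * f x * Real.exp (-(a ⬝ᵥ x)) := by
    fun_prop
  have key := hasDerivAt_integral_of_dominated_loc_of_lip (μ := (volume : Measure (Fin n → ℝ)))
    (F := fun t x => f x * Real.exp (-gam (mv A a b t) x)) (x₀ := (0 : ℝ))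
    (F' := fun x => -(cone A a).indicator (fun x => (b ⬝ᵥ x) * f x * Real.exp (-(a ⬝ᵥ x))) x)
    (bound := fun x => M * C * (‖x‖ ^ (k + 1) * Real.exp (-(c / 2 * ‖x‖))))
    (Metric.ball_mem_nhds (0 : ℝ) (show 0 < c / 2 / (C + 1) by positivity))
    (Eventually.of_forall fun t =>
      (hf.mul (Real.continuous_exp.comp (continuous_gam _).neg)).aestronglyMeasurable)
    (by simpa [mv_zero ha b] using (integral_exp_gam hb hf k hh).1)
    (hcont.aestronglyMeasurable.indicator (measurableSet_cone A a)).neg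
    (Eventually.of_forall fun x => by
      refine LipschitzOnWith.of_dist_le_mul fun t ht u hu => ?_
      have h1 := der_exp (hlow t ht x) (hlow u hu x)
      have h2 : |f x| * |b ⬝ᵥ x| ≤ M * C * ‖x‖ ^ (k + 1) := by
        rcases eq_or_ne x 0 with rfl | hx
        · simp
        · calc _ ≤ (M * ‖x‖ ^ k) * (C * ‖x‖) :=
                mul_le_mul (hM x hx) (der_dot_le b x) (abs_nonneg _) (by positivity)
            _ = _ := by ring
      rw [Real.dist_eq, Real.dist_eq, ← mul_sub, abs_mul, Real.coe_nnabs,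
        abs_of_nonneg (a := M * C * _) (by positivity)]
      calc _ ≤ |f x| * (Real.exp (-(c / 2 * ‖x‖)) * (|b ⬝ᵥ x| * |t - u|)) := by
            gcongr
            exact h1.trans (mul_le_mul_of_nonneg_left (hlip t u x) (Real.exp_pos _).le)
        _ = (|f x| * |b ⬝ᵥ x|) * (Real.exp (-(c / 2 * ‖x‖)) * |t - u|) := by ring
        _ ≤ (M * C * ‖x‖ ^ (k + 1)) * (Real.exp (-(c / 2 * ‖x‖)) * |t - u|) := by gcongr
        _ = _ := by ring)
    ((integrable_poly_exp (half_pos hc) (k + 1)).const_mul _)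
    (by
      have h1 : ∀ᵐ x : Fin n → ℝ, ∀ a' ∈ (B : Set (Fin n → ℝ)), (a - a') ⬝ᵥ x ≠ 0 :=
        (ae_ball_iff B.countable_toSet).2 fun a' ha' =>
          der_hyper (sub_ne_zero.2 ((hB a').1 ha').1.symm)
      have h2 := der_hyper (w := fun _ : Fin n => (1 : ℝ)) fun h => by
        simpa using congrFun h ⟨0, hn⟩
      filter_upwards [h1, h2] with x hx hx0
      have hne : a ⬝ᵥ x ≠ gam B x := by
        intro e
        rcases der_gam_cases B x with h | ⟨a', ha', h⟩
        · have := hcl x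
          rw [hg0, e, h, max_self] at this
          have h0 : ‖x‖ = 0 := le_antisymm (by nlinarith) (norm_nonneg x)
          exact hx0 (by simp [norm_eq_zero.1 h0])
        · exact hx a' ha' (by rw [sub_dotProduct, e, h, sub_self])
      have hct : Tendsto (fun t : ℝ => a ⬝ᵥ x + t * (b ⬝ᵥ x)) (𝓝 0) (𝓝 (a ⬝ᵥ x)) := by
        have : Continuous fun t : ℝ => a ⬝ᵥ x + t * (b ⬝ᵥ x) := by fun_prop
        simpa using this.tendsto 0
      rcases lt_or_gt_of_ne hne with h | h
      · have hx' : x ∉ cone A a := fun hx' =>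
          absurd (gam_le.2 ⟨hx'.1.le, fun a' ha' => hx'.2 a' ((hB a').1 ha').2⟩) (not_le.2 h)
        rw [Set.indicator_of_notMem hx', neg_zero]
        refine (hasDerivAt_const (0 : ℝ) (f x * Real.exp (-gam B x))).congr_of_eventuallyEq ?_
        filter_upwards [hct.eventually (gt_mem_nhds h)] with t ht
        rw [hg, max_eq_right ht.le]
      · have hx' : x ∈ cone A a := ⟨(gam_nonneg B x).trans_lt h, fun a' ha' => by
          rcases eq_or_ne a' a with rfl | hne
          · exact le_rfl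
          · exact (le_gam ((hB a').2 ⟨hne, ha'⟩) x).trans h.le⟩
        rw [Set.indicator_of_mem hx']
        have hd := (((hasDerivAt_id (0 : ℝ)).mul_const (b ⬝ᵥ x)).const_add
          (a ⬝ᵥ x)).neg.exp.const_mul (f x)
        refine (hd.congr_deriv (by simp; ring)).congr_of_eventuallyEq ?_
        filter_upwards [hct.eventually (lt_mem_nhds h)] with t ht
        rw [hg, max_eq_left ht.le]
        simp)
  obtain ⟨k1, k2⟩ := key
  refine ⟨(integrable_indicator_iff (measurableSet_cone A a)).1 (by simpa using k1.neg), ?_⟩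
  rw [integral_neg, integral_indicator (measurableSet_cone A a)] at k2
  refine (k2.div_const ((n + k).factorial : ℝ)).congr_of_eventuallyEq ?_
  filter_upwards [mv_sandwich hb ha b (s := 2) one_lt_two] with t ht
  rw [(integral_exp_gam ht.2.2 hf k hh).2]
  field_simp

end Pool.Agent.P.MP_2e1554_gt
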