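import Pool.Agent.P.MP_2e1554_gt.IsoBM

open MeasureTheory Set Finset Matrix Filter Topology Pointwise

namespace Pool.Agent.P.MP_2e1554_gt

variable {n : ℕ}

lemma marg_succ (t : ℝ) (z : Fin n → ℝ) (i : Fin n) : ins 0 t z (Fin.succ i) = z i :=
  ins_succAbove 0 t z i

lemma marg_eta (x : Fin (n + 1) → ℝ) : ins 0 (x 0) (fun i => x (Fin.succ i)) = x := by
  ext i
  refine Fin.cases ?_ (fun j => ?_) i
  · simp
  · exact marg_succ _ _ j

lemma marg_fub {K : Set (Fin (n + 1) → ℝ)} (hK : IsCompact K) {f : (Fin (n + 1) → ℝ) → ℝ}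
    (hf : Continuous f) :
    Integrable (fun p : ℝ × (Fin n → ℝ) => K.indicator f (ins 0 p.1 p.2)) (volume.prod volume) ∧
      ∫ x in K, f x =
        ∫ p : ℝ × (Fin n → ℝ), K.indicator f (ins 0 p.1 p.2) ∂(volume.prod volume) := by
  have hm := hK.isClosed.measurableSet
  have hi : Integrable (K.indicator f) :=
    (integrable_indicator_iff hm).2 (hf.continuousOn.integrableOn_compact hK)
  refine ⟨(ins_mp 0).integrable_comp_of_integrable hi, ?_⟩
  rw [← integral_indicator hm, ← (ins_mp (n := n) 0).map_eq,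
    integral_map (ins_mp 0).measurable.aemeasurable]
  rw [(ins_mp (n := n) 0).map_eq]
  exact hi.aestronglyMeasurable

lemma marg_meas_slice {K : Set (Fin (n + 1) → ℝ)} (hK : IsCompact K) (u : ℝ) :
    MeasurableSet (slice K u) :=
  (hK.isClosed.preimage ((continuous_ins 0).comp
    (continuous_const.prodMk continuous_id))).measurableSet

lemma marg_closed_chord {K : Set (Fin (n + 1) → ℝ)} (hK : IsCompact K) (z : Fin n → ℝ) :
    IsClosed {t : ℝ | ins 0 t z ∈ K} :=
  hK.isClosed.preimage ((continuous_ins 0).comp (continuous_id.prodMk continuous_const))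

theorem integral_sv {K : Set (Fin (n + 1) → ℝ)} (hK : IsCompact K) {φ : ℝ → ℝ}
    (hφ : Continuous φ) :
    Integrable (fun u => φ u * sv K u) ∧ ∫ x in K, φ (x 0) = ∫ u, φ u * sv K u := by
  obtain ⟨h1, h2⟩ := marg_fub hK (f := fun x => φ (x 0)) (hφ.comp (continuous_apply 0))
  have h3 : (fun u => ∫ z : Fin n → ℝ, K.indicator (fun x => φ (x 0)) (ins 0 u z)) =
      fun u => φ u * sv K u := by
    ext u
    have : (fun z : Fin n → ℝ => K.indicator (fun x => φ (x 0)) (ins 0 u z)) =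
        (slice K u).indicator fun _ => φ u := by
      ext z
      by_cases h : ins 0 u z ∈ K
      · rw [indicator_of_mem h, indicator_of_mem (show z ∈ slice K u from h), ins_same]
      · rw [indicator_of_notMem h, indicator_of_notMem (show z ∉ slice K u from h)]
    rw [this, integral_indicator_const _ (marg_meas_slice hK u), smul_eq_mul, mul_comm, sv]
  refine ⟨h3 ▸ h1.integral_prod_left, ?_⟩
  rw [h2, integral_prod _ h1, ← h3]

theorem integral_cl {K : Set (Fin (n + 1) → ℝ)} (hK : IsCompact K) {φ : (Fin n → ℝ) → ℝ}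
    (hφ : Continuous φ) : Integrable (fun z => φ z * cl K z) ∧
      ∫ x in K, φ (fun i => x (Fin.succ i)) = ∫ z, φ z * cl K z := by
  obtain ⟨h1, h2⟩ := marg_fub hK (f := fun x => φ (fun i => x (Fin.succ i)))
    (hφ.comp (continuous_pi fun i => continuous_apply _))
  have h3 : (fun z : Fin n → ℝ =>
      ∫ t : ℝ, K.indicator (fun x => φ (fun i => x (Fin.succ i))) (ins 0 t z)) =
      fun z => φ z * cl K z := by
    ext z
    have : (fun t : ℝ => K.indicator (fun x => φ (fun i => x (Fin.succ i))) (ins 0 t z)) =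
        {t : ℝ | ins 0 t z ∈ K}.indicator fun _ => φ z := by
      ext t
      by_cases h : ins 0 t z ∈ K
      · rw [indicator_of_mem h, indicator_of_mem (show t ∈ {t : ℝ | ins 0 t z ∈ K} from h)]
        simp only [marg_succ]
      · rw [indicator_of_notMem h,
          indicator_of_notMem (show t ∉ {t : ℝ | ins 0 t z ∈ K} from h)]
    rw [this, integral_indicator_const _ (marg_closed_chord hK z).measurableSet, smul_eq_mul,
      mul_comm, cl]
  refine ⟨h3 ▸ h1.integral_prod_right, ?_⟩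
  rw [h2, integral_prod_symm _ h1, ← h3]

lemma marg_vol_pos {K : Set (Fin n → ℝ)} (hK : Body K) : 0 < volume.real K :=
  ENNReal.toReal_pos (Measure.measure_pos_of_nonempty_interior _ hK.int).ne'
    hK.cpt.measure_lt_top.ne

lemma marg_gen {K : Set (Fin (n + 1) → ℝ)} (hK : Iso K) {k : ℕ} {q : ℝ → ℝ}
    (hq : ConcaveOn ℝ {u | (slice K u).Nonempty} q) (hq0 : ∀ u, 0 ≤ q u)
    (hqk : ∀ u, sv K u = q u ^ k) : ∃ α β : ℝ,
    Marg k (sv K) α β (volume.real K) ∧ (∀ x ∈ K, x 0 ∈ Icc α β) ∧ (∃ x ∈ K, x 0 = α) ∧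
      ∃ x ∈ K, x 0 = β := by
  have hne : K.Nonempty := hK.int.mono interior_subset
  have hc : ContinuousOn (fun x : Fin (n + 1) → ℝ => x 0) K := (continuous_apply 0).continuousOn
  obtain ⟨a, ha, ha'⟩ := hK.cpt.exists_isMinOn hne hc
  obtain ⟨b, hb, hb'⟩ := hK.cpt.exists_isMaxOn hne hc
  have hmem : ∀ x ∈ K, x 0 ∈ Icc (a 0) (b 0) := fun x hx => ⟨ha' hx, hb' hx⟩
  have hsl : ∀ u ∈ Icc (a 0) (b 0), (slice K u).Nonempty := by
    intro u hu
    obtain ⟨x, hx, hxu⟩ := hK.cvx.isPreconnected.intermediate_value ha hb hc hu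
    refine ⟨fun i => x (Fin.succ i), ?_⟩
    change ins 0 u _ ∈ K
    rw [← hxu, marg_eta]
    exact hx
  have hoff : ∀ u, u ∉ Icc (a 0) (b 0) → sv K u = 0 := by
    intro u hu
    have : slice K u = ∅ := Set.eq_empty_of_forall_notMem fun z hz =>
      hu (by simpa using hmem _ hz)
    simp [sv, this]
  have key : ∀ φ : ℝ → ℝ, Continuous φ →
      ∫ u in Icc (a 0) (b 0), φ u * sv K u = ∫ x in K, φ (x 0) := fun φ hφ => by
    rw [(integral_sv hK.cpt hφ).2]
    exact setIntegral_eq_integral_of_forall_compl_eq_zero fun u hu => by rw [hoff u hu, mul_zero]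
  have hpos := marg_vol_pos hK.toBody
  have m0 : ∫ u in Icc (a 0) (b 0), sv K u = volume.real K := by
    simpa using key (fun _ => 1) continuous_const
  refine ⟨a 0, b 0, ⟨?_, hpos, ⟨q, hq.subset hsl (convex_Icc _ _), fun u _ => hq0 u,
    fun u _ => hqk u⟩, ?_, m0, ?_, ?_⟩, hmem, ⟨a, ha, rfl⟩, b, hb, rfl⟩
  · refine lt_of_le_of_ne (hmem a ha).2 fun h => ?_
    rw [h] at m0
    simp at m0
    exact hpos.ne m0
  · simpa using (integral_sv hK.cpt (φ := fun _ => 1) continuous_const).1.integrableOn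
  · rw [key (fun u => u) continuous_id, hK.m1]
  · rw [key (fun u => u ^ 2) (continuous_pow 2)]
    simpa [sq] using hK.m2 0 0

theorem marg_two {K : Set (Fin 2 → ℝ)} (hK : Iso K) : ∃ α β : ℝ,
    Marg 1 (sv K) α β (volume.real K) ∧ (∀ x ∈ K, x 0 ∈ Icc α β) ∧ (∃ x ∈ K, x 0 = α) ∧
      ∃ x ∈ K, x 0 = β :=
  marg_gen hK (sv_concave_two hK.cvx hK.cpt) (fun _ => measureReal_nonneg)
    fun _ => (pow_one _).symm

theorem marg_three {K : Set (Fin 3 → ℝ)} (hK : Iso K) : ∃ α β : ℝ,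
    Marg 2 (sv K) α β (volume.real K) ∧ (∀ x ∈ K, x 0 ∈ Icc α β) ∧ (∃ x ∈ K, x 0 = α) ∧
      ∃ x ∈ K, x 0 = β :=
  marg_gen hK (sv_concave_three hK.cvx hK.cpt) (fun _ => Real.sqrt_nonneg _)
    fun _ => (Real.sq_sqrt measureReal_nonneg).symm

theorem dens_cl {K : Set (Fin 3 → ℝ)} (hK : Body K) {F : ℝ} (hF : ∀ z, cl K z ≤ F) :
    Dens (cl K) {z | ∃ t, ins 0 t z ∈ K} F := by
  have hc := cl_concave hK.cvx hK.cpt
  refine ⟨hc.1, ?_, ?_, fun _ => measureReal_nonneg, hF, fun y hy => ?_, hc⟩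
  · have : {z : Fin 2 → ℝ | ∃ t, ins 0 t z ∈ K} = (fun x i => x (Fin.succ i)) '' K := by
      ext z
      constructor
      · rintro ⟨t, ht⟩
        exact ⟨_, ht, funext fun i => marg_succ t z i⟩
      · rintro ⟨x, hx, rfl⟩
        exact ⟨x 0, by rw [marg_eta]; exact hx⟩
    rw [this]
    exact hK.cpt.image (continuous_pi fun i => continuous_apply _)
  · have hs : MeasurableSet {p : ℝ × (Fin 2 → ℝ) | ins 0 p.1 p.2 ∈ K} :=
      (hK.cpt.isClosed.preimage (continuous_ins 0)).measurableSet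
    exact (measurable_measure_prodMk_right (μ := (volume : Measure ℝ)) hs).ennreal_toReal
  · have : {t : ℝ | ins 0 t y ∈ K} = ∅ := Set.eq_empty_of_forall_notMem fun t ht => hy ⟨t, ht⟩
    simp [cl, this]

theorem cl_bdd {K : Set (Fin (n + 1) → ℝ)} (hK : IsCompact K) : ∃ F : ℝ, ∀ z, cl K z ≤ F := by
  obtain ⟨R, hR⟩ := hK.isBounded.exists_norm_le
  refine ⟨volume.real (Icc (-R) R), fun z => measureReal_mono (fun t ht => ?_)
    isCompact_Icc.measure_lt_top.ne⟩
  have h := (norm_le_pi_norm (ins 0 t z) 0).trans (hR _ ht)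
  rw [ins_same] at h
  exact abs_le.1 h

end Pool.Agent.P.MP_2e1554_gt
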