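import Pool.Agent.P.MP_2e1554_gt.IsoRed
import Pool.Agent.P.MP_2e1554_gt.IsoCone
import Pool.Agent.P.MP_2e1554_gt.IsoMarg
import Pool.Agent.P.MP_2e1554_gt.IsoOne

open MeasureTheory Set Finset Matrix Filter Topology Pointwise

namespace Pool.Agent.P.MP_2e1554_gt

variable {n : ℕ}

private lemma plane_c_gt : 3 < 2 * Real.pi / Real.sqrt 3 := by
  have h3 : 0 < Real.sqrt 3 := by positivity
  have h2 : Real.sqrt 3 < 2 := by
    rw [Real.sqrt_lt' (by norm_num)]; norm_num
  rw [lt_div_iff₀ h3]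
  linarith [Real.pi_gt_three]

private lemma plane_deriv (c x : ℝ) :
    HasDerivAt (fun x : ℝ => c * (x / (3 + x ^ 2)) - Real.arctan x)
      ((c * (3 - x ^ 2) * (1 + x ^ 2) - (3 + x ^ 2) ^ 2) / ((3 + x ^ 2) ^ 2 * (1 + x ^ 2))) x := by
  have hp : (3 + x ^ 2) ≠ 0 := by positivity
  have hq : (1 + x ^ 2) ≠ 0 := by positivity
  have h1 : HasDerivAt (fun x : ℝ => 3 + x ^ 2) (2 * x) x := by
    simpa using (hasDerivAt_pow 2 x).const_add 3
  have h2 := (((hasDerivAt_id x).div h1 hp).const_mul c).sub (Real.hasDerivAt_arctan x)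
  refine HasDerivAt.congr_deriv h2 ?_
  simp only [id]
  field_simp
  ring

lemma arctan_le {x : ℝ} (h0 : 0 ≤ x) (h3 : x ^ 2 ≤ 3) :
    Real.arctan x ≤ 2 * Real.pi / Real.sqrt 3 * (x / (3 + x ^ 2)) := by
  obtain ⟨c, hc⟩ : ∃ c, c = 2 * Real.pi / Real.sqrt 3 := ⟨_, rfl⟩
  have hc3 : 3 < c := hc ▸ plane_c_gt
  rw [← hc]
  by_contra hlt
  rw [not_le] at hlt
  have hs : Real.sqrt 3 ^ 2 = 3 := Real.sq_sqrt (by norm_num)
  have hs0 : 0 < Real.sqrt 3 := by positivity
  have hend : c * (Real.sqrt 3 / (3 + Real.sqrt 3 ^ 2)) - Real.arctan (Real.sqrt 3) = 0 := by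
    rw [Real.arctan_sqrt_three, hs, hc]
    field_simp
    ring
  have hx0 : 0 < x := by
    rcases h0.eq_or_lt with h | h
    · subst h; simp at hlt
    · exact h
  have hx3 : x < Real.sqrt 3 := by
    have : x ≤ Real.sqrt 3 := Real.le_sqrt_of_sq_le h3
    rcases this.eq_or_lt with h | h
    · rw [h] at hlt; linarith
    · exact h
  have hcont : Continuous fun x : ℝ => c * (x / (3 + x ^ 2)) - Real.arctan x :=
    continuous_iff_continuousAt.2 fun y => (plane_deriv c y).continuousAt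
  obtain ⟨u, hu, eu⟩ := exists_hasDerivAt_eq_slope _ _ hx0 hcont.continuousOn
    (fun y _ => plane_deriv c y)
  obtain ⟨v, hv, ev⟩ := exists_hasDerivAt_eq_slope _ _ hx3 hcont.continuousOn
    (fun y _ => plane_deriv c y)
  rw [hend] at ev
  have nu : c * (3 - u ^ 2) * (1 + u ^ 2) - (3 + u ^ 2) ^ 2 < 0 := by
    have : (c * (3 - u ^ 2) * (1 + u ^ 2) - (3 + u ^ 2) ^ 2) /
        ((3 + u ^ 2) ^ 2 * (1 + u ^ 2)) < 0 := by
      rw [eu]
      apply div_neg_of_neg_of_pos
      · simp only [zero_div, mul_zero, Real.arctan_zero, sub_zero]; linarith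
      · linarith
    by_contra h
    exact absurd this (not_lt.2 (div_nonneg (not_lt.1 h) (by positivity)))
  have pv : 0 < c * (3 - v ^ 2) * (1 + v ^ 2) - (3 + v ^ 2) ^ 2 := by
    have : 0 < (c * (3 - v ^ 2) * (1 + v ^ 2) - (3 + v ^ 2) ^ 2) /
        ((3 + v ^ 2) ^ 2 * (1 + v ^ 2)) := by
      rw [ev]
      apply div_pos <;> linarith
    by_contra h
    exact absurd this (not_lt.2 (div_nonpos_of_nonpos_of_nonneg (not_lt.1 h) (by positivity)))
  have huv : u ^ 2 < v ^ 2 := by nlinarith [hu.1, hu.2, hv.1]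
  have hu0 : 0 < u ^ 2 := by have := hu.1; positivity
  generalize u ^ 2 = y at *
  generalize v ^ 2 = z at *
  have key : z * (c * (3 - y) * (1 + y) - (3 + y) ^ 2) =
      y * (c * (3 - z) * (1 + z) - (3 + z) ^ 2) + (z - y) * (3 * c - 9) +
        (c + 1) * (y * z * (z - y)) := by ring
  have h1 := mul_pos hu0 pv
  have h2 : 0 < (z - y) * (3 * c - 9) := mul_pos (by linarith) (by linarith)
  have h3 : 0 < (c + 1) * (y * z * (z - y)) :=
    mul_pos (by linarith) (mul_pos (mul_pos hu0 (by linarith)) (by linarith))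
  have h4 : z * (c * (3 - y) * (1 + y) - (3 + y) ^ 2) < 0 := mul_neg_of_pos_of_neg (by linarith) nu
  linarith

/-- a compact convex subset of the line -/
private lemma plane_seg {F : Set (Fin 1 → ℝ)} (hc : Convex ℝ F) (hF : IsCompact F)
    (hn : F.Nonempty) : ∃ p r : ℝ, p ≤ r ∧ F = (fun z => z 0) ⁻¹' Icc p r := by
  obtain ⟨a, ha, hmin⟩ := hF.exists_isMinOn hn (continuous_apply 0).continuousOn
  obtain ⟨b, hb, hmax⟩ := hF.exists_isMaxOn hn (continuous_apply 0).continuousOn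
  refine ⟨a 0, b 0, hmin hb, ?_⟩
  ext z
  refine ⟨fun hz => ⟨hmin hz, hmax hz⟩, fun hz => ?_⟩
  have hz' : z 0 ∈ segment ℝ (a 0) (b 0) := by
    rw [segment_eq_Icc (hmin hb)]; exact hz
  obtain ⟨s, t, hs, ht, hst, e⟩ := hz'
  have : z = s • a + t • b := by
    ext i
    rw [Subsingleton.elim i 0, ← e]; simp
  rw [this]
  exact hc ha hb hs ht hst

private lemma plane_int {p r : ℝ} (hpr : p ≤ r) (f : ℝ → ℝ) :
    ∫ z in ((fun z : Fin 1 → ℝ => z 0) ⁻¹' Icc p r), f (z 0) = ∫ u in p..r, f u := by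
  rw [intervalIntegral.integral_of_le hpr, ← integral_Icc_eq_integral_Ioc]
  exact (volume_preserving_funUnique (Fin 1) ℝ).setIntegral_preimage_emb
    (MeasurableEquiv.funUnique (Fin 1) ℝ).measurableEmbedding f (Icc p r)

private lemma plane_ftc {p r : ℝ} {f g : ℝ → ℝ} (hf : Continuous f)
    (h : ∀ u, HasDerivAt g (f u) u) : ∫ u in p..r, f u = g r - g p :=
  intervalIntegral.integral_eq_sub_of_hasDerivAt (fun u _ => h u) (hf.intervalIntegrable _ _)

/-- the edge lemma -/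
theorem edge_le {h : ℝ} (hh : 0 < h) (h2 : 2 ≤ h ^ 2) {F : Set (Fin 1 → ℝ)} (hc : Convex ℝ F)
    (hF : IsCompact F) (c0 : ∫ z in F, (h ^ 2 + z ⬝ᵥ z - 4) = 0)
    (c1 : ∫ z in F, (h ^ 2 + z ⬝ᵥ z - 4) * z 0 = 0) :
    Real.sqrt 108 * ∫ z in F, 1 / Real.sqrt (h ^ 2 + z ⬝ᵥ z) ^ 2 ≤ Real.pi * volume.real F := by
  rcases F.eq_empty_or_nonempty with rfl | hn
  · simp
  obtain ⟨p, r, hpr, rfl⟩ := plane_seg hc hF hn
  have ed : ∀ z : Fin 1 → ℝ, z ⬝ᵥ z = z 0 * z 0 := fun z => by simp [dotProduct]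
  simp only [ed] at c0 c1 ⊢
  have hv : volume.real ((fun z : Fin 1 → ℝ => z 0) ⁻¹' Icc p r) = r - p := by
    have := plane_int hpr (fun _ => 1)
    simpa using this
  rw [plane_int hpr (fun u => h ^ 2 + u * u - 4)] at c0
  rw [plane_int hpr (fun u => (h ^ 2 + u * u - 4) * u)] at c1
  rw [plane_int hpr (fun u => 1 / Real.sqrt (h ^ 2 + u * u) ^ 2), hv]
  rw [plane_ftc (g := fun u => (h ^ 2 - 4) * u + u ^ 3 / 3) (by fun_prop) (fun u => by
    have := ((hasDerivAt_id u).const_mul (h ^ 2 - 4)).add ((hasDerivAt_pow 3 u).div_const 3)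
    refine HasDerivAt.congr_deriv this ?_
    norm_num; ring)] at c0
  rw [plane_ftc (g := fun u => (h ^ 2 - 4) * (u ^ 2 / 2) + u ^ 4 / 4) (by fun_prop) (fun u => by
    have := (((hasDerivAt_pow 2 u).div_const 2).const_mul (h ^ 2 - 4)).add
      ((hasDerivAt_pow 4 u).div_const 4)
    refine HasDerivAt.congr_deriv this ?_
    norm_num; ring)] at c1
  have hpos : ∀ u : ℝ, 0 < h ^ 2 + u * u := fun u => by nlinarith [mul_self_nonneg u]
  have e1 : (fun u : ℝ => 1 / Real.sqrt (h ^ 2 + u * u) ^ 2) = fun u => 1 / (h ^ 2 + u * u) := by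
    ext u; rw [Real.sq_sqrt (hpos u).le]
  rw [e1, plane_ftc (f := fun u => 1 / (h ^ 2 + u * u)) (g := fun u => Real.arctan (u / h) / h)
    (continuous_const.div (by fun_prop) fun u => (hpos u).ne') (fun u => by
    have := (((hasDerivAt_id u).div_const h).arctan).div_const h
    refine HasDerivAt.congr_deriv this ?_
    have := (hpos u).ne'
    simp only [id]
    field_simp)]
  rcases hpr.eq_or_lt with rfl | hlt
  · simp
  have hd : r - p ≠ 0 := by linarith
  have a0 : h ^ 2 - 4 + (r ^ 2 + r * p + p ^ 2) / 3 = 0 := by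
    apply mul_left_cancel₀ hd; linarith
  have a1 : (r + p) * ((h ^ 2 - 4) / 2 + (r ^ 2 + p ^ 2) / 4) = 0 := by
    apply mul_left_cancel₀ hd; linarith
  have hp : p = -r := by
    rcases mul_eq_zero.1 a1 with h | h
    · linarith
    · exact absurd (pow_eq_zero_iff (two_ne_zero) |>.1 (show (r - p) ^ 2 = 0 by linarith)) hd
  subst hp
  have hr : 0 < r := by linarith
  have hr2 : r ^ 2 = 3 * (4 - h ^ 2) := by linarith
  have hx : (r / h) ^ 2 ≤ 3 := by
    rw [div_pow, div_le_iff₀ (by positivity)]; linarith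
  have ha := arctan_le (div_pos hr hh).le hx
  have e3 : 3 + (r / h) ^ 2 = 12 / h ^ 2 := by
    rw [div_pow, hr2]; field_simp; ring
  have e108 : Real.sqrt 108 = 6 * Real.sqrt 3 := by
    rw [show (108 : ℝ) = 6 ^ 2 * 3 by norm_num, Real.sqrt_mul (by norm_num),
      Real.sqrt_sq (by norm_num)]
  have hs0 : 0 < Real.sqrt 3 := by positivity
  rw [e3] at ha
  rw [neg_div, Real.arctan_neg, e108]
  calc 6 * Real.sqrt 3 * (Real.arctan (r / h) / h - -Real.arctan (r / h) / h)
      = 12 * Real.sqrt 3 / h * Real.arctan (r / h) := by ring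
    _ ≤ 12 * Real.sqrt 3 / h * (2 * Real.pi / Real.sqrt 3 * (r / h / (12 / h ^ 2))) := by gcongr
    _ = Real.pi * (r - -r) := by field_simp; ring

theorem plane_crit {A : Finset (Fin 2 → ℝ)} (hA : Iso (poly A)) (hc : Crit A) :
    Real.sqrt 108 ≤ volume.real (poly A) := by
  have hb : Bornology.IsBounded (poly A) := hA.cpt.isBounded
  have key : ∀ a ∈ A, 2 * Real.sqrt 108 * sol A a ≤ Real.pi * wt A a := by
    intro a ha
    by_cases h0 : a = 0
    · subst h0; rw [wt_zero, sol_zero]; simp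
    refine facet_wlog (n := 1) (P := fun _ _ w s => 2 * Real.sqrt 108 * s ≤ Real.pi * w)
      ?_ hA hc ha h0
    intro B h hB hcB hh hm
    have hbB : Bornology.IsBounded (poly B) := hB.cpt.isBounded
    obtain ⟨α, β, hM, -, -, x, hx, ex⟩ := marg_two hB
    have hβ : β ≤ h := by
      have := hx _ hm
      rw [single_dotProduct, ex, inv_mul_le_iff₀ hh] at this
      linarith
    have h2 : 2 ≤ h ^ 2 := by nlinarith [hM.one, hM.pos_right]
    obtain ⟨c0, c1⟩ := crit_hcone hbB hcB hh hm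
    have e4 : ((1 : ℕ) : ℝ) + 3 = 4 := by norm_num
    rw [e4] at c0 c1
    have := edge_le hh h2 (slice_convex hB.cvx h) (slice_compact hB.cpt h) c0 (c1 0)
    rw [wt_hcone hbB hh hm, sol_hcone hbB hh hm]
    simp only [sv, Nat.factorial_one, Nat.cast_one, mul_one, one_add_one_eq_two]
    nlinarith [mul_le_mul_of_nonneg_left this hh.le]
  have hs := Finset.sum_le_sum key
  rw [← Finset.mul_sum, ← Finset.mul_sum, sum_sol (by norm_num) hb, sum_wt (by norm_num) hb,
    vol_ball_two] at hs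
  have e2 : ((Nat.factorial 2 : ℕ) : ℝ) = 2 := by norm_num [Nat.factorial]
  rw [e2] at hs
  nlinarith [Real.pi_pos]

theorem plane_Jv {K : Set (Fin 2 → ℝ)} (hK : Body K) : Jv K ≤ 1 / 108 := by
  have := reduce (n := 2) (by norm_num) (v := Real.sqrt 108) (by positivity)
    (fun A hA hc => plane_crit hA hc) hK
  rwa [Real.sq_sqrt (by norm_num)] at this

/-- the planar theorem in coordinates, for convex bounded measurable sets -/
theorem plane_thm {B : Set (Fin 2 → ℝ)} (hc : Convex ℝ B) (hb : Bornology.IsBounded B)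
    (hpos : 0 < volume.real B) {b m0 m1 P00 P01 P11 : ℝ} (eb : b = volume.real B)
    (e0 : m0 = ∫ y in B, y 0) (e1 : m1 = ∫ y in B, y 1) (e00 : P00 = ∫ y in B, y 0 * y 0)
    (e01 : P01 = ∫ y in B, y 0 * y 1) (e11 : P11 = ∫ y in B, y 1 * y 1) :
    0 < P00 - m0 * m0 / b ∧
    0 < (P00 - m0 * m0 / b) * (P11 - m1 * m1 / b) - (P01 - m0 * m1 / b) ^ 2 ∧
      (P00 - m0 * m0 / b) * (P11 - m1 * m1 / b) - (P01 - m0 * m1 / b) ^ 2 ≤ b ^ 4 / 108 := by
  have hfr : volume (frontier B) = 0 := hc.addHaar_frontier volume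
  have hae : B =ᵐ[volume] closure B := by
    rw [ae_eq_set]
    refine ⟨by rw [Set.sdiff_eq_empty.2 subset_closure]; simp, measure_mono_null ?_ hfr⟩
    exact fun x hx => ⟨hx.1, fun h => hx.2 (interior_subset h)⟩
  have hK : Body (closure B) := by
    refine ⟨hc.closure, hb.isCompact_closure, ?_⟩
    by_contra hn
    have hi : interior B = ∅ :=
      Set.not_nonempty_iff_eq_empty.1 fun h => hn (h.mono (interior_mono subset_closure))
    have : volume B = 0 := by
      refine measure_mono_null (fun x hx => ?_) hfr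
      exact ⟨subset_closure hx, by rw [hi]; simp⟩
    simp [Measure.real, this] at hpos
  have hb0 : 0 < b := eb ▸ hpos
  rw [measureReal_congr hae] at eb
  rw [setIntegral_congr_set hae] at e0 e1 e00 e01 e11
  generalize closure B = K at *
  have i1 : ∀ x : Fin 2 → ℝ, ins 0 1 x 1 = x 0 := fun x => ins_succAbove 0 1 x 0
  have i2 : ∀ x : Fin 2 → ℝ, ins 0 1 x 2 = x 1 := fun x => ins_succAbove 0 1 x 1
  have hg : gram K 1 = !![b, m0, m1; m0, P00, P01; m1, P01, P11] := by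
    ext i j
    fin_cases i <;> fin_cases j <;> simp [gram, i1, i2, eb, e0, e1, e00, e01, e11, mul_comm]
  have hdet : (gram K 1).det =
      b * ((P00 - m0 * m0 / b) * (P11 - m1 * m1 / b) - (P01 - m0 * m1 / b) ^ 2) := by
    rw [hg, det_fin_three]
    simp
    field_simp
    ring
  have hJ : Jv K =
      ((P00 - m0 * m0 / b) * (P11 - m1 * m1 / b) - (P01 - m0 * m1 / b) ^ 2) / b ^ 4 := by
    rw [Jv, hdet, ← eb, show b ^ (2 + 3) = b * b ^ 4 by ring, mul_div_mul_left _ _ hb0.ne']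
  have hJ0 : 0 < Jv K := by
    obtain ⟨T, c, hT, hI⟩ := exists_iso hK
    rw [← Jv_aff hK hT c, hI.Jv_eq]
    have := hI.toBody.vol_pos
    positivity
  have hJ1 := plane_Jv hK
  have hb4 : 0 < b ^ 4 := by positivity
  rw [hJ] at hJ0 hJ1
  have d0 := (div_pos_iff_of_pos_right hb4).1 hJ0
  have s0 : 0 ≤ P00 - m0 * m0 / b := by
    have h1 := gram_quad hK.cpt 1 ![-(m0 / b), 1, 0] ![-(m0 / b), 1, 0]
    have h2 : 0 ≤ ![-(m0 / b), 1, 0] ⬝ᵥ (gram K 1 *ᵥ ![-(m0 / b), 1, 0]) := by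
      rw [h1]; exact integral_nonneg fun x => mul_self_nonneg _
    rw [hg] at h2
    refine h2.trans_eq ?_
    simp [mulVec, dotProduct, Fin.sum_univ_three]
    field_simp
    ring
  refine ⟨?_, d0, ?_⟩
  · rcases s0.eq_or_lt with h | h
    · rw [← h] at d0; nlinarith [sq_nonneg (P01 - m0 * m1 / b)]
    · exact h
  · rw [div_le_iff₀ hb4] at hJ1; linarith

end Pool.Agent.P.MP_2e1554_gt
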