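import Pool.Agent.P.MP_2e1554_gt.IsoDefs2
import Pool.Agent.P.MP_2e1554_gt.IsoPlane

open MeasureTheory Set Finset Matrix Filter Topology Pointwise

namespace Pool.Agent.P.MP_2e1554_gt

variable {n : ℕ}

lemma det_int {A : Finset (Fin n → ℝ)} (hb : Bornology.IsBounded (poly A)) {a : Fin n → ℝ}
    (ha : a ∈ A) (i j : Fin n) :
    IntegrableOn (fun x : Fin n → ℝ => x i * x j * Real.exp (-(a ⬝ᵥ x))) (cone A a) :=
  hcone_int hb ha (f := fun x => x i * x j) (by fun_prop) 2 fun s _ x => by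
    simp only [Pi.smul_apply, smul_eq_mul]; ring

open Classical in
lemma det_rot {A : Finset (Fin n → ℝ)} (hb : Bornology.IsBounded (poly A)) {a : Fin n → ℝ}
    (ha : a ∈ A) {O : Matrix (Fin n) (Fin n) ℝ} (hO : Oᵀ * O = 1) :
    cm2 (A.image fun a => O *ᵥ a) (O *ᵥ a) = O * cm2 A a * Oᵀ := by
  ext i j
  simp only [cm2, Matrix.of_apply, Matrix.mul_apply, transpose_apply]
  rw [cone_rot A a hO, rot_integral (measurableSet_cone A a) hO]
  simp only [rot_dot hO]
  have e : ∀ x : Fin n → ℝ, (O *ᵥ x) i * (O *ᵥ x) j * Real.exp (-(a ⬝ᵥ x)) =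
      ∑ l, ∑ k, O i k * (x k * x l * Real.exp (-(a ⬝ᵥ x))) * O j l := by
    intro x
    have h1 : (O *ᵥ x) i = ∑ k, O i k * x k := rfl
    have h2 : (O *ᵥ x) j = ∑ l, O j l * x l := rfl
    rw [h1, h2, mul_comm (∑ k, O i k * x k), Finset.sum_mul_sum, Finset.sum_mul]
    refine Finset.sum_congr rfl fun l _ => ?_
    rw [Finset.sum_mul]
    exact Finset.sum_congr rfl fun k _ => by ring
  simp only [e]
  rw [integral_finsetSum _ fun l _ => integrable_finsetSum _ fun k _ =>
    ((det_int hb ha k l).const_mul _).mul_const _]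
  refine Finset.sum_congr rfl fun l _ => ?_
  rw [integral_finsetSum _ fun k _ => ((det_int hb ha k l).const_mul _).mul_const _,
    Finset.sum_mul]
  refine Finset.sum_congr rfl fun k _ => ?_
  rw [integral_mul_const, integral_const_mul]

lemma det_hcone {A : Finset (Fin (n + 1) → ℝ)} (hb : Bornology.IsBounded (poly A)) {h : ℝ}
    (hh : 0 < h) (ha : Pi.single 0 h⁻¹ ∈ A) (i j : Fin (n + 1)) :
    cm2 A (Pi.single 0 h⁻¹) i j =
      h * (n + 2).factorial * ∫ z in slice (poly A) h, ins 0 h z i * ins 0 h z j := by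
  have hi := det_int hb ha i j
  rw [cone_eq_hcone hh ha] at hi
  rw [cm2, Matrix.of_apply, cone_eq_hcone hh ha, integral_hcone hh (hcone_slice_meas hb h) hi,
    ← integral_const_mul]
  refine integral_congr_ae (ae_of_all _ fun z => ?_)
  have e : ∀ t : ℝ, h * t ^ n * ((t • ins 0 h z) i * (t • ins 0 h z) j *
      Real.exp (-((Pi.single 0 h⁻¹ : Fin (n + 1) → ℝ) ⬝ᵥ (t • ins 0 h z)))) =
      h * (ins 0 h z i * ins 0 h z j) * (Real.exp (-t) * t ^ (n + 2)) := by
    intro t
    rw [hcone_a hh]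
    simp only [Pi.smul_apply, smul_eq_mul]
    ring
  simp only [e]
  rw [integral_const_mul, (hcone_gamma _).2]
  ring

lemma det_main {A : Finset (Fin 3 → ℝ)} (hA : Iso (poly A)) {h : ℝ} (hh : 0 < h)
    (ha : Pi.single 0 h⁻¹ ∈ A) :
    (cm2 A (Pi.single 0 h⁻¹)).det ≤ 4 * wt A (Pi.single 0 h⁻¹) ^ 5 := by
  have hb : Bornology.IsBounded (poly A) := hA.cpt.isBounded
  have hw := wt_hcone (n := 2) hb hh ha
  have hc := det_hcone (n := 2) hb hh ha
  have hF := slice_compact (n := 2) hA.cpt h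
  have hv := slice_convex (n := 2) hA.cvx h
  unfold sv at hw
  set F := slice (n := 2) (poly A) h with hFd
  have i0 : ∀ z : Fin 2 → ℝ, ins 0 h z 0 = h := fun z => ins_same _ _ _
  have i1 : ∀ z : Fin 2 → ℝ, ins 0 h z 1 = z 0 := fun z => hcone_succ h z 0
  have i2 : ∀ z : Fin 2 → ℝ, ins 0 h z 2 = z 1 := fun z => hcone_succ h z 1
  have f4 : ((2 + 2).factorial : ℝ) = 24 := by norm_num [Nat.factorial]
  have f2 : ((2 : ℕ).factorial : ℝ) = 2 := by norm_num [Nat.factorial]
  rw [f4] at hc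
  rw [f2] at hw
  rcases (measureReal_nonneg : 0 ≤ volume.real F).eq_or_lt with h0 | hpos
  · have h1 : volume F = 0 := by
      rw [measureReal_def, eq_comm, ENNReal.toReal_eq_zero_iff] at h0
      exact h0.resolve_right hF.measure_lt_top.ne
    have h2 : cm2 A (Pi.single 0 h⁻¹) = 0 := by
      ext i j
      rw [hc, setIntegral_measure_zero _ h1]
      simp
    rw [h2, hw, ← h0]
    simp
  obtain ⟨-, -, h3⟩ := plane_thm hv hF.isBounded hpos rfl rfl rfl rfl rfl rfl
  have e10 : ∫ z in F, z 1 * z 0 = ∫ z in F, z 0 * z 1 := by simp only [mul_comm]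
  rw [det_fin_three, hw]
  simp only [hc, i0, i1, i2, integral_const_mul, integral_mul_const,
    smul_eq_mul, e10, MeasureTheory.integral_const, measureReal_restrict_apply_univ]
  set b := volume.real F
  set m0 := ∫ z in F, z 0
  set m1 := ∫ z in F, z 1
  set P00 := ∫ z in F, z 0 * z 0
  set P01 := ∫ z in F, z 0 * z 1
  set P11 := ∫ z in F, z 1 * z 1
  have h4 := mul_le_mul_of_nonneg_left h3 (show 0 ≤ (24 * h) ^ 3 * h ^ 2 * b by positivity)
  refine le_trans (le_of_eq ?_) (h4.trans (le_of_eq ?_))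
  · field_simp
    ring
  · ring

/-- the planar theorem applied to a facet -/
theorem det_cm2 {A : Finset (Fin 3 → ℝ)} (hA : Iso (poly A)) {a : Fin 3 → ℝ} (ha : a ∈ A) :
    (cm2 A a).det ≤ 4 * wt A a ^ 5 := by
  classical
  by_cases h0 : a = 0
  · subst h0
    have h1 : cone A 0 = ∅ := by
      ext x
      simp [cone]
    have h2 : cm2 A 0 = 0 := by
      ext i j
      simp [cm2, h1]
    simp [h2, wt, h1]
  obtain ⟨O, hO, hOa⟩ := exists_rot (n := 2) a
  have hpos : 0 < a ⬝ᵥ a :=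
    lt_of_le_of_ne (rot_self_nonneg a) fun h => h0 (dotProduct_self_eq_zero.mp h.symm)
  have key := det_main (A := A.image fun a => O *ᵥ a) (h := (Real.sqrt (a ⬝ᵥ a))⁻¹)
    (by rw [poly_rot A hO]; exact hA.rot hO) (inv_pos.mpr (Real.sqrt_pos.mpr hpos))
    (by rw [inv_inv, ← hOa]; exact Finset.mem_image_of_mem _ ha)
  have hd : O.det * O.det = 1 := by
    have := congrArg Matrix.det hO
    rwa [det_mul, det_transpose, det_one] at this
  rw [inv_inv, ← hOa, wt_rot A a hO, det_rot hA.cpt.isBounded ha hO, det_mul, det_mul,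
    det_transpose, mul_right_comm, hd, one_mul] at key
  exact key

end Pool.Agent.P.MP_2e1554_gt
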