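import Pool.Agent.P.MP_2e1554_gt.IsoMomB

open MeasureTheory Set Finset Matrix Filter Topology Pointwise

namespace Pool.Agent.P.MP_2e1554_gt

variable {n : ℕ}

lemma fin_scale1 {A : Finset (Fin 3 → ℝ)} (hb : Bornology.IsBounded (poly A)) {V : ℝ}
    (hV : 0 < V) {k : Fin 3 → ℝ} (hk : k ∈ A) (i : Fin 3) :
    wt A k / (6 * V) * ((3 * wt A k)⁻¹ • cm1 A k) i = (18 * V)⁻¹ * cm1 A k i := by
  by_cases h0 : wt A k = 0
  · rw [(cm_zero hb hk h0).1]
    simp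
  · simp only [Pi.smul_apply, smul_eq_mul]
    field_simp
    ring

lemma fin_scale2 {A : Finset (Fin 3 → ℝ)} (hb : Bornology.IsBounded (poly A)) {V : ℝ}
    (hV : 0 < V) {k : Fin 3 → ℝ} (hk : k ∈ A) (i j : Fin 3) :
    wt A k / (6 * V) * ((12 * wt A k)⁻¹ • cm2 A k) i j = (72 * V)⁻¹ * cm2 A k i j := by
  by_cases h0 : wt A k = 0
  · rw [(cm_zero hb hk h0).2]
    simp
  · simp only [Matrix.smul_apply, smul_eq_mul]
    field_simp
    ring

end Pool.Agent.P.MP_2e1554_gt
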