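import Pool.Agent.P.MP_2e1554_gt.IsoCone
import Pool.Agent.P.MP_2e1554_gt.IsoDefs2

open MeasureTheory Set Finset Matrix Filter Topology Pointwise

namespace Pool.Agent.P.MP_2e1554_gt

variable {n : ℕ}

namespace IsoMomAX

lemma e0 {A : Finset (Fin n → ℝ)} (hb : Bornology.IsBounded (poly A)) :
    Integrable (fun x => Real.exp (-gam A x)) ∧
      ∫ x, Real.exp (-gam A x) = n.factorial * volume.real (poly A) := by
  have h := integral_exp_gam hb (f := fun _ => (1 : ℝ)) continuous_const 0 (by simp)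
  simpa using h

lemma e1 {A : Finset (Fin n → ℝ)} (hb : Bornology.IsBounded (poly A)) (i : Fin n) :
    Integrable (fun x : Fin n → ℝ => x i * Real.exp (-gam A x)) ∧
      ∫ x : Fin n → ℝ, x i * Real.exp (-gam A x) = (n + 1).factorial * ∫ x in poly A, x i :=
  integral_exp_gam hb (f := fun x => x i) (continuous_apply i) 1 (by
    intro s _ x
    simp)

lemma e2 {A : Finset (Fin n → ℝ)} (hb : Bornology.IsBounded (poly A)) (i j : Fin n) :
    Integrable (fun x : Fin n → ℝ => x i * x j * Real.exp (-gam A x)) ∧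
      ∫ x : Fin n → ℝ, x i * x j * Real.exp (-gam A x) =
        (n + 2).factorial * ∫ x in poly A, x i * x j :=
  integral_exp_gam hb (f := fun x => x i * x j) (by fun_prop) 2 (by
    intro s _ x
    simp only [Pi.smul_apply, smul_eq_mul]
    ring)

lemma cm1_eq {A : Finset (Fin n → ℝ)} {a : Fin n → ℝ} (ha : a ∈ A) (i : Fin n) :
    cm1 A a i = ∫ x in cone A a, x i * Real.exp (-gam A x) := by
  unfold cm1
  refine setIntegral_congr_fun (measurableSet_cone A a) fun x hx => ?_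
  simp only [gam_of_mem_cone ha hx]

lemma cm2_eq {A : Finset (Fin n → ℝ)} {a : Fin n → ℝ} (ha : a ∈ A) (i j : Fin n) :
    cm2 A a i j = ∫ x in cone A a, x i * x j * Real.exp (-gam A x) := by
  unfold cm2
  rw [Matrix.of_apply]
  refine setIntegral_congr_fun (measurableSet_cone A a) fun x hx => ?_
  simp only [gam_of_mem_cone ha hx]

lemma expand (μ : Measure (Fin n → ℝ)) (E : (Fin n → ℝ) → ℝ) (h0 : Integrable E μ)
    (h1 : ∀ i, Integrable (fun x => x i * E x) μ)
    (h2 : ∀ i j, Integrable (fun x => x i * x j * E x) μ) (i j : Fin n) (c s : ℝ) :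
    Integrable (fun x => (c + x i + s * x j) ^ 2 * E x) μ ∧
      ∫ x, (c + x i + s * x j) ^ 2 * E x ∂μ =
        c ^ 2 * ∫ x, E x ∂μ + 2 * c * ∫ x, x i * E x ∂μ + 2 * c * s * ∫ x, x j * E x ∂μ +
          ∫ x, x i * x i * E x ∂μ + 2 * s * ∫ x, x i * x j * E x ∂μ +
          s ^ 2 * ∫ x, x j * x j * E x ∂μ := by
  have e : (fun x : Fin n → ℝ => (c + x i + s * x j) ^ 2 * E x) = fun x =>
      c ^ 2 * E x + 2 * c * (x i * E x) + 2 * c * s * (x j * E x) + x i * x i * E x +
        2 * s * (x i * x j * E x) + s ^ 2 * (x j * x j * E x) := by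
    funext x
    ring
  have a1 := h0.const_mul (c ^ 2)
  have a2 := (h1 i).const_mul (2 * c)
  have a3 := (h1 j).const_mul (2 * c * s)
  have a4 := h2 i i
  have a5 := (h2 i j).const_mul (2 * s)
  have a6 := (h2 j j).const_mul (s ^ 2)
  have b2 : Integrable (fun x => c ^ 2 * E x + 2 * c * (x i * E x)) μ := a1.add a2
  have b3 : Integrable (fun x => c ^ 2 * E x + 2 * c * (x i * E x) +
      2 * c * s * (x j * E x)) μ := b2.add a3
  have b4 : Integrable (fun x => c ^ 2 * E x + 2 * c * (x i * E x) +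
      2 * c * s * (x j * E x) + x i * x i * E x) μ := b3.add a4
  have b5 : Integrable (fun x => c ^ 2 * E x + 2 * c * (x i * E x) +
      2 * c * s * (x j * E x) + x i * x i * E x + 2 * s * (x i * x j * E x)) μ := b4.add a5
  rw [e]
  refine ⟨b5.add a6, ?_⟩
  rw [integral_add b5 a6, integral_add b4 a5, integral_add b3 a4, integral_add b2 a3,
    integral_add a1 a2]
  simp only [integral_const_mul]

/-- quadratic moment of a cone -/
noncomputable def M (A : Finset (Fin n → ℝ)) (i j : Fin n) (c s : ℝ) (a : Fin n → ℝ) : ℝ :=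
  ∫ x in cone A a, (c + x i + s * x j) ^ 2 * Real.exp (-gam A x)

lemma whole {A : Finset (Fin n → ℝ)} (hA : Iso (poly A)) (i j : Fin n) (s : ℝ) :
    ∃ Q : ℝ, ∀ c : ℝ, Integrable (fun x : Fin n → ℝ =>
      (c + x i + s * x j) ^ 2 * Real.exp (-gam A x)) ∧
      ∫ x : Fin n → ℝ, (c + x i + s * x j) ^ 2 * Real.exp (-gam A x) =
        c ^ 2 * (n.factorial * volume.real (poly A)) + Q := by
  have hb := hA.cpt.isBounded
  refine ⟨(∫ x : Fin n → ℝ, x i * x i * Real.exp (-gam A x)) +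
    2 * s * (∫ x : Fin n → ℝ, x i * x j * Real.exp (-gam A x)) +
    s ^ 2 * (∫ x : Fin n → ℝ, x j * x j * Real.exp (-gam A x)), fun c => ?_⟩
  have h := expand volume (fun x => Real.exp (-gam A x)) (e0 hb).1 (fun i => (e1 hb i).1)
    (fun i j => (e2 hb i j).1) i j c s
  refine ⟨h.1, ?_⟩
  rw [h.2, (e0 hb).2, (e1 hb i).2, (e1 hb j).2, hA.m1 i, hA.m1 j]
  ring

lemma shift (hn : 1 ≤ n) {A : Finset (Fin n → ℝ)} (hA : Iso (poly A)) (i j : Fin n) (c s : ℝ)
    (w : Fin n → ℝ) :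
    ∑ a ∈ A, M A i j c s a - c ^ 2 * (n.factorial * volume.real (poly A)) ≤
      ∑ a ∈ A, M A i j c s a * Real.exp (-(a ⬝ᵥ w)) -
        (c - (w i + s * w j)) ^ 2 * (n.factorial * volume.real (poly A)) := by
  have hb := hA.cpt.isBounded
  obtain ⟨Q, hQ⟩ := whole hA i j s
  have h1 : ∑ a ∈ A, M A i j c s a = c ^ 2 * (n.factorial * volume.real (poly A)) + Q := by
    rw [← (hQ c).2, ← sum_cone hn hb (hQ c).1]
    rfl
  have hg := hQ (c - (w i + s * w j))
  have e : (fun x : Fin n → ℝ => (c + x i + s * x j) ^ 2 * Real.exp (-gam A (x + w))) =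
      fun x => (fun y : Fin n → ℝ => (c - (w i + s * w j) + y i + s * y j) ^ 2 *
        Real.exp (-gam A y)) (x + w) := by
    funext x
    simp only [Pi.add_apply]
    ring
  have hi' : Integrable (fun x : Fin n → ℝ =>
      (c + x i + s * x j) ^ 2 * Real.exp (-gam A (x + w))) := by
    rw [e]
    exact hg.1.comp_add_right w
  have h2 : ∫ x : Fin n → ℝ, (c + x i + s * x j) ^ 2 * Real.exp (-gam A (x + w)) =
      (c - (w i + s * w j)) ^ 2 * (n.factorial * volume.real (poly A)) + Q := by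
    rw [e, integral_add_right_eq_self (fun y : Fin n → ℝ =>
      (c - (w i + s * w j) + y i + s * y j) ^ 2 * Real.exp (-gam A y)) w, hg.2]
  have h3 : ∫ x : Fin n → ℝ, (c + x i + s * x j) ^ 2 * Real.exp (-gam A (x + w)) ≤
      ∑ a ∈ A, M A i j c s a * Real.exp (-(a ⬝ᵥ w)) := by
    rw [← sum_cone hn hb hi']
    refine Finset.sum_le_sum fun a ha => ?_
    unfold M
    rw [← integral_mul_const]
    refine setIntegral_mono_on hi'.integrableOn ((hQ c).1.mul_const _).integrableOn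
      (measurableSet_cone A a) fun x hx => ?_
    rw [mul_assoc, ← Real.exp_add, gam_of_mem_cone ha hx]
    refine mul_le_mul_of_nonneg_left (Real.exp_le_exp.mpr ?_) (sq_nonneg _)
    have := le_gam ha (x + w)
    rw [dotProduct_add] at this
    linarith
  linarith

lemma key (hn : 1 ≤ n) {A : Finset (Fin n → ℝ)} (hA : Iso (poly A)) (i j : Fin n) (c s : ℝ)
    (u : Fin n → ℝ) :
    ∑ a ∈ A, M A i j c s a * (a ⬝ᵥ u) =
      2 * c * (u i + s * u j) * (n.factorial * volume.real (poly A)) := by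
  have hd : HasDerivAt (fun t : ℝ => ∑ a ∈ A, M A i j c s a * Real.exp (-(t * (a ⬝ᵥ u))))
      (∑ a ∈ A, M A i j c s a * (Real.exp (-(0 * (a ⬝ᵥ u))) * (-(1 * (a ⬝ᵥ u))))) 0 := by
    refine HasDerivAt.fun_sum fun a _ => ?_
    exact (((hasDerivAt_id' (0 : ℝ)).mul_const (a ⬝ᵥ u)).neg.exp).const_mul _
  have hd2 : HasDerivAt (fun t : ℝ => (c - t * (u i + s * u j)) ^ 2 *
      (n.factorial * volume.real (poly A)))
      (((2 : ℕ) * (c - 0 * (u i + s * u j)) ^ (2 - 1) * (-(1 * (u i + s * u j)))) *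
        (n.factorial * volume.real (poly A))) 0 :=
    ((((hasDerivAt_id' (0 : ℝ)).mul_const (u i + s * u j)).const_sub c).fun_pow 2).mul_const _
  have hmin : IsLocalMin (fun t : ℝ => ∑ a ∈ A, M A i j c s a * Real.exp (-(t * (a ⬝ᵥ u))) -
      (c - t * (u i + s * u j)) ^ 2 * (n.factorial * volume.real (poly A))) 0 := by
    refine Filter.Eventually.of_forall fun t => ?_
    have h := shift hn hA i j c s (t • u)
    simp only [dotProduct_smul, smul_eq_mul, Pi.smul_apply] at h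
    have e : t * u i + s * (t * u j) = t * (u i + s * u j) := by ring
    rw [e] at h
    simpa using h
  have h0 := hmin.hasDerivAt_eq_zero (hd.fun_sub hd2)
  simp only [zero_mul, neg_zero, Real.exp_zero, one_mul, mul_neg, Finset.sum_neg_distrib,
    sub_zero, Nat.cast_ofNat, Nat.add_one_sub_one, pow_one] at h0
  linarith

lemma M_eq {A : Finset (Fin n → ℝ)} (hA : Iso (poly A)) {a : Fin n → ℝ} (ha : a ∈ A)
    (i j : Fin n) (c s : ℝ) :
    M A i j c s a = c ^ 2 * (∫ x in cone A a, Real.exp (-gam A x)) + 2 * c * cm1 A a i +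
      2 * c * s * cm1 A a j + cm2 A a i i + 2 * s * cm2 A a i j + s ^ 2 * cm2 A a j j := by
  have hb := hA.cpt.isBounded
  rw [cm1_eq ha, cm1_eq ha, cm2_eq ha, cm2_eq ha, cm2_eq ha]
  exact (expand (volume.restrict (cone A a)) (fun x => Real.exp (-gam A x))
    (e0 hb).1.integrableOn (fun i => (e1 hb i).1.integrableOn)
    (fun i j => (e2 hb i j).1.integrableOn) i j c s).2

end IsoMomAX

theorem sum_cm1 (hn : 1 ≤ n) {A : Finset (Fin n → ℝ)} (hA : Iso (poly A)) (i : Fin n) :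
    ∑ a ∈ A, cm1 A a i = 0 := by
  have hb := hA.cpt.isBounded
  rw [Finset.sum_congr rfl fun a ha => IsoMomAX.cm1_eq ha i,
    sum_cone hn hb (IsoMomAX.e1 hb i).1, (IsoMomAX.e1 hb i).2, hA.m1 i, mul_zero]

theorem sum_cm2 (hn : 1 ≤ n) {A : Finset (Fin n → ℝ)} (hA : Iso (poly A)) (i j : Fin n) :
    ∑ a ∈ A, cm2 A a i j =
      if i = j then ((n + 2).factorial : ℝ) * volume.real (poly A) else 0 := by
  have hb := hA.cpt.isBounded
  rw [Finset.sum_congr rfl fun a ha => IsoMomAX.cm2_eq ha i j,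
    sum_cone hn hb (IsoMomAX.e2 hb i j).1, (IsoMomAX.e2 hb i j).2, hA.m2 i j]
  split_ifs
  · rfl
  · rw [mul_zero]

theorem sum_a_cm1 (hn : 1 ≤ n) {A : Finset (Fin n → ℝ)} (hA : Iso (poly A)) (i j : Fin n) :
    ∑ a ∈ A, cm1 A a i * a j = if i = j then (n.factorial : ℝ) * volume.real (poly A) else 0 := by
  have h1 := IsoMomAX.key hn hA i i 1 0 (Pi.single j 1)
  have h2 := IsoMomAX.key hn hA i i (-1) 0 (Pi.single j 1)
  have h3 : ∑ a ∈ A, IsoMomAX.M A i i 1 0 a * (a ⬝ᵥ Pi.single j 1) -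
      ∑ a ∈ A, IsoMomAX.M A i i (-1) 0 a * (a ⬝ᵥ Pi.single j 1) =
      4 * ∑ a ∈ A, cm1 A a i * a j := by
    rw [← Finset.sum_sub_distrib, Finset.mul_sum]
    refine Finset.sum_congr rfl fun a ha => ?_
    rw [IsoMomAX.M_eq hA ha, IsoMomAX.M_eq hA ha, dotProduct_single]
    ring
  rw [h1, h2] at h3
  by_cases hij : i = j
  · subst hij
    rw [if_pos rfl]
    rw [Pi.single_eq_same] at h3
    linarith
  · rw [if_neg hij]
    rw [Pi.single_eq_of_ne hij] at h3
    linarith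

theorem sum_a_cm2 (hn : 1 ≤ n) {A : Finset (Fin n → ℝ)} (hA : Iso (poly A)) (l i j : Fin n) :
    ∑ a ∈ A, a l * cm2 A a i j = 0 := by
  have h1 := IsoMomAX.key hn hA i j 0 1 (Pi.single l 1)
  have h2 := IsoMomAX.key hn hA i j 0 (-1) (Pi.single l 1)
  have h3 : ∑ a ∈ A, IsoMomAX.M A i j 0 1 a * (a ⬝ᵥ Pi.single l 1) -
      ∑ a ∈ A, IsoMomAX.M A i j 0 (-1) a * (a ⬝ᵥ Pi.single l 1) =
      4 * ∑ a ∈ A, a l * cm2 A a i j := by
    rw [← Finset.sum_sub_distrib, Finset.mul_sum]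
    refine Finset.sum_congr rfl fun a ha => ?_
    rw [IsoMomAX.M_eq hA ha, IsoMomAX.M_eq hA ha, dotProduct_single]
    ring
  rw [h1, h2] at h3
  linarith

end Pool.Agent.P.MP_2e1554_gt
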