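import Pool.Agent.P.MP_2e1554_gt.IsoDefs

open MeasureTheory Set Finset Matrix Filter Topology Pointwise

namespace Pool.Agent.P.MP_2e1554_gt

variable {n : ℕ}

lemma gam_nonneg (A : Finset (Fin n → ℝ)) (x : Fin n → ℝ) : 0 ≤ gam A x :=
  (Finset.le_fold_max _).2 (Or.inl le_rfl)

lemma le_gam {A : Finset (Fin n → ℝ)} {a : Fin n → ℝ} (ha : a ∈ A) (x : Fin n → ℝ) :
    a ⬝ᵥ x ≤ gam A x := (Finset.le_fold_max _).2 (Or.inr ⟨a, ha, le_rfl⟩)

lemma gam_le {A : Finset (Fin n → ℝ)} {x : Fin n → ℝ} {c : ℝ} :
    gam A x ≤ c ↔ 0 ≤ c ∧ ∀ a ∈ A, a ⬝ᵥ x ≤ c := Finset.fold_max_le _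

lemma continuous_gam (A : Finset (Fin n → ℝ)) : Continuous (gam A) := by
  classical
  induction A using Finset.induction_on with
  | empty => exact continuous_const
  | insert a s ha ih =>
    have : gam (insert a s) = fun x => max (a ⬝ᵥ x) (gam s x) := by
      funext x
      simp only [gam]
      rw [Finset.fold_insert ha]
    rw [this]
    exact (continuous_const.dotProduct continuous_id).max ih

lemma gam_of_mem_cone {A : Finset (Fin n → ℝ)} {a x : Fin n → ℝ} (ha : a ∈ A)
    (hx : x ∈ cone A a) : gam A x = a ⬝ᵥ x :=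
  le_antisymm (gam_le.2 ⟨hx.1.le, hx.2⟩) (le_gam ha x)

lemma gam_le_iff_mem_smul {A : Finset (Fin n → ℝ)} {x : Fin n → ℝ} {t : ℝ} (ht : 0 < t) :
    gam A x ≤ t ↔ x ∈ t • poly A := by
  rw [gam_le, mem_smul_set_iff_inv_smul_mem₀ ht.ne']
  simp only [poly, Set.mem_ofPred_eq, dotProduct_smul, smul_eq_mul, inv_mul_le_iff₀ ht, mul_one]
  exact ⟨fun h => h.2, fun h => ⟨ht.le, h⟩⟩

lemma gam_lower {A : Finset (Fin n → ℝ)} (hb : Bornology.IsBounded (poly A)) :
    ∃ c : ℝ, 0 < c ∧ ∀ x, c * ‖x‖ ≤ gam A x := by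
  obtain ⟨R, hR, h⟩ := hb.exists_pos_norm_le
  refine ⟨R⁻¹, inv_pos.2 hR, fun x => le_of_forall_gt_imp_ge_of_dense fun s hs => ?_⟩
  have hs0 : 0 < s := (gam_nonneg A x).trans_lt hs
  obtain ⟨y, hy, rfl⟩ := (gam_le_iff_mem_smul hs0).1 hs.le
  rw [inv_mul_le_iff₀ hR, norm_smul, Real.norm_of_nonneg hs0.le, mul_comm]
  exact mul_le_mul_of_nonneg_right (h y hy) hs0.le

lemma gam_integrable_one_add {c : ℝ} (hc : 0 < c) (k : ℕ) :
    Integrable (fun x : Fin n → ℝ => (1 + ‖x‖) ^ k * Real.exp (-(c * ‖x‖))) := by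
  have h := (integrable_one_add_norm (E := Fin n → ℝ) (μ := volume) (r := ((n + 1 : ℕ) : ℝ))
    (by simp)).const_mul ((k + (n + 1)).factorial * Real.exp c / c ^ (k + (n + 1)))
  refine h.mono' (Continuous.aestronglyMeasurable (by fun_prop)) (Eventually.of_forall fun x => ?_)
  have hx : 0 < 1 + ‖x‖ := by positivity
  have h1 := Real.pow_div_factorial_le_exp (c * (1 + ‖x‖)) (by positivity) (k + (n + 1))
  rw [Real.norm_of_nonneg (by positivity), Real.rpow_neg hx.le, Real.rpow_natCast, Real.exp_neg]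
  rw [mul_add c, mul_one, Real.exp_add, ← mul_one_add, mul_pow, pow_add (1 + ‖x‖),
    div_le_iff₀ (by positivity)] at h1
  rw [← div_eq_mul_inv, ← div_eq_mul_inv, div_div, div_le_div_iff₀ (by positivity) (by positivity)]
  linarith

lemma integrable_poly_exp {c : ℝ} (hc : 0 < c) (k : ℕ) :
    Integrable (fun x : Fin n → ℝ => ‖x‖ ^ k * Real.exp (-(c * ‖x‖))) := by
  refine (gam_integrable_one_add hc k).mono' (Continuous.aestronglyMeasurable (by fun_prop))
    (Eventually.of_forall fun x => ?_)
  rw [Real.norm_of_nonneg (by positivity)]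
  gcongr
  linarith

lemma gam_growth {f : (Fin n → ℝ) → ℝ} (hf : Continuous f) (k : ℕ)
    (hh : ∀ s : ℝ, 0 < s → ∀ x, f (s • x) = s ^ k * f x) :
    ∃ C : ℝ, 0 ≤ C ∧ ∀ x, ‖f x‖ ≤ C * (1 + ‖x‖) ^ k := by
  obtain ⟨C, hC⟩ := (isCompact_closedBall (0 : Fin n → ℝ) 1).exists_bound_of_continuousOn
    hf.continuousOn
  refine ⟨C, (norm_nonneg _).trans (hC 0 (by simp)), fun x => ?_⟩
  have hx : 0 < 1 + ‖x‖ := by positivity
  have e : x = (1 + ‖x‖) • ((1 + ‖x‖)⁻¹ • x) := by rw [smul_inv_smul₀ hx.ne']
  have h1 := hC ((1 + ‖x‖)⁻¹ • x) (by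
    rw [mem_closedBall_zero_iff, norm_smul, Real.norm_of_nonneg (inv_pos.2 hx).le,
      inv_mul_le_iff₀ hx]
    linarith)
  calc ‖f x‖ = ‖f ((1 + ‖x‖) • ((1 + ‖x‖)⁻¹ • x))‖ := by rw [← e]
    _ = (1 + ‖x‖) ^ k * ‖f ((1 + ‖x‖)⁻¹ • x)‖ := by
      rw [hh _ hx, norm_mul, Real.norm_of_nonneg (by positivity)]
    _ ≤ (1 + ‖x‖) ^ k * C := by gcongr
    _ = _ := mul_comm _ _

/-- moments of `poly A` as exponential integrals -/
theorem integral_exp_gam {A : Finset (Fin n → ℝ)} (hb : Bornology.IsBounded (poly A))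
    {f : (Fin n → ℝ) → ℝ} (hf : Continuous f) (k : ℕ)
    (hh : ∀ s : ℝ, 0 < s → ∀ x, f (s • x) = s ^ k * f x) :
    Integrable (fun x => f x * Real.exp (-gam A x)) ∧
      ∫ x, f x * Real.exp (-gam A x) = (n + k).factorial * ∫ x in poly A, f x := by
  have hg := continuous_gam A
  have hint : Integrable (fun x => f x * Real.exp (-gam A x)) := by
    obtain ⟨c, hc, h1⟩ := gam_lower hb
    obtain ⟨C, hC, h2⟩ := gam_growth hf k hh
    refine ((gam_integrable_one_add hc k).const_mul C).mono'
      (Continuous.aestronglyMeasurable (by fun_prop)) (Eventually.of_forall fun x => ?_)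
    rw [norm_mul, Real.norm_of_nonneg (Real.exp_pos _).le, ← mul_assoc]
    exact mul_le_mul (h2 x) (Real.exp_le_exp.2 (neg_le_neg (h1 x))) (Real.exp_pos _).le
      (by positivity)
  refine ⟨hint, ?_⟩
  let F : (Fin n → ℝ) → ℝ → ℝ := fun x t =>
    f x * (Ici (gam A x)).indicator (fun t => Real.exp (-t)) t
  have hI : ∀ g : ℝ, Integrable ((Ici g).indicator fun t => Real.exp (-t)) := fun g => by
    rw [integrable_indicator_iff measurableSet_Ici, integrableOn_Ici_iff_integrableOn_Ioi]
    exact integrableOn_exp_neg_Ioi g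
  have hJ : ∀ g : ℝ, ∫ t, (Ici g).indicator (fun t => Real.exp (-t)) t = Real.exp (-g) :=
    fun g => by
      rw [integral_indicator measurableSet_Ici, integral_Ici_eq_integral_Ioi, integral_exp_neg_Ioi]
  have hm : Measurable (Function.uncurry F) := by
    have : Function.uncurry F = fun p : (Fin n → ℝ) × ℝ =>
        f p.1 * {p : (Fin n → ℝ) × ℝ | gam A p.1 ≤ p.2}.indicator (fun p => Real.exp (-p.2)) p := by
      funext p
      rfl
    rw [this]
    refine (hf.measurable.comp measurable_fst).mul (Measurable.indicator (by fun_prop) ?_)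
    exact (isClosed_le (hg.comp continuous_fst) continuous_snd).measurableSet
  have hF : Integrable (Function.uncurry F) (volume.prod volume) := by
    rw [integrable_prod_iff hm.aestronglyMeasurable]
    refine ⟨Eventually.of_forall fun x => (hI (gam A x)).const_mul (f x), hint.norm.congr ?_⟩
    refine Eventually.of_forall fun x => ?_
    simp only [Function.uncurry_apply_pair, F, norm_mul]
    rw [integral_const_mul, Real.norm_of_nonneg (Real.exp_pos _).le, ← hJ]
    congr 2
    funext t
    rw [Real.norm_of_nonneg (Set.indicator_nonneg (fun _ _ => (Real.exp_pos _).le) t)]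
  calc ∫ x, f x * Real.exp (-gam A x) = ∫ x, ∫ t, F x t := by
        simp only [F, integral_const_mul, hJ]
    _ = ∫ t, ∫ x, F x t := integral_integral_swap hF
    _ = ∫ t, w t * t ^ (n + k) * ∫ x in poly A, f x := by
        refine integral_congr_ae ?_
        filter_upwards [compl_mem_ae_iff.2 (measure_singleton (0 : ℝ))] with t ht
        rcases lt_or_gt_of_ne (show t ≠ 0 from ht) with h | h
        · have : ∀ x, F x t = 0 := fun x => by
            simp only [F]
            rw [Set.indicator_of_notMem, mul_zero]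
            exact not_le.2 (h.trans_le (gam_nonneg A x))
          simp [this, w_of_neg h]
        · have e : ∀ x, F x t = Real.exp (-t) * (t • poly A).indicator f x := fun x => by
            simp only [F]
            by_cases hx : x ∈ t • poly A
            · rw [Set.indicator_of_mem hx, Set.indicator_of_mem, mul_comm]
              exact (gam_le_iff_mem_smul h).2 hx
            · rw [Set.indicator_of_notMem hx, Set.indicator_of_notMem, mul_zero, mul_zero]
              exact fun h' => hx ((gam_le_iff_mem_smul h).1 h')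
          have hms : MeasurableSet (t • poly A) := by
            have : t • poly A = {x | gam A x ≤ t} := by
              ext x
              exact (gam_le_iff_mem_smul h).symm
            rw [this]
            exact (isClosed_le hg continuous_const).measurableSet
          have h1 := Measure.setIntegral_comp_smul_of_pos (volume : Measure (Fin n → ℝ)) f
            (poly A) h
          simp only [hh t h, integral_const_mul, Module.finrank_fintype_fun_eq_card,
            Fintype.card_fin, smul_eq_mul] at h1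
          have hp : (0 : ℝ) < t ^ n := pow_pos h n
          simp only [e]
          rw [integral_const_mul, integral_indicator hms, w_of_nonneg h.le, pow_add, mul_assoc,
            mul_assoc, h1, mul_inv_cancel_left₀ hp.ne']
    _ = _ := by rw [integral_mul_const, integral_w_pow]

end Pool.Agent.P.MP_2e1554_gt
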