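import Pool.Agent.P.MP_2e1554_gt.IsoDefs2
import Pool.Agent.P.MP_2e1554_gt.IsoGam
import Pool.Agent.P.MP_2e1554_gt.IsoRot

open MeasureTheory Set Finset Matrix Filter Topology Pointwise

namespace Pool.Agent.P.MP_2e1554_gt

variable {n : ℕ}

private lemma momB_int {A : Finset (Fin n → ℝ)} (hb : Bornology.IsBounded (poly A))
    {a : Fin n → ℝ} (ha : a ∈ A) {f : (Fin n → ℝ) → ℝ} (hf : Continuous f) (k : ℕ)
    (hh : ∀ s : ℝ, 0 < s → ∀ x, f (s • x) = s ^ k * f x) :
    IntegrableOn (fun x => f x * Real.exp (-(a ⬝ᵥ x))) (cone A a) :=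
  (integral_exp_gam hb hf k hh).1.integrableOn.congr_fun
    (fun x hx => by simp only [gam_of_mem_cone ha hx]) (measurableSet_cone A a)

private lemma momB_int' {A : Finset (Fin n → ℝ)} (hb : Bornology.IsBounded (poly A))
    {a : Fin n → ℝ} (ha : a ∈ A) {f : (Fin n → ℝ) → ℝ} (hf : Continuous f) (k : ℕ)
    (hh : ∀ s : ℝ, 0 < s → ∀ x, f (s • x) = s ^ k * f x) :
    IntegrableOn (fun x => f x * (a ⬝ᵥ x) * Real.exp (-(a ⬝ᵥ x))) (cone A a) :=
  momB_int hb ha (f := fun x => f x * (a ⬝ᵥ x)) (by fun_prop) (k + 1) fun s hs x => by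
    rw [hh s hs, dotProduct_smul, smul_eq_mul]; ring

private lemma momB_smul (A : Finset (Fin n → ℝ)) (a : Fin n → ℝ) {s : ℝ} (hs : 0 < s)
    (x : Fin n → ℝ) : s • x ∈ cone A a ↔ x ∈ cone A a := by
  simp only [cone, Set.mem_ofPred_eq, dotProduct_smul, smul_eq_mul, mul_pos_iff_of_pos_left hs,
    mul_le_mul_iff_right₀ hs]

private lemma momB_euler {A : Finset (Fin n → ℝ)} (hb : Bornology.IsBounded (poly A))
    {a : Fin n → ℝ} (ha : a ∈ A) {f : (Fin n → ℝ) → ℝ} (hf : Continuous f) (k : ℕ)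
    (hh : ∀ s : ℝ, 0 < s → ∀ x, f (s • x) = s ^ k * f x) (h0 : ∀ x, 0 ≤ f x) :
    ∫ x in cone A a, f x * (a ⬝ᵥ x) * Real.exp (-(a ⬝ᵥ x)) =
      ((n : ℝ) + k) * ∫ x in cone A a, f x * Real.exp (-(a ⬝ᵥ x)) := by
  have i0 := momB_int hb ha hf k hh
  have i1 := momB_int' hb ha hf k hh
  set I0 := ∫ x in cone A a, f x * Real.exp (-(a ⬝ᵥ x)) with hI0
  set I1 := ∫ x in cone A a, f x * (a ⬝ᵥ x) * Real.exp (-(a ⬝ᵥ x)) with hI1
  have key : ∀ s : ℝ, 0 < s → s ^ (n + k) * (I0 - (s - 1) * I1) ≤ I0 := by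
    intro s hs
    have e1 := Measure.setIntegral_comp_smul_of_pos volume
      (fun x => f x * Real.exp (-(a ⬝ᵥ x))) (cone A a) hs
    have e2 : s • cone A a = cone A a := by
      ext x
      rw [mem_smul_set_iff_inv_smul_mem₀ hs.ne', momB_smul A a (inv_pos.2 hs)]
    rw [e2, Module.finrank_fin_fun, smul_eq_mul, ← hI0] at e1
    have i2 : IntegrableOn (fun x => f (s • x) * Real.exp (-(a ⬝ᵥ (s • x)))) (cone A a) :=
      ((integral_exp_gam hb hf k hh).1.comp_smul hs.ne').integrableOn.congr_fun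
        (fun x hx => by simp only [gam_of_mem_cone ha ((momB_smul A a hs x).2 hx)])
        (measurableSet_cone A a)
    have i3 := (i0.sub (i1.const_mul (s - 1))).const_mul (s ^ k)
    have e3 := integral_mono i3 i2 fun x => by
      simp only [Pi.sub_apply, hh s hs, dotProduct_smul, smul_eq_mul, mul_assoc]
      refine mul_le_mul_of_nonneg_left ?_ (by positivity)
      have h1 := Real.add_one_le_exp (-((s - 1) * (a ⬝ᵥ x)))
      have h2 : Real.exp (-(s * (a ⬝ᵥ x))) =
          Real.exp (-(a ⬝ᵥ x)) * Real.exp (-((s - 1) * (a ⬝ᵥ x))) := by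
        rw [← Real.exp_add]; congr 1; ring
      have h3 := mul_le_mul_of_nonneg_left h1 (mul_nonneg (h0 x) (Real.exp_pos (-(a ⬝ᵥ x))).le)
      rw [h2]
      linarith
    rw [e1, integral_const_mul] at e3
    simp only [Pi.sub_apply] at e3
    rw [integral_sub i0 (i1.const_mul _), integral_const_mul, ← hI0, ← hI1,
      le_inv_mul_iff₀ (by positivity)] at e3
    rwa [pow_add, mul_assoc]
  have hm : IsLocalMax (fun s : ℝ => s ^ (n + k) * (I0 - (s - 1) * I1)) 1 := by
    filter_upwards [Ioi_mem_nhds one_pos] with s hs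
    simpa using key s hs
  have hd := (hasDerivAt_pow (n + k) (1 : ℝ)).fun_mul
    ((((hasDerivAt_id' (1 : ℝ)).sub_const 1).mul_const I1).const_sub I0)
  have := hm.hasDerivAt_eq_zero hd
  simp only [one_pow, mul_one, sub_self, zero_mul, sub_zero, one_mul, Nat.cast_add] at this
  linarith

/-- Euler relation on a cone -/
theorem cone_euler {A : Finset (Fin n → ℝ)} (hb : Bornology.IsBounded (poly A)) {a : Fin n → ℝ}
    (ha : a ∈ A) {f : (Fin n → ℝ) → ℝ} (hf : Continuous f) (k : ℕ)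
    (hh : ∀ s : ℝ, 0 < s → ∀ x, f (s • x) = s ^ k * f x) :
    ∫ x in cone A a, f x * (a ⬝ᵥ x) * Real.exp (-(a ⬝ᵥ x)) =
      ((n : ℝ) + k) * ∫ x in cone A a, f x * Real.exp (-(a ⬝ᵥ x)) := by
  have hp : ∀ g : (Fin n → ℝ) → ℝ, (∀ s : ℝ, 0 < s → ∀ x, g (s • x) = s ^ k * g x) →
      ∀ s : ℝ, 0 < s → ∀ x, max (g (s • x)) 0 = s ^ k * max (g x) 0 := fun g hg s hs x => by
    rw [hg s hs, mul_max_of_nonneg _ _ (by positivity), mul_zero]
  have hn : ∀ s : ℝ, 0 < s → ∀ x, -f (s • x) = s ^ k * -f x := fun s hs x => by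
    rw [hh s hs, mul_neg]
  have c1 : Continuous fun x => max (f x) 0 := by fun_prop
  have c2 : Continuous fun x => max (-f x) 0 := by fun_prop
  have e : ∀ x, f x = max (f x) 0 - max (-f x) 0 := fun x => (max_zero_sub_max_neg_zero_eq_self _).symm
  have e1 : ∀ x, f x * (a ⬝ᵥ x) * Real.exp (-(a ⬝ᵥ x)) = max (f x) 0 * (a ⬝ᵥ x) *
      Real.exp (-(a ⬝ᵥ x)) - max (-f x) 0 * (a ⬝ᵥ x) * Real.exp (-(a ⬝ᵥ x)) := fun x => by
    rw [← sub_mul, ← sub_mul, ← e]
  have e2 : ∀ x, f x * Real.exp (-(a ⬝ᵥ x)) = max (f x) 0 *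
      Real.exp (-(a ⬝ᵥ x)) - max (-f x) 0 * Real.exp (-(a ⬝ᵥ x)) := fun x => by
    rw [← sub_mul, ← e]
  simp only [e1]
  simp only [e2]
  rw [integral_sub (momB_int' hb ha c1 k (hp f hh)) (momB_int' hb ha c2 k (hp (fun x => -f x) hn)),
    integral_sub (momB_int hb ha c1 k (hp f hh)) (momB_int hb ha c2 k (hp (fun x => -f x) hn)),
    momB_euler hb ha c1 k (hp f hh) fun _ => le_max_right _ _,
    momB_euler hb ha c2 k (hp (fun x => -f x) hn) fun _ => le_max_right _ _, mul_sub]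

theorem dot_cm1 {A : Finset (Fin n → ℝ)} (hb : Bornology.IsBounded (poly A)) {a : Fin n → ℝ}
    (ha : a ∈ A) : a ⬝ᵥ cm1 A a = n * wt A a := by
  have h := cone_euler hb ha (f := fun _ => 1) continuous_const 0 (by simp)
  have i := fun j => momB_int hb ha (f := fun x => x j) (continuous_apply j) 1 (by simp)
  simp only [one_mul, Nat.cast_zero, add_zero] at h
  rw [wt, ← h]
  simp only [dotProduct, cm1] at i ⊢
  simp only [← integral_const_mul]
  rw [← integral_finsetSum _ fun j _ => (i j).const_mul _]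
  simp only [Finset.sum_mul, mul_assoc]

theorem cm2_mulVec {A : Finset (Fin n → ℝ)} (hb : Bornology.IsBounded (poly A)) {a : Fin n → ℝ}
    (ha : a ∈ A) : cm2 A a *ᵥ a = ((n : ℝ) + 1) • cm1 A a := by
  funext i
  have h := cone_euler hb ha (f := fun x => x i) (continuous_apply i) 1 (by simp)
  have i2 := fun j => momB_int hb ha (f := fun x => x i * x j) (by fun_prop) 2 fun s _ x => by
    simp only [Pi.smul_apply, smul_eq_mul]; ring
  simp only [Nat.cast_one] at h
  rw [Pi.smul_apply, smul_eq_mul, cm1, ← h]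
  simp only [mulVec, cm2, of_apply]
  rw [dotProduct]
  simp only [← integral_mul_const]
  rw [← integral_finsetSum _ fun j _ => (i2 j).mul_const _]
  refine integral_congr_ae (Eventually.of_forall fun x => ?_)
  generalize Real.exp (-(a ⬝ᵥ x)) = E
  simp only [dotProduct, Finset.sum_mul, Finset.mul_sum]
  exact Finset.sum_congr rfl fun j _ => by ring

theorem cm2_psd {A : Finset (Fin n → ℝ)} (hb : Bornology.IsBounded (poly A)) {a : Fin n → ℝ}
    (ha : a ∈ A) : (cm2 A a).PosSemidef := by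
  have i2 := fun i j => momB_int hb ha (f := fun x => x i * x j) (by fun_prop) 2 fun s _ x => by
    simp only [Pi.smul_apply, smul_eq_mul]; ring
  refine PosSemidef.of_dotProduct_mulVec_nonneg ?_ fun v => ?_
  · ext i j
    simp only [conjTranspose_apply, cm2, of_apply, star_trivial, mul_comm]
  · have : star v ⬝ᵥ cm2 A a *ᵥ v = ∫ x in cone A a, (v ⬝ᵥ x) ^ 2 * Real.exp (-(a ⬝ᵥ x)) := by
      have e0 : star v ⬝ᵥ cm2 A a *ᵥ v = ∑ i, ∑ j, v i * (cm2 A a i j * v j) := by
        simp only [star_trivial, dotProduct, mulVec, Finset.mul_sum]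
      rw [e0]
      simp only [cm2, of_apply, ← integral_mul_const]
      simp only [← integral_const_mul]
      rw [← Finset.sum_product', ← integral_finsetSum _ fun p _ =>
        ((i2 p.1 p.2).mul_const _).const_mul _]
      refine integral_congr_ae (Eventually.of_forall fun x => ?_)
      generalize Real.exp (-(a ⬝ᵥ x)) = E
      simp only [Finset.sum_product, dotProduct, sq, Finset.sum_mul, Finset.mul_sum]
      exact Finset.sum_congr rfl fun j _ => Finset.sum_congr rfl fun k _ => by ring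
    rw [this]
    exact integral_nonneg fun x => by positivity

theorem cm2_trace {A : Finset (Fin n → ℝ)} (hb : Bornology.IsBounded (poly A)) (hc : Crit A)
    {a : Fin n → ℝ} (ha : a ∈ A) :
    (cm2 A a).trace = ((n : ℝ) + 2) * (n + 1) * n * wt A a := by
  have hq : ∀ s : ℝ, 0 < s → ∀ x : Fin n → ℝ, (s • x) ⬝ᵥ (s • x) = s ^ 2 * (x ⬝ᵥ x) :=
    fun s _ x => by rw [dotProduct_smul, smul_dotProduct, smul_eq_mul, smul_eq_mul]; ring
  have cq : Continuous fun x : Fin n → ℝ => x ⬝ᵥ x := by fun_prop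
  have h0 := cone_euler hb ha (f := fun _ => 1) continuous_const 0 (by simp)
  have h2 := cone_euler hb ha cq 2 hq
  have i0 := momB_int' hb ha (f := fun _ => 1) continuous_const 0 (by simp)
  have i1 := momB_int' hb ha cq 2 hq
  have i2 := fun i => momB_int hb ha (f := fun x => x i * x i) (by fun_prop) 2 fun s _ x => by
    simp only [Pi.smul_apply, smul_eq_mul]; ring
  have h3 := hc a ha a
  have e : ∀ x : Fin n → ℝ, (a ⬝ᵥ x) * (x ⬝ᵥ x - ((n : ℝ) + 2) ^ 2 * (n + 1)) *
      Real.exp (-(a ⬝ᵥ x)) = x ⬝ᵥ x * (a ⬝ᵥ x) * Real.exp (-(a ⬝ᵥ x)) -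
        ((n : ℝ) + 2) ^ 2 * (n + 1) * (1 * (a ⬝ᵥ x) * Real.exp (-(a ⬝ᵥ x))) := fun x => by ring
  simp only [e] at h3
  rw [integral_sub i1 (i0.const_mul _), integral_const_mul, h0, h2] at h3
  have e2 : (cm2 A a).trace = ∫ x in cone A a, x ⬝ᵥ x * Real.exp (-(a ⬝ᵥ x)) := by
    simp only [trace, Matrix.diag, cm2, of_apply]
    rw [← integral_finsetSum _ fun j _ => i2 j]
    simp only [← Finset.sum_mul]
    rfl
  rw [e2, wt]
  simp only [one_mul, Nat.cast_zero, add_zero, Nat.cast_ofNat] at h3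
  have hn : (n : ℝ) + 2 ≠ 0 := by positivity
  apply mul_left_cancel₀ hn
  linarith

theorem cm_zero {A : Finset (Fin n → ℝ)} (hb : Bornology.IsBounded (poly A)) {a : Fin n → ℝ}
    (ha : a ∈ A) (h0 : wt A a = 0) : cm1 A a = 0 ∧ cm2 A a = 0 := by
  have i0 := momB_int hb ha (f := fun _ => 1) continuous_const 0 (by simp)
  simp only [one_mul] at i0
  have hz : volume (cone A a) = 0 := by
    by_contra h
    refine ((setIntegral_pos_iff_support_of_nonneg_ae
      (Eventually.of_forall fun x => (Real.exp_pos _).le) i0).2 ?_).ne' h0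
    have : Function.support (fun x => Real.exp (-(a ⬝ᵥ x))) = Set.univ := by
      ext x; simp
    rw [this, Set.univ_inter]
    exact pos_iff_ne_zero.2 h
  exact ⟨funext fun i => setIntegral_measure_zero _ hz,
    Matrix.ext fun i j => setIntegral_measure_zero _ hz⟩

end Pool.Agent.P.MP_2e1554_gt
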