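import Pool.Agent.P.MP_2e1554_gt.IsoFace
import Pool.Agent.P.MP_2e1554_gt.IsoMomA
import Pool.Agent.P.MP_2e1554_gt.IsoMomB

open MeasureTheory Set Finset Matrix Filter Topology Pointwise

namespace Pool.Agent.P.MP_2e1554_gt

variable {n : ℕ}

theorem dot_cm1_le {A : Finset (Fin n → ℝ)} (hb : Bornology.IsBounded (poly A)) {a a' : Fin n → ℝ}
    (ha : a ∈ A) (ha' : a' ∈ A) : a' ⬝ᵥ cm1 A a ≤ n * wt A a := by
  have i := fun j => hcone_int hb ha (f := fun x => x j) (continuous_apply j) 1 (by simp)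
  have e : ∀ b : Fin n → ℝ,
      b ⬝ᵥ cm1 A a = ∫ x in cone A a, (b ⬝ᵥ x) * Real.exp (-(a ⬝ᵥ x)) := fun b => by
    generalize hE : (fun x : Fin n → ℝ => Real.exp (-(a ⬝ᵥ x))) = E
    have hE' : ∀ x, Real.exp (-(a ⬝ᵥ x)) = E x := fun x => congrFun hE x
    unfold cm1
    simp only [hE'] at i ⊢
    simp only [dotProduct]
    simp only [← integral_const_mul]
    rw [← integral_finsetSum _ fun j _ => (i j).const_mul _]
    simp only [Finset.sum_mul, mul_assoc]
  have ib := fun b : Fin n → ℝ => hcone_int hb ha (f := fun x => b ⬝ᵥ x) (by fun_prop) 1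
    (fun s _ x => by rw [dotProduct_smul, smul_eq_mul, pow_one])
  rw [← dot_cm1 hb ha, e, e]
  exact setIntegral_mono_on (ib a') (ib a) (measurableSet_cone A a) fun x hx =>
    mul_le_mul_of_nonneg_right (hx.2 a' ha') (Real.exp_pos _).le

theorem wt_le_quarter {A : Finset (Fin 3 → ℝ)} (hA : Iso (poly A)) (hc : Crit A) {a : Fin 3 → ℝ}
    (ha : a ∈ A) : 4 * wt A a ≤ 6 * volume.real (poly A) := by
  by_cases h0 : a = 0
  · subst h0
    rw [wt_zero]
    have := hA.toBody.vol_pos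
    linarith
  refine facet_wlog (n := 2) (P := fun V _ w _ => 4 * w ≤ 6 * V) ?_ hA hc ha h0
  intro B h hB hcB hh hm
  have hb := hB.cpt.isBounded
  have hV := hB.toBody.vol_pos
  rw [wt_hcone hb hh hm]
  simp only [sv, Nat.factorial]
  push_cast
  rcases (measureReal_nonneg : 0 ≤ volume.real (slice (poly B) h)).eq_or_lt with hz | hz
  · rw [← hz]
    linarith
  · have hf := face_of_crit hB hcB hh hm hz
    have h2 := hf.h2
    have key := hf.area 1 (by norm_num) le_rfl (by norm_num; linarith)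
    norm_num at key ⊢
    linarith

lemma fin2_ma {S : Matrix (Fin 3) (Fin 3) ℝ} {a m : Fin 3 → ℝ} (h : S *ᵥ a = m) (u : Fin 3 → ℝ) :
    m ⬝ᵥ u = 5 / 3 * (a ⬝ᵥ u +
      ∑ k, ∑ l, (3 / 5 * S k l - if k = l then 1 else 0) * (u k * a l)) := by
  rw [← h]
  simp [dotProduct, mulVec, Fin.sum_univ_three]
  ring

end Pool.Agent.P.MP_2e1554_gt
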