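import Pool.Agent.P.MP_2e1554_gt.IsoDefs5

open MeasureTheory Set Finset Matrix Filter Topology Pointwise

namespace Pool.Agent.P.MP_2e1554_gt

variable {n : ℕ}

lemma Nm_trace (S : Matrix (Fin 3) (Fin 3) ℝ) :
    Nm S = (((3 / 5 : ℝ) • S - 1) * ((3 / 5 : ℝ) • S - 1)ᵀ).trace := by
  simp only [Nm, Matrix.trace, Matrix.diag, Matrix.mul_apply, Matrix.transpose_apply,
    Matrix.sub_apply, Matrix.smul_apply, Matrix.one_apply, smul_eq_mul, sq]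

lemma Nm_rot {O : Matrix (Fin 3) (Fin 3) ℝ} (hO : Oᵀ * O = 1) (S : Matrix (Fin 3) (Fin 3) ℝ) :
    Nm (O * S * Oᵀ) = Nm S := by
  have hO' : O * Oᵀ = 1 := mul_eq_one_comm.1 hO
  have e : (3 / 5 : ℝ) • (O * S * Oᵀ) - 1 = O * ((3 / 5 : ℝ) • S - 1) * Oᵀ := by
    rw [Matrix.mul_sub, Matrix.sub_mul, Matrix.mul_one, hO', Matrix.mul_smul, Matrix.smul_mul]
  rw [Nm_trace, Nm_trace, e]
  generalize (3 / 5 : ℝ) • S - 1 = M
  rw [Matrix.transpose_mul, Matrix.transpose_mul, Matrix.transpose_transpose]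
  have : O * M * Oᵀ * (O * (Mᵀ * Oᵀ)) = O * (M * Mᵀ * Oᵀ) := by
    rw [Matrix.mul_assoc (O * M), ← Matrix.mul_assoc Oᵀ, hO, Matrix.one_mul]
    simp only [Matrix.mul_assoc]
  rw [this, Matrix.trace_mul_comm, Matrix.mul_assoc, hO, Matrix.mul_one]

end Pool.Agent.P.MP_2e1554_gt
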