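import Pool.Agent.P.MP_2e1554_gt.IsoAff

open MeasureTheory Set Finset Matrix Filter Topology Pointwise

namespace Pool.Agent.P.MP_2e1554_gt

variable {n : ℕ}

lemma norm_cont_dot (a : Fin n → ℝ) : Continuous fun x : Fin n → ℝ => a ⬝ᵥ x :=
  continuous_const.dotProduct continuous_id

lemma norm_zero_int (A : Finset (Fin n → ℝ)) : (0 : Fin n → ℝ) ∈ interior (poly A) := by
  have ho : IsOpen (⋂ a ∈ A, {x : Fin n → ℝ | a ⬝ᵥ x < 1}) :=
    isOpen_biInter_finset fun a _ => isOpen_lt (norm_cont_dot a) continuous_const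
  refine mem_interior.2 ⟨_, fun x hx a ha => ?_, ho, ?_⟩
  · exact le_of_lt (Set.mem_iInter₂.1 hx a ha)
  · exact Set.mem_iInter₂.2 fun a _ => by simp

lemma body_poly {A : Finset (Fin n → ℝ)} (hb : Bornology.IsBounded (poly A)) : Body (poly A) := by
  have hc : IsClosed (poly A) := by
    have : poly A = ⋂ a ∈ A, {x : Fin n → ℝ | a ⬝ᵥ x ≤ 1} := by
      ext x; simp [poly]
    rw [this]
    exact isClosed_biInter fun a _ => isClosed_le (norm_cont_dot a) continuous_const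
  refine ⟨fun x hx y hy s t hs ht hst a ha => ?_, Metric.isCompact_of_isClosed_isBounded hc hb,
    ⟨0, norm_zero_int A⟩⟩
  rw [dotProduct_add, dotProduct_smul, dotProduct_smul, smul_eq_mul, smul_eq_mul]
  nlinarith [mul_le_mul_of_nonneg_left (hx a ha) hs, mul_le_mul_of_nonneg_left (hy a ha) ht]

lemma norm_int_pos {K : Set (Fin n → ℝ)} (hK : IsCompact K) {f : (Fin n → ℝ) → ℝ}
    (hf : Continuous f) (h0 : ∀ x ∈ K, 0 ≤ f x) {x : Fin n → ℝ} (hx : x ∈ interior K)
    (hfx : f x ≠ 0) : 0 < ∫ x in K, f x := by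
  rw [setIntegral_pos_iff_support_of_nonneg_ae
    (ae_restrict_of_forall_mem hK.measurableSet h0) (hf.continuousOn.integrableOn_compact hK)]
  have ho : IsOpen (Function.support f ∩ interior K) :=
    hf.isOpen_support.inter isOpen_interior
  exact (ho.measure_pos volume ⟨x, hfx, hx⟩).trans_le
    (measure_mono (inter_subset_inter_right _ interior_subset))

open scoped MatrixOrder in
lemma norm_whiten {C : Matrix (Fin n) (Fin n) ℝ} (hC : C.PosDef) :
    ∃ T : Matrix (Fin n) (Fin n) ℝ, T.det ≠ 0 ∧ T * C * Tᵀ = 1 := by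
  obtain ⟨B, hB, rfl⟩ := CStarAlgebra.isStrictlyPositive_iff_eq_star_mul_self.mp
    hC.isStrictlyPositive
  have hd : IsUnit B.det := (Matrix.isUnit_iff_isUnit_det B).1 hB
  have hs : star B = Bᵀ := by
    rw [star_eq_conjTranspose, conjTranspose_eq_transpose_of_trivial]
  refine ⟨B⁻¹ᵀ, ?_, ?_⟩
  · rw [det_transpose]
    exact (isUnit_nonsing_inv_det B hd).ne_zero
  · rw [hs, transpose_transpose, ← Matrix.mul_assoc, ← transpose_mul, mul_nonsing_inv _ hd,
      transpose_one, Matrix.one_mul, mul_nonsing_inv _ hd]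

lemma norm_bil {K : Set (Fin n → ℝ)} (hK : IsCompact K) (m a b : Fin n → ℝ) :
    ∫ x in K, (a ⬝ᵥ (x - m)) * (b ⬝ᵥ (x - m)) =
      a ⬝ᵥ ((Matrix.of fun i j => ∫ x in K, (x i - m i) * (x j - m j)) *ᵥ b) := by
  have hi : ∀ i j, IntegrableOn (fun x : Fin n → ℝ => a i * b j * ((x i - m i) * (x j - m j))) K :=
    fun i j => Continuous.continuousOn (by fun_prop) |>.integrableOn_compact hK
  have e : ∀ x : Fin n → ℝ, (a ⬝ᵥ (x - m)) * (b ⬝ᵥ (x - m)) =
      ∑ i, ∑ j, a i * b j * ((x i - m i) * (x j - m j)) := by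
    intro x
    simp only [dotProduct, Finset.sum_mul_sum, Pi.sub_apply]
    exact Finset.sum_congr rfl fun i _ => Finset.sum_congr rfl fun j _ => by ring
  simp only [e]
  rw [integral_finsetSum _ fun i _ => integrable_finsetSum _ fun j _ => hi i j]
  simp only [dotProduct, mulVec, Matrix.of_apply, Finset.mul_sum]
  refine Finset.sum_congr rfl fun i _ => ?_
  rw [integral_finsetSum _ fun j _ => hi i j]
  refine Finset.sum_congr rfl fun j _ => ?_
  rw [integral_const_mul]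
  ring

lemma norm_lin {K : Set (Fin n → ℝ)} (hK : IsCompact K) (m a : Fin n → ℝ)
    (hm : ∀ i, ∫ x in K, (x i - m i) = 0) : ∫ x in K, a ⬝ᵥ (x - m) = 0 := by
  have hi : ∀ i, IntegrableOn (fun x : Fin n → ℝ => a i * (x i - m i)) K :=
    fun i => Continuous.continuousOn (by fun_prop) |>.integrableOn_compact hK
  simp only [dotProduct, Pi.sub_apply]
  rw [integral_finsetSum _ fun i _ => hi i]
  exact Finset.sum_eq_zero fun i _ => by rw [integral_const_mul, hm, mul_zero]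

lemma norm_off {K : Set (Fin n → ℝ)} (hK : (interior K).Nonempty) (m : Fin n → ℝ)
    {u : Fin n → ℝ} (hu : u ≠ 0) : ∃ x ∈ interior K, u ⬝ᵥ (x - m) ≠ 0 := by
  obtain ⟨x, hx⟩ := hK
  by_cases h : u ⬝ᵥ (x - m) = 0
  · have hc : Continuous fun t : ℝ => x + t • u := by fun_prop
    have h1 : ∀ᶠ t : ℝ in 𝓝 0, x + t • u ∈ interior K :=
      hc.continuousAt.eventually_mem (by simpa using isOpen_interior.mem_nhds hx)
    obtain ⟨t, ht, ht0⟩ := ((h1.filter_mono nhdsWithin_le_nhds).and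
      (self_mem_nhdsWithin (s := ({0}ᶜ : Set ℝ)))).exists
    refine ⟨_, ht, ?_⟩
    have : x + t • u - m = (x - m) + t • u := by abel
    rw [this, dotProduct_add, h, zero_add, dotProduct_smul, smul_eq_mul]
    exact mul_ne_zero ht0 fun h2 => hu (dotProduct_self_eq_zero.1 h2)
  · exact ⟨x, hx, h⟩

theorem exists_iso {K : Set (Fin n → ℝ)} (hK : Body K) :
    ∃ (T : Matrix (Fin n) (Fin n) ℝ) (c : Fin n → ℝ), T.det ≠ 0 ∧ Iso (aff T c K) := by
  have hV := hK.vol_pos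
  set V := volume.real K with hVdef
  set m : Fin n → ℝ := fun i => V⁻¹ * ∫ x in K, x i with hmdef
  have hm : ∀ i, ∫ x in K, (x i - m i) = 0 := by
    intro i
    rw [integral_sub ((continuous_apply i).continuousOn.integrableOn_compact hK.cpt)
      (continuous_const.continuousOn.integrableOn_compact hK.cpt), setIntegral_const,
      smul_eq_mul, hmdef]
    simp only
    rw [← hVdef, ← mul_assoc, mul_inv_cancel₀ hV.ne', one_mul, sub_self]
  set G : Matrix (Fin n) (Fin n) ℝ := Matrix.of fun i j => ∫ x in K, (x i - m i) * (x j - m j)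
    with hG
  have hGp : G.PosDef := by
    refine PosDef.of_dotProduct_mulVec_pos ?_ fun u hu => ?_
    · ext i j
      simp [hG, mul_comm]
    · rw [star_trivial, hG, ← norm_bil hK.cpt]
      obtain ⟨x, hx, hx0⟩ := norm_off hK.int m hu
      have hc : Continuous fun x : Fin n → ℝ => u ⬝ᵥ (x - m) :=
        (norm_cont_dot u).comp (continuous_id.sub continuous_const)
      exact norm_int_pos hK.cpt (hc.mul hc) (fun x _ => mul_self_nonneg _) hx
        (mul_ne_zero hx0 hx0)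
  obtain ⟨T, hT, hTC⟩ := norm_whiten (hGp.smul (inv_pos.2 hV))
  have e : ∀ (x : Fin n → ℝ) i, (T *ᵥ x + -(T *ᵥ m)) i = T i ⬝ᵥ (x - m) := by
    intro x i
    rw [← sub_eq_add_neg, ← mulVec_sub]
    rfl
  refine ⟨T, -(T *ᵥ m), hT, hK.aff hT _, fun i => ?_, fun i j => ?_⟩
  · rw [integral_aff hK.cpt.measurableSet hT _ fun x => x i]
    simp only [e]
    rw [norm_lin hK.cpt m _ hm, mul_zero]
  · rw [integral_aff hK.cpt.measurableSet hT _ fun x => x i * x j]
    simp only [e]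
    rw [norm_bil hK.cpt, vol_aff, ← hG, ← hVdef]
    have h1 : T i ⬝ᵥ (G *ᵥ T j) = (T * G * Tᵀ) i j := by
      rw [Matrix.mul_assoc]
      rfl
    have h2 : T * G * Tᵀ = V • (1 : Matrix (Fin n) (Fin n) ℝ) := by
      rw [← hTC, Matrix.mul_smul, Matrix.smul_mul, smul_smul, mul_inv_cancel₀ hV.ne', one_smul]
    rw [h1, h2, Matrix.smul_apply, Matrix.one_apply]
    split_ifs <;> simp

theorem exists_poly_iso {A : Finset (Fin n → ℝ)} (hb : Bornology.IsBounded (poly A)) :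
    ∃ (A' : Finset (Fin n → ℝ)) (T : Matrix (Fin n) (Fin n) ℝ) (c : Fin n → ℝ),
      T.det ≠ 0 ∧ A'.card ≤ A.card ∧ poly A' = aff T c (poly A) ∧ Iso (poly A') := by
  classical
  have hP := body_poly hb
  obtain ⟨T, c, hT, hI⟩ := exists_iso hP
  have hTu : IsUnit T.det := Ne.isUnit hT
  have e : ∀ a x : Fin n → ℝ, (a ᵥ* T⁻¹) ⬝ᵥ (T *ᵥ x + c) = a ⬝ᵥ x + (a ᵥ* T⁻¹) ⬝ᵥ c := by
    intro a x
    rw [dotProduct_add, ← dotProduct_mulVec, mulVec_mulVec, nonsing_inv_mul _ hTu, one_mulVec]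
  have hpos : ∀ a ∈ A, 0 < 1 + (a ᵥ* T⁻¹) ⬝ᵥ c := by
    intro a ha
    have h1 : 0 < ∫ x in poly A, (1 - a ⬝ᵥ x) :=
      norm_int_pos hP.cpt (continuous_const.sub (norm_cont_dot a))
        (fun x hx => sub_nonneg.2 (hx a ha)) (norm_zero_int A) (by simp)
    have h2 := integral_aff hP.cpt.measurableSet hT c
      fun y => 1 + (a ᵥ* T⁻¹) ⬝ᵥ c - (a ᵥ* T⁻¹) ⬝ᵥ y
    have h3 : ∀ x : Fin n → ℝ, 1 + (a ᵥ* T⁻¹) ⬝ᵥ c - (a ᵥ* T⁻¹) ⬝ᵥ (T *ᵥ x + c) = 1 - a ⬝ᵥ x := by
      intro x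
      rw [e]
      ring
    simp only [h3] at h2
    rw [integral_sub (continuous_const.continuousOn.integrableOn_compact hI.cpt)
      ((norm_cont_dot _).continuousOn.integrableOn_compact hI.cpt), hI.int_dot, sub_zero,
      setIntegral_const, smul_eq_mul] at h2
    have h4 : 0 < |T.det| * ∫ x in poly A, (1 - a ⬝ᵥ x) := mul_pos (abs_pos.2 hT) h1
    rw [← h2] at h4
    exact (mul_pos_iff_of_pos_left hI.toBody.vol_pos).1 h4
  have hiff : ∀ a ∈ A, ∀ x : Fin n → ℝ,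
      ((1 + (a ᵥ* T⁻¹) ⬝ᵥ c)⁻¹ • (a ᵥ* T⁻¹)) ⬝ᵥ (T *ᵥ x + c) ≤ 1 ↔ a ⬝ᵥ x ≤ 1 := by
    intro a ha x
    rw [smul_dotProduct, smul_eq_mul, inv_mul_le_iff₀ (hpos a ha), e, mul_one]
    exact add_le_add_iff_right _
  have heq : poly (A.image fun a => (1 + (a ᵥ* T⁻¹) ⬝ᵥ c)⁻¹ • (a ᵥ* T⁻¹)) = aff T c (poly A) := by
    ext y
    constructor
    · intro hy
      have hy' : T *ᵥ (T⁻¹ *ᵥ (y - c)) + c = y := by
        rw [mulVec_mulVec, mul_nonsing_inv _ hTu, one_mulVec, sub_add_cancel]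
      refine ⟨T⁻¹ *ᵥ (y - c), fun a ha => (hiff a ha _).1 ?_, hy'⟩
      rw [hy']
      exact hy _ (Finset.mem_image_of_mem _ ha)
    · rintro ⟨x, hx, rfl⟩ a' ha'
      obtain ⟨a, ha, rfl⟩ := Finset.mem_image.1 ha'
      exact (hiff a ha x).2 (hx a ha)
  exact ⟨_, T, c, hT, Finset.card_image_le, heq, heq ▸ hI⟩

/-- normalisation to volume one and centroid zero -/
theorem exists_unit {K : Set (Fin n → ℝ)} (hn : 1 ≤ n) (hK : Body K) :
    ∃ (T : Matrix (Fin n) (Fin n) ℝ) (c : Fin n → ℝ), T.det ≠ 0 ∧ volume (aff T c K) = 1 ∧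
      ∀ i, ∫ x in aff T c K, x i = 0 := by
  obtain ⟨T, c, hT, hI⟩ := exists_iso hK
  have hV := hI.toBody.vol_pos
  set s : ℝ := (volume.real (aff T c K))⁻¹ ^ ((n : ℝ)⁻¹) with hs
  have hs0 : 0 < s := Real.rpow_pos_of_pos (inv_pos.2 hV) _
  have hsn : s ^ n = (volume.real (aff T c K))⁻¹ :=
    Real.rpow_inv_natCast_pow (inv_pos.2 hV).le (by omega)
  have hd : (s • T).det = s ^ n * T.det := by rw [det_smul, Fintype.card_fin]
  have hd0 : (s • T).det ≠ 0 := by
    rw [hd]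
    exact mul_ne_zero (pow_ne_zero _ hs0.ne') hT
  refine ⟨s • T, s • c, hd0, ?_, fun i => ?_⟩
  · rw [← ENNReal.toReal_eq_one_iff]
    change volume.real (aff (s • T) (s • c) K) = 1
    rw [vol_aff, hd, abs_mul, abs_of_pos (pow_pos hs0 n), mul_assoc, ← vol_aff K T c, hsn,
      inv_mul_cancel₀ hV.ne']
  · have h1 := hI.m1 i
    rw [integral_aff hK.cpt.measurableSet hT c fun x => x i] at h1
    have h2 := (mul_eq_zero.1 h1).resolve_left (abs_pos.2 hT).ne'
    rw [integral_aff hK.cpt.measurableSet hd0 _ fun x => x i]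
    have e : ∀ x : Fin n → ℝ, ((s • T) *ᵥ x + s • c) i = s * (T *ᵥ x + c) i := by
      intro x
      rw [smul_mulVec, ← smul_add]
      rfl
    simp only [e]
    rw [integral_const_mul, h2, mul_zero, mul_zero]

end Pool.Agent.P.MP_2e1554_gt
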