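import Pool.Agent.P.MP_2e1554_gt.LocE

open MeasureTheory Set Finset Matrix

namespace Pool.Agent.P.MP_2e1554_gt

variable {n : ℕ}

lemma eta_le (n : ℕ) : eta n ≤ 1 := by
  unfold eta
  have h1 : Real.exp (-2) ≤ 1 := Real.exp_le_one_iff.2 (by norm_num)
  have h2 : (eps n / (n + 1)) ^ (n + 1) ≤ 1 := by
    have := eps_pos n
    refine pow_le_one₀ (by positivity) ?_
    rw [div_le_one (by positivity)]
    have h3 : (0 : ℝ) ≤ n := by positivity
    linarith [eps_le n]
  have := eps_pos n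
  exact mul_le_one₀ h1 (by positivity) h2

lemma adm_of_near (hn : 1 ≤ n) {v : Fin (n + 1) → Fin n → ℝ} (hv : (vmat v).det ≠ 0) :
    ∃ δ : ℝ, 0 < δ ∧ ∀ K : Set (Fin n → ℝ), volume (convexHull ℝ (Set.range v)) = 1 →
      (∀ x ∈ K, ∃ y ∈ convexHull ℝ (Set.range v), dist x y < δ) →
      ∃ M, Adm K M ∧ 1 - eta n < |M.det| * n.factorial ∧ M.det ≠ 0 := by
  set M0 := (vmat v)⁻¹ with hM0
  set L : ℝ := 1 + ∑ i, ∑ j, |M0 i (Fin.succ j)| with hL
  have hL0 : 0 < L := by positivity
  set ρ := eta n / (n + 1) with hρ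
  have he := eta_pos n
  have he1 := eta_le n
  have hn' : (1 : ℝ) ≤ n := by exact_mod_cast hn
  have hρ0 : 0 < ρ := by positivity
  have hρ1 : (n + 1) * ρ = eta n := by rw [hρ]; field_simp
  have hρ2 : ρ ≤ 1 / 2 := by nlinarith
  refine ⟨ρ / (n + 1) / L, by positivity, fun K h1 hK => ?_⟩
  have e0 := simplex_vol hv
  rw [Measure.real, h1, ENNReal.toReal_one, mul_one] at e0
  have hcol : ∀ u, ∑ i, (M0 *ᵥ u) i = u 0 := inv_col hv (vmat_col v)
  set R : Matrix (Fin (n + 1)) (Fin (n + 1)) ℝ :=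
    (1 - ρ) • (1 + Matrix.of fun _ _ => ρ / (n + 1) / (1 - ρ)) with hR
  have h1ρ : 0 < 1 - ρ := by linarith
  have hRd : R.det = (1 - ρ) ^ n := by
    rw [hR, det_smul, det_one_add_const, Fintype.card_fin, pow_succ]
    push_cast
    field_simp
    ring
  have hRv : ∀ y i, (R *ᵥ y) i = (1 - ρ) * y i + ρ / (n + 1) * ∑ j, y j := by
    intro y i
    rw [hR, smul_mulVec, add_mulVec, one_mulVec]
    simp only [Pi.smul_apply, Pi.add_apply, smul_eq_mul, mulVec, dotProduct, of_apply,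
      ← Finset.mul_sum]
    field_simp
  have hd : |(R * M0).det| * n.factorial = (1 - ρ) ^ n := by
    rw [det_mul, abs_mul, hRd, abs_of_pos (by positivity), mul_assoc, e0, mul_one]
  refine ⟨R * M0, ⟨fun u => ?_, fun x hx i => ?_⟩, ?_, ?_⟩
  · simp only [← mulVec_mulVec, hRv, Finset.sum_add_distrib, ← Finset.mul_sum, hcol,
      Finset.sum_const, Finset.card_univ, Fintype.card_fin, nsmul_eq_mul]
    push_cast
    field_simp
    ring
  · obtain ⟨y, hy, hxy⟩ := hK x hx
    have a1 := (mem_simplex_iff hv y).1 hy i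
    rw [← mulVec_mulVec, hRv, hcol, ins_same]
    rw [← hM0, lift_apply] at a1
    rw [lift_apply]
    simp only [Pi.zero_apply] at a1 ⊢
    have a2 : ∑ j, M0 i (Fin.succ j) * y j - ∑ j, M0 i (Fin.succ j) * x j ≤
        (∑ j, |M0 i (Fin.succ j)|) * (ρ / (n + 1) / L) := by
      rw [← Finset.sum_sub_distrib, Finset.sum_mul]
      refine Finset.sum_le_sum fun j _ => ?_
      have b1 : |y j - x j| ≤ ρ / (n + 1) / L := by
        rw [abs_sub_comm, ← Real.dist_eq]
        exact (dist_le_pi_dist x y j).trans hxy.le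
      rw [← mul_sub]
      refine (le_abs_self _).trans ?_
      rw [abs_mul]
      gcongr
    have a3 : ∑ j, |M0 i (Fin.succ j)| ≤ L := by
      have := Finset.single_le_sum (f := fun i => ∑ j, |M0 i (Fin.succ j)|)
        (fun i _ => Finset.sum_nonneg fun j _ => abs_nonneg _) (Finset.mem_univ i)
      linarith
    have a4 : (∑ j, |M0 i (Fin.succ j)|) * (ρ / (n + 1) / L) ≤ ρ / (n + 1) := by
      refine (mul_le_mul_of_nonneg_right a3 (by positivity)).trans (le_of_eq ?_)
      field_simp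
    have a5 : 0 < ρ / (n + 1) := by positivity
    nlinarith
  · rw [hd]
    have := one_add_mul_le_pow (show (-2 : ℝ) ≤ -ρ by linarith) n
    rw [← sub_eq_add_neg] at this
    nlinarith
  · intro h
    rw [h, abs_zero, zero_mul] at hd
    exact (pow_pos h1ρ n).ne hd

theorem loc_main (n : ℕ) (hn : 1 ≤ n) :
    ∃ η : ℝ, 0 < η ∧ ∀ v : Fin (n + 1) → Fin n → ℝ, AffineIndependent ℝ v →
      ∃ δ : ℝ, 0 < δ ∧ ∀ K : Set (Fin n → ℝ), Convex ℝ K → IsCompact K → (interior K).Nonempty →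
        volume K = 1 → (∀ i, ∫ x in K, x i = 0) →
        ((K ⊆ convexHull ℝ (Set.range v) ∧
            volume (convexHull ℝ (Set.range v)) ≤ ENNReal.ofReal (1 + η)) ∨
          (volume (convexHull ℝ (Set.range v)) = 1 ∧
            Metric.hausdorffDist K (convexHull ℝ (Set.range v)) < δ)) →
        (Matrix.of fun i j : Fin n => ∫ x in K, x i * x j).det ≤
            (n.factorial : ℝ) ^ 2 / ((n + 1) ^ (n + 1) * (n + 2) ^ n) ∧
          ((Matrix.of fun i j : Fin n => ∫ x in K, x i * x j).det =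
            (n.factorial : ℝ) ^ 2 / ((n + 1) ^ (n + 1) * (n + 2) ^ n) ↔
            ∃ w : Fin (n + 1) → Fin n → ℝ, AffineIndependent ℝ w ∧
              K = convexHull ℝ (Set.range w)) ∧
          ∃ w : Fin (n + 1) → Fin n → ℝ, AffineIndependent ℝ w ∧
            K ⊆ convexHull ℝ (Set.range w) ∧
            (Matrix.of fun i j : Fin n => ∫ x in K, x i * x j).det ≤
              (n.factorial : ℝ) ^ 2 / ((n + 1) ^ (n + 1) * (n + 2) ^ n) *
                Real.exp (-(((volume (convexHull ℝ (Set.range w))).toReal - 1) / 4 ^ (n + 1))) := by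
  refine ⟨eta n, eta_pos n, fun v hv => ?_⟩
  rw [affInd_iff] at hv
  obtain ⟨δ, hδ, hnear⟩ := adm_of_near hn hv
  refine ⟨δ, hδ, fun K hc hK hi h1 hz h => ?_⟩
  rcases h with ⟨h2, h3⟩ | ⟨h2, h3⟩
  · have hd0 : ((vmat v)⁻¹).det ≠ 0 := by rw [det_nonsing_inv]; simpa using hv
    refine local_max hn hc hK hi h1 hz (M0 := (vmat v)⁻¹)
      ⟨inv_col hv (vmat_col v), fun x hx => (mem_simplex_iff hv x).1 (h2 hx)⟩ ?_ hd0
    have e0 := simplex_vol hv
    have he := eta_pos n
    have h4 : volume.real (convexHull ℝ (Set.range v)) ≤ 1 + eta n :=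
      ENNReal.toReal_le_of_le_ofReal (by linarith) h3
    have h5 : 0 < |((vmat v)⁻¹).det| * n.factorial := by
      have := abs_pos.2 hd0
      positivity
    by_contra hc
    push Not at hc
    nlinarith [mul_le_mul_of_nonneg_left h4 h5.le]
  · have hne : (convexHull ℝ (Set.range v)).Nonempty :=
      ⟨v 0, subset_convexHull ℝ _ ⟨0, rfl⟩⟩
    obtain ⟨M, a1, a2, a3⟩ := hnear K h2 fun x hx =>
      Metric.exists_dist_lt_of_hausdorffDist_lt hx h3
        (Metric.hausdorffEDist_ne_top_of_nonempty_of_bounded (hi.mono interior_subset) hne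
          hK.isBounded (compact_simplex v).isBounded)
    exact local_max hn hc hK hi h1 hz a1 a2 a3

end Pool.Agent.P.MP_2e1554_gt
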