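import Pool.Agent.P.MP_2e1554_gt.IsoCone
import Pool.Agent.P.MP_2e1554_gt.IsoNorm
import Pool.Agent.P.MP_2e1554_gt.LocF

open MeasureTheory Set Finset Matrix Filter Topology Pointwise

namespace Pool.Agent.P.MP_2e1554_gt

variable {n : ℕ}

lemma sum_sol_three {A : Finset (Fin 3 → ℝ)} (hA : Iso (poly A)) :
    ∑ a ∈ A, 60 * Real.sqrt 5 * sol A a = 6 * Real.pi * (40 * Real.sqrt 5 / 3) := by
  rw [← Finset.mul_sum, sum_sol (by norm_num) hA.cpt.isBounded, vol_ball_three]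
  ring

lemma sum_wt_three {A : Finset (Fin 3 → ℝ)} (hA : Iso (poly A)) :
    ∑ a ∈ A, wt A a = 6 * volume.real (poly A) := by
  rw [sum_wt (by norm_num) hA.cpt.isBounded]
  norm_num [Nat.factorial]

lemma vT_sq : (40 * Real.sqrt 5 / 3) ^ 2 = 8000 / 9 := by
  rw [div_pow, mul_pow, Real.sq_sqrt (by norm_num)]
  norm_num

lemma one_le_vT : 1 ≤ 40 * Real.sqrt 5 / 3 := by
  have : (1 : ℝ) ≤ Real.sqrt 5 := Real.one_le_sqrt.2 (by norm_num)
  linarith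

lemma const_three : ((Nat.factorial 3 : ℕ) : ℝ) ^ 2 /
    ((((3 : ℕ) : ℝ) + 1) ^ (3 + 1) * (((3 : ℕ) : ℝ) + 2) ^ 3) = 9 / 8000 := by
  norm_num [Nat.factorial]

lemma near_loc_main : ∃ η₀ : ℝ, 0 < η₀ ∧ ∀ P : Set (Fin 3 → ℝ), Body P → Near η₀ P →
    (Jv P = 9 / 8000 →
      ∃ w : Fin 4 → Fin 3 → ℝ, AffineIndependent ℝ w ∧ P = convexHull ℝ (Set.range w)) ∧
    ∀ η : ℝ, ¬ Near η P → Jv P ≤ 9 / 8000 * Real.exp (-(η / 256)) := by
  obtain ⟨η₀, h0, H⟩ := loc_main 3 (by norm_num)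
  refine ⟨η₀, h0, fun P hP hN => ?_⟩
  obtain ⟨T, c, hT, hv, hz⟩ := exists_unit (by norm_num) hP
  have hP' := hP.aff hT c
  have hT' : T⁻¹.det ≠ 0 := by
    rw [det_nonsing_inv]
    simpa using hT
  have hv' : volume.real (aff T c P) = 1 := by rw [Measure.real, hv, ENNReal.toReal_one]
  obtain ⟨w, hw, hs, hlt⟩ := hN.aff hT c
  obtain ⟨δ, -, H2⟩ := H w hw
  rw [hv', mul_one] at hlt
  have hle : volume (convexHull ℝ (Set.range w)) ≤ ENNReal.ofReal (1 + η₀) := by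
    rw [← ENNReal.ofReal_toReal (compact_simplex w).measure_lt_top.ne]
    exact ENNReal.ofReal_le_ofReal hlt.le
  obtain ⟨-, h2, w', hw', hs', h3⟩ := H2 _ hP'.cvx hP'.cpt hP'.int hv hz (Or.inl ⟨hs, hle⟩)
  rw [const_three, ← Jv_norm hv hz, Jv_aff hP hT] at h2 h3
  constructor
  · intro hJ
    obtain ⟨u, hu, e⟩ := h2.1 hJ
    obtain ⟨h4, h5⟩ := aff_simplex hT' (-(T⁻¹ *ᵥ c)) hu
    exact ⟨_, h4, by rw [← h5, ← e, aff_inv P hT]⟩
  · intro η hn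
    have hn' : ¬ Near η (aff T c P) := fun h => hn (by
      have := h.aff hT' (-(T⁻¹ *ᵥ c))
      rwa [aff_inv P hT] at this)
    have h4 : 1 + η ≤ (volume (convexHull ℝ (Set.range w'))).toReal := by
      by_contra hlt'
      exact hn' ⟨w', hw', hs', by rw [hv', mul_one]; exact not_le.1 hlt'⟩
    refine h3.trans (mul_le_mul_of_nonneg_left (Real.exp_le_exp.2 ?_) (by norm_num))
    norm_num
    linarith

theorem barrier : ∃ η η' β : ℝ, 0 < η ∧ η < η' ∧ β < 9 / 8000 ∧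
    (∀ P : Set (Fin 3 → ℝ), Body P → ¬ Near η P → Near η' P → Jv P ≤ β) ∧
    ∀ P : Set (Fin 3 → ℝ), Body P → Near η' P → Jv P = 9 / 8000 →
      ∃ w : Fin 4 → Fin 3 → ℝ, AffineIndependent ℝ w ∧ P = convexHull ℝ (Set.range w) := by
  obtain ⟨η₀, h0, H⟩ := near_loc_main
  refine ⟨η₀ / 2, η₀, 9 / 8000 * Real.exp (-(η₀ / 2 / 256)), by linarith, by linarith, ?_,
    fun P hP h1 h2 => (H P hP h2).2 _ h1, fun P hP h1 => (H P hP h1).1⟩
  have : Real.exp (-(η₀ / 2 / 256)) < 1 := Real.exp_lt_one_iff.2 (by linarith)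
  linarith

end Pool.Agent.P.MP_2e1554_gt
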