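import Pool.Agent.P.MP_2e1554_gt.IsoAlgT
import Pool.Agent.P.MP_2e1554_gt.IsoDet
import Pool.Agent.P.MP_2e1554_gt.IsoFin
import Pool.Agent.P.MP_2e1554_gt.IsoFin2
import Pool.Agent.P.MP_2e1554_gt.IsoFour3
import Pool.Agent.P.MP_2e1554_gt.IsoMain

/-! Counting with the two-branch face lemma. -/

open MeasureTheory Set Finset Matrix Filter Topology Pointwise

namespace Pool.Agent.P.MP_2e1554_gt

lemma Ph_rot {O : Matrix (Fin 3) (Fin 3) ℝ} (hO : Oᵀ * O = 1) (a : Fin 3 → ℝ)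
    (S : Matrix (Fin 3) (Fin 3) ℝ) : Ph (O *ᵥ a) (O * S * Oᵀ) = Ph a S := by
  have e : (O * S * Oᵀ) *ᵥ (O *ᵥ a) = O *ᵥ (S *ᵥ a) := by
    rw [Matrix.mulVec_mulVec, Matrix.mul_assoc, hO, Matrix.mul_one, Matrix.mulVec_mulVec]
  rw [Ph, Ph, e, rot_dot hO, rot_dot hO]

theorem facet_wlog4 {P : ℝ → ℝ → ℝ → ℝ → ℝ → Prop}
    (H : ∀ (A : Finset (Fin 3 → ℝ)) (h : ℝ), Iso (poly A) → Crit A → 0 < h →
      Pi.single 0 h⁻¹ ∈ A → P (volume.real (poly A))
        (Nm ((12 * wt A (Pi.single 0 h⁻¹))⁻¹ • cm2 A (Pi.single 0 h⁻¹)))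
        (Ph (Pi.single 0 h⁻¹) ((12 * wt A (Pi.single 0 h⁻¹))⁻¹ • cm2 A (Pi.single 0 h⁻¹)))
        (wt A (Pi.single 0 h⁻¹)) (sol A (Pi.single 0 h⁻¹)))
    {A : Finset (Fin 3 → ℝ)} (hA : Iso (poly A)) (hc : Crit A) {a : Fin 3 → ℝ}
    (ha : a ∈ A) (h0 : a ≠ 0) :
    P (volume.real (poly A)) (Nm ((12 * wt A a)⁻¹ • cm2 A a)) (Ph a ((12 * wt A a)⁻¹ • cm2 A a))
      (wt A a) (sol A a) := by
  classical
  obtain ⟨O, hO, hOa⟩ := exists_rot (n := 2) a
  have hpos : 0 < a ⬝ᵥ a :=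
    lt_of_le_of_ne (rot_self_nonneg a) fun h => h0 (dotProduct_self_eq_zero.mp h.symm)
  have key := H (A.image fun a => O *ᵥ a) (Real.sqrt (a ⬝ᵥ a))⁻¹
    (by rw [poly_rot A hO]; exact hA.rot hO) (hc.rot hO)
    (inv_pos.mpr (Real.sqrt_pos.mpr hpos))
    (by rw [inv_inv, ← hOa]; exact Finset.mem_image_of_mem _ ha)
  rw [inv_inv, ← hOa, wt_rot A a hO, sol_rot A a hO, det_rot hA.cpt.isBounded ha hO,
    poly_rot A hO, rot_vol _ hO, ← Matrix.smul_mul, ← Matrix.mul_smul, Nm_rot hO,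
    Ph_rot hO] at key
  exact key

lemma four4_face {th₀ th thb kap lam s a₁ t₀ ε : ℝ}
    (H : ∀ (V h : ℝ) (F : Set (Fin 2 → ℝ)), 0 < V → V ^ 2 ≤ 8000 / 9 + ε → Face V h F →
      h * volume.real F ≤ t₀ * (10 * Real.sqrt 5) →
      h * sa h F ≤ Real.pi * (min (min th₀ (thb - kap * Nm (Sm h F)))
          (th + lam * (4 - Ph (Pi.single 0 h⁻¹) (Sm h F)) / 3) *
        (h * volume.real F / (10 * Real.sqrt 5))) ∨
      h * sa h F ≤ Real.pi * (th₀ * (h * volume.real F / (10 * Real.sqrt 5)) +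
        s * (h * volume.real F / (10 * Real.sqrt 5) - a₁)))
    {A : Finset (Fin 3 → ℝ)} (hA : Iso (poly A)) (hc : Crit A) {a : Fin 3 → ℝ} (ha : a ∈ A)
    (hV : volume.real (poly A) ^ 2 ≤ 8000 / 9 + ε) (ht : wt A a / (20 * Real.sqrt 5) ≤ t₀) :
    3 * sol A a ≤ Real.pi * (min (min th₀ (thb - kap * Nm ((12 * wt A a)⁻¹ • cm2 A a)))
        (th + lam * (4 - Ph a ((12 * wt A a)⁻¹ • cm2 A a)) / 3) * (wt A a / (20 * Real.sqrt 5))) ∨
      3 * sol A a ≤ Real.pi * (th₀ * (wt A a / (20 * Real.sqrt 5)) +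
        s * (wt A a / (20 * Real.sqrt 5) - a₁)) := by
  by_cases h0 : a = 0
  · subst h0
    left
    rw [sol_zero, wt_zero]
    simp only [mul_zero, zero_div, le_refl]
  refine facet_wlog4 (P := fun V N Q w so => V ^ 2 ≤ 8000 / 9 + ε → w / (20 * Real.sqrt 5) ≤ t₀ →
    3 * so ≤ Real.pi * (min (min th₀ (thb - kap * N)) (th + lam * (4 - Q) / 3) *
      (w / (20 * Real.sqrt 5))) ∨
    3 * so ≤ Real.pi * (th₀ * (w / (20 * Real.sqrt 5)) + s * (w / (20 * Real.sqrt 5) - a₁)))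
    ?_ hA hc ha h0 hV ht
  intro B h hB hcB hh hm hq hw
  have hb := hB.cpt.isBounded
  have e0 : wt B (Pi.single 0 h⁻¹) = 2 * (h * volume.real (slice (n := 2) (poly B) h)) := by
    rw [wt_hcone (n := 2) hb hh hm]
    simp only [sv, Nat.factorial]
    push_cast
    ring
  have e1 : wt B (Pi.single 0 h⁻¹) / (20 * Real.sqrt 5) =
      h * volume.real (slice (n := 2) (poly B) h) / (10 * Real.sqrt 5) := by
    rw [e0]
    field_simp
    ring
  have e2 : 3 * sol B (Pi.single 0 h⁻¹) = h * sa h (slice (n := 2) (poly B) h) := by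
    rw [sol_hcone (n := 2) hb hh hm]
    simp only [sa]
    push_cast
    norm_num
    ring
  rw [e1] at hw
  rw [e1, e2]
  rcases (measureReal_nonneg : 0 ≤ volume.real (slice (n := 2) (poly B) h)).eq_or_lt with hz | hz
  · have hz' : volume (slice (n := 2) (poly B) h) = 0 :=
      (measureReal_eq_zero_iff (slice_compact hB.cpt h).measure_lt_top.ne).1 hz.symm
    left
    rw [← hz, sa, setIntegral_measure_zero _ hz']
    simp only [mul_zero, zero_div, le_refl]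
  · have e3 : (12 * wt B (Pi.single 0 h⁻¹))⁻¹ • cm2 B (Pi.single 0 h⁻¹) =
        Sm h (slice (n := 2) (poly B) h) := by
      ext i j
      rw [Matrix.smul_apply, det_hcone (n := 2) hb hh hm, e0, Sm, Matrix.of_apply, smul_eq_mul]
      simp only [Nat.factorial]
      push_cast
      field_simp
      ring
    rw [e3]
    exact H _ _ _ hB.toBody.vol_pos hq (face_of_crit hB hcB hh hm hz)
      ((div_le_iff₀ (by positivity)).1 hw)

/-- the three-facet inequality for a critical polytope -/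
theorem crit_three {A : Finset (Fin 3 → ℝ)} (hA : Iso (poly A)) (hc : Crit A)
    (B : Finset (Fin 3 → ℝ)) (hB : B ⊆ A) (c : Fin 3 → Fin 3 → ℝ)
    (hcB : ∀ k ∈ A, k ∉ B → ∃ i, k = c i) :
    1 ≤ ∑ k ∈ B, wt A k / (6 * volume.real (poly A)) * Ph k ((12 * wt A k)⁻¹ • cm2 A k) := by
  have hV := hA.toBody.vol_pos
  have hb := hA.cpt.isBounded
  have hsw := sum_wt_three hA
  have s1 := fun i => sum_cm1 (n := 3) (by norm_num) hA i
  have s2 := fun i j => sum_cm2 (n := 3) (by norm_num) hA i j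
  have s3 := fun i j => sum_a_cm1 (n := 3) (by norm_num) hA i j
  have s4 := fun l i j => sum_a_cm2 (n := 3) (by norm_num) hA l i j
  have hfac : ∀ a ∈ A, a ⬝ᵥ a ≤ 3 / 5 := fun a ha => hA.facet_three fun x hx => hx a ha
  generalize volume.real (poly A) = V at *
  have h6V : 0 < 6 * V := by positivity
  have hf : ∀ k ∈ A, wt A k / (6 * V) ≠ 0 → k ⬝ᵥ k ≤ 3 / 5 ∧
      ((12 * wt A k)⁻¹ • cm2 A k).PosSemidef ∧ ((12 * wt A k)⁻¹ • cm2 A k).trace = 5 ∧
      ((12 * wt A k)⁻¹ • cm2 A k) *ᵥ k = (3 * wt A k)⁻¹ • cm1 A k ∧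
      k ⬝ᵥ ((3 * wt A k)⁻¹ • cm1 A k) = 1 := fun k hk hμ => by
    have h0 : wt A k ≠ 0 := fun h => hμ (by simp [h])
    have hw : 0 < wt A k := lt_of_le_of_ne (wt_nonneg A k) (Ne.symm h0)
    refine ⟨hfac k hk, (cm2_psd hb hk).smul (by positivity), ?_, ?_, ?_⟩
    · rw [Matrix.trace_smul, cm2_trace hb hc hk, smul_eq_mul]
      push_cast
      field_simp
      norm_num
    · rw [Matrix.smul_mulVec, cm2_mulVec hb hk, smul_smul]
      congr 1
      push_cast
      field_simp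
      norm_num
    · rw [dotProduct_smul, dot_cm1 hb hk, smul_eq_mul]
      push_cast
      field_simp
  exact alg_three A B (fun k => wt A k / (6 * V)) (fun k => k)
    (fun k => (3 * wt A k)⁻¹ • cm1 A k) (fun k => (12 * wt A k)⁻¹ • cm2 A k) c hB hcB
    (fun k _ => div_nonneg (wt_nonneg A k) h6V.le)
    (by rw [← Finset.sum_div, hsw, div_self h6V.ne']) hf
    (fun j => by
      have := sum_wt_dot (n := 3) (by norm_num) hb (Pi.single j 1)
      simp only [dotProduct_single, mul_one] at this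
      simp only [div_mul_eq_mul_div]
      rw [← Finset.sum_div, this, zero_div])
    (fun i => by
      rw [Finset.sum_congr rfl fun k hk => fin_scale1 hb hV hk i, ← Finset.mul_sum, s1, mul_zero])
    (fun i j => by
      have e : ∀ k ∈ A, wt A k / (6 * V) * (((3 * wt A k)⁻¹ • cm1 A k) i * k j) =
          (18 * V)⁻¹ * (cm1 A k i * k j) := fun k hk => by
        rw [← mul_assoc, fin_scale1 hb hV hk i, mul_assoc]
      rw [Finset.sum_congr rfl e, ← Finset.mul_sum, s3]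
      split_ifs
      · norm_num [Nat.factorial]
        field_simp
        norm_num
      · simp)
    (fun i j => by
      rw [Finset.sum_congr rfl fun k hk => fin_scale2 hb hV hk i j, ← Finset.mul_sum, s2]
      split_ifs
      · norm_num [Nat.factorial]
        field_simp
        norm_num
      · simp)
    (fun l i j => by
      have e : ∀ k ∈ A, wt A k / (6 * V) * (k l * ((12 * wt A k)⁻¹ • cm2 A k) i j) =
          (72 * V)⁻¹ * (k l * cm2 A k i j) := fun k hk => by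
        rw [mul_left_comm, fin_scale2 hb hV hk i j, mul_left_comm]
      rw [Finset.sum_congr rfl e, ← Finset.mul_sum, s4, mul_zero])

/-- four big facets, and the second moments of the others -/
theorem four_big4 {th₀ th thb kap lam s a₁ t₀ : ℝ} (hth₀ : 0 < th₀) (hth : 0 < th) (hk : 0 < kap)
    (hl : 0 ≤ lam) (hs : 0 < s) (ha : 0 < a₁) (ha₀ : a₁ ≤ 1) (ht₀ : 1 < t₀)
    (h2 : s * (1 - a₁) < 2 * (1 - th₀)) (h3 : 3 * (th₀ + s * (1 - a₁)) + th < 4)
    (h8 : 4 * lam / 3 ≤ s + th₀ - th)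
    (h5 : s * (4 - 5 * a₁) < 4 * (1 - th₀)) (h4 : s * (912 / 1000 - a₁) < 1 - th₀)
    (h6 : s * (1 - a₁) - (1 - th₀) < 278 / 1000 * kap)
    (h7 : 88 / 1000 * (thb - th₀) + s * (912 / 1000 - a₁) - (1 - th₀) < 146 / 1000 * kap)
    (hF : FaceD th₀ th thb kap lam s a₁ t₀) :
    ∃ ε : ℝ, 0 < ε ∧ ∀ A : Finset (Fin 3 → ℝ), Iso (poly A) → Crit A →
      volume.real (poly A) ^ 2 ≤ 8000 / 9 + ε →
        ∃ c : Fin 4 → Fin 3 → ℝ, Function.Injective c ∧ (∀ i, c i ∈ A) ∧ (∀ i, 0 < wt A (c i)) ∧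
          (1 - 88 / 1000) * (6 * volume.real (poly A)) ≤ ∑ i, wt A (c i) ∧
          ∑ k ∈ A, wt A k / (6 * volume.real (poly A)) * Nm ((12 * wt A k)⁻¹ • cm2 A k) -
            ∑ i, wt A (c i) / (6 * volume.real (poly A)) *
              Nm ((12 * wt A (c i))⁻¹ • cm2 A (c i)) ≤
            278 / 1000 - 3 / 2 * (1 - ∑ i, wt A (c i) / (6 * volume.real (poly A))) := by
  classical
  obtain ⟨ε₁, hε₁, H⟩ := hF
  obtain ⟨D, hD, d2, d3, d5, d4, d6, d7⟩ : ∃ D : ℝ, 0 < D ∧ D ≤ 2 * (1 - th₀) - s * (1 - a₁) ∧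
      D ≤ 4 - (3 * (th₀ + s * (1 - a₁)) + th) ∧
      D ≤ 4 * (1 - th₀) - s * (4 - 5 * a₁) ∧ D ≤ 1 - th₀ - s * (912 / 1000 - a₁) ∧
      D ≤ 278 / 1000 * kap - (s * (1 - a₁) - (1 - th₀)) ∧
      D ≤ 146 / 1000 * kap - (88 / 1000 * (thb - th₀) + s * (912 / 1000 - a₁) - (1 - th₀)) := by
    refine ⟨min (2 * (1 - th₀) - s * (1 - a₁)) (min (4 - (3 * (th₀ + s * (1 - a₁)) + th))
      (min (4 * (1 - th₀) - s * (4 - 5 * a₁)) (min (1 - th₀ - s * (912 / 1000 - a₁))
      (min (278 / 1000 * kap - (s * (1 - a₁) - (1 - th₀)))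
      (146 / 1000 * kap - (88 / 1000 * (thb - th₀) + s * (912 / 1000 - a₁) - (1 - th₀))))))),
      lt_min (by linarith) (lt_min (by linarith) (lt_min (by linarith) (lt_min (by linarith)
        (lt_min (by linarith) (by linarith))))), ?_⟩
    simp only [min_le_iff, le_refl, true_or, or_true, and_self]
  have hsa : 0 < s * a₁ := mul_pos hs ha
  have hE : 0 < 1 + 4 * th₀ + th + 4 * s + s * a₁ := by positivity
  obtain ⟨ε, hε, hε1, hε2, hε3⟩ : ∃ ε : ℝ, 0 < ε ∧ ε ≤ ε₁ ∧ ε ≤ t₀ - 1 ∧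
      ε ≤ D / (1 + 4 * th₀ + th + 4 * s + s * a₁) :=
    ⟨min ε₁ (min (t₀ - 1) (D / (1 + 4 * th₀ + th + 4 * s + s * a₁))),
      lt_min hε₁ (lt_min (by linarith) (div_pos hD hE)), min_le_left _ _,
      (min_le_right _ _).trans (min_le_left _ _), (min_le_right _ _).trans (min_le_right _ _)⟩
  rw [le_div_iff₀ hE] at hε3
  have p0 := mul_pos hε hth₀
  have p1 := mul_pos hε hth
  have p2 := mul_pos hε hs
  have p3 := mul_pos hε hsa
  refine ⟨ε, hε, fun A hA hc hV2 => ?_⟩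
  have hV := hA.toBody.vol_pos
  have hpi := Real.pi_pos
  have hs5 : 0 < Real.sqrt 5 := by positivity
  have hp : 0 < 20 * Real.sqrt 5 := by positivity
  have hVle : volume.real (poly A) ≤ 40 * Real.sqrt 5 / 3 * (1 + ε) := by
    refine abs_le_of_sq_le_sq' ?_ (by positivity) |>.2
    rw [mul_pow, vT_sq]
    nlinarith
  obtain ⟨v, hv⟩ : ∃ v : ℝ, volume.real (poly A) = 40 * Real.sqrt 5 / 3 * v :=
    ⟨volume.real (poly A) / (40 * Real.sqrt 5 / 3), by field_simp⟩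
  have hv1 : v ≤ 1 + ε := by
    rw [hv] at hVle
    exact le_of_mul_le_mul_left hVle (by positivity)
  have hv0 : 0 < v := by
    rw [hv] at hV
    exact (mul_pos_iff_of_pos_left (by positivity)).1 hV
  obtain ⟨t, ht⟩ : ∃ t : (Fin 3 → ℝ) → ℝ, ∀ a, t a = wt A a / (20 * Real.sqrt 5) :=
    ⟨_, fun _ => rfl⟩
  obtain ⟨N, hN⟩ : ∃ N : (Fin 3 → ℝ) → ℝ, ∀ a, N a = Nm ((12 * wt A a)⁻¹ • cm2 A a) :=
    ⟨_, fun _ => rfl⟩
  obtain ⟨Q, hQ⟩ : ∃ Q : (Fin 3 → ℝ) → ℝ, ∀ a, Q a = Ph a ((12 * wt A a)⁻¹ • cm2 A a) :=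
    ⟨_, fun _ => rfl⟩
  simp only [← hN]
  have hw : ∀ a, wt A a = 20 * Real.sqrt 5 * t a := fun a => by rw [ht]; field_simp
  have ht0 : ∀ a, 0 ≤ t a := fun a => by rw [ht]; exact div_nonneg (wt_nonneg _ _) hp.le
  have ht1 : ∀ a ∈ A, t a ≤ v := fun a haA => by
    have h1 := wt_le_quarter hA hc haA
    rw [hw, hv] at h1
    have h2 : 20 * Real.sqrt 5 * t a ≤ 20 * Real.sqrt 5 * v := by linarith
    exact le_of_mul_le_mul_left h2 hp
  have hst : ∑ a ∈ A, t a = 4 * v := by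
    have := sum_wt_three hA
    simp only [hw] at this
    rw [← Finset.mul_sum, hv] at this
    apply mul_left_cancel₀ hp.ne'
    rw [this]; ring
  have hss : ∑ a ∈ A, 3 * sol A a = 4 * Real.pi := by
    have := sum_sol_three hA
    rw [← Finset.mul_sum] at this ⊢
    apply mul_left_cancel₀ hp.ne'
    linarith
  have hμ : ∀ a, wt A a / (6 * volume.real (poly A)) = t a / (4 * v) := fun a => by
    rw [hw, hv]
    field_simp
    ring
  obtain ⟨b, hb⟩ : ∃ b : (Fin 3 → ℝ) → ℝ,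
      ∀ a, b a = min (min th₀ (thb - kap * N a)) (th + lam * (4 - Q a) / 3) := ⟨_, fun _ => rfl⟩
  have b1 : ∀ a, b a * t a ≤ th₀ * t a := fun a =>
    mul_le_mul_of_nonneg_right (hb a ▸ (min_le_left _ _).trans (min_le_left _ _)) (ht0 a)
  have b2 : ∀ a, b a * t a ≤ (thb - kap * N a) * t a := fun a =>
    mul_le_mul_of_nonneg_right (hb a ▸ (min_le_left _ _).trans (min_le_right _ _)) (ht0 a)
  have b3 : ∀ a, b a * t a ≤ (th + lam * (4 - Q a) / 3) * t a := fun a =>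
    mul_le_mul_of_nonneg_right (hb a ▸ min_le_right _ _) (ht0 a)
  set G := A.filter fun a => ¬ 3 * sol A a ≤ Real.pi * (b a * t a) with hG
  have hGs : G ⊆ A := Finset.filter_subset _ _
  have hsum : 4 ≤ ∑ a ∈ A \ G, b a * t a + ∑ a ∈ G, (th₀ * t a + s * (t a - a₁)) := by
    refine le_of_mul_le_mul_left ?_ hpi
    rw [mul_comm, ← hss, ← Finset.sum_sdiff hGs, mul_add, Finset.mul_sum, Finset.mul_sum]
    refine add_le_add (Finset.sum_le_sum fun a ha' => ?_) (Finset.sum_le_sum fun a ha' => ?_)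
    · obtain ⟨m1, m2⟩ := Finset.mem_sdiff.1 ha'
      by_contra h
      exact m2 (Finset.mem_filter.2 ⟨m1, h⟩)
    · obtain ⟨m1, m2⟩ := Finset.mem_filter.1 ha'
      have h1 := four4_face H hA hc m1 (by linarith) (ht a ▸ (ht1 a m1).trans (by linarith))
      rw [← ht, ← hN, ← hQ, ← hb] at h1
      exact h1.resolve_left m2
  have hBG : ∑ a ∈ A \ G, t a = 4 * v - ∑ a ∈ G, t a := by
    rw [← hst, ← Finset.sum_sdiff hGs]; ring
  have hU : ∑ a ∈ G, (th₀ * t a + s * (t a - a₁)) =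
      th₀ * ∑ a ∈ G, t a + s * ∑ a ∈ G, t a - G.card * (s * a₁) := by
    rw [Finset.sum_add_distrib, ← Finset.mul_sum, ← Finset.mul_sum, Finset.sum_sub_distrib,
      Finset.sum_const, nsmul_eq_mul]
    ring
  have hA1 : ∑ a ∈ A \ G, b a * t a ≤ th₀ * (4 * v - ∑ a ∈ G, t a) := by
    rw [← hBG, Finset.mul_sum]
    exact Finset.sum_le_sum fun a _ => b1 a
  have hthv₀ : th₀ * v ≤ th₀ * (1 + ε) := mul_le_mul_of_nonneg_left hv1 hth₀.le
  have hthv : th * v ≤ th * (1 + ε) := mul_le_mul_of_nonneg_left hv1 hth.le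
  have hsv : s * v ≤ s * (1 + ε) := mul_le_mul_of_nonneg_left hv1 hs.le
  have hGA : ∑ a ∈ G, t a ≤ 4 * v := hst ▸
    Finset.sum_le_sum_of_subset_of_nonneg hGs fun a _ _ => ht0 a
  have hGc : ∑ a ∈ G, t a ≤ G.card * v := by
    rw [← nsmul_eq_mul, ← Finset.sum_const]
    exact Finset.sum_le_sum fun a ha' => ht1 a (hGs ha')
  have hsG := mul_le_mul_of_nonneg_left hGc hs.le
  have hc3 : 3 ≤ G.card := by
    by_contra hlt
    have h3 : (G.card : ℝ) ≤ 2 := by exact_mod_cast Nat.lt_succ_iff.1 (not_le.1 hlt)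
    have h0 : (0 : ℝ) ≤ G.card := Nat.cast_nonneg _
    have q0 : 0 ≤ s * (1 + ε - a₁) := mul_nonneg hs.le (by linarith)
    have q1 := mul_le_mul_of_nonneg_right h3 q0
    have q2 := mul_le_mul_of_nonneg_left hsv h0
    linarith
  have hc4 : G.card ≠ 3 := by
    intro hS
    obtain ⟨x, y, z, -, -, -, e⟩ := Finset.card_eq_three.1 hS
    have h1 := crit_three hA hc (A \ G) Finset.sdiff_subset ![x, y, z] fun k hk hk' => by
      have : k ∈ G := by
        by_contra h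
        exact hk' (Finset.mem_sdiff.2 ⟨hk, h⟩)
      rw [e, Finset.mem_insert, Finset.mem_insert, Finset.mem_singleton] at this
      rcases this with h | h | h
      exacts [⟨0, h⟩, ⟨1, h⟩, ⟨2, h⟩]
    simp only [← hQ, hμ, div_mul_eq_mul_div] at h1
    rw [← Finset.sum_div, le_div_iff₀ (by positivity), one_mul] at h1
    have hA3 : ∑ a ∈ A \ G, b a * t a ≤
        (th + 4 * lam / 3) * ∑ a ∈ A \ G, t a - lam / 3 * ∑ a ∈ A \ G, t a * Q a := by
      rw [Finset.mul_sum, Finset.mul_sum, ← Finset.sum_sub_distrib]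
      exact Finset.sum_le_sum fun a _ => (b3 a).trans (le_of_eq (by ring))
    have q1 := mul_le_mul_of_nonneg_left h1 (show 0 ≤ lam / 3 by positivity)
    rw [hS] at hU hGc
    push_cast at hU hGc
    have q2 := mul_le_mul_of_nonneg_left hGc (show 0 ≤ s + th₀ - th - 4 * lam / 3 by linarith)
    rw [hBG] at hA3
    linarith
  have hc5 : G.card ≤ 4 := by
    by_contra hlt
    have h3 : (5 : ℝ) ≤ G.card := by exact_mod_cast not_le.1 hlt
    have h1 := mul_le_mul_of_nonneg_right h3 hsa.le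
    have h2 := mul_le_mul_of_nonneg_left hGA hs.le
    linarith
  have hS : G.card = 4 := by omega
  have hmem : ∀ i : Fin 4, (((G.equivFinOfCardEq hS).symm i : G) : Fin 3 → ℝ) ∈ G :=
    fun i => ((G.equivFinOfCardEq hS).symm i).2
  have hsumG : ∀ f : (Fin 3 → ℝ) → ℝ,
      ∑ i : Fin 4, f ((G.equivFinOfCardEq hS).symm i : G) = ∑ a ∈ G, f a := fun f => by
    rw [← Finset.sum_coe_sort G]
    exact Equiv.sum_comp (G.equivFinOfCardEq hS).symm fun a : G => f a
  rw [hS] at hU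
  push_cast at hU
  obtain ⟨x, hx⟩ : ∃ x : ℝ, ∑ a ∈ G, t a = 4 * v * (1 - x) :=
    ⟨1 - (∑ a ∈ G, t a) / (4 * v), by field_simp; ring⟩
  have hx0 : 0 ≤ x := by
    rw [hx] at hGA
    by_contra hlt
    have := mul_pos hv0 (neg_pos.2 (not_le.1 hlt))
    linarith
  have hx1 : x ≤ 88 / 1000 := by
    by_contra hlt
    have h1 := mul_pos (mul_pos hs hv0) (sub_pos.2 (not_le.1 hlt))
    rw [hx] at hU hA1
    linarith
  refine ⟨fun i => ((G.equivFinOfCardEq hS).symm i : G), ?_, fun i => ?_, fun i => ?_, ?_, ?_⟩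
  · exact Subtype.val_injective.comp (G.equivFinOfCardEq hS).symm.injective
  · exact hGs (hmem i)
  · have e1 := Finset.add_sum_erase G t (hmem i)
    have e2 : ∑ a ∈ G.erase ((G.equivFinOfCardEq hS).symm i : G), t a ≤ 3 * v := by
      have := Finset.sum_le_card_nsmul (G.erase ((G.equivFinOfCardEq hS).symm i : G)) t v
        fun a ha' => ht1 a (hGs (Finset.mem_of_mem_erase ha'))
      rw [Finset.card_erase_of_mem (hmem i), hS, nsmul_eq_mul] at this
      exact_mod_cast this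
    have e3 := mul_le_mul_of_nonneg_left hx1 hv0.le
    rw [hw]
    exact mul_pos hp (by linarith)
  · rw [hsumG (wt A)]
    simp only [hw]
    rw [← Finset.mul_sum, hv, hx]
    have := mul_le_mul_of_nonneg_left hx1 (mul_pos hs5 hv0).le
    linarith
  · rw [hsumG fun a => wt A a / (6 * volume.real (poly A)) * N a,
      hsumG fun a => wt A a / (6 * volume.real (poly A))]
    simp only [hμ, div_mul_eq_mul_div]
    rw [← Finset.sum_div, ← Finset.sum_div, ← Finset.sum_div, ← sub_div, hx]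
    obtain ⟨η, hη⟩ : ∃ η : ℝ, ∑ a ∈ A, t a * N a - ∑ a ∈ G, t a * N a = 4 * v * η :=
      ⟨(∑ a ∈ A, t a * N a - ∑ a ∈ G, t a * N a) / (4 * v), by field_simp⟩
    rw [hη, mul_div_cancel_left₀ _ (by positivity), mul_div_cancel_left₀ _ (by positivity)]
    have hA2 : ∑ a ∈ A \ G, b a * t a ≤
        thb * ∑ a ∈ A \ G, t a - kap * ∑ a ∈ A \ G, t a * N a := by
      rw [Finset.mul_sum, Finset.mul_sum, ← Finset.sum_sub_distrib]
      exact Finset.sum_le_sum fun a _ => (b2 a).trans (le_of_eq (by ring))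
    have hη' : ∑ a ∈ A \ G, t a * N a = 4 * v * η := by
      rw [← hη, ← Finset.sum_sdiff hGs]; ring
    rw [hBG, hη', hx] at hA2
    rw [hx] at hU
    have hQ : 1 + s * a₁ ≤ v * (th₀ + (thb - th₀) * x - kap * η + s * (1 - x)) := by linarith
    by_contra hlt
    have hlt' := mul_lt_mul_of_pos_left (not_le.1 hlt) hk
    have q1 := mul_le_mul_of_nonneg_left d6 (sub_nonneg.2 hx1)
    have q2 := mul_le_mul_of_nonneg_left d7 hx0
    have hQ0 : th₀ + (thb - th₀) * x - kap * η + s * (1 - x) ≤ 1 + s * a₁ - D := by linarith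
    have hQ1 := mul_le_mul_of_nonneg_left hQ0 hv0.le
    have hQ2 : 0 < 1 + s * a₁ - D := by
      by_contra h
      have := mul_nonneg hv0.le (neg_nonneg.2 (not_lt.1 h))
      linarith
    have hQ3 := mul_le_mul_of_nonneg_right hv1 hQ2.le
    have := mul_pos hε hD
    linarith

end Pool.Agent.P.MP_2e1554_gt
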