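import Pool.Agent.P.MP_2e1554_gt.IsoDefs

open MeasureTheory Set Finset Matrix Filter Topology Pointwise

namespace Pool.Agent.P.MP_2e1554_gt

variable {n : ℕ}

theorem isopair_star {q : ℝ → ℝ} {α β : ℝ} (hq : ConcaveOn ℝ (Icc α β) q)
    (h0 : ∀ u ∈ Icc α β, 0 ≤ q u) {s v l : ℝ} (hs : s ∈ Icc α β) (hv : v ∈ Icc α β)
    (hl0 : 0 ≤ l) (hl1 : l ≤ 1) : l * q v ≤ q (s + l * (v - s)) := by
  have h := hq.2 hs hv (sub_nonneg.2 hl1) hl0 (by ring)
  simp only [smul_eq_mul] at h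
  have e : (1 - l) * s + l * v = s + l * (v - s) := by ring
  rw [e] at h
  have := mul_nonneg (sub_nonneg.2 hl1) (h0 s hs)
  linarith

theorem isopair_left {q : ℝ → ℝ} {α β : ℝ} (hq : ConcaveOn ℝ (Icc α β) q)
    (h0 : ∀ u ∈ Icc α β, 0 ≤ q u) {s m : ℝ} (hs : s ∈ Icc α β) (hm : m ∈ Icc α β) (hsm : s ≤ m)
    (κ : ℝ) : ∃ y ∈ Icc s m, (∀ u ∈ Icc s m, u < y → κ * (u - s) ≤ q u) ∧
      ∀ u ∈ Icc s m, y < u → q u < κ * (u - s) := by
  set S : Set ℝ := {u | u ∈ Icc s m ∧ κ * (u - s) ≤ q u} with hS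
  have hsS : s ∈ S := ⟨⟨le_rfl, hsm⟩, by simpa using h0 s hs⟩
  have hbdd : BddAbove S := ⟨m, fun u hu => hu.1.2⟩
  refine ⟨sSup S, ⟨le_csSup hbdd hsS, csSup_le ⟨s, hsS⟩ fun u hu => hu.1.2⟩, ?_, ?_⟩
  · intro u hu hlt
    obtain ⟨v, hv, huv⟩ := exists_lt_of_lt_csSup ⟨s, hsS⟩ hlt
    have hvs : 0 < v - s := by linarith [hu.1]
    have hl0 : 0 ≤ (u - s) / (v - s) := div_nonneg (by linarith [hu.1]) hvs.le
    have h := isopair_star hq h0 hs (v := v) ⟨hs.1.trans hv.1.1, hv.1.2.trans hm.2⟩ hl0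
      ((div_le_one hvs).2 (by linarith))
    rw [div_mul_cancel₀ _ hvs.ne', add_sub_cancel] at h
    have h2 := mul_le_mul_of_nonneg_left hv.2 hl0
    have e : (u - s) / (v - s) * (κ * (v - s)) = κ * (u - s) := by field_simp
    linarith
  · intro u hu hlt
    by_contra hcon
    exact absurd (le_csSup hbdd (show u ∈ S from ⟨hu, not_lt.1 hcon⟩)) (not_le.2 hlt)

theorem isopair_right {q : ℝ → ℝ} {α β : ℝ} (hq : ConcaveOn ℝ (Icc α β) q)
    (h0 : ∀ u ∈ Icc α β, 0 ≤ q u) {s m : ℝ} (hs : s ∈ Icc α β) (hm : m ∈ Icc α β) (hsm : m ≤ s)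
    (κ : ℝ) : ∃ y ∈ Icc m s, (∀ u ∈ Icc m s, y < u → κ * (s - u) ≤ q u) ∧
      ∀ u ∈ Icc m s, u < y → q u < κ * (s - u) := by
  set S : Set ℝ := {u | u ∈ Icc m s ∧ κ * (s - u) ≤ q u} with hS
  have hsS : s ∈ S := ⟨⟨hsm, le_rfl⟩, by simpa using h0 s hs⟩
  have hbdd : BddBelow S := ⟨m, fun u hu => hu.1.1⟩
  refine ⟨sInf S, ⟨le_csInf ⟨s, hsS⟩ fun u hu => hu.1.1, csInf_le hbdd hsS⟩, ?_, ?_⟩
  · intro u hu hlt
    obtain ⟨v, hv, huv⟩ := exists_lt_of_csInf_lt ⟨s, hsS⟩ hlt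
    have hvs : 0 < s - v := by linarith [hu.2]
    have hl0 : 0 ≤ (s - u) / (s - v) := div_nonneg (by linarith [hu.2]) hvs.le
    have h := isopair_star hq h0 hs (v := v) ⟨hm.1.trans hv.1.1, hv.1.2.trans hs.2⟩ hl0
      ((div_le_one hvs).2 (by linarith))
    have e0 : s + (s - u) / (s - v) * (v - s) = u := by field_simp; ring
    rw [e0] at h
    have h2 := mul_le_mul_of_nonneg_left hv.2 hl0
    have e : (s - u) / (s - v) * (κ * (s - v)) = κ * (s - u) := by field_simp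
    linarith
  · intro u hu hlt
    by_contra hcon
    exact absurd (csInf_le hbdd (show u ∈ S from ⟨hu, not_lt.1 hcon⟩)) (not_le.2 hlt)

theorem isopair_int (s t κ y1 y2 : ℝ) :
    ∫ u in s..t, (κ * (u - s)) ^ 2 * ((u - y1) * (u - y2)) =
      κ ^ 2 * ((t - s) ^ 5 / 5 - (y1 + y2 - 2 * s) * (t - s) ^ 4 / 4 +
        (y1 - s) * (y2 - s) * (t - s) ^ 3 / 3) := by
  have hd : ∀ u ∈ Set.uIcc s t, HasDerivAt (fun u : ℝ => κ ^ 2 * ((u - s) ^ 5 / 5 -
      (y1 + y2 - 2 * s) * (u - s) ^ 4 / 4 + (y1 - s) * (y2 - s) * (u - s) ^ 3 / 3))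
      ((κ * (u - s)) ^ 2 * ((u - y1) * (u - y2))) u := by
    intro u _
    have h1 : HasDerivAt (fun u : ℝ => u - s) 1 u := (hasDerivAt_id u).sub_const s
    have h5 := (h1.fun_pow 5).div_const 5
    have h4 := ((h1.fun_pow 4).const_mul (y1 + y2 - 2 * s)).div_const 4
    have h3 := ((h1.fun_pow 3).const_mul ((y1 - s) * (y2 - s))).div_const 3
    refine (((h5.fun_sub h4).fun_add h3).const_mul (κ ^ 2)).congr_deriv ?_
    norm_num
    ring
  rw [intervalIntegral.integral_eq_sub_of_hasDerivAt hd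
    (Continuous.intervalIntegrable (by fun_prop) _ _)]
  ring

theorem Marg.pair {p : ℝ → ℝ} {α β V : ℝ} (h : Marg 2 p α β V) {a b : ℝ} (ha : -a ∈ Icc α β)
    (hb : b ∈ Icc α β) (h1 : a ≤ 3 * b) (h2 : b ≤ 3 * a) :
    3 * a ^ 2 - 2 * a * b + 3 * b ^ 2 ≤ 40 := by
  have ha0 : 0 ≤ a := by linarith
  have hb0 : 0 ≤ b := by linarith
  rcases (add_nonneg ha0 hb0).eq_or_lt with hL | hL
  · have e1 : a = 0 := by linarith
    have e2 : b = 0 := by linarith
    rw [e1, e2]; norm_num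
  obtain ⟨q, hq, h0, hp⟩ := h.root
  have hV := h.pos
  set m : ℝ := (a - b) / 2 with hm
  have hm1 : -a ≤ m := by rw [hm]; linarith
  have hm2 : m ≤ b := by rw [hm]; linarith
  have hmI : m ∈ Icc α β := ⟨ha.1.trans hm1, hm2.trans hb.2⟩
  set c : ℝ := Real.sqrt (3 * V / (a + b)) with hc
  have hc0 : 0 ≤ c := Real.sqrt_nonneg _
  have hc2 : c ^ 2 = 3 * V / (a + b) := Real.sq_sqrt (by positivity)
  have hk1 : 0 ≤ c / (m - -a) := div_nonneg hc0 (by linarith)
  have hk2 : 0 ≤ c / (b - m) := div_nonneg hc0 (by linarith)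
  obtain ⟨y1, hy1, hl1, hl2⟩ := isopair_left hq h0 ha hmI hm1 (c / (m - -a))
  obtain ⟨y2, hy2, hr1, hr2⟩ := isopair_right hq h0 hb hmI hm2 (c / (b - m))
  set w : ℝ → ℝ := fun u => (u - y1) * (u - y2) with hw
  have hwc : Continuous w := by rw [hw]; fun_prop
  have hint : IntegrableOn (fun u => p u * w u) (Icc α β) :=
    h.int.mul_continuousOn hwc.continuousOn isCompact_Icc
  have hi1 : IntegrableOn (fun u => u * p u) (Icc α β) :=
    h.int.continuousOn_mul continuous_id.continuousOn isCompact_Icc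
  have hi2 : IntegrableOn (fun u => u ^ 2 * p u) (Icc α β) :=
    h.int.continuousOn_mul (continuous_pow 2).continuousOn isCompact_Icc
  have htot : ∫ u in α..β, p u * w u = V + y1 * y2 * V := by
    rw [intervalIntegral.integral_of_le h.lt.le, ← integral_Icc_eq_integral_Ioc]
    have e : (fun u => p u * w u) =
        fun u => (u ^ 2 * p u - (y1 + y2) * (u * p u)) + y1 * y2 * p u := by
      funext u; simp only [hw]; ring
    have hi3 : IntegrableOn (fun u => u ^ 2 * p u - (y1 + y2) * (u * p u)) (Icc α β) :=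
      hi2.sub (hi1.const_mul _)
    rw [e, integral_add hi3 (h.int.const_mul _),
      integral_sub hi2 (hi1.const_mul _), integral_const_mul, integral_const_mul, h.m0, h.m1, h.m2]
    ring
  have hii : ∀ s t, s ∈ Icc α β → t ∈ Icc α β →
      IntervalIntegrable (fun u => p u * w u) volume s t := fun s t hs ht =>
    (hint.mono_set (Set.uIcc_subset_Icc hs ht)).intervalIntegrable
  have hα : α ∈ Icc α β := ⟨le_rfl, h.lt.le⟩
  have hβ : β ∈ Icc α β := ⟨h.lt.le, le_rfl⟩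
  have hsplit : ∫ u in α..β, p u * w u = (∫ u in α..(-a), p u * w u) +
      (∫ u in (-a)..m, p u * w u) + (∫ u in m..b, p u * w u) + ∫ u in b..β, p u * w u := by
    rw [intervalIntegral.integral_add_adjacent_intervals (hii _ _ hα ha) (hii _ _ ha hmI),
      intervalIntegral.integral_add_adjacent_intervals (hii _ _ hα hmI) (hii _ _ hmI hb),
      intervalIntegral.integral_add_adjacent_intervals (hii _ _ hα hb) (hii _ _ hb hβ)]
  have hy12 : y1 ≤ y2 := hy1.2.trans hy2.1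
  have hA : 0 ≤ ∫ u in α..(-a), p u * w u := by
    refine intervalIntegral.integral_nonneg ha.1 fun u hu => ?_
    rw [hp u ⟨hu.1, hu.2.trans ha.2⟩]
    exact mul_nonneg (sq_nonneg _)
      (mul_nonneg_of_nonpos_of_nonpos (by linarith [hu.2, hy1.1]) (by linarith [hu.2, hy1.1]))
  have hD : 0 ≤ ∫ u in b..β, p u * w u := by
    refine intervalIntegral.integral_nonneg hb.2 fun u hu => ?_
    rw [hp u ⟨hb.1.trans hu.1, hu.2⟩]
    exact mul_nonneg (sq_nonneg _)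
      (mul_nonneg (by linarith [hu.1, hy2.2]) (by linarith [hu.1, hy2.2]))
  have hB : ∫ u in (-a)..m, (c / (m - -a) * (u - -a)) ^ 2 * ((u - y1) * (u - y2)) ≤
      ∫ u in (-a)..m, p u * w u := by
    refine intervalIntegral.integral_mono_on hm1 (Continuous.intervalIntegrable (by fun_prop) _ _)
      (hii _ _ ha hmI) fun u hu => ?_
    have huI : u ∈ Icc α β := ⟨ha.1.trans hu.1, hu.2.trans hmI.2⟩
    rw [hp u huI]
    simp only [hw]
    have hT : 0 ≤ c / (m - -a) * (u - -a) := mul_nonneg hk1 (by linarith [hu.1])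
    rcases lt_trichotomy u y1 with hlt | heq | hgt
    · exact mul_le_mul_of_nonneg_right (pow_le_pow_left₀ hT (hl1 u hu hlt) 2)
        (mul_nonneg_of_nonpos_of_nonpos (by linarith) (by linarith))
    · rw [heq]; simp
    · exact mul_le_mul_of_nonpos_right (pow_le_pow_left₀ (h0 u huI) (hl2 u hu hgt).le 2)
        (mul_nonpos_of_nonneg_of_nonpos (by linarith) (by linarith [hu.2, hy2.1]))
  have hC : ∫ u in m..b, (c / (b - m) * (u - b)) ^ 2 * ((u - y1) * (u - y2)) ≤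
      ∫ u in m..b, p u * w u := by
    refine intervalIntegral.integral_mono_on hm2 (Continuous.intervalIntegrable (by fun_prop) _ _)
      (hii _ _ hmI hb) fun u hu => ?_
    have huI : u ∈ Icc α β := ⟨hmI.1.trans hu.1, hu.2.trans hb.2⟩
    rw [hp u huI]
    simp only [hw]
    have hT : 0 ≤ c / (b - m) * (b - u) := mul_nonneg hk2 (by linarith [hu.2])
    have e : (c / (b - m) * (u - b)) ^ 2 = (c / (b - m) * (b - u)) ^ 2 := by ring
    rw [e]
    rcases lt_trichotomy y2 u with hlt | heq | hgt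
    · exact mul_le_mul_of_nonneg_right (pow_le_pow_left₀ hT (hr1 u hu hlt) 2)
        (mul_nonneg (by linarith) (by linarith))
    · rw [← heq]; simp
    · exact mul_le_mul_of_nonpos_right (pow_le_pow_left₀ (h0 u huI) (hr2 u hu hgt).le 2)
        (mul_nonpos_of_nonneg_of_nonpos (by linarith [hu.1, hy1.2]) (by linarith))
  rw [isopair_int] at hB
  rw [intervalIntegral.integral_symm, isopair_int] at hC
  have eB : (c / (m - -a)) ^ 2 * ((m - -a) ^ 5 / 5 - (y1 + y2 - 2 * -a) * (m - -a) ^ 4 / 4 +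
      (y1 - -a) * (y2 - -a) * (m - -a) ^ 3 / 3) = c ^ 2 * ((m + a) ^ 3 / 5 -
      (y1 + y2 + 2 * a) * (m + a) ^ 2 / 4 + (y1 + a) * (y2 + a) * (m + a) / 3) := by
    simp only [sub_neg_eq_add]
    by_cases h0' : m + a = 0
    · rw [h0']; simp
    · field_simp; ring
  have eC : -((c / (b - m)) ^ 2 * ((m - b) ^ 5 / 5 - (y1 + y2 - 2 * b) * (m - b) ^ 4 / 4 +
      (y1 - b) * (y2 - b) * (m - b) ^ 3 / 3)) = c ^ 2 * ((b - m) ^ 3 / 5 +
      (y1 + y2 - 2 * b) * (b - m) ^ 2 / 4 + (y1 - b) * (y2 - b) * (b - m) / 3) := by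
    by_cases h0' : b - m = 0
    · have h0'' : m - b = 0 := by linarith
      rw [h0', h0'']; simp
    · field_simp; ring
  rw [eB] at hB
  rw [eC] at hC
  have eS : c ^ 2 * ((m + a) ^ 3 / 5 - (y1 + y2 + 2 * a) * (m + a) ^ 2 / 4 +
      (y1 + a) * (y2 + a) * (m + a) / 3) + c ^ 2 * ((b - m) ^ 3 / 5 +
      (y1 + y2 - 2 * b) * (b - m) ^ 2 / 4 + (y1 - b) * (y2 - b) * (b - m) / 3) =
      V * ((3 * a ^ 2 - 2 * a * b + 3 * b ^ 2) / 40) + y1 * y2 * V := by
    rw [hc2, hm]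
    field_simp
    ring
  have hfin : V * ((3 * a ^ 2 - 2 * a * b + 3 * b ^ 2) / 40) ≤ V * 1 := by linarith
  have := le_of_mul_le_mul_left hfin hV
  linarith

end Pool.Agent.P.MP_2e1554_gt
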