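import Pool.Agent.P.MP_2e1554_gt.IsoMarg
import Pool.Agent.P.MP_2e1554_gt.IsoOne

open MeasureTheory Set Finset Matrix Filter Topology Pointwise

namespace Pool.Agent.P.MP_2e1554_gt

private theorem pyr_poly (k H S T β : ℝ) (hH : 0 < H) :
    ∫ u in (β - H)..β, (1 - k * (β - u) / H) ^ 2 * ((β - u) ^ 2 - S * (β - u) + T) =
      T * H * (1 - k + k ^ 2 / 3) - S * H ^ 2 * (1 / 2 - 2 * k / 3 + k ^ 2 / 4) +
        H ^ 3 * (1 / 3 - k / 2 + k ^ 2 / 5) := by
  have h1 := intervalIntegral.integral_comp_sub_left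
    (fun y : ℝ => (1 - k * y / H) ^ 2 * (y ^ 2 - S * y + T)) (a := β - H) (b := β) β
  rw [h1, sub_self, sub_sub_cancel]
  have e : (fun y : ℝ => (1 - k * y / H) ^ 2 * (y ^ 2 - S * y + T)) = fun y : ℝ =>
      T + (-S - 2 * (k / H) * T) * y + (1 + 2 * (k / H) * S + (k / H) ^ 2 * T) * y ^ 2 +
        (-2 * (k / H) - (k / H) ^ 2 * S) * y ^ 3 + (k / H) ^ 2 * y ^ 4 := by
    funext y
    ring
  rw [e, one_poly]
  field_simp
  ring

/-- a marginal whose right end is close to the centre has a long support -/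
theorem Marg.depth {p : ℝ → ℝ} {α β V : ℝ} (h : Marg 2 p α β V) {k : ℝ} (k0 : 0 < k) (k1 : k ≤ 1)
    (hk : β ^ 2 * ((1 - k + k ^ 2 / 3) * (1 / 3 - k / 2 + k ^ 2 / 5) -
        (1 / 2 - 2 * k / 3 + k ^ 2 / 4) ^ 2) < (1 / 2 - 2 * k / 3 + k ^ 2 / 4) ^ 2) :
    β * (1 - k + k ^ 2 / 3) ≤ (β - α) * (1 / 2 - 2 * k / 3 + k ^ 2 / 4) := by
  have β0 := h.pos_right
  have V0 := h.pos
  have hM0 : 0 < 1 - k + k ^ 2 / 3 := by nlinarith [sq_nonneg (k - 3 / 2)]
  have hM1 : 0 < 1 / 2 - 2 * k / 3 + k ^ 2 / 4 := by nlinarith [sq_nonneg (k - 4 / 3)]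
  have hpoly := fun H S T hH => pyr_poly k H S T β hH
  generalize 1 - k + k ^ 2 / 3 = M0 at *
  generalize 1 / 2 - 2 * k / 3 + k ^ 2 / 4 = M1 at *
  generalize 1 / 3 - k / 2 + k ^ 2 / 5 = M2 at *
  by_contra hc
  obtain ⟨H, hH⟩ : ∃ H, H = β * M0 / M1 := ⟨_, rfl⟩
  have H0 : 0 < H := by rw [hH]; positivity
  have hα : β - H < α := by
    have : β - α < H := by
      rw [hH, lt_div_iff₀ hM1]
      exact not_le.1 hc
    linarith
  obtain ⟨c, c0, hcc⟩ : ∃ c, 0 ≤ c ∧ c ^ 2 = V * M1 / (β * M0 ^ 2) :=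
    ⟨√(V * M1 / (β * M0 ^ 2)), Real.sqrt_nonneg _, Real.sq_sqrt (by positivity)⟩
  obtain ⟨y, hy, z, hz, hcr⟩ := h.one_cross (c * k / H) (β - H / k)
  have hl : ∀ u, c * k / H * (u - (β - H / k)) = c * (1 - k * (β - u) / H) := by
    intro u
    field_simp
    ring
  obtain ⟨g, hg⟩ : ∃ g : ℝ → ℝ, g = fun u => (c * (1 - k * (β - u) / H)) ^ 2 * ((u - y) * (u - z)) :=
    ⟨_, rfl⟩
  have hgc : Continuous g := by rw [hg]; fun_prop
  have h1 : V + y * z * V ≤ ∫ u in α..β, g u := by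
    rw [← h.one_quad y z, intervalIntegral.integral_of_le h.lt.le, ← integral_Icc_eq_integral_Ioc]
    refine setIntegral_mono_on ?_ (hgc.continuousOn.integrableOn_compact isCompact_Icc)
      measurableSet_Icc fun u hu => ?_
    · have := h.one_int (f := fun u => (u - y) * (u - z)) (by fun_prop)
      simpa only [mul_comm] using this
    · have h2 := hcr u hu
      have h3 : 0 ≤ c * (1 - k * (β - u) / H) := by
        refine mul_nonneg c0 (sub_nonneg.2 ((div_le_one H0).2 ?_))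
        nlinarith [hu.1, hu.2]
      rw [hl, max_eq_left h3] at h2
      rw [hg]
      exact h2
  have h2 : 0 ≤ ∫ u in (β - H)..α, g u := by
    refine intervalIntegral.integral_nonneg hα.le fun u hu => ?_
    rw [hg]
    exact mul_nonneg (sq_nonneg _)
      (mul_nonneg_of_nonpos_of_nonpos (by linarith [hu.2, hy.1]) (by linarith [hu.2, hz.1]))
  have h3 : (∫ u in (β - H)..α, g u) + ∫ u in α..β, g u = ∫ u in (β - H)..β, g u :=
    intervalIntegral.integral_add_adjacent_intervals (hgc.intervalIntegrable _ _)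
      (hgc.intervalIntegrable _ _)
  have h4 : ∫ u in (β - H)..β, g u = V * (β ^ 2 * (M0 * M2) / M1 ^ 2 - β ^ 2 + y * z) := by
    have e : g = fun u => c ^ 2 * ((1 - k * (β - u) / H) ^ 2 *
        ((β - u) ^ 2 - (2 * β - y - z) * (β - u) + (β - y) * (β - z))) := by
      rw [hg]
      funext u
      ring
    rw [e, intervalIntegral.integral_const_mul, hpoly _ _ _ H0, hcc, hH]
    field_simp
    ring
  have h5 : V * 1 ≤ V * (β ^ 2 * (M0 * M2) / M1 ^ 2 - β ^ 2) := by nlinarith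
  have h6 := le_of_mul_le_mul_left h5 V0
  rw [le_sub_iff_add_le, le_div_iff₀ (by positivity)] at h6
  nlinarith

private lemma pyr_dot (θ : Fin 2 → ℝ) (u : ℝ) (z : Fin 2 → ℝ) :
    θ 0 * ins (0 : Fin 3) u z 1 + θ 1 * ins (0 : Fin 3) u z 2 = θ ⬝ᵥ z := by
  have e1 : ins (0 : Fin 3) u z 1 = z 0 := marg_succ u z 0
  have e2 : ins (0 : Fin 3) u z 2 = z 1 := marg_succ u z 1
  rw [e1, e2]
  simp [dotProduct, Fin.sum_univ_two]

/-- the pyramid over a section lies in the body -/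
theorem Iso.pyramid {K : Set (Fin 3 → ℝ)} (hK : Iso K) {x : Fin 3 → ℝ} (hx : x ∈ K) {h : ℝ}
    (hh : x 0 < h) (θ : Fin 2 → ℝ) : ∃ q : ℝ,
    (h - x 0) * ((∫ z in slice (n := 2) K h, (θ ⬝ᵥ z) ^ 2) / 5 +
      q * (∫ z in slice (n := 2) K h, θ ⬝ᵥ z) / 10 + q ^ 2 * volume.real (slice (n := 2) K h) / 30) ≤
      volume.real K * (θ ⬝ᵥ θ) := by
  obtain ⟨w, hw⟩ : ∃ w : Fin 2 → ℝ, w = fun i => x (Fin.succ i) := ⟨_, rfl⟩
  have hxw : ins 0 (x 0) w ∈ K := by
    rw [hw, marg_eta]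
    exact hx
  generalize x 0 = α at *
  refine ⟨θ ⬝ᵥ w, ?_⟩
  have hc : Continuous fun z : Fin 2 → ℝ => θ ⬝ᵥ z := by fun_prop
  have hF := slice_compact (n := 2) hK.cpt h
  obtain ⟨h1, h2⟩ := marg_fub (n := 2) hK.cpt (f := fun x => (θ 0 * x 1 + θ 1 * x 2) ^ 2) (by fun_prop)
  have h3 : (fun u => ∫ z : Fin 2 → ℝ,
      K.indicator (fun x => (θ 0 * x 1 + θ 1 * x 2) ^ 2) (ins 0 u z)) =
      fun u => ∫ z in slice (n := 2) K u, (θ ⬝ᵥ z) ^ 2 := by
    funext u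
    rw [← integral_indicator (marg_meas_slice hK.cpt u)]
    congr 1
    funext z
    by_cases hz : ins 0 u z ∈ K
    · rw [indicator_of_mem hz, indicator_of_mem (show z ∈ slice K u from hz), pyr_dot]
    · rw [indicator_of_notMem hz, indicator_of_notMem (show z ∉ slice K u from hz)]
  have h4 := h1.integral_prod_left
  rw [integral_prod _ h1] at h2
  simp only at h2 h4
  rw [h3] at h2 h4
  have h5 : ∫ x in K, (θ 0 * x 1 + θ 1 * x 2) ^ 2 = volume.real K * (θ ⬝ᵥ θ) := by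
    have i : ∀ i j : Fin 3, IntegrableOn (fun x : Fin 3 → ℝ => x i * x j) K := fun i j =>
      (by fun_prop : Continuous fun x : Fin 3 → ℝ => x i * x j).continuousOn.integrableOn_compact
        hK.cpt
    have i1 : IntegrableOn (fun x : Fin 3 → ℝ => θ 0 ^ 2 * (x 1 * x 1) + θ 1 ^ 2 * (x 2 * x 2)) K :=
      ((i 1 1).const_mul _).add ((i 2 2).const_mul _)
    rw [integral_congr_ae (g := fun x => (θ 0 ^ 2 * (x 1 * x 1) + θ 1 ^ 2 * (x 2 * x 2)) +
      2 * θ 0 * θ 1 * (x 1 * x 2)) (ae_of_all _ fun y => by ring),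
      integral_add i1 ((i 1 2).const_mul _), integral_add ((i 1 1).const_mul _) ((i 2 2).const_mul _),
      integral_const_mul, integral_const_mul, integral_const_mul, hK.m2, hK.m2, hK.m2,
      if_pos rfl, if_pos rfl, if_neg (by decide)]
    simp only [dotProduct, Fin.sum_univ_two]
    ring
  rw [← h5, h2]
  generalize hS2 : ∫ z in slice (n := 2) K h, (θ ⬝ᵥ z) ^ 2 = S2
  generalize hS1 : ∫ z in slice (n := 2) K h, θ ⬝ᵥ z = S1
  generalize hA : volume.real (slice (n := 2) K h) = A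
  generalize hq : θ ⬝ᵥ w = q
  have hD : 0 < h - α := sub_pos.2 hh
  obtain ⟨ψ, hψ⟩ : ∃ ψ : ℝ → ℝ, ψ = fun m => 0 + 0 * m + q ^ 2 * A * m ^ 2 +
    (2 * q * S1 - 2 * q ^ 2 * A) * m ^ 3 + (S2 - 2 * q * S1 + q ^ 2 * A) * m ^ 4 := ⟨_, rfl⟩
  have hψc : Continuous ψ := by rw [hψ]; fun_prop
  have key : ∀ u ∈ Set.Ioc α h, ψ ((u - α) / (h - α)) ≤ ∫ z in slice (n := 2) K u, (θ ⬝ᵥ z) ^ 2 := by
    intro u hu
    obtain ⟨m, hm⟩ : ∃ m, m = (u - α) / (h - α) := ⟨_, rfl⟩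
    have m0 : 0 < m := hm ▸ div_pos (sub_pos.2 hu.1) hD
    have m1 : m ≤ 1 := hm ▸ (div_le_one hD).2 (by linarith [hu.2])
    have hu' : u = m * h + (1 - m) * α := by
      rw [hm]
      field_simp
      ring
    have hdet : (m • (1 : Matrix (Fin 2) (Fin 2) ℝ)).det = m ^ 2 := by
      rw [Matrix.det_smul, Matrix.det_one, Fintype.card_fin, mul_one]
    have hsub : aff (m • (1 : Matrix (Fin 2) (Fin 2) ℝ)) ((1 - m) • w) (slice (n := 2) K h) ⊆
        slice (n := 2) K u := by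
      rintro _ ⟨z, hz, rfl⟩
      show ins 0 u _ ∈ K
      simp only [Matrix.smul_mulVec, Matrix.one_mulVec]
      rw [hu', ins_add_smul]
      exact hK.cvx hz hxw m0.le (sub_nonneg.2 m1) (by ring)
    have e := integral_aff hF.measurableSet (T := m • (1 : Matrix (Fin 2) (Fin 2) ℝ))
      (by rw [hdet]; positivity) ((1 - m) • w) fun z => (θ ⬝ᵥ z) ^ 2
    have i0 : IntegrableOn (fun z : Fin 2 → ℝ => (θ ⬝ᵥ z) ^ 2) (slice (n := 2) K u) :=
      (hc.pow 2).continuousOn.integrableOn_compact (slice_compact hK.cpt u)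
    have le := setIntegral_mono_set i0 (ae_of_all _ fun z => sq_nonneg _) hsub.eventuallyLE
    refine le_trans (le_of_eq ?_) le
    have i1 : IntegrableOn (fun z : Fin 2 → ℝ => m ^ 2 * (θ ⬝ᵥ z) ^ 2) (slice (n := 2) K h) :=
      (continuous_const.mul (hc.pow 2)).continuousOn.integrableOn_compact hF
    have i2 : IntegrableOn (fun z : Fin 2 → ℝ => 2 * m * (1 - m) * q * (θ ⬝ᵥ z)) (slice (n := 2) K h) :=
      (continuous_const.mul hc).continuousOn.integrableOn_compact hF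
    have i3 : IntegrableOn (fun _ : Fin 2 → ℝ => ((1 - m) * q) ^ 2) (slice (n := 2) K h) :=
      continuous_const.continuousOn.integrableOn_compact hF
    have i4 : IntegrableOn (fun z : Fin 2 → ℝ => m ^ 2 * (θ ⬝ᵥ z) ^ 2 +
      2 * m * (1 - m) * q * (θ ⬝ᵥ z)) (slice (n := 2) K h) := i1.add i2
    rw [e, hdet, abs_of_nonneg (sq_nonneg m), integral_congr_ae (g := fun z => (m ^ 2 * (θ ⬝ᵥ z) ^ 2 +
      2 * m * (1 - m) * q * (θ ⬝ᵥ z)) + ((1 - m) * q) ^ 2) (ae_of_all _ fun z => by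
        simp only [Matrix.smul_mulVec, Matrix.one_mulVec, dotProduct_add, dotProduct_smul,
          smul_eq_mul, hq]
        ring), integral_add i4 i3, integral_add i1 i2, integral_const_mul, integral_const_mul,
      setIntegral_const, hS2, hS1, hA, ← hm, hψ, smul_eq_mul]
    ring
  have h6 : ∫ u in Set.Ioc α h, ψ ((u - α) / (h - α)) ≤
      ∫ u in Set.Ioc α h, ∫ z in slice (n := 2) K u, (θ ⬝ᵥ z) ^ 2 :=
    setIntegral_mono_on ((by fun_prop : Continuous fun u => ψ ((u - α) / (h - α))).integrableOn_Ioc)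
      h4.integrableOn measurableSet_Ioc key
  have h7 : ∫ u in Set.Ioc α h, ∫ z in slice (n := 2) K u, (θ ⬝ᵥ z) ^ 2 ≤
      ∫ u, ∫ z in slice (n := 2) K u, (θ ⬝ᵥ z) ^ 2 :=
    setIntegral_le_integral h4 (ae_of_all _ fun u => integral_nonneg fun z => sq_nonneg _)
  refine le_trans (le_of_eq ?_) (h6.trans h7)
  rw [← intervalIntegral.integral_of_le hh.le,
    intervalIntegral.integral_comp_sub_right (fun u => ψ (u / (h - α))) α,
    intervalIntegral.integral_comp_div _ hD.ne', sub_self, zero_div, div_self hD.ne', hψ, one_poly,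
    smul_eq_mul]
  ring

/-- the pyramid inequality -/
theorem Iso.pyr {K : Set (Fin 3 → ℝ)} (hK : Iso K) {h : ℝ} (h1 : ∀ x ∈ K, x 0 ≤ h)
    (h2 : ∃ x ∈ K, x 0 = h) {k : ℝ} (k0 : 0 < k) (k1 : k ≤ 1)
    (hk : h ^ 2 * ((1 - k + k ^ 2 / 3) * (1 / 3 - k / 2 + k ^ 2 / 5) -
        (1 / 2 - 2 * k / 3 + k ^ 2 / 4) ^ 2) < (1 / 2 - 2 * k / 3 + k ^ 2 / 4) ^ 2) (θ : Fin 2 → ℝ) :
    h * (1 - k + k ^ 2 / 3) * (8 * volume.real (slice (n := 2) K h) *
      (∫ z in slice (n := 2) K h, (θ ⬝ᵥ z) ^ 2) - 3 * (∫ z in slice (n := 2) K h, θ ⬝ᵥ z) ^ 2) ≤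
      40 * volume.real K * (1 / 2 - 2 * k / 3 + k ^ 2 / 4) * (θ ⬝ᵥ θ) *
        volume.real (slice (n := 2) K h) := by
  obtain ⟨α, β, hM, m1, ⟨x, hx, hxa⟩, y, hy, hyb⟩ := marg_three hK
  have hb : β = h := by
    obtain ⟨z, hz, e⟩ := h2
    exact le_antisymm (hyb ▸ h1 y hy) (e ▸ (m1 z hz).2)
  subst hb
  have hd := hM.depth k0 k1 hk
  obtain ⟨q, hq⟩ := hK.pyramid hx (h := β) (hxa ▸ hM.lt) θ
  rw [hxa] at hq
  have hM0 : 0 < 1 - k + k ^ 2 / 3 := by nlinarith [sq_nonneg (k - 3 / 2)]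
  have hM1 : 0 < 1 / 2 - 2 * k / 3 + k ^ 2 / 4 := by nlinarith [sq_nonneg (k - 4 / 3)]
  have hθ : 0 ≤ θ ⬝ᵥ θ := Finset.sum_nonneg fun i _ => mul_self_nonneg (θ i)
  have hA : 0 ≤ volume.real (slice (n := 2) K β) := measureReal_nonneg
  have hV : 0 ≤ volume.real K := measureReal_nonneg
  have hβ := hM.pos_right
  have hD := sub_pos.2 hM.lt
  generalize 1 - k + k ^ 2 / 3 = M0 at *
  generalize 1 / 2 - 2 * k / 3 + k ^ 2 / 4 = M1 at *
  generalize ∫ z in slice (n := 2) K β, (θ ⬝ᵥ z) ^ 2 = S2 at *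
  generalize ∫ z in slice (n := 2) K β, θ ⬝ᵥ z = S1 at *
  generalize volume.real (slice (n := 2) K β) = A at *
  generalize volume.real K = V at *
  generalize θ ⬝ᵥ θ = r at *
  generalize β - α = D at *
  rcases le_total (8 * A * S2 - 3 * S1 ^ 2) 0 with h0 | h0
  · exact (mul_nonpos_of_nonneg_of_nonpos (by positivity) h0).trans (by positivity)
  have a1 := mul_le_mul_of_nonneg_right hd h0
  have a2 := mul_le_mul_of_nonneg_left hq (by positivity : 0 ≤ 40 * M1 * A)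
  have a3 : 0 ≤ D * M1 * (2 * q * A + 3 * S1) ^ 2 := by positivity
  nlinarith

end Pool.Agent.P.MP_2e1554_gt
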