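import Pool.Agent.P.MP_2e1554_gt.IsoChord
import Pool.Agent.P.MP_2e1554_gt.IsoPair
import Pool.Agent.P.MP_2e1554_gt.IsoArea
import Pool.Agent.P.MP_2e1554_gt.IsoPyr

open MeasureTheory Set Finset Matrix Filter Topology Pointwise

namespace Pool.Agent.P.MP_2e1554_gt

variable {n : ℕ}

private lemma face_dot_self (v : Fin n → ℝ) : 0 ≤ v ⬝ᵥ v :=
  Finset.sum_nonneg fun i _ => mul_self_nonneg (v i)

private lemma face_ins_dot (s t : ℝ) (y z : Fin n → ℝ) :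
    ins 0 s y ⬝ᵥ ins 0 t z = s * t + y ⬝ᵥ z := by
  unfold dotProduct
  rw [Fin.sum_univ_succAbove _ 0]
  simp only [ins_same, ins_succAbove]

private lemma face_ins_sub (s : ℝ) (y z : Fin n → ℝ) :
    (ins 0 s y - ins 0 s z) ⬝ᵥ (ins 0 s y - ins 0 s z) = (y - z) ⬝ᵥ (y - z) := by
  simp only [sub_dotProduct, dotProduct_sub, face_ins_dot]
  ring

/-- the marginal in an arbitrary direction -/
private lemma face_marg {K : Set (Fin 3 → ℝ)} (hK : Iso K) (θ : Fin 3 → ℝ) :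
    ∃ (r α β V : ℝ) (p : ℝ → ℝ), 0 ≤ r ∧ r ^ 2 = θ ⬝ᵥ θ ∧ Marg 2 p α β V ∧
      (∀ x ∈ K, ∃ u ∈ Set.Icc α β, θ ⬝ᵥ x = r * u) ∧ (∃ x ∈ K, θ ⬝ᵥ x = r * α) ∧
      ∃ x ∈ K, θ ⬝ᵥ x = r * β := by
  obtain ⟨O, hO, hθ⟩ := exists_rot θ
  obtain ⟨α, β, hM, h1, ⟨x, hx, hxa⟩, ⟨y, hy, hyb⟩⟩ := marg_three (hK.rot hO)
  have key : ∀ x : Fin 3 → ℝ, θ ⬝ᵥ x = Real.sqrt (θ ⬝ᵥ θ) * (O *ᵥ x + 0) 0 := by
    intro x
    rw [← rot_dot hO θ x, hθ, single_dotProduct, add_zero]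
  refine ⟨Real.sqrt (θ ⬝ᵥ θ), α, β, _, _, Real.sqrt_nonneg _, Real.sq_sqrt (face_dot_self θ), hM,
    fun x hx => ⟨_, h1 _ ⟨x, hx, rfl⟩, key x⟩, ?_, ?_⟩
  · obtain ⟨x', hx', rfl⟩ := hx
    exact ⟨x', hx', by rw [key x', ← hxa]⟩
  · obtain ⟨y', hy', rfl⟩ := hy
    exact ⟨y', hy', by rw [key y', ← hyb]⟩

theorem Iso.pair {K : Set (Fin 3 → ℝ)} (hK : Iso K) {x y : Fin 3 → ℝ} (hx : x ∈ K) (hy : y ∈ K)
    (θ : Fin 3 → ℝ) {a b : ℝ} (ea : a = -(θ ⬝ᵥ x)) (eb : b = θ ⬝ᵥ y) (h1 : a ≤ 3 * b)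
    (h2 : b ≤ 3 * a) : 3 * a ^ 2 - 2 * a * b + 3 * b ^ 2 ≤ 40 * (θ ⬝ᵥ θ) := by
  obtain ⟨r, α, β, V, p, hr, hr2, hM, h, -, -⟩ := face_marg hK θ
  obtain ⟨u, hu, eu⟩ := h x hx
  obtain ⟨w, hw, ew⟩ := h y hy
  rw [eu] at ea
  rw [ew] at eb
  rw [← hr2]
  rcases hr.eq_or_lt with h0 | h0
  · rw [ea, eb, ← h0]; norm_num
  · have h3 : -u ≤ 3 * w := by
      refine le_of_mul_le_mul_left ?_ h0
      rw [ea, eb] at h1; linarith
    have h4 : w ≤ 3 * -u := by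
      refine le_of_mul_le_mul_left ?_ h0
      rw [ea, eb] at h2; linarith
    have h5 := hM.pair (a := -u) (b := w) (by rw [neg_neg]; exact hu) hw h3 h4
    have h6 := mul_le_mul_of_nonneg_left h5 (sq_nonneg r)
    rw [ea, eb]
    nlinarith [h6]

/-- the diameter bound -/
theorem Iso.dia {K : Set (Fin 3 → ℝ)} (hK : Iso K) {x y : Fin 3 → ℝ} (hx : x ∈ K) (hy : y ∈ K) :
    (x - y) ⬝ᵥ (x - y) ≤ 40 := by
  have h15 : ((3 : ℕ) : ℝ) * (((3 : ℕ) : ℝ) + 2) = 15 := by norm_num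
  have rx := hK.rad hx
  have ry := hK.rad hy
  rw [h15] at rx ry
  have h := hK.pair hx hy (y - x) rfl rfl
  have e : (y - x) ⬝ᵥ (y - x) = (x - y) ⬝ᵥ (x - y) := by
    rw [← neg_sub x y, neg_dotProduct, dotProduct_neg, neg_neg]
  rw [e] at h
  have p1 := face_dot_self ((4 : ℝ) • x - (3 : ℝ) • (x - y))
  have p2 := face_dot_self ((4 : ℝ) • y - (3 : ℝ) • (y - x))
  simp only [sub_dotProduct, dotProduct_sub, smul_dotProduct, dotProduct_smul, smul_eq_mul,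
    dotProduct_comm y x] at h p1 p2 ⊢
  generalize x ⬝ᵥ x = A at *
  generalize y ⬝ᵥ y = B at *
  generalize x ⬝ᵥ y = C at *
  by_contra hc
  rw [not_le] at hc
  have h3 := h (by linarith) (by linarith)
  nlinarith [sq_nonneg (A - B)]

theorem Iso.facet_three {K : Set (Fin 3 → ℝ)} (hK : Iso K) {a : Fin 3 → ℝ}
    (h : ∀ x ∈ K, a ⬝ᵥ x ≤ 1) : a ⬝ᵥ a ≤ 3 / 5 := by
  obtain ⟨r, α, β, V, p, hr, hr2, hM, -, -, y, hy, ey⟩ := face_marg hK a
  have h1 := h y hy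
  rw [ey] at h1
  have h2 := hM.two
  have h3 := hM.pos_right
  have h4 : 0 ≤ r * β := mul_nonneg hr h3.le
  have h5 : (r * β) ^ 2 ≤ 1 := pow_le_one₀ h4 h1
  have h6 := mul_le_mul_of_nonneg_left h2 (sq_nonneg r)
  rw [← hr2]
  nlinarith

theorem face_of_crit {A : Finset (Fin 3 → ℝ)} (hA : Iso (poly A)) (hc : Crit A) {h : ℝ}
    (hh : 0 < h) (ha : Pi.single 0 h⁻¹ ∈ A) (hpos : 0 < sv (poly A) h) :
    Face (volume.real (poly A)) h (slice (poly A) h) := by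
  have hcv := slice_convex hA.cvx h
  have hcp := slice_compact hA.cpt h
  have hint : (interior (slice (poly A) h)).Nonempty := by
    by_contra hne
    rw [Set.not_nonempty_iff_eq_empty] at hne
    have h1 := hcv.addHaar_frontier (volume : Measure (Fin 2 → ℝ))
    rw [frontier, hne, hcp.isClosed.closure_eq, Set.sdiff_empty] at h1
    rw [sv, Measure.real, h1] at hpos
    simp at hpos
  have hcr := crit_hcone hA.cpt.isBounded hc hh ha
  have h5 : ((2 : ℕ) : ℝ) + 3 = 5 := by norm_num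
  rw [h5] at hcr
  have hW : ∀ y z : Fin 2 → ℝ, h ^ 2 * ((y - z) ⬝ᵥ (y - z)) + (y 0 * z 1 - y 1 * z 0) ^ 2 =
      (ins 0 h y ⬝ᵥ ins 0 h y) * (ins 0 h z ⬝ᵥ ins 0 h z) - (ins 0 h y ⬝ᵥ ins 0 h z) ^ 2 := by
    intro y z
    simp only [face_ins_dot]
    simp only [dotProduct, Fin.sum_univ_two, Pi.sub_apply]
    ring
  have hch : ∀ y ∈ slice (poly A) h, ∀ z ∈ slice (poly A) h, _ := fun y hy z hz =>
    chord hA (x := ins 0 h y) (y := ins 0 h z) hy hz (face_ins_sub h y z).symm (hW y z)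
  refine ⟨⟨hcv, hcp, hint⟩, hh, ?_, hcr.1, hcr.2, ?_, ?_, ?_, ?_, ?_, ?_, ?_, ?_, ?_, ?_⟩
  · have h1 := hA.facet_three (a := Pi.single 0 h⁻¹) fun x hx => hx _ ha
    rw [single_dotProduct, Pi.single_eq_same] at h1
    have h2 : h ^ 2 * (h⁻¹ * h⁻¹) = 1 := by field_simp
    nlinarith [mul_le_mul_of_nonneg_left h1 (sq_nonneg h)]
  · intro z hz
    have h1 := hA.rad (x := ins 0 h z) hz
    rw [face_ins_dot] at h1
    have h15 : ((3 : ℕ) : ℝ) * (((3 : ℕ) : ℝ) + 2) = 15 := by norm_num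
    rw [h15] at h1
    linarith
  · intro y hy z hz s θ a b ea eb h1 h2
    have h3 := hA.pair (x := ins 0 h y) (y := ins 0 h z) hy hz (ins 0 s θ) (a := a) (b := b)
      (by rw [face_ins_dot]; exact ea) (by rw [face_ins_dot]; exact eb) h1 h2
    rw [face_ins_dot] at h3
    linarith
  · intro y hy z hz h1
    have h2 := (hch y hy z hz).2.2.1 h1
    linarith
  · intro y hy z hz
    have h2 := (hch y hy z hz).2.1
    linarith
  · intro y hy z hz h1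
    have h2 := (hch y hy z hz).2.2.2.1 h1
    linarith
  · intro y hy z hz h1
    have h2 := (hch y hy z hz).2.2.2.2 h1
    linarith
  · intro y hy z hz
    rw [← face_ins_sub h]
    exact hA.dia (x := ins 0 h y) (y := ins 0 h z) hy hz
  · intro y hy z hz
    have h2 := (hch y hy z hz).1
    linarith
  · intro k k0 k1 hk
    obtain ⟨α, β, hM, h1, -, x, hx, hxb⟩ := marg_three hA
    have hb : β = h := by
      refine le_antisymm ?_ ?_
      · have h2 := hx _ ha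
        rw [single_dotProduct, hxb, inv_mul_le_iff₀ hh, mul_one] at h2
        exact h2
      · obtain ⟨z, hz⟩ := hint
        have h2 := (h1 _ (interior_subset hz : z ∈ slice (poly A) h)).2
        rwa [ins_same] at h2
    subst hb
    exact hM.area k0 k1 hk
  · intro k k0 k1 hk θ
    refine hA.pyr (fun x hx => ?_) ?_ k0 k1 hk θ
    · have h2 := hx _ ha
      rwa [single_dotProduct, inv_mul_le_iff₀ hh, mul_one] at h2
    · obtain ⟨z, hz⟩ := hint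
      exact ⟨_, (interior_subset hz : z ∈ slice (poly A) h), ins_same _ _ _⟩

end Pool.Agent.P.MP_2e1554_gt
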