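import Pool.Agent.P.MP_2e1554_gt.IsoPlane

open MeasureTheory Set Finset Matrix Filter Topology Pointwise

namespace Pool.Agent.P.MP_2e1554_gt

theorem Iso.inn_two {K : Set (Fin 2 → ℝ)} (hK : Iso K) {y : Fin 2 → ℝ} (hy : y ⬝ᵥ y ≤ 2) :
    y ∈ K := by
  by_contra h
  obtain ⟨f, u, h1, h2⟩ := geometric_hahn_banach_closed_point hK.cvx hK.cpt.isClosed h
  obtain ⟨a, hf⟩ : ∃ a : Fin 2 → ℝ, ∀ x, f x = a ⬝ᵥ x := by
    refine ⟨fun i => f (Pi.single i 1), fun x => ?_⟩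
    conv_lhs => rw [pi_eq_sum_univ' x]
    simp [dotProduct, mul_comm]
  obtain ⟨O, hO, hθ⟩ := exists_rot a
  obtain ⟨α, β, hM, -, -, ⟨z, hz, hzb⟩⟩ := marg_two (hK.rot hO)
  obtain ⟨x, hx, rfl⟩ := hz
  have key : a ⬝ᵥ x = Real.sqrt (a ⬝ᵥ a) * β := by
    rw [← rot_dot hO a x, hθ, single_dotProduct, ← hzb]
    simp only [add_zero]
  have hr : 0 ≤ Real.sqrt (a ⬝ᵥ a) := Real.sqrt_nonneg _
  have hr2 : Real.sqrt (a ⬝ᵥ a) ^ 2 = a ⬝ᵥ a := Real.sq_sqrt (rot_self_nonneg a)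
  have hb := hM.pos_right
  have hb2 := hM.one
  have hcs : (a ⬝ᵥ y) ^ 2 ≤ (a ⬝ᵥ a) * (y ⬝ᵥ y) := by
    simpa only [dotProduct, sq] using Finset.sum_mul_sq_le_sq_mul_sq Finset.univ a y
  have h3 : Real.sqrt (a ⬝ᵥ a) * β < a ⬝ᵥ y := by
    rw [← key, ← hf x, ← hf y]
    exact (h1 x hx).trans h2
  have h4 : 0 ≤ Real.sqrt (a ⬝ᵥ a) * β := mul_nonneg hr hb.le
  have h5 : (Real.sqrt (a ⬝ᵥ a) * β) ^ 2 < (a ⬝ᵥ y) ^ 2 := pow_lt_pow_left₀ h3 h4 two_ne_zero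
  rw [mul_pow, hr2] at h5
  have h6 := mul_le_mul_of_nonneg_left (hy.trans hb2) (rot_self_nonneg a)
  linarith

theorem Iso.area_two {K : Set (Fin 2 → ℝ)} (hK : Iso K) : 108 ≤ volume.real K ^ 2 := by
  have h1 := plane_Jv hK.toBody
  rw [hK.Jv_eq] at h1
  have hV := hK.toBody.vol_pos
  exact (one_div_le_one_div (by positivity) (by norm_num)).1 h1

/-- a rotation that diagonalises a symmetric two by two matrix -/
private lemma frameA_angle (a b c : ℝ) : ∃ p q : ℝ, p ^ 2 + q ^ 2 = 1 ∧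
    (c - a) * (p * q) + b * (p ^ 2 - q ^ 2) = 0 ∧ 0 ≤ (a - c) * (p ^ 2 - q ^ 2) + 4 * b * (p * q) := by
  obtain ⟨r, φ, hr, h1, h2⟩ : ∃ r φ : ℝ, 0 ≤ r ∧ r * Real.cos φ = a - c ∧ r * Real.sin φ = 2 * b :=
    ⟨‖(⟨a - c, 2 * b⟩ : ℂ)‖, Complex.arg ⟨a - c, 2 * b⟩, norm_nonneg _,
      Complex.norm_mul_cos_arg _, Complex.norm_mul_sin_arg _⟩
  have e1 : Real.cos (φ / 2) ^ 2 - Real.sin (φ / 2) ^ 2 = Real.cos φ := by
    rw [← Real.cos_two_mul', mul_div_cancel₀ _ two_ne_zero]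
  have e2 : Real.cos (φ / 2) * Real.sin (φ / 2) = Real.sin φ / 2 := by
    have := Real.sin_two_mul (φ / 2)
    rw [mul_div_cancel₀ _ two_ne_zero] at this
    linarith
  refine ⟨Real.cos (φ / 2), Real.sin (φ / 2), Real.cos_sq_add_sin_sq _, ?_, ?_⟩
  · rw [e1, e2]
    linear_combination (Real.sin φ / 2) * h1 - (Real.cos φ / 2) * h2
  · rw [e1, e2]
    have e3 : (a - c) * Real.cos φ + 4 * b * (Real.sin φ / 2) = r := by
      linear_combination (-Real.cos φ) * h1 - Real.sin φ * h2 + r * Real.cos_sq_add_sin_sq φ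
    rw [e3]
    exact hr

private lemma frameA_sign (x : ℝ) : ∃ e : ℝ, e ^ 2 = 1 ∧ 0 ≤ e * x := by
  rcases le_total 0 x with h | h
  · exact ⟨1, by norm_num, by linarith⟩
  · exact ⟨-1, by norm_num, by linarith⟩

/-- the covariance frame -/
theorem exists_frame {F : Set (Fin 2 → ℝ)} (hF : Body F) :
    ∃ (K : Set (Fin 2 → ℝ)) (T : Matrix (Fin 2) (Fin 2) ℝ) (m : Fin 2 → ℝ) (g₁ g₂ : ℝ),
      Iso K ∧ T.det ≠ 0 ∧ F = aff T m K ∧ Tᵀ * T = Matrix.diagonal ![g₁, g₂] ∧ g₂ ≤ g₁ ∧ 0 < g₂ ∧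
        ∀ i, 0 ≤ (Tᵀ *ᵥ m) i := by
  obtain ⟨K0, T0, m, hK0, hT0, hF0⟩ : ∃ (K0 : Set (Fin 2 → ℝ)) (T0 : Matrix (Fin 2) (Fin 2) ℝ)
      (m : Fin 2 → ℝ), Iso K0 ∧ T0.det ≠ 0 ∧ F = aff T0 m K0 := by
    obtain ⟨S, c, hS, hK⟩ := exists_iso hF
    refine ⟨_, S⁻¹, -(S⁻¹ *ᵥ c), hK, ?_, (aff_inv F hS c).symm⟩
    rw [det_nonsing_inv, Ring.inverse_eq_inv']
    exact inv_ne_zero hS
  obtain ⟨p, q, hpq, hoff, hge⟩ := frameA_angle (T0 0 0 ^ 2 + T0 1 0 ^ 2)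
    (T0 0 0 * T0 0 1 + T0 1 0 * T0 1 1) (T0 0 1 ^ 2 + T0 1 1 ^ 2)
  obtain ⟨e, he, he0⟩ := frameA_sign
    (p * (T0 0 0 * m 0 + T0 1 0 * m 1) + q * (T0 0 1 * m 0 + T0 1 1 * m 1))
  obtain ⟨d, hd, hd0⟩ := frameA_sign
    (-q * (T0 0 0 * m 0 + T0 1 0 * m 1) + p * (T0 0 1 * m 0 + T0 1 1 * m 1))
  obtain ⟨U, u00, u01, u10, u11⟩ : ∃ U : Matrix (Fin 2) (Fin 2) ℝ,
      U 0 0 = e * p ∧ U 0 1 = -(d * q) ∧ U 1 0 = e * q ∧ U 1 1 = d * p :=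
    ⟨!![e * p, -(d * q); e * q, d * p], rfl, rfl, rfl, rfl⟩
  have hU : Uᵀ * U = 1 := by
    ext i j
    fin_cases i <;> fin_cases j <;>
      simp only [Matrix.mul_apply, Fin.sum_univ_two, transpose_apply, Fin.zero_eta, Fin.mk_one,
        Fin.isValue, u00, u01, u10, u11, one_apply_eq, ne_eq, zero_ne_one, one_ne_zero,
        not_false_eq_true, one_apply_ne]
    · linear_combination (p ^ 2 + q ^ 2) * he + hpq
    · ring
    · ring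
    · linear_combination (p ^ 2 + q ^ 2) * hd + hpq
  have hU' : Uᵀᵀ * Uᵀ = 1 := by rw [transpose_transpose]; exact rot_right hU
  obtain ⟨T, hT⟩ : ∃ T, T = T0 * U := ⟨_, rfl⟩
  have t00 : T 0 0 = e * (T0 0 0 * p + T0 0 1 * q) := by
    rw [hT, Matrix.mul_apply, Fin.sum_univ_two, u00, u10]; ring
  have t01 : T 0 1 = d * (-(T0 0 0 * q) + T0 0 1 * p) := by
    rw [hT, Matrix.mul_apply, Fin.sum_univ_two, u01, u11]; ring
  have t10 : T 1 0 = e * (T0 1 0 * p + T0 1 1 * q) := by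
    rw [hT, Matrix.mul_apply, Fin.sum_univ_two, u00, u10]; ring
  have t11 : T 1 1 = d * (-(T0 1 0 * q) + T0 1 1 * p) := by
    rw [hT, Matrix.mul_apply, Fin.sum_univ_two, u01, u11]; ring
  have hdet : T.det ≠ 0 := by
    rw [hT, det_mul]
    exact mul_ne_zero hT0 (rot_det_ne hU)
  have hz : T 0 0 * T 0 1 + T 1 0 * T 1 1 = 0 := by
    rw [t00, t01, t10, t11]
    linear_combination (e * d) * hoff
  refine ⟨aff Uᵀ 0 K0, T, m, T 0 0 ^ 2 + T 1 0 ^ 2, T 0 1 ^ 2 + T 1 1 ^ 2, hK0.rot hU', hdet, ?_, ?_,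
    ?_, ?_, ?_⟩
  · rw [hF0, aff, aff, aff, image_image]
    refine Set.image_congr fun x _ => ?_
    rw [add_zero, hT, ← mulVec_mulVec, rot_back hU]
  · ext i j
    fin_cases i <;> fin_cases j <;>
      simp only [Matrix.mul_apply, Fin.sum_univ_two, transpose_apply, Fin.zero_eta, Fin.mk_one,
        Fin.isValue, diagonal_apply_eq, cons_val_zero, cons_val_one, cons_val_fin_one, ne_eq,
        zero_ne_one, one_ne_zero, not_false_eq_true, diagonal_apply_ne]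
    · ring
    · linarith
    · linarith
    · ring
  · have e1 : T 0 0 ^ 2 + T 1 0 ^ 2 - (T 0 1 ^ 2 + T 1 1 ^ 2) =
        (T0 0 0 ^ 2 + T0 1 0 ^ 2 - (T0 0 1 ^ 2 + T0 1 1 ^ 2)) * (p ^ 2 - q ^ 2) +
          4 * (T0 0 0 * T0 0 1 + T0 1 0 * T0 1 1) * (p * q) := by
      rw [t00, t01, t10, t11]
      linear_combination ((T0 0 0 * p + T0 0 1 * q) ^ 2 + (T0 1 0 * p + T0 1 1 * q) ^ 2) * he -
        ((-(T0 0 0 * q) + T0 0 1 * p) ^ 2 + (-(T0 1 0 * q) + T0 1 1 * p) ^ 2) * hd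
    linarith
  · rw [det_fin_two] at hdet
    by_contra hc
    have h1 : T 0 1 ^ 2 + T 1 1 ^ 2 ≤ 0 := not_lt.1 hc
    have h2 : T 0 1 = 0 := by nlinarith [sq_nonneg (T 0 1), sq_nonneg (T 1 1)]
    have h3 : T 1 1 = 0 := by nlinarith [sq_nonneg (T 0 1), sq_nonneg (T 1 1)]
    exact hdet (by rw [h2, h3]; ring)
  · intro i
    fin_cases i
    · simp only [mulVec, dotProduct, Fin.sum_univ_two, transpose_apply, Fin.zero_eta, Fin.isValue,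
        t00, t10]
      linarith
    · simp only [mulVec, dotProduct, Fin.sum_univ_two, transpose_apply, Fin.mk_one, Fin.isValue,
        t01, t11]
      linarith

end Pool.Agent.P.MP_2e1554_gt
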