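import Pool.Agent.P.MP_2e1554_gt.IsoDefs

open MeasureTheory Set Finset Matrix Filter Topology Pointwise

namespace Pool.Agent.P.MP_2e1554_gt

lemma frB_lag (p0 p1 q0 q1 s : ℝ) : (p0 * q1 - p1 * q0) ^ 2 ≤
    ((p0 - q0) ^ 2 + (p1 - q1) ^ 2) * ((p0 + s * (q0 - p0)) ^ 2 + (p1 + s * (q1 - p1)) ^ 2) := by
  have e : ((p0 - q0) ^ 2 + (p1 - q1) ^ 2) *
      ((p0 + s * (q0 - p0)) ^ 2 + (p1 + s * (q1 - p1)) ^ 2) = (p0 * q1 - p1 * q0) ^ 2 +
      ((p0 - q0) * (p0 + s * (q0 - p0)) + (p1 - q1) * (p1 + s * (q1 - p1))) ^ 2 := by ring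
  rw [e]
  exact le_add_of_nonneg_right (sq_nonneg _)

lemma frB_int {K : Set (Fin 2 → ℝ)} (hK : IsCompact K) {f : (Fin 2 → ℝ) → ℝ} (hf : Continuous f) :
    IntegrableOn f K := hf.continuousOn.integrableOn_compact hK

lemma frB_quad {K : Set (Fin 2 → ℝ)} (hK : Iso K) (c a b g₁ g₂ : ℝ) :
    ∫ y in K, (c + a * y 0 + b * y 1 + g₁ * (y 0 * y 0) + g₂ * (y 1 * y 1)) =
      volume.real K * (c + g₁ + g₂) := by
  have i0 : IntegrableOn (fun _ : Fin 2 → ℝ => c) K := frB_int hK.cpt continuous_const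
  have i1 : IntegrableOn (fun y : Fin 2 → ℝ => a * y 0) K := frB_int hK.cpt (by fun_prop)
  have i2 : IntegrableOn (fun y : Fin 2 → ℝ => b * y 1) K := frB_int hK.cpt (by fun_prop)
  have i3 : IntegrableOn (fun y : Fin 2 → ℝ => g₁ * (y 0 * y 0)) K := frB_int hK.cpt (by fun_prop)
  have i4 : IntegrableOn (fun y : Fin 2 → ℝ => g₂ * (y 1 * y 1)) K := frB_int hK.cpt (by fun_prop)
  rw [integral_add (by exact ((i0.add i1).add i2).add i3) i4,
    integral_add (by exact (i0.add i1).add i2) i3, integral_add (by exact i0.add i1) i2,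
    integral_add i0 i1, integral_const_mul, integral_const_mul, integral_const_mul,
    integral_const_mul, hK.m1, hK.m1, hK.m2, hK.m2, setIntegral_const, smul_eq_mul,
    if_pos rfl, if_pos rfl]
  ring

lemma frB_lin {K : Set (Fin 2 → ℝ)} (hK : IsCompact K) {f : (Fin 2 → ℝ) → ℝ} (hf : Continuous f)
    (a b c : ℝ) : ∫ y in K, f y * (a * y 0 + b * y 1 + c) =
      a * (∫ y in K, f y * y 0) + b * (∫ y in K, f y * y 1) + c * ∫ y in K, f y := by
  have i1 : IntegrableOn (fun y : Fin 2 → ℝ => a * (f y * y 0)) K := frB_int hK (by fun_prop)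
  have i2 : IntegrableOn (fun y : Fin 2 → ℝ => b * (f y * y 1)) K := frB_int hK (by fun_prop)
  have i3 : IntegrableOn (fun y : Fin 2 → ℝ => c * f y) K := frB_int hK (by fun_prop)
  rw [← integral_const_mul, ← integral_const_mul, ← integral_const_mul, ← integral_add i1 i2,
    ← integral_add (by exact i1.add i2) i3]
  exact integral_congr_ae (ae_of_all _ fun y => by ring)

end Pool.Agent.P.MP_2e1554_gt
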