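import Pool.Agent.P.MP_2e1554_gt.IsoDefs6
import Pool.Agent.P.MP_2e1554_gt.IsoFace
import Pool.Agent.P.MP_2e1554_gt.IsoFrameA
import Pool.Agent.P.MP_2e1554_gt.IsoFrameB

open MeasureTheory Set Finset Matrix Filter Topology Pointwise

namespace Pool.Agent.P.MP_2e1554_gt

lemma frC_prod {K : Set (Fin 2 → ℝ)} (hK : Iso K) (c a b c' a' b' : ℝ) :
    ∫ y in K, (a * y 0 + b * y 1 + c) * (a' * y 0 + b' * y 1 + c') =
      volume.real K * (c * c' + a * a' + b * b') := by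
  have i1 : IntegrableOn (fun y : Fin 2 → ℝ => c * c' + (a * c' + c * a') * y 0 +
      (b * c' + c * b') * y 1 + a * a' * (y 0 * y 0) + b * b' * (y 1 * y 1)) K :=
    frB_int hK.cpt (by fun_prop)
  have i2 : IntegrableOn (fun y : Fin 2 → ℝ => (a * b' + b * a') * (y 0 * y 1)) K :=
    frB_int hK.cpt (by fun_prop)
  rw [integral_congr_ae (g := fun y => (c * c' + (a * c' + c * a') * y 0 +
      (b * c' + c * b') * y 1 + a * a' * (y 0 * y 0) + b * b' * (y 1 * y 1)) +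
      (a * b' + b * a') * (y 0 * y 1)) (ae_of_all _ fun y => by ring), integral_add i1 i2,
    frB_quad hK, integral_const_mul, hK.m2, if_neg (by decide)]
  ring

theorem fr_of_face2 {V h : ℝ} {F : Set (Fin 2 → ℝ)} (hV : V ^ 2 ≤ 8000 / 9 + 1 / 50)
    (hF : Face V h F) : ∃ (g₁ g₂ v₁ v₂ J : ℝ) (K : Set (Fin 2 → ℝ)), Fr g₁ g₂ v₁ v₂ J K ∧
      h * volume.real F = J * volume.real K ∧
        h * sa h F = J * (∫ y in K, 1 / Real.sqrt (Rq g₁ g₂ v₁ v₂ y) ^ 3) ∧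
          Nm (Sm h F) = Nq g₁ g₂ v₁ v₂ ∧ Ph (Pi.single 0 h⁻¹) (Sm h F) = Phq g₁ g₂ v₁ v₂ := by
  have hV' : V ≤ 29815 / 1000 := (abs_le_of_sq_le_sq' (hV.trans (by norm_num)) (by norm_num)).2
  obtain ⟨K, T, m, g₁, g₂, hK, hT, rfl, hD, h12, h2, hv⟩ := exists_frame hF.body
  have hm := hK.cpt.measurableSet
  have hvol := hK.toBody.vol_pos
  have hdet : 0 < |T.det| := abs_pos.2 hT
  have e1 : T 0 0 ^ 2 + T 1 0 ^ 2 = g₁ := by
    have := congrFun (congrFun hD 0) 0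
    simp [Matrix.mul_apply, Fin.sum_univ_two] at this
    linarith
  have e2 : T 0 1 ^ 2 + T 1 1 ^ 2 = g₂ := by
    have := congrFun (congrFun hD 1) 1
    simp [Matrix.mul_apply, Fin.sum_univ_two] at this
    linarith
  have e0 : T 0 0 * T 0 1 + T 1 0 * T 1 1 = 0 := by
    have := congrFun (congrFun hD 0) 1
    simpa [Matrix.mul_apply, Fin.sum_univ_two] using this
  have ed : T.det = T 0 0 * T 1 1 - T 0 1 * T 1 0 := Matrix.det_fin_two T
  have P0 : ∀ y : Fin 2 → ℝ, (T *ᵥ y + m) 0 = T 0 0 * y 0 + T 0 1 * y 1 + m 0 := fun y => by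
    simp
  have P1 : ∀ y : Fin 2 → ℝ, (T *ᵥ y + m) 1 = T 1 0 * y 0 + T 1 1 * y 1 + m 1 := fun y => by
    simp
  have hv1 : 0 ≤ T 0 0 * m 0 + T 1 0 * m 1 := by
    simpa [Matrix.mulVec, dotProduct, Fin.sum_univ_two] using hv 0
  have hv2 : 0 ≤ T 0 1 * m 0 + T 1 1 * m 1 := by
    simpa [Matrix.mulVec, dotProduct, Fin.sum_univ_two] using hv 1
  have dd : ∀ p q : Fin 2 → ℝ, p ⬝ᵥ q = p 0 * q 0 + p 1 * q 1 := fun p q => by
    simp [dotProduct, Fin.sum_univ_two]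
  generalize T 0 0 = a at *
  generalize T 0 1 = b at *
  generalize T 1 0 = c at *
  generalize T 1 1 = d at *
  obtain ⟨v₁, ev1⟩ : ∃ v, v = a * m 0 + c * m 1 := ⟨_, rfl⟩
  obtain ⟨v₂, ev2⟩ : ∃ v, v = b * m 0 + d * m 1 := ⟨_, rfl⟩
  -- the trace identity
  have c0 : h ^ 2 + m 0 ^ 2 + m 1 ^ 2 = 5 - g₁ - g₂ := by
    have h0 := hF.c0
    rw [integral_aff hm hT, integral_congr_ae (g := fun y => (h ^ 2 + m 0 ^ 2 + m 1 ^ 2 - 5) +
      (2 * v₁) * y 0 + (2 * v₂) * y 1 + g₁ * (y 0 * y 0) + g₂ * (y 1 * y 1))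
      (ae_of_all _ fun y => by
        simp only [dd, P0, P1, ev1, ev2, ← e1, ← e2]
        linear_combination (2 * y 0 * y 1) * e0), frB_quad hK] at h0
    have h1 := (mul_eq_zero.1 h0).resolve_left hdet.ne'
    have h3 := (mul_eq_zero.1 h1).resolve_left hvol.ne'
    linarith
  have hB : ∀ y z : Fin 2 → ℝ, Bq g₁ g₂ v₁ v₂ y z = h ^ 2 + (T *ᵥ y + m) ⬝ᵥ (T *ᵥ z + m) := by
    intro y z
    rw [Bq, ← c0, dd, P0, P0, P1, P1, ev1, ev2, ← e1, ← e2]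
    linear_combination (-(y 0 * z 1 + y 1 * z 0)) * e0
  have hR : ∀ y : Fin 2 → ℝ, Rq g₁ g₂ v₁ v₂ y = h ^ 2 + (T *ᵥ y + m) ⬝ᵥ (T *ᵥ y + m) := by
    intro y
    rw [← hB, Rq, Bq]
    ring
  have hG : ∀ y z : Fin 2 → ℝ, Gq g₁ g₂ (y - z) =
      ((T *ᵥ y + m) - (T *ᵥ z + m)) ⬝ᵥ ((T *ᵥ y + m) - (T *ᵥ z + m)) := by
    intro y z
    rw [Gq, dd, Pi.sub_apply (T *ᵥ y + m), Pi.sub_apply (T *ᵥ y + m), P0, P0, P1, P1,
      Pi.sub_apply, Pi.sub_apply, ← e1, ← e2]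
    linear_combination (-(2 * (y 0 - z 0) * (y 1 - z 1))) * e0
  have hS : ∀ (y z : Fin 2 → ℝ) (s : ℝ) (i : Fin 2), (T *ᵥ (y + s • (z - y)) + m) i =
      (T *ᵥ y + m) i + s * ((T *ᵥ z + m) i - (T *ᵥ y + m) i) := by
    intro y z s i
    simp only [Matrix.mulVec_add, Matrix.mulVec_smul, Matrix.mulVec_sub, Pi.add_apply,
      Pi.smul_apply, Pi.sub_apply, smul_eq_mul]
    ring
  have hX : ∀ (y z : Fin 2 → ℝ) (s : ℝ),
      h ^ 2 * Gq g₁ g₂ (y - z) + ((T *ᵥ y + m) 0 * (T *ᵥ z + m) 1 -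
        (T *ᵥ y + m) 1 * (T *ᵥ z + m) 0) ^ 2 ≤
      Gq g₁ g₂ (y - z) * Rq g₁ g₂ v₁ v₂ (y + s • (z - y)) := by
    intro y z s
    rw [hR, hG, dd, dd, hS, hS, Pi.sub_apply, Pi.sub_apply]
    have := frB_lag ((T *ᵥ y + m) 0) ((T *ᵥ y + m) 1) ((T *ᵥ z + m) 0) ((T *ᵥ z + m) 1) s
    linarith
  have hGn : ∀ y : Fin 2 → ℝ, 0 ≤ Gq g₁ g₂ y := fun y =>
    add_nonneg (mul_nonneg (h2.le.trans h12) (sq_nonneg _)) (mul_nonneg h2.le (sq_nonneg _))
  have mem : ∀ y ∈ K, T *ᵥ y + m ∈ aff T m K := fun y hy => ⟨y, hy, rfl⟩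
  have hc : Continuous fun y : Fin 2 → ℝ => Rq g₁ g₂ v₁ v₂ y - 5 := by
    unfold Rq
    fun_prop
  refine ⟨g₁, g₂, v₁, v₂, h * |T.det|, K, ⟨hK, h12, h2, ev1 ▸ hv1, ev2 ▸ hv2,
    mul_pos hF.hpos hdet, ?_, fun y => ?_, fun y hy => ?_, ?_, hK.area_two,
    fun y hy => hK.inn_two hy, fun y hy => ?_, fun y hy z hz s hs => ?_, fun y hy z hz s => ?_,
    fun y hy z hz s hs => ?_, fun y hy z hz s hs => ?_, fun y hy z hz => ?_,
    fun k y k0 k1 hk p q => ?_, fun k k0 k1 hk => ?_⟩, ?_, ?_, ?_, ?_⟩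
  · rw [mul_pow, sq_abs, ed, Jq, ← c0, ev1, ev2, ← e1, ← e2]
    linear_combination (-(h ^ 2 + m 0 ^ 2 + m 1 ^ 2) * (a * b + c * d) +
      2 * (a * m 0 + c * m 1) * (b * m 0 + d * m 1)) * e0
  · rw [hR, dd]
    nlinarith [hF.h2, mul_self_nonneg ((T *ᵥ y + m) 0), mul_self_nonneg ((T *ᵥ y + m) 1)]
  · rw [hR]
    exact hF.rad _ (mem y hy)
  · have A : ∫ y in K, (Rq g₁ g₂ v₁ v₂ y - 5) = 0 := by
      have h0 := hF.c0
      rw [integral_aff hm hT] at h0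
      simpa only [hR] using (mul_eq_zero.1 h0).resolve_left hdet.ne'
    have A0 := hF.c1 0
    have A1 := hF.c1 1
    rw [integral_aff hm hT] at A0 A1
    replace A0 := (mul_eq_zero.1 A0).resolve_left hdet.ne'
    replace A1 := (mul_eq_zero.1 A1).resolve_left hdet.ne'
    simp only [← hR, P0, P1] at A0 A1
    rw [frB_lin hK.cpt hc, A] at A0 A1
    have hT' : a * d - b * c ≠ 0 := ed ▸ hT
    have B0 : ∫ y in K, (Rq g₁ g₂ v₁ v₂ y - 5) * y 0 = 0 :=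
      (mul_eq_zero.1 (by linear_combination d * A0 - b * A1)).resolve_left hT'
    have B1 : ∫ y in K, (Rq g₁ g₂ v₁ v₂ y - 5) * y 1 = 0 :=
      (mul_eq_zero.1 (by linear_combination a * A1 - c * A0)).resolve_left hT'
    have B : ∀ i, ∫ y in K, (Rq g₁ g₂ v₁ v₂ y - 5) * y i = 0 := Fin.forall_fin_two.2 ⟨B0, B1⟩
    intro i
    have i1 : IntegrableOn (fun y : Fin 2 → ℝ => (Rq g₁ g₂ v₁ v₂ y - 5) * y i) K :=
      frB_int hK.cpt (hc.mul (continuous_apply i))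
    have i2 : IntegrableOn (fun y : Fin 2 → ℝ => 5 * y i) K := frB_int hK.cpt (by fun_prop)
    rw [integral_congr_ae (g := fun y => (Rq g₁ g₂ v₁ v₂ y - 5) * y i + 5 * y i)
      (ae_of_all _ fun y => by ring), integral_add i1 i2, B, integral_const_mul, hK.m1]
    ring
  · exact (hK.rad hy).trans (by norm_num)
  · have h1 := hX y z s
    have h3 := hF.ch1 _ (mem y hy) _ (mem z hz)
    rw [← hG] at h3
    have h4 := h3 (by nlinarith [mul_le_mul_of_nonneg_left hs (hGn (y - z))])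
    linarith
  · have h1 := hX y z s
    have h3 := hF.ch2 _ (mem y hy) _ (mem z hz)
    rw [← hG] at h3
    linarith
  · have h1 := hX y z s
    have h3 := hF.cha _ (mem y hy) _ (mem z hz)
    rw [← hG] at h3
    have h4 := h3 (by linarith [mul_le_mul_of_nonneg_left hs (hGn (y - z))])
    linarith
  · have h1 := hX y z s
    have h3 := hF.chb _ (mem y hy) _ (mem z hz)
    rw [← hG] at h3
    have h4 := h3 (by linarith [mul_le_mul_of_nonneg_left hs (hGn (y - z))])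
    linarith
  · rw [hG]
    exact hF.dia _ (mem y hy) _ (mem z hz)
  · have hD : 0 < 20 - 40 * k + 28 * k ^ 2 - 8 * k ^ 3 + k ^ 4 := by
      have j0 : 0 ≤ 1 - k := sub_nonneg.2 k1
      have : 20 - 40 * k + 28 * k ^ 2 - 8 * k ^ 3 + k ^ 4 =
        1 + 4 * (1 - k) + 10 * (1 - k) ^ 2 + 4 * (1 - k) ^ 3 + (1 - k) ^ 4 := by ring
      rw [this]
      positivity
    have hh2 : h ^ 2 ≤ Rq g₁ g₂ v₁ v₂ y := by
      rw [hR, dd]
      linarith [mul_self_nonneg ((T *ᵥ y + m) 0), mul_self_nonneg ((T *ᵥ y + m) 1)]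
    have h3 := hF.pyr k k0 k1 (by linarith [mul_le_mul_of_nonneg_right hh2 hD.le])
      ![a * p + b * q, c * p + d * q]
    have eθ : ∀ y : Fin 2 → ℝ, ![a * p + b * q, c * p + d * q] ⬝ᵥ (T *ᵥ y + m) =
        g₁ * p * y 0 + g₂ * q * y 1 + (v₁ * p + v₂ * q) := fun y => by
      rw [dd, P0, P1, ev1, ev2, ← e1, ← e2]
      simp only [Matrix.cons_val_zero, Matrix.cons_val_one]
      linear_combination (p * y 1 + q * y 0) * e0
    have eθθ : ![a * p + b * q, c * p + d * q] ⬝ᵥ ![a * p + b * q, c * p + d * q] =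
        g₁ * p ^ 2 + g₂ * q ^ 2 := by
      rw [dd, ← e1, ← e2]
      simp only [Matrix.cons_val_zero, Matrix.cons_val_one]
      linear_combination (2 * p * q) * e0
    have s1 := frC_prod hK (v₁ * p + v₂ * q) (g₁ * p) (g₂ * q) 1 0 0
    have s2 := frC_prod hK (v₁ * p + v₂ * q) (g₁ * p) (g₂ * q) (v₁ * p + v₂ * q) (g₁ * p) (g₂ * q)
    simp only [zero_mul, zero_add, mul_one, mul_zero, add_zero] at s1
    simp only [← sq] at s2
    rw [integral_aff hm hT, integral_aff hm hT, vol_aff, eθθ] at h3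
    simp only [eθ] at h3
    rw [s1, s2] at h3
    have hM1 : 0 < 6 - 8 * k + 3 * k ^ 2 := by linarith [sq_nonneg (k - 4 / 3)]
    have hG0 : 0 ≤ g₁ * p ^ 2 + g₂ * q ^ 2 :=
      add_nonneg (mul_nonneg (h2.le.trans h12) (sq_nonneg _)) (mul_nonneg h2.le (sq_nonneg _))
    have h4 := mul_le_mul_of_nonneg_right hV' (mul_nonneg (mul_nonneg hM1.le hG0)
      (mul_pos hdet hvol).le)
    refine le_of_mul_le_mul_right ?_ (mul_pos hdet hvol)
    linarith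
  · have eg : |T.det| ^ 2 = g₁ * g₂ := by
      rw [sq_abs, ed, ← e1, ← e2]
      linear_combination (-(a * b + c * d)) * e0
    rw [mul_pow, eg] at hk
    have hg : 0 < g₁ * g₂ := mul_pos (h2.trans_le h12) h2
    have h3 := hF.area k k0 k1 (le_of_mul_le_mul_right (by linarith) hg)
    have hM1 : 0 < 6 - 8 * k + 3 * k ^ 2 := by linarith [sq_nonneg (k - 4 / 3)]
    have h4 := mul_le_mul_of_nonneg_right hV' hM1.le
    rw [vol_aff] at h3
    linarith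
  · rw [vol_aff]
    ring
  · rw [sa, integral_aff hm hT]
    simp only [hR]
    ring
  · have I0 : ∀ y : Fin 2 → ℝ, ins 0 h (T *ᵥ y + m) 0 = 0 * y 0 + 0 * y 1 + h := fun y => by
      rw [ins_same]; ring
    have I1 : ∀ y : Fin 2 → ℝ, ins 0 h (T *ᵥ y + m) 1 = a * y 0 + b * y 1 + m 0 := fun y =>
      (hcone_succ h _ 0).trans (P0 y)
    have I2 : ∀ y : Fin 2 → ℝ, ins 0 h (T *ᵥ y + m) 2 = c * y 0 + d * y 1 + m 1 := fun y =>
      (hcone_succ h _ 1).trans (P1 y)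
    have hc' : ∀ x : ℝ, (|T.det| * volume.real K)⁻¹ * (|T.det| * (volume.real K * x)) = x :=
      fun x => by field_simp
    simp only [Nm, Sm, Matrix.of_apply, Fin.sum_univ_three, integral_aff hm hT, vol_aff, I0, I1, I2,
      frC_prod hK, hc']
    norm_num [Fin.ext_iff]
    rw [Nq, ← c0, ev1, ev2]
    have c0' : h ^ 2 + m 0 ^ 2 + m 1 ^ 2 + (a ^ 2 + c ^ 2) + (b ^ 2 + d ^ 2) = 5 := by linarith
    rw [← e1, ← e2]
    linear_combination (-6 / 5) * c0' + (18 / 25 * (a * b + c * d)) * e0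
  · have I0 : ∀ y : Fin 2 → ℝ, ins 0 h (T *ᵥ y + m) 0 = 0 * y 0 + 0 * y 1 + h := fun y => by
      rw [ins_same]; ring
    have I1 : ∀ y : Fin 2 → ℝ, ins 0 h (T *ᵥ y + m) 1 = a * y 0 + b * y 1 + m 0 := fun y =>
      (hcone_succ h _ 0).trans (P0 y)
    have I2 : ∀ y : Fin 2 → ℝ, ins 0 h (T *ᵥ y + m) 2 = c * y 0 + d * y 1 + m 1 := fun y =>
      (hcone_succ h _ 1).trans (P1 y)
    have hc' : ∀ x : ℝ, (|T.det| * volume.real K)⁻¹ * (|T.det| * (volume.real K * x)) = x :=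
      fun x => by field_simp
    have hh := hF.hpos.ne'
    have hg : g₁ * g₂ ≠ 0 := (mul_pos (h2.trans_le h12) h2).ne'
    have eJ : Jq g₁ g₂ v₁ v₂ = h ^ 2 * (g₁ * g₂) := by
      rw [Jq, ← c0, ev1, ev2, ← e1, ← e2]
      linear_combination (-(m 0 ^ 2 + m 1 ^ 2) * (a * b + c * d) * (-1) -
        2 * (a * m 0 + c * m 1) * (b * m 0 + d * m 1)) * e0
    have eS : ∀ i, (Sm h (aff T m K) *ᵥ Pi.single 0 h⁻¹) i = Sm h (aff T m K) i 0 * h⁻¹ := fun i => by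
      simp [Matrix.mulVec, dotProduct, Fin.sum_univ_three]
    have ea : (Pi.single 0 h⁻¹ : Fin 3 → ℝ) ⬝ᵥ Pi.single 0 h⁻¹ = h⁻¹ * h⁻¹ := by simp
    rw [Ph, Phq, ea, eJ]
    simp only [dotProduct, Fin.sum_univ_three, eS]
    simp only [Sm, Matrix.of_apply, integral_aff hm hT, vol_aff, I0, I1, I2, frC_prod hK, hc']
    congr 2
    · rw [mul_comm (h ^ 2), div_mul_cancel_left₀ hg, sq, mul_inv]
    · rw [show (11 : ℝ) / 5 - g₁ - g₂ = h ^ 2 + m 0 ^ 2 + m 1 ^ 2 - 14 / 5 by linarith]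
      field_simp
      ring

theorem faceD_of_frD {th₀ th thb kap lam s a₁ t₀ : ℝ} (H : FrD th₀ th thb kap lam s a₁ t₀) :
    FaceD th₀ th thb kap lam s a₁ t₀ := by
  refine ⟨1 / 50, by norm_num, fun V h F _ hV hF ht => ?_⟩
  obtain ⟨g₁, g₂, v₁, v₂, J, K, hfr, e1, e2, e3, e4⟩ := fr_of_face2 hV hF
  rw [e1] at ht
  rw [e1, e2, e3, e4]
  exact H g₁ g₂ v₁ v₂ J K hfr ht

end Pool.Agent.P.MP_2e1554_gt
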