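import Pool.Agent.P.MP_2e1554_gt.IsoFin3
import Pool.Agent.P.MP_2e1554_gt.IsoFour4
import Pool.Agent.P.MP_2e1554_gt.IsoFrameC

open MeasureTheory Set Finset Matrix Filter Topology Pointwise

namespace Pool.Agent.P.MP_2e1554_gt

theorem iso_final4 {th₀ th thb kap lam s a₁ t₀ : ℝ} (hth₀ : 0 < th₀) (hth : 0 < th) (hk : 0 < kap)
    (hl : 0 ≤ lam) (hs : 0 < s) (ha : 0 < a₁) (ha₀ : a₁ ≤ 1) (ht₀ : 1 < t₀)
    (h2 : s * (1 - a₁) < 2 * (1 - th₀)) (h3 : 3 * (th₀ + s * (1 - a₁)) + th < 4)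
    (h8 : 4 * lam / 3 ≤ s + th₀ - th)
    (h5 : s * (4 - 5 * a₁) < 4 * (1 - th₀)) (h4 : s * (912 / 1000 - a₁) < 1 - th₀)
    (h6 : s * (1 - a₁) - (1 - th₀) < 278 / 1000 * kap)
    (h7 : 88 / 1000 * (thb - th₀) + s * (912 / 1000 - a₁) - (1 - th₀) < 146 / 1000 * kap)
    (hF : FrD th₀ th thb kap lam s a₁ t₀)
    (K : Set (Fin 3 → ℝ)) (hc : Convex ℝ K)
    (hK : IsCompact K) (hi : (interior K).Nonempty) (hv : volume K = 1)
    (hz : ∀ i, ∫ x in K, x i = 0) :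
    (Matrix.of fun i j : Fin 3 => ∫ x in K, x i * x j).det ≤ 9 / 8000 ∧
      ((Matrix.of fun i j : Fin 3 => ∫ x in K, x i * x j).det = 9 / 8000 ↔
        ∃ w : Fin 4 → Fin 3 → ℝ, AffineIndependent ℝ w ∧ K = convexHull ℝ (Set.range w)) := by
  have hB : Body K := ⟨hc, hK, hi⟩
  obtain ⟨ε₀, hε₀, H0⟩ := four_big4 hth₀ hth hk hl hs ha ha₀ ht₀ h2 h3 h8 h5 h4 h6 h7
    (faceD_of_frD hF)
  refine ⟨?_, ?_, ?_⟩
  · have := reduce (by norm_num) (one_pos.trans_le one_le_vT)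
      (fun A hA hc => fin_lower3 hε₀ H0 hA hc) hB
    rw [vT_sq, Jv_norm hv hz] at this
    linarith
  · intro hJ
    rw [← Jv_norm hv hz] at hJ
    obtain ⟨η, η', β, h0, h1, h2, H1, H2⟩ := barrier
    by_cases hN : Near η' K
    · exact H2 K hB hN hJ
    exfalso
    obtain ⟨ε, hε, H3⟩ := fin_near3 hε₀ H0 h0
    have hlt : 1 / (8000 / 9 + ε) < 9 / 8000 := by
      rw [div_lt_iff₀ (by positivity)]
      linarith
    obtain ⟨A, hA, hcA, hnA, hJA⟩ := reduce_barrier (by norm_num) h0 h1 H1 hB hN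
      (by rw [hJ]; exact h2) (sub_pos.2 hlt)
    refine hnA (H3 A hA hcA ?_)
    have hV := hA.toBody.vol_pos
    rw [hJ, hA.Jv_eq, sub_sub_cancel] at hJA
    exact (one_div_le_one_div (by positivity) (by positivity)).1 hJA
  · rintro ⟨w, hw, rfl⟩
    rw [simplex_value hw hv hz, const_three]

end Pool.Agent.P.MP_2e1554_gt
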