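import Pool.Agent.P.MP_2e1554_gt.IsoTop
import Pool.Agent.P.MP_2e1554_gt.IsoFin4

/-! The theorem from the certificate. -/

open MeasureTheory Set Finset

namespace Pool.Agent.P.MP_2e1554_gt.Chk

theorem final_of_top (h : TopOK bx0) (K : Set (Fin 3 → ℝ)) (hc : Convex ℝ K)
    (hK : IsCompact K) (hi : (interior K).Nonempty) (hv : volume K = 1)
    (hz : ∀ i, ∫ x in K, x i = 0) :
    (Matrix.of fun i j : Fin 3 => ∫ x in K, x i * x j).det ≤ 9 / 8000 ∧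
      ((Matrix.of fun i j : Fin 3 => ∫ x in K, x i * x j).det = 9 / 8000 ↔
        ∃ w : Fin 4 → Fin 3 → ℝ, AffineIndependent ℝ w ∧ K = convexHull ℝ (Set.range w)) := by
  refine iso_final4 ?_ ?_ ?_ ?_ ?_ ?_ ?_ ?_ ?_ ?_ ?_ ?_ ?_ ?_ ?_ (frD_of_top h) K hc hK hi hv hz <;>
    norm_num [cU, cT, cB, cK, cL, cS, cA, cZ]

end Pool.Agent.P.MP_2e1554_gt.Chk
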