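import Pool.Agent.P.MP_2e1554_gt.IsoSem

/-! Facts on the tables of the monomials, by evaluation. -/

open MeasureTheory Set Finset

namespace Pool.Agent.P.MP_2e1554_gt.Chk

theorem TU_lt : ∀ j < 17, TU j < 2 ^ (64 * 1120) ∧ TL j < 2 ^ (64 * 1120) ∧
    YU j < 2 ^ (64 * 1120) ∧ YL j < 2 ^ (64 * 1120) := by decide +kernel
private theorem TU_spec0 : ∀ i < 56, ∀ k < 20, lane (TU 0) (lay k i) ≤ 2 ^ 31 ∧
    TabOK (fun k => (lane (TU 0) (lay k i) : ℤ) - 2 ^ 30) (tc 0 i) (tden 0) (tp 0) k := by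
  decide +kernel
private theorem TU_spec1 : ∀ i < 56, ∀ k < 20, lane (TU 1) (lay k i) ≤ 2 ^ 31 ∧
    TabOK (fun k => (lane (TU 1) (lay k i) : ℤ) - 2 ^ 30) (tc 1 i) (tden 1) (tp 1) k := by
  decide +kernel
private theorem TU_spec2 : ∀ i < 56, ∀ k < 20, lane (TU 2) (lay k i) ≤ 2 ^ 31 ∧
    TabOK (fun k => (lane (TU 2) (lay k i) : ℤ) - 2 ^ 30) (tc 2 i) (tden 2) (tp 2) k := by
  decide +kernel
private theorem TU_spec3 : ∀ i < 56, ∀ k < 20, lane (TU 3) (lay k i) ≤ 2 ^ 31 ∧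
    TabOK (fun k => (lane (TU 3) (lay k i) : ℤ) - 2 ^ 30) (tc 3 i) (tden 3) (tp 3) k := by
  decide +kernel
private theorem TU_spec4 : ∀ i < 56, ∀ k < 20, lane (TU 4) (lay k i) ≤ 2 ^ 31 ∧
    TabOK (fun k => (lane (TU 4) (lay k i) : ℤ) - 2 ^ 30) (tc 4 i) (tden 4) (tp 4) k := by
  decide +kernel
private theorem TU_spec5 : ∀ i < 56, ∀ k < 20, lane (TU 5) (lay k i) ≤ 2 ^ 31 ∧
    TabOK (fun k => (lane (TU 5) (lay k i) : ℤ) - 2 ^ 30) (tc 5 i) (tden 5) (tp 5) k := by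
  decide +kernel
private theorem TU_spec6 : ∀ i < 56, ∀ k < 20, lane (TU 6) (lay k i) ≤ 2 ^ 31 ∧
    TabOK (fun k => (lane (TU 6) (lay k i) : ℤ) - 2 ^ 30) (tc 6 i) (tden 6) (tp 6) k := by
  decide +kernel
private theorem TU_spec7 : ∀ i < 56, ∀ k < 20, lane (TU 7) (lay k i) ≤ 2 ^ 31 ∧
    TabOK (fun k => (lane (TU 7) (lay k i) : ℤ) - 2 ^ 30) (tc 7 i) (tden 7) (tp 7) k := by
  decide +kernel
private theorem TU_spec8 : ∀ i < 56, ∀ k < 20, lane (TU 8) (lay k i) ≤ 2 ^ 31 ∧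
    TabOK (fun k => (lane (TU 8) (lay k i) : ℤ) - 2 ^ 30) (tc 8 i) (tden 8) (tp 8) k := by
  decide +kernel
private theorem TU_spec9 : ∀ i < 56, ∀ k < 20, lane (TU 9) (lay k i) ≤ 2 ^ 31 ∧
    TabOK (fun k => (lane (TU 9) (lay k i) : ℤ) - 2 ^ 30) (tc 9 i) (tden 9) (tp 9) k := by
  decide +kernel
private theorem TU_spec10 : ∀ i < 56, ∀ k < 20, lane (TU 10) (lay k i) ≤ 2 ^ 31 ∧
    TabOK (fun k => (lane (TU 10) (lay k i) : ℤ) - 2 ^ 30) (tc 10 i) (tden 10) (tp 10) k := by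
  decide +kernel
private theorem TU_spec11 : ∀ i < 56, ∀ k < 20, lane (TU 11) (lay k i) ≤ 2 ^ 31 ∧
    TabOK (fun k => (lane (TU 11) (lay k i) : ℤ) - 2 ^ 30) (tc 11 i) (tden 11) (tp 11) k := by
  decide +kernel
private theorem TU_spec12 : ∀ i < 56, ∀ k < 20, lane (TU 12) (lay k i) ≤ 2 ^ 31 ∧
    TabOK (fun k => (lane (TU 12) (lay k i) : ℤ) - 2 ^ 30) (tc 12 i) (tden 12) (tp 12) k := by
  decide +kernel
private theorem TU_spec13 : ∀ i < 56, ∀ k < 20, lane (TU 13) (lay k i) ≤ 2 ^ 31 ∧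
    TabOK (fun k => (lane (TU 13) (lay k i) : ℤ) - 2 ^ 30) (tc 13 i) (tden 13) (tp 13) k := by
  decide +kernel
private theorem TU_spec14 : ∀ i < 56, ∀ k < 20, lane (TU 14) (lay k i) ≤ 2 ^ 31 ∧
    TabOK (fun k => (lane (TU 14) (lay k i) : ℤ) - 2 ^ 30) (tc 14 i) (tden 14) (tp 14) k := by
  decide +kernel
private theorem TU_spec15 : ∀ i < 56, ∀ k < 20, lane (TU 15) (lay k i) ≤ 2 ^ 31 ∧
    TabOK (fun k => (lane (TU 15) (lay k i) : ℤ) - 2 ^ 30) (tc 15 i) (tden 15) (tp 15) k := by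
  decide +kernel
private theorem TU_spec16 : ∀ i < 56, ∀ k < 20, lane (TU 16) (lay k i) ≤ 2 ^ 31 ∧
    TabOK (fun k => (lane (TU 16) (lay k i) : ℤ) - 2 ^ 30) (tc 16 i) (tden 16) (tp 16) k := by
  decide +kernel
theorem TU_spec : ∀ j < 17, ∀ i < 56, ∀ k < 20, lane (TU j) (lay k i) ≤ 2 ^ 31 ∧
    TabOK (fun k => (lane (TU j) (lay k i) : ℤ) - 2 ^ 30) (tc j i) (tden j) (tp j) k := by
  intro j hj
  interval_cases j
  exacts [TU_spec0, TU_spec1, TU_spec2, TU_spec3, TU_spec4, TU_spec5, TU_spec6, TU_spec7, TU_spec8, TU_spec9, TU_spec10, TU_spec11, TU_spec12, TU_spec13, TU_spec14, TU_spec15, TU_spec16]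

end Pool.Agent.P.MP_2e1554_gt.Chk
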