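import Pool.Agent.P.MP_2e1554_gt.IsoSem

/-! Facts on the tables of the monomials, by evaluation. -/

open MeasureTheory Set Finset

namespace Pool.Agent.P.MP_2e1554_gt.Chk

private theorem TL_spec0 : ∀ i < 56, ∀ k < 20, lane (TL 0) (lay k i) ≤ 2 ^ 31 ∧
    TabOK (fun k => 2 ^ 30 - (lane (TL 0) (lay k i) : ℤ)) (-tc 0 i) (tden 0) (tp 0) k := by
  decide +kernel
private theorem TL_spec1 : ∀ i < 56, ∀ k < 20, lane (TL 1) (lay k i) ≤ 2 ^ 31 ∧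
    TabOK (fun k => 2 ^ 30 - (lane (TL 1) (lay k i) : ℤ)) (-tc 1 i) (tden 1) (tp 1) k := by
  decide +kernel
private theorem TL_spec2 : ∀ i < 56, ∀ k < 20, lane (TL 2) (lay k i) ≤ 2 ^ 31 ∧
    TabOK (fun k => 2 ^ 30 - (lane (TL 2) (lay k i) : ℤ)) (-tc 2 i) (tden 2) (tp 2) k := by
  decide +kernel
private theorem TL_spec3 : ∀ i < 56, ∀ k < 20, lane (TL 3) (lay k i) ≤ 2 ^ 31 ∧
    TabOK (fun k => 2 ^ 30 - (lane (TL 3) (lay k i) : ℤ)) (-tc 3 i) (tden 3) (tp 3) k := by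
  decide +kernel
private theorem TL_spec4 : ∀ i < 56, ∀ k < 20, lane (TL 4) (lay k i) ≤ 2 ^ 31 ∧
    TabOK (fun k => 2 ^ 30 - (lane (TL 4) (lay k i) : ℤ)) (-tc 4 i) (tden 4) (tp 4) k := by
  decide +kernel
private theorem TL_spec5 : ∀ i < 56, ∀ k < 20, lane (TL 5) (lay k i) ≤ 2 ^ 31 ∧
    TabOK (fun k => 2 ^ 30 - (lane (TL 5) (lay k i) : ℤ)) (-tc 5 i) (tden 5) (tp 5) k := by
  decide +kernel
private theorem TL_spec6 : ∀ i < 56, ∀ k < 20, lane (TL 6) (lay k i) ≤ 2 ^ 31 ∧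
    TabOK (fun k => 2 ^ 30 - (lane (TL 6) (lay k i) : ℤ)) (-tc 6 i) (tden 6) (tp 6) k := by
  decide +kernel
private theorem TL_spec7 : ∀ i < 56, ∀ k < 20, lane (TL 7) (lay k i) ≤ 2 ^ 31 ∧
    TabOK (fun k => 2 ^ 30 - (lane (TL 7) (lay k i) : ℤ)) (-tc 7 i) (tden 7) (tp 7) k := by
  decide +kernel
private theorem TL_spec8 : ∀ i < 56, ∀ k < 20, lane (TL 8) (lay k i) ≤ 2 ^ 31 ∧
    TabOK (fun k => 2 ^ 30 - (lane (TL 8) (lay k i) : ℤ)) (-tc 8 i) (tden 8) (tp 8) k := by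
  decide +kernel
private theorem TL_spec9 : ∀ i < 56, ∀ k < 20, lane (TL 9) (lay k i) ≤ 2 ^ 31 ∧
    TabOK (fun k => 2 ^ 30 - (lane (TL 9) (lay k i) : ℤ)) (-tc 9 i) (tden 9) (tp 9) k := by
  decide +kernel
private theorem TL_spec10 : ∀ i < 56, ∀ k < 20, lane (TL 10) (lay k i) ≤ 2 ^ 31 ∧
    TabOK (fun k => 2 ^ 30 - (lane (TL 10) (lay k i) : ℤ)) (-tc 10 i) (tden 10) (tp 10) k := by
  decide +kernel
private theorem TL_spec11 : ∀ i < 56, ∀ k < 20, lane (TL 11) (lay k i) ≤ 2 ^ 31 ∧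
    TabOK (fun k => 2 ^ 30 - (lane (TL 11) (lay k i) : ℤ)) (-tc 11 i) (tden 11) (tp 11) k := by
  decide +kernel
private theorem TL_spec12 : ∀ i < 56, ∀ k < 20, lane (TL 12) (lay k i) ≤ 2 ^ 31 ∧
    TabOK (fun k => 2 ^ 30 - (lane (TL 12) (lay k i) : ℤ)) (-tc 12 i) (tden 12) (tp 12) k := by
  decide +kernel
private theorem TL_spec13 : ∀ i < 56, ∀ k < 20, lane (TL 13) (lay k i) ≤ 2 ^ 31 ∧
    TabOK (fun k => 2 ^ 30 - (lane (TL 13) (lay k i) : ℤ)) (-tc 13 i) (tden 13) (tp 13) k := by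
  decide +kernel
private theorem TL_spec14 : ∀ i < 56, ∀ k < 20, lane (TL 14) (lay k i) ≤ 2 ^ 31 ∧
    TabOK (fun k => 2 ^ 30 - (lane (TL 14) (lay k i) : ℤ)) (-tc 14 i) (tden 14) (tp 14) k := by
  decide +kernel
private theorem TL_spec15 : ∀ i < 56, ∀ k < 20, lane (TL 15) (lay k i) ≤ 2 ^ 31 ∧
    TabOK (fun k => 2 ^ 30 - (lane (TL 15) (lay k i) : ℤ)) (-tc 15 i) (tden 15) (tp 15) k := by
  decide +kernel
private theorem TL_spec16 : ∀ i < 56, ∀ k < 20, lane (TL 16) (lay k i) ≤ 2 ^ 31 ∧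
    TabOK (fun k => 2 ^ 30 - (lane (TL 16) (lay k i) : ℤ)) (-tc 16 i) (tden 16) (tp 16) k := by
  decide +kernel
theorem TL_spec : ∀ j < 17, ∀ i < 56, ∀ k < 20, lane (TL j) (lay k i) ≤ 2 ^ 31 ∧
    TabOK (fun k => 2 ^ 30 - (lane (TL j) (lay k i) : ℤ)) (-tc j i) (tden j) (tp j) k := by
  intro j hj
  interval_cases j
  exacts [TL_spec0, TL_spec1, TL_spec2, TL_spec3, TL_spec4, TL_spec5, TL_spec6, TL_spec7, TL_spec8, TL_spec9, TL_spec10, TL_spec11, TL_spec12, TL_spec13, TL_spec14, TL_spec15, TL_spec16]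

end Pool.Agent.P.MP_2e1554_gt.Chk
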