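import Pool.Agent.P.MP_2e1554_gt.IsoSem

/-! Facts on the tables of the monomials, by evaluation. -/

open MeasureTheory Set Finset

namespace Pool.Agent.P.MP_2e1554_gt.Chk

theorem YU_spec0 : 3 ≤ 0 → ∀ i < 56, ∀ k < 20, lane (YU 0) (lay k i) ≤ 2 ^ 31 ∧ lane (YL 0) (lay k i) ≤ 2 ^ 31 ∧
    yU 0 i * (if 0 ≤ yU 0 i then sU (tp 0) k else sL (tp 0) k) * 2 ^ 24 ≤
      ((lane (YU 0) (lay k i) : ℤ) - 2 ^ 30) * yden 0 ∧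
    ((lane (YL 0) (lay k i) : ℤ) - 2 ^ 30) * yden 0 ≤
      yL 0 i * (if 0 ≤ yL 0 i then sL (tp 0) k else sU (tp 0) k) * 2 ^ 24 := by
  decide +kernel
theorem YU_spec1 : 3 ≤ 1 → ∀ i < 56, ∀ k < 20, lane (YU 1) (lay k i) ≤ 2 ^ 31 ∧ lane (YL 1) (lay k i) ≤ 2 ^ 31 ∧
    yU 1 i * (if 0 ≤ yU 1 i then sU (tp 1) k else sL (tp 1) k) * 2 ^ 24 ≤
      ((lane (YU 1) (lay k i) : ℤ) - 2 ^ 30) * yden 1 ∧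
    ((lane (YL 1) (lay k i) : ℤ) - 2 ^ 30) * yden 1 ≤
      yL 1 i * (if 0 ≤ yL 1 i then sL (tp 1) k else sU (tp 1) k) * 2 ^ 24 := by
  decide +kernel
theorem YU_spec2 : 3 ≤ 2 → ∀ i < 56, ∀ k < 20, lane (YU 2) (lay k i) ≤ 2 ^ 31 ∧ lane (YL 2) (lay k i) ≤ 2 ^ 31 ∧
    yU 2 i * (if 0 ≤ yU 2 i then sU (tp 2) k else sL (tp 2) k) * 2 ^ 24 ≤
      ((lane (YU 2) (lay k i) : ℤ) - 2 ^ 30) * yden 2 ∧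
    ((lane (YL 2) (lay k i) : ℤ) - 2 ^ 30) * yden 2 ≤
      yL 2 i * (if 0 ≤ yL 2 i then sL (tp 2) k else sU (tp 2) k) * 2 ^ 24 := by
  decide +kernel
theorem YU_spec3 : 3 ≤ 3 → ∀ i < 56, ∀ k < 20, lane (YU 3) (lay k i) ≤ 2 ^ 31 ∧ lane (YL 3) (lay k i) ≤ 2 ^ 31 ∧
    yU 3 i * (if 0 ≤ yU 3 i then sU (tp 3) k else sL (tp 3) k) * 2 ^ 24 ≤
      ((lane (YU 3) (lay k i) : ℤ) - 2 ^ 30) * yden 3 ∧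
    ((lane (YL 3) (lay k i) : ℤ) - 2 ^ 30) * yden 3 ≤
      yL 3 i * (if 0 ≤ yL 3 i then sL (tp 3) k else sU (tp 3) k) * 2 ^ 24 := by
  decide +kernel
theorem YU_spec4 : 3 ≤ 4 → ∀ i < 56, ∀ k < 20, lane (YU 4) (lay k i) ≤ 2 ^ 31 ∧ lane (YL 4) (lay k i) ≤ 2 ^ 31 ∧
    yU 4 i * (if 0 ≤ yU 4 i then sU (tp 4) k else sL (tp 4) k) * 2 ^ 24 ≤
      ((lane (YU 4) (lay k i) : ℤ) - 2 ^ 30) * yden 4 ∧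
    ((lane (YL 4) (lay k i) : ℤ) - 2 ^ 30) * yden 4 ≤
      yL 4 i * (if 0 ≤ yL 4 i then sL (tp 4) k else sU (tp 4) k) * 2 ^ 24 := by
  decide +kernel
theorem YU_spec5 : 3 ≤ 5 → ∀ i < 56, ∀ k < 20, lane (YU 5) (lay k i) ≤ 2 ^ 31 ∧ lane (YL 5) (lay k i) ≤ 2 ^ 31 ∧
    yU 5 i * (if 0 ≤ yU 5 i then sU (tp 5) k else sL (tp 5) k) * 2 ^ 24 ≤
      ((lane (YU 5) (lay k i) : ℤ) - 2 ^ 30) * yden 5 ∧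
    ((lane (YL 5) (lay k i) : ℤ) - 2 ^ 30) * yden 5 ≤
      yL 5 i * (if 0 ≤ yL 5 i then sL (tp 5) k else sU (tp 5) k) * 2 ^ 24 := by
  decide +kernel
theorem YU_spec6 : 3 ≤ 6 → ∀ i < 56, ∀ k < 20, lane (YU 6) (lay k i) ≤ 2 ^ 31 ∧ lane (YL 6) (lay k i) ≤ 2 ^ 31 ∧
    yU 6 i * (if 0 ≤ yU 6 i then sU (tp 6) k else sL (tp 6) k) * 2 ^ 24 ≤
      ((lane (YU 6) (lay k i) : ℤ) - 2 ^ 30) * yden 6 ∧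
    ((lane (YL 6) (lay k i) : ℤ) - 2 ^ 30) * yden 6 ≤
      yL 6 i * (if 0 ≤ yL 6 i then sL (tp 6) k else sU (tp 6) k) * 2 ^ 24 := by
  decide +kernel
theorem YU_spec7 : 3 ≤ 7 → ∀ i < 56, ∀ k < 20, lane (YU 7) (lay k i) ≤ 2 ^ 31 ∧ lane (YL 7) (lay k i) ≤ 2 ^ 31 ∧
    yU 7 i * (if 0 ≤ yU 7 i then sU (tp 7) k else sL (tp 7) k) * 2 ^ 24 ≤
      ((lane (YU 7) (lay k i) : ℤ) - 2 ^ 30) * yden 7 ∧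
    ((lane (YL 7) (lay k i) : ℤ) - 2 ^ 30) * yden 7 ≤
      yL 7 i * (if 0 ≤ yL 7 i then sL (tp 7) k else sU (tp 7) k) * 2 ^ 24 := by
  decide +kernel
theorem YU_spec8 : 3 ≤ 8 → ∀ i < 56, ∀ k < 20, lane (YU 8) (lay k i) ≤ 2 ^ 31 ∧ lane (YL 8) (lay k i) ≤ 2 ^ 31 ∧
    yU 8 i * (if 0 ≤ yU 8 i then sU (tp 8) k else sL (tp 8) k) * 2 ^ 24 ≤
      ((lane (YU 8) (lay k i) : ℤ) - 2 ^ 30) * yden 8 ∧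
    ((lane (YL 8) (lay k i) : ℤ) - 2 ^ 30) * yden 8 ≤
      yL 8 i * (if 0 ≤ yL 8 i then sL (tp 8) k else sU (tp 8) k) * 2 ^ 24 := by
  decide +kernel

end Pool.Agent.P.MP_2e1554_gt.Chk
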