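import Pool.Agent.P.MP_2e1554_gt.IsoSem

/-! Facts on the tables of the monomials, by evaluation. -/

open MeasureTheory Set Finset

namespace Pool.Agent.P.MP_2e1554_gt.Chk

theorem YU_spec9 : 3 ≤ 9 → ∀ i < 56, ∀ k < 20, lane (YU 9) (lay k i) ≤ 2 ^ 31 ∧ lane (YL 9) (lay k i) ≤ 2 ^ 31 ∧
    yU 9 i * (if 0 ≤ yU 9 i then sU (tp 9) k else sL (tp 9) k) * 2 ^ 24 ≤
      ((lane (YU 9) (lay k i) : ℤ) - 2 ^ 30) * yden 9 ∧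
    ((lane (YL 9) (lay k i) : ℤ) - 2 ^ 30) * yden 9 ≤
      yL 9 i * (if 0 ≤ yL 9 i then sL (tp 9) k else sU (tp 9) k) * 2 ^ 24 := by
  decide +kernel
theorem YU_spec10 : 3 ≤ 10 → ∀ i < 56, ∀ k < 20, lane (YU 10) (lay k i) ≤ 2 ^ 31 ∧ lane (YL 10) (lay k i) ≤ 2 ^ 31 ∧
    yU 10 i * (if 0 ≤ yU 10 i then sU (tp 10) k else sL (tp 10) k) * 2 ^ 24 ≤
      ((lane (YU 10) (lay k i) : ℤ) - 2 ^ 30) * yden 10 ∧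
    ((lane (YL 10) (lay k i) : ℤ) - 2 ^ 30) * yden 10 ≤
      yL 10 i * (if 0 ≤ yL 10 i then sL (tp 10) k else sU (tp 10) k) * 2 ^ 24 := by
  decide +kernel
theorem YU_spec11 : 3 ≤ 11 → ∀ i < 56, ∀ k < 20, lane (YU 11) (lay k i) ≤ 2 ^ 31 ∧ lane (YL 11) (lay k i) ≤ 2 ^ 31 ∧
    yU 11 i * (if 0 ≤ yU 11 i then sU (tp 11) k else sL (tp 11) k) * 2 ^ 24 ≤
      ((lane (YU 11) (lay k i) : ℤ) - 2 ^ 30) * yden 11 ∧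
    ((lane (YL 11) (lay k i) : ℤ) - 2 ^ 30) * yden 11 ≤
      yL 11 i * (if 0 ≤ yL 11 i then sL (tp 11) k else sU (tp 11) k) * 2 ^ 24 := by
  decide +kernel
theorem YU_spec12 : 3 ≤ 12 → ∀ i < 56, ∀ k < 20, lane (YU 12) (lay k i) ≤ 2 ^ 31 ∧ lane (YL 12) (lay k i) ≤ 2 ^ 31 ∧
    yU 12 i * (if 0 ≤ yU 12 i then sU (tp 12) k else sL (tp 12) k) * 2 ^ 24 ≤
      ((lane (YU 12) (lay k i) : ℤ) - 2 ^ 30) * yden 12 ∧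
    ((lane (YL 12) (lay k i) : ℤ) - 2 ^ 30) * yden 12 ≤
      yL 12 i * (if 0 ≤ yL 12 i then sL (tp 12) k else sU (tp 12) k) * 2 ^ 24 := by
  decide +kernel

end Pool.Agent.P.MP_2e1554_gt.Chk
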