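import Pool.Agent.P.MP_2e1554_gt.IsoTab4
import Pool.Agent.P.MP_2e1554_gt.IsoTab5
import Pool.Agent.P.MP_2e1554_gt.IsoTab6

/-! Facts on the tables of the monomials, by evaluation. -/

open MeasureTheory Set Finset

namespace Pool.Agent.P.MP_2e1554_gt.Chk

theorem YU_spec : ∀ j < 17, 3 ≤ j → ∀ i < 56, ∀ k < 20, lane (YU j) (lay k i) ≤ 2 ^ 31 ∧ lane (YL j) (lay k i) ≤ 2 ^ 31 ∧
    yU j i * (if 0 ≤ yU j i then sU (tp j) k else sL (tp j) k) * 2 ^ 24 ≤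
      ((lane (YU j) (lay k i) : ℤ) - 2 ^ 30) * yden j ∧
    ((lane (YL j) (lay k i) : ℤ) - 2 ^ 30) * yden j ≤
      yL j i * (if 0 ≤ yL j i then sL (tp j) k else sU (tp j) k) * 2 ^ 24 := by
  intro j hj
  interval_cases j
  exacts [YU_spec0, YU_spec1, YU_spec2, YU_spec3, YU_spec4, YU_spec5, YU_spec6, YU_spec7, YU_spec8, YU_spec9, YU_spec10, YU_spec11, YU_spec12, YU_spec13, YU_spec14, YU_spec15, YU_spec16]

end Pool.Agent.P.MP_2e1554_gt.Chk
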