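import Pool.Agent.P.MP_2e1554_gt.IsoLane
import Pool.Agent.P.MP_2e1554_gt.IsoTab
import Pool.Agent.P.MP_2e1554_gt.IsoTab2
import Pool.Agent.P.MP_2e1554_gt.IsoTab3
import Pool.Agent.P.MP_2e1554_gt.IsoTab7

/-! Envelopes along a ray (Everett's formula). -/

open MeasureTheory Set Finset

namespace Pool.Agent.P.MP_2e1554_gt.Chk

/-- every lane `l < 1120` is `lay k i` with `k < 20`, `i < 56`; `YU j = YL j = 0` for `j < 3` -/
theorem TU_bd {j : ℕ} (hj : j < 17) : Bd (TU j) 1120 (2 ^ 31) ∧ Bd (TL j) 1120 (2 ^ 31) ∧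
    Bd (YU j) 1120 (2 ^ 31) ∧ Bd (YL j) 1120 (2 ^ 31) := by
  have hl : ∀ l < 1120, ∃ k < 20, ∃ i < 56, lay k i = l := by
    intro l hl
    rcases Nat.lt_or_ge l 560 with h | h
    · refine ⟨l / 28, by omega, l % 28, by omega, ?_⟩
      unfold lay
      rw [if_pos (by omega)]
      omega
    · refine ⟨39 - l / 28, by omega, 28 + l % 28, by omega, ?_⟩
      unfold lay
      rw [if_neg (by omega)]
      omega
  obtain ⟨a, b, c, d⟩ := TU_lt j hj
  refine ⟨bd_of a fun l h => ?_, bd_of b fun l h => ?_, bd_of c fun l h => ?_,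
    bd_of d fun l h => ?_⟩
  · obtain ⟨k, hk, i, hi, rfl⟩ := hl l h
    rw [← lane_eq]
    exact (TU_spec j hj i hi k hk).1
  · obtain ⟨k, hk, i, hi, rfl⟩ := hl l h
    rw [← lane_eq]
    exact (TL_spec j hj i hi k hk).1
  · rcases Nat.lt_or_ge j 3 with h3 | h3
    · have : YU j = 0 := by interval_cases j <;> rfl
      rw [this, dg, Nat.zero_div, Nat.zero_mod]
      exact Nat.zero_le _
    · obtain ⟨k, hk, i, hi, rfl⟩ := hl l h
      rw [← lane_eq]
      exact (YU_spec j hj h3 i hi k hk).1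
  · rcases Nat.lt_or_ge j 3 with h3 | h3
    · have : YL j = 0 := by interval_cases j <;> rfl
      rw [this, dg, Nat.zero_div, Nat.zero_mod]
      exact Nat.zero_le _
    · obtain ⟨k, hk, i, hi, rfl⟩ := hl l h
      rw [← lane_eq]
      exact (YU_spec j hj h3 i hi k hk).2.1

private theorem isoenv_core {l g0 g1 e0 e1 E0 E1 r r' : ℝ} (hl : l ∈ Icc (0 : ℝ) 1)
    (a0 : 0 ≤ E0) (b0 : e0 ≤ E0) (a1 : 0 ≤ E1) (b1 : e1 ≤ E1)
    (h0 : E0 / 6 + r' ≤ g0) (h1 : E1 / 6 + r' ≤ g1) (hr : r ≤ r') :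
    l * (1 - l) / 6 * ((2 - l) * e0 + (1 + l) * e1) + r ≤ (1 - l) * g0 + l * g1 := by
  obtain ⟨l0, l1⟩ := hl
  have l2 : 0 ≤ 1 - l := by linarith
  have p0 : 0 ≤ l * (2 - l) := mul_nonneg l0 (by linarith)
  have p1 : l * (2 - l) ≤ 1 := by nlinarith [sq_nonneg (1 - l)]
  have q0 : 0 ≤ (1 - l) * (1 + l) := mul_nonneg l2 (by linarith)
  have q1 : (1 - l) * (1 + l) ≤ 1 := by nlinarith [sq_nonneg l]
  have c0 : l * (2 - l) * e0 ≤ E0 :=
    (mul_le_mul_of_nonneg_left b0 p0).trans (mul_le_of_le_one_left a0 p1)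
  have c1 : (1 - l) * (1 + l) * e1 ≤ E1 :=
    (mul_le_mul_of_nonneg_left b1 q0).trans (mul_le_of_le_one_left a1 q1)
  have d0 := mul_le_mul_of_nonneg_left c0 l2
  have d1 := mul_le_mul_of_nonneg_left c1 l0
  have f0 := mul_le_mul_of_nonneg_left h0 l2
  have f1 := mul_le_mul_of_nonneg_left h1 l0
  linarith

private theorem isoenv_w {l : ℝ} (hl : l ∈ Icc (0 : ℝ) 1) :
    0 ≤ l * (1 - l) * (1 + l) * (2 - l) ∧ l * (1 - l) * (1 + l) * (2 - l) ≤ 9 / 16 := by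
  obtain ⟨l0, l1⟩ := hl
  have l2 : 0 ≤ 1 - l := by linarith
  have p0 : 0 ≤ l * (1 - l) := mul_nonneg l0 l2
  have p1 : l * (1 - l) ≤ 1 / 4 := by nlinarith [sq_nonneg (l - 1 / 2)]
  have e : l * (1 - l) * (1 + l) * (2 - l) = l * (1 - l) * (2 + l * (1 - l)) := by ring
  rw [e]
  generalize l * (1 - l) = t at p0 p1
  constructor <;> nlinarith

/-- complete homogeneous polynomials -/
private noncomputable def isoenvH : List ℝ → ℕ → ℝ
  | _, 0 => 1
  | [], _ + 1 => 0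
  | x :: xs, n + 1 => x * isoenvH (x :: xs) n + isoenvH xs (n + 1)
termination_by xs n => xs.length + n

private theorem isoenv_H {M : ℝ} (hM : 0 ≤ M) (xs : List ℝ) :
    ∀ n : ℕ, (∀ x ∈ xs, 0 ≤ x ∧ x ≤ M) →
      0 ≤ isoenvH xs n ∧ isoenvH xs n ≤ ((n + xs.length - 1).choose n : ℕ) * M ^ n := by
  induction xs with
  | nil =>
    intro n _
    cases n with
    | zero => simp [isoenvH]
    | succ n => simp [isoenvH]
  | cons x xs ih =>
    intro n h
    have hx := h x List.mem_cons_self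
    have ih' := fun n => ih n fun y hy => h y (List.mem_cons_of_mem _ hy)
    induction n with
    | zero => simp [isoenvH]
    | succ n ihn =>
      obtain ⟨a, b⟩ := ihn
      obtain ⟨c, d⟩ := ih' (n + 1)
      rw [isoenvH]
      refine ⟨add_nonneg (mul_nonneg hx.1 a) c, ?_⟩
      have e1 : n + (x :: xs).length - 1 = n + xs.length := by
        rw [List.length_cons]; omega
      have e2 : n + 1 + xs.length - 1 = n + xs.length := by omega
      have e3 : n + 1 + (x :: xs).length - 1 = n + xs.length + 1 := by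
        rw [List.length_cons]; omega
      rw [e1] at b
      rw [e2] at d
      rw [e3, Nat.choose_succ_succ', Nat.cast_add, add_mul]
      refine add_le_add ?_ d
      calc x * isoenvH (x :: xs) n ≤ M * (((n + xs.length).choose n : ℕ) * M ^ n) :=
            mul_le_mul hx.2 b a hM
        _ = _ := by ring

/-- `l(2-l) ≤ 1`, `(1-l)(1+l) ≤ 1` -/
theorem Ev_le (F : ℕ → ℝ) (k : ℕ) {l : ℝ} (hl : l ∈ Icc (0 : ℝ) 1) : Ev F k l ≤
    (1 - l) * (F k + max 0 (-dd F k) / 6) + l * (F (k + 1) + max 0 (-dd F (k + 1)) / 6) := by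
  have := isoenv_core (g0 := max 0 (-dd F k) / 6) (g1 := max 0 (-dd F (k + 1)) / 6) (r := 0)
    (r' := 0) hl (le_max_left 0 (-dd F k)) (le_max_right _ _) (le_max_left 0 (-dd F (k + 1)))
    (le_max_right _ _) (by rw [add_zero]) (by rw [add_zero]) le_rfl
  unfold Ev
  linarith

/-- Everett's formula for a power: with `m = 15 + k`, `D m = (m-1)^p - 2 m^p + (m+1)^p`,
`(m+l)^p = (1-l) m^p + l (m+1)^p - l(1-l)/6 ((2-l) D m + (1+l) D (m+1)) + R`,
`R = l(1-l)(1+l)(2-l) h`, `h` the complete homogeneous polynomial of degree `p-4` in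
`m-1, m, m+1, m+2, m+l` (zero for `p < 4`), `0 ≤ h ≤ choose p 4 (m+2)^(p-4)`,
`l(1-l)(1+l)(2-l) ≤ 9/16` -/
theorem pow_ev {p : ℕ} (hp : 2 ≤ p) (hp8 : p ≤ 8) {m l : ℝ} (hm : 1 ≤ m) (hl : l ∈ Icc (0 : ℝ) 1) :
    ∃ R : ℝ, 0 ≤ R ∧ R ≤ 9 / 16 * (p.choose 4 : ℕ) * (m + 2) ^ (p - 4) ∧
      (m + l) ^ p = (1 - l) * m ^ p + l * (m + 1) ^ p - l * (1 - l) / 6 *
        ((2 - l) * ((m - 1) ^ p - 2 * m ^ p + (m + 1) ^ p) +
          (1 + l) * (m ^ p - 2 * (m + 1) ^ p + (m + 2) ^ p)) + R := by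
  rcases Nat.lt_or_ge p 4 with h4 | h4
  · refine ⟨0, le_rfl, by positivity, ?_⟩
    interval_cases p <;> ring
  obtain ⟨w0, w1⟩ := isoenv_w hl
  obtain ⟨l0, l1⟩ := hl
  obtain ⟨a, b⟩ := isoenv_H (M := m + 2) (by linarith) [m - 1, m, m + 1, m + 2, m + l] (p - 4) (by
    intro x hx
    simp only [List.mem_cons, List.not_mem_nil, or_false] at hx
    rcases hx with rfl | rfl | rfl | rfl | rfl <;> constructor <;> linarith)
  refine ⟨l * (1 - l) * (1 + l) * (2 - l) * isoenvH [m - 1, m, m + 1, m + 2, m + l] (p - 4),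
    mul_nonneg w0 a, ?_, ?_⟩
  · have e : (p - 4 + [m - 1, m, m + 1, m + 2, m + l].length - 1).choose (p - 4) = p.choose 4 := by
      have : p - 4 + [m - 1, m, m + 1, m + 2, m + l].length - 1 = p := by
        simp only [List.length_cons, List.length_nil]; omega
      rw [this, Nat.choose_symm h4]
    rw [e] at b
    rw [mul_assoc (9 / 16 : ℝ)]
    exact mul_le_mul w1 b a (by norm_num)
  · clear a b
    interval_cases p <;> simp only [Nat.reduceSub, isoenvH] <;> ring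

theorem tab_ev {u : ℕ → ℤ} {c den : ℤ} (hd : 0 < den) {p k : ℕ} (hp : 2 ≤ p) (hp8 : p ≤ 8)
    (h0 : TabOK u c den p k) (h1 : TabOK u c den p (k + 1)) {l : ℝ} (hl : l ∈ Icc (0 : ℝ) 1) :
    2 ^ 24 * (c * (15 + k + l) ^ p / den) ≤ Ev (fun k => (u k : ℝ)) k l := by
  have hk : (0 : ℝ) ≤ k := Nat.cast_nonneg k
  obtain ⟨R, R0, R1, hR⟩ := pow_ev hp hp8 (m := 15 + k) (by linarith) hl
  have hd' : (0 : ℝ) < den := by exact_mod_cast hd
  unfold TabOK at h0 h1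
  have h0' := (Int.cast_le (R := ℝ)).2 h0
  have h1' := (Int.cast_le (R := ℝ)).2 h1
  have dk : ∀ k, dd (fun k => (u k : ℝ)) k = ((dd u k : ℤ) : ℝ) := fun k => by
    simp only [dd]; push_cast; ring
  unfold Ev
  rw [dk, dk]
  generalize dd u k = d0 at h0' ⊢
  generalize dd u (k + 1) = d1 at h1' ⊢
  push_cast at h0' h1'
  have e1 : (15 + k - 1 : ℝ) = 14 + k := by ring
  have e2 : (15 + k + 1 : ℝ) = 16 + k := by ring
  have e3 : (15 + k + 2 : ℝ) = 17 + k := by ring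
  have e4 : (14 + (k + 1) : ℝ) = 15 + k := by ring
  have e5 : (15 + (k + 1) : ℝ) = 16 + k := by ring
  have e6 : (16 + (k + 1) : ℝ) = 17 + k := by ring
  rw [e1, e2, e3] at hR
  rw [e3] at R1
  rw [e4, e5, e6] at h1'
  have hq : (17 + k : ℝ) ^ (p - 4) ≤ (17 + (k + 1) : ℝ) ^ (p - 4) :=
    pow_le_pow_left₀ (by positivity) (by linarith) _
  have c0 : (0 : ℝ) ≤ max 0 (c : ℝ) := le_max_left _ _
  have hcR : (c : ℝ) * R ≤ max 0 (c : ℝ) * (9 / 16 * (p.choose 4 : ℕ) * (17 + k : ℝ) ^ (p - 4)) :=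
    (mul_le_mul_of_nonneg_right (le_max_right _ _) R0).trans (mul_le_mul_of_nonneg_left R1 c0)
  have hq' := mul_le_mul_of_nonneg_left hq
    (mul_nonneg c0 (Nat.cast_nonneg (α := ℝ) (p.choose 4)))
  have key := isoenv_core (g0 := u k * den - c * (15 + k : ℝ) ^ p * 2 ^ 24)
    (g1 := u (k + 1) * den - c * (16 + k : ℝ) ^ p * 2 ^ 24) (r := 2 ^ 24 * (c * R))
    (r' := 2 ^ 24 * (max 0 (c : ℝ) * (9 / 16 * (p.choose 4 : ℕ) * (17 + k : ℝ) ^ (p - 4)))) hl
    (le_max_left 0 ((d0 : ℝ) * den -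
      c * ((14 + k : ℝ) ^ p - 2 * (15 + k : ℝ) ^ p + (16 + k : ℝ) ^ p) * 2 ^ 24)) (le_max_right _ _)
    (le_max_left 0 ((d1 : ℝ) * den -
      c * ((15 + k : ℝ) ^ p - 2 * (16 + k : ℝ) ^ p + (17 + k : ℝ) ^ p) * 2 ^ 24)) (le_max_right _ _)
    (by norm_num at h0' ⊢; linarith) (by norm_num at h1' ⊢; linarith) (by linarith)
  rw [← mul_div_assoc, div_le_iff₀ hd', hR]
  linarith

/-- `mray j (en i) ((15+k+l)/12) = tc j i * (15+k+l)^(tp j) / tden j`; `TU_spec`, `TL_spec` -/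
theorem mray_node {j i k : ℕ} (hj : j < 17) (hi : i < 56) (hk : k < 19) {l : ℝ}
    (hl : l ∈ Icc (0 : ℝ) 1) :
    Ev (fun k => (dg (TL j) (lay k i) : ℝ)) k l - 2 ^ 30 ≤
        2 ^ 24 * mray j (en i) ((15 + k + l) / 12) ∧
      2 ^ 24 * mray j (en i) ((15 + k + l) / 12) ≤
        Ev (fun k => (dg (TU j) (lay k i) : ℝ)) k l - 2 ^ 30 := by
  have hp : 2 ≤ tp j ∧ tp j ≤ 8 ∧ 0 < ps j := by
    interval_cases j <;> simp [tp, pa, pb, ps]
  have hd : 0 < tden j := by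
    have h1 : (0 : ℤ) < tp j := by exact_mod_cast (by omega : 0 < tp j)
    have h2 : (0 : ℤ) < ps j := by exact_mod_cast hp.2.2
    unfold tden
    positivity
  have hm : mray j (en i) ((15 + k + l) / 12) = tc j i * (15 + k + l) ^ tp j / tden j := by
    have h2 : (ps j : ℝ) ≠ 0 := by exact_mod_cast hp.2.2.ne'
    have hne : ((pa j : ℝ) + pb j + 2) ≠ 0 := by positivity
    simp only [mray, en, tc, tden, tp, Matrix.cons_val_zero, Matrix.cons_val_one]
    push_cast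
    simp only [mul_pow, div_pow, pow_add]
    field_simp
  have a := tab_ev hd hp.1 hp.2.1 (TU_spec j hj i hi k (by omega)).2
    (TU_spec j hj i hi (k + 1) (by omega)).2 hl
  have b := tab_ev hd hp.1 hp.2.1 (TL_spec j hj i hi k (by omega)).2
    (TL_spec j hj i hi (k + 1) (by omega)).2 hl
  rw [hm]
  simp only [lane_eq, Ev, dd] at a b ⊢
  generalize dg (TU j) = U at a ⊢
  generalize dg (TL j) = L at b ⊢
  simp only [Int.cast_sub, Int.cast_natCast, Int.cast_pow, Int.cast_ofNat, Int.cast_neg, neg_mul,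
    neg_div] at a b
  constructor <;> linarith

private theorem isoenv_inv {m l : ℝ} (hm : 3 ≤ m) (hl : l ∈ Icc (0 : ℝ) 1) :
    ∃ R : ℝ, 0 ≤ R ∧ R ≤ 9 / 16 / (m - 1) ^ 5 ∧
      1 / (m + l) = (1 - l) * (1 / m) + l * (1 / (m + 1)) - l * (1 - l) / 6 *
        ((2 - l) * (2 / ((m - 1) * m * (m + 1))) + (1 + l) * (2 / (m * (m + 1) * (m + 2)))) + R := by
  obtain ⟨w0, w1⟩ := isoenv_w hl
  obtain ⟨l0, l1⟩ := hl
  have a : 0 < m - 1 := by linarith
  have b : 0 < m := by linarith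
  have c : 0 < m + l := by linarith
  refine ⟨l * (1 - l) * (1 + l) * (2 - l) / ((m - 1) * m * (m + 1) * (m + 2) * (m + l)),
    by positivity, ?_, ?_⟩
  · refine div_le_div₀ (by norm_num) w1 (by positivity) ?_
    calc (m - 1) ^ 5 = (m - 1) * (m - 1) * (m - 1) * (m - 1) * (m - 1) := by ring
      _ ≤ _ := by gcongr <;> linarith
  · field_simp
    ring

private theorem isoenv_u {m u d : ℝ} (hm : 3 ≤ m)
    (h : 16 * max 0 (d * ((m - 1) * m * (m + 1)) - 24 * 2 ^ 24) * (m - 2) ^ 5 +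
      648 * 2 ^ 24 * ((m - 1) * m * (m + 1)) ≤
        96 * (u * m - 12 * 2 ^ 24) * ((m - 1) * (m + 1) * (m - 2) ^ 5)) :
    max 0 (d - 2 ^ 24 * 12 * (2 / ((m - 1) * m * (m + 1)))) / 6 +
      2 ^ 24 * 12 * (9 / 16 / (m - 2) ^ 5) ≤ u - 2 ^ 24 * 12 * (1 / m) := by
  have a : 0 < m - 1 := by linarith
  have b : 0 < m := by linarith
  have c : 0 < m - 2 := by linarith
  have hP : 0 < (m - 1) * m * (m + 1) := by positivity
  have e : max 0 (d * ((m - 1) * m * (m + 1)) - 24 * 2 ^ 24) =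
      max 0 (d - 2 ^ 24 * 12 * (2 / ((m - 1) * m * (m + 1)))) * ((m - 1) * m * (m + 1)) := by
    rw [max_mul_of_nonneg _ _ hP.le, zero_mul]
    congr 1
    field_simp
    ring
  rw [e] at h
  generalize max 0 (d - 2 ^ 24 * 12 * (2 / ((m - 1) * m * (m + 1)))) = E at h ⊢
  have hQ : 0 < 96 * ((m - 1) * m * (m + 1)) * (m - 2) ^ 5 := by positivity
  refine le_of_mul_le_mul_right ?_ hQ
  have e1 : (E / 6 + 2 ^ 24 * 12 * (9 / 16 / (m - 2) ^ 5)) *
      (96 * ((m - 1) * m * (m + 1)) * (m - 2) ^ 5) =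
      16 * (E * ((m - 1) * m * (m + 1))) * (m - 2) ^ 5 +
        648 * 2 ^ 24 * ((m - 1) * m * (m + 1)) := by
    field_simp
    ring
  have e2 : (u - 2 ^ 24 * 12 * (1 / m)) * (96 * ((m - 1) * m * (m + 1)) * (m - 2) ^ 5) =
      96 * (u * m - 12 * 2 ^ 24) * ((m - 1) * (m + 1) * (m - 2) ^ 5) := by
    field_simp
  rw [e1, e2]
  exact h

private theorem isoenv_l {m u d : ℝ} (hm : 3 ≤ m)
    (h : max 0 (24 * 2 ^ 24 - d * ((m - 1) * m * (m + 1))) ≤
        6 * (12 * 2 ^ 24 - u * m) * ((m - 1) * (m + 1))) :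
    max 0 (2 ^ 24 * 12 * (2 / ((m - 1) * m * (m + 1))) - d) / 6 + 0 ≤
      2 ^ 24 * 12 * (1 / m) - u := by
  have a : 0 < m - 1 := by linarith
  have b : 0 < m := by linarith
  have hP : 0 < (m - 1) * m * (m + 1) := by positivity
  have e : max 0 (24 * 2 ^ 24 - d * ((m - 1) * m * (m + 1))) =
      max 0 (2 ^ 24 * 12 * (2 / ((m - 1) * m * (m + 1))) - d) * ((m - 1) * m * (m + 1)) := by
    rw [max_mul_of_nonneg _ _ hP.le, zero_mul]
    congr 1
    field_simp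
    ring
  rw [e] at h
  generalize max 0 (2 ^ 24 * 12 * (2 / ((m - 1) * m * (m + 1))) - d) = E at h ⊢
  refine le_of_mul_le_mul_right ?_ hP
  have e2 : (2 ^ 24 * 12 * (1 / m) - u) * ((m - 1) * m * (m + 1)) =
      (12 * 2 ^ 24 - u * m) * ((m - 1) * (m + 1)) := by
    field_simp
  rw [e2]
  linarith

private theorem isoenv_u1 {k : ℕ} (hk : k < 20) {m : ℝ} (hm : m = 15 + k) :
    max 0 (dd (fun k => (u1 k : ℝ)) k - 2 ^ 24 * 12 * (2 / ((m - 1) * m * (m + 1)))) / 6 +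
      2 ^ 24 * 12 * (9 / 16 / (m - 2) ^ 5) ≤ u1 k - 2 ^ 24 * 12 * (1 / m) := by
  have hk0 : (0 : ℝ) ≤ k := Nat.cast_nonneg k
  refine isoenv_u (by linarith) ?_
  have h := (Int.cast_le (R := ℝ)).2 (u1_spec k hk)
  have e1 : m - 1 = 14 + k := by rw [hm]; ring
  have e2 : m + 1 = 16 + k := by rw [hm]; ring
  have e3 : m - 2 = 13 + k := by rw [hm]; ring
  rw [e1, e2, e3, hm]
  simp only [dd] at h ⊢
  generalize u1 = U at h ⊢
  simp only [Int.cast_sub, Int.cast_add, Int.cast_mul, Int.cast_natCast, Int.cast_pow,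
    Int.cast_ofNat, Int.cast_max, Int.cast_zero] at h
  exact h

private theorem isoenv_l1 {k : ℕ} (hk : k < 20) {m : ℝ} (hm : m = 15 + k) :
    max 0 (2 ^ 24 * 12 * (2 / ((m - 1) * m * (m + 1))) - dd (fun k => (l1 k : ℝ)) k) / 6 + 0 ≤
      2 ^ 24 * 12 * (1 / m) - l1 k := by
  have hk0 : (0 : ℝ) ≤ k := Nat.cast_nonneg k
  refine isoenv_l (by linarith) ?_
  have h := (Int.cast_le (R := ℝ)).2 (l1_spec k hk)
  have e1 : m - 1 = 14 + k := by rw [hm]; ring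
  have e2 : m + 1 = 16 + k := by rw [hm]; ring
  rw [e1, e2, hm]
  simp only [dd] at h ⊢
  generalize l1 = U at h ⊢
  simp only [Int.cast_sub, Int.cast_add, Int.cast_mul, Int.cast_natCast, Int.cast_pow,
    Int.cast_ofNat, Int.cast_max, Int.cast_zero] at h
  exact h

/-- the same for `1/x`: `R = l(1-l)(1+l)(2-l) / ((m-1) m (m+1) (m+2) (m+l))`; `u1_spec`, `l1_spec` -/
theorem inv_env {k : ℕ} (hk : k < 19) {l : ℝ} (hl : l ∈ Icc (0 : ℝ) 1) :
    Ev (fun k => (l1 k : ℝ)) k l ≤ 2 ^ 24 * (12 / (15 + k + l)) ∧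
      2 ^ 24 * (12 / (15 + k + l)) ≤ Ev (fun k => (u1 k : ℝ)) k l := by
  have hk0 : (0 : ℝ) ≤ k := Nat.cast_nonneg k
  obtain ⟨m, hm⟩ : ∃ m : ℝ, m = 15 + k := ⟨_, rfl⟩
  have hm3 : 15 ≤ m := by linarith
  have hm1 : m + 1 = 15 + ((k + 1 : ℕ) : ℝ) := by rw [hm]; push_cast; ring
  obtain ⟨R, R0, R1, hR⟩ := isoenv_inv (m := m) (by linarith) hl
  have a0 := isoenv_u1 (show k < 20 by omega) hm
  have a1 := isoenv_u1 (show k + 1 < 20 by omega) hm1
  have b0 := isoenv_l1 (show k < 20 by omega) hm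
  have b1 := isoenv_l1 (show k + 1 < 20 by omega) hm1
  have e1 : m + 1 - 1 = m := by ring
  have e2 : m + 1 + 1 = m + 2 := by ring
  have e3 : m + 1 - 2 = m - 1 := by ring
  rw [e1, e2] at b1
  rw [e1, e2, e3] at a1
  have hq : 9 / 16 / (m - 1) ^ 5 ≤ 9 / 16 / (m - 2) ^ 5 :=
    div_le_div_of_nonneg_left (by norm_num) (pow_pos (by linarith only [hm3]) _)
      (pow_le_pow_left₀ (by linarith only [hm3]) (by linarith only [hm3]) _)
  generalize 9 / 16 / (m - 1) ^ 5 = w1 at hq R1 a1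
  generalize 9 / 16 / (m - 2) ^ 5 = w2 at hq a0
  generalize 2 / ((m - 1) * m * (m + 1)) = D0 at hR a0 b0
  generalize 2 / (m * (m + 1) * (m + 2)) = D1 at hR a1 b1
  generalize 1 / m = I0 at hR a0 b0
  generalize 1 / (m + 1) = I1 at hR a1 b1
  have ka := isoenv_core (r := 2 ^ 24 * 12 * R) (r' := 2 ^ 24 * 12 * w1) hl
    (le_max_left _ _) (le_max_right _ _) (le_max_left _ _) (le_max_right _ _)
    (le_trans (by linarith only [hq]) a0) a1 (by linarith only [R1])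
  have kb := isoenv_core (r := 0) hl (le_max_left _ _) (le_max_right _ _) (le_max_left _ _)
    (le_max_right _ _) b0 b1 le_rfl
  have e : (12 : ℝ) / (15 + k + l) = 12 * (1 / (m + l)) := by rw [hm]; ring
  rw [e, hR]
  unfold Ev
  constructor
  · linarith only [kb, R0]
  · linarith only [ka]

end Pool.Agent.P.MP_2e1554_gt.Chk
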