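import Pool.Agent.P.MP_2e1554_gt.IsoTab7
import Pool.Agent.P.MP_2e1554_gt.IsoLane

/-! The error between two rays. -/

open MeasureTheory Set Finset

namespace Pool.Agent.P.MP_2e1554_gt.Chk

private theorem env_aux {l F0 F1 F Q A B : ℝ} (h0 : 0 ≤ l) (h1 : l ≤ 1)
    (hid : (1 - l) * F0 + l * F1 - F = l * (1 - l) * Q) (hQ : 0 ≤ Q) (hA : 2 * Q ≤ A) (hB : A ≤ B) :
    (1 - l) * (8 * F0 - A) + l * (8 * F1 - B) ≤ 8 * F ∧
      8 * F ≤ (1 - l) * (8 * F0) + l * (8 * F1) := by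
  have h2 : 0 ≤ l * (1 - l) := mul_nonneg h0 (by linarith)
  have h3 : l * (1 - l) ≤ 1 / 4 := by nlinarith [sq_nonneg (l - 1 / 2)]
  have h4 : 0 ≤ l * (1 - l) * Q := mul_nonneg h2 hQ
  have h5 : l * (1 - l) * Q ≤ 1 / 4 * Q := mul_le_mul_of_nonneg_right h3 hQ
  have h6 : l * A ≤ l * B := mul_le_mul_of_nonneg_left hB h0
  constructor <;> nlinarith

/-- `m ↦ m^p` between two integers: convexity above, second derivative below -/
theorem pow_env {p : ℕ} (hp : 2 ≤ p) (hp5 : p ≤ 5) (k : ℕ) {l : ℝ} (hl : l ∈ Icc (0 : ℝ) 1) :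
    (1 - l) * (sL p k : ℝ) + l * sL p (k + 1) ≤ 8 * (15 + k + l) ^ p ∧
      8 * (15 + k + l) ^ p ≤ (1 - l) * (sU p k : ℝ) + l * sU p (k + 1) := by
  obtain ⟨h0, h1⟩ := hl
  have hk : (0 : ℝ) ≤ k := Nat.cast_nonneg k
  have hl2 : l ^ 2 ≤ 1 := by nlinarith
  have hl3 : l ^ 3 ≤ 1 := pow_le_one₀ h0 h1
  simp only [sL, sU]
  push_cast
  obtain ⟨m, hm⟩ : ∃ m : ℝ, m = 15 + k := ⟨_, rfl⟩
  have hm0 : 0 ≤ m := by rw [hm]; linarith
  have e1 : (15 : ℝ) + (k + 1) = m + 1 := by rw [hm]; ring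
  have e2 : (16 : ℝ) + k = m + 1 := by rw [hm]; ring
  have e3 : (16 : ℝ) + (k + 1) = m + 2 := by rw [hm]; ring
  rw [e1, e2, e3, ← hm]
  have hml : m * l ≤ m := by nlinarith
  have hml0 : 0 ≤ m * l := mul_nonneg hm0 h0
  have hm2 : 0 ≤ m ^ 2 := sq_nonneg m
  have hm2l : m ^ 2 * l ≤ m ^ 2 := by nlinarith
  have hml2 : m * l ^ 2 ≤ m := by nlinarith
  interval_cases p
  · refine env_aux (Q := 1) h0 h1 (by ring) (by norm_num) (by norm_num) (by norm_num)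
  · refine env_aux (Q := 3 * m + 1 + l) h0 h1 (by ring) (by positivity) ?_ ?_
    · norm_num; linarith
    · norm_num
  · refine env_aux (Q := 6 * m ^ 2 + 4 * m * (1 + l) + (1 + l + l ^ 2)) h0 h1 (by ring)
      (by positivity) ?_ ?_
    · norm_num; nlinarith
    · norm_num; nlinarith
  · refine env_aux (Q := 10 * m ^ 3 + 10 * m ^ 2 * (1 + l) + 5 * m * (1 + l + l ^ 2) +
      (1 + l + l ^ 2 + l ^ 3)) h0 h1 (by ring) (by positivity) ?_ ?_
    · norm_num; nlinarith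
    · norm_num
      exact pow_le_pow_left₀ (by linarith) (by linarith) 3

theorem pow_env8 {p : ℕ} (hp : 2 ≤ p) (hp8 : p ≤ 8) (k : ℕ) {l : ℝ} (hl : l ∈ Icc (0 : ℝ) 1) :
    (1 - l) * (sL p k : ℝ) + l * sL p (k + 1) ≤ 8 * (15 + k + l) ^ p ∧
      8 * (15 + k + l) ^ p ≤ (1 - l) * (sU p k : ℝ) + l * sU p (k + 1) := by
  rcases Nat.lt_or_ge p 6 with h5 | h6
  · exact pow_env hp (by omega) k hl
  obtain ⟨h0, h1⟩ := hl
  have hk : (0 : ℝ) ≤ k := Nat.cast_nonneg k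
  simp only [sL, sU]
  push_cast
  obtain ⟨m, hm⟩ : ∃ m : ℝ, m = 15 + k := ⟨_, rfl⟩
  have hm0 : 0 ≤ m := by rw [hm]; linarith
  have e1 : (15 : ℝ) + (k + 1) = m + 1 := by rw [hm]; ring
  have e2 : (16 : ℝ) + k = m + 1 := by rw [hm]; ring
  have e3 : (16 : ℝ) + (k + 1) = m + 2 := by rw [hm]; ring
  rw [e1, e2, e3, ← hm]
  have H : ∀ a b : ℕ, m ^ a * l ^ b ≤ m ^ a := fun a b =>
    mul_le_of_le_one_right (pow_nonneg hm0 a) (pow_le_one₀ h0 h1)
  have P : ∀ a : ℕ, 0 ≤ m ^ a := fun a => pow_nonneg hm0 a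
  have hB : ∀ (c : ℝ) (n : ℕ), 0 ≤ c → c * (m + 1) ^ n ≤ c * (m + 2) ^ n := fun c n hc =>
    mul_le_mul_of_nonneg_left (pow_le_pow_left₀ (by linarith) (by linarith) n) hc
  interval_cases p
  · refine env_aux (Q := 15 * m ^ 4 + 20 * m ^ 3 * (1 + l) + 15 * m ^ 2 * (1 + l + l ^ 2) +
      6 * m * (1 + l + l ^ 2 + l ^ 3) + (1 + l + l ^ 2 + l ^ 3 + l ^ 4)) h0 h1 (by ring)
      (by positivity) ?_ (hB _ _ (by norm_num))
    norm_num
    linarith [H 3 1, H 2 1, H 2 2, H 1 1, H 1 2, H 1 3, H 0 1, H 0 2, H 0 3, H 0 4, P 1, P 2, P 3]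
  · refine env_aux (Q := 21 * m ^ 5 + 35 * m ^ 4 * (1 + l) + 35 * m ^ 3 * (1 + l + l ^ 2) +
      21 * m ^ 2 * (1 + l + l ^ 2 + l ^ 3) + 7 * m * (1 + l + l ^ 2 + l ^ 3 + l ^ 4) +
      (1 + l + l ^ 2 + l ^ 3 + l ^ 4 + l ^ 5)) h0 h1 (by ring)
      (by positivity) ?_ (hB _ _ (by norm_num))
    norm_num
    linarith [H 4 1, H 3 1, H 3 2, H 2 1, H 2 2, H 2 3, H 1 1, H 1 2, H 1 3, H 1 4, H 0 1, H 0 2,
      H 0 3, H 0 4, H 0 5, P 1, P 2, P 3, P 4]
  · refine env_aux (Q := 28 * m ^ 6 + 56 * m ^ 5 * (1 + l) + 70 * m ^ 4 * (1 + l + l ^ 2) +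
      56 * m ^ 3 * (1 + l + l ^ 2 + l ^ 3) + 28 * m ^ 2 * (1 + l + l ^ 2 + l ^ 3 + l ^ 4) +
      8 * m * (1 + l + l ^ 2 + l ^ 3 + l ^ 4 + l ^ 5) +
      (1 + l + l ^ 2 + l ^ 3 + l ^ 4 + l ^ 5 + l ^ 6)) h0 h1 (by ring)
      (by positivity) ?_ (hB _ _ (by norm_num))
    norm_num
    linarith [H 5 1, H 4 1, H 4 2, H 3 1, H 3 2, H 3 3, H 2 1, H 2 2, H 2 3, H 2 4, H 1 1, H 1 2,
      H 1 3, H 1 4, H 1 5, H 0 1, H 0 2, H 0 3, H 0 4, H 0 5, H 0 6, P 1, P 2, P 3, P 4, P 5]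

private theorem ep_0 (i : ℕ) (x : ℝ) :
    24 * ep i x 0 = (ex i : ℝ) + x * ((ex (i + 1) : ℝ) - ex i) := by
  simp only [ep, en, Pi.add_apply, Pi.smul_apply, smul_eq_mul, Matrix.cons_val_zero]; ring

private theorem ep_1 (i : ℕ) (x : ℝ) :
    24 * ep i x 1 = (ey i : ℝ) + x * ((ey (i + 1) : ℝ) - ey i) := by
  simp only [ep, en, Pi.add_apply, Pi.smul_apply, smul_eq_mul, Matrix.cons_val_one,
    Matrix.cons_val_zero]; ring

private theorem expand {j : ℕ} (hj : j < 17) (X Y dx dy x : ℝ) :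
    (X + x * dx) ^ pa j * (Y + x * dy) ^ pb j = ∑ k ∈ range 7, (∑ r ∈ range (k + 1),
      ((pa j).choose r : ℝ) * X ^ (pa j - r) * dx ^ r *
        (((pb j).choose (k - r) : ℝ) * Y ^ (pb j - (k - r)) * dy ^ (k - r))) * x ^ k := by
  simp only [Finset.sum_range_succ, Finset.sum_range_zero, Nat.reduceAdd, Nat.reduceSub, zero_add,
    Nat.sub_self, Nat.sub_zero]
  interval_cases j <;>
    simp only [pa, pb, List.getD_cons_succ, List.getD_cons_zero, Nat.choose, Nat.reduceAdd,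
      Nat.reduceSub, Nat.cast_ofNat, Nat.cast_one, Nat.cast_zero, Nat.zero_sub] <;> ring

/-- expansion in powers of `x` (`interval_cases j`, `Finset.sum_range_succ`, `Nat.choose`, `ring`) -/
theorem cf_eq {j : ℕ} (hj : j < 17) (i : ℕ) (x : ℝ) :
    (24 * ep i x 0) ^ pa j * (24 * ep i x 1) ^ pb j = ∑ k ∈ range 7, (cf j i k : ℝ) * x ^ k := by
  rw [ep_0, ep_1, expand hj]
  simp only [cf]
  push_cast
  rfl

private theorem up_aux {l S P : ℝ} {p u0 u1 d0 d1 : ℤ} {t0 t1 : ℝ} (h0 : 0 ≤ l) (h1 : l ≤ 1)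
    (hP : P = p) (hS1 : (1 - l) * (d0 : ℝ) + l * d1 ≤ S) (hS2 : S ≤ (1 - l) * (u0 : ℝ) + l * u1)
    (a0 : ((p * (if 0 ≤ p then u0 else d0) * 2 ^ 24 : ℤ) : ℝ) ≤ t0)
    (a1 : ((p * (if 0 ≤ p then u1 else d1) * 2 ^ 24 : ℤ) : ℝ) ≤ t1) :
    2 ^ 24 * (P * S) ≤ (1 - l) * t0 + l * t1 := by
  subst hP
  have b0 := mul_le_mul_of_nonneg_left a0 (show 0 ≤ 1 - l by linarith)
  have b1 := mul_le_mul_of_nonneg_left a1 h0
  split_ifs at b0 b1 with h
  · have hp : (0 : ℝ) ≤ p := by exact_mod_cast h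
    have := mul_le_mul_of_nonneg_left hS2 hp
    push_cast at b0 b1
    nlinarith
  · have hp : (p : ℝ) ≤ 0 := by exact_mod_cast (not_le.1 h).le
    have := mul_le_mul_of_nonpos_left hS1 hp
    push_cast at b0 b1
    nlinarith

private theorem lo_aux {l S P : ℝ} {p u0 u1 d0 d1 : ℤ} {t0 t1 : ℝ} (h0 : 0 ≤ l) (h1 : l ≤ 1)
    (hP : P = p) (hS1 : (1 - l) * (d0 : ℝ) + l * d1 ≤ S) (hS2 : S ≤ (1 - l) * (u0 : ℝ) + l * u1)
    (a0 : t0 ≤ ((p * (if 0 ≤ p then d0 else u0) * 2 ^ 24 : ℤ) : ℝ))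
    (a1 : t1 ≤ ((p * (if 0 ≤ p then d1 else u1) * 2 ^ 24 : ℤ) : ℝ)) :
    (1 - l) * t0 + l * t1 ≤ 2 ^ 24 * (P * S) := by
  subst hP
  have b0 := mul_le_mul_of_nonneg_left a0 (show 0 ≤ 1 - l by linarith)
  have b1 := mul_le_mul_of_nonneg_left a1 h0
  split_ifs at b0 b1 with h
  · have hp : (0 : ℝ) ≤ p := by exact_mod_cast h
    have := mul_le_mul_of_nonneg_left hS1 hp
    push_cast at b0 b1
    nlinarith
  · have hp : (p : ℝ) ≤ 0 := by exact_mod_cast (not_le.1 h).le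
    have := mul_le_mul_of_nonpos_left hS2 hp
    push_cast at b0 b1
    nlinarith

private theorem lay_mod (k i : ℕ) : lay k (i % 56) = lay k i := by
  simp only [lay, Nat.mod_mod]

private theorem sec_aux (a0 a1 a2 a3 a4 : ℝ) {x : ℝ} (h0 : 0 ≤ x) (h1 : x ≤ 1) :
    |4 * (a0 + a1 * x + a2 * x ^ 2 + a3 * x ^ 3 + a4 * x ^ 4 -
      ((1 - x) * a0 + x * (a0 + a1 + a2 + a3 + a4)))| ≤ |a2| + 2 * |a3| + 3 * |a4| := by
  have h2 : 0 ≤ 4 * (x * (1 - x)) := mul_nonneg (by norm_num) (mul_nonneg h0 (by linarith))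
  have h3 : 4 * (x * (1 - x)) ≤ 1 := by nlinarith [sq_nonneg (x - 1 / 2)]
  have hx2 : x ^ 2 ≤ 1 := pow_le_one₀ h0 h1
  have e : 4 * (a0 + a1 * x + a2 * x ^ 2 + a3 * x ^ 3 + a4 * x ^ 4 -
      ((1 - x) * a0 + x * (a0 + a1 + a2 + a3 + a4))) =
      -(4 * (x * (1 - x)) * (a2 + a3 * (1 + x) + a4 * (1 + x + x ^ 2))) := by ring
  have b3 : |a3 * (1 + x)| ≤ 2 * |a3| := by
    rw [abs_mul, abs_of_nonneg (show 0 ≤ 1 + x by linarith), mul_comm]
    exact mul_le_mul_of_nonneg_right (by linarith) (abs_nonneg _)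
  have b4 : |a4 * (1 + x + x ^ 2)| ≤ 3 * |a4| := by
    rw [abs_mul, abs_of_nonneg (show 0 ≤ 1 + x + x ^ 2 by positivity), mul_comm]
    exact mul_le_mul_of_nonneg_right (by linarith) (abs_nonneg _)
  have b : |a2 + a3 * (1 + x) + a4 * (1 + x + x ^ 2)| ≤ |a2| + 2 * |a3| + 3 * |a4| := by
    have t1 := abs_add_le (a2 + a3 * (1 + x)) (a4 * (1 + x + x ^ 2))
    have t2 := abs_add_le a2 (a3 * (1 + x))
    linarith
  rw [e, abs_neg, abs_mul, abs_of_nonneg h2]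
  exact (mul_le_of_le_one_left (abs_nonneg _) h3).trans b

private theorem cf_zero {j : ℕ} (hj : j < 3) (i k : ℕ) : cf j i (k + 2) = 0 := by
  refine Finset.sum_eq_zero fun r hr => ?_
  have hab : pa j + pb j ≤ 1 := by interval_cases j <;> decide
  have hr' : r < k + 3 := Finset.mem_range.1 hr
  rcases Nat.lt_or_ge (pa j) r with h | h
  · rw [Nat.choose_eq_zero_of_lt h]; simp
  · rw [Nat.choose_eq_zero_of_lt (show pb j < k + 2 - r by omega)]; simp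

private theorem gj_zero {j : ℕ} (hj : j < 3) (i r : ℕ) : gj j i r = 0 := by
  refine Finset.sum_eq_zero fun k _ => ?_
  rw [show r + 2 + k = r + k + 2 by omega]
  exact cf_zero hj i _

/-- with `f x = ∑ c_k x^k`: `f x = (1-x) f 0 + x f 1 - x(1-x) g x`, `g x = ∑ r<5, gj r x^r`, and
`g x - ((1-x) g 0 + x g 1) = -x(1-x)(gj 2 + gj 3 (1+x) + gj 4 (1+x+x^2))` is at most `gr/4` in
absolute value -/
theorem mon_sec {j i : ℕ} (hj : j < 17) (hi : i < 56) {x : ℝ} (hx : x ∈ Icc (0 : ℝ) 1) :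
    ∃ g : ℝ, (24 * ep i x 0) ^ pa j * (24 * ep i x 1) ^ pb j =
        (1 - x) * tc j i + x * tc j (i + 1) - x * (1 - x) * g ∧ (j < 3 → g = 0) ∧
      (1 - x) * (yL j i : ℝ) + x * yL j ((i + 1) % 56) ≤ -4 * g ∧
      -4 * g ≤ (1 - x) * (yU j i : ℝ) + x * yU j ((i + 1) % 56) := by
  obtain ⟨h0, h1⟩ := hx
  have hi2 : ((i + 1) % 56 + 55) % 56 = i := by omega
  have hm0 : (tc j i : ℝ) = cf j i 0 := by
    have b := cf_eq hj i 0
    rw [ep_0, ep_1] at b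
    simp only [zero_mul, add_zero, Finset.sum_range_succ, Finset.sum_range_zero, zero_add, pow_zero,
      mul_one, ne_eq, OfNat.ofNat_ne_zero, not_false_eq_true, zero_pow, mul_zero, pow_one] at b
    rw [← b]
    simp only [tc]
    push_cast
    rfl
  have hm1 : (tc j (i + 1) : ℝ) = ∑ k ∈ range 7, (cf j i k : ℝ) := by
    have a := cf_eq hj i 1
    rw [ep_0, ep_1] at a
    simp only [one_mul, add_sub_cancel, one_pow, mul_one] at a
    rw [← a]
    simp only [tc]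
    push_cast
    rfl
  obtain ⟨g, hg⟩ : ∃ g : ℝ, g = gj j i 0 + gj j i 1 * x + gj j i 2 * x ^ 2 + gj j i 3 * x ^ 3 +
    gj j i 4 * x ^ 4 := ⟨_, rfl⟩
  have hb := sec_aux (gj j i 0 : ℝ) (gj j i 1) (gj j i 2) (gj j i 3) (gj j i 4) h0 h1
  rw [← hg, abs_le] at hb
  have hgs : (gs j i : ℝ) = gj j i 0 + gj j i 1 + gj j i 2 + gj j i 3 + gj j i 4 := by
    simp only [gs]; push_cast; rfl
  have hgr : (gr j i : ℝ) = |(gj j i 2 : ℝ)| + 2 * |(gj j i 3 : ℝ)| + 3 * |(gj j i 4 : ℝ)| := by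
    simp only [gr]; push_cast; rfl
  rw [← hgs, ← hgr] at hb
  have hx1 : 0 ≤ 1 - x := by linarith
  refine ⟨g, ?_, ?_, ?_, ?_⟩
  · rw [cf_eq hj, hm0, hm1, hg]
    simp only [gj, Finset.sum_range_succ, Finset.sum_range_zero, Nat.reduceSub, Nat.reduceAdd]
    push_cast
    ring
  · intro h3
    rw [hg, gj_zero h3, gj_zero h3, gj_zero h3, gj_zero h3, gj_zero h3]
    simp
  · have a : (yL j i : ℝ) ≤ -4 * gj j i 0 - gr j i := by
      have : yL j i ≤ -4 * gj j i 0 - gr j i := min_le_left _ _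
      exact_mod_cast this
    have b : (yL j ((i + 1) % 56) : ℝ) ≤ -4 * gs j i - gr j i := by
      have : yL j ((i + 1) % 56) ≤ -4 * gs j i - gr j i := by
        simp only [yL, hi2]
        exact min_le_right _ _
      exact_mod_cast this
    have a' := mul_le_mul_of_nonneg_left a hx1
    have b' := mul_le_mul_of_nonneg_left b h0
    nlinarith [hb.2]
  · have a : -4 * gj j i 0 + gr j i ≤ (yU j i : ℝ) := by
      have : -4 * gj j i 0 + gr j i ≤ yU j i := le_max_left _ _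
      exact_mod_cast this
    have b : -4 * gs j i + gr j i ≤ (yU j ((i + 1) % 56) : ℝ) := by
      have : -4 * gs j i + gr j i ≤ yU j ((i + 1) % 56) := by
        simp only [yU, hi2]
        exact le_max_right _ _
      exact_mod_cast this
    have a' := mul_le_mul_of_nonneg_left a hx1
    have b' := mul_le_mul_of_nonneg_left b h0
    nlinarith [hb.1]

private theorem ps_one {j : ℕ} (hj : j < 17) : (1 : ℝ) ≤ ps j := by
  have : 1 ≤ ps j := by interval_cases j <;> decide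
  exact_mod_cast this

private theorem tden_pos {j : ℕ} (hj : j < 17) : (0 : ℝ) < (tden j : ℝ) := by
  have := ps_one hj
  simp only [tden, tp]; push_cast; positivity

private theorem mray_mul {j : ℕ} (hj : j < 17) (e : Fin 2 → ℝ) (m : ℝ) :
    mray j e (m / 12) * (tden j : ℝ) = (24 * e 0) ^ pa j * (24 * e 1) ^ pb j * m ^ tp j := by
  have hp : (ps j : ℝ) ≠ 0 := by have := ps_one hj; positivity
  have hne : ((pa j : ℝ) + pb j + 2) ≠ 0 := by positivity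
  simp only [mray, tden, tp]
  push_cast
  simp only [mul_pow, div_pow, pow_add]
  field_simp

private theorem tc_real (j i : ℕ) : (24 * en i 0) ^ pa j * (24 * en i 1) ^ pb j = (tc j i : ℝ) := by
  have a : 24 * en i 0 = (ex i : ℝ) := by
    simp only [en, Matrix.cons_val_zero]; ring
  have b : 24 * en i 1 = (ey i : ℝ) := by
    simp only [en, Matrix.cons_val_one, Matrix.cons_val_zero]; ring
  rw [a, b]
  simp only [tc]
  push_cast
  rfl

private theorem zU_mod (j k i : ℕ) : zU j k (i % 56) = zU j k i := by simp only [zU, lay_mod]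
private theorem zL_mod (j k i : ℕ) : zL j k (i % 56) = zL j k i := by simp only [zL, lay_mod]

private theorem YU_real {j i k : ℕ} (hj : j < 17) (h3 : 3 ≤ j) (hi : i < 56) (hk : k < 20) :
    ((yU j i * (if 0 ≤ yU j i then sU (tp j) k else sL (tp j) k) * 2 ^ 24 : ℤ) : ℝ) ≤
      (zU j k i : ℝ) * (yden j : ℝ) := by
  have h := (YU_spec j hj h3 i hi k hk).2.2.1
  rw [lane_eq] at h
  have e : zU j k i = (dg (YU j) (lay k i) : ℤ) - 2 ^ 30 := if_neg (by omega)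
  rw [← e] at h
  exact_mod_cast h

private theorem YL_real {j i k : ℕ} (hj : j < 17) (h3 : 3 ≤ j) (hi : i < 56) (hk : k < 20) :
    (zL j k i : ℝ) * (yden j : ℝ) ≤
      ((yL j i * (if 0 ≤ yL j i then sL (tp j) k else sU (tp j) k) * 2 ^ 24 : ℤ) : ℝ) := by
  have h := (YU_spec j hj h3 i hi k hk).2.2.2
  rw [lane_eq] at h
  have e : zL j k i = (dg (YL j) (lay k i) : ℤ) - 2 ^ 30 := if_neg (by omega)
  rw [← e] at h
  exact_mod_cast h

/-- `Γ = 2^24 (-4 g) (8 (15+k+l)^p) / yden j`; `YU_spec`, `pow_env8`, `up_aux`, `lo_aux` -/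
theorem mray_sec {j i k : ℕ} (hj : j < 17) (hi : i < 56) (hk : k < 19) {x l : ℝ}
    (hx : x ∈ Icc (0 : ℝ) 1) (hl : l ∈ Icc (0 : ℝ) 1) : ∃ Γ : ℝ,
    2 ^ 24 * mray j (ep i x) ((15 + k + l) / 12) =
        (1 - x) * (2 ^ 24 * mray j (en i) ((15 + k + l) / 12)) +
          x * (2 ^ 24 * mray j (en (i + 1)) ((15 + k + l) / 12)) + 4 * (x * (1 - x)) * Γ ∧
      bil (fun k i => (zL j k i : ℝ)) k i x l ≤ Γ ∧ Γ ≤ bil (fun k i => (zU j k i : ℝ)) k i x l := by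
  obtain ⟨g, hid, hz, hP1, hP2⟩ := mon_sec hj hi hx
  have hab : pa j + pb j ≤ 6 := by interval_cases j <;> decide
  obtain ⟨hS1, hS2⟩ := pow_env8 (p := tp j) (by simp only [tp]; omega) (by simp only [tp]; omega) k hl
  obtain ⟨x0, x1⟩ := hx
  obtain ⟨l0, l1⟩ := hl
  have hi' : (i + 1) % 56 < 56 := Nat.mod_lt _ (by norm_num)
  have hk0 : (0 : ℝ) ≤ k := Nat.cast_nonneg k
  have hS0 : (0 : ℝ) ≤ 8 * (15 + k + l) ^ tp j := by positivity
  have hT := tden_pos hj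
  have hD : (0 : ℝ) < (yden j : ℝ) := by
    simp only [yden]; push_cast; positivity
  have m0 := mray_mul hj (ep i x) (15 + k + l)
  have m1 := mray_mul hj (en i) (15 + k + l)
  have m2 := mray_mul hj (en (i + 1)) (15 + k + l)
  rw [tc_real] at m1 m2
  rw [hid] at m0
  refine ⟨2 ^ 24 * (-4 * g * (8 * (15 + k + l) ^ tp j)) / yden j, ?_, ?_⟩
  · refine mul_right_cancel₀ hT.ne' ?_
    have e : 4 * (x * (1 - x)) * (2 ^ 24 * (-4 * g * (8 * (15 + k + l) ^ tp j)) / (yden j : ℝ)) *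
        (tden j : ℝ) = -(2 ^ 24 * (x * (1 - x) * g * (15 + k + l) ^ tp j)) := by
      simp only [yden]
      push_cast
      field_simp
      ring
    rw [add_mul, e]
    generalize mray j (ep i x) ((15 + k + l) / 12) = M0 at m0
    generalize mray j (en i) ((15 + k + l) / 12) = M1 at m1
    generalize mray j (en (i + 1)) ((15 + k + l) / 12) = M2 at m2
    linear_combination 2 ^ 24 * m0 - 2 ^ 24 * (1 - x) * m1 - 2 ^ 24 * x * m2
  rcases Nat.lt_or_ge j 3 with h3 | h3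
  · simp only [bil, zL, zU, if_pos h3, hz h3]
    simp
  generalize -4 * g = P at hP1 hP2
  generalize 8 * (15 + k + l) ^ tp j = S at hS0 hS1 hS2
  constructor
  · have a := lo_aux l0 l1 rfl hS1 hS2 (YL_real hj h3 hi (show k < 20 by omega))
      (YL_real hj h3 hi (show k + 1 < 20 by omega))
    have b := lo_aux l0 l1 rfl hS1 hS2 (YL_real hj h3 hi' (show k < 20 by omega))
      (YL_real hj h3 hi' (show k + 1 < 20 by omega))
    rw [zL_mod, zL_mod] at b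
    simp only [bil]
    generalize (zL j k i : ℝ) = t00 at a ⊢
    generalize (zL j (k + 1) i : ℝ) = t10 at a ⊢
    generalize (zL j k (i + 1) : ℝ) = t01 at b ⊢
    generalize (zL j (k + 1) (i + 1) : ℝ) = t11 at b ⊢
    rw [le_div_iff₀ hD]
    have c := mul_le_mul_of_nonneg_right hP1 hS0
    have a' := mul_le_mul_of_nonneg_left a (show 0 ≤ 1 - x by linarith)
    have b' := mul_le_mul_of_nonneg_left b x0
    linarith
  · have a := up_aux l0 l1 rfl hS1 hS2 (YU_real hj h3 hi (show k < 20 by omega))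
      (YU_real hj h3 hi (show k + 1 < 20 by omega))
    have b := up_aux l0 l1 rfl hS1 hS2 (YU_real hj h3 hi' (show k < 20 by omega))
      (YU_real hj h3 hi' (show k + 1 < 20 by omega))
    rw [zU_mod, zU_mod] at b
    simp only [bil]
    generalize (zU j k i : ℝ) = t00 at a ⊢
    generalize (zU j (k + 1) i : ℝ) = t10 at a ⊢
    generalize (zU j k (i + 1) : ℝ) = t01 at b ⊢
    generalize (zU j (k + 1) (i + 1) : ℝ) = t11 at b ⊢
    rw [div_le_iff₀ hD]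
    have c := mul_le_mul_of_nonneg_right hP2 hS0
    have a' := mul_le_mul_of_nonneg_left a (show 0 ≤ 1 - x by linarith)
    have b' := mul_le_mul_of_nonneg_left b x0
    linarith

private theorem ex_abs : ∀ i < 57, |ex i| ≤ 24 ∧ |ey i| ≤ 24 := by decide +kernel

private theorem seg_abs {x t : ℝ} {a b : ℤ} (x0 : 0 ≤ x) (x1 : x ≤ 1) (ha : |a| ≤ 24)
    (hb : |b| ≤ 24) (h : 24 * t = (a : ℝ) + x * ((b : ℝ) - a)) : |t| ≤ 1 := by
  have ha' : |(a : ℝ)| ≤ 24 := by exact_mod_cast ha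
  have hb' : |(b : ℝ)| ≤ 24 := by exact_mod_cast hb
  rw [abs_le] at ha' hb' ⊢
  have hx : 0 ≤ 1 - x := by linarith
  constructor
  · nlinarith [mul_le_mul_of_nonneg_left ha'.1 hx, mul_le_mul_of_nonneg_left hb'.1 x0]
  · nlinarith [mul_le_mul_of_nonneg_left ha'.2 hx, mul_le_mul_of_nonneg_left hb'.2 x0]

/-- `|ep i x 0|, |ep i x 1| ≤ 1` (`ex_line`/`decide`), `s ≤ 34/12` -/
theorem mray_abs {j i : ℕ} (hj : j < 17) (hi : i < 56) {x s : ℝ} (hx : x ∈ Icc (0 : ℝ) 1)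
    (h0 : 0 ≤ s) (h1 : s ≤ 34 / 12) : |mray j (ep i x) s| ≤ 64 := by
  obtain ⟨x0, x1⟩ := hx
  obtain ⟨a0, b0⟩ := ex_abs i (by omega)
  obtain ⟨a1, b1⟩ := ex_abs (i + 1) (by omega)
  have e0 : |ep i x 0| ≤ 1 := seg_abs x0 x1 a0 a1 (ep_0 i x)
  have e1 : |ep i x 1| ≤ 1 := seg_abs x0 x1 b0 b1 (ep_1 i x)
  have c0 : |s * ep i x 0| ≤ 34 / 12 := by
    rw [abs_mul, abs_of_nonneg h0]
    exact (mul_le_of_le_one_right h0 e0).trans h1
  have c1 : |s * ep i x 1| ≤ 34 / 12 := by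
    rw [abs_mul, abs_of_nonneg h0]
    exact (mul_le_of_le_one_right h0 e1).trans h1
  have hp := ps_one hj
  have hn : (0 : ℝ) < (pa j : ℝ) + pb j + 2 := by positivity
  have key : |mray j (ep i x) s| ≤
      (34 / 12) ^ 2 * ((34 / 12) ^ pa j * (34 / 12) ^ pb j / ((pa j : ℝ) + pb j + 2)) / ps j := by
    simp only [mray]
    rw [abs_div, abs_mul, abs_div, abs_mul, abs_pow, abs_pow, abs_pow, abs_of_nonneg h0,
      abs_of_pos hn, abs_of_pos (show (0 : ℝ) < ps j by linarith)]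
    gcongr
  refine key.trans ?_
  interval_cases j <;>
    simp only [pa, pb, ps, List.getD_cons_succ, List.getD_cons_zero] <;> norm_num

end Pool.Agent.P.MP_2e1554_gt.Chk
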