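import Pool.Agent.P.MP_2e1554_gt.IsoAff

open MeasureTheory Set Finset Matrix Filter Topology Pointwise

namespace Pool.Agent.P.MP_2e1554_gt

variable {n : ℕ}

private lemma rad_cont (a : Fin n → ℝ) : Continuous fun x : Fin n → ℝ => a ⬝ᵥ x :=
  continuous_const.dotProduct continuous_id

private lemma rad_quad {K : Set (Fin n → ℝ)} (hK : Iso K) (a : Fin n → ℝ) (c0 c1 c2 : ℝ) :
    ∫ x in K, (c0 + c1 * (a ⬝ᵥ x) + c2 * ((a ⬝ᵥ x) * (a ⬝ᵥ x))) =
      volume.real K * (c0 + c2 * (a ⬝ᵥ a)) := by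
  have i0 : IntegrableOn (fun _ : Fin n → ℝ => c0) K :=
    continuous_const.continuousOn.integrableOn_compact hK.cpt
  have i1 : IntegrableOn (fun x : Fin n → ℝ => c1 * (a ⬝ᵥ x)) K :=
    (continuous_const.mul (rad_cont a)).continuousOn.integrableOn_compact hK.cpt
  have i2 : IntegrableOn (fun x : Fin n → ℝ => c2 * ((a ⬝ᵥ x) * (a ⬝ᵥ x))) K :=
    (continuous_const.mul ((rad_cont a).mul (rad_cont a))).continuousOn.integrableOn_compact hK.cpt
  rw [integral_add (by exact i0.add i1) i2, integral_add i0 i1, integral_const_mul, integral_const_mul,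
    hK.int_dot, hK.int_dot_mul, setIntegral_const, smul_eq_mul]
  ring

private lemma rad_cs (a b : Fin n → ℝ) : (a ⬝ᵥ b) ^ 2 ≤ (a ⬝ᵥ a) * (b ⬝ᵥ b) := by
  simpa only [dotProduct, sq] using Finset.sum_mul_sq_le_sq_mul_sq Finset.univ a b

private lemma rad_nonneg (a : Fin n → ℝ) : 0 ≤ a ⬝ᵥ a :=
  Finset.sum_nonneg fun i _ => mul_self_nonneg (a i)

theorem Iso.rad {K : Set (Fin n → ℝ)} (hK : Iso K) {x : Fin n → ℝ} (hx : x ∈ K) :
    x ⬝ᵥ x ≤ n * (n + 2) := by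
  rcases Nat.eq_zero_or_pos n with rfl | hn
  · simp [dotProduct]
  set D := x ⬝ᵥ x with hD
  have hD0 : 0 ≤ D := rad_nonneg x
  have hV := hK.toBody.vol_pos
  let g : ℝ → ℝ := fun r => r ^ n * (((n + 1) * D - r * n * D) ^ 2 + (r * n) ^ 2 * D)
  have h1 : ∀ r, 0 < r → r ≤ 1 → g r ≤ g 1 := by
    intro r r0 r1
    have hT : (r • (1 : Matrix (Fin n) (Fin n) ℝ)).det = r ^ n := by simp
    have hs : aff (r • (1 : Matrix (Fin n) (Fin n) ℝ)) ((1 - r) • x) K ⊆ K := by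
      rintro _ ⟨y, hy, rfl⟩
      simp only [smul_mulVec, one_mulVec]
      exact hK.cvx hy hx r0.le (by linarith) (by ring)
    have hf : Continuous fun y : Fin n → ℝ => (D + n * (x ⬝ᵥ y)) ^ 2 :=
      (continuous_const.add (continuous_const.mul (rad_cont x))).pow 2
    have h2 := setIntegral_mono_set (hf.continuousOn.integrableOn_compact (μ := volume) hK.cpt)
      (ae_of_all _ fun y => sq_nonneg _) hs.eventuallyLE
    rw [integral_aff hK.cpt.measurableSet (by rw [hT]; positivity), hT,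
      abs_of_pos (by positivity)] at h2
    have e1 := rad_quad hK x (((n + 1) * D - r * n * D) ^ 2) (2 * ((n + 1) * D - r * n * D) * (r * n))
      ((r * n) ^ 2)
    have e2 := rad_quad hK x (D ^ 2) (2 * D * n) (n ^ 2)
    rw [integral_congr_ae (g := fun y => (D + n * (x ⬝ᵥ y)) ^ 2) (ae_of_all _ fun y => by ring)] at e2
    rw [integral_congr_ae (g := fun y => (D + n * (x ⬝ᵥ ((r • (1 : Matrix (Fin n) (Fin n) ℝ)) *ᵥ y +
      (1 - r) • x))) ^ 2) (ae_of_all _ fun y => by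
        simp only [smul_mulVec, one_mulVec, dotProduct_add, dotProduct_smul, smul_eq_mul, ← hD]
        ring)] at e1
    rw [e1, e2] at h2
    refine le_of_mul_le_mul_left ?_ hV
    simp only [g, one_pow]
    rw [← hD] at h2
    linarith
  have h2 : HasDerivAt g (n * (D ^ 2 + n ^ 2 * D) + (-2 * n * D ^ 2 + 2 * n ^ 2 * D)) 1 := by
    have a1 : HasDerivAt (fun r : ℝ => r * n) n 1 := hasDerivAt_mul_const _
    have := (hasDerivAt_pow n (1 : ℝ)).mul
      ((((a1.mul_const D).const_sub ((n + 1) * D)).pow 2).add ((a1.pow 2).mul_const D))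
    refine this.congr_deriv ?_
    simp
    ring
  have h3 : 0 ≤ n * (D ^ 2 + n ^ 2 * D) + (-2 * n * D ^ 2 + 2 * n ^ 2 * D) := by
    refine ge_of_tendsto (hasDerivAt_iff_tendsto_slope_left_right.1 h2).1 ?_
    filter_upwards [Ioo_mem_nhdsLT (zero_lt_one : (0 : ℝ) < 1)] with r hr
    rw [slope_def_field]
    exact div_nonneg_of_nonpos (sub_nonpos.2 (h1 r hr.1 hr.2.le)) (sub_nonpos.2 hr.2.le)
  have hn' : (0 : ℝ) < n := by exact_mod_cast hn
  by_contra h
  have h4 : (n : ℝ) * (n + 2) < D := not_le.1 h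
  have h5 : 0 < D := lt_trans (by positivity) h4
  nlinarith [mul_pos (mul_pos hn' h5) (sub_pos.2 h4)]

theorem Iso.facet {K : Set (Fin n → ℝ)} (hK : Iso K) {a : Fin n → ℝ} (h : ∀ x ∈ K, a ⬝ᵥ x ≤ 1) :
    a ⬝ᵥ a ≤ n * (n + 2) := by
  have ha := rad_nonneg a
  have hN : (0 : ℝ) ≤ n * (n + 2) := by positivity
  set b := Real.sqrt (a ⬝ᵥ a * (n * (n + 2))) with hb
  have h1 : 0 ≤ ∫ x in K, (b + (1 - b) * (a ⬝ᵥ x) + -1 * ((a ⬝ᵥ x) * (a ⬝ᵥ x))) := by
    refine setIntegral_nonneg hK.cpt.measurableSet fun x hx => ?_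
    have := Real.abs_le_sqrt ((rad_cs a x).trans (mul_le_mul_of_nonneg_left (hK.rad hx) ha))
    nlinarith [mul_nonneg (sub_nonneg.2 (h x hx)) (sub_nonneg.2 (abs_le.1 this).1)]
  rw [rad_quad hK] at h1
  have h2 : a ⬝ᵥ a ≤ b := by linarith [nonneg_of_mul_nonneg_right h1 hK.toBody.vol_pos]
  have h3 : b ^ 2 = a ⬝ᵥ a * (n * (n + 2)) := Real.sq_sqrt (by positivity)
  by_contra h4
  nlinarith [not_le.1 h4]

theorem Iso.mem_of_small {K : Set (Fin n → ℝ)} (hK : Iso K) {y : Fin n → ℝ}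
    (hy : (y ⬝ᵥ y) * (n * (n + 2)) ≤ 1) : y ∈ K := by
  by_contra h
  obtain ⟨f, u, h1, h2⟩ := geometric_hahn_banach_closed_point hK.cvx hK.cpt.isClosed h
  have hf : ∀ x, f x = (fun i => f (Pi.single i 1)) ⬝ᵥ x := by
    intro x
    conv_lhs => rw [pi_eq_sum_univ' x]
    simp [dotProduct, mul_comm]
  set a : Fin n → ℝ := fun i => f (Pi.single i 1)
  have hu : 0 ≤ u := by
    have h3 : 0 ≤ ∫ x in K, (u + -1 * (a ⬝ᵥ x) + 0 * ((a ⬝ᵥ x) * (a ⬝ᵥ x))) :=
      setIntegral_nonneg hK.cpt.measurableSet fun x hx => by linarith [h1 x hx, hf x]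
    rw [rad_quad hK] at h3
    simpa using nonneg_of_mul_nonneg_right h3 hK.toBody.vol_pos
  obtain ⟨v, v1, v2⟩ := exists_between h2
  have hv : 0 < v := hu.trans_lt v1
  have h4 := hK.facet (a := v⁻¹ • a) fun x hx => by
    rw [smul_dotProduct, smul_eq_mul, inv_mul_le_iff₀ hv]
    linarith [h1 x hx, hf x]
  have h5 : 1 < (v⁻¹ • a) ⬝ᵥ y := by
    rw [smul_dotProduct, smul_eq_mul, lt_inv_mul_iff₀ hv]
    linarith [hf y]
  nlinarith [rad_cs (v⁻¹ • a) y, mul_le_mul_of_nonneg_right h4 (rad_nonneg y)]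

end Pool.Agent.P.MP_2e1554_gt
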