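import Pool.Agent.P.MP_2e1554_gt.IsoNorm
import Pool.Agent.P.MP_2e1554_gt.IsoRad
import Pool.Agent.P.MP_2e1554_gt.IsoSand

open MeasureTheory Set Finset Matrix Filter Topology Pointwise

namespace Pool.Agent.P.MP_2e1554_gt

variable {n : ℕ}

open Classical in
/-- the finite set of values of a family of vectors -/
noncomputable def exIm {N : ℕ} (a : Fin N → Fin n → ℝ) : Finset (Fin n → ℝ) :=
  Finset.univ.image a

lemma ex_mem {N : ℕ} {a : Fin N → Fin n → ℝ} {v : Fin n → ℝ} : v ∈ exIm a ↔ ∃ j, a j = v := by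
  simp [exIm]

lemma ex_mem_poly {N : ℕ} {a : Fin N → Fin n → ℝ} {x : Fin n → ℝ} :
    x ∈ poly (exIm a) ↔ ∀ j, a j ⬝ᵥ x ≤ 1 := by
  constructor
  · intro h j
    exact h _ (ex_mem.2 ⟨j, rfl⟩)
  · intro h v hv
    obtain ⟨j, rfl⟩ := ex_mem.1 hv
    exact h j

lemma ex_card {N : ℕ} (a : Fin N → Fin n → ℝ) : (exIm a).card ≤ N := by
  classical
  unfold exIm
  convert Finset.card_image_le.trans (le_of_eq (Finset.card_fin N))

lemma ex_closed (A : Finset (Fin n → ℝ)) : IsClosed (poly A) := by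
  have : poly A = ⋂ a ∈ A, {x | a ⬝ᵥ x ≤ 1} := by
    ext x; simp [poly]
  rw [this]
  exact isClosed_biInter fun a _ =>
    isClosed_le (continuous_const.dotProduct continuous_id) continuous_const

lemma ex_pad (hn : 1 ≤ n) {N : ℕ} {B : Finset (Fin n → ℝ)} (hB : B.card ≤ N)
    (hb : Bornology.IsBounded (poly B)) : ∃ a : Fin N → Fin n → ℝ, exIm a = B := by
  have hne : B.Nonempty := by
    by_contra h
    rw [Finset.not_nonempty_iff_eq_empty] at h
    have : poly B = Set.univ := by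
      ext x; simp [poly, h]
    rw [this] at hb
    haveI : Nonempty (Fin n) := ⟨⟨0, hn⟩⟩
    exact NormedSpace.unbounded_univ ℝ (Fin n → ℝ) hb
  obtain ⟨b, hb'⟩ := hne
  have h1 : Nonempty (B ↪ Fin N) :=
    Function.Embedding.nonempty_of_card_le (by simpa using hB)
  obtain ⟨f, hf⟩ := (Function.exists_surjective_iff (α := Fin N) (β := B)).2
    ⟨⟨fun _ => ⟨b, hb'⟩⟩, h1⟩
  refine ⟨fun j => f j, ?_⟩
  ext v
  rw [ex_mem]
  constructor
  · rintro ⟨j, rfl⟩
    exact (f j).2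
  · intro hv
    obtain ⟨j, hj⟩ := hf ⟨v, hv⟩
    exact ⟨j, by rw [hj]⟩

lemma ex_norm_le {x : Fin n → ℝ} {R : ℝ} (hR : 0 ≤ R) (h : x ⬝ᵥ x ≤ R) : ‖x‖ ≤ R + 1 := by
  refine (pi_norm_le_iff_of_nonneg (by linarith)).2 fun i => ?_
  have h1 : x i * x i ≤ x ⬝ᵥ x :=
    Finset.single_le_sum (f := fun j => x j * x j) (fun j _ => mul_self_nonneg _)
      (Finset.mem_univ i)
  rw [Real.norm_eq_abs, abs_le]
  constructor <;> nlinarith [sq_nonneg (x i - 1), sq_nonneg (x i + 1)]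

lemma ex_smul_mono (A : Finset (Fin n → ℝ)) {r s : ℝ} (hr : 0 < r) (hrs : r ≤ s) :
    r • poly A ⊆ s • poly A := by
  rintro _ ⟨y, hy, rfl⟩
  have hs : 0 < s := hr.trans_le hrs
  refine ⟨(r / s) • y, fun a ha => ?_, ?_⟩
  · rw [dotProduct_smul, smul_eq_mul]
    have h1 : r / s ≤ 1 := (div_le_one hs).2 hrs
    have h2 : 0 ≤ r / s := by positivity
    nlinarith [hy a ha]
  · simp only [smul_smul]
    rw [mul_div_cancel₀ _ hs.ne']

lemma ex_sand {N : ℕ} {a : Fin N → Fin n → ℝ} {R : ℝ} (hR : ∀ x ∈ poly (exIm a), x ⬝ᵥ x ≤ R)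
    {s : ℝ} (hs : 1 < s) :
    ∀ᶠ b in 𝓝 a, poly (exIm a) ⊆ s • poly (exIm b) ∧ poly (exIm b) ⊆ s • poly (exIm a) := by
  have hs0 : 0 < s := by linarith
  have hi : s⁻¹ < 1 := inv_lt_one_of_one_lt₀ hs
  have hi0 : 0 < s⁻¹ := inv_pos.2 hs0
  have hev : ∀ᶠ b in 𝓝 a, ∀ j, ((a j - b j) ⬝ᵥ (a j - b j)) * R ≤ (1 - s⁻¹) ^ 2 := by
    refine Filter.eventually_all.2 fun j => ?_
    have hc : Continuous fun b : Fin N → Fin n → ℝ => ((a j - b j) ⬝ᵥ (a j - b j)) * R :=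
      ((continuous_const.sub (continuous_apply j)).dotProduct
        (continuous_const.sub (continuous_apply j))).mul continuous_const
    have h0 : ((a j - a j) ⬝ᵥ (a j - a j)) * R < (1 - s⁻¹) ^ 2 := by
      rw [sub_self, zero_dotProduct, zero_mul]
      exact pow_pos (by linarith) 2
    exact (hc.continuousAt.eventually_lt continuousAt_const h0).mono fun b hb => hb.le
  filter_upwards [hev] with b hb
  obtain ⟨h1, h2⟩ := sandwich (A := exIm a) (A' := exIm b) (δ := 1 - s⁻¹) (by linarith)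
    (by linarith) hR
    (fun v hv => by
      obtain ⟨j, rfl⟩ := ex_mem.1 hv
      exact ⟨b j, ex_mem.2 ⟨j, rfl⟩, hb j⟩)
    (fun v hv => by
      obtain ⟨j, rfl⟩ := ex_mem.1 hv
      exact ⟨a j, ex_mem.2 ⟨j, rfl⟩, hb j⟩)
  refine ⟨h1.trans (ex_smul_mono _ (by linarith) ?_), ?_⟩
  · have : s * s⁻¹ = 1 := mul_inv_cancel₀ hs0.ne'
    nlinarith [sq_nonneg (s - 1)]
  · rwa [sub_sub_cancel, inv_inv] at h2

lemma ex_tendsto {N : ℕ} {a : Fin N → Fin n → ℝ} {R : ℝ} (hR0 : 0 ≤ R)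
    (hR : ∀ x ∈ poly (exIm a), x ⬝ᵥ x ≤ R) {f : (Fin n → ℝ) → ℝ} (hf : Continuous f) :
    Body (poly (exIm a)) ∧
      Tendsto (fun b : Fin N → Fin n → ℝ => ∫ x in poly (exIm b), f x) (𝓝 a)
        (𝓝 (∫ x in poly (exIm a), f x)) := by
  have hb : Body (poly (exIm a)) := body_poly ((Metric.isBounded_closedBall (x := 0)
    (r := R + 1)).subset fun x hx => mem_closedBall_zero_iff.2 (ex_norm_le hR0 (hR x hx)))
  exact ⟨hb, tendsto_integral_of_sandwich hb (ex_mem_poly.2 fun j => by simp)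
    (fun b => (ex_closed _).measurableSet) (fun s hs => ex_sand hR hs) hf⟩

lemma ex_tendsto_vol {N : ℕ} {a : Fin N → Fin n → ℝ} {R : ℝ} (hR0 : 0 ≤ R)
    (hR : ∀ x ∈ poly (exIm a), x ⬝ᵥ x ≤ R) :
    Tendsto (fun b : Fin N → Fin n → ℝ => volume.real (poly (exIm b))) (𝓝 a)
      (𝓝 (volume.real (poly (exIm a)))) := by
  simpa using (ex_tendsto hR0 hR (f := fun _ => (1 : ℝ)) continuous_const).2

lemma ex_isClosed (N : ℕ) (η : ℝ) :
    IsClosed {a : Fin N → Fin n → ℝ | Iso (poly (exIm a)) ∧ ¬ Near η (poly (exIm a))} := by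
  set S := {a : Fin N → Fin n → ℝ | Iso (poly (exIm a)) ∧ ¬ Near η (poly (exIm a))} with hS
  refine isClosed_of_closure_subset fun a ha => ?_
  haveI : (𝓝[S] a).NeBot := mem_closure_iff_nhdsWithin_neBot.1 ha
  have hev : ∀ᶠ b in 𝓝[S] a, Iso (poly (exIm b)) ∧ ¬ Near η (poly (exIm b)) :=
    self_mem_nhdsWithin
  have hR0 : (0 : ℝ) ≤ n * (n + 2) := by positivity
  have hR : ∀ x ∈ poly (exIm a), x ⬝ᵥ x ≤ n * (n + 2) := by
    intro x hx
    have h1 : ∀ r : ℝ, 0 < r → r < 1 → r ^ 2 * (x ⬝ᵥ x) ≤ n * (n + 2) := by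
      intro r hr0 hr
      have h2 : ∀ᶠ b in 𝓝 a, ∀ j, b j ⬝ᵥ (r • x) ≤ 1 := by
        refine Filter.eventually_all.2 fun j => ?_
        have hc : Continuous fun b : Fin N → Fin n → ℝ => b j ⬝ᵥ (r • x) :=
          (continuous_apply j).dotProduct continuous_const
        have h0 : a j ⬝ᵥ (r • x) < 1 := by
          rw [dotProduct_smul, smul_eq_mul]
          nlinarith [ex_mem_poly.1 hx j]
        exact (hc.continuousAt.eventually_lt continuousAt_const h0).mono fun b hb => hb.le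
      obtain ⟨b, hb1, hb2⟩ := (hev.and (h2.filter_mono nhdsWithin_le_nhds)).exists
      have h3 := hb1.1.rad (ex_mem_poly.2 hb2)
      rw [dotProduct_smul, smul_dotProduct, smul_eq_mul, smul_eq_mul] at h3
      nlinarith
    have h4 : Tendsto (fun r : ℝ => r ^ 2 * (x ⬝ᵥ x)) (𝓝[<] 1) (𝓝 (1 ^ 2 * (x ⬝ᵥ x))) :=
      (((continuous_pow 2).mul continuous_const).tendsto 1).mono_left nhdsWithin_le_nhds
    rw [one_pow, one_mul] at h4
    refine le_of_tendsto h4 ?_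
    filter_upwards [Ioo_mem_nhdsLT (zero_lt_one' ℝ)] with r hr using h1 r hr.1 hr.2
  have hb : Body (poly (exIm a)) := (ex_tendsto hR0 hR (f := fun _ => (1 : ℝ)) continuous_const).1
  have hV := (ex_tendsto_vol hR0 hR).mono_left (nhdsWithin_le_nhds (s := S))
  refine ⟨⟨hb, fun i => ?_, fun i j => ?_⟩, fun hN => ?_⟩
  · have h1 := (ex_tendsto hR0 hR (f := fun x => x i) (continuous_apply i)).2.mono_left
      (nhdsWithin_le_nhds (s := S))
    refine tendsto_nhds_unique h1 (tendsto_const_nhds.congr' ?_)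
    filter_upwards [hev] with b hb using (hb.1.m1 i).symm
  · have h1 := (ex_tendsto hR0 hR (f := fun x => x i * x j)
      ((continuous_apply i).mul (continuous_apply j))).2.mono_left (nhdsWithin_le_nhds (s := S))
    refine tendsto_nhds_unique h1 ?_
    by_cases hij : i = j
    · rw [if_pos hij]
      refine hV.congr' ?_
      filter_upwards [hev] with b hb
      rw [hb.1.m2 i j, if_pos hij]
    · rw [if_neg hij]
      refine tendsto_const_nhds.congr' ?_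
      filter_upwards [hev] with b hb
      rw [hb.1.m2 i j, if_neg hij]
  · obtain ⟨η', h1, h2, h3⟩ := hN.exists_lt hb
    have h4 : ∀ᶠ s : ℝ in 𝓝 1, (1 + η') * s ^ (2 * n) < 1 + η :=
      (continuous_const.mul (continuous_pow _)).continuousAt.eventually_lt continuousAt_const
        (by simpa using h1)
    obtain ⟨s, hs1, hs2⟩ := ((h4.filter_mono (nhdsWithin_le_nhds (s := Set.Ioi 1))).and
      self_mem_nhdsWithin).exists
    obtain ⟨b, hb1, hb2⟩ := (hev.and ((ex_sand hR hs2).filter_mono nhdsWithin_le_nhds)).exists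
    exact hb1.2 (h3.of_sandwich (le_of_lt hs2) h2 hb hb1.1.toBody hb2.1 hb2.2 hs1.le)

lemma ex_normal (hn : 1 ≤ n) {N : ℕ} {η : ℝ} {B : Finset (Fin n → ℝ)} (h0 : B.card ≤ N)
    (hb0 : Bornology.IsBounded (poly B)) (hf0 : ¬ Near η (poly B)) :
    ∃ a : Fin N → Fin n → ℝ, (Iso (poly (exIm a)) ∧ ¬ Near η (poly (exIm a))) ∧
      Jv (poly B) = Jv (poly (exIm a)) := by
  obtain ⟨A', T, c, hT, hc, he, hI⟩ := exists_poly_iso hb0
  obtain ⟨a, rfl⟩ := ex_pad hn (hc.trans h0) hI.cpt.isBounded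
  refine ⟨a, ⟨hI, fun h => hf0 ?_⟩, ?_⟩
  · have hT' : T⁻¹.det ≠ 0 := by
      rw [Matrix.det_nonsing_inv, Ring.inverse_eq_inv']
      exact inv_ne_zero hT
    have := h.aff hT' (-(T⁻¹ *ᵥ c))
    rwa [he, aff_inv _ hT] at this
  · rw [he, Jv_aff (body_poly hb0) hT]

theorem exists_max (hn : 1 ≤ n) (N : ℕ) (η : ℝ) {A0 : Finset (Fin n → ℝ)} (h0 : A0.card ≤ N)
    (hb0 : Bornology.IsBounded (poly A0)) (hf0 : ¬ Near η (poly A0)) :
    ∃ A : Finset (Fin n → ℝ), A.card ≤ N ∧ Iso (poly A) ∧ ¬ Near η (poly A) ∧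
      ∀ B : Finset (Fin n → ℝ), B.card ≤ N → Bornology.IsBounded (poly B) → ¬ Near η (poly B) →
        Jv (poly B) ≤ Jv (poly A) := by
  have hR0 : (0 : ℝ) ≤ n * (n + 2) := by positivity
  have hcpt : IsCompact
      {a : Fin N → Fin n → ℝ | Iso (poly (exIm a)) ∧ ¬ Near η (poly (exIm a))} := by
    refine (isCompact_closedBall (0 : Fin N → Fin n → ℝ) (n * (n + 2) + 1)).of_isClosed_subset
      (ex_isClosed N η) fun a ha => ?_
    rw [mem_closedBall_zero_iff]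
    refine (pi_norm_le_iff_of_nonneg (by linarith)).2 fun j => ex_norm_le hR0 ?_
    exact ha.1.facet fun x hx => ex_mem_poly.1 hx j
  obtain ⟨a0, ha0, -⟩ := ex_normal hn h0 hb0 hf0
  obtain ⟨a, ha, hmin⟩ := hcpt.exists_isMinOn ⟨a0, ha0⟩
    (f := fun b => volume.real (poly (exIm b))) fun b hb =>
      (ex_tendsto_vol hR0 fun x hx => hb.1.rad hx).mono_left nhdsWithin_le_nhds
  refine ⟨exIm a, ex_card a, ha.1, ha.2, fun B h1 h2 h3 => ?_⟩
  obtain ⟨b, hb, e⟩ := ex_normal hn h1 h2 h3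
  rw [e, hb.1.Jv_eq, ha.1.Jv_eq]
  have h4 : volume.real (poly (exIm a)) ≤ volume.real (poly (exIm b)) := hmin hb
  have h5 := ha.1.toBody.vol_pos
  exact one_div_le_one_div_of_le (pow_pos h5 2) (pow_le_pow_left₀ h5.le h4 2)

end Pool.Agent.P.MP_2e1554_gt
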