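import Pool.Agent.P.MP_2e1554_gt.IsoFrameA

open MeasureTheory Set Finset Matrix Filter Topology Pointwise

namespace Pool.Agent.P.MP_2e1554_gt

theorem Iso.nhds_two {K : Set (Fin 2 → ℝ)} (hK : Iso K) : K ∈ 𝓝 (0 : Fin 2 → ℝ) := by
  refine mem_of_superset (Metric.closedBall_mem_nhds 0 one_pos) fun y hy => hK.inn_two ?_
  rw [mem_closedBall_zero_iff] at hy
  have h0 := abs_le.1 ((Real.norm_eq_abs _).symm.trans_le ((norm_le_pi_norm y 0).trans hy))
  have h1 := abs_le.1 ((Real.norm_eq_abs _).symm.trans_le ((norm_le_pi_norm y 1).trans hy))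
  simp only [dotProduct, Fin.sum_univ_two]
  nlinarith [h0.1, h0.2, h1.1, h1.2]

theorem Iso.gauge_cont {K : Set (Fin 2 → ℝ)} (hK : Iso K) : Continuous (gauge K) :=
  continuous_gauge hK.cvx hK.nhds_two

theorem Iso.gauge_mem {K : Set (Fin 2 → ℝ)} (hK : Iso K) {e : Fin 2 → ℝ} {r : ℝ} (hr : 0 ≤ r) :
    r • e ∈ K ↔ r * gauge K e ≤ 1 := by
  rw [← smul_eq_mul, ← gauge_smul_of_nonneg hr, gauge_le_one_iff_mem_closure hK.cvx hK.nhds_two,
    hK.cpt.isClosed.closure_eq]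

theorem Iso.gauge_sq {K : Set (Fin 2 → ℝ)} (hK : Iso K) (e : Fin 2 → ℝ) :
    e ⬝ᵥ e ≤ 8 * gauge K e ^ 2 ∧ 2 * gauge K e ^ 2 ≤ e ⬝ᵥ e := by
  have hd : ∀ r : ℝ, (r • e) ⬝ᵥ (r • e) = r ^ 2 * (e ⬝ᵥ e) := fun r => by
    rw [smul_dotProduct, dotProduct_smul, smul_eq_mul, smul_eq_mul]
    ring
  have hD : 0 ≤ e ⬝ᵥ e := by
    simp only [dotProduct, Fin.sum_univ_two]
    nlinarith [sq_nonneg (e 0), sq_nonneg (e 1)]
  have h1 : ∀ r : ℝ, 0 ≤ r → r * gauge K e ≤ 1 → r ^ 2 * (e ⬝ᵥ e) ≤ 8 := fun r hr h => by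
    have h2 := hK.rad ((hK.gauge_mem hr).2 h)
    rw [hd] at h2
    exact h2.trans (by norm_num)
  have h2 : ∀ r : ℝ, 0 ≤ r → r ^ 2 * (e ⬝ᵥ e) ≤ 2 → r * gauge K e ≤ 1 := fun r hr h =>
    (hK.gauge_mem hr).1 (hK.inn_two (by rwa [hd]))
  have hq := gauge_nonneg (s := K) e
  generalize gauge K e = q at h1 h2 hq
  generalize e ⬝ᵥ e = D at h1 h2 hD
  constructor
  · rcases hq.eq_or_lt with rfl | hq0
    · by_contra h
      have hD0 : 0 < D := by nlinarith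
      have h3 := h1 (9 / D + 1) (by positivity) (by simp)
      have h4 : 9 / D * D = 9 := div_mul_cancel₀ _ hD0.ne'
      have h5 : 0 < 9 / D := by positivity
      nlinarith [mul_pos (mul_pos h5 h5) hD0]
    · have h3 := h1 q⁻¹ (by positivity) (by rw [inv_mul_cancel₀ hq0.ne'])
      rwa [inv_pow, inv_mul_le_iff₀ (by positivity), mul_comm] at h3
  · rcases hD.eq_or_lt with rfl | hD0
    · by_contra h
      have hq0 : 0 < q := lt_of_le_of_ne hq (by rintro rfl; simp at h)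
      have h3 := h2 (2 / q) (by positivity) (by simp)
      rw [div_mul_cancel₀ _ hq0.ne'] at h3
      linarith
    · have h4 : Real.sqrt (2 / D) ^ 2 = 2 / D := Real.sq_sqrt (by positivity)
      have h3 := h2 (Real.sqrt (2 / D)) (Real.sqrt_nonneg _)
        (by rw [h4, div_mul_cancel₀ _ hD0.ne'])
      have h5 := pow_le_one₀ (n := 2) (mul_nonneg (Real.sqrt_nonneg _) hq) h3
      rwa [mul_pow, h4, div_mul_eq_mul_div, div_le_one hD0] at h5

theorem Iso.gauge_pos {K : Set (Fin 2 → ℝ)} (hK : Iso K) {e : Fin 2 → ℝ} (he : e ≠ 0) :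
    0 < gauge K e := by
  refine lt_of_le_of_ne (gauge_nonneg e) fun h => he ?_
  have h1 := (hK.gauge_sq e).1
  rw [← h] at h1
  simp only [dotProduct, Fin.sum_univ_two] at h1
  funext i
  fin_cases i
  · show e 0 = 0
    nlinarith [sq_nonneg (e 0), sq_nonneg (e 1)]
  · show e 1 = 0
    nlinarith [sq_nonneg (e 0), sq_nonneg (e 1)]

theorem Iso.gauge_comb {K : Set (Fin 2 → ℝ)} (hK : Iso K) (a b : Fin 2 → ℝ) {s t : ℝ}
    (hs : 0 ≤ s) (ht : 0 ≤ t) : gauge K (s • a + t • b) ≤ s * gauge K a + t * gauge K b := by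
  have h := gauge_add_le hK.cvx (absorbent_nhds_zero hK.nhds_two) (s • a) (t • b)
  rwa [gauge_smul_of_nonneg hs, gauge_smul_of_nonneg ht] at h

end Pool.Agent.P.MP_2e1554_gt
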