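import Pool.Agent.P.MP_2e1554_gt.IsoDefs4
import Pool.Agent.P.MP_2e1554_gt.IsoGauge

open MeasureTheory Set Finset Matrix Filter Topology Pointwise

namespace Pool.Agent.P.MP_2e1554_gt

lemma fan_ray {K : Set (Fin 2 → ℝ)} (hK : Iso K) (f : (Fin 2 → ℝ) → ℝ) {e : Fin 2 → ℝ}
    (he : e ≠ 0) : ∫ r in Set.Ioi (0 : ℝ), r * K.indicator f (r • e) = rayI K f e := by
  have hg := hK.gauge_pos he
  rw [rayI, intervalIntegral.integral_of_le (inv_pos.2 hg).le, ← Set.Ioi_inter_Iic,
    ← setIntegral_indicator measurableSet_Iic]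
  refine setIntegral_congr_fun measurableSet_Ioi fun r hr => ?_
  have h : r • e ∈ K ↔ r ∈ Set.Iic (gauge K e)⁻¹ := by
    rw [hK.gauge_mem (le_of_lt hr), Set.mem_Iic, ← one_div, le_div_iff₀ hg]
  by_cases h1 : r • e ∈ K
  · simp only [indicator_of_mem h1, indicator_of_mem (h.1 h1), mul_comm]
  · simp only [indicator_of_notMem h1, indicator_of_notMem (mt h.2 h1), mul_zero]

lemma fan_meas {a b : (Fin 2 → ℝ) → ℝ} (ha : Continuous a) (hb : Continuous b) :
    MeasurableSet {y | 0 < a y ∧ 0 < b y} :=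
  ((isOpen_lt continuous_const ha).inter (isOpen_lt continuous_const hb)).measurableSet

end Pool.Agent.P.MP_2e1554_gt
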