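import Pool.Agent.P.MP_2e1554_gt.IsoChkY

/-! The checker again, written for fast evaluation by the kernel. -/

namespace Pool.Agent.P.MP_2e1554_gt.Chk

def cst (a _b : ℕ) : ℕ := a
/-- as `force`; the value keeps the term it came from -/
noncomputable def frc {α : Type} (n : ℕ) (k : ℕ → α) : α :=
  Nat.rec (k Nat.zero) (fun m _ => k (cst (Nat.succ m) n)) n
def F28 : ℕ := 2 ^ (64 * 28) - 1
def F56 : ℕ := 2 ^ (64 * 56) - 1
def F84 : ℕ := 2 ^ (64 * 84) - 1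
def F140 : ℕ := 2 ^ (64 * 140) - 1
def F280 : ℕ := 2 ^ (64 * 280) - 1
def F560 : ℕ := 2 ^ (64 * 560) - 1
def F1120 : ℕ := 2 ^ (64 * 1120) - 1
def F11 : ℕ := 2 ^ (64 * 11) - 1
def ls2 (H Z : ℕ) : ℕ :=
    (Nat.land Z (Nat.mul (Nat.shiftRight (Nat.land Z H) (nat_lit 63)) (nat_lit
    9223372036854775807)))
def lsF (H X Y : ℕ) : ℕ := ls2 H
    (Nat.sub (Nat.add X H) Y)
def lmF (H X Y : ℕ) : ℕ :=
    (Nat.add Y (ls2 H (Nat.sub (Nat.add X H) Y)))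
def lgF (H X Y : ℕ) : ℕ :=
    (Nat.mul (Nat.shiftRight (Nat.land (Nat.sub (Nat.add X H) Y) H) (nat_lit 63)) (nat_lit
    18446744073709551615))
def laF (X i : ℕ) : ℕ :=
    (Nat.land (Nat.shiftRight X (Nat.mul (nat_lit 64) i)) (nat_lit 18446744073709551615))
def upF (X i v : ℕ) : ℕ :=
    (Nat.add (Nat.sub X (Nat.shiftLeft (laF X i) (Nat.mul (nat_lit 64) i))) (Nat.shiftLeft v
    (Nat.mul (nat_lit 64) i)))
def rL56 (X : ℕ) : ℕ :=
    (Nat.add (Nat.land (Nat.shiftLeft X (nat_lit 64)) F56) (Nat.shiftRight X (nat_lit 3520)))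
def rR56 (X : ℕ) : ℕ :=
    (Nat.add (Nat.shiftRight X (nat_lit 64)) (Nat.shiftLeft (Nat.land X (nat_lit
    18446744073709551615)) (nat_lit 3520)))
def krF (W A B : ℕ) : ℕ :=
    (Nat.add (Nat.mul (Nat.land W F28) A) (Nat.shiftLeft (Nat.mul (Nat.shiftRight W (nat_lit
    1792)) B) (nat_lit 35840)))
def fmF (acc c T : ℕ) : ℕ :=
    (Nat.add acc (Nat.mul c T))
noncomputable def baF (H M n : ℕ) : ℕ :=
    (@Bool.rec (fun _ => ℕ) (Nat.xor H (Nat.land (Nat.xor H (Nat.shiftRight H n)) M)) H (Nat.beq M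
    (nat_lit 0)))
def sfF (S n : ℕ) : ℕ := lmF H560 S (Nat.shiftRight S n)
def foF (H F n Y : ℕ) : ℕ := lmF H (Nat.land Y F) (Nat.shiftRight Y n)
noncomputable def pa2 (M0 M1 M2 M3 M4 M5 Z S : ℕ) : ℕ :=
    (lsF H28 (foF H28 F28 (nat_lit 1792) (foF H56 F56 (nat_lit 3584) (foF H84 F84 (nat_lit 5376)
    (foF H140 F140 (nat_lit 8960) (foF H280 F280 (nat_lit 17920) (Nat.add (Nat.land Z F560)
    (Nat.land (baF (baF (baF (baF (baF (baF (Nat.add (Nat.shiftLeft S (nat_lit 34048)) (Nat.mul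
    (Nat.land S F28) C19)) M5 (nat_lit 57344)) M4 (nat_lit 28672)) M3 (nat_lit 14336)) M2 (nat_lit
    7168)) M1 (nat_lit 3584)) M0 (nat_lit 1792)) F560))))))) BAS)
noncomputable def paF (M0 M1 M2 M3 M4 M5 Z : ℕ) : ℕ :=
    (pa2 M0 M1 M2 M3 M4 M5 Z (sfF (sfF (sfF (sfF (sfF (Nat.shiftRight Z (nat_lit 35840)) (nat_lit
    1792)) (nat_lit 3584)) (nat_lit 7168)) (nat_lit 14336)) (nat_lit 28672)))
def wPF (al be : ℕ) : ℕ := krF (lsF H56 be al) PUA PUB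
def wNF (al be : ℕ) : ℕ := krF (lsF H56 al be) PLA PLB
def gAF (al : ℕ) : ℕ :=
    (Nat.add (Nat.mul (nat_lit 12) (Nat.add (rL56 al) (rR56 al))) (Nat.mul (nat_lit 48) al))
def gBF (be : ℕ) : ℕ :=
    (Nat.sub (Nat.mul (nat_lit 72) be) (Nat.land be CM))
def nPF (al be qhr : ℕ) : ℕ :=
    (Nat.land (Nat.shiftRight (Nat.mul (lsF H56 (gAF al) (gBF be)) qhr) (nat_lit 3520)) (nat_lit
    18446744073709551615))
def nNF (al be qlr : ℕ) : ℕ :=
    (Nat.land (Nat.shiftRight (Nat.mul (lsF H56 (gBF be) (gAF al)) qlr) (nat_lit 3520)) (nat_lit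
    18446744073709551615))
def mxF (a b : ℕ) : ℕ :=
    (Nat.add a (Nat.sub b a))
def RM0 : ℕ := 0xffffffffffffffff0000000000000000ffffffffffffffff0000000000000000ffffffffffffffff0000000000000000ffffffffffffffff0000000000000000ffffffffffffffff0000000000000000ffffffffffffffff0000000000000000ffffffffffffffff0000000000000000ffffffffffffffff0000000000000000ffffffffffffffff0000000000000000ffffffffffffffff0000000000000000ffffffffffffffff0000000000000000ffffffffffffffff0000000000000000ffffffffffffffff0000000000000000ffffffffffffffff0000000000000000ffffffffffffffff0000000000000000ffffffffffffffff0000000000000000ffffffffffffffff0000000000000000ffffffffffffffff0000000000000000ffffffffffffffff0000000000000000ffffffffffffffff0000000000000000ffffffffffffffff0000000000000000ffffffffffffffff0000000000000000ffffffffffffffff0000000000000000ffffffffffffffff0000000000000000ffffffffffffffff0000000000000000ffffffffffffffff0000000000000000ffffffffffffffff0000000000000000ffffffffffffffff0000000000000000ffffffffffffffff0000000000000000ffffffffffffffff0000000000000000ffffffffffffffff0000000000000000ffffffffffffffff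
def RM1 : ℕ := 0xffffffffffffffffffffffffffffffff00000000000000000000000000000000ffffffffffffffffffffffffffffffff00000000000000000000000000000000ffffffffffffffffffffffffffffffff00000000000000000000000000000000ffffffffffffffffffffffffffffffff00000000000000000000000000000000ffffffffffffffffffffffffffffffff00000000000000000000000000000000ffffffffffffffffffffffffffffffff00000000000000000000000000000000ffffffffffffffffffffffffffffffff00000000000000000000000000000000ffffffffffffffffffffffffffffffff00000000000000000000000000000000ffffffffffffffffffffffffffffffff00000000000000000000000000000000ffffffffffffffffffffffffffffffff00000000000000000000000000000000ffffffffffffffffffffffffffffffff00000000000000000000000000000000ffffffffffffffffffffffffffffffff00000000000000000000000000000000ffffffffffffffffffffffffffffffff00000000000000000000000000000000ffffffffffffffffffffffffffffffff00000000000000000000000000000000ffffffffffffffffffffffffffffffff00000000000000000000000000000000ffffffffffffffffffffffffffffffff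
def RM2 : ℕ := 0xffffffffffffffffffffffffffffffffffffffffffffffffffffffffffffffff0000000000000000000000000000000000000000000000000000000000000000ffffffffffffffffffffffffffffffffffffffffffffffffffffffffffffffff0000000000000000000000000000000000000000000000000000000000000000ffffffffffffffffffffffffffffffffffffffffffffffffffffffffffffffff0000000000000000000000000000000000000000000000000000000000000000ffffffffffffffffffffffffffffffffffffffffffffffffffffffffffffffff0000000000000000000000000000000000000000000000000000000000000000ffffffffffffffffffffffffffffffffffffffffffffffffffffffffffffffff0000000000000000000000000000000000000000000000000000000000000000ffffffffffffffffffffffffffffffffffffffffffffffffffffffffffffffff0000000000000000000000000000000000000000000000000000000000000000ffffffffffffffffffffffffffffffffffffffffffffffffffffffffffffffff0000000000000000000000000000000000000000000000000000000000000000ffffffffffffffffffffffffffffffffffffffffffffffffffffffffffffffff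
def RM3 : ℕ := 0xffffffffffffffffffffffffffffffffffffffffffffffffffffffffffffffffffffffffffffffffffffffffffffffffffffffffffffffffffffffffffffffff00000000000000000000000000000000000000000000000000000000000000000000000000000000000000000000000000000000000000000000000000000000ffffffffffffffffffffffffffffffffffffffffffffffffffffffffffffffffffffffffffffffffffffffffffffffffffffffffffffffffffffffffffffffff00000000000000000000000000000000000000000000000000000000000000000000000000000000000000000000000000000000000000000000000000000000ffffffffffffffffffffffffffffffffffffffffffffffffffffffffffffffffffffffffffffffffffffffffffffffffffffffffffffffffffffffffffffffff00000000000000000000000000000000000000000000000000000000000000000000000000000000000000000000000000000000000000000000000000000000ffffffffffffffffffffffffffffffffffffffffffffffffffffffffffffffffffffffffffffffffffffffffffffffffffffffffffffffffffffffffffffffff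
def RM4 : ℕ := 0xffffffffffffffffffffffffffffffffffffffffffffffffffffffffffffffffffffffffffffffffffffffffffffffffffffffffffffffffffffffffffffffffffffffffffffffffffffffffffffffffffffffffffffffffffffffffffffffffffffffffffffffffffffffffffffffffffffffffffffffffffffffffffffffff0000000000000000000000000000000000000000000000000000000000000000000000000000000000000000000000000000000000000000000000000000000000000000000000000000000000000000000000000000000000000000000000000000000000000000000000000000000000000000000000000000000000000000ffffffffffffffffffffffffffffffffffffffffffffffffffffffffffffffffffffffffffffffffffffffffffffffffffffffffffffffffffffffffffffffffffffffffffffffffffffffffffffffffffffffffffffffffffffffffffffffffffffffffffffffffffffffffffffffffffffffffffffffffffffffffffffffff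
def RM5 : ℕ := 0xffffffffffffffffffffffffffffffffffffffffffffffffffffffffffffffffffffffffffffffffffffffffffffffffffffffffffffffffffffffffffffffffffffffffffffffffffffffffffffffffffffffffffffffffffffffffffffffffffffffffffffffffffffffffffffffffffffffffffffffffffffffffffffffffffffffffffffffffffffffffffffffffffffffffffffffffffffffffffffffffffffffffffffffffffffffffffffffffffffffffffffffffffffffffffffffffffffffffffffffffffffffffffffffffffffffffffffffffffffffffffffffffffffffffffffffffffffffffffffffffffffffffffffffffffffffffffffffff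
def swF (M s X : ℕ) : ℕ := Nat.lor
    (Nat.shiftLeft (Nat.land X M) s)
    (Nat.land (Nat.shiftRight X s) M)
def revF (X : ℕ) : ℕ :=
    (Nat.shiftRight (swF RM0 (nat_lit 64) (swF RM1 (nat_lit 128) (swF RM2 (nat_lit 256) (swF RM3
    (nat_lit 512) (swF RM4 (nat_lit 1024) (swF RM5 (nat_lit 2048) (Nat.land X F56))))))) (nat_lit
    512))
def bmF (D b : ℕ) : ℕ :=
    (Nat.mul (Nat.mul (Nat.land (Nat.shiftRight D b) O28) (nat_lit 18446744073709551615)) C39)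
def dL2 (ll : ℕ) : ℕ :=
    (Nat.sub D38 (lmF H28 ll (Nat.add (Nat.land (Nat.shiftLeft ll (nat_lit 64)) F28)
    (Nat.shiftRight ll (nat_lit 1728)))))
def dLF (ll : ℕ) : ℕ :=
    (dL2 (Nat.land ll F28))
def nW2 (m n : ℕ) : ℕ :=
    (Nat.add (Nat.add (Nat.land (Nat.shiftLeft n (nat_lit 2688)) F56) (Nat.shiftRight m (nat_lit
    2688))) (Nat.shiftRight (revF n) (nat_lit 832)))
def nWF (m : ℕ) : ℕ :=
    (nW2 m (Nat.shiftRight m (nat_lit 1792)))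
def mW2 (a N : ℕ) : ℕ :=
    (Nat.add (Nat.add a (Nat.shiftLeft a (nat_lit 1792))) N)
def mTF (m N : ℕ) : ℕ :=
    (krF (mW2 (Nat.land m F28) N) MUA MUB)
def hi2 (P : ℕ) : ℕ :=
    (Nat.add (Nat.land (Nat.shiftRight P (nat_lit 34048)) F28) (Nat.shiftLeft (Nat.land
    (Nat.shiftRight P (nat_lit 69888)) F28) (nat_lit 1792)))
def hiF (FB : ℕ) : ℕ :=
    (hi2 (Nat.mul (Nat.land FB O1120) C20))
def lm2 (K : ℕ) : ℕ :=
    (Nat.shiftLeft (Nat.shiftRight (lsF H28 (Nat.mul (nat_lit 64) O28) (lmF H28 K (Nat.land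
    (Nat.shiftLeft K (nat_lit 64)) F28))) (nat_lit 64)) (nat_lit 1856))
def kq3 (HI A : ℕ) : ℕ :=
    (Nat.sub A (lsF H56 A (lsF H56 HI O56)))
def kq2 (ll HI R : ℕ) : ℕ :=

    (kq3 HI (lsF H56 (nWF (lm2 (Nat.land (Nat.shiftRight ll (nat_lit 8960)) F28))) (Nat.add
    (Nat.land (Nat.shiftLeft R (nat_lit 1856)) F56) (Nat.shiftRight R (nat_lit 1728)))))
def kqF (ll HI : ℕ) : ℕ :=
    (kq2 ll HI (revF HI))
def bmuF (N Q b : ℕ) : ℕ :=
    (Nat.shiftLeft (Nat.land N (Nat.mul (Nat.land (Nat.shiftRight Q b) O56) (nat_lit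
    18446744073709551615))) b)
def kx3 (N Q : ℕ) : ℕ :=
    (lsF H1120 (krF (Nat.shiftLeft (Nat.add (Nat.add (Nat.add (Nat.add (bmuF N Q (nat_lit 0))
    (bmuF N Q (nat_lit 1))) (bmuF N Q (nat_lit 2))) (bmuF N Q (nat_lit 3))) (bmuF N Q (nat_lit
    4))) (nat_lit 20)) C20 C20) (krF N KKA KKB))
def kxF (ll FB N : ℕ) : ℕ :=
    (kx3 N (kqF ll (hiF FB)))
def mS2 (m ll Y : ℕ) : ℕ :=
    (Nat.mul (nat_lit 864) (Nat.land (Nat.shiftRight (Nat.mul m (revF (Nat.add (Nat.add (Nat.land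
    (Nat.shiftRight ll (nat_lit 1792)) F28) (Nat.add (Nat.land (Nat.shiftLeft Y (nat_lit 64)) F28)
    (Nat.shiftRight Y (nat_lit 1728)))) (Nat.shiftLeft (Nat.add (Nat.land (Nat.shiftRight ll
    (nat_lit 5376)) F28) (Nat.land (Nat.shiftRight ll (nat_lit 7104)) F28)) (nat_lit 1792)))))
    (nat_lit 3520)) (nat_lit 18446744073709551615)))
def mSF (m ll : ℕ) : ℕ :=
    (mS2 m ll (Nat.land (Nat.shiftRight ll (nat_lit 3584)) F28))
noncomputable def l2F (J : ℕ) : ℕ := @Bool.rec (fun _ => ℕ) (Nat.log2 J)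
  (Nat.add (Nat.log2 (Nat.shiftRight J (nat_lit 62))) (nat_lit 62))
    (Nat.ble (nat_lit 4611686018427387904) J)
noncomputable def j2F (J : ℕ) : ℕ :=
    (newt J (nw J (nw J (nw J (nw J (nw J (Nat.shiftLeft (nat_lit 1) (Nat.add (Nat.div (l2F J)
    (nat_lit 2)) (nat_lit 1)))))))))
def jIF (g1 g2 v1 v2 : ℕ) : ℕ :=
    (Nat.sub (Nat.mul (Nat.mul (Nat.sub (Nat.sub (Nat.mul (nat_lit 5) SG) g1) g2) g1) g2) (Nat.add
    (Nat.mul (sdF v1 OO) g2) (Nat.mul (sdF v2 OO) g1)))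
noncomputable def jRF (g1 g2 v1 v2 : ℕ) : ℕ :=
    (j2F (jIF g1 g2 v1 v2))
def beF (g1 g2 v1 v2 : ℕ) : ℕ :=
    (Nat.sub BE0 (Nat.sub BE0 (Nat.sub BEB (Nat.add (Nat.div (Nat.mul BEK (Nat.add (Nat.add
    (Nat.add (Nat.mul (Nat.sub (Nat.sub (Nat.mul (nat_lit 5) SG) g1) g2) (Nat.sub (Nat.sub
    (Nat.mul (nat_lit 5) SG) g1) g2)) (Nat.mul g1 g1)) (Nat.mul g2 g2)) (Nat.mul (nat_lit 2)
    (Nat.add (sdF v1 OO) (sdF v2 OO))))) (nat_lit 1099511627776)) (nat_lit 1)))))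
noncomputable def b2F (th g1 g2 v1 v2 : ℕ) : ℕ :=
    (Nat.sub (@Bool.rec (fun _ => ℕ) BET (Nat.sub (Nat.add BET BLH) (Nat.add (Nat.div (Nat.mul BLJ
    (Nat.mul g1 g2)) (jIF g1 g2 v1 v2)) (nat_lit 1))) (Nat.beq th (nat_lit 2))) (Nat.mul BLM
    (Nat.sub (Nat.mul (nat_lit 11) SG) (Nat.mul (nat_lit 5) (Nat.add g1 g2)))))
def mnS (a b : ℕ) : ℕ :=
    (Nat.sub a (Nat.sub a b))
noncomputable def bMF (th g1 g2 v1 v2 : ℕ) : ℕ :=

    (@Bool.rec (fun _ => ℕ) (mnS (beF g1 g2 v1 v2) (b2F th g1 g2 v1 v2)) BE0 (Nat.beq th (nat_lit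
    1)))
noncomputable def caG (th g1 g2 : ℕ) (om : Bool) : ℕ :=
  @Bool.rec (fun _ => ℕ) (nat_lit 0) (@Bool.rec (fun _ => ℕ) (cA1 th g1 g2) (nat_lit 0)
    (Nat.ble th (nat_lit 7))) om
noncomputable def cbG (th v1 v2 : ℕ) (om : Bool) : ℕ :=
  @Bool.rec (fun _ => ℕ) (nat_lit 0) (@Bool.rec (fun _ => ℕ) (cB1 th v1 v2) (nat_lit 0)
    (Nat.ble th (nat_lit 7))) om
noncomputable def slF (th g1 : ℕ) : ℕ :=
  @Bool.rec (fun _ => ℕ) (slpT th g1) BE1 (Nat.ble th (nat_lit 7))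
def xrF (aZ cB GP GM BV k : ℕ) : ℕ :=
    (Nat.sub (Nat.add (Nat.add (Nat.mul GP (Nat.sub (Nat.mul (Nat.mul (nat_lit 4) (Nat.add
    (nat_lit 15) k)) (Nat.add (nat_lit 15) k)) (nat_lit 1))) (Nat.mul BV (Nat.mul (nat_lit 9216)
    (Nat.add (nat_lit 15) k)))) (Nat.mul (Nat.sub (Nat.add OFF aZ) (Nat.mul cB (Nat.mul (nat_lit
    9216) (Nat.add (nat_lit 15) k)))) O56)) (Nat.mul GM (Nat.mul (Nat.mul (nat_lit 4) (Nat.add
    (nat_lit 15) k)) (Nat.add (nat_lit 15) k))))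
def yrF (aY cB BV k : ℕ) : ℕ :=
    (Nat.add (Nat.mul BV (Nat.mul (nat_lit 72) (Nat.add (nat_lit 15) k))) (Nat.mul (Nat.sub
    (Nat.add (nat_lit 8796093022208) aY) (Nat.mul cB (Nat.mul (nat_lit 72) (Nat.add (nat_lit 15)
    k)))) O56))
noncomputable def caF (f : ℕ → ℕ) (n : ℕ) : ℕ :=
  Nat.rec (nat_lit 0) (fun k ih =>
    (Nat.add ih (Nat.shiftLeft (f k) (Nat.mul (nat_lit 3584) k)))) n
def q3F (ih : ℕ → ℕ → ℕ → ℕ) (j Y W R A t M k : ℕ) : ℕ :=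

    (ih (Nat.sub W (Nat.land t k)) (Nat.add R (Nat.shiftRight M (Nat.sub (nat_lit 63) j)))
    (Nat.add A (Nat.land (Nat.shiftLeft Y j) k)))
def q2F (ih : ℕ → ℕ → ℕ → ℕ) (j Y W R A t M : ℕ) : ℕ :=
    (q3F ih j Y W R A t M (Nat.sub M (Nat.shiftRight M (nat_lit 63))))
def q1F (ih : ℕ → ℕ → ℕ → ℕ) (j Y W R A t : ℕ) : ℕ :=
    (q2F ih j Y W R A t (Nat.land (Nat.sub W t) H1120))
noncomputable def sqF (p Q Y n : ℕ) : ℕ → ℕ → ℕ → ℕ :=
  Nat.rec (motive := fun _ => ℕ → ℕ → ℕ → ℕ) (fun W R A =>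
    (lsF H1120 (Nat.add A (Nat.mul p (Nat.sub Q W))) (Nat.shiftLeft R (nat_lit 43))))
    (fun j ih W R A =>
    (q1F ih j Y W R A (Nat.add (Nat.shiftLeft R (Nat.add j (nat_lit 1))) (Nat.shiftLeft O1120
    (Nat.mul (nat_lit 2) j))))) n
def d2F (E S M : ℕ) : ℕ :=
    (Nat.sub S (Nat.land E (Nat.sub M (Nat.shiftRight M (nat_lit 63)))))
def d1F (F E S : ℕ) : ℕ :=
    (d2F E S (Nat.land (Nat.add S F) H1120))
noncomputable def dvF (F E n : ℕ) : ℕ := Nat.rec KN3 (fun _ ih =>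
    (d1F F E (Nat.shiftLeft ih (nat_lit 1)))) n
noncomputable def u3F (D E : ℕ) : ℕ :=
    (Nat.add (Nat.shiftLeft (Nat.add (Nat.land (dvF (Nat.sub H1120 E) (Nat.sub E O1120) (nat_lit
    21)) K22) O1120) (nat_lit 19)) (Nat.mul (Nat.shiftRight (Nat.land (Nat.sub KN1 D) H1120)
    (nat_lit 63)) (nat_lit 1124800395214848)))
noncomputable def u2F (D : ℕ) : ℕ :=
    (u3F D (Nat.shiftLeft (lmF H1120 D KN2) (nat_lit 22)))
noncomputable def u1F (p Q Y : ℕ) : ℕ :=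
    (u2F (Nat.land (Nat.shiftRight (sqF p Q Y (nat_lit 19) Q (nat_lit 0) (nat_lit 0)) (nat_lit
    24)) K39))
noncomputable def utF (p X Y : ℕ) : ℕ :=
    (u1F p (Nat.add (Nat.land (Nat.shiftRight (lsF H1120 X KOF) (nat_lit 12)) K37) H1120) Y)
def urF (U k : ℕ) : ℕ :=
    (Nat.land (Nat.shiftRight U (Nat.mul (nat_lit 3584) k)) F56)
def e2F (a b k : ℕ) : ℕ :=
    (lsF H56 (Nat.mul (lsF H56 a b) (Nat.add (nat_lit 31) (Nat.mul (nat_lit 2) k))) b)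
noncomputable def erF (U k : ℕ) : ℕ := force
    (Nat.add k (nat_lit 1)) fun k1 => e2F (urF U k) (urF U k1) k
noncomputable def trF (U k : ℕ) : ℕ :=
    (Nat.add (Nat.mul (Nat.mul (Nat.mul (nat_lit 4) (Nat.add (nat_lit 15) k)) (Nat.add (nat_lit
    15) k)) (urF U k)) (lmF H56 (@Bool.rec (fun _ => ℕ) (force (Nat.sub k (nat_lit 1)) (erF U))
    (nat_lit 0) (Nat.beq k (nat_lit 0))) (@Bool.rec (fun _ => ℕ) (erF U k) (nat_lit 0) (Nat.beq k
    (nat_lit 19)))))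
def t2F (ih T k : ℕ) : ℕ :=
    (Nat.add (Nat.add ih (Nat.shiftLeft (Nat.land T F28) (Nat.mul (nat_lit 1792) k)))
    (Nat.shiftLeft (Nat.shiftRight T (nat_lit 1792)) (Nat.mul (nat_lit 1792) (Nat.sub (nat_lit 39)
    k))))
noncomputable def taF (U n : ℕ) : ℕ :=
  Nat.rec (nat_lit 0) (fun k ih => force k fun k' => t2F ih (trF U k') k') n
noncomputable def m2F (g1 g2 aZ cB BV : ℕ) : ℕ :=

    (taF (utF (Nat.add (Nat.sub (newt aZ (nw aZ (nw aZ (nw aZ (nat_lit 6000000))))) (nat_lit 1))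
    (nat_lit 1)) (caF (xrF aZ cB (Nat.add (Nat.mul g1 XP) (Nat.mul g2 YP)) (Nat.add (Nat.mul g1
    XM) (Nat.mul g2 YM)) BV) (nat_lit 20)) (caF (yrF (Nat.mul (Nat.sub (Nat.sub (Nat.mul (nat_lit
    5) SG) g1) g2) (nat_lit 20736)) cB BV) (nat_lit 20))) (nat_lit 20))
noncomputable def mkTF (g1 g2 v1 v2 : ℕ) : ℕ :=

    (m2F g1 g2 (Nat.mul (Nat.sub (Nat.sub (Nat.mul (nat_lit 5) SG) g1) g2) (nat_lit 1327104))
    (Nat.add (Nat.mul (nat_lit 96) SG) (Nat.mul (nat_lit 24) (Nat.add v1 v2))) (Nat.add (Nat.add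
    (Nat.mul v1 EXP) (Nat.mul v2 EYP)) OE))
def eS2 (N : ℕ) : ℕ :=
    (Nat.mul (Nat.add (Nat.add (Nat.add N (Nat.shiftLeft (Nat.land N MA) (nat_lit 1792)))
    (Nat.shiftRight (Nat.land N MB) (nat_lit 1792))) O1120) (nat_lit 43))
def eSF (P : ℕ) : ℕ :=
    (eS2 (Nat.land (Nat.shiftRight (lsF H1120 (Nat.mul (nat_lit 2) P) (Nat.add (Nat.shiftRight P
    (nat_lit 1792)) (Nat.land (Nat.shiftLeft P (nat_lit 1792)) F1120))) (nat_lit 8)) MD))
noncomputable def eXF (A B a b p3 q3 p4 q4 p5 q5 : ℕ) : ℕ :=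
    (lsF H1120 (fmF (fmF (fmF (fmF A (Nat.mul (Nat.sub a b) (nat_lit 1073741824)) O1120) q3 YU3)
    q4 YU4) q5 YU5) (fmF (fmF (fmF (fmF B (Nat.mul (Nat.sub b a) (nat_lit 1073741824)) O1120) p3
    YL3) p4 YL4) p5 YL5))
noncomputable def vt5 (g1 g2 gth ka ya yb vl vh RP v1 v2 KP KN T Z C eP eM nP nN : ℕ) (om th : Bool) :
    Bool :=
    (@Bool.rec (fun _ => Bool) false (Nat.ble (Nat.succ (Nat.add (Nat.mul (nat_lit 2560000)
    (Nat.add (Nat.mul (nat_lit 648) (Nat.add (Nat.add (nat_lit 56493153725735501824) (Nat.mod C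
    (nat_lit 18446744073709551615))) (Nat.mul (nat_lit 60129542144) (Nat.add KP (nat_lit 30)))))
    (Nat.mul (nat_lit 144) nP))) (Nat.mul (nat_lit 9216) (Nat.add (Nat.mul (nat_lit 10000)
    (Nat.add (Nat.mul (nat_lit 256) (Nat.add (@Bool.rec (fun _ => ℕ) (nat_lit 0) (Nat.add (Nat.div
    CKAP (jRF g1 g2 v1 v2)) (nat_lit 1)) th) (caG gth g1 g2 om))) (Nat.mul ka RP))) (Nat.mul (nat_lit 256) (Nat.mul
    (Nat.sub eP eM) vh)))))) (Nat.add (Nat.mul (nat_lit 2560000) (Nat.add (Nat.mul (nat_lit 648)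
    (Nat.add (nat_lit 64563604257983430656) (Nat.mul (nat_lit 60129542144) KN))) (Nat.mul (nat_lit
    144) nN))) (Nat.mul (nat_lit 9216) (Nat.add (Nat.mul (nat_lit 10000) (Nat.add (Nat.mul ka (Nat.add
    (Nat.mul (nat_lit 32) (Nat.add (Nat.mul v1 ya) (Nat.mul v2 yb))) (nat_lit 4026531840)))
    (Nat.mul (nat_lit 256) (cbG gth v1 v2 om))))
    (Nat.mul (nat_lit 256) (Nat.mul (Nat.sub eM eP) vl)))))) (@Bool.rec (fun _ => Bool) false
    (Nat.beq (Nat.land C HI59) (nat_lit 0)) (@Bool.rec (fun _ => Bool) false (Nat.beq (Nat.land Z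
    HI61) (nat_lit 0)) (@Bool.rec (fun _ => Bool) false (Nat.beq (Nat.land T HI56) (nat_lit 0))
    (@Bool.rec (fun _ => Bool) false (@Bool.rec (fun _ => Bool) (Nat.ble (Nat.succ (nat_lit 0))
    vh) true (Nat.ble eP eM)) (@Bool.rec (fun _ => Bool) false (@Bool.rec (fun _ => Bool) (Nat.ble
    (Nat.succ (Nat.mul SG (Nat.mul g1 g2))) (Nat.mul (nat_lit 4) (jIF g1 g2 v1 v2))) true
    (@Bool.rec (fun _ => Bool) true false (@Bool.rec (fun _ => Bool) false (Nat.beq (Nat.mod gth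
    (nat_lit 8)) (nat_lit 2)) om))) (@Bool.rec (fun _ => Bool) false (@Bool.rec (fun _ => Bool) (Nat.ble (Nat.succ
    (nat_lit 0)) (jRF g1 g2 v1 v2)) true (@Bool.rec (fun _ => Bool) true false th)) (@Bool.rec
    (fun _ => Bool) false (@Bool.rec (fun _ => Bool) (Nat.ble (Nat.mod gth (nat_lit 8)) (nat_lit 2)) true (@Bool.rec
    (fun _ => Bool) true false om)) (@Bool.rec (fun _ => Bool) false (Nat.ble v2 (nat_lit
    37748736)) (@Bool.rec (fun _ => Bool) false (Nat.ble v1 (nat_lit 37748736)) (@Bool.rec (fun _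
    => Bool) false (Nat.ble (Nat.add g1 g2) (nat_lit 31457280)) (Nat.ble (Nat.add KP KN) (nat_lit
    268435456)))))))))))))
noncomputable def vt4 (g1 g2 gth ka ya yb vl vh RP v1 v2 KP KN T M0 M1 M2 M3 M4 M5 Z eP eM nP nN : ℕ)
    (om th : Bool) : Bool :=
    (vt5 g1 g2 gth ka ya yb vl vh RP v1 v2 KP KN T Z (paF M0 M1 M2 M3 M4 M5 Z) eP eM nP nN om th)
noncomputable def zF (P Y T FM KX : ℕ) : ℕ :=
    (Nat.land (lsF H1120 (Nat.add (Nat.add (Nat.add P (eSF P)) Y) T) KX) FM)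
noncomputable def vt3 (g1 g2 gth b1p b1q b2p b2q ka ya yb FM M0 M1 M2 M3 M4 M5 qhr qlr vl vh PC NC EP EN KP KN
    RP XK MS KX v1 v2 p0 q0 p1 q1 p2 q2 p3 q3 p4 q4 p5 q5 al be T : ℕ) (om th : Bool) : Bool :=
    (vt4 g1 g2 gth ka ya yb vl vh RP v1 v2 (Nat.add KP (Nat.add (Nat.add (Nat.add (Nat.add
    (Nat.add p0 p1) p2) p3) p4) p5)) (Nat.add KN (Nat.add (Nat.add (Nat.add (Nat.add (Nat.add q0
    q1) q2) q3) q4) q5)) T M0 M1 M2 M3 M4 M5 (zF (Nat.sub (fmF (fmF (fmF (fmF (fmF (fmF (Nat.add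
    PC (wPF al be)) q0 TU0) q1 TU1) q2 TU2) q3 TU3) q4 TU4) q5 TU5) (fmF (fmF (fmF (fmF (fmF (fmF
    (Nat.add NC (wNF al be)) p0 TL0) p1 TL1) p2 TL2) p3 TL3) p4 TL4) p5 TL5)) (eXF EP EN (Nat.add
    KP (Nat.add (Nat.add p3 p4) p5)) (Nat.add KN (Nat.add (Nat.add q3 q4) q5)) p3 q3 p4 q4 p5 q5)
    T FM KX) (Nat.add (Nat.mul SG (Nat.add (Nat.add (Nat.add p0 p3) p4) XK)) (Nat.mul (nat_lit 2)
    (Nat.add (Nat.add (Nat.mul b1q v1) (Nat.mul b2q v2)) (Nat.mul OO (Nat.add b1p b2p)))))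
    (Nat.add (Nat.add (Nat.add (Nat.mul SG (Nat.add (Nat.add q0 q3) q4)) (Nat.mul (nat_lit 2)
    (Nat.add (Nat.add (Nat.mul b1p v1) (Nat.mul b2p v2)) (Nat.mul OO (Nat.add b1q b2q)))))
    (@Bool.rec (fun _ => ℕ) (nat_lit 0) (bMF (Nat.mod gth (nat_lit 8)) g1 g2 v1 v2) om)) (@Bool.rec (fun _ => ℕ)
    (nat_lit 0) (slF gth g1) th)) (Nat.add (nPF al be qhr) MS) (nNF al be qlr) om th)
noncomputable def vtS (F : ℕ → Bool → Bool) (X : ℕ) (om : Bool) : Bool :=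
  @Bool.rec (fun _ => Bool) (F (nat_lit 0) false) (F X true) om
noncomputable def vt2 (g1 g2 gth b1p b1q b2p b2q ka ya yb FM M0 M1 M2 M3 M4 M5 qhr qlr vl vh PC NC EP EN KP KN
    RP XK MS KX : ℕ) (om th : Bool) (v1 v2 p0 q0 p1 q1 p2 q2 p3 q3 p4 q4 p5 q5 al be : ℕ) : Bool :=
  frc (Nat.land al M31) fun al => frc (Nat.land be M31) fun be => vtS (fun T o =>
    vt3 g1 g2 gth b1p b1q b2p b2q ka ya yb FM M0 M1 M2 M3 M4 M5 qhr qlr vl vh PC NC EP EN KP KN RP XK MS KX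
      v1 v2 p0 q0 p1 q1 p2 q2 p3 q3 p4 q4 p5 q5 al be T o th)
    (Nat.land (mkTF g1 g2 v1 v2) FM) om
noncomputable def le3 (V : ℕ → ℕ → ℕ → ℕ → ℕ → ℕ → ℕ → ℕ → ℕ → ℕ → ℕ → ℕ → ℕ → ℕ → ℕ → ℕ → Bool)
    (ok : Bool) (a0 a1 b0 b1 : ℕ) (d0 d1 d2 d3 : Vd) : Bool :=
  ok && @Vd.rec (fun _ => Bool) (V a0 b0) d0 && @Vd.rec (fun _ => Bool) (V a0 b1) d1 &&
    @Vd.rec (fun _ => Bool) (V a1 b0) d2 && @Vd.rec (fun _ => Bool) (V a1 b1) d3
def cdF (b g : ℕ) : ℕ :=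
    (Nat.mod (Nat.div (Nat.mul b g) SG) (nat_lit 1073741824))
def rqF (ya yb t f : ℕ) : ℕ :=
    (Nat.add (Nat.add (Nat.mul (Nat.sub (Nat.mul (nat_lit 5) SG) t) (nat_lit 256)) (Nat.mul (cg1 t
    f) (Nat.mul ya ya))) (Nat.mul (cg2 t f) (Nat.mul yb yb)))
def cvF (b1 b2 g1 g2 X : ℕ) : ℕ :=
    (Nat.add (Nat.land (Nat.shiftRight X (nat_lit 12)) M52) (Nat.add (Nat.add (Nat.add (cdF b1 g1)
    (Nat.shiftLeft (cdF b2 g1) (nat_lit 64))) (Nat.shiftLeft (cdF b1 g2) (nat_lit 128)))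
    (Nat.shiftLeft (cdF b2 g2) (nat_lit 192))))
noncomputable def le2 (g1 g2 dl gth t0 t1 f0 f1 a0 a1 b0 b1 ql qh FB D vl vh om b1p b1q b2p b2q ka ya yb xa
    CP CQ MT MS KX : ℕ) (d0 d1 d2 d3 : Vd) : Bool :=
  le3 (vt2 g1 g2 gth b1p b1q b2p b2q ka ya yb

    (Nat.land (lgF H1120 (krF (lmF H56 (lmF H56 (rL56 qh) (rR56 qh)) qh) C20 C20) PAq) FB)

    (bmF D (nat_lit 0))
    (bmF D (nat_lit 1))
    (bmF D (nat_lit 2))
    (bmF D (nat_lit 3))
    (bmF D (nat_lit 4))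
    (bmF D (nat_lit 5)) (revF qh) (revF ql) vl vh

    (fmF (fmF (fmF (fmF (fmF (fmF (fmF (fmF (fmF (fmF (fmF OFV (laF CQ (nat_lit 0)) TU6) (laF CQ
    (nat_lit 1)) TU7) (laF CQ (nat_lit 2)) TU8) (laF CQ (nat_lit 3)) TU9) (laF CQ (nat_lit 4))
    TU10) (laF CQ (nat_lit 5)) TU11) (laF CQ (nat_lit 6)) TU12) (laF CQ (nat_lit 7)) TU13) (laF CQ
    (nat_lit 8)) TU14) (laF CQ (nat_lit 9)) TU15) (laF CQ (nat_lit 10)) TU16)

    (fmF (fmF (fmF (fmF (fmF (fmF (fmF (fmF (fmF (fmF (fmF MT (laF CP (nat_lit 0)) TL6) (laF CP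
    (nat_lit 1)) TL7) (laF CP (nat_lit 2)) TL8) (laF CP (nat_lit 3)) TL9) (laF CP (nat_lit 4))
    TL10) (laF CP (nat_lit 5)) TL11) (laF CP (nat_lit 6)) TL12) (laF CP (nat_lit 7)) TL13) (laF CP
    (nat_lit 8)) TL14) (laF CP (nat_lit 9)) TL15) (laF CP (nat_lit 10)) TL16)

    (fmF (fmF (fmF (fmF (fmF (fmF (fmF (fmF (fmF (fmF (fmF (nat_lit 0) (laF CQ (nat_lit 0)) YU6)
    (laF CQ (nat_lit 1)) YU7) (laF CQ (nat_lit 2)) YU8) (laF CQ (nat_lit 3)) YU9) (laF CQ (nat_lit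
    4)) YU10) (laF CQ (nat_lit 5)) YU11) (laF CQ (nat_lit 6)) YU12) (laF CQ (nat_lit 7)) YU13)
    (laF CQ (nat_lit 8)) YU14) (laF CQ (nat_lit 9)) YU15) (laF CQ (nat_lit 10)) YU16)

    (fmF (fmF (fmF (fmF (fmF (fmF (fmF (fmF (fmF (fmF (fmF (nat_lit 0) (laF CP (nat_lit 0)) YL6)
    (laF CP (nat_lit 1)) YL7) (laF CP (nat_lit 2)) YL8) (laF CP (nat_lit 3)) YL9) (laF CP (nat_lit
    4)) YL10) (laF CP (nat_lit 5)) YL11) (laF CP (nat_lit 6)) YL12) (laF CP (nat_lit 7)) YL13)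
    (laF CP (nat_lit 8)) YL14) (laF CP (nat_lit 9)) YL15) (laF CP (nat_lit 10)) YL16)

    (Nat.mod CP (nat_lit 18446744073709551615))
    (Nat.mod CQ (nat_lit 18446744073709551615))

    (Nat.add (mxF (mxF (rqF ya yb t0 f0) (rqF ya yb t0 f1)) (mxF (rqF ya yb t1 f0) (rqF ya yb t1
    f1))) (Nat.mul (nat_lit 32) (Nat.mul (Nat.add OO dl) (Nat.add ya yb))))

    (Nat.shiftRight (Nat.add (laF xa (nat_lit 22)) (nat_lit 4095)) (nat_lit 12)) MS KX
    (@Bool.rec (fun _ => Bool) true false (Nat.beq om (nat_lit 0)))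
    (@Bool.rec (fun _ => Bool) false (Nat.beq (Nat.mod gth (nat_lit 8)) (nat_lit 1)) (@Bool.rec (fun _ => Bool) true
    false (Nat.beq om (nat_lit 0)))))
    (okB ⟨t0, t1, f0, f1, 0, 0, 0, 0⟩ &&
    (Nat.ble (Nat.add (Nat.add (Nat.add b1p b1q) b2p) b2q) (nat_lit 268435456))) a0 a1 b0 b1 d0 d1 d2 d3
noncomputable def leafF (G : Gx) (B : Bx) (s : St) (c : Cm) (xa : ℕ) (d0 d1 d2 d3 : Vd) : Bool :=
  @Gx.rec (fun _ => Bool) (fun g1 g2 dl gth => @Bx.rec (fun _ => Bool) (fun t0 t1 f0 f1 a0 a1 b0 b1 =>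
    @St.rec (fun _ => Bool) (fun ql qh sl ll vl vh =>
      @Cm.rec (fun _ => Bool) (fun om b1p b1q b2p b2q ka ya yb _ mu => frc
    (Nat.land mu N31) fun m =>
        frc
    (cvF b1p b2p g1 g2 (lsF H11 (Nat.land xa F11) (Nat.land (Nat.shiftRight xa (nat_lit 704))
    F11))) fun CP =>
        frc
    (cvF b1q b2q g1 g2 (lsF H11 (Nat.land (Nat.shiftRight xa (nat_lit 704)) F11) (Nat.land xa
    F11))) fun CQ =>
        frc (nWF m) fun N =>
        frc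
    (lgF H1120 PBq (krF (Nat.sub sl (lsF H56 sl (rL56 sl))) C20 C20)) fun FB =>
        le2 g1 g2 dl gth t0 t1 f0 f1 a0 a1 b0 b1 ql qh FB (dLF ll) vl vh om b1p b1q b2p b2q ka ya yb xa
          CP CQ (mTF m N) (mSF m ll) (kxF ll FB N) d0 d1 d2 d3) c) s) B) G

/-! ### operations -/

/-- the numbers of a box that the tests use -/
structure Cx where (t0 t1 p0 q0 p1 q1 p2 q2 p3 q3 l1 l2 h1 h2 : ℕ)
def mkC (G : Gx) (B : Bx) : Cx := ⟨B.t0, B.t1, cg1 B.t0 B.f0, cg2 B.t0 B.f0, cg1 B.t0 B.f1, cg2 B.t0 B.f1,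
  cg1 B.t1 B.f0, cg2 B.t1 B.f0, cg1 B.t1 B.f1, cg2 B.t1 B.f1, vlo G B.a0, vlo G B.b0, vhi G B.a1,
  vhi G B.b1⟩
noncomputable def gc2 (fl : Bool) (cc gg e : ℕ) : Bool :=
    (@Bool.rec (fun _ => Bool) false (@Bool.rec (fun _ => Bool) (Nat.ble (nat_lit
    292860508914212841455616) (Nat.mul (nat_lit 4) e)) true (@Bool.rec (fun _ => Bool) true false
    fl)) (Nat.ble (Nat.succ cc) (Nat.mul (nat_lit 100) (Nat.mul gg e))))
noncomputable def gc (fl : Bool) (cc X Y U V F1 F2 C0 C1 t p q : ℕ) : Bool :=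
    (gc2 fl cc (Nat.sub (Nat.mul (nat_lit 4) (Nat.add (Nat.mul p X) (Nat.mul q Y))) (Nat.add
    (Nat.mul p U) (Nat.mul q V))) (Nat.sub (Nat.add C0 (Nat.mul (nat_lit 633318697598976) t))
    (Nat.add C1 (Nat.add (Nat.mul p F1) (Nat.mul q F2)))))
noncomputable def ge3 (fl : Bool) (cc X Y U V F1 F2 C0 C1 t0 t1 p0 q0 p1 q1 p2 q2 p3 q3 : ℕ) : Bool :=

    (@Bool.rec (fun _ => Bool) false (gc fl cc X Y U V F1 F2 C0 C1 t1 p3 q3) (@Bool.rec (fun _ =>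
    Bool) false (gc fl cc X Y U V F1 F2 C0 C1 t1 p2 q2) (@Bool.rec (fun _ => Bool) false (gc fl cc
    X Y U V F1 F2 C0 C1 t0 p1 q1) (gc fl cc X Y U V F1 F2 C0 C1 t0 p0 q0))))
/-- `f = (xP - xM, yP - yM)` -/
noncomputable def geF (C : Cx) (fl : Bool) (X Y U V xP xM yP yM : ℕ) : Bool :=
  @Cx.rec (fun _ => Bool) (fun t0 t1 p0 q0 p1 q1 p2 q2 p3 q3 l1 l2 h1 h2 =>
    (ge3 fl (Nat.mul (nat_lit 558148152342069314695800199839957808840704) (@Bool.rec (fun _ => ℕ)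
    (nat_lit 40821) (nat_lit 40001) fl)) X Y U V (sdF xP xM) (sdF yP yM) (Nat.add (nat_lit
    59767450798818947235840) (Nat.mul (nat_lit 50331648) (Nat.add (Nat.mul l1 (Nat.sub xM xP))
    (Nat.mul l2 (Nat.sub yM yP))))) (Nat.mul (nat_lit 50331648) (Nat.add (Nat.mul h1 (Nat.sub xP
    xM)) (Nat.mul h2 (Nat.sub yP yM)))) t0 t1 p0 q0 p1 q1 p2 q2 p3 q3)) C
noncomputable def ch2 (C : Cx) (fl : Bool) (u U V ax ay a24 xP xM yP yM : ℕ) : Bool :=
    (geF C fl (sdF xP xM) (sdF yP yM) U V (Nat.add (Nat.mul (nat_lit 16) ax) (Nat.mul u xM))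
    (Nat.add (Nat.mul (nat_lit 16) a24) (Nat.mul u xP)) (Nat.add (Nat.mul (nat_lit 16) ay)
    (Nat.mul u yM)) (Nat.add (Nat.mul (nat_lit 16) a24) (Nat.mul u yP)))
noncomputable def ch1 (C : Cx) (fl : Bool) (u U V ax ay a24 z b : ℕ) : Bool :=
    (ch2 C fl u U V ax ay a24 (Nat.add ax (Nat.mul (nat_lit 24) z)) (Nat.add (Nat.mul z (eX b))
    a24) (Nat.add ay (Nat.mul (nat_lit 24) z)) (Nat.add (Nat.mul z (eY b)) a24))
noncomputable def ch3 (C : Cx) (fl : Bool) (u U V ax ay a24 z i i1 : ℕ) : Bool :=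

    (@Bool.rec (fun _ => Bool) false (ch1 C fl u U V ax ay a24 z i1) (ch1 C fl u U V ax ay a24 z
    i))
noncomputable def ch4 (C : Cx) (fl sec : Bool) (i j u a z : ℕ) : Bool :=
  @Bool.rec (fun _ => Bool)
    (ch1 C fl u (nat_lit 0) (nat_lit 0) (Nat.mul a (eX j)) (Nat.mul a (eY j)) (Nat.mul (nat_lit
    24) a) z i)
    (force (Nat.succ i) fun i1 =>
    (ch3 C fl u (sdF (Nat.mul z (eX i1)) (Nat.mul z (eX i))) (sdF (Nat.mul z (eY i1)) (Nat.mul z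
    (eY i))) (Nat.mul a (eX j)) (Nat.mul a (eY j)) (Nat.mul (nat_lit 24) a) z i i1)) sec
noncomputable def chordF (C : Cx) (qh : ℕ) (fl sec : Bool) (i j u τ : ℕ) : Bool :=

    (ch4 C fl sec i j u (Nat.div (nat_lit 68719476736) (laF qh j)) (Nat.div (nat_lit 68719476736)
    τ))
noncomputable def rc (U V F1 F2 C0 C1 t p q : ℕ) : Bool :=
    (Nat.ble (Nat.succ (Nat.add (Nat.mul (nat_lit 4) (Nat.add (Nat.add (nat_lit
    59767450798818947235840) (Nat.mul (nat_lit 633318697598976) t)) C1)) (Nat.add (Nat.mul p U)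
    (Nat.mul q V)))) (Nat.mul (nat_lit 4) (Nat.add C0 (Nat.add (Nat.mul p F1) (Nat.mul q F2)))))
noncomputable def rd3 (U V F1 F2 C0 C1 t0 t1 p0 q0 p1 q1 p2 q2 p3 q3 : ℕ) : Bool :=

    (@Bool.rec (fun _ => Bool) false (rc U V F1 F2 C0 C1 t1 p3 q3) (@Bool.rec (fun _ => Bool)
    false (rc U V F1 F2 C0 C1 t1 p2 q2) (@Bool.rec (fun _ => Bool) false (rc U V F1 F2 C0 C1 t0 p1
    q1) (rc U V F1 F2 C0 C1 t0 p0 q0))))
noncomputable def rdF (C : Cx) (U V xP yP M : ℕ) : Bool :=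
  @Cx.rec (fun _ => Bool) (fun t0 t1 p0 q0 p1 q1 p2 q2 p3 q3 l1 l2 h1 h2 =>
    (rd3 U V (sdF xP M) (sdF yP M) (Nat.mul (nat_lit 50331648) (Nat.add (Nat.mul l1 (Nat.sub xP
    M)) (Nat.mul l2 (Nat.sub yP M)))) (Nat.mul (nat_lit 50331648) (Nat.add (Nat.mul h1 (Nat.sub M
    xP)) (Nat.mul h2 (Nat.sub M yP)))) t0 t1 p0 q0 p1 q1 p2 q2 p3 q3)) C
noncomputable def ra3 (C : Cx) (U V z i i1 : ℕ) : Bool :=

    (@Bool.rec (fun _ => Bool) false (rdF C U V (Nat.mul z (eX i1)) (Nat.mul z (eY i1)) (Nat.mul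
    (nat_lit 24) z)) (rdF C U V (Nat.mul z (eX i)) (Nat.mul z (eY i)) (Nat.mul (nat_lit 24) z)))
noncomputable def ra2 (C : Cx) (sec : Bool) (i z : ℕ) : Bool :=
  @Bool.rec (fun _ => Bool)
    (rdF C (nat_lit 0) (nat_lit 0) (Nat.mul z (eX i)) (Nat.mul z (eY i)) (Nat.mul (nat_lit 24) z))
    (force (Nat.succ i) fun i1 =>
    (ra3 C (sdF (Nat.mul z (eX i1)) (Nat.mul z (eX i))) (sdF (Nat.mul z (eY i1)) (Nat.mul z (eY
    i))) z i i1)) sec
noncomputable def radF (C : Cx) (sec : Bool) (i τ : ℕ) : Bool :=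
    (ra2 C sec i (Nat.mul (Nat.div (nat_lit 68719476736) τ) (nat_lit 16)))
noncomputable def pl1 (C : Cx) (fl sg : Bool) (U V z t b : ℕ) : Bool :=
  @Bool.rec (fun _ => Bool)
    (geF C fl (sdF (Nat.mul z (eX b)) (Nat.mul (nat_lit 24) z)) (sdF (Nat.mul z (eY b)) (Nat.mul
    (nat_lit 24) z)) U V (Nat.mul t (eX b)) (Nat.mul (nat_lit 24) t) (Nat.mul t (eY b)) (Nat.mul
    (nat_lit 24) t))

    (geF C fl (sdF (Nat.mul z (eX b)) (Nat.mul (nat_lit 24) z)) (sdF (Nat.mul z (eY b)) (Nat.mul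
    (nat_lit 24) z)) U V (Nat.mul (nat_lit 24) t) (Nat.mul t (eX b)) (Nat.mul (nat_lit 24) t)
    (Nat.mul t (eY b))) sg
noncomputable def pl2 (C : Cx) (fl sg : Bool) (U V z t i i1 : ℕ) : Bool :=

    (@Bool.rec (fun _ => Bool) false (pl1 C fl sg U V z t i1) (pl1 C fl sg U V z t i))
noncomputable def pl3 (C : Cx) (fl sg : Bool) (z t i : ℕ) : Bool :=
  force (Nat.succ i) fun i1 =>
    (pl2 C fl sg (sdF (Nat.mul z (eX i1)) (Nat.mul z (eX i))) (sdF (Nat.mul z (eY i1)) (Nat.mul z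
    (eY i))) z t i i1)
noncomputable def pairF (C : Cx) (fl sg : Bool) (i L u : ℕ) : Bool :=

    (pl3 C fl sg (Nat.div (Nat.mul (Nat.add (nat_lit 30) L) (nat_lit 65536)) (nat_lit 12))
    (Nat.mul u (nat_lit 16384)) i)
def dA (a b : ℕ) : ℕ :=
    (Nat.add (Nat.mul (eX a) (eY b)) (Nat.mul (nat_lit 24) (Nat.add (eY a) (eX b))))
def dP (a b : ℕ) : ℕ :=
    (Nat.sub (dA a b) (dA b a))
noncomputable def hu2 (qh l j m n : ℕ) : ℕ :=
    (@Bool.rec (fun _ => ℕ) qh (upF qh l n) (@Bool.rec (fun _ => Bool) false (Nat.ble (Nat.succ n)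
    (laF qh l)) (@Bool.rec (fun _ => Bool) false (Nat.beq (dP l j) (nat_lit 0)) (@Bool.rec (fun _
    => Bool) false (Nat.beq (dP m l) (nat_lit 0)) (Nat.ble (Nat.succ (nat_lit 0)) (dP j m))))))
noncomputable def hullF (qh l j m : ℕ) : ℕ :=
    (hu2 qh l j m (Nat.add (Nat.div (Nat.add (Nat.mul (dP l m) (laF qh j)) (Nat.mul (dP j l) (laF
    qh m))) (dP j m)) (nat_lit 1)))
noncomputable def sh1 (x y : ℕ) (o : Bool) (a j l : ℕ) : ℕ :=
    (@Bool.rec (fun _ => ℕ) (@Bool.rec (fun _ => ℕ) (nat_lit 0) (Nat.div (Nat.sub (Nat.mul (dP a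
    l) x) (Nat.mul (dP a j) y)) (dP j l)) (Nat.beq (dP j a) (nat_lit 0))) (@Bool.rec (fun _ => ℕ)
    (nat_lit 0) (Nat.div (Nat.sub (Nat.mul (dP l a) x) (Nat.mul (dP j a) y)) (dP l j)) (Nat.beq
    (dP a j) (nat_lit 0))) o)
def mn (a b : ℕ) : ℕ :=
    (Nat.sub a (Nat.sub a b))
noncomputable def sh2 (x y : ℕ) (o sec : Bool) (i j l : ℕ) : ℕ :=
  @Bool.rec (fun _ => ℕ) (sh1 x y o i j l)
    (force (Nat.succ i) fun i1 => mn (sh1 x y o i j l) (sh1 x y o i1 j l)) sec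
noncomputable def raF (X i τ : ℕ) : ℕ :=
    (@Bool.rec (fun _ => ℕ) X (upF X i τ) (Nat.ble (Nat.succ (laF X i)) τ))
noncomputable def sLo (ql qh sl ll vl vh : ℕ) (sec : Bool) (i τ : ℕ) : St :=
  @Bool.rec (fun _ => St) (frc (raF ql i τ) fun x => ⟨x, qh, sl, ll, vl, vh⟩)
    (frc (raF sl i τ) fun x => ⟨ql, qh, x, ll, vl, vh⟩) sec
noncomputable def opF (C : Cx) (ql qh sl ll vl vh kd i j l u τ : ℕ) (sec fl sg : Bool) : St :=
  @Bool.rec (fun _ => St) (@Bool.rec (fun _ => St) (@Bool.rec (fun _ => St) (@Bool.rec (fun _ => St)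
    (@Bool.rec (fun _ => St)
      (@Bool.rec (fun _ => St) ⟨ql, qh, sl, ll, vl, vh⟩
        (frc (upF ll i l) fun x => ⟨ql, qh, sl, x, vl, vh⟩)

    (@Bool.rec (fun _ => Bool) false (pairF C fl sg i l u) (@Bool.rec (fun _ => Bool) false
    (Nat.ble (Nat.succ l) (laF ll i)) (Nat.ble (Nat.succ i) (nat_lit 28)))))
      (sLo ql qh sl ll vl vh false i
    (mxF (laF sl i) (laF sl (Nat.mod (Nat.add i (nat_lit 55)) (nat_lit 56)))))
    (Nat.beq kd (nat_lit 4)))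
      (@Bool.rec (fun _ => St) ⟨ql, qh, sl, ll, vl, vh⟩ (sLo ql qh sl ll vl vh sec i τ) (radF C sec i τ))

    (Nat.beq kd (nat_lit 3)))
      (@Bool.rec (fun _ => St) ⟨ql, qh, sl, ll, vl, vh⟩ (sLo ql qh sl ll vl vh sec i τ)
        (chordF C qh fl sec i j u τ))
    (Nat.beq kd (nat_lit 2)))
      (sLo ql qh sl ll vl vh sec i (sh2 (laF ql j) (laF qh l) fl sec i j l))
    (Nat.beq kd (nat_lit 1)))
    (frc (hullF qh i j l) fun x => ⟨ql, x, sl, ll, vl, vh⟩)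
    (Nat.beq kd (nat_lit 0))
noncomputable def opWF (C : Cx) (ql qh sl ll vl vh w : ℕ) : St :=
  force
    (Nat.mod (Nat.mod (Nat.shiftRight w (nat_lit 3)) (nat_lit 64)) (nat_lit 56)) fun i => force
    (Nat.mod (Nat.mod (Nat.shiftRight w (nat_lit 10)) (nat_lit 64)) (nat_lit 56)) fun j =>
    force
    (Nat.mod (Nat.mod (Nat.shiftRight w (nat_lit 16)) (nat_lit 64)) (nat_lit 56)) fun l =>
    (opF C ql qh sl ll vl vh (Nat.mod w (nat_lit 8)) i j l (Nat.mod (Nat.shiftRight w (nat_lit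
    24)) (nat_lit 256)) (Nat.mod (Nat.shiftRight w (nat_lit 32)) (nat_lit 2097152)) (Nat.beq
    (Nat.mod (Nat.shiftRight w (nat_lit 9)) (nat_lit 2)) (nat_lit 1)) (Nat.beq (Nat.mod
    (Nat.shiftRight w (nat_lit 22)) (nat_lit 2)) (nat_lit 1)) (Nat.beq (Nat.mod (Nat.shiftRight w
    (nat_lit 23)) (nat_lit 2)) (nat_lit 1)))
noncomputable def opsF (C : Cx) (n : ℕ) : ℕ → ℕ → ℕ → ℕ → ℕ → ℕ → ℕ → St :=
  Nat.rec (motive := fun _ => ℕ → ℕ → ℕ → ℕ → ℕ → ℕ → ℕ → St)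
    (fun _ ql qh sl ll vl vh => ⟨ql, qh, sl, ll, vl, vh⟩)
    (fun _ ih d ql qh sl ll vl vh => frc
    (Nat.shiftRight d (nat_lit 64)) fun d' => @St.rec (fun _ => St) (ih d')

    (opWF C ql qh sl ll vl vh (Nat.land d (nat_lit 18446744073709551615)))) n

/-! ### located extreme points -/

noncomputable def loF (X i τ : ℕ) : ℕ :=
    (@Bool.rec (fun _ => ℕ) X (upF X i τ) (Nat.ble (Nat.succ τ) (laF X i)))
noncomputable def hlF (l j a m b : ℕ) : ℕ :=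
    (@Bool.rec (fun _ => ℕ) (nat_lit 1048576) (Nat.add (Nat.div (Nat.mul (nat_lit 68719476736)
    (Nat.add (Nat.mul b (dP l m)) (Nat.mul a (dP j l)))) (Nat.mul (Nat.mul a b) (dP j m)))
    (nat_lit 1)) (@Bool.rec (fun _ => Bool) false (Nat.beq (dP m l) (nat_lit 0)) (@Bool.rec (fun _
    => Bool) false (Nat.beq (dP l j) (nat_lit 0)) (Nat.ble (Nat.succ (nat_lit 0)) (Nat.mul
    (Nat.mul (dP j m) a) b)))))
noncomputable def fhF (l : ℕ) (A Z : Sg) : ℕ :=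
  @Sg.rec (fun _ => ℕ) (fun j0 a0 j1 a1 => @Sg.rec (fun _ => ℕ) (fun m0 b0 m1 b1 =>

    (mxF (mxF (hlF l j0 a0 m0 b0) (hlF l j0 a0 m1 b1)) (mxF (hlF l j1 a1 m0 b0) (hlF l j1 a1 m1
    b1)))) Z) A
def dtF (z i : ℕ) : ℕ :=
    (Nat.sub (Nat.add (Nat.add (Nat.mul (eX z) (eX i)) (Nat.mul (eY z) (eY i))) (nat_lit 1152))
    (Nat.mul (nat_lit 24) (Nat.add (Nat.add (eX z) (eX i)) (Nat.add (eY z) (eY i)))))
noncomputable def miF (sl a z i : ℕ) : Bool :=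
  force (Nat.succ i) fun i1 =>
    (Nat.ble (Nat.succ (Nat.mul (nat_lit 4294967296) (mxF (dtF z i) (dtF z i1)))) (Nat.mul
    (Nat.mul (nat_lit 24) (laF sl i)) a))
noncomputable def tlF (sl a z n : ℕ) : ℕ → ℕ :=
  Nat.rec (motive := fun _ => ℕ → ℕ) (fun i => i)
    (fun _ ih i =>
    (@Bool.rec (fun _ => ℕ) i (force (Nat.mod (Nat.add i (nat_lit 1)) (nat_lit 56)) ih) (miF sl a
    z i))) n
noncomputable def thF (sl a z n : ℕ) : ℕ → ℕ :=
  Nat.rec (motive := fun _ => ℕ → ℕ) (fun i => i)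
    (fun _ ih i => force
    (Nat.mod (Nat.add i (nat_lit 55)) (nat_lit 56)) fun j =>
    (@Bool.rec (fun _ => ℕ) i (ih j) (miF sl a z j))) n
noncomputable def fzF (rl rh z τ : ℕ) : Sg :=
  force (laF rl z) fun j => force (laF rh z) fun m =>
    @Bool.rec (fun _ => Sg) ⟨0, 0, 0, 0⟩ ⟨j,
    (Nat.div (Nat.mul τ (nat_lit 384)) (dtF z j)), m,
    (Nat.div (Nat.mul τ (nat_lit 384)) (dtF z m))⟩

    (@Bool.rec (fun _ => Bool) false (Nat.ble (Nat.succ (nat_lit 0)) (dtF z m)) (@Bool.rec (fun _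
    => Bool) false (Nat.ble (Nat.succ (nat_lit 0)) (dtF z j)) (Nat.ble (Nat.succ (nat_lit 0)) (dP
    j m))))
def ptF (n a : ℕ) : Sg := ⟨n, a, n, a⟩
noncomputable def srF (qh wl rl rh n : ℕ) : Sg :=
  @Bool.rec (fun _ => Sg) (force
    (Nat.mod (Nat.sub n (nat_lit 56)) (nat_lit 56)) fun z => fzF rl rh z (laF wl z))
    (ptF n
    (Nat.div (nat_lit 68719476736) (laF qh n)))
    (Nat.ble n (nat_lit 55))
noncomputable def seF (i a : ℕ) : Sg := force (Nat.succ i) fun i1 => ⟨i, a, i1, a⟩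
noncomputable def tgF (rl rh kind i τ : ℕ) : Sg :=
  @Bool.rec (fun _ => Sg) (@Bool.rec (fun _ => Sg) (fzF rl rh i τ) (ptF i
    (Nat.div (nat_lit 68719476736) τ))
    (Nat.beq kind (nat_lit 0)))
    (seF i
    (Nat.div (nat_lit 68719476736) τ))
    (Nat.beq kind (nat_lit 1))
def spF (c X : ℕ) : ℕ :=
    (lsF H56 (Nat.land (Nat.shiftRight (Nat.mul c X) (nat_lit 16)) M48) O56)
def doM (z : ℕ) : ℕ := dots z - lsub H56 (dots z) (rotR 56 (dots z))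
noncomputable def stF (ql qh sl ll vl vh wl wh rl rh z : ℕ) : Xs :=
  force
    (Nat.div (nat_lit 281474976710656) (Nat.mul (nat_lit 24) (laF wh z))) fun c => frc (lmF H56 ql (spF c (dots z))) fun x =>
    frc (lmF H56 sl (spF c (doM z))) fun y =>
      ⟨⟨x, qh, y, ll, vl, vh⟩, ⟨wl, wh⟩, ⟨rl, rh⟩⟩
def F72 : ℕ := 2 ^ 4608 - 1
def trB (i : ℕ) : ℕ :=
    (Nat.land (Nat.shiftRight TB (Nat.mul (nat_lit 4608) i)) F72)
def tcF (i j : ℕ) : ℕ :=
    (Nat.land (Nat.shiftRight (trB i) (Nat.mul (nat_lit 16) j)) (nat_lit 65535))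
noncomputable def tbF (i j : ℕ) : ℕ := force
    (Nat.sub i (nat_lit 256)) fun k =>
    (tcF k (Nat.sub j (nat_lit 256)))
noncomputable def spP (ll i a b : ℕ) : ℕ :=
    (loF (loF (loF ll i (Nat.sub (Nat.div (Nat.add (Nat.mul (nat_lit 3) (mxF a b)) (nat_lit 1023))
    (nat_lit 1024)) (nat_lit 30))) (Nat.add (nat_lit 28) i) (Nat.div (Nat.add (Nat.mul (nat_lit
    16) (Nat.add (Nat.mul (nat_lit 2) a) b)) (nat_lit 5)) (nat_lit 6))) (Nat.add (nat_lit 56) i)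
    (Nat.div (Nat.add (Nat.mul (nat_lit 16) (Nat.add a (Nat.mul (nat_lit 2) b))) (nat_lit 5))
    (nat_lit 6)))
noncomputable def opP (C : Cy) (ql qh sl ll vl vh wl wh rl rh z n m u τ fl : ℕ) : Xs :=
  force
    (Nat.mod τ (nat_lit 32768)) fun a => force
    (Nat.add (Nat.add (Nat.shiftRight τ (nat_lit 15)) (Nat.mul (nat_lit 64) n)) (Nat.mul (nat_lit
    8192) (Nat.shiftRight m (nat_lit 2)))) fun b =>
    @Bool.rec (fun _ => Xs) ⟨⟨ql, qh, sl, ll, vl, vh⟩, ⟨wl, wh⟩, ⟨rl, rh⟩⟩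
      (frc (spP ll z a b) fun x => ⟨⟨ql, qh, sl, x, vl, vh⟩, ⟨wl, wh⟩, ⟨rl, rh⟩⟩)

    (prS C fl (Nat.mod (Nat.shiftRight m (nat_lit 1)) (nat_lit 2)) u z a b)
noncomputable def op3R (G : Gx) (B : Bx) (C : Cy) (ql qh sl ll vl vh wl wh rl rh kd z n m u τ fl : ℕ) :
    Xs :=
  bif Nat.beq kd 0 then frc (upF rl z (tlF sl (laF wl z) z u (laF rl z))) fun x =>
    ⟨⟨ql, qh, sl, ll, vl, vh⟩, ⟨wl, wh⟩, ⟨x, rh⟩⟩ else
  bif Nat.beq kd 1 then frc (upF rh z (thF sl (laF wl z) z u (laF rh z))) fun x =>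
    ⟨⟨ql, qh, sl, ll, vl, vh⟩, ⟨wl, wh⟩, ⟨rl, x⟩⟩ else
  bif Nat.beq kd 2 then
    bif Nat.ble τ 524288 && coverR ⟨ql, qh, sl, ll, vl, vh⟩ ⟨rl, rh⟩ z τ then
      frc (loF wh z τ) fun x => ⟨⟨ql, qh, sl, ll, vl, vh⟩, ⟨wl, x⟩, ⟨rl, rh⟩⟩
    else ⟨⟨ql, qh, sl, ll, vl, vh⟩, ⟨wl, wh⟩, ⟨rl, rh⟩⟩ else
  bif Nat.beq kd 5 then
    bif
    (Nat.beq (Nat.mod m (nat_lit 2)) (nat_lit 0)) then stF ql qh sl ll vl vh wl wh rl rh z else
    bif prM C sl fl z τ then frc (setM ll z τ) fun x => ⟨⟨ql, qh, sl, x, vl, vh⟩, ⟨wl, wh⟩, ⟨rl, rh⟩⟩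
    else ⟨⟨ql, qh, sl, ll, vl, vh⟩, ⟨wl, wh⟩, ⟨rl, rh⟩⟩ else
  bif Nat.beq kd 6 then
    bif
    (Nat.beq (Nat.mod m (nat_lit 2)) (nat_lit 0)) then frc (lmF H56 ql (lmF H56 sl (rL56 sl))) fun x =>
      ⟨⟨x, qh, sl, ll, vl, vh⟩, ⟨wl, wh⟩, ⟨rl, rh⟩⟩
    else opP C ql qh sl ll vl vh wl wh rl rh z n m u τ fl else
  bif Nat.beq m 1 then force
    (mxF vl (Nat.add (nat_lit 103923) (tbF (Nat.shiftRight (Nat.add (laF wh (nat_lit 0)) (nat_lit
    511)) (nat_lit 9)) (Nat.shiftRight (Nat.add (laF wh (nat_lit 28)) (nat_lit 511)) (nat_lit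
    9))))) fun x =>
    ⟨⟨ql, qh, sl, ll, x, vh⟩, ⟨wl, wh⟩, ⟨rl, rh⟩⟩ else
  bif volU G B z n m u τ then ⟨⟨ql, qh, sl, ll, vl, τ⟩, ⟨wl, wh⟩, ⟨rl, rh⟩⟩
  else ⟨⟨ql, qh, sl, ll, vl, vh⟩, ⟨wl, wh⟩, ⟨rl, rh⟩⟩
noncomputable def op3F (G : Gx) (B : Bx) (C : Cy) (ql qh sl ll vl vh wl wh rl rh kd z n m u τ fl : ℕ) :
    Xs :=
  @Bool.rec (fun _ => Xs) (@Bool.rec (fun _ => Xs)
      (op3R G B C ql qh sl ll vl vh wl wh rl rh kd z n m u τ fl)
      (frc (loF qh z (fhF z (srF qh wl rl rh n)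
        (srF qh wl rl rh m))) fun x =>
          ⟨⟨ql, x, sl, ll, vl, vh⟩, ⟨wl, wh⟩, ⟨rl, rh⟩⟩)
    (Nat.beq kd (nat_lit 3)))
    (@Bool.rec (fun _ => Xs) ⟨⟨ql, qh, sl, ll, vl, vh⟩, ⟨wl, wh⟩, ⟨rl, rh⟩⟩
      (@Bool.rec (fun _ => Xs)
        (forceS (sLo ql qh sl ll vl vh
    (Nat.beq m (nat_lit 1)) z τ) fun s' => ⟨s', ⟨wl, wh⟩, ⟨rl, rh⟩⟩)
        (frc (loF wh z τ) fun x => ⟨⟨ql, qh, sl, ll, vl, vh⟩, ⟨wl, x⟩, ⟨rl, rh⟩⟩)
    (Nat.ble (nat_lit 2) m))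
      (fcS B C fl u (srF qh wl rl rh n) (tgF rl rh m z τ)))
    (Nat.beq kd (nat_lit 4))
noncomputable def op3WF (G : Gx) (B : Bx) (C : Cy) (ql qh sl ll vl vh wl wh rl rh x : ℕ) : Xs :=
  force
    (Nat.mod (Nat.mod (Nat.shiftRight x (nat_lit 3)) (nat_lit 64)) (nat_lit 56)) fun z => force
    (Nat.mod (Nat.shiftRight x (nat_lit 10)) (nat_lit 128)) fun n => force
    (Nat.mod (Nat.shiftRight x (nat_lit 17)) (nat_lit 128)) fun m =>
    force
    (Nat.add (Nat.mod (Nat.shiftRight x (nat_lit 9)) (nat_lit 2)) (Nat.land (Nat.shiftRight x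
    (nat_lit 52)) (nat_lit 2))) (
    (op3F G B C ql qh sl ll vl vh wl wh rl rh (Nat.mod x (nat_lit 8)) z n m (Nat.mod
    (Nat.shiftRight x (nat_lit 24)) (nat_lit 256)) (Nat.mod (Nat.shiftRight x (nat_lit 32))
    (nat_lit 2097152))))
noncomputable def unX {α : Type} (k : ℕ → ℕ → ℕ → ℕ → ℕ → ℕ → ℕ → ℕ → ℕ → ℕ → α) (p : Xs) : α :=
  @Xs.rec (fun _ => α) (fun s w r => @St.rec (fun _ => α) (fun a b c d e f => @Wt.rec (fun _ => α)
    (fun u v => @Rt.rec (fun _ => α) (k a b c d e f u v) r) w) s) p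
noncomputable def ops3F (G : Gx) (B : Bx) (C : Cy) (n : ℕ) :
    ℕ → ℕ → ℕ → ℕ → ℕ → ℕ → ℕ → ℕ → ℕ → ℕ → ℕ → Xs :=
  Nat.rec (motive := fun _ => ℕ → ℕ → ℕ → ℕ → ℕ → ℕ → ℕ → ℕ → ℕ → ℕ → ℕ → Xs)
    (fun _ ql qh sl ll vl vh wl wh rl rh => ⟨⟨ql, qh, sl, ll, vl, vh⟩, ⟨wl, wh⟩, ⟨rl, rh⟩⟩)
    (fun _ ih d ql qh sl ll vl vh wl wh rl rh => frc
    (Nat.shiftRight d (nat_lit 64)) fun d' => unX (ih d')

    (op3WF G B C ql qh sl ll vl vh wl wh rl rh (Nat.land d (nat_lit 18446744073709551615)))) n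

/-! ### supports -/

noncomputable def sWl (ql qh sl ll vl vh wl wh z τ : ℕ) : St × Wt :=
  frc (raF wl z τ) fun x => (⟨ql, qh, sl, ll, vl, vh⟩, ⟨x, wh⟩)
noncomputable def sWh (ql qh sl ll vl vh wl wh z τ : ℕ) : St × Wt :=
  frc (loF wh z τ) fun x => (⟨ql, qh, sl, ll, vl, vh⟩, ⟨wl, x⟩)
noncomputable def op2F (G : Gx) (B : Bx) (ql qh sl ll vl vh wl wh kd z y i τ l t1 t2 : ℕ) (fl : Bool) :
    St × Wt :=
  bif Nat.beq kd 0 then forceS (sLo ql qh sl ll vl vh fl i (strip ⟨wl, wh⟩ fl z i)) fun s' =>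
    (s', ⟨wl, wh⟩) else
  bif Nat.beq kd 1 then sWl ql qh sl ll vl vh wl wh z (supp ⟨ql, qh, sl, ll, vl, vh⟩ z i) else
  bif Nat.beq kd 2 then bif cover ⟨ql, qh, sl, ll, vl, vh⟩ z τ then sWh ql qh sl ll vl vh wl wh z τ
    else (⟨ql, qh, sl, ll, vl, vh⟩, ⟨wl, wh⟩) else
  bif Nat.beq kd 3 then bif lensL ⟨wl, wh⟩ z y τ then sWl ql qh sl ll vl vh wl wh y τ
    else (⟨ql, qh, sl, ll, vl, vh⟩, ⟨wl, wh⟩) else
  bif Nat.beq kd 4 then bif lensH ⟨wl, wh⟩ z y τ then sWh ql qh sl ll vl vh wl wh y τ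
    else (⟨ql, qh, sl, ll, vl, vh⟩, ⟨wl, wh⟩) else
  bif width G B ⟨ql, qh, sl, ll, vl, vh⟩ ⟨wl, wh⟩ fl z τ l t1 t2 then sWh ql qh sl ll vl vh wl wh y τ
  else (⟨ql, qh, sl, ll, vl, vh⟩, ⟨wl, wh⟩)
noncomputable def op2WF (G : Gx) (B : Bx) (ql qh sl ll vl vh wl wh x : ℕ) : St × Wt :=
  force
    (Nat.mod (Nat.mod (Nat.shiftRight x (nat_lit 3)) (nat_lit 64)) (nat_lit 56)) fun z => force
    (Nat.mod (Nat.add z (nat_lit 28)) (nat_lit 56)) fun y => force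
    (Nat.mod (Nat.mod (Nat.shiftRight x (nat_lit 10)) (nat_lit 64)) (nat_lit 56)) fun i =>

    (op2F G B ql qh sl ll vl vh wl wh (Nat.mod x (nat_lit 8)) z y i (Nat.mod (Nat.shiftRight x
    (nat_lit 16)) (nat_lit 524288)) (Nat.mod (Nat.shiftRight x (nat_lit 40)) (nat_lit 65536))
    (Nat.mod (Nat.shiftRight x (nat_lit 64)) (nat_lit 4096)) (Nat.mod (Nat.shiftRight x (nat_lit
    80)) (nat_lit 4096)) (Nat.beq (Nat.mod (Nat.shiftRight x (nat_lit 9)) (nat_lit 2)) (nat_lit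
    1)))
noncomputable def unP {α : Type} (k : ℕ → ℕ → ℕ → ℕ → ℕ → ℕ → ℕ → ℕ → α) (p : St × Wt) : α :=
  @Prod.rec St Wt (fun _ => α) (fun s w => @St.rec (fun _ => α) (fun a b c d e f =>
    @Wt.rec (fun _ => α) (k a b c d e f) w) s) p
noncomputable def ops2F (G : Gx) (B : Bx) (n : ℕ) : ℕ → ℕ → ℕ → ℕ → ℕ → ℕ → ℕ → ℕ → ℕ → St × Wt :=
  Nat.rec (motive := fun _ => ℕ → ℕ → ℕ → ℕ → ℕ → ℕ → ℕ → ℕ → ℕ → St × Wt)
    (fun _ ql qh sl ll vl vh wl wh => (⟨ql, qh, sl, ll, vl, vh⟩, ⟨wl, wh⟩))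
    (fun _ ih d ql qh sl ll vl vh wl wh => frc
    (Nat.shiftRight d (nat_lit 128)) fun d' => unP (ih d')

    (op2WF G B ql qh sl ll vl vh wl wh (Nat.land d (nat_lit
    340282366920938463463374607431768211455)))) n

/-! ### rows -/

def cF2 (r E a b P M Q : ℕ) : ℕ :=
    (Nat.sub (Nat.add (Nat.mul (Nat.mul (nat_lit 12) P) r) (Nat.mul Q (Nat.add E b))) (Nat.add
    (Nat.add (Nat.add (Nat.mul (Nat.mul (nat_lit 12) M) r) (Nat.mul (Nat.mul (Nat.mul (nat_lit 6)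
    E) E) r)) (sdF P M)) (Nat.mul Q a)))
def cF (r E a b : ℕ) : ℕ :=
    (cF2 r E a b (Nat.add (Nat.add (Nat.mul a a) (Nat.mul b b)) (Nat.mul b E)) (Nat.add (Nat.mul a
    b) (Nat.mul a E)) (Nat.mul (Nat.mul (Nat.mul (nat_lit 2) E) a) b))
def aF (r E a b : ℕ) : ℕ :=
    (Nat.sub (Nat.add (Nat.add (Nat.mul (nat_lit 2) (sdF (Nat.mul (nat_lit 2) a) (Nat.add b E)))
    (Nat.mul (nat_lit 4) (Nat.add (Nat.add (Nat.mul a a) (Nat.mul b b)) (Nat.mul b E)))) (Nat.mul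
    (Nat.mul (nat_lit 4) E) b)) (Nat.add (Nat.mul (nat_lit 4) (Nat.add (Nat.mul a b) (Nat.mul a
    E))) (Nat.mul (nat_lit 24) r)))
def bF (r E a b : ℕ) : ℕ :=
    (Nat.sub (Nat.add (Nat.mul (nat_lit 2) (sdF (Nat.add (Nat.mul (nat_lit 2) b) E) a)) (Nat.mul
    (nat_lit 4) (Nat.add (Nat.add (Nat.mul a a) (Nat.mul b b)) (Nat.mul b E)))) (Nat.add (Nat.add
    (Nat.mul (nat_lit 4) (Nat.add (Nat.mul a b) (Nat.mul a E))) (Nat.mul (nat_lit 24) r)) (Nat.mul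
    (Nat.mul (nat_lit 4) E) a)))
def m4F (f : ℕ → ℕ → ℕ) (a0 a1 b0 b1 : ℕ) : ℕ :=
    (mxF (mxF (f a0 b0) (f a0 b1)) (mxF (f a1 b0) (f a1 b1)))
def kaF (r E a0 a1 b0 b1 : ℕ) : ℕ :=
    (Nat.add (Nat.div (Nat.add (Nat.add (Nat.mul (nat_lit 8) (m4F (cF r E) a0 a1 b0 b1)) (Nat.mul
    (sdF a1 a0) (m4F (aF r E) a0 a1 b0 b1))) (Nat.mul (sdF b1 b0) (m4F (bF r E) a0 a1 b0 b1)))
    (nat_lit 11258999068426240)) (nat_lit 1))
def rowB (z e : ℕ) : ℕ := rowT (ex z) (ey z) (Int.ofNat e) 0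
noncomputable def rc2 (z e k : ℕ) : ℕ :=
    (@Bool.rec (fun _ => ℕ) (nat_lit 0) (Nat.add (rowB z e) (Nat.shiftLeft k (nat_lit 1408)))
    (Nat.ble k (nat_lit 33554432)))
noncomputable def rcF (wl wh z e : ℕ) : ℕ :=
  force
    (Nat.mod (Nat.add z (nat_lit 28)) (nat_lit 56)) fun y =>

    (rc2 z e (kaF (Nat.mul (r2 z) (nat_lit 16777216)) (Nat.mul e (nat_lit 4096)) (laF wl z) (laF
    wh z) (laF wl y) (laF wh y)))
noncomputable def roF (wl wh th x : ℕ) : ℕ :=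
  @Bool.rec (fun _ => ℕ) (force
    (Nat.mod (Nat.mod (Nat.shiftRight x (nat_lit 1)) (nat_lit 64)) (nat_lit 56)) fun z => @Bool.rec (fun _ => ℕ)
      (force
    (Nat.mod (Nat.shiftRight x (nat_lit 7)) (nat_lit 64)) fun e => rcF wl wh z e) (rowS th z)
    (Nat.beq (Nat.mod (Nat.shiftRight x (nat_lit 13)) (nat_lit 2)) (nat_lit 1)))

    (row4 (Nat.mod (Nat.shiftRight x (nat_lit 1)) (nat_lit 16)) (Nat.mod (Nat.shiftRight x
    (nat_lit 7)) (nat_lit 16)) (Nat.beq (Nat.mod (Nat.shiftRight x (nat_lit 13)) (nat_lit 2))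
    (nat_lit 1)))
    (Nat.beq (Nat.mod x (nat_lit 2)) (nat_lit 0))
noncomputable def rowsF (wl wh th n : ℕ) : ℕ → ℕ :=
  Nat.rec (motive := fun _ => ℕ → ℕ) (fun _ => 0)
    (fun _ ih d => force
    (Nat.shiftRight (Nat.land d (nat_lit 18446744073709551615)) (nat_lit 32)) fun x =>

    (Nat.add (frc (Nat.shiftRight d (nat_lit 64)) ih) (Nat.mul (Nat.mod d (nat_lit 4294967296))
    (roF wl wh th x)))) n

/-! ### trees -/

noncomputable def chkF (G : Gx) (H : List (Bx × Xs)) (t : Tx) :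
    Bx → ℕ → ℕ → ℕ → ℕ → ℕ → ℕ → ℕ → ℕ → ℕ → ℕ → Bool :=
  Tx.rec (motive := fun _ => Bx → ℕ → ℕ → ℕ → ℕ → ℕ → ℕ → ℕ → ℕ → ℕ → ℕ → Bool)
    (fun ax x _ _ l r B ql qh sl ll vl vh wl wh rl rh => force x fun x' =>
      forceB (setHi B ax x') (fun B' => l B' ql qh sl ll vl vh wl wh rl rh) &&
        forceB (setLw B ax x') (fun B' => r B' ql qh sl ll vl vh wl wh rl rh))
    (fun i τ _ _ l r B ql qh sl ll vl vh wl wh rl rh => Nat.blt i 56 && Nat.ble τ 1048576 &&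
      frc (upF qh i τ) (fun x => l B ql x sl ll vl vh wl wh rl rh) &&
      frc (upF ql i τ) (fun x => r B x qh sl ll vl vh wl wh rl rh))
    (fun x _ _ l r B ql qh sl ll vl vh wl wh rl rh => force x fun x' =>
      l B ql qh sl ll vl x' wl wh rl rh && r B ql qh sl ll x' vh wl wh rl rh)
    (fun z τ _ _ l r B ql qh sl ll vl vh wl wh rl rh => Nat.blt z 56 && Nat.ble τ 524288 &&
      frc (upF wh z τ) (fun x => l B ql qh sl ll vl vh wl x rl rh) &&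
      frc (upF wl z τ) (fun x => r B ql qh sl ll vl vh x wh rl rh))
    (fun z m _ _ l r B ql qh sl ll vl vh wl wh rl rh => Nat.blt z 56 && Nat.blt m 56 &&
      frc (upF rh z m) (fun x => l B ql qh sl ll vl vh wl wh rl x) &&
      frc (upF rl z m) (fun x => r B ql qh sl ll vl vh wl wh x rh))
    (fun n d _ t B ql qh sl ll vl vh wl wh rl rh => okB B &&
      @St.rec (fun _ => Bool) (fun a b c d e f => t B a b c d e f wl wh rl rh)
        (opsF (mkC G B) n d ql qh sl ll vl vh))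
    (fun n d _ t B ql qh sl ll vl vh wl wh rl rh => okB B &&
      unP (fun a b c d e f u v => t B a b c d e f u v rl rh) (ops2F G B n d ql qh sl ll vl vh wl wh))
    (fun n d _ t B ql qh sl ll vl vh wl wh rl rh => okB B &&
      unX (t B) (ops3F G B (mkY G B) n d ql qh sl ll vl vh wl wh rl rh))
    (fun i _ ql qh _ _ vl vh _ _ _ _ => Nat.blt i 56 && Nat.ble (lane qh i) (lane ql i) ||
      Nat.blt 0 vh && Nat.blt vh vl)
    (fun z _ _ _ _ _ _ _ wl wh _ _ => Nat.blt z 56 && Nat.blt (lane wh z) (lane wl z))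
    (fun a b B _ _ _ _ _ _ _ _ _ _ => outB G B a b)
    (fun B _ _ _ _ _ _ _ _ _ _ => Nat.blt (B.a1 + G.dl) OO || Nat.blt (B.b1 + G.dl) OO)
    (fun c n d d0 d1 d2 d3 B ql qh sl ll vl vh wl wh _ _ => Nat.ble n 63 &&
      frc (rowsF wl wh G.th n d) fun A => leafF G B ⟨ql, qh, sl, ll, vl, vh⟩ c A d0 d1 d2 d3)
    (fun n B ql qh sl ll vl vh wl wh rl rh => match H[n]? with
      | some h => eqB B h.1 && eqS ⟨ql, qh, sl, ll, vl, vh⟩ h.2.s && eqW ⟨wl, wh⟩ h.2.w && eqR ⟨rl, rh⟩ h.2.r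
      | none => false) t

end Pool.Agent.P.MP_2e1554_gt.Chk
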