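import Pool.Agent.P.MP_2e1554_gt.IsoDefs

open MeasureTheory Set Finset Matrix Filter Topology Pointwise

namespace Pool.Agent.P.MP_2e1554_gt

variable {n : ℕ}

lemma reg_transpose (v : Fin (n + 1) → Fin n → ℝ) (t : ℝ) (x : Fin n → ℝ) (j : Fin (n + 1)) :
    ((vmat v)ᵀ *ᵥ ins 0 t x) j = t + v j ⬝ᵥ x := by
  simp only [mulVec, dotProduct, transpose_apply, vmat, of_apply]
  rw [Fin.sum_univ_succAbove _ 0]
  simp only [ins_same, ins_succAbove, one_mul]

lemma reg_gram (v : Fin (n + 1) → Fin n → ℝ) (i j : Fin (n + 1)) :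
    ((vmat v)ᵀ * vmat v) i j = 1 + v i ⬝ᵥ v j := reg_transpose v 1 (v j) i

/-- the regular simplex -/
theorem regular {c : Fin 4 → Fin 3 → ℝ} (h1 : ∀ i, c i ⬝ᵥ c i = 3 / 5)
    (h2 : ∀ i j, i ≠ j → c i ⬝ᵥ c j = -(1 / 5)) {s : ℝ} (hs : 0 < s) :
    AffineIndependent ℝ (fun i => (-5 * s) • c i) ∧
      (∀ x, (∀ i, c i ⬝ᵥ x ≤ s) → x ∈ convexHull ℝ (Set.range fun i => (-5 * s) • c i)) ∧
      volume.real (convexHull ℝ (Set.range fun i => (-5 * s) • c i)) =
        s ^ 3 * (40 * Real.sqrt 5 / 3) := by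
  obtain ⟨v, hv⟩ : ∃ v : Fin (3 + 1) → Fin 3 → ℝ, v = fun i => (-5 * s) • c i := ⟨_, rfl⟩
  rw [← hv]
  have hG : (vmat v)ᵀ * vmat v = (20 * s ^ 2) •
      (1 + Matrix.of fun _ _ : Fin (3 + 1) => (1 - 5 * s ^ 2) / (20 * s ^ 2)) := by
    ext i j
    rw [reg_gram, hv]
    simp only [smul_dotProduct, dotProduct_smul, smul_eq_mul, Matrix.smul_apply, Matrix.add_apply,
      of_apply, Matrix.one_apply]
    split_ifs with h
    · subst h
      rw [h1]
      field_simp
      ring
    · rw [h2 i j h]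
      field_simp
      ring
  have hd : (vmat v).det ^ 2 = (80 * Real.sqrt 5 * s ^ 3) ^ 2 := by
    have := congrArg det hG
    rw [det_mul, det_transpose, det_smul, det_one_add_const, Fintype.card_fin] at this
    rw [sq, this, mul_pow (80 * Real.sqrt 5), mul_pow 80, Real.sq_sqrt (by norm_num)]
    push_cast
    field_simp
    ring
  have hp : 0 < 80 * Real.sqrt 5 * s ^ 3 := by positivity
  have hd' : |(vmat v).det| = 80 * Real.sqrt 5 * s ^ 3 := by
    rw [← abs_of_pos hp]
    exact sq_eq_sq_iff_abs_eq_abs _ _ |>.1 hd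
  have hd0 : (vmat v).det ≠ 0 := abs_pos.1 (hd' ▸ hp)
  refine ⟨(affInd_iff v).2 hd0, fun x hx => ?_, ?_⟩
  · have hsum : ∑ i, c i = 0 := by
      rw [← dotProduct_self_eq_zero]
      simp only [Fin.sum_univ_four, add_dotProduct, dotProduct_add, h1]
      rw [h2 0 1 (by decide), h2 0 2 (by decide), h2 0 3 (by decide), h2 1 0 (by decide),
        h2 1 2 (by decide), h2 1 3 (by decide), h2 2 0 (by decide), h2 2 1 (by decide),
        h2 2 3 (by decide), h2 3 0 (by decide), h2 3 1 (by decide), h2 3 2 (by decide)]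
      norm_num
    have hsx : ∑ i, c i ⬝ᵥ x = 0 := by rw [← sum_dotProduct, hsum, zero_dotProduct]
    have hl : vmat v *ᵥ (fun i => (s - c i ⬝ᵥ x) / (4 * s)) = ins 0 1 x := by
      have hinj : Function.Injective ((vmat v)ᵀ).mulVec :=
        mulVec_injective_iff_isUnit.2 ((isUnit_iff_isUnit_det _).2
          (by rw [det_transpose]; exact Ne.isUnit hd0))
      apply hinj
      rw [mulVec_mulVec, hG]
      ext j
      rw [reg_transpose, smul_mulVec, add_mulVec, one_mulVec]
      have e : (Matrix.of (fun _ _ : Fin (3 + 1) => (1 - 5 * s ^ 2) / (20 * s ^ 2)) *ᵥ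
          fun i => (s - c i ⬝ᵥ x) / (4 * s)) j = (1 - 5 * s ^ 2) / (20 * s ^ 2) := by
        change ∑ i : Fin 4, (1 - 5 * s ^ 2) / (20 * s ^ 2) * ((s - c i ⬝ᵥ x) / (4 * s)) = _
        rw [← Finset.mul_sum, ← Finset.sum_div, Finset.sum_sub_distrib, hsx]
        simp only [Finset.sum_const, Finset.card_univ, Fintype.card_fin, nsmul_eq_mul]
        push_cast
        field_simp
        ring
      simp only [Pi.smul_apply, Pi.add_apply, smul_eq_mul, e, hv, smul_dotProduct]
      field_simp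
      ring
    rw [mem_simplex_iff hd0, ← hl, mulVec_mulVec, nonsing_inv_mul _ (Ne.isUnit hd0), one_mulVec]
    exact fun i => div_nonneg (sub_nonneg.2 (hx i)) (by positivity)
  · have := simplex_vol hd0
    rw [det_nonsing_inv, Ring.inverse_eq_inv', abs_inv, hd'] at this
    have h5 : 0 < Real.sqrt 5 := by positivity
    norm_num [Nat.factorial] at this
    field_simp at this
    linarith

theorem near_of_regular {η : ℝ} (hη : 0 < η) : ∃ κ : ℝ, 0 < κ ∧
    ∀ (K : Set (Fin 3 → ℝ)) (c : Fin 4 → Fin 3 → ℝ), (∀ x ∈ K, x ⬝ᵥ x ≤ 15) →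
      40 * Real.sqrt 5 / 3 ≤ volume.real K → (∀ i, ∀ x ∈ K, c i ⬝ᵥ x ≤ 1) →
      (∀ i, |c i ⬝ᵥ c i - 3 / 5| ≤ κ) → (∀ i j, i ≠ j → |c i ⬝ᵥ c j + 1 / 5| ≤ κ) → Near η K := by
  obtain ⟨δ, d0, d1⟩ : ∃ δ : ℝ, 0 < δ ∧ (1 + 12 * δ) ^ 3 < 1 + η := by
    have t0 : 0 < min η 1 := lt_min hη one_pos
    have t1 : min η 1 ≤ η := min_le_left _ _
    have t2 : min η 1 ≤ 1 := min_le_right _ _
    refine ⟨min η 1 / 96, by positivity, ?_⟩
    generalize min η 1 = t at t0 t1 t2
    nlinarith [mul_pos t0 t0, mul_le_mul_of_nonneg_left t2 (mul_pos t0 t0).le]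
  obtain ⟨F, hF⟩ : ∃ F : (Fin 4 → Fin 3 → ℝ) → ℝ, F = fun c =>
      ∑ i, ∑ j, |c i ⬝ᵥ c j - if i = j then 3 / 5 else -(1 / 5)| := ⟨_, rfl⟩
  have hFc : Continuous F := by
    rw [hF]
    refine continuous_finsetSum _ fun i _ => continuous_finsetSum _ fun j _ => ?_
    exact (((continuous_apply i).dotProduct (continuous_apply j)).sub continuous_const).abs
  have hF0 : ∀ c, 0 ≤ F c := fun c => by
    rw [hF]
    exact Finset.sum_nonneg fun i _ => Finset.sum_nonneg fun j _ => abs_nonneg _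
  have hS : IsCompact (Metric.closedBall (0 : Fin 4 → Fin 3 → ℝ) 2 ∩
      ⋂ z ∈ {z | F z = 0}, {c | δ ≤ dist c z}) :=
    (isCompact_closedBall _ _).inter_right (isClosed_biInter fun z _ =>
      isClosed_le continuous_const (continuous_id.dist continuous_const))
  obtain ⟨a, a0, a1⟩ := hS.exists_forall_le' hFc.continuousOn (a := 0) fun c hc =>
    (hF0 c).lt_of_ne fun h => by
      have : δ ≤ dist c c := Set.mem_iInter₂.1 hc.2 c h.symm
      rw [dist_self] at this
      linarith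
  refine ⟨min (a / 17) 1, lt_min (by positivity) one_pos, fun K c k1 k2 k3 k4 k5 => ?_⟩
  have m1 : min (a / 17) 1 ≤ a / 17 := min_le_left _ _
  have m2 : min (a / 17) 1 ≤ 1 := min_le_right _ _
  have hsq : ∀ (x : Fin 3 → ℝ) (k : Fin 3), x k * x k ≤ x ⬝ᵥ x := fun x k =>
    Finset.single_le_sum (f := fun k => x k * x k) (fun k _ => mul_self_nonneg _)
      (Finset.mem_univ k)
  have b1 : c ∈ Metric.closedBall (0 : Fin 4 → Fin 3 → ℝ) 2 := by
    rw [mem_closedBall_zero_iff, pi_norm_le_iff_of_nonneg (by norm_num)]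
    intro i
    rw [pi_norm_le_iff_of_nonneg (by norm_num)]
    intro k
    have := hsq (c i) k
    have := (abs_le.1 (k4 i)).2
    exact abs_le_of_sq_le_sq' (by nlinarith) (by norm_num) |> abs_le.2
  have b2 : F c < a := by
    have : F c ≤ ∑ _i : Fin 4, ∑ _j : Fin 4, a / 17 := by
      rw [hF]
      refine Finset.sum_le_sum fun i _ => Finset.sum_le_sum fun j _ => ?_
      split_ifs with h
      · subst h
        exact (k4 i).trans m1
      · rw [sub_neg_eq_add]
        exact (k5 i j h).trans m1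
    simp only [Finset.sum_const, Finset.card_univ, Fintype.card_fin, nsmul_eq_mul] at this
    push_cast at this
    linarith
  obtain ⟨z, z0, z1⟩ : ∃ z, F z = 0 ∧ dist c z < δ := by
    by_contra h
    push Not at h
    exact absurd (a1 c ⟨b1, Set.mem_iInter₂.2 fun z hz => h z hz⟩) (not_le.2 b2)
  have z2 : ∀ i j, z i ⬝ᵥ z j = if i = j then 3 / 5 else -(1 / 5) := by
    intro i j
    rw [hF] at z0
    have := (Finset.sum_eq_zero_iff_of_nonneg fun j _ => abs_nonneg _).1
      ((Finset.sum_eq_zero_iff_of_nonneg fun i _ => Finset.sum_nonneg fun j _ =>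
        abs_nonneg _).1 z0 i (Finset.mem_univ _)) j (Finset.mem_univ _)
    exact sub_eq_zero.1 (abs_eq_zero.1 this)
  obtain ⟨r1, r2, r3⟩ := regular (c := z) (fun i => by rw [z2, if_pos rfl])
    (fun i j h => by rw [z2, if_neg h]) (s := 1 + 12 * δ) (by positivity)
  refine ⟨_, r1, fun x hx => r2 x fun i => ?_, ?_⟩
  · have e : z i ⬝ᵥ x = c i ⬝ᵥ x + ∑ k, (z i k - c i k) * x k := by
      simp only [dotProduct, sub_mul, Finset.sum_sub_distrib]
      ring
    have : ∑ k, (z i k - c i k) * x k ≤ ∑ _k : Fin 3, δ * 4 := by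
      refine Finset.sum_le_sum fun k _ => (le_abs_self _).trans ?_
      rw [abs_mul]
      refine mul_le_mul ?_ ?_ (abs_nonneg _) d0.le
      · rw [abs_sub_comm]
        exact ((dist_le_pi_dist (c i) (z i) k).trans ((dist_le_pi_dist c z i).trans z1.le) :)
      · have := hsq x k
        have := k1 x hx
        exact abs_le_of_sq_le_sq' (by nlinarith) (by norm_num) |> abs_le.2
    simp only [Finset.sum_const, Finset.card_univ, Fintype.card_fin, nsmul_eq_mul] at this
    push_cast at this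
    have := k3 i x hx
    linarith
  · rw [r3]
    have : 0 < 40 * Real.sqrt 5 / 3 := by positivity
    nlinarith

end Pool.Agent.P.MP_2e1554_gt
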