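import Pool.Agent.P.MP_2e1554_gt.IsoAlgE
import Pool.Agent.P.MP_2e1554_gt.IsoDet
import Pool.Agent.P.MP_2e1554_gt.IsoFin
import Pool.Agent.P.MP_2e1554_gt.IsoFin2
import Pool.Agent.P.MP_2e1554_gt.IsoMain
import Pool.Agent.P.MP_2e1554_gt.IsoReg

open MeasureTheory Set Finset Matrix Filter Topology Pointwise

namespace Pool.Agent.P.MP_2e1554_gt

variable {n : ℕ}

lemma fin3_wt_lower {w d N : ℝ} (hw : 0 < w) (h1 : N ≤ 9 / 10)
    (hd : d ≤ 4 * w ^ 5) (h : 125 / 27 * (1 - 38 / 100 * N) ^ 2 ≤ (12 * w)⁻¹ ^ 3 * d) :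
    20 * Real.sqrt 5 * (1 - 38 / 100 * N) ≤ w := by
  have e : (12 * w)⁻¹ ^ 3 * (4 * w ^ 5) = w ^ 2 / 432 := by
    field_simp
    norm_num
  have h2 : (12 * w)⁻¹ ^ 3 * d ≤ w ^ 2 / 432 := by
    rw [← e]
    exact mul_le_mul_of_nonneg_left hd (by positivity)
  have h3 : 2000 * (1 - 38 / 100 * N) ^ 2 ≤ w ^ 2 := by linarith
  have h5 : 0 ≤ 1 - 38 / 100 * N := by linarith
  have h7 : (20 * Real.sqrt 5 * (1 - 38 / 100 * N)) ^ 2 = 2000 * (1 - 38 / 100 * N) ^ 2 := by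
    rw [mul_pow, mul_pow, Real.sq_sqrt (by norm_num)]
    ring
  refine (pow_le_pow_iff_left₀ (by positivity) hw.le two_ne_zero).1 ?_
  rw [h7]
  linarith

/-- output of the global step -/
def Big3 (A : Finset (Fin 3 → ℝ)) (c : Fin 4 → Fin 3 → ℝ) : Prop :=
  Function.Injective c ∧ (∀ i, c i ∈ A) ∧ (∀ i, 0 < wt A (c i)) ∧
    (1 - 88 / 1000) * (6 * volume.real (poly A)) ≤ ∑ i, wt A (c i) ∧
    ∑ k ∈ A, wt A k / (6 * volume.real (poly A)) * Nm ((12 * wt A k)⁻¹ • cm2 A k) -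
      ∑ i, wt A (c i) / (6 * volume.real (poly A)) * Nm ((12 * wt A (c i))⁻¹ • cm2 A (c i)) ≤
      278 / 1000 - 3 / 2 * (1 - ∑ i, wt A (c i) / (6 * volume.real (poly A)))

/-- the local step for a critical polytope -/
theorem crit_local3 {A : Finset (Fin 3 → ℝ)} (hA : Iso (poly A)) (hc : Crit A)
    {c : Fin 4 → Fin 3 → ℝ} (hB : Big3 A c) :
    ∃ τ : ℝ, 0 ≤ τ ∧ τ ≤ 88 / 1000 ∧
      40 * Real.sqrt 5 / 3 * ((1 - 2 * τ + 4 * τ ^ 2) + τ / 100) ≤
        volume.real (poly A) * (1 - 2 * τ + 4 * τ ^ 2) ∧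
      (∀ i, |c i ⬝ᵥ c i - 3 / 5| ≤ 40 * τ) ∧ ∀ i j, i ≠ j → |c i ⬝ᵥ c j + 1 / 5| ≤ 40 * τ := by
  obtain ⟨hinj, hm, hpos, hbig, hη⟩ := hB
  have hV := hA.toBody.vol_pos
  have hb := hA.cpt.isBounded
  have hsw := sum_wt_three hA
  have s1 := fun i => sum_cm1 (n := 3) (by norm_num) hA i
  have s2 := fun i j => sum_cm2 (n := 3) (by norm_num) hA i j
  have s3 := fun i j => sum_a_cm1 (n := 3) (by norm_num) hA i j
  have s4 := fun l i j => sum_a_cm2 (n := 3) (by norm_num) hA l i j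
  have hfac : ∀ a ∈ A, a ⬝ᵥ a ≤ 3 / 5 := fun a ha => hA.facet_three fun x hx => hx a ha
  have hdet := fun i => det_cm2 hA (hm i)
  have hq := fun i => wt_le_quarter hA hc (hm i)
  generalize volume.real (poly A) = V at *
  have h6V : 0 < 6 * V := by positivity
  have hτ : (1 - ∑ i, wt A (c i) / (6 * V)) * (6 * V) = 6 * V - (6 * V - (6 * V - ∑ i, wt A (c i))) := by
    rw [← Finset.sum_div]
    field_simp
    ring
  have hτ1 : 1 - ∑ i, wt A (c i) / (6 * V) ≤ 88 / 1000 := by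
    refine le_of_mul_le_mul_right ?_ h6V
    rw [hτ]
    linarith
  have hf : ∀ k ∈ A, wt A k / (6 * V) ≠ 0 → k ⬝ᵥ k ≤ 3 / 5 ∧
      ((12 * wt A k)⁻¹ • cm2 A k).PosSemidef ∧ ((12 * wt A k)⁻¹ • cm2 A k).trace = 5 ∧
      ((12 * wt A k)⁻¹ • cm2 A k) *ᵥ k = (3 * wt A k)⁻¹ • cm1 A k ∧
      k ⬝ᵥ ((3 * wt A k)⁻¹ • cm1 A k) = 1 := fun k hk hμ => by
    have h0 : wt A k ≠ 0 := fun h => hμ (by simp [h])
    have hw : 0 < wt A k := lt_of_le_of_ne (wt_nonneg A k) (Ne.symm h0)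
    refine ⟨hfac k hk, (cm2_psd hb hk).smul (by positivity), ?_, ?_, ?_⟩
    · rw [Matrix.trace_smul, cm2_trace hb hc hk, smul_eq_mul]
      push_cast
      field_simp
      norm_num
    · rw [Matrix.smul_mulVec, cm2_mulVec hb hk, smul_smul]
      congr 1
      push_cast
      field_simp
      norm_num
    · rw [dotProduct_smul, dot_cm1 hb hk, smul_eq_mul]
      push_cast
      field_simp
  have hμc : ∀ i, wt A (c i) / (6 * V) ≠ 0 := fun i => (div_pos (hpos i) h6V).ne'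
  obtain ⟨r0, ⟨r1, r1', r1''⟩, r2⟩ := alg_local3 A (fun k => wt A k / (6 * V)) (fun k => k)
    (fun k => (3 * wt A k)⁻¹ • cm1 A k) (fun k => (12 * wt A k)⁻¹ • cm2 A k) c hinj hm
    hμc (fun k _ => div_nonneg (wt_nonneg A k) h6V.le)
    (by rw [← Finset.sum_div, hsw, div_self h6V.ne']) rfl hτ1 hη hf
    (fun k hk hμ k' hk' => by
      have h0 : wt A k ≠ 0 := fun h => hμ (by simp [h])
      have hw : 0 < 3 * wt A k := by
        have := lt_of_le_of_ne (wt_nonneg A k) (Ne.symm h0)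
        positivity
      have := dot_cm1_le hb hk hk'
      rw [dotProduct_smul, smul_eq_mul, inv_mul_le_iff₀ hw, mul_one]
      exact_mod_cast this)
    (fun j => by
      have := sum_wt_dot (n := 3) (by norm_num) hb (Pi.single j 1)
      simp only [dotProduct_single, mul_one] at this
      simp only [div_mul_eq_mul_div]
      rw [← Finset.sum_div, this, zero_div])
    (fun i => by
      rw [Finset.sum_congr rfl fun k hk => fin_scale1 hb hV hk i, ← Finset.mul_sum, s1, mul_zero])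
    (fun i j => by
      have e : ∀ k ∈ A, wt A k / (6 * V) * (((3 * wt A k)⁻¹ • cm1 A k) i * k j) =
          (18 * V)⁻¹ * (cm1 A k i * k j) := fun k hk => by
        rw [← mul_assoc, fin_scale1 hb hV hk i, mul_assoc]
      rw [Finset.sum_congr rfl e, ← Finset.mul_sum, s3]
      split_ifs
      · norm_num [Nat.factorial]
        field_simp
        norm_num
      · simp)
    (fun i j => by
      rw [Finset.sum_congr rfl fun k hk => fin_scale2 hb hV hk i j, ← Finset.mul_sum, s2]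
      split_ifs
      · norm_num [Nat.factorial]
        field_simp
        norm_num
      · simp)
    (fun l i j => by
      have e : ∀ k ∈ A, wt A k / (6 * V) * (k l * ((12 * wt A k)⁻¹ • cm2 A k) i j) =
          (72 * V)⁻¹ * (k l * cm2 A k i j) := fun k hk => by
        rw [mul_left_comm, fin_scale2 hb hV hk i j, mul_left_comm]
      rw [Finset.sum_congr rfl e, ← Finset.mul_sum, s4, mul_zero])
  have hs5 : 0 < Real.sqrt 5 := by positivity
  obtain ⟨e1, e2⟩ := alg_end3 (μ := fun i => wt A (c i) / (6 * V))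
    (N := fun i => Nm ((12 * wt A (c i))⁻¹ • cm2 A (c i)))
    (v := V / (40 * Real.sqrt 5 / 3)) r0 hτ1 (by positivity) rfl
    (fun i => by rw [div_le_iff₀ h6V]; linarith [hq i]) (fun i => Nm_nonneg _) r1 r1' r1''
  have r0' : 0 ≤ 21 / 17 * (1 - ∑ i, wt A (c i) / (6 * V)) := by linarith
  have hN : ∀ i, ∑ j, ∑ l,
      (3 / 5 * ((12 * wt A (c i))⁻¹ • cm2 A (c i)) j l - if j = l then 1 else 0) ^ 2 ≤
        (17 * (21 / 17 * (1 - ∑ i, wt A (c i) / (6 * V)))) ^ 2 := fun i =>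
    (e1 i).2.trans (le_of_eq (by ring))
  refine ⟨_, r0, hτ1, ?_, fun i => ?_, fun i j hij => ?_⟩
  · have h1 := e2 fun i => by
      obtain ⟨-, f2, f3, -⟩ := hf _ (hm i) (hμc i)
      have h2 := alg_det3 (algB_symm f2) f3 (e1 i).1
      rw [Matrix.det_smul, Fintype.card_fin] at h2
      have h3 := fin3_wt_lower (hpos i) (e1 i).1 (hdet i) h2
      have h4 : 4 * (wt A (c i) / (6 * V)) * (V / (40 * Real.sqrt 5 / 3)) =
          wt A (c i) / (20 * Real.sqrt 5) := by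
        field_simp
        ring
      rw [h4, le_div_iff₀ (by positivity)]
      linarith
    have hT : 0 < 40 * Real.sqrt 5 / 3 := by positivity
    generalize 1 - ∑ i, wt A (c i) / (6 * V) = τ at *
    generalize 40 * Real.sqrt 5 / 3 = vT at *
    rw [div_mul_eq_mul_div V, le_div_iff₀ hT] at h1
    linarith
  · obtain ⟨f1, -, -, f4, f5⟩ := hf _ (hm i) (hμc i)
    have b := abs_le.1 (algB_bil _ (c i) (c i) r0' (hN i) f1 f1)
    have e := fin2_ma f4 (c i)
    rw [dotProduct_comm, f5] at e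
    exact abs_le.2 ⟨by linarith [b.1, b.2], by linarith [b.1, b.2]⟩
  · obtain ⟨f1, -, -, f4, -⟩ := hf _ (hm i) (hμc i)
    obtain ⟨g1, -⟩ := hf _ (hm j) (hμc j)
    have b := abs_le.1 (algB_bil _ (c j) (c i) r0' (hN i) g1 f1)
    have e := fin2_ma f4 (c j)
    have c4 := abs_le.1 (r2 i j hij)
    simp only [e] at c4
    exact abs_le.2 ⟨by linarith [b.1, b.2, c4.1, c4.2], by linarith [b.1, b.2, c4.1, c4.2]⟩

theorem fin_lower3 {ε : ℝ} (hε : 0 < ε)
    (H : ∀ A : Finset (Fin 3 → ℝ), Iso (poly A) → Crit A →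
      volume.real (poly A) ^ 2 ≤ 8000 / 9 + ε →
        ∃ c : Fin 4 → Fin 3 → ℝ, Big3 A c)
    {A : Finset (Fin 3 → ℝ)} (hA : Iso (poly A)) (hc : Crit A) :
    40 * Real.sqrt 5 / 3 ≤ volume.real (poly A) := by
  by_contra hlt
  rw [not_le] at hlt
  have hV := hA.toBody.vol_pos
  have hsq := vT_sq
  obtain ⟨c, hB⟩ := H A hA hc (by nlinarith)
  obtain ⟨τ, t0, t1, t2, -⟩ := crit_local3 hA hc hB
  generalize volume.real (poly A) = V at *
  generalize 40 * Real.sqrt 5 / 3 = vT at *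
  have h1 : V * (1 - 2 * τ + 4 * τ ^ 2) < vT * (1 - 2 * τ + 4 * τ ^ 2) :=
    mul_lt_mul_of_pos_right hlt (by nlinarith [sq_nonneg τ])
  have h2 : 0 ≤ vT * τ := mul_nonneg (hV.trans hlt).le t0
  linarith

theorem fin_near3 {ε : ℝ} (hε : 0 < ε)
    (H : ∀ A : Finset (Fin 3 → ℝ), Iso (poly A) → Crit A →
      volume.real (poly A) ^ 2 ≤ 8000 / 9 + ε →
        ∃ c : Fin 4 → Fin 3 → ℝ, Big3 A c)
    {η : ℝ} (hη : 0 < η) : ∃ ε' : ℝ, 0 < ε' ∧
    ∀ A : Finset (Fin 3 → ℝ), Iso (poly A) → Crit A →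
      volume.real (poly A) ^ 2 ≤ 8000 / 9 + ε' → Near η (poly A) := by
  obtain ⟨κ, hκ, Hreg⟩ := near_of_regular hη
  refine ⟨min ε (κ / 4000), by positivity, fun A hA hc hV2 => ?_⟩
  have m1 : min ε (κ / 4000) ≤ ε := min_le_left _ _
  have m2 : min ε (κ / 4000) ≤ κ / 4000 := min_le_right _ _
  have hlow := fin_lower3 hε H hA hc
  have hsq := vT_sq
  have hvT := one_le_vT
  obtain ⟨c, hB⟩ := H A hA hc (by linarith)
  obtain ⟨τ, t0, t1, t2, t3, t4⟩ := crit_local3 hA hc hB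
  have hτ : 40 * τ ≤ κ := by
    generalize volume.real (poly A) = V at *
    generalize 40 * Real.sqrt 5 / 3 = vT at *
    have h5 : V - vT ≤ κ / 4000 := by nlinarith
    have h6 : (V - vT) * (1 - 2 * τ + 4 * τ ^ 2) ≤ (V - vT) * 1 :=
      mul_le_mul_of_nonneg_left (by nlinarith) (by linarith)
    have h7 : 1 * τ ≤ vT * τ := mul_le_mul_of_nonneg_right hvT t0
    linarith
  refine Hreg _ c (fun x hx => ?_) hlow (fun i x hx => hx _ (hB.2.1 i))
    (fun i => (t3 i).trans hτ) fun i j hij => (t4 i j hij).trans hτ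
  have := hA.rad hx
  norm_num at this
  exact this

end Pool.Agent.P.MP_2e1554_gt
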