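import Pool.Agent.P.MP_2e1554_gt.IsoPoly
import Pool.Agent.P.MP_2e1554_gt.IsoTab

/-! The nodes and the gauge. -/

open MeasureTheory Set Finset

namespace Pool.Agent.P.MP_2e1554_gt.Chk

theorem dt_en (i j : ℕ) : dt (en i) (en j) = (det i j : ℝ) / 576 := by
  simp only [dt, en, det, Matrix.cons_val_zero, Matrix.cons_val_one, Matrix.cons_val_fin_one]
  push_cast
  ring

theorem en_56 : en 56 = en 0 ∧ en 57 = en 1 := by
  obtain ⟨h1, h2, h3, h4⟩ := ex_per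
  constructor
  · rw [en, en, h1, h2]
  · rw [en, en, h3, h4]

private theorem en_anti {i : ℕ} (hi : i < 30) : en (i + 28) = -en i := by
  obtain ⟨h1, h2⟩ := ex_anti i hi
  rw [en, en, h1, h2]
  funext j
  fin_cases j
  · show ((-ex i : ℤ) : ℝ) / 24 = -((ex i : ℝ) / 24)
    push_cast
    ring
  · show ((-ey i : ℤ) : ℝ) / 24 = -((ey i : ℝ) / 24)
    push_cast
    ring

theorem ep_anti {i : ℕ} (hi : i < 28) (x : ℝ) : ep (i + 28) x = -ep i x := by
  rw [ep, ep, show i + 28 + 1 = i + 1 + 28 by ring, en_anti (by omega), en_anti (by omega)]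
  module

private theorem ep_c0 (i : ℕ) (x : ℝ) :
    ep i x 0 = ((1 - x) * (ex i : ℝ) + x * (ex (i + 1) : ℝ)) / 24 := by
  show (1 - x) * ((ex i : ℝ) / 24) + x * ((ex (i + 1) : ℝ) / 24) = _
  ring

private theorem ep_c1 (i : ℕ) (x : ℝ) :
    ep i x 1 = ((1 - x) * (ey i : ℝ) + x * (ey (i + 1) : ℝ)) / 24 := by
  show (1 - x) * ((ey i : ℝ) / 24) + x * ((ey (i + 1) : ℝ) / 24) = _
  ring

private theorem ep_low {i : ℕ} (hi : i < 56) (x : ℝ) : 1 ≤ ep i x 0 ^ 2 + ep i x 1 ^ 2 := by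
  have h0 := ep_c0 i x
  have h1 := ep_c1 i x
  generalize ep i x 0 = p at h0 ⊢
  generalize ep i x 1 = q at h1 ⊢
  rcases ex_line i hi with ⟨a, b⟩ | ⟨a, b⟩ | ⟨a, b⟩ | ⟨a, b⟩ | ⟨a, b⟩ | ⟨a, b⟩ | ⟨a, b⟩ | ⟨a, b⟩
  · have : p = 1 := by rw [h0, a, b]; push_cast; ring
    nlinarith [sq_nonneg q]
  · have : p = -1 := by rw [h0, a, b]; push_cast; ring
    nlinarith [sq_nonneg q]
  · have : q = 1 := by rw [h1, a, b]; push_cast; ring
    nlinarith [sq_nonneg p]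
  · have : q = -1 := by rw [h1, a, b]; push_cast; ring
    nlinarith [sq_nonneg p]
  · have a' : (ex i : ℝ) + ey i = 36 := by exact_mod_cast a
    have b' : (ex (i + 1) : ℝ) + ey (i + 1) = 36 := by exact_mod_cast b
    have : p + q = 3 / 2 := by rw [h0, h1]; linear_combination (1 - x) / 24 * a' + x / 24 * b'
    nlinarith [sq_nonneg (p - q)]
  · have a' : (ex i : ℝ) + ey i = -36 := by exact_mod_cast a
    have b' : (ex (i + 1) : ℝ) + ey (i + 1) = -36 := by exact_mod_cast b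
    have : p + q = -(3 / 2) := by rw [h0, h1]; linear_combination (1 - x) / 24 * a' + x / 24 * b'
    nlinarith [sq_nonneg (p - q)]
  · have a' : (ex i : ℝ) - ey i = 36 := by exact_mod_cast a
    have b' : (ex (i + 1) : ℝ) - ey (i + 1) = 36 := by exact_mod_cast b
    have : p - q = 3 / 2 := by rw [h0, h1]; linear_combination (1 - x) / 24 * a' + x / 24 * b'
    nlinarith [sq_nonneg (p + q)]
  · have a' : (ex i : ℝ) - ey i = -36 := by exact_mod_cast a
    have b' : (ex (i + 1) : ℝ) - ey (i + 1) = -36 := by exact_mod_cast b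
    have : p - q = -(3 / 2) := by rw [h0, h1]; linear_combination (1 - x) / 24 * a' + x / 24 * b'
    nlinarith [sq_nonneg (p + q)]

private theorem ep_dot (i : ℕ) (x : ℝ) : ep i x ⬝ᵥ ep i x = ep i x 0 ^ 2 + ep i x 1 ^ 2 := by
  simp only [dotProduct, Fin.sum_univ_two]
  ring

theorem ep_norm {i : ℕ} (hi : i < 56) {x : ℝ} (hx : x ∈ Icc (0 : ℝ) 1) :
    1 ≤ ep i x ⬝ᵥ ep i x ∧ ep i x ⬝ᵥ ep i x ≤ 5 / 4 := by
  rw [ep_dot]
  refine ⟨ep_low hi x, ?_⟩
  have a : (ex i : ℝ) ^ 2 + (ey i : ℝ) ^ 2 ≤ 720 := by exact_mod_cast ex_norm i (by omega)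
  have b : (ex (i + 1) : ℝ) ^ 2 + (ey (i + 1) : ℝ) ^ 2 ≤ 720 := by
    exact_mod_cast ex_norm (i + 1) (by omega)
  rw [ep_c0, ep_c1]
  generalize (ex i : ℝ) = p at a ⊢
  generalize (ey i : ℝ) = q at a ⊢
  generalize (ex (i + 1) : ℝ) = r at b ⊢
  generalize (ey (i + 1) : ℝ) = t at b ⊢
  have h1 : 0 ≤ 1 - x := sub_nonneg.2 hx.2
  have h2 := mul_le_mul_of_nonneg_left a h1
  have h3 := mul_le_mul_of_nonneg_left b hx.1
  have h4 : 0 ≤ x * (1 - x) * ((p - r) ^ 2 + (q - t) ^ 2) :=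
    mul_nonneg (mul_nonneg hx.1 h1) (add_nonneg (sq_nonneg _) (sq_nonneg _))
  have h5 : (((1 - x) * p + x * r) / 24) ^ 2 + (((1 - x) * q + x * t) / 24) ^ 2 =
      ((1 - x) * (p ^ 2 + q ^ 2) + x * (r ^ 2 + t ^ 2) -
        x * (1 - x) * ((p - r) ^ 2 + (q - t) ^ 2)) / 576 := by ring
  rw [h5]
  linarith

theorem ep_ne {i : ℕ} (hi : i < 56) (x : ℝ) : ep i x ≠ 0 := by
  intro h
  have h1 := ep_low hi x
  rw [h] at h1
  norm_num at h1

theorem ep_zero (i : ℕ) : ep i 0 = en i := by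
  rw [ep, sub_zero, one_smul, zero_smul, add_zero]

theorem ep_one (i : ℕ) : ep i 1 = en (i + 1) := by
  rw [ep, sub_self, one_smul, zero_smul, zero_add]

/-- from `Iso.gauge_sq` -/
theorem gauge_rng {K : Set (Fin 2 → ℝ)} (hK : Iso K) {i : ℕ} (hi : i < 56) {x : ℝ}
    (hx : x ∈ Icc (0 : ℝ) 1) : 6 / 17 < gauge K (ep i x) ∧ gauge K (ep i x) ≤ 4 / 5 := by
  obtain ⟨h1, h2⟩ := ep_norm hi hx
  obtain ⟨h3, h4⟩ := hK.gauge_sq (ep i x)
  have h5 : 0 ≤ gauge K (ep i x) := gauge_nonneg _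
  generalize gauge K (ep i x) = g at h3 h4 h5 ⊢
  constructor
  · by_contra h
    have h' := not_lt.1 h
    nlinarith
  · by_contra h
    have h' := not_le.1 h
    nlinarith

theorem grid_ex {K : Set (Fin 2 → ℝ)} (hK : Iso K) {i : ℕ} (hi : i < 56) {x : ℝ}
    (hx : x ∈ Icc (0 : ℝ) 1) : ∃ k < 19, ∃ l ∈ Ico (0 : ℝ) 1, sp K i x = (15 + (k : ℕ) + l) / 12 := by
  obtain ⟨h1, h2⟩ := gauge_rng hK hi hx
  have h0 : 0 < gauge K (ep i x) := lt_trans (by norm_num) h1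
  have h3 : 5 / 4 ≤ sp K i x := by
    rw [sp, le_inv_comm₀ (by norm_num) h0]
    exact h2.trans (by norm_num)
  have h4 : sp K i x < 17 / 6 := by
    rw [sp, inv_lt_comm₀ h0 (by norm_num)]
    exact lt_of_le_of_lt (by norm_num) h1
  generalize sp K i x = t at h3 h4 ⊢
  have h5 : 0 ≤ 12 * t - 15 := by linarith
  refine ⟨⌊12 * t - 15⌋₊, ?_, 12 * t - 15 - ⌊12 * t - 15⌋₊, ⟨?_, ?_⟩, by ring⟩
  · rw [Nat.floor_lt h5]
    push_cast
    linarith
  · linarith [Nat.floor_le h5]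
  · linarith [Nat.lt_floor_add_one (12 * t - 15)]

private theorem en_succ {i : ℕ} (hi : i < 56) : en (i + 1) = en ((i + 1) % 56) := by
  rcases Nat.lt_or_ge (i + 1) 56 with h | h
  · rw [Nat.mod_eq_of_lt h]
  · obtain rfl : i = 55 := by omega
    exact en_56.1

/-- the active lanes around a point of a sector -/
theorem act_of {s : St} {K : Set (Fin 2 → ℝ)} (hK : Iso K) (hs : StOK s K) {i k : ℕ} (hi : i < 56)
    {x l : ℝ} (hx : x ∈ Icc (0 : ℝ) 1) (hl : l ∈ Ico (0 : ℝ) 1) (h : sp K i x = (15 + k + l) / 12)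
    {a b : ℕ} (ha : a < 2) (hb : b < 2) : Act s (k + a) ((i + b) % 56) := by
  have h0 : 0 < gauge K (ep i x) := hK.gauge_pos (ep_ne hi x)
  have hk : (0 : ℝ) ≤ k := Nat.cast_nonneg k
  have hg : gauge K (ep i x) * (15 + k + l) = 12 := by
    have h1 : gauge K (ep i x) * sp K i x = 1 := mul_inv_cancel₀ h0.ne'
    rw [h] at h1
    linarith
  have q1 := hs.qh i hi
  have q2 := hs.qh ((i + 1) % 56) (Nat.mod_lt _ (by norm_num))
  rw [← en_succ hi] at q2
  have q3 : gauge K (ep i x) ≤ (1 - x) * gauge K (en i) + x * gauge K (en (i + 1)) :=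
    hK.gauge_comb _ _ (sub_nonneg.2 hx.2) hx.1
  have q4 := hs.sl i hi x hx
  have up : ∀ M : ℕ, dg s.qh i ≤ M → dg s.qh ((i + 1) % 56) ≤ M →
      12 * 2 ^ 20 < M * (16 + (k + a)) := by
    intro M m1 m2
    have m1' : (dg s.qh i : ℝ) ≤ M := by exact_mod_cast m1
    have m2' : (dg s.qh ((i + 1) % 56) : ℝ) ≤ M := by exact_mod_cast m2
    have e1 := mul_le_mul_of_nonneg_left (q1.trans m1') (sub_nonneg.2 hx.2)
    have e2 := mul_le_mul_of_nonneg_left (q2.trans m2') hx.1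
    have e3 : 2 ^ 20 * gauge K (ep i x) ≤ M := by nlinarith
    have e4 : (0 : ℝ) < M := lt_of_lt_of_le (by positivity) e3
    have e5 : (15 + k + l : ℝ) < 16 + (k + a) := by
      have : (0 : ℝ) ≤ a := Nat.cast_nonneg a
      linarith [hl.2]
    have e6 : (12 * 2 ^ 20 : ℝ) < M * (16 + (k + a)) := by
      calc (12 * 2 ^ 20 : ℝ) = 2 ^ 20 * gauge K (ep i x) * (15 + k + l) := by
            rw [mul_assoc, hg]; ring
        _ ≤ M * (15 + k + l) := mul_le_mul_of_nonneg_right e3 (by linarith [hl.1])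
        _ < M * (16 + (k + a)) := mul_lt_mul_of_pos_left e5 e4
    exact_mod_cast e6
  have dn : ∀ m : ℕ, m ≤ dg s.sl i → m * (14 + (k + a)) < 12 * 2 ^ 20 := by
    intro m m1
    have m1' : (m : ℝ) ≤ dg s.sl i := by exact_mod_cast m1
    have e5 : (14 + (k + a) : ℝ) ≤ 15 + k + l := by
      have : (a : ℝ) ≤ 1 := by exact_mod_cast Nat.lt_succ_iff.1 ha
      linarith [hl.1]
    have e6 : (m * (14 + (k + a)) : ℝ) < 12 * 2 ^ 20 := by
      calc (m * (14 + (k + a)) : ℝ) ≤ m * (15 + k + l) :=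
            mul_le_mul_of_nonneg_left e5 (Nat.cast_nonneg m)
        _ < 2 ^ 20 * gauge K (ep i x) * (15 + k + l) :=
            mul_lt_mul_of_pos_right (lt_of_le_of_lt m1' q4) (by linarith [hl.1])
        _ = 12 * 2 ^ 20 := by rw [mul_assoc, hg]; ring
    exact_mod_cast e6
  obtain rfl | rfl : b = 0 ∨ b = 1 := by omega
  · rw [add_zero, Nat.mod_eq_of_lt hi]
    exact ⟨up _ (le_max_right _ _) ((le_max_right _ _).trans (le_max_left _ _)),
      dn _ (min_le_left _ _)⟩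
  · have e : ((i + 1) % 56 + 55) % 56 = i := by omega
    unfold Act
    rw [e]
    exact ⟨up _ ((le_max_left _ _).trans (le_max_left _ _)) (le_max_right _ _),
      dn _ (min_le_right _ _)⟩

end Pool.Agent.P.MP_2e1554_gt.Chk
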