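import Pool.Agent.P.MP_2e1554_gt.IsoGeo
import Pool.Agent.P.MP_2e1554_gt.IsoPk2

/-! The convexity rows (hat averages of the gauge). -/

open MeasureTheory Set Finset

namespace Pool.Agent.P.MP_2e1554_gt.Chk

/-- hat average of the gauge at node `i < 56` -/
noncomputable def hat (K : Set (Fin 2 → ℝ)) (i : ℕ) : ℝ :=
  (∫ x in (0 : ℝ)..1, x * gauge K (ep ((i + 55) % 56) x)) +
    ∫ x in (0 : ℝ)..1, (1 - x) * gauge K (ep i x)

private theorem quad_int (A B C : ℝ) :
    ∫ x in (0 : ℝ)..1, (A + B * x + C * x ^ 2) = A + B / 2 + C / 3 := by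
  rw [intervalIntegral.integral_add (Continuous.intervalIntegrable (by fun_prop) _ _)
      (Continuous.intervalIntegrable (by fun_prop) _ _),
    intervalIntegral.integral_add (Continuous.intervalIntegrable (by fun_prop) _ _)
      (Continuous.intervalIntegrable (by fun_prop) _ _),
    intervalIntegral.integral_const_mul, intervalIntegral.integral_const_mul, integral_id,
    integral_pow]
  simp
  ring

private theorem gc {K : Set (Fin 2 → ℝ)} (hK : Iso K) (i : ℕ) :
    Continuous (fun x : ℝ => gauge K (ep i x)) := by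
  unfold ep
  exact hK.gauge_cont.comp (by fun_prop)

private theorem en_prev {i : ℕ} (hi : i < 56) : en ((i + 55) % 56 + 1) = en i := by
  obtain ⟨-, -, h1, h2⟩ := ex_row i hi
  unfold en
  rw [h1, h2]

private theorem en_next {i : ℕ} (hi : i < 56) : en ((i + 1) % 56) = en (i + 1) := by
  rcases Nat.lt_or_ge i 55 with h | h
  · rw [Nat.mod_eq_of_lt (by omega)]
  · have : i = 55 := by omega
    subst this
    exact en_56.1.symm

private theorem en_row {i : ℕ} (hi : i < 56) : en ((i + 55) % 56) + en (i + 1) =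
    (2 - (if i % 14 = 4 ∨ i % 14 = 10 then 1 else 0 : ℝ) / 12) • en i := by
  obtain ⟨h1, h2, -, -⟩ := ex_row i hi
  have h1' := congrArg (Int.cast : ℤ → ℝ) h1
  have h2' := congrArg (Int.cast : ℤ → ℝ) h2
  unfold en
  generalize ex ((i + 55) % 56) = a, ex (i + 1) = b, ex i = c at h1'
  generalize ey ((i + 55) % 56) = a', ey (i + 1) = b', ey i = c' at h2'
  push_cast at h1' h2'
  generalize (if i % 14 = 4 ∨ i % 14 = 10 then (1 : ℝ) else 0) = k at h1' h2' ⊢
  funext j
  fin_cases j
  · show (a : ℝ) / 24 + (b : ℝ) / 24 = (2 - k / 12) * ((c : ℝ) / 24)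
    linarith
  · show (a' : ℝ) / 24 + (b' : ℝ) / 24 = (2 - k / 12) * ((c' : ℝ) / 24)
    linarith

/-- `Iso.gauge_comb` on both sectors -/
theorem hat_le {K : Set (Fin 2 → ℝ)} (hK : Iso K) {i : ℕ} (hi : i < 56) :
    6 * hat K i ≤ gauge K (en ((i + 55) % 56)) + 4 * gauge K (en i) + gauge K (en ((i + 1) % 56)) := by
  have c1 := gc hK ((i + 55) % 56)
  have c2 := gc hK i
  have h1 := intervalIntegral.integral_mono_on (μ := volume) zero_le_one
    (f := fun x : ℝ => x * gauge K (ep ((i + 55) % 56) x))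
    (g := fun x : ℝ => 0 + gauge K (en ((i + 55) % 56)) * x +
      (gauge K (en i) - gauge K (en ((i + 55) % 56))) * x ^ 2)
    (Continuous.intervalIntegrable (by fun_prop) _ _)
    (Continuous.intervalIntegrable (by fun_prop) _ _)
    fun x hx => by
      have h := hK.gauge_comb (en ((i + 55) % 56)) (en ((i + 55) % 56 + 1)) (sub_nonneg.2 hx.2) hx.1
      have h' := mul_le_mul_of_nonneg_left h hx.1
      rw [en_prev hi] at h'
      have e : ep ((i + 55) % 56) x = (1 - x) • en ((i + 55) % 56) + x • en i := by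
        rw [ep, en_prev hi]
      rw [e]
      linarith
  have h2 := intervalIntegral.integral_mono_on (μ := volume) zero_le_one
    (f := fun x : ℝ => (1 - x) * gauge K (ep i x))
    (g := fun x : ℝ => gauge K (en i) + (gauge K (en (i + 1)) - 2 * gauge K (en i)) * x +
      (gauge K (en i) - gauge K (en (i + 1))) * x ^ 2)
    (Continuous.intervalIntegrable (by fun_prop) _ _)
    (Continuous.intervalIntegrable (by fun_prop) _ _)
    fun x hx => by
      have h := hK.gauge_comb (en i) (en (i + 1)) (sub_nonneg.2 hx.2) hx.1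
      have h' := mul_le_mul_of_nonneg_left h (sub_nonneg.2 hx.2)
      rw [ep]
      linarith
  rw [quad_int] at h1 h2
  rw [hat, en_next hi]
  linarith

/-- `ep (i-1) (1-t) + ep i t = (2 - κ t) en i`, `κ = 1/12` at corners (`ex_row`), as in
`Iso.gauge_row` but with the weight `1 - t` -/
theorem hat_ge {K : Set (Fin 2 → ℝ)} (hK : Iso K) {i : ℕ} (hi : i < 56) :
    (72 - if i % 14 = 4 ∨ i % 14 = 10 then 1 else 0) * gauge K (en i) ≤ 72 * hat K i := by
  have hrow := en_row hi
  have hk : (if i % 14 = 4 ∨ i % 14 = 10 then (1 : ℝ) else 0) ≤ 1 := by split_ifs <;> norm_num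
  have hk0 : (0 : ℝ) ≤ (if i % 14 = 4 ∨ i % 14 = 10 then (1 : ℝ) else 0) := by
    split_ifs <;> norm_num
  generalize (if i % 14 = 4 ∨ i % 14 = 10 then (1 : ℝ) else 0) = k at hrow hk hk0 ⊢
  have c1 := gc hK ((i + 55) % 56)
  have c2 := gc hK i
  have c1' : Continuous fun x : ℝ => gauge K (ep ((i + 55) % 56) (1 - x)) :=
    c1.comp (by fun_prop : Continuous fun x : ℝ => 1 - x)
  have h1 := intervalIntegral.integral_comp_sub_left (a := (0 : ℝ)) (b := 1)
    (fun x : ℝ => x * gauge K (ep ((i + 55) % 56) x)) 1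
  rw [sub_self, sub_zero] at h1
  have d1 : Continuous fun x : ℝ => (1 - x) * gauge K (ep ((i + 55) % 56) (1 - x)) := by fun_prop
  have d2 : Continuous fun x : ℝ => (1 - x) * gauge K (ep i x) := by fun_prop
  rw [hat, ← h1, ← intervalIntegral.integral_add (d1.intervalIntegrable _ _)
    (d2.intervalIntegrable _ _)]
  have h3 := intervalIntegral.integral_mono_on (μ := volume) zero_le_one
    (f := fun x : ℝ => 2 * gauge K (en i) + (-(2 + k / 12) * gauge K (en i)) * x +
      (k / 12 * gauge K (en i)) * x ^ 2)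
    (g := fun x : ℝ => (1 - x) * gauge K (ep ((i + 55) % 56) (1 - x)) + (1 - x) * gauge K (ep i x))
    (Continuous.intervalIntegrable (by fun_prop) _ _) ((d1.add d2).intervalIntegrable _ _)
    fun x hx => by
      have h4 := gauge_add_le hK.cvx (absorbent_nhds_zero hK.nhds_two)
        (ep ((i + 55) % 56) (1 - x)) (ep i x)
      have h5 : ep ((i + 55) % 56) (1 - x) + ep i x = (2 - k / 12 * x) • en i := by
        rw [ep, ep, en_prev hi]
        linear_combination (norm := module) x • hrow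
      rw [h5, gauge_smul_of_nonneg (by nlinarith [hx.1, hx.2]), smul_eq_mul] at h4
      have h6 := mul_le_mul_of_nonneg_left h4 (sub_nonneg.2 hx.2)
      linarith
  rw [quad_int] at h3
  linarith

private theorem sum_sh1 (F : ℕ → ℝ) :
    ∑ i ∈ range 56, F ((i + 1) % 56) = ∑ i ∈ range 56, F i := by
  have h : ∑ i ∈ range 55, F ((i + 1) % 56) = ∑ i ∈ range 55, F (i + 1) := by
    refine Finset.sum_congr rfl fun i hi => ?_
    rw [Nat.mod_eq_of_lt (by have := Finset.mem_range.1 hi; omega)]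
  rw [Finset.sum_range_succ (fun i => F ((i + 1) % 56)) 55, Finset.sum_range_succ' F 55, h]

/-- cyclic reindexing -/
theorem sum_shift (F : ℕ → ℝ) : ∑ i ∈ range 56, F ((i + 1) % 56) = ∑ i ∈ range 56, F i ∧
    ∑ i ∈ range 56, F ((i + 55) % 56) = ∑ i ∈ range 56, F i := by
  refine ⟨sum_sh1 F, ?_⟩
  rw [← sum_sh1 fun i => F ((i + 55) % 56)]
  refine Finset.sum_congr rfl fun i hi => ?_
  have := Finset.mem_range.1 hi
  congr 1
  omega

private theorem tsub_real (a b : ℕ) : ((a - b : ℕ) : ℝ) - ((b - a : ℕ) : ℝ) = (a : ℝ) - b := by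
  rcases le_total a b with h | h
  · rw [Nat.sub_eq_zero_of_le h, Nat.cast_sub h]
    simp
  · rw [Nat.sub_eq_zero_of_le h, Nat.cast_sub h]
    simp

/-- sum of the rows: `∑ α_i (6·upper row) + β_i (lower row)`, then `ql < 2^20 q ≤ qh` -/
theorem rows_nonneg {K : Set (Fin 2 → ℝ)} (hK : Iso K) {s : St} (hs : StOK s K) (d : Vd) :
    0 ≤ ∑ i ∈ range 56, (∫ x in (0 : ℝ)..1, ((1 - x) * ((bet d i : ℝ) - alf d i) +
        x * ((bet d (i + 1) : ℝ) - alf d (i + 1))) * gauge K (ep i x)) +
      ((sumP s d : ℝ) - sumN s d) / (72 * 2 ^ 20) := by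
  have am : ∀ i, alf d (i % 56) = alf d i := fun i => by simp only [alf, Nat.mod_mod]
  have bm : ∀ i, bet d (i % 56) = bet d i := fun i => by simp only [bet, Nat.mod_mod]
  obtain ⟨P, hP⟩ : ∃ P : ℕ → ℝ, P = fun i => ∫ x in (0 : ℝ)..1, (1 - x) * gauge K (ep i x) :=
    ⟨_, rfl⟩
  obtain ⟨Q, hQ⟩ : ∃ Q : ℕ → ℝ, Q = fun i => ∫ x in (0 : ℝ)..1, x * gauge K (ep i x) := ⟨_, rfl⟩
  obtain ⟨g, hg⟩ : ∃ g : ℕ → ℝ, g = fun i => gauge K (en i) := ⟨_, rfl⟩
  have hh : ∀ i, hat K i = Q ((i + 55) % 56) + P i := fun i => by rw [hP, hQ]; rfl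
  have e1 : ∀ i, (∫ x in (0 : ℝ)..1, ((1 - x) * ((bet d i : ℝ) - alf d i) +
        x * ((bet d (i + 1) : ℝ) - alf d (i + 1))) * gauge K (ep i x)) =
      ((bet d i : ℝ) - alf d i) * P i + ((bet d (i + 1) : ℝ) - alf d (i + 1)) * Q i := fun i => by
    have c := gc hK i
    rw [hP, hQ]
    simp only
    rw [← intervalIntegral.integral_const_mul, ← intervalIntegral.integral_const_mul,
      ← intervalIntegral.integral_add (Continuous.intervalIntegrable (by fun_prop) _ _)
        (Continuous.intervalIntegrable (by fun_prop) _ _)]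
    congr 1
    funext x
    ring
  have e2 : ∑ i ∈ range 56, ((bet d (i + 1) : ℝ) - alf d (i + 1)) * Q i =
      ∑ i ∈ range 56, ((bet d i : ℝ) - alf d i) * Q ((i + 55) % 56) := by
    rw [← (sum_shift fun i => ((bet d (i + 1) : ℝ) - alf d (i + 1)) * Q i).2]
    refine Finset.sum_congr rfl fun i hi => ?_
    have hi' := Finset.mem_range.1 hi
    have h : ((i + 55) % 56 + 1) % 56 = i := by omega
    rw [← am ((i + 55) % 56 + 1), ← bm ((i + 55) % 56 + 1), h]
  have e3 : ∑ i ∈ range 56, (alf d i : ℝ) * g ((i + 55) % 56) =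
      ∑ i ∈ range 56, (alf d (i + 1) : ℝ) * g i := by
    rw [← (sum_shift fun i => (alf d i : ℝ) * g ((i + 55) % 56)).1]
    refine Finset.sum_congr rfl fun i hi => ?_
    have hi' := Finset.mem_range.1 hi
    have h : ((i + 1) % 56 + 55) % 56 = i := by omega
    rw [h, am]
  have e4 : ∑ i ∈ range 56, (alf d i : ℝ) * g ((i + 1) % 56) =
      ∑ i ∈ range 56, (alf d (i + 55) : ℝ) * g i := by
    rw [← (sum_shift fun i => (alf d i : ℝ) * g ((i + 1) % 56)).2]
    refine Finset.sum_congr rfl fun i hi => ?_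
    have hi' := Finset.mem_range.1 hi
    have h : ((i + 55) % 56 + 1) % 56 = i := by omega
    rw [h, am]
  have e5 : ∀ i ∈ range 56, (gbm d i : ℝ) * g i - 12 * ((alf d i : ℝ) * g ((i + 55) % 56)) -
      48 * ((alf d i : ℝ) * g i) - 12 * ((alf d i : ℝ) * g ((i + 1) % 56)) ≤
      72 * (((bet d i : ℝ) - alf d i) * P i + ((bet d i : ℝ) - alf d i) * Q ((i + 55) % 56)) :=
    fun i hi => by
      have hi' := Finset.mem_range.1 hi
      have h1 := mul_le_mul_of_nonneg_left (hat_le hK hi') (Nat.cast_nonneg (α := ℝ) (alf d i))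
      have h2 := mul_le_mul_of_nonneg_left (hat_ge hK hi') (Nat.cast_nonneg (α := ℝ) (bet d i))
      have h3 : (gbm d i : ℝ) =
          (bet d i : ℝ) * (72 - if i % 14 = 4 ∨ i % 14 = 10 then 1 else 0) := by
        unfold gbm
        split_ifs
        · rw [Nat.cast_sub (by omega)]
          push_cast
          ring
        · rw [Nat.sub_zero]
          push_cast
          ring
      rw [hh] at h1 h2
      rw [h3, hg]
      simp only
      linarith
  have e6 : ∀ i ∈ range 56, ((gbm d i - gam d i : ℕ) : ℝ) * dg s.ql i -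
      ((gam d i - gbm d i : ℕ) : ℝ) * dg s.qh i ≤
      2 ^ 20 * ((gbm d i : ℝ) * g i - 12 * ((alf d (i + 1) : ℝ) * g i) -
        48 * ((alf d i : ℝ) * g i) - 12 * ((alf d (i + 55) : ℝ) * g i)) := fun i hi => by
    have hi' := Finset.mem_range.1 hi
    have h1 := mul_le_mul_of_nonneg_left (hs.ql i hi').le
      (Nat.cast_nonneg (α := ℝ) (gbm d i - gam d i))
    have h2 := mul_le_mul_of_nonneg_left (hs.qh i hi')
      (Nat.cast_nonneg (α := ℝ) (gam d i - gbm d i))
    have h3 := tsub_real (gbm d i) (gam d i)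
    have h4 : (gam d i : ℝ) = 12 * ((alf d (i + 55) : ℝ) + alf d (i + 1)) + 48 * alf d i := by
      unfold gam
      push_cast
      ring
    have h5 : (((gbm d i - gam d i : ℕ) : ℝ) - ((gam d i - gbm d i : ℕ) : ℝ)) *
        (2 ^ 20 * gauge K (en i)) = ((gbm d i : ℝ) -
          (12 * ((alf d (i + 55) : ℝ) + alf d (i + 1)) + 48 * alf d i)) *
            (2 ^ 20 * gauge K (en i)) := by rw [h3, h4]
    rw [hg]
    simp only
    linarith
  have s5 := Finset.sum_le_sum e5
  have s6 := Finset.sum_le_sum e6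
  simp only [Finset.sum_sub_distrib, Finset.sum_add_distrib, ← Finset.mul_sum] at s5 s6
  rw [e3, e4, ← e2] at s5
  have hPs : (sumP s d : ℝ) = ∑ i ∈ range 56, ((gam d i - gbm d i : ℕ) : ℝ) * dg s.qh i := by
    unfold sumP
    rw [Nat.cast_sum]
    exact Finset.sum_congr rfl fun i _ => Nat.cast_mul _ _
  have hNs : (sumN s d : ℝ) = ∑ i ∈ range 56, ((gbm d i - gam d i : ℕ) : ℝ) * dg s.ql i := by
    unfold sumN
    rw [Nat.cast_sum]
    exact Finset.sum_congr rfl fun i _ => Nat.cast_mul _ _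
  rw [Finset.sum_congr rfl fun i _ => e1 i, Finset.sum_add_distrib, hPs, hNs]
  generalize ∑ i ∈ range 56, ((gam d i - gbm d i : ℕ) : ℝ) * dg s.qh i = A at s6 ⊢
  generalize ∑ i ∈ range 56, ((gbm d i - gam d i : ℕ) : ℝ) * dg s.ql i = B at s6 ⊢
  generalize ∑ i ∈ range 56, ((bet d i : ℝ) - alf d i) * P i = C at s5 ⊢
  generalize ∑ i ∈ range 56, ((bet d (i + 1) : ℝ) - alf d (i + 1)) * Q i = D at s5 ⊢
  have h7 : B - A ≤ 2 ^ 20 * (72 * (C + D)) :=
    s6.trans (mul_le_mul_of_nonneg_left s5 (by norm_num))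
  have h8 : (B - A) / (72 * 2 ^ 20) ≤ C + D := by
    rw [div_le_iff₀ (by norm_num)]
    linarith
  have h9 : (A - B) / (72 * 2 ^ 20) = -((B - A) / (72 * 2 ^ 20)) := by ring
  rw [h9]
  linarith

end Pool.Agent.P.MP_2e1554_gt.Chk
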