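import Pool.Agent.P.MP_2e1554_gt.IsoGam
import Pool.Agent.P.MP_2e1554_gt.IsoNorm

open MeasureTheory Set Finset Matrix Filter Topology Pointwise

namespace Pool.Agent.P.MP_2e1554_gt

variable {n : ℕ}

lemma hcone_succ (t : ℝ) (z : Fin n → ℝ) (i : Fin n) : ins 0 t z i.succ = z i := by
  simpa using ins_succAbove 0 t z i

lemma hcone_self (x : Fin (n + 1) → ℝ) : ins 0 (x 0) (fun i => x i.succ) = x := by
  ext i
  refine Fin.cases ?_ (fun j => ?_) i
  · simp
  · rw [hcone_succ]

lemma hcone_smul (t u : ℝ) (z : Fin n → ℝ) : ins 0 (t * u) (t • z) = t • ins 0 u z := by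
  ext i
  refine Fin.cases ?_ (fun j => ?_) i
  · simp
  · simp [hcone_succ]

lemma hcone_dot (u : ℝ) (z : Fin n → ℝ) : ins 0 u z ⬝ᵥ ins 0 u z = u ^ 2 + z ⬝ᵥ z := by
  simp [dotProduct, Fin.sum_univ_succ, hcone_succ, sq]

lemma hcone_a {h : ℝ} (hh : 0 < h) (t : ℝ) (z : Fin n → ℝ) :
    (Pi.single 0 h⁻¹ : Fin (n + 1) → ℝ) ⬝ᵥ (t • ins 0 h z) = t := by
  rw [single_dotProduct]
  simp only [Pi.smul_apply, ins_same, smul_eq_mul]
  field_simp

theorem cone_eq_hcone {A : Finset (Fin (n + 1) → ℝ)} {h : ℝ} (hh : 0 < h)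
    (ha : Pi.single 0 h⁻¹ ∈ A) : cone A (Pi.single 0 h⁻¹) = hcone h (slice (poly A) h) := by
  have _ := ha
  ext x
  simp only [cone, hcone, slice, poly, Set.mem_ofPred_eq, single_dotProduct]
  have h1 : 0 < h⁻¹ * x 0 ↔ 0 < x 0 := mul_pos_iff_of_pos_left (inv_pos.2 hh)
  rw [h1]
  refine and_congr_right fun hx => ?_
  have h2 : ins 0 h ((h / x 0) • fun i => x i.succ) = (h / x 0) • x := by
    conv_rhs => rw [← hcone_self x]
    rw [← hcone_smul]
    congr 1
    simp only [ins_same]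
    field_simp
  rw [h2]
  refine forall₂_congr fun a' _ => ?_
  rw [dotProduct_smul, smul_eq_mul, div_mul_eq_mul_div, div_le_one hx, le_inv_mul_iff₀ hh]

theorem slice_convex {K : Set (Fin (n + 1) → ℝ)} (hK : Convex ℝ K) (u : ℝ) :
    Convex ℝ (slice K u) := by
  intro x hx y hy a b ha hb hab
  have := hK hx hy ha hb hab
  rw [← ins_add_smul, ← add_mul, hab, one_mul] at this
  exact this

theorem slice_compact {K : Set (Fin (n + 1) → ℝ)} (hK : IsCompact K) (u : ℝ) :
    IsCompact (slice K u) := by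
  have hc : Continuous fun z : Fin n → ℝ => ins 0 u z :=
    (continuous_ins 0).comp (continuous_const.prodMk continuous_id)
  have ht : Continuous fun x : Fin (n + 1) → ℝ => (fun i : Fin n => x i.succ) := by fun_prop
  refine (hK.image ht).of_isClosed_subset (hK.isClosed.preimage hc) fun z hz => ⟨_, hz, ?_⟩
  ext i
  exact hcone_succ _ _ _

lemma hcone_lint {E : Type*} [NormedAddCommGroup E] [NormedSpace ℝ E] [MeasurableSpace E]
    [BorelSpace E] [FiniteDimensional ℝ E] (μ : Measure E) [μ.IsAddHaarMeasure] {r : ℝ}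
    (hr : 0 < r) {g : E → ENNReal} (hg : Measurable g) :
    ∫⁻ y, g y ∂μ = ENNReal.ofReal (r ^ Module.finrank ℝ E) * ∫⁻ z, g (r • z) ∂μ := by
  have h1 : ∫⁻ z, g (r • z) ∂μ = ∫⁻ y, g y ∂(μ.map (r • ·)) :=
    (lintegral_map hg (measurable_const_smul r)).symm
  rw [h1, Measure.map_addHaar_smul μ hr.ne', lintegral_smul_measure, smul_eq_mul, ← mul_assoc,
    ← ENNReal.ofReal_mul (by positivity), abs_of_pos (by positivity),
    mul_inv_cancel₀ (by positivity), ENNReal.ofReal_one, one_mul]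

lemma hcone_meas (h : ℝ) {F : Set (Fin n → ℝ)} (hF : MeasurableSet F) :
    MeasurableSet (hcone h F) := by
  have h1 : Measurable fun x : Fin (n + 1) → ℝ => (h / x 0) • (fun i : Fin n => x i.succ) := by
    refine measurable_pi_lambda _ fun i => ?_
    simp only [Pi.smul_apply, smul_eq_mul]
    fun_prop
  exact (measurableSet_lt measurable_const (measurable_pi_apply 0)).inter (h1 hF)

lemma hcone_cont (h : ℝ) :
    Continuous fun p : ℝ × (Fin n → ℝ) => p.1 • ins 0 h p.2 :=
  continuous_fst.smul ((continuous_ins 0).comp (continuous_const.prodMk continuous_snd))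

lemma hcone_map {h : ℝ} (hh : 0 < h) {F : Set (Fin n → ℝ)} (hF : MeasurableSet F) :
    volume.restrict (hcone h F) =
      ((((volume : Measure ℝ).restrict (Ioi 0)).prod (volume.restrict F)).withDensity
        fun p => (Real.toNNReal (h * p.1 ^ n) : ENNReal)).map
          fun p : ℝ × (Fin n → ℝ) => p.1 • ins 0 h p.2 := by
  have hΨ := (hcone_cont (n := n) h).measurable
  have hρ : Measurable fun p : ℝ × (Fin n → ℝ) => (Real.toNNReal (h * p.1 ^ n) : ENNReal) := by
    fun_prop
  have hm := hcone_meas h hF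
  refine Measure.ext_of_lintegral _ fun G hG => ?_
  have hI : Measurable fun p : ℝ × (Fin n → ℝ) => (hcone h F).indicator G (ins 0 p.1 p.2) :=
    (hG.indicator hm).comp (continuous_ins 0).measurable
  have hG' : Measurable fun p : ℝ × (Fin n → ℝ) => G (p.1 • ins 0 h p.2) := hG.comp hΨ
  rw [lintegral_map hG hΨ, lintegral_withDensity_eq_lintegral_mul _ hρ hG',
    lintegral_prod _ (hρ.mul hG').aemeasurable, ← lintegral_indicator hm,
    ← (ins_mp 0).lintegral_comp (hG.indicator hm), lintegral_prod _ hI.aemeasurable,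
    hcone_lint volume hh hI.lintegral_prod_right', ← lintegral_indicator measurableSet_Ioi,
    ← lintegral_const_mul' _ _ ENNReal.ofReal_ne_top]
  refine lintegral_congr fun t => ?_
  by_cases ht : 0 < t
  · rw [indicator_of_mem (show t ∈ Ioi (0 : ℝ) from ht),
      hcone_lint volume ht (g := fun y => (hcone h F).indicator G (ins 0 (h • t) y))
        (hI.comp measurable_prodMk_left), ← mul_assoc,
      ← ENNReal.ofReal_mul (by positivity), ← lintegral_const_mul' _ _ ENNReal.ofReal_ne_top,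
      ← lintegral_indicator hF]
    refine lintegral_congr fun z => ?_
    have e1 : ins 0 (h • t) (t • z) = t • ins 0 h z := by
      rw [smul_eq_mul, mul_comm, hcone_smul]
    have e2 : t • ins 0 h z ∈ hcone h F ↔ z ∈ F := by
      have : (h / (t * h)) • (fun i : Fin n => t * z i) = z := by
        ext i
        simp only [Pi.smul_apply, smul_eq_mul]
        field_simp
      simp [hcone, hcone_succ, this, mul_pos ht hh]
    simp only [e1]
    by_cases hz : z ∈ F
    · rw [indicator_of_mem hz, indicator_of_mem (e2.2 hz)]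
      simp [ENNReal.ofReal]
    · rw [indicator_of_notMem hz, indicator_of_notMem (fun h' => hz (e2.1 h')), mul_zero]
  · rw [indicator_of_notMem (show t ∉ Ioi (0 : ℝ) from ht)]
    have : ∀ y : Fin n → ℝ, (hcone h F).indicator G (ins 0 (h • t) y) = 0 := fun y =>
      indicator_of_notMem (fun h' => ht (by
        have := h'.1
        simp only [ins_same, smul_eq_mul] at this
        exact (mul_pos_iff_of_pos_left hh).1 this)) _
    simp only [this, lintegral_zero, mul_zero]

/-- integration over a cone -/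
theorem integral_hcone {h : ℝ} (hh : 0 < h) {F : Set (Fin n → ℝ)} (hF : MeasurableSet F)
    {Φ : (Fin (n + 1) → ℝ) → ℝ} (hΦ : IntegrableOn Φ (hcone h F)) :
    ∫ x in hcone h F, Φ x = ∫ z in F, ∫ t in Ioi (0 : ℝ), h * t ^ n * Φ (t • ins 0 h z) := by
  have hΨ := (hcone_cont (n := n) h).measurable
  have hρ : Measurable fun p : ℝ × (Fin n → ℝ) => Real.toNNReal (h * p.1 ^ n) := by fun_prop
  rw [IntegrableOn, hcone_map hh hF] at hΦ
  have h1 := hΦ.comp_measurable hΨ
  rw [integrable_withDensity_iff_integrable_smul hρ] at h1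
  simp only [Function.comp] at h1
  rw [hcone_map hh hF, integral_map hΨ.aemeasurable hΦ.aestronglyMeasurable,
    integral_withDensity_eq_integral_smul hρ, integral_prod_symm _ h1]
  refine integral_congr_ae (ae_of_all _ fun z => ?_)
  refine setIntegral_congr_fun measurableSet_Ioi fun t ht => ?_
  have ht' : 0 < t := ht
  simp only [NNReal.smul_def, smul_eq_mul]
  rw [Real.coe_toNNReal _ (by positivity)]

lemma hcone_gamma (k : ℕ) : IntegrableOn (fun t : ℝ => Real.exp (-t) * t ^ k) (Ioi 0) ∧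
    ∫ t in Ioi (0 : ℝ), Real.exp (-t) * t ^ k = k.factorial := by
  constructor
  · simpa using Real.GammaIntegral_convergent (s := (k : ℝ) + 1) (by positivity)
  · rw [← Real.Gamma_nat_eq_factorial, Real.Gamma_eq_integral (by positivity)]
    simp

lemma hcone_cone_meas {m : ℕ} (A : Finset (Fin m → ℝ)) (a : Fin m → ℝ) :
    MeasurableSet (cone A a) := by
  have hd : ∀ b : Fin m → ℝ, Measurable fun x : Fin m → ℝ => b ⬝ᵥ x := fun b =>
    (continuous_const.dotProduct continuous_id).measurable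
  have : cone A a = {x | 0 < a ⬝ᵥ x} ∩ ⋂ a' ∈ A, {x | a' ⬝ᵥ x ≤ a ⬝ᵥ x} := by
    ext x; simp [cone]
  rw [this]
  exact (measurableSet_lt measurable_const (hd a)).inter
    (Finset.measurableSet_biInter _ fun a' _ => measurableSet_le (hd a') (hd a))

lemma hcone_int {m : ℕ} {A : Finset (Fin m → ℝ)} (hb : Bornology.IsBounded (poly A))
    {a : Fin m → ℝ} (ha : a ∈ A) {f : (Fin m → ℝ) → ℝ} (hf : Continuous f) (k : ℕ)
    (hh : ∀ s : ℝ, 0 < s → ∀ x, f (s • x) = s ^ k * f x) :
    IntegrableOn (fun x => f x * Real.exp (-(a ⬝ᵥ x))) (cone A a) :=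
  (integral_exp_gam hb hf k hh).1.integrableOn.congr_fun
    (fun x hx => by simp only [gam_of_mem_cone ha hx]) (hcone_cone_meas A a)

lemma hcone_slice_meas {A : Finset (Fin (n + 1) → ℝ)} (hb : Bornology.IsBounded (poly A))
    (h : ℝ) : MeasurableSet (slice (poly A) h) :=
  (slice_compact (body_poly hb).cpt h).isClosed.measurableSet

theorem wt_hcone {A : Finset (Fin (n + 1) → ℝ)} (hb : Bornology.IsBounded (poly A)) {h : ℝ}
    (hh : 0 < h) (ha : Pi.single 0 h⁻¹ ∈ A) :
    wt A (Pi.single 0 h⁻¹) = h * n.factorial * sv (poly A) h := by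
  have hi := hcone_int hb ha (f := fun _ => 1) continuous_const 0 (by simp)
  simp only [one_mul] at hi
  rw [cone_eq_hcone hh ha] at hi
  rw [wt, cone_eq_hcone hh ha, integral_hcone hh (hcone_slice_meas hb h) hi]
  have : ∀ z : Fin n → ℝ, ∫ t in Ioi (0 : ℝ), h * t ^ n *
      Real.exp (-((Pi.single 0 h⁻¹ : Fin (n + 1) → ℝ) ⬝ᵥ (t • ins 0 h z))) = h * n.factorial := by
    intro z
    rw [← (hcone_gamma n).2, ← integral_const_mul]
    refine integral_congr_ae (ae_of_all _ fun t => ?_)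
    simp only [hcone_a hh]
    ring
  simp only [this, setIntegral_const, smul_eq_mul, sv]
  ring

theorem sol_hcone {A : Finset (Fin (n + 1) → ℝ)} (hb : Bornology.IsBounded (poly A)) {h : ℝ}
    (hh : 0 < h) (ha : Pi.single 0 h⁻¹ ∈ A) :
    sol A (Pi.single 0 h⁻¹) =
      h / (n + 1) * ∫ z in slice (poly A) h, 1 / Real.sqrt (h ^ 2 + z ⬝ᵥ z) ^ (n + 1) := by
  set B : Set (Fin (n + 1) → ℝ) := {x | x ⬝ᵥ x ≤ 1} with hB
  have hBm : MeasurableSet B :=
    (isClosed_le (continuous_id.dotProduct continuous_id) continuous_const).measurableSet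
  have hBf : volume B ≠ ⊤ := by
    refine ((measure_mono ?_).trans_lt
      (measure_closedBall_lt_top (x := (0 : Fin (n + 1) → ℝ)) (r := 1))).ne
    intro x hx
    rw [mem_closedBall_zero_iff, pi_norm_le_iff_of_nonneg zero_le_one]
    intro i
    have h1 : x i * x i ≤ x ⬝ᵥ x :=
      Finset.single_le_sum (f := fun j => x j * x j) (fun j _ => mul_self_nonneg _)
        (Finset.mem_univ i)
    exact abs_le_one_iff_mul_self_le_one.2 (h1.trans hx)
  have hi : Integrable (B.indicator fun _ => (1 : ℝ)) volume :=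
    (integrable_indicator_iff hBm).2 (integrableOn_const hBf)
  have e1 : sol A (Pi.single 0 h⁻¹) =
      ∫ x in hcone h (slice (poly A) h), B.indicator (fun _ => (1 : ℝ)) x := by
    rw [sol, cone_eq_hcone hh ha, setIntegral_indicator hBm, setIntegral_const, smul_eq_mul,
      mul_one]
  rw [e1, integral_hcone hh (hcone_slice_meas hb h) hi.integrableOn, ← integral_const_mul]
  refine integral_congr_ae (ae_of_all _ fun z => ?_)
  have hz : 0 ≤ z ⬝ᵥ z := Finset.sum_nonneg fun i _ => mul_self_nonneg _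
  have hq : 0 < h ^ 2 + z ⬝ᵥ z := by positivity
  set R := Real.sqrt (h ^ 2 + z ⬝ᵥ z) with hR
  have hR0 : 0 < R := Real.sqrt_pos.2 hq
  have hR2 : R ^ 2 = h ^ 2 + z ⬝ᵥ z := Real.sq_sqrt hq.le
  have e2 : ∫ t in Ioi (0 : ℝ), h * t ^ n * B.indicator (fun _ => (1 : ℝ)) (t • ins 0 h z) =
      ∫ t in Ioi (0 : ℝ), (Iic R⁻¹).indicator (fun t => h * t ^ n) t := by
    refine setIntegral_congr_fun measurableSet_Ioi fun t ht => ?_
    have ht' : 0 < t := ht
    have e3 : t • ins 0 h z ∈ B ↔ t ∈ Iic R⁻¹ := by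
      rw [hB, Set.mem_ofPred_eq, smul_dotProduct, dotProduct_smul, hcone_dot, ← hR2, Set.mem_Iic,
        smul_eq_mul, smul_eq_mul, ← one_div, le_div_iff₀ hR0,
        ← sq_le_one_iff₀ (a := t * R) (by positivity)]
      exact iff_of_eq (by congr 1; ring)
    by_cases hm : t ∈ Iic R⁻¹
    · simp only [indicator_of_mem hm, indicator_of_mem (e3.2 hm), mul_one]
    · simp only [indicator_of_notMem hm, indicator_of_notMem (fun h' => hm (e3.1 h')), mul_zero]
  simp only [← hR]
  rw [e2, setIntegral_indicator measurableSet_Iic, Set.Ioi_inter_Iic,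
    ← intervalIntegral.integral_of_le (inv_pos.2 hR0).le, intervalIntegral.integral_const_mul,
    integral_pow]
  simp only [ne_eq, Nat.add_eq_zero_iff, one_ne_zero, and_false, not_false_eq_true, zero_pow,
    sub_zero, inv_pow]
  field_simp

lemma hcone_crit {A : Finset (Fin (n + 1) → ℝ)} (hb : Bornology.IsBounded (poly A))
    (hc : Crit A) {h : ℝ} (hh : 0 < h) (ha : Pi.single 0 h⁻¹ ∈ A) (b : Fin (n + 1) → ℝ) :
    ∫ z in slice (poly A) h, (h ^ 2 + z ⬝ᵥ z - (n + 3)) * (b ⬝ᵥ ins 0 h z) = 0 := by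
  have hd : Continuous fun x : Fin (n + 1) → ℝ => b ⬝ᵥ x :=
    continuous_const.dotProduct continuous_id
  have hi1 := hcone_int hb ha (f := fun x => (b ⬝ᵥ x) * (x ⬝ᵥ x))
    (hd.mul (continuous_id.dotProduct continuous_id)) 3 (fun s _ x => by
      simp only [smul_dotProduct, dotProduct_smul, smul_eq_mul]; ring)
  have hi2 := hcone_int hb ha (f := fun x => b ⬝ᵥ x) hd 1 (fun s _ x => by
      simp only [dotProduct_smul, smul_eq_mul]; ring)
  set c : ℝ := (((n + 1 : ℕ) : ℝ) + 2) ^ 2 * (((n + 1 : ℕ) : ℝ) + 1) with hcdef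
  have hi : IntegrableOn (fun x : Fin (n + 1) → ℝ => (b ⬝ᵥ x) * (x ⬝ᵥ x - c) *
      Real.exp (-((Pi.single 0 h⁻¹ : Fin (n + 1) → ℝ) ⬝ᵥ x))) (cone A (Pi.single 0 h⁻¹)) := by
    refine (Integrable.sub hi1 (hi2.const_mul c)).congr (ae_of_all _ fun x => ?_)
    simp only [Pi.sub_apply]
    ring
  have h0 := hc _ ha b
  rw [cone_eq_hcone hh ha] at h0 hi
  rw [integral_hcone hh (hcone_slice_meas hb h) hi] at h0
  have e : ∀ z : Fin n → ℝ, ∫ t in Ioi (0 : ℝ), h * t ^ n *
      ((b ⬝ᵥ (t • ins 0 h z)) * ((t • ins 0 h z) ⬝ᵥ (t • ins 0 h z) - c) *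
        Real.exp (-((Pi.single 0 h⁻¹ : Fin (n + 1) → ℝ) ⬝ᵥ (t • ins 0 h z)))) =
      h * (n + 3).factorial * ((h ^ 2 + z ⬝ᵥ z - (n + 3)) * (b ⬝ᵥ ins 0 h z)) := by
    intro z
    have e1 : ∀ t : ℝ, h * t ^ n *
        ((b ⬝ᵥ (t • ins 0 h z)) * ((t • ins 0 h z) ⬝ᵥ (t • ins 0 h z) - c) *
          Real.exp (-((Pi.single 0 h⁻¹ : Fin (n + 1) → ℝ) ⬝ᵥ (t • ins 0 h z)))) =
        h * (b ⬝ᵥ ins 0 h z) * (h ^ 2 + z ⬝ᵥ z) * (Real.exp (-t) * t ^ (n + 3)) -
          h * (b ⬝ᵥ ins 0 h z) * c * (Real.exp (-t) * t ^ (n + 1)) := by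
      intro t
      rw [hcone_a hh, smul_dotProduct, dotProduct_smul, dotProduct_smul, hcone_dot]
      simp only [smul_eq_mul]
      ring
    simp only [e1]
    rw [integral_sub ((hcone_gamma _).1.const_mul _) ((hcone_gamma _).1.const_mul _),
      integral_const_mul, integral_const_mul, (hcone_gamma _).2, (hcone_gamma _).2, hcdef,
      Nat.factorial_succ (n + 2), Nat.factorial_succ (n + 1)]
    push_cast
    ring
  simp only [e] at h0
  rw [integral_const_mul] at h0
  exact (mul_eq_zero.1 h0).resolve_left (by positivity)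

theorem crit_hcone {A : Finset (Fin (n + 1) → ℝ)} (hb : Bornology.IsBounded (poly A))
    (hc : Crit A) {h : ℝ} (hh : 0 < h) (ha : Pi.single 0 h⁻¹ ∈ A) :
    ∫ z in slice (poly A) h, (h ^ 2 + z ⬝ᵥ z - (n + 3)) = 0 ∧
      ∀ i, ∫ z in slice (poly A) h, (h ^ 2 + z ⬝ᵥ z - (n + 3)) * z i = 0 := by
  constructor
  · have := hcone_crit hb hc hh ha (Pi.single 0 1)
    simp only [single_dotProduct, ins_same, one_mul] at this
    rw [integral_mul_const] at this
    exact (mul_eq_zero.1 this).resolve_right hh.ne'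
  · intro i
    have := hcone_crit hb hc hh ha (Pi.single i.succ 1)
    simpa only [single_dotProduct, hcone_succ, one_mul] using this

end Pool.Agent.P.MP_2e1554_gt
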