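import Pool.Agent.P.MP_2e1554_gt.IsoErr

/-! The kink of the mirror row, lane by lane. -/

open MeasureTheory Set Finset

namespace Pool.Agent.P.MP_2e1554_gt.Chk

private theorem kk_spread {X a : ℕ} (hX : Bd X 56 a) (ha : a < 2 ^ 63) :
    Bd (spread X) 1120 a ∧ ∀ k < 20, ∀ i < 56, dg (spread X) (lay k i) = dg X i := by
  have h := kron_spec (W := X) (A := C20) (B := C20) (a := a) (b := 1) (f := fun _ => 1) hX
    (fun _ _ => le_rfl) C20_eq C20_eq (by omega) (by norm_num)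
  have e : spread X = kron X C20 C20 := rfl
  rw [e]
  refine ⟨h.1.mono le_rfl (by omega), fun k hk i hi => ?_⟩
  rw [h.2 k hk i hi, mul_one]

private theorem kk_sum {Z : ℕ → ℕ} {N e : ℕ} (M : ℕ) (hZ : ∀ i < M, Bd (Z i) N e)
    (h : M * e < 2 ^ 64) :
    Bd (∑ i ∈ range M, Z i) N (M * e) ∧
      ∀ l, dg (∑ i ∈ range M, Z i) l = ∑ i ∈ range M, dg (Z i) l := by
  induction M with
  | zero => exact ⟨⟨by simp, fun i => by simp [dg]⟩, fun l => by simp [dg]⟩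
  | succ M ih =>
    rw [add_one_mul] at h ⊢
    obtain ⟨h1, h2⟩ := ih (fun i hi => hZ i (by omega)) (by omega)
    obtain ⟨h3, h4⟩ := h1.add (hZ M (by omega)) h
    rw [Finset.sum_range_succ]
    exact ⟨h3, fun l => by rw [h4, h2, Finset.sum_range_succ]⟩

private theorem kk_low {X N a : ℕ} (h : Bd X N a) (n : ℕ) :
    Bd (low n X) n a ∧ ∀ i, dg (low n X) i = if i < n then dg X i else 0 := by
  rw [low_eq]
  exact ⟨h.mod n, fun i => dg_mod X n i⟩

private theorem kk_C20 : C20 = ∑ r ∈ range 20, 2 ^ (64 * (28 * r)) := by decide +kernel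

private theorem kk_O56 : Bd O56 56 1 ∧ ∀ l, dg O56 l = if l < 56 then 1 else 0 :=
  ⟨O56_eq ▸ Bd.pk (by norm_num) fun _ _ => le_rfl, fun l => by
    rw [O56_eq, dg_pk fun _ _ => by norm_num]⟩

/-- as in `muW_spec` -/
theorem nuW_spec {m a : ℕ} (h0 : Bd m 56 a) (ha : a < 2 ^ 62) (h1 : dg m 28 = 0) :
    Bd (nuW m) 56 a ∧ ∀ j < 56, dg (nuW m) j = dg m (nuI j) := by
  have hz : ∀ l, 56 ≤ l → dg m l = 0 := fun l hl => dg_of_ge h0.1 hl
  have e : nuW m = (m >>> (64 * 28)) <<< (64 * 42) % 2 ^ (64 * 56) + m >>> (64 * 42) +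
      rev (m >>> (64 * 28)) 56 >>> (64 * 13) := by
    rw [nuW, low_eq]
  obtain ⟨r1, r2⟩ := rev_spec (h0.shiftRight 28) (by omega)
  obtain ⟨b1, b2⟩ := (((h0.shiftRight 28).shiftLeft 42).mod 56).add (h0.shiftRight 42) (by omega)
  obtain ⟨c1, c2⟩ := b1.add (r1.shiftRight 13) (by omega)
  rw [← e] at c1 c2
  have key : ∀ j < 56, dg (nuW m) j = dg m (nuI j) := fun j hj => by
    have r3 : dg (rev (m >>> (64 * 28)) 56) (j + 13) = if j < 43 then dg m (70 - j) else 0 := by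
      split_ifs with h
      · rw [r2 _ (by omega), dg_shiftRight, show 55 - (j + 13) + 28 = 70 - j by omega]
      · exact dg_of_ge r1.1 (by omega)
    rw [c2, b2, dg_shiftRight, dg_shiftRight, r3, dg_mod, dg_shiftLeft, dg_shiftRight, if_pos hj, nuI]
    by_cases h2 : 42 ≤ j
    · rw [if_pos h2, if_pos h2, hz (j + 42) (by omega), add_zero, show j - 42 + 28 = j - 14 by omega]
      split_ifs
      · rw [show 70 - j = 28 by omega, h1, add_zero]
      · rw [add_zero]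
    · rw [if_neg h2, if_neg h2, zero_add, if_pos (by omega)]
      split_ifs
      · rw [hz (70 - j) (by omega), add_zero]
      · rw [hz (j + 42) (by omega), zero_add]
  exact ⟨bd_of c1.1 fun j hj => by rw [key j hj]; exact h0.2 _, key⟩

/-- column sums of the two halves -/
private theorem kk_col {X : ℕ} (hX : Bd X 1120 1) :
    Bd (low 28 ((X * C20) >>> (64 * 532)) + low 28 ((X * C20) >>> (64 * 1092)) <<< (64 * 28)) 56 40 ∧
      ∀ i < 56, dg (low 28 ((X * C20) >>> (64 * 532)) +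
        low 28 ((X * C20) >>> (64 * 1092)) <<< (64 * 28)) i = ∑ k ∈ range 20, dg X (lay k i) := by
  have e : X * C20 = ∑ r ∈ range 20, X <<< (64 * (28 * r)) := by
    rw [kk_C20, Finset.mul_sum]
    exact Finset.sum_congr rfl fun r _ => (Nat.shiftLeft_eq _ _).symm
  obtain ⟨p1, p2⟩ := kk_sum (Z := fun r => X <<< (64 * (28 * r))) (N := 1680) (e := 1) 20
    (fun r hr => (hX.shiftLeft (28 * r)).mono (by omega) le_rfl) (by norm_num)
  rw [← e] at p1 p2
  generalize X * C20 = P at p1 p2 ⊢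
  obtain ⟨a1, a2⟩ := kk_low (p1.shiftRight 532) 28
  obtain ⟨b1, b2⟩ := kk_low (p1.shiftRight 1092) 28
  obtain ⟨c1, c2⟩ := (a1.mono (show 28 ≤ 56 by norm_num) le_rfl).add (b1.shiftLeft 28) (by norm_num)
  refine ⟨c1, fun i hi => ?_⟩
  rw [c2, a2, dg_shiftLeft, b2, dg_shiftRight, dg_shiftRight, p2, p2]
  by_cases h : i < 28
  · rw [if_pos h, if_neg (by omega), add_zero, ← Finset.sum_range_reflect]
    refine Finset.sum_congr rfl fun k hk => ?_
    have hk' := Finset.mem_range.1 hk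
    rw [dg_shiftLeft, if_pos (by omega), lay, Nat.mod_eq_of_lt hi, if_pos h]
    exact congrArg _ (by omega)
  · rw [if_neg h, if_pos (by omega), if_pos (by omega), zero_add]
    refine Finset.sum_congr rfl fun k hk => ?_
    have hk' := Finset.mem_range.1 hk
    rw [dg_shiftLeft, if_pos (by omega), lay, Nat.mod_eq_of_lt hi, if_neg h]
    exact congrArg _ (by omega)

private theorem kk_hiv (s : St) (i : ℕ) : hiv s i ≤ 20 := by
  have h := Finset.sum_le_card_nsmul (range 20) (fun k =>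
    if min (dg s.sl i) (dg s.sl ((i + 55) % 56)) ≤ 12 * 2 ^ 20 / (14 + k) then 1 else 0) 1
    fun k _ => by split_ifs <;> omega
  rwa [Finset.card_range, smul_eq_mul, mul_one] at h

/-- `X * C20 = ∑ r < 20, X <<< (64 * (28 * r))` -/
theorem hiW_spec {s : St} (hsl : Bd s.sl 56 (2 ^ 20)) :
    Bd (hiW (s.sl - lsub H56 s.sl (rotL 56 s.sl))) 56 20 ∧
      ∀ i < 56, dg (hiW (s.sl - lsub H56 s.sl (rotL 56 s.sl))) i = hiv s i := by
  have h20 : 2 ^ 20 < 2 ^ 63 := by norm_num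
  have b1 := rotL_spec (by norm_num) hsl h20
  have b2 := lsub_spec hsl b1.1 h20 h20 H56_eq
  have b3 := Bd.sub hsl b2.1 (fun l => by rw [b2.2 l]; exact Nat.sub_le _ _)
  have b6 : ∀ i < 56, dg (s.sl - lsub H56 s.sl (rotL 56 s.sl)) i =
      min (dg s.sl i) (dg s.sl ((i + 55) % 56)) := fun i hi => by
    rw [b3.2 i, b2.2 i, b1.2 i hi]
    show dg s.sl i - (dg s.sl i - dg s.sl ((i + 55) % 56)) = _
    omega
  have b7 := b3.1
  generalize s.sl - lsub H56 s.sl (rotL 56 s.sl) = SM at b6 b7 ⊢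
  have b4 := kk_spread b7 h20
  have b5 := lge_spec PBq_bd b4.1 h20 h20 H1120_eq
  have o2 : ∀ l < 1120, dg O1120 l = 1 := fun l hl => by
    rw [O1120_eq, dg_pk fun _ _ => by norm_num, if_pos hl]
  have x1 : Bd (lge H1120 PBq (spread SM) &&& O1120) 1120 1 := Bd.of_land (b := 1) (by norm_num) O1120_eq
  have e : hiW SM = low 28 (((lge H1120 PBq (spread SM) &&& O1120) * C20) >>> (64 * 532)) +
      low 28 (((lge H1120 PBq (spread SM) &&& O1120) * C20) >>> (64 * 1092)) <<< (64 * 28) := rfl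
  obtain ⟨c1, c2⟩ := kk_col x1
  rw [← e] at c1 c2
  have key : ∀ i < 56, dg (hiW SM) i = hiv s i := fun i hi => by
    rw [c2 i hi, hiv]
    refine Finset.sum_congr rfl fun k hk => ?_
    have hk' := Finset.mem_range.1 hk
    have hl := lay_lt hk' i
    rw [dg_land, b5.2 _ hl, o2 _ hl, b4.2 k hk' i hi, PBq_spec k hk' i hi, b6 i hi]
    split_ifs
    · rfl
    · rfl
  exact ⟨bd_of c1.1 fun i hi => by rw [key i hi]; exact kk_hiv s i, key⟩

private theorem kk_lm {ll : ℕ} (hll : Bd ll 168 (2 ^ 19)) :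
    Bd (lmW ll) 56 64 ∧ dg (lmW ll) 28 = 0 ∧ ∀ n, 29 ≤ n → n < 56 →
      dg (lmW ll) n = 64 - max (dg ll (112 + n)) (dg ll (111 + n)) := by
  have e : lmW ll = (lsub H28 (64 * O28) (lmax H28 (low 28 (ll >>> (64 * 140)))
      (low 28 (low 28 (ll >>> (64 * 140)) <<< (64 * 1)))) >>> (64 * 1)) <<< (64 * 29) := rfl
  obtain ⟨k1, k2⟩ := kk_low (hll.shiftRight 140) 28
  have k3 : ∀ i < 28, dg (low 28 (ll >>> (64 * 140))) i = dg ll (i + 140) := fun i hi => by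
    rw [k2, if_pos hi, dg_shiftRight]
  generalize low 28 (ll >>> (64 * 140)) = K at e k1 k3
  obtain ⟨a1, a2⟩ := kk_low (k1.shiftLeft 1) 28
  obtain ⟨m1, m2⟩ := lmax_spec k1 a1 (by norm_num) (by norm_num) H28_eq
  have o1 : Bd O28 28 1 := O28_eq ▸ Bd.pk (by norm_num) fun _ _ => le_rfl
  have o2 : ∀ l < 28, dg O28 l = 1 := fun l hl => by
    rw [O28_eq, dg_pk fun _ _ => by norm_num, if_pos hl]
  obtain ⟨s1, s2⟩ := o1.smul (c := 64) (by norm_num)
  obtain ⟨t1, t2⟩ := lsub_spec s1 m1 (by norm_num) (by norm_num) H28_eq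
  have u : ∀ n, dg (lmW ll) n = if 29 ≤ n then dg (lsub H28 (64 * O28) (lmax H28 K
      (low 28 (K <<< (64 * 1))))) (n - 29 + 1) else 0 := fun n => by
    rw [e, dg_shiftLeft, dg_shiftRight]
  refine ⟨isoerr_trunc (e ▸ (t1.shiftRight 1).shiftLeft 29) fun l hl => ?_, ?_, fun n h1 h2 => ?_⟩
  · rw [u, if_pos (by omega)]
    exact dg_of_ge t1.1 (by omega)
  · rw [u, if_neg (by norm_num)]
  · rw [u, if_pos h1, t2, s2, o2 _ (by omega), m2, a2, if_pos (by omega), dg_shiftLeft,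
      if_pos (by omega), k3 _ (by omega), k3 _ (by omega),
      show n - 29 + 1 + 140 = 112 + n by omega, show n - 29 + 1 - 1 + 140 = 111 + n by omega]

private theorem kk_kq {ll HI : ℕ} (hll : Bd ll 168 (2 ^ 19)) (hH : Bd HI 56 20) :
    Bd (kqW ll HI) 56 19 ∧ ∀ i < 56, dg (kqW ll HI) i =
      min (dg (lmW ll) (nuI i) - dg HI ((84 - i) % 56)) (dg HI i - 1) := by
  obtain ⟨l1, l2, -⟩ := kk_lm hll
  obtain ⟨n1, n2⟩ := nuW_spec l1 (by norm_num) l2
  obtain ⟨r1, r2⟩ := rev_spec hH (by norm_num)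
  have e : kqW ll HI = lsub H56 (nuW (lmW ll)) (low 56 (rev HI 56 <<< (64 * 29)) + rev HI 56 >>> (64 * 27)) -
      lsub H56 (lsub H56 (nuW (lmW ll)) (low 56 (rev HI 56 <<< (64 * 29)) + rev HI 56 >>> (64 * 27)))
        (lsub H56 HI O56) := rfl
  generalize rev HI 56 = R at e r1 r2
  obtain ⟨a1, a2⟩ := kk_low (r1.shiftLeft 29) 56
  obtain ⟨b1, b2⟩ := a1.add (r1.shiftRight 27) (by norm_num)
  have b3 : ∀ i < 56, dg (low 56 (R <<< (64 * 29)) + R >>> (64 * 27)) i = dg HI ((84 - i) % 56) := by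
    intro i hi
    rw [b2, a2, if_pos hi, dg_shiftLeft, dg_shiftRight]
    by_cases h : 29 ≤ i
    · rw [if_pos h, dg_of_ge r1.1 (show 56 ≤ i + 27 by omega), add_zero, r2 _ (by omega)]
      exact congrArg _ (by omega)
    · rw [if_neg h, zero_add, r2 _ (by omega)]
      exact congrArg _ (by omega)
  generalize low 56 (R <<< (64 * 29)) + R >>> (64 * 27) = S at e b1 b3
  obtain ⟨c1, c2⟩ := lsub_spec n1 b1 (by norm_num) (by norm_num) H56_eq
  obtain ⟨d1, d2⟩ := lsub_spec hH kk_O56.1 (by norm_num) (by norm_num) H56_eq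
  obtain ⟨f1, f2⟩ := lsub_spec c1 d1 (by norm_num) (by norm_num) H56_eq
  obtain ⟨g1, g2⟩ := c1.sub f1 (fun l => by rw [f2]; exact Nat.sub_le _ _)
  rw [← e] at g1 g2
  have key : ∀ i < 56, dg (kqW ll HI) i =
      min (dg (lmW ll) (nuI i) - dg HI ((84 - i) % 56)) (dg HI i - 1) := fun i hi => by
    rw [g2, f2, d2, c2, kk_O56.2, if_pos hi, b3 i hi, n2 i hi]
    omega
  refine ⟨bd_of g1.1 fun i hi => ?_, key⟩
  have := hH.2 i
  rw [key i hi]
  omega

private theorem kk_bmul {N Q a : ℕ} (hN : Bd N 56 a) {b : ℕ} (hb : b < 64) (h : 2 ^ b * a < 2 ^ 64) :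
    Bd (bmul N Q b) 56 (2 ^ b * a) ∧ ∀ i < 56,
      dg (bmul N Q b) i = dg N i * if (dg Q i).testBit b then 2 ^ b else 0 := by
  have h1 : Bd (Q >>> b &&& O56) 56 1 := Bd.of_land (b := 1) (by norm_num) O56_eq
  have h2 : ∀ c < 56, dg (Q >>> b &&& O56) c = if (dg Q c).testBit b then 1 else 0 := by
    intro c hc
    rw [dg_land, kk_O56.2, if_pos hc, ← testBit_dg Q c hb, add_comm,
      ← Nat.testBit_shiftRight, ← add_zero (64 * c), testBit_dg _ c (by norm_num : 0 < 64),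
      Nat.and_one_is_mod, Nat.testBit_zero]
    split_ifs with h
    · simpa using h
    · have := Nat.mod_two_eq_zero_or_one (dg (Q >>> b) c)
      simp only [decide_eq_true_eq] at h
      omega
  obtain ⟨-, h4⟩ := h1.smul (c := 2 ^ 64 - 1) (by norm_num)
  have e : bmul N Q b = 2 ^ b * (N &&& (2 ^ 64 - 1) * (Q >>> b &&& O56)) := by
    unfold bmul
    rw [Nat.shiftLeft_eq, mul_comm (Q >>> b &&& O56), mul_comm _ (2 ^ b)]
    rfl
  generalize (2 ^ 64 - 1) * (Q >>> b &&& O56) = M at e h4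
  obtain ⟨m1, m2⟩ := mask_spec (M := M) hN
  obtain ⟨s1, s2⟩ := m1.smul (c := 2 ^ b) h
  rw [e]
  refine ⟨s1, fun i hi => ?_⟩
  have h5 := h4 i
  rw [h2 i hi] at h5
  rw [s2]
  split_ifs at h5 ⊢
  · rw [m2 i (by rw [h5, mul_one]), mul_comm]
  · rw [isoerr_zero (by rw [h5, mul_zero]), mul_zero, mul_zero]

private theorem kk_bits : ∀ d < 32, (if d.testBit 0 then 2 ^ 0 else 0) +
    (if d.testBit 1 then 2 ^ 1 else 0) + (if d.testBit 2 then 2 ^ 2 else 0) +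
    (if d.testBit 3 then 2 ^ 3 else 0) + (if d.testBit 4 then 2 ^ 4 else 0) = d := by decide +kernel

private theorem kk_kx {N Q : ℕ} (hN : Bd N 56 (2 ^ 31 - 1)) (hQ : Bd Q 56 19) :
    Bd (kx2 N Q) 1120 (2 ^ 56) ∧ ∀ k < 20, ∀ i < 56,
      dg (kx2 N Q) (lay k i) = dg N i * (dg Q i - k) * 2 ^ 20 := by
  obtain ⟨a0, b0⟩ := kk_bmul (Q := Q) hN (b := 0) (by norm_num) (by norm_num)
  obtain ⟨a1, b1⟩ := kk_bmul (Q := Q) hN (b := 1) (by norm_num) (by norm_num)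
  obtain ⟨a2, b2⟩ := kk_bmul (Q := Q) hN (b := 2) (by norm_num) (by norm_num)
  obtain ⟨a3, b3⟩ := kk_bmul (Q := Q) hN (b := 3) (by norm_num) (by norm_num)
  obtain ⟨a4, b4⟩ := kk_bmul (Q := Q) hN (b := 4) (by norm_num) (by norm_num)
  obtain ⟨c1, d1⟩ := a0.add a1 (by norm_num)
  obtain ⟨c2, d2⟩ := c1.add a2 (by norm_num)
  obtain ⟨c3, d3⟩ := c2.add a3 (by norm_num)
  obtain ⟨c4, d4⟩ := c3.add a4 (by norm_num)
  have d5 : ∀ i < 56, dg (bmul N Q 0 + bmul N Q 1 + bmul N Q 2 + bmul N Q 3 + bmul N Q 4) i =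
      dg N i * dg Q i := fun i hi => by
    rw [d4, d3, d2, d1, b0 i hi, b1 i hi, b2 i hi, b3 i hi, b4 i hi, ← mul_add, ← mul_add, ← mul_add,
      ← mul_add, kk_bits _ (lt_of_le_of_lt (hQ.2 i) (by norm_num))]
  have e : kx2 N Q = lsub H1120 (spread (2 ^ 20 *
      (bmul N Q 0 + bmul N Q 1 + bmul N Q 2 + bmul N Q 3 + bmul N Q 4))) (kron N KKA KKB) := by
    rw [kx2, Nat.shiftLeft_eq, mul_comm]
  generalize bmul N Q 0 + bmul N Q 1 + bmul N Q 2 + bmul N Q 3 + bmul N Q 4 = W at e c4 d5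
  obtain ⟨s1, s2⟩ := c4.smul (c := 2 ^ 20) (by norm_num)
  obtain ⟨p1, p2⟩ := kk_spread s1 (by norm_num)
  obtain ⟨k1, k2⟩ := kron_spec (f := fun k => k * 2 ^ 20) (b := 19 * 2 ^ 20) hN
    (fun k hk => Nat.mul_le_mul_right _ (by omega)) KKA_eq KKB_eq (by norm_num) (by norm_num)
  obtain ⟨t1, t2⟩ := lsub_spec p1 k1 (by norm_num) (by norm_num) H1120_eq
  rw [e]
  refine ⟨t1.mono le_rfl (by norm_num), fun k hk i hi => ?_⟩
  rw [t2, p2 k hk i hi, k2 k hk i hi, s2, d5 i hi, Nat.mul_sub, Nat.sub_mul, mul_comm (2 ^ 20),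
    mul_assoc _ k]

theorem kinkX_spec {s : St} (hsl : Bd s.sl 56 (2 ^ 20)) (hll : Bd s.ll 168 (2 ^ 19)) (c : Cm) :
    Bd (kinkX s.ll (s.sl - lsub H56 s.sl (rotL 56 s.sl)) (c.mu &&& N31)) 1120 (2 ^ 56) ∧
      ∀ k < 20, ∀ i < 56, dg (kinkX s.ll (s.sl - lsub H56 s.sl (rotL 56 s.sl)) (c.mu &&& N31)) (lay k i) =
        kv s c k i := by
  obtain ⟨h1, h2⟩ := hiW_spec hsl
  obtain ⟨m1, m2⟩ := mu_bd c
  obtain ⟨n1, n2⟩ := nuW_spec m1 (by norm_num) m2
  obtain ⟨q1, q2⟩ := kk_kq hll h1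
  obtain ⟨-, -, l3⟩ := kk_lm hll
  obtain ⟨x1, x2⟩ := kk_kx n1 q1
  unfold kinkX
  refine ⟨x1, fun k hk i hi => ?_⟩
  rw [x2 k hk i hi, n2 i hi, q2 i hi, h2 i hi, h2 _ (Nat.mod_lt _ (by norm_num)), kv, nuv, kqv,
    Nat.mod_eq_of_lt hi]
  by_cases h : 29 ≤ nuI i ∧ nuI i < 56
  · rw [l3 _ h.1 h.2]
  · have h0 : dg (c.mu &&& N31) (nuI i) = 0 := by
      have h3 : nuI i = 28 ∨ 56 ≤ nuI i := by
        unfold nuI at h ⊢
        split_ifs at h ⊢ <;> omega
      rcases h3 with h3 | h3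
      · rw [h3, m2]
      · exact dg_of_ge m1.1 h3
    rw [h0, zero_mul, zero_mul, zero_mul, zero_mul]

end Pool.Agent.P.MP_2e1554_gt.Chk
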