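import Pool.Agent.P.MP_2e1554_gt.IsoGeo
import Pool.Agent.P.MP_2e1554_gt.IsoRow

/-! The table of the potential is a bilinear majorant. -/

open MeasureTheory Set Finset

namespace Pool.Agent.P.MP_2e1554_gt.Chk

/-- the correction between grid values `k` and `k+1` -/
def eN (u u' k : ℕ) : ℕ := (u - u') * (31 + 2 * k) - u'

private theorem bd_zero (N b : ℕ) : Bd 0 N b :=
  ⟨Nat.two_pow_pos _, fun i => by simp [dg]⟩

private theorem dg_zero (i : ℕ) : dg 0 i = 0 := by simp [dg]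

private theorem erow_spec {U : ℕ → ℕ} (hU : ∀ k < 20, Bd (U k) 56 (2 ^ 50 + 1)) {k : ℕ}
    (hk : k < 19) : Bd (erow U k) 56 (67 * (2 ^ 50 + 1)) ∧
      ∀ i, dg (erow U k) i = eN (dg (U k) i) (dg (U (k + 1)) i) k := by
  have h0 := hU k (by omega)
  have h1 := hU (k + 1) (by omega)
  obtain ⟨a1, a2⟩ := lsub_spec h0 h1 (by norm_num) (by norm_num) H56_eq
  have hc : (31 + 2 * k) * (2 ^ 50 + 1) ≤ 67 * (2 ^ 50 + 1) :=
    Nat.mul_le_mul_right _ (by omega)
  obtain ⟨b1, b2⟩ := a1.smul (c := 31 + 2 * k) (lt_of_le_of_lt hc (by norm_num))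
  obtain ⟨c1, c2⟩ := lsub_spec (b1.mono le_rfl hc) h1 (by norm_num) (by norm_num) H56_eq
  have e : erow U k = lsub H56 ((31 + 2 * k) * lsub H56 (U k) (U (k + 1))) (U (k + 1)) := by
    unfold erow
    rw [force_eq, Nat.mul_comm]
  rw [e]
  refine ⟨c1, fun i => ?_⟩
  rw [c2, b2, a2, eN, Nat.mul_comm]

private theorem trow_spec {U : ℕ → ℕ} (hU : ∀ k < 20, Bd (U k) 56 (2 ^ 50 + 1)) {k : ℕ}
    (hk : k < 20) : Bd (trow U k) 56 (4691 * (2 ^ 50 + 1)) ∧
      ∀ i, dg (trow U k) i = 4 * (15 + k) * (15 + k) * dg (U k) i +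
        max (if k = 0 then 0 else eN (dg (U (k - 1)) i) (dg (U k) i) (k - 1))
          (if k = 19 then 0 else eN (dg (U k) i) (dg (U (k + 1)) i) k) := by
  have hA : Bd (bif Nat.beq k 0 then 0 else force (k - 1) (erow U)) 56 (67 * (2 ^ 50 + 1)) ∧
      ∀ i, dg (bif Nat.beq k 0 then 0 else force (k - 1) (erow U)) i =
        if k = 0 then 0 else eN (dg (U (k - 1)) i) (dg (U k) i) (k - 1) := by
    rcases Nat.eq_zero_or_pos k with h | h
    · subst h
      exact ⟨bd_zero _ _, fun i => dg_zero i⟩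
    · have hb : Nat.beq k 0 = false := by
        obtain ⟨m, rfl⟩ : ∃ m, k = m + 1 := ⟨k - 1, by omega⟩
        rfl
      rw [hb, cond_false, force_eq]
      obtain ⟨a1, a2⟩ := erow_spec hU (k := k - 1) (by omega)
      refine ⟨a1, fun i => ?_⟩
      rw [a2, if_neg (by omega), show k - 1 + 1 = k by omega]
  have hB : Bd (bif Nat.beq k 19 then 0 else erow U k) 56 (67 * (2 ^ 50 + 1)) ∧
      ∀ i, dg (bif Nat.beq k 19 then 0 else erow U k) i =
        if k = 19 then 0 else eN (dg (U k) i) (dg (U (k + 1)) i) k := by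
    by_cases h : k = 19
    · subst h
      exact ⟨bd_zero _ _, fun i => dg_zero i⟩
    · have hb : Nat.beq k 19 = false := by
        cases hb : Nat.beq k 19
        · rfl
        · exact absurd (Nat.eq_of_beq_eq_true hb) h
      rw [hb, cond_false]
      obtain ⟨a1, a2⟩ := erow_spec hU (k := k) (by omega)
      refine ⟨a1, fun i => ?_⟩
      rw [a2, if_neg h]
  obtain ⟨m1, m2⟩ := lmax_spec hA.1 hB.1 (by norm_num) (by norm_num) H56_eq
  rw [max_self] at m1
  have hc : 4 * (15 + k) * (15 + k) * (2 ^ 50 + 1) ≤ 4624 * (2 ^ 50 + 1) := by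
    refine Nat.mul_le_mul_right _ ?_
    have h34 : 15 + k ≤ 34 := by omega
    calc 4 * (15 + k) * (15 + k) ≤ 4 * 34 * 34 :=
          Nat.mul_le_mul (Nat.mul_le_mul_left 4 h34) h34
      _ = 4624 := by norm_num
  obtain ⟨s1, s2⟩ := (hU k hk).smul (c := 4 * (15 + k) * (15 + k))
    (lt_of_le_of_lt hc (by norm_num))
  obtain ⟨t1, t2⟩ := (s1.mono le_rfl hc).add m1 (by norm_num)
  unfold trow
  refine ⟨t1.mono le_rfl (by norm_num), fun i => ?_⟩
  rw [t2, s2, m2, hA.2, hB.2]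

private theorem bd_hi {T b : ℕ} (h : Bd T 56 b) : Bd (T >>> (64 * 28)) 28 b := by
  refine ⟨?_, (h.shiftRight 28).2⟩
  rw [Nat.shiftRight_eq_div_pow]
  refine Nat.div_lt_of_lt_mul ?_
  rw [← pow_add]
  exact h.1

private theorem tabl_succ (U : ℕ → ℕ) (n : ℕ) : tabl U (n + 1) =
    tabl U n + low 28 (trow U n) <<< (1792 * n) + (trow U n >>> 1792) <<< (1792 * (39 - n)) :=
  force_eq n fun k' => tabl U n + low 28 (trow U k') <<< (1792 * k') +
    (trow U k' >>> 1792) <<< (1792 * (39 - k'))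

private theorem lanes3 {X T b n : ℕ} (hb : 3 * b < 2 ^ 64) (hX : Bd X 1120 b) (hT : Bd T 56 b)
    (hn : n < 20) :
    X + low 28 T <<< (1792 * n) + (T >>> 1792) <<< (1792 * (39 - n)) < 2 ^ (64 * 1120) ∧
      ∀ l, dg (X + low 28 T <<< (1792 * n) + (T >>> 1792) <<< (1792 * (39 - n))) l =
        dg X l + (if 28 * n ≤ l ∧ l < 28 * (n + 1) then dg T (l % 28) else 0) +
          (if 28 * (39 - n) ≤ l ∧ l < 28 * (40 - n) then dg T (l % 28 + 28) else 0) := by
  have n1 : 28 + 28 * n ≤ 1120 := by omega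
  have n2 : 28 + 28 * (39 - n) ≤ 1120 := by omega
  have n3 : b + b < 2 ^ 64 := by omega
  have n4 : b + b + b < 2 ^ 64 := by omega
  have e1 : 1792 * n = 64 * (28 * n) := by omega
  have e2 : 1792 * (39 - n) = 64 * (28 * (39 - n)) := by omega
  have q1 : ∀ l, (if 28 * n ≤ l then (if l - 28 * n < 28 then dg T (l - 28 * n) else 0) else 0) =
      if 28 * n ≤ l ∧ l < 28 * (n + 1) then dg T (l % 28) else 0 := by
    intro l
    by_cases h1 : 28 * n ≤ l
    · by_cases h2 : l < 28 * (n + 1)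
      · rw [if_pos h1, if_pos (by omega), if_pos ⟨h1, h2⟩, show l - 28 * n = l % 28 by omega]
      · rw [if_pos h1, if_neg (by omega), if_neg fun h => h2 h.2]
    · rw [if_neg h1, if_neg fun h => h1 h.1]
  have q2 : ∀ l, (if 28 * (39 - n) ≤ l then dg T (l - 28 * (39 - n) + 28) else 0) =
      if 28 * (39 - n) ≤ l ∧ l < 28 * (40 - n) then dg T (l % 28 + 28) else 0 := by
    intro l
    by_cases h1 : 28 * (39 - n) ≤ l
    · by_cases h2 : l < 28 * (40 - n)
      · rw [if_pos h1, if_pos ⟨h1, h2⟩, show l - 28 * (39 - n) = l % 28 by omega]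
      · rw [if_pos h1, if_neg fun h => h2 h.2]
        exact dg_of_ge hT.1 (by omega)
    · rw [if_neg h1, if_neg fun h => h1 h.1]
  rw [low_eq, e1, e2, show T >>> 1792 = T >>> (64 * 28) from rfl]
  have b1 := ((hT.mod 28).shiftLeft (28 * n)).mono n1 le_rfl
  have b2 := ((bd_hi hT).shiftLeft (28 * (39 - n))).mono n2 le_rfl
  obtain ⟨c1, c2⟩ := hX.add b1 n3
  obtain ⟨d1, d2⟩ := c1.add b2 n4
  refine ⟨d1.1, fun l => ?_⟩
  rw [d2, c2, dg_shiftLeft, dg_shiftLeft, dg_mod, dg_shiftRight, q1, q2]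

private theorem tabl_aux {T F : ℕ → ℕ} {b : ℕ} (hb : 3 * b < 2 ^ 64)
    (hT : ∀ k < 20, Bd (T k) 56 b) (h0 : F 0 = 0) (hF : ∀ n, F (n + 1) =
      F n + low 28 (T n) <<< (1792 * n) + (T n >>> 1792) <<< (1792 * (39 - n)))
    (n : ℕ) (hn : n ≤ 20) :
    Bd (F n) 1120 b ∧ ∀ l, dg (F n) l =
      if l < 28 * n then dg (T (l / 28)) (l % 28) else
        if 28 * (40 - n) ≤ l ∧ l < 1120 then dg (T (39 - l / 28)) (l % 28 + 28) else 0 := by
  induction n with
  | zero =>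
    rw [h0]
    refine ⟨bd_zero _ _, fun l => ?_⟩
    rw [if_neg (by omega), if_neg (by omega)]
    exact dg_zero l
  | succ n ih =>
    have hn' : n < 20 := hn
    obtain ⟨i1, i2⟩ := ih hn'.le
    obtain ⟨d1, d2⟩ := lanes3 hb i1 (hT n hn') hn'
    rw [← hF] at d1 d2
    have d1' : ∀ b', (∀ l, dg (F (n + 1)) l ≤ b') → Bd (F (n + 1)) 1120 b' := fun _ h => ⟨d1, h⟩
    clear d1 hF hb
    have key : ∀ l, dg (F (n + 1)) l =
        if l < 28 * (n + 1) then dg (T (l / 28)) (l % 28) else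
          if 28 * (40 - (n + 1)) ≤ l ∧ l < 1120 then dg (T (39 - l / 28)) (l % 28 + 28)
            else 0 := by
      intro l
      rw [d2, i2]
      by_cases h1 : l < 28 * n
      · rw [if_pos h1, if_neg (by omega), if_neg (by omega), if_pos (by omega), Nat.add_zero]
      by_cases h2 : l < 28 * (n + 1)
      · rw [if_neg h1, if_neg (by omega), if_pos (by omega), if_neg (by omega),
          if_pos h2, show l / 28 = n by omega, Nat.add_zero, Nat.zero_add]
      by_cases h3 : l < 28 * (39 - n)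
      · rw [if_neg h1, if_neg (by omega), if_neg (by omega), if_neg (by omega),
          if_neg h2, if_neg (by omega)]
      by_cases h4 : l < 28 * (40 - n)
      · rw [if_neg h1, if_neg (by omega), if_neg (by omega), if_pos (by omega),
          if_neg h2, if_pos (by omega), show 39 - l / 28 = n by omega, Nat.zero_add]
      · rw [if_neg h1, if_neg (show ¬(28 * n ≤ l ∧ l < 28 * (n + 1)) by omega),
          if_neg (show ¬(28 * (39 - n) ≤ l ∧ l < 28 * (40 - n)) by omega), if_neg h2, Nat.add_zero]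
        by_cases h5 : l < 1120
        · rw [if_pos (by omega), if_pos (by omega)]
        · rw [if_neg (by omega), if_neg (by omega)]
    refine ⟨d1' b fun l => ?_, key⟩
    rw [key]
    split_ifs with h1 h2
    · exact (hT _ (by omega)).2 _
    · exact (hT _ (by omega)).2 _
    · exact Nat.zero_le _

theorem tabl_spec {U : ℕ → ℕ} (hU : ∀ k < 20, Bd (U k) 56 (2 ^ 50 + 1)) :
    Bd (tabl U 20) 1120 (2 ^ 63 - 1) ∧ ∀ k < 20, ∀ i < 56, dg (tabl U 20) (lay k i) =
      4 * (15 + k) * (15 + k) * dg (U k) i +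
        max (if k = 0 then 0 else eN (dg (U (k - 1)) i) (dg (U k) i) (k - 1))
          (if k = 19 then 0 else eN (dg (U k) i) (dg (U (k + 1)) i) k) := by
  obtain ⟨a1, a2⟩ := tabl_aux (T := trow U) (F := tabl U) (b := 4691 * (2 ^ 50 + 1)) (by norm_num)
    (fun k hk => (trow_spec hU hk).1) rfl (tabl_succ U) 20 le_rfl
  refine ⟨a1.mono le_rfl (by norm_num), fun k hk i hi => ?_⟩
  rw [a2, ← (trow_spec hU hk).2 i]
  unfold lay
  rw [Nat.mod_eq_of_lt hi]
  by_cases h : i < 28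
  · rw [if_pos h, if_pos (by omega), show (28 * k + i) / 28 = k by omega,
      show (28 * k + i) % 28 = i by omega]
  · rw [if_neg h, if_neg (by omega), if_pos (by omega),
      show 39 - (28 * (39 - k) + (i - 28)) / 28 = k by omega,
      show (28 * (39 - k) + (i - 28)) % 28 + 28 = i by omega]

/-- `4(m+l)²((1-l)u+l u') - (1-l)4m²u - l 4(m+1)²u' = 4l(1-l)((u-u')(2m+l) - u')`, `m = 15+k` -/
theorem step_s (u u' k : ℕ) {l : ℝ} (hl : l ∈ Icc (0 : ℝ) 1) :
    4 * (15 + k + l) ^ 2 * ((1 - l) * u + l * u') ≤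
      (1 - l) * (4 * (15 + k) * (15 + k) * u) + l * (4 * (16 + k) * (16 + k) * u') + eN u u' k := by
  obtain ⟨h0, h1⟩ := hl
  have hE : (0 : ℝ) ≤ eN u u' k := Nat.cast_nonneg _
  have hk : (0 : ℝ) ≤ k := Nat.cast_nonneg _
  have hu' : (0 : ℝ) ≤ u' := Nat.cast_nonneg _
  have hD : ((u : ℝ) - u') * (2 * (15 + k) + l) - u' ≤ eN u u' k := by
    rcases le_total u u' with h | h
    · have h' : (u : ℝ) ≤ u' := by exact_mod_cast h
      have : ((u : ℝ) - u') * (2 * (15 + k) + l) ≤ 0 :=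
        mul_nonpos_of_nonpos_of_nonneg (by linarith) (by linarith)
      linarith
    · have h' : (u' : ℝ) ≤ u := by exact_mod_cast h
      have a1 : (u - u') * (31 + 2 * k) ≤ eN u u' k + u' := by
        unfold eN
        omega
      have a2 : ((u : ℝ) - u') * (31 + 2 * k) ≤ eN u u' k + u' := by
        have := (Nat.cast_le (α := ℝ)).2 a1
        push_cast [Nat.cast_sub h] at this
        exact this
      have a3 : ((u : ℝ) - u') * (2 * (15 + k) + l) ≤ ((u : ℝ) - u') * (31 + 2 * k) :=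
        mul_le_mul_of_nonneg_left (by linarith) (by linarith)
      linarith
  have w0 : 0 ≤ 4 * (l * (1 - l)) := by
    have := mul_nonneg h0 (sub_nonneg.2 h1)
    linarith
  have w1 : 4 * (l * (1 - l)) ≤ 1 := by nlinarith [sq_nonneg (2 * l - 1)]
  have a4 := mul_le_mul_of_nonneg_left hD w0
  have a5 := mul_le_mul_of_nonneg_right w1 hE
  have e : 4 * (15 + k + l) ^ 2 * ((1 - l) * u + l * u') =
      (1 - l) * (4 * (15 + k) * (15 + k) * u) + l * (4 * (16 + k) * (16 + k) * u') +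
        4 * (l * (1 - l)) * (((u : ℝ) - u') * (2 * (15 + k) + l) - u') := by ring
  rw [e]
  linarith

private theorem env_l {P M m l : ℝ} (hP : 0 ≤ P) (hM : 0 ≤ M) (h0 : 0 ≤ l) (h1 : l ≤ 1) :
    (1 - l) * (P * (4 * m ^ 2 - 1) - M * (4 * m ^ 2)) +
      l * (P * (4 * (m + 1) ^ 2 - 1) - M * (4 * (m + 1) ^ 2)) ≤ 4 * (m + l) ^ 2 * (P - M) := by
  have w0 : 0 ≤ l * (1 - l) := mul_nonneg h0 (sub_nonneg.2 h1)
  have a1 := mul_nonneg hP (sq_nonneg (2 * l - 1))
  have a2 := mul_nonneg hM w0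
  have e : 4 * (m + l) ^ 2 * (P - M) = (1 - l) * (P * (4 * m ^ 2 - 1) - M * (4 * m ^ 2)) +
      l * (P * (4 * (m + 1) ^ 2 - 1) - M * (4 * (m + 1) ^ 2)) +
        (P * (2 * l - 1) ^ 2 + 4 * (M * (l * (1 - l)))) := by ring
  rw [e]
  linarith

private theorem env_x {P M P' M' e e' m x l : ℝ} (hP : 0 ≤ P) (hM : 0 ≤ M) (hP' : 0 ≤ P')
    (hM' : 0 ≤ M') (a : P - M ≤ 4 * e ^ 2 - (e' - e) ^ 2) (a' : P' - M' ≤ 4 * e' ^ 2 - (e' - e) ^ 2)
    (hx : x ∈ Icc (0 : ℝ) 1) (hl : l ∈ Icc (0 : ℝ) 1) :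
    (1 - x) * ((1 - l) * (P * (4 * m ^ 2 - 1) - M * (4 * m ^ 2)) +
      l * (P * (4 * (m + 1) ^ 2 - 1) - M * (4 * (m + 1) ^ 2))) +
      x * ((1 - l) * (P' * (4 * m ^ 2 - 1) - M' * (4 * m ^ 2)) +
        l * (P' * (4 * (m + 1) ^ 2 - 1) - M' * (4 * (m + 1) ^ 2))) ≤
      16 * (m + l) ^ 2 * ((1 - x) * e + x * e') ^ 2 := by
  have b1 := mul_le_mul_of_nonneg_left (env_l (m := m) hP hM hl.1 hl.2) (sub_nonneg.2 hx.2)
  have b2 := mul_le_mul_of_nonneg_left (env_l (m := m) hP' hM' hl.1 hl.2) hx.1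
  have c1 := mul_le_mul_of_nonneg_left a (sub_nonneg.2 hx.2)
  have c2 := mul_le_mul_of_nonneg_left a' hx.1
  have c3 : (1 - x) * (P - M) + x * (P' - M') ≤ 4 * ((1 - x) * e + x * e') ^ 2 := by
    have e1 : 4 * ((1 - x) * e + x * e') ^ 2 = (1 - x) * (4 * e ^ 2 - (e' - e) ^ 2) +
        x * (4 * e' ^ 2 - (e' - e) ^ 2) + ((2 * x - 1) * (e' - e)) ^ 2 := by ring
    rw [e1]
    linarith [sq_nonneg ((2 * x - 1) * (e' - e))]
  have c4 := mul_le_mul_of_nonneg_left c3 (show 0 ≤ 4 * (m + l) ^ 2 by positivity)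
  have e2 : 4 * (m + l) ^ 2 * ((1 - x) * (P - M) + x * (P' - M')) =
      (1 - x) * (4 * (m + l) ^ 2 * (P - M)) + x * (4 * (m + l) ^ 2 * (P' - M')) := by ring
  have e3 : 4 * (m + l) ^ 2 * (4 * ((1 - x) * e + x * e') ^ 2) =
      16 * (m + l) ^ 2 * ((1 - x) * e + x * e') ^ 2 := by ring
  rw [e2, e3] at c4
  linarith

private theorem ep_0 (i : ℕ) (x : ℝ) :
    ep i x 0 = ((1 - x) * (ex i : ℝ) + x * (ex (i + 1) : ℝ)) / 24 := by
  simp only [ep, en, Pi.add_apply, Pi.smul_apply, smul_eq_mul, Matrix.cons_val_zero]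
  ring

private theorem ep_1 (i : ℕ) (x : ℝ) :
    ep i x 1 = ((1 - x) * (ey i : ℝ) + x * (ey (i + 1) : ℝ)) / 24 := by
  simp only [ep, en, Pi.add_apply, Pi.smul_apply, smul_eq_mul, Matrix.cons_val_one,
    Matrix.cons_val_zero]
  ring

/-- the lower envelope of the quadratic part (`XP_spec`) -/
theorem tC_le (g1 g2 : ℕ) {k i : ℕ} (hi : i < 56) {x l : ℝ} (hx : x ∈ Icc (0 : ℝ) 1)
    (hl : l ∈ Icc (0 : ℝ) 1) : bil (tC g1 g2) k i x l ≤
      g1 / SG * ((15 + k + l) / 12 * ep i x 0) ^ 2 + g2 / SG * ((15 + k + l) / 12 * ep i x 1) ^ 2 := by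
  obtain ⟨p1, p2, p3, p4⟩ := XP_spec i hi
  rw [ep_0, ep_1]
  unfold bil tC
  rw [Nat.mod_eq_of_lt hi, SG_eq]
  generalize dg XP i = a1 at *
  generalize dg XM i = a2 at *
  generalize dg YP i = a3 at *
  generalize dg YM i = a4 at *
  generalize dg XP ((i + 1) % 56) = b1 at *
  generalize dg XM ((i + 1) % 56) = b2 at *
  generalize dg YP ((i + 1) % 56) = b3 at *
  generalize dg YM ((i + 1) % 56) = b4 at *
  generalize ex i = e1 at *
  generalize ex (i + 1) = e2 at *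
  generalize ey i = f1 at *
  generalize ey (i + 1) = f2 at *
  have q1 : (a1 : ℝ) - a2 ≤ 4 * (e1 : ℝ) ^ 2 - ((e2 : ℝ) - e1) ^ 2 := by exact_mod_cast p1
  have q2 : (b1 : ℝ) - b2 ≤ 4 * (e2 : ℝ) ^ 2 - ((e2 : ℝ) - e1) ^ 2 := by exact_mod_cast p2
  have q3 : (a3 : ℝ) - a4 ≤ 4 * (f1 : ℝ) ^ 2 - ((f2 : ℝ) - f1) ^ 2 := by exact_mod_cast p3
  have q4 : (b3 : ℝ) - b4 ≤ 4 * (f2 : ℝ) ^ 2 - ((f2 : ℝ) - f1) ^ 2 := by exact_mod_cast p4
  have r1 := mul_le_mul_of_nonneg_left (env_x (m := 15 + (k : ℝ)) (Nat.cast_nonneg a1)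
    (Nat.cast_nonneg a2) (Nat.cast_nonneg b1) (Nat.cast_nonneg b2) q1 q2 hx hl)
    (show (0 : ℝ) ≤ g1 / (9437184 * 1327104) by positivity)
  have r2 := mul_le_mul_of_nonneg_left (env_x (m := 15 + (k : ℝ)) (Nat.cast_nonneg a3)
    (Nat.cast_nonneg a4) (Nat.cast_nonneg b3) (Nat.cast_nonneg b4) q3 q4 hx hl)
    (show (0 : ℝ) ≤ g2 / (9437184 * 1327104) by positivity)
  refine le_of_eq_of_le ?_ ((add_le_add r1 r2).trans_eq ?_)
  · push_cast
    ring
  · ring

private theorem en_mod {i : ℕ} (hi : i < 56) : en ((i + 1) % 56) = en (i + 1) := by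
  rcases lt_or_ge (i + 1) 56 with h | h
  · rw [Nat.mod_eq_of_lt h]
  · obtain rfl : i = 55 := by omega
    exact en_56.1.symm

theorem tB_eq (v1 v2 : ℕ) {k i : ℕ} (hi : i < 56) (x l : ℝ) : bil (tB v1 v2) k i x l =
    (v1 / SG - 2) * ((15 + k + l) / 12 * ep i x 0) + (v2 / SG - 2) * ((15 + k + l) / 12 * ep i x 1) := by
  unfold bil tB
  rw [Nat.mod_eq_of_lt hi, en_mod hi]
  simp only [ep, Pi.add_apply, Pi.smul_apply, smul_eq_mul]
  push_cast
  ring

private theorem jensen4 {a B C x l : ℝ} {FB FC : ℕ → ℕ → ℝ} {k i : ℕ} (hx : x ∈ Icc (0 : ℝ) 1)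
    (hl : l ∈ Icc (0 : ℝ) 1) (o1 : PsiOK a (FB k i) (FC k i))
    (o2 : PsiOK a (FB (k + 1) i) (FC (k + 1) i)) (o3 : PsiOK a (FB k (i + 1)) (FC k (i + 1)))
    (o4 : PsiOK a (FB (k + 1) (i + 1)) (FC (k + 1) (i + 1))) (hB : bil FB k i x l = B)
    (hC : bil FC k i x l ≤ C) :
    PsiOK a B C ∧ Psi a B C ≤ bil (fun k i => Psi a (FB k i) (FC k i)) k i x l := by
  have x0 := hx.1
  have x1 := sub_nonneg.2 hx.2
  have l0 := hl.1
  have l1 := sub_nonneg.2 hl.2
  constructor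
  · intro u hu
    have pos : ∀ {t p q : ℝ}, 0 ≤ t → 0 ≤ 1 - t → 0 < p → 0 < q → 0 < (1 - t) * p + t * q := by
      intro t p q t0 t1 hp hq
      rcases t0.eq_or_lt with h | h
      · subst h
        simpa using hp
      · exact add_pos_of_nonneg_of_pos (mul_nonneg t1 hp.le) (mul_pos h hq)
    have p := pos x0 x1 (pos l0 l1 (o1 u hu) (o2 u hu)) (pos l0 l1 (o3 u hu) (o4 u hu))
    have c := mul_le_mul_of_nonneg_right hC (sq_nonneg u)
    rw [← hB]
    refine p.trans_le (le_of_eq_of_le ?_ (add_le_add_right c (a + 2 * bil FB k i x l * u)))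
    unfold bil
    ring
  · have J := psi_jensen (Finset.univ : Finset (Fin 4))
      ![(1 - x) * (1 - l), (1 - x) * l, x * (1 - l), x * l] (fun _ => a)
      ![FB k i, FB (k + 1) i, FB k (i + 1), FB (k + 1) (i + 1)]
      ![FC k i, FC (k + 1) i, FC k (i + 1), FC (k + 1) (i + 1)]
      (by
        intro j _
        fin_cases j
        · exact mul_nonneg x1 l1
        · exact mul_nonneg x1 l0
        · exact mul_nonneg x0 l1
        · exact mul_nonneg x0 l0)
      (by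
        simp only [Fin.sum_univ_four, Matrix.cons_val]
        ring)
      (by
        intro j _
        fin_cases j
        · exact o1
        · exact o2
        · exact o3
        · exact o4) (C₀ := C)
      (by
        simp only [Fin.sum_univ_four, Matrix.cons_val]
        refine le_of_eq_of_le ?_ hC
        unfold bil
        ring)
    simp only [Fin.sum_univ_four, Matrix.cons_val] at J
    have e1 : (1 - x) * (1 - l) * a + (1 - x) * l * a + x * (1 - l) * a + x * l * a = a := by ring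
    have e2 : (1 - x) * (1 - l) * FB k i + (1 - x) * l * FB (k + 1) i + x * (1 - l) * FB k (i + 1) +
        x * l * FB (k + 1) (i + 1) = B := by
      rw [← hB]
      unfold bil
      ring
    rw [e1, e2] at J
    refine J.trans_eq ?_
    unfold bil
    ring

private theorem lay_mod (k i : ℕ) : lay k (i % 56) = lay k i := by
  unfold lay
  rw [Nat.mod_mod]

private theorem tB_mod (v1 v2 k i : ℕ) : tB v1 v2 k (i % 56) = tB v1 v2 k i := by
  unfold tB
  rw [Nat.mod_mod]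

private theorem tC_mod (g1 g2 k i : ℕ) : tC g1 g2 k (i % 56) = tC g1 g2 k i := by
  unfold tC
  rw [Nat.mod_mod]

/-- one ray: the two grid values around `s` -/
private theorem ray_step {U : ℕ → ℕ} (hU : ∀ k < 20, Bd (U k) 56 (2 ^ 50 + 1)) {k i : ℕ}
    (hk : k < 19) (hi : i < 56) {l : ℝ} (hl : l ∈ Icc (0 : ℝ) 1) :
    4 * (15 + k + l) ^ 2 * ((1 - l) * dg (U k) i + l * dg (U (k + 1)) i) ≤
      (1 - l) * dg (tabl U 20) (lay k i) + l * dg (tabl U 20) (lay (k + 1) i) := by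
  have t1 := (tabl_spec hU).2 k (by omega) i hi
  have t2 := (tabl_spec hU).2 (k + 1) (by omega) i hi
  rw [if_neg (show k ≠ 19 by omega)] at t1
  rw [if_neg (show k + 1 ≠ 0 by omega), Nat.add_sub_cancel] at t2
  have s := step_s (dg (U k) i) (dg (U (k + 1)) i) k hl
  have a1 : 4 * (15 + k) * (15 + k) * dg (U k) i + eN (dg (U k) i) (dg (U (k + 1)) i) k ≤
      dg (tabl U 20) (lay k i) := by
    rw [t1]
    exact Nat.add_le_add_left (le_max_right _ _) _
  have a2 : 4 * (16 + k) * (16 + k) * dg (U (k + 1)) i + eN (dg (U k) i) (dg (U (k + 1)) i) k ≤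
      dg (tabl U 20) (lay (k + 1) i) := by
    rw [t2, show 15 + (k + 1) = 16 + k by omega]
    exact Nat.add_le_add_left (le_max_left _ _) _
  have b1 := (Nat.cast_le (α := ℝ)).2 a1
  have b2 := (Nat.cast_le (α := ℝ)).2 a2
  push_cast at b1 b2
  have c1 := mul_le_mul_of_nonneg_left b1 (sub_nonneg.2 hl.2)
  have c2 := mul_le_mul_of_nonneg_left b2 hl.1
  refine s.trans (le_of_eq_of_le ?_ (add_le_add c1 c2))
  ring

private theorem small {U : ℕ → ℕ} (hU : ∀ k < 20, Bd (U k) 56 (2 ^ 50 + 1)) {k i : ℕ}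
    (hk : k < 20) (hi : i < 56) (h : dg (tabl U 20) (lay k i) < 2 ^ 56) : dg (U k) i < 2 ^ 50 := by
  rw [(tabl_spec hU).2 k hk i hi] at h
  have a : 900 * dg (U k) i ≤ 4 * (15 + k) * (15 + k) * dg (U k) i := by
    refine Nat.mul_le_mul_right _ ?_
    calc 900 = 4 * 15 * 15 := by norm_num
      _ ≤ 4 * (15 + k) * (15 + k) :=
        Nat.mul_le_mul (Nat.mul_le_mul_left 4 (by omega)) (by omega)
  omega

/-- `psi_jensen` on the four grid points, then `step_s` on each of the two rays -/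
theorem mkT_spec {g1 g2 v1 v2 : ℕ} (hg : g1 + g2 ≤ 31457280) (h1 : v1 ≤ 37748736)
    (h2 : v2 ≤ 37748736) : Bd (mkT g1 g2 v1 v2) 1120 (2 ^ 63 - 1) ∧
      ∀ k : ℕ, k < 19 → ∀ i < 56, ∀ x ∈ Icc (0 : ℝ) 1, ∀ l ∈ Icc (0 : ℝ) 1, ∀ s : ℝ,
        s = (15 + k + l) / 12 →
        (∀ a < 2, ∀ b < 2, dg (mkT g1 g2 v1 v2) (lay (k + a) (i + b)) < 2 ^ 56) →
        PsiOK (5 - g1 / SG - g2 / SG) ((v1 / SG - 2) * (s * ep i x 0) + (v2 / SG - 2) * (s * ep i x 1))
            (g1 / SG * (s * ep i x 0) ^ 2 + g2 / SG * (s * ep i x 1) ^ 2) ∧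
          2 ^ 50 * (s ^ 2 * Psi (5 - g1 / SG - g2 / SG)
            ((v1 / SG - 2) * (s * ep i x 0) + (v2 / SG - 2) * (s * ep i x 1))
            (g1 / SG * (s * ep i x 0) ^ 2 + g2 / SG * (s * ep i x 1) ^ 2)) ≤
            bil (fun k i => (dg (mkT g1 g2 v1 v2) (lay k i) : ℝ)) k i x l := by
  rw [mkT_eq]
  have hS : ∀ k < 20, _ := fun k hk => uT_spec hg h1 h2 (k := k) hk
  generalize uT g1 g2 v1 v2 = U at *
  have hU : ∀ k < 20, Bd (U k) 56 (2 ^ 50 + 1) := fun k hk => (hS k hk).1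
  refine ⟨(tabl_spec hU).1, fun k hk i hi x hx l hl s hs hT => ?_⟩
  have hj : (i + 1) % 56 < 56 := Nat.mod_lt _ (by norm_num)
  have g00 := (hS k (by omega)).2 i hi (small hU (by omega) hi (hT 0 (by norm_num) 0 (by norm_num)))
  have g10 := (hS (k + 1) (by omega)).2 i hi
    (small hU (by omega) hi (hT 1 (by norm_num) 0 (by norm_num)))
  have g01 := (hS k (by omega)).2 _ hj
    (small hU (by omega) hj (lay_mod k (i + 1) ▸ hT 0 (by norm_num) 1 (by norm_num)))
  have g11 := (hS (k + 1) (by omega)).2 _ hj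
    (small hU (by omega) hj (lay_mod (k + 1) (i + 1) ▸ hT 1 (by norm_num) 1 (by norm_num)))
  rw [tB_mod, tC_mod] at g01 g11
  subst hs
  obtain ⟨ok, J⟩ := jensen4 hx hl g00.1 g10.1 g01.1 g11.1 (tB_eq v1 v2 hi x l) (tC_le g1 g2 hi hx hl)
  refine ⟨ok, ?_⟩
  have r0 := ray_step hU hk hi hl
  have r1 := ray_step hU hk hj hl
  rw [lay_mod, lay_mod] at r1
  have x0 := hx.1
  have x1 := sub_nonneg.2 hx.2
  have l0 := hl.1
  have l1 := sub_nonneg.2 hl.2
  have c0 := add_le_add (mul_le_mul_of_nonneg_left g00.2 l1) (mul_le_mul_of_nonneg_left g10.2 l0)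
  have c1 := add_le_add (mul_le_mul_of_nonneg_left g01.2 l1) (mul_le_mul_of_nonneg_left g11.2 l0)
  have hq : (0 : ℝ) ≤ 4 * (15 + k + l) ^ 2 := by positivity
  have d0 := (mul_le_mul_of_nonneg_left c0 hq).trans r0
  have d1 := (mul_le_mul_of_nonneg_left c1 hq).trans r1
  have f := add_le_add (mul_le_mul_of_nonneg_left d0 x1) (mul_le_mul_of_nonneg_left d1 x0)
  have J' := mul_le_mul_of_nonneg_left J
    (show (0 : ℝ) ≤ 2 ^ 50 * ((15 + k + l) / 12) ^ 2 by positivity)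
  rw [mul_assoc] at J'
  refine J'.trans (le_of_eq_of_le ?_ f)
  unfold bil
  ring

end Pool.Agent.P.MP_2e1554_gt.Chk
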