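import Pool.Agent.P.MP_2e1554_gt.IsoPairs
import Pool.Agent.P.MP_2e1554_gt.IsoVtx
import Pool.Agent.P.MP_2e1554_gt.IsoKink

/-! From the test at a vertex to its lanes. -/

open MeasureTheory Set Finset

namespace Pool.Agent.P.MP_2e1554_gt.Chk

private theorem spread_spec {X a : ℕ} (hX : Bd X 56 a) (ha : a < 2 ^ 63) :
    Bd (spread X) 1120 a ∧ ∀ k < 20, ∀ i < 56, dg (spread X) (lay k i) = dg X i := by
  have h := kron_spec (W := X) (A := C20) (B := C20) (a := a) (b := 1) (f := fun _ => 1) hX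
    (fun _ _ => le_rfl) C20_eq C20_eq (by omega) (by norm_num)
  have e : spread X = kron X C20 C20 := rfl
  rw [e]
  refine ⟨h.1.mono le_rfl (by omega), fun k hk i hi => ?_⟩
  rw [h.2 k hk i hi, mul_one]

private theorem mkL_FM (G : Gx) (B : Bx) (s : St) (c : Cm) : (mkL G B s c).FM =
    lge H1120 (spread (lmax H56 (lmax H56 (rotL 56 s.qh) (rotR 56 s.qh)) s.qh)) PAq &&&
      lge H1120 PBq (spread (s.sl - lsub H56 s.sl (rotL 56 s.sl))) := rfl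

theorem FM_spec (G : Gx) (B : Bx) {s : St} (hs : StBd s) (c : Cm) {k i : ℕ} (hk : k < 20) (hi : i < 56)
    (h : Act s k i) : dg (mkL G B s c).FM (lay k i) = 2 ^ 64 - 1 := by
  have h20 : 2 ^ 20 < 2 ^ 63 := by norm_num
  have a1 := rotL_spec (by norm_num) hs.bqh h20
  have a2 := rotR_spec (by norm_num) hs.bqh h20
  have a3 := lmax_spec a1.1 a2.1 h20 h20 H56_eq
  rw [max_self] at a3
  have a4 := lmax_spec a3.1 hs.bqh h20 h20 H56_eq
  rw [max_self] at a4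
  have a5 := spread_spec a4.1 h20
  have a6 := lge_spec a5.1 PAq_bd h20 h20 H1120_eq
  have b1 := rotL_spec (by norm_num) hs.bsl h20
  have b2 := lsub_spec hs.bsl b1.1 h20 h20 H56_eq
  have b3 := Bd.sub hs.bsl b2.1 (fun l => by rw [b2.2 l]; exact Nat.sub_le _ _)
  have b4 := spread_spec b3.1 h20
  have b5 := lge_spec PBq_bd b4.1 h20 h20 H1120_eq
  have hl := lay_lt hk i
  obtain ⟨h1, h2⟩ := h
  rw [mkL_FM, dg_land, a6.2 _ hl, b5.2 _ hl, a5.2 k hk i hi, b4.2 k hk i hi, a4.2 i, a3.2 i,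
    a1.2 i hi, a2.2 i hi, b3.2 i, b2.2 i, b1.2 i hi, PAq_spec k hk i hi, PBq_spec k hk i hi,
    if_pos, if_pos, Nat.and_self]
  · rw [Nat.le_div_iff_mul_le (by omega)]
    refine le_trans (Nat.mul_le_mul_right _ ?_) h2.le
    show dg s.sl i - (dg s.sl i - dg s.sl ((i + 55) % 56)) ≤ _
    omega
  · exact Nat.succ_le_of_lt ((Nat.div_lt_iff_lt_mul (by omega)).2 h1)

theorem albe_bd (d : Vd) : Bd (d.al &&& M31) 56 (2 ^ 31 - 1) ∧ Bd (d.be &&& M31) 56 (2 ^ 31 - 1) :=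
  ⟨Bd.of_land (by norm_num) M31_eq, Bd.of_land (by norm_num) M31_eq⟩

theorem wP_spec (d : Vd) : Bd (wP (d.al &&& M31) (d.be &&& M31)) 1120 (2 ^ 55) ∧
    Bd (wN (d.al &&& M31) (d.be &&& M31)) 1120 (2 ^ 55) ∧ ∀ k < 20, ∀ i < 56,
      dg (wP (d.al &&& M31) (d.be &&& M31)) (lay k i) = (bet d i - alf d i) * u1 k ∧
        dg (wN (d.al &&& M31) (d.be &&& M31)) (lay k i) = (alf d i - bet d i) * l1 k := by
  obtain ⟨ha, hb⟩ := albe_bd d
  have h31 : 2 ^ 31 - 1 < 2 ^ 63 := by norm_num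
  have a1 := lsub_spec hb ha h31 h31 H56_eq
  have a2 := lsub_spec ha hb h31 h31 H56_eq
  have b1 := kron_spec (f := u1) (b := 2 ^ 24) a1.1 (fun k hk => (u1_le k hk).1) PUA_eq PUB_eq
    (by norm_num) (by norm_num)
  have b2 := kron_spec (f := l1) (b := 2 ^ 24) a2.1 (fun k hk => (u1_le k hk).2) PLA_eq PLB_eq
    (by norm_num) (by norm_num)
  unfold wP wN
  refine ⟨b1.1.mono le_rfl (by norm_num), b2.1.mono le_rfl (by norm_num), fun k hk i hi => ?_⟩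
  rw [b1.2 k hk i hi, b2.2 k hk i hi, a1.2 i, a2.2 i, bet, alf, Nat.mod_eq_of_lt hi]
  exact ⟨rfl, rfl⟩

private theorem gA_spec (d : Vd) : Bd (gA (d.al &&& M31)) 56 (72 * 2 ^ 31) ∧
    ∀ i < 56, dg (gA (d.al &&& M31)) i = gam d i := by
  have ha := (albe_bd d).1
  have h31 : 2 ^ 31 - 1 < 2 ^ 63 := by norm_num
  have a1 := rotL_spec (by norm_num) ha h31
  have a2 := rotR_spec (by norm_num) ha h31
  have a3 := Bd.add a1.1 a2.1 (by norm_num)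
  have a4 := Bd.smul (c := 12) a3.1 (by norm_num)
  have a5 := Bd.smul (c := 48) ha (by norm_num)
  have a6 := Bd.add a4.1 a5.1 (by norm_num)
  unfold gA
  refine ⟨a6.1.mono le_rfl (by norm_num), fun i hi => ?_⟩
  rw [a6.2, a4.2, a5.2, a3.2, a1.2 i hi, a2.2 i hi, gam, alf, alf, alf, Nat.mod_eq_of_lt hi]

private theorem gB_spec (d : Vd) : Bd (gB (d.be &&& M31)) 56 (72 * 2 ^ 31) ∧
    ∀ i < 56, dg (gB (d.be &&& M31)) i = gbm d i := by
  have hb := (albe_bd d).2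
  have a1 := Bd.smul (c := 72) hb (by norm_num)
  have a2 := mask_spec (M := CM) hb
  have a3 := Bd.sub a1.1 a2.1 (fun l => by
    rw [a1.2, dg_land]
    exact Nat.and_le_left.trans (Nat.le_mul_of_pos_left _ (by norm_num)))
  unfold gB
  refine ⟨a3.1.mono le_rfl (by norm_num), fun i hi => ?_⟩
  have hc : dg CM i = if i % 14 = 4 ∨ i % 14 = 10 then 2 ^ 64 - 1 else 0 := by
    rw [CM_eq, dg_pk (fun l _ => by split_ifs <;> norm_num), if_pos hi]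
  rw [a3.2, a1.2, gbm, bet, Nat.mod_eq_of_lt hi]
  split_ifs with h
  · rw [a2.2 i (by rw [hc, if_pos h])]
  · rw [dg_land _ CM, hc, if_neg h, Nat.and_zero]

private theorem dot_rev {X q : ℕ} (hX : Bd X 56 (72 * 2 ^ 31)) (hq : Bd q 56 (2 ^ 20)) :
    lane (X * rev q 56) 55 = ∑ i ∈ range 56, dg X i * dg q i := by
  have a1 := rev_spec hq (by norm_num)
  rw [lane_eq, Bd.dot (N := 55) hX a1.1 (by norm_num)]
  refine Finset.sum_congr rfl fun i hi => ?_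
  have hi' := Finset.mem_range.1 hi
  rw [a1.2 _ (by omega), show 55 - (55 - i) = i by omega]

/-- `Bd.dot` with the reversed vector -/
theorem nP_spec {s : St} (hs : StBd s) (d : Vd) :
    nP (d.al &&& M31) (d.be &&& M31) (rev s.qh 56) = sumP s d ∧
      nN (d.al &&& M31) (d.be &&& M31) (rev s.ql 56) = sumN s d := by
  have hA := gA_spec d
  have hB := gB_spec d
  have h : 72 * 2 ^ 31 < 2 ^ 63 := by norm_num
  have a1 := lsub_spec hA.1 hB.1 h h H56_eq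
  have a2 := lsub_spec hB.1 hA.1 h h H56_eq
  unfold nP nN sumP sumN
  rw [dot_rev a1.1 hs.bqh, dot_rev a2.1 hs.bql]
  constructor
  · refine Finset.sum_congr rfl fun i hi => ?_
    rw [a1.2, hA.2 i (Finset.mem_range.1 hi), hB.2 i (Finset.mem_range.1 hi)]
  · refine Finset.sum_congr rfl fun i hi => ?_
    rw [a2.2, hA.2 i (Finset.mem_range.1 hi), hB.2 i (Finset.mem_range.1 hi)]

theorem muS_spec {s : St} (hs : StBd s) (c : Cm) : muS (c.mu &&& N31) s.ll = 864 * sumM s c := by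
  have h1 : ∀ k, Bd (low 28 (s.ll >>> (64 * k))) 28 (2 ^ 19) := fun k => by
    rw [low_eq]
    exact (hs.bll.1.shiftRight k).mod 28
  have h2 : ∀ k, ∀ l < 28, dg (low 28 (s.ll >>> (64 * k))) l = dg s.ll (k + l) := fun k l hl => by
    rw [low_eq, dg_mod, if_pos hl, dg_shiftRight, add_comm]
  have e : muQ s.ll = low 28 (s.ll >>> (64 * 28)) + rotL 28 (low 28 (s.ll >>> (64 * 56))) +
      (low 28 (s.ll >>> (64 * 84)) + low 28 (s.ll >>> (64 * 111))) <<< (64 * 28) := rfl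
  obtain ⟨a1, a2⟩ := rotL_spec (by norm_num) (h1 56) (by norm_num)
  obtain ⟨b1, b2⟩ := (h1 28).add a1 (by norm_num)
  obtain ⟨c1, c2⟩ := (h1 84).add (h1 111) (by norm_num)
  obtain ⟨d1, d2⟩ := (b1.mono (show 28 ≤ 56 by norm_num) le_rfl).add (c1.shiftLeft 28) (by norm_num)
  rw [← e] at d1 d2
  have key : ∀ l < 56, dg (muQ s.ll) l = dg s.ll (ia l) + dg s.ll (ib l) := fun l hl => by
    rw [d2, dg_shiftLeft, ia, ib]
    by_cases h : l < 28
    · rw [if_neg (by omega), if_pos h, if_pos h, add_zero, b2, a2 l h, h2 28 l h,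
        h2 56 _ (Nat.mod_lt _ (by norm_num))]
    · rw [if_pos (by omega), if_neg h, if_neg h, dg_of_ge b1.1 (by omega), zero_add, c2,
        h2 84 _ (by omega), h2 111 _ (by omega),
        show 84 + (l - 28) = 56 + l by omega, show 111 + (l - 28) = 83 + l by omega]
  have d3 : Bd (muQ s.ll) 56 (2 ^ 20) := bd_of d1.1 fun l hl => by
    have t1 := hs.bll.1.2 (ia l)
    have t2 := hs.bll.1.2 (ib l)
    rw [key l hl]
    omega
  rw [muS, dot_rev ((mu_bd c).1.mono le_rfl (by norm_num)) d3, sumM]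
  exact congrArg _ (Finset.sum_congr rfl fun l hl => by rw [key l (Finset.mem_range.1 hl)])

private theorem sum17 {R : Type} [AddCommMonoid R] (f : ℕ → R) : ∑ j ∈ range 17, f j =
    f 0 + f 1 + f 2 + f 3 + f 4 + f 5 + ∑ j ∈ range 11, f (6 + j) := by
  rw [show 17 = 6 + 11 from rfl, Finset.sum_range_add]
  simp only [Finset.sum_range_succ _ 5, Finset.sum_range_succ _ 4, Finset.sum_range_succ _ 3,
    Finset.sum_range_succ _ 2, Finset.sum_range_succ _ 1, Finset.sum_range_one]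

private theorem cI_six (G : Gx) (b1 b2 : ℕ) (x : ℕ → ℕ) (e0 e1 e2 e3 e4 e5 : ℕ) :
    cI G b1 b2 x e0 e1 e2 e3 e4 e5 0 = e0 ∧ cI G b1 b2 x e0 e1 e2 e3 e4 e5 1 = e1 ∧
      cI G b1 b2 x e0 e1 e2 e3 e4 e5 2 = e2 ∧ cI G b1 b2 x e0 e1 e2 e3 e4 e5 3 = e3 ∧
      cI G b1 b2 x e0 e1 e2 e3 e4 e5 4 = e4 ∧ cI G b1 b2 x e0 e1 e2 e3 e4 e5 5 = e5 :=
  ⟨rfl, rfl, rfl, rfl, rfl, rfl⟩

private theorem cP_six (G : Gx) (c : Cm) (d : Vd) : cP G c d 0 = d.p0 ∧ cP G c d 1 = d.p1 ∧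
    cP G c d 2 = d.p2 ∧ cP G c d 3 = d.p3 ∧ cP G c d 4 = d.p4 ∧ cP G c d 5 = d.p5 :=
  cI_six G _ _ _ _ _ _ _ _ _

private theorem cQ_six (G : Gx) (c : Cm) (d : Vd) : cQ G c d 0 = d.q0 ∧ cQ G c d 1 = d.q1 ∧
    cQ G c d 2 = d.q2 ∧ cQ G c d 3 = d.q3 ∧ cQ G c d 4 = d.q4 ∧ cQ G c d 5 = d.q5 :=
  cI_six G _ _ _ _ _ _ _ _ _

private theorem TU_six : TU 0 = TU0 ∧ TU 1 = TU1 ∧ TU 2 = TU2 ∧ TU 3 = TU3 ∧ TU 4 = TU4 ∧
    TU 5 = TU5 := by
  simp only [TU, List.getD_cons_succ, List.getD_cons_zero, and_self]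

private theorem TL_six : TL 0 = TL0 ∧ TL 1 = TL1 ∧ TL 2 = TL2 ∧ TL 3 = TL3 ∧ TL 4 = TL4 ∧
    TL 5 = TL5 := by
  simp only [TL, List.getD_cons_succ, List.getD_cons_zero, and_self]

private theorem YU_three : YU 3 = YU3 ∧ YU 4 = YU4 ∧ YU 5 = YU5 ∧ YL 3 = YL3 ∧ YL 4 = YL4 ∧
    YL 5 = YL5 := by
  simp only [YU, YL, List.getD_cons_succ, List.getD_cons_zero, and_self]

private theorem three_spec {A N a t c0 c1 c2 T0 T1 T2 : ℕ} (hA : Bd A N a) (h0 : Bd T0 N t)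
    (h1 : Bd T1 N t) (h2 : Bd T2 N t) (h : a + (c0 + c1 + c2) * t < 2 ^ 64) :
    Bd (fma (fma (fma A c0 T0) c1 T1) c2 T2) N (a + (c0 + c1 + c2) * t) ∧
      ∀ i, dg (fma (fma (fma A c0 T0) c1 T1) c2 T2) i =
        dg A i + c0 * dg T0 i + c1 * dg T1 i + c2 * dg T2 i := by
  rw [add_mul, add_mul] at h ⊢
  have a0 := fma_spec (c := c0) hA h0 (by omega)
  have a1 := fma_spec (c := c1) a0.1 h1 (by omega)
  have a2 := fma_spec (c := c2) a1.1 h2 (by omega)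
  exact ⟨a2.1.mono le_rfl (by omega), fun i => by rw [a2.2, a1.2, a0.2]⟩

private theorem six_spec {A N a t c0 c1 c2 c3 c4 c5 : ℕ} {T : ℕ → ℕ} (hA : Bd A N a)
    (hT : ∀ j < 17, Bd (T j) N t) (h : a + (c0 + c1 + c2 + c3 + c4 + c5) * t < 2 ^ 64) :
    Bd (six A c0 c1 c2 c3 c4 c5 (T 0) (T 1) (T 2) (T 3) (T 4) (T 5)) N
        (a + (c0 + c1 + c2 + c3 + c4 + c5) * t) ∧
      ∀ i, dg (six A c0 c1 c2 c3 c4 c5 (T 0) (T 1) (T 2) (T 3) (T 4) (T 5)) i =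
        dg A i + c0 * dg (T 0) i + c1 * dg (T 1) i + c2 * dg (T 2) i + c3 * dg (T 3) i +
          c4 * dg (T 4) i + c5 * dg (T 5) i := by
  have e : (c0 + c1 + c2 + c3 + c4 + c5) * t = (c0 + c1 + c2) * t + (c3 + c4 + c5) * t := by ring
  rw [e] at h ⊢
  have a0 := three_spec (c0 := c0) (c1 := c1) (c2 := c2) hA (hT 0 (by norm_num))
    (hT 1 (by norm_num)) (hT 2 (by norm_num)) (by omega)
  have a1 := three_spec (c0 := c3) (c1 := c4) (c2 := c5) a0.1 (hT 3 (by norm_num))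
    (hT 4 (by norm_num)) (hT 5 (by norm_num)) (by omega)
  rw [six]
  exact ⟨a1.1.mono le_rfl (by omega), fun i => by rw [a1.2, a0.2]⟩

private theorem cast_tsub (X W : ℕ) : ((X - W : ℕ) : ℤ) = max 0 ((X : ℤ) - W) := by omega

private theorem cast_tsub' (X W : ℕ) : ((X - W : ℕ) : ℤ) = (X : ℤ) - W + ((W - X : ℕ) : ℤ) := by
  omega

private theorem dg_zero (i : ℕ) : dg 0 i = 0 := by
  unfold dg
  rw [Nat.zero_div, Nat.zero_mod]

/-- `kP = KP + (p0 + .. + p5)` etc. (`mkL_spec`, `Finset.sum_range_succ`) -/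
theorem kP_eq (G : Gx) (B : Bx) (s : St) {c : Cm} (d : Vd) {b : ℕ} (hx : Bd c.xa 23 b)
    (hb : b < 2 ^ 63) (hc : c.b1p + c.b1q + c.b2p + c.b2q ≤ 268435456)
    (hg : G.g1 + G.g2 ≤ 31457280) :
    (mkL G B s c).KP + (d.p0 + d.p1 + d.p2 + d.p3 + d.p4 + d.p5) = kP G c d ∧
      (mkL G B s c).KN + (d.q0 + d.q1 + d.q2 + d.q3 + d.q4 + d.q5) = kN G c d := by
  obtain ⟨h1, h2, -⟩ := mkL_spec G B s d hx hb hc hg
  obtain ⟨a0, a1, a2, a3, a4, a5⟩ := cP_six G c d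
  obtain ⟨b0, b1, b2, b3, b4, b5⟩ := cQ_six G c d
  rw [h1, h2, kP, kN, sum17, sum17, a0, a1, a2, a3, a4, a5, b0, b1, b2, b3, b4, b5]
  exact ⟨add_comm _ _, add_comm _ _⟩

/-- the positive part lies in `[2^60, 2^61]`, the negative part below `2^60`, in every lane -/
theorem pv_spec (G : Gx) (B : Bx) (s : St) {c : Cm} (d : Vd) {b : ℕ} (hx : Bd c.xa 23 b)
    (hb : b < 2 ^ 63) (hc : c.b1p + c.b1q + c.b2p + c.b2q ≤ 268435456)
    (hg : G.g1 + G.g2 ≤ 31457280) (hK : kP G c d + kN G c d ≤ 268435456) {P : ℕ}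
    (hP : P = six ((mkL G B s c).PC + wP (d.al &&& M31) (d.be &&& M31))
        d.q0 d.q1 d.q2 d.q3 d.q4 d.q5 TU0 TU1 TU2 TU3 TU4 TU5 -
      six ((mkL G B s c).NC + wN (d.al &&& M31) (d.be &&& M31))
        d.p0 d.p1 d.p2 d.p3 d.p4 d.p5 TL0 TL1 TL2 TL3 TL4 TL5) :
    Bd P 1120 (2 ^ 61) ∧ ∀ k < 20, ∀ i < 56, (dg P (lay k i) : ℤ) = pv G c d k i := by
  obtain ⟨w1, w2, w3⟩ := wP_spec d
  obtain ⟨k1, k2⟩ := kP_eq G B s d hx hb hc hg
  obtain ⟨-, -, -, h4⟩ := mkL_spec G B s d hx hb hc hg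
  obtain ⟨m1, m2, -, -, m5⟩ := h4 (by omega)
  obtain ⟨a0, a1, a2, a3, a4, a5⟩ := cP_six G c d
  obtain ⟨b0, b1, b2, b3, b4, b5⟩ := cQ_six G c d
  obtain ⟨u0, u1, u2, u3, u4, u5⟩ := TU_six
  obtain ⟨l0, l1, l2, l3, l4, l5⟩ := TL_six
  rw [← u0, ← u1, ← u2, ← u3, ← u4, ← u5, ← l0, ← l1, ← l2, ← l3, ← l4, ← l5] at hP
  generalize mkL G B s c = L at *
  have x1 := Bd.add m1 w1 (by omega)
  have x2 := Bd.add m2 w2 (by omega)
  have p1 := six_spec (c0 := d.q0) (c1 := d.q1) (c2 := d.q2) (c3 := d.q3) (c4 := d.q4) (c5 := d.q5)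
    x1.1 (fun j hj => (TU_bd hj).1) (by omega)
  have n1 := six_spec (c0 := d.p0) (c1 := d.p1) (c2 := d.p2) (c3 := d.p3) (c4 := d.p4) (c5 := d.p5)
    x2.1 (fun j hj => (TU_bd hj).2.1) (by omega)
  generalize six _ d.q0 _ _ _ _ _ _ _ _ _ _ _ = X at hP p1
  generalize six _ d.p0 _ _ _ _ _ _ _ _ _ _ _ = W at hP n1
  have hle : ∀ l, dg W l ≤ dg X l := fun l => by
    rcases lt_or_ge l 1120 with hl | hl
    · have h1 := n1.1.2 l
      have h2 := p1.2 l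
      have h3 := (m5 l hl).1
      have h4 := x1.2 l
      omega
    · rw [dg_of_ge n1.1.1 hl]; exact Nat.zero_le _
  have z1 := Bd.sub p1.1 n1.1 hle
  rw [hP]
  refine ⟨z1.1.mono le_rfl (by omega), fun k hk i hi => ?_⟩
  rw [z1.2, Nat.cast_sub (hle _), p1.2, n1.2, x1.2, x2.2, (m5 _ (lay_lt hk i)).1,
    (m5 _ (lay_lt hk i)).2.1, (muT_spec c).2 k hk i hi, (w3 k hk i hi).1, (w3 k hk i hi).2, pv, sum17, sum17,
    a0, a1, a2, a3, a4, a5, b0, b1, b2, b3, b4, b5]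
  push_cast
  ring

theorem yv_spec (G : Gx) (B : Bx) (s : St) {c : Cm} (d : Vd) {b : ℕ} (hx : Bd c.xa 23 b)
    (hb : b < 2 ^ 63) (hc : c.b1p + c.b1q + c.b2p + c.b2q ≤ 268435456)
    (hg : G.g1 + G.g2 ≤ 31457280) (hK : kP G c d + kN G c d ≤ 268435456) {Y : ℕ}
    (hY : Y = errX (mkL G B s c).EP (mkL G B s c).EN ((mkL G B s c).KP + (d.p3 + d.p4 + d.p5))
      ((mkL G B s c).KN + (d.q3 + d.q4 + d.q5)) d.p3 d.q3 d.p4 d.q4 d.p5 d.q5) :
    Bd Y 1120 (2 ^ 60) ∧ ∀ k < 20, ∀ i < 56, (dg Y (lay k i) : ℤ) = yv G c d k i := by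
  obtain ⟨k1, k2⟩ := kP_eq G B s d hx hb hc hg
  obtain ⟨h1, h2, -, h4⟩ := mkL_spec G B s d hx hb hc hg
  obtain ⟨-, -, m3, m4, m5⟩ := h4 (by omega)
  obtain ⟨-, -, -, a3, a4, a5⟩ := cP_six G c d
  obtain ⟨-, -, -, b3, b4, b5⟩ := cQ_six G c d
  obtain ⟨u3, u4, u5, l3, l4, l5⟩ := YU_three
  have hO : Bd O1120 1120 1 := by
    rw [O1120_eq]; exact Bd.pk (by norm_num) fun _ _ => le_rfl
  have hO2 : ∀ l < 1120, dg O1120 l = 1 := fun l hl => by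
    rw [O1120_eq, dg_pk (fun _ _ => by norm_num), if_pos hl]
  rw [errX, ← u3, ← u4, ← u5, ← l3, ← l4, ← l5] at hY
  generalize mkL G B s c = L at *
  have x1 := fma_spec (c := (L.KP + (d.p3 + d.p4 + d.p5) - (L.KN + (d.q3 + d.q4 + d.q5))) * 1073741824)
    m3 hO (by omega)
  have x2 := fma_spec (c := (L.KN + (d.q3 + d.q4 + d.q5) - (L.KP + (d.p3 + d.p4 + d.p5))) * 1073741824)
    m4 hO (by omega)
  have p1 := three_spec (c0 := d.q3) (c1 := d.q4) (c2 := d.q5) x1.1 (TU_bd (j := 3) (by norm_num)).2.2.1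
    (TU_bd (j := 4) (by norm_num)).2.2.1 (TU_bd (j := 5) (by norm_num)).2.2.1 (by omega)
  have n1 := three_spec (c0 := d.p3) (c1 := d.p4) (c2 := d.p5) x2.1 (TU_bd (j := 3) (by norm_num)).2.2.2
    (TU_bd (j := 4) (by norm_num)).2.2.2 (TU_bd (j := 5) (by norm_num)).2.2.2 (by omega)
  have z1 := lsub_spec p1.1 n1.1 (by omega) (by omega) H1120_eq
  rw [hY]
  refine ⟨z1.1.mono le_rfl (by omega), fun k hk i hi => ?_⟩
  have hl := lay_lt hk i
  have e : ∑ j ∈ range 11, ((cQ G c d (6 + j) : ℤ) * zU (6 + j) k i - cP G c d (6 + j) * zL (6 + j) k i) =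
      ((∑ j ∈ range 11, cQ G c d (6 + j) * dg (YU (6 + j)) (lay k i) : ℕ) : ℤ) -
        ((∑ j ∈ range 11, cP G c d (6 + j) * dg (YL (6 + j)) (lay k i) : ℕ) : ℤ) +
        ((L.KP : ℤ) - L.KN) * 1073741824 := by
    rw [h1, h2]
    push_cast
    rw [← Finset.sum_sub_distrib, ← Finset.sum_sub_distrib, Finset.sum_mul, ← Finset.sum_add_distrib]
    refine Finset.sum_congr rfl fun j _ => ?_
    rw [zU, zL, if_neg (by omega), if_neg (by omega)]
    ring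
  have z0 : ∀ j < 3, zU j k i = 0 ∧ zL j k i = 0 := fun j hj => ⟨if_pos hj, if_pos hj⟩
  have z3 : ∀ j, ¬ j < 3 → zU j k i = (dg (YU j) (lay k i) : ℤ) - 2 ^ 30 ∧
      zL j k i = (dg (YL j) (lay k i) : ℤ) - 2 ^ 30 := fun j hj => ⟨if_neg hj, if_neg hj⟩
  rw [z1.2, cast_tsub, yv]
  refine congrArg (max 0) ?_
  rw [p1.2, n1.2, x1.2, x2.2, hO2 _ hl, sum17, e, ← (m5 _ hl).2.2.1, ← (m5 _ hl).2.2.2,
    (z0 0 (by norm_num)).1, (z0 0 (by norm_num)).2, (z0 1 (by norm_num)).1, (z0 1 (by norm_num)).2,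
    (z0 2 (by norm_num)).1, (z0 2 (by norm_num)).2, (z3 3 (by norm_num)).1, (z3 3 (by norm_num)).2,
    (z3 4 (by norm_num)).1, (z3 4 (by norm_num)).2, (z3 5 (by norm_num)).1, (z3 5 (by norm_num)).2,
    a3, a4, a5, b3, b4, b5]
  simp only [Nat.cast_add, Nat.cast_mul, Nat.cast_one, Nat.cast_ofNat]
  rw [cast_tsub' (L.KP + _)]
  simp only [Nat.cast_add]
  ring

private theorem vtx_eq (G : Gx) (B : Bx) (s : St) (c : Cm) (v1 v2 : ℕ) (d : Vd)
    {T P Y Z C KP KN eP : ℕ}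
    (hT : T = bif omB c then mkT G.g1 G.g2 v1 v2 &&& (mkL G B s c).FM else 0)
    (hP : P = six ((mkL G B s c).PC + wP (d.al &&& M31) (d.be &&& M31))
        d.q0 d.q1 d.q2 d.q3 d.q4 d.q5 TU0 TU1 TU2 TU3 TU4 TU5 -
      six ((mkL G B s c).NC + wN (d.al &&& M31) (d.be &&& M31))
        d.p0 d.p1 d.p2 d.p3 d.p4 d.p5 TL0 TL1 TL2 TL3 TL4 TL5)
    (hY : Y = errX (mkL G B s c).EP (mkL G B s c).EN ((mkL G B s c).KP + (d.p3 + d.p4 + d.p5))
      ((mkL G B s c).KN + (d.q3 + d.q4 + d.q5)) d.p3 d.q3 d.p4 d.q4 d.p5 d.q5)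
    (hZ : Z = lsub H1120 (P + errS P + Y + T) (mkL G B s c).KX &&& (mkL G B s c).FM)
    (hC : C = pairs (mkL G B s c) Z)
    (hKP : KP = (mkL G B s c).KP + (d.p0 + d.p1 + d.p2 + d.p3 + d.p4 + d.p5))
    (hKN : KN = (mkL G B s c).KN + (d.q0 + d.q1 + d.q2 + d.q3 + d.q4 + d.q5))
    (heP : eP = SG * (d.p0 + d.p3 + d.p4 + (mkL G B s c).XK) +
      2 * (c.b1q * v1 + c.b2q * v2 + OO * (c.b1p + c.b2p))) :
    vtx G c (mkL G B s c) v1 v2 d =
      (Nat.ble (KP + KN) 268435456 && Nat.ble (G.g1 + G.g2) 31457280 &&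
      Nat.ble v1 37748736 && Nat.ble v2 37748736 && (!omB c || Nat.ble (G.th % 8) 2) &&
      (!thB G c || Nat.blt 0 (jR G.g1 G.g2 v1 v2)) &&
      (!laB G c || Nat.blt (SG * (G.g1 * G.g2)) (4 * jI G.g1 G.g2 v1 v2)) &&
      (Nat.ble eP (etM G c v1 v2 d) || Nat.blt 0 s.vh) && Nat.beq (T &&& HI56) 0 &&
      Nat.beq (Z &&& HI61) 0 && Nat.beq (C &&& HI59) 0 &&
      Nat.blt
        (2560000 * (648 * (56493153725735501824 + C % 18446744073709551615 +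
            60129542144 * (KP + 30)) +
            144 * (nP (d.al &&& M31) (d.be &&& M31) (rev s.qh 56) + muS (c.mu &&& N31) s.ll)) +
          9216 * (10000 * (256 * ((bif thB G c then CKAP / jR G.g1 G.g2 v1 v2 + 1 else 0) +
          (bif omB c then cA1 G.th G.g1 G.g2 else 0)) +
            c.ka * rpB G B c) + 256 * ((eP - etM G c v1 v2 d) * s.vh)))
        (2560000 * (648 * (64563604257983430656 + 60129542144 * KN) +
            144 * nN (d.al &&& M31) (d.be &&& M31) (rev s.ql 56)) +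
          9216 * (10000 * (c.ka * (32 * (v1 * c.ya + v2 * c.yb) + 4026531840) +
          256 * (bif omB c then cB1 G.th v1 v2 else 0)) +
            256 * ((etM G c v1 v2 d - eP) * s.vl)))) := by
  subst hC hZ hY hP hT hKP hKN heP
  unfold vtx
  rw [force_eq, force_eq]
  rfl

/-- as in the old version (/team-store/iso_old_IsoLanes.lean); `errS_spec` with `pv_spec` (note
`cl k - 1, cl k, cl k + 1 < 20`), the sum has lanes below `2^63` (`Bd.add`), `HI61_eq` gives `Bd Z 1120 (2^61)` -/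
theorem vtx_lanes {G : Gx} {B : Bx} {s : St} (hs : StBd s) {c : Cm} {v1 v2 : ℕ} {d : Vd} {b : ℕ}
    (hx : Bd c.xa 23 b) (hb : b < 2 ^ 63) (hc : c.b1p + c.b1q + c.b2p + c.b2q ≤ 268435456)
    (h : vtx G c (mkL G B s c) v1 v2 d = true) : ∃ C, Lanes G B s c v1 v2 d C := by
  obtain ⟨T, hT⟩ : ∃ T, T = bif omB c then mkT G.g1 G.g2 v1 v2 &&& (mkL G B s c).FM else 0 :=
    ⟨_, rfl⟩
  obtain ⟨P, hP⟩ : ∃ P, P = six ((mkL G B s c).PC + wP (d.al &&& M31) (d.be &&& M31))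
        d.q0 d.q1 d.q2 d.q3 d.q4 d.q5 TU0 TU1 TU2 TU3 TU4 TU5 -
      six ((mkL G B s c).NC + wN (d.al &&& M31) (d.be &&& M31))
        d.p0 d.p1 d.p2 d.p3 d.p4 d.p5 TL0 TL1 TL2 TL3 TL4 TL5 := ⟨_, rfl⟩
  obtain ⟨Y, hY⟩ : ∃ Y, Y = errX (mkL G B s c).EP (mkL G B s c).EN
      ((mkL G B s c).KP + (d.p3 + d.p4 + d.p5))
      ((mkL G B s c).KN + (d.q3 + d.q4 + d.q5)) d.p3 d.q3 d.p4 d.q4 d.p5 d.q5 := ⟨_, rfl⟩
  obtain ⟨Z, hZ⟩ : ∃ Z, Z = lsub H1120 (P + errS P + Y + T) (mkL G B s c).KX &&& (mkL G B s c).FM :=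
    ⟨_, rfl⟩
  obtain ⟨C, hC⟩ : ∃ C, C = pairs (mkL G B s c) Z := ⟨_, rfl⟩
  rw [vtx_eq G B s c v1 v2 d hT hP hY hZ hC rfl rfl rfl] at h
  simp only [Bool.and_eq_true, Bool.or_eq_true, Nat.ble_eq, Nat.blt_eq, Nat.beq_eq,
    Bool.not_eq_true'] at h
  obtain ⟨⟨⟨⟨⟨⟨⟨⟨⟨⟨⟨hK, bg⟩, b1⟩, b2⟩, h5⟩, h6⟩, h12⟩, h7⟩, h8⟩, h11⟩, h9⟩, h10⟩ := h
  obtain ⟨k1, k2⟩ := kP_eq G B s d hx hb hc bg
  have k3 := (mkL_spec G B s d hx hb hc bg).2.2.1
  rw [k1, k2] at hK h10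
  rw [k3, ← etP] at h7 h10
  have hm := (mkT_spec bg b1 b2).1
  have hm2 := mask_spec (M := (mkL G B s c).FM) hm
  have t1 := high_spec (by norm_num) HI56_eq h8
  have t2 : Bd T 1120 (2 ^ 56) := by
    refine bd_of ?_ fun l hl => (t1 l hl).le
    rw [hT]
    cases omB c
    · rw [cond_false]; exact hm.1.pos
    · rw [cond_true]; exact hm2.1.1
  have t3 : ∀ k < 20, ∀ i < 56, Act s k i → (dg T (lay k i) : ℤ) =
      if omB c then (dg (mkT G.g1 G.g2 v1 v2) (lay k i) : ℤ) else 0 := by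
    intro k hk i hi ha
    rw [hT]
    cases omB c
    · rw [cond_false, dg_zero, if_neg Bool.false_ne_true, Nat.cast_zero]
    · rw [cond_true, hm2.2 _ (FM_spec G B hs c hk hi ha), if_pos rfl]
  obtain ⟨q1, q2⟩ := pv_spec G B s d hx hb hc bg hK hP
  obtain ⟨y1, y2⟩ := yv_spec G B s d hx hb hc bg hK hY
  obtain ⟨e1, e2⟩ := errS_spec q1
  have s1 := Bd.add q1 e1 (by norm_num)
  have s2 := Bd.add s1.1 y1 (by norm_num)
  have s3 := Bd.add s2.1 t2 (by norm_num)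
  have x1 : Bd (mkL G B s c).KX 1120 (2 ^ 56) ∧
      ∀ k < 20, ∀ i < 56, dg (mkL G B s c).KX (lay k i) = kv s c k i := kinkX_spec hs.bsl hs.bll.1 c
  have s4 := lsub_spec s3.1 x1.1 (by norm_num) (by norm_num) H1120_eq
  have z2 := mask_spec (M := (mkL G B s c).FM) s4.1
  rw [← hZ] at z2
  have z3 : Bd Z 1120 (2 ^ 61) :=
    bd_of z2.1.1 fun l hl => (high_spec (by norm_num) HI61_eq h11 l hl).le
  have z4 : ∀ k < 20, ∀ i < 56, Act s k i → zk G s c v1 v2 d k i ≤ (dg Z (lay k i) : ℤ) := by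
    intro k hk i hi ha
    have hcl : cl k ≤ 18 := by unfold cl; omega
    rw [z2.2 _ (FM_spec G B hs c hk hi ha), s4.2, cast_tsub, x1.2 k hk i hi, zk]
    refine le_max_of_le_right (sub_le_sub_right (le_of_eq (Eq.symm ?_)) _)
    rw [s3.2, s2.2, s1.2, Nat.cast_add, Nat.cast_add,
      Nat.cast_add, e2 k hk i hi, q2 k hk i hi, y2 k hk i hi, t3 k hk i hi ha, zval, ev, dd, dd,
      q2 _ (by omega) i hi, q2 _ (by omega) i hi, q2 _ (by omega) i hi]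
  have h38 : 38 < 2 ^ 63 := by norm_num
  have d00 : ∀ l < 28, dg (low 28 s.ll) l = dg s.ll l := fun l hl => by
    rw [low_eq, dg_mod, if_pos hl]
  have d0 : Bd (low 28 s.ll) 28 38 :=
    bd_of (low_eq 28 s.ll ▸ (hs.bll.1.mod 28).1) fun l hl => d00 l hl ▸ hs.bll.2 l hl
  have d1 := rotL_spec (by norm_num) d0 h38
  have d2 := lmax_spec d0 d1.1 h38 h38 H28_eq
  rw [max_self] at d2
  have d3 : Bd D38 28 38 := by
    rw [D38_eq]; exact Bd.pk (by norm_num) fun _ _ => le_rfl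
  have d4 : ∀ l < 28, dg D38 l = 38 := fun l hl => by
    rw [D38_eq, dg_pk (fun _ _ => by norm_num), if_pos hl]
  have d5 := Bd.sub d3 d2.1 (fun l => by
    rcases lt_or_ge l 28 with hl | hl
    · rw [d4 l hl]; exact d2.1.2 l
    · rw [dg_of_ge d2.1.1 hl]; exact Nat.zero_le _)
  have p1 := pairs_spec (L := mkL G B s c) z3 d5.1 rfl rfl rfl rfl rfl rfl
  rw [← hC] at p1
  have c1 : Bd C 28 (2 ^ 59) :=
    bd_of p1.1.1 fun l hl => (high_spec (by norm_num) HI59_eq h9 l hl).le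
  have c2 := Bd.sum c1 (by norm_num)
  refine ⟨dg C, bg, b1, b2, fun ho => ?_, fun ho => ?_, fun ho => h12.resolve_left (by simp [ho]), ?_,
    fun ho k hk i hi ha => ?_,
    fun i hi k hk k' hk' ha ha' hkk => ?_, ?_⟩
  · rcases h5 with h5 | h5
    · rw [ho] at h5; cases h5
    · exact h5
  · rcases h6 with h6 | h6
    · rw [ho] at h6; cases h6
    · exact h6
  · exact h7.imp id fun h => h.ne'
  · have h1 := t3 k hk i hi ha
    have h2 := t1 _ (lay_lt hk i)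
    rw [if_pos ho] at h1
    omega
  · have h1 := p1.2 i hi k hk k' hk' (by
      have h2 := d2.1.2 i
      rw [d5.2, d4 i hi]
      rw [d2.2, d1.2 i hi] at h2 ⊢
      have e : (i + (28 - 1)) % 28 = (i + 27) % 28 := rfl
      rw [e, d00 i hi, d00 _ (Nat.mod_lt _ (by norm_num))] at h2 ⊢
      omega)
    have h2 := z4 k hk i (by omega) ha
    have h3 := z4 k' hk' (i + 28) (by omega) ha'
    omega
  · rw [(nP_spec hs d).1, (nP_spec hs d).2, muS_spec hs c,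
      show (18446744073709551615 : ℕ) = 2 ^ 64 - 1 by norm_num, c2] at h10
    exact h10

end Pool.Agent.P.MP_2e1554_gt.Chk
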