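import Pool.Agent.P.MP_2e1554_gt.IsoOpA
import Pool.Agent.P.MP_2e1554_gt.IsoOpB

/-! Operations that use the chord and radius bounds. -/

open MeasureTheory Set Finset

namespace Pool.Agent.P.MP_2e1554_gt.Chk

/-- the point `(2^36/τ)/2^16 • e` lies in `K` when `2^20 q(e) ≤ τ` (`Iso.gauge_mem`) -/
theorem pt_mem {K : Set (Fin 2 → ℝ)} (hK : Iso K) {e : Fin 2 → ℝ} {τ : ℕ}
    (h : 2 ^ 20 * gauge K e ≤ (τ : ℝ)) : (((68719476736 / τ : ℕ) : ℝ) / 65536) • e ∈ K := by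
  rw [hK.gauge_mem (by positivity)]
  have h0 := gauge_nonneg (s := K) e
  have h1 : ((68719476736 / τ : ℕ) : ℝ) * τ ≤ 68719476736 := by
    exact_mod_cast Nat.div_mul_le_self 68719476736 τ
  have h2 : (0 : ℝ) ≤ ((68719476736 / τ : ℕ) : ℝ) := Nat.cast_nonneg _
  have h3 := mul_le_mul_of_nonneg_left h h2
  generalize ((68719476736 / τ : ℕ) : ℝ) = q at h1 h2 h3
  have h4 : q * (2 ^ 20 * gauge K e) = 68719476736 * (q / 65536 * gauge K e) := by ring
  linarith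

/-- the test `ge` at both ends of a segment -/
theorem opC_seg {G : Gx} {B : Bx} (hB : okB B = true) {g₁ g₂ v₁ v₂ J : ℝ} {K : Set (Fin 2 → ℝ)}
    (hF : Fr g₁ g₂ v₁ v₂ J K) (hR : Rng G B g₁ g₂ v₁ v₂) {fl : Bool}
    {dx dy dx' dy' δx δy fx fy fx' fy' : ℤ} (h : ge G B fl dx dy δx δy fx fy = true)
    (h' : ge G B fl dx' dy' δx δy fx' fy' = true)
    (hδ : (δx = dx' - dx ∧ δy = dy' - dy) ∨ (δx = dx - dx' ∧ δy = dy - dy')) {x : ℝ}
    (hx : x ∈ Icc (0 : ℝ) 1) {D F : Fin 2 → ℝ}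
    (hD0 : D 0 = ((1 - x) * dx + x * dx') / 1572864)
    (hD1 : D 1 = ((1 - x) * dy + x * dy') / 1572864)
    (hF0 : F 0 = ((1 - x) * fx + x * fx') / 25165824)
    (hF1 : F 1 = ((1 - x) * fy + x * fy') / 25165824) :
    (if fl then 40001 / 100 else 40821 / 100 : ℝ) < Gq g₁ g₂ D * (15 - Rq g₁ g₂ v₁ v₂ F) ∧
      0 < 15 - Rq g₁ g₂ v₁ v₂ F ∧ (fl = true → Rq g₁ g₂ v₁ v₂ F ≤ 11 / 4) := by
  have g2 := hF.g2pos
  have g1 : 0 < g₁ := g2.trans_le hF.g12
  obtain ⟨a1, a2, a3⟩ := ge_spec hB (add_pos g1 g2) hR h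
  obtain ⟨b1, b2, b3⟩ := ge_spec hB (add_pos g1 g2) hR h'
  have hc : (0 : ℝ) < (if fl then 40001 / 100 else 40821 / 100 : ℝ) := by
    split_ifs <;> norm_num
  have hp := prod_conv hx hc.le a1 b1 a2 b2
  have eD : D = (1 - x) • ![(dx : ℝ) / 1572864, dy / 1572864] +
      x • ![(dx' : ℝ) / 1572864, dy' / 1572864] := by
    funext k
    fin_cases k
    · simp [hD0]; ring
    · simp [hD1]; ring
  have eF : F = (1 - x) • ![(fx : ℝ) / 25165824, fy / 25165824] +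
      x • ![(fx' : ℝ) / 25165824, fy' / 25165824] := by
    funext k
    fin_cases k
    · simp [hF0]; ring
    · simp [hF1]; ring
  have hG := Gq_seg g1.le g2.le ![(dx : ℝ) / 1572864, dy / 1572864]
    ![(dx' : ℝ) / 1572864, dy' / 1572864] ![(δx : ℝ) / 1572864, δy / 1572864] (by
      rcases hδ with ⟨rfl, rfl⟩ | ⟨rfl, rfl⟩
      · left
        funext k
        fin_cases k <;> simp <;> ring
      · right
        funext k
        fin_cases k <;> simp <;> ring) hx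
  have hRq := (Rq_seg g1.le g2.le v₁ v₂ ![(fx : ℝ) / 25165824, fy / 25165824]
    ![(fx' : ℝ) / 25165824, fy' / 25165824] hx).1
  rw [← eD] at hG
  rw [← eF] at hRq
  generalize Gq g₁ g₂ ![(dx : ℝ) / 1572864, dy / 1572864] -
    Gq g₁ g₂ ![(δx : ℝ) / 1572864, δy / 1572864] / 4 = A at a1 a2 hp hG
  generalize Gq g₁ g₂ ![(dx' : ℝ) / 1572864, dy' / 1572864] -
    Gq g₁ g₂ ![(δx : ℝ) / 1572864, δy / 1572864] / 4 = A' at b1 b2 hp hG
  generalize Rq g₁ g₂ v₁ v₂ ![(fx : ℝ) / 25165824, fy / 25165824] = R at a2 a3 hp hRq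
  generalize Rq g₁ g₂ v₁ v₂ ![(fx' : ℝ) / 25165824, fy' / 25165824] = R' at b2 b3 hp hRq
  have x0 := hx.1
  have x1 := sub_nonneg.2 hx.2
  have hA : 0 ≤ (1 - x) * A + x * A' := by positivity
  have hBp : 0 < (1 - x) * (15 - R) + x * (15 - R') := by
    by_contra hn
    have := mul_nonpos_of_nonneg_of_nonpos hA (not_lt.1 hn)
    linarith
  have hBle : (1 - x) * (15 - R) + x * (15 - R') ≤ 15 - Rq g₁ g₂ v₁ v₂ F := by linarith
  refine ⟨hp.trans_le (mul_le_mul hG hBle hBp.le (hA.trans hG)), hBp.trans_le hBle, fun hf => ?_⟩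
  have c1 := mul_le_mul_of_nonneg_left (a3 hf) x1
  have c2 := mul_le_mul_of_nonneg_left (b3 hf) x0
  linarith

theorem opC_chord {G : Gx} {B : Bx} (hB : okB B = true) {g₁ g₂ v₁ v₂ J : ℝ} {K : Set (Fin 2 → ℝ)}
    (hF : Fr g₁ g₂ v₁ v₂ J K) (hR : Rng G B g₁ g₂ v₁ v₂) {fl : Bool} {a z u j b b' : ℕ}
    {δx δy : ℤ} (h : chord1 G B fl a z u j b δx δy = true)
    (h' : chord1 G B fl a z u j b' δx δy = true)
    (hδx : δx = z * (ex b' - ex b)) (hδy : δy = z * (ey b' - ey b)) {x : ℝ}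
    (hx : x ∈ Icc (0 : ℝ) 1) (hy : ((a : ℝ) / 65536) • en j ∈ K)
    (hz : ((z : ℝ) / 65536) • ((1 - x) • en b + x • en b') ∈ K) : False := by
  obtain ⟨c1, -, c3⟩ := opC_seg hB hF hR h h' (Or.inr ⟨by rw [hδx]; ring, by rw [hδy]; ring⟩) hx
    (D := ((a : ℝ) / 65536) • en j - ((z : ℝ) / 65536) • ((1 - x) • en b + x • en b'))
    (F := ((a : ℝ) / 65536) • en j + ((u : ℝ) / 16) •
      (((z : ℝ) / 65536) • ((1 - x) • en b + x • en b') - ((a : ℝ) / 65536) • en j))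
    (by simp [en]; ring) (by simp [en]; ring) (by simp [en]; ring) (by simp [en]; ring)
  exact absurd (ch_le hF hy hz rfl c3) (not_le.2 c1)

/-- by contradiction: `ge_spec` at both ends, `Gq_seg`, `Rq_seg`, `prod_conv`, `ch_le` with
`t = u/16` -/
theorem chord_ok {G : Gx} {B : Bx} (hB : okB B = true) {g₁ g₂ v₁ v₂ J : ℝ} {K : Set (Fin 2 → ℝ)}
    (hF : Fr g₁ g₂ v₁ v₂ J K) (hR : Rng G B g₁ g₂ v₁ v₂) {s : St} (hs : StOK s K) {fl sec : Bool}
    {i j u τ : ℕ} (hj : j < 56) (h : chord G B s fl sec i j u τ = true) : Tgt K sec i τ := by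
  have hy := pt_mem hF.iso (hs.qh j hj)
  rw [← lane_eq] at hy
  cases sec
  · unfold chord at h
    dsimp only at h
    rw [cond_false] at h
    simp only [Tgt, Bool.false_eq_true, if_false]
    by_contra hn
    have hz := pt_mem hF.iso (not_lt.1 hn)
    refine opC_chord hB hF hR h h (by simp) (by simp) (x := 0) ⟨le_rfl, zero_le_one⟩ hy ?_
    simpa using hz
  · unfold chord at h
    dsimp only at h
    rw [cond_true, force_eq, Bool.and_eq_true] at h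
    simp only [Tgt, if_true]
    intro x hx
    by_contra hn
    exact opC_chord hB hF hR h.1 h.2 rfl rfl hx hy (pt_mem hF.iso (not_lt.1 hn))

theorem opC_rad {G : Gx} {B : Bx} (hB : okB B = true) {g₁ g₂ v₁ v₂ J : ℝ} {K : Set (Fin 2 → ℝ)}
    (hF : Fr g₁ g₂ v₁ v₂ J K) (hR : Rng G B g₁ g₂ v₁ v₂) {z b b' : ℕ} {δx δy : ℤ}
    (h : rd G B ((z * 16 : ℕ) * ex b) ((z * 16 : ℕ) * ey b) δx δy = true)
    (h' : rd G B ((z * 16 : ℕ) * ex b') ((z * 16 : ℕ) * ey b') δx δy = true)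
    (hδx : δx = (z * 16 : ℕ) * (ex b' - ex b)) (hδy : δy = (z * 16 : ℕ) * (ey b' - ey b)) {x : ℝ}
    (hx : x ∈ Icc (0 : ℝ) 1)
    (hz : ((z : ℝ) / 65536) • ((1 - x) • en b + x • en b') ∈ K) : False := by
  have g2 := hF.g2pos
  have g1 : 0 < g₁ := g2.trans_le hF.g12
  have a1 := rd_spec hB (add_pos g1 g2) hR h
  have a2 := rd_spec hB (add_pos g1 g2) hR h'
  have a3 := hF.rad _ hz
  have a4 := (Rq_seg g1.le g2.le v₁ v₂
    ![(((z * 16 : ℕ) * ex b : ℤ) : ℝ) / 25165824, (((z * 16 : ℕ) * ey b : ℤ) : ℝ) / 25165824]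
    ![(((z * 16 : ℕ) * ex b' : ℤ) : ℝ) / 25165824, (((z * 16 : ℕ) * ey b' : ℤ) : ℝ) / 25165824]
    hx).2
  have e1 : ![(((z * 16 : ℕ) * ex b' : ℤ) : ℝ) / 25165824,
      (((z * 16 : ℕ) * ey b' : ℤ) : ℝ) / 25165824] -
      ![(((z * 16 : ℕ) * ex b : ℤ) : ℝ) / 25165824, (((z * 16 : ℕ) * ey b : ℤ) : ℝ) / 25165824] =
      ![(δx : ℝ) / 25165824, δy / 25165824] := by
    rw [hδx, hδy]
    funext k
    fin_cases k <;> simp <;> ring
  have e2 : (1 - x) • ![(((z * 16 : ℕ) * ex b : ℤ) : ℝ) / 25165824,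
      (((z * 16 : ℕ) * ey b : ℤ) : ℝ) / 25165824] +
      x • ![(((z * 16 : ℕ) * ex b' : ℤ) : ℝ) / 25165824,
        (((z * 16 : ℕ) * ey b' : ℤ) : ℝ) / 25165824] =
      ((z : ℝ) / 65536) • ((1 - x) • en b + x • en b') := by
    funext k
    fin_cases k <;> simp [en] <;> ring
  rw [e1, e2] at a4
  have x0 := hx.1
  have x1 := sub_nonneg.2 hx.2
  generalize Gq g₁ g₂ ![(δx : ℝ) / 25165824, δy / 25165824] = Q at a1 a2 a4
  generalize Rq g₁ g₂ v₁ v₂ ![(((z * 16 : ℕ) * ex b : ℤ) : ℝ) / 25165824,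
    (((z * 16 : ℕ) * ey b : ℤ) : ℝ) / 25165824] = R at a1 a4
  generalize Rq g₁ g₂ v₁ v₂ ![(((z * 16 : ℕ) * ex b' : ℤ) : ℝ) / 25165824,
    (((z * 16 : ℕ) * ey b' : ℤ) : ℝ) / 25165824] = R' at a2 a4
  have c1 := mul_nonneg x1 (sub_pos.2 a1).le
  have c2 := mul_nonneg x0 (sub_pos.2 a2).le
  rcases x0.eq_or_lt with rfl | x2
  · linarith
  · have c3 := mul_pos x2 (sub_pos.2 a2)
    linarith

theorem rad_ok {G : Gx} {B : Bx} (hB : okB B = true) {g₁ g₂ v₁ v₂ J : ℝ} {K : Set (Fin 2 → ℝ)}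
    (hF : Fr g₁ g₂ v₁ v₂ J K) (hR : Rng G B g₁ g₂ v₁ v₂) {sec : Bool} {i τ : ℕ}
    (h : rad G B sec i τ = true) : Tgt K sec i τ := by
  cases sec
  · unfold rad at h
    dsimp only at h
    rw [cond_false] at h
    simp only [Tgt, Bool.false_eq_true, if_false]
    by_contra hn
    have hz := pt_mem hF.iso (not_lt.1 hn)
    refine opC_rad hB hF hR h h (by simp) (by simp) (x := 0) ⟨le_rfl, zero_le_one⟩ ?_
    simpa using hz
  · unfold rad at h
    dsimp only at h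
    rw [cond_true, force_eq, Bool.and_eq_true] at h
    simp only [Tgt, if_true]
    intro x hx
    by_contra hn
    exact opC_rad hB hF hR h.1 h.2 rfl rfl hx (pt_mem hF.iso (not_lt.1 hn))

/-- `y = s • e`, `z = s' • ep (i+28) x = -s' • e`, `y - z = (s+s') • e`, foot point `t • e` -/
theorem pairL_ok {G : Gx} {B : Bx} (hB : okB B = true) {g₁ g₂ v₁ v₂ J : ℝ} {K : Set (Fin 2 → ℝ)}
    (hF : Fr g₁ g₂ v₁ v₂ J K) (hR : Rng G B g₁ g₂ v₁ v₂) {fl sg : Bool} {i L u : ℕ} (hi : i < 28)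
    (h : pairL G B fl sg i L u = true) :
    ∀ x ∈ Icc (0 : ℝ) 1, sp K i x + sp K (i + 28) x ≤ (30 + (L : ℝ)) / 12 := by
  intro x hx
  by_contra hn
  have hn := not_le.1 hn
  unfold pairL at h
  dsimp only at h
  rw [force_eq, Bool.and_eq_true] at h
  generalize (bif sg then -Int.ofNat (u * 16384) else Int.ofNat (u * 16384)) = t at h
  have hz : ((((30 + L) * 65536 / 12 : ℕ) : ℤ) : ℝ) / 65536 ≤ (30 + (L : ℝ)) / 12 := by
    have a1 : (((30 + L) * 65536 / 12 : ℕ) : ℝ) * 12 ≤ (30 + L) * 65536 := by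
      exact_mod_cast Nat.div_mul_le_self ((30 + L) * 65536) 12
    rw [Int.cast_natCast]
    linarith
  have hz0 : (0 : ℝ) ≤ ((((30 + L) * 65536 / 12 : ℕ) : ℤ) : ℝ) / 65536 := by
    rw [Int.cast_natCast]
    positivity
  change ge G B fl ((((30 + L) * 65536 / 12 : ℕ) : ℤ) * _) ((((30 + L) * 65536 / 12 : ℕ) : ℤ) * _)
    ((((30 + L) * 65536 / 12 : ℕ) : ℤ) * _) ((((30 + L) * 65536 / 12 : ℕ) : ℤ) * _) _ _ = true ∧
    ge G B fl ((((30 + L) * 65536 / 12 : ℕ) : ℤ) * _) ((((30 + L) * 65536 / 12 : ℕ) : ℤ) * _)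
    ((((30 + L) * 65536 / 12 : ℕ) : ℤ) * _) ((((30 + L) * 65536 / 12 : ℕ) : ℤ) * _) _ _ = true at h
  generalize (((30 + L) * 65536 / 12 : ℕ) : ℤ) = z at h hz hz0
  obtain ⟨c1, c2, c3⟩ := opC_seg hB hF hR h.1 h.2 (Or.inl ⟨by ring, by ring⟩) hx
    (D := ((z : ℝ) / 65536) • ep i x) (F := ((t : ℝ) / 1048576) • ep i x)
    (by simp [ep, en]; ring) (by simp [ep, en]; ring) (by simp [ep, en]; ring)
    (by simp [ep, en]; ring)
  have p1 := hF.iso.gauge_pos (ep_ne (i := i) (by omega) x)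
  have p2 := hF.iso.gauge_pos (ep_ne (i := i + 28) (by omega) x)
  have s1 : 0 < sp K i x := inv_pos.2 p1
  have s2 : 0 < sp K (i + 28) x := inv_pos.2 p2
  have m1 : sp K i x • ep i x ∈ K :=
    (hF.iso.gauge_mem s1.le).2 (inv_mul_cancel₀ p1.ne').le
  have m2 : sp K (i + 28) x • ep (i + 28) x ∈ K :=
    (hF.iso.gauge_mem s2.le).2 (inv_mul_cancel₀ p2.ne').le
  rw [ep_anti hi] at m2
  generalize sp K i x = r at hn s1 m1
  generalize sp K (i + 28) x = r' at hn s2 m2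
  generalize ep i x = e at c1 c2 c3 m1 m2
  have hr : r + r' ≠ 0 := (add_pos s1 s2).ne'
  have c4 := ch_le hF m1 m2 (f := ((t : ℝ) / 1048576) • e)
    (t := (r - (t : ℝ) / 1048576) / (r + r')) (by
      funext k
      simp only [Pi.add_apply, Pi.smul_apply, Pi.sub_apply, Pi.neg_apply, smul_eq_mul]
      field_simp
      ring) c3
  have g2 := hF.g2pos
  have g1 : 0 < g₁ := g2.trans_le hF.g12
  have c5 : Gq g₁ g₂ (((z : ℝ) / 65536) • e) ≤ Gq g₁ g₂ (r • e - r' • -e) := by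
    have e1 : Gq g₁ g₂ (((z : ℝ) / 65536) • e) =
        ((z : ℝ) / 65536) ^ 2 * (g₁ * e 0 ^ 2 + g₂ * e 1 ^ 2) := by
      simp only [Gq, Pi.smul_apply, smul_eq_mul]
      ring
    have e2 : Gq g₁ g₂ (r • e - r' • -e) = (r + r') ^ 2 * (g₁ * e 0 ^ 2 + g₂ * e 1 ^ 2) := by
      simp only [Gq, Pi.smul_apply, Pi.sub_apply, Pi.neg_apply, smul_eq_mul]
      ring
    rw [e1, e2]
    exact mul_le_mul_of_nonneg_right (pow_le_pow_left₀ hz0 (hz.trans hn.le) 2) (by positivity)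
  have c6 := mul_le_mul_of_nonneg_right c5 c2.le
  linarith

theorem op_ok {G : Gx} {B : Bx} (hB : okB B = true) {g₁ g₂ v₁ v₂ J : ℝ} {K : Set (Fin 2 → ℝ)}
    (hF : Fr g₁ g₂ v₁ v₂ J K) (hR : Rng G B g₁ g₂ v₁ v₂) {s : St} (hs : StOK s K) (kd : ℕ)
    {i j l : ℕ} (hi : i < 56) (hj : j < 56) (hl : l < 56) (u τ : ℕ) (sec fl sg : Bool) :
    StOK (op G B s kd i j l u τ sec fl sg) K := by
  have hK := hF.iso
  unfold op
  cases Nat.beq kd 0
  swap
  · rw [cond_true, force_eq]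
    exact hull_ok hK hs hi hj hl
  rw [cond_false]
  cases Nat.beq kd 1
  swap
  · rw [cond_true]
    exact setLo_ok hK hs hi (shad_ok hK hs fl sec hi hj hl)
  rw [cond_false]
  cases Nat.beq kd 2
  swap
  · rw [cond_true]
    cases h : chord G B s fl sec i j u τ
    · rw [cond_false]
      exact hs
    · rw [cond_true]
      exact setLo_ok hK hs hi (chord_ok hB hF hR hs hj h)
  rw [cond_false]
  cases Nat.beq kd 3
  swap
  · rw [cond_true]
    cases h : rad G B sec i τ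
    · rw [cond_false]
      exact hs
    · rw [cond_true]
      exact setLo_ok hK hs hi (rad_ok hB hF hR h)
  rw [cond_false]
  cases Nat.beq kd 4
  swap
  · rw [cond_true]
    exact setLo_ok hK hs hi (lift_ok hs hi)
  rw [cond_false]
  cases h : (Nat.blt i 28 && Nat.blt l (lane s.ll i) && pairL G B fl sg i l u)
  · rw [cond_false]
    exact hs
  · rw [Bool.and_eq_true, Bool.and_eq_true, Nat.blt_eq, Nat.blt_eq] at h
    rw [cond_true, force_eq]
    have h1 := h.1.2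
    rw [lane_eq] at h1
    refine setL_ok hs (h.1.1.trans (by norm_num)) h1.le ?_
    rw [LOK, if_pos h.1.1]
    exact pairL_ok hB hF hR h.1.1 h.2

theorem ops_ok {G : Gx} {B : Bx} (hB : okB B = true) {g₁ g₂ v₁ v₂ J : ℝ} {K : Set (Fin 2 → ℝ)}
    (hF : Fr g₁ g₂ v₁ v₂ J K) (hR : Rng G B g₁ g₂ v₁ v₂) (n d : ℕ) {s : St} (hs : StOK s K) :
    StOK (ops G B n d s) K := by
  induction n generalizing d s with
  | zero => exact hs
  | succ n ih =>
    change StOK (forceS (opW G B s (low 1 d)) fun s' => force (d >>> 64) fun d' =>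
      ops G B n d' s') K
    rw [forceS_eq, force_eq]
    refine ih _ ?_
    unfold opW
    rw [force_eq, force_eq, force_eq]
    exact op_ok hB hF hR hs _ (Nat.mod_lt _ (by norm_num)) (Nat.mod_lt _ (by norm_num))
      (Nat.mod_lt _ (by norm_num)) _ _ _ _ _

end Pool.Agent.P.MP_2e1554_gt.Chk
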