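import Pool.Agent.P.MP_2e1554_gt.IsoLane
import Pool.Agent.P.MP_2e1554_gt.IsoTab

/-! The supremum over pairs of opposite rays. -/

open MeasureTheory Set Finset

namespace Pool.Agent.P.MP_2e1554_gt.Chk

private theorem col_spec {C K : ℕ} (hC : C = pk (fun l => if l % 28 = 0 then 1 else 0) (28 * K)) :
    Bd C (28 * K) 1 ∧ (∀ l, l % 28 ≠ 0 → dg C l = 0) ∧ ∀ r < K, dg C (28 * r) = 1 := by
  have h1 : ∀ i < 28 * K, (if i % 28 = 0 then 1 else 0) ≤ 1 := fun i _ => by split_ifs <;> omega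
  have h2 : ∀ l, dg C l = if l < 28 * K then (if l % 28 = 0 then 1 else 0) else 0 := fun l => by
    rw [hC, dg_pk fun i hi => lt_of_le_of_lt (h1 i hi) (by norm_num)]
  refine ⟨hC ▸ Bd.pk (by norm_num) h1, fun l hl => ?_, fun r hr => ?_⟩
  · rw [h2, if_neg hl, ite_self]
  · rw [h2, if_pos (by omega), if_pos (by omega)]

private theorem shr_bd {X N n k a : ℕ} (h : Bd X N a) (hN : N ≤ n + k) :
    Bd (X >>> (64 * k)) n a := by
  refine ⟨?_, (h.shiftRight k).2⟩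
  rw [Nat.shiftRight_eq_div_pow, Nat.div_lt_iff_lt_mul (Nat.two_pow_pos _), ← pow_add]
  exact lt_of_lt_of_le h.1 (Nat.pow_le_pow_right two_pos (by omega))

private theorem low_spec {X N a : ℕ} (h : Bd X N a) (n : ℕ) :
    Bd (low n X) n a ∧ ∀ i < n, dg (low n X) i = dg X i := by
  rw [low_eq]
  exact ⟨h.mod n, fun i hi => by rw [dg_mod, if_pos hi]⟩

private theorem sfx_step {S T a m n : ℕ} (hT : Bd T 560 a) (ha : a < 2 ^ 63) (hn : n = 64 * (28 * m))
    (h : ∀ r c j, j < m → dg S (28 * (r + j) + c) ≤ dg T (28 * r + c)) :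
    Bd (sfx T n) 560 a ∧
      ∀ r c j, j < 2 * m → dg S (28 * (r + j) + c) ≤ dg (sfx T n) (28 * r + c) := by
  subst hn
  obtain ⟨h1, h2⟩ := lmax_spec hT (hT.shiftRight (28 * m)) ha ha H560_eq
  rw [max_self] at h1
  refine ⟨h1, fun r c j hj => ?_⟩
  unfold sfx
  rw [h2, dg_shiftRight]
  by_cases hm : j < m
  · exact (h r c j hm).trans (le_max_left _ _)
  · have h3 := h (r + m) c (j - m) (by omega)
    rw [show r + m + (j - m) = r + j by omega,
      show 28 * (r + m) + c = 28 * r + c + 28 * m by ring] at h3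
    exact h3.trans (le_max_right _ _)

private theorem fold_step {Y H N n a : ℕ} (hY : Bd Y N a) (ha : a < 2 ^ 63) (hN : N ≤ n + n)
    (hn : n % 28 = 0) (hH : H = pk (fun _ => 2 ^ 63) n) :
    Bd (fold H n Y) n a ∧ ∀ i < N, ∃ i' < n, i' % 28 = i % 28 ∧ dg Y i ≤ dg (fold H n Y) i' := by
  obtain ⟨h0, h0'⟩ := low_spec hY n
  obtain ⟨h1, h2⟩ := lmax_spec h0 (shr_bd hY hN) ha ha hH
  rw [max_self] at h1
  refine ⟨h1, fun i hi => ?_⟩
  unfold fold
  by_cases h : i < n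
  · exact ⟨i, h, rfl, by rw [h2, h0' i h]; exact le_max_left _ _⟩
  · refine ⟨i - n, by omega, by omega, ?_⟩
    rw [h2, dg_shiftRight, show i - n + n = i by omega]
    exact le_max_right _ _

private theorem bits_sum : ∀ d < 39, (if d.testBit 0 then 2 ^ 0 else 0) +
    (if d.testBit 1 then 2 ^ 1 else 0) + (if d.testBit 2 then 2 ^ 2 else 0) +
    (if d.testBit 3 then 2 ^ 3 else 0) + (if d.testBit 4 then 2 ^ 4 else 0) +
    (if d.testBit 5 then 2 ^ 5 else 0) = d := by decide +kernel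

theorem bitM_spec {D : ℕ} (hD : Bd D 28 38) {b : ℕ} (hb : b < 6) :
    Bd (bitM D b) (28 * 39) (2 ^ 64 - 1) ∧ ∀ r < 39, ∀ c < 28,
      dg (bitM D b) (28 * r + c) = if (dg D c).testBit b then 2 ^ 64 - 1 else 0 := by
  have hO : ∀ l, dg O28 l = if l < 28 then 1 else 0 := fun l => by
    rw [O28_eq, dg_pk fun _ _ => by norm_num]
  have h1 : Bd (D >>> b &&& O28) 28 1 := Bd.of_land (b := 1) (by norm_num) O28_eq
  have h2 : ∀ c < 28, dg (D >>> b &&& O28) c = if (dg D c).testBit b then 1 else 0 := by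
    intro c hc
    rw [dg_land, hO, if_pos hc, ← testBit_dg D c (by omega : b < 64), add_comm,
      ← Nat.testBit_shiftRight, ← add_zero (64 * c), testBit_dg _ c (by norm_num : 0 < 64),
      Nat.and_one_is_mod, Nat.testBit_zero]
    split_ifs with h
    · simpa using h
    · have := Nat.mod_two_eq_zero_or_one (dg (D >>> b) c)
      simp only [decide_eq_true_eq] at h
      omega
  obtain ⟨h3, h4⟩ := h1.smul (c := 2 ^ 64 - 1) (by norm_num)
  obtain ⟨c1, c2, c3⟩ := col_spec C39_eq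
  obtain ⟨h5, h6⟩ := h3.kron c1 c2 (by norm_num)
  have e : bitM D b = (2 ^ 64 - 1) * (D >>> b &&& O28) * C39 := by
    unfold bitM
    rw [mul_comm (D >>> b &&& O28)]
    rfl
  rw [mul_one, mul_one] at h5
  rw [e]
  refine ⟨h5, fun r hr c hc => ?_⟩
  rw [h6 r c hc, h4, h2 c hc, c3 r hr]
  split_ifs
  · rw [mul_one, mul_one]
  · rw [mul_zero, zero_mul]

/-- one stage of the barrel shifter -/
theorem bar_spec {H D a : ℕ} (hH : Bd H (28 * 39) a) (hD : Bd D 28 38) {b : ℕ} (hb : b < 6) :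
    Bd (bar H (bitM D b) (1792 * 2 ^ b)) (28 * 39) a ∧ ∀ r, ∀ c < 28,
      dg (bar H (bitM D b) (1792 * 2 ^ b)) (28 * r + c) =
        dg H (28 * (r + if (dg D c).testBit b then 2 ^ b else 0) + c) := by
  obtain ⟨m1, m2⟩ := bitM_spec hD hb
  generalize bitM D b = M at m1 m2
  have key : bar H M (1792 * 2 ^ b) < 2 ^ (64 * (28 * 39)) ∧ ∀ r, ∀ c < 28,
      dg (bar H M (1792 * 2 ^ b)) (28 * r + c) =
        dg H (28 * (r + if (dg D c).testBit b then 2 ^ b else 0) + c) := by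
    have hl := hH.1
    have hz : ∀ i, 28 * 39 ≤ i → dg H i = 0 := fun i hi => dg_of_ge hH.1 hi
    have hz' : ∀ i, 28 * 39 ≤ i → dg M i = 0 := fun i hi => dg_of_ge m1.1 hi
    have hm := m1.1
    generalize 64 * (28 * 39) = N at hl hm ⊢
    unfold bar
    cases hM : Nat.beq M 0
    · rw [cond_false, show 1792 * 2 ^ b = 64 * (28 * 2 ^ b) by ring]
      refine ⟨Nat.xor_lt_two_pow hl (lt_of_le_of_lt Nat.and_le_right hm), fun r c hc => ?_⟩
      rw [dg_xor, dg_land, dg_xor, dg_shiftRight]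
      by_cases hr : r < 39
      · rw [m2 r hr c hc]
        split_ifs
        · rw [Nat.and_two_pow_sub_one_eq_mod,
            Nat.mod_eq_of_lt (Nat.xor_lt_two_pow (dg_lt _ _) (dg_lt _ _)), ← Nat.xor_assoc,
            Nat.xor_self, Nat.zero_xor]
          congr 1
          ring
        · rw [Nat.and_zero, Nat.xor_zero, add_zero]
      · rw [hz' _ (by omega), Nat.and_zero, Nat.xor_zero, hz _ (by omega), hz _ (by omega)]
    · rw [cond_true]
      refine ⟨hl, fun r c hc => ?_⟩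
      have h0 := m2 0 (by norm_num) c hc
      rw [Nat.eq_of_beq_eq_true hM] at h0
      split_ifs at h0 ⊢
      · simp [dg] at h0
      · rw [add_zero]
  refine ⟨⟨key.1, fun i => ?_⟩, key.2⟩
  rw [← Nat.div_add_mod i 28, key.2 _ _ (Nat.mod_lt _ (by norm_num))]
  exact hH.2 _

/-- suffix maximum over the rows -/
theorem sfx_spec {S a : ℕ} (hS : Bd S 560 a) (ha : a < 2 ^ 63) :
    Bd (sfx (sfx (sfx (sfx (sfx S 1792) 3584) 7168) 14336) 28672) 560 a ∧
      ∀ r r' c, r ≤ r' → r' < 20 → dg S (28 * r' + c) ≤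
        dg (sfx (sfx (sfx (sfx (sfx S 1792) 3584) 7168) 14336) 28672) (28 * r + c) := by
  obtain ⟨a1, b1⟩ := sfx_step (S := S) (m := 1) (n := 1792) hS ha rfl fun r c j hj => by
    rw [show j = 0 by omega, add_zero]
  obtain ⟨a2, b2⟩ := sfx_step (n := 3584) a1 ha rfl b1
  obtain ⟨a3, b3⟩ := sfx_step (n := 7168) a2 ha rfl b2
  obtain ⟨a4, b4⟩ := sfx_step (n := 14336) a3 ha rfl b3
  obtain ⟨a5, b5⟩ := sfx_step (n := 28672) a4 ha rfl b4
  refine ⟨a5, fun r r' c h h' => ?_⟩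
  have := b5 r c (r' - r) (by omega)
  rwa [show r + (r' - r) = r' by omega] at this

/-- maximum over the rows -/
theorem fold_spec {Y a : ℕ} (hY : Bd Y 560 a) (ha : a < 2 ^ 63) :
    Bd (fold H28 28 (fold H56 56 (fold H84 84 (fold H140 140 (fold H280 280 Y))))) 28 a ∧
      ∀ r < 20, ∀ c < 28, dg Y (28 * r + c) ≤
        dg (fold H28 28 (fold H56 56 (fold H84 84 (fold H140 140 (fold H280 280 Y))))) c := by
  obtain ⟨a1, b1⟩ := fold_step hY ha (by norm_num) (by norm_num) H280_eq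
  obtain ⟨a2, b2⟩ := fold_step a1 ha (by norm_num) (by norm_num) H140_eq
  obtain ⟨a3, b3⟩ := fold_step a2 ha (by norm_num) (by norm_num) H84_eq
  obtain ⟨a4, b4⟩ := fold_step a3 ha (by norm_num) (by norm_num) H56_eq
  obtain ⟨a5, b5⟩ := fold_step a4 ha (by norm_num) (by norm_num) H28_eq
  refine ⟨a5, fun r hr c hc => ?_⟩
  obtain ⟨i1, h1, e1, l1⟩ := b1 (28 * r + c) (by omega)
  obtain ⟨i2, h2, e2, l2⟩ := b2 i1 h1
  obtain ⟨i3, h3, e3, l3⟩ := b3 i2 h2
  obtain ⟨i4, h4, e4, l4⟩ := b4 i3 h3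
  obtain ⟨i5, h5, e5, l5⟩ := b5 i4 h4
  rw [show i5 = c by omega] at l5
  exact l1.trans (l2.trans (l3.trans (l4.trans l5)))

/-- `H' = S <<< 19 rows + row 0 repeated`; after the barrel shift by `dg D c` rows, row `k` holds
the suffix maximum from row `k + dg D c - 19`; row `19 - k'` of the upper half is grid value `k'`. -/
theorem pairs_spec {L : Lf} {Z D : ℕ} (hZ : Bd Z 1120 (2 ^ 61)) (hD : Bd D 28 38)
    (h0 : L.M0 = bitM D 0) (h1 : L.M1 = bitM D 1) (h2 : L.M2 = bitM D 2) (h3 : L.M3 = bitM D 3)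
    (h4 : L.M4 = bitM D 4) (h5 : L.M5 = bitM D 5) :
    Bd (pairs L Z) 28 (2 ^ 63) ∧ ∀ c < 28, ∀ k < 20, ∀ k' < 20, k + k' + dg D c ≤ 38 →
      dg Z (lay k c) + dg Z (lay k' (c + 28)) ≤ 2 ^ 61 - 2 ^ 58 + dg (pairs L Z) c := by
  have z1 : Bd (Z >>> 35840) 560 (2 ^ 61) := shr_bd (k := 560) hZ (by norm_num)
  have z2 : ∀ i, dg (Z >>> 35840) i = dg Z (i + 560) := dg_shiftRight Z 560
  obtain ⟨s1, s2⟩ := sfx_spec z1 (by norm_num)
  unfold pairs
  simp only [h0, h1, h2, h3, h4, h5]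
  generalize sfx (sfx (sfx (sfx (sfx (Z >>> 35840) 1792) 3584) 7168) 14336) 28672 = S at s1 s2 ⊢
  obtain ⟨w1, w2⟩ := low_spec s1 28
  obtain ⟨c1, c2, c3⟩ := col_spec C19_eq
  obtain ⟨k1, k2⟩ := w1.kron c1 c2 (by norm_num)
  have u1 : Bd (S <<< 34048) (28 * 39) (2 ^ 61) := s1.shiftLeft 532
  have u2 : ∀ i, dg (S <<< 34048) i = if 532 ≤ i then dg S (i - 532) else 0 :=
    dg_shiftLeft S 532
  obtain ⟨g1, g2⟩ := u1.add (k1.mono (by norm_num) le_rfl) (by norm_num)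
  have g3 : ∀ r, ∀ c < 28, dg S (28 * (r - 19) + c) ≤
      dg (S <<< 34048 + low 28 S * C19) (28 * r + c) := by
    intro r c hc
    rw [g2]
    by_cases hr : r < 19
    · rw [k2 r c hc, w2 c hc, c3 r hr, mul_one, show 28 * (r - 19) + c = c by omega]
      exact Nat.le_add_left _ _
    · rw [u2, if_pos (by omega), show 28 * r + c - 532 = 28 * (r - 19) + c by omega]
      exact Nat.le_add_right _ _
  generalize S <<< 34048 + low 28 S * C19 = G at g1 g3 ⊢
  obtain ⟨a5, b5⟩ := bar_spec g1 hD (b := 5) (by norm_num)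
  obtain ⟨a4, b4⟩ := bar_spec a5 hD (b := 4) (by norm_num)
  obtain ⟨a3, b3⟩ := bar_spec a4 hD (b := 3) (by norm_num)
  obtain ⟨a2, b2⟩ := bar_spec a3 hD (b := 2) (by norm_num)
  obtain ⟨a1, b1⟩ := bar_spec a2 hD (b := 1) (by norm_num)
  obtain ⟨a0, b0⟩ := bar_spec a1 hD (b := 0) (by norm_num)
  have t : ∀ r, ∀ c < 28, dg (bar (bar (bar (bar (bar (bar G (bitM D 5) (1792 * 2 ^ 5))
      (bitM D 4) (1792 * 2 ^ 4)) (bitM D 3) (1792 * 2 ^ 3)) (bitM D 2) (1792 * 2 ^ 2))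
      (bitM D 1) (1792 * 2 ^ 1)) (bitM D 0) (1792 * 2 ^ 0)) (28 * r + c) =
      dg G (28 * (r + dg D c) + c) := by
    intro r c hc
    rw [b0 _ c hc, b1 _ c hc, b2 _ c hc, b3 _ c hc, b4 _ c hc, b5 _ c hc]
    have := bits_sum (dg D c) (Nat.lt_succ_of_le (hD.2 c))
    congr 1
    omega
  simp only [show 1792 * 2 ^ 5 = 57344 from rfl, show 1792 * 2 ^ 4 = 28672 from rfl,
    show 1792 * 2 ^ 3 = 14336 from rfl, show 1792 * 2 ^ 2 = 7168 from rfl,
    show 1792 * 2 ^ 1 = 3584 from rfl, show 1792 * 2 ^ 0 = 1792 from rfl] at t a0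
  generalize bar (bar (bar (bar (bar (bar G (bitM D 5) 57344) (bitM D 4) 28672) (bitM D 3) 14336)
    (bitM D 2) 7168) (bitM D 1) 3584) (bitM D 0) 1792 = H at t a0 ⊢
  obtain ⟨x1, x2⟩ := low_spec hZ 560
  obtain ⟨y1, y2⟩ := low_spec a0 560
  obtain ⟨v1, v2⟩ := x1.add y1 (by norm_num)
  obtain ⟨f1, f2⟩ := fold_spec v1 (by norm_num)
  have q1 : Bd BAS 28 (2 ^ 61 - 2 ^ 58) := BAS_eq ▸ Bd.pk (by norm_num) fun _ _ => le_rfl
  have q2 : ∀ c < 28, dg BAS c = 2 ^ 61 - 2 ^ 58 := fun c hc => by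
    rw [BAS_eq, dg_pk fun _ _ => by norm_num, if_pos hc]
  obtain ⟨r1, r2⟩ := lsub_spec f1 q1 (by norm_num) (by norm_num) H28_eq
  refine ⟨r1.mono le_rfl (by norm_num), fun c hc k hk k' hk' hs => ?_⟩
  have e1 : lay k c = 28 * k + c := by
    unfold lay
    rw [Nat.mod_eq_of_lt (by omega : c < 56), if_pos hc]
  have e2 : lay k' (c + 28) = 28 * (19 - k') + c + 560 := by
    unfold lay
    rw [Nat.mod_eq_of_lt (by omega : c + 28 < 56), if_neg (by omega)]
    omega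
  have n1 := f2 k hk c hc
  rw [v2, x2 _ (by omega), y2 _ (by omega), t k c hc] at n1
  have n2 := g3 (k + dg D c) c hc
  have n3 := s2 (k + dg D c - 19) (19 - k') c (by omega) (by omega)
  rw [z2] at n3
  rw [e1, e2, r2, q2 c hc]
  exact ((Nat.add_le_add_left (n3.trans n2) _).trans n1).trans le_add_tsub

end Pool.Agent.P.MP_2e1554_gt.Chk
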