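import Pool.Agent.P.MP_2e1554_gt.IsoFast
import Mathlib.Util.TermReduce

/-! The fast checker with the small functions unfolded. -/

set_option maxRecDepth 100000

namespace Pool.Agent.P.MP_2e1554_gt.Chk

noncomputable def row4Q (p q : ℕ) (sg : Bool) : ℕ :=
  (Nat.add (Nat.add (Nat.add (Nat.add (Nat.shiftLeft (Nat.mul (nat_lit 4) (Nat.mul (Nat.mul
    (Nat.mul p p) p) p)) (nat_lit 256)) (Nat.shiftLeft (Nat.mul (nat_lit 24) (Nat.mul (Nat.mul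
    (Nat.mul p p) q) q)) (nat_lit 384))) (Nat.shiftLeft (Nat.mul (nat_lit 4) (Nat.mul (Nat.mul
    (Nat.mul q q) q) q)) (nat_lit 512))) (Nat.shiftLeft (Nat.add (Nat.shiftLeft (Nat.mul (nat_lit
    16) (Nat.mul (Nat.mul (Nat.mul p p) p) q)) (nat_lit 320)) (Nat.shiftLeft (Nat.mul (nat_lit 16)
    (Nat.mul (Nat.mul (Nat.mul p q) q) q)) (nat_lit 448))) (@Bool.rec (fun _ => ℕ) (nat_lit 0)
    (nat_lit 704) sg))) (Nat.shiftLeft (Nat.add (Nat.div (Nat.mul (nat_lit 12) (Nat.mul (Nat.add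
    (Nat.mul p p) (Nat.mul q q)) (Nat.add (Nat.mul p p) (Nat.mul q q)))) (nat_lit 5)) (nat_lit 1))
    (nat_lit 1408)))
noncomputable def sm1Q (P Q P4 Q4 TE l1 l2 h1 h2 FF HC HM px py qx qy fx fy : ℕ) : Bool := zeta% (
  let sdF (P M : ℕ) : ℕ :=
    (Nat.mul (Nat.add (Nat.sub P M) (Nat.sub M P)) (Nat.add (Nat.sub P M) (Nat.sub M P)))
  let sm3 (FF HC G1 E1 : ℕ) : Bool :=
    (@Bool.rec (fun _ => Bool) false (Nat.beq (Nat.land (Nat.add (Nat.mul (Nat.sub G1 H4) (Nat.sub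
        E1 H4)) HC) HD) HD) (Nat.beq (Nat.land (Nat.land G1 (Nat.sub E1 FF)) H4) H4))
  let sm2 (P Q TE l1 l2 h1 h2 FF HC G1 xp xm yp ym : ℕ) : Bool :=
    (sm3 FF HC G1 (Nat.sub TE (Nat.add (Nat.add (Nat.mul (Nat.sub (Nat.add (Nat.add (Nat.mul h1
        xp) (Nat.mul h2 yp)) (nat_lit 1267650600228229401496703205376)) (Nat.add (Nat.mul l1 xm)
        (Nat.mul l2 ym))) O4) (Nat.mul P (Nat.mul (Nat.add xp xm) (Nat.add xp xm)))) (Nat.mul Q
        (Nat.mul (Nat.add yp ym) (Nat.add yp ym))))))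
  (sm2 P Q TE l1 l2 h1 h2 FF HC (Nat.add (Nat.add (Nat.mul P4 (sdF px qx)) (Nat.mul Q4 (sdF py
        qy))) HM) (Nat.sub fx (nat_lit 1073741824)) (Nat.sub (nat_lit 1073741824) fx) (Nat.sub fy
        (nat_lit 1073741824)) (Nat.sub (nat_lit 1073741824) fy)))
noncomputable def smbQ (P Q P4 Q4 TE l1 l2 h1 h2 FF HC u w px0 py0 px1 py1 qx0 qy0 qx1 qy1 : ℕ) : Bool := zeta% (
  let sdF (P M : ℕ) : ℕ :=
    (Nat.mul (Nat.add (Nat.sub P M) (Nat.sub M P)) (Nat.add (Nat.sub P M) (Nat.sub M P)))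
  let sm0 (P Q P4 Q4 TE l1 l2 h1 h2 FF HC HM px py ux uy qx0 qy0 vx0 vy0 qx1 qy1 vx1 vy1 : ℕ) : Bool :=
    (@Bool.rec (fun _ => Bool) false (sm1Q P Q P4 Q4 TE l1 l2 h1 h2 FF HC HM px py qx1 qy1 (Nat.add
        ux vx1) (Nat.add uy vy1)) (sm1Q P Q P4 Q4 TE l1 l2 h1 h2 FF HC HM px py qx0 qy0 (Nat.add ux
        vx0) (Nat.add uy vy0)))
  let sma (P Q P4 Q4 TE l1 l2 h1 h2 FF HC HM w px0 py0 px1 py1 qx0 qy0 vx0 vy0 qx1 qy1 vx1 vy1 : ℕ) : Bool :=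
    (@Bool.rec (fun _ => Bool) false (sm0 P Q P4 Q4 TE l1 l2 h1 h2 FF HC HM px1 py1 (Nat.mul w
        px1) (Nat.mul w py1) qx0 qy0 vx0 vy0 qx1 qy1 vx1 vy1) (sm0 P Q P4 Q4 TE l1 l2 h1 h2 FF HC HM
        px0 py0 (Nat.mul w px0) (Nat.mul w py0) qx0 qy0 vx0 vy0 qx1 qy1 vx1 vy1))
  (sma P Q P4 Q4 TE l1 l2 h1 h2 FF HC (Nat.sub H4 (Nat.add (Nat.mul P (Nat.add (sdF px1 px0)
        (sdF qx1 qx0))) (Nat.mul Q (Nat.add (sdF py1 py0) (sdF qy1 qy0))))) w px0 py0 px1 py1 qx0 qy0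
        (Nat.mul u qx0) (Nat.mul u qy0) qx1 qy1 (Nat.mul u qx1) (Nat.mul u qy1)))
noncomputable def fcNQ (C : Cy) (k u j0 a0 j1 a1 m0 b0 m1 b1 : ℕ) : Bool := zeta% (
  let cX (j a : ℕ) : ℕ :=
    (Nat.add (Nat.mul a (eX j)) (Nat.sub (nat_lit 67108864) (Nat.mul (nat_lit 24) a)))
  let cY (j a : ℕ) : ℕ :=
    (Nat.add (Nat.mul a (eY j)) (Nat.sub (nat_lit 67108864) (Nat.mul (nat_lit 24) a)))
  @Cy.rec (fun _ => Bool) (fun ok P Q P4 Q4 TE l1 l2 h1 h2 =>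
    
        (@Bool.rec (fun _ => Bool) false (smbQ P Q P4 Q4 TE l1 l2 h1 h2 (FOk k) (HCk k) u (Nat.sub
        (nat_lit 16) u) (cX j0 a0) (cY j0 a0) (cX j1 a1) (cY j1 a1) (cX m0 b0) (cY m0 b0) (cX m1 b1)
        (cY m1 b1)) (@Bool.rec (fun _ => Bool) false (Nat.ble u (nat_lit 16)) (@Bool.rec (fun _ =>
        Bool) false (Nat.ble (Nat.add (Nat.add a0 a1) (Nat.add b0 b1)) (nat_lit 2097152)) ok)))) C)
noncomputable def pr1Q (P Q P4 Q4 TE l1 l2 h1 h2 FF HC o px py qx qy fx fy gx gy : ℕ) : Bool := zeta% (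
  let sdF (P M : ℕ) : ℕ :=
    (Nat.mul (Nat.add (Nat.sub P M) (Nat.sub M P)) (Nat.add (Nat.sub P M) (Nat.sub M P)))
  (@Bool.rec (fun _ => Bool) false (sm1Q P Q P4 Q4 TE l1 l2 h1 h2 FF HC (Nat.sub H4 (Nat.add
        (Nat.mul P (sdF px qx)) (Nat.mul Q (sdF py qy)))) qx qy o o gx gy) (sm1Q P Q P4 Q4 TE l1 l2 h1
        h2 FF HC (Nat.sub H4 (Nat.add (Nat.mul P (sdF px qx)) (Nat.mul Q (sdF py qy)))) px py o o fx
        fy)))
noncomputable def prNQ (C : Cy) (k i i1 j j1 a b c d : ℕ) : Bool := zeta% (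
  let cX (j a : ℕ) : ℕ :=
    (Nat.add (Nat.mul a (eX j)) (Nat.sub (nat_lit 67108864) (Nat.mul (nat_lit 24) a)))
  let cY (j a : ℕ) : ℕ :=
    (Nat.add (Nat.mul a (eY j)) (Nat.sub (nat_lit 67108864) (Nat.mul (nat_lit 24) a)))
  let fO (e c : ℕ) : ℕ :=
    (Nat.add (Nat.mul c e) (Nat.sub (nat_lit 1073741824) (Nat.mul (nat_lit 24) c)))
  @Cy.rec (fun _ => Bool) (fun ok P Q P4 Q4 TE l1 l2 h1 h2 =>
    
        (@Bool.rec (fun _ => Bool) false (pr1Q P Q P4 Q4 TE l1 l2 h1 h2 (FOk k) (HCk k) (nat_lit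
        67108864) (cX i (Nat.mul (nat_lit 16) a)) (cY i (Nat.mul (nat_lit 16) a)) (cX i1 (Nat.mul
        (nat_lit 16) b)) (cY i1 (Nat.mul (nat_lit 16) b)) (fO (eX j) c) (fO (eY j) c) (fO (eX j1) d)
        (fO (eY j1) d)) (@Bool.rec (fun _ => Bool) false (Nat.ble (Nat.add c d) (nat_lit 33554432))
        (@Bool.rec (fun _ => Bool) false (Nat.ble (Nat.add a b) (nat_lit 131072)) ok)))) C)
noncomputable def fcSQ (B : Bx) (C : Cy) (fl u : ℕ) (A Z : Sg) : Bool :=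
  @Bool.rec (fun _ => Bool) (@Sg.rec (fun _ => Bool) (fun j0 a0 j1 a1 =>
    @Sg.rec (fun _ => Bool) (fcNQ C fl u j0 a0 j1 a1) Z) A) (fdia B A Z) (Nat.beq u (nat_lit 255))
noncomputable def prSQ (C : Cy) (k sg u i a b : ℕ) : Bool :=
  Nat.blt i 28 && Nat.blt 0 (a * b) && force (i + 1) fun i1 => force (i + 28 * sg) fun j =>
    force (j + 1) fun j1 => prNQ C k i i1 j j1 a b (u * a) (u * b)
noncomputable def wPFQ (al be : ℕ) : ℕ := zeta% (
  let ls2 (H Z : ℕ) : ℕ :=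
    (Nat.land Z (Nat.mul (Nat.shiftRight (Nat.land Z H) (nat_lit 63)) (nat_lit
        9223372036854775807)))
  let lsF (H X Y : ℕ) : ℕ :=
    ls2 H
        (Nat.sub (Nat.add X H) Y)
  let krF (W A B : ℕ) : ℕ :=
    (Nat.add (Nat.mul (Nat.land W F28) A) (Nat.shiftLeft (Nat.mul (Nat.shiftRight W (nat_lit
        1792)) B) (nat_lit 35840)))
  krF (lsF H56 be al) PUA PUB)
noncomputable def wNFQ (al be : ℕ) : ℕ := zeta% (
  let ls2 (H Z : ℕ) : ℕ :=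
    (Nat.land Z (Nat.mul (Nat.shiftRight (Nat.land Z H) (nat_lit 63)) (nat_lit
        9223372036854775807)))
  let lsF (H X Y : ℕ) : ℕ :=
    ls2 H
        (Nat.sub (Nat.add X H) Y)
  let krF (W A B : ℕ) : ℕ :=
    (Nat.add (Nat.mul (Nat.land W F28) A) (Nat.shiftLeft (Nat.mul (Nat.shiftRight W (nat_lit
        1792)) B) (nat_lit 35840)))
  krF (lsF H56 al be) PLA PLB)
noncomputable def nPFQ (al be qhr : ℕ) : ℕ := zeta% (
  let ls2 (H Z : ℕ) : ℕ :=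
    (Nat.land Z (Nat.mul (Nat.shiftRight (Nat.land Z H) (nat_lit 63)) (nat_lit
        9223372036854775807)))
  let lsF (H X Y : ℕ) : ℕ :=
    ls2 H
        (Nat.sub (Nat.add X H) Y)
  let rL56 (X : ℕ) : ℕ :=
    (Nat.add (Nat.land (Nat.shiftLeft X (nat_lit 64)) F56) (Nat.shiftRight X (nat_lit 3520)))
  let rR56 (X : ℕ) : ℕ :=
    (Nat.add (Nat.shiftRight X (nat_lit 64)) (Nat.shiftLeft (Nat.land X (nat_lit
        18446744073709551615)) (nat_lit 3520)))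
  let gAF (al : ℕ) : ℕ :=
    (Nat.add (Nat.mul (nat_lit 12) (Nat.add (rL56 al) (rR56 al))) (Nat.mul (nat_lit 48) al))
  let gBF (be : ℕ) : ℕ :=
    (Nat.sub (Nat.mul (nat_lit 72) be) (Nat.land be CM))
  (Nat.land (Nat.shiftRight (Nat.mul (lsF H56 (gAF al) (gBF be)) qhr) (nat_lit 3520)) (nat_lit
        18446744073709551615)))
noncomputable def nNFQ (al be qlr : ℕ) : ℕ := zeta% (
  let ls2 (H Z : ℕ) : ℕ :=
    (Nat.land Z (Nat.mul (Nat.shiftRight (Nat.land Z H) (nat_lit 63)) (nat_lit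
        9223372036854775807)))
  let lsF (H X Y : ℕ) : ℕ :=
    ls2 H
        (Nat.sub (Nat.add X H) Y)
  let rL56 (X : ℕ) : ℕ :=
    (Nat.add (Nat.land (Nat.shiftLeft X (nat_lit 64)) F56) (Nat.shiftRight X (nat_lit 3520)))
  let rR56 (X : ℕ) : ℕ :=
    (Nat.add (Nat.shiftRight X (nat_lit 64)) (Nat.shiftLeft (Nat.land X (nat_lit
        18446744073709551615)) (nat_lit 3520)))
  let gAF (al : ℕ) : ℕ :=
    (Nat.add (Nat.mul (nat_lit 12) (Nat.add (rL56 al) (rR56 al))) (Nat.mul (nat_lit 48) al))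
  let gBF (be : ℕ) : ℕ :=
    (Nat.sub (Nat.mul (nat_lit 72) be) (Nat.land be CM))
  (Nat.land (Nat.shiftRight (Nat.mul (lsF H56 (gBF be) (gAF al)) qlr) (nat_lit 3520)) (nat_lit
        18446744073709551615)))
noncomputable def revFQ (X : ℕ) : ℕ := zeta% (
  let swF (M s X : ℕ) : ℕ :=
    Nat.lor
        (Nat.shiftLeft (Nat.land X M) s)
        (Nat.land (Nat.shiftRight X s) M)
  (Nat.shiftRight (swF RM0 (nat_lit 64) (swF RM1 (nat_lit 128) (swF RM2 (nat_lit 256) (swF RM3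
        (nat_lit 512) (swF RM4 (nat_lit 1024) (swF RM5 (nat_lit 2048) (Nat.land X F56))))))) (nat_lit
        512)))
noncomputable def bmFQ (D b : ℕ) : ℕ :=
  (Nat.mul (Nat.mul (Nat.land (Nat.shiftRight D b) O28) (nat_lit 18446744073709551615)) C39)
noncomputable def dLFQ (ll : ℕ) : ℕ := zeta% (
  let ls2 (H Z : ℕ) : ℕ :=
    (Nat.land Z (Nat.mul (Nat.shiftRight (Nat.land Z H) (nat_lit 63)) (nat_lit
        9223372036854775807)))
  let lmF (H X Y : ℕ) : ℕ :=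
    (Nat.add Y (ls2 H (Nat.sub (Nat.add X H) Y)))
  let dL2 (ll : ℕ) : ℕ :=
    (Nat.sub D38 (lmF H28 ll (Nat.add (Nat.land (Nat.shiftLeft ll (nat_lit 64)) F28)
        (Nat.shiftRight ll (nat_lit 1728)))))
  (dL2 (Nat.land ll F28)))
noncomputable def nWFQ (m : ℕ) : ℕ := zeta% (
  let nW2 (m n : ℕ) : ℕ :=
    (Nat.add (Nat.add (Nat.land (Nat.shiftLeft n (nat_lit 2688)) F56) (Nat.shiftRight m (nat_lit
        2688))) (Nat.shiftRight (revFQ n) (nat_lit 832)))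
  (nW2 m (Nat.shiftRight m (nat_lit 1792))))
noncomputable def mTFQ (m N : ℕ) : ℕ := zeta% (
  let krF (W A B : ℕ) : ℕ :=
    (Nat.add (Nat.mul (Nat.land W F28) A) (Nat.shiftLeft (Nat.mul (Nat.shiftRight W (nat_lit
        1792)) B) (nat_lit 35840)))
  let mW2 (a N : ℕ) : ℕ :=
    (Nat.add (Nat.add a (Nat.shiftLeft a (nat_lit 1792))) N)
  (krF (mW2 (Nat.land m F28) N) MUA MUB))
noncomputable def hiFQ (FB : ℕ) : ℕ := zeta% (
  let hi2 (P : ℕ) : ℕ :=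
    (Nat.add (Nat.land (Nat.shiftRight P (nat_lit 34048)) F28) (Nat.shiftLeft (Nat.land
        (Nat.shiftRight P (nat_lit 69888)) F28) (nat_lit 1792)))
  (hi2 (Nat.mul (Nat.land FB O1120) C20)))
noncomputable def kqFQ (ll HI : ℕ) : ℕ := zeta% (
  let ls2 (H Z : ℕ) : ℕ :=
    (Nat.land Z (Nat.mul (Nat.shiftRight (Nat.land Z H) (nat_lit 63)) (nat_lit
        9223372036854775807)))
  let lsF (H X Y : ℕ) : ℕ :=
    ls2 H
        (Nat.sub (Nat.add X H) Y)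
  let lmF (H X Y : ℕ) : ℕ :=
    (Nat.add Y (ls2 H (Nat.sub (Nat.add X H) Y)))
  let lm2 (K : ℕ) : ℕ :=
    (Nat.shiftLeft (Nat.shiftRight (lsF H28 (Nat.mul (nat_lit 64) O28) (lmF H28 K (Nat.land
        (Nat.shiftLeft K (nat_lit 64)) F28))) (nat_lit 64)) (nat_lit 1856))
  let kq3 (HI A : ℕ) : ℕ :=
    (Nat.sub A (lsF H56 A (lsF H56 HI O56)))
  let kq2 (ll HI R : ℕ) : ℕ :=
    (kq3 HI (lsF H56 (nWFQ (lm2 (Nat.land (Nat.shiftRight ll (nat_lit 8960)) F28))) (Nat.add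
        (Nat.land (Nat.shiftLeft R (nat_lit 1856)) F56) (Nat.shiftRight R (nat_lit 1728)))))
  (kq2 ll HI (revFQ HI)))
noncomputable def kxFQ (ll FB N : ℕ) : ℕ := zeta% (
  let ls2 (H Z : ℕ) : ℕ :=
    (Nat.land Z (Nat.mul (Nat.shiftRight (Nat.land Z H) (nat_lit 63)) (nat_lit
        9223372036854775807)))
  let lsF (H X Y : ℕ) : ℕ :=
    ls2 H
        (Nat.sub (Nat.add X H) Y)
  let krF (W A B : ℕ) : ℕ :=
    (Nat.add (Nat.mul (Nat.land W F28) A) (Nat.shiftLeft (Nat.mul (Nat.shiftRight W (nat_lit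
        1792)) B) (nat_lit 35840)))
  let bmuF (N Q b : ℕ) : ℕ :=
    (Nat.shiftLeft (Nat.land N (Nat.mul (Nat.land (Nat.shiftRight Q b) O56) (nat_lit
        18446744073709551615))) b)
  let kx3 (N Q : ℕ) : ℕ :=
    (lsF H1120 (krF (Nat.shiftLeft (Nat.add (Nat.add (Nat.add (Nat.add (bmuF N Q (nat_lit 0))
        (bmuF N Q (nat_lit 1))) (bmuF N Q (nat_lit 2))) (bmuF N Q (nat_lit 3))) (bmuF N Q (nat_lit
        4))) (nat_lit 20)) C20 C20) (krF N KKA KKB))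
  (kx3 N (kqFQ ll (hiFQ FB))))
noncomputable def mSFQ (m ll : ℕ) : ℕ := zeta% (
  let mS2 (m ll Y : ℕ) : ℕ :=
    (Nat.mul (nat_lit 864) (Nat.land (Nat.shiftRight (Nat.mul m (revFQ (Nat.add (Nat.add (Nat.land
        (Nat.shiftRight ll (nat_lit 1792)) F28) (Nat.add (Nat.land (Nat.shiftLeft Y (nat_lit 64)) F28)
        (Nat.shiftRight Y (nat_lit 1728)))) (Nat.shiftLeft (Nat.add (Nat.land (Nat.shiftRight ll
        (nat_lit 5376)) F28) (Nat.land (Nat.shiftRight ll (nat_lit 7104)) F28)) (nat_lit 1792)))))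
        (nat_lit 3520)) (nat_lit 18446744073709551615)))
  (mS2 m ll (Nat.land (Nat.shiftRight ll (nat_lit 3584)) F28)))
noncomputable def vt3Q (g1 g2 gth b1p b1q b2p b2q ka ya yb FM M0 M1 M2 M3 M4 M5 qhr qlr vl vh PC NC EP EN KP KN
    RP XK MS KX v1 v2 p0 q0 p1 q1 p2 q2 p3 q3 p4 q4 p5 q5 al be T : ℕ) (om th : Bool) : Bool := zeta% (
  let ls2 (H Z : ℕ) : ℕ :=
    (Nat.land Z (Nat.mul (Nat.shiftRight (Nat.land Z H) (nat_lit 63)) (nat_lit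
        9223372036854775807)))
  let lsF (H X Y : ℕ) : ℕ :=
    ls2 H
        (Nat.sub (Nat.add X H) Y)
  let lmF (H X Y : ℕ) : ℕ :=
    (Nat.add Y (ls2 H (Nat.sub (Nat.add X H) Y)))
  let fmF (acc c T : ℕ) : ℕ :=
    (Nat.add acc (Nat.mul c T))
  let baF (H M n : ℕ) : ℕ :=
    (@Bool.rec (fun _ => ℕ) (Nat.xor H (Nat.land (Nat.xor H (Nat.shiftRight H n)) M)) H (Nat.beq M
        (nat_lit 0)))
  let sfF (S n : ℕ) : ℕ :=
    lmF H560 S (Nat.shiftRight S n)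
  let foF (H F n Y : ℕ) : ℕ :=
    lmF H (Nat.land Y F) (Nat.shiftRight Y n)
  let pa2 (M0 M1 M2 M3 M4 M5 Z S : ℕ) : ℕ :=
    (lsF H28 (foF H28 F28 (nat_lit 1792) (foF H56 F56 (nat_lit 3584) (foF H84 F84 (nat_lit 5376)
        (foF H140 F140 (nat_lit 8960) (foF H280 F280 (nat_lit 17920) (Nat.add (Nat.land Z F560)
        (Nat.land (baF (baF (baF (baF (baF (baF (Nat.add (Nat.shiftLeft S (nat_lit 34048)) (Nat.mul
        (Nat.land S F28) C19)) M5 (nat_lit 57344)) M4 (nat_lit 28672)) M3 (nat_lit 14336)) M2 (nat_lit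
        7168)) M1 (nat_lit 3584)) M0 (nat_lit 1792)) F560))))))) BAS)
  let paF (M0 M1 M2 M3 M4 M5 Z : ℕ) : ℕ :=
    (pa2 M0 M1 M2 M3 M4 M5 Z (sfF (sfF (sfF (sfF (sfF (Nat.shiftRight Z (nat_lit 35840)) (nat_lit
        1792)) (nat_lit 3584)) (nat_lit 7168)) (nat_lit 14336)) (nat_lit 28672)))
  let eS2 (N : ℕ) : ℕ :=
    (Nat.mul (Nat.add (Nat.add (Nat.add N (Nat.shiftLeft (Nat.land N MA) (nat_lit 1792)))
        (Nat.shiftRight (Nat.land N MB) (nat_lit 1792))) O1120) (nat_lit 43))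
  let eSF (P : ℕ) : ℕ :=
    (eS2 (Nat.land (Nat.shiftRight (lsF H1120 (Nat.mul (nat_lit 2) P) (Nat.add (Nat.shiftRight P
        (nat_lit 1792)) (Nat.land (Nat.shiftLeft P (nat_lit 1792)) F1120))) (nat_lit 8)) MD))
  let eXF (A B a b p3 q3 p4 q4 p5 q5 : ℕ) : ℕ :=
    (lsF H1120 (fmF (fmF (fmF (fmF A (Nat.mul (Nat.sub a b) (nat_lit 1073741824)) O1120) q3 YU3)
        q4 YU4) q5 YU5) (fmF (fmF (fmF (fmF B (Nat.mul (Nat.sub b a) (nat_lit 1073741824)) O1120) p3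
        YL3) p4 YL4) p5 YL5))
  let vt5 (g1 g2 gth ka ya yb vl vh RP v1 v2 KP KN T Z C eP eM nP nN : ℕ) (om th : Bool) : Bool :=
    (@Bool.rec (fun _ => Bool) false (Nat.ble (Nat.succ (Nat.add (Nat.mul (nat_lit 2560000)
        (Nat.add (Nat.mul (nat_lit 648) (Nat.add (Nat.add (nat_lit 56493153725735501824) (Nat.mod C
        (nat_lit 18446744073709551615))) (Nat.mul (nat_lit 60129542144) (Nat.add KP (nat_lit 30)))))
        (Nat.mul (nat_lit 144) nP))) (Nat.mul (nat_lit 9216) (Nat.add (Nat.mul (nat_lit 10000)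
        (Nat.add (Nat.mul (nat_lit 256) (Nat.add (@Bool.rec (fun _ => ℕ) (nat_lit 0) (Nat.add (Nat.div
        CKAP (jRF g1 g2 v1 v2)) (nat_lit 1)) th) (caG gth g1 g2 om))) (Nat.mul ka RP))) (Nat.mul (nat_lit 256) (Nat.mul
        (Nat.sub eP eM) vh)))))) (Nat.add (Nat.mul (nat_lit 2560000) (Nat.add (Nat.mul (nat_lit 648)
        (Nat.add (nat_lit 64563604257983430656) (Nat.mul (nat_lit 60129542144) KN))) (Nat.mul (nat_lit
        144) nN))) (Nat.mul (nat_lit 9216) (Nat.add (Nat.mul (nat_lit 10000) (Nat.add (Nat.mul ka (Nat.add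
        (Nat.mul (nat_lit 32) (Nat.add (Nat.mul v1 ya) (Nat.mul v2 yb))) (nat_lit 4026531840)))
        (Nat.mul (nat_lit 256) (cbG gth v1 v2 om))))
        (Nat.mul (nat_lit 256) (Nat.mul (Nat.sub eM eP) vl)))))) (@Bool.rec (fun _ => Bool) false
        (Nat.beq (Nat.land C HI59) (nat_lit 0)) (@Bool.rec (fun _ => Bool) false (Nat.beq (Nat.land Z
        HI61) (nat_lit 0)) (@Bool.rec (fun _ => Bool) false (Nat.beq (Nat.land T HI56) (nat_lit 0))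
        (@Bool.rec (fun _ => Bool) false (@Bool.rec (fun _ => Bool) (Nat.ble (Nat.succ (nat_lit 0))
        vh) true (Nat.ble eP eM)) (@Bool.rec (fun _ => Bool) false (@Bool.rec (fun _ => Bool) (Nat.ble
        (Nat.succ (Nat.mul SG (Nat.mul g1 g2))) (Nat.mul (nat_lit 4) (jIF g1 g2 v1 v2))) true
        (@Bool.rec (fun _ => Bool) true false (@Bool.rec (fun _ => Bool) false (Nat.beq (Nat.mod gth
        (nat_lit 8)) (nat_lit 2)) om))) (@Bool.rec (fun _ => Bool) false (@Bool.rec (fun _ => Bool) (Nat.ble (Nat.succ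
        (nat_lit 0)) (jRF g1 g2 v1 v2)) true (@Bool.rec (fun _ => Bool) true false th)) (@Bool.rec
        (fun _ => Bool) false (@Bool.rec (fun _ => Bool) (Nat.ble (Nat.mod gth (nat_lit 8)) (nat_lit 2)) true (@Bool.rec
        (fun _ => Bool) true false om)) (@Bool.rec (fun _ => Bool) false (Nat.ble v2 (nat_lit
        37748736)) (@Bool.rec (fun _ => Bool) false (Nat.ble v1 (nat_lit 37748736)) (@Bool.rec (fun _
        => Bool) false (Nat.ble (Nat.add g1 g2) (nat_lit 31457280)) (Nat.ble (Nat.add KP KN) (nat_lit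
        268435456)))))))))))))
  let vt4 (g1 g2 gth ka ya yb vl vh RP v1 v2 KP KN T M0 M1 M2 M3 M4 M5 Z eP eM nP nN : ℕ) (om th : Bool) : Bool :=
    (vt5 g1 g2 gth ka ya yb vl vh RP v1 v2 KP KN T Z (paF M0 M1 M2 M3 M4 M5 Z) eP eM nP nN om th)
  let zF (P Y T FM KX : ℕ) : ℕ :=
    (Nat.land (lsF H1120 (Nat.add (Nat.add (Nat.add P (eSF P)) Y) T) KX) FM)
  (vt4 g1 g2 gth ka ya yb vl vh RP v1 v2 (Nat.add KP (Nat.add (Nat.add (Nat.add (Nat.add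
        (Nat.add p0 p1) p2) p3) p4) p5)) (Nat.add KN (Nat.add (Nat.add (Nat.add (Nat.add (Nat.add q0
        q1) q2) q3) q4) q5)) T M0 M1 M2 M3 M4 M5 (zF (Nat.sub (fmF (fmF (fmF (fmF (fmF (fmF (Nat.add
        PC (wPFQ al be)) q0 TU0) q1 TU1) q2 TU2) q3 TU3) q4 TU4) q5 TU5) (fmF (fmF (fmF (fmF (fmF (fmF
        (Nat.add NC (wNFQ al be)) p0 TL0) p1 TL1) p2 TL2) p3 TL3) p4 TL4) p5 TL5)) (eXF EP EN (Nat.add
        KP (Nat.add (Nat.add p3 p4) p5)) (Nat.add KN (Nat.add (Nat.add q3 q4) q5)) p3 q3 p4 q4 p5 q5)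
        T FM KX) (Nat.add (Nat.mul SG (Nat.add (Nat.add (Nat.add p0 p3) p4) XK)) (Nat.mul (nat_lit 2)
        (Nat.add (Nat.add (Nat.mul b1q v1) (Nat.mul b2q v2)) (Nat.mul OO (Nat.add b1p b2p)))))
        (Nat.add (Nat.add (Nat.add (Nat.mul SG (Nat.add (Nat.add q0 q3) q4)) (Nat.mul (nat_lit 2)
        (Nat.add (Nat.add (Nat.mul b1p v1) (Nat.mul b2p v2)) (Nat.mul OO (Nat.add b1q b2q)))))
        (@Bool.rec (fun _ => ℕ) (nat_lit 0) (bMF (Nat.mod gth (nat_lit 8)) g1 g2 v1 v2) om)) (@Bool.rec (fun _ => ℕ)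
        (nat_lit 0) (slF gth g1) th)) (Nat.add (nPFQ al be qhr) MS) (nNFQ al be qlr) om th))
noncomputable def vt2Q (g1 g2 gth b1p b1q b2p b2q ka ya yb FM M0 M1 M2 M3 M4 M5 qhr qlr vl vh PC NC EP EN KP KN
    RP XK MS KX : ℕ) (om th : Bool) (v1 v2 p0 q0 p1 q1 p2 q2 p3 q3 p4 q4 p5 q5 al be : ℕ) : Bool :=
  frc (Nat.land al M31) fun al => frc (Nat.land be M31) fun be => vtS (fun T o =>
    vt3Q g1 g2 gth b1p b1q b2p b2q ka ya yb FM M0 M1 M2 M3 M4 M5 qhr qlr vl vh PC NC EP EN KP KN RP XK MS KX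
      v1 v2 p0 q0 p1 q1 p2 q2 p3 q3 p4 q4 p5 q5 al be T o th)
    (Nat.land (mkTF g1 g2 v1 v2) FM) om
noncomputable def cvFQ (b1 b2 g1 g2 X : ℕ) : ℕ := zeta% (
  let cdF (b g : ℕ) : ℕ :=
    (Nat.mod (Nat.div (Nat.mul b g) SG) (nat_lit 1073741824))
  (Nat.add (Nat.land (Nat.shiftRight X (nat_lit 12)) M52) (Nat.add (Nat.add (Nat.add (cdF b1 g1)
        (Nat.shiftLeft (cdF b2 g1) (nat_lit 64))) (Nat.shiftLeft (cdF b1 g2) (nat_lit 128)))
        (Nat.shiftLeft (cdF b2 g2) (nat_lit 192)))))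
noncomputable def le2Q (g1 g2 dl gth t0 t1 f0 f1 a0 a1 b0 b1 ql qh FB D vl vh om b1p b1q b2p b2q ka ya yb xa
    CP CQ MT MS KX : ℕ) (d0 d1 d2 d3 : Vd) : Bool := zeta% (
  let ls2 (H Z : ℕ) : ℕ :=
    (Nat.land Z (Nat.mul (Nat.shiftRight (Nat.land Z H) (nat_lit 63)) (nat_lit
        9223372036854775807)))
  let lmF (H X Y : ℕ) : ℕ :=
    (Nat.add Y (ls2 H (Nat.sub (Nat.add X H) Y)))
  let lgF (H X Y : ℕ) : ℕ :=
    (Nat.mul (Nat.shiftRight (Nat.land (Nat.sub (Nat.add X H) Y) H) (nat_lit 63)) (nat_lit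
        18446744073709551615))
  let laF (X i : ℕ) : ℕ :=
    (Nat.land (Nat.shiftRight X (Nat.mul (nat_lit 64) i)) (nat_lit 18446744073709551615))
  let rL56 (X : ℕ) : ℕ :=
    (Nat.add (Nat.land (Nat.shiftLeft X (nat_lit 64)) F56) (Nat.shiftRight X (nat_lit 3520)))
  let rR56 (X : ℕ) : ℕ :=
    (Nat.add (Nat.shiftRight X (nat_lit 64)) (Nat.shiftLeft (Nat.land X (nat_lit
        18446744073709551615)) (nat_lit 3520)))
  let krF (W A B : ℕ) : ℕ :=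
    (Nat.add (Nat.mul (Nat.land W F28) A) (Nat.shiftLeft (Nat.mul (Nat.shiftRight W (nat_lit
        1792)) B) (nat_lit 35840)))
  let fmF (acc c T : ℕ) : ℕ :=
    (Nat.add acc (Nat.mul c T))
  let mxF (a b : ℕ) : ℕ :=
    (Nat.add a (Nat.sub b a))
  let le3 (V : ℕ → ℕ → ℕ → ℕ → ℕ → ℕ → ℕ → ℕ → ℕ → ℕ → ℕ → ℕ → ℕ → ℕ → ℕ → ℕ → Bool) (ok : Bool) (a0 a1 b0 b1 : ℕ) (d0 d1 d2 d3 : Vd) : Bool :=
    (@Bool.rec (fun _ => Bool) false (@Bool.rec (fun _ => Bool) false (@Bool.rec (fun _ => Bool) false (@Bool.rec (fun _ => Bool) false (@Vd.rec (fun _ => Bool) (V a1 b1) d3) (@Vd.rec (fun _ => Bool) (V a1 b0) d2)) (@Vd.rec (fun _ => Bool) (V a0 b1) d1)) (@Vd.rec (fun _ => Bool) (V a0 b0) d0)) ok)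
  le3 (vt2Q g1 g2 gth b1p b1q b2p b2q ka ya yb
    
        (Nat.land (lgF H1120 (krF (lmF H56 (lmF H56 (rL56 qh) (rR56 qh)) qh) C20 C20) PAq) FB)
    
        (bmFQ D (nat_lit 0))
        (bmFQ D (nat_lit 1))
        (bmFQ D (nat_lit 2))
        (bmFQ D (nat_lit 3))
        (bmFQ D (nat_lit 4))
        (bmFQ D (nat_lit 5)) (revFQ qh) (revFQ ql) vl vh
    
        (fmF (fmF (fmF (fmF (fmF (fmF (fmF (fmF (fmF (fmF (fmF OFV (laF CQ (nat_lit 0)) TU6) (laF CQ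
        (nat_lit 1)) TU7) (laF CQ (nat_lit 2)) TU8) (laF CQ (nat_lit 3)) TU9) (laF CQ (nat_lit 4))
        TU10) (laF CQ (nat_lit 5)) TU11) (laF CQ (nat_lit 6)) TU12) (laF CQ (nat_lit 7)) TU13) (laF CQ
        (nat_lit 8)) TU14) (laF CQ (nat_lit 9)) TU15) (laF CQ (nat_lit 10)) TU16)
    
        (fmF (fmF (fmF (fmF (fmF (fmF (fmF (fmF (fmF (fmF (fmF MT (laF CP (nat_lit 0)) TL6) (laF CP
        (nat_lit 1)) TL7) (laF CP (nat_lit 2)) TL8) (laF CP (nat_lit 3)) TL9) (laF CP (nat_lit 4))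
        TL10) (laF CP (nat_lit 5)) TL11) (laF CP (nat_lit 6)) TL12) (laF CP (nat_lit 7)) TL13) (laF CP
        (nat_lit 8)) TL14) (laF CP (nat_lit 9)) TL15) (laF CP (nat_lit 10)) TL16)
    
        (fmF (fmF (fmF (fmF (fmF (fmF (fmF (fmF (fmF (fmF (fmF (nat_lit 0) (laF CQ (nat_lit 0)) YU6)
        (laF CQ (nat_lit 1)) YU7) (laF CQ (nat_lit 2)) YU8) (laF CQ (nat_lit 3)) YU9) (laF CQ (nat_lit
        4)) YU10) (laF CQ (nat_lit 5)) YU11) (laF CQ (nat_lit 6)) YU12) (laF CQ (nat_lit 7)) YU13)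
        (laF CQ (nat_lit 8)) YU14) (laF CQ (nat_lit 9)) YU15) (laF CQ (nat_lit 10)) YU16)
    
        (fmF (fmF (fmF (fmF (fmF (fmF (fmF (fmF (fmF (fmF (fmF (nat_lit 0) (laF CP (nat_lit 0)) YL6)
        (laF CP (nat_lit 1)) YL7) (laF CP (nat_lit 2)) YL8) (laF CP (nat_lit 3)) YL9) (laF CP (nat_lit
        4)) YL10) (laF CP (nat_lit 5)) YL11) (laF CP (nat_lit 6)) YL12) (laF CP (nat_lit 7)) YL13)
        (laF CP (nat_lit 8)) YL14) (laF CP (nat_lit 9)) YL15) (laF CP (nat_lit 10)) YL16)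
    
        (Nat.mod CP (nat_lit 18446744073709551615))
        (Nat.mod CQ (nat_lit 18446744073709551615))
    
        (Nat.add (mxF (mxF (rqF ya yb t0 f0) (rqF ya yb t0 f1)) (mxF (rqF ya yb t1 f0) (rqF ya yb t1
        f1))) (Nat.mul (nat_lit 32) (Nat.mul (Nat.add OO dl) (Nat.add ya yb))))
    
        (Nat.shiftRight (Nat.add (laF xa (nat_lit 22)) (nat_lit 4095)) (nat_lit 12)) MS KX
        (@Bool.rec (fun _ => Bool) true false (Nat.beq om (nat_lit 0)))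
        (@Bool.rec (fun _ => Bool) false (Nat.beq (Nat.mod gth (nat_lit 8)) (nat_lit 1)) (@Bool.rec (fun _ => Bool) true
        false (Nat.beq om (nat_lit 0)))))
        (okB ⟨t0, t1, f0, f1, 0, 0, 0, 0⟩ &&
        (Nat.ble (Nat.add (Nat.add (Nat.add b1p b1q) b2p) b2q) (nat_lit 268435456))) a0 a1 b0 b1 d0 d1 d2 d3)
noncomputable def leafFQ (G : Gx) (B : Bx) (s : St) (c : Cm) (xa : ℕ) (d0 d1 d2 d3 : Vd) : Bool := zeta% (
  let ls2 (H Z : ℕ) : ℕ :=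
    (Nat.land Z (Nat.mul (Nat.shiftRight (Nat.land Z H) (nat_lit 63)) (nat_lit
        9223372036854775807)))
  let lsF (H X Y : ℕ) : ℕ :=
    ls2 H
        (Nat.sub (Nat.add X H) Y)
  let lgF (H X Y : ℕ) : ℕ :=
    (Nat.mul (Nat.shiftRight (Nat.land (Nat.sub (Nat.add X H) Y) H) (nat_lit 63)) (nat_lit
        18446744073709551615))
  let rL56 (X : ℕ) : ℕ :=
    (Nat.add (Nat.land (Nat.shiftLeft X (nat_lit 64)) F56) (Nat.shiftRight X (nat_lit 3520)))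
  let krF (W A B : ℕ) : ℕ :=
    (Nat.add (Nat.mul (Nat.land W F28) A) (Nat.shiftLeft (Nat.mul (Nat.shiftRight W (nat_lit
        1792)) B) (nat_lit 35840)))
  @Gx.rec (fun _ => Bool) (fun g1 g2 dl gth => @Bx.rec (fun _ => Bool) (fun t0 t1 f0 f1 a0 a1 b0 b1 =>
        @St.rec (fun _ => Bool) (fun ql qh sl ll vl vh =>
          @Cm.rec (fun _ => Bool) (fun om b1p b1q b2p b2q ka ya yb _ mu => frc
        (Nat.land mu N31) fun m =>
            frc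
        (cvFQ b1p b2p g1 g2 (lsF H11 (Nat.land xa F11) (Nat.land (Nat.shiftRight xa (nat_lit 704))
        F11))) fun CP =>
            frc
        (cvFQ b1q b2q g1 g2 (lsF H11 (Nat.land (Nat.shiftRight xa (nat_lit 704)) F11) (Nat.land xa
        F11))) fun CQ =>
            frc (nWFQ m) fun N =>
            frc
        (lgF H1120 PBq (krF (Nat.sub sl (lsF H56 sl (rL56 sl))) C20 C20)) fun FB =>
            le2Q g1 g2 dl gth t0 t1 f0 f1 a0 a1 b0 b1 ql qh FB (dLFQ ll) vl vh om b1p b1q b2p b2q ka ya yb xa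
              CP CQ (mTFQ m N) (mSFQ m ll) (kxFQ ll FB N) d0 d1 d2 d3) c) s) B) G)
noncomputable def dPQ (a b : ℕ) : ℕ := zeta% (
  let dA (a b : ℕ) : ℕ :=
    (Nat.add (Nat.mul (eX a) (eY b)) (Nat.mul (nat_lit 24) (Nat.add (eY a) (eX b))))
  (Nat.sub (dA a b) (dA b a)))
noncomputable def hullFQ (qh l j m : ℕ) : ℕ := zeta% (
  let laF (X i : ℕ) : ℕ :=
    (Nat.land (Nat.shiftRight X (Nat.mul (nat_lit 64) i)) (nat_lit 18446744073709551615))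
  let upF (X i v : ℕ) : ℕ :=
    (Nat.add (Nat.sub X (Nat.shiftLeft (laF X i) (Nat.mul (nat_lit 64) i))) (Nat.shiftLeft v
        (Nat.mul (nat_lit 64) i)))
  let hu2 (qh l j m n : ℕ) : ℕ :=
    (@Bool.rec (fun _ => ℕ) qh (upF qh l n) (@Bool.rec (fun _ => Bool) false (Nat.ble (Nat.succ n)
        (laF qh l)) (@Bool.rec (fun _ => Bool) false (Nat.beq (dPQ l j) (nat_lit 0)) (@Bool.rec (fun _
        => Bool) false (Nat.beq (dPQ m l) (nat_lit 0)) (Nat.ble (Nat.succ (nat_lit 0)) (dPQ j m))))))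
  (hu2 qh l j m (Nat.add (Nat.div (Nat.add (Nat.mul (dPQ l m) (laF qh j)) (Nat.mul (dPQ j l) (laF
        qh m))) (dPQ j m)) (nat_lit 1))))
noncomputable def sh1Q (x y : ℕ) (o : Bool) (a j l : ℕ) : ℕ :=
  (@Bool.rec (fun _ => ℕ) (@Bool.rec (fun _ => ℕ) (nat_lit 0) (Nat.div (Nat.sub (Nat.mul (dPQ a
    l) x) (Nat.mul (dPQ a j) y)) (dPQ j l)) (Nat.beq (dPQ j a) (nat_lit 0))) (@Bool.rec (fun _ => ℕ)
    (nat_lit 0) (Nat.div (Nat.sub (Nat.mul (dPQ l a) x) (Nat.mul (dPQ j a) y)) (dPQ l j)) (Nat.beq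
    (dPQ a j) (nat_lit 0))) o)
noncomputable def sh2Q (x y : ℕ) (o sec : Bool) (i j l : ℕ) : ℕ := zeta% (
  let mn (a b : ℕ) : ℕ :=
    (Nat.sub a (Nat.sub a b))
  @Bool.rec (fun _ => ℕ) (sh1Q x y o i j l)
        (force (Nat.succ i) fun i1 => mn (sh1Q x y o i j l) (sh1Q x y o i1 j l)) sec)
noncomputable def raFQ (X i τ : ℕ) : ℕ := zeta% (
  let laF (X i : ℕ) : ℕ :=
    (Nat.land (Nat.shiftRight X (Nat.mul (nat_lit 64) i)) (nat_lit 18446744073709551615))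
  let upF (X i v : ℕ) : ℕ :=
    (Nat.add (Nat.sub X (Nat.shiftLeft (laF X i) (Nat.mul (nat_lit 64) i))) (Nat.shiftLeft v
        (Nat.mul (nat_lit 64) i)))
  (@Bool.rec (fun _ => ℕ) X (upF X i τ) (Nat.ble (Nat.succ (laF X i)) τ)))
noncomputable def sLoQ (ql qh sl ll vl vh : ℕ) (sec : Bool) (i τ : ℕ) : St :=
  @Bool.rec (fun _ => St) (frc (raFQ ql i τ) fun x => ⟨x, qh, sl, ll, vl, vh⟩)
    (frc (raFQ sl i τ) fun x => ⟨ql, qh, x, ll, vl, vh⟩) sec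
noncomputable def opFQ (C : Cx) (ql qh sl ll vl vh kd i j l u τ : ℕ) (sec fl sg : Bool) : St := zeta% (
  let laF (X i : ℕ) : ℕ :=
    (Nat.land (Nat.shiftRight X (Nat.mul (nat_lit 64) i)) (nat_lit 18446744073709551615))
  let upF (X i v : ℕ) : ℕ :=
    (Nat.add (Nat.sub X (Nat.shiftLeft (laF X i) (Nat.mul (nat_lit 64) i))) (Nat.shiftLeft v
        (Nat.mul (nat_lit 64) i)))
  let mxF (a b : ℕ) : ℕ :=
    (Nat.add a (Nat.sub b a))
  @Bool.rec (fun _ => St) (@Bool.rec (fun _ => St) (@Bool.rec (fun _ => St) (@Bool.rec (fun _ => St)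
        (@Bool.rec (fun _ => St)
          (@Bool.rec (fun _ => St) ⟨ql, qh, sl, ll, vl, vh⟩
            (frc (upF ll i l) fun x => ⟨ql, qh, sl, x, vl, vh⟩)
    
        (@Bool.rec (fun _ => Bool) false (pairF C fl sg i l u) (@Bool.rec (fun _ => Bool) false
        (Nat.ble (Nat.succ l) (laF ll i)) (Nat.ble (Nat.succ i) (nat_lit 28)))))
          (sLoQ ql qh sl ll vl vh false i
        (mxF (laF sl i) (laF sl (Nat.mod (Nat.add i (nat_lit 55)) (nat_lit 56)))))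
        (Nat.beq kd (nat_lit 4)))
          (@Bool.rec (fun _ => St) ⟨ql, qh, sl, ll, vl, vh⟩ (sLoQ ql qh sl ll vl vh sec i τ) (radF C sec i τ))
    
        (Nat.beq kd (nat_lit 3)))
          (@Bool.rec (fun _ => St) ⟨ql, qh, sl, ll, vl, vh⟩ (sLoQ ql qh sl ll vl vh sec i τ)
            (chordF C qh fl sec i j u τ))
        (Nat.beq kd (nat_lit 2)))
          (sLoQ ql qh sl ll vl vh sec i (sh2Q (laF ql j) (laF qh l) fl sec i j l))
        (Nat.beq kd (nat_lit 1)))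
        (frc (hullFQ qh i j l) fun x => ⟨ql, x, sl, ll, vl, vh⟩)
        (Nat.beq kd (nat_lit 0)))
noncomputable def opWFQ (C : Cx) (ql qh sl ll vl vh w : ℕ) : St :=
  force
    (Nat.mod (Nat.mod (Nat.shiftRight w (nat_lit 3)) (nat_lit 64)) (nat_lit 56)) fun i => force
    (Nat.mod (Nat.mod (Nat.shiftRight w (nat_lit 10)) (nat_lit 64)) (nat_lit 56)) fun j =>
    force
    (Nat.mod (Nat.mod (Nat.shiftRight w (nat_lit 16)) (nat_lit 64)) (nat_lit 56)) fun l =>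
    (opFQ C ql qh sl ll vl vh (Nat.mod w (nat_lit 8)) i j l (Nat.mod (Nat.shiftRight w (nat_lit
    24)) (nat_lit 256)) (Nat.mod (Nat.shiftRight w (nat_lit 32)) (nat_lit 2097152)) (Nat.beq
    (Nat.mod (Nat.shiftRight w (nat_lit 9)) (nat_lit 2)) (nat_lit 1)) (Nat.beq (Nat.mod
    (Nat.shiftRight w (nat_lit 22)) (nat_lit 2)) (nat_lit 1)) (Nat.beq (Nat.mod (Nat.shiftRight w
    (nat_lit 23)) (nat_lit 2)) (nat_lit 1)))
noncomputable def opKQ (k : ℕ → ℕ → ℕ → ℕ → ℕ → ℕ → St) (C : Cx) (ql qh sl ll vl vh w i j l : ℕ) : St := zeta% (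
  let laF (X i : ℕ) : ℕ :=
    (Nat.land (Nat.shiftRight X (Nat.mul (nat_lit 64) i)) (nat_lit 18446744073709551615))
  (@Bool.rec (fun _ => St) (@Bool.rec (fun _ => St) (@St.rec (fun _ => St) k (opWFQ C ql qh sl ll vl vh w))
        (@Bool.rec (fun _ => St) (frc (raFQ ql i 
        (sh2Q (laF ql j) (laF qh l) (Nat.beq (Nat.mod (Nat.shiftRight w (nat_lit 22)) (nat_lit 2))
        (nat_lit 1)) (Nat.beq (Nat.mod (Nat.shiftRight w (nat_lit 9)) (nat_lit 2)) (nat_lit 1)) i j l)) fun x => (k x qh sl ll vl vh))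
        (frc (raFQ sl i 
        (sh2Q (laF ql j) (laF qh l) (Nat.beq (Nat.mod (Nat.shiftRight w (nat_lit 22)) (nat_lit 2))
        (nat_lit 1)) (Nat.beq (Nat.mod (Nat.shiftRight w (nat_lit 9)) (nat_lit 2)) (nat_lit 1)) i j l)) fun x => (k ql qh x ll vl vh))
        
        (Nat.beq (Nat.mod (Nat.shiftRight w (nat_lit 9)) (nat_lit 2)) (nat_lit 1)))
        
        (Nat.beq (Nat.mod w (nat_lit 8)) (nat_lit 1)))
        (frc (hullFQ qh i j l) fun x => (k ql x sl ll vl vh))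
        
        (Nat.beq (Nat.mod w (nat_lit 8)) (nat_lit 0))))
noncomputable def dec1Q (w : ℕ) : Sg :=
  force 
    (Nat.mod (Nat.mod (Nat.shiftRight w (nat_lit 3)) (nat_lit 64)) (nat_lit 56)) fun i => force 
    (Nat.mod (Nat.mod (Nat.shiftRight w (nat_lit 10)) (nat_lit 64)) (nat_lit 56)) fun j => force 
    (Nat.mod (Nat.mod (Nat.shiftRight w (nat_lit 16)) (nat_lit 64)) (nat_lit 56)) fun l => Sg.mk i j l l
noncomputable def opYQ (k : ℕ → ℕ → ℕ → ℕ → ℕ → ℕ → St) (C : Cx) (ql qh sl ll vl vh w : ℕ) : St :=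
  @Sg.rec (fun _ => St) (fun i j l _ => opKQ k C ql qh sl ll vl vh w i j l) (dec1Q w)
noncomputable def opsFQ (C : Cx) (n : ℕ) : ℕ → ℕ → ℕ → ℕ → ℕ → ℕ → ℕ → St :=
  Nat.rec (motive := fun _ => ℕ → ℕ → ℕ → ℕ → ℕ → ℕ → ℕ → St)
    (fun _ ql qh sl ll vl vh => ⟨ql, qh, sl, ll, vl, vh⟩)
    (fun _ ih d ql qh sl ll vl vh => frc
    (Nat.shiftRight d (nat_lit 64)) fun d' => opYQ (ih d') C ql qh sl ll vl vh 
    (Nat.land d (nat_lit 18446744073709551615))) n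
noncomputable def loFQ (X i τ : ℕ) : ℕ := zeta% (
  let laF (X i : ℕ) : ℕ :=
    (Nat.land (Nat.shiftRight X (Nat.mul (nat_lit 64) i)) (nat_lit 18446744073709551615))
  let upF (X i v : ℕ) : ℕ :=
    (Nat.add (Nat.sub X (Nat.shiftLeft (laF X i) (Nat.mul (nat_lit 64) i))) (Nat.shiftLeft v
        (Nat.mul (nat_lit 64) i)))
  (@Bool.rec (fun _ => ℕ) X (upF X i τ) (Nat.ble (Nat.succ τ) (laF X i))))
noncomputable def fhFQ (l : ℕ) (A Z : Sg) : ℕ := zeta% (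
  let mxF (a b : ℕ) : ℕ :=
    (Nat.add a (Nat.sub b a))
  let hlF (l j a m b : ℕ) : ℕ :=
    (@Bool.rec (fun _ => ℕ) (nat_lit 1048576) (Nat.add (Nat.div (Nat.mul (nat_lit 68719476736)
        (Nat.add (Nat.mul b (dPQ l m)) (Nat.mul a (dPQ j l)))) (Nat.mul (Nat.mul a b) (dPQ j m)))
        (nat_lit 1)) (@Bool.rec (fun _ => Bool) false (Nat.beq (dPQ m l) (nat_lit 0)) (@Bool.rec (fun _
        => Bool) false (Nat.beq (dPQ l j) (nat_lit 0)) (Nat.ble (Nat.succ (nat_lit 0)) (Nat.mul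
        (Nat.mul (dPQ j m) a) b)))))
  @Sg.rec (fun _ => ℕ) (fun j0 a0 j1 a1 => @Sg.rec (fun _ => ℕ) (fun m0 b0 m1 b1 =>
    
        (mxF (mxF (hlF l j0 a0 m0 b0) (hlF l j0 a0 m1 b1)) (mxF (hlF l j1 a1 m0 b0) (hlF l j1 a1 m1
        b1)))) Z) A)
noncomputable def dtFQ (z i : ℕ) : ℕ :=
  (Nat.sub (Nat.add (Nat.add (Nat.mul (eX z) (eX i)) (Nat.mul (eY z) (eY i))) (nat_lit 1152))
    (Nat.mul (nat_lit 24) (Nat.add (Nat.add (eX z) (eX i)) (Nat.add (eY z) (eY i)))))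
noncomputable def miFQ (sl a z i : ℕ) : Bool := zeta% (
  let laF (X i : ℕ) : ℕ :=
    (Nat.land (Nat.shiftRight X (Nat.mul (nat_lit 64) i)) (nat_lit 18446744073709551615))
  let mxF (a b : ℕ) : ℕ :=
    (Nat.add a (Nat.sub b a))
  force (Nat.succ i) fun i1 =>
        (Nat.ble (Nat.succ (Nat.mul (nat_lit 4294967296) (mxF (dtFQ z i) (dtFQ z i1)))) (Nat.mul
        (Nat.mul (nat_lit 24) (laF sl i)) a)))
noncomputable def tlFQ (sl a z n : ℕ) : ℕ → ℕ :=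
  Nat.rec (motive := fun _ => ℕ → ℕ) (fun i => i)
    (fun _ ih i =>
    (@Bool.rec (fun _ => ℕ) i (force (Nat.mod (Nat.add i (nat_lit 1)) (nat_lit 56)) ih) (miFQ sl a
    z i))) n
noncomputable def thFQ (sl a z n : ℕ) : ℕ → ℕ :=
  Nat.rec (motive := fun _ => ℕ → ℕ) (fun i => i)
    (fun _ ih i => force
    (Nat.mod (Nat.add i (nat_lit 55)) (nat_lit 56)) fun j =>
    (@Bool.rec (fun _ => ℕ) i (ih j) (miFQ sl a z j))) n
noncomputable def fzFQ (rl rh z τ : ℕ) : Sg := zeta% (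
  let laF (X i : ℕ) : ℕ :=
    (Nat.land (Nat.shiftRight X (Nat.mul (nat_lit 64) i)) (nat_lit 18446744073709551615))
  force (laF rl z) fun j => force (laF rh z) fun m =>
        @Bool.rec (fun _ => Sg) ⟨0, 0, 0, 0⟩ ⟨j,
        (Nat.div (Nat.mul τ (nat_lit 384)) (dtFQ z j)), m,
        (Nat.div (Nat.mul τ (nat_lit 384)) (dtFQ z m))⟩
    
        (@Bool.rec (fun _ => Bool) false (Nat.ble (Nat.succ (nat_lit 0)) (dtFQ z m)) (@Bool.rec (fun _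
        => Bool) false (Nat.ble (Nat.succ (nat_lit 0)) (dtFQ z j)) (Nat.ble (Nat.succ (nat_lit 0)) (dPQ
        j m)))))
noncomputable def srFQ (qh wl rl rh n : ℕ) : Sg := zeta% (
  let laF (X i : ℕ) : ℕ :=
    (Nat.land (Nat.shiftRight X (Nat.mul (nat_lit 64) i)) (nat_lit 18446744073709551615))
  let ptF (n a : ℕ) : Sg :=
    ⟨n, a, n, a⟩
  @Bool.rec (fun _ => Sg) (force
        (Nat.mod (Nat.sub n (nat_lit 56)) (nat_lit 56)) fun z => fzFQ rl rh z (laF wl z))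
        (ptF n
        (Nat.div (nat_lit 68719476736) (laF qh n)))
        (Nat.ble n (nat_lit 55)))
noncomputable def seFQ (i a : ℕ) : Sg :=
  force (Nat.succ i) fun i1 => ⟨i, a, i1, a⟩
noncomputable def tgFQ (rl rh kind i τ : ℕ) : Sg := zeta% (
  let ptF (n a : ℕ) : Sg :=
    ⟨n, a, n, a⟩
  @Bool.rec (fun _ => Sg) (@Bool.rec (fun _ => Sg) (fzFQ rl rh i τ) (ptF i
        (Nat.div (nat_lit 68719476736) τ))
        (Nat.beq kind (nat_lit 0)))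
        (seFQ i
        (Nat.div (nat_lit 68719476736) τ))
        (Nat.beq kind (nat_lit 1)))
noncomputable def stFQ (ql qh sl ll vl vh wl wh rl rh z : ℕ) : Xs := zeta% (
  let ls2 (H Z : ℕ) : ℕ :=
    (Nat.land Z (Nat.mul (Nat.shiftRight (Nat.land Z H) (nat_lit 63)) (nat_lit
        9223372036854775807)))
  let lsF (H X Y : ℕ) : ℕ :=
    ls2 H
        (Nat.sub (Nat.add X H) Y)
  let lmF (H X Y : ℕ) : ℕ :=
    (Nat.add Y (ls2 H (Nat.sub (Nat.add X H) Y)))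
  let laF (X i : ℕ) : ℕ :=
    (Nat.land (Nat.shiftRight X (Nat.mul (nat_lit 64) i)) (nat_lit 18446744073709551615))
  let spF (c X : ℕ) : ℕ :=
    (lsF H56 (Nat.land (Nat.shiftRight (Nat.mul c X) (nat_lit 16)) M48) O56)
  force
        (Nat.div (nat_lit 281474976710656) (Nat.mul (nat_lit 24) (laF wh z))) fun c => frc (lmF H56 ql (spF c (dots z))) fun x =>
        frc (lmF H56 sl (spF c (doM z))) fun y =>
          ⟨⟨x, qh, y, ll, vl, vh⟩, ⟨wl, wh⟩, ⟨rl, rh⟩⟩)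
noncomputable def spPQ (ll i a b : ℕ) : ℕ := zeta% (
  let mxF (a b : ℕ) : ℕ :=
    (Nat.add a (Nat.sub b a))
  (loFQ (loFQ (loFQ ll i (Nat.sub (Nat.div (Nat.add (Nat.mul (nat_lit 3) (mxF a b)) (nat_lit 1023))
        (nat_lit 1024)) (nat_lit 30))) (Nat.add (nat_lit 28) i) (Nat.div (Nat.add (Nat.mul (nat_lit
        16) (Nat.add (Nat.mul (nat_lit 2) a) b)) (nat_lit 5)) (nat_lit 6))) (Nat.add (nat_lit 56) i)
        (Nat.div (Nat.add (Nat.mul (nat_lit 16) (Nat.add a (Nat.mul (nat_lit 2) b))) (nat_lit 5))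
        (nat_lit 6))))
noncomputable def opPQ (C : Cy) (ql qh sl ll vl vh wl wh rl rh z n m u τ fl : ℕ) : Xs :=
  force
    (Nat.mod τ (nat_lit 32768)) fun a => force
    (Nat.add (Nat.add (Nat.shiftRight τ (nat_lit 15)) (Nat.mul (nat_lit 64) n)) (Nat.mul (nat_lit
    8192) (Nat.shiftRight m (nat_lit 2)))) fun b =>
    @Bool.rec (fun _ => Xs) ⟨⟨ql, qh, sl, ll, vl, vh⟩, ⟨wl, wh⟩, ⟨rl, rh⟩⟩
      (frc (spPQ ll z a b) fun x => ⟨⟨ql, qh, sl, x, vl, vh⟩, ⟨wl, wh⟩, ⟨rl, rh⟩⟩)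

    (prSQ C fl (Nat.mod (Nat.shiftRight m (nat_lit 1)) (nat_lit 2)) u z a b)
noncomputable def op3RQ (G : Gx) (B : Bx) (C : Cy) (ql qh sl ll vl vh wl wh rl rh kd z n m u τ fl : ℕ) : Xs := zeta% (
  let ls2 (H Z : ℕ) : ℕ :=
    (Nat.land Z (Nat.mul (Nat.shiftRight (Nat.land Z H) (nat_lit 63)) (nat_lit
        9223372036854775807)))
  let lmF (H X Y : ℕ) : ℕ :=
    (Nat.add Y (ls2 H (Nat.sub (Nat.add X H) Y)))
  let laF (X i : ℕ) : ℕ :=
    (Nat.land (Nat.shiftRight X (Nat.mul (nat_lit 64) i)) (nat_lit 18446744073709551615))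
  let upF (X i v : ℕ) : ℕ :=
    (Nat.add (Nat.sub X (Nat.shiftLeft (laF X i) (Nat.mul (nat_lit 64) i))) (Nat.shiftLeft v
        (Nat.mul (nat_lit 64) i)))
  let rL56 (X : ℕ) : ℕ :=
    (Nat.add (Nat.land (Nat.shiftLeft X (nat_lit 64)) F56) (Nat.shiftRight X (nat_lit 3520)))
  let mxF (a b : ℕ) : ℕ :=
    (Nat.add a (Nat.sub b a))
  bif Nat.beq kd 0 then frc (upF rl z (tlFQ sl (laF wl z) z u (laF rl z))) fun x =>
        ⟨⟨ql, qh, sl, ll, vl, vh⟩, ⟨wl, wh⟩, ⟨x, rh⟩⟩ else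
      bif Nat.beq kd 1 then frc (upF rh z (thFQ sl (laF wl z) z u (laF rh z))) fun x =>
        ⟨⟨ql, qh, sl, ll, vl, vh⟩, ⟨wl, wh⟩, ⟨rl, x⟩⟩ else
      bif Nat.beq kd 2 then
        bif Nat.ble τ 524288 && coverR ⟨ql, qh, sl, ll, vl, vh⟩ ⟨rl, rh⟩ z τ then
          frc (loFQ wh z τ) fun x => ⟨⟨ql, qh, sl, ll, vl, vh⟩, ⟨wl, x⟩, ⟨rl, rh⟩⟩
        else ⟨⟨ql, qh, sl, ll, vl, vh⟩, ⟨wl, wh⟩, ⟨rl, rh⟩⟩ else
      bif Nat.beq kd 5 then
        bif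
        (Nat.beq (Nat.mod m (nat_lit 2)) (nat_lit 0)) then stFQ ql qh sl ll vl vh wl wh rl rh z else
        bif prM C sl fl z τ then frc (setM ll z τ) fun x => ⟨⟨ql, qh, sl, x, vl, vh⟩, ⟨wl, wh⟩, ⟨rl, rh⟩⟩
        else ⟨⟨ql, qh, sl, ll, vl, vh⟩, ⟨wl, wh⟩, ⟨rl, rh⟩⟩ else
      bif Nat.beq kd 6 then
        bif
        (Nat.beq (Nat.mod m (nat_lit 2)) (nat_lit 0)) then frc (lmF H56 ql (lmF H56 sl (rL56 sl))) fun x =>
          ⟨⟨x, qh, sl, ll, vl, vh⟩, ⟨wl, wh⟩, ⟨rl, rh⟩⟩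
        else opPQ C ql qh sl ll vl vh wl wh rl rh z n m u τ fl else
      bif Nat.beq m 1 then force
        (mxF vl (Nat.add (nat_lit 103923) (tbF (Nat.shiftRight (Nat.add (laF wh (nat_lit 0)) (nat_lit
        511)) (nat_lit 9)) (Nat.shiftRight (Nat.add (laF wh (nat_lit 28)) (nat_lit 511)) (nat_lit
        9))))) fun x =>
        ⟨⟨ql, qh, sl, ll, x, vh⟩, ⟨wl, wh⟩, ⟨rl, rh⟩⟩ else
      bif volU G B z n m u τ then ⟨⟨ql, qh, sl, ll, vl, τ⟩, ⟨wl, wh⟩, ⟨rl, rh⟩⟩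
      else ⟨⟨ql, qh, sl, ll, vl, vh⟩, ⟨wl, wh⟩, ⟨rl, rh⟩⟩)
noncomputable def op3XQ (k : ℕ → ℕ → ℕ → ℕ → ℕ → ℕ → ℕ → ℕ → ℕ → ℕ → Xs) (G : Gx) (B : Bx) (C : Cy) (ql qh sl ll vl vh wl wh rl rh kd z n m u τ fl : ℕ) : Xs := zeta% (
  let laF (X i : ℕ) : ℕ :=
    (Nat.land (Nat.shiftRight X (Nat.mul (nat_lit 64) i)) (nat_lit 18446744073709551615))
  let upF (X i v : ℕ) : ℕ :=
    (Nat.add (Nat.sub X (Nat.shiftLeft (laF X i) (Nat.mul (nat_lit 64) i))) (Nat.shiftLeft v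
        (Nat.mul (nat_lit 64) i)))
  (@Bool.rec (fun _ => Xs) (@Bool.rec (fun _ => Xs) (@Bool.rec (fun _ => Xs) (unX k (op3RQ G B C ql qh sl ll vl vh wl wh rl rh kd z n m u τ fl))
        (frc 
        (upF rl z (tlFQ sl (laF wl z) z u (laF rl z))) fun x => (k ql qh sl ll vl vh wl wh x rh))
        
        (Nat.beq kd (nat_lit 0)))
        (frc 
        (upF rh z (thFQ sl (laF wl z) z u (laF rh z))) fun x => (k ql qh sl ll vl vh wl wh rl x))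
        
        (Nat.beq kd (nat_lit 1)))
        (frc (loFQ qh z (fhFQ z (srFQ qh wl rl rh n) (srFQ qh wl rl rh m))) fun x => (k ql x sl ll vl vh wl wh rl rh))
        
        (Nat.beq kd (nat_lit 3))))
noncomputable def op3KQ (k : ℕ → ℕ → ℕ → ℕ → ℕ → ℕ → ℕ → ℕ → ℕ → ℕ → Xs) (G : Gx) (B : Bx) (C : Cy) (ql qh sl ll vl vh wl wh rl rh kd z n m u τ fl : ℕ) : Xs :=
  (@Bool.rec (fun _ => Xs) (op3XQ k G B C ql qh sl ll vl vh wl wh rl rh kd z n m u τ fl)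
    (@Bool.rec (fun _ => Xs) (k ql qh sl ll vl vh wl wh rl rh)
    (@Bool.rec (fun _ => Xs) (@Bool.rec (fun _ => Xs) (frc (raFQ ql z τ) fun x => (k x qh sl ll vl vh wl wh rl rh))
    (frc (raFQ sl z τ) fun x => (k ql qh x ll vl vh wl wh rl rh))
    
    (Nat.beq m (nat_lit 1)))
    (frc (loFQ wh z τ) fun x => (k ql qh sl ll vl vh wl x rl rh))
    
    (Nat.ble (nat_lit 2) m))
    (fcSQ B C fl u (srFQ qh wl rl rh n) (tgFQ rl rh m z τ)))
    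
    (Nat.beq kd (nat_lit 4)))
noncomputable def dec3Q (x : ℕ) : Sg :=
  force 
    (Nat.mod (Nat.mod (Nat.shiftRight x (nat_lit 3)) (nat_lit 64)) (nat_lit 56)) fun z => force 
    (Nat.mod (Nat.shiftRight x (nat_lit 10)) (nat_lit 128)) fun n => force 
    (Nat.mod (Nat.shiftRight x (nat_lit 17)) (nat_lit 128)) fun m =>
    force 
    (Nat.add (Nat.mod (Nat.shiftRight x (nat_lit 9)) (nat_lit 2)) (Nat.land (Nat.shiftRight x
    (nat_lit 52)) (nat_lit 2))) (Sg.mk z n m)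
noncomputable def op3YQ (k : ℕ → ℕ → ℕ → ℕ → ℕ → ℕ → ℕ → ℕ → ℕ → ℕ → Xs) (G : Gx) (B : Bx) (C : Cy) (ql qh sl ll vl vh wl wh rl rh x : ℕ) : Xs :=
  @Sg.rec (fun _ => Xs) (fun z n m fl => op3KQ k G B C ql qh sl ll vl vh wl wh rl rh 
    (Nat.mod x (nat_lit 8)) z n m 
    (Nat.mod (Nat.shiftRight x (nat_lit 24)) (nat_lit 256)) 
    (Nat.mod (Nat.shiftRight x (nat_lit 32)) (nat_lit 2097152)) fl) (dec3Q x)
noncomputable def ops3FQ (G : Gx) (B : Bx) (C : Cy) (n : ℕ) : ℕ → ℕ → ℕ → ℕ → ℕ → ℕ → ℕ → ℕ → ℕ → ℕ → ℕ → Xs :=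
  Nat.rec (motive := fun _ => ℕ → ℕ → ℕ → ℕ → ℕ → ℕ → ℕ → ℕ → ℕ → ℕ → ℕ → Xs)
    (fun _ ql qh sl ll vl vh wl wh rl rh => ⟨⟨ql, qh, sl, ll, vl, vh⟩, ⟨wl, wh⟩, ⟨rl, rh⟩⟩)
    (fun _ ih d ql qh sl ll vl vh wl wh rl rh => frc
    (Nat.shiftRight d (nat_lit 64)) fun d' => op3YQ (ih d') G B C ql qh sl ll vl vh wl wh rl rh 
    (Nat.land d (nat_lit 18446744073709551615))) n
noncomputable def kaFQ (r E a0 a1 b0 b1 : ℕ) : ℕ := zeta% (
  let sdF (P M : ℕ) : ℕ :=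
    (Nat.mul (Nat.add (Nat.sub P M) (Nat.sub M P)) (Nat.add (Nat.sub P M) (Nat.sub M P)))
  let mxF (a b : ℕ) : ℕ :=
    (Nat.add a (Nat.sub b a))
  let cF2 (r E a b P M Q : ℕ) : ℕ :=
    (Nat.sub (Nat.add (Nat.mul (Nat.mul (nat_lit 12) P) r) (Nat.mul Q (Nat.add E b))) (Nat.add
        (Nat.add (Nat.add (Nat.mul (Nat.mul (nat_lit 12) M) r) (Nat.mul (Nat.mul (Nat.mul (nat_lit 6)
        E) E) r)) (sdF P M)) (Nat.mul Q a)))
  let cF (r E a b : ℕ) : ℕ :=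
    (cF2 r E a b (Nat.add (Nat.add (Nat.mul a a) (Nat.mul b b)) (Nat.mul b E)) (Nat.add (Nat.mul a
        b) (Nat.mul a E)) (Nat.mul (Nat.mul (Nat.mul (nat_lit 2) E) a) b))
  let aF (r E a b : ℕ) : ℕ :=
    (Nat.sub (Nat.add (Nat.add (Nat.mul (nat_lit 2) (sdF (Nat.mul (nat_lit 2) a) (Nat.add b E)))
        (Nat.mul (nat_lit 4) (Nat.add (Nat.add (Nat.mul a a) (Nat.mul b b)) (Nat.mul b E)))) (Nat.mul
        (Nat.mul (nat_lit 4) E) b)) (Nat.add (Nat.mul (nat_lit 4) (Nat.add (Nat.mul a b) (Nat.mul a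
        E))) (Nat.mul (nat_lit 24) r)))
  let bF (r E a b : ℕ) : ℕ :=
    (Nat.sub (Nat.add (Nat.mul (nat_lit 2) (sdF (Nat.add (Nat.mul (nat_lit 2) b) E) a)) (Nat.mul
        (nat_lit 4) (Nat.add (Nat.add (Nat.mul a a) (Nat.mul b b)) (Nat.mul b E)))) (Nat.add (Nat.add
        (Nat.mul (nat_lit 4) (Nat.add (Nat.mul a b) (Nat.mul a E))) (Nat.mul (nat_lit 24) r)) (Nat.mul
        (Nat.mul (nat_lit 4) E) a)))
  let m4F (f : ℕ → ℕ → ℕ) (a0 a1 b0 b1 : ℕ) : ℕ :=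
    (mxF (mxF (f a0 b0) (f a0 b1)) (mxF (f a1 b0) (f a1 b1)))
  (Nat.add (Nat.div (Nat.add (Nat.add (Nat.mul (nat_lit 8) (m4F (cF r E) a0 a1 b0 b1)) (Nat.mul
        (sdF a1 a0) (m4F (aF r E) a0 a1 b0 b1))) (Nat.mul (sdF b1 b0) (m4F (bF r E) a0 a1 b0 b1)))
        (nat_lit 11258999068426240)) (nat_lit 1)))
noncomputable def rowBQ (z e : ℕ) : ℕ := zeta% (
  let rb3 (e a b c d P Q N M : ℕ) : ℕ :=
    (Nat.add (Nat.add (Nat.mul e (Nat.add (Nat.add (Nat.add (Nat.add (Nat.mul (Nat.mul (nat_lit 4)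
        a) P) (Nat.shiftLeft (Nat.mul (Nat.mul (nat_lit 12) c) P) (nat_lit 64))) (Nat.shiftLeft
        (Nat.mul (Nat.mul (nat_lit 12) a) Q) (nat_lit 128))) (Nat.shiftLeft (Nat.mul (Nat.mul (nat_lit
        4) c) Q) (nat_lit 192))) (Nat.shiftLeft (Nat.add (Nat.add (Nat.add (Nat.mul (Nat.mul (nat_lit
        4) b) P) (Nat.shiftLeft (Nat.mul (Nat.mul (nat_lit 12) d) P) (nat_lit 64))) (Nat.shiftLeft
        (Nat.mul (Nat.mul (nat_lit 12) b) Q) (nat_lit 128))) (Nat.shiftLeft (Nat.mul (Nat.mul (nat_lit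
        4) d) Q) (nat_lit 192))) (nat_lit 704)))) (Nat.shiftLeft (Nat.add (Nat.add (Nat.add (Nat.add
        (Nat.mul (Nat.mul (nat_lit 12) P) P) (Nat.shiftLeft (Nat.mul (Nat.mul (nat_lit 48) N) P)
        (nat_lit 64))) (Nat.shiftLeft (Nat.mul (Nat.mul (nat_lit 72) P) Q) (nat_lit 128)))
        (Nat.shiftLeft (Nat.mul (Nat.mul (nat_lit 48) N) Q) (nat_lit 192))) (Nat.shiftLeft (Nat.mul
        (Nat.mul (nat_lit 12) Q) Q) (nat_lit 256))) (nat_lit 256))) (Nat.shiftLeft (Nat.add (Nat.mul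
        (Nat.mul (nat_lit 48) M) P) (Nat.shiftLeft (Nat.mul (Nat.mul (nat_lit 48) M) Q) (nat_lit
        128))) (nat_lit 1024)))
  let rb2 (e a b c d : ℕ) : ℕ :=
    (rb3 e a b c d (Nat.mul (Nat.add a b) (Nat.add a b)) (Nat.mul (Nat.add c d) (Nat.add c d))
        (Nat.add (Nat.mul a c) (Nat.mul b d)) (Nat.add (Nat.mul a d) (Nat.mul b c)))
  @Bool.rec (fun _ => ℕ) (rowT (ex z) (ey z) (Int.ofNat e) 0) 
        (rb2 e (Nat.sub (nat_lit 24) (eX z)) (Nat.sub (eX z) (nat_lit 24)) (Nat.sub (nat_lit 24) (eY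
        z)) (Nat.sub (eY z) (nat_lit 24))) 
        (@Bool.rec (fun _ => Bool) false (Nat.ble e (nat_lit 63)) (Nat.ble z (nat_lit 55))))
noncomputable def rc2Q (z e k : ℕ) : ℕ :=
  (@Bool.rec (fun _ => ℕ) (nat_lit 0) (Nat.add (rowBQ z e) (Nat.shiftLeft k (nat_lit 1408)))
    (Nat.ble k (nat_lit 33554432)))
noncomputable def rcFQ (wl wh z e : ℕ) : ℕ := zeta% (
  let laF (X i : ℕ) : ℕ :=
    (Nat.land (Nat.shiftRight X (Nat.mul (nat_lit 64) i)) (nat_lit 18446744073709551615))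
  force
        (Nat.mod (Nat.add z (nat_lit 28)) (nat_lit 56)) fun y =>
    
        (rc2Q z e (kaFQ (Nat.mul (r2 z) (nat_lit 16777216)) (Nat.mul e (nat_lit 4096)) (laF wl z) (laF
        wh z) (laF wl y) (laF wh y))))
noncomputable def roFQ (wl wh th x : ℕ) : ℕ :=
  @Bool.rec (fun _ => ℕ) (force
    (Nat.mod (Nat.mod (Nat.shiftRight x (nat_lit 1)) (nat_lit 64)) (nat_lit 56)) fun z => @Bool.rec (fun _ => ℕ)
      (force
    (Nat.mod (Nat.shiftRight x (nat_lit 7)) (nat_lit 64)) fun e => rcFQ wl wh z e) (rowS th z)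
    (Nat.beq (Nat.mod (Nat.shiftRight x (nat_lit 13)) (nat_lit 2)) (nat_lit 1)))

    (row4Q (Nat.mod (Nat.shiftRight x (nat_lit 1)) (nat_lit 16)) (Nat.mod (Nat.shiftRight x
    (nat_lit 7)) (nat_lit 16)) (Nat.beq (Nat.mod (Nat.shiftRight x (nat_lit 13)) (nat_lit 2))
    (nat_lit 1)))
    (Nat.beq (Nat.mod x (nat_lit 2)) (nat_lit 0))
noncomputable def rowsFQ (wl wh th n : ℕ) : ℕ → ℕ :=
  Nat.rec (motive := fun _ => ℕ → ℕ) (fun _ => 0)
    (fun _ ih d => force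
    (Nat.shiftRight (Nat.land d (nat_lit 18446744073709551615)) (nat_lit 32)) fun x =>

    (Nat.add (frc (Nat.shiftRight d (nat_lit 64)) ih) (Nat.mul (Nat.mod d (nat_lit 4294967296))
    (roFQ wl wh th x)))) n
noncomputable def chkFQ (G : Gx) (H : List (Bx × Xs)) (t : Tx) : Bx → ℕ → ℕ → ℕ → ℕ → ℕ → ℕ → ℕ → ℕ → ℕ → ℕ → Bool := zeta% (
  let laF (X i : ℕ) : ℕ :=
    (Nat.land (Nat.shiftRight X (Nat.mul (nat_lit 64) i)) (nat_lit 18446744073709551615))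
  let upF (X i v : ℕ) : ℕ :=
    (Nat.add (Nat.sub X (Nat.shiftLeft (laF X i) (Nat.mul (nat_lit 64) i))) (Nat.shiftLeft v
        (Nat.mul (nat_lit 64) i)))
  Tx.rec (motive := fun _ => Bx → ℕ → ℕ → ℕ → ℕ → ℕ → ℕ → ℕ → ℕ → ℕ → ℕ → Bool)
        (fun ax x _ _ l r B ql qh sl ll vl vh wl wh rl rh => force x fun x' =>
          forceB (setHi B ax x') (fun B' => l B' ql qh sl ll vl vh wl wh rl rh) &&
            forceB (setLw B ax x') (fun B' => r B' ql qh sl ll vl vh wl wh rl rh))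
        (fun i τ _ _ l r B ql qh sl ll vl vh wl wh rl rh => (@Bool.rec (fun _ => Bool) false (@Bool.rec (fun _ => Bool) false (@Bool.rec (fun _ => Bool) false 
          (frc (upF ql i τ) (fun x => r B x qh sl ll vl vh wl wh rl rh)) 
          (frc (upF qh i τ) (fun x => l B ql x sl ll vl vh wl wh rl rh))) (Nat.ble τ (nat_lit 1048576))) (Nat.ble i (nat_lit 55))))
        (fun x _ _ l r B ql qh sl ll vl vh wl wh rl rh => force x fun x' =>
          l B ql qh sl ll vl x' wl wh rl rh && r B ql qh sl ll x' vh wl wh rl rh)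
        (fun z τ _ _ l r B ql qh sl ll vl vh wl wh rl rh => (@Bool.rec (fun _ => Bool) false (@Bool.rec (fun _ => Bool) false (@Bool.rec (fun _ => Bool) false 
          (frc (upF wl z τ) (fun x => r B ql qh sl ll vl vh x wh rl rh)) 
          (frc (upF wh z τ) (fun x => l B ql qh sl ll vl vh wl x rl rh))) (Nat.ble τ (nat_lit 524288))) (Nat.ble z (nat_lit 55))))
        (fun z m _ _ l r B ql qh sl ll vl vh wl wh rl rh => (@Bool.rec (fun _ => Bool) false (@Bool.rec (fun _ => Bool) false (@Bool.rec (fun _ => Bool) false 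
          (frc (upF rl z m) (fun x => r B ql qh sl ll vl vh wl wh x rh)) 
          (frc (upF rh z m) (fun x => l B ql qh sl ll vl vh wl wh rl x))) (Nat.ble m (nat_lit 55))) (Nat.ble z (nat_lit 55))))
        (fun n d _ t B ql qh sl ll vl vh wl wh rl rh => @Bool.rec (fun _ => Bool) false (
          @St.rec (fun _ => Bool) (fun a b c d e f => t B a b c d e f wl wh rl rh)
            (opsFQ (mkC G B) n d ql qh sl ll vl vh)) (okB B))
        (fun n d _ t B ql qh sl ll vl vh wl wh rl rh => @Bool.rec (fun _ => Bool) false (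
          unP (fun a b c d e f u v => t B a b c d e f u v rl rh) (ops2F G B n d ql qh sl ll vl vh wl wh)) (okB B))
        (fun n d _ t B ql qh sl ll vl vh wl wh rl rh => @Bool.rec (fun _ => Bool) false (
          unX (t B) (ops3FQ G B (mkY G B) n d ql qh sl ll vl vh wl wh rl rh)) (okB B))
        (fun i _ ql qh _ _ vl vh _ _ _ _ => Nat.blt i 56 && Nat.ble (lane qh i) (lane ql i) ||
          Nat.blt 0 vh && Nat.blt vh vl)
        (fun z _ _ _ _ _ _ _ wl wh _ _ => Nat.blt z 56 && Nat.blt (lane wh z) (lane wl z))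
        (fun a b B _ _ _ _ _ _ _ _ _ _ => outB G B a b)
        (fun B _ _ _ _ _ _ _ _ _ _ => Nat.blt (B.a1 + G.dl) OO || Nat.blt (B.b1 + G.dl) OO)
        (fun c n d d0 d1 d2 d3 B ql qh sl ll vl vh wl wh _ _ => @Bool.rec (fun _ => Bool) false (
          frc (rowsFQ wl wh G.th n d) fun A => leafFQ G B ⟨ql, qh, sl, ll, vl, vh⟩ c A d0 d1 d2 d3) (Nat.ble n (nat_lit 63)))
        (fun n B ql qh sl ll vl vh wl wh rl rh => match H[n]? with
          | some h => eqB B h.1 && eqS ⟨ql, qh, sl, ll, vl, vh⟩ h.2.s && eqW ⟨wl, wh⟩ h.2.w && eqR ⟨rl, rh⟩ h.2.r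
          | none => false) t)

end Pool.Agent.P.MP_2e1554_gt.Chk
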