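import Pool.Agent.P.MP_2e1554_gt.IsoDefs4

open MeasureTheory Set Finset Matrix Filter Topology Pointwise

namespace Pool.Agent.P.MP_2e1554_gt

theorem rayF_den {a v G s : ℝ} (hs : 0 ≤ s) (hp : ∀ r ∈ Icc (0 : ℝ) s, 0 < a + 2 * v * r + G * r ^ 2) :
    0 < Real.sqrt (a * (a + 2 * v * s + G * s ^ 2)) + a + v * s := by
  have ha : 0 < a := by simpa using hp 0 ⟨le_rfl, hs⟩
  have hq := hp s ⟨hs, le_rfl⟩
  rcases le_or_gt 0 (a + v * s) with hb | hb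
  · have := Real.sqrt_pos.2 (mul_pos ha hq)
    linarith
  · have hv : v < 0 := by
      by_contra hc
      nlinarith [mul_nonneg (not_lt.1 hc) hs]
    have hs0 : 0 < s := by
      rcases hs.lt_or_eq with h | h
      · exact h
      · rw [← h] at hb
        linarith
    have h1 := hp (a / -v) ⟨div_nonneg ha.le (by linarith), by
      rw [div_le_iff₀ (by linarith)]; linarith⟩
    have h2 : a + 2 * v * (a / -v) + G * (a / -v) ^ 2 = a * (a * G - v ^ 2) / v ^ 2 := by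
      have := hv.ne
      field_simp
      ring
    rw [h2, div_pos_iff_of_pos_right (by nlinarith), mul_pos_iff_of_pos_left ha] at h1
    have h3 : -(a + v * s) < Real.sqrt (a * (a + 2 * v * s + G * s ^ 2)) :=
      Real.lt_sqrt_of_sq_lt (by nlinarith [mul_pos h1 (pow_pos hs0 2)])
    linarith

theorem rayF_alg {u al v G r : ℝ} (hu : u ≠ 0) (hw : al * u + al ^ 2 + v * r ≠ 0)
    (h : u ^ 2 = al ^ 2 + 2 * v * r + G * r ^ 2) :
    (2 * r * (u * (al * u + al ^ 2 + v * r)) - r ^ 2 * ((v + G * r) / u * (al * u + al ^ 2 + v * r) +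
      u * (al * ((v + G * r) / u) + v))) / (u * (al * u + al ^ 2 + v * r)) ^ 2 = 1 / u ^ 3 * r := by
  obtain ⟨w, hw'⟩ : ∃ w, w = al * u + al ^ 2 + v * r := ⟨_, rfl⟩
  rw [← hw'] at hw ⊢
  have key : 2 * u ^ 2 * w - r * (v + G * r) * w - al * u * (r * (v + G * r)) - u ^ 2 * (r * v) =
      w ^ 2 := by
    rw [hw']
    linear_combination (2 * al * u + al ^ 2 + v * r) * h
  field_simp
  linear_combination r * key

/-- closed form of the solid angle integrand along a ray -/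
theorem rayF_int {a v G s : ℝ} (hs : 0 ≤ s) (hp : ∀ r ∈ Icc (0 : ℝ) s, 0 < a + 2 * v * r + G * r ^ 2) :
    ∫ r in (0 : ℝ)..s, 1 / Real.sqrt (a + 2 * v * r + G * r ^ 2) ^ 3 * r =
      s ^ 2 / (Real.sqrt (a + 2 * v * s + G * s ^ 2) *
        (Real.sqrt (a * (a + 2 * v * s + G * s ^ 2)) + a + v * s)) := by
  have ha : 0 < a := by simpa using hp 0 ⟨le_rfl, hs⟩
  obtain ⟨al, rfl, hal⟩ : ∃ al : ℝ, al ^ 2 = a ∧ 0 < al :=
    ⟨√a, Real.sq_sqrt ha.le, Real.sqrt_pos.2 ha⟩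
  have hsq : ∀ x : ℝ, Real.sqrt (al ^ 2 * x) = al * Real.sqrt x := fun x => by
    rw [Real.sqrt_mul (sq_nonneg al), Real.sqrt_sq hal.le]
  have hd : ∀ r ∈ Set.uIcc (0 : ℝ) s, HasDerivAt (fun r : ℝ => r ^ 2 /
      (Real.sqrt (al ^ 2 + 2 * v * r + G * r ^ 2) *
        (al * Real.sqrt (al ^ 2 + 2 * v * r + G * r ^ 2) + al ^ 2 + v * r)))
      (1 / Real.sqrt (al ^ 2 + 2 * v * r + G * r ^ 2) ^ 3 * r) r := by
    intro r hr
    rw [Set.uIcc_of_le hs] at hr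
    have q := hp r hr
    have hu := (Real.sqrt_pos.2 q).ne'
    have hw := rayF_den hr.1 fun x hx => hp x ⟨hx.1, hx.2.trans hr.2⟩
    rw [hsq] at hw
    have d2 : HasDerivAt (fun r : ℝ => r ^ 2) (2 * r) r := by simpa using hasDerivAt_pow 2 r
    have dl : HasDerivAt (fun r : ℝ => v * r) v r := by
      simpa using (hasDerivAt_id r).const_mul v
    have dq : HasDerivAt (fun r : ℝ => al ^ 2 + 2 * v * r + G * r ^ 2) (2 * v + G * (2 * r)) r := by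
      have d1 : HasDerivAt (fun r : ℝ => 2 * v * r) (2 * v) r := by
        simpa using (hasDerivAt_id r).const_mul (2 * v)
      exact (d1.const_add _).add (d2.const_mul G)
    have du : HasDerivAt (fun r : ℝ => Real.sqrt (al ^ 2 + 2 * v * r + G * r ^ 2))
        ((v + G * r) / Real.sqrt (al ^ 2 + 2 * v * r + G * r ^ 2)) r := by
      refine (dq.sqrt q.ne').congr_deriv ?_
      field_simp
    have dw := ((du.const_mul al).add_const (al ^ 2)).add dl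
    exact (d2.div (du.mul dw) (mul_ne_zero hu hw.ne')).congr_deriv
      (rayF_alg hu hw.ne' (Real.sq_sqrt q.le))
  have hc : ContinuousOn (fun r : ℝ => 1 / Real.sqrt (al ^ 2 + 2 * v * r + G * r ^ 2) ^ 3 * r)
      (Set.uIcc (0 : ℝ) s) := by
    rw [Set.uIcc_of_le hs]
    refine ContinuousOn.mul (ContinuousOn.div continuousOn_const (by fun_prop) fun r hr => ?_)
      continuousOn_id
    exact pow_ne_zero 3 (Real.sqrt_pos.2 (hp r hr)).ne'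
  rw [intervalIntegral.integral_eq_sub_of_hasDerivAt hd hc.intervalIntegrable, hsq]
  simp

theorem rayF_exp {R : ℝ} (h : 0 < R) : 1 / Real.sqrt R = Real.exp (-(Real.log R / 2)) := by
  rw [Real.exp_neg, one_div, Real.sqrt_eq_rpow, Real.rpow_def_of_pos h]
  congr 2
  ring

theorem phi_convex : ConvexOn ℝ (Ioi (0 : ℝ)) fun R : ℝ => 1 / Real.sqrt R ^ 3 := by
  have key : ∀ R : ℝ, 0 < R → 1 / Real.sqrt R ^ 3 = Real.exp (-(3 / 2) * Real.log R) := by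
    intro R h
    rw [← one_pow 3, ← div_pow, rayF_exp h, ← Real.exp_nat_mul]
    congr 1
    push_cast
    ring
  refine ⟨convex_Ioi 0, fun x hx y hy a b ha hb hab => ?_⟩
  have h1 := strictConcaveOn_log_Ioi.concaveOn.2 hx hy ha hb hab
  have h2 := convexOn_exp.2 (Set.mem_univ (-(3 / 2) * Real.log x))
    (Set.mem_univ (-(3 / 2) * Real.log y)) ha hb hab
  simp only [smul_eq_mul] at h1 h2 ⊢
  rw [key x hx, key y hy, key (a * x + b * y) (convex_Ioi 0 hx hy ha hb hab)]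
  exact (Real.exp_le_exp.2 (by linarith)).trans h2

theorem rayF_pos {ι : Type*} (I : Finset ι) (w g : ι → ℝ) (hw : ∀ j ∈ I, 0 ≤ w j)
    (h1 : ∑ j ∈ I, w j = 1) (hg : ∀ j ∈ I, 0 < g j) : 0 < ∑ j ∈ I, w j * g j :=
  (convex_Ioi (0 : ℝ)).sum_mem hw h1 hg

theorem rayF_titu {ι : Type*} (I : Finset ι) (w g v : ι → ℝ) (hw : ∀ j ∈ I, 0 ≤ w j)
    (h1 : ∑ j ∈ I, w j = 1) (hg : ∀ j ∈ I, 0 < g j) :
    (∑ j ∈ I, w j * v j) ^ 2 / ∑ j ∈ I, w j * g j ≤ ∑ j ∈ I, w j * (v j ^ 2 / g j) := by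
  have hG := rayF_pos I w g hw h1 hg
  obtain ⟨t, ht⟩ : ∃ t, t = (∑ j ∈ I, w j * v j) / ∑ j ∈ I, w j * g j := ⟨_, rfl⟩
  have h2 : (∑ j ∈ I, w j * v j) ^ 2 / ∑ j ∈ I, w j * g j =
      2 * t * ∑ j ∈ I, w j * v j - t ^ 2 * ∑ j ∈ I, w j * g j := by
    rw [ht]
    field_simp
    ring
  rw [h2, Finset.mul_sum, Finset.mul_sum, ← Finset.sum_sub_distrib]
  refine Finset.sum_le_sum fun j hj => ?_
  have h3 : 2 * t * v j - t ^ 2 * g j ≤ v j ^ 2 / g j := by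
    rw [le_div_iff₀ (hg j hj)]
    nlinarith [sq_nonneg (v j - t * g j)]
  nlinarith [mul_le_mul_of_nonneg_left h3 (hw j hj)]

theorem rayF_Jq {g₁ g₂ : ℝ} (h₁ : 0 < g₁) (h₂ : 0 < g₂) (v₁ v₂ : ℝ) :
    Jq g₁ g₂ v₁ v₂ = (5 - g₁ - g₂ - v₁ ^ 2 / g₁ - v₂ ^ 2 / g₂) * g₁ * g₂ := by
  unfold Jq
  field_simp

/-- `Jq ^ (-1/2)` is convex -/
theorem Jq_convex {ι : Type*} (I : Finset ι) (w g₁ g₂ v₁ v₂ : ι → ℝ)
    (hw : ∀ j ∈ I, 0 ≤ w j) (h1 : ∑ j ∈ I, w j = 1) (hg₁ : ∀ j ∈ I, 0 < g₁ j)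
    (hg₂ : ∀ j ∈ I, 0 < g₂ j) (hJ : ∀ j ∈ I, 0 < Jq (g₁ j) (g₂ j) (v₁ j) (v₂ j)) :
    1 / Real.sqrt (Jq (∑ j ∈ I, w j * g₁ j) (∑ j ∈ I, w j * g₂ j) (∑ j ∈ I, w j * v₁ j)
      (∑ j ∈ I, w j * v₂ j)) ≤
        ∑ j ∈ I, w j * (1 / Real.sqrt (Jq (g₁ j) (g₂ j) (v₁ j) (v₂ j))) := by
  obtain ⟨H, hH⟩ : ∃ H : ι → ℝ, ∀ j, H j =
      5 - g₁ j - g₂ j - v₁ j ^ 2 / g₁ j - v₂ j ^ 2 / g₂ j := ⟨_, fun _ => rfl⟩
  have hHp : ∀ j ∈ I, 0 < H j := fun j hj => by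
    have := hJ j hj
    rw [rayF_Jq (hg₁ j hj) (hg₂ j hj), ← hH, mul_assoc] at this
    exact (mul_pos_iff_of_pos_right (mul_pos (hg₁ j hj) (hg₂ j hj))).1 this
  have p0 := rayF_pos I w H hw h1 hHp
  have p1 := rayF_pos I w g₁ hw h1 hg₁
  have p2 := rayF_pos I w g₂ hw h1 hg₂
  have t1 := rayF_titu I w g₁ v₁ hw h1 hg₁
  have t2 := rayF_titu I w g₂ v₂ hw h1 hg₂
  have hs : ∑ j ∈ I, w j * H j = 5 - ∑ j ∈ I, w j * g₁ j - ∑ j ∈ I, w j * g₂ j -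
      ∑ j ∈ I, w j * (v₁ j ^ 2 / g₁ j) - ∑ j ∈ I, w j * (v₂ j ^ 2 / g₂ j) := by
    simp only [hH, mul_sub, Finset.sum_sub_distrib, ← Finset.sum_mul, h1, one_mul]
  have l0 := strictConcaveOn_log_Ioi.concaveOn.le_map_sum hw h1 hHp
  have l1 := strictConcaveOn_log_Ioi.concaveOn.le_map_sum hw h1 hg₁
  have l2 := strictConcaveOn_log_Ioi.concaveOn.le_map_sum hw h1 hg₂
  have l3 := convexOn_exp.map_sum_le (t := I) (w := w)
    (p := fun j => -(Real.log (Jq (g₁ j) (g₂ j) (v₁ j) (v₂ j)) / 2)) hw h1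
    fun _ _ => Set.mem_univ _
  simp only [smul_eq_mul] at l0 l1 l2 l3
  refine le_trans ?_ (l3.trans_eq (Finset.sum_congr rfl fun j hj => by rw [rayF_exp (hJ j hj)]))
  rw [rayF_Jq p1 p2]
  generalize hB : 5 - ∑ j ∈ I, w j * g₁ j - ∑ j ∈ I, w j * g₂ j -
    (∑ j ∈ I, w j * v₁ j) ^ 2 / ∑ j ∈ I, w j * g₁ j -
    (∑ j ∈ I, w j * v₂ j) ^ 2 / ∑ j ∈ I, w j * g₂ j = B
  have hle : ∑ j ∈ I, w j * H j ≤ B := by linarith
  have pB := p0.trans_le hle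
  rw [rayF_exp (mul_pos (mul_pos pB p1) p2), Real.exp_le_exp,
    Real.log_mul (mul_pos pB p1).ne' p2.ne', Real.log_mul pB.ne' p1.ne']
  have l4 := Real.log_le_log p0 hle
  have e : ∑ j ∈ I, w j * -(Real.log (Jq (g₁ j) (g₂ j) (v₁ j) (v₂ j)) / 2) =
      -((∑ j ∈ I, w j * Real.log (H j) + ∑ j ∈ I, w j * Real.log (g₁ j) +
        ∑ j ∈ I, w j * Real.log (g₂ j)) / 2) := by
    rw [← Finset.sum_add_distrib, ← Finset.sum_add_distrib, Finset.sum_div,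
      ← Finset.sum_neg_distrib]
    refine Finset.sum_congr rfl fun j hj => ?_
    rw [rayF_Jq (hg₁ j hj) (hg₂ j hj), ← hH,
      Real.log_mul (mul_pos (hHp j hj) (hg₁ j hj)).ne' (hg₂ j hj).ne',
      Real.log_mul (hHp j hj).ne' (hg₁ j hj).ne']
    ring
  rw [e]
  linarith

end Pool.Agent.P.MP_2e1554_gt
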