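import Pool.Agent.P.MP_2e1554_gt.IsoExist
import Pool.Agent.P.MP_2e1554_gt.IsoApprox
import Pool.Agent.P.MP_2e1554_gt.IsoCrit

open MeasureTheory Set Finset Matrix Filter Topology Pointwise

namespace Pool.Agent.P.MP_2e1554_gt

variable {n : ℕ}

lemma red_subset_smul (A : Finset (Fin n → ℝ)) {s : ℝ} (hs : 1 ≤ s) : poly A ⊆ s • poly A := by
  intro x hx
  have hs0 : 0 < s := lt_of_lt_of_le one_pos hs
  refine ⟨s⁻¹ • x, fun a ha => ?_, by simp [smul_smul, hs0.ne']⟩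
  rw [dotProduct_smul, smul_eq_mul]
  calc s⁻¹ * (a ⬝ᵥ x) ≤ s⁻¹ * 1 := mul_le_mul_of_nonneg_left (hx a ha) (inv_nonneg.2 hs0.le)
    _ ≤ 1 := by rw [mul_one]; exact inv_le_one_of_one_le₀ hs

lemma red_outer {K : Set (Fin n → ℝ)} (hK : Iso K) {s : ℝ} (hs : 1 < s) :
    ∃ A : Finset (Fin n → ℝ), K ⊆ poly A ∧ poly A ⊆ s • K ∧ Bornology.IsBounded (poly A) ∧
      Jv K ≤ s ^ (n * (n + 3)) * Jv (poly A) := by
  obtain ⟨A, h1, h2⟩ := exists_outer hK hs
  have hb : Bornology.IsBounded (poly A) := (hK.cpt.smul s).isBounded.subset h2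
  exact ⟨A, h1, h2, hb, Jv_outer hK (body_poly hb) hs.le h1 h2⟩

/-- reduction to critical polytopes -/
theorem reduce (hn : 1 ≤ n) {v : ℝ} (hv : 0 < v)
    (H : ∀ A : Finset (Fin n → ℝ), Iso (poly A) → Crit A → v ≤ volume.real (poly A))
    {K : Set (Fin n → ℝ)} (hK : Body K) : Jv K ≤ 1 / v ^ 2 := by
  obtain ⟨T, c, hT, hI⟩ := exists_iso hK
  rw [← Jv_aff hK hT c]
  have key : ∀ s : ℝ, 1 < s → Jv (aff T c K) ≤ s ^ (n * (n + 3)) * (1 / v ^ 2) := by
    intro s hs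
    obtain ⟨A0, -, -, hb0, hJ⟩ := red_outer hI hs
    obtain ⟨A, hc, hA, -, hmax⟩ := exists_max hn A0.card 0 le_rfl hb0 not_near_zero
    have hcrit : Crit A := crit_of_max hn hA fun a ha b =>
      (mv_sandwich hA.cpt.isBounded ha b one_lt_two).mono fun t ht =>
        hmax _ ((mv_card ha b t).trans hc) ht.2.2 not_near_zero
    have h1 : Jv (poly A) ≤ 1 / v ^ 2 := by
      rw [hA.Jv_eq]
      exact one_div_le_one_div_of_le (by positivity) (pow_le_pow_left₀ hv.le (H A hA hcrit) 2)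
    exact hJ.trans (mul_le_mul_of_nonneg_left ((hmax A0 le_rfl hb0 not_near_zero).trans h1)
      (by positivity))
  have hc : Tendsto (fun s : ℝ => s ^ (n * (n + 3)) * (1 / v ^ 2)) (𝓝[>] 1)
      (𝓝 (1 ^ (n * (n + 3)) * (1 / v ^ 2))) :=
    tendsto_nhdsWithin_of_tendsto_nhds (Continuous.tendsto (by fun_prop) 1)
  rw [one_pow, one_mul] at hc
  exact ge_of_tendsto hc (eventually_nhdsWithin_of_forall key)

/-- reduction to critical polytopes with a barrier -/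
theorem reduce_barrier (hn : 1 ≤ n) {η η' β : ℝ} (h0 : 0 < η) (h1 : η < η')
    (hβ : ∀ P : Set (Fin n → ℝ), Body P → ¬ Near η P → Near η' P → Jv P ≤ β)
    {K : Set (Fin n → ℝ)} (hK : Body K) (hf : ¬ Near η' K) (hJ : β < Jv K) {ε : ℝ} (hε : 0 < ε) :
    ∃ A : Finset (Fin n → ℝ), Iso (poly A) ∧ Crit A ∧ ¬ Near η (poly A) ∧
      Jv K - ε ≤ Jv (poly A) := by
  obtain ⟨T, c, hT, hI⟩ := exists_iso hK
  have hf' : ¬ Near η' (aff T c K) := fun h => hf (by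
    have hT' : (T⁻¹).det ≠ 0 := by
      rw [Matrix.det_nonsing_inv, Ring.inverse_eq_inv']; exact inv_ne_zero hT
    have := h.aff hT' (-(T⁻¹ *ᵥ c))
    rwa [aff_inv K hT c] at this)
  rw [← Jv_aff hK hT c] at hJ ⊢
  set K' := aff T c K
  set m := max β (Jv K' - ε) with hm
  have hmJ : m < Jv K' := max_lt hJ (by linarith)
  have e1 : ∀ᶠ s : ℝ in 𝓝 1, (1 + η) * s ^ (2 * n) < 1 + η' :=
    (Continuous.tendsto (f := fun s : ℝ => (1 + η) * s ^ (2 * n)) (by fun_prop) 1).eventually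
      (gt_mem_nhds (by simpa using h1))
  have e2 : ∀ᶠ s : ℝ in 𝓝 1, s ^ (n * (n + 3)) * m < Jv K' :=
    (Continuous.tendsto (f := fun s : ℝ => s ^ (n * (n + 3)) * m) (by fun_prop) 1).eventually
      (gt_mem_nhds (by simpa using hmJ))
  obtain ⟨s, ⟨s1, s2⟩, hs⟩ :=
    (((e1.and e2).filter_mono nhdsWithin_le_nhds).and (self_mem_nhdsWithin (s := Set.Ioi 1))).exists
  have hs1 : 1 < s := hs
  have hη : 0 ≤ 1 + η := by linarith
  obtain ⟨A0, i1, i2, hb0, hJ0⟩ := red_outer hI hs1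
  have hn0 : ¬ Near η (poly A0) := fun h => hf'
    (h.of_sandwich hs1.le hη (body_poly hb0) hI.toBody i2 (i1.trans (red_subset_smul A0 hs1.le))
      s1.le)
  have hm0 : m < Jv (poly A0) :=
    lt_of_mul_lt_mul_left (s2.trans_le hJ0) (by positivity : (0 : ℝ) ≤ s ^ (n * (n + 3)))
  obtain ⟨A, hc, hA, hnA, hmax⟩ := exists_max hn A0.card η le_rfl hb0 hn0
  have hmA : m < Jv (poly A) := hm0.trans_le (hmax A0 le_rfl hb0 hn0)
  have hfA : ¬ Near η' (poly A) := fun h =>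
    absurd (hβ _ hA.toBody hnA h) (not_le.2 ((le_max_left _ _).trans_lt hmA))
  refine ⟨A, hA, crit_of_max hn hA fun a ha b => ?_, hnA, ((le_max_right _ _).trans hmA.le)⟩
  refine (mv_sandwich hA.cpt.isBounded ha b hs1).mono fun t ht => ?_
  exact hmax _ ((mv_card ha b t).trans hc) ht.2.2 fun h => hfA
    (h.of_sandwich hs1.le hη (body_poly ht.2.2) hA.toBody ht.2.1 ht.1 s1.le)

end Pool.Agent.P.MP_2e1554_gt
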