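import Pool.Agent.P.MP_2e1554_gt.IsoEnv
import Pool.Agent.P.MP_2e1554_gt.IsoEnvX
import Pool.Agent.P.MP_2e1554_gt.IsoVtx

/-! The integrand on a pair of opposite rays. -/

open MeasureTheory Set Finset

namespace Pool.Agent.P.MP_2e1554_gt.Chk

private theorem lay_mod (k i : ℕ) : lay k (i % 56) = lay k i := by
  simp only [lay, Nat.mod_mod]

private theorem alf_mod (d : Vd) (i : ℕ) : alf d (i % 56) = alf d i := by
  simp only [alf, Nat.mod_mod]

private theorem bet_mod (d : Vd) (i : ℕ) : bet d (i % 56) = bet d i := by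
  simp only [bet, Nat.mod_mod]

private theorem muv_mod (c : Cm) (i : ℕ) : muv c (i % 56) = muv c i := by
  unfold muv
  rw [Nat.mod_mod_of_dvd _ (by norm_num), Nat.mod_mod]

private theorem pv_mod (G : Gx) (c : Cm) (d : Vd) (k i : ℕ) :
    pv G c d k (i % 56) = pv G c d k i := by
  unfold pv
  rw [lay_mod, alf_mod, bet_mod, muv_mod]

private theorem ev_mod (G : Gx) (c : Cm) (d : Vd) (k i : ℕ) :
    ev G c d k (i % 56) = ev G c d k i := by
  unfold ev
  simp only [pv_mod]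

private theorem yv_mod (G : Gx) (c : Cm) (d : Vd) (k i : ℕ) :
    yv G c d k (i % 56) = yv G c d k i := by
  unfold yv zU zL
  rw [lay_mod]

theorem zval_mod (G : Gx) (c : Cm) (v1 v2 : ℕ) (d : Vd) (k i : ℕ) :
    zval G c v1 v2 d k (i % 56) = zval G c v1 v2 d k i := by
  unfold zval
  rw [pv_mod, ev_mod, yv_mod, lay_mod]

theorem zk_mod (G : Gx) (s : St) (c : Cm) (v1 v2 : ℕ) (d : Vd) (k i : ℕ) :
    zk G s c v1 v2 d k (i % 56) = zk G s c v1 v2 d k i := by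
  rw [zk, zk, zval_mod, kv, kv, nuv, nuv, Nat.mod_mod]

private theorem kv_lin (s : St) (c : Cm) (k i : ℕ) {l : ℝ} (hl : l ∈ Icc (0 : ℝ) 1) :
    (1 - l) * (kv s c k i : ℝ) + l * kv s c (k + 1) i =
      12 * 2 ^ 20 * (nuv c i * (psi s i ((15 + k + l) / 12) - (15 + k + l) / 12)) := by
  rw [kv, kv, psi]
  generalize kqv s (i % 56) = q
  rcases le_or_gt q k with h | h
  · have : (q : ℝ) ≤ k := Nat.cast_le.2 h
    rw [Nat.sub_eq_zero_of_le h, Nat.sub_eq_zero_of_le (by omega), max_eq_left (by linarith [hl.1])]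
    simp
  · have : (k : ℝ) + 1 ≤ q := by exact_mod_cast h
    rw [max_eq_right (by linarith [hl.2]), Nat.cast_mul, Nat.cast_mul, Nat.cast_mul, Nat.cast_mul,
      Nat.cast_sub h.le, Nat.cast_sub h]
    push_cast
    ring

private theorem fl_err (a b : ℕ) (hb : 0 < b) :
    0 ≤ (a : ℝ) / b - ((a / b : ℕ) : ℝ) ∧ (a : ℝ) / b - ((a / b : ℕ) : ℝ) ≤ 1 := by
  refine ⟨sub_nonneg.2 Nat.cast_div_le, ?_⟩
  have h0 : a ≤ (a / b + 1) * b := by
    have := Nat.lt_div_mul_add (a := a) hb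
    rw [Nat.add_mul, Nat.one_mul]
    exact this.le
  have h1 : (a : ℝ) ≤ (((a / b : ℕ) : ℝ) + 1) * b := by exact_mod_cast h0
  have h2 : (0 : ℝ) < b := by exact_mod_cast hb
  have h3 := (div_le_iff₀ h2).2 h1
  linarith

private theorem cdn_err (b g : ℕ) : 0 ≤ (b : ℝ) * ((g : ℝ) / SG) - (cdn b g : ℝ) ∧
    (b : ℝ) * ((g : ℝ) / SG) - (cdn b g : ℝ) ≤ 1 := by
  have h := fl_err (b * g) SG (by unfold SG; norm_num)
  rw [Nat.cast_mul, mul_div_assoc] at h
  exact h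

private theorem q_err (a : ℕ) : 0 ≤ (a : ℝ) / 4096 - ((a / 4096 : ℕ) : ℝ) ∧
    (a : ℝ) / 4096 - ((a / 4096 : ℕ) : ℝ) ≤ 1 := by
  have h := fl_err a 4096 (by norm_num)
  rw [Nat.cast_ofNat] at h
  exact h

private theorem cRI (G : Gx) (b1 b2 : ℕ) (x : ℕ → ℕ) (e0 e1 e2 e3 e4 e5 : ℕ) {j : ℕ} (hj : j < 17) :
    0 ≤ cR G b1 b2 x e0 e1 e2 e3 e4 e5 j - cI G b1 b2 x e0 e1 e2 e3 e4 e5 j ∧
      cR G b1 b2 x e0 e1 e2 e3 e4 e5 j - cI G b1 b2 x e0 e1 e2 e3 e4 e5 j ≤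
        if j < 6 then 0 else 2 := by
  have h1 := cdn_err b1 G.g1
  have h2 := cdn_err b2 G.g1
  have h3 := cdn_err b1 G.g2
  have h4 := cdn_err b2 G.g2
  have h5 := q_err (x (j - 6))
  unfold cR cI
  rw [Nat.cast_add]
  by_cases h6 : j < 6
  · simp only [if_pos h6]
    interval_cases j <;> simp only [List.getD_cons_zero, List.getD_cons_succ] <;>
      constructor <;> simp
  · simp only [if_neg h6]
    generalize ((x (j - 6) / 4096 : ℕ) : ℝ) = t at h5 ⊢
    generalize ((x (j - 6) : ℕ) : ℝ) / 4096 = r at h5 ⊢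
    have h7 : 6 ≤ j := by omega
    interval_cases j <;>
      simp only [List.getD_cons_zero, List.getD_cons_succ, List.getD_nil, Nat.cast_zero] <;>
      constructor <;> linarith [h1.1, h1.2, h2.1, h2.2, h3.1, h3.2, h4.1, h4.2, h5.1, h5.2]

/-- real and integer coefficients agree for `j < 6` and differ by at most two otherwise -/
theorem coef_spec (G : Gx) (c : Cm) (d : Vd) : ∑ j ∈ range 17,
    |rP G c d j - rQ G c d j - ((cP G c d j : ℝ) - cQ G c d j)| ≤ 30 := by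
  have h : ∑ j ∈ range 17, |rP G c d j - rQ G c d j - ((cP G c d j : ℝ) - cQ G c d j)| ≤
      ∑ j ∈ range 17, (if j < 6 then (0 : ℝ) else 2) := by
    refine Finset.sum_le_sum fun j hj => ?_
    have hj' := Finset.mem_range.1 hj
    have a : 0 ≤ rP G c d j - cP G c d j ∧ rP G c d j - cP G c d j ≤ if j < 6 then 0 else 2 :=
      cRI G c.b1p c.b2p (xp c) d.p0 d.p1 d.p2 d.p3 d.p4 d.p5 hj'
    have b : 0 ≤ rQ G c d j - cQ G c d j ∧ rQ G c d j - cQ G c d j ≤ if j < 6 then 0 else 2 :=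
      cRI G c.b1q c.b2q (xq c) d.q0 d.q1 d.q2 d.q3 d.q4 d.q5 hj'
    rw [abs_le]
    constructor <;> linarith [a.1, a.2, b.1, b.2]
  refine le_trans h ?_
  simp only [Finset.sum_range_succ, Finset.sum_range_zero]
  norm_num

private theorem Ev_add (F H : ℕ → ℝ) (k : ℕ) (l : ℝ) :
    Ev (fun k => F k + H k) k l = Ev F k l + Ev H k l := by
  simp only [Ev, dd]; ring

private theorem Ev_sub (F H : ℕ → ℝ) (k : ℕ) (l : ℝ) :
    Ev (fun k => F k - H k) k l = Ev F k l - Ev H k l := by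
  simp only [Ev, dd]; ring

private theorem Ev_mul (a : ℝ) (F : ℕ → ℝ) (k : ℕ) (l : ℝ) :
    Ev (fun k => a * F k) k l = a * Ev F k l := by
  simp only [Ev, dd]; ring

private theorem Ev_const (a : ℝ) (k : ℕ) (l : ℝ) : Ev (fun _ => a) k l = a := by
  simp only [Ev, dd]; ring

private theorem Ev_lin (k : ℕ) (l : ℝ) :
    Ev (fun k => (15 + (k : ℝ)) * 2 ^ 20) k l = (15 + k + l) * 2 ^ 20 := by
  have h : ∀ k, dd (fun k : ℕ => (15 + (k : ℝ)) * 2 ^ 20) k = 0 := fun k => by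
    have : 1 ≤ cl k := le_max_left _ _
    simp only [dd, Nat.cast_sub this]
    push_cast
    ring
  rw [Ev, h, h]
  push_cast
  ring

private theorem Ev_sum (n : ℕ) (a : ℕ → ℝ) (F : ℕ → ℕ → ℝ) (k : ℕ) (l : ℝ) :
    Ev (fun k => ∑ j ∈ range n, a j * F j k) k l = ∑ j ∈ range n, a j * Ev (F j) k l := by
  induction n with
  | zero => simp only [Finset.sum_range_zero]; exact Ev_const 0 k l
  | succ n ih =>
    simp only [Finset.sum_range_succ]
    rw [Ev_add (fun k => ∑ j ∈ range n, a j * F j k) (fun k => a n * F n k), ih, Ev_mul]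

private theorem pv_cast (G : Gx) (c : Cm) (d : Vd) (k i : ℕ) :
    (pv G c d k i : ℝ) = 2 ^ 60 + ∑ j ∈ range 17, (cQ G c d j : ℝ) * (dg (TU j) (lay k i) : ℝ) +
      ((bet d i - alf d i : ℕ) : ℝ) * u1 k -
      ∑ j ∈ range 17, (cP G c d j : ℝ) * (dg (TL j) (lay k i) : ℝ) -
      ((alf d i - bet d i : ℕ) : ℝ) * l1 k - (muv c i : ℝ) * ((15 + (k : ℝ)) * 2 ^ 20) := by
  unfold pv
  generalize bet d i - alf d i = A
  generalize alf d i - bet d i = A'
  simp only [Int.cast_sub, Int.cast_add, Int.cast_mul, Int.cast_sum, Int.cast_natCast, Int.cast_pow,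
    Int.cast_ofNat]

private theorem pv_Ev (G : Gx) (c : Cm) (d : Vd) (k i : ℕ) (l : ℝ) :
    Ev (fun k => (pv G c d k i : ℝ)) k l = 2 ^ 60 +
      ∑ j ∈ range 17, (cQ G c d j : ℝ) * Ev (fun k => (dg (TU j) (lay k i) : ℝ)) k l +
      ((bet d i - alf d i : ℕ) : ℝ) * Ev (fun k => (u1 k : ℝ)) k l -
      ∑ j ∈ range 17, (cP G c d j : ℝ) * Ev (fun k => (dg (TL j) (lay k i) : ℝ)) k l -
      ((alf d i - bet d i : ℕ) : ℝ) * Ev (fun k => (l1 k : ℝ)) k l -
      (muv c i : ℝ) * ((15 + k + l) * 2 ^ 20) := by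
  simp only [pv_cast]
  rw [Ev_sub, Ev_sub, Ev_sub, Ev_add, Ev_add, Ev_const, Ev_mul, Ev_mul, Ev_mul, Ev_lin,
    Ev_sum 17 (fun j => (cQ G c d j : ℝ)) (fun j k => (dg (TU j) (lay k i) : ℝ)),
    Ev_sum 17 (fun j => (cP G c d j : ℝ)) (fun j k => (dg (TL j) (lay k i) : ℝ))]

private theorem ev_aux (F : ℕ → ℤ) (k : ℕ) : max 0 (-dd (fun k => (F k : ℝ)) k) / 6 ≤
    (((max 0 (-dd F k) / 256 + 1) * 43 : ℤ) : ℝ) := by
  have e : dd (fun k => (F k : ℝ)) k = ((dd F k : ℤ) : ℝ) := by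
    simp only [dd]
    push_cast
    rfl
  have e2 : max 0 (-((dd F k : ℤ) : ℝ)) = ((max 0 (-dd F k) : ℤ) : ℝ) := by
    push_cast
    rfl
  rw [e, e2]
  have h0 : 0 ≤ max 0 (-dd F k) := le_max_left _ _
  generalize max 0 (-dd F k) = D at h0 ⊢
  have h1 : D ≤ ((D / 256 + 1) * 43) * 6 := by omega
  have h2 : (D : ℝ) ≤ (((D / 256 + 1) * 43 : ℤ) : ℝ) * 6 := by exact_mod_cast h1
  rw [div_le_iff₀ (by norm_num)]
  exact h2

private theorem node_le (a b : ℕ) {lo hi w : ℝ} (h1 : lo ≤ w) (h2 : w ≤ hi) :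
    ((b : ℝ) - a) * w ≤ ((b - a : ℕ) : ℝ) * hi - ((a - b : ℕ) : ℝ) * lo := by
  rcases le_total a b with h | h
  · rw [Nat.cast_sub h, Nat.sub_eq_zero_of_le h]
    have : (0 : ℝ) ≤ (b : ℝ) - a := sub_nonneg.2 (by exact_mod_cast h)
    have := mul_le_mul_of_nonneg_left h2 this
    simpa using this
  · rw [Nat.cast_sub h, Nat.sub_eq_zero_of_le h]
    have : (0 : ℝ) ≤ (a : ℝ) - b := sub_nonneg.2 (by exact_mod_cast h)
    have := mul_le_mul_of_nonneg_left h1 this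
    simp only [Nat.cast_zero, zero_mul, zero_sub]
    linarith

private theorem node_lt (G : Gx) (c : Cm) (d : Vd) {i k : ℕ} (hi : i < 56) (hk : k < 19) {l : ℝ}
    (hl : l ∈ Icc (0 : ℝ) 1) :
    -(2 ^ 24 * ∑ j ∈ range 17, ((cP G c d j : ℝ) - cQ G c d j) * mray j (en i) ((15 + k + l) / 12)) +
        2 ^ 24 * (((bet d i : ℝ) - alf d i) * (12 / (15 + k + l))) ≤
      (1 - l) * ((pv G c d k i : ℝ) + ev G c d k i) +
        l * ((pv G c d (k + 1) i : ℝ) + ev G c d (k + 1) i) - 2 ^ 60 +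
        2 ^ 30 * ((kP G c d : ℝ) - kN G c d) + (muv c i : ℝ) * ((15 + k + l) * 2 ^ 20) := by
  have h1 : -(2 ^ 24 * ∑ j ∈ range 17,
        ((cP G c d j : ℝ) - cQ G c d j) * mray j (en i) ((15 + k + l) / 12)) ≤
      ∑ j ∈ range 17, (cQ G c d j : ℝ) * Ev (fun k => (dg (TU j) (lay k i) : ℝ)) k l -
      ∑ j ∈ range 17, (cP G c d j : ℝ) * Ev (fun k => (dg (TL j) (lay k i) : ℝ)) k l +
      2 ^ 30 * (∑ j ∈ range 17, (cP G c d j : ℝ) - ∑ j ∈ range 17, (cQ G c d j : ℝ)) := by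
    rw [Finset.mul_sum, ← Finset.sum_neg_distrib, ← Finset.sum_sub_distrib, ← Finset.sum_sub_distrib,
      Finset.mul_sum, ← Finset.sum_add_distrib]
    refine Finset.sum_le_sum fun j hj => ?_
    obtain ⟨m1, m2⟩ := mray_node (Finset.mem_range.1 hj) hi hk hl
    have e1 := mul_le_mul_of_nonneg_left m1 (Nat.cast_nonneg (α := ℝ) (cP G c d j))
    have e2 := mul_le_mul_of_nonneg_left m2 (Nat.cast_nonneg (α := ℝ) (cQ G c d j))
    linarith
  obtain ⟨w1, w2⟩ := inv_env hk hl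
  have h2 := node_le (alf d i) (bet d i) w1 w2
  have h3 := Ev_le (fun k => (pv G c d k i : ℝ)) k hl
  rw [pv_Ev] at h3
  have h4 : max 0 (-dd (fun k => (pv G c d k i : ℝ)) k) / 6 ≤ (ev G c d k i : ℝ) :=
    ev_aux (fun k => pv G c d k i) k
  have h5 : max 0 (-dd (fun k => (pv G c d k i : ℝ)) (k + 1)) / 6 ≤ (ev G c d (k + 1) i : ℝ) :=
    ev_aux (fun k => pv G c d k i) (k + 1)
  have h6 := mul_le_mul_of_nonneg_left h4 (sub_nonneg.2 hl.2)
  have h7 := mul_le_mul_of_nonneg_left h5 hl.1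
  have hP : (kP G c d : ℝ) = ∑ j ∈ range 17, (cP G c d j : ℝ) := by
    unfold kP; rw [Nat.cast_sum]
  have hN : (kN G c d : ℝ) = ∑ j ∈ range 17, (cQ G c d j : ℝ) := by
    unfold kN; rw [Nat.cast_sum]
  rw [hP, hN]
  linarith

/-- one node: `mray_node`, `inv_env`, linearity of `Ev`, `Ev_le`, `1/6 ≤ 43/256`;
for `i = 56` use `en 56 = en 0` (`ex_per`) and `lay_mod` -/
theorem node_env (G : Gx) (c : Cm) (d : Vd) {i k : ℕ} (hi : i ≤ 56) (hk : k < 19) {l : ℝ}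
    (hl : l ∈ Icc (0 : ℝ) 1) :
    -(2 ^ 24 * ∑ j ∈ range 17, ((cP G c d j : ℝ) - cQ G c d j) * mray j (en i) ((15 + k + l) / 12)) +
        2 ^ 24 * (((bet d i : ℝ) - alf d i) * (12 / (15 + k + l))) ≤
      (1 - l) * ((pv G c d k i : ℝ) + ev G c d k i) +
        l * ((pv G c d (k + 1) i : ℝ) + ev G c d (k + 1) i) - 2 ^ 60 +
        2 ^ 30 * ((kP G c d : ℝ) - kN G c d) + (muv c i : ℝ) * ((15 + k + l) * 2 ^ 20) := by
  rcases Nat.lt_or_ge i 56 with h | h
  · exact node_lt G c d h hk hl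
  · have e : i = 56 := by omega
    subst e
    have h0 := node_lt G c d (i := 56 % 56) (by norm_num) hk hl
    rw [pv_mod, pv_mod, ev_mod, ev_mod, alf_mod, bet_mod, muv_mod] at h0
    rw [en_56.1]
    exact h0

private theorem bil_sum (n : ℕ) (c : ℕ → ℝ) (F : ℕ → ℕ → ℕ → ℝ) (k i : ℕ) (x l : ℝ) :
    ∑ j ∈ range n, c j * bil (F j) k i x l =
      bil (fun k i => ∑ j ∈ range n, c j * F j k i) k i x l := by
  simp only [bil, Finset.mul_sum, ← Finset.sum_add_distrib]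
  exact Finset.sum_congr rfl fun j _ => by ring

private theorem bil_nn {F : ℕ → ℕ → ℝ} (hF : ∀ k i, 0 ≤ F k i) (k i : ℕ) {x l : ℝ}
    (hx : x ∈ Icc (0 : ℝ) 1) (hl : l ∈ Icc (0 : ℝ) 1) : 0 ≤ bil F k i x l := by
  have h1 := sub_nonneg.2 hx.2
  have h2 := sub_nonneg.2 hl.2
  have h3 := hx.1
  have h4 := hl.1
  have := hF k i
  have := hF (k + 1) i
  have := hF k (i + 1)
  have := hF (k + 1) (i + 1)
  unfold bil
  positivity

private theorem bil_mono {F H : ℕ → ℕ → ℝ} (hF : ∀ k i, F k i ≤ H k i) (k i : ℕ) {x l : ℝ}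
    (hx : x ∈ Icc (0 : ℝ) 1) (hl : l ∈ Icc (0 : ℝ) 1) : bil F k i x l ≤ bil H k i x l := by
  have h := bil_nn (F := fun k i => H k i - F k i) (fun k i => sub_nonneg.2 (hF k i)) k i hx hl
  simp only [bil] at h ⊢
  linarith

private theorem yv_ge (G : Gx) (c : Cm) (d : Vd) (k i : ℕ) :
    ∑ j ∈ range 17, (cQ G c d j : ℝ) * (zU j k i : ℝ) -
      ∑ j ∈ range 17, (cP G c d j : ℝ) * (zL j k i : ℝ) ≤ (yv G c d k i : ℝ) := by
  have h : ∑ j ∈ range 17, ((cQ G c d j : ℤ) * zU j k i - (cP G c d j : ℤ) * zL j k i) ≤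
      yv G c d k i := le_max_right _ _
  have h2 : ((∑ j ∈ range 17, ((cQ G c d j : ℤ) * zU j k i - (cP G c d j : ℤ) * zL j k i) : ℤ) : ℝ) ≤
      (yv G c d k i : ℝ) := Int.cast_le.2 h
  rw [← Finset.sum_sub_distrib]
  simpa only [Int.cast_sum, Int.cast_sub, Int.cast_mul, Int.cast_natCast] using h2

private theorem yv_nn (G : Gx) (c : Cm) (d : Vd) (k i : ℕ) : (0 : ℝ) ≤ (yv G c d k i : ℝ) :=
  Int.cast_nonneg (le_max_left _ _)

/-- the error between two rays -/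
private theorem sec_le (G : Gx) (c : Cm) (d : Vd) {i k : ℕ} (hi : i < 56) (hk : k < 19) {x l : ℝ}
    (hx : x ∈ Icc (0 : ℝ) 1) (hl : l ∈ Icc (0 : ℝ) 1) :
    -(2 ^ 24 * ∑ j ∈ range 17, ((cP G c d j : ℝ) - cQ G c d j) * mray j (ep i x) ((15 + k + l) / 12)) ≤
      (1 - x) * -(2 ^ 24 * ∑ j ∈ range 17,
        ((cP G c d j : ℝ) - cQ G c d j) * mray j (en i) ((15 + k + l) / 12)) +
      x * -(2 ^ 24 * ∑ j ∈ range 17,
        ((cP G c d j : ℝ) - cQ G c d j) * mray j (en (i + 1)) ((15 + k + l) / 12)) +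
      bil (fun k i => (yv G c d k i : ℝ)) k i x l := by
  have q0 : 0 ≤ 4 * (x * (1 - x)) := by
    have := mul_nonneg hx.1 (sub_nonneg.2 hx.2)
    linarith
  have q1 : 4 * (x * (1 - x)) ≤ 1 := by nlinarith [sq_nonneg (x - 1 / 2)]
  have h1 : -(2 ^ 24 * ∑ j ∈ range 17,
        ((cP G c d j : ℝ) - cQ G c d j) * mray j (ep i x) ((15 + k + l) / 12)) ≤
      (1 - x) * -(2 ^ 24 * ∑ j ∈ range 17,
        ((cP G c d j : ℝ) - cQ G c d j) * mray j (en i) ((15 + k + l) / 12)) +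
      x * -(2 ^ 24 * ∑ j ∈ range 17,
        ((cP G c d j : ℝ) - cQ G c d j) * mray j (en (i + 1)) ((15 + k + l) / 12)) +
      4 * (x * (1 - x)) *
        (∑ j ∈ range 17, (cQ G c d j : ℝ) * bil (fun k i => (zU j k i : ℝ)) k i x l -
          ∑ j ∈ range 17, (cP G c d j : ℝ) * bil (fun k i => (zL j k i : ℝ)) k i x l) := by
    rw [← Finset.sum_sub_distrib]
    simp only [Finset.mul_sum, ← Finset.sum_neg_distrib, ← Finset.sum_add_distrib]
    refine Finset.sum_le_sum fun j hj => ?_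
    obtain ⟨Γ, e, m1, m2⟩ := mray_sec (Finset.mem_range.1 hj) hi hk hx hl
    have e1 := mul_le_mul_of_nonneg_left m1 (Nat.cast_nonneg (α := ℝ) (cP G c d j))
    have e2 := mul_le_mul_of_nonneg_left m2 (Nat.cast_nonneg (α := ℝ) (cQ G c d j))
    have e3 : ((cQ G c d j : ℝ) - cP G c d j) * Γ ≤
        (cQ G c d j : ℝ) * bil (fun k i => (zU j k i : ℝ)) k i x l -
          (cP G c d j : ℝ) * bil (fun k i => (zL j k i : ℝ)) k i x l := by linarith
    have e4 := mul_le_mul_of_nonneg_left e3 q0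
    have e5 := congrArg (fun t => ((cP G c d j : ℝ) - cQ G c d j) * t) e
    linarith
  have h2 : ∑ j ∈ range 17, (cQ G c d j : ℝ) * bil (fun k i => (zU j k i : ℝ)) k i x l -
      ∑ j ∈ range 17, (cP G c d j : ℝ) * bil (fun k i => (zL j k i : ℝ)) k i x l ≤
      bil (fun k i => (yv G c d k i : ℝ)) k i x l := by
    rw [bil_sum 17 (fun j => (cQ G c d j : ℝ)) (fun j k i => (zU j k i : ℝ)),
      bil_sum 17 (fun j => (cP G c d j : ℝ)) (fun j k i => (zL j k i : ℝ))]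
    have := bil_mono (yv_ge G c d) k i hx hl
    simp only [bil] at this ⊢
    linarith
  have h3 := bil_nn (yv_nn G c d) k i hx hl
  have h4 := mul_le_mul_of_nonneg_left h2 q0
  have h5 := mul_le_of_le_one_left h3 q1
  linarith

/-- rounding of the coefficients -/
private theorem rnd_le (G : Gx) (c : Cm) (d : Vd) {i : ℕ} (hi : i < 56) {x s : ℝ}
    (hx : x ∈ Icc (0 : ℝ) 1) (h0 : 0 ≤ s) (h1 : s ≤ 34 / 12) :
    ∑ j ∈ range 17, ((cP G c d j : ℝ) - cQ G c d j) * mray j (ep i x) s - 64 * 30 ≤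
      ∑ j ∈ range 17, (rP G c d j - rQ G c d j) * mray j (ep i x) s := by
  have h : ∑ j ∈ range 17, ((cP G c d j : ℝ) - cQ G c d j) * mray j (ep i x) s -
      64 * ∑ j ∈ range 17, |rP G c d j - rQ G c d j - ((cP G c d j : ℝ) - cQ G c d j)| ≤
      ∑ j ∈ range 17, (rP G c d j - rQ G c d j) * mray j (ep i x) s := by
    rw [Finset.mul_sum, ← Finset.sum_sub_distrib]
    refine Finset.sum_le_sum fun j hj => ?_
    have m := mray_abs (Finset.mem_range.1 hj) hi hx h0 h1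
    have a := neg_abs_le ((rP G c d j - rQ G c d j - ((cP G c d j : ℝ) - cQ G c d j)) *
      mray j (ep i x) s)
    rw [abs_mul] at a
    have b := mul_le_mul_of_nonneg_left m
      (abs_nonneg (rP G c d j - rQ G c d j - ((cP G c d j : ℝ) - cQ G c d j)))
    linarith
  have := coef_spec G c d
  linarith

private theorem zval_cast (G : Gx) (c : Cm) (v1 v2 : ℕ) (d : Vd) (k i : ℕ) :
    (zval G c v1 v2 d k i : ℝ) = (pv G c d k i : ℝ) + ev G c d k i + yv G c d k i +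
      (if omB c then (dg (mkT G.g1 G.g2 v1 v2) (lay k i) : ℝ) else 0) := by
  unfold zval
  generalize dg (mkT G.g1 G.g2 v1 v2) (lay k i) = T
  simp only [Int.cast_add, Int.cast_natCast, Int.cast_ite, Int.cast_zero]

private theorem pot_of {K : Set (Fin 2 → ℝ)} (hK : Iso K) {G : Gx} {B : Bx} {s : St} (hs : StOK s K)
    {c : Cm} {v1 v2 : ℕ} {d : Vd} {C : ℕ → ℕ} (h : Lanes G B s c v1 v2 d C) (ho : omB c = true)
    {i k : ℕ} (hi : i < 56) (hk : k < 19) {x l : ℝ} (hx : x ∈ Icc (0 : ℝ) 1)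
    (hl : l ∈ Ico (0 : ℝ) 1) (hsp : sp K i x = (15 + k + l) / 12) :
    PsiOK (5 - G.g1 / SG - G.g2 / SG) ((v1 / SG - 2) * (sp K i x * ep i x 0) +
        (v2 / SG - 2) * (sp K i x * ep i x 1))
        (G.g1 / SG * (sp K i x * ep i x 0) ^ 2 + G.g2 / SG * (sp K i x * ep i x 1) ^ 2) ∧
      2 ^ 50 * pray K (G.g1 / SG) (G.g2 / SG) (v1 / SG - 2) (v2 / SG - 2) i x ≤
        bil (fun k i => (dg (mkT G.g1 G.g2 v1 v2) (lay k i) : ℝ)) k i x l := by
  refine (mkT_spec h.bg h.b1 h.b2).2 k hk i hi x hx l ⟨hl.1, hl.2.le⟩ _ hsp fun a ha b hb => ?_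
  rw [← lay_mod]
  exact h.hT ho (k + a) (by omega) _ (Nat.mod_lt _ (by norm_num)) (act_of hK hs hi hx hl hsp ha hb)

/-- one ray: `pot_of`, `coef_spec` with `mray_abs`, `mray_sec` (`4x(1-x) ≤ 1`, `yv ≥ 0`), `node_env` at
`i` and `i + 1`; `gauge = 12/(15+k+l)` -/
theorem gray_le {K : Set (Fin 2 → ℝ)} (hK : Iso K) {G : Gx} {B : Bx} {s : St} (hs : StOK s K) {c : Cm}
    {v1 v2 : ℕ} {d : Vd} {C : ℕ → ℕ} (h : Lanes G B s c v1 v2 d C) {i k : ℕ} (hi : i < 56)
    (hk : k < 19) {x l : ℝ} (hx : x ∈ Icc (0 : ℝ) 1) (hl : l ∈ Ico (0 : ℝ) 1)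
    (hsp : sp K i x = (15 + k + l) / 12) : gray K G c v1 v2 d i x ≤
      bil (fun k i => (zk G s c v1 v2 d k i : ℝ)) k i x l - 2 ^ 60 +
        2 ^ 30 * ((kP G c d : ℝ) + 30 - kN G c d) + 12 * 2 ^ 20 * wv s c i x (sp K i x) := by
  have hl' : l ∈ Icc (0 : ℝ) 1 := ⟨hl.1, hl.2.le⟩
  have hg : gauge K (ep i x) = 12 / (15 + k + l) := by
    have : (gauge K (ep i x))⁻¹ = (15 + k + l) / 12 := hsp
    rw [← inv_inv (gauge K (ep i x)), this, inv_div]
  have h1 : 2 ^ 50 * (if omB c then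
      pray K (G.g1 / SG) (G.g2 / SG) (v1 / SG - 2) (v2 / SG - 2) i x else 0) ≤
      bil (fun k i => if omB c then (dg (mkT G.g1 G.g2 v1 v2) (lay k i) : ℝ) else 0) k i x l := by
    by_cases ho : omB c = true
    · simp only [ho, if_true]
      exact (pot_of hK hs h ho hi hk hx hl hsp).2
    · simp only [ho, bil]
      simp
  have hk0 : (0 : ℝ) ≤ k := Nat.cast_nonneg k
  have hk1 : (k : ℝ) ≤ 18 := by exact_mod_cast (by omega : k ≤ 18)
  have h2 := rnd_le G c d hi hx (s := (15 + k + l) / 12) (by linarith [hl.1]) (by linarith [hl.2])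
  have h3 := sec_le G c d hi hk hx hl'
  have h4 := mul_le_mul_of_nonneg_left (node_env G c d hi.le hk hl') (sub_nonneg.2 hx.2)
  have h5 := mul_le_mul_of_nonneg_left (node_env G c d (i := i + 1) hi hk hl') hx.1
  have h6 := congrArg (fun t => (1 - x) * t) (kv_lin s c k i hl')
  have h7 := congrArg (fun t => x * t) (kv_lin s c k (i + 1) hl')
  have h8 : ∀ i, (muv c i : ℝ) = dg (c.mu &&& N31) (i % 28) + nuv c i := fun i => Nat.cast_add _ _
  rw [h8] at h4 h5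
  unfold gray
  rw [hg, hsp, wv]
  simp only [zk, Int.cast_sub, Int.cast_natCast, zval_cast]
  simp only [bil] at h1 h3 h6 h7 ⊢
  linarith

theorem pok_of {K : Set (Fin 2 → ℝ)} (hK : Iso K) {G : Gx} {B : Bx} {s : St} (hs : StOK s K) {c : Cm}
    {v1 v2 : ℕ} {d : Vd} {C : ℕ → ℕ} (h : Lanes G B s c v1 v2 d C) (ho : omB c = true) :
    POK K (G.g1 / SG) (G.g2 / SG) (v1 / SG - 2) (v2 / SG - 2) := by
  intro i hi x hx
  obtain ⟨k, hk, l, hl, hsp⟩ := grid_ex hK hi hx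
  exact (pot_of hK hs h ho hi hk hx hl hsp).1

/-- interpolation under a constraint on the sum, integer lattice -/
theorem pair_int {f g : ℕ → ℝ} {k k' L : ℕ} {l l' M : ℝ} (hl : l ∈ Ico (0 : ℝ) 1)
    (hl' : l' ∈ Ico (0 : ℝ) 1) (hL : (k : ℝ) + l + (k' + l') ≤ L)
    (h : ∀ a < 2, ∀ b < 2, k + a + (k' + b) ≤ L → f (k + a) + g (k' + b) ≤ M) :
    (1 - l) * f k + l * f (k + 1) + ((1 - l') * g k' + l' * g (k' + 1)) ≤ M := by
  have p1 := hl.1
  have p2 := hl'.1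
  have p3 := sub_nonneg.2 hl.2.le
  have p4 := sub_nonneg.2 hl'.2.le
  have hkL : k + k' ≤ L := by
    have : (k : ℝ) + k' ≤ L := by linarith
    exact_mod_cast this
  have h00 : f k + g k' ≤ M := h 0 (by norm_num) 0 (by norm_num) (by omega)
  rcases Nat.lt_or_ge L (k + k' + 1) with h0 | h0
  · have e : L = k + k' := by omega
    rw [e] at hL
    push_cast at hL
    have e1 : l = 0 := by linarith
    have e2 : l' = 0 := by linarith
    rw [e1, e2]
    linarith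
  have h10 : f (k + 1) + g k' ≤ M := h 1 (by norm_num) 0 (by norm_num) (by omega)
  have h01 : f k + g (k' + 1) ≤ M := h 0 (by norm_num) 1 (by norm_num) (by omega)
  rcases Nat.lt_or_ge L (k + k' + 2) with h1 | h1
  · have e : L = k + k' + 1 := by omega
    rw [e] at hL
    push_cast at hL
    have p5 : 0 ≤ 1 - l - l' := by linarith
    have e1 := mul_le_mul_of_nonneg_left h00 p5
    have e2 := mul_le_mul_of_nonneg_left h10 p1
    have e3 := mul_le_mul_of_nonneg_left h01 p2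
    linarith
  · have h11 : f (k + 1) + g (k' + 1) ≤ M := h 1 (by norm_num) 1 (by norm_num) (by omega)
    have e1 := mul_le_mul_of_nonneg_left h00 (mul_nonneg p3 p4)
    have e2 := mul_le_mul_of_nonneg_left h10 (mul_nonneg p1 p4)
    have e3 := mul_le_mul_of_nonneg_left h01 (mul_nonneg p3 p2)
    have e4 := mul_le_mul_of_nonneg_left h11 (mul_nonneg p1 p2)
    linarith

/-- for `i = 27` the second ray pair is `(28, 56 ≡ 0)`: use `hC` at `0` with the roles exchanged -/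
theorem pair_le {K : Set (Fin 2 → ℝ)} (hK : Iso K) {G : Gx} {B : Bx} {s : St} (hs : StOK s K) {c : Cm}
    {v1 v2 : ℕ} {d : Vd} {C : ℕ → ℕ} (h : Lanes G B s c v1 v2 d C) {i : ℕ} (hi : i < 28) {x : ℝ}
    (hx : x ∈ Icc (0 : ℝ) 1) : gray K G c v1 v2 d i x + gray K G c v1 v2 d (i + 28) x ≤
      (1 - x) * C i + x * C ((i + 1) % 28) - 2 ^ 58 + 2 ^ 31 * ((kP G c d : ℝ) + 30 - kN G c d) +
        12 * 2 ^ 20 * (wv s c i x (sp K i x) + wv s c (i + 28) x (sp K (i + 28) x)) := by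
  have hi1 : i < 56 := by omega
  have hi2 : i + 28 < 56 := by omega
  obtain ⟨k, hk, l, hl, hsp⟩ := grid_ex hK hi1 hx
  obtain ⟨k', hk', l', hl', hsp'⟩ := grid_ex hK hi2 hx
  have g1 := gray_le hK hs h hi1 hk hx hl hsp
  have g2 := gray_le hK hs h hi2 hk' hx hl' hsp'
  have hL : (k : ℝ) + l + (k' + l') ≤ (dg s.ll i : ℕ) := by
    have h0 := hs.ll.1 i (by omega)
    rw [LOK, if_pos hi] at h0
    have := h0 x hx
    rw [hsp, hsp'] at this
    linarith
  have cst : ∀ {a b : ℤ} {n : ℕ}, a + b ≤ 2 ^ 61 - 2 ^ 58 + (n : ℤ) →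
      (a : ℝ) + b ≤ 2 ^ 61 - 2 ^ 58 + (n : ℝ) := fun hab => by exact_mod_cast hab
  have A := pair_int (f := fun k => (zk G s c v1 v2 d k i : ℝ))
    (g := fun k => (zk G s c v1 v2 d k (i + 28) : ℝ)) (M := 2 ^ 61 - 2 ^ 58 + (C i : ℝ)) hl hl' hL
    fun a ha b hb hab => by
      have a1 := act_of hK hs hi1 hx hl hsp ha (b := 0) (by norm_num)
      have a2 := act_of hK hs hi2 hx hl' hsp' hb (b := 0) (by norm_num)
      rw [Nat.add_zero, Nat.mod_eq_of_lt hi1] at a1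
      rw [Nat.add_zero, Nat.mod_eq_of_lt hi2] at a2
      exact cst (h.hC i hi (k + a) (by omega) (k' + b) (by omega) a1 a2
        (le_trans hab (le_max_left _ _)))
  have A' := pair_int (f := fun k => (zk G s c v1 v2 d k (i + 1) : ℝ))
    (g := fun k => (zk G s c v1 v2 d k (i + 28 + 1) : ℝ))
    (M := 2 ^ 61 - 2 ^ 58 + (C ((i + 1) % 28) : ℝ)) hl hl' hL
    fun a ha b hb hab => by
      have a1 := act_of hK hs hi1 hx hl hsp ha (b := 1) (by norm_num)
      have a2 := act_of hK hs hi2 hx hl' hsp' hb (b := 1) (by norm_num)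
      rcases Nat.lt_or_ge i 27 with h27 | h27
      · rw [Nat.mod_eq_of_lt (by omega : i + 1 < 56)] at a1
        rw [Nat.mod_eq_of_lt (by omega : i + 28 + 1 < 56), (by omega : i + 28 + 1 = i + 1 + 28)] at a2
        rw [Nat.mod_eq_of_lt (by omega : i + 1 < 28), (by omega : i + 28 + 1 = i + 1 + 28)]
        refine cst (h.hC (i + 1) (by omega) (k + a) (by omega) (k' + b) (by omega) a1 a2 ?_)
        rw [(by omega : (i + 1 + 27) % 28 = i)]
        exact le_trans hab (le_max_right _ _)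
      · have e : i = 27 := by omega
        subst e
        have := h.hC 0 (by norm_num) (k' + b) (by omega) (k + a) (by omega) a2 a1
          (le_trans (by omega) (le_trans hab (le_max_right _ _)))
        have e2 : zk G s c v1 v2 d (k' + b) (27 + 28 + 1) = zk G s c v1 v2 d (k' + b) 0 :=
          (zk_mod G s c v1 v2 d (k' + b) (27 + 28 + 1)).symm
        refine cst ?_
        rw [e2, add_comm]
        exact this
  have B1 := mul_le_mul_of_nonneg_left A (sub_nonneg.2 hx.2)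
  have B2 := mul_le_mul_of_nonneg_left A' hx.1
  simp only [bil] at g1 g2
  linarith

end Pool.Agent.P.MP_2e1554_gt.Chk
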