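import Pool.Agent.P.MP_2e1554_gt.IsoCert
import Pool.Agent.P.MP_2e1554_gt.IsoSpK0
import Pool.Agent.P.MP_2e1554_gt.IsoSpK1

/-! The vector `∫ y |y|²` of an isotropic planar convex body. -/

open MeasureTheory Set Finset Matrix

namespace Pool.Agent.P.MP_2e1554_gt.Chk

private lemma spin_int {K : Set (Fin 2 → ℝ)} (hK : Iso K) {f : (Fin 2 → ℝ) → ℝ}
    (hf : Continuous f) : IntegrableOn f K := hf.continuousOn.integrableOn_compact hK.cpt

private lemma spin_out {K : Set (Fin 2 → ℝ)} (hK : Iso K) {y : Fin 2 → ℝ} (hy : y ∈ K) :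
    y 0 ^ 2 + y 1 ^ 2 ≤ 8 := by
  have h := hK.rad hy
  simp only [dotProduct, Fin.sum_univ_two] at h
  push_cast at h
  linarith

/-- the integral of `y i * (a + b * y 0 + c * |y|²)` -/
private lemma spin_lin {K : Set (Fin 2 → ℝ)} (hK : Iso K) (i : Fin 2) (a b c : ℝ) :
    ∫ y in K, y i * (a + b * y 0 + c * (y ⬝ᵥ y)) =
      b * (if i = 0 then volume.real K else 0) + c * ∫ y in K, y i * (y ⬝ᵥ y) := by
  have i1 : IntegrableOn (fun y : Fin 2 → ℝ => a * y i) K := spin_int hK (by fun_prop)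
  have i2 : IntegrableOn (fun y : Fin 2 → ℝ => b * (y i * y 0)) K := spin_int hK (by fun_prop)
  have i3 : IntegrableOn (fun y : Fin 2 → ℝ => c * (y i * (y ⬝ᵥ y))) K :=
    spin_int hK (by simp only [dotProduct, Fin.sum_univ_two]; fun_prop)
  have e : (fun y : Fin 2 → ℝ => y i * (a + b * y 0 + c * (y ⬝ᵥ y))) =
      fun y => a * y i + b * (y i * y 0) + c * (y i * (y ⬝ᵥ y)) := by
    funext y
    ring
  rw [e, integral_add (by exact i1.add i2) i3, integral_add i1 i2, integral_const_mul,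
    integral_const_mul, integral_const_mul, hK.m1, hK.m2, mul_zero, zero_add]

private lemma spin_four {K : Set (Fin 2 → ℝ)} (hK : Iso K) :
    -∫ y in K, y 0 * (y ⬝ᵥ y) ≤ 4 * volume.real K := by
  have h1 := spin_lin hK 0 4 (-2) (-1)
  have h2 : ∫ y in K, y 0 * (4 + -2 * y 0 + -1 * (y ⬝ᵥ y)) ≤ ∫ _ in K, (2 : ℝ) := by
    refine setIntegral_mono_on (spin_int hK ?_) (spin_int hK continuous_const)
      hK.cpt.measurableSet fun y hy => ?_
    · simp only [dotProduct, Fin.sum_univ_two]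
      fun_prop
    · have h := spin_out hK hy
      simp only [dotProduct, Fin.sum_univ_two]
      have k1 := mul_nonneg (add_nonneg (sq_nonneg (y 0)) (sq_nonneg (y 1))) (sub_nonneg.2 h)
      nlinarith [sq_nonneg (4 * y 0 + (y 0 ^ 2 + y 1 ^ 2 - 4))]
  rw [h1, setIntegral_const, smul_eq_mul, if_pos rfl] at h2
  linarith

private lemma spin_pyr {k R : ℝ} (k0 : 0 ≤ k) (k1 : k ≤ 1) (hR : 49 / 10 ≤ R) :
    5 / 3 * (6 - 8 * k + 3 * k ^ 2) ^ 2 ≤ R * (20 - 40 * k + 28 * k ^ 2 - 8 * k ^ 3 + k ^ 4) := by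
  obtain ⟨x, rfl⟩ : ∃ x, k = 1 - x := ⟨1 - k, by ring⟩
  have x0 : 0 ≤ x := by linarith
  have x1 : 0 ≤ 1 - x := k0
  have b : 0 ≤ 1 + 4 * x + 10 * x ^ 2 + 4 * x ^ 3 + x ^ 4 := by positivity
  have c := mul_le_mul_of_nonneg_right hR b
  have d1 : 0 ≤ x ^ 2 * (1 - x) := by positivity
  have d2 : 0 ≤ x ^ 3 * (1 - x) := by positivity
  have d3 := sq_nonneg x
  linarith

private lemma spin_ark {k : ℝ} (k0 : 0 ≤ k) (k1 : k ≤ 1) :
    (3 - 3 * k + k ^ 2) ^ 2 ≤ 9 ∧ 1 ≤ 6 - 8 * k + 3 * k ^ 2 := by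
  have a : 0 ≤ 3 - 3 * k + k ^ 2 := by nlinarith
  have b : 3 - 3 * k + k ^ 2 ≤ 3 := by nlinarith
  exact ⟨by nlinarith, by nlinarith⟩

/-- every isotropic body is a facet for small parameters -/
private lemma spin_fx {K : Set (Fin 2 → ℝ)} (hK : Iso K) {W e : ℝ} (W0 : 0 ≤ W) (W4 : W ≤ 4)
    (e0 : 0 < e) (e1 : e ≤ 1 / 1000) (e2 : e * volume.real K ≤ 1 / 1000)
    (h0 : ∫ y in K, y 0 * (y ⬝ᵥ y) = -(W * volume.real K)) (h1 : ∫ y in K, y 1 * (y ⬝ᵥ y) = 0) :
    ∃ J, Fx e e (e * W / 2) 0 J K := by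
  have hV := hK.toBody.vol_pos
  have hW : e * W ^ 2 ≤ 16 / 1000 := by nlinarith
  have hq : Jq e e (e * W / 2) 0 = e ^ 2 * (5 - 2 * e - e * W ^ 2 / 4) := by
    unfold Jq
    ring
  have hp : 0 < Jq e e (e * W / 2) 0 := hq ▸ mul_pos (by positivity) (by linarith)
  obtain ⟨J, J0, J2⟩ : ∃ J : ℝ, 0 < J ∧ J ^ 2 = Jq e e (e * W / 2) 0 :=
    ⟨_, Real.sqrt_pos.2 hp, Real.sq_sqrt hp.le⟩
  have J3 : J ≤ 3 * e := by
    refine abs_le_of_sq_le_sq' ?_ (by positivity) |>.2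
    rw [J2, hq]
    have : 0 ≤ e * W ^ 2 := by positivity
    nlinarith [sq_nonneg e]
  have JV : J * volume.real K ≤ 3 / 1000 := by nlinarith
  have JV0 : 0 ≤ J * volume.real K := by positivity
  have lo : ∀ y, 49 / 10 ≤ Rq e e (e * W / 2) 0 y := fun y => by
    unfold Rq
    have k1 := mul_nonneg e0.le (sq_nonneg (y 0 + W / 2))
    have k2 := mul_nonneg e0.le (sq_nonneg (y 1))
    nlinarith
  have hG : ∀ y ∈ K, ∀ z ∈ K, 0 ≤ Gq e e (y - z) ∧ Gq e e (y - z) ≤ 1 := fun y hy z hz => by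
    have a := spin_out hK hy
    have b := spin_out hK hz
    simp only [Gq, Pi.sub_apply]
    have c : (y 0 - z 0) ^ 2 + (y 1 - z 1) ^ 2 ≤ 32 := by
      nlinarith [sq_nonneg (y 0 + z 0), sq_nonneg (y 1 + z 1)]
    exact ⟨by positivity, by nlinarith⟩
  have hC : ∀ y ∈ K, ∀ z ∈ K, ∀ x, Gq e e (y - z) * (15 - Rq e e (e * W / 2) 0 x) ≤ 11 :=
    fun y hy z hz x => by
      obtain ⟨a, b⟩ := hG y hy z hz
      have c := lo x
      nlinarith
  refine ⟨J, ⟨hK, le_rfl, e0, by positivity, le_rfl, J0, J2, fun y => by linarith [lo y],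
    fun y hy => ?_, fun i => ?_, hK.area_two, fun y hy => hK.inn_two hy, fun y hy => ?_,
    fun y hy z hz s _ => by linarith [hC y hy z hz (y + s • (z - y))],
    fun y hy z hz s => by linarith [hC y hy z hz (y + s • (z - y))],
    fun y hy z hz s _ => by linarith [hC y hy z hz (y + s • (z - y))],
    fun y hy z hz s _ => by linarith [hC y hy z hz (y + s • (z - y))],
    fun y hy z hz => by linarith [(hG y hy z hz).2], fun k y k0 k1 h => ?_, fun k k0 k1 _ => ?_⟩,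
    ?_⟩
  · have a := spin_out hK hy
    unfold Rq
    have b : W * y 0 ≤ 12 := by nlinarith [sq_nonneg (W - y 0), sq_nonneg (y 1)]
    nlinarith
  · have e3 : (fun y : Fin 2 → ℝ => y i * Rq e e (e * W / 2) 0 y) =
        fun y => y i * (5 - 2 * e + e * W * y 0 + e * (y ⬝ᵥ y)) := by
      funext y
      simp only [Rq, dotProduct, Fin.sum_univ_two]
      ring
    rw [e3, spin_lin hK]
    fin_cases i
    · simp only [Fin.zero_eta, if_true, h0]
      ring
    · simp only [Fin.mk_one, one_ne_zero, if_false, h1]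
      ring
  · have := spin_out hK hy
    simp only [dotProduct, Fin.sum_univ_two]
    linarith
  · exact absurd h (not_lt.2 (spin_pyr k0.le k1 (lo y)))
  · have := mul_le_mul JV (spin_ark k0 k1).1 (sq_nonneg _) (by norm_num)
    linarith [(spin_ark k0 k1).2]
  · have : (2 : ℝ) ≤ Real.sqrt 5 := Real.le_sqrt_of_sq_le (by norm_num)
    unfold cZ
    linarith

theorem spin_of_dead {c : ℝ}
    (H : ∀ (K : Set (Fin 2 → ℝ)) (W e J : ℝ), Fx e e (e * W / 2) 0 J K → e ≤ 1 / 1000 → 0 ≤ W →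
      W ≤ 4 → mo K 3 0 + mo K 1 2 = -(W * volume.real K) → mo K 2 1 + mo K 0 3 = 0 → W ≤ c)
    {K : Set (Fin 2 → ℝ)} (hK : Iso K) (p q : ℝ) :
    ∫ y in K, (p * y 0 + q * y 1) * (y ⬝ᵥ y) ≤ c * Real.sqrt (p ^ 2 + q ^ 2) * volume.real K := by
  have hV := hK.toBody.vol_pos
  obtain ⟨w, hw⟩ : ∃ w : Fin 2 → ℝ, w = fun i => ∫ y in K, y i * (y ⬝ᵥ y) := ⟨_, rfl⟩
  have I : ∀ a : Fin 2 → ℝ, ∫ y in K, (a 0 * y 0 + a 1 * y 1) * (y ⬝ᵥ y) = a 0 * w 0 + a 1 * w 1 :=
    fun a => by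
      have i : ∀ j : Fin 2, IntegrableOn (fun y : Fin 2 → ℝ => a j * (y j * (y ⬝ᵥ y))) K :=
        fun j => spin_int hK (by simp only [dotProduct, Fin.sum_univ_two]; fun_prop)
      rw [hw, ← integral_const_mul, ← integral_const_mul, ← integral_add (i 0) (i 1)]
      exact integral_congr_ae (ae_of_all _ fun y => by ring)
  obtain ⟨O, hO, hr⟩ := exists_rot (-w)
  rw [neg_dotProduct_neg, mulVec_neg, neg_eq_iff_eq_neg] at hr
  have hK' := hK.rot hO
  have hV' := rot_vol K hO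
  have R : ∀ i, ∫ y in aff O 0 K, y i * (y ⬝ᵥ y) = (O *ᵥ w) i := fun i => by
    rw [rot_integral hK.cpt.measurableSet hO]
    simp only [rot_dot hO]
    have e : ∀ y, (O *ᵥ y) i = O i 0 * y 0 + O i 1 * y 1 := fun y =>
      Fin.sum_univ_two fun j => O i j * y j
    simp only [e]
    exact I (O i)
  obtain ⟨W, hW⟩ : ∃ W, Real.sqrt (w ⬝ᵥ w) = W * volume.real K :=
    ⟨Real.sqrt (w ⬝ᵥ w) / volume.real K, by field_simp⟩
  have W0 : 0 ≤ W := nonneg_of_mul_nonneg_left (hW ▸ Real.sqrt_nonneg _) hV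
  have h0 : ∫ y in aff O 0 K, y 0 * (y ⬝ᵥ y) = -(W * volume.real (aff O 0 K)) := by
    rw [R, hr, hV', ← hW]
    simp
  have h1 : ∫ y in aff O 0 K, y 1 * (y ⬝ᵥ y) = 0 := by
    rw [R, hr]
    simp
  have W4 : W ≤ 4 := by
    have := spin_four hK'
    rw [h0, neg_neg, hV'] at this
    exact le_of_mul_le_mul_right this hV
  have e1 : 1 / (1000 * (volume.real K + 1)) ≤ 1 / 1000 :=
    one_div_le_one_div_of_le (by norm_num) (by linarith)
  obtain ⟨J, hF⟩ := spin_fx hK' W0 W4 (e := 1 / (1000 * (volume.real K + 1))) (by positivity) e1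
    (by rw [hV', div_mul_eq_mul_div, div_le_div_iff₀ (by positivity) (by norm_num)]; linarith) h0 h1
  have M : ∀ (i : Fin 2) (a b c d : ℕ), (∀ y : Fin 2 → ℝ, y i * (y ⬝ᵥ y) =
      y 0 ^ a * y 1 ^ b + y 0 ^ c * y 1 ^ d) →
      mo (aff O 0 K) a b + mo (aff O 0 K) c d = ∫ y in aff O 0 K, y i * (y ⬝ᵥ y) :=
    fun i a b c d h => by
      unfold mo
      rw [← integral_add (spin_int hK' (by fun_prop)) (spin_int hK' (by fun_prop))]
      simp only [h]
  have hc := H _ W _ J hF e1 W0 W4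
    ((M 0 3 0 1 2 fun y => by simp only [dotProduct, Fin.sum_univ_two]; ring).trans h0)
    ((M 1 2 1 0 3 fun y => by simp only [dotProduct, Fin.sum_univ_two]; ring).trans h1)
  have k := I ![p, q]
  simp only [Matrix.cons_val_zero, Matrix.cons_val_one] at k
  rw [k]
  have k1 : p * w 0 + q * w 1 ≤ Real.sqrt (p ^ 2 + q ^ 2) * Real.sqrt (w ⬝ᵥ w) := by
    rw [← Real.sqrt_mul (by positivity)]
    refine Real.le_sqrt_of_sq_le ?_
    simp only [dotProduct, Fin.sum_univ_two]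
    nlinarith [sq_nonneg (p * w 1 - q * w 0)]
  rw [hW] at k1
  have k2 := mul_le_mul_of_nonneg_right hc
    (mul_nonneg (Real.sqrt_nonneg (p ^ 2 + q ^ 2)) hV.le)
  linarith

/-- the dead tree for the spin bound -/
def spinG : Gx := ⟨SG, SG, 4 * SG, 4⟩
def spinBx (an : ℕ) : Bx := ⟨0, 31457280, 0, 32768, OO + an * 9216, 4 * SG, OO, OO⟩

theorem spin_of_good {an : ℕ} (h : Good spinG (spinBx an) st0) {K : Set (Fin 2 → ℝ)} (hK : Iso K)
    (p q : ℝ) : ∫ y in K, (p * y 0 + q * y 1) * (y ⬝ᵥ y) ≤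
      an / 512 * Real.sqrt (p ^ 2 + q ^ 2) * volume.real K := by
  refine spin_of_dead (fun K W e J hF e1 W0 W4 h0 h1 => ?_) hK p q
  by_contra hc
  have e0 := hF.g2pos
  have hS : (SG : ℝ) = 9437184 := by norm_num [SG]
  have hO : (OO : ℝ) = 18874368 := by norm_num [OO]
  have eW : e * W ≤ W := by nlinarith
  have eW0 := mul_nonneg e0.le W0
  have := (h K (W / 2) 0 (by simp only [rw₁, spinG, hS]; linarith)
    (by simp only [rw₂, spinG, hS]; linarith) ?_
    ⟨e, e, e * W / 2, 0, J, hF, ?_, ?_, ?_⟩ (st0_ok hF.iso hF.area)).1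
  · simp [spinG] at this
  · simp only [InU, spinBx, Nat.cast_add, Nat.cast_mul, hS, hO, Nat.cast_ofNat]
    refine ⟨?_, ?_, ?_, ?_⟩ <;> linarith
  · simp only [InStar, spinBx, hS, Nat.cast_ofNat, Nat.cast_zero]
    refine ⟨?_, ?_, ?_, ?_⟩ <;> linarith
  · simp only [spinG, Nat.cast_mul, hS, Nat.cast_ofNat]
    have : |e * W / 2 - W / 2| ≤ 4 := abs_le.2 ⟨by linarith, by linarith⟩
    linarith
  · simp only [spinG, Nat.cast_mul, hS, Nat.cast_ofNat, sub_self, abs_zero]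
    norm_num

private theorem spZ0 : GZ spG0 spH0_0 :=
  cz (G := spG0) (.inl rfl) (by exact trivial) spE0.down
private theorem spZ1 : GZ spG0 spH0_1 :=
  cz (G := spG0) (.inl rfl) (by exact trivial) spE1.down
private theorem spZ2 : GZ spG0 spH0_2 :=
  cz (G := spG0) (.inl rfl) (by exact ⟨spZ1, trivial⟩) spE2.down
private theorem spZ3 : GZ spG0 spH0_3 :=
  cz (G := spG0) (.inl rfl) (by exact trivial) spE3.down
private theorem spZ4 : GZ spG0 spH0_4 :=
  cz (G := spG0) (.inl rfl) (by exact trivial) spE4.down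
private theorem spZ5 : GZ spG0 spH0_5 :=
  cz (G := spG0) (.inl rfl) (by exact ⟨spZ4, ⟨spZ3, ⟨spZ0, ⟨spZ2, trivial⟩⟩⟩⟩) spE5.down
private theorem spZ6 : GZ spG0 spH0_6 :=
  cz (G := spG0) (.inl rfl) (by exact trivial) spE6.down
private theorem spZ7 : GZ spG0 spH0_7 :=
  cz (G := spG0) (.inl rfl) (by exact trivial) spE7.down
private theorem spZ8 : GZ spG0 spH0_8 :=
  cz (G := spG0) (.inl rfl) (by exact trivial) spE8.down
private theorem spZ9 : GZ spG0 spH0_9 :=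
  cz (G := spG0) (.inl rfl) (by exact trivial) spE9.down
private theorem spZ10 : GZ spG0 spH0_10 :=
  cz (G := spG0) (.inl rfl) (by exact trivial) spE10.down
private theorem spZ11 : GZ spG0 spH0_11 :=
  cz (G := spG0) (.inl rfl) (by exact ⟨spZ9, ⟨spZ10, trivial⟩⟩) spE11.down
private theorem spZ12 : GZ spG0 spH0_12 :=
  cz (G := spG0) (.inl rfl) (by exact ⟨spZ7, ⟨spZ6, ⟨spZ8, trivial⟩⟩⟩) spE12.down
private theorem spZ13 : GZ spG0 spH0_13 :=
  cz (G := spG0) (.inl rfl) (by exact trivial) spE13.down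
private theorem spZ14 : GZ spG0 spH0_14 :=
  cz (G := spG0) (.inl rfl) (by exact trivial) spE14.down
private theorem spZ15 : GZ spG0 spH0_15 :=
  cz (G := spG0) (.inl rfl) (by exact ⟨spZ14, trivial⟩) spE15.down
private theorem spZ16 : GZ spG0 spH0_16 :=
  cz (G := spG0) (.inl rfl) (by exact trivial) spE16.down
private theorem spZ17 : GZ spG0 spH0_17 :=
  cz (G := spG0) (.inl rfl) (by exact trivial) spE17.down
private theorem spZ18 : GZ spG0 spH0_18 :=
  cz (G := spG0) (.inl rfl) (by exact trivial) spE18.down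
private theorem spZ19 : GZ spG0 spH0_19 :=
  cz (G := spG0) (.inl rfl) (by exact ⟨spZ17, ⟨spZ18, trivial⟩⟩) spE19.down
private theorem spZ20 : GZ spG0 spH0_20 :=
  cz (G := spG0) (.inl rfl) (by exact ⟨spZ19, trivial⟩) spE20.down
private theorem spZ21 : GZ spG0 spH0_21 :=
  cz (G := spG0) (.inl rfl) (by exact ⟨spZ12, ⟨spZ11, ⟨spZ13, ⟨spZ15, trivial⟩⟩⟩⟩) spE21.down
private theorem spZ22 : GZ spG0 spH0_22 :=
  cz (G := spG0) (.inl rfl) (by exact trivial) spE22.down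
private theorem spZ23 : GZ spG0 spH1_23 :=
  cz (G := spG1) (.inl rfl) (by exact trivial) spE23.down
private theorem spZ24 : GZ spG0 spH1_24 :=
  cz (G := spG1) (.inl rfl) (by exact trivial) spE24.down
private theorem spZ25 : GZ spG0 spH1_25 :=
  cz (G := spG1) (.inl rfl) (by exact trivial) spE25.down
private theorem spZ26 : GZ spG0 spH1_26 :=
  cz (G := spG1) (.inl rfl) (by exact trivial) spE26.down
private theorem spZ27 : GZ spG0 spH1_27 :=
  cz (G := spG1) (.inl rfl) (by exact ⟨spZ23, ⟨spZ24, ⟨spZ25, ⟨spZ26, trivial⟩⟩⟩⟩) spE27.down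
private theorem spZ28 : GZ spG0 spH1_28 :=
  cz (G := spG1) (.inl rfl) (by exact ⟨spZ21, ⟨spZ16, ⟨spZ20, trivial⟩⟩⟩) spE28.down
private theorem spZ29 : GZ spG0 spH1_29 :=
  cz (G := spG1) (.inl rfl) (by exact trivial) spE29.down
private theorem spZ30 : GZ spG0 spH1_30 :=
  cz (G := spG1) (.inl rfl) (by exact ⟨spZ29, trivial⟩) spE30.down
private theorem spZ31 : GZ spG0 spH1_31 :=
  cz (G := spG1) (.inl rfl) (by exact trivial) spE31.down
private theorem spZ32 : GZ spG0 spH1_32 :=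
  cz (G := spG1) (.inl rfl) (by exact ⟨spZ30, ⟨spZ31, trivial⟩⟩) spE32.down
private theorem spZ33 : GZ spG0 spH1_33 :=
  cz (G := spG1) (.inl rfl) (by exact trivial) spE33.down
private theorem spZ34 : GZ spG0 spH1_34 :=
  cz (G := spG1) (.inl rfl) (by exact trivial) spE34.down
private theorem spZ35 : GZ spG0 spH1_35 :=
  cz (G := spG1) (.inl rfl) (by exact ⟨spZ34, trivial⟩) spE35.down
private theorem spZ36 : GZ spG0 spH1_36 :=
  cz (G := spG1) (.inl rfl) (by exact ⟨spZ33, trivial⟩) spE36.down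
private theorem spZ37 : GZ spG0 spH1_37 :=
  cz (G := spG1) (.inl rfl) (by exact ⟨spZ36, ⟨spZ35, trivial⟩⟩) spE37.down
private theorem spZ38 : GZ spG0 spH1_38 :=
  cz (G := spG1) (.inl rfl) (by exact ⟨spZ5, ⟨spZ28, ⟨spZ22, ⟨spZ27, ⟨spZ32, trivial⟩⟩⟩⟩⟩) spE38.down
private theorem spZ39 : GZ spG0 spH1_39 :=
  cz (G := spG1) (.inl rfl) (by exact trivial) spE39.down
private theorem spZ40 : GZ spG0 spH1_40 :=
  cz (G := spG1) (.inl rfl) (by exact trivial) spE40.down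
private theorem spZ41 : GZ spG0 spH1_41 :=
  cz (G := spG1) (.inl rfl) (by exact trivial) spE41.down
private theorem spZ42 : GZ spG0 spH1_42 :=
  cz (G := spG1) (.inl rfl) (by exact ⟨spZ41, ⟨spZ40, trivial⟩⟩) spE42.down
private theorem spZ43 : GZ spG0 spH1_43 :=
  cz (G := spG1) (.inl rfl) (by exact ⟨spZ42, trivial⟩) spE43.down
private theorem spZ44 : GZ spG0 spH1_44 :=
  cz (G := spG1) (.inl rfl) (by exact ⟨spZ39, ⟨spZ43, trivial⟩⟩) spE44.down
private theorem spGood : Good spG0 ⟨0, 31457280, 0, 32768, 19814400, 37748736, 18874368, 18874368⟩ st0 :=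
  c0 (G := spG1) (.inl rfl) (by exact ⟨spZ38, ⟨spZ37, ⟨spZ44, trivial⟩⟩⟩) spE45.down

private theorem spin_k : ∀ z < 56, (8 * 102) ^ 2 * (ex z ^ 2 + ey z ^ 2) ≤ (kS z : ℤ) ^ 2 := by
  decide +kernel

theorem spinB : SpinB := fun _ _ _ _ _ K hF z hz => by
  have hK := hF.iso
  have hV := hK.toBody.vol_pos
  have h := spin_of_good (an := 102) spGood hK (ex z) (ey z)
  have I : ∀ (c : ℝ) (a b : ℕ), IntegrableOn (fun y : Fin 2 → ℝ => c * (y 0 ^ a * y 1 ^ b)) K :=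
    fun c a b => spin_int hK (by fun_prop)
  have e : (fun y : Fin 2 → ℝ => ((ex z : ℝ) * y 0 + (ey z : ℝ) * y 1) * (y ⬝ᵥ y)) = fun y =>
      (ex z : ℝ) * (y 0 ^ 3 * y 1 ^ 0) + (ex z : ℝ) * (y 0 ^ 1 * y 1 ^ 2) +
        ((ey z : ℝ) * (y 0 ^ 2 * y 1 ^ 1) + (ey z : ℝ) * (y 0 ^ 0 * y 1 ^ 3)) := by
    funext y
    simp only [dotProduct, Fin.sum_univ_two]
    ring
  rw [e, integral_add (by exact (I _ 3 0).add (I _ 1 2)) (by exact (I _ 2 1).add (I _ 0 3)),
    integral_add (I _ 3 0) (I _ 1 2), integral_add (I _ 2 1) (I _ 0 3), integral_const_mul,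
    integral_const_mul, integral_const_mul, integral_const_mul] at h
  have k : (8 * 102 : ℝ) * Real.sqrt ((ex z : ℝ) ^ 2 + (ey z : ℝ) ^ 2) ≤ kS z := by
    rw [← Real.sqrt_sq (by norm_num : (0 : ℝ) ≤ 8 * 102), ← Real.sqrt_mul (sq_nonneg _)]
    exact Real.sqrt_le_iff.2 ⟨Nat.cast_nonneg _, by exact_mod_cast spin_k z hz⟩
  have k2 := mul_le_mul_of_nonneg_right k hV.le
  unfold mo
  push_cast at h
  linarith

end Pool.Agent.P.MP_2e1554_gt.Chk
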