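import Pool.Agent.P.MP_2e1554_gt.IsoLane
import Pool.Agent.P.MP_2e1554_gt.IsoTab

/-! Square roots in all lanes. -/

open Finset

namespace Pool.Agent.P.MP_2e1554_gt.Chk

/-- the invariant of the loop -/
def SqInv (N Q Y Rem R A : ℕ) : Prop :=
  Bd Rem N (2 ^ 37 - 1) ∧ Bd R N 370727 ∧ Bd A N (370727 * 2 ^ 44) ∧
    ∀ l < N, dg Rem l + dg R l * dg R l = dg Q l ∧ dg A l = dg R l * dg Y l

theorem sqa_le {X Y N : ℕ} (hX : X < 2 ^ (64 * N)) (hY : Y < 2 ^ (64 * N))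
    (h : ∀ i, dg X i ≤ dg Y i) : X ≤ Y := by
  rw [← pk_dg hX, ← pk_dg hY]
  exact Finset.sum_le_sum fun i _ => Nat.mul_le_mul_left _ (h i)

theorem sqa_mask {X m N a : ℕ} (hX : Bd X N a) (ha : a < 2 ^ 63) (hm : Bd m N 1) :
    Bd (X &&& ((2 ^ 63 - 1) * m)) N a ∧
      ∀ i, dg (X &&& ((2 ^ 63 - 1) * m)) i = dg m i * dg X i := by
  obtain ⟨-, h2⟩ := hm.smul (c := 2 ^ 63 - 1) (by norm_num)
  refine ⟨(mask_spec hX).1, fun i => ?_⟩
  rw [dg_land, h2]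
  have h3 := hm.2 i
  have h4 := hX.2 i
  rcases Nat.eq_zero_or_pos (dg m i) with h | h
  · rw [h, mul_zero, Nat.and_zero, zero_mul]
  · rw [show dg m i = 1 by omega, mul_one, Nat.and_two_pow_sub_one_eq_mod, one_mul,
      Nat.mod_eq_of_lt (by omega)]

theorem sqa_step {N H O Q Y Rem R A j t M : ℕ} (hH : H = pk (fun _ => 2 ^ 63) N)
    (hO : O = pk (fun _ => 1) N) (hj : j ≤ 18) (hQ : Bd Q N (2 ^ 37 - 1)) (hY : Bd Y N (2 ^ 44))
    (h : SqInv N Q Y Rem R A) (ht : t = R <<< (j + 1) + O <<< (2 * j))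
    (hM : M = (Rem + H - t) &&& H) :
    ∃ Rem', Rem + H - (t &&& (M - M >>> 63)) = Rem' + H ∧
      SqInv N Q Y Rem' (R + M >>> (63 - j)) (A + (Y <<< j &&& (M - M >>> 63))) := by
  obtain ⟨b1, b2, b3, hl⟩ := h
  obtain ⟨u, hu⟩ : ∃ u, u = 2 ^ j := ⟨_, rfl⟩
  have hu1 : u ≤ 2 ^ 18 := hu ▸ Nat.pow_le_pow_right (by norm_num) hj
  have hu2 : u * u ≤ 2 ^ 18 * 2 ^ 18 := Nat.mul_le_mul hu1 hu1
  have bO : Bd O N 1 := hO ▸ Bd.pk (by norm_num) fun _ _ => le_rfl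
  have dO : ∀ l < N, dg O l = 1 := fun l hl => by
    rw [hO, dg_pk fun _ _ => by norm_num, if_pos hl]
  have bH : Bd H N (2 ^ 63) := hH ▸ Bd.pk (by norm_num) fun _ _ => le_rfl
  have e1 : t = (2 * u) * R + (u * u) * O := by
    rw [ht, Nat.shiftLeft_eq, Nat.shiftLeft_eq, hu]; ring
  obtain ⟨t1, t2⟩ := b2.smul (c := 2 * u) (by omega)
  obtain ⟨t3, t4⟩ := bO.smul (c := u * u) (by omega)
  obtain ⟨t5, t6⟩ := t1.add t3 (by omega)
  rw [← e1] at t5 t6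
  have bt : Bd t N (2 ^ 40) := t5.mono le_rfl (by omega)
  obtain ⟨m, hm⟩ : ∃ m, m = M >>> 63 := ⟨_, rfl⟩
  obtain ⟨bm, dm⟩ := cmp_spec b1 bt (by norm_num) (by norm_num) hH
  rw [← hM, ← hm] at bm dm
  have eM : M = 2 ^ 63 * m := by
    obtain ⟨-, h2⟩ := bm.smul (c := 2 ^ 63) (by norm_num)
    refine eq_of_dg fun i => ?_
    rw [h2]
    by_cases hi : i < N
    · rw [dm i hi, hM, bt.cmp b1 (by norm_num) (by norm_num) hH hi]
      split_ifs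
      · rw [mul_one]
      · rw [mul_zero]
    · rw [dg_of_ge bm.1 (not_lt.1 hi), mul_zero, hM]
      exact dg_of_ge (lt_of_le_of_lt Nat.and_le_right bH.1) (not_lt.1 hi)
  have ek : M - M >>> 63 = (2 ^ 63 - 1) * m := by
    rw [← hm, Nat.sub_mul, one_mul, ← eM]
  have es : M >>> (63 - j) = u * m := by
    rw [eM, Nat.shiftRight_eq_div_pow, show 2 ^ 63 = 2 ^ (63 - j) * 2 ^ j by
      rw [← pow_add, Nat.sub_add_cancel (by omega)], mul_assoc,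
      Nat.mul_div_cancel_left _ (Nat.two_pow_pos _), hu]
  have eY : Y <<< j = u * Y := by rw [Nat.shiftLeft_eq, hu, mul_comm]
  rw [ek, es, eY]
  obtain ⟨c1, c2⟩ := sqa_mask bt (by norm_num) bm
  obtain ⟨y1, y2⟩ := hY.smul (c := u) (by omega)
  obtain ⟨c3, c4⟩ := sqa_mask (y1.mono le_rfl (show u * 2 ^ 44 ≤ 2 ^ 62 by omega)) (by norm_num) bm
  have hle : ∀ i, dg (t &&& ((2 ^ 63 - 1) * m)) i ≤ dg Rem i := fun i => by
    rw [c2]
    by_cases hi : i < N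
    · rw [dm i hi]
      split_ifs with hc
      · rwa [one_mul]
      · rw [zero_mul]; exact Nat.zero_le _
    · rw [dg_of_ge bm.1 (not_lt.1 hi), zero_mul]; exact Nat.zero_le _
  obtain ⟨r1, r2⟩ := b1.sub c1 hle
  obtain ⟨s1, s2⟩ := bm.smul (c := u) (by omega)
  obtain ⟨s3, s4⟩ := b2.add s1 (by omega)
  obtain ⟨a1, a2⟩ := b3.add c3 (by norm_num)
  have key : ∀ l < N, dg (Rem - (t &&& ((2 ^ 63 - 1) * m))) l +
      dg (R + u * m) l * dg (R + u * m) l = dg Q l ∧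
      dg (A + (u * Y &&& ((2 ^ 63 - 1) * m))) l = dg (R + u * m) l * dg Y l := fun l hl' => by
    obtain ⟨k1, k2⟩ := hl l hl'
    rw [r2, c2, s4, s2, a2, c4, y2, k2, dm l hl', ← k1]
    split_ifs with hc
    · refine ⟨?_, by ring⟩
      rw [t6, t2, t4, dO l hl'] at hc ⊢
      obtain ⟨d, hd⟩ := Nat.exists_eq_add_of_le hc
      rw [hd, one_mul, Nat.add_sub_cancel_left]
      ring
    · exact ⟨by simp, by simp⟩
  have kR : ∀ l < N, dg (R + u * m) l ≤ 370727 := fun l hl' => by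
    have k1 := (key l hl').1
    have k2 := hQ.2 l
    by_contra hc
    have := Nat.mul_le_mul (not_le.1 hc) (not_le.1 hc)
    omega
  refine ⟨Rem - (t &&& ((2 ^ 63 - 1) * m)), Nat.sub_add_comm (sqa_le c1.1 b1.1 hle), r1,
    bd_of s3.1 kR, bd_of a1.1 fun l hl' => ?_, key⟩
  rw [(key l hl').2]
  exact Nat.mul_le_mul (kR l hl') (hY.2 l)

theorem sqa_base {N H Q Y Rem R A p : ℕ} (hH : H = pk (fun _ => 2 ^ 63) N) (hp : p ≤ 2 ^ 23)
    (hQ : Bd Q N (2 ^ 37 - 1)) (h : SqInv N Q Y Rem R A) :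
    Bd (lsub H (A + p * (Q + H - (Rem + H))) (R <<< 43)) N (2 ^ 63 - 1) ∧ ∀ l < N, ∃ r : ℕ,
      r * r ≤ dg Q l ∧ dg (lsub H (A + p * (Q + H - (Rem + H))) (R <<< 43)) l =
        r * dg Y l + p * (r * r) - r * 2 ^ 43 := by
  obtain ⟨b1, b2, b3, hl⟩ := h
  rw [Nat.add_sub_add_right, Nat.shiftLeft_eq, mul_comm R]
  obtain ⟨q1, q2⟩ := hQ.sub b1 fun i => by
    by_cases hi : i < N
    · have := (hl i hi).1
      omega
    · rw [dg_of_ge b1.1 (not_lt.1 hi)]; exact Nat.zero_le _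
  obtain ⟨q3, q4⟩ := q1.smul (c := p) (by omega)
  obtain ⟨q5, q6⟩ := b3.add q3 (by omega)
  obtain ⟨q7, q8⟩ := b2.smul (c := 2 ^ 43) (by norm_num)
  obtain ⟨q9, q10⟩ := lsub_spec q5 q7 (by omega) (by norm_num) hH
  refine ⟨q9.mono le_rfl (by omega), fun l hl' => ?_⟩
  obtain ⟨k1, k2⟩ := hl l hl'
  refine ⟨dg R l, by omega, ?_⟩
  rw [q10, q6, q4, q2, q8, k2, ← k1, Nat.add_sub_cancel_left, mul_comm (2 ^ 43)]

theorem sqa_succ (p Q Y j W R A : ℕ) : sqL p Q Y (j + 1) W R A =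
    sq1 (sqL p Q Y j) j Y W R A (R <<< (j + 1) + O1120 <<< (2 * j)) := rfl

theorem sqa_zero (p Q Y W R A : ℕ) :
    sqL p Q Y 0 W R A = lsub H1120 (A + p * (Q - W)) (R <<< 43) := rfl

theorem sqa_ind {p Q Y : ℕ} (hp : p ≤ 2 ^ 23) (hQ : Bd Q 1120 (2 ^ 37 - 1))
    (hY : Bd Y 1120 (2 ^ 44)) (n : ℕ) (hn : n ≤ 19) : ∀ Rem R A, SqInv 1120 Q Y Rem R A →
    Bd (sqL p (Q + H1120) Y n (Rem + H1120) R A) 1120 (2 ^ 63 - 1) ∧ ∀ l < 1120, ∃ r : ℕ,
      r * r ≤ dg Q l ∧ dg (sqL p (Q + H1120) Y n (Rem + H1120) R A) l =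
        r * dg Y l + p * (r * r) - r * 2 ^ 43 := by
  induction n with
  | zero =>
    intro Rem R A h
    rw [sqa_zero]
    exact sqa_base H1120_eq hp hQ h
  | succ j ih =>
    intro Rem R A h
    obtain ⟨Rem', e, h'⟩ := sqa_step H1120_eq O1120_eq (j := j) (by omega) hQ hY h rfl rfl
    rw [sqa_succ, sq1, sq2, sq3, e]
    exact ih (by omega) _ _ _ h'

theorem sqa_zero_bd (N b : ℕ) : Bd 0 N b := ⟨Nat.two_pow_pos _, fun i => by simp [dg]⟩

/-- Induction on `n ≤ 19` for general `W R A < 2^(64*1120)` with, in every lane `l < 1120`,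
`W = 2^63 + rem`, `rem + R² = Q`, `A = R * Y` (so `R ≤ 370727`). In a step the lane of `t` is
`R 2^(j+1) + 4^j`, the lane of `M` is `2^63` if `t ≤ rem` and `0` otherwise, the lane of `k` is
`2^63 - 1` or `0`, the lane of `M >>> (63 - j)` is `2^j` or `0`
(`M = 2^63 * m` with `m` as in `cmp_spec`). Constants: `O1120_eq`, `H1120_eq`. -/
theorem sqL_spec {p Q Y : ℕ} (hp : p ≤ 2 ^ 23) (hQ : Bd Q 1120 (2 ^ 37 - 1)) (hY : Bd Y 1120 (2 ^ 44)) :
    Bd (sqL p (Q + H1120) Y 19 (Q + H1120) 0 0) 1120 (2 ^ 63 - 1) ∧ ∀ l < 1120, ∃ r : ℕ,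
      r * r ≤ dg Q l ∧ dg (sqL p (Q + H1120) Y 19 (Q + H1120) 0 0) l =
        r * dg Y l + p * (r * r) - r * 2 ^ 43 := by
  refine sqa_ind hp hQ hY 19 le_rfl Q 0 0 ⟨hQ, sqa_zero_bd _ _, sqa_zero_bd _ _, fun l _ => ?_⟩
  have : dg 0 l = 0 := by simp [dg]
  rw [this]
  simp

/-- `f k <<< (3584 * k)` is `f k <<< (64 * (56 * k))` -/
theorem cat_spec {f : ℕ → ℕ} {b n : ℕ} (hb : b < 2 ^ 63) (h : ∀ k < n, Bd (f k) 56 b) :
    Bd (cat f n) (56 * n) b ∧ ∀ k < n, ∀ i < 56, dg (cat f n) (56 * k + i) = dg (f k) i := by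
  induction n with
  | zero => exact ⟨sqa_zero_bd _ _, fun k hk => absurd hk (Nat.not_lt_zero k)⟩
  | succ n ih =>
    obtain ⟨b1, d1⟩ := ih fun k hk => h k (by omega)
    have e : cat f (n + 1) = cat f n + f n <<< (64 * (56 * n)) := by
      rw [← mul_assoc]; rfl
    have hn := h n (by omega)
    obtain ⟨b2, d2⟩ := (b1.mono (show 56 * n ≤ 56 * (n + 1) by omega) le_rfl).add
      ((hn.shiftLeft (56 * n)).mono (show 56 + 56 * n ≤ 56 * (n + 1) by omega) le_rfl) (by omega)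
    rw [e]
    refine ⟨bd_of b2.1 fun i _ => ?_, fun k hk i hi => ?_⟩
    · rw [d2, dg_shiftLeft]
      split_ifs with h1
      · rw [dg_of_ge b1.1 h1, zero_add]; exact hn.2 _
      · rw [add_zero]; exact b1.2 _
    · rw [d2, dg_shiftLeft]
      by_cases h1 : k < n
      · rw [if_neg (by omega), add_zero, d1 k h1 i hi]
      · obtain rfl : k = n := by omega
        rw [if_pos (by omega), dg_of_ge b1.1 (by omega), zero_add, Nat.add_sub_cancel_left]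

theorem urow_spec {U b : ℕ} (h : Bd U 1120 b) (k : ℕ) :
    Bd (urow U k) 56 b ∧ ∀ i < 56, dg (urow U k) i = dg U (56 * k + i) := by
  have e : urow U k = U >>> (64 * (56 * k)) % 2 ^ (64 * 56) := by
    rw [urow, low_eq, show 64 * (56 * k) = 3584 * k by omega]
  rw [e]
  refine ⟨(h.shiftRight _).mod 56, fun i hi => ?_⟩
  rw [dg_mod, if_pos hi, dg_shiftRight, add_comm]

end Pool.Agent.P.MP_2e1554_gt.Chk
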