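import Pool.Agent.P.MP_2e1554_gt.IsoSqA

/-! Division in all lanes. -/

open Finset

namespace Pool.Agent.P.MP_2e1554_gt.Chk

theorem sqb_mul (c N : ℕ) : c * pk (fun _ => 1) N = pk (fun _ => c) N := by
  unfold pk
  rw [Finset.mul_sum]
  exact Finset.sum_congr rfl fun i _ => by ring

theorem sqb_cst {c N : ℕ} (hc : c < 2 ^ 64) :
    Bd (pk (fun _ => c) N) N c ∧ ∀ l < N, dg (pk (fun _ => c) N) l = c :=
  ⟨Bd.pk hc fun _ _ => le_rfl, fun l hl => by rw [dg_pk fun _ _ => hc, if_pos hl]⟩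

theorem sqb_all {X Y N a : ℕ} (hX : Bd X N a) (h : ∀ l < N, dg X l ≤ dg Y l) (l : ℕ) :
    dg X l ≤ dg Y l := by
  rcases lt_or_ge l N with hl | hl
  · exact h l hl
  · rw [dg_of_ge hX.1 hl]; exact Nat.zero_le _

theorem sqb_le {X Y N a b : ℕ} (hX : Bd X N a) (hY : Bd Y N b) (h : ∀ l < N, dg X l ≤ dg Y l) :
    X ≤ Y := by
  rw [← pk_dg hX.1, ← pk_dg hY.1]
  exact Finset.sum_le_sum fun i hi => Nat.mul_le_mul_left _ (h i (mem_range.1 hi))

theorem sqb_mask {X M N b c : ℕ} (h : b + c ≤ 64) (hM : M = pk (fun _ => 2 ^ b - 1) N) {l : ℕ}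
    (hl : l < N) : dg (X >>> c &&& M) l = dg X l / 2 ^ c % 2 ^ b := by
  have h1 : 2 ^ b - 1 < 2 ^ 64 :=
    (Nat.sub_lt (Nat.two_pow_pos b) one_pos).trans_le (Nat.pow_le_pow_right two_pos (by omega))
  rw [dg_land, hM, (sqb_cst h1).2 l hl, Nat.and_two_pow_sub_one_eq_mod]
  apply Nat.eq_of_testBit_eq
  intro j
  rw [Nat.testBit_mod_two_pow, Nat.testBit_mod_two_pow]
  by_cases hj : j < b
  · rw [← testBit_dg _ _ (by omega), Nat.testBit_div_two_pow, ← testBit_dg _ _ (by omega),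
      Nat.testBit_shiftRight, show c + (64 * l + j) = 64 * l + (j + c) by ring]
  · simp [hj]

theorem sqb_step {S E H O N : ℕ} (hS : Bd S N (2 ^ 62)) (hE : Bd E N (2 ^ 61))
    (hH : H = pk (fun _ => 2 ^ 63) N) (hO : O = pk (fun _ => 1) N) (h1 : ∀ l < N, 1 ≤ dg E l) :
    dv2 (E - O) S ((S + (H - E)) &&& H) < 2 ^ (64 * N) ∧ ∀ l < N,
      dg (dv2 (E - O) S ((S + (H - E)) &&& H)) l =
        if dg E l ≤ dg S l then dg S l - (dg E l - 1) else dg S l := by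
  obtain ⟨a1, a2⟩ := hH ▸ sqb_cst (c := 2 ^ 63) (N := N) (by norm_num)
  obtain ⟨b1, b2⟩ := hO ▸ sqb_cst (c := 1) (N := N) (by norm_num)
  rw [← Nat.add_sub_assoc (sqb_le hE a1 fun l hl => by have := hE.2 l; rw [a2 l hl]; omega), dv2]
  obtain ⟨c1, c2⟩ := cmp_spec hS hE (by norm_num) (by norm_num) hH
  have c3 := fun l (hl : l < N) => hE.cmp hS (by norm_num) (by norm_num) hH hl
  have c4 : Bd ((S + H - E) &&& H) N (2 ^ 63) := by rw [Nat.and_comm]; exact (mask_spec a1).1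
  generalize (S + H - E) &&& H = M at *
  obtain ⟨-, d2⟩ := c4.sub c1 (sqb_all c1 fun l hl => by rw [c2 l hl, c3 l hl]; split_ifs <;> omega)
  obtain ⟨e1, e2⟩ := hE.sub b1 (sqb_all b1 fun l hl => by rw [b2 l hl]; exact h1 l hl)
  have f2 : ∀ l < N, dg ((E - O) &&& (M - M >>> 63)) l =
      if dg E l ≤ dg S l then dg E l - 1 else 0 := fun l hl => by
    rw [dg_land, d2, c2 l hl, c3 l hl, e2, b2 l hl]
    split_ifs
    · rw [Nat.and_two_pow_sub_one_eq_mod, Nat.mod_eq_of_lt (by have := hE.2 l; omega)]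
    · exact Nat.and_zero _
  obtain ⟨g1, g2⟩ := hS.sub (mask_spec (M := M - M >>> 63) e1).1
    (sqb_all (mask_spec e1).1 fun l hl => by rw [f2 l hl]; split_ifs <;> omega)
  refine ⟨g1.1, fun l hl => ?_⟩
  rw [g2, f2 l hl]
  split_ifs <;> rfl

theorem sqb_shl {X N a : ℕ} (c : ℕ) (hX : Bd X N a) (h : 2 ^ c * a < 2 ^ 64) :
    Bd (X <<< c) N (2 ^ c * a) ∧ ∀ i, dg (X <<< c) i = 2 ^ c * dg X i := by
  rw [Nat.shiftLeft_eq, mul_comm X]
  exact hX.smul h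

theorem sqb_K (c : ℕ) : c * O1120 = pk (fun _ => c) 1120 := by rw [O1120_eq, sqb_mul]

/-- induction on `n`; a step maps the lane `S` to `2 S - (E - 1)` if `E ≤ 2 S` and to `2 S` otherwise,
`E = 2^22 D`; `KN3` has the lanes `1146617856 * 2^22` -/
theorem dvL_spec {D : ℕ} (hD : Bd D 1120 (2 ^ 39)) (h : ∀ l < 1120, 1146617856 < dg D l) {n : ℕ}
    (hn : n ≤ 21) : Bd (dvL (H1120 - D <<< 22) (D <<< 22 - O1120) n) 1120 (2 ^ 61) ∧ ∀ l < 1120,
      ∃ q e : ℕ, dg (dvL (H1120 - D <<< 22) (D <<< 22 - O1120) n) l = e * 2 ^ 22 + q ∧ q < 2 ^ n ∧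
        e < dg D l ∧ 1146617856 * 2 ^ n = q * dg D l + e := by
  obtain ⟨e1, e2⟩ := sqb_shl 22 hD (by norm_num)
  induction n with
  | zero =>
    obtain ⟨a1, a2⟩ := sqb_cst (c := 4809263859892224) (N := 1120) (by norm_num)
    rw [show dvL (H1120 - D <<< 22) (D <<< 22 - O1120) 0 = KN3 from rfl, KN3, sqb_K]
    exact ⟨a1.mono le_rfl (by norm_num), fun l hl =>
      ⟨0, 1146617856, by rw [a2 l hl]; norm_num, by norm_num, h l hl, by norm_num⟩⟩
  | succ n ih =>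
    obtain ⟨a1, a2⟩ := ih (by omega)
    rw [show dvL (H1120 - D <<< 22) (D <<< 22 - O1120) (n + 1) = dv1 (H1120 - D <<< 22)
      (D <<< 22 - O1120) (dvL (H1120 - D <<< 22) (D <<< 22 - O1120) n <<< 1) from rfl, dv1]
    generalize dvL (H1120 - D <<< 22) (D <<< 22 - O1120) n = S at *
    obtain ⟨b1, b2⟩ := sqb_shl 1 a1 (by norm_num)
    obtain ⟨c1, c2⟩ := sqb_step (b1.mono le_rfl (by norm_num)) (e1.mono le_rfl (by norm_num))
      H1120_eq O1120_eq fun l hl => by have := h l hl; rw [e2]; omega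
    have hn' : 2 ^ n ≤ 2 ^ 20 := Nat.pow_le_pow_right two_pos (by omega)
    generalize dv2 _ _ _ = T at *
    have key : ∀ l < 1120, ∃ q e : ℕ, dg T l = e * 2 ^ 22 + q ∧ q < 2 ^ (n + 1) ∧
        e < dg D l ∧ 1146617856 * 2 ^ (n + 1) = q * dg D l + e := fun l hl => by
      obtain ⟨q, e, d1, d2, d3, d4⟩ := a2 l hl
      have := h l hl
      rw [c2 l hl, b2, e2, d1, pow_succ 2 n]
      split_ifs with hc
      · exact ⟨2 * q + 1, 2 * e - dg D l, by omega, by omega, by omega,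
          by rw [add_mul, mul_assoc 2 q]; omega⟩
      · exact ⟨2 * q, 2 * e, by omega, by omega, by omega, by rw [mul_assoc 2 q]; omega⟩
    refine ⟨bd_of c1 fun l hl => ?_, key⟩
    obtain ⟨q, e, d1, d2, d3, -⟩ := key l hl
    have := hD.2 l
    rw [pow_succ] at d2
    omega

/-- A lane of `X >>> c &&& (2^b - 1) * O1120` is `(dg X l / 2^c) % 2^b` when `b + c ≤ 64`. With `D` the
argument of `ut2`, a lane is `(q + 1) 2^19`, plus `2^50 - 2^40` if `D ≤ 1146617856`; in that case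
`max D 1146617857 = 1146617857`, `q = 2^21 - 1` and the lane is `2^50`. Otherwise
`1146617856 * 2^21 < (q + 1) D`, `2^24 D ≤ r y + p r² - 2^43 r` and `2^95 * 2187 = 1146617856 * 2^76`. -/
theorem utab_spec {p X Y : ℕ} (hp : p ≤ 2 ^ 23) (hX : Bd X 1120 (2 ^ 63 - 1)) (hY : Bd Y 1120 (2 ^ 44)) :
    Bd (utab p X Y) 1120 (2 ^ 50) ∧ ∀ l < 1120, dg (utab p X Y) l < 2 ^ 50 → ∃ r : ℕ,
      4096 * (r * r) ≤ dg X l - OFF ∧ 2 ^ 95 * 2187 ≤
        dg (utab p X Y) l * (4096 * (r * dg Y l + p * (r * r) - r * 2 ^ 43)) := by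
  have k37 : K37 = pk (fun _ => 2 ^ 37 - 1) 1120 := sqb_K _
  have k39 : K39 = pk (fun _ => 2 ^ 39 - 1) 1120 := sqb_K _
  have k22 : K22 = pk (fun _ => 2 ^ 22 - 1) 1120 := sqb_K _
  obtain ⟨o1, o2⟩ := O1120_eq ▸ sqb_cst (c := 1) (N := 1120) (by norm_num)
  obtain ⟨a1, a2⟩ := sqb_K _ ▸ sqb_cst (c := 4503599627370496) (N := 1120) (by norm_num)
  obtain ⟨b1, b2⟩ := sqb_K _ ▸ sqb_cst (c := 1146617857) (N := 1120) (by norm_num)
  obtain ⟨c1, c2⟩ := sqb_K _ ▸ sqb_cst (c := 1146617856) (N := 1120) (by norm_num)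
  obtain ⟨-, d2⟩ := lsub_spec hX a1 (by norm_num) (by norm_num) H1120_eq
  rw [utab, ut1, ut2, ut3, KOF, KN1, KN2]
  generalize lsub H1120 X _ = Q at *
  have q2 := fun l (hl : l < 1120) => sqb_mask (X := Q) (c := 12) (by norm_num) k37 hl
  obtain ⟨-, z2⟩ := sqL_spec hp (Bd.of_land (X := Q >>> 12) (by norm_num) k37) hY
  generalize sqL p _ Y 19 _ 0 0 = Z at *
  have r1 := Bd.of_land (X := Z >>> 24) (by norm_num) k39
  have r2 := fun l (hl : l < 1120) => sqb_mask (X := Z) (c := 24) (by norm_num) k39 hl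
  generalize Z >>> 24 &&& K39 = D at *
  obtain ⟨m1, m2⟩ := lmax_spec r1 b1 (by norm_num) (by norm_num) H1120_eq
  obtain ⟨-, v2⟩ := dvL_spec (m1.mono le_rfl (by norm_num))
    (fun l hl => by rw [m2, b2 l hl]; omega) (n := 21) le_rfl
  generalize dvL _ _ 21 = V at *
  have w2 := fun l (hl : l < 1120) => sqb_mask (X := V) (c := 0) (by norm_num) k22 hl
  rw [Nat.shiftRight_zero] at w2
  have w1 : Bd (V &&& K22) 1120 (2 ^ 21 - 1) :=
    bd_of (Bd.of_land (by norm_num) k22).1 fun l hl => by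
      obtain ⟨q, e, f1, f2, -⟩ := v2 l hl
      rw [w2 l hl]
      omega
  obtain ⟨x1, x2⟩ := w1.add o1 (by norm_num)
  obtain ⟨y1, y2⟩ := sqb_shl 19 x1 (by norm_num)
  obtain ⟨g1, g2⟩ := cmp_spec c1 r1 (by norm_num) (by norm_num) H1120_eq
  obtain ⟨i1, i2⟩ := g1.smul (c := 1124800395214848) (by norm_num)
  obtain ⟨j1, j2⟩ := y1.add i1 (by norm_num)
  rw [mul_comm _ 1124800395214848]
  refine ⟨j1.mono le_rfl (by norm_num), fun l hl h => ?_⟩
  obtain ⟨r, s1, s2⟩ := z2 l hl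
  obtain ⟨q, e, f1, f2, f3, f4⟩ := v2 l hl
  have t1 : dg V l / 2 ^ 0 % 2 ^ 22 = q := by omega
  rw [j2, y2, x2, i2, g2 l hl, c2 l hl, w2 l hl, o2 l hl, t1] at h ⊢
  rw [m2, b2 l hl] at f3 f4
  rw [q2 l hl, d2, a2 l hl] at s1
  refine ⟨r, by unfold OFF; omega, ?_⟩
  split_ifs at h ⊢ with hc
  · rw [max_eq_right (by omega)] at f3 f4
    omega
  · rw [max_eq_left (by omega)] at f3 f4
    have t2 : 2 ^ 24 * dg D l ≤ dg Z l := by rw [r2 l hl]; omega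
    have t3 := Nat.mul_le_mul_left (q + 1) t2
    rw [← s2]
    nlinarith

end Pool.Agent.P.MP_2e1554_gt.Chk
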