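import Pool.Agent.P.MP_2e1554_gt.IsoSec
import Pool.Agent.P.MP_2e1554_gt.IsoHat
import Pool.Agent.P.MP_2e1554_gt.IsoConv
import Pool.Agent.P.MP_2e1554_gt.IsoStar
import Pool.Agent.P.MP_2e1554_gt.IsoLanes

/-! The test at a vertex and at a leaf. -/

open MeasureTheory Set Finset

namespace Pool.Agent.P.MP_2e1554_gt.Chk

private theorem ep_cont (i : ℕ) (a : Fin 2) : Continuous fun x : ℝ => ep i x a := by
  unfold ep
  simp only [Pi.add_apply, Pi.smul_apply, smul_eq_mul]
  fun_prop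

private theorem mray_cont {K : Set (Fin 2 → ℝ)} (hK : Iso K) (j : ℕ) {i : ℕ} (hi : i < 56) :
    Continuous fun x : ℝ => mray j (ep i x) (sp K i x) := by
  have h1 := (sp_cont hK hi).2
  have h2 := ep_cont i 0
  have h3 := ep_cont i 1
  unfold mray
  exact ((h1.pow 2).mul ((((h1.mul h2).pow _).mul ((h1.mul h3).pow _)).div_const _)).div_const _

private theorem w_cont {K : Set (Fin 2 → ℝ)} (hK : Iso K) {i : ℕ} (hi : i < 56) (a b : ℝ) :
    Continuous fun x : ℝ => ((1 - x) * a + x * b) * gauge K (ep i x) := by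
  have h1 := (sp_cont hK hi).1
  exact (((continuous_const.sub continuous_id).mul continuous_const).add
    (continuous_id.mul continuous_const)).mul h1

/-- integrate `gray` over all sectors (`mo_fan`, `pray_int`, `sp_cont`) -/
theorem gray_int {K : Set (Fin 2 → ℝ)} (hK : Iso K) (G : Gx) (c : Cm) (v1 v2 : ℕ) (d : Vd)
    (ho : omB c = true → POK K (G.g1 / SG) (G.g2 / SG) (v1 / SG - 2) (v2 / SG - 2)) :
    (∀ i < 56, IntervalIntegrable (gray K G c v1 v2 d i) volume 0 1) ∧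
    ∑ i ∈ range 56, ∫ x in (0 : ℝ)..1, gray K G c v1 v2 d i x =
      2 ^ 53 * (if omB c then IP K (G.g1 / SG) (G.g2 / SG) (v1 / SG - 2) (v2 / SG - 2) else 0) -
        2 ^ 27 * ∑ j ∈ range 17, (rP G c d j - rQ G c d j) * (mo K (pa j) (pb j) / ps j) +
        2 ^ 24 * (∑ i ∈ range 56, ∫ x in (0 : ℝ)..1, ((1 - x) * ((bet d i : ℝ) - alf d i) +
          x * ((bet d (i + 1) : ℝ) - alf d (i + 1))) * gauge K (ep i x)) := by
  have hA : ∀ i < 56, IntervalIntegrable (fun x => if omB c then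
      pray K (G.g1 / SG) (G.g2 / SG) (v1 / SG - 2) (v2 / SG - 2) i x else 0) volume 0 1 := by
    intro i hi
    by_cases h : omB c = true
    · simp only [h, if_true]
      exact pray_int hK (ho h) hi
    · simp only [h]
      exact intervalIntegrable_const
  have hM : ∀ i < 56, ∀ j, IntervalIntegrable (fun x => (rP G c d j - rQ G c d j) *
      mray j (ep i x) (sp K i x)) volume 0 1 := fun i hi j =>
    (continuous_const.mul (mray_cont hK j hi)).intervalIntegrable 0 1
  have hS : ∀ i < 56, IntervalIntegrable (fun x => ∑ j ∈ range 17, (rP G c d j - rQ G c d j) *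
      mray j (ep i x) (sp K i x)) volume 0 1 := fun i hi =>
    (continuous_finsetSum _ fun j _ =>
      continuous_const.mul (mray_cont hK j hi)).intervalIntegrable 0 1
  have hW : ∀ i < 56, IntervalIntegrable (fun x => ((1 - x) * ((bet d i : ℝ) - alf d i) +
      x * ((bet d (i + 1) : ℝ) - alf d (i + 1))) * gauge K (ep i x)) volume 0 1 := fun i hi =>
    (w_cont hK hi _ _).intervalIntegrable 0 1
  have e : ∀ i < 56, ∫ x in (0 : ℝ)..1, gray K G c v1 v2 d i x =
      2 ^ 50 * (∫ x in (0 : ℝ)..1, if omB c then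
        pray K (G.g1 / SG) (G.g2 / SG) (v1 / SG - 2) (v2 / SG - 2) i x else 0) -
      2 ^ 24 * (∑ j ∈ range 17, (rP G c d j - rQ G c d j) *
        ∫ x in (0 : ℝ)..1, mray j (ep i x) (sp K i x)) +
      2 ^ 24 * (∫ x in (0 : ℝ)..1, ((1 - x) * ((bet d i : ℝ) - alf d i) +
        x * ((bet d (i + 1) : ℝ) - alf d (i + 1))) * gauge K (ep i x)) := by
    intro i hi
    unfold gray
    rw [intervalIntegral.integral_add (((hA i hi).const_mul _).sub ((hS i hi).const_mul _))
      ((hW i hi).const_mul _),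
      intervalIntegral.integral_sub ((hA i hi).const_mul _) ((hS i hi).const_mul _),
      intervalIntegral.integral_const_mul, intervalIntegral.integral_const_mul,
      intervalIntegral.integral_const_mul,
      intervalIntegral.integral_finsetSum fun j _ => hM i hi j]
    simp only [intervalIntegral.integral_const_mul]
  refine ⟨fun i hi => ?_, ?_⟩
  · exact (((hA i hi).const_mul _).sub ((hS i hi).const_mul _)).add ((hW i hi).const_mul _)
  · rw [Finset.sum_congr rfl fun i hi => e i (Finset.mem_range.1 hi), Finset.sum_add_distrib,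
      Finset.sum_sub_distrib, ← Finset.mul_sum, ← Finset.mul_sum, ← Finset.mul_sum,
      Finset.sum_comm]
    have e1 : ∑ i ∈ range 56, (∫ x in (0 : ℝ)..1, if omB c then
        pray K (G.g1 / SG) (G.g2 / SG) (v1 / SG - 2) (v2 / SG - 2) i x else 0) =
        8 * (if omB c then IP K (G.g1 / SG) (G.g2 / SG) (v1 / SG - 2) (v2 / SG - 2) else 0) := by
      by_cases h : omB c = true
      · simp only [h, if_true]
        unfold IP
        rw [Finset.mul_sum]
        exact Finset.sum_congr rfl fun i _ => by ring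
      · simp [h]
    have e2 : ∑ j ∈ range 17, ∑ i ∈ range 56, (rP G c d j - rQ G c d j) *
        ∫ x in (0 : ℝ)..1, mray j (ep i x) (sp K i x) =
        8 * ∑ j ∈ range 17, (rP G c d j - rQ G c d j) * (mo K (pa j) (pb j) / ps j) := by
      rw [Finset.mul_sum]
      refine Finset.sum_congr rfl fun j _ => ?_
      rw [mo_fan hK j, Finset.mul_sum, Finset.mul_sum]
      exact Finset.sum_congr rfl fun i _ => by ring
    rw [e1, e2]
    ring

private theorem int_lin (a b : ℝ) : ∫ x in (0 : ℝ)..1, (a + b * x) = a + b / 2 := by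
  have h1 : Continuous fun x : ℝ => b * x := by fun_prop
  rw [intervalIntegral.integral_add intervalIntegrable_const (h1.intervalIntegrable 0 1),
    intervalIntegral.integral_const_mul, integral_id, intervalIntegral.integral_const]
  simp only [smul_eq_mul]
  ring

private theorem int_four {f g h : ℝ → ℝ} (hf : Continuous f) (hg : Continuous g) (hh : Continuous h)
    (a b p q : ℝ) :
    Continuous (fun x : ℝ => ((1 - x) * a + x * b) * f x + ((1 - x) * (p * g x) + x * (q * h x))) ∧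
      ∫ x in (0 : ℝ)..1, (((1 - x) * a + x * b) * f x + ((1 - x) * (p * g x) + x * (q * h x))) =
        (a * ∫ x in (0 : ℝ)..1, (1 - x) * f x) + (b * ∫ x in (0 : ℝ)..1, x * f x) +
          ((p * ∫ x in (0 : ℝ)..1, (1 - x) * g x) + q * ∫ x in (0 : ℝ)..1, x * h x) := by
  have h1 : IntervalIntegrable (fun x : ℝ => a * ((1 - x) * f x)) volume 0 1 :=
    Continuous.intervalIntegrable (by fun_prop) 0 1
  have h2 : IntervalIntegrable (fun x : ℝ => b * (x * f x)) volume 0 1 :=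
    Continuous.intervalIntegrable (by fun_prop) 0 1
  have h3 : IntervalIntegrable (fun x : ℝ => p * ((1 - x) * g x)) volume 0 1 :=
    Continuous.intervalIntegrable (by fun_prop) 0 1
  have h4 : IntervalIntegrable (fun x : ℝ => q * (x * h x)) volume 0 1 :=
    Continuous.intervalIntegrable (by fun_prop) 0 1
  refine ⟨by fun_prop, ?_⟩
  rw [← intervalIntegral.integral_const_mul, ← intervalIntegral.integral_const_mul,
    ← intervalIntegral.integral_const_mul, ← intervalIntegral.integral_const_mul,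
    ← intervalIntegral.integral_add h1 h2, ← intervalIntegral.integral_add h3 h4,
    ← intervalIntegral.integral_add (h1.add h2) (h3.add h4)]
  exact intervalIntegral.integral_congr fun x _ => by ring

private theorem int_mu {K : Set (Fin 2 → ℝ)} (hK : Iso K) (s : St) (c : Cm) {i : ℕ} (hi : i < 56) :
    Continuous (fun x : ℝ => wv s c i x (sp K i x)) ∧ ∫ x in (0 : ℝ)..1, wv s c i x (sp K i x) =
      dg (c.mu &&& N31) (i % 28) * hA K i + dg (c.mu &&& N31) ((i + 1) % 28) * hB K i +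
        (nuv c i * kA s K i + nuv c (i + 1) * kB s K i) :=
  int_four (sp_cont hK hi).2 (psi_cont (s := s) hK hi i) (psi_cont (s := s) hK hi (i + 1)) _ _ _ _

private theorem re_sum (A B A' B' m : ℕ → ℝ) (h1 : m 28 = 0) (h2 : m 56 = 0) :
    ∑ i ∈ range 56, (m (i % 28) * A i + m ((i + 1) % 28) * B i +
      (m (nuI (i % 56)) * A' i + m (nuI ((i + 1) % 56)) * B' i)) =
    ∑ l ∈ range 28, m l * (lv A B (ia l) + lv A B (ib l)) + ∑ n ∈ range 27, m (28 + (n + 1)) *
      (A' ((43 + n) % 56) + B' (40 - n) + (B' ((42 + n) % 56) + A' (41 - n))) := by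
  simp only [Finset.sum_range_succ, Finset.sum_range_zero, nuI, ia, ib, lv, Nat.reduceMod, Nat.reduceAdd,
    Nat.reduceSub, Nat.reduceLT, Nat.reduceLeDiff, if_true, if_false, h1, h2]
  ring

private theorem mu_sum {K : Set (Fin 2 → ℝ)} (hK : Iso K) {s : St} (hs : StOK s K) (c : Cm) :
    65536 * ∑ i ∈ range 56, (dg (c.mu &&& N31) (i % 28) * hA K i + dg (c.mu &&& N31) ((i + 1) % 28) * hB K i +
      (nuv c i * kA s K i + nuv c (i + 1) * kB s K i)) ≤ sumM s c := by
  have h := re_sum (hA K) (hB K) (kA s K) (kB s K) (fun l => (dg (c.mu &&& N31) l : ℝ))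
    (by rw [(mu_bd c).2, Nat.cast_zero]) (by rw [dg_of_ge (mu_bd c).1.1 le_rfl, Nat.cast_zero])
  have e : sumM s c = ∑ l ∈ range 28, dg (c.mu &&& N31) l * (dg s.ll (ia l) + dg s.ll (ib l)) +
      (∑ n ∈ range 27, dg (c.mu &&& N31) (28 + (n + 1)) *
        (dg s.ll (ia (28 + (n + 1))) + dg s.ll (ib (28 + (n + 1)))) +
        dg (c.mu &&& N31) (28 + 0) * (dg s.ll (ia (28 + 0)) + dg s.ll (ib (28 + 0)))) := by
    rw [sumM, show (56 : ℕ) = 28 + (27 + 1) from rfl, Finset.sum_range_add]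
    exact congrArg _ (Finset.sum_range_succ' _ 27)
  simp only [nuv]
  rw [h, e, Nat.cast_add, Nat.cast_add, Nat.cast_sum, Nat.cast_sum, mul_add, Finset.mul_sum, Finset.mul_sum]
  refine add_le_add (Finset.sum_le_sum fun l hl => ?_)
    (le_add_of_le_of_nonneg (Finset.sum_le_sum fun n hn => ?_) (Nat.cast_nonneg _))
  · have hl' := Finset.mem_range.1 hl
    have t1 : 28 ≤ ia l ∧ ia l < 84 := by
      unfold ia
      split_ifs <;> omega
    have t2 : 28 ≤ ib l ∧ ib l < 84 := by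
      unfold ib
      split_ifs <;> omega
    have l1 := hs.ll.1 _ t1.2
    have l2 := hs.ll.1 _ t2.2
    rw [LOK, if_neg (by omega)] at l1 l2
    have := mul_le_mul_of_nonneg_left (add_le_add l1 l2) (Nat.cast_nonneg (α := ℝ) (dg (c.mu &&& N31) l))
    push_cast
    linarith
  · obtain ⟨l1, l2⟩ := kink_int hK hs (Finset.mem_range.1 hn)
    have := mul_le_mul_of_nonneg_left (add_le_add l1 l2)
      (Nat.cast_nonneg (α := ℝ) (dg (c.mu &&& N31) (28 + (n + 1))))
    rw [ia, ib, if_neg (by omega), if_neg (by omega), show 56 + (28 + (n + 1)) = 85 + n by omega,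
      show 83 + (28 + (n + 1)) = 112 + n by omega]
    push_cast
    linarith

private theorem sum_sh (F : ℕ → ℝ) : ∑ i ∈ range 28, F ((i + 1) % 28) = ∑ i ∈ range 28, F i := by
  rw [Finset.sum_range_succ (fun i => F ((i + 1) % 28)) 27, Finset.sum_range_succ' F 27]
  exact congrArg₂ (· + ·) (Finset.sum_congr rfl fun i hi => by
    rw [Nat.mod_eq_of_lt (by have := Finset.mem_range.1 hi; omega)]) rfl

/-- sum of `pair_le` -/
theorem gray_sum {K : Set (Fin 2 → ℝ)} (hK : Iso K) {G : Gx} {B : Bx} {s : St} (hs : StOK s K)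
    {c : Cm} {v1 v2 : ℕ} {d : Vd} {C : ℕ → ℕ} (h : Lanes G B s c v1 v2 d C) :
    ∑ i ∈ range 56, ∫ x in (0 : ℝ)..1, gray K G c v1 v2 d i x ≤
      ∑ i ∈ range 28, (C i : ℝ) - 28 * 2 ^ 58 + 28 * 2 ^ 31 * ((kP G c d : ℝ) + 30 - kN G c d) +
        192 * (sumM s c : ℝ) := by
  have hI := (gray_int hK G c v1 v2 d (pok_of hK hs h)).1
  have e : ∑ i ∈ range 56, ∫ x in (0 : ℝ)..1, gray K G c v1 v2 d i x =
      ∑ i ∈ range 28, ∫ x in (0 : ℝ)..1,
        (gray K G c v1 v2 d i x + gray K G c v1 v2 d (i + 28) x) := by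
    rw [show (56 : ℕ) = 28 + 28 from rfl, Finset.sum_range_add, ← Finset.sum_add_distrib]
    refine Finset.sum_congr rfl fun i hi => ?_
    have hi' := Finset.mem_range.1 hi
    rw [intervalIntegral.integral_add (hI i (by omega)) (hI (i + 28) (by omega)), add_comm 28 i]
  have le : ∀ i ∈ range 28, ∫ x in (0 : ℝ)..1,
      (gray K G c v1 v2 d i x + gray K G c v1 v2 d (i + 28) x) ≤
      (C i : ℝ) / 2 + (C ((i + 1) % 28) : ℝ) / 2 +
        (2 ^ 31 * ((kP G c d : ℝ) + 30 - kN G c d) - 2 ^ 58) +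
        12 * 2 ^ 20 * (dg (c.mu &&& N31) (i % 28) * hA K i + dg (c.mu &&& N31) ((i + 1) % 28) * hB K i +
          (nuv c i * kA s K i + nuv c (i + 1) * kB s K i) +
          (dg (c.mu &&& N31) ((28 + i) % 28) * hA K (28 + i) +
            dg (c.mu &&& N31) ((28 + i + 1) % 28) * hB K (28 + i) +
            (nuv c (28 + i) * kA s K (28 + i) + nuv c (28 + i + 1) * kB s K (28 + i)))) := by
    intro i hi
    have hi' := Finset.mem_range.1 hi
    obtain ⟨c1, e1⟩ := int_mu hK s c (i := i) (by omega)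
    obtain ⟨c2, e2⟩ := int_mu hK s c (i := i + 28) (by omega)
    have c0 : Continuous fun x : ℝ => ((C i : ℝ) - 2 ^ 58 + 2 ^ 31 * ((kP G c d : ℝ) + 30 - kN G c d)) +
        ((C ((i + 1) % 28) : ℝ) - C i) * x := by fun_prop
    have i0 := c0.intervalIntegrable (μ := volume) 0 1
    have i1 := c1.intervalIntegrable (μ := volume) 0 1
    have i2 := c2.intervalIntegrable (μ := volume) 0 1
    refine (intervalIntegral.integral_mono_on zero_le_one
      ((hI i (by omega)).add (hI (i + 28) (by omega))) (i0.add ((i1.add i2).const_mul (12 * 2 ^ 20)))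
      fun x hx => (pair_le hK hs h hi' hx).trans_eq (by ring)).trans_eq ?_
    rw [intervalIntegral.integral_add i0 ((i1.add i2).const_mul _), intervalIntegral.integral_const_mul,
      intervalIntegral.integral_add i1 i2, e1, e2, int_lin, add_comm 28 i]
    ring
  have hm := mu_sum hK hs c
  rw [show (56 : ℕ) = 28 + 28 from rfl, Finset.sum_range_add, ← Finset.sum_add_distrib] at hm
  rw [e]
  refine (Finset.sum_le_sum le).trans ?_
  rw [Finset.sum_add_distrib, Finset.sum_add_distrib, Finset.sum_add_distrib, ← Finset.sum_div,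
    ← Finset.sum_div, sum_sh fun i => (C i : ℝ), Finset.sum_const, Finset.card_range, nsmul_eq_mul,
    ← Finset.mul_sum]
  push_cast
  linarith

theorem cAB_spec {th g1 g2 v1 v2 : ℕ} (hg : g1 + g2 ≤ 31457280) :
    lC th (g1 / SG) (g2 / SG) (v1 / SG - 2) (v2 / SG - 2) =
      ((cA1 th g1 g2 : ℝ) - cB1 th v1 v2) / (SG * 2 ^ 26) := by
  have h2 : ((5 * SG - g1 - g2 : ℕ) : ℝ) = 5 * 9437184 - g1 - g2 := by
    rw [Nat.sub_sub, Nat.cast_sub (by unfold SG; omega)]
    push_cast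
    rw [SG_eq]
    ring
  rw [cA1, cB1]
  simp only [lC, Rq, Matrix.cons_val_zero, Matrix.cons_val_one, Nat.cast_add, Nat.cast_mul, h2,
    Nat.cast_ofNat, SG_eq, OO_eq]
  ring

theorem slpT_spec (th g1 : ℕ) : (slpT th g1 : ℝ) ≤ SG * 2 ^ 26 * (Real.pi * cS / (10 * Real.sqrt 5) +
    pK th / 16 * (pGA th * (g1 / SG) / 2 ^ 22)) := by
  rw [slpT, Nat.cast_add, Nat.cast_mul, Nat.cast_mul, mul_add]
  refine add_le_add BE_spec (le_of_eq ?_)
  rw [SG_eq]
  ring

/-- divide `Lanes.fin` by `2560000·648·2^53`; `rows_nonneg`, `mo_iso`, `jR_spec`, `BE_spec`,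
`StOK.vl`, `StOK.vh` -/
theorem vtx_sound {K : Set (Fin 2 → ℝ)} (hK : Iso K) {G : Gx} {B : Bx} {s : St} (hs : StOK s K)
    {c : Cm} {v1 v2 : ℕ} {d : Vd} {b : ℕ} (hX : RowOK K c.xa b) (hb : b < 2 ^ 63)
    (hc : c.b1p + c.b1q + c.b2p + c.b2q ≤ 268435456) (h : vtx G c (mkL G B s c) v1 v2 d = true) :
    (omB c = true → G.th % 8 ≤ 2) ∧ VQ K (omB c) (thB G c) (laB G c) (G.g1 / SG) (G.g2 / SG)
      (v1 / SG - 2) (v2 / SG - 2) (ell K G B c (v1 / SG - 2) (v2 / SG - 2) + if omB c then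
        lG (thB G c) G.th K (G.g1 / SG) (G.g2 / SG) (v1 / SG - 2) (v2 / SG - 2) else 0) := by
  obtain ⟨C, hL⟩ := vtx_lanes hs.toStBd hX.1 hb hc h
  have hth : thB G c = true → omB c = true := fun ht => by
    unfold thB at ht
    exact (Bool.and_eq_true _ _ ▸ ht).1
  refine ⟨hL.hth, pok_of hK hs hL, fun ht => ?_, ?_⟩
  · rcases ht with ht | ht
    · obtain ⟨a1, a2, a3, -⟩ := jR_spec (hL.hj ht)
      exact ⟨a1, a2, a3⟩
    · exact jI_spec (hL.hl ht)
  have H0 := (gray_int hK G c v1 v2 d (pok_of hK hs hL)).2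
  have H1 := gray_sum hK hs hL
  have H2 := rows_nonneg hK hs d
  rw [H0] at H1
  have hv : 0 ≤ volume.real K := measureReal_nonneg
  obtain ⟨m0, m1, m2, m3, m4, m5⟩ := mo_iso hK
  obtain ⟨X, hXe⟩ : ∃ X : ℝ, X = ∑ j ∈ range 11, ((dg c.xa j : ℝ) - dg c.xa (11 + j)) *
      (mo K (pa (6 + j)) (pb (6 + j)) / ps (6 + j)) := ⟨_, rfl⟩
  have H3 : X ≤ 4096 * (xk c * volume.real K) := by
    have h1 : dg c.xa 22 ≤ 4096 * xk c := by
      unfold xk
      omega
    have h2 : (dg c.xa 22 : ℝ) ≤ 4096 * xk c := by exact_mod_cast h1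
    have h3 := mul_le_mul_of_nonneg_right h2 hv
    have h4 := hX.2
    rw [← hXe] at h4
    linarith
  have hpq : ∀ j, (dg c.xa j : ℝ) - dg c.xa (11 + j) = (xp c j : ℝ) - xq c j := fun j => by
    unfold xp xq
    rcases le_total (dg c.xa j) (dg c.xa (11 + j)) with hle | hle
    · rw [Nat.sub_eq_zero_of_le hle, Nat.cast_sub hle]
      simp
    · rw [Nat.sub_eq_zero_of_le hle, Nat.cast_sub hle]
      simp
  have HS : ∑ j ∈ range 17, (rP G c d j - rQ G c d j) * (mo K (pa j) (pb j) / ps j) =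
      ((d.p0 : ℝ) - d.q0 + (d.p3 - d.q3) + (d.p4 - d.q4)) * volume.real K +
        ((c.b1p : ℝ) - c.b1q) * (G.g1 / SG * mo K 3 0 + G.g2 / SG * mo K 1 2) +
        ((c.b2p : ℝ) - c.b2q) * (G.g1 / SG * mo K 2 1 + G.g2 / SG * mo K 0 3) + X / 4096 := by
    rw [hXe]
    simp only [hpq]
    simp only [Finset.sum_range_succ, Finset.sum_range_zero, rP, rQ, cR, pa, pb, ps, Nat.reduceAdd,
      Nat.reduceSub, Nat.reduceLT, if_true, if_false, List.getD_cons_succ, List.getD_cons_zero,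
      List.getD_nil, m0, m1, m2, m3, m4, m5]
    push_cast
    ring
  rw [HS] at H1
  have hE : ((etM G c v1 v2 d - etP c v1 v2 d : ℕ) : ℝ) * s.vl -
      ((etP c v1 v2 d - etM G c v1 v2 d : ℕ) : ℝ) * s.vh ≤
      ((etM G c v1 v2 d : ℝ) - etP c v1 v2 d) * (10 ^ 4 * volume.real K) := by
    rcases le_or_gt (etP c v1 v2 d) (etM G c v1 v2 d) with hle | hlt
    · rw [Nat.sub_eq_zero_of_le hle, Nat.cast_sub hle, Nat.cast_zero, zero_mul, sub_zero]
      exact mul_le_mul_of_nonneg_left hs.vl (sub_nonneg.2 (Nat.cast_le.2 hle))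
    · have h0 : s.vh ≠ 0 := hL.he.resolve_left (by omega)
      rw [Nat.sub_eq_zero_of_le hlt.le, Nat.cast_sub hlt.le, Nat.cast_zero, zero_mul]
      have := mul_le_mul_of_nonneg_left (hs.vh h0)
        (sub_nonneg.2 (Nat.cast_le.2 hlt.le : (etM G c v1 v2 d : ℝ) ≤ etP c v1 v2 d))
      linarith
  have hT : (if thB G c then Real.pi * cS * cA /
      Real.sqrt (Jq (G.g1 / SG) (G.g2 / SG) (v1 / SG - 2) (v2 / SG - 2)) else 0) ≤
      ((bif thB G c then CKAP / jR G.g1 G.g2 v1 v2 + 1 else 0 : ℕ) : ℝ) / (SG * 2 ^ 26) := by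
    by_cases ht : thB G c = true
    · simp only [ht, if_true, cond_true]
      exact (jR_spec (hL.hj ht)).2.2.2
    · simp [ht]
  have hG : (if omB c then lG (thB G c) G.th K (G.g1 / SG) (G.g2 / SG) (v1 / SG - 2) (v2 / SG - 2)
      else 0) = (((bif omB c then cA1 G.th G.g1 G.g2 else 0 : ℕ) : ℝ) -
        ((bif omB c then cB1 G.th v1 v2 else 0 : ℕ) : ℝ)) / (SG * 2 ^ 26) -
      (if thB G c then pK G.th / 16 * (pGA G.th * (G.g1 / SG) / 2 ^ 22) else 0 : ℝ) * volume.real K := by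
    have k := cAB_spec (th := G.th) (v1 := v1) (v2 := v2) hL.bg
    generalize cA1 G.th G.g1 G.g2 = X at k ⊢
    generalize cB1 G.th v1 v2 = Y at k ⊢
    by_cases ho : omB c = true
    · rw [if_pos ho, ho, cond_true, cond_true, lG, k]
    · rw [if_neg ho, if_neg (fun ht => ho (hth ht)), Bool.eq_false_iff.2 ho, cond_false, cond_false]
      simp
  have hB0 : ((bif omB c then beM (G.th % 8) G.g1 G.g2 v1 v2 else 0 : ℕ) : ℝ) ≤
      SG * 2 ^ 26 * (if omB c then Real.pi * thQ (thB G c) (laB G c) (G.g1 / SG) (G.g2 / SG)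
        (v1 / SG - 2) (v2 / SG - 2) / (10 * Real.sqrt 5) else 0) := by
    by_cases ho : omB c = true
    · have hl := hL.hl
      rw [laB, ho, Bool.true_and] at hl
      rw [thB, laB, ho, cond_true, if_pos rfl, Bool.true_and, Bool.true_and]
      exact beM_spec hL.bg hL.b1 hL.b2 hl
    · rw [if_neg ho, Bool.eq_false_iff.2 ho, cond_false, Nat.cast_zero, mul_zero]
  have hB1 : ((bif thB G c then slpT G.th G.g1 else 0 : ℕ) : ℝ) ≤
      SG * 2 ^ 26 * ((if thB G c then Real.pi * cS / (10 * Real.sqrt 5) else 0) +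
        (if thB G c then pK G.th / 16 * (pGA G.th * (G.g1 / SG) / 2 ^ 22) else 0 : ℝ)) := by
    have k := slpT_spec G.th G.g1
    generalize slpT G.th G.g1 = X at k ⊢
    by_cases ht : thB G c = true
    · rw [if_pos ht, if_pos ht, ht, cond_true]
      exact k
    · simp [ht]
  have hB0' := mul_le_mul_of_nonneg_right hB0 hv
  have hB1' := mul_le_mul_of_nonneg_right hB1 hv
  have hP : (etP c v1 v2 d : ℝ) = SG * ((d.p0 : ℝ) + d.p3 + d.p4 + xk c) +
      2 * ((c.b1q : ℝ) * v1 + c.b2q * v2 + OO * ((c.b1p : ℝ) + c.b2p)) := by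
    unfold etP
    push_cast
    ring
  have hM : (etM G c v1 v2 d : ℝ) = SG * ((d.q0 : ℝ) + d.q3 + d.q4) +
      2 * ((c.b1p : ℝ) * v1 + c.b2p * v2 + OO * ((c.b1q : ℝ) + c.b2q)) +
      ((bif omB c then beM (G.th % 8) G.g1 G.g2 v1 v2 else 0 : ℕ) : ℝ) +
      ((bif thB G c then slpT G.th G.g1 else 0 : ℕ) : ℝ) := by
    unfold etM
    push_cast
    ring
  have hF := hL.fin
  rw [hP, hM] at hE
  rw [hG]
  unfold ell rw₁ rw₂
  generalize (bif omB c then cA1 G.th G.g1 G.g2 else 0 : ℕ) = A1 at hF ⊢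
  generalize (bif omB c then cB1 G.th v1 v2 else 0 : ℕ) = B1 at hF ⊢
  generalize (if thB G c then pK G.th / 16 * (pGA G.th * (G.g1 / SG) / 2 ^ 22) else 0 : ℝ) = c2
    at hB1' ⊢
  clear hG
  generalize (bif thB G c then CKAP / jR G.g1 G.g2 v1 v2 + 1 else 0 : ℕ) = TT at hT hF
  generalize (etM G c v1 v2 d - etP c v1 v2 d : ℕ) = e1 at hE hF
  generalize (etP c v1 v2 d - etM G c v1 v2 d : ℕ) = e2 at hE hF
  have hF' := (Nat.cast_lt (α := ℝ)).2 hF
  push_cast at hF'
  generalize ((bif omB c then beM (G.th % 8) G.g1 G.g2 v1 v2 else 0 : ℕ) : ℝ) = bz at hE hB0'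
  generalize ((bif thB G c then slpT G.th G.g1 else 0 : ℕ) : ℝ) = be1 at hE hB1'
  generalize (if omB c then Real.pi * thQ (thB G c) (laB G c) (G.g1 / SG) (G.g2 / SG)
        (v1 / SG - 2) (v2 / SG - 2) / (10 * Real.sqrt 5) else 0) = c0 at hB0' ⊢
  generalize (if thB G c then Real.pi * cS / (10 * Real.sqrt 5) else 0) = c1 at hB1' ⊢
  generalize (if thB G c then Real.pi * cS * cA /
      Real.sqrt (Jq (G.g1 / SG) (G.g2 / SG) (v1 / SG - 2) (v2 / SG - 2)) else 0) = T0 at hT ⊢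
  generalize (if omB c then IP K (G.g1 / SG) (G.g2 / SG) (v1 / SG - 2) (v2 / SG - 2) else 0) = I0
    at H1 ⊢
  rw [SG_eq] at *
  rw [OO_eq] at hE
  linarith

/-- `Fr.low` at `y = -(ya, yb)/16`, `star_ind` for the bound `rpB` -/
theorem ell_nonneg {K : Set (Fin 2 → ℝ)} {G : Gx} {B : Bx} (hB : okB B = true) (c : Cm) {u₁ u₂ : ℝ}
    (r1 : rw₁ K (G.g1 / SG) (G.g2 / SG) u₁ = 0) (r2 : rw₂ K (G.g1 / SG) (G.g2 / SG) u₂ = 0)
    (hT : Tru G B K u₁ u₂) : 0 ≤ ell K G B c u₁ u₂ := by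
  obtain ⟨g₁, g₂, v₁, v₂, J, hF, hS, d1, d2⟩ := hT
  have hg : 0 < g₁ + g₂ := by
    have := hF.g12
    have := hF.g2pos
    linarith
  have hlow := hF.low ![-(c.ya : ℝ) / 16, -(c.yb : ℝ) / 16]
  simp only [Rq, Matrix.cons_val_zero, Matrix.cons_val_one] at hlow
  have hP := star_ind hB hg hS (fun a b => (5 * SG - a - b) * 256 + a * (c.ya * c.ya) +
      b * (c.yb * c.yb) ≤ ((max (max (rq c B.t0 B.f0) (rq c B.t0 B.f1))
        (max (rq c B.t1 B.f0) (rq c B.t1 B.f1)) : ℕ) : ℝ))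
    (fun a b a' b' x hx h1 h2 => by
      have k1 := mul_le_mul_of_nonneg_left h1 (sub_nonneg.2 hx.2)
      have k2 := mul_le_mul_of_nonneg_left h2 hx.1
      linarith)
    (fun t f ht hf e => by
      have k1 : rq c t f ≤ max (max (rq c B.t0 B.f0) (rq c B.t0 B.f1))
          (max (rq c B.t1 B.f0) (rq c B.t1 B.f1)) := by
        rcases ht with rfl | rfl <;> rcases hf with rfl | rfl
        · exact (le_max_left _ _).trans (le_max_left _ _)
        · exact (le_max_right _ _).trans (le_max_left _ _)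
        · exact (le_max_left _ _).trans (le_max_right _ _)
        · exact (le_max_right _ _).trans (le_max_right _ _)
      refine le_trans ?_ (Nat.cast_le.2 k1)
      have k2 : (5 * SG - t : ℝ) ≤ ((5 * SG - t : ℕ) : ℝ) := by
        rcases le_total t (5 * SG) with hle | hle
        · rw [Nat.cast_sub hle]
          push_cast
          exact le_rfl
        · have : ((5 * SG : ℕ) : ℝ) ≤ t := Nat.cast_le.2 hle
          push_cast at this
          have k3 : (0 : ℝ) ≤ ((5 * SG - t : ℕ) : ℝ) := Nat.cast_nonneg _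
          linarith
      unfold rq
      generalize (5 * SG - t : ℕ) = w at k2
      push_cast
      linarith)
  unfold ell
  rw [r1, r2, mul_zero, mul_zero, sub_zero, sub_zero]
  refine mul_nonneg (by positivity) ?_
  unfold rpB
  generalize (max (max (rq c B.t0 B.f0) (rq c B.t0 B.f1))
    (max (rq c B.t1 B.f0) (rq c B.t1 B.f1)) : ℕ) = Mx at hP
  push_cast
  rw [SG_eq] at *
  rw [OO_eq]
  have a1 : 9437184 * (u₁ - v₁) ≤ (G.dl : ℝ) := by
    have := neg_abs_le (v₁ - u₁)
    linarith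
  have a2 : 9437184 * (u₂ - v₂) ≤ (G.dl : ℝ) := by
    have := neg_abs_le (v₂ - u₂)
    linarith
  have k1 := mul_le_mul_of_nonneg_right a1 (Nat.cast_nonneg (α := ℝ) c.ya)
  have k2 := mul_le_mul_of_nonneg_right a2 (Nat.cast_nonneg (α := ℝ) c.yb)
  linarith

/-- `VQ_conv` twice (`seg_ex`), `ell` is affine in `u` -/
theorem leaf_sound {G : Gx} {B : Bx} {s : St} {c : Cm} {d0 d1 d2 d3 : Vd}
    (h : leaf G B s c d0 d1 d2 d3 = true) {K : Set (Fin 2 → ℝ)} {u₁ u₂ : ℝ}
    (r1 : rw₁ K (G.g1 / SG) (G.g2 / SG) u₁ = 0) (r2 : rw₂ K (G.g1 / SG) (G.g2 / SG) u₂ = 0)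
    (hU : InU B u₁ u₂) (hT : Tru G B K u₁ u₂) (hs : StOK s K) {b : ℕ}
    (hX : RowOK K c.xa b) (hb : b < 2 ^ 63) :
    G.th % 8 ≤ 2 ∧ VQ K true (Nat.beq (G.th % 8) 1) (Nat.beq (G.th % 8) 2) (G.g1 / SG) (G.g2 / SG) u₁ u₂
        (lG (Nat.beq (G.th % 8) 1) G.th K (G.g1 / SG) (G.g2 / SG) u₁ u₂) := by
  unfold leaf at h
  simp only [Bool.and_eq_true, Nat.ble_eq] at h
  obtain ⟨⟨⟨⟨⟨hB, hc⟩, h0⟩, h1⟩, h2⟩, h3⟩ := h
  have hK : Iso K := by
    obtain ⟨g₁, g₂, v₁, v₂, J, hF, -⟩ := hT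
    exact hF.iso
  have hl := ell_nonneg hB c r1 r2 hT
  obtain ⟨hth, q0⟩ := vtx_sound hK hs hX hb hc h0
  have q1 := (vtx_sound hK hs hX hb hc h1).2
  have q2 := (vtx_sound hK hs hX hb hc h2).2
  have q3 := (vtx_sound hK hs hX hb hc h3).2
  obtain ⟨t, ht, et⟩ := seg_ex hU.1 hU.2.1
  obtain ⟨r, hr, er⟩ := seg_ex hU.2.2.1 hU.2.2.2
  have q := VQ_conv hK ht (VQ_conv hK hr q0 q1) (VQ_conv hK hr q2 q3)
  have eu₁ : u₁ = (1 - t) * ((B.a0 : ℝ) / SG - 2) + t * ((B.a1 : ℝ) / SG - 2) := by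
    rw [SG_eq] at *
    linarith
  have eu₂ : u₂ = (1 - r) * ((B.b0 : ℝ) / SG - 2) + r * ((B.b1 : ℝ) / SG - 2) := by
    rw [SG_eq] at *
    linarith
  have q' : VQ K (omB c) (thB G c) (laB G c) (G.g1 / SG) (G.g2 / SG) u₁ u₂
      (ell K G B c u₁ u₂ + if omB c then lG (thB G c) G.th K (G.g1 / SG) (G.g2 / SG) u₁ u₂ else 0) := by
    convert q using 1
    · ring
    · ring
    · rw [eu₁]
      ring
    · rw [eu₂]
      ring
    · rw [eu₁, eu₂]
      obtain ⟨a, p, q, r, s, e⟩ := lG_aff (thB G c) G.th K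
      simp only [e]
      unfold ell rw₁ rw₂
      split_ifs <;> ring
  have ho : omB c = true := by
    by_contra hn
    have hn' : omB c = false := by simpa using hn
    have ht' : thB G c = false := by simp [thB, hn']
    have := q'.2.2
    simp only [hn', ht', Bool.false_eq_true, if_false] at this
    linarith
  have ht' : thB G c = Nat.beq (G.th % 8) 1 := by simp [thB, ho]
  have hl' : laB G c = Nat.beq (G.th % 8) 2 := by simp [laB, ho]
  rw [if_pos ho, ho, ht', hl'] at q'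
  refine ⟨hth ho, q'.1, q'.2.1, ?_⟩
  have := q'.2.2
  linarith

end Pool.Agent.P.MP_2e1554_gt.Chk
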