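import Pool.Agent.P.MP_2e1554_gt.IsoSem

/-! Facts on the tables of the monomials, by evaluation. -/

open MeasureTheory Set Finset

namespace Pool.Agent.P.MP_2e1554_gt.Chk

theorem YU_spec13 : 3 ≤ 13 → ∀ i < 56, ∀ k < 20, lane (YU 13) (lay k i) ≤ 2 ^ 31 ∧ lane (YL 13) (lay k i) ≤ 2 ^ 31 ∧
    yU 13 i * (if 0 ≤ yU 13 i then sU (tp 13) k else sL (tp 13) k) * 2 ^ 24 ≤
      ((lane (YU 13) (lay k i) : ℤ) - 2 ^ 30) * yden 13 ∧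
    ((lane (YL 13) (lay k i) : ℤ) - 2 ^ 30) * yden 13 ≤
      yL 13 i * (if 0 ≤ yL 13 i then sL (tp 13) k else sU (tp 13) k) * 2 ^ 24 := by
  decide +kernel
theorem YU_spec14 : 3 ≤ 14 → ∀ i < 56, ∀ k < 20, lane (YU 14) (lay k i) ≤ 2 ^ 31 ∧ lane (YL 14) (lay k i) ≤ 2 ^ 31 ∧
    yU 14 i * (if 0 ≤ yU 14 i then sU (tp 14) k else sL (tp 14) k) * 2 ^ 24 ≤
      ((lane (YU 14) (lay k i) : ℤ) - 2 ^ 30) * yden 14 ∧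
    ((lane (YL 14) (lay k i) : ℤ) - 2 ^ 30) * yden 14 ≤
      yL 14 i * (if 0 ≤ yL 14 i then sL (tp 14) k else sU (tp 14) k) * 2 ^ 24 := by
  decide +kernel
theorem YU_spec15 : 3 ≤ 15 → ∀ i < 56, ∀ k < 20, lane (YU 15) (lay k i) ≤ 2 ^ 31 ∧ lane (YL 15) (lay k i) ≤ 2 ^ 31 ∧
    yU 15 i * (if 0 ≤ yU 15 i then sU (tp 15) k else sL (tp 15) k) * 2 ^ 24 ≤
      ((lane (YU 15) (lay k i) : ℤ) - 2 ^ 30) * yden 15 ∧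
    ((lane (YL 15) (lay k i) : ℤ) - 2 ^ 30) * yden 15 ≤
      yL 15 i * (if 0 ≤ yL 15 i then sL (tp 15) k else sU (tp 15) k) * 2 ^ 24 := by
  decide +kernel
theorem YU_spec16 : 3 ≤ 16 → ∀ i < 56, ∀ k < 20, lane (YU 16) (lay k i) ≤ 2 ^ 31 ∧ lane (YL 16) (lay k i) ≤ 2 ^ 31 ∧
    yU 16 i * (if 0 ≤ yU 16 i then sU (tp 16) k else sL (tp 16) k) * 2 ^ 24 ≤
      ((lane (YU 16) (lay k i) : ℤ) - 2 ^ 30) * yden 16 ∧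
    ((lane (YL 16) (lay k i) : ℤ) - 2 ^ 30) * yden 16 ≤
      yL 16 i * (if 0 ≤ yL 16 i then sL (tp 16) k else sU (tp 16) k) * 2 ^ 24 := by
  decide +kernel

end Pool.Agent.P.MP_2e1554_gt.Chk
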