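import Pool.Agent.P.MP_2e1554_gt.LocD

/-! A tetrahedron of volume one with centroid at the origin; the supremum form of the theorem. -/

open MeasureTheory Set Finset Matrix

namespace Pool.Agent.P.MP_2e1554_gt

noncomputable def tetV : Fin 4 → Fin 3 → ℝ := ![![3 / 2, 0, 0], ![0, 1, 0], ![0, 0, 1], ![-3 / 2, -1, -1]]

lemma tetV_mat : vmat tetV = !![1, 1, 1, 1; 3 / 2, 0, 0, -3 / 2; 0, 1, 0, -1; 0, 0, 1, -1] := by
  ext i j
  fin_cases i <;> fin_cases j <;> rfl

lemma tetV_det : (vmat tetV).det = -6 := by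
  rw [tetV_mat, Matrix.det_succ_row_zero]
  simp [Fin.sum_univ_succ, Matrix.det_fin_three, Fin.succAbove]
  norm_num

lemma exists_tet : ∃ w : Fin 4 → Fin 3 → ℝ, AffineIndependent ℝ w ∧
    (interior (convexHull ℝ (Set.range w))).Nonempty ∧ volume (convexHull ℝ (Set.range w)) = 1 ∧
    ∀ i, ∫ x in convexHull ℝ (Set.range w), x i = 0 := by
  have hd : (vmat tetV).det ≠ 0 := by rw [tetV_det]; norm_num
  have hi : |((vmat tetV)⁻¹).det| = 1 / 6 := by
    rw [det_nonsing_inv, tetV_det, Ring.inverse_eq_inv']; norm_num [abs_of_neg]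
  have ha := (affInd_iff tetV).2 hd
  refine ⟨tetV, ha, ?_, ?_, fun i => ?_⟩
  · rw [interior_convexHull_nonempty_iff_affineSpan_eq_top]
    exact ha.affineSpan_eq_top_iff_card_eq_finrank_add_one.2 (by simp)
  · have h := simplex_vol hd
    rw [hi] at h
    have h1 : volume.real (convexHull ℝ (Set.range tetV)) = 1 := by
      norm_num [Nat.factorial] at h ⊢; linarith
    rw [← ENNReal.toReal_eq_one_iff]; exact h1
  · have h := simplex_transfer hd (h := fun y => ∑ j, tetV j i * y j)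
      (Poly.sum _ fun j _ => (Poly.const _).mul (Poly.coord j)) 1 (by
        intro s _ y; simp only [Pi.smul_apply, smul_eq_mul, pow_one, Finset.mul_sum]
        exact Finset.sum_congr rfl fun j _ => by ring)
    have e1 : ∫ y : Fin 4 → ℝ, wn y * ∑ j, tetV j i * y j = 0 := by
      simp only [Finset.mul_sum]
      rw [integral_finsetSum _ fun j _ => ((Poly.const _).mul (Poly.coord j)).integrable]
      have : ∀ j, ∫ y : Fin 4 → ℝ, wn y * (tetV j i * y j) = tetV j i := fun j => by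
        simp only [mul_left_comm (wn _), integral_const_mul, moment1, mul_one]
      simp only [this]
      fin_cases i <;> simp [tetV, Fin.sum_univ_succ] <;> norm_num
    have e2 : ∀ x : Fin 3 → ℝ, ∑ j, tetV j i * ((vmat tetV)⁻¹ *ᵥ ins 0 1 x) j = x i := fun x => by
      have e : vmat tetV *ᵥ ((vmat tetV)⁻¹ *ᵥ ins 0 1 x) = ins 0 1 x := by
        rw [mulVec_mulVec, mul_nonsing_inv _ (Ne.isUnit hd), one_mulVec]
      rw [vmat_mulVec] at e
      have := congrFun (ins_inj e).2 i
      simpa [Finset.sum_apply, mul_comm] using this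
    simp only [e2] at h
    rw [e1, hi] at h
    norm_num [Nat.factorial] at h
    exact h

theorem sup_form
    (h : ∀ K : Set (Fin 3 → ℝ), Convex ℝ K → IsCompact K → (interior K).Nonempty → volume K = 1 →
      (∀ i, ∫ x in K, x i = 0) →
      (Matrix.of fun i j : Fin 3 => ∫ x in K, x i * x j).det ≤ 9 / 8000 ∧
      ((Matrix.of fun i j : Fin 3 => ∫ x in K, x i * x j).det = 9 / 8000 ↔
        ∃ w : Fin 4 → Fin 3 → ℝ, AffineIndependent ℝ w ∧ K = convexHull ℝ (Set.range w))) :
    IsGreatest {d : ℝ | ∃ K : Set (Fin 3 → ℝ), Convex ℝ K ∧ IsCompact K ∧ (interior K).Nonempty ∧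
        volume K = 1 ∧ (∀ i, ∫ x in K, x i = 0) ∧
        d = (Matrix.of fun i j : Fin 3 => ∫ x in K, x i * x j).det} (9 / 8000) ∧
      ∀ K : Set (Fin 3 → ℝ), Convex ℝ K → IsCompact K → (interior K).Nonempty → volume K = 1 →
        (∀ i, ∫ x in K, x i = 0) →
        ((Matrix.of fun i j : Fin 3 => ∫ x in K, x i * x j).det = 9 / 8000 ↔
          ∃ w : Fin 4 → Fin 3 → ℝ, AffineIndependent ℝ w ∧ K = convexHull ℝ (Set.range w)) := by
  refine ⟨⟨?_, ?_⟩, fun K a b c d e => (h K a b c d e).2⟩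
  · obtain ⟨w, a, b, c, d⟩ := exists_tet
    exact ⟨_, convex_convexHull ℝ _, compact_simplex w, b, c, d,
      ((h _ (convex_convexHull ℝ _) (compact_simplex w) b c d).2.2 ⟨w, a, rfl⟩).symm⟩
  · rintro _ ⟨K, a, b, c, d, e, rfl⟩
    exact (h K a b c d e).1

end Pool.Agent.P.MP_2e1554_gt
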