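import Pool.Agent.P.MP_2e1554_gt.IsoWA
import Pool.Agent.P.MP_2e1554_gt.IsoKurt

/-! Inequalities between the supports and the moments. -/

open MeasureTheory Set Finset

namespace Pool.Agent.P.MP_2e1554_gt.Chk

theorem wb_m1 {p : ℝ → ℝ} {α β V : ℝ} (h : Marg 1 p α β V) :
    6 ≤ -(α ^ 2 + 4 * (α * β) + β ^ 2) := by
  have key := h.cut (-2 * (α ^ 2 + 4 * (α * β) + β ^ 2)) (12 * (α + β)) (-12) 0 0 0 0
    fun τ _ Ψ e => by
      have h3 := sub_nonneg.2 h.lt.le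
      have h4 : 0 ≤ (β - α) * ((τ - α) * (τ - β)) ^ 2 := by positivity
      subst e
      linarith
  simp only [zero_mul, add_zero, integral_zero] at key
  have := nonneg_of_mul_nonneg_left key h.pos
  linarith

theorem wb_m2 {p : ℝ → ℝ} {α β V : ℝ} (h : Marg 1 p α β V) : α ^ 2 + α * β + β ^ 2 ≤ 6 := by
  have key := h.cut (2 * (α * β - (α + β) ^ 2)) (6 * (α + β)) 12 0 0 0 0
    fun τ hτ Ψ e => by
      have h1 := sub_nonneg.2 hτ.1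
      have h2 := sub_nonneg.2 hτ.2
      have h3 := sub_nonneg.2 h.lt.le
      have h4 : 0 ≤ (β - α) * ((τ - α) * (β - τ) * (τ + (α + β)) ^ 2) := by positivity
      subst e
      linarith
  simp only [zero_mul, add_zero, integral_zero] at key
  have := nonneg_of_mul_nonneg_left key h.pos
  linarith

theorem wb_m3 {p : ℝ → ℝ} {α β V : ℝ} (h : Marg 1 p α β V) (e w : ℝ)
    (hw : w = α ^ 2 + α * β + β ^ 2 - (α + β) * e) :
    ∫ t in Icc α β, (3 * t ^ 4 - 4 * e * t ^ 3) * p t ≤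
      (12 * w - 6 * e ^ 2 - w ^ 2 - 2 * e * (α * β) * (e - (α + β))) / 5 * V := by
  have key := h.cut (-(w ^ 2 + 2 * e * (α * β) * (e - (α + β))) / 5)
    (6 / 5 * (α * β * (e - (α + β)) - e * w)) (-(6 / 5) * (e ^ 2 - 2 * w)) (-(4 * e)) 3 0 0
    fun τ _ Ψ e1 => by
      have h3 := sub_nonneg.2 h.lt.le
      have h4 : 0 ≤ (β - α) * ((τ - α) * (τ - β) * (τ - e + (α + β))) ^ 2 / 10 := by positivity
      subst e1 hw
      linarith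
  have e2 : (fun t => (3 * t ^ 4 - 4 * e * t ^ 3) * p t) =
      fun t => (-(4 * e) * t ^ 3 + 3 * t ^ 4 + 0 * t ^ 5 + 0 * t ^ 6) * p t := by
    funext t
    ring
  rw [e2]
  linarith

/-- `Iso.marg_dir` for the unit vector `(ex z, ey z) / √r2`, `a = 4096 √r2 β`, `b = -4096 √r2 α`, and
`Marg.cut` (`s = α + β`, `p = α β`) three times.
(1) `c2 = -12, c1 = 12 s, c0 = -2 (α² + 4 p + β²)`: `Ψ - chord = (t-α)²(t-β)²`.
(2) `c2 = 12, c1 = 6 s, c0 = 2 (p - s²)`: `Ψ - chord = (t-α)(β-t)(t+s)²`.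
(3) `c4 = 1, c3 = -4e/3`, `w = s² - p - s e`, `c2 = -(2/5)(e² - 2w)`, `c1 = (2/5)(p(e-s) - e w)`,
`c0 = -(w² + 2 e p (e-s))/15`: `Ψ - chord = ((t-α)(t-β)(t-e+s))²/30`, `e = E / √r2` -/
theorem sup_ex {K : Set (Fin 2 → ℝ)} (hK : Iso K) {z : ℕ} (hz : z < 56) : ∃ a b : ℝ,
    (∀ y ∈ K, -b ≤ lin z y ∧ lin z y ≤ a) ∧ (∃ y ∈ K, lin z y = a) ∧ (∃ y ∈ K, lin z y = -b) ∧
    6 * 2 ^ 24 * (r2 z : ℝ) ≤ 4 * a * b - a ^ 2 - b ^ 2 ∧
    a ^ 2 - a * b + b ^ 2 ≤ 6 * 2 ^ 24 * (r2 z : ℝ) ∧ ∀ E : ℝ,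
      ∫ y in K, (3 * ((ex z : ℝ) * y 0 + (ey z : ℝ) * y 1) ^ 4 -
          4 * E * ((ex z : ℝ) * y 0 + (ey z : ℝ) * y 1) ^ 3) ≤
        fCr (r2 z * 2 ^ 24) (E * 4096) a b / (5 * 2 ^ 48) * volume.real K := by
  have h0 : (0 : ℝ) < r2 z := by
    have := (r2_rng hz).1
    exact_mod_cast (by omega : 0 < r2 z)
  obtain ⟨r, hr, hr2⟩ : ∃ r : ℝ, 0 < r ∧ r ^ 2 = r2 z := ⟨_, Real.sqrt_pos.2 h0, Real.sq_sqrt h0.le⟩
  obtain ⟨p, α, β, hM, hin, ⟨y0, m0, e0⟩, ⟨y1, m1, e1⟩, hI⟩ :=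
    hK.marg_dir (u := ![(ex z : ℝ) / r, (ey z : ℝ) / r]) (by
      simp only [dotProduct, Fin.sum_univ_two, Matrix.cons_val_zero, Matrix.cons_val_one]
      field_simp
      rw [hr2, r2_eq])
  have eT : ∀ y : Fin 2 → ℝ, (ex z : ℝ) * y 0 + (ey z : ℝ) * y 1 =
      r * (![(ex z : ℝ) / r, (ey z : ℝ) / r] ⬝ᵥ y) := fun y => by
    simp only [dotProduct, Fin.sum_univ_two, Matrix.cons_val_zero, Matrix.cons_val_one]
    field_simp
  have q1 := mul_le_mul_of_nonneg_left (wb_m1 hM) (sq_nonneg r)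
  have q2 := mul_le_mul_of_nonneg_left (wb_m2 hM) (sq_nonneg r)
  refine ⟨4096 * (r * β), -(4096 * (r * α)), fun y hy => ?_, ⟨y1, m1, by rw [lin, eT, e1]⟩,
    ⟨y0, m0, by rw [lin, eT, e0, neg_neg]⟩, by rw [← hr2]; linarith, by rw [← hr2]; linarith,
    fun E => ?_⟩
  · rw [lin, eT, neg_neg]
    have h1 := mul_le_mul_of_nonneg_left (hin y hy).1 hr.le
    have h2 := mul_le_mul_of_nonneg_left (hin y hy).2 hr.le
    constructor <;> linarith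
  · obtain ⟨e, rfl⟩ : ∃ e, E = e * r := ⟨E / r, by field_simp⟩
    have h1 := hI (fun t => 3 * t ^ 4 - 4 * e * t ^ 3) (by fun_prop)
    have e2 : (fun y : Fin 2 → ℝ => 3 * ((ex z : ℝ) * y 0 + (ey z : ℝ) * y 1) ^ 4 -
        4 * (e * r) * ((ex z : ℝ) * y 0 + (ey z : ℝ) * y 1) ^ 3) =
        fun y => r ^ 4 * (3 * (![(ex z : ℝ) / r, (ey z : ℝ) / r] ⬝ᵥ y) ^ 4 -
          4 * e * (![(ex z : ℝ) / r, (ey z : ℝ) / r] ⬝ᵥ y) ^ 3) := by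
      funext y
      rw [eT]
      ring
    rw [e2, integral_const_mul, h1, ← hr2]
    refine (mul_le_mul_of_nonneg_left (wb_m3 hM e _ rfl) (by positivity)).trans (le_of_eq ?_)
    rw [fCr]
    ring

/-- the supports lie in the cell -/
theorem sup_cell {w : Wt} {K : Set (Fin 2 → ℝ)} (hw : WOK w K) {z : ℕ} (hz : z < 56) {a b : ℝ}
    (h1 : ∀ y ∈ K, -b ≤ lin z y ∧ lin z y ≤ a) (h2 : ∃ y ∈ K, lin z y = a)
    (h3 : ∃ y ∈ K, lin z y = -b) : (dg w.wl z : ℝ) ≤ a ∧ a ≤ dg w.wh z ∧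
      (dg w.wl ((z + 28) % 56) : ℝ) ≤ b ∧ b ≤ dg w.wh ((z + 28) % 56) := by
  have hy : (z + 28) % 56 < 56 := Nat.mod_lt _ (by norm_num)
  obtain ⟨y2, m2, e2⟩ := h2
  obtain ⟨y3, m3, e3⟩ := h3
  obtain ⟨y4, m4, e4⟩ := hw.lo z hz
  obtain ⟨y5, m5, e5⟩ := hw.lo _ hy
  have e6 := hw.hi _ hy y3 m3
  rw [lin_anti hz] at e5 e6
  exact ⟨e4.trans (h1 y4 m4).2, e2 ▸ hw.hi z hz y2 m2, by linarith [(h1 y5 m5).1], by linarith⟩

/-- with `f a b = 4ab - a² - b²`: `f A τ - f a b = (A-a)(4b-a-A) + (τ-b)(4A-b-τ)` -/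
theorem lensL_ok {w : Wt} {K : Set (Fin 2 → ℝ)} (hK : Iso K) (hw : WOK w K) {z τ : ℕ} (hz : z < 56)
    (h : lensL w z ((z + 28) % 56) τ = true) : ∃ y ∈ K, (τ : ℝ) ≤ lin ((z + 28) % 56) y := by
  obtain ⟨a, b, h1, h2, h3, h4, -⟩ := sup_ex hK hz
  obtain ⟨c1, c2, c3, c4⟩ := sup_cell hw hz h1 h2 h3
  obtain ⟨y, m, e⟩ := h3
  simp only [lensL, lane_eq, Bool.and_eq_true, Nat.ble_eq, Nat.blt_eq] at h
  obtain ⟨⟨k1, k2⟩, k3⟩ := h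
  have k1' : (dg w.wh z : ℝ) ≤ 2 * dg w.wl ((z + 28) % 56) := by exact_mod_cast k1
  have k2' : (τ : ℝ) ≤ 2 * dg w.wh z := by exact_mod_cast k2
  have k3' : 4 * (dg w.wh z : ℝ) * τ < dg w.wh z * dg w.wh z + τ * τ + 100663296 * r2 z := by
    exact_mod_cast k3
  refine ⟨y, m, ?_⟩
  rw [lin_anti hz, e, neg_neg]
  by_contra hc
  have h5 := not_le.1 hc
  have h6 : 0 ≤ ((dg w.wh z : ℝ) - a) * (4 * b - a - dg w.wh z) :=
    mul_nonneg (by linarith) (by linarith)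
  have h7 : 0 ≤ ((τ : ℝ) - b) * (4 * dg w.wh z - b - τ) := mul_nonneg (by linarith) (by linarith)
  linarith

/-- with `g a b = a² - ab + b²`: `g a b - g A τ = (a-A)(a+A-b) + (b-τ)(b+τ-A)` -/
theorem lensH_ok {w : Wt} {K : Set (Fin 2 → ℝ)} (hK : Iso K) (hw : WOK w K) {z τ : ℕ} (hz : z < 56)
    (h : lensH w z ((z + 28) % 56) τ = true) : ∀ y ∈ K, lin ((z + 28) % 56) y ≤ (τ : ℝ) := by
  obtain ⟨a, b, h1, h2, h3, -, h4, -⟩ := sup_ex hK hz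
  obtain ⟨c1, c2, c3, c4⟩ := sup_cell hw hz h1 h2 h3
  simp only [lensH, lane_eq, Bool.and_eq_true, Nat.ble_eq, Nat.blt_eq] at h
  obtain ⟨⟨k1, k2⟩, k3⟩ := h
  have k1' : (dg w.wh ((z + 28) % 56) : ℝ) ≤ 2 * dg w.wl z := by exact_mod_cast k1
  have k2' : (dg w.wl z : ℝ) ≤ 2 * τ := by exact_mod_cast k2
  have k3' : 100663296 * (r2 z : ℝ) + dg w.wl z * τ < dg w.wl z * dg w.wl z + τ * τ := by
    exact_mod_cast k3
  intro y m
  rw [lin_anti hz]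
  by_contra hc
  have h5 : (τ : ℝ) < b := by linarith [not_le.1 hc, (h1 y m).1]
  have h6 : 0 ≤ (a - dg w.wl z) * (a + dg w.wl z - b) := mul_nonneg (by linarith) (by linarith)
  have h7 : 0 ≤ (b - τ) * (b + τ - dg w.wl z) := mul_nonneg (by linarith) (by linarith)
  linarith

end Pool.Agent.P.MP_2e1554_gt.Chk
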