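import Pool.Agent.P.MP_2e1554_gt.LocF

open MeasureTheory

theorem Pool.Agent.P.MP_2e1554_gt.JoinedLocalMax.result (n : ℕ) (hn : 1 ≤ n) :
    ∃ η : ℝ, 0 < η ∧ ∀ v : Fin (n + 1) → Fin n → ℝ, AffineIndependent ℝ v →
      ∃ δ : ℝ, 0 < δ ∧ ∀ K : Set (Fin n → ℝ), Convex ℝ K → IsCompact K → (interior K).Nonempty →
        volume K = 1 → (∀ i, ∫ x in K, x i = 0) →
        ((K ⊆ convexHull ℝ (Set.range v) ∧
            volume (convexHull ℝ (Set.range v)) ≤ ENNReal.ofReal (1 + η)) ∨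
          (volume (convexHull ℝ (Set.range v)) = 1 ∧
            Metric.hausdorffDist K (convexHull ℝ (Set.range v)) < δ)) →
        (Matrix.of fun i j : Fin n => ∫ x in K, x i * x j).det ≤
            (n.factorial : ℝ) ^ 2 / ((n + 1) ^ (n + 1) * (n + 2) ^ n) ∧
          ((Matrix.of fun i j : Fin n => ∫ x in K, x i * x j).det =
            (n.factorial : ℝ) ^ 2 / ((n + 1) ^ (n + 1) * (n + 2) ^ n) ↔
            ∃ w : Fin (n + 1) → Fin n → ℝ, AffineIndependent ℝ w ∧
              K = convexHull ℝ (Set.range w)) ∧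
          ∃ w : Fin (n + 1) → Fin n → ℝ, AffineIndependent ℝ w ∧
            K ⊆ convexHull ℝ (Set.range w) ∧
            (Matrix.of fun i j : Fin n => ∫ x in K, x i * x j).det ≤
              (n.factorial : ℝ) ^ 2 / ((n + 1) ^ (n + 1) * (n + 2) ^ n) *
                Real.exp (-(((volume (convexHull ℝ (Set.range w))).toReal - 1) / 4 ^ (n + 1))) :=
  Pool.Agent.P.MP_2e1554_gt.loc_main n hn
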