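import Mathlib

open MeasureTheory Set Finset

namespace Pool.Agent.P.MP_2e1554_gt

/-- exponential weight on the half line -/
noncomputable def w (t : ℝ) : ℝ := if 0 ≤ t then Real.exp (-t) else 0

/-- Laguerre polynomial (times two) -/
def Lg (t : ℝ) : ℝ := t ^ 2 - 4 * t + 2

lemma w_nonneg (t : ℝ) : 0 ≤ w t := by
  unfold w; split_ifs
  · exact (Real.exp_pos _).le
  · exact le_rfl

lemma w_of_nonneg {t : ℝ} (h : 0 ≤ t) : w t = Real.exp (-t) := if_pos h

lemma w_of_neg {t : ℝ} (h : t < 0) : w t = 0 := if_neg (not_le.2 h)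

lemma measurable_w : Measurable w := by
  unfold w
  exact Measurable.ite measurableSet_Ici (by fun_prop) measurable_const

lemma w_mul_eq (f : ℝ → ℝ) :
    (fun t => w t * f t) = (Ici (0 : ℝ)).indicator (fun t => Real.exp (-t) * f t) := by
  ext t
  by_cases h : 0 ≤ t
  · simp [w, h]
  · simp [w, h]

lemma integrable_w_pow (k : ℕ) : Integrable (fun t => w t * t ^ k) := by
  rw [w_mul_eq, integrable_indicator_iff measurableSet_Ici, integrableOn_Ici_iff_integrableOn_Ioi]
  have h := Real.GammaIntegral_convergent (s := (k : ℝ) + 1) (by positivity)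
  simpa using h

lemma integral_w_pow (k : ℕ) : ∫ t, w t * t ^ k = (k.factorial : ℝ) := by
  rw [w_mul_eq, integral_indicator measurableSet_Ici, integral_Ici_eq_integral_Ioi,
    ← Real.Gamma_nat_eq_factorial, Real.Gamma_eq_integral (by positivity)]
  simp

lemma integrable_w : Integrable w := by
  simpa using integrable_w_pow 0

lemma integral_w : ∫ t, w t = 1 := by
  simpa using integral_w_pow 0

/-- polynomial growth on the half line -/
def P1 (f : ℝ → ℝ) : Prop :=
  Measurable f ∧ ∃ C : ℝ, ∃ k : ℕ, ∀ t, 0 ≤ t → |f t| ≤ C * (1 + t) ^ k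

lemma integrable_w_one_add_pow (k : ℕ) : Integrable (fun t => w t * (1 + t) ^ k) := by
  have : (fun t => w t * (1 + t) ^ k) =
      fun t => ∑ m ∈ range (k + 1), (k.choose m : ℝ) * (w t * t ^ m) := by
    ext t
    rw [add_comm 1 t, add_pow, Finset.mul_sum]
    refine Finset.sum_congr rfl fun m _ => ?_
    ring
  rw [this]
  exact integrable_finsetSum _ fun m _ => (integrable_w_pow m).const_mul _

lemma P1.integrable {f : ℝ → ℝ} (hf : P1 f) : Integrable (fun t => w t * f t) := by
  obtain ⟨hm, C, k, hC⟩ := hf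
  refine ((integrable_w_one_add_pow k).const_mul C).mono'
    (measurable_w.mul hm).aestronglyMeasurable (ae_of_all _ fun t => ?_)
  by_cases h : 0 ≤ t
  · rw [Real.norm_eq_abs, abs_mul, abs_of_nonneg (w_nonneg t)]
    have := mul_le_mul_of_nonneg_left (hC t h) (w_nonneg t)
    linarith
  · simp [w_of_neg (not_le.1 h)]

lemma P1.mul {f g : ℝ → ℝ} (hf : P1 f) (hg : P1 g) : P1 (fun t => f t * g t) := by
  obtain ⟨hm, C, k, hC⟩ := hf
  obtain ⟨hm', C', k', hC'⟩ := hg
  refine ⟨hm.mul hm', C * C', k + k', fun t ht => ?_⟩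
  rw [abs_mul, pow_add]
  have := mul_le_mul (hC t ht) (hC' t ht) (abs_nonneg _) ((abs_nonneg _).trans (hC t ht))
  linarith

lemma P1_quad (a b c : ℝ) : P1 (fun t => a * t ^ 2 + b * t + c) := by
  refine ⟨by fun_prop, |a| + |b| + |c|, 2, fun t ht => ?_⟩
  have h1 : |a * t ^ 2 + b * t + c| ≤ |a| * t ^ 2 + |b| * t + |c| := by
    refine (abs_add_le _ _).trans (add_le_add_left ((abs_add_le _ _).trans ?_) _)
    rw [abs_mul, abs_mul, abs_of_nonneg ht, abs_of_nonneg (sq_nonneg t)]
  have ha := abs_nonneg a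
  have hb := abs_nonneg b
  have hc := abs_nonneg c
  have e1 : t ^ 2 ≤ (1 + t) ^ 2 := by nlinarith
  have e2 : t ≤ (1 + t) ^ 2 := by nlinarith
  have e3 : 1 ≤ (1 + t) ^ 2 := by nlinarith
  nlinarith [mul_le_mul_of_nonneg_left e1 ha, mul_le_mul_of_nonneg_left e2 hb,
    mul_le_mul_of_nonneg_left e3 hc]

lemma P1_Lg : P1 Lg := by
  have := P1_quad 1 (-4) 2
  convert this using 2 with t
  unfold Lg; ring

lemma P1.half {f : ℝ → ℝ} (hf : P1 f) : P1 (fun t => f ((1 + t) / 2)) := by
  obtain ⟨hm, C, k, hC⟩ := hf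
  refine ⟨hm.comp (by fun_prop), C * 2 ^ k, k, fun t ht => ?_⟩
  have h0 : 0 ≤ C := by
    have := (abs_nonneg _).trans (hC 0 le_rfl)
    simpa using this
  refine (hC _ (by positivity)).trans ?_
  rw [mul_assoc, ← mul_pow]
  gcongr
  linarith

lemma integral_w_cubic (a b c d : ℝ) :
    ∫ t, w t * (a * t ^ 3 + b * t ^ 2 + c * t + d) = 6 * a + 2 * b + c + d := by
  have : (fun t => w t * (a * t ^ 3 + b * t ^ 2 + c * t + d)) =
      fun t => a * (w t * t ^ 3) + b * (w t * t ^ 2) + c * (w t * t ^ 1) + d * (w t * t ^ 0) := by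
    ext t; ring
  rw [this, integral_add, integral_add, integral_add, integral_const_mul, integral_const_mul,
    integral_const_mul, integral_const_mul, integral_w_pow, integral_w_pow, integral_w_pow,
    integral_w_pow]
  · simp [Nat.factorial]; ring
  all_goals
    first
    | exact (integrable_w_pow _).const_mul _
    | exact ((integrable_w_pow _).const_mul _).add ((integrable_w_pow _).const_mul _)
    | exact (((integrable_w_pow _).const_mul _).add ((integrable_w_pow _).const_mul _)).add
        ((integrable_w_pow _).const_mul _)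

lemma integral_w_left : ∫ t, w t * ((t ^ 2 - 4 * t + 1) * max (1 - t) 0) = 0 := by
  have : (fun t => w t * ((t ^ 2 - 4 * t + 1) * max (1 - t) 0)) =
      (Icc (0 : ℝ) 1).indicator (fun t => Real.exp (-t) * ((t ^ 2 - 4 * t + 1) * (1 - t))) := by
    ext t
    by_cases h : 0 ≤ t
    · by_cases h1 : t ≤ 1
      · rw [indicator_of_mem (by exact ⟨h, h1⟩), w_of_nonneg h, max_eq_left (by linarith)]
      · rw [indicator_of_notMem (fun hh => h1 hh.2), max_eq_right (by linarith)]; simp
    · rw [indicator_of_notMem (fun hh => h hh.1), w_of_neg (not_le.1 h)]; simp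
  rw [this, integral_indicator measurableSet_Icc, integral_Icc_eq_integral_Ioc,
    ← intervalIntegral.integral_of_le zero_le_one]
  have hd : ∀ t ∈ uIcc (0 : ℝ) 1, HasDerivAt (fun t => Real.exp (-t) * (t * (t - 1) ^ 2))
      (Real.exp (-t) * ((t ^ 2 - 4 * t + 1) * (1 - t))) t := by
    intro t _
    have h1 : HasDerivAt (fun t : ℝ => Real.exp (-t)) (Real.exp (-t) * (-1)) t :=
      (hasDerivAt_neg t).exp
    have h2 : HasDerivAt (fun t : ℝ => t * (t - 1) ^ 2) (1 * (t - 1) ^ 2 + t * (2 * (t - 1))) t := by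
      have := ((hasDerivAt_id' t).sub_const 1).fun_pow 2
      exact (hasDerivAt_id' t).fun_mul (this.congr_deriv (by simp))
    exact (h1.fun_mul h2).congr_deriv (by ring)
  rw [intervalIntegral.integral_eq_sub_of_hasDerivAt hd (by
    apply Continuous.intervalIntegrable; fun_prop)]
  simp

lemma chord_in {a : ℝ → ℝ} (ha : ConvexOn ℝ univ a) {x y t : ℝ} (hxy : x < y) (h1 : x ≤ t)
    (h2 : t ≤ y) : a t * (y - x) ≤ a x * (y - t) + a y * (t - x) := by
  have hd : 0 < y - x := by linarith
  have := ha.2 (Set.mem_univ x) (Set.mem_univ y)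
    (show 0 ≤ (y - t) / (y - x) by apply div_nonneg <;> linarith)
    (show 0 ≤ (t - x) / (y - x) by apply div_nonneg <;> linarith) (by field_simp; ring)
  simp only [smul_eq_mul] at this
  have e : (y - t) / (y - x) * x + (t - x) / (y - x) * y = t := by field_simp; ring
  rw [e] at this
  have h3 := mul_le_mul_of_nonneg_right this hd.le
  have e2 : ((y - t) / (y - x) * a x + (t - x) / (y - x) * a y) * (y - x) =
      a x * (y - t) + a y * (t - x) := by field_simp
  linarith

/-- the Jensen gap at the mean is bounded by the Laguerre moment -/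
lemma gap_le {a : ℝ → ℝ} (ha : ConvexOn ℝ univ a) (hp : P1 a) :
    (∫ t, w t * a t) - a 1 ≤ ∫ t, w t * (Lg t * a t) := by
  obtain ⟨s, hs0, hs⟩ : ∃ s : ℝ, 0 ≤ s ∧ s ^ 2 = 3 := ⟨Real.sqrt 3, Real.sqrt_nonneg _, by simp⟩
  have hs1 : 1 < s := by nlinarith
  have hs2 : s < 2 := by nlinarith
  set α := (a (2 - s) - a 1) / (s - 1) with hα
  set β := (a (2 + s) - a 1) / (s + 1) with hβ
  have hα' : a (2 - s) = a 1 + α * (s - 1) := by
    rw [hα, div_mul_cancel₀ _ (by linarith)]; ring
  have hβ' : a (2 + s) = a 1 + β * (s + 1) := by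
    rw [hβ, div_mul_cancel₀ _ (by linarith)]; ring
  clear_value α β
  have key : ∀ t, w t * ((β * t ^ 3 + (a 1 - 5 * β) * t ^ 2 + (5 * β - 4 * a 1) * t + (a 1 - β)))
      + (α + β) * (w t * ((t ^ 2 - 4 * t + 1) * max (1 - t) 0)) ≤
      w t * (Lg t * a t) - w t * a t := by
    intro t
    have hp' : t ^ 2 - 4 * t + 1 = (t - (2 - s)) * (t - (2 + s)) := by nlinarith
    have main : (t ^ 2 - 4 * t + 1) * (a 1 + β * (t - 1) + (α + β) * max (1 - t) 0) ≤
        (t ^ 2 - 4 * t + 1) * a t := by
      rcases le_total t 1 with h | h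
      · rw [max_eq_left (by linarith)]
        rcases le_total t (2 - s) with h' | h'
        · have h3 := chord_in ha (x := t) (y := 1) (t := 2 - s) (by linarith) h' (by linarith)
          have h4 : a 1 + α * (1 - t) ≤ a t := by
            by_contra hc
            push Not at hc
            rw [hα'] at h3
            nlinarith
          apply mul_le_mul_of_nonneg_left (by linarith)
          rw [hp']; apply mul_nonneg_of_nonpos_of_nonpos <;> linarith
        · have h3 := chord_in ha (x := 2 - s) (y := 1) (t := t) (by linarith) h' h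
          have h4 : a t ≤ a 1 + α * (1 - t) := by
            by_contra hc
            push Not at hc
            rw [hα'] at h3
            nlinarith
          apply mul_le_mul_of_nonpos_left (by linarith)
          rw [hp']; apply mul_nonpos_of_nonneg_of_nonpos <;> linarith
      · rw [max_eq_right (by linarith)]
        rcases le_total t (2 + s) with h' | h'
        · have h3 := chord_in ha (x := 1) (y := 2 + s) (t := t) (by linarith) h h'
          have h4 : a t ≤ a 1 + β * (t - 1) := by
            by_contra hc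
            push Not at hc
            rw [hβ'] at h3
            nlinarith
          apply mul_le_mul_of_nonpos_left (by linarith)
          rw [hp']; apply mul_nonpos_of_nonneg_of_nonpos <;> linarith
        · have h3 := chord_in ha (x := 1) (y := t) (t := 2 + s) (by linarith) (by linarith) h'
          have h4 : a 1 + β * (t - 1) ≤ a t := by
            by_contra hc
            push Not at hc
            rw [hβ'] at h3
            nlinarith
          apply mul_le_mul_of_nonneg_left (by linarith)
          rw [hp']; apply mul_nonneg <;> linarith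
    have := mul_le_mul_of_nonneg_left main (w_nonneg t)
    unfold Lg
    nlinarith
  have hi1 : Integrable fun t =>
      w t * ((β * t ^ 3 + (a 1 - 5 * β) * t ^ 2 + (5 * β - 4 * a 1) * t + (a 1 - β))) := by
    have : (fun t => w t *
        ((β * t ^ 3 + (a 1 - 5 * β) * t ^ 2 + (5 * β - 4 * a 1) * t + (a 1 - β)))) =
        fun t => β * (w t * t ^ 3) +
          w t * ((a 1 - 5 * β) * t ^ 2 + (5 * β - 4 * a 1) * t + (a 1 - β)) := by
      ext t; ring
    rw [this]
    exact ((integrable_w_pow 3).const_mul _).add (P1_quad _ _ _).integrable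
  have hmax : P1 (fun t => max (1 - t) 0) := by
    refine ⟨by fun_prop, 1, 0, fun t ht => ?_⟩
    rw [abs_of_nonneg (le_max_right _ _)]
    simp only [pow_zero, mul_one, max_le_iff]
    constructor <;> linarith
  have hq : P1 (fun t => t ^ 2 - 4 * t + 1) := by
    have := P1_quad 1 (-4) 1
    convert this using 2 with t
    ring
  have hi2 : Integrable fun t => w t * ((t ^ 2 - 4 * t + 1) * max (1 - t) 0) :=
    (hq.mul hmax).integrable
  have hi3 := (P1_Lg.mul hp).integrable
  have hi4 := hp.integrable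
  have := integral_mono (hi1.add (hi2.const_mul (α + β))) (hi3.sub hi4) key
  simp only [Pi.add_apply, Pi.sub_apply] at this
  rw [integral_add hi1 (hi2.const_mul _), integral_const_mul, integral_w_left, integral_w_cubic,
    integral_sub hi3 hi4] at this
  linarith

lemma exists_support {a : ℝ → ℝ} (ha : ConvexOn ℝ univ a) :
    ∃ m : ℝ, ∀ t, a 1 + m * (t - 1) ≤ a t := by
  have hb : ∀ x < 1, ∀ y > 1, (a 1 - a x) / (1 - x) ≤ (a y - a 1) / (y - 1) :=
    fun x hx y hy => ha.slope_mono_adjacent (Set.mem_univ x) (Set.mem_univ y) hx hy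
  let S : Set ℝ := {u | ∃ x < 1, u = (a 1 - a x) / (1 - x)}
  have hne : S.Nonempty := ⟨_, 0, one_pos, rfl⟩
  have hbd : BddAbove S := ⟨(a 2 - a 1) / (2 - 1), by
    rintro u ⟨x, hx, rfl⟩; exact hb x hx 2 (by norm_num)⟩
  refine ⟨sSup S, fun t => ?_⟩
  rcases lt_trichotomy t 1 with h | h | h
  · have := le_csSup hbd (⟨t, h, rfl⟩ : (a 1 - a t) / (1 - t) ∈ S)
    rw [div_le_iff₀ (by linarith)] at this
    linarith
  · simp [h]
  · have : sSup S ≤ (a t - a 1) / (t - 1) :=
      csSup_le hne (by rintro u ⟨x, hx, rfl⟩; exact hb x hx t h)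
    rw [le_div_iff₀ (by linarith)] at this
    linarith

lemma jensen_half {a : ℝ → ℝ} (ha : ConvexOn ℝ univ a) (hp : P1 a) :
    a 1 ≤ ∫ t, w t * a ((1 + t) / 2) := by
  obtain ⟨m, hm⟩ := exists_support ha
  have h1 := integral_w_cubic 0 0 (m / 2) (a 1 - m / 2)
  have h2 : Integrable fun t => w t * (0 * t ^ 3 + 0 * t ^ 2 + m / 2 * t + (a 1 - m / 2)) := by
    have := (P1_quad 0 (m / 2) (a 1 - m / 2)).integrable
    simpa using this
  have := integral_mono h2 hp.half.integrable (fun t => by
    apply mul_le_mul_of_nonneg_left _ (w_nonneg t)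
    have := hm ((1 + t) / 2)
    linarith)
  linarith

lemma jensen_one {a : ℝ → ℝ} (ha : ConvexOn ℝ univ a) (hp : P1 a) :
    a 1 ≤ ∫ t, w t * a t := by
  obtain ⟨m, hm⟩ := exists_support ha
  have h1 := integral_w_cubic 0 0 m (a 1 - m)
  have h2 : Integrable fun t => w t * (0 * t ^ 3 + 0 * t ^ 2 + m * t + (a 1 - m)) := by
    have := (P1_quad 0 m (a 1 - m)).integrable
    simpa using this
  have := integral_mono h2 hp.integrable (fun t => by
    apply mul_le_mul_of_nonneg_left _ (w_nonneg t)
    have := hm t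
    linarith)
  linarith

lemma lg_nonneg {a : ℝ → ℝ} (ha : ConvexOn ℝ univ a) (hp : P1 a) :
    0 ≤ ∫ t, w t * (Lg t * a t) := by
  have := gap_le ha hp
  have := jensen_one ha hp
  linarith

lemma step_one {a : ℝ → ℝ} (ha : ConvexOn ℝ univ a) (hp : P1 a) :
    (∫ t, w t * a t) - ∫ t, w t * a ((1 + t) / 2) ≤ ∫ t, w t * (Lg t * a t) := by
  have := gap_le ha hp
  have := jensen_half ha hp
  linarith

end Pool.Agent.P.MP_2e1554_gt
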