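import Pool.Agent.P.MP_2e1554_gt.LocB

open MeasureTheory Set Finset

namespace Pool.Agent.P.MP_2e1554_gt

/-- normalised dual description of a cone close to the orthant -/
structure Dual {n : ℕ} (B : Set (Fin (n + 1) → ℝ)) (ε : ℝ) : Prop where
  sum_eq : ∀ β ∈ B, ∑ i, β i = 1
  single_mem : ∀ i, Pi.single i 1 ∈ B
  le_one : ∀ β ∈ B, ∀ i, β i ≤ 1
  ge_eps : ∀ β ∈ B, ∀ i, -ε ≤ β i
  eps_nonneg : 0 ≤ ε
  eps_le : ε ≤ 1

/-- depth function in the diagonal direction -/
noncomputable def tau {n : ℕ} (B : Set (Fin n → ℝ)) (y : Fin n → ℝ) : ℝ :=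
  sSup {u | ∃ β ∈ B, u = -∑ i, β i * y i}

variable {n : ℕ} {B : Set (Fin (n + 1) → ℝ)} {ε : ℝ}

lemma Dual.bound (h : Dual B ε) {β : Fin (n + 1) → ℝ} (hβ : β ∈ B) (y : Fin (n + 1) → ℝ) :
    -∑ i, β i * y i ≤ ∑ i, |y i| := by
  rw [← Finset.sum_neg_distrib]
  refine Finset.sum_le_sum fun i _ => ?_
  have h1 := h.le_one β hβ i
  have h2 := h.ge_eps β hβ i
  have h3 := h.eps_le
  have : |β i| ≤ 1 := abs_le.2 ⟨by linarith, h1⟩
  calc -(β i * y i) ≤ |β i * y i| := neg_le_abs _
    _ = |β i| * |y i| := abs_mul _ _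
    _ ≤ 1 * |y i| := by gcongr
    _ = |y i| := one_mul _

lemma Dual.le_tau (h : Dual B ε) {β : Fin (n + 1) → ℝ} (hβ : β ∈ B) (y : Fin (n + 1) → ℝ) :
    -∑ i, β i * y i ≤ tau B y :=
  le_csSup ⟨∑ i, |y i|, by rintro u ⟨γ, hγ, rfl⟩; exact h.bound hγ y⟩ ⟨β, hβ, rfl⟩

lemma Dual.tau_le (h : Dual B ε) {y : Fin (n + 1) → ℝ} {c : ℝ}
    (hc : ∀ β ∈ B, -∑ i, β i * y i ≤ c) : tau B y ≤ c :=
  csSup_le ⟨_, _, h.single_mem 0, rfl⟩ (by rintro u ⟨γ, hγ, rfl⟩; exact hc γ hγ)

lemma Dual.neg_le_tau (h : Dual B ε) (y : Fin (n + 1) → ℝ) (i : Fin (n + 1)) :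
    -y i ≤ tau B y := by
  have := h.le_tau (h.single_mem i) y
  simpa [Pi.single_apply] using this

lemma Dual.convex (h : Dual B ε) : ConvexOn ℝ univ (tau B) := by
  refine ⟨convex_univ, fun x _ y _ p q hp hq _ => h.tau_le fun β hβ => ?_⟩
  have h1 := mul_le_mul_of_nonneg_left (h.le_tau hβ x) hp
  have h2 := mul_le_mul_of_nonneg_left (h.le_tau hβ y) hq
  have e : ∑ i, β i * (p • x + q • y) i = p * ∑ i, β i * x i + q * ∑ i, β i * y i := by
    rw [Finset.mul_sum, Finset.mul_sum, ← Finset.sum_add_distrib]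
    refine Finset.sum_congr rfl fun i _ => ?_
    simp; ring
  rw [e]
  simp only [smul_eq_mul]
  linarith

lemma Dual.continuous (h : Dual B ε) : Continuous (tau B) := by
  rw [← continuousOn_univ]
  exact h.convex.continuousOn isOpen_univ

lemma Dual.shift (h : Dual B ε) (y : Fin (n + 1) → ℝ) (t : ℝ) :
    tau B (fun i => y i + t) = tau B y - t := by
  have key : ∀ (y : Fin (n + 1) → ℝ) (t : ℝ), tau B (fun i => y i + t) ≤ tau B y - t := by
    intro y t
    refine h.tau_le fun β hβ => ?_
    have := h.le_tau hβ y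
    have e : ∑ i, β i * (y i + t) = ∑ i, β i * y i + t := by
      simp only [mul_add, Finset.sum_add_distrib, ← Finset.sum_mul, h.sum_eq β hβ, one_mul]
    linarith
  refine le_antisymm (key y t) ?_
  have := key (fun i => y i + t) (-t)
  simp only [add_neg_cancel_right] at this
  linarith

lemma Dual.le_eps (h : Dual B ε) {y : Fin (n + 1) → ℝ} (hy : 0 ≤ y) :
    tau B y ≤ ε * ∑ i, y i := by
  refine h.tau_le fun β hβ => ?_
  rw [← Finset.sum_neg_distrib, Finset.mul_sum]
  refine Finset.sum_le_sum fun i _ => ?_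
  have h1 := h.ge_eps β hβ i
  have h2 : 0 ≤ y i := hy i
  nlinarith

lemma Dual.two_smul (h : Dual B ε) (y : Fin (n + 1) → ℝ) :
    tau B ((2 : ℝ) • y) ≤ 2 * tau B y := by
  refine h.tau_le fun β hβ => ?_
  have := h.le_tau hβ y
  have e : ∑ i, β i * ((2 : ℝ) • y) i = 2 * ∑ i, β i * y i := by
    rw [Finset.mul_sum]
    refine Finset.sum_congr rfl fun i _ => ?_
    simp; ring
  linarith

lemma Dual.poly (h : Dual B ε) : Poly (tau B) := by
  refine ⟨h.continuous.measurable, 1, 1, fun y hy => ?_⟩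
  have h1 := h.le_eps hy
  have h2 := h.neg_le_tau y 0
  have h3 : y 0 ≤ ∑ i, y i := Finset.single_le_sum (fun j _ => hy j) (Finset.mem_univ 0)
  have h4 := sum_nonneg_of hy
  have h5 := h.eps_le
  rw [abs_le]
  constructor <;> nlinarith

lemma Dual.facet_nonneg (h : Dual B ε) (k : Fin (n + 1)) (z : Fin n → ℝ) :
    0 ≤ tau B (ins k 0 z) := by
  simpa using h.neg_le_tau (ins k 0 z) k

lemma Dual.facet_one (h : Dual B ε) (k : Fin (n + 1)) : tau B (ins k 0 1) ≤ 0 := by
  refine h.tau_le fun β hβ => ?_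
  have h1 := h.sum_eq β hβ
  have h2 := h.le_one β hβ k
  rw [Fin.sum_univ_succAbove _ k] at h1 ⊢
  simp only [ins_same, ins_succAbove, Pi.one_apply, mul_zero, mul_one]
  linarith

lemma err_bound {a : (Fin n → ℝ) → ℝ} (hp : Poly a) (h0 : ∀ z, 0 ≤ a z)
    (h2 : ∀ z, a ((2 : ℝ) • z) ≤ 2 * a z) :
    ∫ z, wn z * (((∑ i, z i) * ((∑ i, z i) ^ 2 + 2 * n + 4)) * a z) ≤
      (4 * n + 56) * 2 ^ (n + 1) * ∫ z, wn z * a z := by
  have hp2 : Poly (fun z => a ((2 : ℝ) • z)) := by
    refine hp.comp (by fun_prop) 2 fun z hz => ⟨smul_nonneg (by norm_num) hz, ?_⟩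
    simp only [Pi.smul_apply, smul_eq_mul, ← Finset.mul_sum]
    linarith
  have hi : Integrable (fun z : Fin n → ℝ => wn ((1 / 2 : ℝ) • z) * a z) := by
    have := hp2.integrable.comp_smul (R := (1 / 2 : ℝ)) (by norm_num)
    simpa [smul_smul] using this
  have e : ∫ z : Fin n → ℝ, wn ((1 / 2 : ℝ) • z) * a z = 2 ^ n * ∫ z, wn z * a ((2 : ℝ) • z) := by
    have := Measure.integral_comp_smul (volume : Measure (Fin n → ℝ))
      (fun z => wn z * a ((2 : ℝ) • z)) (1 / 2)
    simpa [smul_smul] using this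
  have e2 : ∫ z, wn z * a ((2 : ℝ) • z) ≤ 2 * ∫ z, wn z * a z := by
    rw [← integral_const_mul]
    refine integral_mono hp2.integrable (hp.integrable.const_mul _) fun z => ?_
    have := mul_le_mul_of_nonneg_left (h2 z) (wn_nonneg z)
    simp only; linarith
  have e3 : ∫ z, wn z * (((∑ i, z i) * ((∑ i, z i) ^ 2 + 2 * n + 4)) * a z) ≤
      (4 * n + 56) * ∫ z : Fin n → ℝ, wn ((1 / 2 : ℝ) • z) * a z := by
    rw [← integral_const_mul]
    refine integral_mono_of_nonneg (ae_of_all _ fun z => ?_) (hi.const_mul _)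
      (ae_of_all _ fun z => ?_)
    · by_cases hz : 0 ≤ z
      · have := sum_nonneg_of hz
        exact mul_nonneg (wn_nonneg _) (mul_nonneg (by positivity) (h0 z))
      · simp [wn_of_not hz]
    · by_cases hz : 0 ≤ z
      · have h' : (0 : Fin n → ℝ) ≤ (1 / 2 : ℝ) • z := smul_nonneg (by norm_num) hz
        have hs := sum_nonneg_of hz
        have e : ∑ i, ((1 / 2 : ℝ) • z) i = (∑ i, z i) / 2 := by
          simp only [Pi.smul_apply, smul_eq_mul, ← Finset.mul_sum]; ring
        simp only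
        rw [wn_of_nonneg hz, wn_of_nonneg h', e]
        set s := ∑ i, z i
        have h3 := pow_le_exp_half 3 hs
        have h1 := pow_le_exp_half 1 hs
        norm_num [Nat.factorial] at h3 h1
        have hn : (0 : ℝ) ≤ n := by positivity
        have h4 : s * (s ^ 2 + 2 * n + 4) ≤ (4 * n + 56) * Real.exp (s / 2) := by nlinarith
        have h5 : Real.exp (-s) * Real.exp (s / 2) = Real.exp (-(s / 2)) := by
          rw [← Real.exp_add]; congr 1; ring
        calc Real.exp (-s) * (s * (s ^ 2 + 2 * n + 4) * a z)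
            ≤ Real.exp (-s) * ((4 * n + 56) * Real.exp (s / 2) * a z) := by
              have := h0 z
              gcongr
          _ = (4 * n + 56) * ((Real.exp (-s) * Real.exp (s / 2)) * a z) := by ring
          _ = _ := by rw [h5]
      · simp only [wn_of_not hz, zero_mul]
        exact mul_nonneg (by positivity) (mul_nonneg (wn_nonneg _) (h0 z))
  rw [e] at e3
  refine e3.trans ?_
  rw [mul_assoc, pow_succ, mul_assoc]
  gcongr

lemma ae_injective (m : ℕ) : ∀ᵐ y : Fin m → ℝ, Function.Injective y := by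
  have : ∀ i j : Fin m, ∀ᵐ y : Fin m → ℝ, y i = y j → i = j := by
    intro i j
    by_cases hij : i = j
    · exact ae_of_all _ fun _ _ => hij
    · have h0 := Measure.addHaar_submodule (volume : Measure (Fin m → ℝ))
        (LinearMap.ker ((LinearMap.proj i : (Fin m → ℝ) →ₗ[ℝ] ℝ) - LinearMap.proj j)) (by
          intro h
          have : (Pi.single i 1 : Fin m → ℝ) ∈ LinearMap.ker
            ((LinearMap.proj i : (Fin m → ℝ) →ₗ[ℝ] ℝ) - LinearMap.proj j) := by
            rw [h]; trivial
          simp [Ne.symm hij] at this)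
      rw [ae_iff]
      refine measure_mono_null (fun y hy => ?_) h0
      simp only [Set.mem_ofPred_eq, Classical.not_imp] at hy
      simp [hy.1]
  have h2 := ae_all_iff.2 fun i => ae_all_iff.2 fun j => this i j
  filter_upwards [h2] with y hy
  exact fun i j h => hy i j h

lemma sum_min_ind {y : Fin (n + 1) → ℝ} (hy : Function.Injective y) (c : ℝ) :
    ∑ k, (if ∀ i, y k ≤ y i then c else 0) = c := by
  obtain ⟨k, -, hk⟩ := Finset.exists_min_image Finset.univ y Finset.univ_nonempty
  rw [Finset.sum_eq_single k]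
  · rw [if_pos fun i => hk i (Finset.mem_univ i)]
  · intro j _ hj
    rw [if_neg]
    intro h
    exact hj (hy (le_antisymm (h k) (hk j (Finset.mem_univ j))))
  · simp

lemma shear_mp (k : Fin (n + 1)) :
    MeasurePreserving (fun p : ℝ × (Fin n → ℝ) => ins k p.1 (fun i => p.2 i + p.1))
      (volume.prod volume) volume := by
  have h1 : MeasurePreserving (fun p : ℝ × (Fin n → ℝ) => (id p.1, fun i => p.2 i + p.1))
      (volume.prod volume) (volume.prod volume) := by
    refine MeasurePreserving.skew_product (f := id) (g := fun (t : ℝ) (z : Fin n → ℝ) i => z i + t)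
      (MeasurePreserving.id _) ?_ (ae_of_all _ fun t => ?_)
    · unfold Function.uncurry; fun_prop
    · exact map_add_right_eq_self volume (fun _ => t)
  exact (ins_mp k).comp h1

lemma Poly.ind {m : ℕ} {F : (Fin m → ℝ) → ℝ} (hF : Poly F) {P : (Fin m → ℝ) → Prop}
    [DecidablePred P] (hP : MeasurableSet {y | P y}) : Poly (fun y => if P y then F y else 0) := by
  obtain ⟨hm, C, k, hC⟩ := hF
  refine ⟨Measurable.ite hP hm measurable_const, C, k, fun y hy => ?_⟩
  dsimp only
  split_ifs
  · exact hC y hy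
  · rw [abs_zero]; exact (abs_nonneg _).trans (hC y hy)

/-- the quadratic weight -/
def Wt {m : ℕ} (y : Fin m → ℝ) : ℝ := ∑ i, Lg (y i) - 2

lemma poly_Wt {m : ℕ} : Poly (Wt : (Fin m → ℝ) → ℝ) :=
  (Poly.sum _ fun i _ => P1_Lg.coord i).add (Poly.const (-2))

lemma Dual.meas_pos (h : Dual B ε) : MeasurableSet {y | 0 < tau B y} :=
  (isOpen_lt continuous_const h.continuous).measurableSet

lemma meas_min (k : Fin (n + 1)) : MeasurableSet {y : Fin (n + 1) → ℝ | ∀ i, y k ≤ y i} := by
  rw [Set.ofPred_forall]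
  exact MeasurableSet.iInter fun i => measurableSet_le (by fun_prop) (by fun_prop)

lemma pointwise_lower (h : Dual B ε) (k : Fin (n + 1)) (z : Fin n → ℝ) (hz : 0 ≤ z) (t : ℝ) :
    (Ico 0 (tau B (ins k 0 z))).indicator (fun _ => wn z * ((∑ i, Lg (z i)) -
      (n + 1) * ε * ((∑ i, z i) * ((∑ i, z i) ^ 2 + 2 * n + 4)))) t ≤
    wn (ins k t fun i => z i + t) *
      (if ∀ i, (ins k t fun i => z i + t) k ≤ (ins k t fun i => z i + t) i then
        (if 0 < tau B (ins k t fun i => z i + t) then Wt (ins k t fun i => z i + t) else 0)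
        else 0) := by
  have e1 : (ins k t fun i => z i + t) = fun i => ins k 0 z i + t := by
    ext i
    refine Fin.succAboveCases k ?_ (fun j => ?_) i
    · simp
    · simp
  have e2 : tau B (ins k t fun i => z i + t) = tau B (ins k 0 z) - t := by
    rw [e1, h.shift]
  have e3 : ∀ i, (ins k t fun i => z i + t) k ≤ (ins k t fun i => z i + t) i := by
    intro i
    refine Fin.succAboveCases k le_rfl (fun j => ?_) i
    have : 0 ≤ z j := hz j
    simp only [ins_same, ins_succAbove]; linarith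
  rw [if_pos e3, e2]
  by_cases ht : t ∈ Ico 0 (tau B (ins k 0 z))
  · rw [indicator_of_mem ht, if_pos (by linarith [ht.2])]
    have ht0 : 0 ≤ t := ht.1
    have hs := sum_nonneg_of hz
    have ht1 : t ≤ ε * ∑ i, z i := by
      have := h.le_eps (ins_nonneg k le_rfl hz)
      rw [sum_ins, zero_add] at this
      exact ht.2.le.trans this
    have hzt : (0 : Fin n → ℝ) ≤ fun i => z i + t := fun i => add_nonneg (hz i) ht0
    have e4 : Wt (ins k t fun i => z i + t) =
        ∑ i, Lg (z i) + (2 * t * ∑ i, z i + (n + 1) * t ^ 2 - 4 * (n + 1) * t) := by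
      unfold Wt
      rw [Fin.sum_univ_succAbove _ k]
      simp only [ins_same, ins_succAbove]
      have : ∀ i, Lg (z i + t) = Lg (z i) + 2 * t * z i + (t ^ 2 - 4 * t) := by
        intro i; unfold Lg; ring
      simp only [this, Finset.sum_add_distrib, ← Finset.mul_sum, Finset.sum_const,
        Finset.card_univ, Fintype.card_fin, nsmul_eq_mul]
      unfold Lg; ring
    have e5 : wn (ins k t fun i => z i + t) = wn z * Real.exp (-((n + 1) * t)) := by
      rw [wn_ins, w_of_nonneg ht0, wn_of_nonneg hzt, wn_of_nonneg hz, ← Real.exp_add,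
        ← Real.exp_add]
      congr 1
      simp [Finset.sum_add_distrib]; ring
    have hD : ∑ i, Lg (z i) ≤ (∑ i, z i) ^ 2 + 2 * n := by
      have h1 : ∑ i, Lg (z i) ≤ ∑ i, (z i * ∑ j, z j + 2) := by
        refine Finset.sum_le_sum fun i _ => ?_
        have h1 : z i ≤ ∑ j, z j := Finset.single_le_sum (fun j _ => hz j) (Finset.mem_univ i)
        have h2 : 0 ≤ z i := hz i
        unfold Lg; nlinarith
      simp only [Finset.sum_add_distrib, ← Finset.sum_mul, Finset.sum_const,
        Finset.card_univ, Fintype.card_fin, nsmul_eq_mul] at h1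
      nlinarith
    rw [e4, e5, mul_assoc (wn z)]
    apply mul_le_mul_of_nonneg_left _ (wn_nonneg z)
    set s := ∑ i, z i
    set D := ∑ i, Lg (z i)
    set u := ((n : ℝ) + 1) * t with hu
    have hn : (0 : ℝ) ≤ n := by positivity
    have hu0 : 0 ≤ u := by positivity
    have hu1 : u ≤ (n + 1) * ε * s := by rw [hu, mul_assoc]; gcongr
    have x1 : 1 - u ≤ Real.exp (-u) := by linarith [Real.add_one_le_exp (-u)]
    have x2 : Real.exp (-u) ≤ 1 := Real.exp_le_one_iff.2 (by linarith)
    have x3 := Real.exp_pos (-u)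
    set E := Real.exp (-u)
    have y1 : D - u * (s ^ 2 + 2 * n) ≤ E * D := by
      have : (1 - E) * D ≤ (1 - E) * (s ^ 2 + 2 * n) :=
        mul_le_mul_of_nonneg_left hD (by linarith)
      have : (1 - E) * (s ^ 2 + 2 * n) ≤ u * (s ^ 2 + 2 * n) :=
        mul_le_mul_of_nonneg_right (by linarith) (by positivity)
      linarith
    have y2 : -(4 * u) ≤ E * (2 * t * s + (n + 1) * t ^ 2 - 4 * (n + 1) * t) := by
      have a1 : 0 ≤ E * (2 * t * s + (n + 1) * t ^ 2) := by positivity
      have a2 : E * u ≤ u := by nlinarith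
      have a3 : E * (2 * t * s + (n + 1) * t ^ 2 - 4 * (n + 1) * t) =
          E * (2 * t * s + (n + 1) * t ^ 2) - 4 * (E * u) := by rw [hu]; ring
      linarith
    have y3 : u * (s ^ 2 + 2 * n + 4) ≤ (n + 1) * ε * s * (s ^ 2 + 2 * n + 4) :=
      mul_le_mul_of_nonneg_right hu1 (by positivity)
    nlinarith
  · rw [indicator_of_notMem ht]
    by_cases ht0 : 0 ≤ t
    · have : ¬ 0 < tau B (ins k 0 z) - t := by
        intro h1
        exact ht ⟨ht0, by linarith⟩
      rw [if_neg this, mul_zero]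
    · rw [wn_ins, w_of_neg (not_le.1 ht0)]; simp

lemma piece_lower (h : Dual B ε) (hε : 4 * 4 ^ n * ((n + 1) * ε * ((4 * n + 56) * 2 ^ (n + 1))) ≤ 1)
    (k : Fin (n + 1)) :
    (∫ z, wn z * tau B (ins k 0 z)) ≤ 4 * 4 ^ n * ∫ y : Fin (n + 1) → ℝ, wn y *
      (if ∀ i, y k ≤ y i then (if 0 < tau B y then Wt y else 0) else 0) := by
  have hG : Poly (fun y : Fin (n + 1) → ℝ =>
      if ∀ i, y k ≤ y i then (if 0 < tau B y then Wt y else 0) else 0) :=
    (poly_Wt.ind h.meas_pos).ind (meas_min k)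
  have hi := (shear_mp k).integrable_comp_of_integrable hG.integrable
  rw [integral_of_mp (shear_mp k) hG.integrable]
  have e := integral_prod_symm _ hi
  simp only [Function.comp] at e
  rw [e]
  have hpa : Poly (fun z => tau B (ins k 0 z)) := h.poly.ins_right k le_rfl
  have hS : Poly (fun z : Fin n → ℝ => ∑ i, z i) := Poly.sum _ fun i _ => Poly.coord i
  have hp1 : Poly (fun z : Fin n → ℝ => (∑ i, Lg (z i)) * tau B (ins k 0 z)) :=
    (Poly.sum _ fun i _ => P1_Lg.coord i).mul hpa
  have hp2 : Poly (fun z : Fin n → ℝ =>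
      ((∑ i, z i) * ((∑ i, z i) ^ 2 + 2 * n + 4)) * tau B (ins k 0 z)) := by
    refine (hS.mul ?_).mul hpa
    have := (hS.mul hS).add (Poly.const (2 * n + 4))
    convert this using 2 with z
    ring
  have l1 := lower_lg (convex_ins_right k h.convex 0) hpa (h.facet_one k)
  have l2 := err_bound hpa (h.facet_nonneg k) (fun z => by
    have := h.two_smul (ins k 0 z)
    have e : (2 : ℝ) • ins k 0 z = ins k 0 ((2 : ℝ) • z) := by
      ext i
      refine Fin.succAboveCases k ?_ (fun j => ?_) i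
      · simp
      · simp
    rwa [e] at this)
  have l3 : (∫ z, wn z * ((∑ i, Lg (z i)) * tau B (ins k 0 z))) - (n + 1) * ε *
      (∫ z, wn z * (((∑ i, z i) * ((∑ i, z i) ^ 2 + 2 * n + 4)) * tau B (ins k 0 z))) ≤
      ∫ z : Fin n → ℝ, ∫ t, wn (ins k t fun i => z i + t) *
      (if ∀ i, (ins k t fun i => z i + t) k ≤ (ins k t fun i => z i + t) i then
        (if 0 < tau B (ins k t fun i => z i + t) then Wt (ins k t fun i => z i + t) else 0)
        else 0) := by
    rw [← integral_const_mul, ← integral_sub hp1.integrable (hp2.integrable.const_mul _)]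
    refine integral_mono_ae (hp1.integrable.sub (hp2.integrable.const_mul _))
      hi.integral_prod_right ?_
    filter_upwards [hi.prod_left_ae] with z hz
    by_cases hz0 : 0 ≤ z
    · have hind : Integrable ((Ico 0 (tau B (ins k 0 z))).indicator (fun _ : ℝ => wn z *
          ((∑ i, Lg (z i)) - (n + 1) * ε * ((∑ i, z i) * ((∑ i, z i) ^ 2 + 2 * n + 4))))) := by
        rw [integrable_indicator_iff measurableSet_Ico]
        exact integrableOn_const (by simp)
      have := integral_mono hind hz (pointwise_lower h k z hz0)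
      rw [integral_indicator measurableSet_Ico, setIntegral_const, Real.volume_real_Ico_of_le
        (h.facet_nonneg k z)] at this
      simp only [smul_eq_mul, Function.comp] at this
      refine le_trans (le_of_eq ?_) this
      ring
    · rw [wn_of_not hz0]
      simp only [zero_mul, mul_zero, sub_zero]
      refine integral_nonneg fun t => le_of_eq (Eq.symm ?_)
      dsimp only [Pi.zero_apply]
      rw [if_neg, mul_zero]
      intro hh
      apply hz0
      intro j
      have := hh (k.succAbove j)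
      simp only [ins_same, ins_succAbove] at this
      simp only [Pi.zero_apply]
      linarith
  have hA : 0 ≤ ∫ z, wn z * tau B (ins k 0 z) :=
    integral_nonneg fun z => mul_nonneg (wn_nonneg _) (h.facet_nonneg k z)
  have hε0 := h.eps_nonneg
  set A := ∫ z, wn z * tau B (ins k 0 z)
  set P := ∫ z, wn z * ((∑ i, Lg (z i)) * tau B (ins k 0 z))
  set Q := ∫ z, wn z * (((∑ i, z i) * ((∑ i, z i) ^ 2 + 2 * n + 4)) * tau B (ins k 0 z))
  have m1 : (n + 1) * ε * Q ≤ (n + 1) * ε * ((4 * n + 56) * 2 ^ (n + 1) * A) := by gcongr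
  have m2 : 4 * 4 ^ n * ((n + 1) * ε * ((4 * n + 56) * 2 ^ (n + 1) * A)) ≤ A := by
    have := mul_le_mul_of_nonneg_right hε hA
    linarith
  have m3 := mul_le_mul_of_nonneg_left l3 (show (0 : ℝ) ≤ 4 * 4 ^ n by positivity)
  have m4 := mul_le_mul_of_nonneg_left m1 (show (0 : ℝ) ≤ 4 * 4 ^ n by positivity)
  linarith

lemma core (h : Dual B ε) (hε : 4 * 4 ^ n * ((n + 1) * ε * ((4 * n + 56) * 2 ^ (n + 1))) ≤ 1) :
    ∑ k, (∫ z, wn z * tau B (ins k 0 z)) ≤
      4 * 4 ^ n * ∫ y : Fin (n + 1) → ℝ, wn y * (if 0 < tau B y then Wt y else 0) := by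
  have hG : ∀ k, Poly (fun y : Fin (n + 1) → ℝ =>
      if ∀ i, y k ≤ y i then (if 0 < tau B y then Wt y else 0) else 0) :=
    fun k => (poly_Wt.ind h.meas_pos).ind (meas_min k)
  have e : ∫ y : Fin (n + 1) → ℝ, wn y * (if 0 < tau B y then Wt y else 0) =
      ∑ k, ∫ y : Fin (n + 1) → ℝ, wn y *
        (if ∀ i, y k ≤ y i then (if 0 < tau B y then Wt y else 0) else 0) := by
    rw [← integral_finsetSum _ fun k _ => (hG k).integrable]
    refine integral_congr_ae ?_
    filter_upwards [ae_injective (n + 1)] with y hy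
    rw [← Finset.mul_sum, sum_min_ind hy]
  rw [e, Finset.mul_sum]
  exact Finset.sum_le_sum fun k _ => piece_lower h hε k

lemma piece_upper (h : Dual B ε) (k : Fin (n + 1)) :
    ∫ y : Fin (n + 1) → ℝ, wn y * (if ∀ i, y k ≤ y i then (if 0 < tau B y then 1 else 0) else 0) ≤
      ∫ z, wn z * tau B (ins k 0 z) := by
  have hG : Poly (fun y : Fin (n + 1) → ℝ =>
      if ∀ i, y k ≤ y i then (if 0 < tau B y then (1 : ℝ) else 0) else 0) :=
    ((Poly.const 1).ind h.meas_pos).ind (meas_min k)
  have hi := (shear_mp k).integrable_comp_of_integrable hG.integrable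
  rw [integral_of_mp (shear_mp k) hG.integrable]
  have e := integral_prod_symm _ hi
  simp only [Function.comp] at e
  rw [e]
  have hpa : Poly (fun z => tau B (ins k 0 z)) := h.poly.ins_right k le_rfl
  refine integral_mono_ae hi.integral_prod_right hpa.integrable ?_
  filter_upwards [hi.prod_left_ae] with z hz
  have hind : Integrable ((Ico 0 (tau B (ins k 0 z))).indicator (fun _ : ℝ => wn z)) := by
    rw [integrable_indicator_iff measurableSet_Ico]
    exact integrableOn_const (by simp)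
  have := integral_mono hz hind (fun t => by
    have e1 : (ins k t fun i => z i + t) = fun i => ins k 0 z i + t := by
      ext i
      refine Fin.succAboveCases k ?_ (fun j => ?_) i
      · simp
      · simp
    have e2 : tau B (ins k t fun i => z i + t) = tau B (ins k 0 z) - t := by
      rw [e1, h.shift]
    have hnn : 0 ≤ (Ico 0 (tau B (ins k 0 z))).indicator (fun _ : ℝ => wn z) t :=
      indicator_nonneg (fun _ _ => wn_nonneg z) t
    simp only [Function.comp, e2]
    split_ifs with h1 h2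
    · by_cases ht0 : 0 ≤ t
      · rw [indicator_of_mem (show t ∈ Ico 0 (tau B (ins k 0 z)) from ⟨ht0, by linarith⟩)]
        have hz0 : 0 ≤ z := by
          intro j
          have := h1 (k.succAbove j)
          simp only [ins_same, ins_succAbove] at this
          simp only [Pi.zero_apply]
          linarith
        have hzt : (0 : Fin n → ℝ) ≤ fun i => z i + t := fun i => add_nonneg (hz0 i) ht0
        rw [wn_ins, w_of_nonneg ht0, wn_of_nonneg hzt, wn_of_nonneg hz0, ← Real.exp_add, mul_one]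
        apply Real.exp_le_exp.2
        have : ∑ i, z i ≤ ∑ i, (z i + t) := Finset.sum_le_sum fun i _ => by linarith
        linarith
      · rw [wn_ins, w_of_neg (not_le.1 ht0), zero_mul, zero_mul]; exact hnn
    · rw [mul_zero]; exact hnn
    · rw [mul_zero]; exact hnn)
  rw [integral_indicator measurableSet_Ico, setIntegral_const, Real.volume_real_Ico_of_le
    (h.facet_nonneg k z)] at this
  simp only [smul_eq_mul, Function.comp] at this
  refine this.trans (le_of_eq ?_)
  ring

lemma core_vol (h : Dual B ε)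
    (hε : 4 * 4 ^ n * ((n + 1) * ε * ((4 * n + 56) * 2 ^ (n + 1))) ≤ 1) :
    ∫ y : Fin (n + 1) → ℝ, wn y * (if 0 < tau B y then 1 else 0) ≤
      4 * 4 ^ n * ∫ y : Fin (n + 1) → ℝ, wn y * (if 0 < tau B y then Wt y else 0) := by
  have hG : ∀ k, Poly (fun y : Fin (n + 1) → ℝ =>
      if ∀ i, y k ≤ y i then (if 0 < tau B y then (1 : ℝ) else 0) else 0) :=
    fun k => ((Poly.const 1).ind h.meas_pos).ind (meas_min k)
  have e : ∫ y : Fin (n + 1) → ℝ, wn y * (if 0 < tau B y then 1 else 0) =
      ∑ k, ∫ y : Fin (n + 1) → ℝ, wn y *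
        (if ∀ i, y k ≤ y i then (if 0 < tau B y then 1 else 0) else 0) := by
    rw [← integral_finsetSum _ fun k _ => (hG k).integrable]
    refine integral_congr_ae ?_
    filter_upwards [ae_injective (n + 1)] with y hy
    rw [← Finset.mul_sum, sum_min_ind hy]
  rw [e]
  exact (Finset.sum_le_sum fun k _ => piece_upper h k).trans (core h hε)

lemma core_nonneg (h : Dual B ε)
    (hε : 4 * 4 ^ n * ((n + 1) * ε * ((4 * n + 56) * 2 ^ (n + 1))) ≤ 1) :
    0 ≤ ∫ y : Fin (n + 1) → ℝ, wn y * (if 0 < tau B y then Wt y else 0) := by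
  have h1 := core h hε
  have h2 : 0 ≤ ∑ k, (∫ z, wn z * tau B (ins k 0 z)) := Finset.sum_nonneg fun k _ =>
    integral_nonneg fun z => mul_nonneg (wn_nonneg _) (h.facet_nonneg k z)
  have h3 : (0 : ℝ) < 4 * 4 ^ n := by positivity
  exact nonneg_of_mul_nonneg_right (h2.trans h1) h3

lemma core_eq (h : Dual B ε) (hn : 1 ≤ n)
    (hε : 4 * 4 ^ n * ((n + 1) * ε * ((4 * n + 56) * 2 ^ (n + 1))) ≤ 1)
    (h0 : ∫ y : Fin (n + 1) → ℝ, wn y * (if 0 < tau B y then Wt y else 0) ≤ 0) :
    ∀ β ∈ B, ∀ j, 0 ≤ β j := by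
  have h1 := core h hε
  have hnn : ∀ k ∈ (Finset.univ : Finset (Fin (n + 1))), 0 ≤ ∫ z, wn z * tau B (ins k 0 z) :=
    fun k _ => integral_nonneg fun z => mul_nonneg (wn_nonneg _) (h.facet_nonneg k z)
  have h3 : (0 : ℝ) ≤ 4 * 4 ^ n := by positivity
  have h4 : ∑ k, (∫ z, wn z * tau B (ins k 0 z)) = 0 :=
    le_antisymm (h1.trans (mul_nonpos_of_nonneg_of_nonpos h3 h0)) (Finset.sum_nonneg hnn)
  rw [Finset.sum_eq_zero_iff_of_nonneg hnn] at h4
  have h5 : ∀ k (z : Fin n → ℝ), (∀ i, 0 < z i) → tau B (ins k 0 z) = 0 := by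
    intro k z hz
    have h6 := h4 k (Finset.mem_univ k)
    rw [integral_eq_zero_iff_of_nonneg (fun z => mul_nonneg (wn_nonneg _) (h.facet_nonneg k z))
      (h.poly.ins_right k le_rfl).integrable] at h6
    have hU : IsOpen {z : Fin n → ℝ | ∀ i, 0 < z i} := by
      rw [Set.ofPred_forall]
      exact isOpen_iInter_of_finite fun i => isOpen_lt continuous_const (continuous_apply i)
    have hc : Continuous fun z : Fin n → ℝ => tau B (ins k 0 z) :=
      h.continuous.comp ((continuous_ins k).comp (continuous_const.prodMk continuous_id))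
    have h7 : (fun z : Fin n → ℝ => tau B (ins k 0 z)) =ᵐ[volume.restrict {z | ∀ i, 0 < z i}]
        fun _ => 0 := by
      rw [Filter.EventuallyEq, ae_restrict_iff' hU.measurableSet]
      filter_upwards [h6] with z hz hz'
      have hz0 : 0 ≤ z := fun i => (hz' i).le
      simp only [Pi.zero_apply, wn_of_nonneg hz0] at hz
      exact (mul_eq_zero.1 hz).resolve_left (Real.exp_pos _).ne'
    exact Measure.eqOn_open_of_ae_eq h7 hU hc.continuousOn continuousOn_const hz
  intro β hβ j
  obtain ⟨k, hk⟩ : ∃ k : Fin (n + 1), j ≠ k := by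
    by_cases hj : j = 0
    · exact ⟨Fin.last n, by rw [hj]; intro h; have := congrArg Fin.val h; simp at this; omega⟩
    · exact ⟨0, hj⟩
  obtain ⟨i, rfl⟩ := Fin.exists_succAbove_eq hk
  by_contra hneg
  push Not at hneg
  set R := (n : ℝ) / (-β (k.succAbove i)) + 1 with hR
  have hR0 : 0 < R := by
    have : 0 ≤ (n : ℝ) / (-β (k.succAbove i)) := div_nonneg (by positivity) (by linarith)
    linarith
  have h6 := h5 k (fun l => 1 + (Pi.single i R : Fin n → ℝ) l) (fun l => by
    rw [Pi.single_apply]; split_ifs <;> linarith)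
  have h7 := h.le_tau hβ (ins k 0 (fun l => 1 + (Pi.single i R : Fin n → ℝ) l))
  rw [h6, Fin.sum_univ_succAbove _ k] at h7
  simp only [ins_same, ins_succAbove, mul_zero, zero_add, mul_add, mul_one,
    Finset.sum_add_distrib, Pi.single_apply, mul_ite, Finset.sum_ite_eq', Finset.mem_univ,
    if_true] at h7
  have h8 : ∑ l : Fin n, β (k.succAbove l) ≤ n := by
    have := Finset.sum_le_sum fun l (_ : l ∈ (Finset.univ : Finset (Fin n))) =>
      h.le_one β hβ (k.succAbove l)
    simpa using this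
  have h9 : β (k.succAbove i) * R = -n + β (k.succAbove i) := by
    rw [hR]; field_simp [hneg.ne]
  linarith

end Pool.Agent.P.MP_2e1554_gt
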