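import Pool.Agent.P.MP_2e1554_gt.LocC

open MeasureTheory Set Finset Matrix

namespace Pool.Agent.P.MP_2e1554_gt

variable {n : ℕ}

lemma ins_smul (s : ℝ) (x : Fin n → ℝ) : ins 0 s (s • x) = s • ins 0 1 x := by
  ext i
  refine Fin.succAboveCases 0 ?_ (fun j => ?_) i
  · simp
  · simp only [ins_succAbove, Pi.smul_apply]

lemma transfer (M : Matrix (Fin (n + 1)) (Fin (n + 1)) ℝ) (hdet : M.det ≠ 0)
    (hcol : ∀ u, ∑ i, (M *ᵥ u) i = u 0) (K : Set (Fin n → ℝ)) (hK : MeasurableSet K)
    (P : (Fin (n + 1) → ℝ) → Prop) [DecidablePred P] (hP : MeasurableSet {y | P y})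
    (hPK : ∀ s : ℝ, 0 < s → ∀ x, (P (s • (M *ᵥ ins 0 1 x)) ∧ 0 ≤ M *ᵥ ins 0 1 x) ↔ x ∈ K)
    {h : (Fin (n + 1) → ℝ) → ℝ} (hp : Poly h) (k : ℕ)
    (hh : ∀ s : ℝ, 0 < s → ∀ y, h (s • y) = s ^ k * h y) :
    ∫ y, wn y * (if P y then h y else 0) =
      |M.det| * (n + k).factorial * ∫ x in K, h (M *ᵥ ins 0 1 x) := by
  set F : (Fin (n + 1) → ℝ) → ℝ := fun y => wn y * (if P y then h y else 0) with hF
  have hFi : Integrable F := (hp.ind hP).integrable
  have hmap := Real.map_matrix_volume_pi_eq_smul_volume_pi hdet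
  have hm : Measurable (toLin' M) := (toLin' M).continuous_of_finiteDimensional.measurable
  have hFi' : Integrable F (Measure.map (toLin' M) volume) := by
    rw [hmap]; exact hFi.smul_measure ENNReal.ofReal_ne_top
  have hG : Integrable (fun u => F (M *ᵥ u)) :=
    (integrable_map_measure hFi'.aestronglyMeasurable hm.aemeasurable).1 hFi'
  have e1 : ∫ u, F (M *ᵥ u) = |M.det|⁻¹ * ∫ y, F y := by
    have := integral_map hm.aemeasurable hFi'.aestronglyMeasurable
    rw [hmap, integral_smul_measure, ENNReal.toReal_ofReal (abs_nonneg _), abs_inv] at this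
    exact this.symm
  have hi : Integrable (fun p : ℝ × (Fin n → ℝ) => F (M *ᵥ ins 0 p.1 p.2)) (volume.prod volume) :=
    (ins_mp 0).integrable_comp_of_integrable hG
  have e2 : ∫ u, F (M *ᵥ u) = ∫ s, (w s * s ^ (n + k)) * ∫ x in K, h (M *ᵥ ins 0 1 x) := by
    rw [integral_of_mp (ins_mp 0) hG, integral_prod _ hi]
    refine integral_congr_ae ?_
    have : ∀ᵐ s : ℝ, s ≠ 0 := by simp [ae_iff]
    filter_upwards [this] with s hs
    rcases lt_or_gt_of_ne hs with hs | hs
    · rw [w_of_neg hs, zero_mul, zero_mul]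
      have : ∀ z : Fin n → ℝ, F (M *ᵥ ins 0 s z) = 0 := by
        intro z
        rw [hF]
        simp only
        rw [wn_of_not, zero_mul]
        intro h0
        have := sum_nonneg_of h0
        rw [hcol, ins_same] at this
        linarith
      simp [this]
    · have e3 := Measure.integral_comp_smul (volume : Measure (Fin n → ℝ))
        (fun z => F (M *ᵥ ins 0 s z)) s
      have e4 : ∀ x : Fin n → ℝ, F (M *ᵥ ins 0 s (s • x)) =
          K.indicator (fun x => (w s * s ^ k) * h (M *ᵥ ins 0 1 x)) x := by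
        intro x
        rw [ins_smul, mulVec_smul, hF]
        simp only
        by_cases hx : x ∈ K
        · obtain ⟨h1, h2⟩ := (hPK s hs x).2 hx
          rw [indicator_of_mem hx, if_pos h1, hh s hs, wn_of_nonneg (smul_nonneg hs.le h2),
            w_of_nonneg hs.le]
          have : ∑ i, (s • (M *ᵥ ins 0 1 x)) i = s := by
            simp only [Pi.smul_apply, smul_eq_mul, ← Finset.mul_sum, hcol, ins_same, mul_one]
          rw [this]; ring
        · rw [indicator_of_notMem hx]
          by_cases h1 : P (s • (M *ᵥ ins 0 1 x))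
          · rw [wn_of_not, zero_mul]
            intro h0
            exact hx ((hPK s hs x).1 ⟨h1, nonneg_of_smul_nonneg_of_pos_left h0 hs⟩)
          · rw [if_neg h1, mul_zero]
      simp only [e4] at e3
      rw [integral_indicator hK, integral_const_mul] at e3
      simp only [Module.finrank_fintype_fun_eq_card, Fintype.card_fin, smul_eq_mul] at e3
      rw [abs_of_pos (by positivity)] at e3
      have hsn : s ^ n ≠ 0 := by positivity
      field_simp at e3
      rw [← e3]; ring
  rw [e2, integral_mul_const, integral_w_pow] at e1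
  have hd : |M.det| ≠ 0 := abs_ne_zero.2 hdet
  rw [mul_assoc, e1]
  field_simp

lemma moment {m : ℕ} (a : Fin m → ℕ) :
    ∫ y : Fin m → ℝ, wn y * ∏ l, y l ^ a l = ∏ l, ((a l).factorial : ℝ) := by
  have : (fun y : Fin m → ℝ => wn y * ∏ l, y l ^ a l) = fun y => ∏ l, (w (y l) * y l ^ a l) := by
    ext y; rw [Finset.prod_mul_distrib]; rfl
  rw [this, integral_fintype_prod_volume_eq_prod (fun l (t : ℝ) => w t * t ^ a l)]
  simp only [integral_w_pow]

lemma prod_pow_single' {m : ℕ} (y : Fin m → ℝ) (i : Fin m) :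
    ∏ l, y l ^ (Pi.single i 1 : Fin m → ℕ) l = y i := by
  rw [Finset.prod_eq_single i]
  · simp
  · intro b _ hb; simp [hb]
  · simp

lemma moment1 {m : ℕ} (i : Fin m) : ∫ y : Fin m → ℝ, wn y * y i = 1 := by
  have := moment (Pi.single i 1 : Fin m → ℕ)
  simp only [prod_pow_single'] at this
  rw [this]
  refine Finset.prod_eq_one fun l _ => ?_
  rw [Pi.single_apply]; split_ifs <;> simp

lemma moment2 {m : ℕ} (i j : Fin m) :
    ∫ y : Fin m → ℝ, wn y * (y i * y j) = if i = j then 2 else 1 := by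
  have := moment (Pi.single i 1 + Pi.single j 1 : Fin m → ℕ)
  simp only [Pi.add_apply, pow_add, Finset.prod_mul_distrib, prod_pow_single'] at this
  rw [this]
  split_ifs with h
  · subst h
    rw [Finset.prod_eq_single i]
    · simp
    · intro b _ hb; simp [hb]
    · simp
  · refine Finset.prod_eq_one fun l _ => ?_
    rw [Pi.single_apply, Pi.single_apply]
    split_ifs with h1 h2
    · exact absurd (h1.symm.trans h2) h
    all_goals simp

lemma integral_Wt {m : ℕ} : ∫ y : Fin m → ℝ, wn y * Wt y = -2 := by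
  have h1 : ∀ i : Fin m, ∫ y : Fin m → ℝ, wn y * Lg (y i) = 0 := by
    intro i
    have e : (fun y : Fin m → ℝ => wn y * Lg (y i)) =
        fun y => wn y * (y i * y i) - 4 * (wn y * y i) + 2 * wn y := by
      ext y; unfold Lg; ring
    have i1 := ((Poly.coord i).mul (Poly.coord i)).integrable
    have i2 := (Poly.coord i).integrable.const_mul 4
    have i3 : Integrable fun y : Fin m → ℝ => wn y * (y i * y i) - 4 * (wn y * y i) := i1.sub i2
    rw [e, integral_add i3 (integrable_wn.const_mul 2), integral_sub i1 i2,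
      integral_const_mul, integral_const_mul, moment2, moment1, integral_wn]
    norm_num
  have e : (fun y : Fin m → ℝ => wn y * Wt y) =
      fun y => ∑ i, wn y * Lg (y i) - 2 * wn y := by
    ext y; unfold Wt; rw [← Finset.mul_sum]; ring
  rw [e, integral_sub (integrable_finsetSum _ fun i _ => (P1_Lg.coord i).integrable)
    (integrable_wn.const_mul 2), integral_finsetSum _ fun i _ => (P1_Lg.coord i).integrable,
    integral_const_mul, integral_wn]
  simp [h1]

lemma det_le_exp {m : ℕ} {H : Matrix (Fin m) (Fin m) ℝ} (hH : H.PosSemidef) :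
    H.det ≤ Real.exp (H.trace - m) := by
  rw [hH.1.det_eq_prod_eigenvalues, hH.1.trace_eq_sum_eigenvalues]
  simp only [RCLike.ofReal_real_eq_id, id]
  have : (∑ i, hH.1.eigenvalues i) - m = ∑ i, (hH.1.eigenvalues i - 1) := by
    simp [Finset.sum_sub_distrib]
  rw [this, Real.exp_sum]
  refine Finset.prod_le_prod (fun i _ => hH.eigenvalues_nonneg i) fun i _ => ?_
  linarith [Real.add_one_le_exp (hH.1.eigenvalues i - 1)]

/-- second moment matrix of the lifted body -/
noncomputable def gram (K : Set (Fin n → ℝ)) (M : Matrix (Fin (n + 1)) (Fin (n + 1)) ℝ) :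
    Matrix (Fin (n + 1)) (Fin (n + 1)) ℝ :=
  Matrix.of fun i j => ∫ x in K, (M *ᵥ ins 0 1 x) i * (M *ᵥ ins 0 1 x) j

lemma continuous_lift (M : Matrix (Fin (n + 1)) (Fin (n + 1)) ℝ) :
    Continuous fun x : Fin n → ℝ => M *ᵥ ins 0 1 x :=
  continuous_const.matrix_mulVec
    ((continuous_ins 0).comp (continuous_const.prodMk continuous_id))

lemma int_lift {K : Set (Fin n → ℝ)} (hK : IsCompact K) (M : Matrix (Fin (n + 1)) (Fin (n + 1)) ℝ)
    (i j : Fin (n + 1)) :
    IntegrableOn (fun x => (M *ᵥ ins 0 1 x) i * (M *ᵥ ins 0 1 x) j) K :=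
  (((continuous_apply i).comp (continuous_lift M)).mul
    ((continuous_apply j).comp (continuous_lift M))).continuousOn.integrableOn_compact hK

lemma gram_quad {K : Set (Fin n → ℝ)} (hK : IsCompact K)
    (M : Matrix (Fin (n + 1)) (Fin (n + 1)) ℝ) (a b : Fin (n + 1) → ℝ) :
    a ⬝ᵥ (gram K M *ᵥ b) = ∫ x in K, (a ⬝ᵥ (M *ᵥ ins 0 1 x)) * (b ⬝ᵥ (M *ᵥ ins 0 1 x)) := by
  have : ∀ x, (a ⬝ᵥ (M *ᵥ ins 0 1 x)) * (b ⬝ᵥ (M *ᵥ ins 0 1 x)) =
      ∑ i, ∑ j, (a i * b j) * ((M *ᵥ ins 0 1 x) i * (M *ᵥ ins 0 1 x) j) := by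
    intro x
    generalize M *ᵥ ins 0 1 x = y
    simp only [dotProduct, Finset.sum_mul_sum]
    refine Finset.sum_congr rfl fun i _ => Finset.sum_congr rfl fun j _ => by ring
  simp only [this]
  rw [integral_finsetSum _ fun i _ => integrable_finsetSum _ fun j _ =>
    (int_lift hK M i j).const_mul _]
  simp only [dotProduct]
  refine Finset.sum_congr rfl fun i _ => ?_
  rw [integral_finsetSum _ fun j _ => (int_lift hK M i j).const_mul _]
  simp only [integral_const_mul]
  rw [mulVec, dotProduct, Finset.mul_sum]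
  refine Finset.sum_congr rfl fun j _ => ?_
  simp only [gram, of_apply]; ring

lemma gram_psd {K : Set (Fin n → ℝ)} (hK : IsCompact K)
    (M : Matrix (Fin (n + 1)) (Fin (n + 1)) ℝ) : (gram K M).PosSemidef := by
  refine PosSemidef.of_dotProduct_mulVec_nonneg ?_ fun a => ?_
  · ext i j
    simp [gram, mul_comm]
  · rw [star_trivial, gram_quad hK]
    exact integral_nonneg fun x => mul_self_nonneg _

lemma gram_eq {K : Set (Fin n → ℝ)} (hK : IsCompact K)
    (M : Matrix (Fin (n + 1)) (Fin (n + 1)) ℝ) : gram K M = M * gram K 1 * Mᵀ := by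
  ext i j
  have := gram_quad hK 1 (M i) (M j)
  simp only [one_mulVec] at this
  rw [Matrix.mul_assoc, Matrix.mul_apply']
  exact this.symm

lemma det_gram_one {K : Set (Fin n → ℝ)} (hv : volume K = 1) (hc : ∀ i, ∫ x in K, x i = 0) :
    (gram K 1).det = (Matrix.of fun i j : Fin n => ∫ x in K, x i * x j).det := by
  have es : ∀ (x : Fin n → ℝ) i, ins 0 1 x (Fin.succ i) = x i := fun x i => ins_succAbove 0 1 x i
  rw [det_succ_row_zero, Fin.sum_univ_succ]
  have h0 : gram K 1 0 0 = 1 := by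
    simp [gram, Measure.real, hv]
  have h1 : ∀ j : Fin n, gram K 1 0 (Fin.succ j) = 0 := by
    intro j
    simp [gram, es, hc]
  simp only [h0, h1, mul_zero, zero_mul, Finset.sum_const_zero, add_zero, Fin.val_zero, pow_zero,
    one_mul]
  congr 1
  ext i j
  simp [gram, es]

lemma det_gram {K : Set (Fin n → ℝ)} (hK : IsCompact K) (hv : volume K = 1)
    (hc : ∀ i, ∫ x in K, x i = 0) (M : Matrix (Fin (n + 1)) (Fin (n + 1)) ℝ) :
    (gram K M).det = M.det ^ 2 * (Matrix.of fun i j : Fin n => ∫ x in K, x i * x j).det := by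
  rw [gram_eq hK, det_mul, det_mul, det_transpose, det_gram_one hv hc]; ring

lemma det_one_add_const {m : ℕ} (c : ℝ) :
    (1 + Matrix.of fun _ _ : Fin m => c).det = 1 + m * c := by
  have := det_one_add_replicateCol_mul_replicateRow (ι := Unit) (fun _ : Fin m => c) (fun _ => 1)
  have e : replicateCol Unit (fun _ : Fin m => c) * replicateRow Unit (fun _ : Fin m => (1 : ℝ)) =
      Matrix.of fun _ _ : Fin m => c := by
    ext i j; simp [Matrix.mul_apply]
  rw [e] at this
  simpa [dotProduct] using this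

/-- vertex matrix of a simplex -/
def vmat (v : Fin (n + 1) → Fin n → ℝ) : Matrix (Fin (n + 1)) (Fin (n + 1)) ℝ :=
  Matrix.of fun i j => ins 0 1 (v j) i

lemma vmat_mulVec (v : Fin (n + 1) → Fin n → ℝ) (c : Fin (n + 1) → ℝ) :
    vmat v *ᵥ c = ins 0 (∑ j, c j) (∑ j, c j • v j) := by
  ext i
  refine Fin.succAboveCases 0 ?_ (fun l => ?_) i
  · simp [vmat, mulVec, dotProduct]
  · simp only [vmat, mulVec, dotProduct, of_apply, ins_succAbove, Finset.sum_apply, Pi.smul_apply,
      smul_eq_mul, mul_comm]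

lemma ins_inj {s t : ℝ} {x y : Fin n → ℝ} (h : ins 0 s x = ins 0 t y) : s = t ∧ x = y := by
  constructor
  · simpa using congrFun h 0
  · ext i; simpa only [ins_succAbove] using congrFun h (Fin.succAbove 0 i)

lemma ins_zero_zero : ins 0 0 (0 : Fin n → ℝ) = 0 := by
  ext i
  refine Fin.succAboveCases 0 ?_ (fun l => ?_) i
  · simp
  · simp only [ins_succAbove, Pi.zero_apply]

lemma affInd_iff (v : Fin (n + 1) → Fin n → ℝ) : AffineIndependent ℝ v ↔ (vmat v).det ≠ 0 := by
  rw [Ne, ← exists_mulVec_eq_zero_iff, affineIndependent_iff]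
  constructor
  · rintro h ⟨c, hc, h0⟩
    rw [vmat_mulVec, ← ins_zero_zero] at h0
    obtain ⟨h1, h2⟩ := ins_inj h0
    exact hc (funext fun e => h Finset.univ c h1 h2 e (Finset.mem_univ e))
  · intro h s c h1 h2 e he
    by_contra hne
    refine h ⟨fun j => if j ∈ s then c j else 0, fun h0 => hne ?_, ?_⟩
    · simpa [he] using congrFun h0 e
    · rw [vmat_mulVec, ← ins_zero_zero]
      congr 1
      · rw [Finset.sum_ite_mem, Finset.univ_inter]; exact h1
      · simp only [ite_smul, zero_smul]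
        rw [Finset.sum_ite_mem, Finset.univ_inter]; exact h2

lemma inv_col {V : Matrix (Fin (n + 1)) (Fin (n + 1)) ℝ} (hV : V.det ≠ 0)
    (h : ∀ c, (V *ᵥ c) 0 = ∑ j, c j) (u : Fin (n + 1) → ℝ) : ∑ i, (V⁻¹ *ᵥ u) i = u 0 := by
  rw [← h, mulVec_mulVec, mul_nonsing_inv _ (Ne.isUnit hV), one_mulVec]

lemma mem_simplex_iff {v : Fin (n + 1) → Fin n → ℝ} (hv : (vmat v).det ≠ 0) (x : Fin n → ℝ) :
    x ∈ convexHull ℝ (Set.range v) ↔ 0 ≤ (vmat v)⁻¹ *ᵥ ins 0 1 x := by
  constructor
  · intro hx
    rw [convexHull_range_eq_exists_affineCombination] at hx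
    obtain ⟨s, c, h0, h1, rfl⟩ := hx
    have e : ins 0 1 (s.affineCombination ℝ v c) = vmat v *ᵥ fun j => if j ∈ s then c j else 0 := by
      rw [vmat_mulVec, Finset.affineCombination_eq_linear_combination s v c h1]
      congr 1
      · rw [Finset.sum_ite_mem, Finset.univ_inter]; exact h1.symm
      · simp only [ite_smul, zero_smul]
        rw [Finset.sum_ite_mem, Finset.univ_inter]
    rw [e, mulVec_mulVec, nonsing_inv_mul _ (Ne.isUnit hv), one_mulVec]
    intro j
    simp only [Pi.zero_apply]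
    split_ifs with hj
    · exact h0 j hj
    · exact le_rfl
  · intro hx
    have e : vmat v *ᵥ ((vmat v)⁻¹ *ᵥ ins 0 1 x) = ins 0 1 x := by
      rw [mulVec_mulVec, mul_nonsing_inv _ (Ne.isUnit hv), one_mulVec]
    rw [vmat_mulVec] at e
    obtain ⟨h1, h2⟩ := ins_inj e
    rw [← h2]
    exact (convex_convexHull ℝ _).sum_mem (fun j _ => hx j) h1
      fun j _ => subset_convexHull ℝ _ ⟨j, rfl⟩

lemma vmat_col (v : Fin (n + 1) → Fin n → ℝ) (c : Fin (n + 1) → ℝ) :
    (vmat v *ᵥ c) 0 = ∑ j, c j := by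
  rw [vmat_mulVec, ins_same]

lemma compact_simplex (v : Fin (n + 1) → Fin n → ℝ) : IsCompact (convexHull ℝ (Set.range v)) :=
  (Set.finite_range v).isCompact_convexHull ℝ

lemma simplex_transfer {v : Fin (n + 1) → Fin n → ℝ} (hv : (vmat v).det ≠ 0)
    {h : (Fin (n + 1) → ℝ) → ℝ} (hp : Poly h) (k : ℕ)
    (hh : ∀ s : ℝ, 0 < s → ∀ y, h (s • y) = s ^ k * h y) :
    ∫ y, wn y * h y = |((vmat v)⁻¹).det| * (n + k).factorial *
      ∫ x in convexHull ℝ (Set.range v), h ((vmat v)⁻¹ *ᵥ ins 0 1 x) := by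
  have := transfer (vmat v)⁻¹ (by rw [det_nonsing_inv]; simpa using hv) (inv_col hv (vmat_col v))
    (convexHull ℝ (Set.range v)) (compact_simplex v).measurableSet (fun _ => True) (by simp)
    (fun s _ x => by rw [mem_simplex_iff hv]; simp) hp k hh
  simpa using this

lemma simplex_vol {v : Fin (n + 1) → Fin n → ℝ} (hv : (vmat v).det ≠ 0) :
    |((vmat v)⁻¹).det| * n.factorial * volume.real (convexHull ℝ (Set.range v)) = 1 := by
  have := simplex_transfer hv (Poly.const 1) 0 (by simp)
  simpa [integral_wn] using this.symm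

lemma simplex_value {v : Fin (n + 1) → Fin n → ℝ} (hv : AffineIndependent ℝ v)
    (h1 : volume (convexHull ℝ (Set.range v)) = 1)
    (hc : ∀ i, ∫ x in convexHull ℝ (Set.range v), x i = 0) :
    (Matrix.of fun i j : Fin n => ∫ x in convexHull ℝ (Set.range v), x i * x j).det =
      (n.factorial : ℝ) ^ 2 / ((n + 1) ^ (n + 1) * (n + 2) ^ n) := by
  rw [affInd_iff] at hv
  have e0 := simplex_vol hv
  rw [Measure.real, h1, ENNReal.toReal_one, mul_one] at e0
  have e1 : (1 + Matrix.of fun _ _ : Fin (n + 1) => (1 : ℝ)) =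
      ((n + 1) * (n + 2) : ℝ) • gram (convexHull ℝ (Set.range v)) (vmat v)⁻¹ := by
    ext i j
    have := simplex_transfer hv ((Poly.coord i).mul (Poly.coord j)) 2 (by
      intro s _ y; simp; ring)
    rw [moment2, Nat.factorial_succ, Nat.factorial_succ] at this
    push_cast at this
    simp only [Matrix.add_apply, Matrix.one_apply, of_apply, Matrix.smul_apply, smul_eq_mul, gram]
    have e2 : (if i = j then (1 : ℝ) else 0) + 1 = if i = j then 2 else 1 := by
      split_ifs <;> norm_num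
    rw [e2, this]
    linear_combination ((n + 1) * (n + 2) * ∫ x in convexHull ℝ (Set.range v),
      ((vmat v)⁻¹ *ᵥ ins 0 1 x) i * ((vmat v)⁻¹ *ᵥ ins 0 1 x) j) * e0
  have e2 := congrArg det e1
  rw [det_one_add_const, det_smul, det_gram (compact_simplex v) h1 hc, ← sq_abs] at e2
  simp only [Fintype.card_fin] at e2
  push_cast at e2
  have hf : (0 : ℝ) < n.factorial := by positivity
  have e3 : |((vmat v)⁻¹).det| = 1 / n.factorial := by
    rw [eq_div_iff hf.ne']; exact e0
  rw [e3, mul_pow] at e2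
  rw [eq_div_iff (by positivity)]
  field_simp at e2
  have hn : (0 : ℝ) < n + 2 := by positivity
  apply mul_left_cancel₀ hn.ne'
  rw [pow_succ ((n : ℝ) + 2)] at e2
  linear_combination (-1 : ℝ) * e2

end Pool.Agent.P.MP_2e1554_gt
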