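import Pool.Agent.P.MP_2e1554_gt.LocD

open MeasureTheory Set Finset Matrix Filter Topology

namespace Pool.Agent.P.MP_2e1554_gt

variable {n : ℕ}

/-- barycentric coordinate systems of simplices containing the body -/
def Adm (K : Set (Fin n → ℝ)) (M : Matrix (Fin (n + 1)) (Fin (n + 1)) ℝ) : Prop :=
  (∀ u, ∑ i, (M *ᵥ u) i = u 0) ∧ ∀ x ∈ K, 0 ≤ M *ᵥ ins 0 1 x

lemma lift_apply (M : Matrix (Fin (n + 1)) (Fin (n + 1)) ℝ) (x : Fin n → ℝ) (i : Fin (n + 1)) :
    (M *ᵥ ins 0 1 x) i = M i 0 + ∑ j, M i (Fin.succ j) * x j := by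
  have es : ∀ j, ins 0 1 x (Fin.succ j) = x j := fun j => ins_succAbove 0 1 x j
  simp [mulVec, dotProduct, Fin.sum_univ_succ, es]

lemma Adm.le_one {K : Set (Fin n → ℝ)} {M : Matrix (Fin (n + 1)) (Fin (n + 1)) ℝ} (h : Adm K M)
    {x : Fin n → ℝ} (hx : x ∈ K) (i : Fin (n + 1)) : (M *ᵥ ins 0 1 x) i ≤ 1 := by
  have h1 := h.1 (ins 0 1 x)
  rw [ins_same] at h1
  exact (Finset.single_le_sum (f := fun i => (M *ᵥ ins 0 1 x) i) (fun j _ => h.2 x hx j)
    (Finset.mem_univ i)).trans h1.le

lemma Adm.bound {K : Set (Fin n → ℝ)} {M : Matrix (Fin (n + 1)) (Fin (n + 1)) ℝ} (hM : Adm K M)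
    {x0 : Fin n → ℝ} {r : ℝ} (hr : 0 < r) (hb : Metric.ball x0 r ⊆ K) (i j : Fin (n + 1)) :
    |M i j| ≤ 1 + 2 / r + ∑ j, 2 / r * |x0 j| := by
  have hx0K : x0 ∈ K := hb (Metric.mem_ball_self hr)
  have hs : 0 ≤ ∑ j, 2 / r * |x0 j| := Finset.sum_nonneg fun j _ => by positivity
  have hr2 : 0 < 2 / r := by positivity
  have key : ∀ j, |M i (Fin.succ j)| ≤ 2 / r := by
    intro j
    have hx1 : x0 + Pi.single j (r / 2) ∈ K := by
      apply hb
      rw [Metric.mem_ball, dist_eq_norm, add_sub_cancel_left, Pi.norm_single, Real.norm_eq_abs,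
        abs_of_pos (by positivity)]
      linarith
    have a1 := hM.2 _ hx1 i
    have a2 := hM.le_one hx1 i
    have a3 := hM.2 _ hx0K i
    have a4 := hM.le_one hx0K i
    rw [lift_apply] at a1 a2 a3 a4
    simp only [Pi.zero_apply, Pi.add_apply, mul_add, Finset.sum_add_distrib,
      Pi.single_apply, mul_ite, mul_zero, Finset.sum_ite_eq', Finset.mem_univ, if_true]
      at a1 a2 a3 a4
    rw [abs_le, neg_le, le_div_iff₀ hr, le_div_iff₀ hr]
    constructor <;> linarith
  refine Fin.cases ?_ (fun l => ?_) j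
  · have a3 := hM.2 _ hx0K i
    have a4 := hM.le_one hx0K i
    rw [lift_apply] at a3 a4
    simp only [Pi.zero_apply] at a3 a4
    have a5 : |∑ j, M i (Fin.succ j) * x0 j| ≤ ∑ j, 2 / r * |x0 j| := by
      refine (Finset.abs_sum_le_sum_abs _ _).trans (Finset.sum_le_sum fun j _ => ?_)
      rw [abs_mul]
      exact mul_le_mul_of_nonneg_right (key j) (abs_nonneg _)
    rw [abs_le] at a5 ⊢
    constructor <;> linarith [a5.1, a5.2]
  · linarith [key l]

lemma exists_opt {K : Set (Fin n → ℝ)} (hK : (interior K).Nonempty)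
    {M0 : Matrix (Fin (n + 1)) (Fin (n + 1)) ℝ} (h0 : Adm K M0) :
    ∃ M, Adm K M ∧ ∀ M', Adm K M' → |M'.det| ≤ |M.det| := by
  obtain ⟨x0, hx0⟩ := hK
  obtain ⟨r, hr, hb⟩ := Metric.mem_nhds_iff.1 (mem_interior_iff_mem_nhds.1 hx0)
  set R : ℝ := 1 + 2 / r + ∑ j, 2 / r * |x0 j| with hR
  have hcl : IsClosed {M | Adm K M} := by
    have e : {M | Adm K M} = (⋂ u : Fin (n + 1) → ℝ, {M | ∑ i, (M *ᵥ u) i = u 0}) ∩
        ⋂ x ∈ K, ⋂ i, {M : Matrix (Fin (n + 1)) (Fin (n + 1)) ℝ | 0 ≤ (M *ᵥ ins 0 1 x) i} := by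
      ext M
      simp [Adm, Pi.le_def]
    rw [e]
    have hc : ∀ (u : Fin (n + 1) → ℝ) i,
        Continuous fun M : Matrix (Fin (n + 1)) (Fin (n + 1)) ℝ => (M *ᵥ u) i :=
      fun u i => (continuous_apply i).comp (continuous_id.matrix_mulVec continuous_const)
    refine (isClosed_iInter fun u => isClosed_eq (continuous_finsetSum _ fun i _ => hc u i)
      continuous_const).inter (isClosed_biInter fun x _ => isClosed_iInter fun i =>
        isClosed_le continuous_const (hc _ i))
  have hcpt : IsCompact {M | Adm K M} := by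
    have hbox : IsCompact (Set.pi Set.univ fun _ : Fin (n + 1) =>
        Set.pi Set.univ fun _ : Fin (n + 1) => Icc (-R) R) :=
      isCompact_univ_pi fun _ => isCompact_univ_pi fun _ => isCompact_Icc
    refine IsCompact.of_isClosed_subset (s := Set.pi Set.univ fun _ : Fin (n + 1) =>
        Set.pi Set.univ fun _ : Fin (n + 1) => Icc (-R) R) hbox hcl fun M hM i _ j _ => ?_
    exact Set.mem_Icc.2 (abs_le.1 (Adm.bound hM hr hb i j))
  obtain ⟨M, hM, hmax⟩ := hcpt.exists_isMaxOn ⟨M0, h0⟩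
    (f := fun M : Matrix (Fin (n + 1)) (Fin (n + 1)) ℝ => |M.det|)
    (continuous_id.matrix_det.abs).continuousOn
  exact ⟨M, hM, fun M' hM' => hmax hM'⟩

lemma opt_cond {K : Set (Fin n → ℝ)} {M : Matrix (Fin (n + 1)) (Fin (n + 1)) ℝ} (hM : Adm K M)
    (hmax : ∀ M', Adm K M' → |M'.det| ≤ |M.det|) (hdet : M.det ≠ 0) {β : Fin (n + 1) → ℝ}
    (hβ : ∀ x ∈ K, 0 ≤ β ⬝ᵥ (M *ᵥ ins 0 1 x)) (k : Fin (n + 1)) : β k ≤ ∑ i, β i := by
  set P : ℝ → Matrix (Fin (n + 1)) (Fin (n + 1)) ℝ := fun η =>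
    diagonal (fun i => 1 - η * β i) + η • vecMulVec (Pi.single k 1) β with hP
  have hPv : ∀ η y i, (P η *ᵥ y) i =
      (1 - η * β i) * y i + η * ((Pi.single k 1 : Fin (n + 1) → ℝ) i * (β ⬝ᵥ y)) := by
    intro η y i
    simp only [hP, add_mulVec, smul_mulVec, vecMulVec_mulVec, Pi.add_apply, mulVec_diagonal,
      Pi.smul_apply, smul_eq_mul, MulOpposite.smul_eq_mul_unop, MulOpposite.unop_op]
  have hPd : ∀ η, (P η).det = ∏ i : Fin n, (1 - η * β (k.succAbove i)) := by
    intro η
    rw [det_succ_column _ k, Fin.sum_univ_succAbove _ k]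
    have e1 : P η k k = 1 := by simp [hP, vecMulVec_apply]
    have e2 : ∀ i, P η (k.succAbove i) k = 0 := by
      intro i; simp [hP, vecMulVec_apply, Fin.succAbove_ne]
    have e3 : (P η).submatrix k.succAbove k.succAbove =
        diagonal fun i => 1 - η * β (k.succAbove i) := by
      ext i j
      simp [hP, vecMulVec_apply, Fin.succAbove_ne, diagonal_apply]
    simp only [e1, e2, e3, det_diagonal, mul_zero, zero_mul, Finset.sum_const_zero, add_zero,
      mul_one]
    rw [← two_mul, pow_mul]; simp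
  have hev : ∀ᶠ η in 𝓝[>] (0 : ℝ), ∏ i : Fin n, (1 - η * β (k.succAbove i)) ≤ 1 := by
    have h1 : ∀ᶠ η in 𝓝 (0 : ℝ), ∀ i, 0 < 1 - η * β i := by
      rw [eventually_all]
      intro i
      have : Continuous fun η : ℝ => 1 - η * β i := by fun_prop
      exact this.continuousAt.eventually (lt_mem_nhds (by simp))
    filter_upwards [nhdsWithin_le_nhds h1, self_mem_nhdsWithin] with η h2 h3
    have h3 : 0 < η := h3
    have hA : Adm K (P η * M) := by
      constructor
      · intro u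
        simp only [← mulVec_mulVec, hPv, Finset.sum_add_distrib, ← Finset.mul_sum,
          ← Finset.sum_mul]
        rw [← hM.1 u]
        generalize M *ᵥ u = y
        simp only [Finset.sum_pi_single', Finset.mem_univ, if_true, one_mul, dotProduct,
          Finset.mul_sum, ← Finset.sum_add_distrib]
        exact Finset.sum_congr rfl fun i _ => by ring
      · intro x hx i
        rw [← mulVec_mulVec, hPv]
        have a1 : 0 ≤ (M *ᵥ ins 0 1 x) i := hM.2 x hx i
        have a2 := hβ x hx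
        have a3 : 0 ≤ (Pi.single k 1 : Fin (n + 1) → ℝ) i := by
          rw [Pi.single_apply]; split_ifs <;> norm_num
        have a4 := (h2 i).le
        simp only [Pi.zero_apply]
        positivity
    have h4 := hmax _ hA
    rw [det_mul, abs_mul, hPd] at h4
    have h5 : 0 < |M.det| := abs_pos.2 hdet
    have h6 : |∏ i : Fin n, (1 - η * β (k.succAbove i))| ≤ 1 := by
      by_contra hc
      push Not at hc
      nlinarith
    exact (le_abs_self _).trans h6
  have hder : HasDerivAt (fun η : ℝ => ∏ i : Fin n, (1 - η * β (k.succAbove i)))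
      (-∑ i : Fin n, β (k.succAbove i)) 0 := by
    have := HasDerivAt.fun_finsetProd (u := Finset.univ) (x := (0 : ℝ))
      (f := fun (i : Fin n) (η : ℝ) => 1 - η * β (k.succAbove i))
      (f' := fun i => -β (k.succAbove i)) (fun i _ => by
        simpa using ((hasDerivAt_id' (0 : ℝ)).mul_const (β (k.succAbove i))).const_sub 1)
    simpa using this
  have h7 : -∑ i : Fin n, β (k.succAbove i) ≤ 0 := by
    refine le_of_tendsto hder.tendsto_slope_zero_right ?_
    filter_upwards [hev, self_mem_nhdsWithin] with η h2 h3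
    have h3 : 0 < η := h3
    simp only [zero_add, zero_mul, sub_zero, Finset.prod_const_one, smul_eq_mul]
    exact mul_nonpos_of_nonneg_of_nonpos (by positivity) (by linarith)
  rw [Fin.sum_univ_succAbove _ k]
  linarith

lemma separate {K : Set (Fin n → ℝ)} (hn : 1 ≤ n) (hc : Convex ℝ K) (hcl : IsClosed K)
    {M : Matrix (Fin (n + 1)) (Fin (n + 1)) ℝ} (hM : Adm K M)
    (hmax : ∀ M', Adm K M' → |M'.det| ≤ |M.det|) (hdet : M.det ≠ 0) {x : Fin n → ℝ}
    (hx : x ∉ K) : ∃ β : Fin (n + 1) → ℝ, ∑ i, β i = 1 ∧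
      (∀ x ∈ K, 0 ≤ β ⬝ᵥ (M *ᵥ ins 0 1 x)) ∧ β ⬝ᵥ (M *ᵥ ins 0 1 x) < 0 := by
  obtain ⟨f, u, h1, h2⟩ := geometric_hahn_banach_closed_point hc hcl hx
  set γ : Fin (n + 1) → ℝ := ins 0 u (fun j => -f (Pi.single j 1)) with hγ
  have e1 : ∀ y : Fin n → ℝ, (γ ᵥ* M⁻¹) ⬝ᵥ (M *ᵥ ins 0 1 y) = u - f y := by
    intro y
    rw [dotProduct_mulVec, vecMul_vecMul, nonsing_inv_mul _ (Ne.isUnit hdet), vecMul_one,
      dotProduct, Fin.sum_univ_succAbove _ 0]
    simp only [hγ, ins_same, ins_succAbove, mul_one]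
    have : f y = ∑ j, y j * f (Pi.single j 1) := by
      conv_lhs => rw [pi_eq_sum_univ' y]
      simp [map_sum]
    rw [this, sub_eq_add_neg, ← Finset.sum_neg_distrib]
    congr 1
    exact Finset.sum_congr rfl fun j _ => by ring
  set β := γ ᵥ* M⁻¹
  have h3 : ∀ y ∈ K, 0 ≤ β ⬝ᵥ (M *ᵥ ins 0 1 y) := fun y hy => by
    rw [e1]; linarith [h1 y hy]
  have h4 : β ⬝ᵥ (M *ᵥ ins 0 1 x) < 0 := by rw [e1]; linarith
  have h5 := opt_cond hM hmax hdet h3
  have h6 : 0 < ∑ i, β i := by
    have a1 : ∑ i, β i ≤ ∑ _k : Fin (n + 1), ∑ i, β i := Finset.sum_le_sum fun k _ => h5 k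
    simp only [Finset.sum_const, Finset.card_univ, Fintype.card_fin, nsmul_eq_mul] at a1
    push_cast at a1
    have hn' : (1 : ℝ) ≤ n := by exact_mod_cast hn
    have a2 : 0 ≤ ∑ i, β i := by nlinarith
    rcases a2.lt_or_eq with h | h
    · exact h
    · exfalso
      have a3 : ∀ k ∈ (Finset.univ : Finset (Fin (n + 1))), β k ≤ 0 := fun k _ => h ▸ h5 k
      have a4 := (Finset.sum_eq_zero_iff_of_nonpos a3).1 h.symm
      have a5 : β = 0 := funext fun k => a4 k (Finset.mem_univ k)
      rw [a5, zero_dotProduct] at h4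
      exact lt_irrefl _ h4
  refine ⟨(∑ i, β i)⁻¹ • β, ?_, fun y hy => ?_, ?_⟩
  · simp only [Pi.smul_apply, smul_eq_mul, ← Finset.mul_sum]
    exact inv_mul_cancel₀ h6.ne'
  · rw [smul_dotProduct, smul_eq_mul]
    exact mul_nonneg (by positivity) (h3 y hy)
  · rw [smul_dotProduct, smul_eq_mul]
    exact mul_neg_of_pos_of_neg (by positivity) h4

lemma box_bound {P : (Fin (n + 1) → ℝ) → Prop} [DecidablePred P] (hP : MeasurableSet {y | P y})
    {ε : ℝ} (h0 : 0 < ε) (h1 : ε ≤ 1) {β : Fin (n + 1) → ℝ} (hβ : ∀ i, β i ≤ 1)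
    (hPβ : ∀ y, P y → 0 ≤ β ⬝ᵥ y) {j : Fin (n + 1)} (hj : β j < -ε) :
    ∫ y, wn y * (if P y then 1 else 0) ≤ 1 - Real.exp (-2) * (ε / (n + 1)) ^ (n + 1) := by
  set δ := ε / (n + 1) with hδ
  have hδ0 : 0 < δ := by positivity
  have hδ1 : (n + 1) * δ = ε := by rw [hδ]; field_simp
  set a : Fin (n + 1) → ℝ := Pi.single j 1 with ha
  set b : Fin (n + 1) → ℝ := fun i => a i + δ with hb
  have hab : a ≤ b := fun i => by simp only [hb]; linarith
  have ha0 : 0 ≤ a := fun i => by
    simp only [ha, Pi.single_apply, Pi.zero_apply]; split_ifs <;> norm_num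
  have hind : Integrable ((Icc a b).indicator fun _ : Fin (n + 1) → ℝ => Real.exp (-2)) := by
    rw [integrable_indicator_iff measurableSet_Icc]
    exact integrableOn_const isCompact_Icc.measure_lt_top.ne
  have e1 : ∫ y, (Icc a b).indicator (fun _ : Fin (n + 1) → ℝ => Real.exp (-2)) y =
      Real.exp (-2) * δ ^ (n + 1) := by
    rw [integral_indicator measurableSet_Icc, setIntegral_const, Measure.real,
      Real.volume_Icc_pi_toReal hab]
    simp [hb, mul_comm]
  have e2 := integral_sub integrable_wn hind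
  rw [integral_wn, e1] at e2
  rw [← e2]
  refine integral_mono ((Poly.const 1).ind hP).integrable (integrable_wn.sub hind) fun y => ?_
  have hw := wn_nonneg y
  by_cases hy : y ∈ Icc a b
  · have hy0 : 0 ≤ y := ha0.trans hy.1
    have hs : ∑ i, y i ≤ 2 := by
      have := Finset.sum_le_sum fun i (_ : i ∈ Finset.univ) => hy.2 i
      simp only [hb, ha, Finset.sum_add_distrib, Finset.sum_pi_single', Finset.mem_univ, if_true,
        Finset.sum_const, Finset.card_univ, Fintype.card_fin, nsmul_eq_mul] at this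
      push_cast at this
      linarith
    have hnP : ¬ P y := by
      intro hPy
      have h2 := hPβ y hPy
      rw [dotProduct, Fin.sum_univ_succAbove _ j] at h2
      have h3 : 1 ≤ y j := by simpa [ha] using hy.1 j
      have h4 : ∑ i : Fin n, β (j.succAbove i) * y (j.succAbove i) ≤ ∑ _i : Fin n, δ := by
        refine Finset.sum_le_sum fun i _ => ?_
        have a1 : y (j.succAbove i) ≤ δ := by
          simpa [hb, ha, Fin.succAbove_ne] using hy.2 (j.succAbove i)
        have a2 : 0 ≤ y (j.succAbove i) := hy0 _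
        nlinarith [hβ (j.succAbove i)]
      simp only [Finset.sum_const, Finset.card_univ, Fintype.card_fin, nsmul_eq_mul] at h4
      nlinarith
    simp only [indicator_of_mem hy, if_neg hnP, mul_zero]
    rw [wn_of_nonneg hy0]
    linarith [Real.exp_le_exp.2 (show -2 ≤ -∑ i, y i by linarith)]
  · simp only [indicator_of_notMem hy]
    split_ifs <;> linarith

/-- the size of the neighbourhood in dual coordinates -/
noncomputable def eps (n : ℕ) : ℝ := 1 / (4 * 4 ^ n * ((n + 1) * ((4 * n + 56) * 2 ^ (n + 1))))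

/-- the size of the neighbourhood in terms of volume -/
noncomputable def eta (n : ℕ) : ℝ := Real.exp (-2) * (eps n / (n + 1)) ^ (n + 1)

lemma eps_pos (n : ℕ) : 0 < eps n := by unfold eps; positivity

lemma eta_pos (n : ℕ) : 0 < eta n := by have := eps_pos n; unfold eta; positivity

lemma eps_le (n : ℕ) : eps n ≤ 1 := by
  unfold eps
  rw [div_le_one (by positivity)]
  have h1 : (1 : ℝ) ≤ 4 ^ n := one_le_pow₀ (by norm_num)
  have h2 : (1 : ℝ) ≤ 2 ^ (n + 1) := one_le_pow₀ (by norm_num)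
  have h3 : (0 : ℝ) ≤ n := by positivity
  refine one_le_mul_of_one_le_of_one_le (by linarith) (one_le_mul_of_one_le_of_one_le
    (by linarith) (one_le_mul_of_one_le_of_one_le (by linarith) h2))

lemma eps_cond (n : ℕ) :
    4 * 4 ^ n * ((n + 1) * eps n * ((4 * n + 56) * 2 ^ (n + 1))) ≤ (1 : ℝ) := by
  unfold eps
  apply le_of_eq
  field_simp

theorem local_max (hn : 1 ≤ n) {K : Set (Fin n → ℝ)} (hc : Convex ℝ K) (hK : IsCompact K)
    (hi : (interior K).Nonempty) (hv : volume K = 1) (hz : ∀ i, ∫ x in K, x i = 0)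
    {M0 : Matrix (Fin (n + 1)) (Fin (n + 1)) ℝ} (h0 : Adm K M0)
    (hvol : 1 - eta n < |M0.det| * n.factorial) (hd0 : M0.det ≠ 0) :
    (Matrix.of fun i j : Fin n => ∫ x in K, x i * x j).det ≤
        (n.factorial : ℝ) ^ 2 / ((n + 1) ^ (n + 1) * (n + 2) ^ n) ∧
      ((Matrix.of fun i j : Fin n => ∫ x in K, x i * x j).det =
        (n.factorial : ℝ) ^ 2 / ((n + 1) ^ (n + 1) * (n + 2) ^ n) ↔
        ∃ w : Fin (n + 1) → Fin n → ℝ, AffineIndependent ℝ w ∧
          K = convexHull ℝ (Set.range w)) ∧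
      ∃ w : Fin (n + 1) → Fin n → ℝ, AffineIndependent ℝ w ∧ K ⊆ convexHull ℝ (Set.range w) ∧
        (Matrix.of fun i j : Fin n => ∫ x in K, x i * x j).det ≤
          (n.factorial : ℝ) ^ 2 / ((n + 1) ^ (n + 1) * (n + 2) ^ n) *
            Real.exp (-(((volume (convexHull ℝ (Set.range w))).toReal - 1) / 4 ^ (n + 1))) := by
  classical
  obtain ⟨M, hM, hmax⟩ := exists_opt hi h0
  have hd1 := hmax M0 h0
  have hdpos : 0 < |M.det| := (abs_pos.2 hd0).trans_le hd1
  have hdet : M.det ≠ 0 := abs_pos.1 hdpos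
  set B : Set (Fin (n + 1) → ℝ) := {β | ∑ i, β i = 1 ∧ ∀ x ∈ K, 0 ≤ β ⬝ᵥ (M *ᵥ ins 0 1 x)} with hB
  have hle : ∀ β ∈ B, ∀ i, β i ≤ 1 := fun β hβ i => hβ.1 ▸ opt_cond hM hmax hdet hβ.2 i
  have hsingle : ∀ i, Pi.single i 1 ∈ B := fun i =>
    ⟨by simp, fun x hx => by simpa using hM.2 x hx i⟩
  set P : (Fin (n + 1) → ℝ) → Prop := fun y => ∀ β ∈ B, 0 ≤ β ⬝ᵥ y with hPdef
  have hP : MeasurableSet {y | P y} := by
    have : {y | P y} = ⋂ β ∈ B, {y | 0 ≤ β ⬝ᵥ y} := by ext y; simp [hPdef]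
    rw [this]
    exact (isClosed_biInter fun β _ => isClosed_le continuous_const
      (continuous_const.dotProduct continuous_id)).measurableSet
  have hPK : ∀ s : ℝ, 0 < s → ∀ x, (P (s • (M *ᵥ ins 0 1 x)) ∧ 0 ≤ M *ᵥ ins 0 1 x) ↔ x ∈ K := by
    intro s hs x
    constructor
    · rintro ⟨h1, -⟩
      by_contra hx
      obtain ⟨β, a1, a2, a3⟩ := separate hn hc hK.isClosed hM hmax hdet hx
      have := h1 β ⟨a1, a2⟩
      rw [dotProduct_smul, smul_eq_mul] at this
      nlinarith
    · intro hx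
      refine ⟨fun β hβ => ?_, hM.2 x hx⟩
      rw [dotProduct_smul, smul_eq_mul]
      exact mul_nonneg hs.le (hβ.2 x hx)
  have hvr : volume.real K = 1 := by rw [Measure.real, hv, ENNReal.toReal_one]
  have hS : Poly (fun z : Fin (n + 1) → ℝ => ∑ i, z i) := Poly.sum _ fun i _ => Poly.coord i
  have hS2 : Poly (fun z : Fin (n + 1) → ℝ => ∑ i, z i * z i) :=
    Poly.sum _ fun i _ => (Poly.coord i).mul (Poly.coord i)
  have T0 := transfer M hdet hM.1 K hK.measurableSet P hP hPK (Poly.const 1) 0 (by simp)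
  have T1 := transfer M hdet hM.1 K hK.measurableSet P hP hPK hS 1 (by
    intro s _ y; simp [Finset.mul_sum])
  have T2 := transfer M hdet hM.1 K hK.measurableSet P hP hPK hS2 2 (by
    intro s _ y
    rw [Finset.mul_sum]
    exact Finset.sum_congr rfl fun i _ => by simp; ring)
  simp only [hM.1, ins_same, integral_const, MeasurableSet.univ, measureReal_restrict_apply,
    Set.univ_inter, hvr, smul_eq_mul, mul_one, add_zero] at T0 T1
  rw [Nat.factorial_succ] at T1
  rw [Nat.factorial_succ, Nat.factorial_succ] at T2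
  push_cast at T1 T2
  set Q := ∫ x in K, ∑ i, (M *ᵥ ins 0 1 x) i * (M *ᵥ ins 0 1 x) i with hQ
  have hf : (0 : ℝ) < n.factorial := by positivity
  have hge : ∀ β ∈ B, ∀ i, -eps n ≤ β i := by
    intro β hβ j
    by_contra hj
    push Not at hj
    have := box_bound hP (eps_pos n) (eps_le n) (hle β hβ) (fun y hy => hy β hβ) hj
    rw [T0] at this
    have h2 := mul_le_mul_of_nonneg_right hd1 hf.le
    unfold eta at hvol
    linarith
  have hD : Dual B (eps n) := ⟨fun β hβ => hβ.1, hsingle, hle, hge, (eps_pos n).le, eps_le n⟩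
  have hPt : ∀ y, P y ↔ ¬ 0 < tau B y := by
    intro y
    rw [not_lt]
    constructor
    · intro h
      exact hD.tau_le fun β hβ => by simpa [dotProduct] using h β hβ
    · intro h β hβ
      have := hD.le_tau hβ y
      simp only [dotProduct]
      linarith
  set J := ∫ y : Fin (n + 1) → ℝ, wn y * (if 0 < tau B y then Wt y else 0) with hJ
  have hJ0 : 0 ≤ J := core_nonneg hD (eps_cond n)
  set v := |M.det| * n.factorial with hvdef
  have hvpos : 0 < v := by positivity
  have eJ : v * ((n + 1) * (n + 2) * Q - 2 * (n + 2)) = -2 - J := by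
    have i0 := ((Poly.const (n := n + 1) 1).ind hP).integrable
    have i1 := (hS.ind hP).integrable
    have i2 := (hS2.ind hP).integrable
    have iJ := (poly_Wt.ind hD.meas_pos).integrable
    have e : (fun y : Fin (n + 1) → ℝ => wn y * Wt y) = fun y =>
        (wn y * (if P y then ∑ i, y i * y i else 0) - 4 * (wn y * (if P y then ∑ i, y i else 0))
          + (2 * n) * (wn y * (if P y then 1 else 0))) +
          wn y * (if 0 < tau B y then Wt y else 0) := by
      ext y
      by_cases h : P y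
      · rw [if_pos h, if_pos h, if_pos h, if_neg ((hPt y).1 h)]
        have : Wt y = ∑ i, y i * y i - 4 * ∑ i, y i + 2 * n := by
          unfold Wt Lg
          simp only [Finset.sum_add_distrib, Finset.sum_sub_distrib, ← Finset.mul_sum,
            Finset.sum_const, Finset.card_univ, Fintype.card_fin, nsmul_eq_mul, sq]
          push_cast; ring
        rw [this]; ring
      · rw [if_neg h, if_neg h, if_neg h, if_pos (by simpa [hPt y] using h)]
        ring
    have i3 : Integrable fun y : Fin (n + 1) → ℝ => wn y * (if P y then ∑ i, y i * y i else 0) -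
        4 * (wn y * (if P y then ∑ i, y i else 0)) := i2.sub (i1.const_mul 4)
    have i4 : Integrable fun y : Fin (n + 1) → ℝ => wn y * (if P y then ∑ i, y i * y i else 0) -
        4 * (wn y * (if P y then ∑ i, y i else 0)) +
        (2 * n) * (wn y * (if P y then 1 else 0)) := i3.add (i0.const_mul _)
    have := integral_Wt (m := n + 1)
    rw [e, integral_add i4 iJ, integral_add i3 (i0.const_mul _), integral_sub i2 (i1.const_mul 4),
      integral_const_mul, integral_const_mul, T0, T1, T2, ← hJ] at this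
    rw [hvdef]
    linear_combination this
  -- the determinant bound
  obtain ⟨r, hr0, hr⟩ : ∃ r : ℝ, 0 < r ∧ r ^ 2 * (n + 2) = 1 :=
    ⟨(Real.sqrt (n + 2))⁻¹, by positivity, by
      rw [inv_pow, Real.sq_sqrt (by positivity)]; field_simp⟩
  set α : ℝ := (r - 1) / (n + 1) with hα
  have hα' : (n + 1) * α = r - 1 := by rw [hα]; field_simp
  set R : Matrix (Fin (n + 1)) (Fin (n + 1)) ℝ := 1 + Matrix.of fun _ _ => α with hR
  have hRd : R.det = r := by
    rw [hR, det_one_add_const]; push_cast; linarith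
  have hRv : ∀ x i, ((R * M) *ᵥ ins 0 1 x) i = (M *ᵥ ins 0 1 x) i + α := by
    intro x i
    rw [← mulVec_mulVec, hR, add_mulVec, one_mulVec, Pi.add_apply]
    congr 1
    have := hM.1 (ins 0 1 x)
    rw [ins_same] at this
    simp only [mulVec, dotProduct, of_apply, ← Finset.mul_sum] at this ⊢
    rw [this, mul_one]
  have htr : (gram K (R * M)).trace = Q - 1 / (n + 2) := by
    simp only [trace, diag_apply, gram, of_apply]
    rw [← integral_finsetSum _ fun i _ => int_lift hK (R * M) i i]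
    have e : ∀ x, ∑ i, ((R * M) *ᵥ ins 0 1 x) i * ((R * M) *ᵥ ins 0 1 x) i =
        ∑ i, (M *ᵥ ins 0 1 x) i * (M *ᵥ ins 0 1 x) i - 1 / (n + 2) := by
      intro x
      have h1 := hM.1 (ins 0 1 x)
      rw [ins_same] at h1
      simp only [hRv]
      generalize M *ᵥ ins 0 1 x = y at h1 ⊢
      have : ∀ i, (y i + α) * (y i + α) = y i * y i + 2 * α * y i + α ^ 2 := fun i => by ring
      simp only [this, Finset.sum_add_distrib, ← Finset.mul_sum, h1, Finset.sum_const,
        Finset.card_univ, Fintype.card_fin, nsmul_eq_mul]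
      push_cast
      have h2 : 2 * α + (n + 1) * α ^ 2 = -(1 / (n + 2)) := by
        have h3 : ((n : ℝ) + 1) ≠ 0 := by positivity
        have h4 : ((n : ℝ) + 2) ≠ 0 := by positivity
        apply mul_left_cancel₀ h3
        apply mul_left_cancel₀ h4
        have h5 : ((n : ℝ) + 2) * ((n + 1) * -(1 / (n + 2))) = -(n + 1) := by field_simp
        rw [h5]
        linear_combination (n + 2) * (((n + 1) * α + r + 1)) * hα' + hr
      linarith
    simp only [e]
    rw [integral_sub (integrable_finsetSum _ fun i _ => int_lift hK M i i)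
      (integrableOn_const hK.measure_lt_top.ne)]
    simp [hvr, hQ]
  have hpsd : (((n + 1) * (n + 2) : ℝ) • gram K (R * M)).PosSemidef :=
    (gram_psd hK _).smul (by positivity)
  have hexp := det_le_exp hpsd
  rw [det_smul, trace_smul, htr, det_gram hK hv hz, det_mul, hRd, mul_pow, mul_pow,
    ← sq_abs M.det] at hexp
  simp only [Fintype.card_fin, smul_eq_mul] at hexp
  push_cast at hexp
  set A := (Matrix.of fun i j : Fin n => ∫ x in K, x i * x j).det with hA
  have e5 : ((n : ℝ) + 1) * (n + 2) * (Q - 1 / (n + 2)) - (n + 1) = 2 - 2 * v⁻¹ - J * v⁻¹ := by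
    have h4 : ((n : ℝ) + 2) ≠ 0 := by positivity
    field_simp
    linear_combination eJ
  rw [e5] at hexp
  have e6 : Real.exp (2 - 2 * v⁻¹ - J * v⁻¹) ≤ v ^ 2 * Real.exp (-(J * v⁻¹)) := by
    have a1 : v⁻¹ ≤ Real.exp (v⁻¹ - 1) := by linarith [Real.add_one_le_exp (v⁻¹ - 1)]
    have a2 : Real.exp (1 - v⁻¹) ≤ v := by
      have a3 : Real.exp (1 - v⁻¹) * Real.exp (v⁻¹ - 1) = 1 := by
        rw [← Real.exp_add]; simp
      have a4 := mul_le_mul_of_nonneg_left a1 (Real.exp_pos (1 - v⁻¹)).le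
      rw [a3, ← div_eq_mul_inv, div_le_one hvpos] at a4
      exact a4
    have a5 : Real.exp (2 - 2 * v⁻¹ - J * v⁻¹) =
        Real.exp (1 - v⁻¹) ^ 2 * Real.exp (-(J * v⁻¹)) := by
      rw [sq, ← Real.exp_add, ← Real.exp_add]; congr 1; ring
    rw [a5]
    have := (Real.exp_pos (1 - v⁻¹)).le
    gcongr
  have hbound : A ≤ (n.factorial : ℝ) ^ 2 / ((n + 1) ^ (n + 1) * (n + 2) ^ n) *
      Real.exp (-(J * v⁻¹)) := by
    have a1 := hexp.trans e6
    rw [div_mul_eq_mul_div, le_div_iff₀ (by positivity)]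
    have a2 : ((n : ℝ) + 1) ^ (n + 1) * (n + 2) ^ (n + 1) * (r ^ 2 * |M.det| ^ 2 * A) =
        |M.det| ^ 2 * (A * ((n + 1) ^ (n + 1) * (n + 2) ^ n)) := by
      rw [pow_succ ((n : ℝ) + 2)]
      linear_combination (|M.det| ^ 2 * (A * ((n + 1) ^ (n + 1) * (n + 2) ^ n))) * hr
    rw [a2, hvdef, mul_pow, mul_assoc] at a1
    exact le_of_mul_le_mul_left a1 (by positivity)
  have hc0 : (0 : ℝ) < (n.factorial : ℝ) ^ 2 / ((n + 1) ^ (n + 1) * (n + 2) ^ n) := by positivity
  have hJv : 0 ≤ J * v⁻¹ := by positivity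
  set u : Fin (n + 1) → Fin n → ℝ := fun j i => M⁻¹ (Fin.succAbove 0 i) j with hu
  have hV : vmat u = M⁻¹ := by
    ext i j
    refine Fin.succAboveCases 0 ?_ (fun l => ?_) i
    · have := hM.1 (M⁻¹ *ᵥ Pi.single j 1)
      rw [mulVec_mulVec, mul_nonsing_inv _ (Ne.isUnit hdet), one_mulVec] at this
      simp only [Finset.sum_pi_single', Finset.mem_univ, if_true, mulVec_single_one,
        col_apply] at this
      simp only [vmat, of_apply, ins_same]
      exact this
    · simp only [vmat, of_apply, ins_succAbove, hu]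
  have hVd : (vmat u).det ≠ 0 := by
    rw [hV, det_nonsing_inv]; simpa using hdet
  refine ⟨hbound.trans (mul_le_of_le_one_right hc0.le (Real.exp_le_one_iff.2 (by linarith))),
    ⟨?_, ?_⟩, u, (affInd_iff u).2 hVd, fun x hx => ?_, hbound.trans ?_⟩
  · intro heq
    have hJ1 : J ≤ 0 := by
      by_contra hJ1
      push Not at hJ1
      have a1 : Real.exp (-(J * v⁻¹)) < 1 := Real.exp_lt_one_iff.2 (by
        have : 0 < J * v⁻¹ := by positivity
        linarith)
      rw [heq] at hbound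
      nlinarith
    have hpos := core_eq hD hn (eps_cond n) hJ1
    have hKM : ∀ x, x ∈ K ↔ 0 ≤ M *ᵥ ins 0 1 x := by
      intro x
      refine ⟨hM.2 x, fun hx => (hPK 1 one_pos x).1 ⟨fun β hβ => ?_, hx⟩⟩
      rw [one_smul]
      exact dotProduct_nonneg_of_nonneg (fun j => hpos β hβ j) hx
    refine ⟨u, (affInd_iff u).2 hVd, ?_⟩
    ext x
    rw [mem_simplex_iff hVd, hV, nonsing_inv_nonsing_inv _ (Ne.isUnit hdet), hKM]
  · rintro ⟨u, hu, rfl⟩
    exact simplex_value hu hv hz
  · rw [mem_simplex_iff hVd, hV, nonsing_inv_nonsing_inv _ (Ne.isUnit hdet)]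
    exact hM.2 x hx
  · apply mul_le_mul_of_nonneg_left _ hc0.le
    apply Real.exp_le_exp.2
    have a1 := simplex_vol hVd
    rw [hV, nonsing_inv_nonsing_inv _ (Ne.isUnit hdet), ← hvdef, Measure.real] at a1
    have a2 : (volume (convexHull ℝ (Set.range u))).toReal = v⁻¹ :=
      eq_inv_of_mul_eq_one_right a1
    have a3 := core_vol hD (eps_cond n)
    have a4 : ∫ y : Fin (n + 1) → ℝ, wn y * (if 0 < tau B y then 1 else 0) = 1 - v := by
      have i0 := ((Poly.const (n := n + 1) 1).ind hP).integrable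
      have b1 := integral_sub integrable_wn i0
      rw [integral_wn, T0] at b1
      rw [← b1]
      congr 1; ext y
      by_cases h : P y
      · rw [if_pos h, if_neg ((hPt y).1 h)]; ring
      · rw [if_neg h, if_pos (by simpa [hPt y] using h)]; ring
    rw [a4, ← hJ] at a3
    rw [a2, neg_le_neg_iff, div_le_iff₀ (by positivity), pow_succ]
    have a5 := mul_le_mul_of_nonneg_right a3 (inv_pos.2 hvpos).le
    rw [sub_mul, mul_inv_cancel₀ hvpos.ne'] at a5
    linarith

end Pool.Agent.P.MP_2e1554_gt
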