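import Pool.Agent.P.MP_2e1554_gt.ZcL0
import Pool.Agent.P.MP_2e1554_gt.ZcL1

set_option maxRecDepth 1000000
set_option linter.all false

namespace Pool.Agent.P.MP_2e1554_gt.Chk

theorem Zctop : TopOK ⟨0, 31457280, 0, 32768, 18874368, 37748736, 18874368, 37748736⟩ :=
(sT (sT (sT (sT Zcg0
(sF (sT Zcg1
(sT Zcg2
(sF (sF Zcg3
Zcg4)
Zcg5)))
Zcg6))
(sF (sF (sF (sF (sA (sB (sB (sF Zcg7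
(sT Zcg8
(sT Zcg9
Zcg10)))
Zcg11)
Zcg12)
Zcg13)
(sA Zcg14
Zcg15))
Zcg16)
Zcg17)
Zcg18))
(sT (sF (sF (sF (sF (sA (sB (sB (sF Zcg19
(sT Zcg20
(sF Zcg21
Zcg22)))
Zcg23)
Zcg24)
Zcg25)
(sA (sB (sB (sB Zcg26
Zcg27)
Zcg28)
Zcg29)
Zcg30))
Zcg31)
Zcg32)
Zcg33)
(sF (sF (sF (sF Zcg34
(sA (sA (sB (sB Zcg35
Zcg36)
Zcg37)
Zcg38)
Zcg39))
(sF (sA (sB (sB Zcg40
Zcg41)
Zcg42)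
Zcg43)
Zcg44))
Zcg45)
Zcg46)))
(sT (sT (sF (sF (sF Zcg47
(sF Zcg48
(sB (sB (sA (sA (sT Zcg49
Zcg50)
Zcg51)
Zcg52)
Zcg53)
Zcg54)))
(sF (sF Zcg55
Zcg56)
Zcg57))
Zcg58)
(sF (sF Zcg59
(sF (sF (sB (sA (sA (sT Zcg60
Zcg61)
Zcg62)
Zcg63)
Zcg64)
Zcg65)
Zcg66))
Zcg67))
(sT (sF (sF Zcg68
(sF (sF Zcg69
Zcg70)
Zcg71))
Zcg72)
(sT (sF (sF Zcg73
(sF Zcg74
(sF (sA Zcg75
Zcg76)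
Zcg77)))
(sF (sF (sF Zcg78
Zcg79)
Zcg80)
Zcg81))
(sF Zcg82
(sF Zcg83
(sF Zcg84
(sF Zcg85
(sA (sB (sF (sB (sT (sA (sT (sB (sT (sF Zcg86
(sA (sF Zcg87
Zcg88)
Zcg89))
Zcg90)
(sT (sF Zcg91
(sA Zcg92
Zcg93))
Zcg94))
Zcg95)
Zcg96)
Zcg97)
Zcg98)
(sA (sA (sB (sF (sA (sB (sA (sT (sB Zcg99
Zcg100)
Zcg101)
(sT (sB Zcg102
Zcg103)
Zcg104))
(sT (sA (sF Zcg105
Zcg106)
Zcg107)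
Zcg108))
Zcg109)
(sA (sB (sF Zcg110
Zcg111)
Zcg112)
Zcg113))
Zcg114)
Zcg115)
Zcg116))
Zcg117)
Zcg118)))))))))

end Pool.Agent.P.MP_2e1554_gt.Chk
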